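import Pool.Agent.Run7.h296.T11

/-!
The two applications in general form: shifts from given sets, multiplied constant terms.
-/

set_option autoImplicit false

open Finset

namespace Run7.h296

/-- a greedy choice from different sets -/
theorem greedy2 : ∀ (s : ℕ) (V : Fin s → ℕ) (E : Fin s → Finset ℕ), (∀ t, s ≤ (E t).card) →
    ∃ e : Fin s → ℕ, (∀ t, e t ∈ E t) ∧ Function.Injective (fun t => V t + e t) := by
  classical
  intro s
  induction s with
  | zero =>
    intro V E _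
    exact ⟨fun t => t.elim0, fun t => t.elim0, fun t => t.elim0⟩
  | succ s ih =>
    intro V E hs
    obtain ⟨e, he, hinj⟩ := ih (fun t => V t.castSucc) (fun t => E t.castSucc) (fun t => by
      have := hs t.castSucc
      omega)
    obtain ⟨x, hxE, hx⟩ : ∃ x ∈ E (Fin.last s), x ∉ univ.image
        (fun t : Fin s => V t.castSucc + e t - V (Fin.last s)) := by
      apply exists_mem_notMem_of_card_lt_card
      refine lt_of_le_of_lt card_image_le ?_
      rw [card_univ, Fintype.card_fin]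
      have := hs (Fin.last s)
      omega
    have hx' : ∀ t : Fin s, V (Fin.last s) + x ≠ V t.castSucc + e t := by
      intro t h
      apply hx
      rw [mem_image]
      exact ⟨t, mem_univ _, by omega⟩
    refine ⟨Fin.snoc e x, ?_, ?_⟩
    · intro t
      refine Fin.lastCases ?_ (fun t => ?_) t
      · rw [Fin.snoc_last]
        exact hxE
      · rw [Fin.snoc_castSucc]
        exact he t
    · intro t t'
      refine Fin.lastCases ?_ (fun t => ?_) t
      · refine Fin.lastCases ?_ (fun t' => ?_) t'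
        · intro _
          rfl
        · intro h
          simp only [Fin.snoc_last, Fin.snoc_castSucc] at h
          exact absurd h (hx' t')
      · refine Fin.lastCases ?_ (fun t' => ?_) t'
        · intro h
          simp only [Fin.snoc_last, Fin.snoc_castSucc] at h
          exact absurd h.symm (hx' t)
        · intro h
          simp only [Fin.snoc_castSucc] at h
          rw [hinj h]

/-- small primes do not divide the values at arguments congruent to `sig b s` -/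
theorem sig_ndvd {a b s W y p : ℕ} (hp : p.Prime) (hps : p ≤ s + 2) (hpW : p ∣ W)
    (hab : a.Coprime b) (hy : y ≡ sig b s [MOD W]) : ¬ p ∣ a * y + b := by
  intro hd
  apply sig_spec hp hps hab
  have h1 : a * y + b ≡ a * sig b s + b [MOD p] :=
    Nat.ModEq.add_right _ (Nat.ModEq.mul_left _ (hy.of_dvd hpW))
  exact (h1.dvd_iff dvd_rfl).1 hd

/-- the class of the shifts -/
theorem cls_shift {W s V e σ : ℕ} (hW : 1 ≤ W) (he : e % (W * s) = (σ + (W - 1) * V) % W)
    (hs : 1 ≤ s) : W + V + e ≡ σ [MOD W] := by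
  have h1 : e ≡ (σ + (W - 1) * V) % W [MOD W * s] := by
    unfold Nat.ModEq
    rw [he]
    apply (Nat.mod_eq_of_lt _).symm
    have h2 := Nat.mod_lt (σ + (W - 1) * V) (show 0 < W by omega)
    have h3 : W * 1 ≤ W * s := Nat.mul_le_mul_left _ hs
    omega
  have h2 : e ≡ σ + (W - 1) * V [MOD W] := (h1.of_dvd (dvd_mul_right _ _)).trans (Nat.mod_modEq _ _)
  calc W + V + e ≡ 0 + V + (σ + (W - 1) * V) [MOD W] :=
        ((Nat.modEq_zero_iff_dvd.2 dvd_rfl).add_right _).add h2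
    _ = σ + ((W - 1) + 1) * V := by ring
    _ = σ + W * V := by rw [Nat.sub_add_cancel hW]
    _ ≡ σ + 0 [MOD W] := by
        apply Nat.ModEq.add_left
        exact Nat.modEq_zero_iff_dvd.2 (dvd_mul_right _ _)
    _ = σ := add_zero _

/-- **A positive proportion of arbitrary forms after shifts from given sets** -/
theorem part_oneE {C₁ : ℕ} {Q : ℕ → ℕ} {χ : ∀ i : ℕ, DirichletCharacter ℂ (Q i)} (hC₁ : 1 ≤ C₁)
    (hgen : GenP C₁ Q χ) (R B ℓ : ℕ) (hR : 1 ≤ R) :
    ∃ (N A C D : ℕ) (γ : ℝ), 0 < N ∧ 0 < γ ∧ (∀ j, D < Q (j + D)) ∧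
    ∀ (a b v : Fin R → ℕ) (E : Fin R → Finset ℕ) (X P : ℕ),
    (∀ i, b i < a i ∧ (a i).Coprime (b i) ∧ a i ∣ P ∧ v i ≤ X) →
    (∀ i, (∀ e ∈ E i, e ≤ X) ∧ ∀ c < N, N ≤ ((E i).filter (fun e => e % N = c)).card) →
    1 ≤ X → X ≤ P → ∀ j : ℕ, 2 ^ 2 ^ j ≤ P → P < 2 ^ 2 ^ (j + 1) →
    ∀ G : Finset (Fin R), G.Nonempty → (∀ i ∈ G, ¬ Q (j + D) ∣ D * a i ∨
      (Q (j + D) ∣ a i ∧ χ (j + D) ((b i : ℕ) : ZMod (Q (j + D))) = -1)) →
    ∃ (n d : ℕ) (e : Fin R → ℕ) (U : Finset (Fin R)), (n : ℝ) ≤ γ * (P : ℝ) ^ A ∧ 1 ≤ d ∧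
      (d : ℝ) ≤ γ * X * Real.log P ^ C ∧ (∀ i, e i ∈ E i) ∧ U ⊆ G ∧ G.card ≤ C₁ * U.card ∧
      ∀ h < ℓ, (∀ i ∈ U, (a i * (n + h * d + v i + e i) + b i).Prime) ∧
        ∀ i, ArithmeticFunction.cardFactors (a i * (n + h * d + v i + e i) + b i) ≤ D ∧
          ∀ p : ℕ, p.Prime → p ∣ a i * (n + h * d + v i + e i) + b i → P ^ B < p := by
  classical
  obtain ⟨S, hS1, hg⟩ := hgen R B ℓ hR
  obtain ⟨s, hs⟩ : ∃ s : ℕ, s = C₁ * R * S := ⟨_, rfl⟩
  have hs1 : 1 ≤ s := by rw [hs]; exact Nat.mul_pos (Nat.mul_pos hC₁ hR) hS1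
  obtain ⟨W, hW⟩ : ∃ W : ℕ, W = (s + 2).factorial := ⟨_, rfl⟩
  have hW1 : 1 ≤ W := by rw [hW]; exact Nat.one_le_iff_ne_zero.2 (Nat.factorial_ne_zero _)
  have hWs : 1 ≤ W * s := Nat.mul_pos hW1 hs1
  have hWWs : W ≤ W * s := Nat.le_mul_of_pos_right _ hs1
  have hsWs : s ≤ W * s := Nat.le_mul_of_pos_left _ hW1
  obtain ⟨A, C, D, γ, hγ, hMD, hDQ, hh⟩ := hg (W + 3) (by omega)
  refine ⟨W * s, A, C, D, γ + W, hWs, by positivity, hDQ, ?_⟩
  intro a b v E X P hab hE hX1 hXP j hPj hPj' G hG hGQ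
  have hP2 : 2 ≤ P := (two_le_pp j).trans hPj
  obtain ⟨ε, hε1, hε2⟩ := greedy2 (C₁ * R * S) (fun t => v (fidx t))
    (fun t => (E (fidx t)).filter
      (fun e => e % (W * s) = (sig (b (fidx t)) s + (W - 1) * v (fidx t)) % W)) (by
      intro t
      rw [← hs]
      refine hsWs.trans ((hE (fidx t)).2 _ ?_)
      have := Nat.mod_lt (sig (b (fidx t)) s + (W - 1) * v (fidx t)) (show 0 < W by omega)
      omega)
  have hε : ∀ t, ε t ∈ E (fidx t) ∧
      ε t % (W * s) = (sig (b (fidx t)) s + (W - 1) * v (fidx t)) % W := fun t => mem_filter.1 (hε1 t)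
  have hy : ∀ t, W + v (fidx t) + ε t ≡ sig (b (fidx t)) s [MOD W] := fun t =>
    cls_shift hW1 (hε t).2 hs1
  obtain ⟨n, d, t, U, ht, hn, hd1, hd2, hUG, hUc, hfin⟩ := hh a b
    (fun t => W + v (fidx t) + ε t) P X P
    (fun i => ⟨(hab i).1, (hab i).2.1, (hab i).2.2.1⟩)
    (by
      intro t
      have h1 := (hE (fidx t)).1 _ (hε t).1
      have h2 := (hab (fidx t)).2.2.2
      refine ⟨by omega, ?_⟩
      have h4 : W ≤ W * X := Nat.le_mul_of_pos_right _ hX1
      calc W + v (fidx t) + ε t + 1 ≤ W * X + 3 * X := by omega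
        _ = (W + 3) * X := by ring)
    (by
      intro p hp hps t
      rw [← hs] at hps
      refine sig_ndvd hp hps ?_ (hab (fidx t)).2.1 (hy t)
      rw [hW]
      exact (hp.dvd_factorial).2 hps)
    (by
      intro t t' _ _ hyy
      apply hε2
      have h1 : W + v (fidx t) + ε t = W + v (fidx t') + ε t' := hyy
      show v (fidx t) + ε t = v (fidx t') + ε t'
      omega)
    (by omega) (Nat.le_self_pow (by omega) _) hX1 hXP j hPj hPj' G hG hGQ
  refine ⟨n + W, d, fun i => ε (t i), U, ?_, hd1, ?_, ?_, hUG, hUc, ?_⟩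
  · push_cast
    have hP1r : (1 : ℝ) ≤ P := by exact_mod_cast (by omega : 1 ≤ P)
    have h1 : (W : ℝ) ≤ W * (P : ℝ) ^ A :=
      le_mul_of_one_le_right (Nat.cast_nonneg _) (one_le_pow₀ hP1r)
    calc (n : ℝ) + W ≤ γ * (P : ℝ) ^ A + W * (P : ℝ) ^ A := add_le_add hn h1
      _ = _ := by ring
  · refine hd2.trans ?_
    have hlogP0 : 0 ≤ Real.log P := Real.log_natCast_nonneg P
    apply mul_le_mul_of_nonneg_right _ (by positivity)
    apply mul_le_mul_of_nonneg_right _ (by positivity)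
    have h1 : (0 : ℝ) ≤ W := by positivity
    linarith
  · intro i
    have h1 := (hε (t i)).1
    rw [ht] at h1
    exact h1
  · have hval : ∀ i h, a i * (n + W + h * d + v i + ε (t i)) + b i =
        a i * (n + h * d + (W + v (fidx (t i)) + ε (t i))) + b i := by
      intro i h
      rw [ht]
      ring
    intro h hh'
    have h1 := hfin h hh'
    refine ⟨fun i hi => ?_, fun i => ?_⟩
    · rw [hval]
      exact h1.1 i hi
    · rw [hval]
      exact h1.2 i

/-- **All the forms of a system, up to partial products, partial sums and shifts from a given set** -/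
theorem part_twoE {C₁ : ℕ} {Q : ℕ → ℕ} {χ : ∀ i : ℕ, DirichletCharacter ℂ (Q i)} (hC₁ : 1 ≤ C₁)
    (hgen : GenP C₁ Q χ) (k ℓ : ℕ) :
    ∃ (N A C D : ℕ) (γ : ℝ), 0 < N ∧ 0 < γ ∧ (∀ j, D < Q (j + D)) ∧
    ∀ (a b : ℕ) (r β v : Fin N → Fin (k + 1) → ℕ) (E : Finset ℕ) (X P : ℕ), 1 ≤ a →
    (∀ u i, 1 ≤ r u i ∧ 1 ≤ β u i ∧ v u i ≤ X) →
    (a * ∏ u, ∏ i, r u i).Coprime (b * ∏ u, ∏ i, β u i) → b * ∏ u, ∏ i, β u i ≤ a * X →
    ((∀ c < N, N ≤ (E.filter (fun e => e % N = c)).card) ∨ ((∀ u i, β u i = 1) ∧ N ≤ E.card)) →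
    (∀ e ∈ E, e ≤ X) → 1 ≤ X → X ≤ P → a * ∏ u, ∏ i, r u i ≤ P →
    ∀ j : ℕ, 2 ^ 2 ^ j ≤ P → P < 2 ^ 2 ^ (j + 1) →
    (¬ Q (j + D) ∣ D * (a * ∏ u, ∏ i, r u i) ∨
      (Q (j + D) ∣ a ∧ χ (j + D) ((b : ℕ) : ZMod (Q (j + D))) = -1 ∧
        ∀ u i, χ (j + D) ((β u i : ℕ) : ZMod (Q (j + D))) = 1)) →
    ∃ (n d c c' : ℕ) (T : Finset (Fin N)) (e : Fin (k + 1) → ℕ), (n : ℝ) ≤ γ * (P : ℝ) ^ A ∧
      1 ≤ d ∧ (d : ℝ) ≤ γ * X * Real.log P ^ C ∧ T.Nonempty ∧ c ∣ ∏ u, ∏ i, r u i ∧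
      c' ∣ ∏ u, ∏ i, β u i ∧ (∀ i, e i ∈ E) ∧
      Function.Injective (fun i => (∏ u ∈ T, r u i,
        a * c * (∏ u ∈ T, r u i) * (∑ u ∈ T, v u i + e i) + b * c' * ∏ u ∈ T, β u i)) ∧
      ∀ i, ∀ h < ℓ,
        (a * c * (∏ u ∈ T, r u i) * (n + h * d + ∑ u ∈ T, v u i + e i) +
          b * c' * ∏ u ∈ T, β u i).Prime := by
  classical
  obtain ⟨N₁, hN₁, hdhj⟩ := dhj_card k C₁ hC₁
  obtain ⟨ω⟩ : Nonempty (Fin (Fintype.card (Fin N₁ → Fin (k + 1))) ≃ (Fin N₁ → Fin (k + 1))) :=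
    ⟨(Fintype.equivFin _).symm⟩
  obtain ⟨R, hR⟩ : ∃ R : ℕ, R = Fintype.card (Fin N₁ → Fin (k + 1)) := ⟨_, rfl⟩
  rw [← hR] at ω
  have hR1 : 1 ≤ R := by rw [hR]; exact Fintype.card_pos
  obtain ⟨S, hS1, hg⟩ := hgen R 0 ℓ hR1
  obtain ⟨s, hs⟩ : ∃ s : ℕ, s = C₁ * R * S := ⟨_, rfl⟩
  have hs1 : 1 ≤ s := by rw [hs]; exact Nat.mul_pos (Nat.mul_pos hC₁ hR1) hS1
  obtain ⟨W, hW⟩ : ∃ W : ℕ, W = (s + 2).factorial := ⟨_, rfl⟩
  have hW1 : 1 ≤ W := by rw [hW]; exact Nat.one_le_iff_ne_zero.2 (Nat.factorial_ne_zero _)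
  obtain ⟨M', hM'⟩ : ∃ M' : ℕ, M' = W ^ k + s := ⟨_, rfl⟩
  have hM'1 : 1 ≤ M' := by omega
  obtain ⟨M, hM⟩ : ∃ M : ℕ, M = W * M' := ⟨_, rfl⟩
  have hM1 : 1 ≤ M := by rw [hM]; exact Nat.mul_pos hW1 hM'1
  obtain ⟨N, hN⟩ : ∃ N : ℕ, N = N₁ * M := ⟨_, rfl⟩
  have hN1 : 0 < N := by rw [hN]; exact Nat.mul_pos hN₁ hM1
  have hNW : W * s ≤ N := by
    rw [hN, hM, hM']
    calc W * s ≤ W * (W ^ k + s) := Nat.mul_le_mul_left _ (Nat.le_add_left _ _)
      _ ≤ _ := Nat.le_mul_of_pos_left _ hN₁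
  have hNdvd : ∃ s', 1 ≤ s' ∧ N = W * s' := ⟨N₁ * M', Nat.mul_pos hN₁ hM'1, by rw [hN, hM]; ring⟩
  have hMb : W ^ (k + 1) ≤ M := by
    rw [hM, hM', pow_succ, mul_comm (W ^ k) W]
    exact Nat.mul_le_mul_left _ (Nat.le_add_right _ _)
  obtain ⟨A, C, D, γ, hγ, hMD, hDQ, hh⟩ := hg (2 * W + N + 3) (by omega)
  refine ⟨N, A + 1, C, D, γ + 2 * W + N, hN1, by positivity, hDQ, ?_⟩
  subst hN
  intro a b r β v E X P ha0 hrv hcop hbX hEN hEX hX1 hXP haP j hPj hPj' hQ
  have hP2 : 2 ≤ P := (two_le_pp j).trans hPj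
  have hr0 : ∏ u, ∏ i, r u i ≠ 0 :=
    prod_ne_zero_iff.2 (fun u _ => prod_ne_zero_iff.2 (fun i _ => by
      have := (hrv u i).1
      omega))
  have hβ0 : ∏ u, ∏ i, β u i ≠ 0 :=
    prod_ne_zero_iff.2 (fun u _ => prod_ne_zero_iff.2 (fun i _ => by
      have := (hrv u i).2.1
      omega))
  -- the data for given blocks
  have main : ∀ (Bl : Fin N₁ → Finset (Fin M)) (x₀ : ℕ)
      (ε : Fin (C₁ * R * S) → ℕ), (∀ q, (Bl q).Nonempty) → 1 ≤ x₀ → x₀ ≤ 2 * W →
      (∀ t, ε t ∈ E) →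
      (∀ t, x₀ + (∑ q, bsum v Bl q (ω (fidx t) q)) + ε t ≡
        sig (b * ∏ q, bprod β Bl q (ω (fidx t) q)) s [MOD W]) →
      (Function.Injective (fun t => (∑ q, bsum v Bl q (ω (fidx t) q)) +
        (b * ∏ q, bprod β Bl q (ω (fidx t) q)) / (a * ∏ q, bprod r Bl q (ω (fidx t) q)) + ε t)) →
      ∃ (n d c c' : ℕ) (T : Finset (Fin (N₁ * M))) (e : Fin (k + 1) → ℕ),
      (n : ℝ) ≤ (γ + 2 * W + (N₁ * M : ℕ)) * (P : ℝ) ^ (A + 1) ∧
      1 ≤ d ∧ (d : ℝ) ≤ (γ + 2 * W + (N₁ * M : ℕ)) * X * Real.log P ^ C ∧ T.Nonempty ∧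
      c ∣ ∏ u, ∏ i, r u i ∧
      c' ∣ ∏ u, ∏ i, β u i ∧ (∀ i, e i ∈ E) ∧
      Function.Injective (fun i => (∏ u ∈ T, r u i,
        a * c * (∏ u ∈ T, r u i) * (∑ u ∈ T, v u i + e i) + b * c' * ∏ u ∈ T, β u i)) ∧
      ∀ i, ∀ h < ℓ,
        (a * c * (∏ u ∈ T, r u i) * (n + h * d + ∑ u ∈ T, v u i + e i) +
          b * c' * ∏ u ∈ T, β u i).Prime := by
    intro Bl x₀ ε hBl hx₀1 hx₀2 hεE hymod hεinj
    obtain ⟨V, hV⟩ : ∃ V : (Fin N₁ → Fin (k + 1)) → ℕ, V = fun w => ∑ q, bsum v Bl q (w q) :=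
      ⟨_, rfl⟩
    obtain ⟨ρ, hρ⟩ : ∃ ρ : (Fin N₁ → Fin (k + 1)) → ℕ, ρ = fun w => ∏ q, bprod r Bl q (w q) :=
      ⟨_, rfl⟩
    obtain ⟨τ, hτ⟩ : ∃ τ : (Fin N₁ → Fin (k + 1)) → ℕ, τ = fun w => ∏ q, bprod β Bl q (w q) :=
      ⟨_, rfl⟩
    have hVt : ∀ w, ∑ q, bsum v Bl q (w q) = V w := fun w => by rw [hV]
    have hρt : ∀ w, ∏ q, bprod r Bl q (w q) = ρ w := fun w => by rw [hρ]
    have hτt : ∀ w, ∏ q, bprod β Bl q (w q) = τ w := fun w => by rw [hτ]
    simp only [hVt, hρt, hτt] at hymod hεinj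
    have hVX : ∀ w, V w ≤ N₁ * M * X := by
      intro w
      rw [← hVt]
      exact bsum_le v Bl (fun u i => (hrv u i).2.2) univ w
    have hρd : ∀ w, ρ w ∣ ∏ u, ∏ i, r u i := by
      intro w
      rw [← hρt]
      exact bprod_dvd r Bl univ w
    have hτd : ∀ w, τ w ∣ ∏ u, ∏ i, β u i := by
      intro w
      rw [← hτt]
      exact bprod_dvd β Bl univ w
    have hρ0 : ∀ w, 0 < ρ w := fun w => Nat.pos_of_dvd_of_pos (hρd w) (Nat.pos_of_ne_zero hr0)
    have ha' : ∀ w, 0 < a * ρ w := fun w => Nat.mul_pos ha0 (hρ0 w)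
    have hcop' : ∀ w, (a * ρ w).Coprime (b * τ w) := fun w =>
      Nat.Coprime.coprime_dvd_left (Nat.mul_dvd_mul_left _ (hρd w))
        (Nat.Coprime.coprime_dvd_right (Nat.mul_dvd_mul_left _ (hτd w)) hcop)
    have hdm : ∀ w, a * ρ w * (b * τ w / (a * ρ w)) + b * τ w % (a * ρ w) = b * τ w := fun w =>
      Nat.div_add_mod _ _
    have hdivX : ∀ w, b * τ w / (a * ρ w) ≤ X := by
      intro w
      apply Nat.div_le_of_le_mul
      calc b * τ w ≤ b * ∏ u, ∏ i, β u i :=
            Nat.mul_le_mul_left _ (Nat.le_of_dvd (Nat.pos_of_ne_zero hβ0) (hτd w))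
        _ ≤ a * X := hbX
        _ ≤ a * ρ w * X := Nat.mul_le_mul_right _ (Nat.le_mul_of_pos_right _ (hρ0 w))
    have hvalw : ∀ t, a * ρ (ω (fidx t)) * (x₀ + (V (ω (fidx t)) +
        b * τ (ω (fidx t)) / (a * ρ (ω (fidx t)))) + ε t) +
        b * τ (ω (fidx t)) % (a * ρ (ω (fidx t))) =
        a * ρ (ω (fidx t)) * (x₀ + V (ω (fidx t)) + ε t) + b * τ (ω (fidx t)) := by
      intro t
      have h1 := hdm (ω (fidx t))
      calc _ = a * ρ (ω (fidx t)) * (x₀ + V (ω (fidx t)) + ε t) +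
            (a * ρ (ω (fidx t)) * (b * τ (ω (fidx t)) / (a * ρ (ω (fidx t)))) +
              b * τ (ω (fidx t)) % (a * ρ (ω (fidx t)))) := by ring
        _ = _ := by rw [h1]
    obtain ⟨n, d, t, U, ht, hn, hd1, hd2, -, hUc, hfin⟩ := hh (fun i => a * ρ (ω i))
      (fun i => b * τ (ω i) % (a * ρ (ω i)))
      (fun t => x₀ + (V (ω (fidx t)) + b * τ (ω (fidx t)) / (a * ρ (ω (fidx t)))) + ε t)
      (a * ∏ u, ∏ i, r u i) X P
      (by
        intro i
        refine ⟨Nat.mod_lt _ (ha' _), ?_, Nat.mul_dvd_mul_left _ (hρd _)⟩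
        have h1 := hcop' (ω i)
        rw [← hdm (ω i), Nat.coprime_mul_left_add_right] at h1
        exact h1)
      (by
        intro t
        have h1 := hVX (ω (fidx t))
        have h2 := hEX _ (hεE t)
        have h3 : 2 * W ≤ 2 * W * X := Nat.le_mul_of_pos_right _ hX1
        have h4 := hdivX (ω (fidx t))
        refine ⟨hx₀1.trans (by rw [add_assoc]; exact Nat.le_add_right _ _), ?_⟩
        calc x₀ + (V (ω (fidx t)) + b * τ (ω (fidx t)) / (a * ρ (ω (fidx t)))) + ε t + 1 ≤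
              2 * W * X + N₁ * M * X + 3 * X := by omega
          _ = (2 * W + N₁ * M + 3) * X := by ring)
      (by
        intro p hp hps t
        rw [← hs] at hps
        simp only [hvalw]
        refine sig_ndvd hp hps ?_ (hcop' _) (hymod t)
        rw [hW]
        exact (hp.dvd_factorial).2 hps)
      (by
        intro t t' _ _ hy
        apply hεinj
        have h1 : x₀ + (V (ω (fidx t)) + b * τ (ω (fidx t)) / (a * ρ (ω (fidx t)))) + ε t =
          x₀ + (V (ω (fidx t')) + b * τ (ω (fidx t')) / (a * ρ (ω (fidx t')))) + ε t' := hy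
        show V (ω (fidx t)) + b * τ (ω (fidx t)) / (a * ρ (ω (fidx t))) + ε t =
          V (ω (fidx t')) + b * τ (ω (fidx t')) / (a * ρ (ω (fidx t'))) + ε t'
        omega)
      (Nat.mul_ne_zero (by omega) hr0) (haP.trans (Nat.le_self_pow (by omega) _)) hX1 hXP j hPj
      hPj' univ (by
        have : Nonempty (Fin R) := ⟨⟨0, hR1⟩⟩
        exact univ_nonempty) (by
        intro i _
        rcases hQ with h1 | h1
        · left
          intro h2
          exact h1 (h2.trans (Nat.mul_dvd_mul_left _ (Nat.mul_dvd_mul_left _ (hρd _))))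
        · right
          refine ⟨h1.1.mul_right _, ?_⟩
          have h2 : ((b * τ (ω i) % (a * ρ (ω i)) : ℕ) : ZMod (Q (j + D))) =
              ((b * τ (ω i) : ℕ) : ZMod (Q (j + D))) := by
            conv_rhs => rw [← hdm (ω i)]
            push_cast
            rw [(ZMod.natCast_eq_zero_iff a _).2 h1.1]
            ring
          rw [h2, ← hτt]
          unfold bprod
          push_cast
          rw [map_mul, map_prod, h1.2.1]
          have h3 : ∏ q, χ (j + D) (∏ u ∈ Bl q, ((β (finProdFinEquiv (q, u)) (ω i q) : ℕ) :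
              ZMod (Q (j + D)))) = 1 := by
            apply prod_eq_one
            intro q _
            rw [map_prod]
            apply prod_eq_one
            intro u _
            exact h1.2.2 _ _
          rw [h3, mul_one])
    rw [card_univ, Fintype.card_fin] at hUc
    obtain ⟨S₁, w, hS₁, hline⟩ := hdhj R ω U hUc
    obtain ⟨h₀, hh₀⟩ : ∃ h₀ : ℕ, h₀ = ∑ q ∈ S₁ᶜ, bsum v Bl q (w q) := ⟨_, rfl⟩
    obtain ⟨c, hc⟩ : ∃ c : ℕ, c = ∏ q ∈ S₁ᶜ, bprod r Bl q (w q) := ⟨_, rfl⟩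
    obtain ⟨c', hc'⟩ : ∃ c' : ℕ, c' = ∏ q ∈ S₁ᶜ, bprod β Bl q (w q) := ⟨_, rfl⟩
    have hh₀X : h₀ ≤ N₁ * M * X := by
      rw [hh₀]
      exact bsum_le v Bl (fun u i => (hrv u i).2.2) _ w
    refine ⟨n + x₀ + h₀, d, c, c', bun Bl S₁,
      fun i => ε (t (ω.symm (fun q => if q ∈ S₁ then i else w q))), ?_, hd1, ?_, ?_, ?_, ?_, ?_, ?_,
      ?_⟩
    · push_cast
      have hP1r : (1 : ℝ) ≤ P := by exact_mod_cast (by omega : 1 ≤ P)
      have hPA : (P : ℝ) ^ A ≤ (P : ℝ) ^ (A + 1) := pow_le_pow_right₀ hP1r (by omega)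
      have hPA1 : (P : ℝ) ≤ (P : ℝ) ^ (A + 1) := le_self_pow₀ hP1r (by omega)
      have h1 : (x₀ : ℝ) ≤ 2 * W * (P : ℝ) ^ (A + 1) := by
        have h2 : (x₀ : ℝ) ≤ 2 * W := by exact_mod_cast hx₀2
        refine h2.trans (le_mul_of_one_le_right (by positivity) (one_le_pow₀ hP1r))
      have h2 : (h₀ : ℝ) ≤ (N₁ * M : ℕ) * (P : ℝ) ^ (A + 1) := by
        have h3 : (h₀ : ℝ) ≤ (N₁ * M : ℕ) * P := by
          exact_mod_cast hh₀X.trans (Nat.mul_le_mul_left _ hXP)
        exact h3.trans (mul_le_mul_of_nonneg_left hPA1 (Nat.cast_nonneg _))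
      calc (n : ℝ) + x₀ + h₀ ≤ γ * (P : ℝ) ^ (A + 1) + 2 * W * (P : ℝ) ^ (A + 1) +
            (N₁ * M : ℕ) * (P : ℝ) ^ (A + 1) := by
            apply add_le_add (add_le_add _ h1) h2
            exact hn.trans (mul_le_mul_of_nonneg_left hPA hγ.le)
        _ = _ := by push_cast; ring
    · refine hd2.trans ?_
      have hlogP0 : 0 ≤ Real.log P := Real.log_natCast_nonneg P
      apply mul_le_mul_of_nonneg_right _ (by positivity)
      apply mul_le_mul_of_nonneg_right _ (by positivity)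
      have h1 : (0 : ℝ) ≤ 2 * W + (N₁ * M : ℕ) := by positivity
      linarith
    · obtain ⟨q, hq⟩ := hS₁
      obtain ⟨u, hu⟩ := hBl q
      refine ⟨finProdFinEquiv (q, u), ?_⟩
      unfold bun
      rw [mem_map]
      exact ⟨⟨q, u⟩, mem_sigma.2 ⟨hq, hu⟩, rfl⟩
    · rw [hc]
      exact bprod_dvd r Bl _ w
    · rw [hc']
      exact bprod_dvd β Bl _ w
    · intro i
      exact hεE _
    · intro i i' hii
      simp only [Prod.mk.injEq] at hii
      obtain ⟨hii1, hii2⟩ := hii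
      have h3 : ∀ i, ρ (fun q => if q ∈ S₁ then i else w q) = (∏ u ∈ bun Bl S₁, r u i) * c := by
        intro i
        rw [← hρt, hc, bprod_bun]
        exact split_prod _ _ _ _
      have h3' : ∀ i, τ (fun q => if q ∈ S₁ then i else w q) = (∏ u ∈ bun Bl S₁, β u i) * c' := by
        intro i
        rw [← hτt, hc', bprod_bun]
        exact split_prod _ _ _ _
      have h4 : ∀ i, V (fun q => if q ∈ S₁ then i else w q) = ∑ u ∈ bun Bl S₁, v u i + h₀ := by
        intro i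
        rw [← hVt, hh₀, bsum_bun]
        exact split_sum _ _ _ _
      have hρeq : ρ (fun q => if q ∈ S₁ then i else w q) =
          ρ (fun q => if q ∈ S₁ then i' else w q) := by rw [h3, h3, hii1]
      have hval : ∀ i, a * ρ (fun q => if q ∈ S₁ then i else w q) *
          (V (fun q => if q ∈ S₁ then i else w q) +
            ε (t (ω.symm (fun q => if q ∈ S₁ then i else w q)))) +
            b * τ (fun q => if q ∈ S₁ then i else w q) =
          a * c * (∏ u ∈ bun Bl S₁, r u i) * (∑ u ∈ bun Bl S₁, v u i +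
            ε (t (ω.symm (fun q => if q ∈ S₁ then i else w q)))) +
            b * c' * (∏ u ∈ bun Bl S₁, β u i) + a * c * (∏ u ∈ bun Bl S₁, r u i) * h₀ := by
        intro i
        rw [h3, h3', h4]
        ring
      have hval2 := hval i
      rw [hii2, hii1, ← hval i', ← hρeq] at hval2
      -- the remainders and the quotients
      have h7 : ∀ i, a * ρ (fun q => if q ∈ S₁ then i else w q) *
          (V (fun q => if q ∈ S₁ then i else w q) +
            ε (t (ω.symm (fun q => if q ∈ S₁ then i else w q)))) +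
            b * τ (fun q => if q ∈ S₁ then i else w q) =
          a * ρ (fun q => if q ∈ S₁ then i else w q) *
          (V (fun q => if q ∈ S₁ then i else w q) + b * τ (fun q => if q ∈ S₁ then i else w q) /
            (a * ρ (fun q => if q ∈ S₁ then i else w q)) +
            ε (t (ω.symm (fun q => if q ∈ S₁ then i else w q)))) +
            b * τ (fun q => if q ∈ S₁ then i else w q) %
            (a * ρ (fun q => if q ∈ S₁ then i else w q)) := by
        intro i
        have h6 := hdm (fun q => if q ∈ S₁ then i else w q)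
        calc _ = a * ρ (fun q => if q ∈ S₁ then i else w q) *
              (V (fun q => if q ∈ S₁ then i else w q) +
                ε (t (ω.symm (fun q => if q ∈ S₁ then i else w q)))) +
              (a * ρ (fun q => if q ∈ S₁ then i else w q) *
                (b * τ (fun q => if q ∈ S₁ then i else w q) /
                  (a * ρ (fun q => if q ∈ S₁ then i else w q))) +
              b * τ (fun q => if q ∈ S₁ then i else w q) %
                (a * ρ (fun q => if q ∈ S₁ then i else w q))) := by rw [h6]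
          _ = _ := by ring
      have h8 := h7 i'
      rw [← hρeq, ← hval2, h7 i] at h8
      have h9 : ∀ x y z w' m : ℕ, 0 < m → m * x + y % m = m * z + w' % m → x = z := by
        intro x y z w' m hm h
        have h10 : (m * x + y % m) / m = x := by
          rw [Nat.mul_add_div hm, Nat.div_eq_of_lt (Nat.mod_lt _ hm), add_zero]
        have h11 : (m * z + w' % m) / m = z := by
          rw [Nat.mul_add_div hm, Nat.div_eq_of_lt (Nat.mod_lt _ hm), add_zero]
        rw [← h10, ← h11, h]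
      have h12 := h9 _ _ _ _ _ (ha' _) h8
      have hti := ht (ω.symm (fun q => if q ∈ S₁ then i else w q))
      have hti' := ht (ω.symm (fun q => if q ∈ S₁ then i' else w q))
      have h13 : t (ω.symm (fun q => if q ∈ S₁ then i else w q)) =
          t (ω.symm (fun q => if q ∈ S₁ then i' else w q)) := by
        apply hεinj
        simp only [hti, hti', Equiv.apply_symm_apply]
        rw [h12, hρeq]
      rw [h13, hti'] at hti
      have h14 := ω.symm.injective hti
      obtain ⟨q, hq⟩ := hS₁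
      have h15 := congrFun h14 q
      simp only [if_pos hq] at h15
      exact h15.symm
    · intro i h hh'
      have h1 := (hfin h hh').1 _ (hline i)
      have h2 := ht (ω.symm (fun q => if q ∈ S₁ then i else w q))
      simp only [h2, Equiv.apply_symm_apply] at h1
      have h3 : ρ (fun q => if q ∈ S₁ then i else w q) = (∏ u ∈ bun Bl S₁, r u i) * c := by
        rw [← hρt, hc, bprod_bun]
        exact split_prod _ _ _ _
      have h3' : τ (fun q => if q ∈ S₁ then i else w q) = (∏ u ∈ bun Bl S₁, β u i) * c' := by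
        rw [← hτt, hc', bprod_bun]
        exact split_prod _ _ _ _
      have h4 : V (fun q => if q ∈ S₁ then i else w q) = ∑ u ∈ bun Bl S₁, v u i + h₀ := by
        rw [← hVt, hh₀, bsum_bun]
        exact split_sum _ _ _ _
      have h6 := hdm (fun q => if q ∈ S₁ then i else w q)
      have h5 : a * c * (∏ u ∈ bun Bl S₁, r u i) * (n + x₀ + h₀ + h * d + ∑ u ∈ bun Bl S₁, v u i +
          ε (t (ω.symm (fun q => if q ∈ S₁ then i else w q)))) +
          b * c' * ∏ u ∈ bun Bl S₁, β u i =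
          a * ρ (fun q => if q ∈ S₁ then i else w q) * (n + h * d + (x₀ +
            (V (fun q => if q ∈ S₁ then i else w q) +
              b * τ (fun q => if q ∈ S₁ then i else w q) /
                (a * ρ (fun q => if q ∈ S₁ then i else w q))) +
            ε (t (ω.symm (fun q => if q ∈ S₁ then i else w q))))) +
          b * τ (fun q => if q ∈ S₁ then i else w q) %
            (a * ρ (fun q => if q ∈ S₁ then i else w q)) := by
        calc _ = a * ρ (fun q => if q ∈ S₁ then i else w q) * (n + h * d + (x₀ +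
              V (fun q => if q ∈ S₁ then i else w q) +
              ε (t (ω.symm (fun q => if q ∈ S₁ then i else w q))))) +
              b * τ (fun q => if q ∈ S₁ then i else w q) := by
              rw [h3, h3', h4]
              ring
          _ = a * ρ (fun q => if q ∈ S₁ then i else w q) * (n + h * d + (x₀ +
              V (fun q => if q ∈ S₁ then i else w q) +
              ε (t (ω.symm (fun q => if q ∈ S₁ then i else w q))))) +
              (a * ρ (fun q => if q ∈ S₁ then i else w q) *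
                (b * τ (fun q => if q ∈ S₁ then i else w q) /
                  (a * ρ (fun q => if q ∈ S₁ then i else w q))) +
              b * τ (fun q => if q ∈ S₁ then i else w q) %
                (a * ρ (fun q => if q ∈ S₁ then i else w q))) := by rw [h6]
          _ = _ := by ring
      rw [h5]
      exact h1
  rcases hEN with hEN | ⟨hβ1, hEN⟩
  · -- all the classes
    obtain ⟨s', hs'1, hs'⟩ := hNdvd
    obtain ⟨Bl, hBl⟩ : ∃ Bl : Fin N₁ → Finset (Fin M), Bl = fun _ => {⟨0, hM1⟩} := ⟨_, rfl⟩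
    obtain ⟨ε, hε1, hε2⟩ := greedy2 (C₁ * R * S) (fun t => (∑ q, bsum v Bl q (ω (fidx t) q)) +
        (b * ∏ q, bprod β Bl q (ω (fidx t) q)) / (a * ∏ q, bprod r Bl q (ω (fidx t) q)))
      (fun t => E.filter (fun e => e % (N₁ * M) =
        (sig (b * ∏ q, bprod β Bl q (ω (fidx t) q)) s +
          (W - 1) * (∑ q, bsum v Bl q (ω (fidx t) q))) % W)) (by
        intro t
        rw [← hs]
        refine le_trans ?_ (hEN _ ?_)
        · have : s ≤ W * s := Nat.le_mul_of_pos_left _ hW1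
          omega
        · have h1 := Nat.mod_lt (sig (b * ∏ q, bprod β Bl q (ω (fidx t) q)) s +
            (W - 1) * (∑ q, bsum v Bl q (ω (fidx t) q))) (show 0 < W by omega)
          have h2 : W * 1 ≤ W * s := Nat.mul_le_mul_left _ hs1
          omega)
    refine main Bl W ε (fun q => by rw [hBl]; exact singleton_nonempty _) hW1 (by omega)
      (fun t => (mem_filter.1 (hε1 t)).1) (fun t => ?_) hε2
    have h1 := (mem_filter.1 (hε1 t)).2
    rw [hs'] at h1
    exact cls_shift hW1 h1 hs'1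
  · -- one class
    have hbl : ∀ q : Fin N₁, ∃ T : Finset (Fin M), T.Nonempty ∧
        ∀ i, W ∣ ∑ u ∈ T, v (finProdFinEquiv (q, u)) i := fun q =>
      block_vec (by omega) hMb (fun u i => v (finProdFinEquiv (q, u)) i)
    choose Bl hBl1 hBl2 using hbl
    have hβB : ∀ w : Fin N₁ → Fin (k + 1), ∏ q, bprod β Bl q (w q) = 1 := by
      intro w
      apply prod_eq_one
      intro q _
      unfold bprod
      apply prod_eq_one
      intro u _
      exact hβ1 _ _
    obtain ⟨e₀, he₀, hE'⟩ := big_class hW1 (hNW.trans hEN)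
    obtain ⟨ε, hε1, hε2⟩ := greedy2 (C₁ * R * S) (fun t => (∑ q, bsum v Bl q (ω (fidx t) q)) +
        (b * ∏ q, bprod β Bl q (ω (fidx t) q)) / (a * ∏ q, bprod r Bl q (ω (fidx t) q)))
      (fun _ => E.filter (fun e => e % W = e₀)) (fun _ => by rw [← hs]; exact hE')
    have hx₀2 := Nat.mod_lt (sig b s + (W - 1) * e₀) (show 0 < W by omega)
    refine main Bl (W + (sig b s + (W - 1) * e₀) % W) ε hBl1 (by omega) (by omega)
      (fun t => (mem_filter.1 (hε1 t)).1) (fun t => ?_) hε2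
    rw [hβB, mul_one]
    have h1 : W + (sig b s + (W - 1) * e₀) % W ≡ sig b s + (W - 1) * e₀ [MOD W] := by
      calc W + (sig b s + (W - 1) * e₀) % W ≡ 0 + (sig b s + (W - 1) * e₀) [MOD W] :=
            Nat.ModEq.add (Nat.modEq_zero_iff_dvd.2 dvd_rfl) (Nat.mod_modEq _ _)
        _ = _ := zero_add _
    have h2 : (∑ q, bsum v Bl q (ω (fidx t) q)) ≡ 0 [MOD W] := by
      apply Nat.modEq_zero_iff_dvd.2
      apply dvd_sum
      intro q _
      exact hBl2 q _
    have h3 : ε t ≡ e₀ [MOD W] := by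
      have h4 := (mem_filter.1 (hε1 t)).2
      unfold Nat.ModEq
      rw [h4, Nat.mod_eq_of_lt he₀]
    calc W + (sig b s + (W - 1) * e₀) % W + (∑ q, bsum v Bl q (ω (fidx t) q)) + ε t ≡
          sig b s + (W - 1) * e₀ + 0 + e₀ [MOD W] := (h1.add h2).add h3
      _ = sig b s + ((W - 1) + 1) * e₀ := by ring
      _ = sig b s + W * e₀ := by rw [Nat.sub_add_cancel hW1]
      _ ≡ sig b s + 0 [MOD W] := by
          apply Nat.ModEq.add_left
          exact Nat.modEq_zero_iff_dvd.2 (dvd_mul_right _ _)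
      _ = sig b s := add_zero _

end Run7.h296
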