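import Pool.Agent.Run7.h296.T9
import Pool.Agent.Run7.h166.TS.Lists

/-!
Lists of linear forms with prime windows, uniformly in the coefficients.
-/

set_option autoImplicit false

open Finset

namespace Run7.h296

open Pool.Agent.Run7.h166.TS (FMT FCl Win finite_arrange)

/-- the forms of `s` are simultaneously prime along a progression in the range of the problem -/
def Gp (X ℓ A C : ℕ) (γ : ℝ) (s : Finset (ℕ × ℕ)) : Prop :=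
  ∃ n d : ℕ, (n : ℝ) ≤ γ * (X : ℝ) ^ A ∧ 1 ≤ d ∧ (d : ℝ) ≤ γ * Real.log X ^ C ∧
    ∀ f ∈ s, ∀ h < ℓ, (f.1 * (n + h * d) + f.2).Prime

theorem Gp_anti {X ℓ A C : ℕ} {γ : ℝ} (s t : Finset (ℕ × ℕ)) (hst : s ⊆ t) (h : Gp X ℓ A C γ t) :
    Gp X ℓ A C γ s := by
  obtain ⟨n, d, h1, h2, h3, h4⟩ := h
  exact ⟨n, d, h1, h2, h3, fun f hf => h4 f (hst hf)⟩

theorem Gp_mono {X ℓ A C A' C' : ℕ} {γ γ' : ℝ} (hX : 2 ≤ X) (hγ : 0 ≤ γ) (hA : A ≤ A') (hC : C ≤ C')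
    (hγγ : γ * 2 ^ C' ≤ γ') {s : Finset (ℕ × ℕ)} (h : Gp X ℓ A C γ s) : Gp X ℓ A' C' γ' s := by
  obtain ⟨n, d, h1, h2, h3, h4⟩ := h
  have hXr : (1 : ℝ) ≤ X := by exact_mod_cast (by omega : 1 ≤ X)
  have h2C : (1 : ℝ) ≤ 2 ^ C' := one_le_pow₀ (by norm_num)
  have hγ1 : γ ≤ γ' := (le_mul_of_one_le_right hγ h2C).trans hγγ
  have hlog : 0 ≤ Real.log X := Real.log_natCast_nonneg X
  refine ⟨n, d, ?_, h2, ?_, h4⟩
  · calc (n : ℝ) ≤ γ * (X : ℝ) ^ A := h1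
      _ ≤ γ' * (X : ℝ) ^ A' := mul_le_mul hγ1 (pow_le_pow_right₀ hXr hA) (by positivity)
          (hγ.trans hγ1)
  · calc (d : ℝ) ≤ γ * Real.log X ^ C := h3
      _ ≤ γ * (2 ^ C' * Real.log X ^ C') := mul_le_mul_of_nonneg_left (logp_mono hX hC) hγ
      _ = γ * 2 ^ C' * Real.log X ^ C' := by ring
      _ ≤ γ' * Real.log X ^ C' := mul_le_mul_of_nonneg_right hγγ (by positivity)

theorem Gp_empty {X ℓ A C : ℕ} {γ : ℝ} (hX : 2 ≤ X) (hγ : 2 ^ C ≤ γ) : Gp X ℓ A C γ ∅ := by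
  have hlog : 0 ≤ Real.log X := Real.log_natCast_nonneg X
  refine ⟨0, 1, ?_, le_rfl, ?_, fun f hf => absurd hf (notMem_empty _)⟩
  · have h1 : (0 : ℝ) ≤ γ := le_trans (by positivity) hγ
    push_cast
    positivity
  · have h1 := logp_mono (P := X) (i := 0) (j := C) hX (Nat.zero_le _)
    rw [pow_zero] at h1
    push_cast
    exact h1.trans (mul_le_mul_of_nonneg_right hγ (by positivity))

/-- the good forms -/
def Okf (N X : ℕ) (Qj : ℕ) (χ : DirichletCharacter ℂ Qj) (D : ℕ) (F : Finset (ℕ × ℕ)) : Prop :=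
  (∀ f ∈ F, 1 ≤ f.2 ∧ f.2 < f.1 ∧ f.1.Coprime f.2 ∧ f.1 ≤ X ∧
    (¬ Qj ∣ D * f.1 ∨ (Qj ∣ f.1 ∧ χ ((f.2 : ℕ) : ZMod Qj) = -1))) ∧
  ∀ p : ℕ, p.Prime → p ≤ N → ∃ n : ℤ, ∀ f ∈ F, ¬ (p : ℤ) ∣ f.1 * n + f.2

/-- the statement of `main_col` for one number of classes, without the almost primes -/
def ColP (C₀ C₁ : ℕ) (Q : ℕ → ℕ) (χ : ∀ i : ℕ, DirichletCharacter ℂ (Q i)) (ℓ R A C D D₂ : ℕ)
    (γ : ℝ) : Prop := 0 < γ ∧ 0 < D ∧ 8 * D₂.factorial ∣ D ∧ 2 ≤ D₂ ∧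
    ∀ (cl : Fin (R * (2 ^ (C₀ * R) / R)) → ℕ) (G : Finset (Fin (R * (2 ^ (C₀ * R) / R)))),
    (∀ c, (G.filter (fun i => cl i = c)).card ≤ 2 ^ (C₀ * R) / R) →
    ∀ (a b : Fin (R * (2 ^ (C₀ * R) / R)) → ℕ) (P : ℕ), (∀ i, 1 ≤ b i ∧ b i < a i) →
    Function.Injective (fun i => (a i, b i)) →
    (∀ p : ℕ, p.Prime → ∃ n : ℤ, ∀ i, ¬ (p : ℤ) ∣ a i * n + b i) → (∀ i, a i ∣ P) →
    ∀ j : ℕ, 2 ^ 2 ^ j ≤ P → P < 2 ^ 2 ^ (j + 1) →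
    (∀ i ∈ G, (∃ p : ℕ, p.Prime ∧ p ∣ Q (j + D) ∧ D₂ < p ∧ ¬ p ∣ a i) ∨
      (Q (j + D) ∣ a i ∧ χ (j + D) ((b i : ℕ) : ZMod (Q (j + D))) = -1)) →
    ∀ m : ℕ, C₁ * (m + 1) * (2 ^ (C₀ * R) / R) ≤ G.card →
    ∃ (n d : ℕ) (U : Finset (Fin (R * (2 ^ (C₀ * R) / R)))), (n : ℝ) ≤ γ * (P : ℝ) ^ A ∧ 1 ≤ d ∧
      (d : ℝ) ≤ γ * Real.log P ^ C ∧ U ⊆ G ∧ m < (U.image cl).card ∧
      ∀ h < ℓ, ∀ i ∈ U, (a i * (n + h * d) + b i).Prime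

open Classical in
/-- the coloured theorem at a given scale -/
theorem colX {C₀ C₁ : ℕ} {Q : ℕ → ℕ} {χ : ∀ i : ℕ, DirichletCharacter ℂ (Q i)} {ℓ R A C D D₂ : ℕ}
    {γ : ℝ} (hQ : ∀ i, 1 < Q i ∧ (∀ p : ℕ, p.Prime → p ≠ 2 → ¬ p ^ 2 ∣ Q i) ∧ ¬ 16 ∣ Q i)
    (hcol : ColP C₀ C₁ Q χ ℓ R A C D D₂ γ) {D' : ℕ} (hDD' : D ∣ D')
    (hD' : D + 2 * (R * (2 ^ (C₀ * R) / R)) + 1 ≤ D') {X j N : ℕ} (hX1 : 2 ^ 2 ^ j ≤ X)
    (hX2 : X < 2 ^ 2 ^ (j + 1)) (hN : R * (2 ^ (C₀ * R) / R) ≤ N) {V : Finset (ℕ × ℕ)}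
    (hV : Okf N X (Q (j + D')) (χ (j + D')) D' V) (Y : Fin (R * (2 ^ (C₀ * R) / R)) → ℕ × ℕ)
    (hY : Function.Injective Y) (hYV : ∀ t, Y t ∈ V) (m : ℕ) (hm : C₁ * (m + 1) ≤ R) :
    ∃ U : Finset (Fin (R * (2 ^ (C₀ * R) / R))),
      m < (U.image (fun t => ((clsix t : Fin R) : ℕ))).card ∧
      Gp X ℓ (2 ^ D' * 2 * A) C (γ * (2 ^ D' * 2) ^ C) (U.image Y) := by
  obtain ⟨hγ, hD0, hDD₂, hD₂, hcol⟩ := hcol
  obtain ⟨hV1, hV2⟩ := hV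
  obtain ⟨s, hs⟩ : ∃ s : ℕ, s = R * (2 ^ (C₀ * R) / R) := ⟨_, rfl⟩
  obtain ⟨μ, hμ⟩ : ∃ μ : ℕ, μ + D = D' := ⟨D' - D, by omega⟩
  have hX0 : 2 ≤ X := (two_le_pp j).trans hX1
  have hXr : (1 : ℝ) ≤ X := by exact_mod_cast (by omega : 1 ≤ X)
  -- the common multiple
  obtain ⟨L, hL⟩ : ∃ L : ℕ, L = ∏ t, (Y t).1 := ⟨_, rfl⟩
  have hL0 : 1 ≤ L := by
    rw [hL]
    apply Nat.one_le_iff_ne_zero.2
    apply prod_ne_zero_iff.2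
    intro t _
    have h1 := hV1 _ (hYV t)
    omega
  have hLs : L ≤ 2 ^ 2 ^ (j + μ) := by
    have h1 : L ≤ X ^ s := by
      rw [hL, hs]
      calc ∏ t, (Y t).1 ≤ ∏ _t : Fin (R * (2 ^ (C₀ * R) / R)), X :=
            Finset.prod_le_prod' (fun t _ => (hV1 _ (hYV t)).2.2.2.1)
        _ = X ^ (R * (2 ^ (C₀ * R) / R)) := by rw [prod_const, card_univ, Fintype.card_fin]
    calc L ≤ X ^ s := h1
      _ ≤ (2 ^ 2 ^ (j + 1)) ^ s := Nat.pow_le_pow_left hX2.le _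
      _ = 2 ^ (2 ^ (j + 1) * s) := by rw [← pow_mul]
      _ ≤ 2 ^ 2 ^ (j + μ) := by
          apply Nat.pow_le_pow_right (by norm_num)
          have h2 : 2 * s ≤ 2 ^ μ := by
            have h3 : μ < 2 ^ μ := Nat.lt_two_pow_self
            omega
          calc 2 ^ (j + 1) * s = 2 ^ j * (2 * s) := by ring
            _ ≤ 2 ^ j * 2 ^ μ := Nat.mul_le_mul_left _ h2
            _ = _ := by rw [← pow_add]
  obtain ⟨f, hf1, hf2⟩ := exists_pad hL0 hLs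
  obtain ⟨P, hP⟩ : ∃ P : ℕ, P = L * 2 ^ f := ⟨_, rfl⟩
  rw [← hP] at hf1 hf2
  have hP2 : P < 2 ^ 2 ^ (j + μ + 1) := by
    refine lt_of_lt_of_le hf2 (Nat.pow_le_pow_right (by norm_num) ?_)
    have h1 : 1 ≤ 2 ^ (j + μ) := Nat.one_le_two_pow
    rw [pow_succ]
    omega
  have hPX : P ≤ X ^ (2 ^ D' * 2) := by
    calc P ≤ 2 ^ 2 ^ (j + μ + 1) := hP2.le
      _ = (2 ^ 2 ^ j) ^ (2 ^ (μ + 1)) := by
        rw [← pow_mul, ← pow_add, add_assoc]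
      _ ≤ X ^ (2 ^ (μ + 1)) := Nat.pow_le_pow_left hX1 _
      _ ≤ X ^ (2 ^ D' * 2) := by
        apply Nat.pow_le_pow_right (by omega)
        rw [pow_succ]
        exact Nat.mul_le_mul_right _ (Nat.pow_le_pow_right (by norm_num) (by omega))
  have hP1 : 1 ≤ P := (Nat.one_le_two_pow).trans hf1
  have hPXr : (P : ℝ) ≤ (X : ℝ) ^ (2 ^ D' * 2) := by exact_mod_cast hPX
  obtain ⟨n, d, U, hn, hd1, hd2, -, hU, hh⟩ := hcol (fun t => ((clsix t : Fin R) : ℕ)) univ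
    (fun c => cls_card univ c) (fun t => (Y t).1) (fun t => (Y t).2) P
    (fun t => ⟨(hV1 _ (hYV t)).1, (hV1 _ (hYV t)).2.1⟩)
    (by
      intro t t' h
      simp only [Prod.mk.injEq] at h
      exact hY (Prod.ext h.1 h.2))
    (by
      intro p hp
      rcases Nat.lt_or_ge s p with hps | hps
      · exact adm_large hp (by rw [← hs]; exact hps) _ _ (fun t => (hV1 _ (hYV t)).2.2.1)
      · obtain ⟨n, hn⟩ := hV2 p hp (by omega)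
        exact ⟨n, fun t => hn _ (hYV t)⟩)
    (by
      intro t
      rw [hP, hL]
      exact (dvd_prod_of_mem (fun t => (Y t).1) (mem_univ t)).mul_right _)
    (j + μ) hf1 hP2
    (by
      intro t _
      have hJ : j + μ + D = j + D' := by omega
      rw [hJ]
      rcases (hV1 _ (hYV t)).2.2.2.2 with h1 | h1
      · left
        by_contra hcon
        push Not at hcon
        apply h1
        have h2 := dvd_of_rough (D := D₂) (a := (Y t).1) (hQ (j + D')).2.1 (hQ (j + D')).2.2 hcon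
        exact h2.trans (Nat.mul_dvd_mul_right (hDD₂.trans hDD') _)
      · exact Or.inr h1)
    m (by
      rw [card_univ, Fintype.card_fin]
      exact Nat.mul_le_mul_right _ hm)
  have hlogP : Real.log P ≤ (2 ^ D' * 2) * Real.log X := by
    have h1 := Real.log_le_log (by exact_mod_cast hP1) hPXr
    rw [Real.log_pow] at h1
    push_cast at h1
    exact h1
  have hlogP0 : 0 ≤ Real.log P := Real.log_natCast_nonneg P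
  have hlogX0 : 0 ≤ Real.log X := Real.log_natCast_nonneg X
  have hone : (1 : ℝ) ≤ (2 ^ D' * 2) ^ C := by
    apply one_le_pow₀
    have h1 : (1 : ℝ) ≤ 2 ^ D' := one_le_pow₀ (by norm_num)
    linarith
  refine ⟨U, hU, n, d, ?_, hd1, ?_, ?_⟩
  · calc (n : ℝ) ≤ γ * (P : ℝ) ^ A := hn
      _ ≤ γ * ((X : ℝ) ^ (2 ^ D' * 2)) ^ A :=
        mul_le_mul_of_nonneg_left (pow_le_pow_left₀ (Nat.cast_nonneg _) hPXr _) hγ.le
      _ = γ * (X : ℝ) ^ (2 ^ D' * 2 * A) := by rw [← pow_mul]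
      _ ≤ _ := by
        apply mul_le_mul_of_nonneg_right _ (by positivity)
        exact le_mul_of_one_le_right hγ.le hone
  · calc (d : ℝ) ≤ γ * Real.log P ^ C := hd2
      _ ≤ γ * ((2 ^ D' * 2) * Real.log X) ^ C :=
        mul_le_mul_of_nonneg_left (pow_le_pow_left₀ hlogP0 hlogP _) hγ.le
      _ = _ := by rw [mul_pow]; ring
  · intro g hg h hh'
    obtain ⟨t, ht, rfl⟩ := mem_image.1 hg
    exact hh h hh' t ht

open Classical in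
/-- **Lists of forms with prime windows.** -/
theorem main_lists : ∃ (r : ℕ) (Q : ℕ → ℕ) (χ : ∀ i : ℕ, DirichletCharacter ℂ (Q i)), 1 ≤ r ∧
    (∀ i, 1 < Q i ∧ (χ i) ^ 2 = 1 ∧ (χ i).IsPrimitive) ∧
    (∀ B : ℕ, ∀ᶠ i in Filter.atTop, 2 ^ (B * i) ≤ Q i) ∧
    ∀ k ℓ : ℕ, ∃ (N A C D : ℕ) (γ : ℝ), 0 < γ ∧ (∀ j, D < Q (j + D)) ∧
    ∀ X j : ℕ, 2 ^ 2 ^ j ≤ X → X < 2 ^ 2 ^ (j + 1) → ∀ F : Finset (ℕ × ℕ),
    Okf N X (Q (j + D)) (χ (j + D)) D F →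
    (∃ e : Fin r → List (ℕ × ℕ), (∀ i, (e i).Nodup) ∧
      (∀ i i', i ≠ i' → List.Disjoint (e i) (e i')) ∧ (∀ i, ∀ f ∈ e i, f ∈ F) ∧
      (F.filter (fun f => ∀ i, f ∉ e i)).card ≤ N ∧
      ∀ i, ∀ w : List (ℕ × ℕ), w <:+: e i → w.length ≤ k → Gp X ℓ A C γ w.toFinset) ∧
    ∀ Y ⊆ F, N ≤ Y.card → ∃ s ⊆ Y, s.card = k ∧ Gp X ℓ A C γ s := by
  obtain ⟨C₀, C₁, Q, χ, hC₀, hC₁, hQ, hχ, hgrow, hmain⟩ := main_col
  obtain ⟨i₀, hi₀⟩ := Filter.eventually_atTop.1 (hgrow 1)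
  refine ⟨C₁, Q, χ, hC₁, fun i => ⟨(hQ i).1, hχ i⟩, hgrow, ?_⟩
  intro k ℓ
  have hcol : ∀ R : ℕ, 1 ≤ R → ∃ (A C D D₂ : ℕ) (γ : ℝ), ColP C₀ C₁ Q χ ℓ R A C D D₂ γ := by
    intro R hR
    obtain ⟨A, C, D, D₂, γ, hγ, hD0, hDD, hD₂, hm⟩ := hmain R 0 ℓ hR
    refine ⟨A, C, D, D₂, γ, hγ, hD0, hDD, hD₂, ?_⟩
    intro cl G hcl a b P hab hinj hadm haP j hj hj' hG m hm'
    obtain ⟨n, d, U, h1, h2, h3, h4, h5, h6⟩ := hm cl G hcl a b P hab hinj hadm haP j hj hj' hG m hm'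
    exact ⟨n, d, U, h1, h2, h3, h4, h5, fun h hh => (h6 h hh).1⟩
  -- the parameters of the lists
  obtain ⟨k', hk'⟩ : ∃ k' : ℕ, k' = k + 1 := ⟨_, rfl⟩
  obtain ⟨S, hS⟩ : ∃ S : ℕ, S = C₁ * (C₁ * k' + 1) := ⟨_, rfl⟩
  have hS1 : 1 ≤ S := by rw [hS]; exact Nat.mul_pos hC₁ (by omega)
  obtain ⟨R, hR⟩ : ∃ R : ℕ, R = (C₁ + 1) * S := ⟨_, rfl⟩
  have hR1 : 1 ≤ R := by rw [hR]; exact Nat.mul_pos (by omega) hS1
  obtain ⟨K, hK⟩ : ∃ K : ℕ, K = 2 ^ (C₀ * R) / R := ⟨_, rfl⟩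
  obtain ⟨m', hm'⟩ : ∃ m' : ℕ, m' = 2 * (k' + S * K) := ⟨_, rfl⟩
  have hm'1 : 1 ≤ m' := by omega
  obtain ⟨R₂, hR₂⟩ : ∃ R₂ : ℕ, R₂ = C₁ * m' := ⟨_, rfl⟩
  have hR₂1 : 1 ≤ R₂ := by rw [hR₂]; exact Nat.mul_pos hC₁ hm'1
  obtain ⟨A₁, Ca, Da, Db, γ₁, hcol1⟩ := hcol R hR1
  obtain ⟨A₂, Cb, Dc, Dd, γ₂, hcol2⟩ := hcol R₂ hR₂1
  have hDa : 0 < Da := hcol1.2.1
  have hDc : 0 < Dc := hcol2.2.1
  have hγ₁ : 0 < γ₁ := hcol1.1
  have hγ₂ : 0 < γ₂ := hcol2.1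
  obtain ⟨s₁, hs₁⟩ : ∃ s₁ : ℕ, s₁ = R * (2 ^ (C₀ * R) / R) := ⟨_, rfl⟩
  obtain ⟨s₂, hs₂⟩ : ∃ s₂ : ℕ, s₂ = R₂ * (2 ^ (C₀ * R₂) / R₂) := ⟨_, rfl⟩
  obtain ⟨M, hM⟩ : ∃ M : ℕ, M = 2 * s₁ + 2 * s₂ + i₀ + 2 := ⟨_, rfl⟩
  obtain ⟨D, hD⟩ : ∃ D : ℕ, D = Da * Dc * M := ⟨_, rfl⟩
  have hDa' : Da + 2 * s₁ + 1 ≤ D := by
    have h1 : Da * M ≤ Da * Dc * M := Nat.mul_le_mul_right _ (Nat.le_mul_of_pos_right _ hDc)
    have h2 : Da * M = Da + Da * (2 * s₁ + 2 * s₂ + i₀ + 1) := by rw [hM]; ring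
    have h3 : 2 * s₁ + 2 * s₂ + i₀ + 1 ≤ Da * (2 * s₁ + 2 * s₂ + i₀ + 1) :=
      Nat.le_mul_of_pos_left _ hDa
    omega
  have hDc' : Dc + 2 * s₂ + 1 ≤ D := by
    have h1 : Dc * M ≤ Da * Dc * M := Nat.mul_le_mul_right _ (Nat.le_mul_of_pos_left _ hDa)
    have h2 : Dc * M = Dc + Dc * (2 * s₁ + 2 * s₂ + i₀ + 1) := by rw [hM]; ring
    have h3 : 2 * s₁ + 2 * s₂ + i₀ + 1 ≤ Dc * (2 * s₁ + 2 * s₂ + i₀ + 1) :=
      Nat.le_mul_of_pos_left _ hDc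
    omega
  have hMD : M ≤ D := by
    rw [hD]
    exact Nat.le_mul_of_pos_left _ (Nat.mul_pos hDa hDc)
  obtain ⟨N, hN⟩ : ∃ N : ℕ, N = s₁ + s₂ + k := ⟨_, rfl⟩
  obtain ⟨A, hA⟩ : ∃ A : ℕ, A = 2 ^ D * 2 * A₁ + 2 ^ D * 2 * A₂ := ⟨_, rfl⟩
  obtain ⟨C, hC⟩ : ∃ C : ℕ, C = Ca + Cb := ⟨_, rfl⟩
  obtain ⟨γ, hγ⟩ : ∃ γ : ℝ, γ = 2 ^ C + γ₁ * (2 ^ D * 2) ^ Ca * 2 ^ C +
    γ₂ * (2 ^ D * 2) ^ Cb * 2 ^ C := ⟨_, rfl⟩
  have hg1 : γ₁ * (2 ^ D * 2) ^ Ca * 2 ^ C ≤ γ := by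
    have h1 : (0 : ℝ) ≤ 2 ^ C := by positivity
    have h2 : (0 : ℝ) ≤ γ₂ * (2 ^ D * 2) ^ Cb * 2 ^ C := by positivity
    linarith
  have hg2 : γ₂ * (2 ^ D * 2) ^ Cb * 2 ^ C ≤ γ := by
    have h1 : (0 : ℝ) ≤ 2 ^ C := by positivity
    have h2 : (0 : ℝ) ≤ γ₁ * (2 ^ D * 2) ^ Ca * 2 ^ C := by positivity
    linarith
  have hg0 : 2 ^ C ≤ γ := by
    have h1 : (0 : ℝ) ≤ γ₁ * (2 ^ D * 2) ^ Ca * 2 ^ C := by positivity
    have h2 : (0 : ℝ) ≤ γ₂ * (2 ^ D * 2) ^ Cb * 2 ^ C := by positivity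
    linarith
  have hγ0 : 0 < γ := lt_of_lt_of_le (by positivity) hg0
  refine ⟨N, A, C, D, γ, hγ0, fun j => ?_, ?_⟩
  · have h1 := hi₀ (j + D) (by omega)
    rw [one_mul] at h1
    calc D < 2 ^ D := Nat.lt_two_pow_self
      _ ≤ 2 ^ (j + D) := Nat.pow_le_pow_right (by norm_num) (by omega)
      _ ≤ _ := h1
  intro X j hX1 hX2 F hF
  have hX0 : 2 ≤ X := (two_le_pp j).trans hX1
  -- the coloured theorem for the blocks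
  have hMT : FMT (Gp X ℓ A C γ) F C₁ k' S K := by
    intro Y hY hYF
    subst hR
    subst hK
    obtain ⟨U, hU, hG⟩ := colX (D' := D) hQ hcol1 (by rw [hD, mul_assoc]; exact Dvd.intro _ rfl)
      (by rw [← hs₁]; exact hDa') hX1 hX2 (by rw [← hs₁]; omega) hF
      (fun t => Y ((finProdFinEquiv.symm (clsix t)).1, (finProdFinEquiv.symm (clsix t)).2,
        (finProdFinEquiv.symm t).2)) (by
        intro t t' h
        have h1 := hY h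
        simp only [Prod.mk.injEq] at h1
        have h2 : clsix t = clsix t' := finProdFinEquiv.symm.injective (Prod.ext h1.1 h1.2.1)
        exact finProdFinEquiv.symm.injective (Prod.ext h2 h1.2.2)) (fun t => hYF _)
      (S + C₁ * k') (by
        rw [show (C₁ + 1) * S = C₁ * S + S by ring]
        nlinarith)
    refine ⟨_, Gp_mono hX0 (by positivity) (by omega) (by omega) hg1 hG,
      U.image (fun t => finProdFinEquiv.symm (clsix t)), ?_, ?_⟩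
    · refine lt_of_lt_of_le hU ?_
      have h1 : U.image (fun t => ((clsix t : Fin ((C₁ + 1) * S)) : ℕ)) =
          (U.image (fun t => finProdFinEquiv.symm (clsix t))).image
            (fun x => ((finProdFinEquiv x : Fin ((C₁ + 1) * S)) : ℕ)) := by
        rw [image_image]
        apply image_congr
        intro t _
        show ((clsix t : Fin ((C₁ + 1) * S)) : ℕ) =
          ((finProdFinEquiv (finProdFinEquiv.symm (clsix t)) : Fin ((C₁ + 1) * S)) : ℕ)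
        rw [Equiv.apply_symm_apply]
      rw [h1]
      exact card_image_le
    · intro b hb
      obtain ⟨t, ht, rfl⟩ := mem_image.1 hb
      exact ⟨(finProdFinEquiv.symm t).2, mem_image_of_mem _ ht⟩
  -- large subsets contain good sets
  have hCl : FCl (Gp X ℓ A C γ) F s₂ m' := by
    intro Y hYF hYc
    obtain ⟨Y', hY', hY'c⟩ := exists_subset_card_eq hYc
    rw [hs₂] at hY'c
    obtain ⟨ψ⟩ : Nonempty (Fin (R₂ * (2 ^ (C₀ * R₂) / R₂)) ≃ Y') :=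
      ⟨(Y'.equivFinOfCardEq hY'c).symm⟩
    obtain ⟨U, hU, hG⟩ := colX (D' := D) hQ hcol2
      (by rw [hD, mul_comm Da Dc, mul_assoc]; exact Dvd.intro _ rfl)
      (by rw [← hs₂]; exact hDc') hX1 hX2 (by rw [← hs₂]; omega) hF
      (fun t => (ψ t : ℕ × ℕ)) (fun t t' h => ψ.injective (Subtype.ext h))
      (fun t => hYF (hY' (ψ t).2)) (m' - 1) (by
        rw [hR₂]
        exact Nat.mul_le_mul_left _ (by omega))
    have hcard : m' ≤ (U.image (fun t => ((ψ t : Y') : ℕ × ℕ))).card := by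
      rw [card_image_of_injective _ (fun t t' h => ψ.injective (Subtype.ext h))]
      have h1 : (U.image (fun t => ((clsix t : Fin R₂) : ℕ))).card ≤ U.card := card_image_le
      omega
    obtain ⟨Z, hZ, hZc⟩ := exists_subset_card_eq hcard
    refine ⟨Z, hZ.trans ?_, hZc, Gp_anti _ _ hZ
      (Gp_mono hX0 (by positivity) (by omega) (by omega) hg2 hG)⟩
    intro x hx
    obtain ⟨t, -, rfl⟩ := mem_image.1 hx
    exact hY' (ψ t).2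
  refine ⟨?_, ?_⟩
  · rw [hm'] at hCl
    obtain ⟨e, h1, h2, h3, h4, h5⟩ := finite_arrange (fun s t => Gp_anti s t) (Gp_empty hX0 hg0)
      (by omega) hMT hCl
    refine ⟨e, h1, h2, h3, ?_, fun i w hw hwk => h5 i w hw (by omega)⟩
    have h6 : (F.filter (fun f => ∀ i, f ∉ e i)).card < s₂ := by convert h4
    omega
  · intro Y hY hYN
    obtain ⟨Z, hZ, hZc, hZG⟩ := hCl Y hY (by omega)
    obtain ⟨Z', hZ', hZ'c⟩ := exists_subset_card_eq (show k ≤ Z.card by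
      have : k ≤ m' := by omega
      omega)
    exact ⟨Z', hZ'.trans hZ, hZ'c, Gp_anti _ _ hZ' hZG⟩

end Run7.h296
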