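import Pool.Agent.Run7.h296.TypeI
import Pool.Agent.W505.MH.Diff
import Pool.Agent.W333.MH.FL
import Pool.Agent.W933.MH.Sum

/-!
The main term of the series over rough integers in a residue class.
-/

set_option autoImplicit false

open Finset

namespace Run7.h296

open Pool.Agent.H262R3.Lk Pool.Agent.W505.MH
open Pool.Agent.H318R2.Cr (Rgh V V_pos V_le_one cz_bounds)

theorem cu_range (f : ℕ → ℝ) (z N : ℕ) (hN : z ≤ N) :
    ∑ n ∈ range (N + 1), cu f z n = ∑ n ∈ Ioc z N, f n := by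
  unfold cu
  rw [← sum_filter]
  refine sum_congr ?_ fun _ _ => rfl
  ext n
  simp only [mem_filter, mem_range, mem_Ioc]
  omega

theorem aj_main : ∃ C : ℝ, 0 < C ∧ ∀ (z q b j : ℕ) (σ : ℝ), 32 ≤ z → 1 ≤ q → q ^ 8 ≤ z →
    b.Coprime q → j ≤ 3 → 0 < σ → σ ≤ 1 →
    |Aj z q b j σ - (V z / q.totient) * ∑' n, cu (fn j σ) z n| ≤
      C * (Real.log z) ^ j / q.totient := by
  obtain ⟨C₀, hC₀, hFL⟩ := Pool.Agent.W333.MH.fl
  have hSUM := Pool.Agent.W933.MHSum.sum_
  obtain ⟨c₁, c₂, hc₁, hc₁₂, hcz⟩ := cz_bounds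
  have hc₂ : 0 < c₂ := lt_of_lt_of_le hc₁ hc₁₂
  refine ⟨72 * C₀ * c₂ + 4 * C₀, by positivity, ?_⟩
  intro z q b j σ hz hq hqz hb hj hσ hσ1
  have hz0 : (0 : ℝ) < z := by exact_mod_cast (by omega : 0 < z)
  have hφ : (0 : ℝ) < q.totient := by exact_mod_cast Nat.totient_pos.2 hq
  have hLz := log_ge_one hz
  set Lz := Real.log z with hLzd
  have hV0 : 0 < V z := V_pos z
  have hV1 : V z ≤ 1 := V_le_one z
  have hVL : V z * Lz ≤ c₂ := (hcz z (by omega)).2
  set R : ℕ → ℝ := fun n => (rc z q b n : ℝ) - n * (V z / q.totient) with hR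
  have hRb : ∀ n, z ≤ n → |R n| ≤ 2 * C₀ * (n * V z / q.totient) * (Lz / Real.log n) ^ 5 := by
    intro n hn
    have h1 := hFL z q b n hz hq hqz hb hn
    have e : R n = ((rc z q b n : ℝ) - n * V z / q.totient) := by simp only [hR]; ring
    rw [e]
    refine h1.trans ?_
    have hLn : Lz ≤ Real.log n := Real.log_le_log hz0 (by exact_mod_cast hn)
    have h2 : 0 ≤ C₀ * (n * V z / q.totient) * (Lz / Real.log n) ^ 5 := by
      have : 0 < Real.log n := by linarith
      positivity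
    linarith
  have hmono : ∀ n : ℕ, z ≤ n → Lz ≤ Real.log n := by
    intro n hn
    exact Real.log_le_log hz0 (by exact_mod_cast hn)
  -- the boundary terms
  have hbd : ∀ n : ℕ, z ≤ n → |R n * fn j σ n| ≤ 2 * C₀ * (Lz ^ j / q.totient) := by
    intro n hn
    have hn0 : (0 : ℝ) < n := by exact_mod_cast (by omega : 0 < n)
    have hn1 : (1 : ℝ) ≤ n := by exact_mod_cast (by omega : 1 ≤ n)
    have hLn := hmono n hn
    set Ln := Real.log n with hLnd
    have hLn0 : 0 < Ln := by linarith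
    have hf : fn j σ n ≤ Ln ^ j / n := by
      unfold fn
      rw [← hLnd]
      gcongr
      calc (n : ℝ) = (n : ℝ) ^ (1 : ℝ) := (Real.rpow_one _).symm
        _ ≤ (n : ℝ) ^ (1 + σ) := Real.rpow_le_rpow_of_exponent_le hn1 (by linarith)
    have hf0 : 0 ≤ fn j σ n := by
      unfold fn
      positivity
    rw [abs_mul, abs_of_nonneg hf0]
    have hx : Lz / Ln ≤ 1 := by rw [div_le_one hLn0]; exact hLn
    have hx0 : 0 ≤ Lz / Ln := by positivity
    calc |R n| * fn j σ n ≤ (2 * C₀ * (n * V z / q.totient) * (Lz / Ln) ^ 5) * (Ln ^ j / n) := by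
          apply mul_le_mul (hRb n hn) hf hf0 (by positivity)
      _ ≤ (2 * C₀ * (n * 1 / q.totient) * (Lz / Ln) ^ j) * (Ln ^ j / n) := by
          have : (Lz / Ln) ^ 5 ≤ (Lz / Ln) ^ j := pow_le_pow_of_le_one hx0 hx (by omega)
          gcongr
      _ = 2 * C₀ * (Lz ^ j / q.totient) := by
          rw [div_pow]
          field_simp
  have hfs : Summable (fn j σ) := (hSUM z q b j σ hσ).2.2.1
  have hcs : Summable (fun n => (V z / q.totient) * cu (fn j σ) z n) :=
    (cu_summable hfs z).mul_left _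
  rw [← tsum_mul_left]
  refine tsum_diff_le (hSUM z q b j σ hσ).1 hcs _ z ?_
  intro N hN
  rw [sum_aj z q b j σ (by omega) N hN, ← mul_sum, cu_range (fn j σ) z N hN, mul_sum,
    ← Finset.sum_sub_distrib]
  have e1 : ∑ n ∈ Ioc z N, (ind z q b n * fn j σ n - V z / q.totient * fn j σ n) =
      ∑ n ∈ Ioc z N, (ind z q b n - V z / q.totient) * fn j σ n :=
    Finset.sum_congr rfl fun n _ => by ring
  rw [e1, abel z (fun n => ind z q b n - V z / q.totient) (fn j σ) R (by
    intro n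
    simp only [hR]
    rw [rc_succ]
    push_cast
    ring) N hN]
  have hs : |∑ n ∈ Ico z N, R n * (fn j σ n - fn j σ (n + 1))| ≤
      72 * C₀ * c₂ * (Lz ^ j / q.totient) := by
    refine (Finset.abs_sum_le_sum_abs _ _).trans ?_
    have h1 : ∀ n ∈ Ico z N, |R n * (fn j σ n - fn j σ (n + 1))| ≤
        (18 * C₀ * (V z / q.totient) * Lz ^ (j + 2)) * (1 / ((n : ℝ) * (Real.log n) ^ 2)) := by
      intro n hn
      rw [mem_Ico] at hn
      have hn0 : (0 : ℝ) < n := by exact_mod_cast (by omega : 0 < n)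
      have hLn := hmono n hn.1
      have hfd := fn_diff hσ hσ1 hj (show 32 ≤ n by omega)
      have hRn := hRb n hn.1
      set Ln := Real.log n with hLnd
      have hLn0 : 0 < Ln := by linarith
      have hx : Lz / Ln ≤ 1 := by rw [div_le_one hLn0]; exact hLn
      have hx0 : 0 ≤ Lz / Ln := by positivity
      rw [abs_mul]
      calc |R n| * |fn j σ n - fn j σ (n + 1)| ≤
            (2 * C₀ * (n * V z / q.totient) * (Lz / Ln) ^ 5) * (9 * (Ln ^ j / (n : ℝ) ^ 2)) :=
            mul_le_mul hRn hfd (abs_nonneg _) (by positivity)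
        _ ≤ (2 * C₀ * (n * V z / q.totient) * (Lz / Ln) ^ (j + 2)) * (9 * (Ln ^ j / (n : ℝ) ^ 2)) := by
            have : (Lz / Ln) ^ 5 ≤ (Lz / Ln) ^ (j + 2) := pow_le_pow_of_le_one hx0 hx (by omega)
            gcongr
        _ = (18 * C₀ * (V z / q.totient) * Lz ^ (j + 2)) * (1 / ((n : ℝ) * Ln ^ 2)) := by
            rw [div_pow, pow_add Ln]
            field_simp
            norm_num
    refine (Finset.sum_le_sum h1).trans ?_
    rw [← Finset.mul_sum]
    calc (18 * C₀ * (V z / q.totient) * Lz ^ (j + 2)) *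
          ∑ n ∈ Ico z N, 1 / ((n : ℝ) * (Real.log n) ^ 2) ≤
          (18 * C₀ * (V z / q.totient) * Lz ^ (j + 2)) * (4 / Lz) := by
          apply mul_le_mul_of_nonneg_left (sum_inv_log hz N hN) (by positivity)
      _ = 72 * C₀ * (V z * Lz) * (Lz ^ j / q.totient) := by
          rw [pow_add]
          field_simp
          norm_num
      _ ≤ 72 * C₀ * c₂ * (Lz ^ j / q.totient) := by gcongr
  calc |R N * fn j σ N - R z * fn j σ z + ∑ n ∈ Ico z N, R n * (fn j σ n - fn j σ (n + 1))| ≤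
        |R N * fn j σ N - R z * fn j σ z| + |∑ n ∈ Ico z N, R n * (fn j σ n - fn j σ (n + 1))| :=
        abs_add_le _ _
    _ ≤ (|R N * fn j σ N| + |R z * fn j σ z|) + 72 * C₀ * c₂ * (Lz ^ j / q.totient) :=
        add_le_add (abs_sub _ _) hs
    _ ≤ (2 * C₀ * (Lz ^ j / q.totient) + 2 * C₀ * (Lz ^ j / q.totient)) +
          72 * C₀ * c₂ * (Lz ^ j / q.totient) := by
        gcongr
        · exact hbd N hN
        · exact hbd z le_rfl
    _ = (72 * C₀ * c₂ + 4 * C₀) * Lz ^ j / q.totient := by ring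

end Run7.h296
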