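import Pool.Agent.W701.MH.Abs

/-!
The finite Fourier argument with one character left out. The proof follows `Pool.Agent.W701.MH.abs_`.
-/

set_option autoImplicit false

open Finset

namespace Run7.h296

open Pool.Agent.W701.MH

theorem abs1 (q : ℕ) [NeZero q] (a1 a2 a3 d0 d2 m : (ZMod q)ˣ → ℂ)
    (L0 : DirichletCharacter ℂ q → ℂ) (T1 T2 T3 P R lam : ℝ) (hT1 : 0 ≤ T1) (hT2 : 0 ≤ T2)
    (hT3 : 0 ≤ T3) (hlam : 0 < lam)
    (h1 : ∀ x y, ‖a1 x - a1 y‖ ≤ T1 / q.totient) (h2 : ∀ x y, ‖a2 x - a2 y‖ ≤ T2 / q.totient)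
    (h3 : ∀ x y, ‖a3 x - a3 y‖ ≤ T3 / q.totient) (hm : ∑ x, ‖m x‖ ≤ P) (hd : ∑ x, ‖d0 x‖ ≤ R)
    (hM : ∀ χ : DirichletCharacter ℂ q, (∑ x : (ZMod q)ˣ, χ x * m x) * L0 χ = 1)
    (hL1 : ∀ χ : DirichletCharacter ℂ q,
      ∑ x : (ZMod q)ˣ, χ x * a1 x = (∑ x : (ZMod q)ˣ, χ x * d0 x) * L0 χ)
    (hL2 : ∀ χ : DirichletCharacter ℂ q, (∑ x : (ZMod q)ˣ, χ x * d2 x) * L0 χ =
      (∑ x : (ZMod q)ˣ, χ x * a3 x) - 3 * (∑ x : (ZMod q)ˣ, χ x * d0 x) * (∑ x : (ZMod q)ˣ, χ x * a2 x) +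
      2 * (∑ x : (ZMod q)ˣ, χ x * d0 x) ^ 3 * L0 χ)
    (χ₁ : DirichletCharacter ℂ q) (hχ₁ : χ₁ ≠ 1)
    (hlow : ∀ χ : DirichletCharacter ℂ q, χ ≠ 1 → χ ≠ χ₁ → lam ≤ ‖L0 χ‖) (b : (ZMod q)ˣ) :
    ‖(q.totient : ℂ) * d2 b - ∑ x, d2 x -
      2 * (χ₁ ((b⁻¹ : (ZMod q)ˣ) : ZMod q) * (∑ x : (ZMod q)ˣ, χ₁ x * d0 x) ^ 3)‖ ≤
      T3 * P + 3 * T2 * P * R + 2 * T1 ^ 3 * P ^ 2 / lam := by
  classical
  have hp : (0 : ℝ) < q.totient := tot_pos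
  change ∀ χ : DirichletCharacter ℂ q, hat m χ * L0 χ = 1 at hM
  change ∀ χ : DirichletCharacter ℂ q, hat a1 χ = hat d0 χ * L0 χ at hL1
  change ∀ χ : DirichletCharacter ℂ q, hat d2 χ * L0 χ = hat a3 χ - 3 * hat d0 χ * hat a2 χ +
      2 * (hat d0 χ) ^ 3 * L0 χ at hL2
  change ‖(q.totient : ℂ) * d2 b - ∑ x, d2 x -
      2 * (χ₁ ((b⁻¹ : (ZMod q)ˣ) : ZMod q) * (hat d0 χ₁) ^ 3)‖ ≤ _
  have hP : 0 ≤ P := le_trans (Finset.sum_nonneg fun _ _ => norm_nonneg _) hm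
  have hR : 0 ≤ R := le_trans (Finset.sum_nonneg fun _ _ => norm_nonneg _) hd
  have hD2 : ∀ χ, hat d2 χ = hat a3 χ * hat m χ - 3 * hat d0 χ * hat a2 χ * hat m χ + 2 * (hat d0 χ) ^ 3 := by
    intro χ
    have e : hat d2 χ = hat d2 χ * L0 χ * hat m χ := by
      rw [mul_assoc, mul_comm (L0 χ), hM, mul_one]
    rw [e, hL2]
    have := hM χ
    linear_combination (2 * hat d0 χ ^ 3) * this
  have hD0 : ∀ χ, hat d0 χ = hat a1 χ * hat m χ := by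
    intro χ
    have := hM χ
    rw [hL1]
    linear_combination (- hat d0 χ) * this
  have hs : ∑ x, d2 x = hat d2 1 := by
    unfold hat
    refine Finset.sum_congr rfl fun x _ => ?_
    rw [MulChar.one_apply_coe, one_mul]
  set F1 : (ZMod q)ˣ → ℂ := cv (dm a3) m with hF1
  set F2 : (ZMod q)ˣ → ℂ := cv (dm a2) (cv m d0) with hF2
  have key : (q.totient : ℂ) * d2 b - ∑ x, d2 x = (q.totient : ℂ) * F1 b - 3 * ((q.totient : ℂ) * F2 b)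
      + 2 * ∑ χ ∈ (univ.erase (1 : DirichletCharacter ℂ q)), χ ((b⁻¹ : (ZMod q)ˣ) : ZMod q) * (hat d0 χ) ^ 3 := by
    rw [← inv_hat d2 b, hs, ← inv_hat F1 b, ← inv_hat F2 b]
    rw [← Finset.add_sum_erase univ _ (Finset.mem_univ (1 : DirichletCharacter ℂ q)),
      ← Finset.add_sum_erase univ (fun χ : DirichletCharacter ℂ q => χ ((b⁻¹ : (ZMod q)ˣ) : ZMod q) * hat F1 χ)
        (Finset.mem_univ (1 : DirichletCharacter ℂ q)),
      ← Finset.add_sum_erase univ (fun χ : DirichletCharacter ℂ q => χ ((b⁻¹ : (ZMod q)ˣ) : ZMod q) * hat F2 χ)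
        (Finset.mem_univ (1 : DirichletCharacter ℂ q))]
    have z1 : hat F1 1 = 0 := by rw [hF1, hat_cv, hat_dm_one, zero_mul]
    have z2 : hat F2 1 = 0 := by rw [hF2, hat_cv, hat_dm_one, zero_mul]
    simp only [z1, z2, mul_zero, zero_add, MulChar.one_apply_coe, one_mul, add_sub_cancel_left]
    rw [Finset.mul_sum, Finset.mul_sum, ← Finset.sum_sub_distrib, ← Finset.sum_add_distrib]
    refine Finset.sum_congr rfl fun χ hχ => ?_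
    have hne : χ ≠ 1 := Finset.ne_of_mem_erase hχ
    rw [hD2, hF1, hF2, hat_cv, hat_cv, hat_cv, hat_dm _ _ hne, hat_dm _ _ hne]
    ring
  have hmem : χ₁ ∈ univ.erase (1 : DirichletCharacter ℂ q) := Finset.mem_erase.2 ⟨hχ₁, mem_univ _⟩
  have key2 : (q.totient : ℂ) * d2 b - ∑ x, d2 x -
      2 * (χ₁ ((b⁻¹ : (ZMod q)ˣ) : ZMod q) * (hat d0 χ₁) ^ 3) =
      (q.totient : ℂ) * F1 b - 3 * ((q.totient : ℂ) * F2 b)
      + 2 * ∑ χ ∈ ((univ.erase (1 : DirichletCharacter ℂ q)).erase χ₁),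
        χ ((b⁻¹ : (ZMod q)ˣ) : ZMod q) * (hat d0 χ) ^ 3 := by
    rw [key, ← Finset.add_sum_erase _ _ hmem]
    ring
  rw [key2]
  have b1 : ‖(q.totient : ℂ) * F1 b‖ ≤ T3 * P := by
    rw [norm_mul, Complex.norm_natCast]
    have := norm_cv_le (dm a3) m (T3 / q.totient) P (by positivity) (norm_dm a3 T3 h3) hm b
    calc (q.totient : ℝ) * ‖F1 b‖ ≤ q.totient * (T3 / q.totient * P) := by gcongr
      _ = T3 * P := by field_simp
  have hmd : ∑ x, ‖cv m d0 x‖ ≤ P * R := by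
    refine (sum_norm_cv_le m d0).trans ?_
    exact mul_le_mul hm hd (Finset.sum_nonneg fun _ _ => norm_nonneg _) hP
  have b2 : ‖3 * ((q.totient : ℂ) * F2 b)‖ ≤ 3 * T2 * P * R := by
    rw [norm_mul, norm_mul, Complex.norm_natCast]
    have := norm_cv_le (dm a2) (cv m d0) (T2 / q.totient) (P * R) (by positivity) (norm_dm a2 T2 h2) hmd b
    have e3 : ‖(3 : ℂ)‖ = 3 := by simp
    rw [e3]
    calc 3 * ((q.totient : ℝ) * ‖F2 b‖) ≤ 3 * (q.totient * (T2 / q.totient * (P * R))) := by gcongr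
      _ = 3 * T2 * P * R := by field_simp
  have b3 : ‖∑ χ ∈ ((univ.erase (1 : DirichletCharacter ℂ q)).erase χ₁),
      χ ((b⁻¹ : (ZMod q)ˣ) : ZMod q) * (hat d0 χ) ^ 3‖ ≤ T1 ^ 3 * P ^ 2 / lam := by
    refine (norm_sum_le _ _).trans ?_
    have s1 : ∀ χ ∈ ((univ.erase (1 : DirichletCharacter ℂ q)).erase χ₁),
        ‖χ ((b⁻¹ : (ZMod q)ˣ) : ZMod q) * (hat d0 χ) ^ 3‖ ≤ (T1 / lam) * ‖hat (cv (dm a1) m) χ‖ ^ 2 := by
      intro χ hχ
      have hne1 : χ ≠ χ₁ := Finset.ne_of_mem_erase hχ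
      have hne : χ ≠ 1 := Finset.ne_of_mem_erase (Finset.mem_of_mem_erase hχ)
      have u1 : ‖hat d0 χ‖ ≤ T1 / lam := by
        have v1 : ‖hat a1 χ‖ ≤ T1 := by
          rw [← hat_dm a1 χ hne]
          exact norm_hat_le _ T1 (norm_dm a1 T1 h1) χ
        rw [hL1, norm_mul] at v1
        rw [le_div_iff₀ hlam]
        refine le_trans ?_ v1
        exact mul_le_mul_of_nonneg_left (hlow χ hne hne1) (norm_nonneg _)
      have u2 : hat d0 χ = hat (cv (dm a1) m) χ := by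
        rw [hat_cv, hat_dm _ _ hne]; exact hD0 χ
      rw [norm_mul, norm_unit, one_mul, norm_pow, ← u2]
      have : ‖hat d0 χ‖ ^ 3 = ‖hat d0 χ‖ * ‖hat d0 χ‖ ^ 2 := by ring
      rw [this]
      gcongr
    refine (Finset.sum_le_sum s1).trans ?_
    rw [← Finset.mul_sum]
    have s2 : ∑ χ ∈ ((univ.erase (1 : DirichletCharacter ℂ q)).erase χ₁),
        ‖hat (cv (dm a1) m) χ‖ ^ 2 ≤ T1 ^ 2 * P ^ 2 := by
      refine (Finset.sum_le_sum_of_subset_of_nonneg (Finset.subset_univ _) (fun _ _ _ => by positivity)).trans ?_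
      rw [parseval]
      have s3 : ∀ x ∈ (Finset.univ : Finset (ZMod q)ˣ), ‖cv (dm a1) m x‖ ^ 2 ≤ (T1 / q.totient * P) ^ 2 := by
        intro x _
        have := norm_cv_le (dm a1) m (T1 / q.totient) P (by positivity) (norm_dm a1 T1 h1) hm x
        gcongr
      have s4 := Finset.sum_le_card_nsmul _ _ _ s3
      rw [Finset.card_univ, ZMod.card_units_eq_totient, nsmul_eq_mul] at s4
      calc (q.totient : ℝ) * ∑ x : (ZMod q)ˣ, ‖cv (dm a1) m x‖ ^ 2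
          ≤ q.totient * (q.totient * (T1 / q.totient * P) ^ 2) := by gcongr
        _ = T1 ^ 2 * P ^ 2 := by field_simp
    calc T1 / lam * ∑ χ ∈ ((univ.erase (1 : DirichletCharacter ℂ q)).erase χ₁),
        ‖hat (cv (dm a1) m) χ‖ ^ 2
        ≤ T1 / lam * (T1 ^ 2 * P ^ 2) := by gcongr
      _ = T1 ^ 3 * P ^ 2 / lam := by ring
  have b4 : ‖2 * ∑ χ ∈ ((univ.erase (1 : DirichletCharacter ℂ q)).erase χ₁),
      χ ((b⁻¹ : (ZMod q)ˣ) : ZMod q) * (hat d0 χ) ^ 3‖ ≤ 2 * T1 ^ 3 * P ^ 2 / lam := by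
    rw [norm_mul]
    have e2 : ‖(2 : ℂ)‖ = 2 := by simp
    rw [e2]
    calc 2 * ‖∑ χ ∈ ((univ.erase (1 : DirichletCharacter ℂ q)).erase χ₁),
        χ ((b⁻¹ : (ZMod q)ˣ) : ZMod q) * (hat d0 χ) ^ 3‖
        ≤ 2 * (T1 ^ 3 * P ^ 2 / lam) := by gcongr
      _ = 2 * T1 ^ 3 * P ^ 2 / lam := by ring
  refine (norm_add_le _ _).trans ?_
  refine add_le_add ((norm_sub_le _ _).trans (add_le_add b1 b2)) b4

end Run7.h296
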