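import Pool.Agent.Run7.h296.Exc

/-!
Residues at which a real primitive character is negative at many forms.
-/

set_option autoImplicit false

open Finset

namespace Run7.h296

open Pool.Agent.W215.MH

/-- the sum of a primitive character over an arithmetic progression with a step divisible by a part of the
modulus -/
theorem line_sum {p d : ℕ} (hp : p.Prime) (hd : 0 < d) (hcop : p.Coprime d)
    (χ : DirichletCharacter ℂ (p * d)) (hprim : χ.IsPrimitive) (c v : ℕ) (hdv : d ∣ v)
    (hpv : ¬ p ∣ v) : ∑ t ∈ range p, χ ((c + v * t : ℕ) : ZMod (p * d)) = 0 := by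
  haveI : Fact p.Prime := ⟨hp⟩
  haveI : NeZero (p * d) := ⟨(Nat.mul_pos hp.pos hd).ne'⟩
  haveI : NeZero d := ⟨hd.ne'⟩
  have hdq : d ∣ p * d := dvd_mul_left d p
  have hlt : d < p * d := by
    have := hp.one_lt
    nlinarith
  have hnf : ¬ χ.FactorsThrough d := fun h => prim_contra χ hprim hlt h
  rw [DirichletCharacter.factorsThrough_iff_ker_unitsMap hdq] at hnf
  obtain ⟨u, hu1, hu2⟩ := Set.not_subset.1 (fun h => hnf h)
  have hu3 : ZMod.unitsMap hdq u = 1 := hu1
  have hu4 : χ (u : ZMod (p * d)) ≠ 1 := by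
    intro h
    apply hu2
    show u ∈ χ.toUnitHom.ker
    rw [MonoidHom.mem_ker]
    apply Units.ext
    rw [Units.val_one, ← h]
    exact MulChar.coe_toUnitHom χ u
  obtain ⟨n, hn⟩ : ∃ n : ℕ, n = (u : ZMod (p * d)).val := ⟨_, rfl⟩
  have hun : (u : ZMod (p * d)) = (n : ZMod (p * d)) := by
    rw [hn, ZMod.natCast_val, ZMod.cast_id', id]
  have hnd : ((n : ℕ) : ZMod d) = 1 := by
    have h4 := congrArg Units.val hu3
    rw [Units.val_one] at h4
    rw [← h4, ZMod.unitsMap_def, Units.coe_map]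
    show _ = (ZMod.castHom hdq (ZMod d)) (u : ZMod (p * d))
    rw [hun, map_natCast]
  have hnp : ((n : ℕ) : ZMod p) ≠ 0 := by
    intro h
    have h1 : IsUnit ((n : ℕ) : ZMod (p * d)) := by rw [← hun]; exact u.isUnit
    rw [ZMod.isUnit_iff_coprime] at h1
    rw [ZMod.natCast_eq_zero_iff] at h
    have h2 : p ∣ Nat.gcd n (p * d) := Nat.dvd_gcd h (dvd_mul_right p d)
    rw [Nat.Coprime] at h1
    rw [h1] at h2
    exact hp.one_lt.ne' (Nat.dvd_one.1 h2)
  have hvp : ((v : ℕ) : ZMod p) ≠ 0 := by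
    intro h
    rw [ZMod.natCast_eq_zero_iff] at h
    exact hpv h
  obtain ⟨w, hw⟩ : ∃ w : ZMod p, w = (((n : ℕ) : ZMod p) - 1) * c * ((v : ℕ) : ZMod p)⁻¹ := ⟨_, rfl⟩
  obtain ⟨F, hF⟩ : ∃ F : ZMod p → ℂ, F = fun t => χ ((c + v * t.val : ℕ) : ZMod (p * d)) := ⟨_, rfl⟩
  have hsum : ∑ t ∈ range p, χ ((c + v * t : ℕ) : ZMod (p * d)) = ∑ t : ZMod p, F t := by
    apply Finset.sum_nbij' (fun t : ℕ => (t : ZMod p)) (fun x : ZMod p => x.val)
    · intro t _
      exact mem_univ _
    · intro x _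
      exact mem_range.2 (ZMod.val_lt x)
    · intro t ht
      exact ZMod.val_cast_of_lt (mem_range.1 ht)
    · intro x _
      rw [ZMod.natCast_val, ZMod.cast_id', id]
    · intro t ht
      rw [hF]
      simp only
      rw [ZMod.val_cast_of_lt (mem_range.1 ht)]
  rw [hsum]
  have hτ : ∀ t : ZMod p, χ (u : ZMod (p * d)) * F t = F (((n : ℕ) : ZMod p) * t + w) := by
    intro t
    rw [hF]
    simp only
    rw [← map_mul, hun, ← Nat.cast_mul]
    congr 1
    rw [ZMod.natCast_eq_natCast_iff, ← Nat.modEq_and_modEq_iff_modEq_mul hcop]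
    constructor
    · rw [← ZMod.natCast_eq_natCast_iff]
      push_cast
      rw [ZMod.natCast_val, ZMod.natCast_val, ZMod.cast_id', id, id, hw]
      field_simp
      ring
    · rw [← ZMod.natCast_eq_natCast_iff]
      push_cast
      have h5 : ((v : ℕ) : ZMod d) = 0 := (ZMod.natCast_eq_zero_iff _ _).2 hdv
      rw [h5, hnd]
      ring
  have h6 : χ (u : ZMod (p * d)) * ∑ t : ZMod p, F t = ∑ t : ZMod p, F t := by
    rw [mul_sum]
    rw [Finset.sum_congr rfl fun t _ => hτ t]
    exact Equiv.sum_comp ((Equiv.mulLeft₀ ((n : ℕ) : ZMod p) hnp).trans (Equiv.addRight w)) F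
  have h7 : (χ (u : ZMod (p * d)) - 1) * ∑ t : ZMod p, F t = 0 := by
    rw [sub_mul, h6]
    ring
  rcases mul_eq_zero.1 h7 with h8 | h8
  · exact absurd (sub_eq_zero.1 h8) hu4
  · exact h8

/-- the sum over the residues avoiding the forms -/
theorem fib_sum {K p d : ℕ} (hp : p.Prime) (hd : 0 < d) (hcop : p.Coprime d)
    (χ : DirichletCharacter ℂ (p * d)) (hprim : χ.IsPrimitive) (c v : Fin K → ℕ)
    (hcv : ∀ j, p ∣ v j → ¬ p ∣ c j) (i : Fin K) (hdv : d ∣ v i) (hpv : ¬ p ∣ v i) :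
    ‖∑ t ∈ (range p).filter (fun t => ∀ j, ¬ p ∣ c j + v j * t),
      χ ((c i + v i * t : ℕ) : ZMod (p * d))‖ ≤ K ∧
    p ≤ ((range p).filter (fun t => ∀ j, ¬ p ∣ c j + v j * t)).card + K := by
  classical
  have h0 := line_sum hp hd hcop χ hprim (c i) (v i) hdv hpv
  rw [← Finset.sum_filter_add_sum_filter_not (range p) (fun t => ∀ j, ¬ p ∣ c j + v j * t)] at h0
  have hcard : ((range p).filter (fun t => ¬ ∀ j, ¬ p ∣ c j + v j * t)).card ≤ K := by
    have h1 : ∀ t ∈ (range p).filter (fun t => ¬ ∀ j, ¬ p ∣ c j + v j * t), ∃ j, p ∣ c j + v j * t := by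
      intro t ht
      have := (mem_filter.1 ht).2
      push Not at this
      exact this
    haveI : Nonempty (Fin K) := ⟨i⟩
    choose! f hf using h1
    have h2 : ((range p).filter (fun t => ¬ ∀ j, ¬ p ∣ c j + v j * t)).card ≤
        (univ : Finset (Fin K)).card := by
      apply card_le_card_of_injOn f (fun _ _ => mem_coe.2 (mem_univ _))
      intro t ht t' ht' hft
      have e1 := hf t ht
      have e2 := hf t' ht'
      rw [← hft] at e2
      have e3 : ¬ p ∣ v (f t) := by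
        intro h
        exact hcv _ h ((Nat.dvd_add_left (h.mul_right t)).1 e1)
      have e4 : (p : ℤ) ∣ (v (f t) : ℤ) * ((t : ℤ) - t') := by
        have e5 : (v (f t) : ℤ) * ((t : ℤ) - t') =
            ((c (f t) + v (f t) * t : ℕ) : ℤ) - ((c (f t) + v (f t) * t' : ℕ) : ℤ) := by
          push_cast
          ring
        rw [e5]
        exact dvd_sub (Int.natCast_dvd_natCast.2 e1) (Int.natCast_dvd_natCast.2 e2)
      have e6 : (p : ℤ) ∣ (t : ℤ) - t' := by
        rcases (Int.Prime.dvd_mul' hp e4) with h | h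
        · exact absurd (Int.natCast_dvd_natCast.1 h) e3
        · exact h
      have e7 : (t : ℤ) - t' = 0 := by
        apply Int.eq_zero_of_abs_lt_dvd e6
        have r1 := mem_range.1 (mem_filter.1 (mem_coe.1 ht)).1
        have r2 := mem_range.1 (mem_filter.1 (mem_coe.1 ht')).1
        rw [abs_lt]
        omega
      omega
    rwa [card_univ, Fintype.card_fin] at h2
  constructor
  · rw [eq_neg_of_add_eq_zero_left h0, norm_neg]
    refine (norm_sum_le _ _).trans ?_
    have h3 : ∀ t ∈ (range p).filter (fun t => ¬ ∀ j, ¬ p ∣ c j + v j * t),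
        ‖χ ((c i + v i * t : ℕ) : ZMod (p * d))‖ ≤ 1 := fun t _ => DirichletCharacter.norm_le_one χ _
    refine (Finset.sum_le_card_nsmul _ _ _ h3).trans ?_
    rw [nsmul_eq_mul, mul_one]
    exact_mod_cast hcard
  · have h4 := Finset.card_filter_add_card_filter_not (s := range p) (fun t => ∀ j, ¬ p ∣ c j + v j * t)
    rw [card_range] at h4
    omega

/-- the residues at which all the forms are coprime to the modulus -/
def NuS {K : ℕ} (a b : Fin K → ℕ) (W : ℕ) : Finset ℕ :=
  (range W).filter (fun ν => ∀ j, (a j * ν + b j).Coprime W)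

theorem mem_NuS {K : ℕ} {a b : Fin K → ℕ} {W ν : ℕ} :
    ν ∈ NuS a b W ↔ ν < W ∧ ∀ j, (a j * ν + b j).Coprime W := by
  unfold NuS
  rw [mem_filter, mem_range]

/-- splitting the residues modulo `p W` -/
theorem split_NuS {K : ℕ} (a b : Fin K → ℕ) {p W : ℕ} (hp : p.Prime) (hW : 0 < W)
    (f : ℕ → ℂ) : ∑ ν ∈ NuS a b (p * W), f ν =
    ∑ r ∈ NuS a b W, ∑ t ∈ (range p).filter (fun t => ∀ j, ¬ p ∣ (a j * r + b j) + a j * W * t),
      f (r + W * t) := by
  classical
  rw [Finset.sum_sigma']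
  have hco : ∀ r t : ℕ, ∀ j, (a j * (r + W * t) + b j).Coprime (p * W) ↔
      (a j * r + b j).Coprime W ∧ ¬ p ∣ (a j * r + b j) + a j * W * t := by
    intro r t j
    rw [Nat.coprime_mul_iff_right]
    have e1 : a j * (r + W * t) + b j = (a j * r + b j) + a j * W * t := by ring
    rw [e1, and_comm]
    apply and_congr
    · have e2 : a j * r + b j + a j * W * t = a j * r + b j + W * (a j * t) := by ring
      rw [e2, Nat.coprime_add_mul_left_left]
    · rw [Nat.coprime_comm, hp.coprime_iff_not_dvd]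
  symm
  apply Finset.sum_nbij' (fun x : (_ : ℕ) × ℕ => x.1 + W * x.2)
    (fun ν : ℕ => (⟨ν % W, ν / W⟩ : (_ : ℕ) × ℕ))
  · rintro ⟨r, t⟩ hx
    rw [mem_sigma, mem_NuS, mem_filter, mem_range] at hx
    obtain ⟨⟨h1, h2⟩, h3, h4⟩ := hx
    rw [mem_NuS]
    refine ⟨?_, fun j => (hco r t j).2 ⟨h2 j, h4 j⟩⟩
    have h1' : r < W := h1
    have h3' : t < p := h3
    show r + W * t < p * W
    calc r + W * t < W + W * t := by omega
      _ = W * (t + 1) := by ring
      _ ≤ W * p := Nat.mul_le_mul_left _ h3'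
      _ = p * W := mul_comm _ _
  · intro ν hν
    rw [mem_NuS] at hν
    rw [mem_sigma, mem_NuS, mem_filter, mem_range]
    have e1 : ν % W + W * (ν / W) = ν := Nat.mod_add_div ν W
    have h2 := fun j => (hco (ν % W) (ν / W) j).1 (by rw [e1]; exact hν.2 j)
    exact ⟨⟨Nat.mod_lt _ hW, fun j => (h2 j).1⟩,
      (Nat.div_lt_iff_lt_mul hW).2 hν.1, fun j => (h2 j).2⟩
  · rintro ⟨r, t⟩ hx
    rw [mem_sigma, mem_NuS, mem_filter, mem_range] at hx
    obtain ⟨⟨h1, h2⟩, h3, h4⟩ := hx
    simp only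
    rw [Nat.add_mul_mod_self_left, Nat.mod_eq_of_lt h1, Nat.add_mul_div_left _ _ hW,
      Nat.div_eq_of_lt h1, zero_add]
  · intro ν _
    simp only
    exact Nat.mod_add_div ν W
  · rintro ⟨r, t⟩ _
    rfl

/-- the average of a real primitive character over the residues is small -/
theorem avg_sum {K p d W : ℕ} (hp : p.Prime) (hd : 0 < d) (hcop : p.Coprime d)
    (χ : DirichletCharacter ℂ (p * d)) (hprim : χ.IsPrimitive) (a b : Fin K → ℕ)
    (hab : ∀ j, (a j).Coprime (b j)) (hW : 0 < W) (hpW : ¬ p ∣ W) (hpK : 6 * K ≤ p) (i : Fin K)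
    (hdv : d ∣ a i * W) (hpv : ¬ p ∣ a i) :
    5 * ‖∑ ν ∈ NuS a b (p * W), χ ((a i * ν + b i : ℕ) : ZMod (p * d))‖ ≤
      ((NuS a b (p * W)).card : ℝ) := by
  classical
  rw [split_NuS a b hp hW]
  have hcard : ((NuS a b (p * W)).card : ℂ) = ∑ r ∈ NuS a b W,
      (((range p).filter (fun t => ∀ j, ¬ p ∣ (a j * r + b j) + a j * W * t)).card : ℂ) := by
    have h := split_NuS a b hp hW (fun _ => (1 : ℂ))
    simp only [sum_const, nsmul_eq_mul, mul_one] at h
    exact h
  have hcard' : ((NuS a b (p * W)).card : ℝ) = ∑ r ∈ NuS a b W,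
      (((range p).filter (fun t => ∀ j, ¬ p ∣ (a j * r + b j) + a j * W * t)).card : ℝ) := by
    exact_mod_cast hcard
  rw [hcard']
  have hfib : ∀ r : ℕ, ‖∑ t ∈ (range p).filter (fun t => ∀ j, ¬ p ∣ (a j * r + b j) + a j * W * t),
      χ ((a i * (r + W * t) + b i : ℕ) : ZMod (p * d))‖ ≤ K ∧
      p ≤ ((range p).filter (fun t => ∀ j, ¬ p ∣ (a j * r + b j) + a j * W * t)).card + K := by
    intro r
    have h := fib_sum hp hd hcop χ hprim (fun j => a j * r + b j) (fun j => a j * W) (by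
      intro j hj h2
      have h3 : p ∣ a j := by
        rcases (Nat.Prime.dvd_mul hp).1 hj with h | h
        · exact h
        · exact absurd h hpW
      have h4 : p ∣ b j := (Nat.dvd_add_right (h3.mul_right r)).1 h2
      have h5 := Nat.dvd_gcd h3 h4
      rw [(hab j)] at h5
      exact hp.one_lt.ne' (Nat.dvd_one.1 h5)) i hdv (by
      intro h
      rcases (Nat.Prime.dvd_mul hp).1 h with h | h
      · exact hpv h
      · exact hpW h)
    refine ⟨?_, h.2⟩
    refine le_trans (le_of_eq ?_) h.1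
    congr 1
    apply Finset.sum_congr rfl
    intro t _
    congr 2
    ring
  have h1 : 5 * ‖∑ r ∈ NuS a b W, ∑ t ∈ (range p).filter
      (fun t => ∀ j, ¬ p ∣ (a j * r + b j) + a j * W * t),
      χ ((a i * (r + W * t) + b i : ℕ) : ZMod (p * d))‖ ≤ 5 * ∑ r ∈ NuS a b W, (K : ℝ) :=
    mul_le_mul_of_nonneg_left ((norm_sum_le _ _).trans (Finset.sum_le_sum fun r _ => (hfib r).1))
      (by norm_num)
  refine h1.trans ?_
  rw [mul_sum]
  apply Finset.sum_le_sum
  intro r _
  have h2 := (hfib r).2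
  have h3 : 5 * K ≤ ((range p).filter (fun t => ∀ j, ¬ p ∣ (a j * r + b j) + a j * W * t)).card := by
    omega
  exact_mod_cast h3

/-- many residues at which a form is negative -/
theorem neg_count {K p d W : ℕ} (hp : p.Prime) (hd : 0 < d) (hcop : p.Coprime d)
    (χ : DirichletCharacter ℂ (p * d)) (hprim : χ.IsPrimitive) (h2 : χ ^ 2 = 1) (a b : Fin K → ℕ)
    (hab : ∀ j, (a j).Coprime (b j)) (hW : 0 < W) (hpW : ¬ p ∣ W) (hpK : 6 * K ≤ p) (i : Fin K)
    (hdv : d ∣ a i * W) (hpv : ¬ p ∣ a i) (hrad : ∀ r : ℕ, r.Prime → r ∣ a i → r ∣ p * W) :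
    2 * (NuS a b (p * W)).card ≤ 5 * ((NuS a b (p * W)).filter
      (fun ν => χ ((a i * ν + b i : ℕ) : ZMod (p * d)) = -1)).card := by
  classical
  have h0 := avg_sum hp hd hcop χ hprim a b hab hW hpW hpK i hdv hpv
  have hval : ∀ ν ∈ NuS a b (p * W), χ ((a i * ν + b i : ℕ) : ZMod (p * d)) =
      1 - 2 * (if χ ((a i * ν + b i : ℕ) : ZMod (p * d)) = -1 then (1 : ℂ) else 0) := by
    intro ν hν
    have hu : IsUnit ((a i * ν + b i : ℕ) : ZMod (p * d)) := by
      rw [ZMod.isUnit_iff_coprime]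
      apply Nat.Coprime.symm
      apply Nat.coprime_of_dvd
      intro r hr h1 h3
      have h4 : r ∣ p * W := by
        rcases (Nat.Prime.dvd_mul hr).1 h1 with h | h
        · exact h.mul_right W
        · rcases (Nat.Prime.dvd_mul hr).1 (h.trans hdv) with h5 | h5
          · exact hrad r hr h5
          · exact h5.mul_left p
      have h5 := (mem_NuS.1 hν).2 i
      have h6 := Nat.dvd_gcd h3 h4
      rw [Nat.Coprime] at h5
      rw [h5] at h6
      exact hr.one_lt.ne' (Nat.dvd_one.1 h6)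
    rcases sgn χ h2 _ hu with h | h
    · rw [h, if_neg (by norm_num)]
      ring
    · rw [h, if_pos rfl]
      ring
  rw [Finset.sum_congr rfl hval, Finset.sum_sub_distrib, ← mul_sum, Finset.sum_boole] at h0
  simp only [sum_const, nsmul_eq_mul, mul_one] at h0
  obtain ⟨x, hx⟩ : ∃ x : ℕ, x = (NuS a b (p * W)).card := ⟨_, rfl⟩
  obtain ⟨y, hy⟩ : ∃ y : ℕ, y = ((NuS a b (p * W)).filter
      (fun ν => χ ((a i * ν + b i : ℕ) : ZMod (p * d)) = -1)).card := ⟨_, rfl⟩
  rw [← hx, ← hy] at h0 ⊢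
  have e1 : (x : ℂ) - 2 * (y : ℂ) = (((x : ℝ) - 2 * y : ℝ) : ℂ) := by push_cast; ring
  rw [e1, Complex.norm_real, Real.norm_eq_abs] at h0
  have h3 := (le_abs_self ((x : ℝ) - 2 * y))
  have h4 : (2 * x : ℝ) ≤ 5 * y := by linarith
  exact_mod_cast h4

open Classical in
/-- **a residue at which many forms are negative** -/
theorem exists_nu {K D q W : ℕ} (χ : DirichletCharacter ℂ q) (hq : 1 < q)
    (hprim : χ.IsPrimitive) (h2 : χ ^ 2 = 1) (hsq : ∀ p : ℕ, p.Prime → p ≠ 2 → ¬ p ^ 2 ∣ q)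
    (a b : Fin K → ℕ) (hab : ∀ j, (a j).Coprime (b j)) (hW : Squarefree W) (hD2 : 2 ≤ D)
    (hDK : 6 * K ≤ D) (hrad : ∀ i, ∀ r : ℕ, r.Prime → r ∣ a i → r ∣ W)
    (hne : (NuS a b W).Nonempty) (G : Finset (Fin K))
    (hG : ∀ i ∈ G, (∃ p : ℕ, p.Prime ∧ p ∣ q ∧ D < p ∧ ¬ p ∣ a i) ∨
      (q ∣ a i ∧ χ ((b i : ℕ) : ZMod q) = -1)) :
    ∃ ν ∈ NuS a b W, 2 * G.card ≤ 5 * (G.filter (fun i => q ∣ a i * W →
      χ ((a i * ν + b i : ℕ) : ZMod q) = -1)).card := by
  have hW0 : 0 < W := Nat.pos_of_ne_zero hW.ne_zero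
  have hkey : ∀ i ∈ G, 2 * (NuS a b W).card ≤ 5 * ((NuS a b W).filter (fun ν => q ∣ a i * W →
      χ ((a i * ν + b i : ℕ) : ZMod q) = -1)).card := by
    intro i hi
    by_cases hqi : q ∣ a i * W
    · rcases hG i hi with ⟨p, hp, hpq, hDp, hpa⟩ | ⟨h3, h4⟩
      · have hp2 : p ≠ 2 := by omega
        have hpW : p ∣ W := by
          rcases (Nat.Prime.dvd_mul hp).1 (hpq.trans hqi) with h | h
          · exact absurd h hpa
          · exact h
        obtain ⟨W', rfl⟩ := hpW
        have hpp := hsq p hp hp2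
        obtain ⟨d, rfl⟩ := hpq
        have hd0 : 0 < d := Nat.pos_of_ne_zero fun h => by
          rw [h, mul_zero] at hq
          omega
        have hpd : ¬ p ∣ d := by
          intro h
          apply hpp
          rw [sq]
          exact Nat.mul_dvd_mul_left p h
        have hcop : p.Coprime d := (hp.coprime_iff_not_dvd).2 hpd
        have hpW' : ¬ p ∣ W' := by
          intro h
          have h5 : p * p ∣ p * W' := Nat.mul_dvd_mul_left p h
          have h6 := hW p h5
          exact hp.one_lt.ne' (Nat.isUnit_iff.1 h6)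
        have hW'0 : 0 < W' := Nat.pos_of_ne_zero fun h => by
          rw [h, mul_zero] at hW0
          omega
        have hdv : d ∣ a i * W' := by
          have h5 : p * d ∣ p * (a i * W') := by
            refine hqi.trans (dvd_of_eq ?_)
            ring
          exact Nat.dvd_of_mul_dvd_mul_left hp.pos h5
        have h7 := neg_count hp hd0 hcop χ hprim h2 a b hab hW'0 hpW' (by omega) i hdv hpa (hrad i)
        refine h7.trans (Nat.mul_le_mul_left _ (card_le_card ?_))
        intro ν hν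
        rw [mem_filter] at hν ⊢
        exact ⟨hν.1, fun _ => hν.2⟩
      · have h5 : (NuS a b W).filter (fun ν => q ∣ a i * W →
            χ ((a i * ν + b i : ℕ) : ZMod q) = -1) = NuS a b W := by
          apply filter_true_of_mem
          intro ν _ _
          have h6 : ((a i * ν + b i : ℕ) : ZMod q) = ((b i : ℕ) : ZMod q) := by
            have h7 : ((a i : ℕ) : ZMod q) = 0 := (ZMod.natCast_eq_zero_iff _ _).2 h3
            push_cast
            rw [h7]
            ring
          rw [h6]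
          exact h4
        rw [h5]
        omega
    · have h5 : (NuS a b W).filter (fun ν => q ∣ a i * W →
          χ ((a i * ν + b i : ℕ) : ZMod q) = -1) = NuS a b W := by
        apply filter_true_of_mem
        intro ν _ h
        exact absurd h hqi
      rw [h5]
      omega
  by_contra hcon
  push Not at hcon
  have h3 : ∑ ν ∈ NuS a b W, 5 * (G.filter (fun i => q ∣ a i * W →
      χ ((a i * ν + b i : ℕ) : ZMod q) = -1)).card < ∑ ν ∈ NuS a b W, 2 * G.card :=
    Finset.sum_lt_sum_of_nonempty hne fun ν hν => hcon ν hν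
  have h4 : ∑ ν ∈ NuS a b W, 5 * (G.filter (fun i => q ∣ a i * W →
      χ ((a i * ν + b i : ℕ) : ZMod q) = -1)).card =
      ∑ i ∈ G, 5 * ((NuS a b W).filter (fun ν => q ∣ a i * W →
      χ ((a i * ν + b i : ℕ) : ZMod q) = -1)).card := by
    rw [← mul_sum, ← mul_sum]
    congr 1
    simp only [card_filter]
    exact Finset.sum_comm
  have h5 : ∑ i ∈ G, 2 * (NuS a b W).card ≤ ∑ i ∈ G, 5 * ((NuS a b W).filter (fun ν => q ∣ a i * W →
      χ ((a i * ν + b i : ℕ) : ZMod q) = -1)).card := Finset.sum_le_sum hkey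
  rw [h4] at h3
  simp only [sum_const, smul_eq_mul] at h3 h5
  nlinarith

end Run7.h296
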