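import Pool.Agent.Run7.h296.L2
import Pool.Agent.W639.MH.Alg
import Pool.Agent.W505.MH.Diff
import Pool.Agent.W505.MH.BT
import Pool.Agent.W74.MH.B0
import Pool.Agent.W933.MH.Sum

/-!
The mean value of the difference `D₂ - L₃` over primitive characters.
-/

set_option autoImplicit false

open Finset Filter Topology

namespace Run7.h296

open H385 H385.Flat
open Pool.Agent.H262R3.Lk
open Pool.Agent.H318R2.Cr (Rgh V V_pos V_le_one cz_bounds)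

/-- sum over the primitive characters -/
noncomputable def PC (Φ : ∀ q : ℕ, DirichletCharacter ℂ q → ℝ) (f : ℕ) : ℝ :=
  ∑ᶠ χ : {χ : DirichletCharacter ℂ f // χ.IsPrimitive}, Φ f χ

open Classical in
theorem PC_eq (Φ : ∀ q : ℕ, DirichletCharacter ℂ q → ℝ) (f : ℕ) [NeZero f] :
    PC Φ f = ∑ χ ∈ (Finset.univ : Finset (DirichletCharacter ℂ f)).filter
      (fun χ => χ.IsPrimitive), Φ f χ := by
  unfold PC
  rw [finsum_eq_sum_of_fintype]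
  symm
  apply Finset.sum_subtype
  intro χ
  simp

theorem PC_le (Φ Ψ : ∀ q : ℕ, DirichletCharacter ℂ q → ℝ) (f : ℕ) (hf : 1 ≤ f)
    (h : ∀ χ : DirichletCharacter ℂ f, Φ f χ ≤ Ψ f χ) : PC Φ f ≤ PC Ψ f := by
  classical
  have : NeZero f := ⟨by omega⟩
  rw [PC_eq, PC_eq]
  exact sum_le_sum fun χ _ => h χ

theorem PC_add (Φ Ψ : ∀ q : ℕ, DirichletCharacter ℂ q → ℝ) (f : ℕ) (hf : 1 ≤ f) :
    PC (fun q χ => Φ q χ + Ψ q χ) f = PC Φ f + PC Ψ f := by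
  classical
  have : NeZero f := ⟨by omega⟩
  rw [PC_eq, PC_eq, PC_eq, sum_add_distrib]

theorem PC_smul (c : ℝ) (Φ : ∀ q : ℕ, DirichletCharacter ℂ q → ℝ) (f : ℕ) (hf : 1 ≤ f) :
    PC (fun q χ => c * Φ q χ) f = c * PC Φ f := by
  classical
  have : NeZero f := ⟨by omega⟩
  rw [PC_eq, PC_eq, mul_sum]

theorem PC_nonneg (Φ : ∀ q : ℕ, DirichletCharacter ℂ q → ℝ) (f : ℕ)
    (h : ∀ χ : DirichletCharacter ℂ f, 0 ≤ Φ f χ) : 0 ≤ PC Φ f := by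
  unfold PC
  exact finsum_nonneg (fun χ => h χ)

/-- square of the Dirichlet series -/
noncomputable def sqf (a : ℕ → ℂ) (q : ℕ) (χ : DirichletCharacter ℂ q) : ℝ :=
  ‖∑' n : ℕ, a n * χ (n : ZMod q)‖ ^ 2

theorem log_pow_le (j n : ℕ) (hn : 1 ≤ n) {σ : ℝ} (hσ : 0 < σ) :
    (Real.log n) ^ j ≤ (j.factorial : ℝ) * (4 / σ) ^ j * (n : ℝ) ^ (σ / 4) := by
  have hn0 : (0 : ℝ) < n := by exact_mod_cast hn
  have hl : 0 ≤ Real.log n := Real.log_nonneg (by exact_mod_cast hn)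
  have h1 := Real.pow_div_factorial_le_exp (σ / 4 * Real.log n) (by positivity) j
  have h2 : Real.exp (σ / 4 * Real.log n) = (n : ℝ) ^ (σ / 4) := by
    rw [Real.rpow_def_of_pos hn0, mul_comm]
  rw [h2, div_le_iff₀ (by positivity), mul_pow] at h1
  have h3 : (Real.log n) ^ j = (4 / σ) ^ j * ((σ / 4) ^ j * (Real.log n) ^ j) := by
    rw [← mul_assoc, ← mul_pow]
    have : 4 / σ * (σ / 4) = 1 := by field_simp
    rw [this, one_pow, one_mul]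
  rw [h3]
  calc (4 / σ) ^ j * ((σ / 4) ^ j * (Real.log n) ^ j) ≤
      (4 / σ) ^ j * ((n : ℝ) ^ (σ / 4) * j.factorial) :=
        mul_le_mul_of_nonneg_left h1 (by positivity)
    _ = _ := by ring

theorem R_choice (Z : ℕ) (hZ : 32 ≤ Z) : 1 ≤ Nat.sqrt (Nat.sqrt Z) ∧
    Real.log Z ≤ 8 * Real.log (Nat.sqrt (Nat.sqrt Z) : ℕ) := by
  set R := Nat.sqrt (Nat.sqrt Z) with hR
  have h1 : 2 ≤ R := by
    rw [hR, Nat.le_sqrt, Nat.le_sqrt]
    omega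
  refine ⟨by omega, ?_⟩
  have h2 : Nat.sqrt Z < (R + 1) ^ 2 := by
    have := Nat.sqrt_lt'.1 (Nat.lt_succ_self (Nat.sqrt (Nat.sqrt Z)))
    rw [hR]; exact this
  have h3 : Z < (Nat.sqrt Z + 1) ^ 2 := Nat.sqrt_lt'.1 (Nat.lt_succ_self (Nat.sqrt Z))
  have h4 : Z ≤ (R + 1) ^ 4 := by
    calc Z ≤ (Nat.sqrt Z + 1) ^ 2 := h3.le
      _ ≤ ((R + 1) ^ 2) ^ 2 := Nat.pow_le_pow_left h2 2
      _ = (R + 1) ^ 4 := by ring
  have h5 : R + 1 ≤ R ^ 2 := by nlinarith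
  have h6 : Z ≤ R ^ 8 := by
    calc Z ≤ (R + 1) ^ 4 := h4
      _ ≤ (R ^ 2) ^ 4 := Nat.pow_le_pow_left h5 4
      _ = R ^ 8 := by ring
  have hZ0 : (0 : ℝ) < Z := by exact_mod_cast (by omega : 0 < Z)
  have h7 : Real.log Z ≤ Real.log ((R : ℝ) ^ 8) :=
    Real.log_le_log hZ0 (by exact_mod_cast h6)
  rwa [Real.log_pow] at h7

/-- **mean squares of the series** -/
theorem l2_inf : ∃ C : ℝ, 0 < C ∧ ∀ (Z F j : ℕ) (A : ℝ) (a : ℕ → ℂ), 32 ≤ Z → F ^ 4 ≤ Z →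
    1 ≤ A → j ≤ 3 → (∀ n, a n ≠ 0 → Rgh Z n ∧ 1 < n) →
    (∀ n, ‖a n‖ ≤ (Real.log n) ^ j / (n : ℝ) ^ (1 + 1 / (A * Real.log Z))) →
    ∑ f ∈ Icc 1 F, PC (sqf a) f ≤ C * A ^ (2 * j + 2) * (Real.log Z) ^ (2 * j) := by
  obtain ⟨C, hC, hfin⟩ := l2_fin
  refine ⟨C * 8 * 36 * 16 ^ 3 * 2, by positivity, ?_⟩
  intro Z F j A a hZ hF hA hj ha1 ha2
  have hL := Pool.Agent.W505.MH.log_ge_one hZ
  set ℓ := Real.log Z with hℓ
  set σ : ℝ := 1 / (A * ℓ) with hσ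
  have hAℓ : 1 ≤ A * ℓ := one_le_mul_of_one_le_of_one_le hA hL
  have hσ0 : 0 < σ := by positivity
  have hσ1 : σ ≤ 1 := by
    rw [hσ, div_le_one (by positivity)]; exact hAℓ
  rcases Nat.eq_zero_or_pos F with hF0 | hF0
  · subst hF0
    simp only [Icc_eq_empty_of_lt (show (0 : ℕ) < 1 by norm_num), Finset.sum_empty]
    positivity
  obtain ⟨hR1, hR2⟩ := R_choice Z hZ
  set R := Nat.sqrt (Nat.sqrt Z) with hR
  have hFR : (F * R) ^ 2 ≤ Z := by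
    have h1 : F ^ 2 ≤ Nat.sqrt Z := by
      rw [Nat.le_sqrt]
      calc F ^ 2 * F ^ 2 = F ^ 4 := by ring
        _ ≤ Z := hF
    have h2 : R ^ 2 ≤ Nat.sqrt Z := by
      rw [hR]; exact Nat.sqrt_le' _
    have h3 : Nat.sqrt Z * Nat.sqrt Z ≤ Z := Nat.sqrt_le _
    calc (F * R) ^ 2 = F ^ 2 * R ^ 2 := mul_pow _ _ _
      _ ≤ Nat.sqrt Z * Nat.sqrt Z := Nat.mul_le_mul h1 h2
      _ ≤ Z := h3
  set K : ℝ := (j.factorial : ℝ) * (4 / σ) ^ j with hK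
  have hK0 : 0 ≤ K := by positivity
  have ha3 : ∀ n, ‖a n‖ ≤ K / (n : ℝ) ^ (1 + 3 * σ / 4) := by
    intro n
    rcases Nat.eq_zero_or_pos n with hn | hn
    · have : a n = 0 := by
        by_contra h
        have := (ha1 n h).2
        omega
      rw [this, norm_zero]
      positivity
    · have hn0 : (0 : ℝ) < n := by exact_mod_cast hn
      refine (ha2 n).trans ?_
      have h1 := log_pow_le j n hn hσ0
      have h2 : (n : ℝ) ^ (1 + σ) = (n : ℝ) ^ (1 + 3 * σ / 4) * (n : ℝ) ^ (σ / 4) := by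
        rw [← Real.rpow_add hn0]
        congr 1
        ring
      rw [h2]
      have h3 : 0 < (n : ℝ) ^ (σ / 4) := Real.rpow_pos_of_pos hn0 _
      have h4 : 0 < (n : ℝ) ^ (1 + 3 * σ / 4) := Real.rpow_pos_of_pos hn0 _
      rw [div_le_div_iff₀ (by positivity) h4]
      calc (Real.log n) ^ j * (n : ℝ) ^ (1 + 3 * σ / 4) ≤
          (K * (n : ℝ) ^ (σ / 4)) * (n : ℝ) ^ (1 + 3 * σ / 4) :=
            mul_le_mul_of_nonneg_right h1 h4.le
        _ = _ := by ring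
  have ha0 : a 0 = 0 := by
    by_contra h
    exact absurd (ha1 0 h).2 (by norm_num)
  -- finite inequality
  have hbd : ∀ m : ℕ, ∑ f ∈ Icc 1 F, PS (2 ^ m) a f ≤
      C * 8 * 36 * 16 ^ 3 * 2 * A ^ (2 * j + 2) * ℓ ^ (2 * j) := by
    intro m
    have h1 := hfin Z F R m (3 * σ / 4) K a hZ hF0 hR1 hFR (by positivity) (by linarith) hK0 ha1 ha3
    have hS : 0 ≤ ∑ f ∈ Icc 1 F, PS (2 ^ m) a f := sum_nonneg fun f _ => PS_nonneg _ _ _
    have h2 : ℓ / 8 * ∑ f ∈ Icc 1 F, PS (2 ^ m) a f ≤ C * K ^ 2 / ((3 * σ / 4) ^ 2 * ℓ) :=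
      (mul_le_mul_of_nonneg_right (by linarith) hS).trans h1
    have hfac : (j.factorial : ℝ) ≤ 6 := by
      have : j.factorial ≤ Nat.factorial 3 := Nat.factorial_le hj
      have h6 : Nat.factorial 3 = 6 := rfl
      rw [h6] at this
      exact_mod_cast this
    have hK2 : K ^ 2 ≤ 36 * 16 ^ 3 * (A * ℓ) ^ (2 * j) := by
      have h3 : 4 / σ = 4 * (A * ℓ) := by
        rw [hσ]; field_simp
      rw [hK, h3, mul_pow, ← pow_mul, mul_pow, mul_comm j 2, pow_mul 4 2 j]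
      have h4 : (j.factorial : ℝ) ^ 2 ≤ 36 := by
        have : (0 : ℝ) ≤ j.factorial := by positivity
        nlinarith
      have h5 : ((4 : ℝ) ^ 2) ^ j ≤ 16 ^ 3 := by
        rw [show ((4 : ℝ) ^ 2) = 16 by norm_num]
        exact pow_le_pow_right₀ (by norm_num) hj
      have h6 : 0 ≤ (A * ℓ) ^ (2 * j) := by positivity
      calc (j.factorial : ℝ) ^ 2 * (((4 : ℝ) ^ 2) ^ j * (A * ℓ) ^ (2 * j)) ≤
          36 * (16 ^ 3 * (A * ℓ) ^ (2 * j)) := by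
            apply mul_le_mul h4 _ (by positivity) (by norm_num)
            exact mul_le_mul_of_nonneg_right h5 h6
        _ = _ := by ring
    have h7 : C * K ^ 2 / ((3 * σ / 4) ^ 2 * ℓ) ≤
        C * (36 * 16 ^ 3 * (A * ℓ) ^ (2 * j)) / ((3 * σ / 4) ^ 2 * ℓ) := by
      apply div_le_div_of_nonneg_right _ (by positivity)
      exact mul_le_mul_of_nonneg_left hK2 hC.le
    have h8 : C * (36 * 16 ^ 3 * (A * ℓ) ^ (2 * j)) / ((3 * σ / 4) ^ 2 * ℓ) =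
        ℓ / 8 * (C * 8 * 36 * 16 ^ 3 * (16 / 9) * A ^ (2 * j + 2) * ℓ ^ (2 * j)) := by
      rw [hσ, mul_pow, pow_add A]
      field_simp
      ring
    rw [h8] at h7
    have h9 : ∑ f ∈ Icc 1 F, PS (2 ^ m) a f ≤
        C * 8 * 36 * 16 ^ 3 * (16 / 9) * A ^ (2 * j + 2) * ℓ ^ (2 * j) :=
      le_of_mul_le_mul_left (h2.trans h7) (by positivity)
    refine h9.trans ?_
    have h10 : 0 ≤ C * A ^ (2 * j + 2) * ℓ ^ (2 * j) := by positivity
    obtain ⟨X, hX⟩ : ∃ X : ℝ, X = C * A ^ (2 * j + 2) * ℓ ^ (2 * j) := ⟨_, rfl⟩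
    have e1 : C * 8 * 36 * 16 ^ 3 * (16 / 9) * A ^ (2 * j + 2) * ℓ ^ (2 * j) =
        (8 * 36 * 16 ^ 3 * (16 / 9)) * X := by rw [hX]; ring
    have e2 : C * 8 * 36 * 16 ^ 3 * 2 * A ^ (2 * j + 2) * ℓ ^ (2 * j) =
        (8 * 36 * 16 ^ 3 * 2) * X := by rw [hX]; ring
    rw [← hX] at h10
    rw [e1, e2]
    norm_num only
    linarith
  -- the limit
  have hsumm : ∀ (q : ℕ) (χ : DirichletCharacter ℂ q), Summable fun n : ℕ =>
      a n * χ (n : ZMod q) := by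
    intro q χ
    have h1 : Summable fun n : ℕ => K * (1 / (n : ℝ) ^ (1 + 3 * σ / 4)) :=
      (Real.summable_one_div_nat_rpow.2 (by linarith)).mul_left _
    refine Summable.of_norm_bounded h1 fun n => ?_
    rw [norm_mul]
    refine (mul_le_of_le_one_right (norm_nonneg _) (DirichletCharacter.norm_le_one _ _)).trans ?_
    refine (ha3 n).trans (le_of_eq ?_)
    ring
  have hlim : ∀ (q : ℕ) (χ : DirichletCharacter ℂ q), Tendsto (fun m : ℕ =>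
      ‖∑ n ∈ Icc 1 (2 ^ m), a n * χ (n : ZMod q)‖ ^ 2) atTop (𝓝 (sqf a q χ)) := by
    intro q χ
    have h1 := (hsumm q χ).hasSum.tendsto_sum_nat
    have h2 : Tendsto (fun m : ℕ => (2 : ℕ) ^ m + 1) atTop atTop :=
      (tendsto_add_atTop_nat 1).comp
        (tendsto_pow_atTop_atTop_of_one_lt (by norm_num : (1 : ℕ) < 2))
    have h3 := h1.comp h2
    have h4 : (fun n : ℕ => ∑ i ∈ range n, a i * χ (i : ZMod q)) ∘ (fun m : ℕ => 2 ^ m + 1) =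
        fun m : ℕ => ∑ n ∈ Icc 1 (2 ^ m), a n * χ (n : ZMod q) := by
      funext m
      simp only [Function.comp]
      have h6 : 1 ≤ 2 ^ m := Nat.one_le_two_pow
      have h5 : range (2 ^ m + 1) = insert 0 (Icc 1 (2 ^ m)) := by
        ext x
        simp only [mem_range, mem_insert, mem_Icc]
        omega
      rw [h5, sum_insert (by simp), ha0, zero_mul, zero_add]
    rw [h4] at h3
    exact (h3.norm).pow 2
  have hlim2 : Tendsto (fun m : ℕ => ∑ f ∈ Icc 1 F, PS (2 ^ m) a f) atTop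
      (𝓝 (∑ f ∈ Icc 1 F, PC (sqf a) f)) := by
    apply tendsto_finsetSum
    intro f hf
    rw [mem_Icc] at hf
    classical
    have : NeZero f := ⟨by omega⟩
    rw [PC_eq]
    simp_rw [PS_eq]
    apply tendsto_finsetSum
    intro χ _
    exact hlim f χ
  exact le_of_tendsto' hlim2 hbd

/-- the coefficients of `Lj`, without the term `1` -/
noncomputable def cL (Z j : ℕ) (σ : ℝ) (n : ℕ) : ℂ :=
  open Classical in if Rgh Z n ∧ 1 < n then (((Real.log n) ^ j / (n : ℝ) ^ (1 + σ) : ℝ) : ℂ) else 0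

noncomputable def cD (Z : ℕ) (σ : ℝ) (n : ℕ) : ℂ :=
  open Classical in if Rgh Z n ∧ 1 < n then
    ((ArithmeticFunction.vonMangoldt n * ((Real.log n) ^ 0 / (n : ℝ) ^ (1 + σ)) : ℝ) : ℂ) else 0

noncomputable def cM (Z : ℕ) (σ : ℝ) (n : ℕ) : ℂ :=
  open Classical in if Rgh Z n ∧ 1 < n then
    ((((ArithmeticFunction.moebius n : ℤ) : ℝ) * (1 / (n : ℝ) ^ (1 + σ)) : ℝ) : ℂ) else 0

theorem Lj_cL (Z j : ℕ) (hZ : 2 ≤ Z) (hj : 1 ≤ j) {q : ℕ} (χ : DirichletCharacter ℂ q) (σ : ℝ) :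
    Lj Z χ j σ = ∑' n : ℕ, cL Z j σ n * χ (n : ZMod q) := by
  unfold Lj
  refine tsum_congr fun n => ?_
  unfold fz cL
  by_cases h : Rgh Z n
  · by_cases h1 : 1 < n
    · rw [if_pos h, if_pos ⟨h, h1⟩, mul_comm]
    · rw [if_neg (show ¬ (Rgh Z n ∧ 1 < n) from fun h' => h1 h'.2), zero_mul, if_pos h]
      have h2 : n = 0 ∨ n = 1 := by omega
      have h3 : Real.log n = 0 := by
        rcases h2 with rfl | rfl <;> simp
      rw [h3, zero_pow (by omega)]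
      simp
  · rw [if_neg h, if_neg (fun h' => h h'.1), zero_mul, zero_mul]

theorem Dj_cD (Z : ℕ) {q : ℕ} (χ : DirichletCharacter ℂ q) (σ : ℝ) :
    Dj Z χ 0 σ = ∑' n : ℕ, cD Z σ n * χ (n : ZMod q) := by
  unfold Dj
  refine tsum_congr fun n => ?_
  unfold fz cD
  by_cases h : Rgh Z n
  · by_cases h1 : 1 < n
    · rw [if_pos h, if_pos ⟨h, h1⟩, mul_comm]
    · rw [if_neg (show ¬ (Rgh Z n ∧ 1 < n) from fun h' => h1 h'.2), zero_mul, if_pos h]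
      have h2 : n = 0 ∨ n = 1 := by omega
      have h3 : ArithmeticFunction.vonMangoldt n = 0 := by
        rcases h2 with rfl | rfl <;> simp
      rw [h3]
      simp
  · rw [if_neg h, if_neg (fun h' => h h'.1), zero_mul, zero_mul]

theorem cM_summ (Z : ℕ) {q : ℕ} (χ : DirichletCharacter ℂ q) {σ : ℝ} (hσ : 0 < σ) :
    Summable (fun n : ℕ => fz Z χ n *
      ((((ArithmeticFunction.moebius n : ℤ) : ℝ) * (1 / (n : ℝ) ^ (1 + σ)) : ℝ) : ℂ)) := by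
  have h1 : Summable fun n : ℕ => (1 / (n : ℝ) ^ (1 + σ)) :=
    Real.summable_one_div_nat_rpow.2 (by linarith)
  refine Summable.of_norm_bounded h1 fun n => ?_
  rw [norm_mul, Complex.norm_real, Real.norm_eq_abs, abs_mul]
  have h2 : |((ArithmeticFunction.moebius n : ℤ) : ℝ)| ≤ 1 := by
    have := ArithmeticFunction.abs_moebius_le_one (n := n)
    exact_mod_cast this
  have h3 : 0 ≤ 1 / (n : ℝ) ^ (1 + σ) := by positivity
  rw [abs_of_nonneg h3]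
  calc ‖fz Z χ n‖ * (|((ArithmeticFunction.moebius n : ℤ) : ℝ)| * (1 / (n : ℝ) ^ (1 + σ))) ≤
      1 * (1 * (1 / (n : ℝ) ^ (1 + σ))) :=
        mul_le_mul (Alg.fz_le Z χ n) (mul_le_mul_of_nonneg_right h2 h3) (by positivity) (by norm_num)
    _ = _ := by ring

theorem Mj_cM (Z : ℕ) (hZ : 2 ≤ Z) {q : ℕ} (χ : DirichletCharacter ℂ q) {σ : ℝ} (hσ : 0 < σ) :
    Mj Z χ σ = 1 + ∑' n : ℕ, cM Z σ n * χ (n : ZMod q) := by
  unfold Mj
  rw [(cM_summ Z χ hσ).tsum_eq_add_tsum_ite 1]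
  congr 1
  · rw [Alg.fz_one]
    simp
  · refine tsum_congr fun n => ?_
    unfold cM
    by_cases h : Rgh Z n
    · by_cases h1 : 1 < n
      · rw [if_neg (by omega), if_pos ⟨h, h1⟩]
        unfold fz
        rw [if_pos h, mul_comm]
      · rw [if_neg (show ¬ (Rgh Z n ∧ 1 < n) from fun h' => h1 h'.2), zero_mul]
        have h2 : n = 0 ∨ n = 1 := by omega
        rcases h2 with rfl | rfl
        · rw [if_neg (by norm_num)]
          simp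
        · rw [if_pos rfl]
    · rw [if_neg (show ¬ (Rgh Z n ∧ 1 < n) from fun h' => h h'.1), zero_mul]
      split_ifs
      · rfl
      · unfold fz
        rw [if_neg h, zero_mul]

theorem cL_norm (Z j : ℕ) (σ : ℝ) (n : ℕ) :
    ‖cL Z j σ n‖ ≤ (Real.log n) ^ j / (n : ℝ) ^ (1 + σ) := by
  have h0 : 0 ≤ Real.log (n : ℝ) := Real.log_natCast_nonneg n
  unfold cL
  split_ifs
  · rw [Complex.norm_real, Real.norm_of_nonneg (by positivity)]
  · rw [norm_zero]; positivity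

theorem cD_norm (Z : ℕ) (σ : ℝ) (n : ℕ) :
    ‖cD Z σ n‖ ≤ (Real.log n) ^ 1 / (n : ℝ) ^ (1 + σ) := by
  have h0 : 0 ≤ Real.log (n : ℝ) := Real.log_natCast_nonneg n
  have h1 : 0 ≤ ArithmeticFunction.vonMangoldt n := ArithmeticFunction.vonMangoldt_nonneg
  unfold cD
  split_ifs
  · rw [Complex.norm_real, Real.norm_of_nonneg (by positivity), pow_zero, pow_one, mul_one_div]
    exact div_le_div_of_nonneg_right ArithmeticFunction.vonMangoldt_le_log (by positivity)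
  · rw [norm_zero]; positivity

theorem cM_norm (Z : ℕ) (σ : ℝ) (n : ℕ) :
    ‖cM Z σ n‖ ≤ (Real.log n) ^ 0 / (n : ℝ) ^ (1 + σ) := by
  unfold cM
  split_ifs
  · rw [Complex.norm_real, Real.norm_eq_abs, abs_mul, pow_zero]
    have h2 : |((ArithmeticFunction.moebius n : ℤ) : ℝ)| ≤ 1 := by
      have := ArithmeticFunction.abs_moebius_le_one (n := n)
      exact_mod_cast this
    have h3 : 0 ≤ 1 / (n : ℝ) ^ (1 + σ) := by positivity
    rw [abs_of_nonneg h3]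
    exact mul_le_of_le_one_left h3 h2
  · rw [norm_zero]; positivity

theorem cL_ne {Z j : ℕ} {σ : ℝ} {n : ℕ} (h : cL Z j σ n ≠ 0) : Rgh Z n ∧ 1 < n := by
  by_contra hc
  exact h (by unfold cL; rw [if_neg hc])

theorem cD_ne {Z : ℕ} {σ : ℝ} {n : ℕ} (h : cD Z σ n ≠ 0) : Rgh Z n ∧ 1 < n := by
  by_contra hc
  exact h (by unfold cD; rw [if_neg hc])

theorem cM_ne {Z : ℕ} {σ : ℝ} {n : ℕ} (h : cM Z σ n ≠ 0) : Rgh Z n ∧ 1 < n := by
  by_contra hc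
  exact h (by unfold cM; rw [if_neg hc])

/-- the difference -/
noncomputable def BL (Z : ℕ) {q : ℕ} (χ : DirichletCharacter ℂ q) (σ : ℝ) : ℂ :=
  Dj Z χ 2 σ - Lj Z χ 3 σ

noncomputable def nBL (Z : ℕ) (σ : ℝ) (q : ℕ) (χ : DirichletCharacter ℂ q) : ℝ := ‖BL Z χ σ‖

/-- the pointwise bound -/
theorem BL_pt : ∃ C : ℝ, 1 ≤ C ∧ ∀ (Z q : ℕ) (A : ℝ) (χ : DirichletCharacter ℂ q), 32 ≤ Z → 1 ≤ A →
    nBL Z (1 / (A * Real.log Z)) q χ ≤
      1 / (Real.log Z) ^ 3 * sqf (cL Z 3 (1 / (A * Real.log Z))) q χ +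
      ((Real.log Z) ^ 3 * sqf (cM Z (1 / (A * Real.log Z))) q χ +
      (C * A * Real.log Z * sqf (cD Z (1 / (A * Real.log Z))) q χ +
      C * A / Real.log Z * sqf (cL Z 2 (1 / (A * Real.log Z))) q χ)) := by
  obtain ⟨C2, hC2, hA0⟩ := Pool.Agent.W505.MH.a0 Pool.Agent.W333.MH.fl Pool.Agent.W933.MHSum.sum_
  obtain ⟨C3, hC3, hB0⟩ := Pool.Agent.H262R3.Lk.b0 Pool.Agent.W505.MH.bt Pool.Agent.W933.MHSum.sum_
  refine ⟨3 * (1 + C2) + 2 * C3, by linarith, ?_⟩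
  intro Z q A χ hZ hA
  have hL := Pool.Agent.W505.MH.log_ge_one hZ
  have hZ2 : 2 ≤ Z := by omega
  have hALG := Pool.Agent.H262R3.Lk.alg Pool.Agent.W933.MHSum.sum_
  set ℓ := Real.log Z with hℓ
  set σ : ℝ := 1 / (A * ℓ) with hσ
  have hAℓ : 1 ≤ A * ℓ := one_le_mul_of_one_le_of_one_le hA hL
  have hσ0 : 0 < σ := by positivity
  have hσℓ : σ * ℓ = 1 / A := by rw [hσ]; field_simp
  have hσℓ1 : σ * ℓ ≤ 1 := by
    rw [hσℓ, div_le_one (by linarith)]; exact hA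
  obtain ⟨g1, g2, g3⟩ := hALG Z q χ σ hZ hσ0
  have hsum := Pool.Agent.W933.MHSum.sum_ Z 1 1 0 σ hσ0
  -- values
  set L3 := Lj Z χ 3 σ with hL3
  set L2 := Lj Z χ 2 σ with hL2
  set L0 := Lj Z χ 0 σ
  set D0 := Dj Z χ 0 σ with hD0
  set D2 := Dj Z χ 2 σ
  set M := Mj Z χ σ with hM
  have hL3' : sqf (cL Z 3 σ) q χ = ‖L3‖ ^ 2 := by
    unfold sqf; rw [hL3, Lj_cL Z 3 hZ2 (by norm_num)]
  have hL2' : sqf (cL Z 2 σ) q χ = ‖L2‖ ^ 2 := by
    unfold sqf; rw [hL2, Lj_cL Z 2 hZ2 (by norm_num)]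
  have hD0' : sqf (cD Z σ) q χ = ‖D0‖ ^ 2 := by
    unfold sqf; rw [hD0, Dj_cD Z]
  have hM' : sqf (cM Z σ) q χ = ‖M - 1‖ ^ 2 := by
    unfold sqf; rw [hM, Mj_cM Z hZ2 χ hσ0]; congr 2; ring
  have hBL : BL Z χ σ = L3 * (M - 1) - 3 * (D0 * L2 * M) + 2 * D0 ^ 3 := by
    have h1 : D2 = D2 * L0 * M := by
      rw [mul_assoc, mul_comm L0 M, g1, mul_one]
    have h2 : BL Z χ σ = D2 - L3 := rfl
    rw [h2, h1, g3]
    have h3 : (L3 - 3 * D0 * L2 + 2 * D0 ^ 3 * L0) * M =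
        L3 * M - 3 * (D0 * L2 * M) + 2 * D0 ^ 3 * (M * L0) := by ring
    rw [h3, g1]
    ring
  -- trivial bounds
  have hm0 : ‖M - 1‖ ≤ C2 * A := by
    have h1 : M - 1 = ∑' n : ℕ, cM Z σ n * χ (n : ZMod q) := by
      rw [hM, Mj_cM Z hZ2 χ hσ0]; ring
    rw [h1]
    have h2 : ∀ n : ℕ, ‖cM Z σ n * χ (n : ZMod q)‖ ≤ aj Z 1 1 0 σ n := by
      intro n
      rw [norm_mul]
      refine (mul_le_of_le_one_right (norm_nonneg _) (DirichletCharacter.norm_le_one _ _)).trans ?_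
      by_cases h : cM Z σ n = 0
      · rw [h, norm_zero]
        unfold aj
        split_ifs
        · have := Real.log_natCast_nonneg n
          positivity
        · exact le_rfl
      · refine (cM_norm Z σ n).trans (le_of_eq ?_)
        unfold aj
        rw [if_pos ⟨(cM_ne h).1, Nat.modEq_one, (cM_ne h).2⟩]
    refine (tsum_of_norm_bounded hsum.1.hasSum h2).trans ?_
    have h3 := hA0 Z 1 1 σ hZ le_rfl (by simp; omega) (by simp) hσ0 hσℓ1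
    unfold Aj at h3
    refine h3.trans (le_of_eq ?_)
    rw [hσℓ]
    simp
  have hm1 : ‖M‖ ≤ (1 + C2) * A := by
    have h1 : M = (M - 1) + 1 := by ring
    rw [h1]
    refine (norm_add_le _ _).trans ?_
    rw [norm_one]
    nlinarith
  have hd0 : ‖D0‖ ≤ C3 * A * ℓ := by
    rw [hD0, Dj_cD Z]
    have h2 : ∀ n : ℕ, ‖cD Z σ n * χ (n : ZMod q)‖ ≤ bj Z 1 1 0 σ n := by
      intro n
      rw [norm_mul]
      refine (mul_le_of_le_one_right (norm_nonneg _) (DirichletCharacter.norm_le_one _ _)).trans ?_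
      have h1 : 0 ≤ ArithmeticFunction.vonMangoldt n := ArithmeticFunction.vonMangoldt_nonneg
      by_cases h : cD Z σ n = 0
      · rw [h, norm_zero]
        unfold bj
        split_ifs
        · positivity
        · exact le_rfl
      · unfold bj cD
        rw [if_pos (cD_ne h), if_pos ⟨(cD_ne h).1, Nat.modEq_one⟩, Complex.norm_real,
          Real.norm_of_nonneg (by positivity)]
    refine (tsum_of_norm_bounded hsum.2.1.hasSum h2).trans ?_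
    have h3 := hB0 Z 1 1 σ hZ le_rfl (by simp; omega) (by simp) hσ0 hσℓ1
    unfold Bj at h3
    refine h3.trans (le_of_eq ?_)
    rw [hσ]
    simp only [Nat.totient_one, Nat.cast_one, one_mul]
    field_simp
  -- combine
  unfold nBL
  rw [hBL, hL3', hL2', hD0', hM']
  have hn : ‖L3 * (M - 1) - 3 * (D0 * L2 * M) + 2 * D0 ^ 3‖ ≤
      ‖L3‖ * ‖M - 1‖ + 3 * (‖D0‖ * ‖L2‖ * ‖M‖) + 2 * ‖D0‖ ^ 3 := by
    refine (norm_add_le _ _).trans ?_
    have h1 := norm_sub_le (L3 * (M - 1)) (3 * (D0 * L2 * M))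
    have h2 : ‖L3 * (M - 1)‖ = ‖L3‖ * ‖M - 1‖ := norm_mul _ _
    have h3 : ‖(3 : ℂ) * (D0 * L2 * M)‖ = 3 * (‖D0‖ * ‖L2‖ * ‖M‖) := by
      rw [norm_mul, norm_mul, norm_mul]; norm_num
    have h4 : ‖(2 : ℂ) * D0 ^ 3‖ = 2 * ‖D0‖ ^ 3 := by
      rw [norm_mul, norm_pow]; norm_num
    rw [h4]
    rw [h2, h3] at h1
    linarith
  refine hn.trans ?_
  set x := ‖L3‖
  set y := ‖M - 1‖
  set u := ‖D0‖
  set v := ‖L2‖
  set w := ‖M‖
  have hx : 0 ≤ x := norm_nonneg _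
  have hy : 0 ≤ y := norm_nonneg _
  have hu : 0 ≤ u := norm_nonneg _
  have hv : 0 ≤ v := norm_nonneg _
  have hw : 0 ≤ w := norm_nonneg _
  have hℓ0 : 0 < ℓ := by linarith
  have t1 : x * y ≤ 1 / ℓ ^ 3 * x ^ 2 + ℓ ^ 3 * y ^ 2 := by
    have hl3 : 0 < ℓ ^ 3 := by positivity
    have h1 : 0 ≤ (x - ℓ ^ 3 * y) ^ 2 / ℓ ^ 3 := by positivity
    have h2 : (x - ℓ ^ 3 * y) ^ 2 / ℓ ^ 3 = 1 / ℓ ^ 3 * x ^ 2 + ℓ ^ 3 * y ^ 2 - 2 * (x * y) := by
      field_simp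
      ring
    have h3 : 0 ≤ x * y := mul_nonneg hx hy
    linarith
  have t2 : u * v ≤ (ℓ * u ^ 2 + 1 / ℓ * v ^ 2) / 2 := by
    have h1 : 0 ≤ (ℓ * u - v) ^ 2 / ℓ := by positivity
    have h2 : (ℓ * u - v) ^ 2 / ℓ = ℓ * u ^ 2 + 1 / ℓ * v ^ 2 - 2 * (u * v) := by
      field_simp
      ring
    linarith
  have t3 : u * v * w ≤ (ℓ * u ^ 2 + 1 / ℓ * v ^ 2) / 2 * ((1 + C2) * A) :=
    mul_le_mul t2 hm1 hw (by positivity)
  have t4 : u ^ 3 ≤ C3 * A * ℓ * u ^ 2 := by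
    have : u ^ 3 = u * u ^ 2 := by ring
    rw [this]
    exact mul_le_mul_of_nonneg_right hd0 (by positivity)
  have t5 : 0 ≤ (1 + C2) * A * (ℓ * u ^ 2) := by positivity
  have t6 : 0 ≤ (1 + C2) * A * (1 / ℓ * v ^ 2) := by positivity
  have t7 : 0 ≤ C3 * A * (1 / ℓ * v ^ 2) := by positivity
  have e1 : (3 * (1 + C2) + 2 * C3) * A * ℓ * u ^ 2 =
      3 * ((1 + C2) * A * (ℓ * u ^ 2)) + 2 * (C3 * A * ℓ * u ^ 2) := by ring
  have e2 : (3 * (1 + C2) + 2 * C3) * A / ℓ * v ^ 2 =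
      3 * ((1 + C2) * A * (1 / ℓ * v ^ 2)) + 2 * (C3 * A * (1 / ℓ * v ^ 2)) := by ring
  have e3 : (ℓ * u ^ 2 + 1 / ℓ * v ^ 2) / 2 * ((1 + C2) * A) =
      (1 + C2) * A * (ℓ * u ^ 2) / 2 + (1 + C2) * A * (1 / ℓ * v ^ 2) / 2 := by ring
  rw [e1, e2]
  rw [e3] at t3
  linarith

/-- **the mean value of `BL` over primitive characters** -/
theorem BL_l1 : ∃ C : ℝ, 0 < C ∧ ∀ (Z F : ℕ) (A : ℝ), 32 ≤ Z → F ^ 4 ≤ Z → 1 ≤ A →
    ∑ f ∈ Icc 1 F, PC (nBL Z (1 / (A * Real.log Z))) f ≤ C * A ^ 8 * (Real.log Z) ^ 3 := by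
  obtain ⟨C, hC, hl2⟩ := l2_inf
  obtain ⟨C', hC', hpt⟩ := BL_pt
  refine ⟨C * (2 + 2 * C'), by positivity, ?_⟩
  intro Z F A hZ hF hA
  have hL := Pool.Agent.W505.MH.log_ge_one hZ
  set ℓ := Real.log Z with hℓ
  have hℓ0 : 0 < ℓ := by linarith
  set σ : ℝ := 1 / (A * ℓ) with hσ
  have h3 := hl2 Z F 3 A (cL Z 3 σ) hZ hF hA le_rfl (fun n h => cL_ne h) (cL_norm Z 3 σ)
  have h2 := hl2 Z F 2 A (cL Z 2 σ) hZ hF hA (by norm_num) (fun n h => cL_ne h) (cL_norm Z 2 σ)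
  have h1 := hl2 Z F 1 A (cD Z σ) hZ hF hA (by norm_num) (fun n h => cD_ne h) (cD_norm Z σ)
  have h0 := hl2 Z F 0 A (cM Z σ) hZ hF hA (by norm_num) (fun n h => cM_ne h) (cM_norm Z σ)
  norm_num only at h3 h2 h1 h0
  rw [← hℓ] at h3 h2 h1 h0
  have hsplit : ∑ f ∈ Icc 1 F, PC (nBL Z σ) f ≤
      1 / ℓ ^ 3 * ∑ f ∈ Icc 1 F, PC (sqf (cL Z 3 σ)) f +
      (ℓ ^ 3 * ∑ f ∈ Icc 1 F, PC (sqf (cM Z σ)) f +
      (C' * A * ℓ * ∑ f ∈ Icc 1 F, PC (sqf (cD Z σ)) f +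
      C' * A / ℓ * ∑ f ∈ Icc 1 F, PC (sqf (cL Z 2 σ)) f)) := by
    rw [mul_sum, mul_sum, mul_sum, mul_sum, ← sum_add_distrib, ← sum_add_distrib,
      ← sum_add_distrib]
    apply sum_le_sum
    intro f hf
    rw [mem_Icc] at hf
    rw [← PC_smul _ _ f hf.1, ← PC_smul _ _ f hf.1, ← PC_smul _ _ f hf.1, ← PC_smul _ _ f hf.1,
      ← PC_add _ _ f hf.1, ← PC_add _ _ f hf.1, ← PC_add _ _ f hf.1]
    exact PC_le _ _ f hf.1 fun χ => hpt Z f A χ hZ hA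
  refine hsplit.trans ?_
  have hA8 : ∀ i : ℕ, i ≤ 8 → A ^ i ≤ A ^ 8 := fun i hi => pow_le_pow_right₀ hA hi
  have k3 : 1 / ℓ ^ 3 * ∑ f ∈ Icc 1 F, PC (sqf (cL Z 3 σ)) f ≤ C * (A ^ 8 * ℓ ^ 3) := by
    calc _ ≤ 1 / ℓ ^ 3 * (C * A ^ 8 * ℓ ^ 6) := mul_le_mul_of_nonneg_left h3 (by positivity)
      _ = _ := by field_simp
  have k0 : ℓ ^ 3 * ∑ f ∈ Icc 1 F, PC (sqf (cM Z σ)) f ≤ C * (A ^ 8 * ℓ ^ 3) := by
    calc _ ≤ ℓ ^ 3 * (C * A ^ 2 * ℓ ^ 0) := mul_le_mul_of_nonneg_left h0 (by positivity)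
      _ = C * (A ^ 2 * ℓ ^ 3) := by ring
      _ ≤ _ := by
        apply mul_le_mul_of_nonneg_left _ hC.le
        exact mul_le_mul_of_nonneg_right (hA8 2 (by norm_num)) (by positivity)
  have k1 : C' * A * ℓ * ∑ f ∈ Icc 1 F, PC (sqf (cD Z σ)) f ≤ C * C' * (A ^ 8 * ℓ ^ 3) := by
    calc _ ≤ C' * A * ℓ * (C * A ^ 4 * ℓ ^ 2) := mul_le_mul_of_nonneg_left h1 (by positivity)
      _ = C * C' * (A ^ 5 * ℓ ^ 3) := by ring
      _ ≤ _ := by
        apply mul_le_mul_of_nonneg_left _ (by positivity)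
        exact mul_le_mul_of_nonneg_right (hA8 5 (by norm_num)) (by positivity)
  have k2 : C' * A / ℓ * ∑ f ∈ Icc 1 F, PC (sqf (cL Z 2 σ)) f ≤ C * C' * (A ^ 8 * ℓ ^ 3) := by
    calc _ ≤ C' * A / ℓ * (C * A ^ 6 * ℓ ^ 4) := mul_le_mul_of_nonneg_left h2 (by positivity)
      _ = C * C' * (A ^ 7 * ℓ ^ 3) := by field_simp
      _ ≤ _ := by
        apply mul_le_mul_of_nonneg_left _ (by positivity)
        exact mul_le_mul_of_nonneg_right (hA8 7 (by norm_num)) (by positivity)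
  have e : C * (2 + 2 * C') * A ^ 8 * ℓ ^ 3 = 2 * (C * (A ^ 8 * ℓ ^ 3)) +
      2 * (C * C' * (A ^ 8 * ℓ ^ 3)) := by ring
  rw [e]
  linarith

end Run7.h296
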