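import Pool.Agent.Run7.h296.LN

/-!
The sum of the ramified parts.
-/

set_option autoImplicit false

open Finset Filter Topology

namespace Run7.h296

open Pool.Agent.H262R3.Lk
open Pool.Agent.H318R2.Cr (Rgh)

theorem fz_lift {Z Q c : ℕ} [NeZero Q] (hc : c ∣ Q) (hQ : Q ≤ Z) (χ : DirichletCharacter ℂ c)
    (n : ℕ) : fz Z (DirichletCharacter.changeLevel hc χ) n = fz Z χ n := by
  unfold fz
  split_ifs with h
  · rw [char_split hc χ n, if_pos]
    apply Nat.coprime_of_dvd
    intro p hp hpn hpQ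
    exact h p hp ((Nat.le_of_dvd (NeZero.pos Q) hpQ).trans hQ) hpn
  · rfl

theorem BL_lift {Z Q c : ℕ} [NeZero Q] (hc : c ∣ Q) (hQ : Q ≤ Z) (χ : DirichletCharacter ℂ c)
    (σ : ℝ) : BL Z (DirichletCharacter.changeLevel hc χ) σ = BL Z χ σ := by
  unfold BL Dj Lj
  simp only [fz_lift hc hQ χ]

theorem mem_im {Q c : ℕ} (hc : c ∣ Q) (χ : DirichletCharacter ℂ Q) (h : χ.conductor = c) :
    ∃ ψ : DirichletCharacter ℂ c, ψ.IsPrimitive ∧ DirichletCharacter.changeLevel hc ψ = χ := by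
  subst h
  exact ⟨χ.primitiveCharacter, χ.primitiveCharacter_isPrimitive, χ.changeLevel_primitiveCharacter⟩

open Classical in
theorem cond_sum {Z Q c : ℕ} [NeZero Q] (hc : c ∣ Q) (hQ : Q ≤ Z) (σ : ℝ) :
    ∑ χ ∈ (univ : Finset (DirichletCharacter ℂ Q)).filter (fun χ => χ.conductor = c),
      ‖BL Z χ σ‖ ≤ PC (nBL Z σ) c := by
  have hc0 : NeZero c := ⟨fun h => by
    rw [h] at hc
    exact (NeZero.ne Q) (Nat.eq_zero_of_zero_dvd hc)⟩
  rw [PC_eq]
  have hinj : Function.Injective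
      (DirichletCharacter.changeLevel (R := ℂ) hc) :=
    DirichletCharacter.changeLevel_injective _
  calc ∑ χ ∈ (univ : Finset (DirichletCharacter ℂ Q)).filter (fun χ => χ.conductor = c),
        ‖BL Z χ σ‖ ≤ ∑ χ ∈ ((univ : Finset (DirichletCharacter ℂ c)).filter
          (fun χ => χ.IsPrimitive)).image (DirichletCharacter.changeLevel hc), ‖BL Z χ σ‖ := by
        apply sum_le_sum_of_subset_of_nonneg
        · intro χ hχ
          rw [mem_filter] at hχ
          obtain ⟨ψ, h1, h2⟩ := mem_im hc χ hχ.2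
          rw [mem_image]
          exact ⟨ψ, mem_filter.2 ⟨mem_univ _, h1⟩, h2⟩
        · intro χ _ _
          exact norm_nonneg _
    _ = ∑ ψ ∈ (univ : Finset (DirichletCharacter ℂ c)).filter
          (fun χ => χ.IsPrimitive), nBL Z σ c ψ := by
        rw [sum_image (fun x _ y _ hxy => hinj hxy)]
        refine sum_congr rfl fun ψ _ => ?_
        unfold nBL
        rw [BL_lift hc hQ]

open Classical in
theorem ram_sum {Z F q : ℕ} {s : Finset ℕ} [NeZero (q * MS s)] (hs : ∀ p ∈ s, p.Prime)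
    (hF : q * MS s ≤ F) (hFZ : F ≤ Z) (σ : ℝ) :
    ∑ χ ∈ (univ : Finset (DirichletCharacter ℂ (q * MS s))).filter
        (fun χ => ∀ p ∈ s, p ∣ χ.conductor), ‖BL Z χ σ‖ ≤
      ∑ c ∈ Icc 1 F, if c ∣ q * MS s ∧ MS s ∣ c then PC (nBL Z σ) c else 0 := by
  have hQ := hF.trans hFZ
  rw [← sum_fiberwise_of_maps_to (t := Icc 1 F) (g := fun χ => χ.conductor)]
  · apply sum_le_sum
    intro c _
    rw [filter_filter]
    by_cases h : c ∣ q * MS s ∧ MS s ∣ c
    · rw [if_pos h]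
      refine le_trans ?_ (cond_sum h.1 hQ σ)
      apply sum_le_sum_of_subset_of_nonneg
      · intro χ hχ
        simp only [mem_filter, mem_univ, true_and] at hχ ⊢
        exact hχ.2
      · intro χ _ _
        exact norm_nonneg _
    · rw [if_neg h]
      apply le_of_eq
      apply sum_eq_zero
      intro χ hχ
      exfalso
      simp only [mem_filter, mem_univ, true_and] at hχ
      apply h
      refine ⟨?_, ?_⟩
      · rw [← hχ.2]
        exact χ.conductor_dvd_level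
      · unfold MS
        apply Finset.prod_primes_dvd
        · intro p hp
          exact (hs p hp).prime
        · intro p hp
          rw [← hχ.2]
          exact hχ.1 p hp
  · intro χ _
    rw [mem_Icc]
    refine ⟨Nat.pos_of_ne_zero χ.conductor_ne_zero, ?_⟩
    exact (Nat.le_of_dvd (NeZero.pos _) χ.conductor_dvd_level).trans hF

/-- **the sum over the sets of ramified primes** -/
theorem NN_sum : ∃ C : ℝ, 0 < C ∧ ∀ (Z q F : ℕ) (A Γ D : ℝ) (U : Finset ℕ)
    (𝒮 : Finset (Finset ℕ)), 32 ≤ Z → F ^ 4 ≤ Z → 1 ≤ A → 1 ≤ q → 1 ≤ Γ → Γ ≤ D →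
    (∀ p ∈ U, p.Prime ∧ ¬ p ∣ q ∧ D ≤ (p : ℝ) - 1) →
    (∀ s ∈ 𝒮, s ⊆ U ∧ s ≠ ∅ ∧ q * MS s ≤ F) →
    ∑ s ∈ 𝒮, Γ ^ s.card * NN Z (1 / (A * Real.log Z)) q s ≤
      Γ / D * (C * A ^ 8 * (Real.log Z) ^ 3 / q.totient) := by
  classical
  obtain ⟨C, hC, hBL⟩ := BL_l1
  refine ⟨C, hC, ?_⟩
  intro Z q F A Γ D U 𝒮 hZ hF hA hq hΓ hΓD hU h𝒮
  have hFZ : F ≤ Z := (Nat.le_self_pow (by norm_num) F).trans hF
  have hD : 0 < D := by linarith
  set σ : ℝ := 1 / (A * Real.log Z) with hσ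
  have hφq : (0 : ℝ) < q.totient := by exact_mod_cast Nat.totient_pos.2 hq
  have hb := hBL Z F A hZ hF hA
  have hPC0 : ∀ c, 0 ≤ PC (nBL Z σ) c := fun c => PC_nonneg _ c (fun χ => norm_nonneg _)
  have hone : ∀ s ∈ 𝒮, Γ ^ s.card * NN Z σ q s ≤ (Γ / D / q.totient) *
      ∑ c ∈ Icc 1 F, if c ∣ q * MS s ∧ MS s ∣ c then PC (nBL Z σ) c else 0 := by
    intro s hs
    obtain ⟨h1, h2, h3⟩ := h𝒮 s hs
    have hsp : ∀ p ∈ s, p.Prime := fun p hp => (hU p (h1 hp)).1
    have hM := MS_pos hsp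
    have : NeZero (q * MS s) := ⟨(Nat.mul_pos hq hM).ne'⟩
    have hcop : q.Coprime (MS s) := by
      unfold MS
      rw [Nat.coprime_prod_right_iff]
      intro p hp
      exact ((hsp p hp).coprime_iff_not_dvd.2 (hU p (h1 hp)).2.1).symm
    have hφ : ((q * MS s).totient : ℝ) = q.totient * ∏ p ∈ s, ((p : ℝ) - 1) := by
      rw [Nat.totient_mul hcop]
      push_cast
      congr 1
      unfold MS
      have : ∀ t : Finset ℕ, (∀ p ∈ t, p.Prime) →
          ((∏ p ∈ t, p).totient : ℝ) = ∏ p ∈ t, ((p : ℝ) - 1) := by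
        intro t
        induction t using Finset.induction_on with
        | empty => intro _; simp
        | insert a t ha ih =>
          intro ht
          have ht' : ∀ p ∈ t, p.Prime := fun p hp => ht p (mem_insert_of_mem hp)
          rw [prod_insert ha, prod_insert ha, Nat.totient_mul (prime_cop ht ha)]
          push_cast
          rw [ih ht', Nat.totient_prime (ht a (mem_insert_self _ _))]
          rw [Nat.cast_sub (ht a (mem_insert_self _ _)).one_lt.le]
          simp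
      exact this s hsp
    have hprod : 0 < ∏ p ∈ s, ((p : ℝ) - 1) := prod_pos fun p hp => by
      have := (hU p (h1 hp)).2.2
      linarith
    have hrat : Γ ^ s.card / ∏ p ∈ s, ((p : ℝ) - 1) ≤ Γ / D := by
      obtain ⟨p₀, hp₀⟩ := nonempty_iff_ne_empty.2 h2
      have e1 : Γ ^ s.card / ∏ p ∈ s, ((p : ℝ) - 1) = ∏ p ∈ s, (Γ / ((p : ℝ) - 1)) := by
        rw [prod_div_distrib, prod_const]
      rw [e1, ← mul_prod_erase s _ hp₀]
      have e2 : ∏ p ∈ s.erase p₀, (Γ / ((p : ℝ) - 1)) ≤ 1 := by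
        apply prod_le_one
        · intro p hp
          have := (hU p (h1 (mem_of_mem_erase hp))).2.2
          apply div_nonneg <;> linarith
        · intro p hp
          have := (hU p (h1 (mem_of_mem_erase hp))).2.2
          rw [div_le_one (by linarith)]
          linarith
      have h5 := (hU p₀ (h1 hp₀)).2.2
      have e3 : Γ / ((p₀ : ℝ) - 1) ≤ Γ / D := div_le_div_of_nonneg_left (by linarith) hD h5
      have e4 : 0 ≤ Γ / ((p₀ : ℝ) - 1) := div_nonneg (by linarith) (by linarith)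
      calc Γ / ((p₀ : ℝ) - 1) * ∏ p ∈ s.erase p₀, (Γ / ((p : ℝ) - 1)) ≤
          Γ / ((p₀ : ℝ) - 1) * 1 := mul_le_mul_of_nonneg_left e2 e4
        _ ≤ Γ / D := by linarith
    rw [NN_eq, hφ]
    have hr := ram_sum hsp h3 hFZ σ
    have e5 : Γ ^ s.card * (1 / ((q.totient : ℝ) * ∏ p ∈ s, ((p : ℝ) - 1)) *
        ∑ χ ∈ (univ : Finset (DirichletCharacter ℂ (q * MS s))).filter
        (fun χ => ∀ p ∈ s, p ∣ χ.conductor), ‖BL Z χ σ‖) =
        (Γ ^ s.card / (∏ p ∈ s, ((p : ℝ) - 1)) / q.totient) *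
        ∑ χ ∈ (univ : Finset (DirichletCharacter ℂ (q * MS s))).filter
        (fun χ => ∀ p ∈ s, p ∣ χ.conductor), ‖BL Z χ σ‖ := by
      field_simp
    rw [e5]
    apply mul_le_mul _ hr (sum_nonneg fun _ _ => norm_nonneg _) (by positivity)
    exact div_le_div_of_nonneg_right hrat hφq.le
  refine (sum_le_sum hone).trans ?_
  rw [← mul_sum, sum_comm]
  have hcount : ∀ c ∈ Icc 1 F, ∑ s ∈ 𝒮, (if c ∣ q * MS s ∧ MS s ∣ c then PC (nBL Z σ) c else 0) ≤
      PC (nBL Z σ) c := by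
    intro c _
    rw [← sum_filter, sum_const, nsmul_eq_mul]
    have h1 : (𝒮.filter (fun s => c ∣ q * MS s ∧ MS s ∣ c)).card ≤ 1 := by
      rw [card_le_one]
      have key : ∀ s ∈ 𝒮.filter (fun s => c ∣ q * MS s ∧ MS s ∣ c), s = U.filter (fun p => p ∣ c) := by
        intro s hs
        rw [mem_filter] at hs
        obtain ⟨h1, h2, h3⟩ := hs
        obtain ⟨g1, -, -⟩ := h𝒮 s h1
        have hsp : ∀ p ∈ s, p.Prime := fun p hp => (hU p (g1 hp)).1
        ext p
        rw [mem_filter]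
        constructor
        · intro hp
          exact ⟨g1 hp, (dvd_prod_of_mem (fun p => p) hp).trans h3⟩
        · rintro ⟨hp, hpc⟩
          obtain ⟨a1, a2, -⟩ := hU p hp
          have h4 : p ∣ q * MS s := hpc.trans h2
          rcases a1.dvd_mul.1 h4 with h5 | h5
          · exact absurd h5 a2
          · unfold MS at h5
            rw [a1.prime.dvd_finsetProd_iff] at h5
            obtain ⟨r, hr, h6⟩ := h5
            rw [Nat.prime_dvd_prime_iff_eq a1 (hsp r hr)] at h6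
            rw [h6]; exact hr
      intro a ha b hb
      rw [key a ha, key b hb]
    have h2 : ((𝒮.filter (fun s => c ∣ q * MS s ∧ MS s ∣ c)).card : ℝ) ≤ 1 := by exact_mod_cast h1
    have h3 := hPC0 c
    nlinarith
  calc Γ / D / q.totient * ∑ c ∈ Icc 1 F, ∑ s ∈ 𝒮,
        (if c ∣ q * MS s ∧ MS s ∣ c then PC (nBL Z σ) c else 0) ≤
      Γ / D / q.totient * ∑ c ∈ Icc 1 F, PC (nBL Z σ) c := by
        apply mul_le_mul_of_nonneg_left (sum_le_sum hcount) (by positivity)
    _ ≤ Γ / D / q.totient * (C * A ^ 8 * (Real.log Z) ^ 3) :=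
        mul_le_mul_of_nonneg_left hb (by positivity)
    _ = _ := by ring

end Run7.h296
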