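import Pool.Agent.Run7.h296.LocB
import Pool.Agent.Run7.h296.NS

/-!
The sum of the coefficients of `BL` against the sieve weights.
-/

set_option autoImplicit false

open Finset

namespace Run7.h296

open Pool.Agent.R498.MT
open Pool.Agent.H318R2.Cr (Rgh)

section
variable {J : Type} [Fintype J] [DecidableEq J] (A B : J → ℕ)

open Classical in
/-- the indicator of the bad classes -/
noncomputable def bdf (p l : ℕ) : ℝ := if ∃ j, p ∣ B j + A j * l then 1 else 0

/-- its part without mean -/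
noncomputable def b0 (g : ℕ → ℝ) (i : J) (p l : ℕ) : ℝ :=
  if p ∣ B i + A i * l then 0 else bdf A B p l - g p

variable {A B}

theorem bdf_per (p : ℕ) : Function.Periodic (bdf A B p) p := by
  intro l
  unfold bdf
  simp only [lin_perA]

theorem bdf_01 (p l : ℕ) : 0 ≤ bdf A B p l ∧ bdf A B p l ≤ 1 := by
  unfold bdf
  split_ifs <;> norm_num

theorem b0_per (g : ℕ → ℝ) (i : J) (p : ℕ) : Function.Periodic (b0 A B g i p) p := by
  intro l
  unfold b0
  rw [bdf_per p l]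
  simp only [lin_perA]

/-- the mean of the bad classes among the good residues -/
def gmean (A B : J → ℕ) (i : J) (g : ℕ → ℝ) (p : ℕ) : Prop :=
  ∑ x ∈ range p, (if p ∣ B i + A i * x then 0 else bdf A B p x) = g p * ((p : ℝ) - 1)

theorem b0_tot {p : ℕ} (hp : p.Prime) (i : J) (hi : ¬ p ∣ A i) (g : ℕ → ℝ)
    (hg : gmean A B i g p) : tot (A i) (B i) p (b0 A B g i p) = 0 := by
  have h2 := good_count hp hi (B i)
  unfold tot b0
  have h3 : ∀ x ∈ range p, (if p ∣ B i + A i * x then (0 : ℝ) else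
      (if p ∣ B i + A i * x then 0 else bdf A B p x - g p)) =
      (if p ∣ B i + A i * x then 0 else bdf A B p x) -
        g p * (if p ∣ B i + A i * x then (0 : ℝ) else 1) := by
    intro x _
    split_ifs <;> ring
  unfold gmean at hg
  rw [sum_congr rfl h3, sum_sub_distrib, hg, ← mul_sum, h2]
  ring

theorem b0_nrm {p : ℕ} (hp : p.Prime) (i : J) (hi : ¬ p ∣ A i) (g : ℕ → ℝ) (hg0 : 0 ≤ g p)
    (hg : gmean A B i g p) : nrm (A i) (B i) p (b0 A B g i p) ≤ 2 * (g p * ((p : ℝ) - 1)) := by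
  have h2 := good_count hp hi (B i)
  have h5 : nrm (A i) (B i) p (b0 A B g i p) ≤
      ∑ x ∈ range p, (if p ∣ B i + A i * x then 0 else bdf A B p x) +
      g p * ∑ x ∈ range p, (if p ∣ B i + A i * x then (0 : ℝ) else 1) := by
    unfold nrm b0
    rw [mul_sum, ← sum_add_distrib]
    apply sum_le_sum
    intro x _
    split_ifs
    · simp
    · rw [mul_one]
      refine (abs_sub _ _).trans ?_
      rw [abs_of_nonneg (bdf_01 p x).1, abs_of_nonneg hg0]
  unfold gmean at hg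
  rw [hg, h2] at h5
  linarith

/-- the coefficients of the expansion in the small primes -/
def kap (P : Finset ℕ) (ρ : Finset ℕ → ℝ) (g : ℕ → ℝ) (s : Finset ℕ) : ℝ :=
  ∑ T ∈ (P \ s).powerset, ρ (s ∪ T) * ∏ p ∈ T, g p

theorem expand_P (P : Finset ℕ) (ρ : Finset ℕ → ℝ) (g u v : ℕ → ℝ) (h : ∀ p ∈ P, u p = v p + g p) :
    ∑ T ∈ P.powerset, ρ T * ∏ p ∈ T, u p = ∑ s ∈ P.powerset, kap P ρ g s * ∏ p ∈ s, v p := by
  have h1 : ∀ T ∈ P.powerset, ρ T * ∏ p ∈ T, u p =
      ∑ s ∈ T.powerset, ρ T * ((∏ p ∈ s, v p) * ∏ p ∈ T \ s, g p) := by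
    intro T hT
    rw [mem_powerset] at hT
    rw [← mul_sum, ← prod_add]
    congr 1
    exact prod_congr rfl fun p hp => h p (hT hp)
  rw [sum_congr rfl h1]
  unfold kap
  simp_rw [sum_mul]
  rw [sum_sigma', sum_sigma']
  apply sum_nbij' (i := fun x : (Σ _ : Finset ℕ, Finset ℕ) => (⟨x.2, x.1 \ x.2⟩ :
    Σ _ : Finset ℕ, Finset ℕ)) (j := fun x : (Σ _ : Finset ℕ, Finset ℕ) => (⟨x.1 ∪ x.2, x.1⟩ :
    Σ _ : Finset ℕ, Finset ℕ))
  · rintro ⟨T, s⟩ hx
    simp only [mem_sigma, mem_powerset] at hx ⊢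
    exact ⟨hx.2.trans hx.1, sdiff_subset_sdiff hx.1 le_rfl⟩
  · rintro ⟨s, T⟩ hx
    simp only [mem_sigma, mem_powerset] at hx ⊢
    exact ⟨union_subset hx.1 (hx.2.trans sdiff_subset), subset_union_left⟩
  · rintro ⟨T, s⟩ hx
    simp only [mem_sigma, mem_powerset] at hx
    simp only [Sigma.mk.injEq, heq_eq_eq, and_true]
    exact union_sdiff_of_subset hx.2
  · rintro ⟨s, T⟩ hx
    simp only [mem_sigma, mem_powerset] at hx
    simp only [Sigma.mk.injEq, heq_eq_eq, true_and]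
    ext p
    simp only [mem_sdiff, mem_union]
    constructor
    · rintro ⟨h1 | h1, h2⟩
      · exact absurd h1 h2
      · exact h1
    · intro h1
      exact ⟨Or.inr h1, (mem_sdiff.1 (hx.2 h1)).2⟩
  · rintro ⟨T, s⟩ hx
    simp only [mem_sigma, mem_powerset] at hx
    rw [union_sdiff_of_subset hx.2]
    ring

theorem MS_mono {s t : Finset ℕ} (h : s ⊆ t) (ht : ∀ p ∈ t, p.Prime) : MS s ≤ MS t :=
  Nat.le_of_dvd (MS_pos ht) (prod_dvd_prod_of_subset _ _ _ h)

theorem kap_level {P : Finset ℕ} (hP : ∀ p ∈ P, p.Prime) {ρ : Finset ℕ → ℝ} {g : ℕ → ℝ} {L : ℕ}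
    (hρ : ∀ T ⊆ P, ρ T ≠ 0 → MS T ≤ L) {s : Finset ℕ} (hs : s ⊆ P) (h : kap P ρ g s ≠ 0) :
    MS s ≤ L := by
  unfold kap at h
  obtain ⟨T, hT, h1⟩ := exists_ne_zero_of_sum_ne_zero h
  rw [mem_powerset] at hT
  have h2 : ρ (s ∪ T) ≠ 0 := fun h3 => h1 (by rw [h3, zero_mul])
  have h3 : s ∪ T ⊆ P := union_subset hs (hT.trans sdiff_subset)
  exact (MS_mono subset_union_left (fun p hp => hP p (h3 hp))).trans (hρ _ h3 h2)

/-- the set of the primes of a set of elements of the subtype -/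
def um {Sset : Finset ℕ} (s : Finset Sset) : Finset ℕ := s.map (Function.Embedding.subtype _)

theorem um_mem {Sset : Finset ℕ} (s : Finset Sset) {p : ℕ} (hp : p ∈ um s) : p ∈ Sset := by
  unfold um at hp
  rw [Finset.mem_map] at hp
  obtain ⟨t, _, rfl⟩ := hp
  exact t.2

theorem um_inj {Sset : Finset ℕ} {s t : Finset Sset} (h : um s = um t) : s = t :=
  Finset.map_injective _ h

/-- the local functions of a set -/
noncomputable def psi (A B : J → ℕ) (g : ℕ → ℝ) (i : J) {Sset : Finset ℕ}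
    (σ τ : Sset → Option J) (p l : ℕ) : ℝ :=
  if h : p ∈ Sset then f0 A B i p (σ ⟨p, h⟩) (τ ⟨p, h⟩) l else b0 A B g i p l

theorem psi_per (g : ℕ → ℝ) (i : J) {Sset : Finset ℕ} (σ τ : Sset → Option J) (p : ℕ) :
    Function.Periodic (psi A B g i σ τ p) p := by
  intro l
  unfold psi
  split_ifs
  · exact f0_per i p _ _ l
  · exact b0_per g i p l

theorem psi_prod {M : Type} [CommMonoid M] (g : ℕ → ℝ) (i : J) {Sset P : Finset ℕ}
    (hd : Disjoint P Sset) (σ τ : Sset → Option J) (F : (ℕ → ℝ) → ℕ → M) (s₁ : Finset ℕ)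
    (hs₁ : s₁ ⊆ P) (s₂ : Finset Sset) :
    ∏ p ∈ s₁ ∪ um s₂, F (psi A B g i σ τ p) p =
      (∏ p ∈ s₁, F (b0 A B g i p) p) * ∏ t ∈ s₂, F (f0 A B i t (σ t) (τ t)) t := by
  have hdis : Disjoint s₁ (um s₂) := by
    rw [disjoint_left] at hd ⊢
    intro p hp hp2
    exact hd (hs₁ hp) (um_mem s₂ hp2)
  rw [prod_union hdis]
  congr 1
  · refine prod_congr rfl fun p hp => ?_
    have h1 : p ∉ Sset := fun h => (disjoint_left.1 hd) (hs₁ hp) h
    have h2 : psi A B g i σ τ p = b0 A B g i p := by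
      funext l
      unfold psi
      rw [dif_neg h1]
    rw [h2]
  · unfold um
    rw [prod_map]
    refine prod_congr rfl fun t _ => ?_
    have h2 : psi A B g i σ τ ((Function.Embedding.subtype fun x => x ∈ Sset) t) =
        f0 A B i t (σ t) (τ t) := by
      funext l
      unfold psi
      rw [dif_pos (show (Function.Embedding.subtype fun x => x ∈ Sset) t ∈ Sset from t.2)]
      rfl
    rw [h2]
    rfl

/-- the primes of a colouring -/
def sup (Sset : Finset ℕ) (σ : Sset → Option J) : ℕ := ∏ t : Sset, if σ t = none then 1 else (t : ℕ)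

theorem f0_nn (i : J) (p l : ℕ) : f0 A B i p none none l = 0 := by
  unfold f0
  have : mm i (p : ℝ) none none = 1 := by simp [mm, ff, hv, Ex]
  rw [this]
  simp [ff, hv]

/-- **the expansion** -/
theorem blx [Nonempty J] {Z : ℕ} {ζ : ℝ} (hζ : 0 < ζ) (i : J) (hcop : (B i).Coprime (A i))
    (hBA : B i < A i) {P Sset : Finset ℕ} (hd : Disjoint P Sset)
    (hP : ∀ p ∈ P, p.Prime ∧ ¬ p ∣ A i ∧ p ≤ Z) (hS : ∀ p ∈ Sset, OKp A B p ∧ p ≤ Z)
    (g : ℕ → ℝ) (hg : ∀ p ∈ P, 0 ≤ g p ∧ gmean A B i g p)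
    (Γ₂ : ℝ) (hΓ₂ : ∀ p ∈ P, 2 * (g p * ((p : ℝ) - 1)) ≤ Γ₂)
    (ρ : Finset ℕ → ℝ) (M Γ₁ Γ : ℝ) (hM : 0 ≤ M) (hΓ₁ : 0 ≤ Γ₁) (hΓ₂0 : 0 ≤ Γ₂)
    (hκ : ∀ s ⊆ P, |kap P ρ g s| ≤ M * Γ₁ ^ s.card) (L₁ L : ℕ)
    (hρ : ∀ T ⊆ P, ρ T ≠ 0 → MS T ≤ L₁)
    (y : (Sset → Option J) → ℝ) (hy : ∀ σ, |y σ| ≤ 1) (hyL : ∀ σ, y σ ≠ 0 → sup Sset σ ≤ L)
    (hΓa : Γ₁ * Γ₂ ≤ Γ) (hΓb : 48 * (Fintype.card J : ℝ) ^ 2 ≤ Γ) (E : ℝ)
    (hE : ∏ t : Sset, ∑ a, ∑ b, |cf (1 / (((t : ℕ) : ℝ) - 1)) a| * |cf (1 / (((t : ℕ) : ℝ) - 1)) b| *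
      |mm i ((t : ℕ) : ℝ) a b| ≤ E) :
    |∑' l : ℕ, gR Z ζ (B i + A i * l) * ((∑ T ∈ P.powerset, ρ T * ∏ p ∈ T, bdf A B p l) *
        Lam (some i) (fun t : Sset => ((t : ℕ) : ℝ)) (fun t : Sset => 1 / (((t : ℕ) : ℝ) - 1)) y
          (fun t : Sset => colr A B t l) ^ 2) -
      (∑' l : ℕ, gR Z ζ (B i + A i * l)) * ((∑ T ∈ P.powerset, ρ T * ∏ p ∈ T, g p) *
        ∑ σ : Sset → Option J, ∑ τ : Sset → Option J,
          cw (fun t : Sset => 1 / (((t : ℕ) : ℝ) - 1)) y σ *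
          cw (fun t : Sset => 1 / (((t : ℕ) : ℝ) - 1)) y τ *
          ∏ t : Sset, mm i ((t : ℕ) : ℝ) (σ t) (τ t))| ≤
    M * E * ∑ s ∈ (P ∪ Sset).powerset.filter (fun s => s ≠ ∅ ∧ MS s ≤ L₁ * L ^ 2),
      Γ ^ s.card * NN Z ζ (A i) s := by
  classical
  set μ : Sset → ℝ := fun t => 1 / (((t : ℕ) : ℝ) - 1) with hμ
  set G : ℕ → ℝ := fun l => gR Z ζ (B i + A i * l) with hG
  have hA0 : 0 < A i := by omega
  have hsG : Summable G := by
    apply (gR_summable Z hζ).comp_injective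
    intro a b hab
    simp only at hab
    have : A i * a = A i * b := by omega
    exact Nat.eq_of_mul_eq_mul_left hA0 this
  have hPp : ∀ p ∈ P, p.Prime := fun p hp => (hP p hp).1
  have hUp : ∀ s₁ ⊆ P, ∀ s₂ : Finset Sset, ∀ p ∈ s₁ ∪ um s₂, p.Prime ∧ ¬ p ∣ A i ∧ p ≤ Z := by
    intro s₁ hs₁ s₂ p hp
    rcases mem_union.1 hp with h | h
    · exact hP p (hs₁ h)
    · have := hS p (um_mem s₂ h)
      exact ⟨this.1.pr, this.1.nd i, this.2⟩
  -- the elementary sums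
  set Bx : Finset ℕ → Finset Sset → (Sset → Option J) → (Sset → Option J) → ℝ :=
    fun s₁ s₂ σ τ => ∑' l : ℕ, G l * ((∏ p ∈ s₁, b0 A B g i p l) *
      ∏ t ∈ s₂, f0 A B i t (σ t) (τ t) l) with hBx
  have hBx1 : ∀ s₁ ⊆ P, ∀ (s₂ : Finset Sset) (σ τ : Sset → Option J),
      Bx s₁ s₂ σ τ = ∑' l : ℕ, G l * ∏ p ∈ s₁ ∪ um s₂, psi A B g i σ τ p l := by
    intro s₁ hs₁ s₂ σ τ
    rw [hBx]
    refine tsum_congr fun l => ?_
    rw [psi_prod g i hd σ τ (fun f _ => f l) s₁ hs₁ s₂]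
  have hnn : ∀ s₁ ⊆ P, ∀ (s₂ : Finset Sset), 0 ≤ NN Z ζ (A i) (s₁ ∪ um s₂) := by
    intro s₁ _ s₂
    unfold NN
    exact mul_nonneg (by positivity) (finsum_nonneg fun _ => norm_nonneg _)
  have hBxb : ∀ s₁ ⊆ P, ∀ (s₂ : Finset Sset) (σ τ : Sset → Option J),
      |Bx s₁ s₂ σ τ| ≤ Γ₂ ^ s₁.card *
        (∏ t ∈ s₂, nrm (A i) (B i) t (f0 A B i t (σ t) (τ t))) * NN Z ζ (A i) (s₁ ∪ um s₂) := by
    intro s₁ hs₁ s₂ σ τ
    rw [hBx1 s₁ hs₁ s₂ σ τ]
    have hU := hUp s₁ hs₁ s₂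
    refine (lemN hζ hcop hBA (fun p hp => (hU p hp).1) (fun p hp => (hU p hp).2.1)
      (fun p hp => (hU p hp).2.2) (psi A B g i σ τ) (fun p _ => psi_per g i σ τ p) ?_).trans ?_
    · intro p hp
      by_cases h : p ∈ Sset
      · have e : psi A B g i σ τ p = f0 A B i p (σ ⟨p, h⟩) (τ ⟨p, h⟩) := by
          funext l
          unfold psi
          rw [dif_pos h]
        rw [e]
        exact f0_tot (hS p h).1 i _ _
      · have e : psi A B g i σ τ p = b0 A B g i p := by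
          funext l
          unfold psi
          rw [dif_neg h]
        rw [e]
        have hpP : p ∈ P := by
          rcases mem_union.1 hp with h1 | h1
          · exact hs₁ h1
          · exact absurd (um_mem s₂ h1) h
        exact b0_tot (hPp p hpP) i (hP p hpP).2.1 g (hg p hpP).2
    · rw [psi_prod g i hd σ τ (fun f p => nrm (A i) (B i) p f) s₁ hs₁ s₂]
      apply mul_le_mul_of_nonneg_right _ (hnn s₁ hs₁ s₂)
      apply mul_le_mul_of_nonneg_right _ (prod_nonneg fun t _ => nrm_nonneg _ _ _ _)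
      rw [← prod_const]
      apply prod_le_prod (fun p _ => nrm_nonneg _ _ _ _)
      intro p hp
      have hpP := hs₁ hp
      exact (b0_nrm (hPp p hpP) i (hP p hpP).2.1 g (hg p hpP).1 (hg p hpP).2).trans (hΓ₂ p hpP)
  -- summability
  have hBs : ∀ s₁ ⊆ P, ∀ (s₂ : Finset Sset) (σ τ : Sset → Option J), Summable (fun l : ℕ => G l *
      ((∏ p ∈ s₁, b0 A B g i p l) * ∏ t ∈ s₂, f0 A B i t (σ t) (τ t) l)) := by
    intro s₁ hs₁ s₂ σ τ
    have hU := hUp s₁ hs₁ s₂
    have hMpos := MS_pos (fun p hp => (hU p hp).1)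
    have hper := prod_periodic (s₁ ∪ um s₂) (psi A B g i σ τ) (fun p _ => psi_per g i σ τ p)
    have h1 : Summable (fun l : ℕ => G l * ∏ p ∈ s₁ ∪ um s₂, psi A B g i σ τ p l) := by
      apply Summable.of_norm_bounded (g := fun l => |G l| *
        ∑ r ∈ range (MS (s₁ ∪ um s₂)), |∏ p ∈ s₁ ∪ um s₂, psi A B g i σ τ p r|)
        (hsG.abs.mul_right _)
      intro l
      rw [Real.norm_eq_abs, abs_mul]
      exact mul_le_mul_of_nonneg_left (per_bdd hMpos hper l) (abs_nonneg _)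
    refine h1.congr fun l => ?_
    rw [psi_prod g i hd σ τ (fun f _ => f l) s₁ hs₁ s₂]
  -- the pointwise expansion
  set X : Finset (Finset ℕ × Finset Sset × (Sset → Option J) × (Sset → Option J)) :=
    P.powerset ×ˢ (univ ×ˢ (univ ×ˢ univ)) with hX
  set cc : Finset ℕ × Finset Sset × (Sset → Option J) × (Sset → Option J) → ℝ := fun x =>
    kap P ρ g x.1 * (cw μ y x.2.2.1 * cw μ y x.2.2.2 *
      ∏ t ∈ univ \ x.2.1, mm i ((t : ℕ) : ℝ) (x.2.2.1 t) (x.2.2.2 t)) with hcc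
  have hpt : ∀ l : ℕ, G l * ((∑ T ∈ P.powerset, ρ T * ∏ p ∈ T, bdf A B p l) *
        Lam (some i) (fun t : Sset => ((t : ℕ) : ℝ)) μ y (fun t : Sset => colr A B t l) ^ 2) =
      ∑ x ∈ X, cc x * (G l * ((∏ p ∈ x.1, b0 A B g i p l) *
        ∏ t ∈ x.2.1, f0 A B i t (x.2.2.1 t) (x.2.2.2 t) l)) := by
    intro l
    by_cases hGl : G l = 0
    · rw [hGl]
      simp
    · have hr := (gR_ne hGl).1
      have e1 : ∑ T ∈ P.powerset, ρ T * ∏ p ∈ T, bdf A B p l =
          ∑ s ∈ P.powerset, kap P ρ g s * ∏ p ∈ s, b0 A B g i p l := by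
        apply expand_P
        intro p hp
        unfold b0
        rw [if_neg (hr p (hPp p hp) (hP p hp).2.2)]
        ring
      have e2 : Lam (some i) (fun t : Sset => ((t : ℕ) : ℝ)) μ y (fun t : Sset => colr A B t l) ^ 2 =
          ∑ σ : Sset → Option J, ∑ τ : Sset → Option J, cw μ y σ * cw μ y τ *
            ∑ s₂ : Finset Sset, (∏ t ∈ s₂, f0 A B i t (σ t) (τ t) l) *
              ∏ t ∈ univ \ s₂, mm i ((t : ℕ) : ℝ) (σ t) (τ t) := by
        unfold Lam
        rw [sq, sum_mul_sum]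
        refine sum_congr rfl fun σ _ => sum_congr rfl fun τ _ => ?_
        rw [← powerset_univ, ← prod_add]
        have e3 : ∏ t : Sset, (f0 A B i t (σ t) (τ t) l + mm i ((t : ℕ) : ℝ) (σ t) (τ t)) =
            (∏ t : Sset, hv (some i) ((t : ℕ) : ℝ) (σ t) (colr A B t l)) *
            ∏ t : Sset, hv (some i) ((t : ℕ) : ℝ) (τ t) (colr A B t l) := by
          rw [← prod_mul_distrib]
          refine prod_congr rfl fun t _ => ?_
          unfold f0
          rw [if_neg (hr t (hS t t.2).1.pr (hS t t.2).2)]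
          unfold ff
          ring
        rw [e3]
        ring
      rw [e1, e2, hX, sum_product, sum_mul, mul_sum]
      refine sum_congr rfl fun s₁ _ => ?_
      simp_rw [sum_product, mul_sum]
      rw [sum_comm (s := (univ : Finset (Finset Sset)))]
      refine sum_congr rfl fun σ _ => ?_
      rw [sum_comm (s := (univ : Finset (Finset Sset)))]
      refine sum_congr rfl fun τ _ => sum_congr rfl fun s₂ _ => ?_
      simp only [hcc]
      ring
  have hmain : ∑' l : ℕ, G l * ((∑ T ∈ P.powerset, ρ T * ∏ p ∈ T, bdf A B p l) *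
        Lam (some i) (fun t : Sset => ((t : ℕ) : ℝ)) μ y (fun t : Sset => colr A B t l) ^ 2) =
      ∑ x ∈ X, cc x * Bx x.1 x.2.1 x.2.2.1 x.2.2.2 := by
    rw [tsum_congr hpt, Summable.tsum_finsetSum]
    · refine sum_congr rfl fun x _ => ?_
      rw [tsum_mul_left]
    · intro x hx
      rw [hX, mem_product, mem_powerset] at hx
      exact (hBs x.1 hx.1 x.2.1 x.2.2.1 x.2.2.2).mul_left _
  set D : Finset ℕ × Finset Sset → ℝ := fun z => ∑ σ : Sset → Option J, ∑ τ : Sset → Option J,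
    cc (z.1, z.2, σ, τ) * Bx z.1 z.2 σ τ with hD
  set Y : Finset (Finset ℕ × Finset Sset) := P.powerset ×ˢ univ with hY
  have hmain2 : ∑ x ∈ X, cc x * Bx x.1 x.2.1 x.2.2.1 x.2.2.2 = ∑ z ∈ Y, D z := by
    rw [hX, hY, sum_product, sum_product]
    refine sum_congr rfl fun s₁ _ => ?_
    rw [sum_product]
    refine sum_congr rfl fun s₂ _ => ?_
    rw [sum_product]
  have hY0 : ((∅ : Finset ℕ), (∅ : Finset Sset)) ∈ Y := by
    rw [hY, mem_product]
    exact ⟨mem_powerset.2 (empty_subset _), mem_univ _⟩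
  have hD0 : D (∅, ∅) = (∑' l : ℕ, gR Z ζ (B i + A i * l)) *
      ((∑ T ∈ P.powerset, ρ T * ∏ p ∈ T, g p) *
        ∑ σ : Sset → Option J, ∑ τ : Sset → Option J, cw μ y σ * cw μ y τ *
          ∏ t : Sset, mm i ((t : ℕ) : ℝ) (σ t) (τ t)) := by
    simp only [hD, hcc, hBx]
    have e1 : kap P ρ g ∅ = ∑ T ∈ P.powerset, ρ T * ∏ p ∈ T, g p := by
      unfold kap
      rw [sdiff_empty]
      refine sum_congr rfl fun T _ => ?_
      rw [empty_union]
    rw [e1]
    simp only [prod_empty, mul_one, sdiff_empty]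
    rw [mul_sum, mul_sum]
    refine sum_congr rfl fun σ _ => ?_
    rw [mul_sum, mul_sum]
    refine sum_congr rfl fun τ _ => ?_
    ring
  -- the bound of one term
  have hΓ0 : 0 ≤ Γ := le_trans (by positivity) hΓb
  have hα1 : ∀ t : Sset, 1 ≤ ∑ a, ∑ b, |cf (μ t) a| * |cf (μ t) b| * |mm i ((t : ℕ) : ℝ) a b| := by
    intro t
    exact (al_mm i ((t : ℕ) : ℝ) (by exact_mod_cast (hS t t.2).1.pr.two_le)).1
  have hDb : ∀ z ∈ Y, |D z| ≤ M * E * (Γ ^ (z.1 ∪ um z.2).card * NN Z ζ (A i) (z.1 ∪ um z.2)) := by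
    rintro ⟨s₁, s₂⟩ hz
    rw [hY, mem_product, mem_powerset] at hz
    have hs₁ : s₁ ⊆ P := hz.1
    have hdis : Disjoint s₁ (um s₂) := by
      rw [disjoint_left] at hd ⊢
      intro p hp hp2
      exact hd (hs₁ hp) (um_mem s₂ hp2)
    have hcard : (s₁ ∪ um s₂).card = s₁.card + s₂.card := by
      rw [card_union_of_disjoint hdis]
      unfold um
      rw [card_map]
    simp only
    have h1 : |D (s₁, s₂)| ≤ ∑ σ : Sset → Option J, ∑ τ : Sset → Option J,
        (M * Γ₁ ^ s₁.card * Γ₂ ^ s₁.card * NN Z ζ (A i) (s₁ ∪ um s₂)) *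
        ∏ t : Sset, (|cf (μ t) (σ t)| * |cf (μ t) (τ t)| * (if t ∈ s₂ then
          nrm (A i) (B i) t (f0 A B i t (σ t) (τ t)) else |mm i ((t : ℕ) : ℝ) (σ t) (τ t)|)) := by
      simp only [hD]
      refine (abs_sum_le_sum_abs _ _).trans (sum_le_sum fun σ _ => ?_)
      refine (abs_sum_le_sum_abs _ _).trans (sum_le_sum fun τ _ => ?_)
      simp only [hcc]
      rw [abs_mul, abs_mul, abs_mul, abs_mul, abs_prod]
      have g1 := hκ s₁ hs₁
      have g2 := hBxb s₁ hs₁ s₂ σ τ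
      have g3 : ∀ σ : Sset → Option J, |cw μ y σ| ≤ ∏ t, |cf (μ t) (σ t)| := by
        intro σ
        unfold cw
        rw [abs_mul, abs_prod]
        exact mul_le_of_le_one_right (prod_nonneg fun _ _ => abs_nonneg _) (hy σ)
      have p0 : 0 ≤ ∏ t ∈ univ \ s₂, |mm i ((t : ℕ) : ℝ) (σ t) (τ t)| :=
        prod_nonneg fun _ _ => abs_nonneg _
      have p1 : 0 ≤ ∏ t ∈ s₂, nrm (A i) (B i) t (f0 A B i t (σ t) (τ t)) :=
        prod_nonneg fun _ _ => nrm_nonneg _ _ _ _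
      have p2 : ∀ σ : Sset → Option J, 0 ≤ ∏ t, |cf (μ t) (σ t)| :=
        fun σ => prod_nonneg fun _ _ => abs_nonneg _
      have p3 := hnn s₁ hs₁ s₂
      have e1 : ∏ t : Sset, (|cf (μ t) (σ t)| * |cf (μ t) (τ t)| * (if t ∈ s₂ then
          nrm (A i) (B i) t (f0 A B i t (σ t) (τ t)) else |mm i ((t : ℕ) : ℝ) (σ t) (τ t)|)) =
          (∏ t, |cf (μ t) (σ t)|) * (∏ t, |cf (μ t) (τ t)|) *
          ((∏ t ∈ s₂, nrm (A i) (B i) t (f0 A B i t (σ t) (τ t))) *
            ∏ t ∈ univ \ s₂, |mm i ((t : ℕ) : ℝ) (σ t) (τ t)|) := by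
        rw [prod_mul_distrib, prod_mul_distrib]
        congr 1
        rw [prod_ite]
        congr 1
        · rw [filter_mem_eq_inter, univ_inter]
        · refine prod_congr ?_ fun _ _ => rfl
          ext t
          simp
      rw [e1]
      calc |kap P ρ g s₁| * (|cw μ y σ| * |cw μ y τ| *
            ∏ t ∈ univ \ s₂, |mm i ((t : ℕ) : ℝ) (σ t) (τ t)|) * |Bx s₁ s₂ σ τ| ≤
          (M * Γ₁ ^ s₁.card) * ((∏ t, |cf (μ t) (σ t)|) * (∏ t, |cf (μ t) (τ t)|) *
            ∏ t ∈ univ \ s₂, |mm i ((t : ℕ) : ℝ) (σ t) (τ t)|) * (Γ₂ ^ s₁.card *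
        (∏ t ∈ s₂, nrm (A i) (B i) t (f0 A B i t (σ t) (τ t))) * NN Z ζ (A i) (s₁ ∪ um s₂)) := by
            apply mul_le_mul _ g2 (abs_nonneg _) _
            · apply mul_le_mul g1 _ _ ((abs_nonneg _).trans g1)
              · apply mul_le_mul_of_nonneg_right _ p0
                exact mul_le_mul (g3 σ) (g3 τ) (abs_nonneg _) (p2 σ)
              · exact mul_nonneg (mul_nonneg (abs_nonneg _) (abs_nonneg _)) p0
            · exact mul_nonneg ((abs_nonneg _).trans g1)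
                (mul_nonneg (mul_nonneg (p2 σ) (p2 τ)) p0)
        _ = _ := by ring
    refine h1.trans ?_
    simp_rw [← mul_sum]
    rw [sum_prod2 (fun (t : Sset) a b => |cf (μ t) a| * |cf (μ t) b| * (if t ∈ s₂ then
          nrm (A i) (B i) t (f0 A B i t a b) else |mm i ((t : ℕ) : ℝ) a b|))]
    have h2 : ∏ t : Sset, ∑ a, ∑ b, |cf (μ t) a| * |cf (μ t) b| * (if t ∈ s₂ then
          nrm (A i) (B i) t (f0 A B i t a b) else |mm i ((t : ℕ) : ℝ) a b|) ≤
        Γ ^ s₂.card * E := by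
      have h3 : ∏ t : Sset, ∑ a, ∑ b, |cf (μ t) a| * |cf (μ t) b| * (if t ∈ s₂ then
          nrm (A i) (B i) t (f0 A B i t a b) else |mm i ((t : ℕ) : ℝ) a b|) ≤
          ∏ t : Sset, ((if t ∈ s₂ then Γ else 1) *
            ∑ a, ∑ b, |cf (μ t) a| * |cf (μ t) b| * |mm i ((t : ℕ) : ℝ) a b|) := by
        apply prod_le_prod
        · intro t _
          apply sum_nonneg
          intro a _
          apply sum_nonneg
          intro b _
          apply mul_nonneg (mul_nonneg (abs_nonneg _) (abs_nonneg _))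
          split_ifs
          · exact nrm_nonneg _ _ _ _
          · exact abs_nonneg _
        · intro t _
          by_cases ht : t ∈ s₂
          · simp only [if_pos ht]
            have g4 := nrm_sum (hS t t.2).1 i
            calc _ ≤ 48 * (Fintype.card J : ℝ) ^ 2 := g4
              _ ≤ Γ := hΓb
              _ ≤ _ := le_mul_of_one_le_right hΓ0 (hα1 t)
          · simp only [if_neg ht, one_mul]
            exact le_rfl
      refine h3.trans ?_
      rw [prod_mul_distrib, prod_ite_mem]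
      simp only [univ_inter, prod_const]
      exact mul_le_mul_of_nonneg_left hE (pow_nonneg hΓ0 _)
    have h4 : 0 ≤ M * Γ₁ ^ s₁.card * Γ₂ ^ s₁.card * NN Z ζ (A i) (s₁ ∪ um s₂) :=
      mul_nonneg (by positivity) (hnn s₁ hs₁ s₂)
    refine (mul_le_mul_of_nonneg_left h2 h4).trans ?_
    have hE0 : 0 ≤ E := by
      refine le_trans ?_ hE
      apply prod_nonneg
      intro t _
      linarith [hα1 t]
    have h5 : Γ₁ ^ s₁.card * Γ₂ ^ s₁.card ≤ Γ ^ s₁.card := by
      rw [← mul_pow]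
      exact pow_le_pow_left₀ (mul_nonneg hΓ₁ hΓ₂0) hΓa _
    rw [hcard, pow_add]
    have p3 := hnn s₁ hs₁ s₂
    calc M * Γ₁ ^ s₁.card * Γ₂ ^ s₁.card * NN Z ζ (A i) (s₁ ∪ um s₂) * (Γ ^ s₂.card * E) =
        (Γ₁ ^ s₁.card * Γ₂ ^ s₁.card) * (M * E * (Γ ^ s₂.card * NN Z ζ (A i) (s₁ ∪ um s₂))) := by ring
      _ ≤ Γ ^ s₁.card * (M * E * (Γ ^ s₂.card * NN Z ζ (A i) (s₁ ∪ um s₂))) := by
          apply mul_le_mul_of_nonneg_right h5
          exact mul_nonneg (mul_nonneg hM hE0) (mul_nonneg (pow_nonneg hΓ0 _) p3)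
      _ = _ := by ring
  -- the level
  have hDl : ∀ z ∈ Y, D z ≠ 0 → MS (z.1 ∪ um z.2) ≤ L₁ * L ^ 2 := by
    rintro ⟨s₁, s₂⟩ hz hne
    rw [hY, mem_product, mem_powerset] at hz
    have hs₁ : s₁ ⊆ P := hz.1
    have hdis : Disjoint s₁ (um s₂) := by
      rw [disjoint_left] at hd ⊢
      intro p hp hp2
      exact hd (hs₁ hp) (um_mem s₂ hp2)
    simp only [hD] at hne
    obtain ⟨σ, _, h1⟩ := exists_ne_zero_of_sum_ne_zero hne
    obtain ⟨τ, _, h2⟩ := exists_ne_zero_of_sum_ne_zero h1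
    simp only [hcc] at h2
    have hk : kap P ρ g s₁ ≠ 0 := fun h => h2 (by rw [h]; ring)
    have hσ : y σ ≠ 0 := fun h => h2 (by
      have : cw μ y σ = 0 := by unfold cw; rw [h, mul_zero]
      rw [this]; ring)
    have hτ : y τ ≠ 0 := fun h => h2 (by
      have : cw μ y τ = 0 := by unfold cw; rw [h, mul_zero]
      rw [this]; ring)
    have hB : Bx s₁ s₂ σ τ ≠ 0 := fun h => h2 (by rw [h, mul_zero])
    have hsup : ∀ t ∈ s₂, ¬ (σ t = none ∧ τ t = none) := by
      rintro t ht ⟨g1, g2⟩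
      apply hB
      simp only [hBx]
      have : ∀ l : ℕ, G l * ((∏ p ∈ s₁, b0 A B g i p l) *
          ∏ t ∈ s₂, f0 A B i t (σ t) (τ t) l) = 0 := by
        intro l
        rw [prod_eq_zero ht (by rw [g1, g2]; exact f0_nn i t l)]
        ring
      simp [this]
    have h3 : MS (s₁ ∪ um s₂) = MS s₁ * ∏ t ∈ s₂, (t : ℕ) := by
      unfold MS
      rw [prod_union hdis]
      congr 1
      unfold um
      rw [prod_map]
      rfl
    have h4 : ∏ t ∈ s₂, (t : ℕ) ≤ sup Sset σ * sup Sset τ := by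
      unfold sup
      rw [← prod_mul_distrib]
      calc ∏ t ∈ s₂, (t : ℕ) ≤ ∏ t ∈ s₂, ((if σ t = none then 1 else (t : ℕ)) *
            (if τ t = none then 1 else (t : ℕ))) := by
            apply prod_le_prod' 
            intro t ht
            have hpos := (hS t t.2).1.pr.pos
            have := hsup t ht
            split_ifs with c1 c2 c2
            · exact absurd ⟨c1, c2⟩ this
            · omega
            · omega
            · exact Nat.le_mul_of_pos_right _ hpos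
        _ ≤ _ := by
            apply prod_le_prod_of_subset_of_one_le' (subset_univ _)
            intro t _ _
            have hpos := (hS t t.2).1.pr.pos
            apply Nat.one_le_iff_ne_zero.2
            apply mul_ne_zero
            · split_ifs <;> omega
            · split_ifs <;> omega
    rw [h3]
    have h5 := kap_level hPp hρ hs₁ hk
    calc MS s₁ * ∏ t ∈ s₂, (t : ℕ) ≤ L₁ * (sup Sset σ * sup Sset τ) := Nat.mul_le_mul h5 h4
      _ ≤ L₁ * (L * L) := Nat.mul_le_mul_left _ (Nat.mul_le_mul (hyL σ hσ) (hyL τ hτ))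
      _ = _ := by ring
  -- conclusion
  rw [hmain, hmain2, ← hD0, ← add_sum_erase Y D hY0, add_sub_cancel_left]
  set W : Finset (Finset ℕ × Finset Sset) := (Y.erase (∅, ∅)).filter
    (fun z => MS (z.1 ∪ um z.2) ≤ L₁ * L ^ 2) with hW
  have hc1 : ∑ z ∈ Y.erase (∅, ∅), D z = ∑ z ∈ W, D z := by
    symm
    rw [hW]
    apply sum_filter_of_ne
    intro z hz hne
    exact hDl z (mem_of_mem_erase hz) hne
  rw [hc1]
  refine (abs_sum_le_sum_abs _ _).trans ?_
  have hc2 : ∑ z ∈ W, |D z| ≤ ∑ z ∈ W, M * E * (Γ ^ (z.1 ∪ um z.2).card *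
      NN Z ζ (A i) (z.1 ∪ um z.2)) := by
    apply sum_le_sum
    intro z hz
    rw [hW, mem_filter] at hz
    exact hDb z (mem_of_mem_erase hz.1)
  refine hc2.trans ?_
  rw [← mul_sum]
  have hE0 : 0 ≤ E := by
    refine le_trans ?_ hE
    apply prod_nonneg
    intro t _
    linarith [hα1 t]
  apply mul_le_mul_of_nonneg_left _ (mul_nonneg hM hE0)
  have hWY : ∀ z ∈ W, z.1 ⊆ P ∧ z ≠ (∅, ∅) ∧ MS (z.1 ∪ um z.2) ≤ L₁ * L ^ 2 := by
    intro z hz
    rw [hW, mem_filter, mem_erase, hY, mem_product, mem_powerset] at hz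
    exact ⟨hz.1.2.1, hz.1.1, hz.2⟩
  have hinj : ∀ z ∈ W, ∀ z' ∈ W, z.1 ∪ um z.2 = z'.1 ∪ um z'.2 → z = z' := by
    intro z hz z' hz' h
    have k1 : ∀ z ∈ W, z.1 = (z.1 ∪ um z.2).filter (fun p => p ∈ P) := by
      intro z hz
      ext p
      rw [mem_filter, mem_union]
      constructor
      · intro hp
        exact ⟨Or.inl hp, (hWY z hz).1 hp⟩
      · rintro ⟨h1 | h1, h2⟩
        · exact h1
        · exact absurd (um_mem z.2 h1) (fun h3 => (disjoint_left.1 hd) h2 h3)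
    have k2 : ∀ z ∈ W, um z.2 = (z.1 ∪ um z.2).filter (fun p => p ∈ Sset) := by
      intro z hz
      ext p
      rw [mem_filter, mem_union]
      constructor
      · intro hp
        exact ⟨Or.inr hp, um_mem z.2 hp⟩
      · rintro ⟨h1 | h1, h2⟩
        · exact absurd h2 (fun h3 => (disjoint_left.1 hd) ((hWY z hz).1 h1) h3)
        · exact h1
    have k3 : z.1 = z'.1 := by
      rw [k1 z hz, k1 z' hz', h]
    have k4 : z.2 = z'.2 := by
      apply um_inj
      rw [k2 z hz, k2 z' hz', h]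
    exact Prod.ext k3 k4
  rw [← sum_image (f := fun s => Γ ^ s.card * NN Z ζ (A i) s)
    (g := fun z : Finset ℕ × Finset Sset => z.1 ∪ um z.2) hinj]
  apply sum_le_sum_of_subset_of_nonneg
  · intro s hs
    rw [mem_image] at hs
    obtain ⟨z, hz, rfl⟩ := hs
    obtain ⟨h1, h2, h3⟩ := hWY z hz
    rw [mem_filter, mem_powerset]
    refine ⟨?_, ?_, h3⟩
    · apply union_subset_union h1
      intro p hp
      exact um_mem z.2 hp
    · intro h4
      apply h2
      rw [union_eq_empty] at h4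
      have h5 : z.2 = ∅ := by
        have := h4.2
        unfold um at this
        rwa [map_eq_empty] at this
      exact Prod.ext h4.1 h5
  · intro s _ _
    apply mul_nonneg (pow_nonneg hΓ0 _)
    unfold NN
    exact mul_nonneg (by positivity) (finsum_nonneg fun _ => norm_nonneg _)

end

end Run7.h296
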