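import Pool.Agent.Run7.h296.Base2

/-!
Primes in residue classes: the lower bound with a free parameter and an explicit threshold for the
exceptional character. The proof follows `linE`.
-/

set_option autoImplicit false

open Finset

namespace Run7.h296

open Pool.Agent.H262R3.Lk Pool.Agent.W69.MH Pool.Agent.W215.MH

theorem linF (hSUM : St_SUM) (hDIFF : St_DIFF) (hA0 : St_A0) (hB0 : St_B0) (hB2 : St_B2)
    (hALG : St_ALG) (hEUL : St_EUL) (hCLS : St_CLS) (hABS : St_ABS) :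
    ∃ c4 D0 C : ℝ, 0 < c4 ∧ 1 < D0 ∧ 1 ≤ C ∧
    (∀ (z q : ℕ) [NeZero q] (σ : ℝ), 32 ≤ z → q ^ 8 ≤ z → 0 < σ → σ ≤ 1 →
      (∀ χ : DirichletCharacter ℂ q, χ ≠ 1 → ‖Lj z χ 1 σ‖ ≤ C * Real.log z) ∧
      (σ * Real.log z ≤ 1 →
        ‖Lj z (1 : DirichletCharacter ℂ q) 0 σ‖ ≤ 2 * C / (σ * Real.log z))) ∧
    ∀ D : ℝ, D0 ≤ D → ∀ (z q : ℕ) [NeZero q], 32 ≤ z → q ^ 8 ≤ z →
    ∀ b : ℕ, b.Coprime q → (∀ χ : DirichletCharacter ℂ q, χ ≠ 1 → χ ^ 2 = 1 →
      1 / (2 * C * D ^ 3) ≤ ‖Lj z χ 0 (1 / (D ^ 4 * Real.log z))‖ ∨ χ (b : ZMod q) = -1) →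
      c4 / 2 * D ^ 12 * (Real.log z) ^ 3 / q.totient ≤ Bj z q b 2 (1 / (D ^ 4 * Real.log z)) := by
  obtain ⟨C1, hC1, hD⟩ := hDIFF
  obtain ⟨C2, hC2, hA⟩ := hA0
  obtain ⟨C3, hC3, hB⟩ := hB0
  obtain ⟨c4, c0, hc4, hc0, hc01, hB2'⟩ := hB2
  obtain ⟨C, hC⟩ : ∃ C : ℝ, C = C1 + C2 + C3 + 1 := ⟨_, rfl⟩
  have hCC1 : C1 ≤ C := by linarith
  have hCC2 : C2 ≤ C := by linarith
  have hCC3 : C3 ≤ C := by linarith
  have hC0 : 1 ≤ C := by linarith
  refine ⟨c4, 156 * C ^ 6 / c4 + 1 / c0 + 2, C, hc4, ?_, hC0, ?_, ?_⟩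
  · have h1 : 0 < 156 * C ^ 6 / c4 := by positivity
    have h2 : 0 < 1 / c0 := by positivity
    linarith
  · intro z q _ s hz hqz hs0 hs1
    have hq : 0 < q := Nat.pos_of_ne_zero (NeZero.ne q)
    have hq1 : 1 ≤ q := hq
    have hqz' : q ≤ z := by
      calc q = q ^ 1 := (pow_one q).symm
        _ ≤ q ^ 8 := Nat.pow_le_pow_right hq (by norm_num)
        _ ≤ z := hqz
    have hzR : (32 : ℝ) ≤ z := by exact_mod_cast hz
    obtain ⟨ℓ, hℓ⟩ : ∃ ℓ : ℝ, ℓ = Real.log z := ⟨_, rfl⟩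
    have hℓ1 : 1 ≤ ℓ := by
      rw [hℓ, Real.le_log_iff_exp_le (by linarith)]
      have := Real.exp_one_lt_d9
      linarith
    have hφ0 : (0 : ℝ) < q.totient := by exact_mod_cast Nat.totient_pos.mpr hq
    have hcard : (Fintype.card (ZMod q)ˣ : ℝ) = q.totient := by
      rw [ZMod.card_units_eq_totient]
    have hcop : ∀ x : (ZMod q)ˣ, ((x : ZMod q).val).Coprime q := fun x =>
      ZMod.val_coe_unit_coprime x
    obtain ⟨hL, hL0, -⟩ := hCLS z q s hz hqz' hs0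
    rw [← hℓ]
    constructor
    · intro χ hχ
      rw [hL χ 1 le_rfl]
      have h1 : ∑ x : (ZMod q)ˣ, χ x * ((Aj z q (x : ZMod q).val 1 s : ℝ) : ℂ) =
          ∑ x : (ZMod q)ˣ, χ x * (((Aj z q (x : ZMod q).val 1 s : ℝ) : ℂ) -
            ((Aj z q (((1 : (ZMod q)ˣ)) : ZMod q).val 1 s : ℝ) : ℂ)) := by
        simp only [mul_sub]
        rw [Finset.sum_sub_distrib, ← Finset.sum_mul, sum_char_zero χ hχ, zero_mul, sub_zero]
      rw [h1]
      refine (norm_sum_le _ _).trans ?_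
      have h3 : ∀ x : (ZMod q)ˣ, ‖χ x * (((Aj z q (x : ZMod q).val 1 s : ℝ) : ℂ) -
          ((Aj z q (((1 : (ZMod q)ˣ)) : ZMod q).val 1 s : ℝ) : ℂ))‖ ≤ C * ℓ / q.totient := by
        intro x
        rw [norm_mul, ← Complex.ofReal_sub, Complex.norm_real, Real.norm_eq_abs]
        have h4 := hD z q _ _ 1 s hz hq1 hqz (hcop x) (hcop 1) (by norm_num) hs0 hs1
        rw [← hℓ, pow_one] at h4
        refine (mul_le_of_le_one_left (abs_nonneg _) (DirichletCharacter.norm_le_one _ _)).trans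
          (h4.trans ?_)
        apply div_le_div_of_nonneg_right _ hφ0.le
        exact mul_le_mul_of_nonneg_right hCC1 (by positivity)
      refine (Finset.sum_le_sum fun x _ => h3 x).trans (le_of_eq ?_)
      rw [Finset.sum_const, Finset.card_univ, nsmul_eq_mul, hcard]
      field_simp
    · intro hsl1
      have hsl0 : 0 < s * ℓ := by positivity
      have hA0b : ∀ x : (ZMod q)ˣ, Aj z q (x : ZMod q).val 0 s ≤ C / (s * ℓ) / q.totient := by
        intro x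
        have h4 := hA z q _ s hz hq1 hqz (hcop x) hs0 (by rw [← hℓ]; exact hsl1)
        rw [← hℓ] at h4
        refine h4.trans ?_
        rw [div_div, div_le_div_iff₀ (by positivity) (by positivity)]
        have : C2 * (s * ℓ * q.totient) ≤ C * (s * ℓ * q.totient) :=
          mul_le_mul_of_nonneg_right hCC2 (by positivity)
        linarith
      have hA0nn : ∀ x : (ZMod q)ˣ, 0 ≤ Aj z q (x : ZMod q).val 0 s := by
        intro x
        apply tsum_nonneg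
        intro n
        unfold aj
        split_ifs
        · positivity
        · exact le_rfl
      have hA0sum : ∑ x : (ZMod q)ˣ, Aj z q (x : ZMod q).val 0 s ≤ C / (s * ℓ) := by
        refine (Finset.sum_le_sum fun x _ => hA0b x).trans (le_of_eq ?_)
        rw [Finset.sum_const, Finset.card_univ, nsmul_eq_mul, hcard]
        field_simp
      rw [hL0]
      have h1 : ‖∑ x : (ZMod q)ˣ, (1 : DirichletCharacter ℂ q) x *
          ((Aj z q (x : ZMod q).val 0 s : ℝ) : ℂ)‖ ≤ C / (s * ℓ) := by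
        refine (norm_sum_le _ _).trans ?_
        refine le_trans (Finset.sum_le_sum fun x _ => ?_) hA0sum
        rw [norm_mul, Complex.norm_real, Real.norm_of_nonneg (hA0nn x)]
        exact mul_le_of_le_one_left (hA0nn x) (DirichletCharacter.norm_le_one _ _)
      refine (norm_one_add_le' _ _ h1).trans ?_
      have h5 : 1 ≤ C / (s * ℓ) := by
        rw [le_div_iff₀ hsl0]
        linarith
      calc (1 : ℝ) + C / (s * ℓ) ≤ C / (s * ℓ) + C / (s * ℓ) := add_le_add h5 le_rfl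
        _ = 2 * C / (s * ℓ) := by ring
  intro D hDdef
  have hD1' : 1 < D := by
    have h1 : 0 < 156 * C ^ 6 / c4 := by positivity
    have h2 : 0 < 1 / c0 := by positivity
    linarith
  have hD2' : 2 ≤ D := by
    have h1 : 0 < 156 * C ^ 6 / c4 := by positivity
    have h2 : 0 < 1 / c0 := by positivity
    linarith
  have hD1 : 1 ≤ D := hD1'.le
  have hDc0 : 1 / c0 ≤ D := by
    have : 0 ≤ 156 * C ^ 6 / c4 := by positivity
    linarith
  have hDc4 : 156 * C ^ 6 ≤ c4 * D := by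
    have h1 : 156 * C ^ 6 / c4 ≤ D := by
      have : 0 ≤ 1 / c0 := by positivity
      linarith
    rw [div_le_iff₀ hc4] at h1
    linarith
  have hA1 : 1 ≤ D ^ 4 := one_le_pow₀ hD1
  obtain ⟨lam, hlam⟩ : ∃ lam : ℝ, lam = 1 / (2 * C * D ^ 3) := ⟨_, rfl⟩
  have hD3 : 1 ≤ D ^ 3 := one_le_pow₀ hD1
  have hlam0 : 0 < lam := by rw [hlam]; positivity
  have hlam12 : lam ≤ 1 / 2 := by
    rw [hlam, div_le_div_iff₀ (by positivity) (by norm_num)]
    have : 1 ≤ C * D ^ 3 := one_le_mul_of_one_le_of_one_le hC0 hD3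
    linarith
  intro z q _ hz hqz b hbq hreal
  rw [← hlam] at hreal
  have hq : 0 < q := Nat.pos_of_ne_zero (NeZero.ne q)
  have hq1 : 1 ≤ q := hq
  have hqz' : q ≤ z := by
    calc q = q ^ 1 := (pow_one q).symm
      _ ≤ q ^ 8 := Nat.pow_le_pow_right hq (by norm_num)
      _ ≤ z := hqz
  have hzR : (32 : ℝ) ≤ z := by exact_mod_cast hz
  set ℓ : ℝ := Real.log z with hℓ
  have hℓ1 : 1 ≤ ℓ := by
    rw [hℓ, Real.le_log_iff_exp_le (by linarith)]
    have := Real.exp_one_lt_d9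
    linarith
  set s : ℝ := 1 / (D ^ 4 * ℓ) with hs
  have hs0 : 0 < s := by positivity
  have hs1 : s ≤ 1 := by
    rw [hs, div_le_one (by positivity)]
    exact one_le_mul_of_one_le_of_one_le hA1 hℓ1
  have hsl : s * ℓ = 1 / D ^ 4 := by
    rw [hs]
    field_simp
  have hsl1 : s * ℓ ≤ 1 := by
    rw [hsl, div_le_one (by positivity)]
    exact hA1
  have hslc0 : s * ℓ ≤ c0 := by
    rw [hsl, div_le_iff₀ (by positivity)]
    rw [div_le_iff₀ hc0] at hDc0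
    have h2 : D ≤ D ^ 4 := by
      calc D = D ^ 1 := (pow_one D).symm
        _ ≤ D ^ 4 := pow_le_pow_right₀ hD1 (by norm_num)
    calc (1 : ℝ) ≤ D * c0 := hDc0
      _ ≤ D ^ 4 * c0 := mul_le_mul_of_nonneg_right h2 hc0.le
      _ = c0 * D ^ 4 := mul_comm _ _
  have hφ0 : (0 : ℝ) < q.totient := by exact_mod_cast Nat.totient_pos.mpr hq
  have hcard : (Fintype.card (ZMod q)ˣ : ℝ) = q.totient := by
    rw [ZMod.card_units_eq_totient]
  obtain ⟨hL, hL0, hDj, ⟨m, hm, hmP⟩, hBsum⟩ := hCLS z q s hz hqz' hs0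
  -- bounds
  have hcop : ∀ x : (ZMod q)ˣ, ((x : ZMod q).val).Coprime q := fun x =>
    ZMod.val_coe_unit_coprime x
  have hDiff : ∀ (j : ℕ), j ≤ 3 → ∀ x y : (ZMod q)ˣ,
      ‖((Aj z q (x : ZMod q).val j s : ℝ) : ℂ) - ((Aj z q (y : ZMod q).val j s : ℝ) : ℂ)‖ ≤
        C * ℓ ^ j / q.totient := by
    intro j hj x y
    rw [← Complex.ofReal_sub, Complex.norm_real, Real.norm_eq_abs]
    refine (hD z q _ _ j s hz hq1 hqz (hcop x) (hcop y) hj hs0 hs1).trans ?_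
    apply div_le_div_of_nonneg_right _ hφ0.le
    exact mul_le_mul_of_nonneg_right hCC1 (by positivity)
  have hA0b : ∀ x : (ZMod q)ˣ, Aj z q (x : ZMod q).val 0 s ≤ C * D ^ 4 / q.totient := by
    intro x
    refine (hA z q _ s hz hq1 hqz (hcop x) hs0 hsl1).trans ?_
    rw [hsl]
    rw [div_le_div_iff₀ (by positivity) hφ0]
    have : C * D ^ 4 * (q.totient * (1 / D ^ 4)) = C * q.totient := by
      field_simp
    rw [this]
    exact mul_le_mul_of_nonneg_right hCC2 hφ0.le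
  have hA0sum : ∑ x : (ZMod q)ˣ, Aj z q (x : ZMod q).val 0 s ≤ C * D ^ 4 := by
    refine (Finset.sum_le_sum fun x _ => hA0b x).trans (le_of_eq ?_)
    rw [Finset.sum_const, Finset.card_univ, nsmul_eq_mul, hcard]
    field_simp
  have hB0b : ∀ x : (ZMod q)ˣ, Bj z q (x : ZMod q).val 0 s ≤ C * D ^ 4 * ℓ / q.totient := by
    intro x
    refine (hB z q _ s hz hq1 hqz (hcop x) hs0 hsl1).trans ?_
    rw [hs, div_le_div_iff₀ (by positivity) hφ0]
    have : C * D ^ 4 * ℓ * (q.totient * (1 / (D ^ 4 * ℓ))) = C * q.totient := by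
      field_simp
    rw [this]
    exact mul_le_mul_of_nonneg_right hCC3 hφ0.le
  have hB0sum : ∑ x : (ZMod q)ˣ, ‖((Bj z q (x : ZMod q).val 0 s : ℝ) : ℂ)‖ ≤ C * D ^ 4 * ℓ := by
    have h1 : ∀ x : (ZMod q)ˣ, ‖((Bj z q (x : ZMod q).val 0 s : ℝ) : ℂ)‖ ≤
        C * D ^ 4 * ℓ / q.totient := by
      intro x
      rw [Complex.norm_real, Real.norm_of_nonneg (Bj_nonneg _ _ _ _ _ (fun n => by simp))]
      exact hB0b x
    refine (Finset.sum_le_sum fun x _ => h1 x).trans (le_of_eq ?_)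
    rw [Finset.sum_const, Finset.card_univ, nsmul_eq_mul, hcard]
    field_simp
  -- the trivial bound for `L0 1` and `L0 ψ`
  have hA0nn : ∀ x : (ZMod q)ˣ, 0 ≤ Aj z q (x : ZMod q).val 0 s := by
    intro x
    apply tsum_nonneg
    intro n
    unfold aj
    split_ifs
    · positivity
    · exact le_rfl
  have hL1 : ‖Lj z (1 : DirichletCharacter ℂ q) 0 s‖ ≤ 2 * C * D ^ 4 := by
    rw [hL0]
    have h1 : ‖∑ x : (ZMod q)ˣ, (1 : DirichletCharacter ℂ q) x *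
        ((Aj z q (x : ZMod q).val 0 s : ℝ) : ℂ)‖ ≤ C * D ^ 4 := by
      refine (norm_sum_le _ _).trans ?_
      refine le_trans (Finset.sum_le_sum fun x _ => ?_) hA0sum
      rw [norm_mul, Complex.norm_real, Real.norm_of_nonneg (hA0nn x)]
      exact mul_le_of_le_one_left (hA0nn x) (DirichletCharacter.norm_le_one _ _)
    have hCD : 1 ≤ C * D ^ 4 := one_le_mul_of_one_le_of_one_le hC0 hA1
    refine (norm_one_add_le' _ _ h1).trans ?_
    calc (1 : ℝ) + C * D ^ 4 ≤ C * D ^ 4 + C * D ^ 4 := add_le_add hCD le_rfl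
      _ = 2 * C * D ^ 4 := by ring
  have hLψ : ∀ ψ : DirichletCharacter ℂ q, ψ ≠ 1 → ‖Lj z ψ 0 s‖ ≤ 2 * C := by
    intro ψ hψ
    rw [hL0]
    have h1 : ∑ x : (ZMod q)ˣ, ψ x * ((Aj z q (x : ZMod q).val 0 s : ℝ) : ℂ) =
        ∑ x : (ZMod q)ˣ, ψ x * (((Aj z q (x : ZMod q).val 0 s : ℝ) : ℂ) -
          ((Aj z q (((1 : (ZMod q)ˣ)) : ZMod q).val 0 s : ℝ) : ℂ)) := by
      simp only [mul_sub]
      rw [Finset.sum_sub_distrib, ← Finset.sum_mul, sum_char_zero ψ hψ, zero_mul, sub_zero]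
    have h2 : ‖∑ x : (ZMod q)ˣ, ψ x * ((Aj z q (x : ZMod q).val 0 s : ℝ) : ℂ)‖ ≤ C := by
      rw [h1]
      refine (norm_sum_le _ _).trans ?_
      have h3 : ∀ x : (ZMod q)ˣ, ‖ψ x * (((Aj z q (x : ZMod q).val 0 s : ℝ) : ℂ) -
          ((Aj z q (((1 : (ZMod q)ˣ)) : ZMod q).val 0 s : ℝ) : ℂ))‖ ≤ C / q.totient := by
        intro x
        rw [norm_mul]
        have h4 := hDiff 0 (by norm_num) x 1
        rw [pow_zero, mul_one] at h4
        exact (mul_le_of_le_one_left (norm_nonneg _) (DirichletCharacter.norm_le_one _ _)).trans h4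
      refine (Finset.sum_le_sum fun x _ => h3 x).trans (le_of_eq ?_)
      rw [Finset.sum_const, Finset.card_univ, nsmul_eq_mul, hcard]
      field_simp
    refine (norm_one_add_le' _ _ h2).trans ?_
    linarith
  have huniq : ∀ χ ψ : DirichletCharacter ℂ q, χ ^ 2 = 1 → ψ ^ 2 = 1 → χ * ψ ≠ 1 →
      lam ≤ ‖Lj z χ 0 s‖ ∨ lam ≤ ‖Lj z ψ 0 s‖ := by
    intro χ ψ hχ hψ hχψ
    by_contra hcon
    push Not at hcon
    obtain ⟨g1, g2⟩ := hcon
    have g3 := (hEUL z q χ ψ s hz hq hqz' hs0).2.2 hχ hψ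
    have g4 := hLψ (χ * ψ) hχψ
    have g5 : ‖Lj z (1 : DirichletCharacter ℂ q) 0 s‖ * ‖Lj z χ 0 s‖ * ‖Lj z ψ 0 s‖ *
        ‖Lj z (χ * ψ) 0 s‖ ≤ (2 * C * D ^ 4) * lam * lam * (2 * C) := by
      gcongr
    have g6 : (2 * C * D ^ 4) * lam * lam * (2 * C) = 1 / D ^ 2 := by
      rw [hlam]
      field_simp
      try ring
    have g7 : 1 / D ^ 2 < 1 := by
      rw [div_lt_one (by positivity)]
      nlinarith
    linarith
  have hnr : ∀ χ : DirichletCharacter ℂ q, χ ^ 2 ≠ 1 → lam ≤ ‖Lj z χ 0 s‖ := by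
    intro χ h2
    have h3 := (hEUL z q χ χ s hz hq hqz' hs0).1
    have h4 := hLψ (χ ^ 2) h2
    by_contra hcon
    push Not at hcon
    have h5 : ‖Lj z (1 : DirichletCharacter ℂ q) 0 s‖ ^ 3 ≤ (2 * C * D ^ 4) ^ 3 :=
      pow_le_pow_left₀ (norm_nonneg _) hL1 3
    have h6 : ‖Lj z χ 0 s‖ ^ 4 < lam ^ 4 := pow_lt_pow_left₀ hcon (norm_nonneg _) (by norm_num)
    have h7 : ‖Lj z (1 : DirichletCharacter ℂ q) 0 s‖ ^ 3 * ‖Lj z χ 0 s‖ ^ 4 *
        ‖Lj z (χ ^ 2) 0 s‖ ≤ (2 * C * D ^ 4) ^ 3 * ‖Lj z χ 0 s‖ ^ 4 * (2 * C) := by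
      apply mul_le_mul _ h4 (norm_nonneg _) (by positivity)
      exact mul_le_mul_of_nonneg_right h5 (by positivity)
    have h8 : (2 * C * D ^ 4) ^ 3 * ‖Lj z χ 0 s‖ ^ 4 * (2 * C) <
        (2 * C * D ^ 4) ^ 3 * lam ^ 4 * (2 * C) := by
      apply mul_lt_mul_of_pos_right _ (by positivity)
      exact mul_lt_mul_of_pos_left h6 (by positivity)
    have h9 : (2 * C * D ^ 4) ^ 3 * lam ^ 4 * (2 * C) = 1 := by
      rw [hlam]
      field_simp
    linarith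
  -- the unit of `b`
  set u : (ZMod q)ˣ := ZMod.unitOfCoprime b hbq with hu
  have huv : (u : ZMod q).val = b % q := by
    rw [hu, ZMod.coe_unitOfCoprime, ZMod.val_natCast]
  have hsum : ∑ x : (ZMod q)ˣ, ((Bj z q (x : ZMod q).val 2 s : ℝ) : ℂ) =
      ((Bj z 1 1 2 s : ℝ) : ℂ) := by
    rw [← hBsum 2]
    push_cast
    rfl
  have hCDp : 1 ≤ C * D ^ 4 := one_le_mul_of_one_le_of_one_le hC0 hA1
  obtain ⟨X, hX⟩ : ∃ X : ℝ, X = C * ℓ ^ 3 * (2 * C * D ^ 4) +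
    3 * (C * ℓ ^ 2) * (2 * C * D ^ 4) * (C * D ^ 4 * ℓ) +
    2 * (C * ℓ) ^ 3 * (2 * C * D ^ 4) ^ 2 / lam := ⟨_, rfl⟩
  have h10 : Bj z 1 1 2 s - X - 54 * C ^ 6 * D ^ 6 * ℓ ^ 3 ≤ (q.totient : ℝ) * Bj z q b 2 s := by
    by_cases hex : ∃ χ₁ : DirichletCharacter ℂ q, χ₁ ≠ 1 ∧ χ₁ ^ 2 = 1 ∧ ‖Lj z χ₁ 0 s‖ < lam
    · obtain ⟨χ₁, hχ₁, hχ₁2, hχ₁l⟩ := hex
      have hb1 : χ₁ (b : ZMod q) = -1 := by
        rcases hreal χ₁ hχ₁ hχ₁2 with h | h
        · exact absurd hχ₁l (not_lt.2 h)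
        · exact h
      have hlow : ∀ χ : DirichletCharacter ℂ q, χ ≠ 1 → χ ≠ χ₁ → lam ≤ ‖Lj z χ 0 s‖ := by
        intro χ _ hne
        by_cases h2 : χ ^ 2 = 1
        · have h3 : χ * χ₁ ≠ 1 := by
            intro h
            apply hne
            have h4 : χ₁ * χ₁ = 1 := by rw [← sq, hχ₁2]
            exact mul_right_cancel (h.trans h4.symm)
          rcases huniq χ χ₁ h2 hχ₁2 h3 with h | h
          · exact h
          · exact absurd hχ₁l (not_lt.2 h)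
        · exact hnr χ h2
      have key := abs1 q (fun x => ((Aj z q (x : ZMod q).val 1 s : ℝ) : ℂ))
        (fun x => ((Aj z q (x : ZMod q).val 2 s : ℝ) : ℂ))
        (fun x => ((Aj z q (x : ZMod q).val 3 s : ℝ) : ℂ))
        (fun x => ((Bj z q (x : ZMod q).val 0 s : ℝ) : ℂ))
        (fun x => ((Bj z q (x : ZMod q).val 2 s : ℝ) : ℂ)) m (fun χ => Lj z χ 0 s)
        (C * ℓ) (C * ℓ ^ 2) (C * ℓ ^ 3) (2 * C * D ^ 4) (C * D ^ 4 * ℓ) lam
        (by positivity) (by positivity) (by positivity) hlam0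
        (fun x y => by
          have := hDiff 1 (by norm_num) x y
          rwa [pow_one] at this)
        (fun x y => hDiff 2 (by norm_num) x y)
        (fun x y => hDiff 3 (by norm_num) x y)
        (by
          refine hmP.trans ?_
          linarith)
        hB0sum
        (fun χ => by
          rw [← hm χ]
          exact (hALG z q χ s hz hs0).1)
        (fun χ => by
          rw [← hDj χ 0, ← hL χ 1 le_rfl]
          exact (hALG z q χ s hz hs0).2.1)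
        (fun χ => by
          rw [← hDj χ 0, ← hDj χ 2, ← hL χ 3 (by norm_num), ← hL χ 2 (by norm_num)]
          exact (hALG z q χ s hz hs0).2.2)
        χ₁ hχ₁ hlow u
      rw [huv, Bj_mod, hsum, ← hDj χ₁ 0, ← hX] at key
      -- the value at the inverse class
      have hbi : χ₁ ((u⁻¹ : (ZMod q)ˣ) : ZMod q) = -1 := by
        have h1 : χ₁ ((u⁻¹ : (ZMod q)ˣ) : ZMod q) * χ₁ (u : ZMod q) = 1 := by
          rw [← map_mul, ← Units.val_mul, inv_mul_cancel, Units.val_one, map_one]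
        have h2 : χ₁ (u : ZMod q) = -1 := by
          rw [hu, ZMod.coe_unitOfCoprime]
          exact hb1
        rw [h2] at h1
        linear_combination -h1
      have hL2b : ∀ σ : ℝ, 0 < σ → σ ≤ 1 → ‖Lj z χ₁ 2 σ‖ ≤ C * ℓ ^ 2 := by
        intro σ hσ0 hσ1
        obtain ⟨hL', -⟩ := hCLS z q σ hz hqz' hσ0
        rw [hL' χ₁ 2 (by norm_num)]
        have h1 : ∑ x : (ZMod q)ˣ, χ₁ x * ((Aj z q (x : ZMod q).val 2 σ : ℝ) : ℂ) =
            ∑ x : (ZMod q)ˣ, χ₁ x * (((Aj z q (x : ZMod q).val 2 σ : ℝ) : ℂ) -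
              ((Aj z q (((1 : (ZMod q)ˣ)) : ZMod q).val 2 σ : ℝ) : ℂ)) := by
          simp only [mul_sub]
          rw [Finset.sum_sub_distrib, ← Finset.sum_mul, sum_char_zero χ₁ hχ₁, zero_mul, sub_zero]
        rw [h1]
        refine (norm_sum_le _ _).trans ?_
        have h3 : ∀ x : (ZMod q)ˣ, ‖χ₁ x * (((Aj z q (x : ZMod q).val 2 σ : ℝ) : ℂ) -
            ((Aj z q (((1 : (ZMod q)ˣ)) : ZMod q).val 2 σ : ℝ) : ℂ))‖ ≤ C * ℓ ^ 2 / q.totient := by
          intro x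
          rw [norm_mul, ← Complex.ofReal_sub, Complex.norm_real, Real.norm_eq_abs]
          have h4 := hD z q _ _ 2 σ hz hq1 hqz (hcop x) (hcop 1) (by norm_num) hσ0 hσ1
          refine (mul_le_of_le_one_left (abs_nonneg _) (DirichletCharacter.norm_le_one _ _)).trans
            (h4.trans ?_)
          apply div_le_div_of_nonneg_right _ hφ0.le
          exact mul_le_mul_of_nonneg_right hCC1 (by positivity)
        refine (Finset.sum_le_sum fun x _ => h3 x).trans (le_of_eq ?_)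
        rw [Finset.sum_const, Finset.card_univ, nsmul_eq_mul, hcard]
        field_simp
      have hlow1 : 1 / (2 * C * D ^ 4) ≤ ‖Lj z χ₁ 0 s‖ := by
        have h1 := (hEUL z q χ₁ χ₁ s hz hq hqz' hs0).2.1 hχ₁2
        rw [div_le_iff₀ (by positivity)]
        have h2 : ‖Lj z (1 : DirichletCharacter ℂ q) 0 s‖ * ‖Lj z χ₁ 0 s‖ ≤
            (2 * C * D ^ 4) * ‖Lj z χ₁ 0 s‖ := mul_le_mul_of_nonneg_right hL1 (norm_nonneg _)
        linarith
      obtain ⟨hdr, hdu⟩ := D0_upper hALG hz hq χ₁ hχ₁2 hC0 hD2' hℓ1 hs hL2b hlow1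
      obtain ⟨d, hd⟩ : ∃ d : ℝ, d = (Dj z χ₁ 0 s).re := ⟨_, rfl⟩
      rw [← hd] at hdr hdu
      rw [hbi, hdr] at key
      have e1 : (q.totient : ℂ) * ((Bj z q b 2 s : ℝ) : ℂ) - ((Bj z 1 1 2 s : ℝ) : ℂ) -
          2 * (-1 * (d : ℂ) ^ 3) =
          (((q.totient : ℝ) * Bj z q b 2 s - Bj z 1 1 2 s + 2 * d ^ 3 : ℝ) : ℂ) := by
        push_cast
        ring
      rw [e1, Complex.norm_real, Real.norm_eq_abs] at key
      have h10 := (abs_le.mp key).1
      have hd3 : d ^ 3 ≤ (3 * C ^ 2 * D ^ 2 * ℓ) ^ 3 := by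
        have hodd : Odd 3 := by decide
        exact hodd.pow_le_pow.2 hdu
      have e2 : (3 * C ^ 2 * D ^ 2 * ℓ) ^ 3 = 27 * C ^ 6 * D ^ 6 * ℓ ^ 3 := by ring
      rw [e2] at hd3
      linarith
    · have hlow : ∀ χ : DirichletCharacter ℂ q, χ ≠ 1 → lam ≤ ‖Lj z χ 0 s‖ := by
        intro χ hχ
        by_cases h2 : χ ^ 2 = 1
        · by_contra hcon
          push Not at hcon
          exact hex ⟨χ, hχ, h2, hcon⟩
        · exact hnr χ h2
      have key := hABS q (fun x => ((Aj z q (x : ZMod q).val 1 s : ℝ) : ℂ))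
        (fun x => ((Aj z q (x : ZMod q).val 2 s : ℝ) : ℂ))
        (fun x => ((Aj z q (x : ZMod q).val 3 s : ℝ) : ℂ))
        (fun x => ((Bj z q (x : ZMod q).val 0 s : ℝ) : ℂ))
        (fun x => ((Bj z q (x : ZMod q).val 2 s : ℝ) : ℂ)) m (fun χ => Lj z χ 0 s)
        (C * ℓ) (C * ℓ ^ 2) (C * ℓ ^ 3) (2 * C * D ^ 4) (C * D ^ 4 * ℓ) lam
        (by positivity) (by positivity) (by positivity) hlam0
        (fun x y => by
          have := hDiff 1 (by norm_num) x y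
          rwa [pow_one] at this)
        (fun x y => hDiff 2 (by norm_num) x y)
        (fun x y => hDiff 3 (by norm_num) x y)
        (by
          refine hmP.trans ?_
          linarith)
        hB0sum
        (fun χ => by
          rw [← hm χ]
          exact (hALG z q χ s hz hs0).1)
        (fun χ => by
          rw [← hDj χ 0, ← hL χ 1 le_rfl]
          exact (hALG z q χ s hz hs0).2.1)
        (fun χ => by
          rw [← hDj χ 0, ← hDj χ 2, ← hL χ 3 (by norm_num), ← hL χ 2 (by norm_num)]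
          exact (hALG z q χ s hz hs0).2.2)
        hlow u
      rw [huv, Bj_mod, hsum, ← hX] at key
      have e1 : (q.totient : ℂ) * ((Bj z q b 2 s : ℝ) : ℂ) - ((Bj z 1 1 2 s : ℝ) : ℂ) =
          (((q.totient : ℝ) * Bj z q b 2 s - Bj z 1 1 2 s : ℝ) : ℂ) := by
        push_cast
        rfl
      rw [e1, Complex.norm_real, Real.norm_eq_abs] at key
      have h10 := (abs_le.mp key).1
      have h11 : 0 ≤ 54 * C ^ 6 * D ^ 6 * ℓ ^ 3 := by positivity
      linarith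
  have h11 := hB2' z s hz hs0 hslc0
  have h12 : c4 / s ^ 3 = c4 * D ^ 12 * ℓ ^ 3 := by
    rw [hs]
    field_simp
  rw [h12] at h11
  have h13 : X ≤ 24 * C ^ 6 * D ^ 11 * ℓ ^ 3 := by
    rw [hX]
    have e2 : 2 * (C * ℓ) ^ 3 * (2 * C * D ^ 4) ^ 2 / lam = 16 * C ^ 6 * D ^ 11 * ℓ ^ 3 := by
      rw [hlam]
      field_simp
      ring
    have e3 : C * ℓ ^ 3 * (2 * C * D ^ 4) ≤ 2 * C ^ 6 * D ^ 11 * ℓ ^ 3 := by
      have h1 : C ^ 2 ≤ C ^ 6 := pow_le_pow_right₀ hC0 (by norm_num)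
      have h2 : D ^ 4 ≤ D ^ 11 := pow_le_pow_right₀ hD1 (by norm_num)
      calc C * ℓ ^ 3 * (2 * C * D ^ 4) = 2 * (C ^ 2 * D ^ 4) * ℓ ^ 3 := by ring
        _ ≤ 2 * (C ^ 6 * D ^ 11) * ℓ ^ 3 := by gcongr
        _ = _ := by ring
    have e4 : 3 * (C * ℓ ^ 2) * (2 * C * D ^ 4) * (C * D ^ 4 * ℓ) ≤ 6 * C ^ 6 * D ^ 11 * ℓ ^ 3 := by
      have h1 : C ^ 3 ≤ C ^ 6 := pow_le_pow_right₀ hC0 (by norm_num)
      have h2 : D ^ 8 ≤ D ^ 11 := pow_le_pow_right₀ hD1 (by norm_num)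
      calc 3 * (C * ℓ ^ 2) * (2 * C * D ^ 4) * (C * D ^ 4 * ℓ) = 6 * (C ^ 3 * D ^ 8) * ℓ ^ 3 := by
            ring
        _ ≤ 6 * (C ^ 6 * D ^ 11) * ℓ ^ 3 := by gcongr
        _ = _ := by ring
    rw [e2]
    linarith
  have h14 : 24 * C ^ 6 * D ^ 11 * ℓ ^ 3 + 54 * C ^ 6 * D ^ 6 * ℓ ^ 3 ≤ c4 / 2 * D ^ 12 * ℓ ^ 3 := by
    have h15 : 78 * C ^ 6 * D ^ 11 ≤ c4 / 2 * D ^ 12 := by
      have h16 : 0 ≤ D ^ 11 := by positivity
      have h17 : 78 * C ^ 6 ≤ c4 / 2 * D := by linarith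
      calc 78 * C ^ 6 * D ^ 11 ≤ c4 / 2 * D * D ^ 11 := mul_le_mul_of_nonneg_right h17 h16
        _ = _ := by ring
    have h18 : 54 * C ^ 6 * D ^ 6 * ℓ ^ 3 ≤ 54 * C ^ 6 * D ^ 11 * ℓ ^ 3 := by
      have h2 : D ^ 6 ≤ D ^ 11 := pow_le_pow_right₀ hD1 (by norm_num)
      gcongr
    have h19 := mul_le_mul_of_nonneg_right h15 (by positivity : 0 ≤ ℓ ^ 3)
    linarith
  have h18 : c4 / 2 * D ^ 12 * ℓ ^ 3 ≤ (q.totient : ℝ) * Bj z q b 2 s := by
    linarith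
  rw [div_le_iff₀ hφ0]
  linarith

end Run7.h296
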