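import Pool.Agent.Run7.h296.TypeI
import Pool.Agent.R498.MT.Err

/-!
The colour of an integer at a prime.
-/

set_option autoImplicit false

open Finset

namespace Run7.h296

open Pool.Agent.R498.MT

section
variable {J : Type} [Fintype J] [DecidableEq J] (A B : J → ℕ)

open Classical in
/-- the index of the form divisible by `p` -/
noncomputable def colr (p l : ℕ) : Option J :=
  if h : ∃ j, p ∣ B j + A j * l then some h.choose else none

/-- the primes at which the forms are distinct -/
structure OKp (p : ℕ) : Prop where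
  pr : p.Prime
  nd : ∀ j, ¬ p ∣ A j
  df : ∀ i j, i ≠ j → ∀ l, ¬ (p ∣ B i + A i * l ∧ p ∣ B j + A j * l)

variable {A B}

theorem colr_some {p : ℕ} (h : OKp A B p) (l : ℕ) (j : J) :
    colr A B p l = some j ↔ p ∣ B j + A j * l := by
  unfold colr
  constructor
  · intro h1
    split_ifs at h1 with h2
    have := h2.choose_spec
    rw [Option.some.injEq] at h1
    rwa [h1] at this
  · intro h1
    have h2 : ∃ j, p ∣ B j + A j * l := ⟨j, h1⟩
    rw [dif_pos h2]
    congr 1
    by_contra hne
    exact h.df _ _ hne l ⟨h2.choose_spec, h1⟩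

theorem colr_none {p : ℕ} (l : ℕ) :
    colr A B p l = none ↔ ∀ j, ¬ p ∣ B j + A j * l := by
  unfold colr
  constructor
  · intro h1 j hj
    rw [dif_pos ⟨j, hj⟩] at h1
    exact absurd h1 (by simp)
  · intro h1
    rw [dif_neg]
    rintro ⟨j, hj⟩
    exact h1 j hj

theorem lin_perA (q β p x : ℕ) : p ∣ β + q * (x + p) ↔ p ∣ β + q * x := by
  have : β + q * (x + p) = (β + q * x) + p * q := by ring
  rw [this]
  exact (Nat.dvd_add_left (Dvd.intro q rfl))

theorem colr_per {p : ℕ} (l : ℕ) : colr A B p (l + p) = colr A B p l := by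
  unfold colr
  simp only [lin_perA]

/-- there is exactly one root -/
theorem root_ex {q p : ℕ} (hp : p.Prime) (hq : ¬ p ∣ q) (β : ℕ) :
    ∃ r, r < p ∧ ∀ x, x < p → (p ∣ β + q * x ↔ x = r) := by
  have : Fact p.Prime := ⟨hp⟩
  have hq0 : (q : ZMod p) ≠ 0 := by
    rwa [Ne, ZMod.natCast_eq_zero_iff]
  set r : ℕ := (-(β : ZMod p) / (q : ZMod p)).val with hr
  refine ⟨r, ZMod.val_lt _, fun x hx => ?_⟩
  have hrc : (r : ZMod p) = -(β : ZMod p) / (q : ZMod p) := by
    rw [hr, ZMod.natCast_val, ZMod.cast_id', id]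
  rw [← ZMod.natCast_eq_zero_iff]
  constructor
  · intro h
    push_cast at h
    have h1 : (x : ZMod p) = -(β : ZMod p) / (q : ZMod p) := by
      rw [eq_div_iff hq0]
      linear_combination h
    rw [← hrc, ZMod.natCast_eq_natCast_iff] at h1
    have h2 : x % p = r % p := h1
    rwa [Nat.mod_eq_of_lt hx, Nat.mod_eq_of_lt (by rw [hr]; exact ZMod.val_lt _)] at h2
  · rintro rfl
    push_cast
    rw [hrc]
    field_simp
    ring

theorem root_sum {q p : ℕ} (hp : p.Prime) (hq : ¬ p ∣ q) (β : ℕ) :
    ∃ r, r < p ∧ p ∣ β + q * r ∧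
      ∀ G : ℕ → ℝ, ∑ x ∈ range p, (if p ∣ β + q * x then G x else 0) = G r := by
  obtain ⟨r, hr, h⟩ := root_ex hp hq β
  refine ⟨r, hr, (h r hr).2 rfl, fun G => ?_⟩
  have h1 : ∀ x ∈ range p, (if p ∣ β + q * x then G x else 0) = if x = r then G x else 0 := by
    intro x hx
    rw [mem_range] at hx
    by_cases h2 : x = r
    · rw [if_pos ((h x hx).2 h2), if_pos h2]
    · rw [if_neg (fun h3 => h2 ((h x hx).1 h3)), if_neg h2]
  rw [sum_congr rfl h1, sum_ite_eq' (range p) r, if_pos (mem_range.2 hr)]

theorem colr_val {p : ℕ} (h : OKp A B p) (F : Option J → ℝ) (x : ℕ) :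
    F (colr A B p x) = F none + ∑ j, (if p ∣ B j + A j * x then F (some j) - F none else 0) := by
  rcases hc : colr A B p x with _ | j
  · have h1 := (colr_none (A := A) (B := B) x).1 hc
    have : ∀ j ∈ (univ : Finset J), (if p ∣ B j + A j * x then F (some j) - F none else 0) = 0 :=
      fun j _ => if_neg (h1 j)
    rw [sum_congr rfl this, sum_const_zero, add_zero]
  · have h1 := (colr_some h x j).1 hc
    rw [sum_eq_single j]
    · rw [if_pos h1]; ring
    · intro i _ hij
      rw [if_neg]
      intro h2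
      exact h.df i j hij x ⟨h2, h1⟩
    · intro h3; exact absurd (mem_univ _) h3

/-- the sum of a function of the colour over all residues -/
theorem col_sum {p : ℕ} (h : OKp A B p) (F : Option J → ℝ) :
    ∑ x ∈ range p, F (colr A B p x) = p * F none + ∑ j, (F (some j) - F none) := by
  rw [sum_congr rfl (fun x _ => colr_val h F x), sum_add_distrib, sum_const, card_range,
    nsmul_eq_mul, sum_comm]
  congr 1
  refine sum_congr rfl fun j _ => ?_
  obtain ⟨r, _, _, hG⟩ := root_sum h.pr (h.nd j) (B j)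
  exact hG (fun _ => F (some j) - F none)

/-- the sum over the residues at which the form `i` is not divisible by `p` -/
theorem col_sum_good {p : ℕ} (h : OKp A B p) (i : J) (F : Option J → ℝ) :
    ∑ x ∈ range p, (if p ∣ B i + A i * x then 0 else F (colr A B p x)) =
      ((p : ℝ) - 1) * F none + ∑ j ∈ univ.erase i, (F (some j) - F none) := by
  obtain ⟨r, _, hr, hG⟩ := root_sum h.pr (h.nd i) (B i)
  have h1 : ∑ x ∈ range p, (if p ∣ B i + A i * x then 0 else F (colr A B p x)) =
      ∑ x ∈ range p, F (colr A B p x) -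
        ∑ x ∈ range p, (if p ∣ B i + A i * x then F (colr A B p x) else 0) := by
    rw [← sum_sub_distrib]
    refine sum_congr rfl fun x _ => ?_
    split_ifs <;> ring
  rw [h1, col_sum h, hG (fun x => F (colr A B p x))]
  have h2 : colr A B p r = some i := (colr_some h r i).2 hr
  have h3 : ∑ j, (F (some j) - F none) = (F (some i) - F none) +
      ∑ j ∈ univ.erase i, (F (some j) - F none) := (add_sum_erase univ _ (mem_univ i)).symm
  simp only [h2]
  rw [h3]
  ring

/-- the mean over the good residues as a local expectation -/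
theorem good_Ex {p : ℕ} (hp : 2 ≤ p) (i : J) (F : Option J → ℝ) :
    ((p : ℝ) - 1) * F none + ∑ j ∈ univ.erase i, (F (some j) - F none) =
      ((p : ℝ) - 1) * Ex (rd (some i) ((p : ℝ) - 1) 0) F := by
  have hp1 : (0 : ℝ) < (p : ℝ) - 1 := by
    have : (2 : ℝ) ≤ p := by exact_mod_cast hp
    linarith
  unfold Ex
  rw [mul_add, mul_sum]
  congr 1
  rw [← add_sum_erase univ _ (mem_univ i)]
  have h1 : rd (some i) ((p : ℝ) - 1) 0 i = 0 := by simp [rd]
  rw [h1, mul_zero, mul_zero, zero_add]
  refine sum_congr rfl fun j hj => ?_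
  have h2 : rd (some i) ((p : ℝ) - 1) 0 j = 1 / ((p : ℝ) - 1) := by
    unfold rd
    rw [if_neg]
    intro h3
    exact (ne_of_mem_erase hj) (Option.some.inj h3).symm
  rw [h2]
  field_simp

end

end Run7.h296
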