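import Pool.Agent.Run7.h296.PT

/-!
The context of the estimates.
-/

set_option autoImplicit false

open Finset

namespace Run7.h296

open Pool.Agent.R498.MT Pool.Agent.H262R3.Lk Pool.Agent.W505.MH
open Pool.Agent.H318R2.Cr (Rgh V V_pos V_le_one)

/-- the masses of the weights -/
structure RM (b Jn : ℕ) (P : Finset ℕ) (g : ℕ → ℝ) : Prop where
  g0 : ∀ p ∈ P, 0 ≤ g p
  pos : 0 < ∏ p ∈ P, (1 - g p)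
  p1 : ∏ p ∈ P, (1 - g p) ≤ ∑ T ∈ P.powerset, rhoP b Jn T * ∏ l ∈ T, g l
  p2 : ∑ T ∈ P.powerset, rhoP b Jn T * ∏ l ∈ T, g l ≤ (1 + (1 / 2) ^ b) * ∏ p ∈ P, (1 - g p)
  d1 : 0 ≤ ∑ T ∈ P.powerset, rhoD b Jn T * ∏ l ∈ T, g l
  d2 : ∑ T ∈ P.powerset, rhoD b Jn T * ∏ l ∈ T, g l ≤ (1 / 2) ^ b * ∏ p ∈ P, (1 - g p)
  d3 : ∑ T ∈ P.powerset, |rhoD b Jn T| * ∏ l ∈ T, g l ≤ (1 / 2) ^ b * ∏ p ∈ P, (1 + g p)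

/-- the context -/
structure Ctx (k Jn e b b' W D₁ : ℕ) (C₁ E D : ℝ) (A B : Fin (2 ^ k) → ℕ) : Prop where
  J1 : 1 ≤ Jn
  b1 : 1 ≤ b
  C0 : 0 ≤ C₁
  ep : (1 / 2 : ℝ) ^ e ≤ e0 k C₁ (1 / 2)
  E0 : 0 < E
  E1 : E ≤ ((1 / 2 : ℝ) ^ e) ^ (16 * (2 ^ k) ^ 2 + 1)
  dat : Dat (S := SS Jn e) (fun t => ((t : ℕ) : ℝ)) (fun t => 1 / (((t : ℕ) : ℝ) - 1))
    (lsz ((2 ^ 2 ^ (Jn + e) : ℕ) : ℝ)) ((1 / 2) ^ e) (1 / 2) 1 (om k C₁ ((1 / 2) ^ e))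
  VT : 1 / ((2 ^ 2 ^ Jn : ℕ) : ℝ) ≤ V (2 ^ 2 ^ Jn) ^ (2 * 2 ^ k)
  lv0 : 8 * ((2 ^ 2 ^ Jn : ℕ) : ℝ) * (((1 : ℝ) + Jn) * (((2 ^ 2 ^ Jn) ^ (4 * b + 6) : ℕ) : ℝ) ^ 2) *
    (((2 ^ 2 ^ (Jn + e) : ℕ) : ℝ) * 1) ≤ E * (((2 ^ 2 ^ (Jn + e)) ^ 8 : ℕ) : ℝ)
  lv1 : 8 * ((2 ^ 2 ^ Jn : ℕ) : ℝ) * (((1 : ℝ) + Jn) * (((2 ^ 2 ^ Jn) ^ (4 * b + 6) : ℕ) : ℝ) ^ 2) *
    (((2 ^ 2 ^ (Jn + e) : ℕ) : ℝ) * (((2 ^ 2 ^ (Jn + e + 6)) ^ (4 * b' + 6) : ℕ) : ℝ)) ≤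
    E * (((2 ^ 2 ^ (Jn + e + 6)) ^ (4 * b' + 8) : ℕ) : ℝ)
  mu : (2 : ℝ) ^ (e + 6) * (4 * b' + 6) * (2 / ((2 ^ 2 ^ Jn : ℕ) : ℝ)) ≤ om k C₁ ((1 / 2) ^ e)
  D1K : 2 * 2 ^ k ≤ D₁
  D3 : 3 ≤ D₁
  W0 : W ≠ 0
  Ws : ∀ p : ℕ, p.Prime → p ∣ W → p < 2 ^ 2 ^ Jn
  WD : ∀ p : ℕ, p.Prime → ¬ p ∣ W → D₁ < p
  AW : ∀ j, ∀ p : ℕ, p.Prime → (p ∣ A j ↔ p ∣ W)
  AT : ∀ j, A j ≤ 2 ^ 2 ^ Jn
  BA : ∀ j, B j < A j
  cop : ∀ j, (B j).Coprime (A j)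
  ok : ∀ p ∈ SS Jn e, OKp A B p
  rmP : RM b Jn (PS Jn W) (gg A B)
  rmG : RM b Jn (PS Jn W) (gq A B)
  rmQ : RM b' (Jn + e + 6) (QS Jn e) (fun p => 1 / (p : ℝ))
  kapG : ∀ s ⊆ PS Jn W, |kap (PS Jn W) (rhoM b Jn) (gq A B) s| ≤
    4 * (2 * D) ^ s.card * ∏ p ∈ PS Jn W, (1 - gq A B p)
  D1 : 1 ≤ D

theorem rhoM_abs (b Jn : ℕ) (T : Finset ℕ) : |rhoM b Jn T| ≤ 1 + Jn := by
  unfold rhoM
  have h1 := rhoP_abs b Jn T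
  have h2 := rhoD_abs b Jn T
  exact (abs_sub _ _).trans (add_le_add h1 h2)

theorem rho_level {b Jn : ℕ} {P : Finset ℕ} (hP : ∀ p ∈ P, p.Prime ∧ p < 2 ^ 2 ^ Jn) (T : Finset ℕ)
    (hT : T ⊆ P) (h : rhoP b Jn T ≠ 0 ∨ rhoD b Jn T ≠ 0) : MS T ≤ (2 ^ 2 ^ Jn) ^ (4 * b + 6) :=
  rho_supp b Jn T (fun p hp => hP p (hT hp)) h

theorem rhoM_level {b Jn : ℕ} {P : Finset ℕ} (hP : ∀ p ∈ P, p.Prime ∧ p < 2 ^ 2 ^ Jn) (T : Finset ℕ)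
    (hT : T ⊆ P) (h : rhoM b Jn T ≠ 0) : MS T ≤ (2 ^ 2 ^ Jn) ^ (4 * b + 6) := by
  apply rho_level hP T hT
  by_contra hcon
  push Not at hcon
  apply h
  unfold rhoM
  rw [hcon.1, hcon.2, sub_zero]

theorem pow_half_le {b : ℕ} (hb : 1 ≤ b) : (1 / 2 : ℝ) ^ b ≤ 1 / 2 := by
  calc (1 / 2 : ℝ) ^ b ≤ (1 / 2 : ℝ) ^ 1 := pow_le_pow_of_le_one (by norm_num) (by norm_num) hb
    _ = 1 / 2 := pow_one _

/-- the admissible weights -/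
structure AdW (b Jn : ℕ) (P : Finset ℕ) (g : ℕ → ℝ) (ρ : Finset ℕ → ℝ) : Prop where
  a1 : ∀ T ⊆ P, |ρ T| ≤ 1 + Jn
  a2 : ∀ T ⊆ P, ρ T ≠ 0 → MS T ≤ (2 ^ 2 ^ Jn) ^ (4 * b + 6)
  a3 : (∏ p ∈ P, (1 - g p)) / 2 ≤ ∑ T ∈ P.powerset, ρ T * ∏ l ∈ T, g l
  a4 : ∑ T ∈ P.powerset, ρ T * ∏ l ∈ T, g l ≤ 2 * ∏ p ∈ P, (1 - g p)

section
variable {k Jn e b b' W D₁ : ℕ} {C₁ E D : ℝ} {A B : Fin (2 ^ k) → ℕ}

theorem Ctx.A1 (c : Ctx k Jn e b b' W D₁ C₁ E D A B) (j : Fin (2 ^ k)) : 1 ≤ A j := by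
  have := c.BA j
  omega

theorem Ctx.PSp (_c : Ctx k Jn e b b' W D₁ C₁ E D A B) :
    ∀ p ∈ PS Jn W, p.Prime ∧ p < 2 ^ 2 ^ Jn := fun p hp => ⟨(mem_PS.1 hp).1, (mem_PS.1 hp).2.1⟩

theorem Ctx.adP (c : Ctx k Jn e b b' W D₁ C₁ E D A B) : AdW b Jn (PS Jn W) (gg A B) (rhoP b Jn) where
  a1 := fun T _ => (rhoP_abs b Jn T).trans (by
    have : (0 : ℝ) ≤ Jn := Nat.cast_nonneg _
    linarith)
  a2 := fun T hT h => rho_level c.PSp T hT (Or.inl h)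
  a3 := by
    have h1 := c.rmP.p1
    have h2 := c.rmP.pos
    linarith
  a4 := by
    have h1 := c.rmP.p2
    have h2 := c.rmP.pos
    have h3 := pow_half_le c.b1
    nlinarith

theorem rhoM_sum (b Jn : ℕ) (P : Finset ℕ) (g : ℕ → ℝ) :
    ∑ T ∈ P.powerset, rhoM b Jn T * ∏ l ∈ T, g l = ∑ T ∈ P.powerset, rhoP b Jn T * ∏ l ∈ T, g l -
      ∑ T ∈ P.powerset, rhoD b Jn T * ∏ l ∈ T, g l := by
  rw [← sum_sub_distrib]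
  refine sum_congr rfl fun T _ => ?_
  unfold rhoM
  ring

theorem Ctx.adM (c : Ctx k Jn e b b' W D₁ C₁ E D A B) : AdW b Jn (PS Jn W) (gg A B) (rhoM b Jn) where
  a1 := fun T _ => rhoM_abs b Jn T
  a2 := fun T hT h => rhoM_level c.PSp T hT h
  a3 := by
    rw [rhoM_sum]
    have h1 := c.rmP.p1
    have h2 := c.rmP.pos
    have h3 := pow_half_le c.b1
    have h4 := c.rmP.d2
    nlinarith
  a4 := by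
    rw [rhoM_sum]
    have h1 := c.rmP.p2
    have h2 := c.rmP.pos
    have h3 := pow_half_le c.b1
    have h4 := c.rmP.d1
    nlinarith

theorem Ctx.nd (c : Ctx k Jn e b b' W D₁ C₁ E D A B) : ∀ p ∈ PS Jn W, ∀ j, ¬ p ∣ A j := by
  intro p hp j hj
  have h1 := mem_PS.1 hp
  exact h1.2.2 ((c.AW j p h1.1).1 hj)

theorem Ctx.ndQ (c : Ctx k Jn e b b' W D₁ C₁ E D A B) : ∀ p ∈ QS Jn e, ∀ j, ¬ p ∣ A j := by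
  intro p hp j hj
  have h1 := mem_QS.1 hp
  have h2 := c.Ws p h1.1 ((c.AW j p h1.1).1 hj)
  omega

theorem Ctx.i0 (_c : Ctx k Jn e b b' W D₁ C₁ E D A B) : Nonempty (Fin (2 ^ k)) :=
  ⟨⟨0, by positivity⟩⟩

theorem Ctx.PSD (c : Ctx k Jn e b b' W D₁ C₁ E D A B) : ∀ p ∈ PS Jn W, D₁ < p := fun p hp =>
  c.WD p (mem_PS.1 hp).1 (mem_PS.1 hp).2.2

theorem Ctx.VP (c : Ctx k Jn e b b' W D₁ C₁ E D A B) :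
    1 / ((2 ^ 2 ^ Jn : ℕ) : ℝ) ≤ ∏ p ∈ PS Jn W, (1 - gg A B p) := by
  obtain ⟨i⟩ := c.i0
  refine c.VT.trans (VP_ge (2 ^ k) Jn W c.nd i (Fintype.card_fin _) fun p hp => ?_)
  have := c.PSD p hp
  have := c.D1K
  omega

theorem Ctx.R1 (c : Ctx k Jn e b b' W D₁ C₁ E D A B) {ρ : Finset ℕ → ℝ}
    (h : AdW b Jn (PS Jn W) (gg A B) ρ) :
    ∑ T' ∈ (PS Jn W).powerset, |ρ T'| * ∏ p ∈ T', (gg A B p * p) ≤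
      ((1 : ℝ) + Jn) * (((2 ^ 2 ^ Jn) ^ (4 * b + 6) : ℕ) : ℝ) ^ 2 := by
  obtain ⟨i⟩ := c.i0
  apply R1_bound (fun p hp => (mem_PS.1 hp).1) (fun p => gg A B p * p) _ ρ _ (by positivity) h.a1 _ h.a2
  intro p hp
  have hpp := (mem_PS.1 hp).1
  have h1 := (gq_facts (A := A) (B := B) hpp (c.nd p hp) i).2.2.2.2.2.2.1
  rw [Fintype.card_fin] at h1
  refine ⟨mul_nonneg (gg_nonneg p) (Nat.cast_nonneg p), h1.trans ?_⟩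
  have h2 := c.PSD p hp
  have h3 := c.D1K
  exact_mod_cast (by omega : 2 ^ k ≤ p)

theorem Ctx.dPS (_c : Ctx k Jn e b b' W D₁ C₁ E D A B) : Disjoint (PS Jn W) (SS Jn e) := by
  rw [disjoint_left]
  intro p hp hp2
  rw [mem_PS] at hp
  rw [mem_SS] at hp2
  omega

theorem Ctx.dPQ (_c : Ctx k Jn e b b' W D₁ C₁ E D A B) : Disjoint (PS Jn W) (QS Jn e) := by
  rw [disjoint_left]
  intro p hp hp2
  rw [mem_PS] at hp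
  rw [mem_QS] at hp2
  omega

theorem four_le_T {n : ℕ} (h : 1 ≤ n) : 4 ≤ 2 ^ 2 ^ n := by
  calc 4 = 2 ^ 2 ^ 1 := by norm_num
    _ ≤ 2 ^ 2 ^ n := Nat.pow_le_pow_right (by norm_num) (Nat.pow_le_pow_right (by norm_num) h)

theorem Ctx.SS3 (c : Ctx k Jn e b b' W D₁ C₁ E D A B) : ∀ p ∈ SS Jn e, OKp A B p ∧ 3 ≤ p := by
  intro p hp
  have h1 := mem_SS.1 hp
  have h2 := four_le_T c.J1
  exact ⟨c.ok p hp, by omega⟩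

/-- the small masses of bounded sets -/
theorem mu_small {Jn e c : ℕ} (hJ : 1 ≤ Jn) (T : Finset ℕ) (hT : ∀ p ∈ T, p.Prime)
    (h : MS T ≤ (2 ^ 2 ^ (Jn + e + 6)) ^ c) :
    ∑ t ∈ tin (SS Jn e) T, (1 / (((t : ℕ) : ℝ) - 1)) ≤
      (2 : ℝ) ^ (e + 6) * c * (2 / ((2 ^ 2 ^ Jn : ℕ) : ℝ)) := by
  have h4 := four_le_T hJ
  have h1 : (2 ^ 2 ^ Jn) ^ (tin (SS Jn e) T).card ≤ MS T := by
    have h2 : um (tin (SS Jn e) T) ⊆ T := by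
      conv_rhs => rw [split_T (SS Jn e) T]
      exact subset_union_right
    refine le_trans ?_ (MS_mono h2 hT)
    have h3 : MS (um (tin (SS Jn e) T)) = ∏ t ∈ tin (SS Jn e) T, (t : ℕ) := by
      unfold MS um
      rw [prod_map]
      rfl
    rw [h3, ← prod_const]
    exact prod_le_prod' fun t _ => (mem_SS.1 t.2).2.1
  have h2 : (2 ^ 2 ^ Jn) ^ (tin (SS Jn e) T).card ≤ (2 ^ 2 ^ Jn) ^ (2 ^ (e + 6) * c) := by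
    refine (h1.trans h).trans (le_of_eq ?_)
    rw [show Jn + e + 6 = Jn + (e + 6) by ring, pow_add 2 Jn (e + 6), pow_mul, ← pow_mul]
  have h3 : (tin (SS Jn e) T).card ≤ 2 ^ (e + 6) * c :=
    (Nat.pow_le_pow_iff_right (by omega)).1 h2
  have hT0 : (4 : ℝ) ≤ ((2 ^ 2 ^ Jn : ℕ) : ℝ) := by exact_mod_cast h4
  calc ∑ t ∈ tin (SS Jn e) T, (1 / (((t : ℕ) : ℝ) - 1)) ≤
      ∑ _t ∈ tin (SS Jn e) T, (2 / ((2 ^ 2 ^ Jn : ℕ) : ℝ)) := by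
        apply sum_le_sum
        intro t _
        have h5 : ((2 ^ 2 ^ Jn : ℕ) : ℝ) ≤ ((t : ℕ) : ℝ) := by exact_mod_cast (mem_SS.1 t.2).2.1
        rw [div_le_div_iff₀ (by linarith) (by linarith)]
        linarith
    _ = ((tin (SS Jn e) T).card : ℝ) * (2 / ((2 ^ 2 ^ Jn : ℕ) : ℝ)) := by
        rw [sum_const, nsmul_eq_mul]
    _ ≤ (2 : ℝ) ^ (e + 6) * c * (2 / ((2 ^ 2 ^ Jn : ℕ) : ℝ)) := by
        apply mul_le_mul_of_nonneg_right _ (by positivity)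
        exact_mod_cast h3

/-- the weights of the colouring primes -/
noncomputable def yS (k Jn e : ℕ) : (SS Jn e → Option (Fin (2 ^ k))) → ℝ :=
  yf (lsz ((2 ^ 2 ^ (Jn + e) : ℕ) : ℝ)) (1 / 2) k

/-- the linear form -/
noncomputable def LL {k : ℕ} (A B : Fin (2 ^ k) → ℕ) (Jn e : ℕ) (i : Option (Fin (2 ^ k))) (l : ℕ) : ℝ :=
  Lam i (fun t : SS Jn e => ((t : ℕ) : ℝ)) (fun t : SS Jn e => 1 / (((t : ℕ) : ℝ) - 1)) (yS k Jn e)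
    (fun t : SS Jn e => colr A B t l)

/-- the main term -/
noncomputable def MM (k Jn e : ℕ) (i : Fin (2 ^ k)) : ℝ :=
  Mt k (some i) (fun t : SS Jn e => ((t : ℕ) : ℝ)) (fun t : SS Jn e => 1 / (((t : ℕ) : ℝ) - 1))
    (lsz ((2 ^ 2 ^ (Jn + e) : ℕ) : ℝ)) (1 / 2)

/-- the norm -/
noncomputable def II (k Jn e : ℕ) : ℝ :=
  If (fun t : SS Jn e => 1 / (((t : ℕ) : ℝ) - 1)) (lsz ((2 ^ 2 ^ (Jn + e) : ℕ) : ℝ)) (1 / 2) k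

/-- the error -/
noncomputable def eta (k e : ℕ) (C₁ E : ℝ) : ℝ :=
  Ab k ((1 / 2) ^ e) * (E + (Real.exp (6 * ((2 ^ k : ℕ) : ℝ) ^ 2 * om k C₁ ((1 / 2) ^ e)) - 1))

theorem lsz_nonneg {Y : ℝ} (hY : 1 < Y) {Sset : Finset ℕ} (t : Sset) : 0 ≤ lsz Y t := by
  unfold lsz
  exact div_nonneg (Real.log_natCast_nonneg _) (Real.log_pos hY).le

theorem Y_one (n : ℕ) : (1 : ℝ) < ((2 ^ 2 ^ n : ℕ) : ℝ) := by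
  have := two_le_pp n
  exact_mod_cast (by omega : 1 < 2 ^ 2 ^ n)

theorem yS_facts (k Jn e : ℕ) (σ : SS Jn e → Option (Fin (2 ^ k))) :
    0 ≤ yS k Jn e σ ∧ yS k Jn e σ ≤ 1 ∧
      (yS k Jn e σ ≠ 0 → lt (lsz ((2 ^ 2 ^ (Jn + e) : ℕ) : ℝ)) σ ≤ 1 / 2) :=
  yf_facts _ (fun t => lsz_nonneg (Y_one _) t) (1 / 2) (by norm_num) k σ

theorem yS_abs (k Jn e : ℕ) (σ : SS Jn e → Option (Fin (2 ^ k))) : |yS k Jn e σ| ≤ 1 := by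
  have := yS_facts k Jn e σ
  rw [abs_of_nonneg this.1]
  exact this.2.1

/-- the sums against the second sieve in the context -/
theorem Ctx.sumB (c : Ctx k Jn e b b' W D₁ C₁ E D A B) (i : Fin (2 ^ k)) {φ : ℕ → ℝ} (l₀ : ℕ)
    (hφ : ∀ a b, l₀ ≤ a → a ≤ b → φ b ≤ φ a) (h0 : ∀ l, l₀ ≤ l → 0 ≤ φ l) (hs : Summable φ)
    (hF : 0 ≤ ∑' l, cu φ l₀ l) (hbl : (l₀ : ℝ) * φ l₀ ≤ 4 * ∑' l, cu φ l₀ l) (ρ : Finset ℕ → ℝ)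
    (hρ : AdW b Jn (PS Jn W) (gg A B) ρ) (ρa : Finset ℕ → ℝ) (La : ℝ) (hLa1 : 1 ≤ La)
    (hLa : ∀ T ⊆ QS Jn e, ρa T ≠ 0 → ((MS T : ℕ) : ℝ) ≤ La)
    (hLa2 : ∀ T ⊆ QS Jn e, ρa T ≠ 0 → MS T ≤ (2 ^ 2 ^ (Jn + e + 6)) ^ (4 * b' + 6))
    (hlv : 8 * ((2 ^ 2 ^ Jn : ℕ) : ℝ) * (((1 : ℝ) + Jn) *
      (((2 ^ 2 ^ Jn) ^ (4 * b + 6) : ℕ) : ℝ) ^ 2) *
      (((2 ^ 2 ^ (Jn + e) : ℕ) : ℝ) * La) ≤ E * l₀) :
    |∑' n, (cu φ l₀ n * wt A B (PS Jn W) ρ n) * (wq A B i (QS Jn e) ρa n *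
        LL A B Jn e (some i) n ^ 2) -
      ((∑' l, cu φ l₀ l) * ∑ T' ∈ (PS Jn W).powerset, ρ T' * ∏ p ∈ T', gg A B p) *
        (∑ T ∈ (QS Jn e).powerset, ρa T * ∏ p ∈ T, (1 / (p : ℝ))) * MM k Jn e i| ≤
    ((∑' l, cu φ l₀ l) * ∑ T' ∈ (PS Jn W).powerset, ρ T' * ∏ p ∈ T', gg A B p) *
      (∑ T ∈ (QS Jn e).powerset, |ρa T| * ∏ p ∈ T, (1 / (p : ℝ))) * eta k e C₁ E := by
  haveI := c.i0
  have hVP := c.VP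
  have hV0 : 0 < ∏ p ∈ PS Jn W, (1 - gg A B p) := c.rmP.pos
  have hT0 : (0 : ℝ) < ((2 ^ 2 ^ Jn : ℕ) : ℝ) := by positivity
  have hYpos : (0 : ℝ) < ((2 ^ 2 ^ (Jn + e) : ℕ) : ℝ) := by positivity
  have hX : 0 ≤ (∑' l, cu φ l₀ l) * ∑ T' ∈ (PS Jn W).powerset, ρ T' * ∏ p ∈ T', gg A B p := by
    apply mul_nonneg hF
    linarith [hρ.a3]
  have hR0 : 0 ≤ ((1 : ℝ) + Jn) * (((2 ^ 2 ^ Jn) ^ (4 * b + 6) : ℕ) : ℝ) ^ 2 := by positivity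
  have hε : (0 : ℝ) < (1 / 2) ^ e := by positivity
  have hε1 : (1 / 2 : ℝ) ^ e ≤ 1 := pow_le_one₀ (by norm_num) (by norm_num)
  have key := sumA (A := A) (B := B) l₀ hφ h0 hs i c.dPS c.dPQ (fun p hp => (mem_PS.1 hp).1)
    (fun p hp => ⟨(mem_QS.1 hp).1, c.ndQ p hp i⟩) c.SS3 ρ _ (c.R1 hρ) hR0 (yS k Jn e)
    (yS_abs k Jn e) (Y_one (Jn + e)) (fun σ hσ => (yS_facts k Jn e σ).2.2 hσ) E c.E0.le hX ρa La hLa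
    (by
      have h1 := hρ.a3
      have h2 : 0 ≤ φ l₀ := h0 l₀ le_rfl
      have h3 : 1 / (2 * ((2 ^ 2 ^ Jn : ℕ) : ℝ)) ≤
          ∑ T' ∈ (PS Jn W).powerset, ρ T' * ∏ p ∈ T', gg A B p := by
        refine le_trans ?_ h1
        have e1 : 1 / (2 * ((2 ^ 2 ^ Jn : ℕ) : ℝ)) = (1 / ((2 ^ 2 ^ Jn : ℕ) : ℝ)) / 2 := by
          field_simp
        rw [e1]
        linarith
      have h4 : (l₀ : ℝ) * φ l₀ / 4 * (1 / (2 * ((2 ^ 2 ^ Jn : ℕ) : ℝ))) ≤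
          (∑' l, cu φ l₀ l) * ∑ T' ∈ (PS Jn W).powerset, ρ T' * ∏ p ∈ T', gg A B p := by
        apply mul_le_mul _ h3 (by positivity) hF
        linarith
      have h5 := mul_le_mul_of_nonneg_left h4 c.E0.le
      refine le_trans ?_ h5
      have h6 : E * ((l₀ : ℝ) * φ l₀ / 4 * (1 / (2 * ((2 ^ 2 ^ Jn : ℕ) : ℝ)))) =
          φ l₀ * (E * l₀ / (8 * ((2 ^ 2 ^ Jn : ℕ) : ℝ))) := by
        field_simp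
        ring
      rw [h6, mul_assoc]
      apply mul_le_mul_of_nonneg_left _ h2
      rw [le_div_iff₀ (by positivity)]
      refine le_trans (le_of_eq ?_) hlv
      ring)
    (om k C₁ ((1 / 2) ^ e))
    (fun T hT hT0 => by
      have h1 := mu_small c.J1 T (fun p hp => (mem_QS.1 (hT hp)).1) (hLa2 T hT hT0)
      push_cast at h1
      have h2 := c.mu
      push_cast at h2
      exact h1.trans h2)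
  rw [Fintype.card_fin] at key
  refine key.trans ?_
  have h7 : AA (Fin (2 ^ k)) (fun t : SS Jn e => 1 / (((t : ℕ) : ℝ) - 1)) ≤ Ab k ((1 / 2) ^ e) :=
    AA_Ab c.dat hε hε1 k
  have h8 := c.dat.sq
  obtain ⟨o1, -, -, -, -⟩ := om_bd k C₁ ((1 / 2) ^ e) c.C0 hε hε1
  apply mul_le_mul_of_nonneg_left
  · unfold eta
    have h9 : Real.exp (((2 ^ k : ℕ) : ℝ) ^ 2 * ∑ t : SS Jn e, (1 / (((t : ℕ) : ℝ) - 1)) ^ 2 +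
        5 * ((2 ^ k : ℕ) : ℝ) ^ 2 * om k C₁ ((1 / 2) ^ e)) ≤
        Real.exp (6 * ((2 ^ k : ℕ) : ℝ) ^ 2 * om k C₁ ((1 / 2) ^ e)) := by
      apply Real.exp_le_exp.2
      have := mul_le_mul_of_nonneg_left h8 (sq_nonneg ((2 ^ k : ℕ) : ℝ))
      linarith
    have h10 : 1 ≤ Real.exp (((2 ^ k : ℕ) : ℝ) ^ 2 * ∑ t : SS Jn e, (1 / (((t : ℕ) : ℝ) - 1)) ^ 2 +
        5 * ((2 ^ k : ℕ) : ℝ) ^ 2 * om k C₁ ((1 / 2) ^ e)) := by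
      apply Real.one_le_exp
      have : 0 ≤ ∑ t : SS Jn e, (1 / (((t : ℕ) : ℝ) - 1)) ^ 2 := sum_nonneg fun t _ => sq_nonneg _
      positivity
    have h11 := c.E0.le
    apply mul_le_mul h7 (by linarith) (by linarith)
    have := Ab_one k ((1 / 2) ^ e) hε hε1
    linarith
  · apply mul_nonneg hX
    apply sum_nonneg
    intro T _
    exact mul_nonneg (abs_nonneg _) (prod_nonneg fun p _ => by positivity)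

end

end Run7.h296
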