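import Pool.Agent.Run7.h296.TK
import Pool.Agent.R498.MT.Asm
import Pool.Agent.W378.DC.MP
import Pool.Agent.W23.DC.Fin5
import Pool.Agent.Y882.MG.EngS

/-!
The sieving primes.
-/

set_option autoImplicit false

open Finset

namespace Run7.h296

open Pool.Agent.R498.MT
open Pool.Agent.W23.DC (tt pr mem_pr le_tt_iff pr_sub)

theorem dat_S (ε₁ ω : ℝ) (c : ℕ) (hε : 0 < ε₁) (hε1 : ε₁ ≤ 1) (hω : 0 < ω) :
    ∃ Y0 : ℕ, ∀ Y : ℕ, Y0 ≤ Y → ∀ S ⊆ pr Y ε₁ 1, (pr Y ε₁ 1 \ S).card ≤ c →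
    Dat (S := S) (fun t => ((t : ℕ) : ℝ)) (fun t => 1 / (((t : ℕ) : ℝ) - 1)) (lsz (Y : ℝ)) ε₁
      (1 / 2) 1 ω := by
  classical
  obtain ⟨N₀, hMP⟩ := Pool.Agent.W378.DC.MP ε₁ (1 / 40) hε (by norm_num)
  have ev1 : ∀ᶠ Y : ℕ in Filter.atTop, (4 : ℝ) + 80 * c + 8 / ω + 2 / (ε₁ * ω) ≤ (Y : ℝ) ^ ε₁ :=
    ((tendsto_rpow_atTop hε).comp tendsto_natCast_atTop_atTop).eventually_ge_atTop _
  obtain ⟨Y2, hY2⟩ := Filter.eventually_atTop.1 (ev1.and (Filter.eventually_ge_atTop 2))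
  refine ⟨max N₀ Y2, fun Y hY S hS hc => ?_⟩
  obtain ⟨e1, e2⟩ := hY2 Y ((le_max_right _ _).trans hY)
  have hM := hMP Y ((le_max_left _ _).trans hY)
  have p2 : (0 : ℝ) ≤ 8 / ω := by positivity
  have p3 : (0 : ℝ) ≤ 2 / (ε₁ * ω) := by positivity
  have hc0 : (0 : ℝ) ≤ c := Nat.cast_nonneg c
  have hY4 : (4 : ℝ) ≤ (Y : ℝ) ^ ε₁ := by linarith
  have hY0 : (0 : ℝ) < (Y : ℝ) ^ ε₁ := by linarith
  have key : ∀ p ∈ pr Y ε₁ 1, p.Prime ∧ (Y : ℝ) ^ ε₁ ≤ p ∧ ε₁ ≤ tt Y p ∧ tt Y p < 1 := by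
    intro p hp
    have h1 := mem_pr.1 hp
    exact ⟨h1.2.1, (le_tt_iff e2 h1.2.1.pos ε₁).1 h1.2.2.1, h1.2.2.1, h1.2.2.2⟩
  have keyS : ∀ t : S, ((t : ℕ)).Prime ∧ (Y : ℝ) ^ ε₁ ≤ ((t : ℕ) : ℝ) ∧ ε₁ ≤ tt Y t ∧ tt Y t < 1 :=
    fun t => key t (hS t.2)
  have hlt : ∀ t : S, lsz (Y : ℝ) t = tt Y t := fun t => rfl
  have h4 : ∀ t : S, (4 : ℝ) ≤ ((t : ℕ) : ℝ) := fun t => hY4.trans (keyS t).2.1
  have hμ2 : ∀ t : S, 1 / (((t : ℕ) : ℝ) - 1) ≤ 2 / (Y : ℝ) ^ ε₁ := by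
    intro t
    have := h4 t
    rw [div_le_div_iff₀ (by linarith) hY0]
    linarith [(keyS t).2.1]
  have hμ2' : ∀ t : S, 1 / (((t : ℕ) : ℝ) - 1) ≤ 2 / ((t : ℕ) : ℝ) := by
    intro t
    have := h4 t
    rw [div_le_div_iff₀ (by linarith) (by linarith)]
    linarith
  have hμ0 : ∀ t : S, 0 ≤ 1 / (((t : ℕ) : ℝ) - 1) := by
    intro t
    have := h4 t
    apply div_nonneg zero_le_one
    linarith
  exact {
    q2 := fun t => by linarith [h4 t]
    m0 := hμ0
    m1 := fun t => by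
      have := h4 t
      rw [div_le_one (by linarith)]
      linarith
    mq := fun t => by
      right
      have := h4 t
      rw [one_div, inv_mul_cancel₀]
      linarith
    l1 := fun t => (keyS t).2.2.1
    lw := fun t => (keyS t).2.2.2
    Rw := by norm_num
    w1 := le_rfl
    mer := by
      intro a b ha hab hb
      have h1 := hM a b ha hab hb
      have h2 : ∑ t ∈ univ.filter (fun t : S => a ≤ lsz (Y : ℝ) t ∧ lsz (Y : ℝ) t < b),
          1 / (((t : ℕ) : ℝ) - 1) =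
          ∑ p ∈ S.filter (fun p => a ≤ tt Y p ∧ tt Y p < b), 1 / ((p : ℝ) - 1) := by
        rw [sum_filter, sum_filter]
        exact Finset.sum_coe_sort S (fun p => if a ≤ tt Y p ∧ tt Y p < b then 1 / ((p : ℝ) - 1) else 0)
      rw [h2]
      have h3 : S.filter (fun p => a ≤ tt Y p ∧ tt Y p < b) ⊆ pr Y a b := by
        intro p hp
        rw [mem_filter] at hp
        have h5 := mem_pr.1 (hS hp.1)
        exact mem_pr.2 ⟨h5.1, h5.2.1, hp.2.1, hp.2.2⟩
      have h5 : ∑ p ∈ pr Y a b \ S.filter (fun p => a ≤ tt Y p ∧ tt Y p < b), 1 / ((p : ℝ) - 1) ≤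
          1 / 40 := by
        have h6 : pr Y a b \ S.filter (fun p => a ≤ tt Y p ∧ tt Y p < b) ⊆ pr Y ε₁ 1 \ S := by
          intro p hp
          rw [mem_sdiff] at hp ⊢
          have h7 := mem_pr.1 hp.1
          refine ⟨mem_pr.2 ⟨h7.1, h7.2.1, ha.trans h7.2.2.1, h7.2.2.2.trans_le hb⟩, fun h8 => ?_⟩
          exact hp.2 (mem_filter.2 ⟨h8, h7.2.2.1, h7.2.2.2⟩)
        calc _ ≤ ∑ p ∈ pr Y a b \ S.filter (fun p => a ≤ tt Y p ∧ tt Y p < b),
              2 / (Y : ℝ) ^ ε₁ := by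
              apply sum_le_sum
              intro p hp
              have h7 := key p (mem_sdiff.1 (h6 hp)).1
              rw [div_le_div_iff₀ (by linarith) hY0]
              linarith [h7.2.1]
          _ ≤ (c : ℝ) * (2 / (Y : ℝ) ^ ε₁) := by
              rw [sum_const, nsmul_eq_mul]
              apply mul_le_mul_of_nonneg_right _ (by positivity)
              exact_mod_cast (card_le_card h6).trans hc
          _ ≤ 1 / 40 := by
              rw [mul_div_assoc', div_le_div_iff₀ hY0 (by norm_num)]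
              linarith
      have h6 : 0 ≤ ∑ p ∈ pr Y a b \ S.filter (fun p => a ≤ tt Y p ∧ tt Y p < b),
          1 / ((p : ℝ) - 1) := by
        apply sum_nonneg
        intro p hp
        have h7 := mem_pr.1 (mem_sdiff.1 hp).1
        have h8 : (2 : ℝ) ≤ p := by exact_mod_cast h7.2.1.two_le
        apply div_nonneg zero_le_one
        linarith
      have h7 := sum_sdiff h3 (f := fun p : ℕ => 1 / ((p : ℝ) - 1))
      rw [abs_le] at h1 ⊢
      constructor <;> linarith [h1.1, h1.2]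
    sq := by
      calc ∑ t : S, (1 / (((t : ℕ) : ℝ) - 1)) ^ 2 ≤ ∑ t : S, 4 * (1 / ((t : ℕ) : ℝ) ^ 2) := by
            apply sum_le_sum
            intro t _
            have h1 := pow_le_pow_left₀ (hμ0 t) (hμ2' t) 2
            refine h1.trans (le_of_eq ?_)
            rw [div_pow]
            ring
        _ = 4 * ∑ p ∈ S, 1 / (p : ℝ) ^ 2 := by
            rw [mul_sum]
            exact Finset.sum_coe_sort S (fun p => 4 * (1 / (p : ℝ) ^ 2))
        _ ≤ 4 * (2 / (Y : ℝ) ^ ε₁) := by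
            apply mul_le_mul_of_nonneg_left _ (by norm_num)
            apply Pool.Agent.Y882.MG.tail_sq _ _ (by linarith)
            intro p hp
            exact (keyS ⟨p, hp⟩).2.1
        _ ≤ ω := by
            rw [mul_div_assoc', div_le_iff₀ hY0]
            have h1 : 8 / ω ≤ (Y : ℝ) ^ ε₁ := by linarith
            rw [div_le_iff₀ hω] at h1
            linarith
    sm := by
      intro a ha
      have h1 : (a.card : ℝ) * ε₁ ≤ 1 := by
        refine le_trans ?_ ha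
        unfold lz
        rw [← nsmul_eq_mul]
        exact card_nsmul_le_sum a _ ε₁ (fun t _ => (keyS t).2.2.1)
      calc ∑ t ∈ a, 1 / (((t : ℕ) : ℝ) - 1) ≤ ∑ _t ∈ a, 2 / (Y : ℝ) ^ ε₁ :=
            sum_le_sum fun t _ => hμ2 t
        _ = a.card * (2 / (Y : ℝ) ^ ε₁) := by rw [sum_const, nsmul_eq_mul]
        _ ≤ ω := by
            have hR2 : 2 / (ε₁ * ω) ≤ (Y : ℝ) ^ ε₁ := by linarith
            rw [div_le_iff₀ (by positivity)] at hR2
            rw [mul_div_assoc', div_le_iff₀ hY0]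
            have h3 : (a.card : ℝ) * 2 * ε₁ ≤ (ω * (Y : ℝ) ^ ε₁) * ε₁ := by
              calc (a.card : ℝ) * 2 * ε₁ = (a.card * ε₁) * 2 := by ring
                _ ≤ 1 * 2 := mul_le_mul_of_nonneg_right h1 (by norm_num)
                _ ≤ (ω * (Y : ℝ) ^ ε₁) * ε₁ := by
                  refine le_trans (by norm_num) (hR2.trans (le_of_eq ?_))
                  ring
            exact le_of_mul_le_mul_right h3 hε }

end Run7.h296
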