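import Pool.Agent.Run7.h296.En

/-!
The comparison of the two sums.
-/

set_option autoImplicit false

open Finset

namespace Run7.h296

open Pool.Agent.R498.MT Pool.Agent.H262R3.Lk Pool.Agent.W505.MH
open Pool.Agent.H318R2.Cr (Rgh V V_pos V_le_one cz_bounds)

section
variable {k Jn e b b' W D₁ : ℕ} {C₁ E D : ℝ} {A B : Fin (2 ^ k) → ℕ}

open Classical in
/-- the contribution of the prime powers -/
noncomputable def PPf (A B : Fin (2 ^ k) → ℕ) (Jn e : ℕ) (σ : ℝ) (lm l : ℕ) : ℝ :=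
  if l ∈ Ioc (l0 Jn e) lm then ∑ i : Fin (2 ^ k), (if (B i + A i * l).Prime then 0 else
    (A i : ℝ) * bj (2 ^ 2 ^ (Jn + e + 6)) 1 1 2 σ (B i + A i * l)) else 0

theorem PPf_nonneg (A B : Fin (2 ^ k) → ℕ) (Jn e : ℕ) (σ : ℝ) (lm l : ℕ) :
    0 ≤ PPf A B Jn e σ lm l := by
  unfold PPf
  split_ifs with h
  · apply sum_nonneg
    intro i _
    split_ifs
    · exact le_rfl
    · exact mul_nonneg (Nat.cast_nonneg _) (bj_nonneg _ _ _ _ _)
  · exact le_rfl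

open Classical in
theorem Ctx.pt_all (c : Ctx k Jn e b b' W D₁ C₁ E D A B) {σ : ℝ} (hσ : 0 < σ)
    (G : Finset (Fin (2 ^ k))) (m lm l : ℕ)
    (hcon : l ≤ lm → (G.filter (fun i : Fin (2 ^ k) => (B i + A i * l).Prime)).card ≤ m) :
    ∑ i ∈ G, (A i : ℝ) * bj (2 ^ 2 ^ (Jn + e + 6)) 1 1 2 σ (B i + A i * l) ≤
      m * cu (hh σ) (l0 Jn e) l + 2 ^ k * cu (hh σ) lm l + PPf A B Jn e σ lm l := by
  have h0 : ∀ i, 0 ≤ (A i : ℝ) * bj (2 ^ 2 ^ (Jn + e + 6)) 1 1 2 σ (B i + A i * l) := fun i =>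
    mul_nonneg (Nat.cast_nonneg _) (bj_nonneg _ _ _ _ _)
  have hcu := fun i => c.bj_pt i hσ l
  have hc0 := cu_nonneg (hh_nonneg σ) (l0 Jn e) l
  have hcm := cu_nonneg (hh_nonneg σ) lm l
  have hPP := PPf_nonneg A B Jn e σ lm l
  have hm0 : (0 : ℝ) ≤ m := Nat.cast_nonneg m
  have hGu : ∑ i ∈ G, (A i : ℝ) * bj (2 ^ 2 ^ (Jn + e + 6)) 1 1 2 σ (B i + A i * l) ≤
      ∑ i : Fin (2 ^ k), (A i : ℝ) * bj (2 ^ 2 ^ (Jn + e + 6)) 1 1 2 σ (B i + A i * l) :=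
    sum_le_sum_of_subset_of_nonneg (subset_univ G) fun i _ _ => h0 i
  by_cases h1 : l0 Jn e < l
  · by_cases h2 : l ≤ lm
    · have h3 : l ∈ Ioc (l0 Jn e) lm := mem_Ioc.2 ⟨h1, h2⟩
      have e1 : PPf A B Jn e σ lm l = ∑ i : Fin (2 ^ k), (if (B i + A i * l).Prime then 0 else
          (A i : ℝ) * bj (2 ^ 2 ^ (Jn + e + 6)) 1 1 2 σ (B i + A i * l)) := by
        unfold PPf
        rw [if_pos h3]
      have e2 : ∑ i ∈ G, (A i : ℝ) * bj (2 ^ 2 ^ (Jn + e + 6)) 1 1 2 σ (B i + A i * l) ≤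
          ∑ i ∈ G, ((if (B i + A i * l).Prime then cu (hh σ) (l0 Jn e) l else 0) +
            (if (B i + A i * l).Prime then 0 else
              (A i : ℝ) * bj (2 ^ 2 ^ (Jn + e + 6)) 1 1 2 σ (B i + A i * l))) := by
        apply sum_le_sum
        intro i _
        split_ifs
        · rw [add_zero]; exact hcu i
        · rw [zero_add]
      refine e2.trans ?_
      rw [sum_add_distrib]
      have e6 : ∑ i ∈ G, (if (B i + A i * l).Prime then 0 else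
          (A i : ℝ) * bj (2 ^ 2 ^ (Jn + e + 6)) 1 1 2 σ (B i + A i * l)) ≤ PPf A B Jn e σ lm l := by
        rw [e1]
        apply sum_le_sum_of_subset_of_nonneg (subset_univ G)
        intro i _ _
        split_ifs
        · exact le_rfl
        · exact h0 i
      have e3 : ∑ i ∈ G, (if (B i + A i * l).Prime then cu (hh σ) (l0 Jn e) l else 0) =
          ((G.filter (fun i : Fin (2 ^ k) => (B i + A i * l).Prime)).card : ℝ) *
            cu (hh σ) (l0 Jn e) l := by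
        rw [← sum_filter, sum_const, nsmul_eq_mul]
      rw [e3]
      have e4 : ((G.filter (fun i : Fin (2 ^ k) => (B i + A i * l).Prime)).card : ℝ) *
          cu (hh σ) (l0 Jn e) l ≤ m * cu (hh σ) (l0 Jn e) l := by
        apply mul_le_mul_of_nonneg_right _ hc0
        exact_mod_cast hcon h2
      have e5 : 0 ≤ (2 : ℝ) ^ k * cu (hh σ) lm l := by positivity
      linarith
    · have e1 : cu (hh σ) lm l = cu (hh σ) (l0 Jn e) l := by
        unfold cu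
        rw [if_pos (by omega), if_pos h1]
      have e2 : ∑ i : Fin (2 ^ k), (A i : ℝ) * bj (2 ^ 2 ^ (Jn + e + 6)) 1 1 2 σ (B i + A i * l) ≤
          2 ^ k * cu (hh σ) lm l := by
        rw [e1]
        refine (sum_le_sum fun i _ => hcu i).trans ?_
        rw [sum_const, card_univ, Fintype.card_fin, nsmul_eq_mul]
        push_cast
        exact le_rfl
      have e3 : 0 ≤ (m : ℝ) * cu (hh σ) (l0 Jn e) l := by positivity
      linarith
  · have e1 : cu (hh σ) (l0 Jn e) l = 0 := if_neg h1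
    have e2 : ∑ i : Fin (2 ^ k), (A i : ℝ) * bj (2 ^ 2 ^ (Jn + e + 6)) 1 1 2 σ (B i + A i * l) ≤
        0 := by
      apply sum_nonpos
      intro i _
      have := hcu i
      rw [e1] at this
      exact this
    have e3 : 0 ≤ (m : ℝ) * cu (hh σ) (l0 Jn e) l := by positivity
    have e4 : 0 ≤ (2 : ℝ) ^ k * cu (hh σ) lm l := by positivity
    linarith

theorem Ctx.S2_same (c : Ctx k Jn e b b' W D₁ C₁ E D A B) (i : Fin (2 ^ k)) (σ : ℝ) :
    (A i : ℝ) * S2s A B Jn e b W σ i = ∑' l,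
      ((A i : ℝ) * bj (2 ^ 2 ^ (Jn + e + 6)) 1 1 2 σ (B i + A i * l)) *
      (wt A B (PS Jn W) (rhoM b Jn) l * LL A B Jn e none l ^ 2) := by
  classical
  unfold S2s
  rw [← tsum_mul_left]
  refine tsum_congr fun l => ?_
  by_cases h : Rgh (2 ^ 2 ^ (Jn + e + 6)) (B i + A i * l)
  · rw [LL_same c i l h]
    ring
  · have : bj (2 ^ 2 ^ (Jn + e + 6)) 1 1 2 σ (B i + A i * l) = 0 := by
      unfold bj
      rw [if_neg fun h2 => h h2.1]
    rw [this]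
    ring

theorem Ctx.PP_bd (c : Ctx k Jn e b b' W D₁ C₁ E D A B) {σ : ℝ} (hσ : 0 < σ) (lm u : ℕ)
    (hu : ∀ j, B j + A j * lm ≤ (2 ^ 2 ^ (Jn + e + 6)) ^ u) :
    ∑ l ∈ Ioc (l0 Jn e) lm, PPf A B Jn e σ lm l *
      (wt A B (PS Jn W) (rhoP b Jn) l * LL A B Jn e none l ^ 2) ≤
    ((2 : ℝ) ^ k * ((2 ^ 2 ^ Jn : ℕ) : ℝ) * (2 * (u : ℝ) ^ 4 *
      (Real.log ((2 ^ 2 ^ (Jn + e + 6) : ℕ) : ℝ)) ^ 3 / ((2 ^ 2 ^ (Jn + e + 6) : ℕ) : ℝ))) *
    ((((2 ^ 2 ^ Jn) ^ (4 * b + 6) : ℕ) : ℝ) ^ 2 *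
        (Pool.Agent.R498.MT.Ab k ((1 / 2) ^ e) * 2 ^ (2 ^ k * (2 ^ (e + 6) * u))) ^ 2) := by
  classical
  have hl0 := l0_ge (e := e) c.J1
  have hul : ∀ l ∈ Ioc (l0 Jn e) lm, ∀ j, B j + A j * l ≤ (2 ^ 2 ^ (Jn + e + 6)) ^ u := by
    intro l hl j
    rw [mem_Ioc] at hl
    refine le_trans ?_ (hu j)
    have := Nat.mul_le_mul_left (A j) hl.2
    omega
  have hG := fun l (hl : l ∈ Ioc (l0 Jn e) lm) => c.G_bd l u (hul l hl) (by
    rw [mem_Ioc] at hl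
    omega)
  refine (sum_le_sum fun l hl => mul_le_mul_of_nonneg_left (hG l hl).2
    (PPf_nonneg A B Jn e σ lm l)).trans ?_
  rw [← sum_mul]
  apply mul_le_mul_of_nonneg_right _ (by positivity)
  have e1 : ∑ l ∈ Ioc (l0 Jn e) lm, PPf A B Jn e σ lm l = ∑ i : Fin (2 ^ k), (A i : ℝ) *
      ∑ l ∈ Ioc (l0 Jn e) lm, (if (B i + A i * l).Prime then 0 else
        bj (2 ^ 2 ^ (Jn + e + 6)) 1 1 2 σ (B i + A i * l)) := by
    simp_rw [mul_sum]
    rw [sum_comm]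
    refine sum_congr rfl fun l hl => ?_
    unfold PPf
    rw [if_pos hl]
    refine sum_congr rfl fun i _ => ?_
    split_ifs <;> ring
  rw [e1]
  have hX : (0 : ℝ) ≤ 2 * (u : ℝ) ^ 4 * (Real.log ((2 ^ 2 ^ (Jn + e + 6) : ℕ) : ℝ)) ^ 3 /
      ((2 ^ 2 ^ (Jn + e + 6) : ℕ) : ℝ) := by
    have := Real.log_natCast_nonneg (2 ^ 2 ^ (Jn + e + 6))
    positivity
  calc _ ≤ ∑ _i : Fin (2 ^ k), ((2 ^ 2 ^ Jn : ℕ) : ℝ) * (2 * (u : ℝ) ^ 4 *
      (Real.log ((2 ^ 2 ^ (Jn + e + 6) : ℕ) : ℝ)) ^ 3 / ((2 ^ 2 ^ (Jn + e + 6) : ℕ) : ℝ)) := by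
        apply sum_le_sum
        intro i _
        have h1 := pp_sum (Z := 2 ^ 2 ^ (Jn + e + 6)) (B := B i) (lm := lm) hσ (two_le_pp _) (c.A1 i)
          (Ioc (l0 Jn e) lm) (fun l hl => hul l hl i) (fun l hl => (mem_Ioc.1 hl).2)
        apply mul_le_mul _ h1 _ (by positivity)
        · exact_mod_cast c.AT i
        · apply sum_nonneg
          intro l _
          split_ifs
          · exact le_rfl
          · exact bj_nonneg _ _ _ _ _
    _ = _ := by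
        rw [sum_const, card_univ, Fintype.card_fin, nsmul_eq_mul]
        push_cast
        ring

open Classical in
/-- **the comparison** -/
theorem Ctx.core (c : Ctx k Jn e b b' W D₁ C₁ E D A B) {σ : ℝ} (hσ : 0 < σ) (hσ1 : σ ≤ 1)
    (G : Finset (Fin (2 ^ k))) (r m lm u : ℕ) (hlm : l0 Jn e ≤ lm)
    (hGr : (m + 1) * 2 ^ k ≤ r * G.card)
    (hS2 : ∀ i ∈ G, 2 * (r : ℝ) / 2 ^ k * (X0 A B Jn e b W σ * II k Jn e) ≤
      A i * S2s A B Jn e b W σ i)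
    (hu : ∀ j, B j + A j * lm ≤ (2 ^ 2 ^ (Jn + e + 6)) ^ u)
    (hX0 : 0 < X0 A B Jn e b W σ)
    (hT1 : 2 ^ (k + 1) * (∑' l, cu (hh σ) lm l) ≤ 1 / 2 * ∑' l, cu (hh σ) (l0 Jn e) l)
    (hT2 : ((2 : ℝ) ^ k * ((2 ^ 2 ^ Jn : ℕ) : ℝ) * (2 * (u : ℝ) ^ 4 *
      (Real.log ((2 ^ 2 ^ (Jn + e + 6) : ℕ) : ℝ)) ^ 3 / ((2 ^ 2 ^ (Jn + e + 6) : ℕ) : ℝ))) *
    ((((2 ^ 2 ^ Jn) ^ (4 * b + 6) : ℕ) : ℝ) ^ 2 *
        (Pool.Agent.R498.MT.Ab k ((1 / 2) ^ e) * 2 ^ (2 ^ k * (2 ^ (e + 6) * u))) ^ 2) ≤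
      1 / 2 * X0 A B Jn e b W σ) :
    ∃ l ≤ lm, m < (G.filter (fun i : Fin (2 ^ k) => (B i + A i * l).Prime)).card ∧
      ∀ j, ∀ p ∈ PS Jn W, ¬ p ∣ B j + A j * l := by
  by_contra hcon
  have hcon' : ∀ l ≤ lm, (∀ j, ∀ p ∈ PS Jn W, ¬ p ∣ B j + A j * l) →
      (G.filter (fun i : Fin (2 ^ k) => (B i + A i * l).Prime)).card ≤ m := by
    intro l hl hr
    by_contra h
    exact hcon ⟨l, hl, not_le.1 h, hr⟩
  have hI1 : 1 ≤ II k Jn e := one_le_pow₀ (I2_one c.dat (by positivity) (by norm_num) k)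
  have hG0 : ∀ l, 0 ≤ wt A B (PS Jn W) (rhoP b Jn) l * LL A B Jn e none l ^ 2 := fun l =>
    mul_nonneg (wt_bonf (A := A) (B := B) Jn W b l).2.1 (sq_nonneg _)
  -- the upper bound
  have hs1 := summ_w (A := A) (B := B) (cu_summable (hh_summable hσ) (l0 Jn e)) (PS Jn W)
    (rhoP b Jn) Jn e none
  have hs2 := summ_w (A := A) (B := B) (cu_summable (hh_summable hσ) lm) (PS Jn W)
    (rhoP b Jn) Jn e none
  have hsPP : Summable (PPf A B Jn e σ lm) := by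
    apply summable_of_finite_support
    apply (Ioc (l0 Jn e) lm).finite_toSet.subset
    intro n hn
    by_contra h3
    apply hn
    unfold PPf
    rw [if_neg]
    exact h3
  have hs3 := summ_w (A := A) (B := B) hsPP (PS Jn W) (rhoP b Jn) Jn e none
  have hsi : ∀ i : Fin (2 ^ k), Summable (fun l =>
      ((A i : ℝ) * bj (2 ^ 2 ^ (Jn + e + 6)) 1 1 2 σ (B i + A i * l)) *
      (wt A B (PS Jn W) (rhoM b Jn) l * LL A B Jn e none l ^ 2)) := fun i =>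
    summ_w ((bj_summable hσ _ (c.A1 i)).mul_left _) (PS Jn W) (rhoM b Jn) Jn e none
  have htot : ∑ i ∈ G, (A i : ℝ) * S2s A B Jn e b W σ i ≤
      m * S1s A B Jn e b W σ (l0 Jn e) + 2 ^ k * S1s A B Jn e b W σ lm +
        ∑ l ∈ Ioc (l0 Jn e) lm, PPf A B Jn e σ lm l *
      (wt A B (PS Jn W) (rhoP b Jn) l * LL A B Jn e none l ^ 2) := by
    have e1 : ∑ i ∈ G, (A i : ℝ) * S2s A B Jn e b W σ i =
        ∑' l, ∑ i ∈ G, ((A i : ℝ) * bj (2 ^ 2 ^ (Jn + e + 6)) 1 1 2 σ (B i + A i * l)) *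
      (wt A B (PS Jn W) (rhoM b Jn) l * LL A B Jn e none l ^ 2) := by
      rw [Summable.tsum_finsetSum fun i _ => hsi i]
      exact sum_congr rfl fun i _ => c.S2_same i σ
    rw [e1]
    have e2 : ∑ l ∈ Ioc (l0 Jn e) lm, PPf A B Jn e σ lm l *
        (wt A B (PS Jn W) (rhoP b Jn) l * LL A B Jn e none l ^ 2) =
        ∑' l, PPf A B Jn e σ lm l *
        (wt A B (PS Jn W) (rhoP b Jn) l * LL A B Jn e none l ^ 2) := by
      symm
      apply tsum_eq_sum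
      intro l hl
      unfold PPf
      rw [if_neg hl, zero_mul]
    rw [e2]
    unfold S1s
    rw [← tsum_mul_left, ← tsum_mul_left, ← (hs1.mul_left (m : ℝ)).tsum_add (hs2.mul_left _),
      ← ((hs1.mul_left (m : ℝ)).add (hs2.mul_left _)).tsum_add hs3]
    apply Summable.tsum_le_tsum _ (summable_sum fun i _ => hsi i)
      (((hs1.mul_left (m : ℝ)).add (hs2.mul_left _)).add hs3)
    intro l
    rw [← sum_mul]
    have hb0 : 0 ≤ ∑ i ∈ G, (A i : ℝ) * bj (2 ^ 2 ^ (Jn + e + 6)) 1 1 2 σ (B i + A i * l) :=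
      sum_nonneg fun i _ => mul_nonneg (Nat.cast_nonneg _) (bj_nonneg _ _ _ _ _)
    have hR0 : 0 ≤ (m * cu (hh σ) (l0 Jn e) l + 2 ^ k * cu (hh σ) lm l + PPf A B Jn e σ lm l) := by
      have r1 := cu_nonneg (hh_nonneg σ) (l0 Jn e) l
      have r2 := cu_nonneg (hh_nonneg σ) lm l
      have r3 := PPf_nonneg A B Jn e σ lm l
      positivity
    have hsq : 0 ≤ LL A B Jn e none l ^ 2 := sq_nonneg _
    by_cases hw : 0 < wt A B (PS Jn W) (rhoM b Jn) l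
    · have hrough := (wt_bonf (A := A) (B := B) Jn W b l).2.2 hw
      have hptl := c.pt_all hσ G m lm l (fun hl => hcon' l hl hrough)
      have hMP : wt A B (PS Jn W) (rhoM b Jn) l ≤ wt A B (PS Jn W) (rhoP b Jn) l := by
        rw [wt_M]
        linarith [(wt_bonf (A := A) (B := B) Jn W b l).1]
      have h1 := mul_le_mul hptl (mul_le_mul_of_nonneg_right hMP hsq)
        (mul_nonneg hw.le hsq) hR0
      refine h1.trans (le_of_eq ?_)
      ring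
    · have h1 : (∑ i ∈ G, (A i : ℝ) * bj (2 ^ 2 ^ (Jn + e + 6)) 1 1 2 σ (B i + A i * l)) *
          (wt A B (PS Jn W) (rhoM b Jn) l * LL A B Jn e none l ^ 2) ≤ 0 := by
        apply mul_nonpos_of_nonneg_of_nonpos hb0
        exact mul_nonpos_of_nonpos_of_nonneg (not_lt.1 hw) hsq
      have h2 := mul_nonneg hR0 (hG0 l)
      refine h1.trans (h2.trans (le_of_eq ?_))
      ring
  have hPP := (c.PP_bd hσ lm u hu).trans hT2
  have hU0 := c.S1_up hσ hσ1 (l0 Jn e) le_rfl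
  have hUm := c.S1_up hσ hσ1 lm hlm
  have hlow := sum_le_sum (s := G) fun i hi => hS2 i hi
  rw [sum_const, nsmul_eq_mul] at hlow
  have hVP : 0 ≤ ∑ T' ∈ (PS Jn W).powerset, rhoP b Jn T' * ∏ p ∈ T', gg A B p :=
    c.rmP.pos.le.trans c.rmP.p1
  have e5 : 2 * ((m : ℝ) + 1) * (X0 A B Jn e b W σ * II k Jn e) ≤
      (G.card : ℝ) * (2 * (r : ℝ) / 2 ^ k * (X0 A B Jn e b W σ * II k Jn e)) := by
    have h1 : ((m : ℝ) + 1) * 2 ^ k ≤ r * G.card := by exact_mod_cast hGr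
    have h2 : 2 * ((m : ℝ) + 1) ≤ (G.card : ℝ) * (2 * (r : ℝ) / 2 ^ k) := by
      rw [mul_div_assoc', le_div_iff₀ (by positivity)]
      linarith
    have h3 : 0 ≤ X0 A B Jn e b W σ * II k Jn e := by
      have : 0 ≤ II k Jn e := by linarith
      positivity
    calc 2 * ((m : ℝ) + 1) * (X0 A B Jn e b W σ * II k Jn e) ≤
        ((G.card : ℝ) * (2 * (r : ℝ) / 2 ^ k)) * (X0 A B Jn e b W σ * II k Jn e) :=
          mul_le_mul_of_nonneg_right h2 h3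
      _ = _ := by ring
  replace hlow := e5.trans hlow
  have hT1' := mul_le_mul_of_nonneg_right hT1 hVP
  have eX : X0 A B Jn e b W σ = (∑' l, cu (hh σ) (l0 Jn e) l) *
    ∑ T' ∈ (PS Jn W).powerset, rhoP b Jn T' * ∏ p ∈ T', gg A B p := rfl
  rw [← eX] at hU0
  have e6 : 1 / 2 * (∑' l, cu (hh σ) (l0 Jn e) l) *
      ∑ T' ∈ (PS Jn W).powerset, rhoP b Jn T' * ∏ p ∈ T', gg A B p =
      1 / 2 * X0 A B Jn e b W σ := by rw [eX]; ring
  rw [e6] at hT1'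
  have h2k : (0 : ℝ) ≤ 2 ^ k := by positivity
  have hUm' : 2 ^ k * S1s A B Jn e b W σ lm ≤ 1 / 2 * X0 A B Jn e b W σ * II k Jn e := by
    have h1 := mul_le_mul_of_nonneg_left hUm h2k
    refine h1.trans ?_
    have h2 := mul_le_mul_of_nonneg_right hT1' (show 0 ≤ II k Jn e by linarith)
    refine le_trans (le_of_eq ?_) h2
    rw [pow_succ]
    ring
  have hm0 : (0 : ℝ) ≤ m := Nat.cast_nonneg m
  have hU0' := mul_le_mul_of_nonneg_left hU0 hm0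
  have hXI : X0 A B Jn e b W σ ≤ X0 A B Jn e b W σ * II k Jn e :=
    le_mul_of_one_le_right hX0.le hI1
  have e7 : (m : ℝ) * (2 * X0 A B Jn e b W σ * II k Jn e) =
      2 * m * (X0 A B Jn e b W σ * II k Jn e) := by ring
  have e8 : 2 * ((m : ℝ) + 1) * (X0 A B Jn e b W σ * II k Jn e) =
      2 * m * (X0 A B Jn e b W σ * II k Jn e) + 2 * (X0 A B Jn e b W σ * II k Jn e) := by ring
  have e9 : 1 / 2 * X0 A B Jn e b W σ * II k Jn e = 1 / 2 * (X0 A B Jn e b W σ * II k Jn e) := by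
    ring
  rw [e7] at hU0'
  rw [e8] at hlow
  rw [e9] at hUm'
  linarith

end

end Run7.h296
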