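import Pool.Agent.Run7.h296.So

/-!
Prime powers and the pointwise facts.
-/

set_option autoImplicit false

open Finset

namespace Run7.h296

open Pool.Agent.R498.MT Pool.Agent.H262R3.Lk Pool.Agent.W505.MH
open Pool.Agent.H318R2.Cr (Rgh V V_pos V_le_one cz_bounds)

theorem aj_le_fn (Z q b : ℕ) (σ : ℝ) (n : ℕ) : aj Z q b 3 σ n ≤ fn 3 σ n := by
  unfold aj
  split_ifs
  · exact le_rfl
  · exact fn_nonneg 3 σ n

theorem sum_le_sum_fiberwise_aux {α : Type} (s : Finset α) (f : α → ℕ)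
    (h : ∀ x ∈ s, (0 : ℝ) ≤ 1 / ((f x : ℕ) : ℝ)) :
    ∑ m ∈ s.image f, 1 / (m : ℝ) ≤ ∑ x ∈ s, 1 / ((f x : ℕ) : ℝ) := by
  classical
  rw [← sum_fiberwise_of_maps_to (s := s) (t := s.image f) (g := f)
    (fun x hx => mem_image_of_mem f hx)]
  apply sum_le_sum
  intro m hm
  obtain ⟨x, hx, rfl⟩ := mem_image.1 hm
  exact single_le_sum (f := fun y => 1 / ((f y : ℕ) : ℝ))
    (fun y hy => h y (mem_filter.1 hy).1) (mem_filter.2 ⟨hx, rfl⟩)

/-- a proper prime power without small prime factor -/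
theorem pp_shape {Z m u : ℕ} (hZ : 2 ≤ Z) (hr : Rgh Z m) (hpp : IsPrimePow m) (hnp : ¬ m.Prime)
    (hm : m ≤ Z ^ u) : ∃ p ν : ℕ, p ∈ Ioc Z (Z ^ u) ∧ ν ∈ Icc 2 u ∧ p ^ ν = m := by
  obtain ⟨p, ν, hp, hν, rfl⟩ := (isPrimePow_nat_iff m).1 hpp
  have hpZ : Z < p := by
    by_contra h
    exact hr p hp (by omega) (dvd_pow_self p (by omega))
  have hν2 : 2 ≤ ν := by
    by_contra h
    have : ν = 1 := by omega
    rw [this, pow_one] at hnp
    exact hnp hp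
  have hpν : p ≤ p ^ ν := Nat.le_self_pow (by omega) p
  refine ⟨p, ν, mem_Ioc.2 ⟨hpZ, hpν.trans hm⟩, mem_Icc.2 ⟨hν2, ?_⟩, rfl⟩
  have h1 : Z ^ ν ≤ Z ^ u := (Nat.pow_le_pow_left hpZ.le ν).trans hm
  exact (Nat.pow_le_pow_iff_right (by omega)).1 h1

open Classical in
theorem pp_sum {Z A B u lm : ℕ} {σ : ℝ} (hσ : 0 < σ) (hZ : 2 ≤ Z) (hA : 1 ≤ A) (S : Finset ℕ)
    (hS : ∀ l ∈ S, B + A * l ≤ Z ^ u) (hS1 : ∀ l ∈ S, l ≤ lm) :
    ∑ l ∈ S, (if (B + A * l).Prime then 0 else bj Z 1 1 2 σ (B + A * l)) ≤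
      2 * (u : ℝ) ^ 4 * (Real.log Z) ^ 3 / Z := by
  have hZ0 : (0 : ℝ) < Z := by exact_mod_cast (by omega : 0 < Z)
  have hlZ : 0 ≤ Real.log Z := Real.log_natCast_nonneg Z
  set F := S.filter (fun l => ¬ (B + A * l).Prime ∧ bj Z 1 1 2 σ (B + A * l) ≠ 0) with hF
  have hshape : ∀ l ∈ F, ∃ p ν : ℕ, p ∈ Ioc Z (Z ^ u) ∧ ν ∈ Icc 2 u ∧ p ^ ν = B + A * l := by
    intro l hl
    rw [hF, mem_filter] at hl
    obtain ⟨h1, h2, h3⟩ := hl
    unfold bj at h3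
    have h4 : Rgh Z (B + A * l) := by
      by_contra h
      exact h3 (if_neg fun h5 => h h5.1)
    rw [if_pos ⟨h4, Nat.modEq_one⟩] at h3
    have h5 : ArithmeticFunction.vonMangoldt (B + A * l) ≠ 0 := left_ne_zero_of_mul h3
    exact pp_shape hZ h4 (ArithmeticFunction.vonMangoldt_ne_zero_iff.1 h5) h2 (hS l h1)
  have h1 : ∑ l ∈ S, (if (B + A * l).Prime then 0 else bj Z 1 1 2 σ (B + A * l)) =
      ∑ l ∈ F, bj Z 1 1 2 σ (B + A * l) := by
    rw [hF, sum_filter]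
    refine sum_congr rfl fun l _ => ?_
    by_cases h : (B + A * l).Prime
    · rw [if_pos h, if_neg fun h2 => h2.1 h]
    · by_cases h2 : bj Z 1 1 2 σ (B + A * l) = 0
      · rw [if_neg h, if_neg fun h3 => h3.2 h2, h2]
      · rw [if_neg h, if_pos ⟨h, h2⟩]
  rw [h1]
  have h2 : ∀ l ∈ F, bj Z 1 1 2 σ (B + A * l) ≤
      ((u : ℝ) * Real.log Z) ^ 3 * (1 / ((B + A * l : ℕ) : ℝ)) := by
    intro l hl
    obtain ⟨p, ν, hp, hν, hpν⟩ := hshape l hl
    rw [mem_Ioc] at hp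
    have hm1 : 1 ≤ B + A * l := by
      rw [← hpν]
      exact Nat.one_le_pow _ _ (by omega)
    have hm0 : (1 : ℝ) ≤ ((B + A * l : ℕ) : ℝ) := by exact_mod_cast hm1
    refine ((bj_le_aj _ _ _ _ _).trans (aj_le_fn _ _ _ _ _)).trans ?_
    unfold fn
    rw [mul_one_div]
    apply div_le_div₀ (by positivity) _ (by linarith)
    · calc ((B + A * l : ℕ) : ℝ) = ((B + A * l : ℕ) : ℝ) ^ (1 : ℝ) := (Real.rpow_one _).symm
        _ ≤ ((B + A * l : ℕ) : ℝ) ^ (1 + σ) :=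
          Real.rpow_le_rpow_of_exponent_le hm0 (by linarith)
    · apply pow_le_pow_left₀ (Real.log_natCast_nonneg _)
      rw [← Real.log_pow]
      apply Real.log_le_log (by linarith)
      exact_mod_cast hS l (mem_filter.1 hl).1
  refine (sum_le_sum h2).trans ?_
  rw [← mul_sum]
  have h3 : ∑ l ∈ F, 1 / ((B + A * l : ℕ) : ℝ) ≤ (u : ℝ) * (2 / Z) := by
    have e1 : ∑ l ∈ F, 1 / ((B + A * l : ℕ) : ℝ) =
        ∑ m ∈ F.image (fun l => B + A * l), 1 / (m : ℝ) := by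
      rw [sum_image]
      intro x _ y _ hxy
      exact inj_form hA hxy
    rw [e1]
    have e2 : F.image (fun l => B + A * l) ⊆
        ((Ioc Z (Z ^ u)) ×ˢ (Icc 2 u)).image (fun x : ℕ × ℕ => x.1 ^ x.2) := by
      intro m hm
      rw [mem_image] at hm
      obtain ⟨l, hl, rfl⟩ := hm
      obtain ⟨p, ν, hp, hν, hpν⟩ := hshape l hl
      rw [mem_image]
      exact ⟨(p, ν), mem_product.2 ⟨hp, hν⟩, hpν⟩
    calc ∑ m ∈ F.image (fun l => B + A * l), 1 / (m : ℝ) ≤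
        ∑ m ∈ ((Ioc Z (Z ^ u)) ×ˢ (Icc 2 u)).image (fun x : ℕ × ℕ => x.1 ^ x.2), 1 / (m : ℝ) :=
          sum_le_sum_of_subset_of_nonneg e2 fun m _ _ => by positivity
      _ ≤ ∑ x ∈ (Ioc Z (Z ^ u)) ×ˢ (Icc 2 u), 1 / ((x.1 ^ x.2 : ℕ) : ℝ) := by
          refine sum_le_sum_fiberwise_aux _ _ ?_
          intro x _
          positivity
      _ ≤ ∑ x ∈ (Ioc Z (Z ^ u)) ×ˢ (Icc 2 u), 1 / (x.1 : ℝ) ^ 2 := by
          apply sum_le_sum
          intro x hx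
          rw [mem_product, mem_Ioc, mem_Icc] at hx
          have hx1 : (1 : ℝ) ≤ x.1 := by exact_mod_cast (by omega : 1 ≤ x.1)
          push_cast
          apply one_div_le_one_div_of_le (by positivity)
          exact pow_le_pow_right₀ hx1 hx.2.1
      _ = ((Icc 2 u).card : ℝ) * ∑ p ∈ Ioc Z (Z ^ u), 1 / (p : ℝ) ^ 2 := by
          rw [sum_product]
          simp only [sum_const, nsmul_eq_mul]
          rw [← mul_sum]
      _ ≤ (u : ℝ) * (2 / Z) := by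
          apply mul_le_mul _ _ (sum_nonneg fun p _ => by positivity) (Nat.cast_nonneg u)
          · rw [Nat.card_Icc]
            exact_mod_cast (by omega : u + 1 - 2 ≤ u)
          · apply Pool.Agent.Y882.MG.tail_sq _ _ (by exact_mod_cast hZ)
            intro q hq
            rw [mem_Ioc] at hq
            exact_mod_cast hq.1.le
  calc ((u : ℝ) * Real.log Z) ^ 3 * ∑ l ∈ F, 1 / ((B + A * l : ℕ) : ℝ) ≤
      ((u : ℝ) * Real.log Z) ^ 3 * ((u : ℝ) * (2 / Z)) :=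
        mul_le_mul_of_nonneg_left h3 (by positivity)
    _ = _ := by ring

section
variable {k Jn e b b' W D₁ : ℕ} {C₁ E D : ℝ} {A B : Fin (2 ^ k) → ℕ}

theorem Ctx.colr_card (c : Ctx k Jn e b b' W D₁ C₁ E D A B) (l u : ℕ)
    (hm : ∀ j, B j + A j * l ≤ (2 ^ 2 ^ (Jn + e + 6)) ^ u) (hl : 1 ≤ l) :
    (univ.filter (fun t : SS Jn e => colr A B (t : ℕ) l ≠ none)).card ≤
      2 ^ k * (2 ^ (e + 6) * u) := by
  classical
  have h4 := four_le_T c.J1
  have h1 : univ.filter (fun t : SS Jn e => colr A B (t : ℕ) l ≠ none) ⊆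
      (univ : Finset (Fin (2 ^ k))).biUnion
        (fun j => univ.filter (fun t : SS Jn e => (t : ℕ) ∣ B j + A j * l)) := by
    intro t ht
    rw [mem_filter] at ht
    obtain ⟨j, hj⟩ := Option.ne_none_iff_exists'.1 ht.2
    rw [mem_biUnion]
    exact ⟨j, mem_univ _, mem_filter.2 ⟨mem_univ _, (colr_some (c.ok t t.2) l j).1 hj⟩⟩
  refine (card_le_card h1).trans (card_biUnion_le.trans ?_)
  calc ∑ j : Fin (2 ^ k), (univ.filter (fun t : SS Jn e => (t : ℕ) ∣ B j + A j * l)).card ≤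
      ∑ _j : Fin (2 ^ k), 2 ^ (e + 6) * u := by
        apply sum_le_sum
        intro j _
        set G := univ.filter (fun t : SS Jn e => (t : ℕ) ∣ B j + A j * l) with hG
        have hA := c.A1 j
        have hm0 : 0 < B j + A j * l := by
          have := Nat.mul_pos hA hl
          omega
        have h2 : (2 ^ 2 ^ Jn) ^ G.card ≤ B j + A j * l := by
          have h3 : ∏ t ∈ G, (t : ℕ) ∣ B j + A j * l := by
            apply Finset.prod_dvd_of_isRelPrime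
            · intro s _ t _ hst
              exact Nat.coprime_iff_isRelPrime.1 ((Nat.coprime_primes (mem_SS.1 s.2).1
                (mem_SS.1 t.2).1).2 (fun h => hst (Subtype.ext h)))
            · intro t ht
              exact (mem_filter.1 ht).2
          refine le_trans ?_ (Nat.le_of_dvd hm0 h3)
          rw [← prod_const]
          exact prod_le_prod' fun t _ => (mem_SS.1 t.2).2.1
        have h5 : (2 ^ 2 ^ Jn) ^ G.card ≤ (2 ^ 2 ^ Jn) ^ (2 ^ (e + 6) * u) := by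
          refine (h2.trans (hm j)).trans (le_of_eq ?_)
          rw [show Jn + e + 6 = Jn + (e + 6) by ring, pow_add 2 Jn (e + 6), pow_mul, ← pow_mul]
        exact (Nat.pow_le_pow_iff_right (by omega)).1 h5
    _ = 2 ^ k * (2 ^ (e + 6) * u) := by
        rw [sum_const, card_univ, Fintype.card_fin, smul_eq_mul]

theorem Ctx.G_bd (c : Ctx k Jn e b b' W D₁ C₁ E D A B) (l u : ℕ)
    (hm : ∀ j, B j + A j * l ≤ (2 ^ 2 ^ (Jn + e + 6)) ^ u) (hl : 1 ≤ l) :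
    0 ≤ wt A B (PS Jn W) (rhoP b Jn) l * LL A B Jn e none l ^ 2 ∧
    wt A B (PS Jn W) (rhoP b Jn) l * LL A B Jn e none l ^ 2 ≤
      (((2 ^ 2 ^ Jn) ^ (4 * b + 6) : ℕ) : ℝ) ^ 2 *
        (Pool.Agent.R498.MT.Ab k ((1 / 2) ^ e) * 2 ^ (2 ^ k * (2 ^ (e + 6) * u))) ^ 2 := by
  have h1 := (wt_bonf (A := A) (B := B) Jn W b l).2.1
  refine ⟨mul_nonneg h1 (sq_nonneg _), ?_⟩
  have h2 : wt A B (PS Jn W) (rhoP b Jn) l ≤ (((2 ^ 2 ^ Jn) ^ (4 * b + 6) : ℕ) : ℝ) ^ 2 := by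
    refine (le_abs_self _).trans ((wt_abs _ _ _).trans ?_)
    have h3 := R1_bound (P := PS Jn W) (fun p hp => (mem_PS.1 hp).1) (fun _ => 1)
      (fun p hp => ⟨zero_le_one, by exact_mod_cast (mem_PS.1 hp).1.one_lt.le⟩) (rhoP b Jn) 1
      zero_le_one (fun T _ => rhoP_abs b Jn T) _ c.adP.a2
    simp only [prod_const_one, mul_one, one_mul] at h3
    exact h3
  have h3 := Lam_fin k C₁ (1 / 2) (by norm_num) ((1 / 2) ^ e) (by positivity) 1 c.hε1 _ _ _ _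
    c.dat (fun t : SS Jn e => colr A B t l) _ (c.colr_card l u hm hl)
  exact mul_le_mul h2 h3 (sq_nonneg _) (by positivity)

theorem LL_same (c : Ctx k Jn e b b' W D₁ C₁ E D A B) (i : Fin (2 ^ k)) (l : ℕ)
    (h : Rgh (2 ^ 2 ^ (Jn + e + 6)) (B i + A i * l)) :
    LL A B Jn e none l = LL A B Jn e (some i) l := by
  unfold LL
  apply Lam_slot _ _ (lsz ((2 ^ 2 ^ (Jn + e) : ℕ) : ℝ)) (1 / 2) (yS k Jn e)
    (fun σ hσ => (yS_facts k Jn e σ).2.2 hσ) (fun t => lsz_nonneg (Y_one _) t) i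
  intro t ht
  exfalso
  have h1 := (colr_some (c.ok t t.2) l i).1 ht
  have h2 := mem_SS.1 t.2
  refine h t h2.1 (h2.2.2.le.trans ?_) h1
  exact Nat.pow_le_pow_right (by norm_num) (Nat.pow_le_pow_right (by norm_num) (by omega))

theorem Ctx.bj_pt (c : Ctx k Jn e b b' W D₁ C₁ E D A B) (i : Fin (2 ^ k)) {σ : ℝ} (hσ : 0 < σ)
    (l : ℕ) : (A i : ℝ) * bj (2 ^ 2 ^ (Jn + e + 6)) 1 1 2 σ (B i + A i * l) ≤
      cu (hh σ) (l0 Jn e) l := by
  have hA := c.A1 i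
  by_cases hl : l0 Jn e < l
  · unfold cu
    rw [if_pos hl]
    have h2 := (c.AT i).trans (TY Jn e)
    have h3 : 2 ^ 2 ^ (Jn + e) ≤ l0 Jn e := Nat.le_self_pow (by norm_num) _
    refine le_trans ?_ (hh_ge hσ hA (c.BA i) (by omega))
    apply mul_le_mul_of_nonneg_left _ (Nat.cast_nonneg _)
    exact (bj_le_aj _ _ _ _ _).trans (aj_le_fn _ _ _ _ _)
  · have h1 : bj (2 ^ 2 ^ (Jn + e + 6)) 1 1 2 σ (B i + A i * l) = 0 := by
      have h2 := bj_le_aj (2 ^ 2 ^ (Jn + e + 6)) 1 1 σ (B i + A i * l)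
      have h3 := bj_nonneg (2 ^ 2 ^ (Jn + e + 6)) 1 1 σ (B i + A i * l)
      have h4 : aj (2 ^ 2 ^ (Jn + e + 6)) 1 1 3 σ (B i + A i * l) = 0 := by
        unfold aj
        rw [if_neg]
        rintro ⟨h1, h2, h3⟩
        have h4 : B i + A i * l ≤ 2 ^ 2 ^ (Jn + e + 6) := by
          have := Nat.mul_le_mul_left (A i) (not_lt.1 hl)
          have := c.mZ i
          omega
        exact not_rgh h3 h4 h1
      linarith
    rw [h1, mul_zero]
    exact cu_nonneg (hh_nonneg σ) _ l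

end

end Run7.h296
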