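import Pool.Agent.Run7.h296.Base

/-!
The exceptional modulus.
-/

set_option autoImplicit false

open Finset

namespace Run7.h296

open Pool.Agent.H262R3.Lk Pool.Agent.W69.MH Pool.Agent.W215.MH

theorem fac_of_sq {q : ℕ} [NeZero q] (χ : DirichletCharacter ℂ q) (h2 : χ ^ 2 = 1) {d : ℕ}
    (hd : d ∣ q) (hsq : ∀ x : ℤ, ∃ v : ZMod q, v ^ 2 = 1 + ((d : ℤ) * x : ℤ)) :
    χ.FactorsThrough d := by
  rw [DirichletCharacter.factorsThrough_iff_ker_unitsMap hd]
  intro u hu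
  rw [MonoidHom.mem_ker] at hu ⊢
  have hd0 : NeZero d := ⟨fun h => by
    rw [h] at hd
    exact (NeZero.ne q) (Nat.eq_zero_of_zero_dvd hd)⟩
  have h3 : (((u : ZMod q).val : ℕ) : ZMod d) = 1 := by
    have h4 := congrArg Units.val hu
    rw [Units.val_one] at h4
    rw [← h4]
    rw [ZMod.unitsMap_def, Units.coe_map]
    show _ = (ZMod.castHom hd (ZMod d)) (u : ZMod q)
    rw [ZMod.castHom_apply, ZMod.natCast_val]
  have h5 : ((((u : ZMod q).val : ℤ) - 1 : ℤ) : ZMod d) = 0 := by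
    push_cast
    rw [h3, sub_self]
  rw [ZMod.intCast_zmod_eq_zero_iff_dvd] at h5
  obtain ⟨x, hx⟩ := h5
  obtain ⟨v, hv⟩ := hsq x
  have h6 : (u : ZMod q) = v ^ 2 := by
    rw [hv]
    have h7 : (((u : ZMod q).val : ℤ) : ZMod q) = ((1 + (d : ℤ) * x : ℤ) : ZMod q) := by
      congr 1
      linarith
    have h8 : (((u : ZMod q).val : ℤ) : ZMod q) = (u : ZMod q) := by
      push_cast
      rw [ZMod.natCast_val, ZMod.cast_id', id]
    rw [h8] at h7
    rw [h7]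
    push_cast
    ring
  have h9 : IsUnit v := by
    have : IsUnit (v ^ 2) := by rw [← h6]; exact u.isUnit
    exact (isUnit_pow_iff (by norm_num)).1 this
  have h10 : χ (u : ZMod q) = 1 := by
    rw [h6, map_pow]
    have h11 : (χ ^ 2) v = 1 := by
      rw [h2]
      exact MulChar.one_apply h9
    rw [← h11]
    rw [MulChar.pow_apply' _ (by norm_num)]
  apply Units.ext
  rw [Units.val_one, ← h10]
  exact MulChar.coe_toUnitHom χ u

theorem prim_contra {q : ℕ} [NeZero q] (χ : DirichletCharacter ℂ q) (hp : χ.IsPrimitive) {d : ℕ}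
    (hd : d < q) (h : χ.FactorsThrough d) : False := by
  have h1 : χ.conductor ≤ d := Nat.sInf_le h
  rw [DirichletCharacter.isPrimitive_def] at hp
  omega

theorem prim_sqf {q : ℕ} [NeZero q] (χ : DirichletCharacter ℂ q) (hp : χ.IsPrimitive)
    (h2 : χ ^ 2 = 1) : (∀ p : ℕ, p.Prime → p ≠ 2 → ¬ p ^ 2 ∣ q) ∧ ¬ 16 ∣ q := by
  have hq0 : q ≠ 0 := NeZero.ne q
  constructor
  · rintro p hpp hp2 ⟨c, hc⟩
    have hd : p * c ∣ q := ⟨p, by rw [hc]; ring⟩
    have hlt : p * c < q := by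
      have hc0 : 0 < c := Nat.pos_of_ne_zero fun h => hq0 (by rw [hc, h, mul_zero])
      rw [hc]
      have := hpp.one_lt
      nlinarith [Nat.mul_pos hpp.pos hc0]
    apply prim_contra χ hp hlt
    apply fac_of_sq χ h2 hd
    intro x
    -- solve `2 y = x` mod `p`
    have hodd : Odd p := hpp.odd_of_ne_two hp2
    obtain ⟨m, hm⟩ := hodd
    -- y = x * (m + 1): 2 y = x (2 m + 2) = x p + x
    refine ⟨((1 + ((p * c : ℕ) : ℤ) * (x * (m + 1)) : ℤ) : ZMod q), ?_⟩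
    have h3 : ((1 + ((p * c : ℕ) : ℤ) * (x * (m + 1)) : ℤ)) ^ 2 =
        1 + ((p * c : ℕ) : ℤ) * x + (q : ℤ) * (x + c * (x * (m + 1)) ^ 2) := by
      have e1 : (q : ℤ) = (p : ℤ) ^ 2 * c := by rw [hc]; push_cast; ring
      have e2 : (p : ℤ) = 2 * m + 1 := by rw [hm]; push_cast; ring
      rw [e1]
      push_cast
      rw [e2]
      ring
    have h4 := congrArg (fun z : ℤ => (z : ZMod q)) h3
    push_cast at h4 ⊢
    rw [h4]
    simp
  · rintro ⟨c, hc⟩
    have hd : 8 * c ∣ q := ⟨2, by rw [hc]; ring⟩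
    have hlt : 8 * c < q := by
      have hc0 : 0 < c := Nat.pos_of_ne_zero fun h => hq0 (by rw [hc, h])
      omega
    apply prim_contra χ hp hlt
    apply fac_of_sq χ h2 hd
    intro x
    refine ⟨((1 + ((4 * c : ℕ) : ℤ) * x : ℤ) : ZMod q), ?_⟩
    have h3 : ((1 + ((4 * c : ℕ) : ℤ) * x : ℤ)) ^ 2 =
        1 + ((8 * c : ℕ) : ℤ) * x + (q : ℤ) * (c * x ^ 2) := by
      have e1 : (q : ℤ) = 16 * c := by rw [hc]; push_cast; ring
      rw [e1]
      push_cast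
      ring
    have h4 := congrArg (fun z : ℤ => (z : ZMod q)) h3
    push_cast at h4 ⊢
    rw [h4]
    simp

/-- existence of an exceptional character -/
def ExP (A lam : ℝ) (z q₀ : ℕ) : Prop := ∃ χ₀ : DirichletCharacter ℂ q₀, 0 < q₀ ∧ q₀ ^ 16 ≤ z ∧
  χ₀ ≠ 1 ∧ χ₀ ^ 2 = 1 ∧ χ₀.IsPrimitive ∧ ‖Lj z χ₀ 0 (1 / (A * Real.log z))‖ < lam

open Classical in
/-- the exceptional modulus -/
noncomputable def exq (A lam : ℝ) (z : ℕ) : ℕ :=
  if h : ∃ q₀, ExP A lam z q₀ then h.choose else (Nat.exists_infinite_primes (z + 2)).choose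

theorem page_fn : ∃ c4 D0 : ℝ, 0 < c4 ∧ 1 < D0 ∧ ∀ D : ℝ, D0 ≤ D → ∃ q₁ : ℕ → ℕ,
    (∀ B : ℕ, ∃ z0 : ℕ, ∀ z : ℕ, z0 ≤ z → (Real.log z) ^ B < (q₁ z : ℝ)) ∧
    (∀ z, 1 ≤ q₁ z ∧ (∀ p : ℕ, p.Prime → p ≠ 2 → ¬ p ^ 2 ∣ q₁ z) ∧ ¬ 16 ∣ q₁ z) ∧
    ∀ z q b : ℕ, 32 ≤ z → 0 < q → q ^ 16 ≤ z → ¬ q₁ z ∣ q → b.Coprime q →
      c4 / 2 * D ^ 12 * (Real.log z) ^ 3 / q.totient ≤ Bj z q b 2 (1 / (D ^ 4 * Real.log z)) := by
  have hSUM := Pool.Agent.W933.MHSum.sum_
  have hFL := Pool.Agent.W333.MH.fl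
  obtain ⟨c4, D0, hc4, hD0, hLIN⟩ := linD hSUM (Pool.Agent.W505.MH.diff hFL hSUM)
    (Pool.Agent.W505.MH.a0 hFL hSUM) (Pool.Agent.H262R3.Lk.b0 Pool.Agent.W505.MH.bt hSUM)
    (Pool.Agent.W440.MH.b2 hSUM) (Pool.Agent.H262R3.Lk.alg hSUM) Pool.Agent.W215.MH.eul
    (Pool.Agent.W193.MH.Cls.cls hSUM) Pool.Agent.W701.MH.abs_
  refine ⟨c4, D0, hc4, hD0, fun D hD => ?_⟩
  obtain ⟨lam, hlam, hlam2, h1⟩ := hLIN D hD
  have hD1 : 1 < D := lt_of_lt_of_le hD0 hD
  have hA1 : 1 ≤ D ^ 4 := one_le_pow₀ hD1.le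
  have hprime := fun z : ℕ => (Nat.exists_infinite_primes (z + 2)).choose_spec
  have hspec : ∀ z, (∃ q₀, ExP (D ^ 4) lam z q₀) → ExP (D ^ 4) lam z (exq (D ^ 4) lam z) := by
    intro z h
    unfold exq
    rw [dif_pos h]
    exact h.choose_spec
  have hnon : ∀ z, (¬ ∃ q₀, ExP (D ^ 4) lam z q₀) →
      z + 2 ≤ exq (D ^ 4) lam z ∧ (exq (D ^ 4) lam z).Prime := by
    intro z h
    unfold exq
    rw [dif_neg h]
    exact hprime z
  refine ⟨exq (D ^ 4) lam, ?_, ?_, ?_⟩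
  · intro B
    obtain ⟨z3, h3⟩ := Pool.Agent.H262R3.Lk.swq B
    obtain ⟨z5, h5ev⟩ := Filter.eventually_atTop.1 (show ∀ᶠ z : ℕ in Filter.atTop,
        (Real.log z) ^ B < (z : ℝ) + 2 by
      have e2 := (Real.isLittleO_pow_log_id_atTop (n := B)).comp_tendsto
        (tendsto_natCast_atTop_atTop (R := ℝ))
      have e3 := e2.bound (show (0 : ℝ) < 1 by norm_num)
      filter_upwards [e3] with z hz
      simp only [Function.comp_apply, id, one_mul] at hz
      have e4 : Real.log (z : ℝ) ^ B ≤ ‖Real.log (z : ℝ) ^ B‖ := Real.le_norm_self _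
      have e5 : ‖(z : ℝ)‖ = z := by simp
      rw [e5] at hz
      linarith)
    refine ⟨max (max z3 z5) 32, fun z hz => ?_⟩
    simp only [max_le_iff] at hz
    obtain ⟨⟨hz3, hz5⟩, hz32⟩ := hz
    have hlog := Pool.Agent.W505.MH.log_ge_one hz32
    have hAlog : (1 : ℝ) ≤ D ^ 4 * Real.log z := one_le_mul_of_one_le_of_one_le hA1 hlog
    have hs0 : (0 : ℝ) < 1 / (D ^ 4 * Real.log z) := by positivity
    have hs1 : 1 / (D ^ 4 * Real.log z) ≤ (1 : ℝ) := by
      rw [div_le_one (by linarith)]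
      exact hAlog
    by_cases hex : ∃ q₀, ExP (D ^ 4) lam z q₀
    · obtain ⟨q₀, hq₀d⟩ : ∃ q, q = exq (D ^ 4) lam z := ⟨_, rfl⟩
      have hsp := hspec z hex
      rw [← hq₀d] at hsp ⊢
      obtain ⟨χ₀, hq₀, hq₀z, hχ₀, hχ₀2, hprim, hL₀⟩ := hsp
      have : NeZero q₀ := ⟨hq₀.ne'⟩
      by_contra hcon
      push Not at hcon
      have hq1 : 1 < q₀ := by
        have : q₀ ≠ 1 := fun h => hχ₀ (by
          rw [χ₀.eq_one_iff_conductor_eq_one, (DirichletCharacter.isPrimitive_def χ₀).1 hprim, h])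
        omega
      have g1 := h3 z hz3 q₀ hq1 hcon χ₀ hprim _ hs0 hs1
      linarith
    · have h4 := (hnon z hex).1
      have h5 : (z : ℝ) + 2 ≤ (exq (D ^ 4) lam z : ℝ) := by exact_mod_cast h4
      linarith [h5ev z hz5]
  · intro z
    by_cases hex : ∃ q₀, ExP (D ^ 4) lam z q₀
    · obtain ⟨q₀, hq₀d⟩ : ∃ q, q = exq (D ^ 4) lam z := ⟨_, rfl⟩
      have hsp := hspec z hex
      rw [← hq₀d] at hsp ⊢
      obtain ⟨χ₀, hq₀, hq₀z, hχ₀, hχ₀2, hprim, hL₀⟩ := hsp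
      have : NeZero q₀ := ⟨hq₀.ne'⟩
      exact ⟨hq₀, prim_sqf χ₀ hprim hχ₀2⟩
    · obtain ⟨h4, h5⟩ := hnon z hex
      refine ⟨h5.one_lt.le, fun p hp _ h6 => ?_, fun h6 => ?_⟩
      · have h7 : p ∣ exq (D ^ 4) lam z := (dvd_pow_self p (by norm_num)).trans h6
        rw [Nat.prime_dvd_prime_iff_eq hp h5] at h7
        rw [← h7] at h6
        have := Nat.le_of_dvd hp.pos h6
        have := hp.one_lt
        nlinarith
      · have h7 : 2 ∣ exq (D ^ 4) lam z := (by norm_num : 2 ∣ 16).trans h6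
        rw [Nat.prime_dvd_prime_iff_eq Nat.prime_two h5] at h7
        rw [← h7] at h6
        norm_num at h6
  · intro z q b hz32 hq hqz hndvd hb
    have hlog := Pool.Agent.W505.MH.log_ge_one hz32
    have hAlog : (1 : ℝ) ≤ D ^ 4 * Real.log z := one_le_mul_of_one_le_of_one_le hA1 hlog
    haveI : NeZero q := ⟨hq.ne'⟩
    have h8 : ∀ q : ℕ, 0 < q → q ^ 16 ≤ z → q ^ 8 ≤ z := fun q hq h =>
      (Nat.pow_le_pow_right hq (by norm_num)).trans h
    refine (h1 z q hz32 (h8 q hq hqz)).1 b hb ?_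
    intro χ hχ hχ2
    by_contra hcon
    push Not at hcon
    -- the primitive character
    have hc0 : χ.conductor ≠ 0 := χ.conductor_ne_zero
    have hc0' : 0 < χ.conductor := Nat.pos_of_ne_zero hc0
    have hcq : χ.conductor ≤ q := Nat.le_of_dvd hq χ.conductor_dvd_level
    haveI : NeZero χ.conductor := ⟨hc0⟩
    have hqz' : q ≤ z := (Nat.le_self_pow (by norm_num) _).trans hqz
    have g2 := Pool.Agent.Y835.SC.Lj_lift (z := z) χ.conductor_dvd_level hqz'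
        χ.primitiveCharacter (1 / (D ^ 4 * Real.log z))
    rw [DirichletCharacter.changeLevel_primitiveCharacter] at g2
    have hex : ∃ q₀, ExP (D ^ 4) lam z q₀ := by
      refine ⟨χ.conductor, χ.primitiveCharacter, hc0', (Nat.pow_le_pow_left hcq 16).trans hqz,
        ?_, ?_, χ.primitiveCharacter_isPrimitive, ?_⟩
      · intro h
        apply hχ
        rw [← χ.changeLevel_primitiveCharacter, h, map_one]
      · apply DirichletCharacter.changeLevel_injective (R := ℂ) χ.conductor_dvd_level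
        rw [map_pow, χ.changeLevel_primitiveCharacter, hχ2, map_one]
      · rw [← g2]; exact hcon
    obtain ⟨q₀, hq₀d⟩ : ∃ q, q = exq (D ^ 4) lam z := ⟨_, rfl⟩
    have hsp := hspec z hex
    rw [← hq₀d] at hsp hndvd
    obtain ⟨χ₀, hq₀, hq₀z, hχ₀, hχ₀2, hprim, hL₀⟩ := hsp
    haveI : NeZero q₀ := ⟨hq₀.ne'⟩
    have hm0 : 0 < q₀ * q := Nat.mul_pos hq₀ hq
    haveI : NeZero (q₀ * q) := ⟨hm0.ne'⟩
    have hm8 : (q₀ * q) ^ 8 ≤ z := by
      have e1 : ((q₀ * q) ^ 8) ^ 2 ≤ z ^ 2 := by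
        calc ((q₀ * q) ^ 8) ^ 2 = q₀ ^ 16 * q ^ 16 := by rw [← pow_mul, mul_pow]
          _ ≤ z * z := Nat.mul_le_mul hq₀z hqz
          _ = z ^ 2 := by ring
      exact (Nat.pow_le_pow_iff_left (by norm_num)).1 e1
    have hmz : q₀ * q ≤ z := (Nat.le_self_pow (by norm_num) _).trans hm8
    have h3 := (h1 z (q₀ * q) hz32 hm8).2
      (DirichletCharacter.changeLevel (dvd_mul_right q₀ q) χ₀)
      (DirichletCharacter.changeLevel (dvd_mul_left q q₀) χ)
      (by rw [← map_pow, hχ₀2, map_one]) (by rw [← map_pow, hχ2, map_one]) (by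
        intro h
        have h4 : DirichletCharacter.changeLevel (dvd_mul_right q₀ q) χ₀ =
            DirichletCharacter.changeLevel (dvd_mul_left q q₀) χ := by
          have h5 : DirichletCharacter.changeLevel (dvd_mul_left q q₀) χ *
              DirichletCharacter.changeLevel (dvd_mul_left q q₀) χ = 1 := by
            rw [← map_mul, ← sq, hχ2, map_one]
          exact mul_right_cancel (h.trans h5.symm)
        have h5 := congrArg DirichletCharacter.conductor h4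
        rw [DirichletCharacter.conductor_changeLevel, DirichletCharacter.conductor_changeLevel,
          (DirichletCharacter.isPrimitive_def χ₀).1 hprim] at h5
        exact hndvd (h5 ▸ χ.conductor_dvd_level))
    rw [Pool.Agent.Y835.SC.Lj_lift _ hmz, Pool.Agent.Y835.SC.Lj_lift _ hmz] at h3
    rcases h3 with h3 | h3
    · linarith
    · linarith

end Run7.h296
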