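import Pool.Agent.Run7.h296.Eg
import Pool.Agent.Run7.h296.Exc

/-!
The choice of the parameters.
-/

set_option autoImplicit false

open Finset

namespace Run7.h296

open Pool.Agent.R498.MT Pool.Agent.H262R3.Lk Pool.Agent.W505.MH
open Pool.Agent.H318R2.Cr (Rgh V V_pos V_le_one cz_bounds)

/-- the systems of forms -/
structure Sys (k Jn e W D₁ : ℕ) (A B : Fin (2 ^ k) → ℕ) : Prop where
  W0 : W ≠ 0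
  Ws : ∀ p : ℕ, p.Prime → p ∣ W → p < 2 ^ 2 ^ Jn
  WD : ∀ p : ℕ, p.Prime → ¬ p ∣ W → D₁ < p
  AW : ∀ j, ∀ p : ℕ, p.Prime → (p ∣ A j ↔ p ∣ W)
  AT : ∀ j, A j ≤ 2 ^ 2 ^ Jn
  BA : ∀ j, B j < A j
  cop : ∀ j, (B j).Coprime (A j)
  ok : ∀ p ∈ SS Jn e, OKp A B p

theorem tend_T : Filter.Tendsto (fun Jn : ℕ => ((2 ^ 2 ^ Jn : ℕ) : ℝ)) Filter.atTop Filter.atTop := by
  apply tendsto_natCast_atTop_atTop.comp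
  apply Filter.tendsto_atTop_mono (f := fun n : ℕ => n) _ Filter.tendsto_id
  intro n
  exact (Nat.lt_two_pow_self.le).trans (Nat.lt_two_pow_self.le)

theorem ev_T (c : ℝ) : ∀ᶠ Jn : ℕ in Filter.atTop, c ≤ ((2 ^ 2 ^ Jn : ℕ) : ℝ) :=
  tend_T.eventually_ge_atTop c

theorem ev_VT {c₁ c₂ : ℝ} (hcz : CZ c₁ c₂) (n : ℕ) : ∀ᶠ Jn : ℕ in Filter.atTop,
    1 / ((2 ^ 2 ^ Jn : ℕ) : ℝ) ≤ V (2 ^ 2 ^ Jn) ^ n := by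
  obtain ⟨hc₁, hc₁₂, hczb⟩ := hcz
  have e2 := (Real.isLittleO_pow_log_id_atTop (n := n)).comp_tendsto tend_T
  have e3 := e2.bound (show (0 : ℝ) < c₁ ^ n by positivity)
  filter_upwards [e3] with Jn h
  simp only [Function.comp_apply, id] at h
  have hT0 : (0 : ℝ) < ((2 ^ 2 ^ Jn : ℕ) : ℝ) := by positivity
  have hl0 : 0 < Real.log ((2 ^ 2 ^ Jn : ℕ) : ℝ) := Real.log_pos (Y_one Jn)
  have h1 : Real.log ((2 ^ 2 ^ Jn : ℕ) : ℝ) ^ n ≤ c₁ ^ n * ((2 ^ 2 ^ Jn : ℕ) : ℝ) := by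
    refine (Real.le_norm_self _).trans (h.trans (le_of_eq ?_))
    rw [Real.norm_eq_abs, abs_of_pos hT0]
  have h2 : c₁ / Real.log ((2 ^ 2 ^ Jn : ℕ) : ℝ) ≤ V (2 ^ 2 ^ Jn) := by
    rw [div_le_iff₀ hl0]
    exact (hczb (2 ^ 2 ^ Jn) (two_le_pp _)).1
  have h3 : (c₁ / Real.log ((2 ^ 2 ^ Jn : ℕ) : ℝ)) ^ n ≤ V (2 ^ 2 ^ Jn) ^ n :=
    pow_le_pow_left₀ (by positivity) h2 n
  refine le_trans ?_ h3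
  rw [div_pow, div_le_div_iff₀ hT0 (by positivity)]
  linarith

theorem ev_dat (k e : ℕ) (C₁ : ℝ) (hC : 0 ≤ C₁) : ∀ᶠ Jn : ℕ in Filter.atTop,
    Dat (S := SS Jn e) (fun t => ((t : ℕ) : ℝ)) (fun t => 1 / (((t : ℕ) : ℝ) - 1))
    (lsz ((2 ^ 2 ^ (Jn + e) : ℕ) : ℝ)) ((1 / 2) ^ e) (1 / 2) 1 (om k C₁ ((1 / 2) ^ e)) := by
  have hε : (0 : ℝ) < (1 / 2) ^ e := by positivity
  have hε1 : (1 / 2 : ℝ) ^ e ≤ 1 := pow_le_one₀ (by norm_num) (by norm_num)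
  obtain ⟨o1, -, -, -, -⟩ := om_bd k C₁ ((1 / 2) ^ e) hC hε hε1
  obtain ⟨Y0, hY0⟩ := dat_S ((1 / 2) ^ e) (om k C₁ ((1 / 2) ^ e)) 0 hε hε1 o1
  filter_upwards [Filter.eventually_ge_atTop Y0] with Jn hJ
  have h1 : Y0 ≤ 2 ^ 2 ^ (Jn + e) := by
    calc Y0 ≤ Jn + e := by omega
      _ ≤ 2 ^ (Jn + e) := Nat.lt_two_pow_self.le
      _ ≤ 2 ^ 2 ^ (Jn + e) := Nat.lt_two_pow_self.le
  exact hY0 (2 ^ 2 ^ (Jn + e)) h1 (SS Jn e) (subset_refl _) (by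
    unfold SS
    rw [sdiff_self]
    simp)

theorem T_pow (Jn e : ℕ) : (2 ^ 2 ^ Jn) ^ (2 ^ e) = 2 ^ 2 ^ (Jn + e) := by
  rw [← pow_mul, pow_add]

theorem Jn_T (Jn : ℕ) : 1 + Jn ≤ 2 ^ 2 ^ Jn := by
  have h1 : Jn + 1 ≤ 2 ^ Jn := Nat.lt_two_pow_self
  have h2 : 2 ^ Jn ≤ 2 ^ 2 ^ Jn := Nat.lt_two_pow_self.le
  omega

/-- the level conditions -/
theorem lv_of {Jn e b b' : ℕ} {E : ℝ} (hb : 8 * b + 16 ≤ 2 ^ e)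
    (hE : 8 ≤ E * ((2 ^ 2 ^ Jn : ℕ) : ℝ)) (hE0 : 0 ≤ E) :
    8 * ((2 ^ 2 ^ Jn : ℕ) : ℝ) * (((1 : ℝ) + Jn) * (((2 ^ 2 ^ Jn) ^ (4 * b + 6) : ℕ) : ℝ) ^ 2) *
    (((2 ^ 2 ^ (Jn + e) : ℕ) : ℝ) * 1) ≤ E * (((2 ^ 2 ^ (Jn + e)) ^ 8 : ℕ) : ℝ) ∧
    8 * ((2 ^ 2 ^ Jn : ℕ) : ℝ) * (((1 : ℝ) + Jn) * (((2 ^ 2 ^ Jn) ^ (4 * b + 6) : ℕ) : ℝ) ^ 2) *
    (((2 ^ 2 ^ (Jn + e) : ℕ) : ℝ) * (((2 ^ 2 ^ (Jn + e + 6)) ^ (4 * b' + 6) : ℕ) : ℝ)) ≤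
    E * (((2 ^ 2 ^ (Jn + e + 6)) ^ (4 * b' + 8) : ℕ) : ℝ) := by
  have hJ : (1 : ℝ) + Jn ≤ ((2 ^ 2 ^ Jn : ℕ) : ℝ) := by exact_mod_cast Jn_T Jn
  have hTY : ((2 ^ 2 ^ Jn : ℕ) : ℝ) ^ (8 * b + 16) ≤ ((2 ^ 2 ^ (Jn + e) : ℕ) : ℝ) := by
    have h1 : (2 ^ 2 ^ Jn) ^ (8 * b + 16) ≤ 2 ^ 2 ^ (Jn + e) := by
      rw [← T_pow]
      exact Nat.pow_le_pow_right (by positivity) hb
    exact_mod_cast h1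
  have hZ : ((2 ^ 2 ^ (Jn + e + 6) : ℕ) : ℝ) = ((2 ^ 2 ^ (Jn + e) : ℕ) : ℝ) ^ 64 := by
    rw [Z_eq]
    push_cast
    rfl
  have hT1 : (1 : ℝ) ≤ ((2 ^ 2 ^ Jn : ℕ) : ℝ) := by exact_mod_cast Nat.one_le_two_pow
  have hY1 : (1 : ℝ) ≤ ((2 ^ 2 ^ (Jn + e) : ℕ) : ℝ) := by exact_mod_cast Nat.one_le_two_pow
  rw [Nat.cast_pow (2 ^ 2 ^ Jn) (4 * b + 6), Nat.cast_pow (2 ^ 2 ^ (Jn + e)) 8,
    Nat.cast_pow (2 ^ 2 ^ (Jn + e + 6)) (4 * b' + 6), Nat.cast_pow (2 ^ 2 ^ (Jn + e + 6)) (4 * b' + 8),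
    hZ]
  generalize ((2 ^ 2 ^ (Jn + e) : ℕ) : ℝ) = Y at *
  generalize ((2 ^ 2 ^ Jn : ℕ) : ℝ) = T at *
  have hT0 : 0 ≤ T := by linarith
  have h1 : 8 * T * ((1 + (Jn : ℝ)) * (T ^ (4 * b + 6)) ^ 2) ≤ E * Y := by
    calc 8 * T * ((1 + (Jn : ℝ)) * (T ^ (4 * b + 6)) ^ 2) ≤
        8 * T * (T * (T ^ (4 * b + 6)) ^ 2) := by gcongr
      _ = 8 * T ^ (8 * b + 14) := by ring
      _ ≤ (E * T) * T ^ (8 * b + 14) := mul_le_mul_of_nonneg_right hE (by positivity)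
      _ = E * T ^ (8 * b + 15) := by ring
      _ ≤ E * T ^ (8 * b + 16) := by
          apply mul_le_mul_of_nonneg_left _ hE0
          exact pow_le_pow_right₀ hT1 (by omega)
      _ ≤ E * Y := mul_le_mul_of_nonneg_left hTY hE0
  have hY0 : 0 ≤ Y := by linarith
  constructor
  · calc 8 * T * ((1 + (Jn : ℝ)) * (T ^ (4 * b + 6)) ^ 2) * (Y * 1) ≤ (E * Y) * (Y * 1) :=
          mul_le_mul_of_nonneg_right h1 (by linarith)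
      _ = E * Y ^ 2 := by ring
      _ ≤ E * Y ^ 8 := by
          apply mul_le_mul_of_nonneg_left _ hE0
          exact pow_le_pow_right₀ hY1 (by norm_num)
  · calc 8 * T * ((1 + (Jn : ℝ)) * (T ^ (4 * b + 6)) ^ 2) * (Y * (Y ^ 64) ^ (4 * b' + 6)) ≤
          (E * Y) * (Y * (Y ^ 64) ^ (4 * b' + 6)) :=
          mul_le_mul_of_nonneg_right h1 (by positivity)
      _ = E * (Y ^ 2 * (Y ^ 64) ^ (4 * b' + 6)) := by ring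
      _ ≤ E * (Y ^ 128 * (Y ^ 64) ^ (4 * b' + 6)) := by
          apply mul_le_mul_of_nonneg_left _ hE0
          apply mul_le_mul_of_nonneg_right _ (by positivity)
          exact pow_le_pow_right₀ hY1 (by norm_num)
      _ = E * (Y ^ 64) ^ (4 * b' + 8) := by ring

theorem hF_of {Jn e b : ℕ} (hb : 8 * b + 16 ≤ 2 ^ e) :
    (2 ^ 2 ^ Jn * ((2 ^ 2 ^ Jn) ^ (4 * b + 6) * 2 ^ 2 ^ (Jn + e))) ^ 4 ≤ 2 ^ 2 ^ (Jn + e + 6) := by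
  have h1 : (2 ^ 2 ^ Jn) ^ (4 * b + 7) ≤ 2 ^ 2 ^ (Jn + e) := by
    rw [← T_pow]
    exact Nat.pow_le_pow_right (by positivity) (by omega)
  rw [Z_eq]
  have h2 : 1 ≤ 2 ^ 2 ^ (Jn + e) := Nat.one_le_two_pow
  generalize 2 ^ 2 ^ (Jn + e) = y at *
  generalize 2 ^ 2 ^ Jn = t at *
  calc (t * (t ^ (4 * b + 6) * y)) ^ 4 = (t ^ (4 * b + 7) * y) ^ 4 := by ring
    _ ≤ (y * y) ^ 4 := Nat.pow_le_pow_left (Nat.mul_le_mul_right _ h1) 4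
    _ = y ^ 8 := by ring
    _ ≤ y ^ 64 := Nat.pow_le_pow_right h2 (by norm_num)

theorem kap_M (P : Finset ℕ) (b Jn : ℕ) (g : ℕ → ℝ) (s : Finset ℕ) :
    kap P (rhoM b Jn) g s = kap P (rhoP b Jn) g s - kap P (rhoD b Jn) g s := by
  unfold kap rhoM
  rw [← sum_sub_distrib]
  refine sum_congr rfl fun T _ => ?_
  ring

/-- **the context from a system** -/
theorem ctx_of {CR : ℕ} (hCR1 : 1 ≤ CR) {k : ℕ} {DR D' : ℝ} (hDR : 1 ≤ DR)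
    (hmass : ∀ (b J z0 : ℕ) (P : Finset ℕ) (g : ℕ → ℝ),
    CR * (2 ^ k + 1) ≤ b → CR * (2 ^ k + 1) ≤ z0 → (∀ p ∈ P, p.Prime ∧ z0 < p ∧ p < 2 ^ 2 ^ J) →
    (∀ p ∈ P, 0 ≤ g p ∧ g p ≤ ((2 ^ k : ℕ) : ℝ) / ((p : ℝ) - 1)) →
    (∀ p ∈ P, g p ≤ 1 / 2) ∧ 0 < ∏ p ∈ P, (1 - g p) ∧
    ∏ p ∈ P, (1 - g p) ≤ ∑ T ∈ P.powerset, rhoP b J T * ∏ l ∈ T, g l ∧
    ∑ T ∈ P.powerset, rhoP b J T * ∏ l ∈ T, g l ≤ (1 + (1 / 2) ^ b) * ∏ p ∈ P, (1 - g p) ∧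
    0 ≤ ∑ T ∈ P.powerset, rhoD b J T * ∏ l ∈ T, g l ∧
    ∑ T ∈ P.powerset, rhoD b J T * ∏ l ∈ T, g l ≤ (1 / 2) ^ b * ∏ p ∈ P, (1 - g p) ∧
    ∑ T ∈ P.powerset, |rhoD b J T| * ∏ l ∈ T, g l ≤ (1 / 2) ^ b * ∏ p ∈ P, (1 + g p) ∧
    ∀ s ⊆ P, |∑ T ∈ (P \ s).powerset, rhoP b J (s ∪ T) * ∏ l ∈ T, g l| ≤
        2 * DR ^ s.card * ∏ p ∈ P, (1 - g p) ∧
      |∑ T ∈ (P \ s).powerset, rhoD b J (s ∪ T) * ∏ l ∈ T, g l| ≤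
        2 * (2 * DR) ^ s.card * ∏ p ∈ P, (1 - g p))
    (hmass1 : ∀ (b J z0 : ℕ) (P : Finset ℕ) (g : ℕ → ℝ),
    CR * (1 + 1) ≤ b → CR * (1 + 1) ≤ z0 → (∀ p ∈ P, p.Prime ∧ z0 < p ∧ p < 2 ^ 2 ^ J) →
    (∀ p ∈ P, 0 ≤ g p ∧ g p ≤ ((1 : ℕ) : ℝ) / ((p : ℝ) - 1)) →
    (∀ p ∈ P, g p ≤ 1 / 2) ∧ 0 < ∏ p ∈ P, (1 - g p) ∧
    ∏ p ∈ P, (1 - g p) ≤ ∑ T ∈ P.powerset, rhoP b J T * ∏ l ∈ T, g l ∧
    ∑ T ∈ P.powerset, rhoP b J T * ∏ l ∈ T, g l ≤ (1 + (1 / 2) ^ b) * ∏ p ∈ P, (1 - g p) ∧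
    0 ≤ ∑ T ∈ P.powerset, rhoD b J T * ∏ l ∈ T, g l ∧
    ∑ T ∈ P.powerset, rhoD b J T * ∏ l ∈ T, g l ≤ (1 / 2) ^ b * ∏ p ∈ P, (1 - g p) ∧
    ∑ T ∈ P.powerset, |rhoD b J T| * ∏ l ∈ T, g l ≤ (1 / 2) ^ b * ∏ p ∈ P, (1 + g p) ∧
    ∀ s ⊆ P, |∑ T ∈ (P \ s).powerset, rhoP b J (s ∪ T) * ∏ l ∈ T, g l| ≤
        2 * D' ^ s.card * ∏ p ∈ P, (1 - g p) ∧
      |∑ T ∈ (P \ s).powerset, rhoD b J (s ∪ T) * ∏ l ∈ T, g l| ≤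
        2 * (2 * D') ^ s.card * ∏ p ∈ P, (1 - g p))
    {Jn e b b' W D₁ : ℕ} {C₁ E : ℝ} {A B : Fin (2 ^ k) → ℕ} (s : Sys k Jn e W D₁ A B)
    (J1 : 1 ≤ Jn) (C0 : 0 ≤ C₁) (ep : (1 / 2 : ℝ) ^ e ≤ e0 k C₁ (1 / 2)) (E0 : 0 < E)
    (E1 : E ≤ ((1 / 2 : ℝ) ^ e) ^ (16 * (2 ^ k) ^ 2 + 1))
    (dat : Dat (S := SS Jn e) (fun t => ((t : ℕ) : ℝ)) (fun t => 1 / (((t : ℕ) : ℝ) - 1))
    (lsz ((2 ^ 2 ^ (Jn + e) : ℕ) : ℝ)) ((1 / 2) ^ e) (1 / 2) 1 (om k C₁ ((1 / 2) ^ e)))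
    (VT : 1 / ((2 ^ 2 ^ Jn : ℕ) : ℝ) ≤ V (2 ^ 2 ^ Jn) ^ (2 * 2 ^ k))
    (mu : (2 : ℝ) ^ (e + 6) * (4 * b' + 6) * (2 / ((2 ^ 2 ^ Jn : ℕ) : ℝ)) ≤ om k C₁ ((1 / 2) ^ e))
    (D1K : 2 * 2 ^ k ≤ D₁) (D3 : 3 ≤ D₁) (hbe : 8 * b + 16 ≤ 2 ^ e)
    (hE8 : 8 ≤ E * ((2 ^ 2 ^ Jn : ℕ) : ℝ)) (hb : CR * (2 ^ k + 1) ≤ b) (hb' : CR * (1 + 1) ≤ b')
    (hD1 : CR * (2 ^ k + 1) ≤ D₁) (hD2 : D₁ < 2 ^ 2 ^ Jn) :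
    Ctx k Jn e b b' W D₁ C₁ E DR A B := by
  have hlv := lv_of (Jn := Jn) (e := e) (b := b) (b' := b') hbe hE8 E0.le
  have hi0 : Nonempty (Fin (2 ^ k)) := ⟨⟨0, by positivity⟩⟩
  obtain ⟨i⟩ := hi0
  have h2k : 1 ≤ 2 ^ k := Nat.one_le_two_pow
  have hnd : ∀ p ∈ PS Jn W, ∀ j, ¬ p ∣ A j := by
    intro p hp j hj
    have h1 := mem_PS.1 hp
    exact h1.2.2 ((s.AW j p h1.1).1 hj)
  have hPS : ∀ p ∈ PS Jn W, p.Prime ∧ D₁ < p ∧ p < 2 ^ 2 ^ Jn := by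
    intro p hp
    have h1 := mem_PS.1 hp
    exact ⟨h1.1, s.WD p h1.1 h1.2.2, h1.2.1⟩
  have hgg : ∀ p ∈ PS Jn W, 0 ≤ gg A B p ∧ gg A B p ≤ ((2 ^ k : ℕ) : ℝ) / ((p : ℝ) - 1) := by
    intro p hp
    have h1 := gq_facts (A := A) (B := B) (mem_PS.1 hp).1 (hnd p hp) i
    rw [Fintype.card_fin] at h1
    refine ⟨h1.2.2.2.2.1, h1.2.2.2.2.2.1.trans ?_⟩
    have h2 : (2 : ℝ) ≤ p := by exact_mod_cast (mem_PS.1 hp).1.two_le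
    apply div_le_div_of_nonneg_left (Nat.cast_nonneg _) (by linarith) (by linarith)
  have hgq : ∀ p ∈ PS Jn W, 0 ≤ gq A B p ∧ gq A B p ≤ ((2 ^ k : ℕ) : ℝ) / ((p : ℝ) - 1) := by
    intro p hp
    have h1 := gq_facts (A := A) (B := B) (mem_PS.1 hp).1 (hnd p hp) i
    rw [Fintype.card_fin] at h1
    exact ⟨h1.1, h1.2.1⟩
  have mP := hmass b Jn D₁ (PS Jn W) (gg A B) hb hD1 hPS hgg
  have mG := hmass b Jn D₁ (PS Jn W) (gq A B) hb hD1 hPS hgq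
  have hD1' : CR * (1 + 1) ≤ D₁ := by
    refine le_trans ?_ hD1
    apply Nat.mul_le_mul_left
    omega
  have mQ := hmass1 b' (Jn + e + 6) D₁ (QS Jn e) (fun p => 1 / (p : ℝ)) hb' hD1' (by
    intro p hp
    have h1 := mem_QS.1 hp
    exact ⟨h1.1, by omega, h1.2.2⟩) (by
    intro p hp
    have h2 : (2 : ℝ) ≤ p := by exact_mod_cast (mem_QS.1 hp).1.two_le
    refine ⟨by positivity, ?_⟩
    push_cast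
    apply one_div_le_one_div_of_le <;> linarith)
  exact {
    J1 := J1
    b1 := by
      have : 1 * 1 ≤ CR * (2 ^ k + 1) := Nat.mul_le_mul hCR1 (by omega)
      omega
    C0 := C0
    ep := ep
    E0 := E0
    E1 := E1
    dat := dat
    VT := VT
    lv0 := hlv.1
    lv1 := hlv.2
    mu := mu
    D1K := D1K
    D3 := D3
    W0 := s.W0
    Ws := s.Ws
    WD := s.WD
    AW := s.AW
    AT := s.AT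
    BA := s.BA
    cop := s.cop
    ok := s.ok
    rmP := ⟨fun p hp => (hgg p hp).1, mP.2.1, mP.2.2.1, mP.2.2.2.1, mP.2.2.2.2.1, mP.2.2.2.2.2.1,
      mP.2.2.2.2.2.2.1⟩
    rmG := ⟨fun p hp => (hgq p hp).1, mG.2.1, mG.2.2.1, mG.2.2.2.1, mG.2.2.2.2.1, mG.2.2.2.2.2.1,
      mG.2.2.2.2.2.2.1⟩
    rmQ := ⟨fun p _ => by positivity, mQ.2.1, mQ.2.2.1, mQ.2.2.2.1, mQ.2.2.2.2.1, mQ.2.2.2.2.2.1,
      mQ.2.2.2.2.2.2.1⟩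
    kapG := by
      intro s' hs'
      obtain ⟨h1, h2⟩ := mG.2.2.2.2.2.2.2 s' hs'
      have hV := mG.2.1
      rw [kap_M]
      have h3 : |kap (PS Jn W) (rhoP b Jn) (gq A B) s' - kap (PS Jn W) (rhoD b Jn) (gq A B) s'| ≤
          2 * DR ^ s'.card * ∏ p ∈ PS Jn W, (1 - gq A B p) +
          2 * (2 * DR) ^ s'.card * ∏ p ∈ PS Jn W, (1 - gq A B p) :=
        (abs_sub _ _).trans (add_le_add h1 h2)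
      refine h3.trans ?_
      have h4 : DR ^ s'.card ≤ (2 * DR) ^ s'.card := pow_le_pow_left₀ (by linarith) (by linarith) _
      have h5 := mul_le_mul_of_nonneg_right h4 hV.le
      linarith
    D1 := hDR }

end Run7.h296
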