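import Pool.Agent.Run7.h296.Base2
import Pool.Agent.Run7.h296.Exc

/-!
The exceptional characters.
-/

set_option autoImplicit false

open Finset

namespace Run7.h296

open Pool.Agent.H262R3.Lk Pool.Agent.W69.MH Pool.Agent.W215.MH

/-- a primitive real character of large prime conductor -/
theorem ex_quad (z : ℕ) : ∃ (q : ℕ) (χ : DirichletCharacter ℂ q), z + 2 ≤ q ∧ 1 < q ∧ χ ^ 2 = 1 ∧
    χ.IsPrimitive := by
  obtain ⟨p, hp1, hp⟩ := Nat.exists_infinite_primes (z + 3)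
  haveI : Fact p.Prime := ⟨hp⟩
  have hp2 : ringChar (ZMod p) ≠ 2 := by
    rw [ZMod.ringChar_zmod_n]
    omega
  obtain ⟨ψ, hψ⟩ : ∃ ψ : MulChar (ZMod p) ℂ, ψ = (quadraticChar (ZMod p)).ringHomComp (Int.castRingHom ℂ) :=
    ⟨_, rfl⟩
  have h1 : ψ ≠ 1 := by
    rw [hψ]
    intro h
    apply quadraticChar_ne_one hp2
    apply MulChar.injective_ringHomComp (f := Int.castRingHom ℂ) Int.cast_injective
    simp only
    rw [h, MulChar.ringHomComp_one]
  have h2 : ψ ^ 2 = 1 := by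
    rw [hψ, MulChar.ringHomComp_pow, (quadraticChar_isQuadratic (ZMod p)).sq_eq_one,
      MulChar.ringHomComp_one]
  refine ⟨p, ψ, by omega, by omega, h2, ?_⟩
  rw [DirichletCharacter.isPrimitive_def]
  have h3 : DirichletCharacter.conductor (n := p) ψ ∣ p := DirichletCharacter.conductor_dvd_level ψ
  rcases (Nat.dvd_prime hp).1 h3 with h4 | h4
  · exact absurd ((DirichletCharacter.eq_one_iff_conductor_eq_one (χ := (ψ : DirichletCharacter ℂ p))).2 h4) h1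
  · exact h4

theorem page_ch : ∃ c4 D0 : ℝ, 0 < c4 ∧ 1 < D0 ∧ ∀ D : ℝ, D0 ≤ D →
    ∃ (q₁ : ℕ → ℕ) (χ₁ : ∀ z : ℕ, DirichletCharacter ℂ (q₁ z)),
    (∀ B : ℕ, ∃ z0 : ℕ, ∀ z : ℕ, z0 ≤ z → (Real.log z) ^ B < (q₁ z : ℝ)) ∧
    (∀ z, 1 < q₁ z ∧ (∀ p : ℕ, p.Prime → p ≠ 2 → ¬ p ^ 2 ∣ q₁ z) ∧ ¬ 16 ∣ q₁ z) ∧
    (∀ z, (χ₁ z) ^ 2 = 1 ∧ (χ₁ z).IsPrimitive) ∧
    ∀ z q b : ℕ, 32 ≤ z → 0 < q → q ^ 16 ≤ z → (q₁ z ∣ q → χ₁ z (b : ZMod (q₁ z)) = -1) →
      b.Coprime q →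
      c4 / 2 * D ^ 12 * (Real.log z) ^ 3 / q.totient ≤ Bj z q b 2 (1 / (D ^ 4 * Real.log z)) := by
  have hSUM := Pool.Agent.W933.MHSum.sum_
  have hFL := Pool.Agent.W333.MH.fl
  obtain ⟨c4, D0, hc4, hD0, hLIN⟩ := linE hSUM (Pool.Agent.W505.MH.diff hFL hSUM)
    (Pool.Agent.W505.MH.a0 hFL hSUM) (Pool.Agent.H262R3.Lk.b0 Pool.Agent.W505.MH.bt hSUM)
    (Pool.Agent.W440.MH.b2 hSUM) (Pool.Agent.H262R3.Lk.alg hSUM) Pool.Agent.W215.MH.eul
    (Pool.Agent.W193.MH.Cls.cls hSUM) Pool.Agent.W701.MH.abs_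
  refine ⟨c4, D0, hc4, hD0, fun D hD => ?_⟩
  obtain ⟨lam, hlam, hlam2, h1⟩ := hLIN D hD
  have hD1 : 1 < D := lt_of_lt_of_le hD0 hD
  have hA1 : 1 ≤ D ^ 4 := one_le_pow₀ hD1.le
  have hch : ∀ z : ℕ, ∃ (q₀ : ℕ) (χ₀ : DirichletCharacter ℂ q₀), 1 < q₀ ∧ χ₀ ^ 2 = 1 ∧
      χ₀.IsPrimitive ∧ ((∃ q', ExP (D ^ 4) lam z q') → q₀ ^ 16 ≤ z ∧
        ‖Lj z χ₀ 0 (1 / (D ^ 4 * Real.log z))‖ < lam) ∧
      ((¬ ∃ q', ExP (D ^ 4) lam z q') → z + 2 ≤ q₀) := by
    intro z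
    by_cases hex : ∃ q', ExP (D ^ 4) lam z q'
    · obtain ⟨q₀, χ₀, hq₀, hq₀z, hχ₀, hχ₀2, hprim, hL₀⟩ := hex
      haveI : NeZero q₀ := ⟨hq₀.ne'⟩
      refine ⟨q₀, χ₀, ?_, hχ₀2, hprim, fun _ => ⟨hq₀z, hL₀⟩,
        fun h => absurd ⟨q₀, χ₀, hq₀, hq₀z, hχ₀, hχ₀2, hprim, hL₀⟩ h⟩
      have : q₀ ≠ 1 := fun h => hχ₀ (by
        rw [χ₀.eq_one_iff_conductor_eq_one, (DirichletCharacter.isPrimitive_def χ₀).1 hprim, h])
      omega
    · obtain ⟨q₀, χ₀, h3, h4, h5, h6⟩ := ex_quad z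
      exact ⟨q₀, χ₀, h4, h5, h6, fun h => absurd h hex, fun _ => h3⟩
  choose q₁ χ₁ hq1 hsq hpr hexc hnon using hch
  refine ⟨q₁, χ₁, ?_, ?_, fun z => ⟨hsq z, hpr z⟩, ?_⟩
  · intro B
    obtain ⟨z3, h3⟩ := Pool.Agent.H262R3.Lk.swq B
    obtain ⟨z5, h5ev⟩ := Filter.eventually_atTop.1 (show ∀ᶠ z : ℕ in Filter.atTop,
        (Real.log z) ^ B < (z : ℝ) + 2 by
      have e2 := (Real.isLittleO_pow_log_id_atTop (n := B)).comp_tendsto
        (tendsto_natCast_atTop_atTop (R := ℝ))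
      have e3 := e2.bound (show (0 : ℝ) < 1 by norm_num)
      filter_upwards [e3] with z hz
      simp only [Function.comp_apply, id, one_mul] at hz
      have e4 : Real.log (z : ℝ) ^ B ≤ ‖Real.log (z : ℝ) ^ B‖ := Real.le_norm_self _
      have e5 : ‖(z : ℝ)‖ = z := by simp
      rw [e5] at hz
      linarith)
    refine ⟨max (max z3 z5) 32, fun z hz => ?_⟩
    simp only [max_le_iff] at hz
    obtain ⟨⟨hz3, hz5⟩, hz32⟩ := hz
    have hlog := Pool.Agent.W505.MH.log_ge_one hz32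
    have hAlog : (1 : ℝ) ≤ D ^ 4 * Real.log z := one_le_mul_of_one_le_of_one_le hA1 hlog
    have hs0 : (0 : ℝ) < 1 / (D ^ 4 * Real.log z) := by positivity
    have hs1 : 1 / (D ^ 4 * Real.log z) ≤ (1 : ℝ) := by
      rw [div_le_one (by linarith)]
      exact hAlog
    by_cases hex : ∃ q₀, ExP (D ^ 4) lam z q₀
    · obtain ⟨hq₀z, hL₀⟩ := hexc z hex
      haveI : NeZero (q₁ z) := ⟨by have := hq1 z; omega⟩
      by_contra hcon
      push Not at hcon
      have g1 := h3 z hz3 (q₁ z) (hq1 z) hcon (χ₁ z) (hpr z) _ hs0 hs1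
      linarith
    · have h4 := hnon z hex
      have h5 : (z : ℝ) + 2 ≤ (q₁ z : ℝ) := by exact_mod_cast h4
      linarith [h5ev z hz5]
  · intro z
    haveI : NeZero (q₁ z) := ⟨by have := hq1 z; omega⟩
    exact ⟨hq1 z, prim_sqf (χ₁ z) (hpr z) (hsq z)⟩
  · intro z q b hz32 hq hqz hsign hb
    have hlog := Pool.Agent.W505.MH.log_ge_one hz32
    have hAlog : (1 : ℝ) ≤ D ^ 4 * Real.log z := one_le_mul_of_one_le_of_one_le hA1 hlog
    haveI : NeZero q := ⟨hq.ne'⟩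
    have h8 : ∀ q : ℕ, 0 < q → q ^ 16 ≤ z → q ^ 8 ≤ z := fun q hq h =>
      (Nat.pow_le_pow_right hq (by norm_num)).trans h
    refine (h1 z q hz32 (h8 q hq hqz)).1 b hb ?_
    intro χ hχ hχ2
    by_contra hcon'
    push Not at hcon'
    obtain ⟨hcon, hcon2⟩ := hcon'
    apply hcon2
    -- the primitive character
    have hc0 : χ.conductor ≠ 0 := χ.conductor_ne_zero
    have hc0' : 0 < χ.conductor := Nat.pos_of_ne_zero hc0
    have hcq : χ.conductor ≤ q := Nat.le_of_dvd hq χ.conductor_dvd_level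
    haveI : NeZero χ.conductor := ⟨hc0⟩
    have hqz' : q ≤ z := (Nat.le_self_pow (by norm_num) _).trans hqz
    have g2 := Pool.Agent.Y835.SC.Lj_lift (z := z) χ.conductor_dvd_level hqz'
        χ.primitiveCharacter (1 / (D ^ 4 * Real.log z))
    rw [DirichletCharacter.changeLevel_primitiveCharacter] at g2
    have hex : ∃ q₀, ExP (D ^ 4) lam z q₀ := by
      refine ⟨χ.conductor, χ.primitiveCharacter, hc0', (Nat.pow_le_pow_left hcq 16).trans hqz,
        ?_, ?_, χ.primitiveCharacter_isPrimitive, ?_⟩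
      · intro h
        apply hχ
        rw [← χ.changeLevel_primitiveCharacter, h, map_one]
      · apply DirichletCharacter.changeLevel_injective (R := ℂ) χ.conductor_dvd_level
        rw [map_pow, χ.changeLevel_primitiveCharacter, hχ2, map_one]
      · rw [← g2]; exact hcon
    obtain ⟨hq₀z, hL₀⟩ := hexc z hex
    have hχ₀2 := hsq z
    have hprim := hpr z
    have hq₀1 := hq1 z
    generalize hgχ : χ₁ z = χ₀ at hsign hL₀ hχ₀2 hprim
    clear hgχ hexc hnon hsq hpr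
    generalize q₁ z = q₀ at χ₀ hsign hL₀ hχ₀2 hprim hq₀1 hq₀z
    have hq₀ : 0 < q₀ := by omega
    haveI : NeZero q₀ := ⟨hq₀.ne'⟩
    have hm0 : 0 < q₀ * q := Nat.mul_pos hq₀ hq
    haveI : NeZero (q₀ * q) := ⟨hm0.ne'⟩
    have hm8 : (q₀ * q) ^ 8 ≤ z := by
      have e1 : ((q₀ * q) ^ 8) ^ 2 ≤ z ^ 2 := by
        calc ((q₀ * q) ^ 8) ^ 2 = q₀ ^ 16 * q ^ 16 := by rw [← pow_mul, mul_pow]
          _ ≤ z * z := Nat.mul_le_mul hq₀z hqz
          _ = z ^ 2 := by ring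
      exact (Nat.pow_le_pow_iff_left (by norm_num)).1 e1
    have hmz : q₀ * q ≤ z := (Nat.le_self_pow (by norm_num) _).trans hm8
    by_cases h4 : DirichletCharacter.changeLevel (dvd_mul_right q₀ q) χ₀ =
        DirichletCharacter.changeLevel (dvd_mul_left q q₀) χ
    · have h5 := congrArg DirichletCharacter.conductor h4
      rw [DirichletCharacter.conductor_changeLevel, DirichletCharacter.conductor_changeLevel,
        (DirichletCharacter.isPrimitive_def χ₀).1 hprim] at h5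
      have hdvd : q₀ ∣ q := h5 ▸ χ.conductor_dvd_level
      have hs := hsign hdvd
      have hbm : b.Coprime (q₀ * q) := Nat.Coprime.mul_right (Nat.Coprime.coprime_dvd_right hdvd hb) hb
      obtain ⟨u, hu⟩ : ∃ u : (ZMod (q₀ * q))ˣ, (u : ZMod (q₀ * q)) = (b : ZMod (q₀ * q)) :=
        ⟨ZMod.unitOfCoprime b hbm, ZMod.coe_unitOfCoprime b hbm⟩
      have h6 := DirichletCharacter.changeLevel_eq_cast_of_dvd χ₀ (dvd_mul_right q₀ q) u
      have h7 := DirichletCharacter.changeLevel_eq_cast_of_dvd χ (dvd_mul_left q q₀) u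
      rw [hu, ZMod.cast_natCast (dvd_mul_right q₀ q)] at h6
      rw [hu, ZMod.cast_natCast (dvd_mul_left q q₀)] at h7
      rw [← h7, ← h4, h6]
      exact hs
    · exfalso
      have h3 := (h1 z (q₀ * q) hz32 hm8).2
        (DirichletCharacter.changeLevel (dvd_mul_right q₀ q) χ₀)
        (DirichletCharacter.changeLevel (dvd_mul_left q q₀) χ)
        (by rw [← map_pow, hχ₀2, map_one]) (by rw [← map_pow, hχ2, map_one]) (by
          intro h
          apply h4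
          have h5 : DirichletCharacter.changeLevel (dvd_mul_left q q₀) χ *
              DirichletCharacter.changeLevel (dvd_mul_left q q₀) χ = 1 := by
            rw [← map_mul, ← sq, hχ2, map_one]
          exact mul_right_cancel (h.trans h5.symm))
      rw [Pool.Agent.Y835.SC.Lj_lift _ hmz, Pool.Agent.Y835.SC.Lj_lift _ hmz] at h3
      rcases h3 with h3 | h3
      · linarith
      · linarith

end Run7.h296
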