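import Pool.Agent.Run7.h296.Rd
import Pool.Agent.Run7.h296.Av

/-!
The reduction of the theorem to systems.
-/

set_option autoImplicit false

open Finset

namespace Run7.h296

/-- the primes of the modulus -/
def WS (D₁ P : ℕ) : Finset ℕ := (range (D₁ + 1)).filter Nat.Prime ∪ P.primeFactors

/-- the modulus -/
def WW (D₁ P : ℕ) : ℕ := ∏ p ∈ WS D₁ P, p

theorem mem_WS {D₁ P p : ℕ} (hP : P ≠ 0) : p ∈ WS D₁ P ↔ p.Prime ∧ (p ≤ D₁ ∨ p ∣ P) := by
  unfold WS
  rw [mem_union, mem_filter, mem_range, Nat.mem_primeFactors]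
  constructor
  · rintro (⟨h1, h2⟩ | ⟨h1, h2, -⟩)
    · exact ⟨h2, Or.inl (by omega)⟩
    · exact ⟨h1, Or.inr h2⟩
  · rintro ⟨h1, h2 | h2⟩
    · exact Or.inl ⟨by omega, h1⟩
    · exact Or.inr ⟨h1, h2, hP⟩

theorem WS_prime {D₁ P : ℕ} (hP : P ≠ 0) : ∀ p ∈ WS D₁ P, p.Prime := fun _ hp =>
  ((mem_WS hP).1 hp).1

theorem prime_dvd_WW {D₁ P p : ℕ} (hP : P ≠ 0) (hp : p.Prime) : p ∣ WW D₁ P ↔ p ≤ D₁ ∨ p ∣ P := by
  unfold WW
  rw [Prime.dvd_finset_prod_iff hp.prime]
  constructor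
  · rintro ⟨q, hq, hpq⟩
    have h1 := (mem_WS hP).1 hq
    rw [(Nat.prime_dvd_prime_iff_eq hp h1.1).1 hpq]
    exact h1.2
  · intro h
    exact ⟨p, (mem_WS hP).2 ⟨hp, h⟩, dvd_rfl⟩

theorem WW_pos {D₁ P : ℕ} (hP : P ≠ 0) : 0 < WW D₁ P :=
  prod_pos fun p hp => (WS_prime hP p hp).pos

theorem prod_small (D₁ : ℕ) (s : Finset ℕ) (hs : ∀ p ∈ s, p.Prime ∧ p ≤ D₁) :
    ∏ p ∈ s, p ≤ D₁.factorial := by
  apply Nat.le_of_dvd (Nat.factorial_pos _)
  apply Finset.prod_dvd_of_isRelPrime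
  · intro p hp q hq hpq
    exact Nat.coprime_iff_isRelPrime.1 ((Nat.coprime_primes (hs p hp).1 (hs q hq).1).2 hpq)
  · intro p hp
    exact Nat.dvd_factorial (hs p hp).1.pos (hs p hp).2

theorem WW_le {D₁ P : ℕ} (hP : P ≠ 0) : WW D₁ P ≤ D₁.factorial * P := by
  unfold WW WS
  have h1 : ∏ p ∈ (range (D₁ + 1)).filter Nat.Prime ∪ P.primeFactors, p ≤
      (∏ p ∈ (range (D₁ + 1)).filter Nat.Prime, p) * ∏ p ∈ P.primeFactors, p := by
    rw [← prod_union_inter]
    apply Nat.le_mul_of_pos_right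
    apply prod_pos
    intro p hp
    rw [mem_inter, mem_filter] at hp
    exact hp.1.2.pos
  refine h1.trans (Nat.mul_le_mul (prod_small D₁ _ fun p hp => ?_) ?_)
  · rw [mem_filter, mem_range] at hp
    exact ⟨hp.2, by omega⟩
  · exact Nat.le_of_dvd (Nat.pos_of_ne_zero hP) (Nat.prod_primeFactors_dvd P)

/-- residues avoiding all the forms -/
theorem ex_nu {K : ℕ} (a b : Fin K → ℕ)
    (hadm : ∀ p : ℕ, p.Prime → ∃ n : ℤ, ∀ i, ¬ (p : ℤ) ∣ a i * n + b i) (S : Finset ℕ)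
    (hS : ∀ p ∈ S, p.Prime) : ∃ ν : ℕ, ν < ∏ p ∈ S, p ∧ ∀ p ∈ S, ∀ i, ¬ p ∣ a i * ν + b i := by
  classical
  have h1 : ∀ p : ℕ, ∃ r : ℕ, p.Prime → ∀ i, ¬ p ∣ a i * r + b i := by
    intro p
    by_cases hp : p.Prime
    · obtain ⟨n, hn⟩ := hadm p hp
      have hp0 : (p : ℤ) ≠ 0 := by exact_mod_cast hp.ne_zero
      refine ⟨(n % p).toNat, fun _ i hd => hn i ?_⟩
      have h1 : (((n % p).toNat : ℕ) : ℤ) = n % p := Int.toNat_of_nonneg (Int.emod_nonneg n hp0)
      have h2 : (p : ℤ) ∣ ((a i * (n % p).toNat + b i : ℕ) : ℤ) := Int.natCast_dvd_natCast.2 hd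
      push_cast at h2
      rw [h1] at h2
      have h3 : (a i : ℤ) * n + b i = ((a i : ℤ) * (n % p) + b i) + p * (a i * (n / p)) := by
        have := Int.emod_add_mul_ediv n p
        linear_combination (-(a i : ℤ)) * this
      rw [h3]
      exact dvd_add h2 (Dvd.intro _ rfl)
    · exact ⟨0, fun h => absurd h hp⟩
  choose r hr using h1
  have hs0 : ∀ i ∈ S, (fun p : ℕ => p) i ≠ 0 := fun p hp => (hS p hp).ne_zero
  have hco : Set.Pairwise (S : Set ℕ) (Function.onFun Nat.Coprime (fun p : ℕ => p)) := by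
    intro p hp q hq hpq
    exact (Nat.coprime_primes (hS p hp) (hS q hq)).2 hpq
  refine ⟨Nat.chineseRemainderOfFinset r (fun p => p) S hs0 hco,
    Nat.chineseRemainderOfFinset_lt_prod r (fun p => p) hs0 hco, ?_⟩
  intro p hp i hd
  have h2 := (Nat.chineseRemainderOfFinset r (fun p => p) S hs0 hco).2 p hp
  apply hr p (hS p hp) i
  have h3 : a i * r p + b i ≡ a i * (Nat.chineseRemainderOfFinset r (fun p => p) S hs0 hco : ℕ) + b i
      [MOD p] := Nat.ModEq.add_right _ (Nat.ModEq.mul_left _ h2.symm)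
  exact (h3.dvd_iff dvd_rfl).2 hd

theorem WW_squarefree {D₁ P : ℕ} (hP : P ≠ 0) : Squarefree (WW D₁ P) := by
  classical
  have h : ∀ s : Finset ℕ, (∀ p ∈ s, p.Prime) → Squarefree (∏ p ∈ s, p) := by
    intro s
    induction s using Finset.induction_on with
    | empty => simp
    | insert p s hp ih =>
      intro hs
      rw [prod_insert hp]
      have h1 := hs p (mem_insert_self p s)
      have h2 := ih fun q hq => hs q (mem_insert_of_mem hq)
      rw [Nat.squarefree_mul_iff]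
      refine ⟨?_, h1.prime.squarefree, h2⟩
      apply Nat.Coprime.prod_right
      intro q hq
      exact (Nat.coprime_primes h1 (hs q (mem_insert_of_mem hq))).2 fun h => hp (h ▸ hq)
  exact h _ (WS_prime hP)

theorem prim_of {K : ℕ} (a b : Fin K → ℕ)
    (hadm : ∀ p : ℕ, p.Prime → ∃ n : ℤ, ∀ i, ¬ (p : ℤ) ∣ a i * n + b i) (i : Fin K) :
    (a i).Coprime (b i) := by
  by_contra hne
  obtain ⟨p, hp, h1, h2⟩ := Nat.Prime.not_coprime_iff_dvd.1 hne
  obtain ⟨n, hn⟩ := hadm p hp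
  apply hn i
  exact dvd_add ((Int.natCast_dvd_natCast.2 h1).mul_right n) (Int.natCast_dvd_natCast.2 h2)

theorem NuS_nonempty {K D₁ P : ℕ} (hP0 : P ≠ 0) (a b : Fin K → ℕ)
    (hadm : ∀ p : ℕ, p.Prime → ∃ n : ℤ, ∀ i, ¬ (p : ℤ) ∣ a i * n + b i) :
    (NuS a b (WW D₁ P)).Nonempty := by
  obtain ⟨ν, hν, hνp⟩ := ex_nu a b hadm (WS D₁ P) (WS_prime hP0)
  refine ⟨ν, mem_NuS.2 ⟨hν, fun j => ?_⟩⟩
  apply Nat.Coprime.symm
  apply Nat.coprime_of_dvd
  intro p hp h1 h2
  exact hνp p ((mem_WS hP0).2 ⟨hp, (prime_dvd_WW hP0 hp).1 h1⟩) j h2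

/-- **the system of a family of coprime pairs** -/
theorem red {k Jn e D₁ D₂ P ν : ℕ} (α β : Fin (2 ^ k) → ℕ) (hP0 : P ≠ 0) (hPT : P < 2 ^ 2 ^ Jn)
    (hβ : ∀ i, 1 ≤ β i ∧ β i < α i) (hinj : ∀ i j, α i = α j → β i = β j → i = j)
    (hprim : ∀ i, (α i).Coprime (β i))
    (hdW : ∀ i, ∀ p : ℕ, p.Prime → p ∣ α i → p ∣ WW D₂ P) (hDD : D₁ ≤ D₂)
    (hαT : ∀ i j, α i * α j ≤ 2 ^ 2 ^ Jn) (hAle : ∀ i, α i * WW D₂ P ≤ 2 ^ 2 ^ Jn)
    (hD : D₂ < 2 ^ 2 ^ Jn) (hν : ν < WW D₂ P) (hνp : ∀ i, (α i * ν + β i).Coprime (WW D₂ P)) :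
    Sys k Jn e (WW D₂ P) D₁
      (fun i : Fin (2 ^ k) => α i * WW D₂ P) (fun i : Fin (2 ^ k) => α i * ν + β i) := by
  classical
  have hWW0 := WW_pos (D₁ := D₂) hP0
  have hAW : ∀ j : Fin (2 ^ k), ∀ p : ℕ, p.Prime →
      (p ∣ α j * WW D₂ P ↔ p ∣ WW D₂ P) := by
    intro j p hp
    constructor
    · intro h
      rcases (Nat.Prime.dvd_mul hp).1 h with h1 | h1
      · exact hdW j p hp h1
      · exact h1
    · intro h
      exact h.mul_left _
  exact {
    W0 := hWW0.ne'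
    Ws := by
      intro p hp hpW
      rcases (prime_dvd_WW hP0 hp).1 hpW with h | h
      · omega
      · exact lt_of_le_of_lt (Nat.le_of_dvd (Nat.pos_of_ne_zero hP0) h) hPT
    WD := by
      intro p hp hpW
      by_contra h
      exact hpW ((prime_dvd_WW hP0 hp).2 (Or.inl (by omega)))
    AW := hAW
    AT := fun j => hAle _
    BA := by
      intro j
      have h1 := (hβ j).2
      have h2 : ν + 1 ≤ WW D₂ P := hν
      calc α j * ν + β j <
          α j * ν + α j := by omega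
        _ = α j * (ν + 1) := by ring
        _ ≤ _ := Nat.mul_le_mul_left _ h2
    cop := by
      intro j
      apply Nat.Coprime.symm
      apply Nat.coprime_of_dvd
      intro p hp h1 h2
      have h3 := (hAW j p hp).1 h1
      have h4 := Nat.dvd_gcd h2 h3
      have h5 := hνp j
      rw [Nat.Coprime] at h5
      rw [h5] at h4
      exact hp.one_lt.ne' (Nat.dvd_one.1 h4)
    ok := by
      intro p hp
      have hpS := mem_SS.1 hp
      have hpW : ¬ p ∣ WW D₂ P := by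
        intro h
        rcases (prime_dvd_WW hP0 hpS.1).1 h with h1 | h1
        · omega
        · have := Nat.le_of_dvd (Nat.pos_of_ne_zero hP0) h1
          omega
      refine ⟨hpS.1, fun j h => hpW ((hAW j p hpS.1).1 h), ?_⟩
      intro x y hxy l hl
      obtain ⟨h1, h2⟩ := hl
      have h3 : (p : ℤ) ∣ (α y : ℤ) * β x - α x * β y := by
        have e1 : (α y : ℤ) * β x - α x * β y =
            α y * ((α x * ν + β x + α x * WW D₂ P * l : ℕ) : ℤ) -
            α x * ((α y * ν + β y + α y * WW D₂ P * l : ℕ) : ℤ) := by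
          push_cast
          ring
        rw [e1]
        exact dvd_sub ((Int.natCast_dvd_natCast.2 h1).mul_left _)
          ((Int.natCast_dvd_natCast.2 h2).mul_left _)
      have hxyP : α x * α y ≤ 2 ^ 2 ^ Jn := hαT x y
      obtain ⟨hbx1, hbx⟩ := hβ x
      obtain ⟨hby1, hby⟩ := hβ y
      have h5 : α y * β x < p := by
        calc α y * β x < α y * α x := Nat.mul_lt_mul_of_pos_left hbx (by omega)
          _ = α x * α y := by ring
          _ ≤ 2 ^ 2 ^ Jn := hxyP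
          _ ≤ p := by omega
      have h6 : α x * β y < p := by
        calc α x * β y < α x * α y := Nat.mul_lt_mul_of_pos_left hby (by omega)
          _ ≤ 2 ^ 2 ^ Jn := hxyP
          _ ≤ p := by omega
      have h7 : (α y : ℤ) * β x - α x * β y = 0 := by
        apply Int.eq_zero_of_abs_lt_dvd h3
        have h8 : ((α y * β x : ℕ) : ℤ) < p := by exact_mod_cast h5
        have h9 : ((α x * β y : ℕ) : ℤ) < p := by exact_mod_cast h6
        push_cast at h8 h9
        have h10 : (0 : ℤ) ≤ α y * β x := by positivity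
        have h11 : (0 : ℤ) ≤ α x * β y := by positivity
        rw [abs_lt]
        constructor <;> linarith
      have h8 : α y * β x = α x * β y := by
        have : (α y : ℤ) * β x = α x * β y := by linarith
        exact_mod_cast this
      have h9 : α x ∣ α y := by
        have : α x ∣ α y * β x := by rw [h8]; exact dvd_mul_right _ _
        exact (hprim x).dvd_of_dvd_mul_right this
      have h10 : α y ∣ α x := by
        have : α y ∣ α x * β y := by rw [← h8]; exact dvd_mul_right _ _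
        exact (hprim y).dvd_of_dvd_mul_right this
      have h11 : α x = α y := Nat.dvd_antisymm h9 h10
      have h12 : β x = β y := by
        rw [h11] at h8
        exact Nat.eq_of_mul_eq_mul_left (by omega) h8
      exact hxy (hinj x y h11 h12) }

/-- **the system of an admissible set of forms, with padding** -/
theorem redS {K k Jn e D₁ D₂ : ℕ} (a b : Fin K → ℕ) (hab : ∀ i, 1 ≤ b i ∧ b i < a i)
    (hinj : Function.Injective (fun i => (a i, b i)))
    (hadm : ∀ p : ℕ, p.Prime → ∃ n : ℤ, ∀ i, ¬ (p : ℤ) ∣ a i * n + b i) (S : Finset (Fin K))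
    (ι : S ↪ Fin (2 ^ k)) (hDD : D₁ ≤ D₂) (hkW : 2 ^ k ≤ WW D₂ (∏ i, a i)) (hD2 : 2 ≤ D₂)
    (hT1 : D₂.factorial ^ 8 ≤ 2 ^ 2 ^ Jn) (hT2 : (∏ i, a i) ^ 12 ≤ 2 ^ 2 ^ Jn)
    (hD : D₂ < 2 ^ 2 ^ Jn) (ν : ℕ) (hνN : ν ∈ NuS a b (WW D₂ (∏ i, a i))) :
    ∃ A B : Fin (2 ^ k) → ℕ, Sys k Jn e (WW D₂ (∏ i, a i)) D₁ A B ∧
      ∀ i : S, A (ι i) = a i * WW D₂ (∏ i, a i) ∧ B (ι i) = a i * ν + b i := by
  classical
  obtain ⟨P, hPd⟩ : ∃ P : ℕ, P = ∏ i, a i := ⟨_, rfl⟩
  rw [← hPd] at hT2 hνN hkW ⊢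
  have hP0 : P ≠ 0 := by
    rw [hPd]
    exact prod_ne_zero_iff.2 fun i _ => by
      have := hab i
      omega
  have hP1 : 1 ≤ P := Nat.pos_of_ne_zero hP0
  have haP : ∀ i, a i ∣ P := fun i => by
    rw [hPd]
    exact dvd_prod_of_mem a (mem_univ i)
  have haP' : ∀ i, a i ≤ P := fun i => Nat.le_of_dvd (Nat.pos_of_ne_zero hP0) (haP i)
  have hWW0 := WW_pos (D₁ := D₂) hP0
  have hPT : P < 2 ^ 2 ^ Jn := by
    rcases Nat.lt_or_ge P 2 with h | h
    · exact lt_of_lt_of_le h (two_le_pp Jn)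
    · calc P < P ^ 12 := by
            have : P ^ 1 < P ^ 12 := Nat.pow_lt_pow_right (by omega) (by norm_num)
            rwa [pow_one] at this
        _ ≤ _ := hT2
  have hWle := WW_le (D₁ := D₂) hP0
  have hW2 : 2 ∣ WW D₂ P := (prime_dvd_WW hP0 Nat.prime_two).2 (Or.inl hD2)
  obtain ⟨W, hW⟩ : ∃ W : ℕ, W = WW D₂ P := ⟨_, rfl⟩
  rw [← hW] at hWW0 hνN hkW hWle hW2
  have hW2' : 2 ≤ W := Nat.le_of_dvd hWW0 hW2
  obtain ⟨hν, hνp⟩ := mem_NuS.1 hνN
  have hdW : ∀ p : ℕ, p.Prime → p ∣ P → p ∣ W := fun p hp h => by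
    rw [hW]
    exact (prime_dvd_WW hP0 hp).2 (Or.inr h)
  have hprim : ∀ i, (a i).Coprime (b i) := prim_of a b hadm
  obtain ⟨X, hX⟩ : ∃ X : ℕ, X = 2 ^ 2 ^ Jn := ⟨_, rfl⟩
  have hbig : (P * W ^ 2) * (P * W ^ 2) ≤ X := by
    have h1 : (P * W ^ 2 * (P * W ^ 2)) ^ 2 ≤ X ^ 2 := by
      calc (P * W ^ 2 * (P * W ^ 2)) ^ 2 = P ^ 4 * W ^ 8 := by ring
        _ ≤ P ^ 4 * (D₂.factorial * P) ^ 8 := Nat.mul_le_mul_left _ (Nat.pow_le_pow_left hWle 8)
        _ = D₂.factorial ^ 8 * P ^ 12 := by ring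
        _ ≤ X * X := by rw [hX]; exact Nat.mul_le_mul hT1 hT2
        _ = _ := by ring
    exact (Nat.pow_le_pow_iff_left (by norm_num)).1 h1
  have hPPW : P ≤ P * W ^ 2 := Nat.le_mul_of_pos_right _ (by positivity)
  have hWPW : W ≤ P * W ^ 2 := by
    calc W = 1 * W := (one_mul W).symm
      _ ≤ (P * W) * W := Nat.mul_le_mul_right _ (Nat.mul_pos hP1 hWW0)
      _ = _ := by ring
  obtain ⟨α, hα⟩ : ∃ α : Fin (2 ^ k) → ℕ, α =
    Function.extend ι (fun i : S => a i) (fun _ => P * W ^ 2) := ⟨_, rfl⟩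
  obtain ⟨β, hβ⟩ : ∃ β : Fin (2 ^ k) → ℕ, β =
    Function.extend ι (fun i : S => b i) (fun t => 1 + t * W) := ⟨_, rfl⟩
  have α1 : ∀ i : S, α (ι i) = a i := fun i => by
    rw [hα]
    exact ι.injective.extend_apply _ _ _
  have β1 : ∀ i : S, β (ι i) = b i := fun i => by
    rw [hβ]
    exact ι.injective.extend_apply _ _ _
  have α2 : ∀ t, (¬ ∃ i, ι i = t) → α t = P * W ^ 2 := fun t ht => by
    rw [hα]
    exact Function.extend_apply' _ _ _ ht
  have β2 : ∀ t, (¬ ∃ i, ι i = t) → β t = 1 + t * W := fun t ht => by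
    rw [hβ]
    exact Function.extend_apply' _ _ _ ht
  have hαP : ∀ t, α t ≤ P * W ^ 2 := by
    intro t
    by_cases h : ∃ i, ι i = t
    · obtain ⟨i, rfl⟩ := h
      rw [α1]
      exact (haP' _).trans hPPW
    · rw [α2 t h]
  have hPlt : P < P * W ^ 2 := by
    calc P = P * 1 := (mul_one P).symm
      _ < P * W ^ 2 := Nat.mul_lt_mul_of_pos_left (by nlinarith) (by omega)
  refine ⟨fun i => α i * WW D₂ P, fun i => α i * ν + β i, ?_, fun i => ?_⟩
  · apply red α β hP0 hPT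
    · intro t
      by_cases h : ∃ i, ι i = t
      · obtain ⟨i, rfl⟩ := h
        rw [α1, β1]
        exact hab _
      · rw [α2 t h, β2 t h]
        refine ⟨by omega, ?_⟩
        have h1 : (t : ℕ) + 1 ≤ W := by
          have := t.2
          omega
        calc 1 + t * W < W + t * W := by omega
          _ = (t + 1) * W := by ring
          _ ≤ W * W := Nat.mul_le_mul_right _ h1
          _ = 1 * W ^ 2 := by ring
          _ ≤ P * W ^ 2 := Nat.mul_le_mul_right _ hP1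
    · intro x y h1 h2
      by_cases hx : ∃ i, ι i = x
      · obtain ⟨i, rfl⟩ := hx
        by_cases hy : ∃ i, ι i = y
        · obtain ⟨i', rfl⟩ := hy
          rw [α1, α1] at h1
          rw [β1, β1] at h2
          have h3 : (i : Fin K) = i' := hinj (Prod.ext h1 h2)
          rw [Subtype.ext h3]
        · exfalso
          rw [α1, α2 y hy] at h1
          have := haP' i
          omega
      · by_cases hy : ∃ i, ι i = y
        · obtain ⟨i', rfl⟩ := hy
          exfalso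
          rw [α1, α2 x hx] at h1
          have := haP' i'
          omega
        · rw [β2 x hx, β2 y hy] at h2
          have h3 : (x : ℕ) * W = y * W := by omega
          exact Fin.ext (Nat.eq_of_mul_eq_mul_right hWW0 h3)
    · intro t
      by_cases h : ∃ i, ι i = t
      · obtain ⟨i, rfl⟩ := h
        rw [α1, β1]
        exact hprim _
      · rw [α2 t h, β2 t h]
        apply Nat.coprime_of_dvd
        intro p hp h1 h2
        have h3 : p ∣ W := by
          rcases (Nat.Prime.dvd_mul hp).1 h1 with h4 | h4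
          · exact hdW p hp h4
          · exact hp.dvd_of_dvd_pow h4
        have h4 : p ∣ 1 := (Nat.dvd_add_left (h3.mul_left _)).1 h2
        exact hp.one_lt.ne' (Nat.dvd_one.1 h4)
    · intro t p hp hpt
      rw [← hW]
      by_cases h : ∃ i, ι i = t
      · obtain ⟨i, rfl⟩ := h
        rw [α1] at hpt
        exact hdW p hp (hpt.trans (haP _))
      · rw [α2 t h] at hpt
        rcases (Nat.Prime.dvd_mul hp).1 hpt with h4 | h4
        · exact hdW p hp h4
        · exact hp.dvd_of_dvd_pow h4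
    · exact hDD
    · intro x y
      rw [← hX]
      exact (Nat.mul_le_mul (hαP x) (hαP y)).trans hbig
    · intro x
      rw [← hX, ← hW]
      exact (Nat.mul_le_mul (hαP x) hWPW).trans hbig
    · exact hD
    · rw [← hW]
      exact hν
    · intro t
      rw [← hW]
      by_cases h : ∃ i, ι i = t
      · obtain ⟨i, rfl⟩ := h
        rw [α1, β1]
        exact hνp _
      · rw [α2 t h, β2 t h]
        apply Nat.coprime_of_dvd
        intro p hp h1 h2
        have h3 : P * W ^ 2 * ν + (1 + t * W) = W * (P * W * ν + t) + 1 := by ring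
        rw [h3] at h1
        have h4 : p ∣ 1 := (Nat.dvd_add_right (h2.mul_right _)).1 h1
        exact hp.one_lt.ne' (Nat.dvd_one.1 h4)
  · rw [← hW]
    simp only [α1, β1, and_self]

end Run7.h296
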