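import Pool.Agent.Run7.h296.Fi
import Pool.Agent.H661R3.UP.Final

/-!
The final theorem.
-/

set_option autoImplicit false

open Finset

namespace Run7.h296

theorem dvd_of_rough {D q a : ℕ} (h1 : ∀ p : ℕ, p.Prime → p ≠ 2 → ¬ p ^ 2 ∣ q) (h2 : ¬ 16 ∣ q)
    (h : ∀ p : ℕ, p.Prime → p ∣ q → D < p → p ∣ a) : q ∣ 8 * D.factorial * a := by
  rw [Nat.dvd_iff_prime_pow_dvd_dvd]
  intro p k hp hpk
  by_cases hp2 : p = 2
  · subst hp2
    have h3 : k ≤ 3 := by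
      by_contra hk
      apply h2
      exact (Nat.pow_dvd_pow 2 (by omega : 4 ≤ k)).trans hpk
    have h4 : 2 ^ k ∣ 8 := by
      have : (8 : ℕ) = 2 ^ 3 := by norm_num
      rw [this]
      exact Nat.pow_dvd_pow 2 h3
    exact (h4.mul_right _).mul_right _
  · have h3 : k ≤ 1 := by
      by_contra hk
      apply h1 p hp hp2
      exact (Nat.pow_dvd_pow p (by omega : 2 ≤ k)).trans hpk
    rcases Nat.le_one_iff_eq_zero_or_eq_one.1 h3 with h4 | h4
    · subst h4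
      rw [pow_zero]
      exact one_dvd _
    · subst h4
      rw [pow_one] at hpk ⊢
      by_cases h5 : D < p
      · exact (h p hp hpk h5).mul_left _
      · exact ((Nat.dvd_factorial hp.pos (by omega)).mul_left 8).mul_right _

theorem pp_mono {a b : ℕ} (h : a ≤ b) : 2 ^ 2 ^ a ≤ 2 ^ 2 ^ b :=
  Nat.pow_le_pow_right (by norm_num) (Nat.pow_le_pow_right (by norm_num) h)

theorem le_pp (n : ℕ) : n ≤ 2 ^ 2 ^ n := (Nat.lt_two_pow_self.le).trans (Nat.lt_two_pow_self.le)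

theorem log_pp (n : ℕ) : (2 : ℝ) ^ n / 2 ≤ Real.log ((2 ^ 2 ^ n : ℕ) : ℝ) := by
  push_cast
  rw [Real.log_pow]
  push_cast
  have := Real.log_two_gt_d9
  have h : (0 : ℝ) < 2 ^ n := by positivity
  nlinarith


/-- the number of prime factors of a number with large prime factors -/
theorem cf_bd {N P t : ℕ} (hN : N ≠ 0) (hP : 2 ≤ P) (h : ∀ p : ℕ, p.Prime → p ∣ N → P ≤ p)
    (hle : N ≤ P ^ t) : ArithmeticFunction.cardFactors N ≤ t := by
  have h1 : P ^ N.primeFactorsList.length ≤ N.primeFactorsList.prod := by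
    apply List.pow_card_le_prod
    intro p hp
    exact h p (Nat.prime_of_mem_primeFactorsList hp) (Nat.dvd_of_mem_primeFactorsList hp)
  rw [Nat.prod_primeFactorsList hN] at h1
  rw [ArithmeticFunction.cardFactors_apply]
  exact (Nat.pow_le_pow_iff_right (by omega)).1 (h1.trans hle)

/-- **rough values without primes** -/
theorem rough_only (k B : ℕ) : ∃ (A : ℕ) (γ : ℝ), 0 < γ ∧ ∀ a b : Fin k → ℕ,
    (∀ i, 1 ≤ b i ∧ b i < a i) → Function.Injective (fun i => (a i, b i)) →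
    (∀ p : ℕ, p.Prime → ∃ n : ℤ, ∀ i, ¬ (p : ℤ) ∣ a i * n + b i) →
    ∃ n : ℕ, (n : ℝ) ≤ γ * ((∏ i, a i : ℕ) : ℝ) ^ A ∧
      ∀ i, ∀ p : ℕ, p.Prime → p ∣ a i * n + b i → (∏ j, a j) ^ B < p := by
  rcases Nat.eq_zero_or_pos k with hk0 | hk0
  · subst hk0
    exact ⟨0, 1, one_pos, fun a b _ _ _ => ⟨0, by simp, fun i => i.elim0⟩⟩
  obtain ⟨A, R, γ, hγ, hkt⟩ := Pool.Agent.H661R3.UP.kt k
  refine ⟨B + 1 + (1 + (B + 1) * k) * A, 2 + 2 ^ (k * A + 1) * γ, by positivity, ?_⟩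
  intro a b hab hinj hadm
  obtain ⟨P, hPd⟩ : ∃ P : ℕ, P = ∏ i, a i := ⟨_, rfl⟩
  rw [← hPd]
  have hP0 : P ≠ 0 := by
    rw [hPd]
    exact prod_ne_zero_iff.2 fun i _ => by
      have := hab i
      omega
  have hP1 : 1 ≤ P := Nat.pos_of_ne_zero hP0
  have haP : ∀ i, a i ∣ P := fun i => by
    rw [hPd]
    exact dvd_prod_of_mem a (mem_univ i)
  obtain ⟨W, hW⟩ : ∃ W : ℕ, W = WW 2 P := ⟨_, rfl⟩
  have hWle := WW_le (D₁ := 2) hP0
  have hWW0 := WW_pos (D₁ := 2) hP0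
  obtain ⟨ν, hνN⟩ := NuS_nonempty (D₁ := 2) hP0 a b hadm
  have h2W : 2 ∣ W := by
    rw [hW]
    exact (prime_dvd_WW hP0 Nat.prime_two).2 (Or.inl le_rfl)
  have hWiff : ∀ p : ℕ, p.Prime → p ∣ P → p ∣ W := fun p hp h => by
    rw [hW]
    exact (prime_dvd_WW hP0 hp).2 (Or.inr h)
  rw [← hW] at hWle hWW0 hνN
  rw [show (2 : ℕ).factorial = 2 from rfl] at hWle
  have hW2 : 2 ≤ W := Nat.le_of_dvd hWW0 h2W
  obtain ⟨hν, hνp⟩ := mem_NuS.1 hνN
  obtain ⟨U, hU⟩ : ∃ U : ℕ, U = W * P ^ B := ⟨_, rfl⟩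
  have hPB1 : 1 ≤ P ^ B := Nat.one_le_pow _ _ hP1
  have hU0 : 0 < U := by
    rw [hU]
    positivity
  have hWU : W ≤ U := by
    rw [hU]
    exact Nat.le_mul_of_pos_right _ hPB1
  have hPBU : P ^ B ≤ U := by
    rw [hU]
    exact Nat.le_mul_of_pos_left _ hWW0
  obtain ⟨n, hn1, hn2, -⟩ := hkt (fun i => a i * U) (fun i => a i * ν + b i) (by
      intro i
      have h1 := hab i
      refine ⟨by omega, ?_⟩
      calc a i * ν + b i < a i * ν + a i := by omega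
        _ = a i * (ν + 1) := by ring
        _ ≤ a i * U := Nat.mul_le_mul_left _ (hν.trans_le hWU)) (by
      intro x y hxy
      simp only [Prod.mk.injEq] at hxy
      have h1 : a x = a y := Nat.eq_of_mul_eq_mul_right hU0 hxy.1
      have h2 : b x = b y := by
        have := hxy.2
        rw [h1] at this
        omega
      exact hinj (Prod.ext h1 h2)) (by
      intro p hp
      by_cases hpW : p ∣ W
      · refine ⟨0, fun i hd => ?_⟩
        have h1 : p ∣ a i * ν + b i := by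
          have h2 : (p : ℤ) ∣ ((a i * ν + b i : ℕ) : ℤ) := by
            simpa using hd
          exact Int.natCast_dvd_natCast.1 h2
        have h2 := Nat.dvd_gcd h1 hpW
        have h3 := hνp i
        rw [Nat.Coprime] at h3
        rw [h3] at h2
        exact hp.one_lt.ne' (Nat.dvd_one.1 h2)
      · obtain ⟨n₀, hn₀⟩ := hadm p hp
        have hpU : ¬ p ∣ U := by
          rw [hU]
          intro h
          rcases (Nat.Prime.dvd_mul hp).1 h with h1 | h1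
          · exact hpW h1
          · exact hpW (hWiff p hp (hp.dvd_of_dvd_pow h1))
        have hco : IsCoprime (U : ℤ) (p : ℤ) :=
          Nat.isCoprime_iff_coprime.2 ((Nat.Prime.coprime_iff_not_dvd hp).2 hpU).symm
        obtain ⟨u, v, huv⟩ := hco
        refine ⟨u * (n₀ - ν), fun i hd => hn₀ i ?_⟩
        have e1 : (a i : ℤ) * n₀ + b i =
            (((a i * U : ℕ) : ℤ) * (u * (n₀ - ν)) + ((a i * ν + b i : ℕ) : ℤ)) +
              p * (a i * v * (n₀ - ν)) := by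
          push_cast
          linear_combination (-(a i : ℤ) * (n₀ - ν)) * huv
        rw [e1]
        exact dvd_add hd (Dvd.intro _ rfl)) {⟨0, hk0⟩} (by simp) 0
  have hprod : ∏ i, a i * U = P * U ^ k := by
    rw [prod_mul_distrib, ← hPd, prod_const, card_univ, Fintype.card_fin]
  rw [hprod] at hn1 hn2
  refine ⟨ν + U * n, ?_, ?_⟩
  · have hUle : U ≤ 2 * P ^ (B + 1) := by
      calc U = W * P ^ B := hU
        _ ≤ (2 * P) * P ^ B := Nat.mul_le_mul_right _ hWle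
        _ = _ := by ring
    have hPr : (1 : ℝ) ≤ P := by exact_mod_cast hP1
    have hUr : (U : ℝ) ≤ 2 * (P : ℝ) ^ (B + 1) := by exact_mod_cast hUle
    have hνr : (ν : ℝ) ≤ 2 * (P : ℝ) ^ (B + 1) := by
      have : ν ≤ 2 * P ^ (B + 1) := hν.le.trans (hWU.trans hUle)
      exact_mod_cast this
    have h1 : ((P * U ^ k : ℕ) : ℝ) ^ A ≤ 2 ^ (k * A) * (P : ℝ) ^ ((1 + (B + 1) * k) * A) := by
      have h2 : ((P * U ^ k : ℕ) : ℝ) ≤ 2 ^ k * (P : ℝ) ^ (1 + (B + 1) * k) := by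
        push_cast
        calc (P : ℝ) * (U : ℝ) ^ k ≤ P * (2 * (P : ℝ) ^ (B + 1)) ^ k := by gcongr
          _ = _ := by
            rw [mul_pow, ← pow_mul, pow_add, pow_one]
            ring
      calc ((P * U ^ k : ℕ) : ℝ) ^ A ≤ (2 ^ k * (P : ℝ) ^ (1 + (B + 1) * k)) ^ A :=
            pow_le_pow_left₀ (by positivity) h2 A
        _ = _ := by
          rw [mul_pow, ← pow_mul, ← pow_mul]
    obtain ⟨E, hE⟩ : ∃ E : ℕ, E = (1 + (B + 1) * k) * A := ⟨_, rfl⟩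
    rw [← hE] at h1 ⊢
    have hPE : (1 : ℝ) ≤ (P : ℝ) ^ E := one_le_pow₀ hPr
    have hPB : (1 : ℝ) ≤ (P : ℝ) ^ (B + 1) := one_le_pow₀ hPr
    have h3 : (n : ℝ) ≤ γ * (2 ^ (k * A) * (P : ℝ) ^ E) :=
      hn1.trans (mul_le_mul_of_nonneg_left h1 hγ.le)
    push_cast
    calc (ν : ℝ) + U * n ≤ 2 * (P : ℝ) ^ (B + 1) * (P : ℝ) ^ E +
          2 * (P : ℝ) ^ (B + 1) * (γ * (2 ^ (k * A) * (P : ℝ) ^ E)) := by
          apply add_le_add
          · refine hνr.trans ?_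
            apply le_mul_of_one_le_right (by positivity) hPE
          · exact mul_le_mul hUr h3 (by positivity) (by positivity)
      _ = _ := by
        rw [pow_add (P : ℝ) (B + 1) E, pow_succ (2 : ℝ) (k * A)]
        ring
  · intro i p hp hpd
    have h1 := (hn2 i).2 p hp (by
      have e1 : a i * U * n + (a i * ν + b i) = a i * (ν + U * n) + b i := by ring
      rw [e1]
      exact hpd)
    refine lt_of_le_of_lt ?_ h1
    calc P ^ B ≤ U := hPBU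
      _ = U ^ 1 := (pow_one U).symm
      _ ≤ U ^ k := Nat.pow_le_pow_right hU0 hk0
      _ = 1 * U ^ k := (one_mul _).symm
      _ ≤ P * U ^ k := Nat.mul_le_mul_right _ hP1

/-- the choice of the dimension -/
theorem choose_dim {C₀ s : ℕ} (hC₀ : 1 ≤ C₀) (hs : 1 ≤ s) : ∃ m : ℕ, 2 ^ (C₀ * m) ≤ s ∧
    s < 2 ^ (C₀ * (m + 1)) := by
  classical
  have hex : ∃ m : ℕ, s < 2 ^ (C₀ * (m + 1)) := by
    refine ⟨s, lt_of_lt_of_le (Nat.lt_two_pow_self (n := s)) (Nat.pow_le_pow_right (by norm_num) ?_)⟩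
    nlinarith
  refine ⟨Nat.find hex, ?_, Nat.find_spec hex⟩
  rcases Nat.eq_zero_or_pos (Nat.find hex) with h0 | h0
  · rw [h0, mul_zero, pow_zero]
    exact hs
  · have h1 := Nat.find_min hex (m := Nat.find hex - 1) (by omega)
    rw [show Nat.find hex - 1 + 1 = Nat.find hex by omega] at h1
    exact not_lt.1 h1

open Classical in
/-- **Many simultaneous primes, the other values being almost primes.** -/
theorem main_thm : ∃ (c : ℝ) (Q : ℕ → ℕ) (χ : ∀ i : ℕ, DirichletCharacter ℂ (Q i)), 0 < c ∧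
    (∀ i, 1 < Q i ∧ (χ i) ^ 2 = 1 ∧ (χ i).IsPrimitive) ∧
    (∀ B : ℕ, ∀ᶠ i in Filter.atTop, 2 ^ (B * i) ≤ Q i) ∧
    ∀ k B : ℕ, ∃ (A D R : ℕ) (γ : ℝ), 0 < γ ∧ 0 < D ∧ (∀ j, D < Q (j + D)) ∧
    ∀ a b : Fin k → ℕ, (∀ i, 1 ≤ b i ∧ b i < a i) → Function.Injective (fun i => (a i, b i)) →
    (∀ p : ℕ, p.Prime → ∃ n : ℤ, ∀ i, ¬ (p : ℤ) ∣ a i * n + b i) →
    ∀ j : ℕ, 2 ^ 2 ^ j ≤ ∏ i, a i → ∏ i, a i < 2 ^ 2 ^ (j + 1) →
    ∀ S : Finset (Fin k), ∃ n : ℕ, (n : ℝ) ≤ γ * ((∏ i, a i : ℕ) : ℝ) ^ A ∧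
      (∀ i ∈ S, ArithmeticFunction.cardFactors (a i * n + b i) ≤ R ∧
        ∀ p : ℕ, p.Prime → p ∣ a i * n + b i → (∏ i, a i) ^ B < p) ∧
      ⌊c * (((S.filter (fun i : Fin k => ¬ Q (j + D) ∣ D * a i ∨
        (Q (j + D) ∣ a i ∧ χ (j + D) ((b i : ℕ) : ZMod (Q (j + D))) = -1))).card : ℝ) / S.card) *
          Real.log S.card⌋₊ ≤
      (S.filter (fun i : Fin k => (a i * n + b i).Prime)).card := by
  obtain ⟨C₀, q₁, χ₁, hC₀, hq1, hq2, hq3, heng⟩ := engine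
  have hl2 := Real.log_two_gt_d9
  have hl2' : 0 < Real.log 2 := by linarith
  have hC₀r : (1 : ℝ) ≤ C₀ := by exact_mod_cast hC₀
  choose e D₁ K J₀ heng using heng
  obtain ⟨c, hc⟩ : ∃ c : ℝ, c = 2 / (5 * C₀ * Real.log 2 * 2 ^ C₀) := ⟨_, rfl⟩
  have hc0 : 0 < c := by rw [hc]; positivity
  have hgrow : ∀ B : ℕ, ∀ᶠ i in Filter.atTop, 2 ^ (B * i) ≤ q₁ (2 ^ 2 ^ i) := by
    intro B
    obtain ⟨z0, hz0⟩ := hq1 (B + 1)
    filter_upwards [Filter.eventually_ge_atTop (max z0 (B + 1))] with i hi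
    have hi1 : z0 ≤ i := (le_max_left _ _).trans hi
    have hi2 : B + 1 ≤ i := (le_max_right _ _).trans hi
    have h1 := hz0 (2 ^ 2 ^ i) (hi1.trans (le_pp i))
    have h2 : ((2 : ℝ) ^ i / 2) ^ (B + 1) < (q₁ (2 ^ 2 ^ i) : ℝ) :=
      lt_of_le_of_lt (pow_le_pow_left₀ (by positivity) (log_pp i) _) h1
    have h3 : (2 : ℝ) ^ (B * i) ≤ ((2 : ℝ) ^ i / 2) ^ (B + 1) := by
      rw [div_pow, le_div_iff₀ (by positivity), ← pow_mul, ← pow_add]
      apply pow_le_pow_right₀ (by norm_num)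
      nlinarith
    have h4 : ((2 ^ (B * i) : ℕ) : ℝ) < (q₁ (2 ^ 2 ^ i) : ℝ) := by
      push_cast
      linarith
    exact_mod_cast h4.le
  obtain ⟨i₀, hi₀⟩ := Filter.eventually_atTop.1 (hgrow 1)
  refine ⟨c, fun i => q₁ (2 ^ 2 ^ i), fun i => χ₁ (2 ^ 2 ^ i), hc0,
    fun i => ⟨(hq2 _).1, (hq3 _).1, (hq3 _).2⟩, hgrow, ?_⟩
  intro k B
  obtain ⟨Ex, hEx⟩ : ∃ Ex : ℕ, ∀ m ≤ k, e m ≤ Ex :=
    ⟨(range (k + 1)).sup e, fun m hm => Finset.le_sup (f := e) (mem_range.2 (by omega))⟩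
  obtain ⟨Dx, hDx⟩ : ∃ Dx : ℕ, ∀ m ≤ k, D₁ m ≤ Dx :=
    ⟨(range (k + 1)).sup D₁, fun m hm => Finset.le_sup (f := D₁) (mem_range.2 (by omega))⟩
  obtain ⟨Kx, hKx⟩ : ∃ Kx : ℕ, ∀ m ≤ k, K m ≤ Kx :=
    ⟨(range (k + 1)).sup K, fun m hm => Finset.le_sup (f := K) (mem_range.2 (by omega))⟩
  obtain ⟨Jx, hJx⟩ : ∃ Jx : ℕ, ∀ m ≤ k, J₀ m ≤ Jx :=
    ⟨(range (k + 1)).sup J₀, fun m hm => Finset.le_sup (f := J₀) (mem_range.2 (by omega))⟩
  obtain ⟨p₀, hp₀, hp₀'⟩ := Nat.exists_infinite_primes (2 ^ (C₀ * (k + 1)))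
  obtain ⟨D₂, hD₂⟩ : ∃ D₂ : ℕ, D₂ = max Dx (max (6 * k + 2) p₀) := ⟨_, rfl⟩
  have hD₂1 : Dx ≤ D₂ := by rw [hD₂]; exact le_max_left _ _
  have hD₂2 : 6 * k + 2 ≤ D₂ := by rw [hD₂]; exact (le_max_left _ _).trans (le_max_right _ _)
  have hD₂3 : p₀ ≤ D₂ := by rw [hD₂]; exact (le_max_right _ _).trans (le_max_right _ _)
  obtain ⟨D, hD⟩ : ∃ D : ℕ, D = 8 * D₂.factorial *
      (i₀ + Ex + 14 + B + Jx + D₂.factorial ^ 8 + D₂) := ⟨_, rfl⟩
  have hf1 : 1 ≤ D₂.factorial := Nat.one_le_iff_ne_zero.2 (Nat.factorial_ne_zero _)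
  have hDge : i₀ + Ex + 14 + B + Jx + D₂.factorial ^ 8 + D₂ ≤ D := by
    rw [hD]
    apply Nat.le_mul_of_pos_left
    positivity
  obtain ⟨A₁, γ₁, hγ₁, hrough⟩ := rough_only k (B + 1)
  obtain ⟨A, hA⟩ : ∃ A : ℕ, A = A₁ + (1 + 2 ^ D * Kx) := ⟨_, rfl⟩
  obtain ⟨γ, hγ⟩ : ∃ γ : ℝ, γ = γ₁ + 2 * (D₂.factorial : ℝ) := ⟨_, rfl⟩
  have hγ0 : 0 < γ := by
    rw [hγ]
    positivity
  obtain ⟨r₀, hr₀⟩ := exists_nat_ge (γ + 1)
  refine ⟨A, D, A + 1 + r₀, γ, hγ0, by omega, fun j => ?_, ?_⟩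
  · have h1 := hi₀ (j + D) (by omega)
    rw [one_mul] at h1
    calc D < 2 ^ D := Nat.lt_two_pow_self
      _ ≤ 2 ^ (j + D) := Nat.pow_le_pow_right (by norm_num) (by omega)
      _ ≤ _ := h1
  intro a b hab hinj hadm j hPj hPj' S
  obtain ⟨G, hG⟩ : ∃ G : Finset (Fin k), G = S.filter (fun i : Fin k =>
      ¬ q₁ (2 ^ 2 ^ (j + D)) ∣ D * a i ∨ (q₁ (2 ^ 2 ^ (j + D)) ∣ a i ∧
        χ₁ (2 ^ 2 ^ (j + D)) ((b i : ℕ) : ZMod (q₁ (2 ^ 2 ^ (j + D)))) = -1)) := ⟨_, rfl⟩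
  simp only
  rw [← hG]
  have hGS : G ⊆ S := by
    rw [hG]
    exact filter_subset _ _
  obtain ⟨M, hM⟩ : ∃ M : ℕ, M = ⌊c * ((G.card : ℝ) / S.card) * Real.log (S.card : ℝ)⌋₊ := ⟨_, rfl⟩
  rw [← hM]
  obtain ⟨P, hPd⟩ : ∃ P : ℕ, P = ∏ i, a i := ⟨_, rfl⟩
  have hP0 : P ≠ 0 := by
    rw [hPd]
    exact prod_ne_zero_iff.2 fun i _ => by
      have := hab i
      omega
  have hP1 : 1 ≤ P := Nat.pos_of_ne_zero hP0
  have hP1r : (1 : ℝ) ≤ P := by exact_mod_cast hP1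
  have haP : ∀ i, a i ∣ P := fun i => by
    rw [hPd]
    exact dvd_prod_of_mem a (mem_univ i)
  have haP' : ∀ i, a i ≤ P := fun i => Nat.le_of_dvd (Nat.pos_of_ne_zero hP0) (haP i)
  rw [← hPd] at hPj hPj' ⊢
  suffices key : ∃ n : ℕ, (n : ℝ) ≤ γ * (P : ℝ) ^ A ∧
      (∀ i ∈ S, ∀ p : ℕ, p.Prime → p ∣ a i * n + b i → P ^ (B + 1) < p) ∧
      M ≤ (S.filter (fun i : Fin k => (a i * n + b i).Prime)).card by
    obtain ⟨n, hn1, hn2, hn3⟩ := key
    refine ⟨n, hn1, fun i hi => ⟨?_, fun p hp hpd => ?_⟩, hn3⟩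
    · have hai := hab i
      have hP2 : 2 ≤ P := by
        have := haP' i
        omega
      apply cf_bd (P := P) (by omega) hP2
      · intro p hp hpd
        have h1 := hn2 i hi p hp hpd
        have h2 : P ≤ P ^ (B + 1) := Nat.le_self_pow (by omega) _
        omega
      · have h1 : ((a i * n + b i : ℕ) : ℝ) ≤ (P : ℝ) ^ (A + 1 + r₀) := by
          have h2 : (a i : ℝ) ≤ P := by exact_mod_cast haP' i
          have h3 : (b i : ℝ) ≤ P := by
            have h4 : b i ≤ P := hai.2.le.trans (haP' i)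
            exact_mod_cast h4
          have h4 : (γ + 1 : ℝ) ≤ (P : ℝ) ^ r₀ := by
            refine hr₀.trans ?_
            have h5 : r₀ ≤ P ^ r₀ := (Nat.lt_pow_self (by omega)).le
            exact_mod_cast h5
          have h5 : (1 : ℝ) ≤ (P : ℝ) ^ A := one_le_pow₀ hP1r
          push_cast
          calc (a i : ℝ) * n + b i ≤ P * (γ * (P : ℝ) ^ A) + P * (P : ℝ) ^ A := by
                apply add_le_add
                · exact mul_le_mul h2 hn1 (by positivity) (by positivity)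
                · exact h3.trans (le_mul_of_one_le_right (by linarith) h5)
            _ = (P : ℝ) ^ (A + 1) * (γ + 1) := by ring
            _ ≤ (P : ℝ) ^ (A + 1) * (P : ℝ) ^ r₀ := mul_le_mul_of_nonneg_left h4 (by positivity)
            _ = _ := by rw [← pow_add]
        exact_mod_cast h1
    · have h1 := hn2 i hi p hp hpd
      have h2 : P ^ B ≤ P ^ (B + 1) := Nat.pow_le_pow_right hP1 (by omega)
      omega
  rcases Nat.eq_zero_or_pos M with hM0 | hM0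
  · obtain ⟨n, hn1, hn2⟩ := hrough a b hab hinj hadm
    rw [← hPd] at hn1 hn2
    refine ⟨n, ?_, fun i _ => hn2 i, by omega⟩
    refine hn1.trans ?_
    have h1 : γ₁ ≤ γ := by
      rw [hγ]
      have : (0 : ℝ) ≤ 2 * (D₂.factorial : ℝ) := by positivity
      linarith
    have h2 : (P : ℝ) ^ A₁ ≤ (P : ℝ) ^ A := pow_le_pow_right₀ hP1r (by omega)
    exact mul_le_mul h1 h2 (by positivity) hγ0.le
  have hs0 : 1 ≤ S.card := by
    by_contra h
    have h1 : S.card = 0 := by omega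
    rw [h1] at hM
    simp at hM
    omega
  have hsk : S.card ≤ k := by
    have := card_le_univ S
    rwa [Fintype.card_fin] at this
  obtain ⟨m, hm1, hm2⟩ := choose_dim hC₀ hs0
  have hmk : m ≤ k := by
    have h1 : m < 2 ^ m := Nat.lt_two_pow_self
    have h2 : 2 ^ m ≤ 2 ^ (C₀ * m) :=
      Nat.pow_le_pow_right (by norm_num) (Nat.le_mul_of_pos_left _ (by omega))
    omega
  obtain ⟨t, ht⟩ : ∃ t : ℕ, M = t + 1 := ⟨M - 1, by omega⟩
  -- the level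
  obtain ⟨Jn, hJn⟩ : ∃ Jn : ℕ, Jn = j + D - e m - 6 := ⟨_, rfl⟩
  have hem := hEx m hmk
  have hJne : Jn + e m + 6 = j + D := by omega
  have hJn5 : j + 5 ≤ Jn := by omega
  have hJnB : j + B + 3 ≤ Jn := by omega
  have hJnJ : J₀ m ≤ Jn := by
    have := hJx m hmk
    omega
  have hJnD : D₂.factorial ^ 8 + D₂ + 1 ≤ Jn := by omega
  have hP12 : P ^ 12 ≤ 2 ^ 2 ^ Jn := by
    calc P ^ 12 ≤ P ^ 16 := Nat.pow_le_pow_right hP1 (by norm_num)
      _ ≤ (2 ^ 2 ^ (j + 1)) ^ 16 := Nat.pow_le_pow_left hPj'.le 16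
      _ = 2 ^ 2 ^ (j + 5) := by
        rw [← pow_mul]
        congr 1
        rw [pow_add 2 j 5, pow_add 2 j 1]
        ring
      _ ≤ _ := pp_mono hJn5
  have hPB : P ^ (B + 1) < 2 ^ 2 ^ Jn := by
    calc P ^ (B + 1) ≤ (2 ^ 2 ^ (j + 1)) ^ (B + 1) := Nat.pow_le_pow_left hPj'.le _
      _ = 2 ^ (2 ^ (j + 1) * (B + 1)) := by rw [← pow_mul]
      _ < 2 ^ 2 ^ Jn := by
        apply Nat.pow_lt_pow_right (by norm_num)
        calc 2 ^ (j + 1) * (B + 1) < 2 ^ (j + 1) * 2 ^ (B + 1) :=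
              Nat.mul_lt_mul_of_pos_left Nat.lt_two_pow_self (by positivity)
          _ = 2 ^ (j + 1 + (B + 1)) := by rw [← pow_add]
          _ ≤ _ := Nat.pow_le_pow_right (by norm_num) (by omega)
  have hWWP := WW_le (D₁ := D₂) hP0
  have hWW0 := WW_pos (D₁ := D₂) hP0
  have hJpp := le_pp Jn
  -- the residue
  obtain ⟨ν, hν, hνG⟩ := exists_nu (D := D₂) (W := WW D₂ P) (χ₁ (2 ^ 2 ^ (j + D))) (hq2 _).1
    (hq3 _).2 (hq3 _).1 (hq2 _).2.1 a b (prim_of a b hadm) (WW_squarefree hP0) (by omega) (by omega)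
    (fun i r hr hri => (prime_dvd_WW hP0 hr).2 (Or.inr (hri.trans (haP i))))
    (NuS_nonempty hP0 a b hadm) G (by
      intro i hi
      rw [hG, mem_filter] at hi
      rcases hi.2 with h1 | h1
      · left
        by_contra hcon
        push Not at hcon
        apply h1
        have h2 := dvd_of_rough (D := D₂) (a := a i) (hq2 (2 ^ 2 ^ (j + D))).2.1
          (hq2 (2 ^ 2 ^ (j + D))).2.2 hcon
        exact h2.trans (Nat.mul_dvd_mul_right ⟨_, hD⟩ _)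
      · exact Or.inr h1)
  obtain ⟨H, hH⟩ : ∃ H : Finset (Fin k), H = G.filter (fun i => q₁ (2 ^ 2 ^ (j + D)) ∣ a i * WW D₂ P →
      χ₁ (2 ^ 2 ^ (j + D)) ((a i * ν + b i : ℕ) : ZMod (q₁ (2 ^ 2 ^ (j + D)))) = -1) := ⟨_, rfl⟩
  rw [← hH] at hνG
  have hHS : H ⊆ S := by
    rw [hH]
    exact (filter_subset _ _).trans hGS
  have hcardH : (t + 1) * 2 ^ (C₀ * (m + 1)) ≤ (m + 1) * H.card := by
    rw [← ht]
    have hs0r : (0 : ℝ) < S.card := by exact_mod_cast hs0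
    have hg0 : (0 : ℝ) ≤ (G.card : ℝ) := by positivity
    have hlogs : Real.log (S.card : ℝ) ≤ C₀ * (m + 1) * Real.log 2 := by
      have h1 : Real.log (S.card : ℝ) ≤ Real.log ((2 : ℝ) ^ (C₀ * (m + 1))) := by
        apply Real.log_le_log hs0r
        exact_mod_cast hm2.le
      rw [Real.log_pow] at h1
      push_cast at h1
      exact h1
    have hlogs0 : 0 ≤ Real.log (S.card : ℝ) := Real.log_natCast_nonneg _
    have h1 : (M : ℝ) ≤ c * ((G.card : ℝ) / S.card) * (C₀ * (m + 1) * Real.log 2) := by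
      have h2 : (M : ℝ) ≤ c * ((G.card : ℝ) / S.card) * Real.log (S.card : ℝ) := by
        rw [hM]
        apply Nat.floor_le
        positivity
      exact h2.trans (mul_le_mul_of_nonneg_left hlogs (by positivity))
    have h2 : ((2 : ℝ) ^ (C₀ * m)) ≤ S.card := by exact_mod_cast hm1
    have h3 : (M : ℝ) * 2 ^ (C₀ * (m + 1)) ≤ (m + 1) * (2 / 5 * G.card) := by
      have h4 : c * ((G.card : ℝ) / S.card) * (C₀ * (m + 1) * Real.log 2) * (2 ^ C₀ * S.card) =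
          (m + 1) * (2 / 5 * G.card) := by
        rw [hc]
        field_simp
      rw [← h4]
      have h5 : (2 : ℝ) ^ (C₀ * (m + 1)) ≤ 2 ^ C₀ * S.card := by
        rw [mul_add, mul_one, pow_add, mul_comm ((2 : ℝ) ^ (C₀ * m))]
        exact mul_le_mul_of_nonneg_left h2 (by positivity)
      exact mul_le_mul h1 h5 (by positivity) (by positivity)
    have h4 : (2 / 5 * (G.card : ℝ)) ≤ H.card := by
      have h5 : (2 * G.card : ℝ) ≤ 5 * H.card := by exact_mod_cast hνG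
      linarith
    have h5 : (M : ℝ) * 2 ^ (C₀ * (m + 1)) ≤ (m + 1) * H.card :=
      h3.trans (mul_le_mul_of_nonneg_left h4 (by positivity))
    exact_mod_cast h5
  obtain ⟨ι⟩ : Nonempty (S ↪ Fin (2 ^ (C₀ * (m + 1)))) := by
    apply Function.Embedding.nonempty_of_card_le
    rw [Fintype.card_coe, Fintype.card_fin]
    exact hm2.le
  have hkW : 2 ^ (C₀ * (m + 1)) ≤ WW D₂ P := by
    have h1 : p₀ ∣ WW D₂ P := (prime_dvd_WW hP0 hp₀').2 (Or.inl hD₂3)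
    have h2 : 2 ^ (C₀ * (m + 1)) ≤ 2 ^ (C₀ * (k + 1)) :=
      Nat.pow_le_pow_right (by norm_num) (Nat.mul_le_mul_left _ (by omega))
    exact (h2.trans hp₀).trans (Nat.le_of_dvd hWW0 h1)
  obtain ⟨A', B', hsys, hAB⟩ := redS (Jn := Jn) (e := e m) (D₁ := D₁ m) (D₂ := D₂) a b hab hinj hadm S ι
    ((hDx m hmk).trans hD₂1) (by rw [← hPd]; exact hkW) (by omega) (by omega)
    (by rw [← hPd]; exact hP12) (by omega) ν (by rw [← hPd]; exact hν)
  rw [← hPd] at hsys hAB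
  obtain ⟨G', hG'⟩ : ∃ G' : Finset (Fin (2 ^ (C₀ * (m + 1)))),
    G' = (H.subtype (fun i => i ∈ S)).map ι := ⟨_, rfl⟩
  have hG'c : G'.card = H.card := by
    rw [hG', card_map, card_subtype]
    congr 1
    rw [filter_eq_self]
    exact fun i hi => hHS hi
  have hfin := heng m Jn hJnJ _ _ _ hsys G'
  rw [hJne] at hfin
  obtain ⟨l, hl, hcard, hrgh⟩ := hfin (fun x hx hdiv => by
    rw [hG', mem_map] at hx
    obtain ⟨i, hi, rfl⟩ := hx
    rw [mem_subtype, hH, mem_filter] at hi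
    rw [(hAB i).1] at hdiv
    rw [(hAB i).2]
    exact hi.2 hdiv) t (by rw [hG'c]; exact hcardH)
  have hνlt := (mem_NuS.1 hν).1
  have hKm := hKx m hmk
  refine ⟨ν + WW D₂ P * l, ?_, ?_, ?_⟩
  · have hz1 : 1 ≤ 2 ^ 2 ^ (j + D) := Nat.one_le_pow _ _ (by norm_num)
    have hlz : l ≤ P ^ (2 ^ D * Kx) := by
      calc l ≤ (2 ^ 2 ^ (j + D)) ^ K m := hl
        _ ≤ (2 ^ 2 ^ (j + D)) ^ Kx := Nat.pow_le_pow_right hz1 hKm
        _ = (2 ^ 2 ^ j) ^ (2 ^ D * Kx) := by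
          rw [← pow_mul, ← pow_mul, ← mul_assoc, ← pow_add]
        _ ≤ _ := Nat.pow_le_pow_left hPj _
    have hP1' : 1 ≤ P ^ (2 ^ D * Kx) := Nat.one_le_pow _ _ (Nat.pos_of_ne_zero hP0)
    have h2 : ν + WW D₂ P * l ≤ 2 * D₂.factorial * P ^ (1 + 2 ^ D * Kx) := by
      rw [pow_add, pow_one]
      generalize P ^ (2 ^ D * Kx) = z at hlz hP1' ⊢
      calc ν + WW D₂ P * l ≤ WW D₂ P * z + WW D₂ P * z := by
            apply add_le_add
            · exact hνlt.le.trans (Nat.le_mul_of_pos_right _ hP1')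
            · exact Nat.mul_le_mul_left _ hlz
        _ = 2 * (WW D₂ P * z) := by ring
        _ ≤ 2 * (D₂.factorial * P * z) := Nat.mul_le_mul_left _ (Nat.mul_le_mul_right _ hWWP)
        _ = _ := by ring
    have h3 : ((ν + WW D₂ P * l : ℕ) : ℝ) ≤ ((2 * D₂.factorial * P ^ (1 + 2 ^ D * Kx) : ℕ) : ℝ) := by
      exact_mod_cast h2
    refine h3.trans ?_
    push_cast
    rw [hA, hγ]
    have h4 : (P : ℝ) ^ (1 + 2 ^ D * Kx) ≤ (P : ℝ) ^ (A₁ + (1 + 2 ^ D * Kx)) :=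
      pow_le_pow_right₀ hP1r (by omega)
    exact mul_le_mul (by linarith) h4 (by positivity) (by positivity)
  · intro i hi p hp hpd
    have e1 : a i * (ν + WW D₂ P * l) + b i = B' (ι ⟨i, hi⟩) + A' (ι ⟨i, hi⟩) * l := by
      rw [(hAB ⟨i, hi⟩).1, (hAB ⟨i, hi⟩).2]
      ring
    rw [e1] at hpd
    by_contra hcon
    have hpT : p < 2 ^ 2 ^ Jn := by omega
    by_cases hpW : p ∣ WW D₂ P
    · have h1 : p ∣ A' (ι ⟨i, hi⟩) := by
        rw [(hAB ⟨i, hi⟩).1]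
        exact hpW.mul_left _
      have h2 : p ∣ B' (ι ⟨i, hi⟩) := (Nat.dvd_add_left (h1.mul_right _)).1 hpd
      rw [(hAB ⟨i, hi⟩).2] at h2
      have h3 := Nat.dvd_gcd h2 hpW
      have h4 := (mem_NuS.1 hν).2 i
      rw [Nat.Coprime] at h4
      simp only at h3
      rw [h4] at h3
      exact hp.one_lt.ne' (Nat.dvd_one.1 h3)
    · exact hrgh _ p (mem_PS.2 ⟨hp, hpT, hpW⟩) hpd
  · have h6 : (G'.filter (fun x => (B' x + A' x * l).Prime)).card ≤
        (S.filter (fun i : Fin k => (a i * (ν + WW D₂ P * l) + b i).Prime)).card := by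
      rw [hG', filter_map, card_map]
      apply card_le_card_of_injOn (fun i : {i // i ∈ S} => (i : Fin k))
      · intro i hi
        rw [mem_coe, mem_filter] at hi ⊢
        refine ⟨i.2, ?_⟩
        have h7 := hi.2
        simp only [Function.comp_apply] at h7
        rw [(hAB i).1, (hAB i).2] at h7
        have e1 : a i * (ν + WW D₂ P * l) + b i = a i * ν + b i + a i * WW D₂ P * l := by ring
        rw [e1]
        exact h7
      · intro x _ y _ hxy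
        exact Subtype.ext hxy
    omega

end Run7.h296
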