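import Pool.Agent.Run7.h296.LSr
import Pool.Agent.W505.MH.Base
import Pool.Agent.W333.MH.FL

/-!
Mean squares of Dirichlet series over integers without small prime factors.
-/

set_option autoImplicit false

open Finset Filter Topology

namespace Run7.h296

open H385 H385.Flat
open Pool.Agent.H262R3.Lk
open Pool.Agent.H318R2.Cr (Rgh V V_pos V_le_one cz_bounds)

theorem rgh_gt {Z n : ℕ} (h : Rgh Z n) (h1 : 1 < n) : Z < n := by
  by_contra hcon
  exact Pool.Agent.W505.MH.not_rgh h1 (not_lt.1 hcon) h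

theorem rough_count : ∃ C : ℝ, 0 < C ∧ ∀ Z N : ℕ, 32 ≤ Z → Z ≤ N →
    (rc Z 1 1 N : ℝ) ≤ C * N / Real.log Z := by
  obtain ⟨C₀, hC₀, hFL⟩ := Pool.Agent.W333.MH.fl
  obtain ⟨c₁, c₂, hc₁, hc₁₂, hcz⟩ := cz_bounds
  have hc₂ : 0 < c₂ := lt_of_lt_of_le hc₁ hc₁₂
  refine ⟨(1 + C₀) * c₂, by positivity, fun Z N hZ hN => ?_⟩
  have h1 := (abs_le.1 (hFL Z 1 1 N hZ le_rfl (by simp; omega) (by simp) hN)).2
  have hZ0 : (0 : ℝ) < Z := by exact_mod_cast (by omega : 0 < Z)
  have hL := Pool.Agent.W505.MH.log_ge_one hZ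
  have hLN : Real.log Z ≤ Real.log N := Real.log_le_log hZ0 (by exact_mod_cast hN)
  have hx : Real.log Z / Real.log N ≤ 1 := by
    rw [div_le_one (by linarith)]; exact hLN
  have hx0 : 0 ≤ Real.log Z / Real.log N := div_nonneg (by linarith) (by linarith)
  have h2 : (Real.log Z / Real.log N) ^ 5 ≤ 1 := pow_le_one₀ hx0 hx
  have hV := V_pos Z
  have hVL := (hcz Z (by omega)).2
  have hN0 : (0 : ℝ) ≤ N := Nat.cast_nonneg _
  simp only [Nat.totient_one, Nat.cast_one, div_one] at h1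
  have h3 : C₀ * (N * V Z) * (Real.log Z / Real.log N) ^ 5 ≤ C₀ * (N * V Z) * 1 :=
    mul_le_mul_of_nonneg_left h2 (by positivity)
  have h4 : (rc Z 1 1 N : ℝ) ≤ (1 + C₀) * (N * V Z) := by linarith
  rw [le_div_iff₀ (by linarith)]
  calc (rc Z 1 1 N : ℝ) * Real.log Z ≤ ((1 + C₀) * (N * V Z)) * Real.log Z :=
        mul_le_mul_of_nonneg_right h4 (by linarith)
    _ = (1 + C₀) * N * (V Z * Real.log Z) := by ring
    _ ≤ (1 + C₀) * N * c₂ := mul_le_mul_of_nonneg_left hVL (by positivity)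
    _ = _ := by ring

/-- the dyadic part -/
noncomputable def bk (a : ℕ → ℂ) (k n : ℕ) : ℂ := if 2 ^ k < n ∧ n ≤ 2 ^ (k + 1) then a n else 0

theorem sum_bk (a : ℕ → ℂ) (ha : a 1 = 0) (g : ℕ → ℂ) (m : ℕ) :
    ∑ n ∈ Icc 1 (2 ^ m), a n * g n =
      ∑ k ∈ range m, ∑ n ∈ Icc 1 (2 ^ (k + 1)), bk a k n * g n := by
  induction m with
  | zero => simp [ha]
  | succ m ih =>
    rw [sum_range_succ, ← ih]
    have h1 : Icc 1 (2 ^ (m + 1)) = Icc 1 (2 ^ m) ∪ Ioc (2 ^ m) (2 ^ (m + 1)) := by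
      ext n
      have h2 : 1 ≤ 2 ^ m := Nat.one_le_two_pow
      have h3 : 2 ^ (m + 1) = 2 * 2 ^ m := by ring
      simp only [mem_union, mem_Icc, mem_Ioc]
      omega
    have h2 : Disjoint (Icc 1 (2 ^ m)) (Ioc (2 ^ m) (2 ^ (m + 1))) := by
      rw [disjoint_left]
      intro n hn hn'
      rw [mem_Icc] at hn
      rw [mem_Ioc] at hn'
      omega
    have h3 : ∑ n ∈ Icc 1 (2 ^ (m + 1)), bk a m n * g n =
        ∑ n ∈ Ioc (2 ^ m) (2 ^ (m + 1)), a n * g n := by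
      rw [h1, sum_union h2]
      have h4 : ∑ n ∈ Icc 1 (2 ^ m), bk a m n * g n = 0 := by
        apply sum_eq_zero
        intro n hn
        rw [mem_Icc] at hn
        unfold bk
        rw [if_neg (by omega), zero_mul]
      rw [h4, zero_add]
      refine sum_congr rfl fun n hn => ?_
      rw [mem_Ioc] at hn
      unfold bk
      rw [if_pos hn]
    rw [h3, h1, sum_union h2]

theorem one_sub_two_rpow {σ : ℝ} (h0 : 0 < σ) (h1 : σ ≤ 1) :
    σ / 3 ≤ 1 - (2 : ℝ) ^ (-σ) := by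
  have h2 : (2 : ℝ) ^ (-σ) = Real.exp (-(σ * Real.log 2)) := by
    rw [Real.rpow_def_of_pos (by norm_num)]
    congr 1
    ring
  have h3 : Real.log 2 < 0.6931471808 := Real.log_two_lt_d9
  have h4 : 0.6931471803 < Real.log 2 := Real.log_two_gt_d9
  set t := σ * Real.log 2 with ht
  have ht0 : 0 < t := by positivity
  have ht1 : t ≤ 0.7 := by
    have : t ≤ 1 * Real.log 2 := mul_le_mul_of_nonneg_right h1 (by linarith)
    linarith
  have h5 : Real.exp (-t) ≤ 1 - t + t ^ 2 / 2 := by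
    have h6 : 1 + t + t ^ 2 / 2 ≤ Real.exp t := by
      have := Real.quadratic_le_exp_of_nonneg ht0.le
      linarith
    rw [Real.exp_neg]
    have h7 : 0 < 1 + t + t ^ 2 / 2 := by positivity
    calc (Real.exp t)⁻¹ ≤ (1 + t + t ^ 2 / 2)⁻¹ := inv_anti₀ h7 h6
      _ ≤ 1 - t + t ^ 2 / 2 := by
        rw [inv_le_iff_one_le_mul₀ h7]
        nlinarith [sq_nonneg (t ^ 2)]
  rw [h2]
  have h8 : t ≥ 0.69 * σ := by
    rw [ht]
    nlinarith
  have h9 : t - t ^ 2 / 2 ≥ σ / 3 := by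
    have h10 : t ^ 2 ≤ 0.7 * σ * t := by
      have : t ≤ 0.7 * σ := by
        rw [ht]; nlinarith
      nlinarith
    have h11 : t * (1 - 0.35 * σ) ≥ 0.69 * σ * (1 - 0.35 * σ) :=
      mul_le_mul_of_nonneg_right h8 (by nlinarith)
    nlinarith
  linarith

theorem geom_bd {σ : ℝ} (h0 : 0 < σ) (h1 : σ ≤ 1) (m : ℕ) :
    ∑ k ∈ range m, ((2 : ℝ) ^ (-σ)) ^ k ≤ 3 / σ := by
  set x := (2 : ℝ) ^ (-σ) with hx
  have hx0 : 0 < x := Real.rpow_pos_of_pos (by norm_num) _
  have h2 := one_sub_two_rpow h0 h1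
  rw [← hx] at h2
  have hx1 : x < 1 := by linarith
  have h3 : ∑ k ∈ range m, x ^ k ≤ 1 / (1 - x) := by
    rw [le_div_iff₀ (by linarith), geom_sum_mul_neg]
    have := pow_nonneg hx0.le m
    linarith
  refine h3.trans ?_
  rw [div_le_div_iff₀ (by linarith) h0]
  linarith

theorem PS_sum_le (m : ℕ) (a : ℕ → ℂ) (ha : a 1 = 0) (x : ℝ) (hx : 0 < x) (f : ℕ) (hf : 1 ≤ f) :
    PS (2 ^ m) a f ≤ (∑ k ∈ range m, x ^ k) *
      ∑ k ∈ range m, PS (2 ^ (k + 1)) (bk a k) f / x ^ k := by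
  classical
  haveI : NeZero f := ⟨by omega⟩
  rw [PS_eq]
  simp_rw [PS_eq, sum_div]
  rw [sum_comm, mul_sum]
  apply sum_le_sum
  intro χ _
  rw [sum_bk a ha (fun n => χ (n : ZMod f)) m]
  have h1 : ‖∑ k ∈ range m, ∑ n ∈ Icc 1 (2 ^ (k + 1)), bk a k n * χ (n : ZMod f)‖ ^ 2 ≤
      (∑ k ∈ range m, ‖∑ n ∈ Icc 1 (2 ^ (k + 1)), bk a k n * χ (n : ZMod f)‖) ^ 2 :=
    pow_le_pow_left₀ (norm_nonneg _) (norm_sum_le _ _) 2
  refine h1.trans ?_
  apply sum_sq_le_sum_mul_sum_of_sq_le_mul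
  · intro k _; positivity
  · intro k _; positivity
  · intro k _
    apply le_of_eq
    field_simp

/-- **mean squares of finite sums** -/
theorem l2_fin : ∃ C : ℝ, 0 < C ∧ ∀ (Z F R m : ℕ) (σ K : ℝ) (a : ℕ → ℂ), 32 ≤ Z → 1 ≤ F → 1 ≤ R →
    (F * R) ^ 2 ≤ Z → 0 < σ → σ ≤ 1 → 0 ≤ K → (∀ n, a n ≠ 0 → Rgh Z n ∧ 1 < n) →
    (∀ n, ‖a n‖ ≤ K / (n : ℝ) ^ (1 + σ)) →
    Real.log R * ∑ f ∈ Icc 1 F, PS (2 ^ m) a f ≤ C * K ^ 2 / (σ ^ 2 * Real.log Z) := by
  obtain ⟨C₁, hC₁, hrc⟩ := rough_count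
  refine ⟨4000 * C₁, by positivity, ?_⟩
  classical
  intro Z F R m σ K a hZ hF hR hFR hσ hσ1 hK ha1 ha2
  have hL := Pool.Agent.W505.MH.log_ge_one hZ
  have hR1 : (1 : ℝ) ≤ R := by exact_mod_cast hR
  have hlR : 0 ≤ Real.log R := Real.log_nonneg hR1
  have hFRZ : F * R ≤ Z := (Nat.le_self_pow (by norm_num) _).trans hFR
  have ha_one : a 1 = 0 := by
    by_contra h
    exact absurd (ha1 1 h).2 (by norm_num)
  set x := (2 : ℝ) ^ (-σ) with hx
  have hx0 : 0 < x := Real.rpow_pos_of_pos (by norm_num) _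
  -- one block
  have hblock : ∀ k : ℕ, Real.log R * ∑ f ∈ Icc 1 F, PS (2 ^ (k + 1)) (bk a k) f ≤
      400 * C₁ * K ^ 2 * (x ^ k) ^ 2 / Real.log Z := by
    intro k
    have h1 := ls_rough F R (2 ^ (k + 1)) hR (bk a k) (by
      rintro n ⟨p, hp, hpF, hpn⟩
      unfold bk
      split_ifs
      · by_contra h
        exact (ha1 n h).1 p hp (hpF.trans hFRZ) hpn
      · rfl)
    refine h1.trans ?_
    have hR0 : 0 ≤ 400 * C₁ * K ^ 2 * (x ^ k) ^ 2 / Real.log Z := by positivity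
    by_cases hkZ : 2 ^ (k + 1) ≤ Z
    · have h2 : ∑ n ∈ Icc 1 (2 ^ (k + 1)), ‖bk a k n‖ ^ 2 = 0 := by
        apply sum_eq_zero
        intro n hn
        rw [mem_Icc] at hn
        have : bk a k n = 0 := by
          unfold bk
          split_ifs
          · by_contra h
            have h3 := ha1 n h
            have := rgh_gt h3.1 h3.2
            omega
          · rfl
        rw [this]; simp
      rw [h2, mul_zero]
      exact hR0
    · push Not at hkZ
      have h2k : (2 : ℝ) ^ k > 0 := by positivity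
      have hterm : ∀ n ∈ Icc 1 (2 ^ (k + 1)), ‖bk a k n‖ ^ 2 ≤
          (if Rgh Z n ∧ n ≡ 1 [MOD 1] then K ^ 2 * (x ^ k) ^ 2 / ((2 : ℝ) ^ k) ^ 2 else 0) := by
        intro n hn
        by_cases h0 : bk a k n = 0
        · rw [h0, norm_zero, zero_pow (by norm_num)]
          split_ifs
          · positivity
          · exact le_rfl
        · unfold bk at h0 ⊢
          by_cases h3 : 2 ^ k < n ∧ n ≤ 2 ^ (k + 1)
          · rw [if_pos h3] at h0 ⊢
            rw [if_pos ⟨(ha1 n h0).1, Nat.modEq_one⟩]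
            have hn0 : (2 : ℝ) ^ k ≤ n := by exact_mod_cast h3.1.le
            have h4 : ((2 : ℝ) ^ k) ^ (1 + σ) ≤ (n : ℝ) ^ (1 + σ) :=
              Real.rpow_le_rpow h2k.le hn0 (by linarith)
            have h5 : ((2 : ℝ) ^ k) ^ (1 + σ) = (2 : ℝ) ^ k / x ^ k := by
              rw [Real.rpow_add h2k, Real.rpow_one, hx, div_eq_mul_inv]
              congr 1
              rw [← Real.rpow_natCast, ← Real.rpow_mul (by norm_num), ← Real.rpow_natCast,
                ← Real.rpow_mul (by norm_num), ← Real.rpow_neg (by norm_num)]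
              congr 1
              ring
            have h6 : ‖a n‖ ≤ K * x ^ k / (2 : ℝ) ^ k := by
              refine (ha2 n).trans ?_
              rw [h5] at h4
              calc K / (n : ℝ) ^ (1 + σ) ≤ K / ((2 : ℝ) ^ k / x ^ k) :=
                    div_le_div_of_nonneg_left hK (by positivity) h4
                _ = K * x ^ k / (2 : ℝ) ^ k := by field_simp
            calc ‖a n‖ ^ 2 ≤ (K * x ^ k / (2 : ℝ) ^ k) ^ 2 :=
                  pow_le_pow_left₀ (norm_nonneg _) h6 2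
              _ = _ := by rw [div_pow, mul_pow]
          · rw [if_neg h3] at h0
            exact absurd rfl h0
      have hsum : ∑ n ∈ Icc 1 (2 ^ (k + 1)), ‖bk a k n‖ ^ 2 ≤
          C₁ * 2 ^ (k + 1) / Real.log Z * (K ^ 2 * (x ^ k) ^ 2 / ((2 : ℝ) ^ k) ^ 2) := by
        refine (sum_le_sum hterm).trans ?_
        classical
        rw [← sum_filter, sum_const, nsmul_eq_mul]
        apply mul_le_mul_of_nonneg_right _ (by positivity)
        have h3 := hrc Z (2 ^ (k + 1)) hZ hkZ.le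
        unfold rc at h3
        push_cast at h3
        convert h3 using 2
      have hN : (((2 ^ (k + 1) : ℕ) : ℝ) + ((F * R : ℕ) : ℝ) ^ 2) ≤ 2 * (2 : ℝ) ^ (k + 1) := by
        have h3 : ((F * R : ℕ) : ℝ) ^ 2 ≤ (2 : ℝ) ^ (k + 1) := by
          have : (F * R) ^ 2 ≤ 2 ^ (k + 1) := hFR.trans hkZ.le
          exact_mod_cast this
        push_cast at h3 ⊢
        linarith
      calc 12 * (((2 ^ (k + 1) : ℕ) : ℝ) + ((F * R : ℕ) : ℝ) ^ 2) *
            ∑ n ∈ Icc 1 (2 ^ (k + 1)), ‖bk a k n‖ ^ 2 ≤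
          12 * (2 * (2 : ℝ) ^ (k + 1)) *
            (C₁ * 2 ^ (k + 1) / Real.log Z * (K ^ 2 * (x ^ k) ^ 2 / ((2 : ℝ) ^ k) ^ 2)) := by
            apply mul_le_mul _ hsum (sum_nonneg fun _ _ => by positivity) (by positivity)
            linarith
        _ = 96 * C₁ * K ^ 2 * (x ^ k) ^ 2 / Real.log Z := by
            rw [pow_succ (2 : ℝ) k]
            field_simp
            ring
        _ ≤ _ := by
            have : 0 ≤ C₁ * K ^ 2 * (x ^ k) ^ 2 / Real.log Z := by positivity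
            have e1 : 96 * C₁ * K ^ 2 * (x ^ k) ^ 2 / Real.log Z =
                96 * (C₁ * K ^ 2 * (x ^ k) ^ 2 / Real.log Z) := by ring
            have e2 : 400 * C₁ * K ^ 2 * (x ^ k) ^ 2 / Real.log Z =
                400 * (C₁ * K ^ 2 * (x ^ k) ^ 2 / Real.log Z) := by ring
            rw [e1, e2]
            linarith
  have hg := geom_bd hσ hσ1 m
  rw [← hx] at hg
  have hg0 : 0 ≤ ∑ k ∈ range m, x ^ k := sum_nonneg fun _ _ => by positivity
  calc Real.log R * ∑ f ∈ Icc 1 F, PS (2 ^ m) a f ≤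
      Real.log R * ∑ f ∈ Icc 1 F, ((∑ k ∈ range m, x ^ k) *
        ∑ k ∈ range m, PS (2 ^ (k + 1)) (bk a k) f / x ^ k) := by
        apply mul_le_mul_of_nonneg_left _ hlR
        apply sum_le_sum
        intro f hf
        exact PS_sum_le m a ha_one x hx0 f (mem_Icc.1 hf).1
    _ = (∑ k ∈ range m, x ^ k) * ∑ k ∈ range m,
          (Real.log R * ∑ f ∈ Icc 1 F, PS (2 ^ (k + 1)) (bk a k) f) / x ^ k := by
        generalize (∑ k ∈ range m, x ^ k) = G
        simp_rw [mul_sum, sum_div, mul_sum]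
        rw [sum_comm]
        refine sum_congr rfl fun k _ => sum_congr rfl fun f _ => ?_
        ring
    _ ≤ (∑ k ∈ range m, x ^ k) * ∑ k ∈ range m, (400 * C₁ * K ^ 2 / Real.log Z) * x ^ k := by
        apply mul_le_mul_of_nonneg_left _ hg0
        apply sum_le_sum
        intro k _
        rw [div_le_iff₀ (by positivity)]
        refine (hblock k).trans (le_of_eq ?_)
        ring
    _ = (400 * C₁ * K ^ 2 / Real.log Z) * ((∑ k ∈ range m, x ^ k) * (∑ k ∈ range m, x ^ k)) := by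
        rw [← mul_sum]; ring
    _ ≤ (400 * C₁ * K ^ 2 / Real.log Z) * ((3 / σ) * (3 / σ)) := by
        apply mul_le_mul_of_nonneg_left _ (by positivity)
        exact mul_le_mul hg hg hg0 (by positivity)
    _ = 3600 * (C₁ * K ^ 2 / (σ ^ 2 * Real.log Z)) := by
        field_simp
        ring
    _ ≤ _ := by
        have : 0 ≤ C₁ * K ^ 2 / (σ ^ 2 * Real.log Z) := by positivity
        have e2 : 4000 * C₁ * K ^ 2 / (σ ^ 2 * Real.log Z) =
            4000 * (C₁ * K ^ 2 / (σ ^ 2 * Real.log Z)) := by ring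
        rw [e2]
        linarith

end Run7.h296
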