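import Mathlib

/-!
Sums of periodic functions against decreasing weights.
-/

set_option autoImplicit false

open Finset

namespace Run7.h296

theorem per_mod {R : Type*} {f : ℕ → R} {M : ℕ} (hf : Function.Periodic f M) (n : ℕ) :
    f (n % M) = f n := by
  have h := hf.map_mod_nat n
  exact h

theorem crt_sum {R : Type*} [CommSemiring R] {M N : ℕ} (hM : 0 < M) (hN : 0 < N)
    (h : Nat.Coprime M N) (f g : ℕ → R) (hf : Function.Periodic f M) (hg : Function.Periodic g N) :
    ∑ x ∈ range (M * N), f x * g x = (∑ x ∈ range M, f x) * ∑ x ∈ range N, g x := by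
  rw [sum_mul_sum, ← sum_product']
  apply sum_nbij' (i := fun x => (x % M, x % N))
    (j := fun x => ((Nat.chineseRemainder h x.1 x.2 : ℕ)))
  · intro x _
    simp only [mem_product, mem_range]
    exact ⟨Nat.mod_lt _ hM, Nat.mod_lt _ hN⟩
  · intro x _
    rw [mem_range]
    exact Nat.chineseRemainder_lt_mul h _ _ hM.ne' hN.ne'
  · intro x hx
    rw [mem_range] at hx
    have h1 : x ≡ (Nat.chineseRemainder h (x % M) (x % N) : ℕ) [MOD M * N] := by
      apply Nat.chineseRemainder_modEq_unique h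
      · exact (Nat.mod_modEq x M).symm
      · exact (Nat.mod_modEq x N).symm
    have h2 : ((Nat.chineseRemainder h (x % M) (x % N) : ℕ)) < M * N :=
      Nat.chineseRemainder_lt_mul h _ _ hM.ne' hN.ne'
    have h3 : x % (M * N) = (Nat.chineseRemainder h (x % M) (x % N) : ℕ) % (M * N) := h1
    rw [Nat.mod_eq_of_lt hx, Nat.mod_eq_of_lt h2] at h3
    exact h3.symm
  · rintro ⟨a, b⟩ hx
    simp only [mem_product, mem_range] at hx
    have h1 := (Nat.chineseRemainder h a b).2
    have e1 : ((Nat.chineseRemainder h a b : ℕ)) % M = a := by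
      have := h1.1
      unfold Nat.ModEq at this
      rw [this, Nat.mod_eq_of_lt hx.1]
    have e2 : ((Nat.chineseRemainder h a b : ℕ)) % N = b := by
      have := h1.2
      unfold Nat.ModEq at this
      rw [this, Nat.mod_eq_of_lt hx.2]
    rw [e1, e2]
  · intro x _
    simp only
    rw [per_mod hf, per_mod hg]

theorem prod_periodic {R : Type*} [CommSemiring R] (u : Finset ℕ) (ψ : ℕ → ℕ → R)
    (hψ : ∀ p ∈ u, Function.Periodic (ψ p) p) :
    Function.Periodic (fun l => ∏ p ∈ u, ψ p l) (∏ p ∈ u, p) := by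
  intro l
  refine prod_congr rfl fun p hp => ?_
  obtain ⟨c, hc⟩ := dvd_prod_of_mem (fun p => p) hp
  rw [hc, mul_comm p c]
  have h1 : ∀ c l, ψ p (l + c * p) = ψ p l := by
    intro c
    induction c with
    | zero => intro l; simp
    | succ c ih =>
      intro l
      have : l + (c + 1) * p = (l + c * p) + p := by ring
      rw [this, hψ p hp (l + c * p), ih]
  exact h1 c l

theorem prime_cop {u : Finset ℕ} {q : ℕ} (hu : ∀ p ∈ insert q u, p.Prime) (hq : q ∉ u) :
    Nat.Coprime q (∏ p ∈ u, p) := by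
  apply Nat.Coprime.prod_right
  intro p hp
  apply (Nat.coprime_primes (hu q (mem_insert_self _ _)) (hu p (mem_insert_of_mem hp))).2
  rintro rfl
  exact hq hp

theorem prod_primes_pos {u : Finset ℕ} (hu : ∀ p ∈ u, p.Prime) : 0 < ∏ p ∈ u, p :=
  prod_pos fun p hp => (hu p hp).pos

theorem crt_prod {R : Type*} [CommSemiring R] (u : Finset ℕ) (hu : ∀ p ∈ u, p.Prime)
    (ψ : ℕ → ℕ → R) (hψ : ∀ p ∈ u, Function.Periodic (ψ p) p) :
    ∑ x ∈ range (∏ p ∈ u, p), ∏ p ∈ u, ψ p x = ∏ p ∈ u, ∑ x ∈ range p, ψ p x := by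
  induction u using Finset.induction_on with
  | empty => simp
  | insert q u hq ih =>
    rw [prod_insert hq, prod_insert hq]
    have hu' : ∀ p ∈ u, p.Prime := fun p hp => hu p (mem_insert_of_mem hp)
    have h1 := ih hu' (fun p hp => hψ p (mem_insert_of_mem hp))
    rw [← h1, ← crt_sum (hu q (mem_insert_self _ _)).pos (prod_primes_pos hu')
      (prime_cop hu hq) (ψ q) (fun x => ∏ p ∈ u, ψ p x) (hψ q (mem_insert_self _ _))
      (prod_periodic u ψ fun p hp => hψ p (mem_insert_of_mem hp))]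
    refine sum_congr rfl fun x _ => ?_
    rw [prod_insert hq]

theorem sum_shift {R : Type*} [AddCommMonoid R] {M : ℕ} (G : ℕ → R)
    (hG : Function.Periodic G M) (c : ℕ) : ∑ r ∈ range M, G (r + c) = ∑ r ∈ range M, G r := by
  induction c with
  | zero => simp
  | succ c ih =>
    rw [← ih]
    rcases Nat.eq_zero_or_pos M with h0 | h0
    · subst h0; simp
    · obtain ⟨m, rfl⟩ : ∃ m, M = m + 1 := ⟨M - 1, by omega⟩
      rw [sum_range_succ, sum_range_succ' (fun r => G (r + c))]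
      congr 1
      · refine sum_congr rfl fun r _ => ?_
        congr 1
        omega
      · have h1 := hG c
        rw [zero_add, ← h1]
        congr 1
        omega

/-- the sum over a residue class -/
noncomputable def rs (φ : ℕ → ℝ) (M r : ℕ) : ℝ := ∑' j : ℕ, φ (r + M * j)

theorem rs_summable {φ : ℕ → ℝ} (hs : Summable φ) {M : ℕ} (hM : 0 < M) (r : ℕ) :
    Summable (fun j : ℕ => φ (r + M * j)) := by
  apply hs.comp_injective
  intro a b hab
  simp only at hab
  have : M * a = M * b := by omega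
  exact Nat.eq_of_mul_eq_mul_left hM this

theorem rs_close {φ : ℕ → ℝ} (hφ : Antitone φ) (hs : Summable φ) {M : ℕ} (hM : 0 < M)
    (r r' : ℕ) (hr' : r' < M) : rs φ M r - rs φ M r' ≤ φ 0 := by
  have h1 : rs φ M r ≤ rs φ M 0 := by
    unfold rs
    apply Summable.tsum_le_tsum _ (rs_summable hs hM r) (rs_summable hs hM 0)
    intro j
    apply hφ
    omega
  have h2 : rs φ M 0 = φ 0 + ∑' j : ℕ, φ (0 + M * (j + 1)) := by
    unfold rs
    rw [(rs_summable hs hM 0).tsum_eq_zero_add]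
    simp
  have h3 : ∑' j : ℕ, φ (0 + M * (j + 1)) ≤ rs φ M r' := by
    unfold rs
    apply Summable.tsum_le_tsum _ _ (rs_summable hs hM r')
    · intro j
      apply hφ
      rw [mul_add]
      omega
    · exact (summable_nat_add_iff 1).2 (rs_summable hs hM 0)
  linarith

theorem tsum_res (F : ℕ → ℝ) (hF : Summable F) {M : ℕ} (hM : 0 < M) :
    ∑' l, F l = ∑ r ∈ range M, ∑' j : ℕ, F (r + M * j) := by
  have : NeZero M := ⟨hM.ne'⟩
  rw [Nat.sumByResidueClasses hF M]
  obtain ⟨m, rfl⟩ : ∃ m, M = m + 1 := ⟨M - 1, by omega⟩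
  exact Fin.sum_univ_eq_sum_range (fun r => ∑' j : ℕ, F (r + (m + 1) * j)) (m + 1)

theorem per_add {R : Type*} {G : ℕ → R} {M : ℕ} (hG : Function.Periodic G M) (r j : ℕ) :
    G (r + M * j) = G r := by
  induction j with
  | zero => simp
  | succ j ih =>
    have : r + M * (j + 1) = (r + M * j) + M := by ring
    rw [this, hG, ih]

theorem per_bdd {G : ℕ → ℝ} {M : ℕ} (hM : 0 < M) (hG : Function.Periodic G M) (l : ℕ) :
    |G l| ≤ ∑ r ∈ range M, |G r| := by
  rw [← per_mod hG l]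
  exact single_le_sum (f := fun r => |G r|) (fun r _ => abs_nonneg _)
    (mem_range.2 (Nat.mod_lt _ hM))

/-- **periodic functions against decreasing weights** -/
theorem per_sum {φ : ℕ → ℝ} (hφ : Antitone φ) (h0 : ∀ l, 0 ≤ φ l) (hs : Summable φ) {M : ℕ}
    (hM : 0 < M) (G : ℕ → ℝ) (hG : Function.Periodic G M) :
    |∑' l, φ l * G l - (∑' l, φ l) * ((∑ r ∈ range M, G r) / M)| ≤
      φ 0 * ∑ r ∈ range M, |G r| := by
  have hM0 : (0 : ℝ) < M := by exact_mod_cast hM
  have hsG : Summable (fun l => φ l * G l) := by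
    apply Summable.of_norm_bounded (g := fun l => φ l * ∑ r ∈ range M, |G r|)
      (hs.mul_right _)
    intro l
    rw [Real.norm_eq_abs, abs_mul, abs_of_nonneg (h0 l)]
    exact mul_le_mul_of_nonneg_left (per_bdd hM hG l) (h0 l)
  have e1 : ∑' l, φ l * G l = ∑ r ∈ range M, G r * rs φ M r := by
    rw [tsum_res _ hsG hM]
    refine sum_congr rfl fun r _ => ?_
    unfold rs
    rw [← tsum_mul_left]
    refine tsum_congr fun j => ?_
    rw [per_add hG]
    ring
  have e2 : ∑' l, φ l = ∑ r ∈ range M, rs φ M r := tsum_res _ hs hM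
  have hclose : ∀ r ∈ range M, |rs φ M r - (∑' l, φ l) / M| ≤ φ 0 := by
    intro r hr
    have h1 : rs φ M r - (∑' l, φ l) / M = (∑ r' ∈ range M, (rs φ M r - rs φ M r')) / M := by
      rw [sum_sub_distrib, sum_const, card_range, nsmul_eq_mul, e2]
      field_simp
    rw [h1, abs_div, abs_of_pos hM0, div_le_iff₀ hM0]
    refine (abs_sum_le_sum_abs _ _).trans ?_
    calc ∑ r' ∈ range M, |rs φ M r - rs φ M r'| ≤ ∑ _r' ∈ range M, φ 0 := by
          apply sum_le_sum
          intro r' hr'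
          rw [abs_le]
          constructor
          · have := rs_close hφ hs hM r' r (mem_range.1 hr)
            linarith
          · exact rs_close hφ hs hM r r' (mem_range.1 hr')
      _ = φ 0 * M := by rw [sum_const, card_range, nsmul_eq_mul, mul_comm]
  have e3 : ∑' l, φ l * G l - (∑' l, φ l) * ((∑ r ∈ range M, G r) / M) =
      ∑ r ∈ range M, G r * (rs φ M r - (∑' l, φ l) / M) := by
    rw [e1]
    simp_rw [mul_sub]
    rw [sum_sub_distrib, ← sum_mul]
    congr 1
    ring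
  rw [e3]
  refine (abs_sum_le_sum_abs _ _).trans ?_
  rw [mul_sum]
  apply sum_le_sum
  intro r hr
  rw [abs_mul, mul_comm (φ 0)]
  exact mul_le_mul_of_nonneg_left (hclose r hr) (abs_nonneg _)

/-- the restriction of a weight to the arguments beyond `l₀` -/
noncomputable def cu (φ : ℕ → ℝ) (l₀ l : ℕ) : ℝ := if l₀ < l then φ l else 0

theorem cu_summable {φ : ℕ → ℝ} (hs : Summable φ) (l₀ : ℕ) : Summable (cu φ l₀) := by
  apply (hs.indicator {l | l₀ < l}).congr
  intro l
  unfold cu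
  rw [Set.indicator_apply]
  simp only [Set.mem_ofPred_eq]

theorem tsum_cu (F : ℕ → ℝ) (hF : Summable F) (l₀ : ℕ) :
    ∑' l, cu F l₀ l = ∑' n, F (n + (l₀ + 1)) := by
  rw [← (cu_summable hF l₀).sum_add_tsum_nat_add (l₀ + 1)]
  have h1 : ∑ i ∈ range (l₀ + 1), cu F l₀ i = 0 := by
    apply sum_eq_zero
    intro i hi
    unfold cu
    rw [if_neg]
    rw [mem_range] at hi
    omega
  rw [h1, zero_add]
  refine tsum_congr fun n => ?_
  unfold cu
  rw [if_pos (by omega)]

theorem per_sum_cu {φ : ℕ → ℝ} (l₀ : ℕ) (hφ : ∀ a b, l₀ ≤ a → a ≤ b → φ b ≤ φ a)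
    (h0 : ∀ l, l₀ ≤ l → 0 ≤ φ l) (hs : Summable φ) {M : ℕ}
    (hM : 0 < M) (G : ℕ → ℝ) (hG : Function.Periodic G M) :
    |∑' l, cu φ l₀ l * G l - (∑' l, cu φ l₀ l) * ((∑ r ∈ range M, G r) / M)| ≤
      φ l₀ * ∑ r ∈ range M, |G r| := by
  have hsG : Summable (fun l => φ l * G l) := by
    apply Summable.of_norm_bounded (g := fun l => |φ l| * ∑ r ∈ range M, |G r|)
      (hs.abs.mul_right _)
    intro l
    rw [Real.norm_eq_abs, abs_mul]
    exact mul_le_mul_of_nonneg_left (per_bdd hM hG l) (abs_nonneg _)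
  have e1 : ∑' l, cu φ l₀ l * G l = ∑' n, φ (n + (l₀ + 1)) * G (n + (l₀ + 1)) := by
    rw [← tsum_cu (fun l => φ l * G l) hsG l₀]
    refine tsum_congr fun l => ?_
    unfold cu
    split_ifs <;> simp
  have e2 := tsum_cu φ hs l₀
  rw [e1, e2]
  have hanti : Antitone (fun n => φ (n + (l₀ + 1))) := by
    intro a b hab
    exact hφ _ _ (by omega) (by omega)
  have hG' : Function.Periodic (fun n => G (n + (l₀ + 1))) M := by
    intro n
    show G (n + M + (l₀ + 1)) = G (n + (l₀ + 1))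
    have : n + M + (l₀ + 1) = (n + (l₀ + 1)) + M := by ring
    rw [this, hG]
  have h1 := per_sum hanti (fun l => h0 _ (by omega))
    ((summable_nat_add_iff (l₀ + 1)).2 hs) hM (fun n => G (n + (l₀ + 1))) hG'
  rw [sum_shift G hG (l₀ + 1), sum_shift (fun r => |G r|) (fun r => by
    show |G (r + M)| = |G r|
    rw [hG r]) (l₀ + 1)] at h1
  refine h1.trans ?_
  apply mul_le_mul_of_nonneg_right
  · exact hφ _ _ le_rfl (by omega)
  · exact sum_nonneg fun _ _ => abs_nonneg _

/-- **products of local functions against decreasing weights** -/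
theorem per_prod {φ : ℕ → ℝ} (l₀ : ℕ) (hφ : ∀ a b, l₀ ≤ a → a ≤ b → φ b ≤ φ a)
    (h0 : ∀ l, l₀ ≤ l → 0 ≤ φ l) (hs : Summable φ) (u : Finset ℕ) (hu : ∀ p ∈ u, p.Prime)
    (ψ : ℕ → ℕ → ℝ) (hψ : ∀ p ∈ u, Function.Periodic (ψ p) p) :
    |∑' l, cu φ l₀ l * ∏ p ∈ u, ψ p l -
      (∑' l, cu φ l₀ l) * ∏ p ∈ u, ((∑ r ∈ range p, ψ p r) / p)| ≤
      φ l₀ * ∏ p ∈ u, ∑ r ∈ range p, |ψ p r| := by
  have h1 := per_sum_cu l₀ hφ h0 hs (prod_primes_pos hu) (fun l => ∏ p ∈ u, ψ p l)
    (prod_periodic u ψ hψ)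
  rw [crt_prod u hu ψ hψ] at h1
  have e1 : (∏ p ∈ u, ∑ x ∈ range p, ψ p x) / ((∏ p ∈ u, p : ℕ) : ℝ) =
      ∏ p ∈ u, ((∑ r ∈ range p, ψ p r) / p) := by
    push_cast
    rw [prod_div_distrib]
  have e2 : ∑ r ∈ range (∏ p ∈ u, p), |∏ p ∈ u, ψ p r| = ∏ p ∈ u, ∑ r ∈ range p, |ψ p r| := by
    rw [← crt_prod u hu (fun p l => |ψ p l|) (fun p hp l => by
      show |ψ p (l + p)| = |ψ p l|
      rw [hψ p hp l])]
    refine sum_congr rfl fun x _ => ?_
    rw [abs_prod]
  rw [e1, e2] at h1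
  exact h1

end Run7.h296
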