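import Pool.Agent.Run7.h296.BL
import Pool.Agent.Run7.h296.TypeI

/-!
Sums of the coefficients of `BL` against products of local functions.
-/

set_option autoImplicit false

open Finset Filter Topology

namespace Run7.h296

open Pool.Agent.H262R3.Lk
open Pool.Agent.H318R2.Cr (Rgh)

/-- the coefficients of `BL` -/
noncomputable def gR (Z : ℕ) (σ : ℝ) (n : ℕ) : ℝ := bj Z 1 1 2 σ n - aj Z 1 1 3 σ n

theorem gR_ne {Z : ℕ} {σ : ℝ} {n : ℕ} (h : gR Z σ n ≠ 0) : Rgh Z n ∧ 1 < n := by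
  by_contra hc
  apply h
  unfold gR bj aj
  rw [if_neg (show ¬ (Rgh Z n ∧ n ≡ 1 [MOD 1] ∧ 1 < n) from fun h' => hc ⟨h'.1, h'.2.2⟩),
    sub_zero]
  split_ifs with h1
  · have h2 : ¬ 1 < n := fun h' => hc ⟨h1.1, h'⟩
    have h3 : n = 0 ∨ n = 1 := by omega
    rcases h3 with rfl | rfl <;> simp
  · rfl

theorem gR_summable (Z : ℕ) {σ : ℝ} (hσ : 0 < σ) : Summable (gR Z σ) :=
  (Pool.Agent.W933.MHSum.sum_ Z 1 1 2 σ hσ).2.1.sub (Pool.Agent.W933.MHSum.sum_ Z 1 1 3 σ hσ).1

theorem BL_eq (Z : ℕ) {q : ℕ} (χ : DirichletCharacter ℂ q) {σ : ℝ} (hσ : 0 < σ) :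
    BL Z χ σ = ∑' n : ℕ, χ (n : ZMod q) * ((gR Z σ n : ℝ) : ℂ) := by
  have h1 := Pool.Agent.W933.MHSum.sum_ Z 1 1 2 σ hσ
  have h2 := Pool.Agent.W933.MHSum.sum_ Z 1 1 3 σ hσ
  have s1 : Summable (fun n : ℕ => fz Z χ n *
      ((ArithmeticFunction.vonMangoldt n * ((Real.log n) ^ 2 / (n : ℝ) ^ (1 + σ)) : ℝ) : ℂ)) := by
    refine Summable.of_norm_bounded h1.2.2.2 fun n => ?_
    have h0 : 0 ≤ Real.log (n : ℝ) := Real.log_natCast_nonneg n
    have h3 : 0 ≤ ArithmeticFunction.vonMangoldt n := ArithmeticFunction.vonMangoldt_nonneg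
    rw [norm_mul, Complex.norm_real, Real.norm_of_nonneg (by positivity)]
    exact mul_le_of_le_one_left (by positivity) (Alg.fz_le Z χ n)
  have s2 : Summable (fun n : ℕ => fz Z χ n *
      (((Real.log n) ^ 3 / (n : ℝ) ^ (1 + σ) : ℝ) : ℂ)) := by
    refine Summable.of_norm_bounded h2.2.2.1 fun n => ?_
    have h0 : 0 ≤ Real.log (n : ℝ) := Real.log_natCast_nonneg n
    rw [norm_mul, Complex.norm_real, Real.norm_of_nonneg (by positivity)]
    exact mul_le_of_le_one_left (by positivity) (Alg.fz_le Z χ n)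
  unfold BL Dj Lj
  rw [← s1.tsum_sub s2]
  refine tsum_congr fun n => ?_
  unfold gR fz bj aj
  by_cases h : Rgh Z n
  · by_cases h3 : 1 < n
    · rw [if_pos h, if_pos ⟨h, Nat.modEq_one⟩, if_pos ⟨h, Nat.modEq_one, h3⟩]
      push_cast
      ring
    · rw [if_pos h, if_pos ⟨h, Nat.modEq_one⟩, if_neg (fun h' => h3 h'.2.2)]
      have h4 : n = 0 ∨ n = 1 := by omega
      rcases h4 with rfl | rfl <;> simp
  · rw [if_neg h, if_neg (fun h' => h h'.1), if_neg (fun h' => h h'.1)]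
    simp

theorem conj_char {Q : ℕ} [NeZero Q] {u : ℕ} (hu : u.Coprime Q) (χ : DirichletCharacter ℂ Q) :
    (starRingEnd ℂ) (χ (u : ZMod Q)) = χ ((u : ZMod Q)⁻¹) := by
  have hun : IsUnit ((u : ℕ) : ZMod Q) := (ZMod.isUnit_iff_coprime u Q).2 hu
  have h1 : χ ((u : ZMod Q)⁻¹) * χ (u : ZMod Q) = 1 := by
    rw [← map_mul, ZMod.inv_mul_of_unit _ hun, map_one]
  have h2 : ‖χ (u : ZMod Q)‖ = 1 := by
    have := H385.norm_char_unit χ hun.unit
    rwa [IsUnit.unit_spec] at this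
  rw [← Complex.inv_eq_conj h2]
  exact (eq_inv_of_mul_eq_one_left h1).symm

/-- inversion -/
theorem inv_formula (Z : ℕ) {Q : ℕ} [NeZero Q] {u : ℕ} (hu : u.Coprime Q) (huQ : u < Q) {σ : ℝ}
    (hσ : 0 < σ) :
    ((Q.totient : ℝ) : ℂ) * ((∑' j : ℕ, gR Z σ (u + Q * j) : ℝ) : ℂ) =
      ∑ χ : DirichletCharacter ℂ Q, (starRingEnd ℂ) (χ (u : ZMod Q)) * BL Z χ σ := by
  have hun : IsUnit ((u : ℕ) : ZMod Q) := (ZMod.isUnit_iff_coprime u Q).2 hu
  have hs : ∀ χ : DirichletCharacter ℂ Q, Summable (fun n : ℕ =>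
      (starRingEnd ℂ) (χ (u : ZMod Q)) * (χ (n : ZMod Q) * ((gR Z σ n : ℝ) : ℂ))) := by
    intro χ
    apply Summable.mul_left
    refine Summable.of_norm_bounded (gR_summable Z hσ).abs fun n => ?_
    rw [norm_mul, Complex.norm_real, Real.norm_eq_abs]
    exact mul_le_of_le_one_left (abs_nonneg _) (DirichletCharacter.norm_le_one _ _)
  have h1 : ∑ χ : DirichletCharacter ℂ Q, (starRingEnd ℂ) (χ (u : ZMod Q)) * BL Z χ σ =
      ∑' n : ℕ, (if ((u : ℕ) : ZMod Q) = (n : ZMod Q) then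
        (((Q.totient : ℝ) * gR Z σ n : ℝ) : ℂ) else 0) := by
    simp_rw [BL_eq Z _ hσ, ← tsum_mul_left]
    rw [← Summable.tsum_finsetSum (fun χ _ => hs χ)]
    refine tsum_congr fun n => ?_
    have h2 := DirichletCharacter.sum_char_inv_mul_char_eq ℂ hun (n : ZMod Q)
    calc ∑ χ : DirichletCharacter ℂ Q, (starRingEnd ℂ) (χ (u : ZMod Q)) *
          (χ (n : ZMod Q) * ((gR Z σ n : ℝ) : ℂ)) =
        (∑ χ : DirichletCharacter ℂ Q, χ ((u : ZMod Q)⁻¹) * χ (n : ZMod Q)) *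
          ((gR Z σ n : ℝ) : ℂ) := by
          rw [sum_mul]
          refine sum_congr rfl fun χ _ => ?_
          rw [conj_char hu χ]
          ring
      _ = _ := by
          rw [h2]
          split_ifs
          · push_cast; rfl
          · simp
  rw [h1]
  have hinj : Function.Injective (fun j : ℕ => u + Q * j) := by
    intro a b hab
    simp only at hab
    have h2 : Q * a = Q * b := by omega
    exact Nat.eq_of_mul_eq_mul_left (NeZero.pos Q) h2
  have h0 := hinj.tsum_eq (f := fun n : ℕ => (if ((u : ℕ) : ZMod Q) = (n : ZMod Q) then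
        (((Q.totient : ℝ) * gR Z σ n : ℝ) : ℂ) else 0)) (by
    intro n hn
    rw [Function.mem_support] at hn
    have h4 : ((u : ℕ) : ZMod Q) = (n : ZMod Q) := by
      by_contra h
      exact hn (if_neg h)
    rw [ZMod.natCast_eq_natCast_iff] at h4
    have h5 : n % Q = u := by
      have : u % Q = n % Q := h4
      rw [← this, Nat.mod_eq_of_lt huQ]
    refine ⟨n / Q, ?_⟩
    show u + Q * (n / Q) = n
    have := Nat.mod_add_div n Q
    omega)
  rw [← h0]
  · have h3 : ∀ j : ℕ, (if ((u : ℕ) : ZMod Q) = ((u + Q * j : ℕ) : ZMod Q) then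
        (((Q.totient : ℝ) * gR Z σ (u + Q * j) : ℝ) : ℂ) else 0) =
        (((Q.totient : ℝ) * gR Z σ (u + Q * j) : ℝ) : ℂ) := by
      intro j
      rw [if_pos]
      push_cast
      rw [ZMod.natCast_self]
      simp
    rw [tsum_congr h3, ← Complex.ofReal_tsum, tsum_mul_left]
    push_cast
    rfl

/-- product of a set of primes -/
def MS (s : Finset ℕ) : ℕ := ∏ p ∈ s, p

theorem MS_pos {s : Finset ℕ} (hs : ∀ p ∈ s, p.Prime) : 0 < MS s := prod_primes_pos hs

/-- the norm of a local function -/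
def nrm (q β p : ℕ) (ψ : ℕ → ℝ) : ℝ := ∑ x ∈ range p, if p ∣ β + q * x then 0 else |ψ x|

theorem nrm_nonneg (q β p : ℕ) (ψ : ℕ → ℝ) : 0 ≤ nrm q β p ψ := by
  unfold nrm
  apply sum_nonneg
  intro x _
  split_ifs
  · exact le_rfl
  · exact abs_nonneg _

/-- the total sum of a local function -/
def tot (q β p : ℕ) (ψ : ℕ → ℝ) : ℝ := ∑ x ∈ range p, if p ∣ β + q * x then 0 else ψ x

/-- the sum over the characters in which all primes of `s` are ramified -/
noncomputable def NN (Z : ℕ) (σ : ℝ) (q : ℕ) (s : Finset ℕ) : ℝ :=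
  1 / ((q * MS s).totient : ℝ) * ∑ᶠ χ : {χ : DirichletCharacter ℂ (q * MS s) //
    ∀ p ∈ s, p ∣ χ.conductor}, ‖BL Z (χ : DirichletCharacter ℂ (q * MS s)) σ‖

open Classical in
theorem NN_eq (Z : ℕ) (σ : ℝ) (q : ℕ) (s : Finset ℕ) [NeZero (q * MS s)] :
    NN Z σ q s = 1 / ((q * MS s).totient : ℝ) *
      ∑ χ ∈ (univ : Finset (DirichletCharacter ℂ (q * MS s))).filter
        (fun χ => ∀ p ∈ s, p ∣ χ.conductor), ‖BL Z χ σ‖ := by
  unfold NN
  congr 1
  rw [finsum_eq_sum_of_fintype]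
  symm
  apply Finset.sum_subtype
  intro χ
  simp

/-- the value of a character at a number with a common factor with a part of the level -/
theorem char_split {Q c : ℕ} [NeZero Q] (hc : c ∣ Q) (χ : DirichletCharacter ℂ c) (n : ℕ) :
    DirichletCharacter.changeLevel hc χ (n : ZMod Q) =
      if n.Coprime Q then χ (n : ZMod c) else 0 := by
  split_ifs with h
  · have h2 : IsUnit ((n : ZMod Q)) := (ZMod.isUnit_iff_coprime n Q).2 h
    have h3 := DirichletCharacter.changeLevel_eq_cast_of_dvd χ hc h2.unit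
    rw [IsUnit.unit_spec] at h3
    rw [h3]
    congr 1
    exact ZMod.cast_natCast hc n
  · apply MulChar.map_nonunit
    rwa [ZMod.isUnit_iff_coprime]

theorem lin_per (β q p x : ℕ) : p ∣ β + q * (x + p) ↔ p ∣ β + q * x := by
  have : β + q * (x + p) = (β + q * x) + p * q := by ring
  rw [this]
  exact (Nat.dvd_add_left (Dvd.intro q rfl))

theorem cop_iff {β q : ℕ} (hβ : β.Coprime q) {s : Finset ℕ} (hs : ∀ p ∈ s, p.Prime) (x : ℕ) :
    (β + q * x).Coprime (q * MS s) ↔ ∀ p ∈ s, ¬ p ∣ β + q * x := by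
  have h1 : (β + q * x).Coprime q := by
    rw [Nat.Coprime, Nat.gcd_comm, Nat.gcd_add_mul_left_right, Nat.gcd_comm]
    exact hβ
  rw [Nat.coprime_mul_iff_right]
  unfold MS
  constructor
  · rintro ⟨_, h2⟩ p hp h3
    rw [Nat.coprime_prod_right_iff] at h2
    have h4 := Nat.dvd_gcd h3 (dvd_refl p)
    rw [h2 p hp] at h4
    exact (hs p hp).one_lt.ne' (Nat.dvd_one.1 h4)
  · intro h2
    refine ⟨h1, ?_⟩
    rw [Nat.coprime_prod_right_iff]
    intro p hp
    exact (Nat.Coprime.symm ((Nat.Prime.coprime_iff_not_dvd (hs p hp)).2 (h2 p hp)))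

/-- the sum over the residues vanishes when a prime is not ramified -/
theorem E_zero {q β : ℕ} (hq : 0 < q) (hβ : β.Coprime q) {s : Finset ℕ} (hs : ∀ p ∈ s, p.Prime)
    (hsq : ∀ p ∈ s, ¬ p ∣ q) (ψ : ℕ → ℕ → ℝ) (hψ : ∀ p ∈ s, Function.Periodic (ψ p) p)
    [NeZero (q * MS s)]
    (χ : DirichletCharacter ℂ (q * MS s)) (p : ℕ) (hp : p ∈ s) (hpc : ¬ p ∣ χ.conductor)
    (h0 : tot q β p (ψ p) = 0) :
    ∑ x ∈ range (MS s), ((∏ r ∈ s, ψ r x : ℝ) : ℂ) * χ ((β + q * x : ℕ) : ZMod (q * MS s)) = 0 := by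
  classical
  set s' := s.erase p with hs'
  have hsp : s = insert p s' := (insert_erase hp).symm
  have hpn : p ∉ s' := notMem_erase p s
  have hs'p : ∀ r ∈ s', r.Prime := fun r hr => hs r (mem_of_mem_erase hr)
  have hMS : MS s = p * MS s' := by
    unfold MS
    rw [hsp, prod_insert hpn]
  have hp0 := (hs p hp).pos
  set c := χ.conductor with hc
  have hcd : c ∣ q * MS s := χ.conductor_dvd_level
  have hcd' : c ∣ q * MS s' := by
    have h1 : c.Coprime p := ((hs p hp).coprime_iff_not_dvd.2 hpc).symm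
    have h2 : c ∣ p * (q * MS s') := by
      have : p * (q * MS s') = q * MS s := by rw [hMS]; ring
      rw [this]
      exact hcd
    exact h1.dvd_of_dvd_mul_left h2
  have hχ : ∀ x : ℕ, χ ((β + q * x : ℕ) : ZMod (q * MS s)) =
      (if p ∣ β + q * x then 0 else 1) * ((if ∀ r ∈ s', ¬ r ∣ β + q * x then 1 else 0) *
        χ.primitiveCharacter ((β + q * x : ℕ) : ZMod c)) := by
    intro x
    have h1 := char_split hcd χ.primitiveCharacter (β + q * x)
    rw [DirichletCharacter.changeLevel_primitiveCharacter] at h1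
    rw [h1]
    by_cases h2 : (β + q * x).Coprime (q * MS s)
    · rw [if_pos h2]
      rw [cop_iff hβ hs] at h2
      rw [if_neg (h2 p hp), if_pos (fun r hr => h2 r (mem_of_mem_erase hr))]
      ring
    · rw [if_neg h2]
      rw [cop_iff hβ hs] at h2
      by_cases h3 : p ∣ β + q * x
      · rw [if_pos h3]; ring
      · rw [if_neg (show ¬ ∀ r ∈ s', ¬ r ∣ β + q * x from fun h4 => h2 fun r hr => by
          by_cases hrp : r = p
          · rw [hrp]; exact h3
          · exact h4 r (mem_erase.2 ⟨hrp, hr⟩))]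
        ring
  have h1 : ∑ x ∈ range (MS s), ((∏ r ∈ s, ψ r x : ℝ) : ℂ) *
      χ ((β + q * x : ℕ) : ZMod (q * MS s)) =
      ∑ x ∈ range (p * MS s'), (fun x : ℕ => (if p ∣ β + q * x then (0 : ℂ) else ((ψ p x : ℝ) : ℂ))) x *
        (fun x : ℕ => ((∏ r ∈ s', ψ r x : ℝ) : ℂ) * ((if ∀ r ∈ s', ¬ r ∣ β + q * x then 1 else 0) *
        χ.primitiveCharacter ((β + q * x : ℕ) : ZMod c))) x := by
    rw [← hMS]
    refine sum_congr rfl fun x _ => ?_
    have e1 : ∏ r ∈ s, ψ r x = ψ p x * ∏ r ∈ s', ψ r x := by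
      rw [hsp, prod_insert hpn]
    rw [hχ x, e1]
    simp only
    push_cast
    split_ifs <;> ring
  rw [h1]
  have hcop : Nat.Coprime p (MS s') := by
    apply prime_cop _ hpn
    intro r hr
    rcases mem_insert.1 hr with h | h
    · rw [h]; exact hs p hp
    · exact hs'p r h
  rw [crt_sum hp0 (MS_pos hs'p) hcop]
  · have h2 : ∑ x ∈ range p, (if p ∣ β + q * x then (0 : ℂ) else ((ψ p x : ℝ) : ℂ)) =
        ((tot q β p (ψ p) : ℝ) : ℂ) := by
      unfold tot
      push_cast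
      refine sum_congr rfl fun x _ => ?_
      split_ifs <;> simp
    rw [h2, h0]
    simp
  · intro x
    show (if p ∣ β + q * (x + p) then (0 : ℂ) else ((ψ p (x + p) : ℝ) : ℂ)) = _
    rw [hψ p hp x]
    simp only [lin_per]
  · intro x
    show ((∏ r ∈ s', ψ r (x + MS s') : ℝ) : ℂ) *
      ((if ∀ r ∈ s', ¬ r ∣ β + q * (x + MS s') then 1 else 0) *
        χ.primitiveCharacter ((β + q * (x + MS s') : ℕ) : ZMod c)) = _
    have e1 : ∏ r ∈ s', ψ r (x + MS s') = ∏ r ∈ s', ψ r x :=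
      prod_periodic s' ψ (fun r hr => hψ r (mem_of_mem_erase hr)) x
    have e2 : (∀ r ∈ s', ¬ r ∣ β + q * (x + MS s')) ↔ ∀ r ∈ s', ¬ r ∣ β + q * x := by
      refine forall_congr' fun r => forall_congr' fun hr => not_congr ?_
      obtain ⟨d, hd⟩ : r ∣ MS s' := dvd_prod_of_mem (fun p => p) hr
      have : β + q * (x + MS s') = (β + q * x) + r * (q * d) := by rw [hd]; ring
      rw [this]
      exact Nat.dvd_add_left (Dvd.intro _ rfl)
    have e3 : ((β + q * (x + MS s') : ℕ) : ZMod c) = ((β + q * x : ℕ) : ZMod c) := by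
      have : β + q * (x + MS s') = (β + q * x) + q * MS s' := by ring
      rw [this, Nat.cast_add (β + q * x) (q * MS s')]
      rw [(ZMod.natCast_eq_zero_iff (q * MS s') c).2 hcd', add_zero]
    rw [e1, e3]
    simp only [e2]

theorem E_bd {q β : ℕ} (hβ : β.Coprime q) {s : Finset ℕ} (hs : ∀ p ∈ s, p.Prime)
    (ψ : ℕ → ℕ → ℝ) (hψ : ∀ p ∈ s, Function.Periodic (ψ p) p) [NeZero (q * MS s)]
    (χ : DirichletCharacter ℂ (q * MS s)) :
    ‖∑ x ∈ range (MS s), ((∏ r ∈ s, ψ r x : ℝ) : ℂ) *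
      χ ((β + q * x : ℕ) : ZMod (q * MS s))‖ ≤ ∏ p ∈ s, nrm q β p (ψ p) := by
  unfold nrm
  rw [← crt_prod s hs (fun p x => if p ∣ β + q * x then 0 else |ψ p x|)]
  · refine (norm_sum_le _ _).trans (sum_le_sum fun x _ => ?_)
    rw [norm_mul, Complex.norm_real, Real.norm_eq_abs, abs_prod]
    by_cases h : (β + q * x).Coprime (q * MS s)
    · refine (mul_le_of_le_one_right (prod_nonneg fun _ _ => abs_nonneg _)
        (DirichletCharacter.norm_le_one _ _)).trans (le_of_eq ?_)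
      rw [cop_iff hβ hs] at h
      exact prod_congr rfl fun p hp => (if_neg (h p hp)).symm
    · have : χ ((β + q * x : ℕ) : ZMod (q * MS s)) = 0 := by
        apply MulChar.map_nonunit
        rwa [ZMod.isUnit_iff_coprime]
      rw [this, norm_zero, mul_zero]
      apply prod_nonneg
      intro p _
      split_ifs
      · exact le_rfl
      · exact abs_nonneg _
  · intro p hp x
    show (if p ∣ β + q * (x + p) then (0 : ℝ) else |ψ p (x + p)|) = _
    rw [hψ p hp x]
    simp only [lin_per]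

/-- **Lemma N** -/
theorem lemN {Z q β : ℕ} {σ : ℝ} (hσ : 0 < σ) (hβ : β.Coprime q) (hβq : β < q)
    {s : Finset ℕ} (hs : ∀ p ∈ s, p.Prime) (hsq : ∀ p ∈ s, ¬ p ∣ q) (hsZ : ∀ p ∈ s, p ≤ Z)
    (ψ : ℕ → ℕ → ℝ) (hψ : ∀ p ∈ s, Function.Periodic (ψ p) p)
    (h0 : ∀ p ∈ s, tot q β p (ψ p) = 0) :
    |∑' l : ℕ, gR Z σ (β + q * l) * ∏ p ∈ s, ψ p l| ≤
      (∏ p ∈ s, nrm q β p (ψ p)) * NN Z σ q s := by
  classical
  have hq : 0 < q := by omega
  have hM := MS_pos hs
  have hQ : 0 < q * MS s := Nat.mul_pos hq hM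
  have : NeZero (q * MS s) := ⟨hQ.ne'⟩
  have hφ : (0 : ℝ) < (q * MS s).totient := by exact_mod_cast Nat.totient_pos.2 hQ
  have hFper := prod_periodic s ψ hψ
  have hsg : Summable (fun l : ℕ => gR Z σ (β + q * l)) := by
    apply (gR_summable Z hσ).comp_injective
    intro a b hab
    simp only at hab
    have : q * a = q * b := by omega
    exact Nat.eq_of_mul_eq_mul_left hq this
  have hsG : Summable (fun l : ℕ => gR Z σ (β + q * l) * ∏ p ∈ s, ψ p l) := by
    apply Summable.of_norm_bounded (g := fun l => |gR Z σ (β + q * l)| *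
      ∑ r ∈ range (MS s), |∏ p ∈ s, ψ p r|) (hsg.abs.mul_right _)
    intro l
    rw [Real.norm_eq_abs, abs_mul]
    exact mul_le_mul_of_nonneg_left (per_bdd hM hFper l) (abs_nonneg _)
  have e1 : ∑' l : ℕ, gR Z σ (β + q * l) * ∏ p ∈ s, ψ p l =
      ∑ x ∈ range (MS s), (∏ p ∈ s, ψ p x) * ∑' j : ℕ, gR Z σ ((β + q * x) + (q * MS s) * j) := by
    rw [tsum_res _ hsG hM]
    refine sum_congr rfl fun x _ => ?_
    rw [← tsum_mul_left]
    refine tsum_congr fun j => ?_
    have h1 := per_add hFper x j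
    have h2 : β + q * (x + MS s * j) = (β + q * x) + (q * MS s) * j := by ring
    rw [show (∏ p ∈ s, ψ p (x + MS s * j)) = ∏ p ∈ s, ψ p x from h1, h2]
    ring
  have e2 : ∀ x ∈ range (MS s), (((q * MS s).totient : ℝ) : ℂ) *
      (((∏ p ∈ s, ψ p x) * ∑' j : ℕ, gR Z σ ((β + q * x) + (q * MS s) * j) : ℝ) : ℂ) =
      ∑ χ : DirichletCharacter ℂ (q * MS s), BL Z χ σ * (starRingEnd ℂ)
        (((∏ r ∈ s, ψ r x : ℝ) : ℂ) * χ ((β + q * x : ℕ) : ZMod (q * MS s))) := by
    intro x hx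
    rw [mem_range] at hx
    by_cases h : (β + q * x).Coprime (q * MS s)
    · have hlt : β + q * x < q * MS s := by
        calc β + q * x < q + q * x := by omega
          _ = q * (x + 1) := by ring
          _ ≤ q * MS s := Nat.mul_le_mul_left q hx
      have h1 := inv_formula Z h hlt hσ
      calc (((q * MS s).totient : ℝ) : ℂ) *
            (((∏ p ∈ s, ψ p x) * ∑' j : ℕ, gR Z σ ((β + q * x) + (q * MS s) * j) : ℝ) : ℂ) =
          ((∏ p ∈ s, ψ p x : ℝ) : ℂ) * ((((q * MS s).totient : ℝ) : ℂ) *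
            ((∑' j : ℕ, gR Z σ ((β + q * x) + (q * MS s) * j) : ℝ) : ℂ)) := by
            push_cast
            ring
        _ = _ := by
            rw [h1, mul_sum]
            refine sum_congr rfl fun χ _ => ?_
            rw [map_mul, Complex.conj_ofReal]
            ring
    · have h1 : ∑' j : ℕ, gR Z σ ((β + q * x) + (q * MS s) * j) = 0 := by
        have h2 : ∀ j : ℕ, gR Z σ ((β + q * x) + (q * MS s) * j) = 0 := by
          intro j
          by_contra hne
          have hr := (gR_ne hne).1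
          apply h
          rw [cop_iff hβ hs]
          intro p hp hpd
          apply hr p (hs p hp) (hsZ p hp)
          apply dvd_add hpd
          exact ((dvd_prod_of_mem (fun p => p) hp).mul_left q).mul_right j
        simp [h2]
      rw [h1]
      symm
      rw [mul_zero, Complex.ofReal_zero, mul_zero]
      apply sum_eq_zero
      intro χ _
      have : χ ((β + q * x : ℕ) : ZMod (q * MS s)) = 0 := by
        apply MulChar.map_nonunit
        rwa [ZMod.isUnit_iff_coprime]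
      rw [this, mul_zero, map_zero, mul_zero]
  have e3 : (((q * MS s).totient : ℝ) : ℂ) *
      ((∑' l : ℕ, gR Z σ (β + q * l) * ∏ p ∈ s, ψ p l : ℝ) : ℂ) =
      ∑ χ : DirichletCharacter ℂ (q * MS s), BL Z χ σ * (starRingEnd ℂ)
        (∑ x ∈ range (MS s), ((∏ r ∈ s, ψ r x : ℝ) : ℂ) *
          χ ((β + q * x : ℕ) : ZMod (q * MS s))) := by
    rw [e1]
    rw [Complex.ofReal_sum, mul_sum, sum_congr rfl e2, sum_comm]
    refine sum_congr rfl fun χ _ => ?_
    rw [map_sum, mul_sum]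
  have e4 : ((q * MS s).totient : ℝ) * |∑' l : ℕ, gR Z σ (β + q * l) * ∏ p ∈ s, ψ p l| ≤
      ∑ χ ∈ (univ : Finset (DirichletCharacter ℂ (q * MS s))).filter
        (fun χ => ∀ p ∈ s, p ∣ χ.conductor), ‖BL Z χ σ‖ * ∏ p ∈ s, nrm q β p (ψ p) := by
    have h1 : ((q * MS s).totient : ℝ) * |∑' l : ℕ, gR Z σ (β + q * l) * ∏ p ∈ s, ψ p l| =
        ‖(((q * MS s).totient : ℝ) : ℂ) *
          ((∑' l : ℕ, gR Z σ (β + q * l) * ∏ p ∈ s, ψ p l : ℝ) : ℂ)‖ := by
      rw [norm_mul, Complex.norm_real, Complex.norm_real, Real.norm_of_nonneg hφ.le,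
        Real.norm_eq_abs]
    rw [h1, e3]
    refine (norm_sum_le _ _).trans ?_
    rw [sum_filter]
    apply sum_le_sum
    intro χ _
    split_ifs with h
    · rw [norm_mul, RCLike.norm_conj]
      exact mul_le_mul_of_nonneg_left (E_bd hβ hs ψ hψ χ) (norm_nonneg _)
    · push Not at h
      obtain ⟨p, hp, hpc⟩ := h
      rw [E_zero hq hβ hs hsq ψ hψ χ p hp hpc (h0 p hp)]
      simp
  rw [NN_eq]
  rw [← sum_mul] at e4
  rw [← mul_assoc, mul_comm (∏ p ∈ s, nrm q β p (ψ p)), mul_assoc, one_div, inv_mul_eq_div,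
    le_div_iff₀ hφ]
  linarith

end Run7.h296
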