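import Pool.Agent.H385R2.Flat
import Pool.Agent.Helper112.MultLS
import Pool.Agent.Y928.PU.G

/-!
The large sieve for primitive characters and sequences without small prime factors.
-/

set_option autoImplicit false

open Finset

namespace Run7.h296

open H385 H385.Flat Pool.Agent.W89.Sv

theorem SS_conv (N : ℕ) (b : ℕ → ℂ) (x y : ℕ) :
    SS N b ((x : ℝ) / y) = ∑ n ∈ Icc 1 N, b n * Pool.Agent.Helper112.ee (n * x / y) := by
  unfold SS H385.ee Pool.Agent.Helper112.ee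
  refine sum_congr rfl fun n _ => ?_
  congr 2
  push_cast
  ring

theorem PZ_pf (f z : ℕ) : (PZ f z).primeFactors = PP f z := by
  unfold PZ
  apply Nat.primeFactors_prod
  intro p hp
  exact (mem_PP.1 hp).2.1

/-- **the large sieve for sequences without small prime factors** -/
theorem ls_rough (F R N : ℕ) (hR : 1 ≤ R) (b : ℕ → ℂ)
    (hb : ∀ n, (∃ p, p.Prime ∧ p ≤ F * R ∧ p ∣ n) → b n = 0) :
    Real.log R * ∑ f ∈ Icc 1 F, PS N b f ≤
      12 * (N + ((F * R : ℕ) : ℝ) ^ 2) * ∑ n ∈ Icc 1 N, ‖b n‖ ^ 2 := by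
  rcases Nat.eq_zero_or_pos F with hF | hF
  · subst hF
    simp only [Icc_eq_empty_of_lt (show (0 : ℕ) < 1 by norm_num), Finset.sum_empty, mul_zero]
    positivity
  set P : ℕ := PZ 1 (R + 1) with hP
  have hPs : Squarefree P := PZ_sqf 1 (R + 1)
  have hP0 : P ≠ 0 := hPs.ne_zero
  have hPpf : P.primeFactors = PP 1 (R + 1) := PZ_pf 1 (R + 1)
  have hbP : ∀ n, ¬ Nat.Coprime n P → b n = 0 := by
    intro n hn
    apply hb
    rw [Nat.Prime.not_coprime_iff_dvd] at hn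
    obtain ⟨p, hp, h1, h2⟩ := hn
    have h3 : p ∈ P.primeFactors := Nat.mem_primeFactors.2 ⟨hp, h2, hP0⟩
    rw [hPpf, mem_PP] at h3
    refine ⟨p, hp, ?_, h1⟩
    calc p ≤ 1 * R := by omega
      _ ≤ F * R := Nat.mul_le_mul_right R hF
  -- the upper bound
  have hmain : ∑ g ∈ Icc 1 (F * R), ∑ T ∈ UT P g, (1 / (Nat.totient g : ℝ)) *
      (((g / pr T : ℕ) : ℝ) * PS N b (g / pr T)) ≤
      12 * (N + ((F * R : ℕ) : ℝ) ^ 2) * ∑ n ∈ Icc 1 N, ‖b n‖ ^ 2 := by
    have h1 : ∀ g ∈ Icc 1 (F * R), ∑ T ∈ UT P g, (1 / (Nat.totient g : ℝ)) *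
      (((g / pr T : ℕ) : ℝ) * PS N b (g / pr T)) ≤
      2 * ∑ a ∈ (range g).filter (fun a => a.Coprime g),
        ‖∑ n ∈ Icc 1 N, b n * Pool.Agent.Helper112.ee (n * a / g)‖ ^ 2 := by
      intro g hg
      rw [mem_Icc] at hg
      have h2 := lemC P hPs g hg.1 N b hbP 1 one_pos le_rfl
      have hEB : EB N b g = 0 := by
        unfold EB
        apply sum_eq_zero
        intro n hn
        rw [mem_filter] at hn
        rw [norm_eq_zero]
        apply hb
        have hn2 := hn.2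
        rw [Nat.Prime.not_coprime_iff_dvd] at hn2
        obtain ⟨p, hp, h3, h4⟩ := hn2
        exact ⟨p, hp, (Nat.le_of_dvd (by omega) h4).trans hg.2, h3⟩
      rw [hEB] at h2
      refine h2.trans (le_of_eq ?_)
      rw [zero_pow (by norm_num), mul_zero, add_zero]
      congr 1
      · norm_num
      · refine sum_congr rfl fun a _ => ?_
        rw [SS_conv]
    refine (sum_le_sum h1).trans ?_
    rw [← mul_sum]
    have h3 := Pool.Agent.Helper112.additive_large_sieve N (F * R) b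
    linarith
  refine le_trans ?_ hmain
  -- the lower bound
  have hlow : Real.log R * ∑ f ∈ Icc 1 F, PS N b f ≤
      ∑ f ∈ Icc 1 F, ∑ l ∈ (PZ f (R + 1)).divisors.filter (fun l : ℕ => (l : ℝ) ≤ R),
        ((f : ℝ) / (Nat.totient f : ℝ)) * (1 / (Nat.totient l : ℝ)) * PS N b f := by
    rw [mul_sum]
    apply sum_le_sum
    intro f hf
    rw [mem_Icc] at hf
    have hf0 : f ≠ 0 := by omega
    have hfR : (0 : ℝ) < f := by exact_mod_cast hf.1
    have hφ : (0 : ℝ) < Nat.totient f := by exact_mod_cast Nat.totient_pos.2 hf.1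
    have h1 := Pool.Agent.Y928.PU.G_log f hf0 (R + 1) (R : ℝ) (R : ℝ) (by exact_mod_cast hR)
      (by push_cast; linarith) le_rfl
    unfold GZ at h1
    rw [← sum_mul, ← mul_sum]
    apply mul_le_mul_of_nonneg_right _ (PS_nonneg _ _ _)
    rw [div_mul_eq_mul_div, le_div_iff₀ hφ]
    rw [div_mul_eq_mul_div, div_le_iff₀ hfR] at h1
    linarith
  refine hlow.trans ?_
  rw [sum_sigma', sum_sigma']
  set S1 : Finset (Σ _ : ℕ, ℕ) := (Icc 1 F).sigma
    (fun f => (PZ f (R + 1)).divisors.filter (fun l : ℕ => (l : ℝ) ≤ R)) with hS1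
  set S2 : Finset (Σ _ : ℕ, Finset ℕ) := (Icc 1 (F * R)).sigma (fun g => UT P g) with hS2
  have hfacts : ∀ x ∈ S1, 1 ≤ x.1 ∧ x.1 ≤ F ∧ x.2 ∣ PZ x.1 (R + 1) ∧ x.2 ≤ R ∧ 1 ≤ x.2 ∧
      Nat.Coprime x.1 x.2 ∧ Squarefree x.2 ∧ pr x.2.primeFactors = x.2 ∧
      x.2.primeFactors ⊆ P.primeFactors := by
    intro x hx
    rw [hS1, mem_sigma, mem_Icc, mem_filter, Nat.mem_divisors] at hx
    obtain ⟨⟨h1, h2⟩, ⟨h3, h4⟩, h5⟩ := hx
    have h6 : x.2 ≤ R := by exact_mod_cast h5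
    have h7 : 1 ≤ x.2 := Nat.pos_of_ne_zero fun h => by
      rw [h] at h3
      exact h4 (Nat.eq_zero_of_zero_dvd h3)
    have h8 : Squarefree x.2 := (PZ_sqf _ _).squarefree_of_dvd h3
    have h9 : Nat.Coprime x.1 x.2 := by
      by_contra hcon
      rw [Nat.Prime.not_coprime_iff_dvd] at hcon
      obtain ⟨p, hp, a1, a2⟩ := hcon
      have : p ∈ (PZ x.1 (R + 1)).primeFactors :=
        Nat.mem_primeFactors.2 ⟨hp, a2.trans h3, h4⟩
      rw [PZ_pf, mem_PP] at this
      exact this.2.2 a1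
    refine ⟨h1, h2, h3, h6, h7, h9, h8, ?_, ?_⟩
    · unfold pr
      exact Nat.prod_primeFactors_of_squarefree h8
    · intro p hp
      rw [Nat.mem_primeFactors] at hp
      rw [hPpf, mem_PP]
      refine ⟨?_, hp.1, ?_⟩
      · have := Nat.le_of_dvd h7 hp.2.1
        omega
      · intro h
        exact hp.1.one_lt.ne' (Nat.dvd_one.1 h)
  have hinj : Set.InjOn (fun x : (Σ _ : ℕ, ℕ) => (⟨x.1 * x.2, x.2.primeFactors⟩ :
      Σ _ : ℕ, Finset ℕ)) (S1 : Set (Σ _ : ℕ, ℕ)) := by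
    rintro x hx y hy hxy
    obtain ⟨_, _, _, _, a1, _, _, a2, _⟩ := hfacts x hx
    obtain ⟨_, _, _, _, b1, _, _, b2, _⟩ := hfacts y hy
    simp only [Sigma.mk.injEq, heq_eq_eq] at hxy
    have h1 : x.2 = y.2 := by rw [← a2, ← b2, hxy.2]
    have h2 : x.1 = y.1 := by
      have := hxy.1
      rw [h1] at this
      exact Nat.eq_of_mul_eq_mul_right (by omega) this
    obtain ⟨x1, x2⟩ := x
    obtain ⟨y1, y2⟩ := y
    simp only at h1 h2
    rw [h1, h2]
  calc ∑ x ∈ S1, ((x.1 : ℝ) / (Nat.totient x.1 : ℝ)) * (1 / (Nat.totient x.2 : ℝ)) * PS N b x.1 =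
      ∑ x ∈ S1, (fun y : (Σ _ : ℕ, Finset ℕ) => (1 / (Nat.totient y.1 : ℝ)) *
        (((y.1 / pr y.2 : ℕ) : ℝ) * PS N b (y.1 / pr y.2)))
        (⟨x.1 * x.2, x.2.primeFactors⟩ : Σ _ : ℕ, Finset ℕ) := by
        refine sum_congr rfl fun x hx => ?_
        obtain ⟨a0, _, _, _, a1, a3, _, a2, _⟩ := hfacts x hx
        simp only
        rw [a2, Nat.mul_div_cancel _ (by omega : 0 < x.2), Nat.totient_mul a3]
        have h1 : (Nat.totient x.1 : ℝ) ≠ 0 := by
          exact_mod_cast (Nat.totient_pos.2 (by omega)).ne'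
        have h2 : (Nat.totient x.2 : ℝ) ≠ 0 := by
          exact_mod_cast (Nat.totient_pos.2 (by omega)).ne'
        push_cast
        field_simp
    _ = ∑ y ∈ S1.image (fun x : (Σ _ : ℕ, ℕ) => (⟨x.1 * x.2, x.2.primeFactors⟩ :
          Σ _ : ℕ, Finset ℕ)), (1 / (Nat.totient y.1 : ℝ)) *
        (((y.1 / pr y.2 : ℕ) : ℝ) * PS N b (y.1 / pr y.2)) := by
        rw [sum_image hinj]
    _ ≤ _ := by
        apply sum_le_sum_of_subset_of_nonneg
        · intro y hy
          rw [mem_image] at hy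
          obtain ⟨x, hx, rfl⟩ := hy
          obtain ⟨a0, a4, _, a5, a1, a3, _, a2, a6⟩ := hfacts x hx
          rw [hS2, mem_sigma, mem_Icc]
          refine ⟨⟨Nat.mul_pos a0 a1, Nat.mul_le_mul a4 a5⟩, ?_⟩
          unfold UT
          rw [mem_filter, mem_powerset]
          refine ⟨a6, ?_, ?_⟩
          · rw [a2]
            exact dvd_mul_left _ _
          · rw [a2]
            show Nat.Coprime (x.1 * x.2 / x.2) x.2
            rw [Nat.mul_div_cancel _ (by omega : 0 < x.2)]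
            exact a3
        · intro y _ _
          exact mul_nonneg (by positivity) (mul_nonneg (Nat.cast_nonneg _) (PS_nonneg _ _ _))

end Run7.h296
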