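import Pool.Agent.Run7.h296.Col
import Pool.Agent.Run7.h296.LN

/-!
Local estimates for the ramified parts.
-/

set_option autoImplicit false

open Finset

namespace Run7.h296

open Pool.Agent.R498.MT

section
variable {J : Type} [Fintype J] [DecidableEq J]

/-- the local function of two colours -/
def ff (i : J) (p : ℝ) (a b x : Option J) : ℝ := hv (some i) p a x * hv (some i) p b x

/-- its mean over the good residues -/
noncomputable def mm (i : J) (p : ℝ) (a b : Option J) : ℝ := Ex (rd (some i) (p - 1) 0) (ff i p a b)

theorem Ex_ind (i : J) (p : ℝ) (k : J) (c d : ℝ) :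
    Ex (rd (some i) (p - 1) 0) (fun x => c + d * (if x = some k then 1 else 0)) =
      c + d * (if i = k then 0 else 1 / (p - 1)) := by
  unfold Ex
  have e : ∀ l : J, ((c + d * (if (some l : Option J) = some k then (1 : ℝ) else 0)) -
      (c + d * (if (none : Option J) = some k then 1 else 0))) * rd (some i) (p - 1) 0 l =
      if l = k then d * rd (some i) (p - 1) 0 k else 0 := by
    intro l
    by_cases h : l = k
    · subst h; simp
    · simp [h]
  rw [sum_congr rfl (fun l _ => e l), sum_ite_eq' univ k]
  simp [rd]

theorem mm_VM (i : J) (p : ℝ) (hp : 2 ≤ p) (a b : Option J) :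
    |mm i p a b - VM (some i) p a b| ≤ (match a, b with
      | none, none => 0
      | some _, some _ => 3
      | _, _ => 1 / (p - 1)) := by
  have hp1 : 0 < p - 1 := by linarith
  have hp1' : p - 1 ≠ 0 := hp1.ne'
  rcases a with _ | j
  · rcases b with _ | k
    · simp [mm, ff, hv, Ex, VM]
    · by_cases hk : i = k
      · subst hk
        simp [mm, ff, hv, Ex, VM]
        linarith
      · have e : ff i p none (some k) = fun x => (-1 : ℝ) + p * (if x = some k then 1 else 0) := by
          funext x
          unfold ff
          rw [hv_none, hv_some (some i) p k x (by simpa using hk)]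
          ring
        unfold mm
        rw [e, Ex_ind]
        simp only [hk, if_false, VM, Option.some.injEq, sub_zero]
        have : -1 + p * (1 / (p - 1)) = 1 / (p - 1) := by field_simp; ring
        rw [this, abs_of_pos (by positivity)]
  · rcases b with _ | k
    · by_cases hj : i = j
      · subst hj
        simp [mm, ff, hv, Ex, VM]
        linarith
      · have e : ff i p (some j) none = fun x => (-1 : ℝ) + p * (if x = some j then 1 else 0) := by
          funext x
          unfold ff
          rw [hv_none, hv_some (some i) p j x (by simpa using hj)]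
          ring
        unfold mm
        rw [e, Ex_ind]
        simp only [hj, if_false, VM, Option.some.injEq, sub_zero]
        have : -1 + p * (1 / (p - 1)) = 1 / (p - 1) := by field_simp; ring
        rw [this, abs_of_pos (by positivity)]
    · by_cases hj : i = j
      · by_cases hk : i = k
        · subst hj; subst hk
          simp [mm, ff, hv, Ex, VM]
        · have e : ff i p (some j) (some k) =
              fun x => (1 : ℝ) + (-p) * (if x = some k then 1 else 0) := by
            funext x
            unfold ff
            rw [hv_some (some i) p k x (by simpa using hk), hv_i (some i) p j x (by rw [hj])]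
            ring
          unfold mm
          rw [e, Ex_ind]
          simp only [hk, if_false, VM, Option.some.injEq, sub_zero, hj, if_true]
          have hjk : ¬ j = k := fun h => hk (hj.trans h)
          simp only [hjk, if_false, sub_zero]
          have : 1 + -p * (1 / (p - 1)) = -(1 / (p - 1)) := by field_simp; ring
          rw [this, abs_neg, abs_of_pos (by positivity), div_le_iff₀ hp1]
          linarith
      · by_cases hk : i = k
        · have e : ff i p (some j) (some k) =
              fun x => (1 : ℝ) + (-p) * (if x = some j then 1 else 0) := by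
            funext x
            unfold ff
            rw [hv_some (some i) p j x (by simpa using hj), hv_i (some i) p k x (by rw [hk])]
            ring
          unfold mm
          rw [e, Ex_ind]
          simp only [hj, if_false, VM, Option.some.injEq, sub_zero, hk, if_true]
          have hkj : ¬ k = j := fun h => hj (hk.trans h)
          have hjk : ¬ j = k := fun h => hkj h.symm
          simp only [hkj, hjk, if_false, sub_zero]
          have : 1 + -p * (1 / (p - 1)) = -(1 / (p - 1)) := by field_simp; ring
          rw [this, abs_neg, abs_of_pos (by positivity), div_le_iff₀ hp1]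
          linarith
        · by_cases hjk : j = k
          · subst hjk
            have e : ff i p (some j) (some j) =
                fun x => (1 : ℝ) + (p ^ 2 - 2 * p) * (if x = some j then 1 else 0) := by
              funext x
              unfold ff
              rw [hv_some (some i) p j x (by simpa using hj)]
              split_ifs <;> ring
            unfold mm
            rw [e, Ex_ind]
            simp only [hj, if_false, VM, Option.some.injEq, if_true]
            have : 1 + (p ^ 2 - 2 * p) * (1 / (p - 1)) - (p - 1) = (p - 2) / (p - 1) := by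
              field_simp; ring
            rw [this, abs_of_nonneg (div_nonneg (by linarith) hp1.le), div_le_iff₀ hp1]
            linarith
          · have e : Ex (rd (some i) (p - 1) 0) (ff i p (some j) (some k)) =
                1 - p * (1 / (p - 1)) - p * (1 / (p - 1)) := by
              have e1 : ff i p (some j) (some k) = fun x => (1 : ℝ) +
                  (-p) * (if x = some j then 1 else 0) + (-p) * (if x = some k then 1 else 0) := by
                funext x
                unfold ff
                rw [hv_some (some i) p j x (by simpa using hj),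
                  hv_some (some i) p k x (by simpa using hk)]
                by_cases h1 : x = some j
                · simp only [h1, if_true, Option.some.injEq, hjk, if_false]
                  ring
                · simp only [h1, if_false]
                  split_ifs <;> ring
              rw [e1]
              unfold Ex
              have e2 : ∀ l : J, ((1 + -p * (if (some l : Option J) = some j then (1 : ℝ) else 0) +
                  -p * (if (some l : Option J) = some k then 1 else 0)) -
                  (1 + -p * (if (none : Option J) = some j then 1 else 0) +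
                  -p * (if (none : Option J) = some k then 1 else 0))) * rd (some i) (p - 1) 0 l =
                  (if l = j then -p * rd (some i) (p - 1) 0 j else 0) +
                  (if l = k then -p * rd (some i) (p - 1) 0 k else 0) := by
                intro l
                by_cases h : l = j
                · subst h
                  simp [hjk]
                · by_cases h' : l = k
                  · subst h'; simp [h]
                  · simp [h, h']
              rw [sum_congr rfl (fun l _ => e2 l), sum_add_distrib, sum_ite_eq' univ j,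
                sum_ite_eq' univ k]
              simp only [mem_univ, if_true, rd, Option.some.injEq, hj, hk, if_false, reduceCtorEq]
              ring
            unfold mm
            rw [e]
            simp only [hj, if_false, VM, Option.some.injEq, hjk, sub_zero]
            have : 1 - p * (1 / (p - 1)) - p * (1 / (p - 1)) = -((p + 1) / (p - 1)) := by
              field_simp; ring
            rw [this, abs_neg, abs_of_nonneg (div_nonneg (by linarith) hp1.le), div_le_iff₀ hp1]
            linarith

theorem w_mm [Nonempty J] (i : J) (p : ℝ) (hp : 2 ≤ p) :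
    ∑ a, ∑ b, |cf (1 / (p - 1)) a| * |cf (1 / (p - 1)) b| * |mm i p a b - VM (some i) p a b| ≤
      5 * (Fintype.card J : ℝ) ^ 2 * (1 / (p - 1)) ^ 2 := by
  have hK : (1 : ℝ) ≤ Fintype.card J := by exact_mod_cast Fintype.card_pos
  have hp1 : 0 < p - 1 := by linarith
  have hμ : 0 ≤ 1 / (p - 1) := by positivity
  refine (cf_sum_le (1 / (p - 1)) hμ (fun a b => |mm i p a b - VM (some i) p a b|) 0 (1 / (p - 1))
    0 3 (mm_VM i p hp none none) (fun k => mm_VM i p hp none (some k))
    (fun j => mm_VM i p hp (some j) none) (fun j k => ?_)).trans ?_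
  · have := mm_VM i p hp (some j) (some k)
    simp only at this
    split_ifs <;> linarith
  · set μ := 1 / (p - 1)
    set K : ℝ := (Fintype.card J : ℝ)
    have h1 : K * μ ^ 2 ≤ K ^ 2 * μ ^ 2 := by
      apply mul_le_mul_of_nonneg_right _ (sq_nonneg _)
      nlinarith
    nlinarith

theorem al_mm [Nonempty J] (i : J) (p : ℝ) (hp : 2 ≤ p) :
    1 ≤ ∑ a, ∑ b, |cf (1 / (p - 1)) a| * |cf (1 / (p - 1)) b| * |mm i p a b| ∧
    ∑ a, ∑ b, |cf (1 / (p - 1)) a| * |cf (1 / (p - 1)) b| * |mm i p a b| ≤
      (1 + 8 * (Fintype.card J : ℝ) ^ 2 * (1 / (p - 1))) *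
        (1 + 5 * (Fintype.card J : ℝ) ^ 2 * (1 / (p - 1)) ^ 2) := by
  have hK : (1 : ℝ) ≤ Fintype.card J := by exact_mod_cast Fintype.card_pos
  have hp1 : 0 < p - 1 := by linarith
  have hμ : 0 ≤ 1 / (p - 1) := by positivity
  have hμ1 : 1 / (p - 1) ≤ 1 := by rw [div_le_one hp1]; linarith
  constructor
  · have h1 : |cf (1 / (p - 1)) (none : Option J)| * |cf (1 / (p - 1)) (none : Option J)| *
        |mm i p none none| = 1 := by
      simp [cf, mm, ff, hv, Ex]
    refine h1.symm.le.trans ((single_le_sum (f := fun b => |cf (1 / (p - 1)) (none : Option J)| *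
      |cf (1 / (p - 1)) b| * |mm i p none b|)
      (fun b _ => mul_nonneg (mul_nonneg (abs_nonneg _) (abs_nonneg _)) (abs_nonneg _))
      (mem_univ none)).trans (single_le_sum (f := fun a => ∑ b, |cf (1 / (p - 1)) a| *
        |cf (1 / (p - 1)) b| * |mm i p a b|)
      (fun a _ => sum_nonneg fun b _ =>
        mul_nonneg (mul_nonneg (abs_nonneg _) (abs_nonneg _)) (abs_nonneg _)) (mem_univ none)))
  · have h1 := (alpha_bd (J := J) (some i) p (1 / (p - 1)) hp hμ hμ1 (by
      rw [one_div, inv_mul_cancel₀ hp1.ne'])).2
    have h2 := w_mm i p hp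
    have h3 : ∑ a, ∑ b, |cf (1 / (p - 1)) a| * |cf (1 / (p - 1)) b| * |mm i p a b| ≤
        ∑ a, ∑ b, |cf (1 / (p - 1)) a| * |cf (1 / (p - 1)) b| * |VM (some i) p a b| +
        ∑ a, ∑ b, |cf (1 / (p - 1)) a| * |cf (1 / (p - 1)) b| *
          |mm i p a b - VM (some i) p a b| := by
      rw [← sum_add_distrib]
      apply sum_le_sum
      intro a _
      rw [← sum_add_distrib]
      apply sum_le_sum
      intro b _
      rw [← mul_add]
      apply mul_le_mul_of_nonneg_left _ (mul_nonneg (abs_nonneg _) (abs_nonneg _))
      have := abs_add_le (VM (some i) p a b) (mm i p a b - VM (some i) p a b)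
      rwa [show VM (some i) p a b + (mm i p a b - VM (some i) p a b) = mm i p a b by ring] at this
    refine h3.trans ?_
    set μ := 1 / (p - 1)
    set K : ℝ := (Fintype.card J : ℝ)
    have h5 : 0 ≤ 8 * K ^ 2 * μ * (5 * K ^ 2 * μ ^ 2) := by positivity
    nlinarith

variable {A B : J → ℕ}

/-- the local function without its mean -/
noncomputable def f0 (A B : J → ℕ) (i : J) (p : ℕ) (a b : Option J) (x : ℕ) : ℝ :=
  if p ∣ B i + A i * x then 0 else ff i p a b (colr A B p x) - mm i p a b

theorem f0_per (i : J) (p : ℕ) (a b : Option J) : Function.Periodic (f0 A B i p a b) p := by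
  intro x
  unfold f0
  rw [colr_per]
  simp only [lin_perA]

theorem good_count {q p : ℕ} (hp : p.Prime) (hq : ¬ p ∣ q) (β : ℕ) :
    ∑ x ∈ range p, (if p ∣ β + q * x then (0 : ℝ) else 1) = (p : ℝ) - 1 := by
  obtain ⟨r, _, _, hG⟩ := root_sum hp hq β
  have h1 := hG (fun _ => (1 : ℝ))
  have h2 : ∑ x ∈ range p, (if p ∣ β + q * x then (0 : ℝ) else 1) =
      ∑ x ∈ range p, ((1 : ℝ) - (if p ∣ β + q * x then (1 : ℝ) else 0)) := by
    refine sum_congr rfl fun x _ => ?_
    split_ifs <;> ring
  rw [h2, sum_sub_distrib, h1]
  simp

theorem f0_tot {p : ℕ} (h : OKp A B p) (i : J) (a b : Option J) :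
    tot (A i) (B i) p (f0 A B i p a b) = 0 := by
  have hp2 := h.pr.two_le
  have h1 := col_sum_good h i (ff i p a b)
  rw [good_Ex hp2] at h1
  have h2 := good_count h.pr (h.nd i) (B i)
  unfold tot f0
  have h3 : ∀ x ∈ range p, (if p ∣ B i + A i * x then (0 : ℝ) else
      (if p ∣ B i + A i * x then 0 else ff i p a b (colr A B p x) - mm i p a b)) =
      (if p ∣ B i + A i * x then 0 else ff i p a b (colr A B p x)) -
        mm i p a b * (if p ∣ B i + A i * x then (0 : ℝ) else 1) := by
    intro x _
    split_ifs <;> ring
  rw [sum_congr rfl h3, sum_sub_distrib, h1, ← mul_sum, h2]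
  unfold mm
  ring

theorem good_abs {p : ℕ} (h : OKp A B p) (i : J) (a b : Option J) :
    nrm (A i) (B i) p (f0 A B i p a b) ≤
      2 * (((p : ℝ) - 1) * |ff i p a b none| +
        ∑ j ∈ univ.erase i, (|ff i p a b (some j)| - |ff i p a b none|)) := by
  have hp2 := h.pr.two_le
  have h1 := col_sum_good h i (fun x => |ff i p a b x|)
  have h1' := col_sum_good h i (ff i p a b)
  rw [good_Ex hp2] at h1'
  have h2 := good_count h.pr (h.nd i) (B i)
  rw [← h1]
  have hp1 : (0 : ℝ) < (p : ℝ) - 1 := by
    have : (2 : ℝ) ≤ p := by exact_mod_cast hp2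
    linarith
  have h3 : ((p : ℝ) - 1) * |mm i p a b| ≤
      ∑ x ∈ range p, (if p ∣ B i + A i * x then 0 else |ff i p a b (colr A B p x)|) := by
    have h4 : ((p : ℝ) - 1) * |mm i p a b| = |((p : ℝ) - 1) * mm i p a b| := by
      rw [abs_mul, abs_of_pos hp1]
    rw [h4]
    unfold mm
    rw [← h1']
    refine (abs_sum_le_sum_abs _ _).trans (sum_le_sum fun x _ => ?_)
    split_ifs <;> simp
  have h5 : nrm (A i) (B i) p (f0 A B i p a b) ≤
      ∑ x ∈ range p, (if p ∣ B i + A i * x then 0 else |ff i p a b (colr A B p x)|) +
      |mm i p a b| * ∑ x ∈ range p, (if p ∣ B i + A i * x then (0 : ℝ) else 1) := by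
    unfold nrm f0
    rw [mul_sum, ← sum_add_distrib]
    apply sum_le_sum
    intro x _
    split_ifs
    · simp
    · rw [mul_one]
      exact abs_sub _ _
  rw [h2] at h5
  linarith

theorem hv_none_abs (i : J) (p : ℝ) (a : Option J) : |hv (some i) p a none| = 1 := by
  rcases a with _ | j
  · simp [hv]
  · by_cases h : i = j <;> simp [hv, h]

theorem hv_some_abs (i : J) (p : ℝ) (hp : 2 ≤ p) (j l : J) :
    |hv (some i) p (some j) (some l)| ≤ 1 + (if l = j then p - 2 else 0) := by
  simp only [hv, Option.some.injEq]
  split_ifs with h1 h2 h2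
  · norm_num
    linarith
  · norm_num
  · rw [abs_of_nonneg (by linarith)]
    linarith
  · norm_num

theorem nrm_nn {p : ℕ} (i : J) : nrm (A i) (B i) p (f0 A B i p none none) = 0 := by
  unfold nrm f0
  apply sum_eq_zero
  intro x _
  have : mm i (p : ℝ) none none = 1 := by simp [mm, ff, hv, Ex]
  rw [this]
  simp [ff, hv]

theorem nrm_ns {p : ℕ} (h : OKp A B p) (i k : J) :
    nrm (A i) (B i) p (f0 A B i p none (some k)) ≤ 4 * p := by
  have hp2 : (2 : ℝ) ≤ p := by exact_mod_cast h.pr.two_le
  refine (good_abs h i none (some k)).trans ?_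
  have h0 : |ff i p none (some k) none| = 1 := by
    unfold ff
    rw [hv_none, one_mul, hv_none_abs]
  rw [h0]
  have h1 : ∑ j ∈ univ.erase i, (|ff i p none (some k) (some j)| - 1) ≤ (p : ℝ) - 2 := by
    calc ∑ j ∈ univ.erase i, (|ff i p none (some k) (some j)| - 1) ≤
        ∑ j ∈ univ.erase i, (if j = k then (p : ℝ) - 2 else 0) := by
          apply sum_le_sum
          intro j _
          unfold ff
          rw [hv_none, one_mul]
          have := hv_some_abs i p hp2 k j
          linarith
      _ ≤ ∑ j, (if j = k then (p : ℝ) - 2 else 0) := by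
          apply sum_le_sum_of_subset_of_nonneg (erase_subset _ _)
          intro j _ _
          split_ifs
          · linarith
          · exact le_rfl
      _ = (p : ℝ) - 2 := by simp
  linarith

theorem ff_symm (i : J) (p : ℝ) (a b : Option J) : ff i p a b = ff i p b a := by
  funext x
  unfold ff
  ring

theorem f0_symm (i : J) (p : ℕ) (a b : Option J) : f0 A B i p a b = f0 A B i p b a := by
  funext x
  unfold f0 mm
  rw [ff_symm]

theorem nrm_ss {p : ℕ} (h : OKp A B p) (i j k : J) :
    nrm (A i) (B i) p (f0 A B i p (some j) (some k)) ≤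
      (if j = k then 2 * (p : ℝ) ^ 2 else 0) + 6 * p := by
  have hp2 : (2 : ℝ) ≤ p := by exact_mod_cast h.pr.two_le
  refine (good_abs h i (some j) (some k)).trans ?_
  have h0 : |ff i p (some j) (some k) none| = 1 := by
    unfold ff
    rw [abs_mul, hv_none_abs, hv_none_abs, one_mul]
  rw [h0]
  have h1 : ∑ l ∈ univ.erase i, (|ff i p (some j) (some k) (some l)| - 1) ≤
      (p : ℝ) ^ 2 * (if j = k then 1 else 0) + 2 * (p - 2) := by
    calc ∑ l ∈ univ.erase i, (|ff i p (some j) (some k) (some l)| - 1) ≤
        ∑ l ∈ univ.erase i, ((if l = j then (p : ℝ) - 2 else 0) + (if l = k then (p : ℝ) - 2 else 0) +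
          (if l = j then (if j = k then (p : ℝ) ^ 2 else 0) else 0)) := by
          apply sum_le_sum
          intro l _
          unfold ff
          rw [abs_mul]
          have g1 := hv_some_abs i p hp2 j l
          have g2 := hv_some_abs i p hp2 k l
          have g3 := abs_nonneg (hv (some i) (p : ℝ) (some j) (some l))
          have g4 := abs_nonneg (hv (some i) (p : ℝ) (some k) (some l))
          have g5 : |hv (some i) (p : ℝ) (some j) (some l)| * |hv (some i) (p : ℝ) (some k) (some l)| ≤
              (1 + (if l = j then (p : ℝ) - 2 else 0)) * (1 + (if l = k then (p : ℝ) - 2 else 0)) :=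
            mul_le_mul g1 g2 g4 (g3.trans g1)
          by_cases c1 : l = j
          · by_cases c2 : l = k
            · have c3 : j = k := c1.symm.trans c2
              simp only [c1, c3, if_true] at g5 ⊢
              nlinarith
            · have c3 : ¬ j = k := fun h => c2 (c1.trans h)
              simp only [c1, c3, if_true, if_false] at g5 ⊢
              linarith
          · by_cases c2 : l = k
            · simp only [c1, c2, if_true, if_false] at g5 ⊢
              have c4 : ¬ k = j := fun h => c1 (c2.trans h)
              simp only [c4, if_false] at g5 ⊢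
              linarith
            · simp only [c1, c2, if_false] at g5 ⊢
              linarith
      _ ≤ ∑ l, ((if l = j then (p : ℝ) - 2 else 0) + (if l = k then (p : ℝ) - 2 else 0) +
          (if l = j then (if j = k then (p : ℝ) ^ 2 else 0) else 0)) := by
          apply sum_le_sum_of_subset_of_nonneg (erase_subset _ _)
          intro l _ _
          have : (0 : ℝ) ≤ (p : ℝ) ^ 2 := sq_nonneg _
          apply add_nonneg (add_nonneg _ _)
          · split_ifs
            · exact this
            · exact le_rfl
            · exact le_rfl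
          · split_ifs
            · linarith
            · exact le_rfl
          · split_ifs
            · linarith
            · exact le_rfl
      _ = _ := by
          rw [sum_add_distrib, sum_add_distrib]
          simp only [sum_ite_eq', mem_univ, if_true]
          split_ifs <;> ring
  split_ifs at h1 ⊢ <;> linarith

/-- **the total norm of the ramified local functions** -/
theorem nrm_sum [Nonempty J] {p : ℕ} (h : OKp A B p) (i : J) :
    ∑ a, ∑ b, |cf (1 / ((p : ℝ) - 1)) a| * |cf (1 / ((p : ℝ) - 1)) b| *
      nrm (A i) (B i) p (f0 A B i p a b) ≤ 48 * (Fintype.card J : ℝ) ^ 2 := by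
  have hK : (1 : ℝ) ≤ Fintype.card J := by exact_mod_cast Fintype.card_pos
  have hp2 : (2 : ℝ) ≤ p := by exact_mod_cast h.pr.two_le
  have hp1 : 0 < (p : ℝ) - 1 := by linarith
  have hμ : 0 ≤ 1 / ((p : ℝ) - 1) := by positivity
  refine (cf_sum_le (1 / ((p : ℝ) - 1)) hμ (fun a b => nrm (A i) (B i) p (f0 A B i p a b)) 0 (4 * p)
    (2 * (p : ℝ) ^ 2) (6 * p) (le_of_eq (nrm_nn i)) (fun k => nrm_ns h i k)
    (fun j => by rw [f0_symm]; exact nrm_ns h i j) (fun j k => nrm_ss h i j k)).trans ?_
  set μ := 1 / ((p : ℝ) - 1) with hμd
  set K : ℝ := (Fintype.card J : ℝ)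
  have h1 : μ * p ≤ 2 := by
    rw [hμd, one_div_mul_eq_div, div_le_iff₀ hp1]
    linarith
  have hμ1 : μ ≤ 1 := by
    rw [hμd, div_le_one hp1]; linarith
  have h0 : 0 ≤ μ * p := by positivity
  have h2 : 2 * K * μ * (4 * p) ≤ 16 * K := by
    have : 2 * K * μ * (4 * p) = 8 * K * (μ * p) := by ring
    rw [this]
    nlinarith
  have h3 : μ ^ 2 * (K * (2 * (p : ℝ) ^ 2)) ≤ 8 * K := by
    have : μ ^ 2 * (K * (2 * (p : ℝ) ^ 2)) = 2 * K * (μ * p) ^ 2 := by ring
    rw [this]
    have : (μ * p) ^ 2 ≤ 4 := by nlinarith
    nlinarith
  have h4 : μ ^ 2 * (K ^ 2 * (6 * p)) ≤ 12 * K ^ 2 := by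
    have e : μ ^ 2 * (K ^ 2 * (6 * p)) = 6 * K ^ 2 * (μ * (μ * p)) := by ring
    rw [e]
    have h5 : μ * (μ * p) ≤ 2 := by nlinarith
    have : 0 ≤ K ^ 2 := sq_nonneg _
    nlinarith
  have h6 : K ≤ K ^ 2 := by nlinarith
  rw [mul_add]
  linarith

end

end Run7.h296
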