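import Pool.Agent.Run7.h296.AM

/-!
Numerical facts on the weights.
-/

set_option autoImplicit false

open Finset

namespace Run7.h296

open Pool.Agent.H262R3.Lk Pool.Agent.W505.MH
open Pool.Agent.H318R2.Cr (Rgh V V_pos V_le_one cz_bounds)

theorem fn_nonneg (j : ℕ) (σ : ℝ) (n : ℕ) : 0 ≤ fn j σ n := by
  unfold fn
  have := Real.log_natCast_nonneg n
  positivity

theorem fn_summable (j : ℕ) {σ : ℝ} (hσ : 0 < σ) : Summable (fn j σ) :=
  (Pool.Agent.W933.MHSum.sum_ 1 1 1 j σ hσ).2.2.1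

theorem cu_nonneg {φ : ℕ → ℝ} (h : ∀ n, 0 ≤ φ n) (l₀ l : ℕ) : 0 ≤ cu φ l₀ l := by
  unfold cu
  split_ifs
  · exact h l
  · exact le_rfl

theorem exp3 : Real.exp 3 ≤ 32 := by
  have h1 := Real.exp_one_lt_d9
  have h2 : Real.exp 3 = Real.exp 1 ^ 3 := by rw [← Real.exp_nat_mul]; norm_num
  rw [h2]
  have h3 := Real.exp_pos 1
  calc Real.exp 1 ^ 3 ≤ (2.7182818286 : ℝ) ^ 3 := pow_le_pow_left₀ h3.le h1.le 3
    _ ≤ 32 := by norm_num

theorem fn3_anti {σ : ℝ} (hσ : 0 < σ) {a b : ℕ} (ha : 32 ≤ a) (hab : a ≤ b) :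
    fn 3 σ b ≤ fn 3 σ a := by
  have h1 := Real.log_div_self_rpow_antitoneOn (a := (1 + σ) / 3) (by positivity)
  have ha0 : (0 : ℝ) < a := by exact_mod_cast (by omega : 0 < a)
  have hb0 : (0 : ℝ) < b := by exact_mod_cast (by omega : 0 < b)
  have ha32 : (32 : ℝ) ≤ a := by exact_mod_cast ha
  have habr : (a : ℝ) ≤ b := by exact_mod_cast hab
  have h2 : Real.exp (1 / ((1 + σ) / 3)) ≤ 32 := by
    refine le_trans (Real.exp_le_exp.2 ?_) exp3
    rw [one_div_div, div_le_iff₀ (by linarith)]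
    linarith
  rw [one_div] at h2
  have h3 := h1 (a := (a : ℝ)) (Set.mem_Ici.2 (by linarith))
    (b := (b : ℝ)) (Set.mem_Ici.2 (by linarith)) habr
  simp only at h3
  have hb1 : 0 ≤ Real.log b / (b : ℝ) ^ ((1 + σ) / 3) := by
    apply div_nonneg (Real.log_natCast_nonneg b)
    positivity
  have h4 := pow_le_pow_left₀ hb1 h3 3
  have e : ∀ x : ℕ, (0 : ℝ) < x → fn 3 σ x = (Real.log x / (x : ℝ) ^ ((1 + σ) / 3)) ^ 3 := by
    intro x hx
    unfold fn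
    rw [div_pow, ← Real.rpow_natCast ((x : ℝ) ^ ((1 + σ) / 3)) 3, ← Real.rpow_mul hx.le]
    congr 2
    push_cast
    ring
  rw [e a ha0, e b hb0]
  exact h4

theorem cu_sum_le {φ : ℕ → ℝ} (hs : Summable φ) (l₀ : ℕ) (K : ℝ) (h : ∀ N, l₀ ≤ N →
    ∑ n ∈ Ioc l₀ N, φ n ≤ K) : ∑' n, cu φ l₀ n ≤ K := by
  apply tsum_le_of (cu_summable hs l₀) K l₀
  intro N hN
  rw [cu_range φ l₀ N hN]
  exact h N hN

theorem cu_sum_ge {φ : ℕ → ℝ} (hs : Summable φ) (h0 : ∀ n, 0 ≤ φ n) (l₀ N : ℕ) :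
    ∑ n ∈ Ioc l₀ N, φ n ≤ ∑' n, cu φ l₀ n := by
  have h1 : ∑ n ∈ Ioc l₀ N, φ n = ∑ n ∈ Ioc l₀ N, cu φ l₀ n := by
    apply sum_congr rfl
    intro n hn
    rw [mem_Ioc] at hn
    unfold cu
    rw [if_pos hn.1]
  rw [h1]
  exact (cu_summable hs l₀).sum_le_tsum _ (fun n _ => cu_nonneg h0 l₀ n)

/-- the tail -/
theorem tail_le {σ : ℝ} (hσ : 0 < σ) {N : ℕ} (hN : 1 ≤ N) :
    ∑' n, cu (fn 3 σ) N n ≤ 96 / σ ^ 4 * (N : ℝ) ^ (-(σ / 2)) := by
  have hs2 : 0 < σ / 2 := by linarith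
  have hN0 : (0 : ℝ) < N := by exact_mod_cast hN
  have h1 : ∀ n : ℕ, 2 ≤ n → fn 3 σ n ≤ 48 / σ ^ 3 * (1 / (n : ℝ) ^ (1 + σ / 2)) := by
    intro n hn
    have hn0 : (0 : ℝ) < n := by exact_mod_cast (by omega : 0 < n)
    have hl0 : 0 ≤ Real.log n := Real.log_natCast_nonneg n
    have h2 : (σ / 2 * Real.log n) ^ 3 / (3 : ℕ).factorial ≤ Real.exp (σ / 2 * Real.log n) :=
      Real.pow_div_factorial_le_exp _ (by positivity) 3
    have h3 : Real.exp (σ / 2 * Real.log n) = (n : ℝ) ^ (σ / 2) := by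
      rw [Real.rpow_def_of_pos hn0]
      ring_nf
    rw [h3] at h2
    have h4 : (Real.log n) ^ 3 ≤ 48 / σ ^ 3 * (n : ℝ) ^ (σ / 2) := by
      have e1 : ((3 : ℕ).factorial : ℝ) = 6 := by norm_num [Nat.factorial]
      rw [e1, div_le_iff₀ (by norm_num)] at h2
      rw [div_mul_eq_mul_div, le_div_iff₀ (by positivity)]
      have e2 : (σ / 2 * Real.log n) ^ 3 = Real.log n ^ 3 * σ ^ 3 / 8 := by ring
      rw [e2] at h2
      linarith
    have h5 : (n : ℝ) ^ (1 + σ) = (n : ℝ) ^ (1 + σ / 2) * (n : ℝ) ^ (σ / 2) := by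
      rw [← Real.rpow_add hn0]
      ring_nf
    unfold fn
    rw [h5, div_le_iff₀ (by positivity)]
    refine h4.trans (le_of_eq ?_)
    have := (Real.rpow_pos_of_pos hn0 (1 + σ / 2)).ne'
    field_simp
  apply cu_sum_le (fn_summable 3 hσ)
  intro M hM
  have h2 : ∑ n ∈ Ioc N M, fn 3 σ n ≤ ∑ n ∈ Ioc N M, 48 / σ ^ 3 * (1 / (n : ℝ) ^ (1 + σ / 2)) := by
    apply sum_le_sum
    intro n hn
    rw [mem_Ioc] at hn
    exact h1 n (by omega)
  refine h2.trans ?_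
  rw [← mul_sum]
  have h3 : ∑ n ∈ Ioc N M, 1 / (n : ℝ) ^ (1 + σ / 2) ≤
      1 / (σ / 2) * ((N : ℝ) ^ (-(σ / 2)) - (M : ℝ) ^ (-(σ / 2))) := by
    induction M, hM using Nat.le_induction with
    | base => simp
    | succ M hM ih =>
      rw [sum_Ioc_succ_top hM]
      have h4 := rpow_tele hs2 (by omega : 2 ≤ M + 1)
      push_cast at h4 ⊢
      have e : (M : ℝ) + 1 - 1 = M := by ring
      rw [e] at h4
      have ih' := ih (by
        apply sum_le_sum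
        intro n hn
        rw [mem_Ioc] at hn
        exact h1 n (by omega))
      linarith
  have h4 : 0 ≤ (M : ℝ) ^ (-(σ / 2)) := by positivity
  have h5 : 0 ≤ 1 / (σ / 2) := by positivity
  have h6 : ∑ n ∈ Ioc N M, 1 / (n : ℝ) ^ (1 + σ / 2) ≤ 1 / (σ / 2) * (N : ℝ) ^ (-(σ / 2)) := by
    nlinarith
  calc 48 / σ ^ 3 * ∑ n ∈ Ioc N M, 1 / (n : ℝ) ^ (1 + σ / 2) ≤
      48 / σ ^ 3 * (1 / (σ / 2) * (N : ℝ) ^ (-(σ / 2))) :=
        mul_le_mul_of_nonneg_left h6 (by positivity)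
    _ = 96 / σ ^ 4 * (N : ℝ) ^ (-(σ / 2)) := by
        field_simp
        ring

theorem F_le {σ : ℝ} (hσ : 0 < σ) {N : ℕ} (hN : 1 ≤ N) :
    ∑' n, cu (fn 3 σ) N n ≤ 96 / σ ^ 4 := by
  refine (tail_le hσ hN).trans ?_
  apply mul_le_of_le_one_right (by positivity)
  apply Real.rpow_le_one_of_one_le_of_nonpos
  · exact_mod_cast hN
  · linarith

/-- lower bound through one block -/
theorem cu_block {φ : ℕ → ℝ} (hs : Summable φ) (h0 : ∀ n, 0 ≤ φ n) (l₀ : ℕ)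
    (hφ : ∀ a b, l₀ ≤ a → a ≤ b → φ b ≤ φ a) : (l₀ : ℝ) * φ (2 * l₀) ≤ ∑' n, cu φ l₀ n := by
  refine le_trans ?_ (cu_sum_ge hs h0 l₀ (2 * l₀))
  have h1 : ∑ _n ∈ Ioc l₀ (2 * l₀), φ (2 * l₀) ≤ ∑ n ∈ Ioc l₀ (2 * l₀), φ n := by
    apply sum_le_sum
    intro n hn
    rw [mem_Ioc] at hn
    exact hφ n (2 * l₀) (by omega) (by omega)
  refine le_trans (le_of_eq ?_) h1
  rw [sum_const, Nat.card_Ioc, nsmul_eq_mul]
  congr 2
  omega

theorem fn_double {σ : ℝ} (hσ : 0 < σ) (hσ1 : σ ≤ 1) {n m : ℕ} (hn : 1 ≤ n) (hnm : n ≤ m)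
    (hm : m ≤ 2 * n) : fn 3 σ n ≤ 4 * fn 3 σ m := by
  have hn0 : (0 : ℝ) < n := by exact_mod_cast hn
  have hm0 : (0 : ℝ) < m := by exact_mod_cast (by omega : 0 < m)
  unfold fn
  rw [mul_div_assoc', div_le_div_iff₀ (by positivity) (by positivity)]
  have h1 : (Real.log n) ^ 3 ≤ (Real.log m) ^ 3 := by
    apply pow_le_pow_left₀ (Real.log_natCast_nonneg n)
    exact Real.log_le_log hn0 (by exact_mod_cast hnm)
  have h2 : (m : ℝ) ^ (1 + σ) ≤ 4 * (n : ℝ) ^ (1 + σ) := by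
    calc (m : ℝ) ^ (1 + σ) ≤ (2 * (n : ℝ)) ^ (1 + σ) :=
          Real.rpow_le_rpow hm0.le (by exact_mod_cast hm) (by linarith)
      _ = (2 : ℝ) ^ (1 + σ) * (n : ℝ) ^ (1 + σ) := Real.mul_rpow (by norm_num) hn0.le
      _ ≤ 4 * (n : ℝ) ^ (1 + σ) := by
          apply mul_le_mul_of_nonneg_right _ (by positivity)
          calc (2 : ℝ) ^ (1 + σ) ≤ (2 : ℝ) ^ (2 : ℝ) :=
                Real.rpow_le_rpow_of_exponent_le (by norm_num) (by linarith)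
            _ = 4 := by norm_num
  have h3 : 0 ≤ (Real.log m) ^ 3 := by
    have := Real.log_natCast_nonneg m
    positivity
  calc (Real.log n) ^ 3 * (m : ℝ) ^ (1 + σ) ≤ (Real.log m) ^ 3 * (4 * (n : ℝ) ^ (1 + σ)) := by
        apply mul_le_mul h1 h2 (by positivity) h3
    _ = _ := by ring

/-- the weights of a form -/
noncomputable def fA (σ : ℝ) (A B : ℕ) (l : ℕ) : ℝ := fn 3 σ (B + A * l)

theorem fA_summable {σ : ℝ} (hσ : 0 < σ) {A B : ℕ} (hA : 1 ≤ A) : Summable (fA σ A B) := by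
  unfold fA
  apply (fn_summable 3 hσ).comp_injective
  intro a b hab
  simp only at hab
  have : A * a = A * b := by omega
  exact Nat.eq_of_mul_eq_mul_left hA this

theorem fA_anti {σ : ℝ} (hσ : 0 < σ) {A B : ℕ} (hA : 1 ≤ A) (l₀ : ℕ) (hl : 32 ≤ l₀) (a b : ℕ)
    (ha : l₀ ≤ a) (hab : a ≤ b) : fA σ A B b ≤ fA σ A B a := by
  unfold fA
  apply fn3_anti hσ
  · nlinarith
  · have := Nat.mul_le_mul_left A hab
    omega

/-- the block bound for the weights of a form -/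
theorem fA_block {σ : ℝ} (hσ : 0 < σ) (hσ1 : σ ≤ 1) {A B : ℕ} (hA : 1 ≤ A) {l₀ : ℕ}
    (hl : 32 ≤ l₀) : (l₀ : ℝ) * fA σ A B l₀ ≤ 4 * ∑' l, cu (fA σ A B) l₀ l := by
  have h1 := cu_block (fA_summable hσ (B := B) hA) (fun n => fn_nonneg 3 σ _) l₀
    (fA_anti hσ hA l₀ hl)
  have h2 : fA σ A B l₀ ≤ 4 * fA σ A B (2 * l₀) := by
    unfold fA
    apply fn_double hσ hσ1
    · nlinarith
    · have := Nat.mul_le_mul_left A (by omega : l₀ ≤ 2 * l₀)
      omega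
    · nlinarith
  have hl0 : (0 : ℝ) ≤ l₀ := Nat.cast_nonneg _
  nlinarith

/-- comparison with the sum over all integers -/
theorem fA_cmp {σ : ℝ} (hσ : 0 < σ) {A B : ℕ} (hA : 1 ≤ A) {l₁ : ℕ} (hl : 32 ≤ l₁) :
    ∑' n, cu (fn 3 σ) (B + A * (l₁ + 1)) n ≤ A * ∑' l, cu (fA σ A B) l₁ l := by
  apply cu_sum_le (fn_summable 3 hσ)
  intro N hN
  have h1 : ∀ M : ℕ, l₁ ≤ M → ∑ n ∈ Ioc (B + A * (l₁ + 1)) (B + A * (M + 1)), fn 3 σ n ≤
      A * ∑ l ∈ Ioc l₁ M, fA σ A B l := by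
    intro M hM
    induction M, hM using Nat.le_induction with
    | base => simp
    | succ M hM ih =>
      have h2 : B + A * (l₁ + 1) ≤ B + A * (M + 1) := by
        have := Nat.mul_le_mul_left A (by omega : l₁ + 1 ≤ M + 1)
        omega
      have h3 : B + A * (M + 1) ≤ B + A * (M + 1 + 1) := by
        have := Nat.mul_le_mul_left A (by omega : M + 1 ≤ M + 1 + 1)
        omega
      have e1 : ∑ n ∈ Ioc (B + A * (l₁ + 1)) (B + A * (M + 1 + 1)), fn 3 σ n =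
          ∑ n ∈ Ioc (B + A * (l₁ + 1)) (B + A * (M + 1)), fn 3 σ n +
            ∑ n ∈ Ioc (B + A * (M + 1)) (B + A * (M + 1 + 1)), fn 3 σ n :=
        (sum_Ioc_consecutive _ h2 h3).symm
      rw [e1, sum_Ioc_succ_top hM]
      have e2 : (A : ℝ) * (∑ k ∈ Ioc l₁ M, fA σ A B k + fA σ A B (M + 1)) =
          A * ∑ k ∈ Ioc l₁ M, fA σ A B k + A * fA σ A B (M + 1) := by ring
      rw [e2]
      apply add_le_add ih
      calc ∑ n ∈ Ioc (B + A * (M + 1)) (B + A * (M + 1 + 1)), fn 3 σ n ≤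
          ∑ _n ∈ Ioc (B + A * (M + 1)) (B + A * (M + 1 + 1)), fA σ A B (M + 1) := by
            apply sum_le_sum
            intro n hn
            rw [mem_Ioc] at hn
            unfold fA
            exact fn3_anti hσ (by nlinarith) hn.1.le
        _ = A * fA σ A B (M + 1) := by
            rw [sum_const, Nat.card_Ioc, nsmul_eq_mul]
            congr 2
            rw [show B + A * (M + 1 + 1) = B + A * (M + 1) + A by ring]
            omega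
  have h2 : N ≤ B + A * (N + 1) := by nlinarith
  have hlN : l₁ ≤ N := by nlinarith
  calc ∑ n ∈ Ioc (B + A * (l₁ + 1)) N, fn 3 σ n ≤
      ∑ n ∈ Ioc (B + A * (l₁ + 1)) (B + A * (N + 1)), fn 3 σ n :=
        sum_le_sum_of_subset_of_nonneg (Ioc_subset_Ioc_right h2) fun n _ _ => fn_nonneg 3 σ n
    _ ≤ A * ∑ l ∈ Ioc l₁ N, fA σ A B l := h1 N hlN
    _ ≤ A * ∑' l, cu (fA σ A B) l₁ l := by
        apply mul_le_mul_of_nonneg_left _ (Nat.cast_nonneg A)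
        exact cu_sum_ge (fA_summable hσ hA) (fun n => fn_nonneg 3 σ _) l₁ N

theorem harm_Ioc {Z N : ℕ} (hZ : 1 ≤ Z) (hN : 1 ≤ N) :
    ∑ n ∈ Ioc Z N, 1 / (n : ℝ) ≤ Real.log N := by
  have h1 := harmonic_le_one_add_log N
  have h2 : ((harmonic N : ℚ) : ℝ) = ∑ n ∈ Icc 1 N, 1 / (n : ℝ) := by
    rw [harmonic_eq_sum_Icc]
    push_cast
    simp
  rw [h2] at h1
  have h3 : ∑ n ∈ Icc 1 N, 1 / (n : ℝ) = 1 + ∑ n ∈ Ioc 1 N, 1 / (n : ℝ) := by
    rw [← Finset.add_sum_Ioc_eq_sum_Icc hN]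
    norm_num
  have h4 : ∑ n ∈ Ioc Z N, 1 / (n : ℝ) ≤ ∑ n ∈ Ioc 1 N, 1 / (n : ℝ) :=
    sum_le_sum_of_subset_of_nonneg (Ioc_subset_Ioc_left hZ) fun n _ _ => by positivity
  linarith

theorem fn_mid {σ : ℝ} (hσ : 0 < σ) {Z N : ℕ} (hZ : 1 ≤ Z) (hN : 1 ≤ N) :
    ∑ n ∈ Ioc Z N, fn 3 σ n ≤ (Real.log N) ^ 4 := by
  have hlN : 0 ≤ Real.log N := Real.log_natCast_nonneg N
  calc ∑ n ∈ Ioc Z N, fn 3 σ n ≤ ∑ n ∈ Ioc Z N, (Real.log N) ^ 3 * (1 / (n : ℝ)) := by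
        apply sum_le_sum
        intro n hn
        rw [mem_Ioc] at hn
        have hn1 : (1 : ℝ) ≤ n := by exact_mod_cast (by omega : 1 ≤ n)
        unfold fn
        rw [mul_one_div]
        apply div_le_div₀ (by positivity) _ (by linarith)
        · calc (n : ℝ) = (n : ℝ) ^ (1 : ℝ) := (Real.rpow_one _).symm
            _ ≤ (n : ℝ) ^ (1 + σ) := Real.rpow_le_rpow_of_exponent_le hn1 (by linarith)
        · apply pow_le_pow_left₀ (Real.log_natCast_nonneg n)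
          exact Real.log_le_log (by linarith) (by exact_mod_cast hn.2)
    _ = (Real.log N) ^ 3 * ∑ n ∈ Ioc Z N, 1 / (n : ℝ) := by rw [mul_sum]
    _ ≤ (Real.log N) ^ 3 * Real.log N :=
        mul_le_mul_of_nonneg_left (harm_Ioc hZ hN) (by positivity)
    _ = _ := by ring

theorem cu_split {φ : ℕ → ℝ} (hs : Summable φ) {a b : ℕ} (hab : a ≤ b) :
    ∑' n, cu φ a n = ∑ n ∈ Ioc a b, φ n + ∑' n, cu φ b n := by
  have h1 : ∀ n, cu φ a n = (if n ∈ Ioc a b then φ n else 0) + cu φ b n := by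
    intro n
    unfold cu
    by_cases h1 : a < n
    · by_cases h2 : b < n
      · rw [if_pos h1, if_pos h2, if_neg (by rw [mem_Ioc]; omega)]
        ring
      · rw [if_pos h1, if_neg h2, if_pos (by rw [mem_Ioc]; omega)]
        ring
    · have h2 : ¬ b < n := by omega
      have h3 : n ∉ Ioc a b := by rw [mem_Ioc]; omega
      rw [if_neg h1, if_neg h2, if_neg h3]
      ring
  have h2 : Summable (fun n => if n ∈ Ioc a b then φ n else 0) := by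
    apply summable_of_finite_support
    apply (Ioc a b).finite_toSet.subset
    intro n hn
    by_contra h3
    apply hn
    simp only
    rw [if_neg]
    exact h3
  rw [tsum_congr h1, h2.tsum_add (cu_summable hs b)]
  congr 1
  rw [tsum_eq_sum (s := Ioc a b)]
  · exact sum_congr rfl fun n hn => if_pos hn
  · intro n hn
    exact if_neg hn

/-- the final lower bound for the sum over a class -/
theorem fA_lower {σ : ℝ} (hσ : 0 < σ) {A B : ℕ} (hA : 1 ≤ A) {l₁ Z : ℕ} (hl : 32 ≤ l₁)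
    (hZ : 1 ≤ Z) (hZl : Z ≤ B + A * (l₁ + 1)) :
    ∑' n, cu (fn 3 σ) Z n - (Real.log (B + A * (l₁ + 1) : ℕ)) ^ 4 ≤ A * ∑' l, cu (fA σ A B) l₁ l := by
  have h1 := fA_cmp hσ (B := B) hA hl
  have h2 := cu_split (fn_summable 3 hσ) hZl
  have h3 := fn_mid hσ hZ (hZ.trans hZl)
  linarith

/-- the common majorant -/
noncomputable def hh (σ : ℝ) (l : ℕ) : ℝ := 8 * fn 3 σ l

theorem hh_ge {σ : ℝ} (hσ : 0 < σ) {A B l : ℕ} (hA : 1 ≤ A) (hBA : B < A) (hl : A < l) :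
    A * fA σ A B l ≤ hh σ l := by
  have hA0 : (0 : ℝ) < A := by exact_mod_cast hA
  have hA1 : (1 : ℝ) ≤ A := by exact_mod_cast hA
  have hl0 : (0 : ℝ) < l := by exact_mod_cast (by omega : 0 < l)
  have hl1 : (1 : ℝ) ≤ l := by exact_mod_cast (by omega : 1 ≤ l)
  have hm0 : 0 < B + A * l := by
    have : 0 < A * l := Nat.mul_pos hA (by omega)
    omega
  have hm0' : (0 : ℝ) < ((B + A * l : ℕ) : ℝ) := by exact_mod_cast hm0
  have h1 : Real.log ((B + A * l : ℕ) : ℝ) ≤ 2 * Real.log l := by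
    have h2 : B + A * l ≤ l ^ 2 := by nlinarith
    have h3 : ((B + A * l : ℕ) : ℝ) ≤ (l : ℝ) ^ 2 := by exact_mod_cast h2
    calc Real.log ((B + A * l : ℕ) : ℝ) ≤ Real.log ((l : ℝ) ^ 2) := Real.log_le_log hm0' h3
      _ = 2 * Real.log l := by rw [Real.log_pow]; norm_num
  have h4 : (A : ℝ) * (l : ℝ) ^ (1 + σ) ≤ ((B + A * l : ℕ) : ℝ) ^ (1 + σ) := by
    calc (A : ℝ) * (l : ℝ) ^ (1 + σ) ≤ (A : ℝ) ^ (1 + σ) * (l : ℝ) ^ (1 + σ) := by
          apply mul_le_mul_of_nonneg_right _ (by positivity)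
          calc (A : ℝ) = (A : ℝ) ^ (1 : ℝ) := (Real.rpow_one _).symm
            _ ≤ (A : ℝ) ^ (1 + σ) := Real.rpow_le_rpow_of_exponent_le hA1 (by linarith)
      _ = ((A : ℝ) * l) ^ (1 + σ) := (Real.mul_rpow hA0.le hl0.le).symm
      _ ≤ ((B + A * l : ℕ) : ℝ) ^ (1 + σ) := by
          apply Real.rpow_le_rpow (by positivity) _ (by linarith)
          push_cast
          have : (0 : ℝ) ≤ B := Nat.cast_nonneg B
          linarith
  unfold fA hh fn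
  rw [mul_div_assoc', mul_div_assoc', div_le_div_iff₀ (by positivity) (by positivity)]
  have h5 : (Real.log ((B + A * l : ℕ) : ℝ)) ^ 3 ≤ 8 * (Real.log l) ^ 3 := by
    calc (Real.log ((B + A * l : ℕ) : ℝ)) ^ 3 ≤ (2 * Real.log l) ^ 3 :=
          pow_le_pow_left₀ (Real.log_natCast_nonneg _) h1 3
      _ = _ := by ring
  have h6 : 0 ≤ 8 * (Real.log l) ^ 3 := by
    have := Real.log_natCast_nonneg l
    positivity
  calc (A : ℝ) * (Real.log ((B + A * l : ℕ) : ℝ)) ^ 3 * (l : ℝ) ^ (1 + σ) =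
        (Real.log ((B + A * l : ℕ) : ℝ)) ^ 3 * ((A : ℝ) * (l : ℝ) ^ (1 + σ)) := by ring
    _ ≤ 8 * (Real.log l) ^ 3 * ((B + A * l : ℕ) : ℝ) ^ (1 + σ) :=
        mul_le_mul h5 h4 (by positivity) h6

theorem hh_summable {σ : ℝ} (hσ : 0 < σ) : Summable (hh σ) := (fn_summable 3 hσ).mul_left 8

theorem hh_nonneg (σ : ℝ) (l : ℕ) : 0 ≤ hh σ l := mul_nonneg (by norm_num) (fn_nonneg 3 σ l)

theorem hh_anti {σ : ℝ} (hσ : 0 < σ) (l₀ : ℕ) (hl : 32 ≤ l₀) (a b : ℕ)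
    (ha : l₀ ≤ a) (hab : a ≤ b) : hh σ b ≤ hh σ a :=
  mul_le_mul_of_nonneg_left (fn3_anti hσ (hl.trans ha) hab) (by norm_num)

theorem hh_block {σ : ℝ} (hσ : 0 < σ) (hσ1 : σ ≤ 1) {l₀ : ℕ}
    (hl : 32 ≤ l₀) : (l₀ : ℝ) * hh σ l₀ ≤ 4 * ∑' l, cu (hh σ) l₀ l := by
  have h1 := cu_block (hh_summable hσ) (hh_nonneg σ) l₀ (hh_anti hσ l₀ hl)
  have h2 : hh σ l₀ ≤ 4 * hh σ (2 * l₀) := by
    unfold hh
    have := fn_double hσ hσ1 (by omega : 1 ≤ l₀) (by omega : l₀ ≤ 2 * l₀) le_rfl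
    linarith
  have hl0 : (0 : ℝ) ≤ l₀ := Nat.cast_nonneg _
  nlinarith

theorem hh_tail {σ : ℝ} (hσ : 0 < σ) {N : ℕ} (hN : 1 ≤ N) :
    ∑' n, cu (hh σ) N n ≤ 768 / σ ^ 4 * (N : ℝ) ^ (-(σ / 2)) := by
  have h1 : ∀ n, cu (hh σ) N n = 8 * cu (fn 3 σ) N n := by
    intro n
    unfold cu hh
    split_ifs <;> ring
  rw [tsum_congr h1, tsum_mul_left]
  have h2 := tail_le hσ hN
  calc 8 * ∑' n, cu (fn 3 σ) N n ≤ 8 * (96 / σ ^ 4 * (N : ℝ) ^ (-(σ / 2))) := by linarith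
    _ = _ := by ring

theorem log_sum_ge {a b : ℕ} (ha : 1 ≤ a) (hab : a ≤ b) :
    Real.log b - Real.log a - 1 ≤ ∑ n ∈ Ioc a b, 1 / (n : ℝ) := by
  have h1 := log_add_one_le_harmonic b
  have h2 := harmonic_le_one_add_log a
  have e : ∀ N : ℕ, ((harmonic N : ℚ) : ℝ) = ∑ n ∈ Ioc 0 N, 1 / (n : ℝ) := by
    intro N
    rw [harmonic_eq_sum_Icc]
    push_cast
    simp only [one_div]
    rfl
  rw [e] at h1 h2
  have h3 : ∑ n ∈ Ioc 0 b, 1 / (n : ℝ) = ∑ n ∈ Ioc 0 a, 1 / (n : ℝ) + ∑ n ∈ Ioc a b, 1 / (n : ℝ) :=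
    (sum_Ioc_consecutive _ (Nat.zero_le a) hab).symm
  have h4 : Real.log b ≤ Real.log (b + 1 : ℕ) := by
    apply Real.log_le_log
    · exact_mod_cast (by omega : 0 < b)
    · push_cast; linarith
  push_cast at h4
  push_cast at h1
  linarith

/-- the majorant has mass -/
theorem hh_lower {Z l₀ : ℕ} {A : ℝ} (hA : 1 ≤ A) (hZ : 32 ≤ Z) (hl₀ : 1 ≤ l₀) (hlZ : l₀ ≤ Z)
    (h8 : Real.log Z = 8 * Real.log l₀) (hl4 : 4 ≤ Real.log Z) :
    (Real.log Z) ^ 4 / 400 ≤ ∑' n, cu (hh (1 / (A * Real.log Z))) l₀ n := by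
  set L := Real.log Z with hL
  have hσ : 0 < 1 / (A * L) := by positivity
  refine le_trans ?_ (cu_sum_ge (hh_summable hσ) (hh_nonneg _) l₀ Z)
  have h1 := log_sum_ge hl₀ hlZ
  have hZ0 : (0 : ℝ) < Z := by exact_mod_cast (by omega : 0 < Z)
  have h2 : ∀ n ∈ Ioc l₀ Z, L ^ 3 / 192 * (1 / (n : ℝ)) ≤ hh (1 / (A * L)) n := by
    intro n hn
    rw [mem_Ioc] at hn
    have hn0 : (0 : ℝ) < n := by exact_mod_cast (by omega : 0 < n)
    have hn1 : (1 : ℝ) ≤ n := by exact_mod_cast (by omega : 1 ≤ n)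
    have h3 : (n : ℝ) ^ (1 + 1 / (A * L)) ≤ 3 * n := by
      rw [Real.rpow_add hn0, Real.rpow_one, mul_comm (3 : ℝ)]
      apply mul_le_mul_of_nonneg_left _ hn0.le
      calc (n : ℝ) ^ (1 / (A * L)) ≤ (Z : ℝ) ^ (1 / (A * L)) := by
            apply Real.rpow_le_rpow hn0.le (by exact_mod_cast hn.2) hσ.le
        _ = Real.exp (1 / A) := by
            rw [Real.rpow_def_of_pos hZ0]
            congr 1
            rw [← hL]
            field_simp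
        _ ≤ Real.exp 1 := by
            apply Real.exp_le_exp.2
            rw [div_le_one (by linarith)]
            exact hA
        _ ≤ 3 := by linarith [Real.exp_one_lt_d9]
    have h4 : (L / 8) ^ 3 ≤ (Real.log n) ^ 3 := by
      apply pow_le_pow_left₀ (by linarith)
      have : L / 8 = Real.log l₀ := by linarith
      rw [this]
      apply Real.log_le_log (by exact_mod_cast hl₀)
      exact_mod_cast hn.1.le
    unfold hh fn
    rw [mul_one_div, div_le_iff₀ hn0, mul_div_assoc', div_mul_eq_mul_div, le_div_iff₀ (by positivity)]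
    have h5 : 0 ≤ L ^ 3 := by positivity
    calc L ^ 3 / 192 * (n : ℝ) ^ (1 + 1 / (A * L)) ≤ L ^ 3 / 192 * (3 * n) :=
          mul_le_mul_of_nonneg_left h3 (by positivity)
      _ = 8 * (L / 8) ^ 3 * n := by ring
      _ ≤ 8 * (Real.log n) ^ 3 * n := by
          apply mul_le_mul_of_nonneg_right _ hn0.le
          linarith
  refine le_trans ?_ (sum_le_sum h2)
  rw [← mul_sum]
  have h3 : L / 2 ≤ ∑ n ∈ Ioc l₀ Z, 1 / (n : ℝ) := by linarith
  have h5 : 0 ≤ L ^ 3 / 192 := by positivity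
  calc L ^ 4 / 400 ≤ L ^ 3 / 192 * (L / 2) := by
        have : 0 ≤ L ^ 4 := by positivity
        have e : L ^ 3 / 192 * (L / 2) = L ^ 4 / 384 := by ring
        rw [e]
        apply div_le_div_of_nonneg_left this (by norm_num) (by norm_num)
    _ ≤ _ := mul_le_mul_of_nonneg_left h3 h5

end Run7.h296
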