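import Pool.Agent.Run7.h296.Wts

/-!
Explicit sieve weights: the sums against a density.
-/

set_option autoImplicit false

open Finset

namespace Run7.h296

open Pool.Agent.Helper112.LP Pool.Agent.Helper112.LP.Kba Pool.Agent.Helper112.LP.Kbh
open Pool.Agent.H483R2.BHKD Pool.Agent.H20R2.FL

/-- the relative errors in the groups -/
noncomputable def et (b J : ℕ) (i : Fin J) : ℝ := (1 / 2) ^ (bb b J i + 1)

theorem et_pos (b J : ℕ) (i : Fin J) : 0 < et b J i := by unfold et; positivity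

theorem et_sum (b J : ℕ) : ∑ i, et b J i ≤ 2 / 3 * (1 / 4) ^ b := tail_b b J

/-- the local estimates -/
theorem loc_est : ∃ C : ℕ, 1 ≤ C ∧ ∀ κ : ℕ, ∃ D : ℝ, 1 ≤ D ∧ ∀ (b J z0 : ℕ) (P : Finset ℕ) (g : ℕ → ℝ),
    C * (κ + 1) ≤ b → C * (κ + 1) ≤ z0 → (∀ p ∈ P, p.Prime ∧ z0 < p ∧ p < 2 ^ 2 ^ J) →
    (∀ p ∈ P, 0 ≤ g p ∧ g p ≤ κ / ((p : ℝ) - 1)) →
    (∀ p ∈ P, g p ≤ 1 / 2) ∧
    ∀ i : Fin J, 0 < ∏ l ∈ gp P i, (1 - g l) ∧
      ∏ l ∈ gp P i, (1 - g l) ≤ bhA g (bb b J i) (gp P i) ∧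
      bhA g (bb b J i) (gp P i) ≤ (∏ l ∈ gp P i, (1 - g l)) * (1 + et b J i) ∧
      0 ≤ bhE g (bb b J i + 1) (gp P i) ∧
      bhE g (bb b J i + 1) (gp P i) ≤ et b J i * ∏ l ∈ gp P i, (1 - g l) ∧
      ∏ l ∈ gp P i, (1 + g l) ≤ D * ∏ l ∈ gp P i, (1 - g l) := by
  obtain ⟨CM, hCM, hM⟩ := mertens_group
  set L : ℝ := Real.log 2 + CM with hLdef
  have hlog2 : 0 < Real.log 2 := Real.log_pos (by norm_num)
  have hL0 : 0 < L := by rw [hLdef]; linarith
  have hLs : ∀ i : ℕ, ∑ l ∈ Gj (i + 1), (1 : ℝ) / l ≤ L := by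
    intro i
    have h1 := (abs_le.1 (hM (i + 1) (by omega))).2
    have h2 : CM / 2 ^ (i + 1) ≤ CM := div_le_self hCM.le (one_le_pow₀ (by norm_num))
    rw [hLdef]; linarith
  obtain ⟨N1, hN1⟩ := exists_nat_ge (21 * L)
  refine ⟨N1 + 12, by omega, fun κ => ?_⟩
  have hκ0 : (0 : ℝ) ≤ κ := Nat.cast_nonneg κ
  set x0 : ℝ := 2 * (κ * L) with hx0
  have hx00 : 0 ≤ x0 := by positivity
  refine ⟨Real.exp (3 * x0), Real.one_le_exp (by positivity), ?_⟩
  intro b J z0 P g hbC hz0C hP hg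
  obtain ⟨N, hNdef⟩ : ∃ N : ℕ, N = N1 * κ := ⟨_, rfl⟩
  have hN : 21 * ((κ : ℝ) * L) ≤ N := by
    rw [hNdef]
    push_cast
    have := mul_le_mul_of_nonneg_right hN1 (Nat.cast_nonneg (α := ℝ) κ)
    linarith
  have hexp : (N1 + 12) * (κ + 1) = N1 * κ + N1 + 12 * κ + 12 := by ring
  have hb : N + 2 * κ + 10 ≤ b := by rw [hNdef]; omega
  have hz0 : N + 2 * κ + 10 ≤ z0 := by rw [hNdef]; omega
  set v : ℝ := Real.exp (-(2 * x0)) with hv
  have hv0 : 0 < v := Real.exp_pos _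
  have hpb : ∀ p ∈ P, (2 * κ + 10 : ℝ) ≤ (p : ℝ) - 1 := by
    intro p hp
    have h2 : 2 * κ + 10 + 1 ≤ p := by
      have := (hP p hp).2.1
      omega
    have h3 : ((2 * κ + 10 + 1 : ℕ) : ℝ) ≤ p := by exact_mod_cast h2
    push_cast at h3
    linarith
  have hgk : ∀ p ∈ P, g p ≤ 1 / 2 := by
    intro p hp
    have h1 := (hg p hp).2
    have h2 := hpb p hp
    refine h1.trans ?_
    rw [div_le_iff₀ (by linarith)]
    linarith
  have hg2 : ∀ p ∈ P, g p ≤ 2 * κ * (1 / (p : ℝ)) := by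
    intro p hp
    have h1 := (hg p hp).2
    have h2 := hpb p hp
    refine h1.trans ?_
    rw [mul_one_div, div_le_div_iff₀ (by linarith) (by linarith)]
    nlinarith
  refine ⟨hgk, fun i => ?_⟩
  have hsub : gp P i ⊆ P := gp_subT P i
  have hgb : ∀ l ∈ gp P i, 0 ≤ g l ∧ g l ≤ 1 := fun l hl =>
    ⟨(hg l (hsub hl)).1, by linarith [hgk l (hsub hl)]⟩
  have hgsum : ∑ l ∈ gp P i, g l ≤ x0 := by
    calc ∑ l ∈ gp P i, g l ≤ ∑ l ∈ gp P i, 2 * (κ : ℝ) * (1 / (l : ℝ)) := by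
          apply sum_le_sum
          intro l hl
          exact hg2 l (hsub hl)
      _ = 2 * κ * ∑ l ∈ gp P i, 1 / (l : ℝ) := by rw [mul_sum]
      _ ≤ 2 * κ * ∑ l ∈ Gj ((i : ℕ) + 1), 1 / (l : ℝ) := by
          apply mul_le_mul_of_nonneg_left _ (by positivity)
          apply sum_le_sum_of_subset_of_nonneg (gp_sub P i)
          intro l _ _
          positivity
      _ ≤ 2 * κ * L := mul_le_mul_of_nonneg_left (hLs i) (by positivity)
      _ = x0 := by rw [hx0]; ring
  have hVv : v ≤ ∏ l ∈ gp P i, (1 - g l) := by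
    have h1 : Real.exp (-(2 * ∑ l ∈ gp P i, g l)) ≤ ∏ l ∈ gp P i, (1 - g l) := by
      have h2 : -(2 * ∑ l ∈ gp P i, g l) = ∑ l ∈ gp P i, -(2 * g l) := by
        rw [mul_sum, ← sum_neg_distrib]
      rw [h2, Real.exp_sum]
      refine prod_le_prod (fun l _ => (Real.exp_pos _).le) fun l hl => ?_
      exact bh_inv_ge (hgb l hl).1 (hgk l (hsub hl))
    refine le_trans ?_ h1
    rw [hv]
    exact Real.exp_le_exp.2 (by linarith)
  have hV0 : 0 < ∏ l ∈ gp P i, (1 - g l) := lt_of_lt_of_le hv0 hVv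
  have hE0 : 0 ≤ bhE g (bb b J i + 1) (gp P i) := bhE_nonneg _ _ _ fun l hl => (hgb l hl).1
  have hEle : bhE g (bb b J i + 1) (gp P i) ≤ x0 ^ (bb b J i + 1) / (bb b J i + 1).factorial := by
    refine (bhE_le g (gp P i) (fun l hl => (hgb l hl).1) (bb b J i + 1)).trans ?_
    have h0 : 0 ≤ ∑ l ∈ gp P i, g l := sum_nonneg fun l hl => (hgb l hl).1
    gcongr
  have hEv : bhE g (bb b J i + 1) (gp P i) ≤ et b J i * v := by
    have h3 : x0 ^ (bb b J i + 1) / (bb b J i + 1).factorial * Real.exp (2 * x0) ≤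
        (1 / 2) ^ (bb b J i + 1) := by
      apply tail_one x0 hx00 (bb b J i + 1) (by omega)
      have h2 : ((2 * N : ℕ) : ℝ) ≤ ((bb b J i + 1 : ℕ) : ℝ) := by
        have : 2 * N ≤ bb b J i + 1 := by unfold bb; omega
        exact_mod_cast this
      push_cast at h2 ⊢
      rw [hx0]
      linarith
    have h4 : x0 ^ (bb b J i + 1) / (bb b J i + 1).factorial ≤ et b J i * v := by
      have h5 : v * Real.exp (2 * x0) = 1 := by
        rw [hv, ← Real.exp_add]; simp
      have h6 : 0 < Real.exp (2 * x0) := Real.exp_pos _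
      unfold et
      calc x0 ^ (bb b J i + 1) / (bb b J i + 1).factorial =
          x0 ^ (bb b J i + 1) / (bb b J i + 1).factorial * (v * Real.exp (2 * x0)) := by
            rw [h5, mul_one]
        _ = (x0 ^ (bb b J i + 1) / (bb b J i + 1).factorial * Real.exp (2 * x0)) * v := by ring
        _ ≤ _ := mul_le_mul_of_nonneg_right h3 hv0.le
    exact hEle.trans h4
  have hEV : bhE g (bb b J i + 1) (gp P i) ≤ et b J i * ∏ l ∈ gp P i, (1 - g l) :=
    hEv.trans (mul_le_mul_of_nonneg_left hVv (et_pos b J i).le)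
  have hbonf := bh_bonf g (gp P i) hgb (bb b J i)
  rw [(bb_even b J i).neg_one_pow, one_mul] at hbonf
  refine ⟨hV0, by linarith [hbonf.1], ?_, hE0, hEV, ?_⟩
  · have := hbonf.2
    rw [mul_add, mul_one]
    linarith
  · have h1 : ∏ l ∈ gp P i, (1 + g l) ≤ Real.exp x0 := by
      calc ∏ l ∈ gp P i, (1 + g l) ≤ ∏ l ∈ gp P i, Real.exp (g l) := by
            apply prod_le_prod
            · intro l hl
              linarith [(hgb l hl).1]
            · intro l _
              linarith [Real.add_one_le_exp (g l)]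
        _ = Real.exp (∑ l ∈ gp P i, g l) := (Real.exp_sum _ _).symm
        _ ≤ _ := Real.exp_le_exp.2 hgsum
    have h2 : Real.exp x0 = Real.exp (3 * x0) * v := by
      rw [hv, ← Real.exp_add]
      congr 1
      ring
    calc _ ≤ Real.exp x0 := h1
      _ = Real.exp (3 * x0) * v := h2
      _ ≤ _ := mul_le_mul_of_nonneg_left hVv (Real.exp_pos _).le

theorem prod_gp {J : ℕ} (P : Finset ℕ) (hP : ∀ p ∈ P, p.Prime ∧ p < 2 ^ 2 ^ J) (f : ℕ → ℝ) :
    ∏ i : Fin J, ∏ l ∈ gp P i, f l = ∏ l ∈ P, f l := by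
  rw [bh_pT_eq (fun i => gp P i) (fun i => gp_sub P i) f, bhU_gp hP]

theorem prod_mul_gp {J : ℕ} (T : Finset ℕ) (hT : ∀ p ∈ T, p.Prime ∧ p < 2 ^ 2 ^ J) (g : ℕ → ℝ)
    (F : Fin J → ℝ) : (∏ i, F i) * ∏ l ∈ T, g l = ∏ i, (F i * ∏ l ∈ gp T i, g l) := by
  rw [prod_mul_distrib, prod_gp T hT]

theorem sumP (b J : ℕ) (P : Finset ℕ) (hP : ∀ p ∈ P, p.Prime ∧ p < 2 ^ 2 ^ J) (g : ℕ → ℝ) :
    ∑ T ∈ P.powerset, rhoP b J T * ∏ l ∈ T, g l = ∏ i : Fin J, bhA g (bb b J i) (gp P i) := by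
  have h : ∀ T ∈ P.powerset, rhoP b J T * ∏ l ∈ T, g l =
      ∏ i : Fin J, (fun (i : Fin J) U => c1 (bb b J i) U * ∏ l ∈ U, g l) i (gp T i) := by
    intro T hT
    unfold rhoP
    rw [prod_mul_gp T (fun p hp => hP p ((mem_powerset.1 hT) hp))]
  rw [sum_congr rfl h, fac P hP (fun (i : Fin J) U => c1 (bb b J i) U * ∏ l ∈ U, g l)]
  refine prod_congr rfl fun i _ => ?_
  rw [← sum_c1]

/-- the general sum over the supersets of `s` -/
theorem sumS (J : ℕ) (P : Finset ℕ) (hP : ∀ p ∈ P, p.Prime ∧ p < 2 ^ 2 ^ J) (g : ℕ → ℝ)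
    (s : Finset ℕ) (c : Fin J → Finset ℕ → ℝ) :
    ∑ T ∈ (P \ s).powerset, (∏ i, c i (gp (s ∪ T) i)) * ∏ l ∈ T, g l =
      ∏ i : Fin J, ∑ U ∈ (gp (P \ s) i).powerset, c i (gp s i ∪ U) * ∏ l ∈ U, g l := by
  have hPs : ∀ p ∈ P \ s, p.Prime ∧ p < 2 ^ 2 ^ J := fun p hp => hP p (mem_sdiff.1 hp).1
  have h : ∀ T ∈ (P \ s).powerset, (∏ i, c i (gp (s ∪ T) i)) * ∏ l ∈ T, g l =
      ∏ i : Fin J, (fun (i : Fin J) U => c i (gp s i ∪ U) * ∏ l ∈ U, g l) i (gp T i) := by
    intro T hT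
    rw [prod_mul_gp T (fun p hp => hPs p ((mem_powerset.1 hT) hp))]
    refine prod_congr rfl fun i _ => ?_
    have : gp (s ∪ T) i = gp s i ∪ gp T i := by
      unfold gp
      rw [filter_union]
    rw [this]
  rw [sum_congr rfl h, fac (P \ s) hPs (fun (i : Fin J) U => c i (gp s i ∪ U) * ∏ l ∈ U, g l)]

theorem one_le_prod_real (s : Finset ℕ) (f : ℕ → ℝ) (h : ∀ l ∈ s, 1 ≤ f l) :
    1 ≤ ∏ l ∈ s, f l := by
  induction s using Finset.induction_on with
  | empty => simp
  | insert a s ha ih =>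
    rw [prod_insert ha]
    have h1 := h a (mem_insert_self a s)
    have h2 := ih fun l hl => h l (mem_insert_of_mem hl)
    nlinarith

theorem card_hit {J : ℕ} (s : Finset ℕ) :
    (univ.filter (fun i : Fin J => gp s i ≠ ∅)).card ≤ s.card := by
  have h1 : (univ.filter (fun i : Fin J => gp s i ≠ ∅)).card =
      ∑ i ∈ univ.filter (fun i : Fin J => gp s i ≠ ∅), 1 := by simp
  rw [h1]
  calc ∑ i ∈ univ.filter (fun i : Fin J => gp s i ≠ ∅), 1 ≤
      ∑ i ∈ univ.filter (fun i : Fin J => gp s i ≠ ∅), (gp s i).card := by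
        apply sum_le_sum
        intro i hi
        exact card_pos.2 (nonempty_iff_ne_empty.2 (mem_filter.1 hi).2)
    _ ≤ ∑ i : Fin J, (gp s i).card := sum_le_sum_of_subset (filter_subset _ _)
    _ = (bhU (fun i : Fin J => gp s i)).card := (bh_card _ (fun i => gp_sub s i)).symm
    _ ≤ s.card := by
        apply card_le_card
        intro p hp
        unfold bhU at hp
        rw [mem_biUnion] at hp
        obtain ⟨i, _, hi⟩ := hp
        exact gp_subT s i hi

/-- **The weights against a density.** -/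
theorem rho_mass : ∃ C : ℕ, 1 ≤ C ∧ ∀ κ : ℕ, ∃ D : ℝ, 1 ≤ D ∧
    ∀ (b J z0 : ℕ) (P : Finset ℕ) (g : ℕ → ℝ),
    C * (κ + 1) ≤ b → C * (κ + 1) ≤ z0 → (∀ p ∈ P, p.Prime ∧ z0 < p ∧ p < 2 ^ 2 ^ J) →
    (∀ p ∈ P, 0 ≤ g p ∧ g p ≤ κ / ((p : ℝ) - 1)) →
    (∀ p ∈ P, g p ≤ 1 / 2) ∧ 0 < ∏ p ∈ P, (1 - g p) ∧
    ∏ p ∈ P, (1 - g p) ≤ ∑ T ∈ P.powerset, rhoP b J T * ∏ l ∈ T, g l ∧
    ∑ T ∈ P.powerset, rhoP b J T * ∏ l ∈ T, g l ≤ (1 + (1 / 2) ^ b) * ∏ p ∈ P, (1 - g p) ∧
    0 ≤ ∑ T ∈ P.powerset, rhoD b J T * ∏ l ∈ T, g l ∧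
    ∑ T ∈ P.powerset, rhoD b J T * ∏ l ∈ T, g l ≤ (1 / 2) ^ b * ∏ p ∈ P, (1 - g p) ∧
    ∑ T ∈ P.powerset, |rhoD b J T| * ∏ l ∈ T, g l ≤ (1 / 2) ^ b * ∏ p ∈ P, (1 + g p) ∧
    ∀ s ⊆ P, |∑ T ∈ (P \ s).powerset, rhoP b J (s ∪ T) * ∏ l ∈ T, g l| ≤
        2 * D ^ s.card * ∏ p ∈ P, (1 - g p) ∧
      |∑ T ∈ (P \ s).powerset, rhoD b J (s ∪ T) * ∏ l ∈ T, g l| ≤
        2 * (2 * D) ^ s.card * ∏ p ∈ P, (1 - g p) := by
  obtain ⟨C, hC, hloc⟩ := loc_est
  refine ⟨C, hC, fun κ => ?_⟩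
  obtain ⟨D, hD, hloc⟩ := hloc κ
  refine ⟨D, hD, ?_⟩
  intro b J z0 P g hb hz hP hg
  obtain ⟨hg2, hl⟩ := hloc b J z0 P g hb hz hP hg
  have hb1 : 1 ≤ b := by
    have : 1 * 1 ≤ C * (κ + 1) := Nat.mul_le_mul hC (by omega)
    omega
  have hP' : ∀ p ∈ P, p.Prime ∧ p < 2 ^ 2 ^ J := fun p hp => ⟨(hP p hp).1, (hP p hp).2.2⟩
  have hV0 : 0 < ∏ p ∈ P, (1 - g p) := prod_pos fun p hp => by linarith [hg2 p hp]
  have hVeq : ∏ i : Fin J, ∏ l ∈ gp P i, (1 - g l) = ∏ p ∈ P, (1 - g p) :=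
    prod_gp P hP' (fun p => 1 - g p)
  have hes := et_sum b J
  have h4b : (1 / 4 : ℝ) ^ b ≤ 1 / 2 * (1 / 2) ^ b := by
    have h1 : (1 / 4 : ℝ) ^ b = (1 / 2) ^ b * (1 / 2) ^ b := by
      rw [← mul_pow]; norm_num
    have h2 : (1 / 2 : ℝ) ^ b ≤ (1 / 2) ^ 1 := pow_le_pow_of_le_one (by norm_num) (by norm_num) hb1
    have h3 : (0 : ℝ) ≤ (1 / 2) ^ b := by positivity
    rw [h1]
    nlinarith
  have h2b0 : (0 : ℝ) < (1 / 2) ^ b := by positivity
  have h2b1 : (1 / 2 : ℝ) ^ b ≤ 1 / 2 := by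
    have := pow_le_pow_of_le_one (by norm_num : (0 : ℝ) ≤ 1 / 2) (by norm_num) hb1
    simpa using this
  have hes2 : ∑ i, et b J i ≤ 1 / 3 * (1 / 2) ^ b := by linarith
  have hes0 : 0 ≤ ∑ i, et b J i := sum_nonneg fun i _ => (et_pos b J i).le
  -- the product of the `1 + et`
  have hprod1 : ∏ i, (1 + et b J i) ≤ 1 + (1 / 2) ^ b := by
    have h1 : ∏ i, (1 + et b J i) ≤ Real.exp (∑ i, et b J i) := by
      rw [Real.exp_sum]
      apply prod_le_prod
      · intro i _; linarith [et_pos b J i]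
      · intro i _; linarith [Real.add_one_le_exp (et b J i)]
    have h2 : |Real.exp (∑ i, et b J i) - 1| ≤ 2 * |∑ i, et b J i| :=
      Real.abs_exp_sub_one_le (by rw [abs_of_nonneg hes0]; linarith)
    rw [abs_of_nonneg hes0] at h2
    have h3 := (le_abs_self _).trans h2
    linarith
  have hprod2 : ∏ i, (1 + et b J i) ≤ 2 := by linarith
  have hTr0 : ∀ i : Fin J, 0 < bhA g (bb b J i) (gp P i) := fun i =>
    lt_of_lt_of_le (hl i).1 (hl i).2.1
  have hmP := sumP b J P hP' g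
  have hmD : ∑ T ∈ P.powerset, rhoD b J T * ∏ l ∈ T, g l =
      ∑ k : Fin J, bhE g (bb b J k + 1) (gp P k) *
        ∏ i ∈ univ.erase k, bhA g (bb b J i) (gp P i) := by
    simp_rw [rhoD_eq, sum_mul]
    rw [sum_comm]
    refine sum_congr rfl fun k _ => ?_
    have h : ∀ T ∈ P.powerset, (∏ i, (if i = k then c2 (bb b J i) (gp T i) else
        c1 (bb b J i) (gp T i))) * ∏ l ∈ T, g l =
        ∏ i : Fin J, (fun (i : Fin J) U => (if i = k then c2 (bb b J i) U else c1 (bb b J i) U) *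
          ∏ l ∈ U, g l) i (gp T i) := by
      intro T hT
      rw [prod_mul_gp T (fun p hp => hP' p ((mem_powerset.1 hT) hp))]
    rw [sum_congr rfl h, fac P hP' (fun (i : Fin J) U =>
        (if i = k then c2 (bb b J i) U else c1 (bb b J i) U) * ∏ l ∈ U, g l),
        ← prod_ite_erase k (fun i => bhE g (bb b J i + 1) (gp P i))
        (fun i => bhA g (bb b J i) (gp P i))]
    refine prod_congr rfl fun i _ => ?_
    by_cases hik : i = k
    · simp only [if_pos hik]
      rw [← sum_c2]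
    · simp only [if_neg hik]
      rw [← sum_c1]
  have hupP : ∏ i : Fin J, bhA g (bb b J i) (gp P i) ≤
      (∏ p ∈ P, (1 - g p)) * ∏ i, (1 + et b J i) := by
    rw [← hVeq, ← prod_mul_distrib]
    exact prod_le_prod (fun i _ => (hTr0 i).le) (fun i _ => (hl i).2.2.1)
  have hErTr : ∀ k : Fin J, bhE g (bb b J k + 1) (gp P k) *
      ∏ i ∈ univ.erase k, bhA g (bb b J i) (gp P i) ≤
      et b J k * ((∏ p ∈ P, (1 - g p)) * ∏ i, (1 + et b J i)) := by
    intro k
    have h1 : ∏ i, bhA g (bb b J i) (gp P i) = bhA g (bb b J k) (gp P k) *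
        ∏ i ∈ univ.erase k, bhA g (bb b J i) (gp P i) :=
      (mul_prod_erase univ _ (mem_univ k)).symm
    have h2 : 0 ≤ ∏ i ∈ univ.erase k, bhA g (bb b J i) (gp P i) :=
      prod_nonneg fun i _ => (hTr0 i).le
    have h3 : bhE g (bb b J k + 1) (gp P k) ≤ et b J k * bhA g (bb b J k) (gp P k) :=
      (hl k).2.2.2.2.1.trans (mul_le_mul_of_nonneg_left (hl k).2.1 (et_pos b J k).le)
    calc _ ≤ (et b J k * bhA g (bb b J k) (gp P k)) *
          ∏ i ∈ univ.erase k, bhA g (bb b J i) (gp P i) := mul_le_mul_of_nonneg_right h3 h2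
      _ = et b J k * ∏ i, bhA g (bb b J i) (gp P i) := by rw [h1]; ring
      _ ≤ _ := mul_le_mul_of_nonneg_left hupP (et_pos b J k).le
  refine ⟨hg2, hV0, ?_, ?_, ?_, ?_, ?_, ?_⟩
  · rw [hmP, ← hVeq]
    exact prod_le_prod (fun i _ => (hl i).1.le) (fun i _ => (hl i).2.1)
  · rw [hmP]
    calc _ ≤ (∏ p ∈ P, (1 - g p)) * ∏ i, (1 + et b J i) := hupP
      _ ≤ (∏ p ∈ P, (1 - g p)) * (1 + (1 / 2) ^ b) := mul_le_mul_of_nonneg_left hprod1 hV0.le
      _ = _ := mul_comm _ _
  · rw [hmD]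
    exact sum_nonneg fun k _ => mul_nonneg (hl k).2.2.2.1 (prod_nonneg fun i _ => (hTr0 i).le)
  · rw [hmD]
    calc _ ≤ ∑ k, et b J k * ((∏ p ∈ P, (1 - g p)) * ∏ i, (1 + et b J i)) :=
          sum_le_sum fun k _ => hErTr k
      _ = (∑ k, et b J k) * ((∏ p ∈ P, (1 - g p)) * ∏ i, (1 + et b J i)) := by rw [sum_mul]
      _ ≤ (1 / 3 * (1 / 2) ^ b) * ((∏ p ∈ P, (1 - g p)) * 2) := by
          apply mul_le_mul hes2 _ _ (by positivity)
          · exact mul_le_mul_of_nonneg_left hprod2 hV0.le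
          · exact mul_nonneg hV0.le (prod_nonneg fun i _ => by linarith [et_pos b J i])
      _ ≤ _ := by
          have : 0 < (1 / 2 : ℝ) ^ b * ∏ p ∈ P, (1 - g p) := mul_pos h2b0 hV0
          linarith
  · -- absolute values
    have hg0 : ∀ T ∈ P.powerset, 0 ≤ ∏ l ∈ T, g l := fun T hT =>
      prod_nonneg fun l hl => (hg l ((mem_powerset.1 hT) hl)).1
    have h1 : ∀ T ∈ P.powerset, |rhoD b J T| * ∏ l ∈ T, g l ≤
        ∑ k : Fin J, ∏ i : Fin J, (fun (i : Fin J) U => (if i = k then c2 (bb b J i) U else 1) *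
          ∏ l ∈ U, g l) i (gp T i) := by
      intro T hT
      have h2 : |rhoD b J T| ≤ ∑ k : Fin J, ∏ i, (if i = k then c2 (bb b J i) (gp T i) else 1) := by
        rw [rhoD_eq]
        refine (abs_sum_le_sum_abs _ _).trans (sum_le_sum fun k _ => ?_)
        rw [abs_prod]
        apply prod_le_prod (fun _ _ => abs_nonneg _)
        intro i _
        by_cases hik : i = k
        · simp only [if_pos hik]
          unfold c2
          split_ifs <;> simp
        · simp only [if_neg hik]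
          exact c1_abs _ _
      refine (mul_le_mul_of_nonneg_right h2 (hg0 T hT)).trans (le_of_eq ?_)
      rw [sum_mul]
      refine sum_congr rfl fun k _ => ?_
      rw [prod_mul_gp T (fun p hp => hP' p ((mem_powerset.1 hT) hp))]
    refine (sum_le_sum h1).trans ?_
    rw [sum_comm]
    have h3 : ∀ k : Fin J, ∑ T ∈ P.powerset, ∏ i : Fin J, (fun (i : Fin J) U =>
        (if i = k then c2 (bb b J i) U else 1) * ∏ l ∈ U, g l) i (gp T i) ≤
        et b J k * ∏ p ∈ P, (1 + g p) := by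
      intro k
      rw [fac P hP' (fun (i : Fin J) U => (if i = k then c2 (bb b J i) U else 1) *
          ∏ l ∈ U, g l)]
      have h4 : ∀ i : Fin J, ∑ U ∈ (gp P i).powerset, (if i = k then c2 (bb b J i) U else 1) *
          ∏ l ∈ U, g l = if i = k then bhE g (bb b J i + 1) (gp P i) else
            ∏ l ∈ gp P i, (1 + g l) := by
        intro i
        by_cases hik : i = k
        · simp only [if_pos hik]
          rw [← sum_c2]
        · simp only [if_neg hik, one_mul]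
          rw [prod_one_add]
      have h5 : ∏ i : Fin J, ∑ U ∈ (gp P i).powerset, (if i = k then c2 (bb b J i) U else 1) *
          ∏ l ∈ U, g l = ∏ i : Fin J, (if i = k then bhE g (bb b J i + 1) (gp P i) else
            ∏ l ∈ gp P i, (1 + g l)) := prod_congr rfl fun i _ => h4 i
      rw [h5, prod_ite_erase k (fun i => bhE g (bb b J i + 1) (gp P i))
        (fun i => ∏ l ∈ gp P i, (1 + g l))]
      have h6 : ∏ p ∈ P, (1 + g p) = (∏ l ∈ gp P k, (1 + g l)) *
          ∏ i ∈ univ.erase k, ∏ l ∈ gp P i, (1 + g l) := by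
        rw [← prod_gp P hP' (fun p => 1 + g p)]
        exact (mul_prod_erase univ _ (mem_univ k)).symm
      rw [h6, ← mul_assoc]
      have hge : ∀ i : Fin J, ∀ l ∈ gp P i, 1 ≤ 1 + g l := fun i l hl => by
        linarith [(hg l (gp_subT P i hl)).1]
      apply mul_le_mul_of_nonneg_right _ (prod_nonneg fun i _ => prod_nonneg fun l hl => by
        linarith [hge i l hl])
      have h7 : ∏ l ∈ gp P k, (1 - g l) ≤ ∏ l ∈ gp P k, (1 + g l) := by
        apply prod_le_prod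
        · intro l hl
          linarith [hg2 l (gp_subT P k hl)]
        · intro l hl
          linarith [(hg l (gp_subT P k hl)).1]
      exact (hl k).2.2.2.2.1.trans (mul_le_mul_of_nonneg_left h7 (et_pos b J k).le)
    refine (sum_le_sum fun k _ => h3 k).trans ?_
    rw [← sum_mul]
    apply mul_le_mul_of_nonneg_right _ (prod_nonneg fun p hp => by linarith [(hg p hp).1])
    linarith
  · intro s hs
    -- the local sums
    have hgn : ∀ i : Fin J, ∀ U ⊆ gp (P \ s) i, 0 ≤ ∏ l ∈ U, g l := fun i U hU =>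
      prod_nonneg fun l hl => (hg l (mem_sdiff.1 (gp_subT (P \ s) i (hU hl))).1).1
    have habs : ∀ (i : Fin J) (c : Finset ℕ → ℝ), (∀ U, |c U| ≤ 1) →
        |∑ U ∈ (gp (P \ s) i).powerset, c (gp s i ∪ U) * ∏ l ∈ U, g l| ≤
          D * ∏ l ∈ gp P i, (1 - g l) := by
      intro i c hc
      refine le_trans ?_ (hl i).2.2.2.2.2
      calc |∑ U ∈ (gp (P \ s) i).powerset, c (gp s i ∪ U) * ∏ l ∈ U, g l| ≤
          ∑ U ∈ (gp (P \ s) i).powerset, ∏ l ∈ U, g l := by
            refine (abs_sum_le_sum_abs _ _).trans (sum_le_sum fun U hU => ?_)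
            rw [abs_mul, abs_of_nonneg (hgn i U (mem_powerset.1 hU))]
            exact mul_le_of_le_one_left (hgn i U (mem_powerset.1 hU)) (hc _)
        _ = ∏ l ∈ gp (P \ s) i, (1 + g l) := by rw [prod_one_add]
        _ ≤ ∏ l ∈ gp P i, (1 + g l) := by
            have hsub : gp (P \ s) i ⊆ gp P i := filter_subset_filter _ sdiff_subset
            rw [← prod_sdiff hsub]
            apply le_mul_of_one_le_left (prod_nonneg fun l hl => by
              linarith [(hg l (gp_subT P i (hsub hl))).1])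
            refine one_le_prod_real _ _ fun l hl => ?_
            linarith [(hg l (gp_subT P i (mem_sdiff.1 hl).1)).1]
    have hempty : ∀ i : Fin J, gp s i = ∅ → gp (P \ s) i = gp P i := by
      intro i hi
      ext p
      unfold gp at hi ⊢
      rw [mem_filter, mem_filter, mem_sdiff]
      constructor
      · exact fun h => ⟨h.1.1, h.2⟩
      · intro h
        refine ⟨⟨h.1, fun hps => ?_⟩, h.2⟩
        have : p ∈ s.filter (fun p => p ∈ Gj ((i : ℕ) + 1)) := mem_filter.2 ⟨hps, h.2⟩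
        rw [hi] at this
        exact absurd this (notMem_empty p)
    have hA : ∀ i : Fin J, |∑ U ∈ (gp (P \ s) i).powerset, c1 (bb b J i) (gp s i ∪ U) *
        ∏ l ∈ U, g l| ≤ (if gp s i ≠ ∅ then D else 1) *
          ((∏ l ∈ gp P i, (1 - g l)) * (1 + et b J i)) := by
      intro i
      have hV := (hl i).1
      have he := et_pos b J i
      by_cases hi : gp s i = ∅
      · rw [if_neg (not_not.2 hi), one_mul, hi, hempty i hi]
        simp only [empty_union]
        rw [sum_c1, abs_of_pos (hTr0 i)]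
        exact (hl i).2.2.1
      · rw [if_pos hi]
        refine (habs i (c1 (bb b J i)) (c1_abs _)).trans ?_
        have hD0 : 0 ≤ D := by linarith
        apply mul_le_mul_of_nonneg_left _ hD0
        nlinarith
    have hB : ∀ i : Fin J, |∑ U ∈ (gp (P \ s) i).powerset, c2 (bb b J i) (gp s i ∪ U) *
        ∏ l ∈ U, g l| ≤ (if gp s i ≠ ∅ then D else 1) *
          ((∏ l ∈ gp P i, (1 - g l)) * (1 + et b J i)) * (if gp s i ≠ ∅ then 1 else et b J i) := by
      intro i
      have hV := (hl i).1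
      have he := et_pos b J i
      by_cases hi : gp s i = ∅
      · rw [if_neg (not_not.2 hi), if_neg (not_not.2 hi), one_mul, hi, hempty i hi]
        simp only [empty_union]
        rw [sum_c2, abs_of_nonneg (hl i).2.2.2.1]
        refine (hl i).2.2.2.2.1.trans ?_
        have : 0 < et b J i * ∏ l ∈ gp P i, (1 - g l) := mul_pos he hV
        nlinarith
      · rw [if_pos hi, if_pos hi, mul_one]
        refine (habs i (c2 (bb b J i)) (c2_abs _)).trans ?_
        have hD0 : 0 ≤ D := by linarith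
        apply mul_le_mul_of_nonneg_left _ hD0
        nlinarith
    have hDs : ∏ i : Fin J, (if gp s i ≠ ∅ then D else 1) ≤ D ^ s.card := by
      rw [prod_ite, prod_const, prod_const_one, mul_one]
      exact pow_le_pow_right₀ hD (card_hit s)
    have hR0 : ∀ i : Fin J, 0 ≤ (if gp s i ≠ ∅ then D else 1) *
          ((∏ l ∈ gp P i, (1 - g l)) * (1 + et b J i)) := by
      intro i
      have hV := (hl i).1
      have he := et_pos b J i
      split_ifs <;> positivity
    have hRp : ∏ i : Fin J, ((if gp s i ≠ ∅ then D else 1) *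
          ((∏ l ∈ gp P i, (1 - g l)) * (1 + et b J i))) ≤
        2 * D ^ s.card * ∏ p ∈ P, (1 - g p) := by
      rw [prod_mul_distrib, prod_mul_distrib, hVeq]
      calc _ ≤ D ^ s.card * ((∏ p ∈ P, (1 - g p)) * 2) := by
            apply mul_le_mul hDs _ _ (by positivity)
            · exact mul_le_mul_of_nonneg_left hprod2 hV0.le
            · exact mul_nonneg hV0.le (prod_nonneg fun i _ => by linarith [et_pos b J i])
        _ = _ := by ring
    constructor
    · unfold rhoP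
      rw [sumS J P hP' g s (fun i => c1 (bb b J i)), abs_prod]
      exact (prod_le_prod (fun _ _ => abs_nonneg _) (fun i _ => hA i)).trans hRp
    · simp_rw [rhoD_eq, sum_mul]
      rw [sum_comm]
      have h1 : ∀ k : Fin J, |∑ T ∈ (P \ s).powerset, (∏ i, (if i = k then
          c2 (bb b J i) (gp (s ∪ T) i) else c1 (bb b J i) (gp (s ∪ T) i))) * ∏ l ∈ T, g l| ≤
          2 * D ^ s.card * (∏ p ∈ P, (1 - g p)) * (if gp s k ≠ ∅ then 1 else et b J k) := by
        intro k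
        rw [sumS J P hP' g s (fun i U => if i = k then c2 (bb b J i) U else c1 (bb b J i) U),
          abs_prod]
        have h2 : ∀ i : Fin J, |∑ U ∈ (gp (P \ s) i).powerset, (if i = k then
            c2 (bb b J i) (gp s i ∪ U) else c1 (bb b J i) (gp s i ∪ U)) * ∏ l ∈ U, g l| ≤
            ((if gp s i ≠ ∅ then D else 1) * ((∏ l ∈ gp P i, (1 - g l)) * (1 + et b J i))) *
            (if i = k then (if gp s i ≠ ∅ then 1 else et b J i) else 1) := by
          intro i
          by_cases hik : i = k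
          · simp only [if_pos hik]
            exact hB i
          · simp only [if_neg hik, mul_one]
            exact hA i
        refine (prod_le_prod (fun _ _ => abs_nonneg _) (fun i _ => h2 i)).trans ?_
        rw [prod_mul_distrib]
        have h3 : ∏ i : Fin J, (if i = k then (if gp s i ≠ ∅ then 1 else et b J i) else 1) =
            (if gp s k ≠ ∅ then 1 else et b J k) := by
          rw [prod_ite_eq' univ k]
          simp
        rw [h3]
        apply mul_le_mul_of_nonneg_right hRp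
        split_ifs
        · exact zero_le_one
        · exact (et_pos b J k).le
      refine (abs_sum_le_sum_abs _ _).trans ((sum_le_sum fun k _ => h1 k).trans ?_)
      rw [← mul_sum]
      have h4 : ∑ k : Fin J, (if gp s k ≠ ∅ then 1 else et b J k) ≤ 2 ^ s.card := by
        have h5 : ∀ k : Fin J, (if gp s k ≠ ∅ then (1 : ℝ) else et b J k) ≤
            (if gp s k ≠ ∅ then 1 else 0) + et b J k := by
          intro k
          have := et_pos b J k
          split_ifs <;> linarith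
        refine (sum_le_sum fun k _ => h5 k).trans ?_
        rw [sum_add_distrib, sum_boole]
        have h6 : ((univ.filter (fun i : Fin J => gp s i ≠ ∅)).card : ℝ) ≤ s.card := by
          exact_mod_cast card_hit s
        have h7 : (s.card : ℝ) + 1 ≤ 2 ^ s.card := by
          exact_mod_cast Nat.lt_two_pow_self (n := s.card)
        linarith
      have hDD : (0 : ℝ) < 2 * D ^ s.card * ∏ p ∈ P, (1 - g p) := by
        have : 0 < D := by linarith
        positivity
      calc _ ≤ 2 * D ^ s.card * (∏ p ∈ P, (1 - g p)) * 2 ^ s.card :=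
            mul_le_mul_of_nonneg_left h4 hDD.le
        _ = _ := by rw [mul_pow]; ring

end Run7.h296
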