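import Pool.Agent.Run7.h296.VV
import Pool.Agent.Run7.h296.Wts2

/-!
Pointwise inequalities between the weights.
-/

set_option autoImplicit false

open Finset

namespace Run7.h296

open Pool.Agent.R498.MT Pool.Agent.H262R3.Lk Pool.Agent.W505.MH
open Pool.Agent.H318R2.Cr (Rgh)

theorem sum_filter_powerset (P : Finset ℕ) (ρ : Finset ℕ → ℝ) (h : ℕ → Prop) [DecidablePred h] :
    ∑ T ∈ P.powerset, ρ T * ∏ p ∈ T, (if h p then (1 : ℝ) else 0) =
      ∑ T ∈ (P.filter h).powerset, ρ T := by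
  symm
  have h1 : ∑ T ∈ (P.filter h).powerset, ρ T =
      ∑ T ∈ (P.filter h).powerset, ρ T * ∏ p ∈ T, (if h p then (1 : ℝ) else 0) := by
    refine sum_congr rfl fun T hT => ?_
    rw [mem_powerset] at hT
    rw [prod_eq_one fun p hp => if_pos (mem_filter.1 (hT hp)).2, mul_one]
  rw [h1]
  apply sum_subset (powerset_mono.2 (filter_subset _ _))
  intro T hT hT'
  rw [mem_powerset] at hT hT'
  obtain ⟨p, hp, hp'⟩ := not_subset.1 hT'
  have : ¬ h p := fun h2 => hp' (mem_filter.2 ⟨hT hp, h2⟩)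
  rw [prod_eq_zero hp (if_neg this), mul_zero]

section
variable {J : Type} [Fintype J] [DecidableEq J] {A B : J → ℕ}

open Classical in
theorem wt_filter (P : Finset ℕ) (ρ : Finset ℕ → ℝ) (l : ℕ) :
    wt A B P ρ l = ∑ T ∈ (P.filter (fun p => ∃ j, p ∣ B j + A j * l)).powerset, ρ T := by
  unfold wt bdf
  exact sum_filter_powerset P ρ _

/-- the weight of the large sieving primes -/
noncomputable def wq (A B : J → ℕ) (i : J) (Q : Finset ℕ) (ρ : Finset ℕ → ℝ) (l : ℕ) : ℝ :=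
  ∑ T ∈ Q.powerset, ρ T * ∏ p ∈ T, hitf A B i p l

open Classical in
theorem wq_filter (i : J) (Q : Finset ℕ) (ρ : Finset ℕ → ℝ) (l : ℕ) :
    wq A B i Q ρ l = ∑ T ∈ (Q.filter (fun p => p ∣ B i + A i * l)).powerset, ρ T := by
  unfold wq hitf
  exact sum_filter_powerset Q ρ _

/-- the lower weights -/
noncomputable def rhoM (b Jn : ℕ) (T : Finset ℕ) : ℝ := rhoP b Jn T - rhoD b Jn T

theorem wt_M (P : Finset ℕ) (b Jn l : ℕ) :
    wt A B P (rhoM b Jn) l = wt A B P (rhoP b Jn) l - wt A B P (rhoD b Jn) l := by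
  unfold wt rhoM
  rw [← sum_sub_distrib]
  refine sum_congr rfl fun T _ => ?_
  ring

theorem rgh_iff {Jn e W m : ℕ} (hm : ∀ p : ℕ, p.Prime → p ∣ W → ¬ p ∣ m) :
    Rgh (2 ^ 2 ^ (Jn + e + 6)) m ↔ (∀ p ∈ PS Jn W, ¬ p ∣ m) ∧ (∀ p ∈ QS Jn e, ¬ p ∣ m) := by
  have hle : 2 ^ 2 ^ Jn ≤ 2 ^ 2 ^ (Jn + e + 6) :=
    Nat.pow_le_pow_right (by norm_num) (Nat.pow_le_pow_right (by norm_num) (by omega))
  unfold Pool.Agent.H318R2.Cr.Rgh
  constructor
  · intro h
    refine ⟨fun p hp => ?_, fun p hp => ?_⟩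
    · rw [mem_PS] at hp
      exact h p hp.1 (hp.2.1.le.trans hle)
    · rw [mem_QS] at hp
      exact h p hp.1 hp.2.2.le
  · rintro ⟨h1, h2⟩ p hp hpz hpm
    by_cases h3 : p ∣ W
    · exact hm p hp h3 hpm
    by_cases h4 : p < 2 ^ 2 ^ Jn
    · exact h1 p (mem_PS.2 ⟨hp, h4, h3⟩) hpm
    · refine h2 p (mem_QS.2 ⟨hp, by omega, lt_of_le_of_ne hpz fun h => ?_⟩) hpm
      rw [h] at hp
      exact pow_not_prime (by omega) hp

open Classical in
/-- the basic inequalities of the weights -/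
theorem wt_bonf (Jn W b l : ℕ) :
    0 ≤ wt A B (PS Jn W) (rhoD b Jn) l ∧ 0 ≤ wt A B (PS Jn W) (rhoP b Jn) l ∧
    (0 < wt A B (PS Jn W) (rhoM b Jn) l → ∀ j, ∀ p ∈ PS Jn W, ¬ p ∣ B j + A j * l) := by
  have h1 := rho_bonf b Jn ((PS Jn W).filter (fun p => ∃ j, p ∣ B j + A j * l)) (fun p hp => by
    have := mem_PS.1 (mem_filter.1 hp).1
    exact ⟨this.1, this.2.1⟩)
  rw [wt_M, wt_filter, wt_filter]
  refine ⟨h1.2.1, ?_, ?_⟩
  · refine le_trans ?_ h1.1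
    split_ifs <;> norm_num
  · intro h2 j p hp hpl
    have h3 : (PS Jn W).filter (fun p => ∃ j, p ∣ B j + A j * l) ≠ ∅ := by
      rw [← nonempty_iff_ne_empty]
      exact ⟨p, mem_filter.2 ⟨hp, j, hpl⟩⟩
    have h4 := h1.2.2
    rw [if_neg h3] at h4
    linarith

open Classical in
theorem pt_one (i : J) (Jn e W b b' l : ℕ) (hm : ∀ p : ℕ, p.Prime → p ∣ W → ¬ p ∣ B i + A i * l) :
    wq A B i (QS Jn e) (rhoP b' (Jn + e + 6)) l * wt A B (PS Jn W) (rhoM b Jn) l -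
      wq A B i (QS Jn e) (rhoD b' (Jn + e + 6)) l * wt A B (PS Jn W) (rhoP b Jn) l ≤
      (if Rgh (2 ^ 2 ^ (Jn + e + 6)) (B i + A i * l) then 1 else 0) *
        wt A B (PS Jn W) (rhoM b Jn) l ∧
    -wt A B (PS Jn W) (rhoD b Jn) l ≤
      (if Rgh (2 ^ 2 ^ (Jn + e + 6)) (B i + A i * l) then 1 else 0) *
        wt A B (PS Jn W) (rhoM b Jn) l := by
  obtain ⟨hD, hP, hM⟩ := wt_bonf (A := A) (B := B) Jn W b l
  have hMe := wt_M (A := A) (B := B) (PS Jn W) b Jn l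
  have h2 := rho_bonf b' (Jn + e + 6) ((QS Jn e).filter (fun p => p ∣ B i + A i * l)) (fun p hp => by
    have := mem_QS.1 (mem_filter.1 hp).1
    exact ⟨this.1, this.2.2⟩)
  rw [← wq_filter, ← wq_filter] at h2
  obtain ⟨q1, q2, q3⟩ := h2
  have hrg := rgh_iff (Jn := Jn) (e := e) hm
  have hQ : (QS Jn e).filter (fun p => p ∣ B i + A i * l) = ∅ ↔
      ∀ p ∈ QS Jn e, ¬ p ∣ B i + A i * l := by
    rw [filter_eq_empty_iff]
  generalize wt A B (PS Jn W) (rhoM b Jn) l = wm at *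
  generalize wt A B (PS Jn W) (rhoP b Jn) l = wp at *
  generalize wt A B (PS Jn W) (rhoD b Jn) l = wd at *
  generalize wq A B i (QS Jn e) (rhoP b' (Jn + e + 6)) l = qp at *
  generalize wq A B i (QS Jn e) (rhoD b' (Jn + e + 6)) l = qd at *
  by_cases hw : 0 < wm
  · have h3 := hM hw i
    have h4 : Rgh (2 ^ 2 ^ (Jn + e + 6)) (B i + A i * l) ↔
        (QS Jn e).filter (fun p => p ∣ B i + A i * l) = ∅ := by
      rw [hrg, hQ]
      exact ⟨fun h => h.2, fun h => ⟨h3, h⟩⟩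
    by_cases h5 : (QS Jn e).filter (fun p => p ∣ B i + A i * l) = ∅
    · rw [if_pos (h4.2 h5)]
      rw [if_pos h5] at q1 q3
      constructor
      · nlinarith
      · nlinarith
    · rw [if_neg (fun h => h5 (h4.1 h))]
      rw [if_neg h5] at q1 q3
      constructor
      · nlinarith
      · nlinarith
  · push Not at hw
    have h4 : (if Rgh (2 ^ 2 ^ (Jn + e + 6)) (B i + A i * l) then (1 : ℝ) else 0) ≤
        (if (QS Jn e).filter (fun p => p ∣ B i + A i * l) = ∅ then (1 : ℝ) else 0) := by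
      by_cases h5 : Rgh (2 ^ 2 ^ (Jn + e + 6)) (B i + A i * l)
      · rw [if_pos h5, if_pos (hQ.2 (hrg.1 h5).2)]
      · rw [if_neg h5]
        split_ifs <;> norm_num
    have h5 : (if Rgh (2 ^ 2 ^ (Jn + e + 6)) (B i + A i * l) then (1 : ℝ) else 0) ≤ 1 := by
      split_ifs <;> norm_num
    generalize (if Rgh (2 ^ 2 ^ (Jn + e + 6)) (B i + A i * l) then (1 : ℝ) else 0) = r at *
    generalize (if (QS Jn e).filter (fun p => p ∣ B i + A i * l) = ∅ then (1 : ℝ) else 0) = o at *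
    constructor
    · nlinarith
    · nlinarith

/-- the inequality with the weights of the form -/
theorem pt_sum (i : J) (Jn e W b b' l₀ l₁ l : ℕ) {σ : ℝ} (h01 : l₀ ≤ l₁) (h0 : 1 ≤ l₀)
    (hA : 1 ≤ A i) (hZ : B i + A i * l₀ ≤ 2 ^ 2 ^ (Jn + e + 6))
    (hm : ∀ p : ℕ, p.Prime → p ∣ W → ¬ p ∣ B i + A i * l) :
    cu (fA σ (A i) (B i)) l₁ l *
      (wq A B i (QS Jn e) (rhoP b' (Jn + e + 6)) l * wt A B (PS Jn W) (rhoM b Jn) l -
      wq A B i (QS Jn e) (rhoD b' (Jn + e + 6)) l * wt A B (PS Jn W) (rhoP b Jn) l) -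
      cu (fA σ (A i) (B i)) l₀ l * wt A B (PS Jn W) (rhoD b Jn) l ≤
    aj (2 ^ 2 ^ (Jn + e + 6)) 1 1 3 σ (B i + A i * l) * wt A B (PS Jn W) (rhoM b Jn) l := by
  classical
  obtain ⟨hp1, hp2⟩ := pt_one i Jn e W b b' l hm
  obtain ⟨hD, hP, hM⟩ := wt_bonf (A := A) (B := B) Jn W b l
  have hφ : 0 ≤ fA σ (A i) (B i) l := fn_nonneg 3 σ _
  by_cases hl : l₀ < l
  · have hm1 : 1 < B i + A i * l := by nlinarith
    have haj : aj (2 ^ 2 ^ (Jn + e + 6)) 1 1 3 σ (B i + A i * l) =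
        (if Rgh (2 ^ 2 ^ (Jn + e + 6)) (B i + A i * l) then 1 else 0) * fA σ (A i) (B i) l := by
      unfold aj fA fn
      by_cases h : Rgh (2 ^ 2 ^ (Jn + e + 6)) (B i + A i * l)
      · rw [if_pos ⟨h, Nat.modEq_one, hm1⟩, if_pos h, one_mul]
      · rw [if_neg (fun h2 => h h2.1), if_neg h, zero_mul]
    rw [haj]
    have e0 : cu (fA σ (A i) (B i)) l₀ l = fA σ (A i) (B i) l := if_pos hl
    rw [e0]
    by_cases hl1 : l₁ < l
    · have e1 : cu (fA σ (A i) (B i)) l₁ l = fA σ (A i) (B i) l := if_pos hl1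
      rw [e1]
      generalize (if Rgh (2 ^ 2 ^ (Jn + e + 6)) (B i + A i * l) then (1 : ℝ) else 0) = r at *
      have h3 := mul_le_mul_of_nonneg_left hp1 hφ
      have h4 := mul_nonneg hφ hD
      nlinarith
    · have e1 : cu (fA σ (A i) (B i)) l₁ l = 0 := if_neg hl1
      rw [e1]
      generalize (if Rgh (2 ^ 2 ^ (Jn + e + 6)) (B i + A i * l) then (1 : ℝ) else 0) = r at *
      have h3 := mul_le_mul_of_nonneg_left hp2 hφ
      nlinarith
  · have e0 : cu (fA σ (A i) (B i)) l₀ l = 0 := if_neg hl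
    have e1 : cu (fA σ (A i) (B i)) l₁ l = 0 := if_neg (by omega)
    rw [e0, e1]
    have haj : aj (2 ^ 2 ^ (Jn + e + 6)) 1 1 3 σ (B i + A i * l) = 0 := by
      unfold aj
      rw [if_neg]
      rintro ⟨h1, h2, h3⟩
      have h4 : B i + A i * l ≤ 2 ^ 2 ^ (Jn + e + 6) := by
        have := Nat.mul_le_mul_left (A i) (not_lt.1 hl)
        omega
      exact not_rgh h3 h4 h1
    rw [haj]
    simp

end

end Run7.h296
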