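import Pool.Agent.Run7.h296.Ev

/-!
The main theorem for systems.
-/

set_option autoImplicit false

open Finset

namespace Run7.h296

open Pool.Agent.R498.MT Pool.Agent.H262R3.Lk Pool.Agent.W505.MH
open Pool.Agent.H318R2.Cr (Rgh V V_pos V_le_one cz_bounds)

theorem choose_s {Ca c₂ c4 D0 : ℝ} (hCa : 0 ≤ Ca) (hc₂ : 0 ≤ c₂) (hc4 : 0 < c4) (CR : ℕ) :
    ∃ s : ℕ, D0 ≤ (2 : ℝ) ^ s ∧ CR * (1 + 1) ≤ 5 * s ∧ 1 ≤ s ∧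
      ∀ b : ℕ, 5 * s ≤ b → Ca + ((1 / 2 : ℝ) ^ b + 2 * (1 / 2) ^ (5 * s)) *
        (96 * c₂ * ((2 : ℝ) ^ s) ^ 16) + c₂ * (4 * ((5 * s : ℕ) : ℝ) + 9) ^ 4 ≤
        c4 / 4 * ((2 : ℝ) ^ s) ^ 12 := by
  obtain ⟨n, hn⟩ := exists_nat_ge (max D0 ((Ca + 288 * c₂ + 29 ^ 4 * c₂) * (4 / c4)))
  refine ⟨max n (max (CR * (1 + 1)) 1), ?_, ?_, ?_, ?_⟩
  · refine (le_max_left _ _).trans (hn.trans ?_)
    have h1 : max n (max (CR * (1 + 1)) 1) < 2 ^ max n (max (CR * (1 + 1)) 1) :=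
      Nat.lt_two_pow_self
    have h2 : n ≤ 2 ^ max n (max (CR * (1 + 1)) 1) := (le_max_left _ _).trans h1.le
    exact_mod_cast h2
  · have : CR * (1 + 1) ≤ max n (max (CR * (1 + 1)) 1) :=
      (le_max_left _ _).trans (le_max_right _ _)
    omega
  · exact (le_max_right _ _).trans (le_max_right _ _)
  · set s := max n (max (CR * (1 + 1)) 1) with hs
    intro b hb
    obtain ⟨x, hx⟩ : ∃ x : ℝ, x = (2 : ℝ) ^ s := ⟨_, rfl⟩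
    have hx1 : 1 ≤ x := by rw [hx]; exact one_le_pow₀ (by norm_num)
    have hx0 : 0 < x := by linarith
    have hsx : (s : ℝ) ≤ x := by
      rw [hx]
      have : s ≤ 2 ^ s := Nat.lt_two_pow_self.le
      exact_mod_cast this
    have hnx : (Ca + 288 * c₂ + 29 ^ 4 * c₂) * (4 / c4) ≤ x := by
      refine (le_max_right _ _).trans (hn.trans ?_)
      have : n ≤ s := le_max_left _ _
      refine le_trans ?_ hsx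
      exact_mod_cast this
    have h1 : (1 / 2 : ℝ) ^ (5 * s) = 1 / x ^ 5 := by
      rw [hx, ← pow_mul, one_div_pow]
      ring_nf
    have h2 : (1 / 2 : ℝ) ^ b ≤ 1 / x ^ 5 := by
      rw [← h1]
      exact pow_le_pow_of_le_one (by norm_num) (by norm_num) hb
    rw [← hx, h1]
    have h3 : ((1 / 2 : ℝ) ^ b + 2 * (1 / x ^ 5)) * (96 * c₂ * x ^ 16) ≤ 288 * c₂ * x ^ 11 := by
      calc ((1 / 2 : ℝ) ^ b + 2 * (1 / x ^ 5)) * (96 * c₂ * x ^ 16) ≤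
          (1 / x ^ 5 + 2 * (1 / x ^ 5)) * (96 * c₂ * x ^ 16) := by gcongr
        _ = 288 * c₂ * x ^ 11 := by
          field_simp
          ring
    have h4 : (4 * ((5 * s : ℕ) : ℝ) + 9) ^ 4 ≤ 29 ^ 4 * x ^ 11 := by
      have h5 : 4 * ((5 * s : ℕ) : ℝ) + 9 ≤ 29 * x := by
        push_cast
        linarith
      calc (4 * ((5 * s : ℕ) : ℝ) + 9) ^ 4 ≤ (29 * x) ^ 4 :=
            pow_le_pow_left₀ (by positivity) h5 4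
        _ = 29 ^ 4 * x ^ 4 := by ring
        _ ≤ 29 ^ 4 * x ^ 11 := by
            apply mul_le_mul_of_nonneg_left _ (by norm_num)
            exact pow_le_pow_right₀ hx1 (by norm_num)
    have h6 : Ca ≤ Ca * x ^ 11 := le_mul_of_one_le_right hCa (one_le_pow₀ hx1)
    have h7 : c₂ * (4 * ((5 * s : ℕ) : ℝ) + 9) ^ 4 ≤ c₂ * (29 ^ 4 * x ^ 11) :=
      mul_le_mul_of_nonneg_left h4 hc₂
    have h8 : (Ca + 288 * c₂ + 29 ^ 4 * c₂) ≤ c4 / 4 * x := by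
      have h9 : (Ca + 288 * c₂ + 29 ^ 4 * c₂) * (4 / c4) * (c4 / 4) ≤ x * (c4 / 4) :=
        mul_le_mul_of_nonneg_right hnx (by positivity)
      have h10 : (Ca + 288 * c₂ + 29 ^ 4 * c₂) * (4 / c4) * (c4 / 4) =
          Ca + 288 * c₂ + 29 ^ 4 * c₂ := by field_simp
      linarith
    have h9 := mul_le_mul_of_nonneg_right h8 (show 0 ≤ x ^ 11 by positivity)
    calc Ca + ((1 / 2 : ℝ) ^ b + 2 * (1 / x ^ 5)) * (96 * c₂ * x ^ 16) +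
        c₂ * (4 * ((5 * s : ℕ) : ℝ) + 9) ^ 4 ≤ Ca * x ^ 11 + 288 * c₂ * x ^ 11 +
        c₂ * (29 ^ 4 * x ^ 11) := by linarith
      _ = (Ca + 288 * c₂ + 29 ^ 4 * c₂) * x ^ 11 := by ring
      _ ≤ c4 / 4 * x * x ^ 11 := h9
      _ = c4 / 4 * x ^ 12 := by ring

theorem choose_eb (k : ℕ) (M₀ ε₀ : ℝ) (hε₀ : 0 < ε₀) (b₀ : ℕ) : ∃ e b : ℕ, 1 ≤ e ∧
    (1 / 2 : ℝ) ^ e ≤ ε₀ ∧ b₀ ≤ b ∧ 8 * b + 16 ≤ 2 ^ e ∧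
      M₀ * (Pool.Agent.R498.MT.Ab k ((1 / 2) ^ e) * (1 / 2) ^ b) ≤ 1 := by
  obtain ⟨t, ht⟩ := exists_nat_ge (M₀ * Real.exp (8 * ((2 ^ k : ℕ) : ℝ) ^ 2))
  set c := 8 * (2 ^ k) ^ 2 with hc
  set t₀ := max t b₀ with ht₀
  obtain ⟨n₀, hn₀⟩ := exists_pow_lt_of_lt_one hε₀ (show (1 / 2 : ℝ) < 1 by norm_num)
  set n := max n₀ (max (16 * c + 8 * t₀ + 16) 1) with hn
  refine ⟨2 * n, c * (2 * n) + t₀, ?_, ?_, ?_, ?_, ?_⟩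
  · have : 1 ≤ n := (le_max_right _ _).trans (le_max_right _ _)
    omega
  · refine le_trans (pow_le_pow_of_le_one (by norm_num) (by norm_num) ?_) hn₀.le
    have : n₀ ≤ n := le_max_left _ _
    omega
  · have : b₀ ≤ t₀ := le_max_right _ _
    omega
  · have h1 : 16 * c + 8 * t₀ + 16 ≤ n := (le_max_left _ _).trans (le_max_right _ _)
    have h2 : n + 1 ≤ 2 ^ n := Nat.lt_two_pow_self
    have h3 : 2 ^ (2 * n) = 2 ^ n * 2 ^ n := by rw [two_mul, pow_add]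
    rw [h3]
    calc 8 * (c * (2 * n) + t₀) + 16 ≤ (16 * c + 8 * t₀ + 16) * (n + 1) := by nlinarith
      _ ≤ 2 ^ n * 2 ^ n := Nat.mul_le_mul (by omega) h2
  · have h1 : Pool.Agent.R498.MT.Ab k ((1 / 2) ^ (2 * n)) * (1 / 2) ^ (c * (2 * n) + t₀) =
        Real.exp (8 * ((2 ^ k : ℕ) : ℝ) ^ 2) * (1 / 2) ^ t₀ := by
      unfold Pool.Agent.R498.MT.Ab
      rw [← hc]
      have e1 : (1 / (1 / 2 : ℝ) ^ (2 * n)) ^ c = 2 ^ (2 * n * c) := by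
        have : 1 / (1 / 2 : ℝ) ^ (2 * n) = 2 ^ (2 * n) := by
          rw [one_div, ← inv_pow]
          norm_num
        rw [this, ← pow_mul]
      rw [e1, pow_add, show c * (2 * n) = 2 * n * c by ring]
      have e2 : (2 : ℝ) ^ (2 * n * c) * (1 / 2) ^ (2 * n * c) = 1 := by
        rw [← mul_pow]
        norm_num
      calc Real.exp (8 * ((2 ^ k : ℕ) : ℝ) ^ 2) * 2 ^ (2 * n * c) *
          ((1 / 2) ^ (2 * n * c) * (1 / 2) ^ t₀) = Real.exp (8 * ((2 ^ k : ℕ) : ℝ) ^ 2) *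
          (2 ^ (2 * n * c) * (1 / 2) ^ (2 * n * c)) * (1 / 2) ^ t₀ := by ring
        _ = _ := by rw [e2, mul_one]
    rw [h1, ← mul_assoc]
    have h2 : (t : ℝ) ≤ 2 ^ t₀ := by
      have h3 : t ≤ 2 ^ t₀ := (le_max_left _ _).trans (Nat.lt_two_pow_self (n := t₀)).le
      exact_mod_cast h3
    have h3 : (1 / 2 : ℝ) ^ t₀ = 1 / 2 ^ t₀ := by rw [one_div_pow]
    rw [h3, mul_one_div, div_le_one (by positivity)]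
    exact ht.trans h2

theorem choose_K (c d : ℝ) (hd : 0 < d) : ∃ K : ℕ, 1 ≤ K ∧ c * Real.exp (-(K / d)) ≤ 1 := by
  obtain ⟨K, hK⟩ := exists_nat_ge (max 1 (d * c))
  refine ⟨K, ?_, ?_⟩
  · have := (le_max_left _ _).trans hK
    exact_mod_cast this
  · have h1 : d * c ≤ K := (le_max_right _ _).trans hK
    have h2 : c ≤ K / d := by
      rw [le_div_iff₀ hd]
      linarith
    have h3 := Real.add_one_le_exp ((K : ℝ) / d)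
    have h4 : Real.exp (-(K / d)) * Real.exp (K / d) = 1 := by
      rw [← Real.exp_add]
      simp
    have h5 := Real.exp_pos (-((K : ℝ) / d))
    nlinarith

theorem lm_rpow {Jn e K : ℕ} {d : ℝ} (hd : 0 < d) :
    ((((2 ^ 2 ^ (Jn + e + 6)) ^ K : ℕ)) : ℝ) ^
      (-((1 / (d ^ 4 * Real.log ((2 ^ 2 ^ (Jn + e + 6) : ℕ) : ℝ))) / 2)) =
      Real.exp (-(K / (2 * d ^ 4))) := by
  have hZ0 : (0 : ℝ) < ((2 ^ 2 ^ (Jn + e + 6) : ℕ) : ℝ) := by positivity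
  have hl : 0 < Real.log ((2 ^ 2 ^ (Jn + e + 6) : ℕ) : ℝ) := Real.log_pos (Y_one _)
  rw [Nat.cast_pow (2 ^ 2 ^ (Jn + e + 6)) K, Real.rpow_def_of_pos (by positivity), Real.log_pow]
  congr 1
  field_simp

/-- **the main theorem for systems with fixed parameters** -/
theorem engine_fix {c₁ c₂ Ca CN c4 : ℝ} {CR s k b e D₁ K : ℕ} {DR D' Γ C₁ : ℝ} {Gd : ℕ → ℕ → ℕ → Prop}
    (hcz : CZ c₁ c₂) (haj : AJ Ca) (hgp : GP CN) (hc4 : 0 < c4) (hCR1 : 1 ≤ CR) (hDR : 1 ≤ DR)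
    (hmass : ∀ (b J z0 : ℕ) (P : Finset ℕ) (g : ℕ → ℝ),
    CR * (2 ^ k + 1) ≤ b → CR * (2 ^ k + 1) ≤ z0 → (∀ p ∈ P, p.Prime ∧ z0 < p ∧ p < 2 ^ 2 ^ J) →
    (∀ p ∈ P, 0 ≤ g p ∧ g p ≤ ((2 ^ k : ℕ) : ℝ) / ((p : ℝ) - 1)) →
    (∀ p ∈ P, g p ≤ 1 / 2) ∧ 0 < ∏ p ∈ P, (1 - g p) ∧
    ∏ p ∈ P, (1 - g p) ≤ ∑ T ∈ P.powerset, rhoP b J T * ∏ l ∈ T, g l ∧
    ∑ T ∈ P.powerset, rhoP b J T * ∏ l ∈ T, g l ≤ (1 + (1 / 2) ^ b) * ∏ p ∈ P, (1 - g p) ∧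
    0 ≤ ∑ T ∈ P.powerset, rhoD b J T * ∏ l ∈ T, g l ∧
    ∑ T ∈ P.powerset, rhoD b J T * ∏ l ∈ T, g l ≤ (1 / 2) ^ b * ∏ p ∈ P, (1 - g p) ∧
    ∑ T ∈ P.powerset, |rhoD b J T| * ∏ l ∈ T, g l ≤ (1 / 2) ^ b * ∏ p ∈ P, (1 + g p) ∧
    ∀ s ⊆ P, |∑ T ∈ (P \ s).powerset, rhoP b J (s ∪ T) * ∏ l ∈ T, g l| ≤
        2 * DR ^ s.card * ∏ p ∈ P, (1 - g p) ∧
      |∑ T ∈ (P \ s).powerset, rhoD b J (s ∪ T) * ∏ l ∈ T, g l| ≤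
        2 * (2 * DR) ^ s.card * ∏ p ∈ P, (1 - g p))
    (hmass1 : ∀ (b J z0 : ℕ) (P : Finset ℕ) (g : ℕ → ℝ),
    CR * (1 + 1) ≤ b → CR * (1 + 1) ≤ z0 → (∀ p ∈ P, p.Prime ∧ z0 < p ∧ p < 2 ^ 2 ^ J) →
    (∀ p ∈ P, 0 ≤ g p ∧ g p ≤ ((1 : ℕ) : ℝ) / ((p : ℝ) - 1)) →
    (∀ p ∈ P, g p ≤ 1 / 2) ∧ 0 < ∏ p ∈ P, (1 - g p) ∧
    ∏ p ∈ P, (1 - g p) ≤ ∑ T ∈ P.powerset, rhoP b J T * ∏ l ∈ T, g l ∧
    ∑ T ∈ P.powerset, rhoP b J T * ∏ l ∈ T, g l ≤ (1 + (1 / 2) ^ b) * ∏ p ∈ P, (1 - g p) ∧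
    0 ≤ ∑ T ∈ P.powerset, rhoD b J T * ∏ l ∈ T, g l ∧
    ∑ T ∈ P.powerset, rhoD b J T * ∏ l ∈ T, g l ≤ (1 / 2) ^ b * ∏ p ∈ P, (1 - g p) ∧
    ∑ T ∈ P.powerset, |rhoD b J T| * ∏ l ∈ T, g l ≤ (1 / 2) ^ b * ∏ p ∈ P, (1 + g p) ∧
    ∀ s ⊆ P, |∑ T ∈ (P \ s).powerset, rhoP b J (s ∪ T) * ∏ l ∈ T, g l| ≤
        2 * D' ^ s.card * ∏ p ∈ P, (1 - g p) ∧
      |∑ T ∈ (P \ s).powerset, rhoD b J (s ∪ T) * ∏ l ∈ T, g l| ≤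
        2 * (2 * D') ^ s.card * ∏ p ∈ P, (1 - g p))
    (m₀ : ℕ)
    (hbase : ∀ z q b : ℕ, 32 ≤ z → 0 < q → q ^ 16 ≤ z → Gd z q b → b.Coprime q →
      c4 / 2 * ((2 : ℝ) ^ s) ^ 12 * (Real.log z) ^ 3 / q.totient ≤
        Bj z q b 2 (1 / (((2 : ℝ) ^ s) ^ 4 * Real.log z)))
    (hs2 : CR * (1 + 1) ≤ 5 * s) (hs1 : 1 ≤ s) (hb5 : 5 * s ≤ b)
    (hP1 : Ca + ((1 / 2 : ℝ) ^ b + 2 * (1 / 2) ^ (5 * s)) *
        (96 * c₂ * ((2 : ℝ) ^ s) ^ 16) + c₂ * (4 * ((5 * s : ℕ) : ℝ) + 9) ^ 4 ≤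
        c4 / 4 * ((2 : ℝ) ^ s) ^ 12)
    (hk : 3 * ((m₀ : ℝ) + 1) * 1474560 ≤ c4 / (393216 * c₂ * ((2 : ℝ) ^ s) ^ 4) * (1 / 2) * k)
    (hC3 : 7 / c₁ * (96 * c₂ * ((2 : ℝ) ^ s) ^ 16 + Ca) ≤ C₁)
    (hC5 : 64 * (64 * (c₂ / c₁) + 1) ≤ C₁) (hC0 : 0 ≤ C₁)
    (hbR : CR * (2 ^ k + 1) ≤ b) (hee : (1 / 2 : ℝ) ^ e ≤ e0 k C₁ (1 / 2))
    (hbe : 8 * b + 16 ≤ 2 ^ e)
    (hP2 : 7 / c₁ * (96 * c₂ * ((2 : ℝ) ^ s) ^ 16 + Ca) *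
      Pool.Agent.R498.MT.Ab k ((1 / 2) ^ e) * (2 * (1 / 2) ^ b) +
      (1 / 2) ^ b * Pool.Agent.R498.MT.Ab k ((1 / 2) ^ e) ≤ 1 / 4 * (1 / 2 ^ k))
    (hΓa : 2 * DR * (2 * 2 ^ k) ≤ Γ) (hΓb : 48 * (2 ^ k : ℝ) ^ 2 ≤ Γ) (hΓD : Γ ≤ D₁)
    (hP4 : 7 / c₁ * (8 * Pool.Agent.R498.MT.Ab k ((1 / 2) ^ e) * (Γ / D₁) *
      (CN * (((2 : ℝ) ^ s) ^ 4) ^ 8)) ≤ 1 / 8 * (1 / 2 ^ k))
    (hD1 : CR * (2 ^ k + 1) ≤ D₁) (hD2 : 2 * 2 ^ k ≤ D₁) (hD3 : 3 ≤ D₁) (hK1 : 1 ≤ K)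
    (hK : (2 ^ (k + 1) * (768 * ((2 : ℝ) ^ s) ^ 16) * 800) *
      Real.exp (-(K / (2 * ((2 : ℝ) ^ s) ^ 4))) ≤ 1) :
    ∃ J₀ : ℕ, ∀ Jn : ℕ, J₀ ≤ Jn → ∀ (W : ℕ) (A B : Fin (2 ^ k) → ℕ), Sys k Jn e W D₁ A B →
      ∀ G : Finset (Fin (2 ^ k)), (∀ i ∈ G, Gd (2 ^ 2 ^ (Jn + e + 6)) (A i) (B i)) →
      ∀ m : ℕ, (m + 1) * 2 ^ k ≤ (m₀ + 1) * G.card →
      ∃ l ≤ (2 ^ 2 ^ (Jn + e + 6)) ^ K,
        m < (G.filter (fun i : Fin (2 ^ k) => (B i + A i * l).Prime)).card ∧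
        ∀ j, ∀ p ∈ PS Jn W, ¬ p ∣ B j + A j * l := by
  classical
  obtain ⟨d, hd⟩ : ∃ d : ℝ, d = (2 : ℝ) ^ s := ⟨_, rfl⟩
  have hd1 : 1 ≤ d := by rw [hd]; exact one_le_pow₀ (by norm_num)
  have hd0 : 0 < d := by linarith
  have hε : (0 : ℝ) < (1 / 2) ^ e := by positivity
  have hε1 : (1 / 2 : ℝ) ^ e ≤ 1 := pow_le_one₀ (by norm_num) (by norm_num)
  obtain ⟨o1, -, -, -, -⟩ := om_bd k C₁ ((1 / 2) ^ e) hC0 hε hε1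
  obtain ⟨E, hE⟩ : ∃ E : ℝ, E = ((1 / 2 : ℝ) ^ e) ^ (16 * (2 ^ k) ^ 2 + 1) := ⟨_, rfl⟩
  have hE0 : 0 < E := by rw [hE]; positivity
  obtain ⟨Cp, hCp⟩ : ∃ Cp : ℝ, Cp = 1600 * 2 ^ k * ((K + 1 : ℕ) : ℝ) ^ 4 *
    (Pool.Agent.R498.MT.Ab k ((1 / 2) ^ e) * 2 ^ (2 ^ k * (2 ^ (e + 6) * (K + 1)))) ^ 2 := ⟨_, rfl⟩
  have ev1 := ev_dat k e C₁ hC0
  have ev2 := ev_VT hcz (2 * 2 ^ k)
  have ev3 := ev_T ((2 : ℝ) ^ (e + 6) * (4 * ((5 * s : ℕ) : ℝ) + 6) * 2 / om k C₁ ((1 / 2) ^ e))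
  have ev4 := ev_T (8 / E)
  have ev5 := ev_T ((D₁ : ℝ) + 1)
  have ev6 := ev_T Cp
  obtain ⟨J₀, hJ₀⟩ := Filter.eventually_atTop.1 (((((ev1.and ev2).and ev3).and ev4).and ev5).and ev6)
  refine ⟨max J₀ 1, fun Jn hJn W A B hsys G hq m hGr => ?_⟩
  obtain ⟨⟨⟨⟨⟨v1, v2⟩, v3⟩, v4⟩, v5⟩, v6⟩ := hJ₀ Jn ((le_max_left _ _).trans hJn)
  have hJ1 : 1 ≤ Jn := (le_max_right _ _).trans hJn
  have hT0 : (0 : ℝ) < ((2 ^ 2 ^ Jn : ℕ) : ℝ) := by positivity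
  have hmu : (2 : ℝ) ^ (e + 6) * (4 * ((5 * s : ℕ) : ℝ) + 6) * (2 / ((2 ^ 2 ^ Jn : ℕ) : ℝ)) ≤
      om k C₁ ((1 / 2) ^ e) := by
    rw [div_le_iff₀ o1] at v3
    rw [mul_div_assoc', div_le_iff₀ hT0]
    linarith
  have hE8 : 8 ≤ E * ((2 ^ 2 ^ Jn : ℕ) : ℝ) := by
    rw [div_le_iff₀ hE0] at v4
    linarith
  have hDT : D₁ < 2 ^ 2 ^ Jn := by
    have h1 : ((D₁ + 1 : ℕ) : ℝ) ≤ ((2 ^ 2 ^ Jn : ℕ) : ℝ) := by push_cast; push_cast at v5; exact v5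
    have h2 : D₁ + 1 ≤ 2 ^ 2 ^ Jn := by exact_mod_cast h1
    omega
  have c := ctx_of (b := b) (b' := 5 * s) (E := E) hCR1 hDR hmass hmass1 hsys hJ1 hC0 hee hE0
    hE.le v1 v2 hmu hD2 hD3 hbe hE8 hbR hs2 hD1 hDT
  have hF := hF_of (Jn := Jn) (e := e) (b := b) hbe
  have hZ32 := Z32 Jn e
  have hℓ4 := logZ_4 Jn e
  have hθ1 : (1 / 2 : ℝ) ^ b + 2 * (1 / 2) ^ (5 * s) ≤ 1 := by
    have h1 : (1 / 2 : ℝ) ^ (5 * s) ≤ (1 / 2) ^ 5 :=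
      pow_le_pow_of_le_one (by norm_num) (by norm_num) (by omega)
    have h2 : (1 / 2 : ℝ) ^ b ≤ (1 / 2) ^ 5 :=
      pow_le_pow_of_le_one (by norm_num) (by norm_num) (by omega)
    norm_num at h1 h2 ⊢
    linarith
  have hS2 : ∀ i ∈ G, 2 * (((m₀ + 1 : ℕ)) : ℝ) / 2 ^ k *
      (X0 A B Jn e b W (1 / (((2 : ℝ) ^ s) ^ 4 *
        Real.log ((2 ^ 2 ^ (Jn + e + 6) : ℕ) : ℝ))) * II k Jn e) ≤
      A i * S2s A B Jn e b W (1 / (((2 : ℝ) ^ s) ^ 4 *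
        Real.log ((2 ^ 2 ^ (Jn + e + 6) : ℕ) : ℝ))) i := by
    intro i hi
    rw [Nat.cast_add m₀ 1, Nat.cast_one]
    exact S2_low hcz haj hgp hc4 (hd ▸ hd1) m₀ c i hΓa hΓb hΓD hF
      (hbase _ _ _ hZ32 (c.A1 i) (c.A16 i) (hq i hi) (hsys.cop i)) hθ1 hP1 hP2 hC3 hP4 hC5 hk
  rw [← hd] at hS2 hK
  obtain ⟨σ, hσd⟩ : ∃ σ : ℝ, σ = 1 / (d ^ 4 * Real.log ((2 ^ 2 ^ (Jn + e + 6) : ℕ) : ℝ)) :=
    ⟨_, rfl⟩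
  rw [← hσd] at hS2
  have hd4 : 1 ≤ d ^ 4 := one_le_pow₀ hd1
  have hℓ0 : 0 < Real.log ((2 ^ 2 ^ (Jn + e + 6) : ℕ) : ℝ) := by linarith
  have hσ : 0 < σ := by rw [hσd]; positivity
  have hσ1 : σ ≤ 1 := by
    rw [hσd, div_le_one (by positivity)]
    nlinarith
  have hl0 := l0_ge (e := e) hJ1
  have hl0Z : l0 Jn e ≤ 2 ^ 2 ^ (Jn + e + 6) := by
    unfold l0
    rw [Z_eq]
    exact Nat.pow_le_pow_right (by positivity) (by norm_num)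
  have hlm : l0 Jn e ≤ (2 ^ 2 ^ (Jn + e + 6)) ^ K :=
    hl0Z.trans (Nat.le_self_pow (by omega) _)
  have hHlow := hh_lower (A := d ^ 4) hd4 hZ32 (show 1 ≤ l0 Jn e by omega) hl0Z (logZ_l0 Jn e) hℓ4
  rw [← hσd] at hHlow
  have hVP := c.VP
  have hV0 := c.rmP.pos
  have hVp := c.rmP.p1
  have hH0 : 0 < ∑' l, cu (hh σ) (l0 Jn e) l := by
    refine lt_of_lt_of_le ?_ hHlow
    positivity
  have hX0l : (Real.log ((2 ^ 2 ^ (Jn + e + 6) : ℕ) : ℝ)) ^ 4 / 400 *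
      (1 / ((2 ^ 2 ^ Jn : ℕ) : ℝ)) ≤ X0 A B Jn e b W σ := by
    unfold X0
    exact mul_le_mul hHlow (hVP.trans hVp) (by positivity) hH0.le
  have hX0 : 0 < X0 A B Jn e b W σ := by
    refine lt_of_lt_of_le ?_ hX0l
    positivity
  refine c.core hσ hσ1 G (m₀ + 1) m ((2 ^ 2 ^ (Jn + e + 6)) ^ K) (K + 1) hlm hGr hS2 ?_ hX0 ?_ ?_
  · intro j
    have h1 := c.BA j
    have h2 := (c.AT j).trans (TY Jn e)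
    have h3 : 2 ^ 2 ^ (Jn + e) * 2 ≤ 2 ^ 2 ^ (Jn + e + 6) := by
      rw [Z_eq]
      have h4 : 2 ≤ 2 ^ 2 ^ (Jn + e) := two_le_pp _
      generalize 2 ^ 2 ^ (Jn + e) = y at *
      calc y * 2 ≤ y * y := Nat.mul_le_mul_left _ h4
        _ = y ^ 2 := by ring
        _ ≤ y ^ 64 := Nat.pow_le_pow_right (by omega) (by norm_num)
    have h5 : 1 ≤ (2 ^ 2 ^ (Jn + e + 6)) ^ K := Nat.one_le_pow _ _ (by positivity)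
    rw [pow_succ (2 ^ 2 ^ (Jn + e + 6)) K]
    generalize (2 ^ 2 ^ (Jn + e + 6)) ^ K = w at *
    generalize 2 ^ 2 ^ (Jn + e + 6) = z at *
    generalize 2 ^ 2 ^ (Jn + e) = y at *
    calc B j + A j * w ≤ y * w + y * w := by
          apply add_le_add
          · nlinarith
          · exact Nat.mul_le_mul_right _ h2
      _ = w * (y * 2) := by ring
      _ ≤ w * z := Nat.mul_le_mul_left _ h3
  · have h1 := hh_tail hσ (show 1 ≤ (2 ^ 2 ^ (Jn + e + 6)) ^ K by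
      exact Nat.one_le_pow _ _ (by positivity))
    have h2 := lm_rpow (Jn := Jn) (e := e) (K := K) hd0
    rw [← hσd] at h2
    rw [h2] at h1
    have h3 : 768 / σ ^ 4 = 768 * d ^ 16 * (Real.log ((2 ^ 2 ^ (Jn + e + 6) : ℕ) : ℝ)) ^ 4 := by
      rw [hσd]
      field_simp
    rw [h3] at h1
    generalize Real.log ((2 ^ 2 ^ (Jn + e + 6) : ℕ) : ℝ) = ℓ at *
    have h4 : 0 ≤ ℓ ^ 4 := by positivity
    calc 2 ^ (k + 1) * (∑' l, cu (hh σ) ((2 ^ 2 ^ (Jn + e + 6)) ^ K) l) ≤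
        2 ^ (k + 1) * (768 * d ^ 16 * ℓ ^ 4 * Real.exp (-(K / (2 * d ^ 4)))) :=
          mul_le_mul_of_nonneg_left h1 (by positivity)
      _ = ((2 ^ (k + 1) * (768 * d ^ 16) * 800) * Real.exp (-(K / (2 * d ^ 4)))) *
          (ℓ ^ 4 / 800) := by ring
      _ ≤ 1 * (ℓ ^ 4 / 800) := mul_le_mul_of_nonneg_right hK (by positivity)
      _ = 1 / 2 * (ℓ ^ 4 / 400) := by ring
      _ ≤ _ := by linarith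
  · refine le_trans ?_ (mul_le_mul_of_nonneg_left hX0l (by norm_num : (0 : ℝ) ≤ 1 / 2))
    have hTY : ((2 ^ 2 ^ Jn : ℕ) : ℝ) ^ (8 * b + 16) ≤ ((2 ^ 2 ^ (Jn + e) : ℕ) : ℝ) := by
      have h1 : (2 ^ 2 ^ Jn) ^ (8 * b + 16) ≤ 2 ^ 2 ^ (Jn + e) := by
        rw [← T_pow]
        exact Nat.pow_le_pow_right (by positivity) hbe
      exact_mod_cast h1
    have hZ : ((2 ^ 2 ^ (Jn + e + 6) : ℕ) : ℝ) = ((2 ^ 2 ^ (Jn + e) : ℕ) : ℝ) ^ 64 := by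
      rw [Z_eq]
      push_cast
      rfl
    have hT1 : (1 : ℝ) ≤ ((2 ^ 2 ^ Jn : ℕ) : ℝ) := by exact_mod_cast Nat.one_le_two_pow
    have hY1 : (1 : ℝ) ≤ ((2 ^ 2 ^ (Jn + e) : ℕ) : ℝ) := by exact_mod_cast Nat.one_le_two_pow
    have hZ0 : (0 : ℝ) < ((2 ^ 2 ^ (Jn + e + 6) : ℕ) : ℝ) := by positivity
    rw [hCp] at v6
    rw [Nat.cast_pow (2 ^ 2 ^ Jn) (4 * b + 6)]
    have hAA : 0 ≤ (Pool.Agent.R498.MT.Ab k ((1 / 2) ^ e) *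
        2 ^ (2 ^ k * (2 ^ (e + 6) * (K + 1)))) ^ 2 := sq_nonneg _
    have hbound : 1600 * (2 : ℝ) ^ k * ((K + 1 : ℕ) : ℝ) ^ 4 *
        (Pool.Agent.R498.MT.Ab k ((1 / 2) ^ e) * 2 ^ (2 ^ k * (2 ^ (e + 6) * (K + 1)))) ^ 2 *
        ((2 ^ 2 ^ Jn : ℕ) : ℝ) ^ (8 * b + 14) ≤ ((2 ^ 2 ^ (Jn + e + 6) : ℕ) : ℝ) := by
      rw [hZ]
      calc _ ≤ ((2 ^ 2 ^ Jn : ℕ) : ℝ) * ((2 ^ 2 ^ Jn : ℕ) : ℝ) ^ (8 * b + 14) :=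
            mul_le_mul_of_nonneg_right v6 (by positivity)
        _ = ((2 ^ 2 ^ Jn : ℕ) : ℝ) ^ (8 * b + 15) := by ring
        _ ≤ ((2 ^ 2 ^ Jn : ℕ) : ℝ) ^ (8 * b + 16) := pow_le_pow_right₀ hT1 (by omega)
        _ ≤ ((2 ^ 2 ^ (Jn + e) : ℕ) : ℝ) := hTY
        _ ≤ ((2 ^ 2 ^ (Jn + e) : ℕ) : ℝ) ^ 64 := le_self_pow₀ hY1 (by norm_num)
    have hℓ1 : 1 ≤ Real.log ((2 ^ 2 ^ (Jn + e + 6) : ℕ) : ℝ) := by linarith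
    generalize (Pool.Agent.R498.MT.Ab k ((1 / 2) ^ e) *
        2 ^ (2 ^ k * (2 ^ (e + 6) * (K + 1)))) ^ 2 = G₁ at *
    generalize Real.log ((2 ^ 2 ^ (Jn + e + 6) : ℕ) : ℝ) = ℓ at *
    generalize ((2 ^ 2 ^ (Jn + e + 6) : ℕ) : ℝ) = Z at *
    generalize ((2 ^ 2 ^ Jn : ℕ) : ℝ) = T at *
    generalize ((K + 1 : ℕ) : ℝ) = u at *
    have h1 : 2 ^ k * T * (2 * u ^ 4 * ℓ ^ 3 / Z) * ((T ^ (4 * b + 6)) ^ 2 * G₁) =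
        (1600 * 2 ^ k * u ^ 4 * G₁ * T ^ (8 * b + 14)) * (ℓ ^ 3 / (800 * Z * T)) := by
      field_simp
      ring
    rw [h1]
    calc (1600 * 2 ^ k * u ^ 4 * G₁ * T ^ (8 * b + 14)) * (ℓ ^ 3 / (800 * Z * T)) ≤
        Z * (ℓ ^ 3 / (800 * Z * T)) := mul_le_mul_of_nonneg_right hbound (by positivity)
      _ = 1 / 2 * (ℓ ^ 3 / 400 * (1 / T)) := by
          field_simp
          norm_num
      _ ≤ 1 / 2 * (ℓ ^ 4 / 400 * (1 / T)) := by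
          have h2 : ℓ ^ 3 ≤ ℓ ^ 4 := pow_le_pow_right₀ hℓ1 (by norm_num)
          gcongr

end Run7.h296
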