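import Pool.Agent.Run7.h296.Pa

/-!
The comparison, with the number of the good values.
-/

set_option autoImplicit false

open Finset

namespace Run7.h296

open Pool.Agent.R498.MT Pool.Agent.H262R3.Lk Pool.Agent.W505.MH
open Pool.Agent.H318R2.Cr (Rgh V V_pos V_le_one cz_bounds)

section
variable {k Jn e b b' W D₁ : ℕ} {C₁ E D : ℝ} {A B : Fin (2 ^ k) → ℕ}

/-- the good values -/
def Good (A B : Fin (2 ^ k) → ℕ) (Jn W : ℕ) (G : Finset (Fin (2 ^ k))) (m l : ℕ) : Prop :=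
  m < (G.filter (fun i : Fin (2 ^ k) => (B i + A i * l).Prime)).card ∧
    ∀ j, ∀ p ∈ PS Jn W, ¬ p ∣ B j + A j * l

open Classical in
/-- the contribution of the good values -/
noncomputable def PPg (A B : Fin (2 ^ k) → ℕ) (Jn e W : ℕ) (G : Finset (Fin (2 ^ k))) (m : ℕ)
    (σ : ℝ) (lm l : ℕ) : ℝ :=
  if l ∈ Ioc (l0 Jn e) lm ∧ Good A B Jn W G m l then 2 ^ k * hh σ l else 0

theorem PPg_nonneg (A B : Fin (2 ^ k) → ℕ) (Jn e W : ℕ) (G : Finset (Fin (2 ^ k))) (m : ℕ) (σ : ℝ)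
    (lm l : ℕ) : 0 ≤ PPg A B Jn e W G m σ lm l := by
  unfold PPg
  split_ifs
  · exact mul_nonneg (by positivity) (hh_nonneg σ l)
  · exact le_rfl

theorem Ctx.pt_allQ (c : Ctx k Jn e b b' W D₁ C₁ E D A B) {σ : ℝ} (hσ : 0 < σ)
    (G : Finset (Fin (2 ^ k))) (m lm l : ℕ) (hr : ∀ j, ∀ p ∈ PS Jn W, ¬ p ∣ B j + A j * l) :
    ∑ i ∈ G, (A i : ℝ) * bj (2 ^ 2 ^ (Jn + e + 6)) 1 1 2 σ (B i + A i * l) ≤
      m * cu (hh σ) (l0 Jn e) l + 2 ^ k * cu (hh σ) lm l +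
        (PPf A B Jn e σ lm l + PPg A B Jn e W G m σ lm l) := by
  have hg0 := PPg_nonneg A B Jn e W G m σ lm l
  by_cases hG : (G.filter (fun i : Fin (2 ^ k) => (B i + A i * l).Prime)).card ≤ m
  · have h1 := c.pt_all hσ G m lm l (fun _ => hG)
    linarith
  by_cases hl : l ∈ Ioc (l0 Jn e) lm
  · have h1 := c.pt_all hσ G (2 ^ k) lm l (fun _ => by
      refine (card_le_card (filter_subset _ _)).trans ?_
      refine (card_le_univ _).trans ?_
      rw [Fintype.card_fin])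
    have h2 : PPg A B Jn e W G m σ lm l = 2 ^ k * hh σ l := by
      unfold PPg
      rw [if_pos ⟨hl, not_le.1 hG, hr⟩]
    have h3 : cu (hh σ) (l0 Jn e) l = hh σ l := by
      unfold cu
      rw [if_pos (mem_Ioc.1 hl).1]
    have h4 : 0 ≤ (m : ℝ) * cu (hh σ) (l0 Jn e) l :=
      mul_nonneg (Nat.cast_nonneg _) (cu_nonneg (hh_nonneg σ) _ _)
    rw [h2]
    rw [h3] at h1 h4 ⊢
    push_cast at h1
    linarith
  · by_cases h2 : l0 Jn e < l
    · have h3 : ¬ l ≤ lm := fun h => hl (mem_Ioc.2 ⟨h2, h⟩)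
      have h1 := c.pt_all hσ G m lm l (fun h => absurd h h3)
      linarith
    · have h5 : cu (hh σ) (l0 Jn e) l = 0 := if_neg h2
      have h1 := c.pt_all hσ G (2 ^ k) lm l (fun _ => by
        refine (card_le_card (filter_subset _ _)).trans ?_
        refine (card_le_univ _).trans ?_
        rw [Fintype.card_fin])
      rw [h5] at h1 ⊢
      linarith

open Classical in
theorem wt_rough {l : ℕ} (hr : ∀ j, ∀ p ∈ PS Jn W, ¬ p ∣ B j + A j * l) :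
    wt A B (PS Jn W) (rhoP b Jn) l ≤ 1 := by
  unfold wt
  rw [Finset.sum_eq_single ∅]
  · rw [prod_empty, mul_one]
    exact (le_abs_self _).trans (rhoP_abs b Jn ∅)
  · intro T hT hne
    obtain ⟨p, hp⟩ := Finset.nonempty_iff_ne_empty.2 hne
    rw [prod_eq_zero hp, mul_zero]
    unfold bdf
    rw [if_neg]
    rintro ⟨j, hj⟩
    exact hr j p (mem_powerset.1 hT hp) hj
  · intro h
    exact absurd (empty_mem_powerset _) h

/-- the weights at the rough values -/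
theorem Ctx.LL_bd (c : Ctx k Jn e b b' W D₁ C₁ E D A B) (l u : ℕ)
    (hm : ∀ j, B j + A j * l ≤ (2 ^ 2 ^ (Jn + e + 6)) ^ u) (hl : 1 ≤ l) :
    LL A B Jn e none l ^ 2 ≤
        (Pool.Agent.R498.MT.Ab k ((1 / 2) ^ e) * 2 ^ (2 ^ k * (2 ^ (e + 6) * u))) ^ 2 :=
  Lam_fin k C₁ (1 / 2) (by norm_num) ((1 / 2) ^ e) (by positivity) 1 c.hε1 _ _ _ _
    c.dat (fun t : SS Jn e => colr A B t l) _ (c.colr_card l u hm hl)

open Classical in
/-- **the comparison, quantitative** -/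
theorem Ctx.coreQ (c : Ctx k Jn e b b' W D₁ C₁ E D A B) {σ : ℝ} (hσ : 0 < σ) (hσ1 : σ ≤ 1)
    (G : Finset (Fin (2 ^ k))) (r m lm u : ℕ) (hlm : l0 Jn e ≤ lm)
    (hGr : m * 2 ^ k + 1 ≤ r * G.card)
    (hS2 : ∀ i ∈ G, 2 * (r : ℝ) / 2 ^ k * (X0 A B Jn e b W σ * II k Jn e) ≤
      A i * S2s A B Jn e b W σ i)
    (hu : ∀ j, B j + A j * lm ≤ (2 ^ 2 ^ (Jn + e + 6)) ^ u)
    (hX0 : 0 < X0 A B Jn e b W σ)
    (hT1 : 2 ^ k * (2 ^ (k + 1) * (∑' l, cu (hh σ) lm l)) ≤ 1 / 2 * ∑' l, cu (hh σ) (l0 Jn e) l)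
    (hT2 : (2 : ℝ) ^ k * (((2 : ℝ) ^ k * ((2 ^ 2 ^ Jn : ℕ) : ℝ) * (2 * (u : ℝ) ^ 4 *
      (Real.log ((2 ^ 2 ^ (Jn + e + 6) : ℕ) : ℝ)) ^ 3 / ((2 ^ 2 ^ (Jn + e + 6) : ℕ) : ℝ))) *
    ((((2 ^ 2 ^ Jn) ^ (4 * b + 6) : ℕ) : ℝ) ^ 2 *
        (Pool.Agent.R498.MT.Ab k ((1 / 2) ^ e) * 2 ^ (2 ^ k * (2 ^ (e + 6) * u))) ^ 2)) ≤
      1 / 2 * X0 A B Jn e b W σ) :
    X0 A B Jn e b W σ ≤ 2 ^ k * (2 ^ k * (Pool.Agent.R498.MT.Ab k ((1 / 2) ^ e) *
      2 ^ (2 ^ k * (2 ^ (e + 6) * u))) ^ 2) *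
        ∑ l ∈ (Ioc (l0 Jn e) lm).filter (fun l => Good A B Jn W G m l), hh σ l := by
  have hI1 : 1 ≤ II k Jn e := one_le_pow₀ (I2_one c.dat (by positivity) (by norm_num) k)
  have hG0 : ∀ l, 0 ≤ wt A B (PS Jn W) (rhoP b Jn) l * LL A B Jn e none l ^ 2 := fun l =>
    mul_nonneg (wt_bonf (A := A) (B := B) Jn W b l).2.1 (sq_nonneg _)
  -- the upper bound
  have hs1 := summ_w (A := A) (B := B) (cu_summable (hh_summable hσ) (l0 Jn e)) (PS Jn W)
    (rhoP b Jn) Jn e none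
  have hs2 := summ_w (A := A) (B := B) (cu_summable (hh_summable hσ) lm) (PS Jn W)
    (rhoP b Jn) Jn e none
  have hsPP : Summable (fun l => PPf A B Jn e σ lm l + PPg A B Jn e W G m σ lm l) := by
    apply summable_of_finite_support
    apply (Ioc (l0 Jn e) lm).finite_toSet.subset
    intro n hn
    by_contra h3
    apply hn
    have h3' : n ∉ Ioc (l0 Jn e) lm := fun h => h3 (mem_coe.2 h)
    simp only
    unfold PPf PPg
    rw [if_neg h3', if_neg (fun h => h3' h.1), add_zero]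
  have hs3 := summ_w (A := A) (B := B) hsPP (PS Jn W) (rhoP b Jn) Jn e none
  have hsi : ∀ i : Fin (2 ^ k), Summable (fun l =>
      ((A i : ℝ) * bj (2 ^ 2 ^ (Jn + e + 6)) 1 1 2 σ (B i + A i * l)) *
      (wt A B (PS Jn W) (rhoM b Jn) l * LL A B Jn e none l ^ 2)) := fun i =>
    summ_w ((bj_summable hσ _ (c.A1 i)).mul_left _) (PS Jn W) (rhoM b Jn) Jn e none
  have htot : ∑ i ∈ G, (A i : ℝ) * S2s A B Jn e b W σ i ≤
      m * S1s A B Jn e b W σ (l0 Jn e) + 2 ^ k * S1s A B Jn e b W σ lm +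
        ∑ l ∈ Ioc (l0 Jn e) lm, (PPf A B Jn e σ lm l + PPg A B Jn e W G m σ lm l) *
      (wt A B (PS Jn W) (rhoP b Jn) l * LL A B Jn e none l ^ 2) := by
    have e1 : ∑ i ∈ G, (A i : ℝ) * S2s A B Jn e b W σ i =
        ∑' l, ∑ i ∈ G, ((A i : ℝ) * bj (2 ^ 2 ^ (Jn + e + 6)) 1 1 2 σ (B i + A i * l)) *
      (wt A B (PS Jn W) (rhoM b Jn) l * LL A B Jn e none l ^ 2) := by
      rw [Summable.tsum_finsetSum fun i _ => hsi i]
      exact sum_congr rfl fun i _ => c.S2_same i σ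
    rw [e1]
    have e2 : ∑ l ∈ Ioc (l0 Jn e) lm, (PPf A B Jn e σ lm l + PPg A B Jn e W G m σ lm l) *
        (wt A B (PS Jn W) (rhoP b Jn) l * LL A B Jn e none l ^ 2) =
        ∑' l, (PPf A B Jn e σ lm l + PPg A B Jn e W G m σ lm l) *
        (wt A B (PS Jn W) (rhoP b Jn) l * LL A B Jn e none l ^ 2) := by
      symm
      apply tsum_eq_sum
      intro l hl
      unfold PPf PPg
      rw [if_neg hl, if_neg (fun h => hl h.1), add_zero, zero_mul]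
    rw [e2]
    unfold S1s
    rw [← tsum_mul_left, ← tsum_mul_left, ← (hs1.mul_left (m : ℝ)).tsum_add (hs2.mul_left _),
      ← ((hs1.mul_left (m : ℝ)).add (hs2.mul_left _)).tsum_add hs3]
    apply Summable.tsum_le_tsum _ (summable_sum fun i _ => hsi i)
      (((hs1.mul_left (m : ℝ)).add (hs2.mul_left _)).add hs3)
    intro l
    rw [← sum_mul]
    have hb0 : 0 ≤ ∑ i ∈ G, (A i : ℝ) * bj (2 ^ 2 ^ (Jn + e + 6)) 1 1 2 σ (B i + A i * l) :=
      sum_nonneg fun i _ => mul_nonneg (Nat.cast_nonneg _) (bj_nonneg _ _ _ _ _)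
    have hR0 : 0 ≤ (m * cu (hh σ) (l0 Jn e) l + 2 ^ k * cu (hh σ) lm l +
        (PPf A B Jn e σ lm l + PPg A B Jn e W G m σ lm l)) := by
      have r1 := cu_nonneg (hh_nonneg σ) (l0 Jn e) l
      have r2 := cu_nonneg (hh_nonneg σ) lm l
      have r3 := PPf_nonneg A B Jn e σ lm l
      have r4 := PPg_nonneg A B Jn e W G m σ lm l
      positivity
    have hsq : 0 ≤ LL A B Jn e none l ^ 2 := sq_nonneg _
    by_cases hw : 0 < wt A B (PS Jn W) (rhoM b Jn) l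
    · have hrough := (wt_bonf (A := A) (B := B) Jn W b l).2.2 hw
      have hptl := c.pt_allQ hσ G m lm l hrough
      have hMP : wt A B (PS Jn W) (rhoM b Jn) l ≤ wt A B (PS Jn W) (rhoP b Jn) l := by
        rw [wt_M]
        linarith [(wt_bonf (A := A) (B := B) Jn W b l).1]
      have h1 := mul_le_mul hptl (mul_le_mul_of_nonneg_right hMP hsq)
        (mul_nonneg hw.le hsq) hR0
      refine h1.trans (le_of_eq ?_)
      ring
    · have h1 : (∑ i ∈ G, (A i : ℝ) * bj (2 ^ 2 ^ (Jn + e + 6)) 1 1 2 σ (B i + A i * l)) *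
          (wt A B (PS Jn W) (rhoM b Jn) l * LL A B Jn e none l ^ 2) ≤ 0 := by
        apply mul_nonpos_of_nonneg_of_nonpos hb0
        exact mul_nonpos_of_nonpos_of_nonneg (not_lt.1 hw) hsq
      have h2 := mul_nonneg hR0 (hG0 l)
      refine h1.trans (h2.trans (le_of_eq ?_))
      ring
  have h2k : (0 : ℝ) < 2 ^ k := by positivity
  -- the good values
  obtain ⟨M, hM⟩ : ∃ M : ℝ, M = (Pool.Agent.R498.MT.Ab k ((1 / 2) ^ e) *
      2 ^ (2 ^ k * (2 ^ (e + 6) * u))) ^ 2 := ⟨_, rfl⟩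
  have hM0 : 0 ≤ M := by rw [hM]; exact sq_nonneg _
  have hl01 : 1 ≤ l0 Jn e := by
    have := l0_ge (e := e) c.J1
    omega
  have hgood : ∑ l ∈ Ioc (l0 Jn e) lm, PPg A B Jn e W G m σ lm l *
      (wt A B (PS Jn W) (rhoP b Jn) l * LL A B Jn e none l ^ 2) ≤
      2 ^ k * M * ∑ l ∈ (Ioc (l0 Jn e) lm).filter (fun l => Good A B Jn W G m l), hh σ l := by
    rw [sum_filter, mul_sum]
    apply sum_le_sum
    intro l hl
    unfold PPg
    by_cases hg : Good A B Jn W G m l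
    · rw [if_pos ⟨hl, hg⟩, if_pos hg]
      have h1 : wt A B (PS Jn W) (rhoP b Jn) l ≤ 1 := wt_rough hg.2
      have h2 : LL A B Jn e none l ^ 2 ≤ M := by
        rw [hM]
        apply c.LL_bd l u _ (by
          rw [mem_Ioc] at hl
          omega)
        intro j
        refine le_trans ?_ (hu j)
        have := Nat.mul_le_mul_left (A j) (mem_Ioc.1 hl).2
        omega
      have h3 : wt A B (PS Jn W) (rhoP b Jn) l * LL A B Jn e none l ^ 2 ≤ 1 * M :=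
        mul_le_mul h1 h2 (sq_nonneg _) zero_le_one
      have h4 : 0 ≤ 2 ^ k * hh σ l := mul_nonneg h2k.le (hh_nonneg σ l)
      calc 2 ^ k * hh σ l * (wt A B (PS Jn W) (rhoP b Jn) l * LL A B Jn e none l ^ 2) ≤
          2 ^ k * hh σ l * (1 * M) := mul_le_mul_of_nonneg_left h3 h4
        _ = _ := by ring
    · rw [if_neg (fun h => hg h.2), if_neg hg, zero_mul, mul_zero]
  have hsplit : ∑ l ∈ Ioc (l0 Jn e) lm, (PPf A B Jn e σ lm l + PPg A B Jn e W G m σ lm l) *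
      (wt A B (PS Jn W) (rhoP b Jn) l * LL A B Jn e none l ^ 2) =
      ∑ l ∈ Ioc (l0 Jn e) lm, PPf A B Jn e σ lm l *
      (wt A B (PS Jn W) (rhoP b Jn) l * LL A B Jn e none l ^ 2) +
      ∑ l ∈ Ioc (l0 Jn e) lm, PPg A B Jn e W G m σ lm l *
      (wt A B (PS Jn W) (rhoP b Jn) l * LL A B Jn e none l ^ 2) := by
    rw [← sum_add_distrib]
    exact sum_congr rfl fun l _ => by ring
  rw [hsplit] at htot
  rw [← hM]
  obtain ⟨Sg, hSg⟩ : ∃ Sg : ℝ, Sg = ∑ l ∈ (Ioc (l0 Jn e) lm).filter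
    (fun l => Good A B Jn W G m l), hh σ l := ⟨_, rfl⟩
  rw [← hSg] at hgood ⊢
  have hPP := (mul_le_mul_of_nonneg_left (c.PP_bd hσ lm u hu) h2k.le).trans hT2
  have hU0 := c.S1_up hσ hσ1 (l0 Jn e) le_rfl
  have hUm := c.S1_up hσ hσ1 lm hlm
  have hlow := sum_le_sum (s := G) fun i hi => hS2 i hi
  rw [sum_const, nsmul_eq_mul] at hlow
  have hVP : 0 ≤ ∑ T' ∈ (PS Jn W).powerset, rhoP b Jn T' * ∏ p ∈ T', gg A B p :=
    c.rmP.pos.le.trans c.rmP.p1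
  have hXI0 : 0 ≤ X0 A B Jn e b W σ * II k Jn e := by
    have : 0 ≤ II k Jn e := by linarith
    positivity
  have e5 : 2 * ((m : ℝ) * 2 ^ k + 1) * (X0 A B Jn e b W σ * II k Jn e) ≤
      2 ^ k * ((G.card : ℝ) * (2 * (r : ℝ) / 2 ^ k * (X0 A B Jn e b W σ * II k Jn e))) := by
    have h1 : (m : ℝ) * 2 ^ k + 1 ≤ r * G.card := by exact_mod_cast hGr
    have h2 := mul_le_mul_of_nonneg_right h1 hXI0
    calc 2 * ((m : ℝ) * 2 ^ k + 1) * (X0 A B Jn e b W σ * II k Jn e) ≤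
        2 * ((r * G.card : ℝ) * (X0 A B Jn e b W σ * II k Jn e)) := by linarith
      _ = _ := by field_simp
  have hT1' := mul_le_mul_of_nonneg_right hT1 hVP
  have eX : X0 A B Jn e b W σ = (∑' l, cu (hh σ) (l0 Jn e) l) *
    ∑ T' ∈ (PS Jn W).powerset, rhoP b Jn T' * ∏ p ∈ T', gg A B p := rfl
  rw [← eX] at hU0
  have e6 : 1 / 2 * (∑' l, cu (hh σ) (l0 Jn e) l) *
      ∑ T' ∈ (PS Jn W).powerset, rhoP b Jn T' * ∏ p ∈ T', gg A B p =
      1 / 2 * X0 A B Jn e b W σ := by rw [eX]; ring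
  rw [e6] at hT1'
  have hUm' : 2 ^ k * (2 ^ k * S1s A B Jn e b W σ lm) ≤ 1 / 2 * (X0 A B Jn e b W σ * II k Jn e) := by
    have h1 := mul_le_mul_of_nonneg_left (mul_le_mul_of_nonneg_left hUm h2k.le) h2k.le
    refine h1.trans ?_
    have h2 := mul_le_mul_of_nonneg_right hT1' (show 0 ≤ II k Jn e by linarith)
    refine le_trans (le_of_eq ?_) (h2.trans (le_of_eq ?_))
    · rw [pow_succ]
      ring
    · ring
  have hm0 : (0 : ℝ) ≤ 2 ^ k * m := by positivity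
  have hU0' := mul_le_mul_of_nonneg_left hU0 hm0
  have hXI : X0 A B Jn e b W σ ≤ X0 A B Jn e b W σ * II k Jn e :=
    le_mul_of_one_le_right hX0.le hI1
  have hfin := e5.trans (mul_le_mul_of_nonneg_left (hlow.trans htot) h2k.le)
  have hg' := mul_le_mul_of_nonneg_left hgood h2k.le
  have e7 : (2 ^ k * (m : ℝ)) * (2 * X0 A B Jn e b W σ * II k Jn e) =
      2 * (m * 2 ^ k) * (X0 A B Jn e b W σ * II k Jn e) := by ring
  rw [e7] at hU0'
  have e8 : 2 ^ k * (2 ^ k * M) * Sg = 2 ^ k * (2 ^ k * M * Sg) := by ring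
  rw [e8]
  have e9 : 2 * ((m : ℝ) * 2 ^ k + 1) * (X0 A B Jn e b W σ * II k Jn e) =
      2 * (m * 2 ^ k) * (X0 A B Jn e b W σ * II k Jn e) + 2 * (X0 A B Jn e b W σ * II k Jn e) := by
    ring
  rw [e9, mul_add, mul_add, mul_add] at hfin
  have e10 : 2 ^ k * (m * S1s A B Jn e b W σ (l0 Jn e)) =
    2 ^ k * (m : ℝ) * S1s A B Jn e b W σ (l0 Jn e) := by ring
  rw [e10] at hfin
  linarith

end

end Run7.h296
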