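import Pool.Agent.Run7.h296.S9

/-!
Arithmetic progressions at which many of the linear forms are primes and the others are almost primes: the
theorem.
-/

set_option autoImplicit false

open Finset

namespace Run7.h296

open Run7.h296.SL (FF Adm dvd_FF sysP_FF lin_ap)

theorem logp_mono {P i j : ℕ} (hP : 2 ≤ P) (hij : i ≤ j) :
    Real.log P ^ i ≤ 2 ^ j * Real.log P ^ j := by
  have h1 : (1 : ℝ) / 2 ≤ Real.log P := by
    have h2 : Real.log 2 ≤ Real.log P := Real.log_le_log (by norm_num) (by exact_mod_cast hP)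
    have h3 := Real.log_two_gt_d9
    linarith
  have h2 : 0 ≤ Real.log P := by linarith
  calc Real.log P ^ i ≤ (2 * Real.log P) ^ i := pow_le_pow_left₀ h2 (by linarith) i
    _ ≤ (2 * Real.log P) ^ j := pow_le_pow_right₀ (by linarith) hij
    _ = _ := mul_pow _ _ _

open Classical in
/-- **Progressions at which many forms are prime and the others are almost primes.** -/
theorem main_fam : ∃ (c : ℝ) (Q : ℕ → ℕ) (χ : ∀ i : ℕ, DirichletCharacter ℂ (Q i)), 0 < c ∧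
    (∀ i, 1 < Q i ∧ (χ i) ^ 2 = 1 ∧ (χ i).IsPrimitive) ∧
    (∀ B : ℕ, ∀ᶠ i in Filter.atTop, 2 ^ (B * i) ≤ Q i) ∧
    ∀ k B ℓ : ℕ, ∃ (A C D R : ℕ) (γ : ℝ), 0 < γ ∧ 0 < D ∧ (∀ j, D < Q (j + D)) ∧
    ∀ s ≤ k, ∀ (a b : Fin s → ℕ) (P : ℕ), (∀ i, 1 ≤ b i ∧ b i < a i) →
    Function.Injective (fun i => (a i, b i)) →
    (∀ p : ℕ, p.Prime → ∃ n : ℤ, ∀ i, ¬ (p : ℤ) ∣ a i * n + b i) → (∀ i, a i ∣ P) →
    ∀ j : ℕ, 2 ^ 2 ^ j ≤ P → P < 2 ^ 2 ^ (j + 1) →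
    ∀ G : Finset (Fin s), (∀ i ∈ G, ¬ Q (j + D) ∣ D * a i ∨
      (Q (j + D) ∣ a i ∧ χ (j + D) ((b i : ℕ) : ZMod (Q (j + D))) = -1)) →
    ∃ (n d : ℕ) (U : Finset (Fin s)), (n : ℝ) ≤ γ * (P : ℝ) ^ A ∧ 1 ≤ d ∧
      (d : ℝ) ≤ γ * Real.log P ^ C ∧ U ⊆ G ∧ (G.Nonempty → U.Nonempty) ∧
      ⌊c * ((G.card : ℝ) / s) * Real.log s⌋₊ ≤ U.card ∧
      ∀ h < ℓ, (∀ i ∈ U, (a i * (n + h * d) + b i).Prime) ∧
        ∀ i, ArithmeticFunction.cardFactors (a i * (n + h * d) + b i) ≤ R ∧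
          ∀ p : ℕ, p.Prime → p ∣ a i * (n + h * d) + b i → P ^ B < p := by
  obtain ⟨C₀, q₁, χ₁, hC₀, hq1, hq2, hq3, heng⟩ := engAP
  have hl2 := Real.log_two_gt_d9
  have hl2' : 0 < Real.log 2 := by linarith
  have hC₀r : (1 : ℝ) ≤ C₀ := by exact_mod_cast hC₀
  obtain ⟨c, hc⟩ : ∃ c : ℝ, c = 1 / (5 * C₀ * Real.log 2 * 2 ^ C₀) := ⟨_, rfl⟩
  have hc0 : 0 < c := by rw [hc]; positivity
  have hgrow : ∀ B : ℕ, ∀ᶠ i in Filter.atTop, 2 ^ (B * i) ≤ q₁ (2 ^ 2 ^ i) := by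
    intro B
    obtain ⟨z0, hz0⟩ := hq1 (B + 1)
    filter_upwards [Filter.eventually_ge_atTop (max z0 (B + 1))] with i hi
    have hi1 : z0 ≤ i := (le_max_left _ _).trans hi
    have hi2 : B + 1 ≤ i := (le_max_right _ _).trans hi
    have h1 := hz0 (2 ^ 2 ^ i) (hi1.trans (le_pp i))
    have h2 : ((2 : ℝ) ^ i / 2) ^ (B + 1) < (q₁ (2 ^ 2 ^ i) : ℝ) :=
      lt_of_le_of_lt (pow_le_pow_left₀ (by positivity) (log_pp i) _) h1
    have h3 : (2 : ℝ) ^ (B * i) ≤ ((2 : ℝ) ^ i / 2) ^ (B + 1) := by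
      rw [div_pow, le_div_iff₀ (by positivity), ← pow_mul, ← pow_add]
      apply pow_le_pow_right₀ (by norm_num)
      nlinarith
    have h4 : ((2 ^ (B * i) : ℕ) : ℝ) < (q₁ (2 ^ 2 ^ i) : ℝ) := by
      push_cast
      linarith
    exact_mod_cast h4.le
  obtain ⟨i₀, hi₀⟩ := Filter.eventually_atTop.1 (hgrow 1)
  refine ⟨c, fun i => q₁ (2 ^ 2 ^ i), fun i => χ₁ (2 ^ 2 ^ i), hc0,
    fun i => ⟨(hq2 _).1, (hq3 _).1, (hq3 _).2⟩, hgrow, ?_⟩
  intro k B ℓ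
  have heng' := fun m : ℕ => heng m (C₀ * (m + 1)) ℓ le_rfl
  choose e D₁ K Ce J₀ heng' using heng'
  choose Ar Cr γr hγr hrough using fun s : ℕ => rough_ap s (B + 1) ℓ
  obtain ⟨Ex, hEx⟩ : ∃ Ex : ℕ, ∀ m ≤ k, e m ≤ Ex :=
    ⟨(range (k + 1)).sup e, fun m hm => Finset.le_sup (f := e) (mem_range.2 (by omega))⟩
  obtain ⟨Dx, hDx⟩ : ∃ Dx : ℕ, ∀ m ≤ k, D₁ m ≤ Dx :=
    ⟨(range (k + 1)).sup D₁, fun m hm => Finset.le_sup (f := D₁) (mem_range.2 (by omega))⟩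
  obtain ⟨Kx, hKx⟩ : ∃ Kx : ℕ, ∀ m ≤ k, K m ≤ Kx :=
    ⟨(range (k + 1)).sup K, fun m hm => Finset.le_sup (f := K) (mem_range.2 (by omega))⟩
  obtain ⟨Jx, hJx⟩ : ∃ Jx : ℕ, ∀ m ≤ k, J₀ m ≤ Jx :=
    ⟨(range (k + 1)).sup J₀, fun m hm => Finset.le_sup (f := J₀) (mem_range.2 (by omega))⟩
  obtain ⟨Cx, hCx⟩ : ∃ Cx : ℕ, ∀ m ≤ k, Ce m ≤ Cx :=
    ⟨(range (k + 1)).sup Ce, fun m hm => Finset.le_sup (f := Ce) (mem_range.2 (by omega))⟩
  obtain ⟨Ay, hAy⟩ : ∃ Ay : ℕ, ∀ s ≤ k, Ar s ≤ Ay :=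
    ⟨(range (k + 1)).sup Ar, fun m hm => Finset.le_sup (f := Ar) (mem_range.2 (by omega))⟩
  obtain ⟨Cy, hCy⟩ : ∃ Cy : ℕ, ∀ s ≤ k, Cr s ≤ Cy :=
    ⟨(range (k + 1)).sup Cr, fun m hm => Finset.le_sup (f := Cr) (mem_range.2 (by omega))⟩
  obtain ⟨γy, hγy⟩ : ∃ γy : ℝ, ∀ s ≤ k, γr s ≤ γy :=
    ⟨∑ s ∈ range (k + 1), γr s, fun s hs => Finset.single_le_sum (f := γr)
      (fun i _ => (hγr i).le) (mem_range.2 (by omega))⟩
  have hγy0 : 0 < γy := lt_of_lt_of_le (hγr 0) (hγy 0 (Nat.zero_le _))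
  obtain ⟨p₀, hp₀, hp₀'⟩ := Nat.exists_infinite_primes (2 ^ (C₀ * (k + 1)))
  obtain ⟨D₂, hD₂⟩ : ∃ D₂ : ℕ, D₂ = max Dx (max (6 * k + 2) p₀) := ⟨_, rfl⟩
  have hD₂1 : Dx ≤ D₂ := by rw [hD₂]; exact le_max_left _ _
  have hD₂2 : 6 * k + 2 ≤ D₂ := by rw [hD₂]; exact (le_max_left _ _).trans (le_max_right _ _)
  have hD₂3 : p₀ ≤ D₂ := by rw [hD₂]; exact (le_max_right _ _).trans (le_max_right _ _)
  obtain ⟨D, hD⟩ : ∃ D : ℕ, D = 8 * D₂.factorial *
      (i₀ + Ex + 14 + B + Jx + D₂.factorial ^ 8 + D₂) := ⟨_, rfl⟩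
  have hf1 : 1 ≤ D₂.factorial := Nat.one_le_iff_ne_zero.2 (Nat.factorial_ne_zero _)
  have hDge : i₀ + Ex + 14 + B + Jx + D₂.factorial ^ 8 + D₂ ≤ D := by
    rw [hD]
    apply Nat.le_mul_of_pos_left
    positivity
  obtain ⟨A, hA⟩ : ∃ A : ℕ, A = Ay + 2 ^ D * (Kx + 1) := ⟨_, rfl⟩
  obtain ⟨C, hC⟩ : ∃ C : ℕ, C = Cx + Cy := ⟨_, rfl⟩
  obtain ⟨γ, hγ⟩ : ∃ γ : ℝ, γ = 1 + γy * (1 + 2 ^ C) + (2 ^ D) ^ Cx * 2 ^ C := ⟨_, rfl⟩
  have hγ1 : 1 ≤ γ := by
    rw [hγ]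
    have h1 : 0 ≤ γy * (1 + 2 ^ C) + (2 ^ D) ^ Cx * 2 ^ C := by positivity
    linarith
  have hγ0 : 0 < γ := by linarith
  obtain ⟨r₀, hr₀⟩ := exists_nat_ge (γ * (1 + ℓ) + 1)
  refine ⟨A, C, D, 1 + A + C + r₀, γ, hγ0, by omega, fun j => ?_, ?_⟩
  · have h1 := hi₀ (j + D) (by omega)
    rw [one_mul] at h1
    calc D < 2 ^ D := Nat.lt_two_pow_self
      _ ≤ 2 ^ (j + D) := Nat.pow_le_pow_right (by norm_num) (by omega)
      _ ≤ _ := h1
  intro s hsk a b P hab hinj hadm haP j hPj hPj' G hG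
  have hP2 : 2 ≤ P := (two_le_pp j).trans hPj
  have hP0 : P ≠ 0 := by omega
  have hP1 : 1 ≤ P := by omega
  have hP1r : (1 : ℝ) ≤ P := by exact_mod_cast hP1
  have haP' : ∀ i, a i ≤ P := fun i => Nat.le_of_dvd (Nat.pos_of_ne_zero hP0) (haP i)
  have hlogP0 : 0 ≤ Real.log P := Real.log_natCast_nonneg P
  -- it is enough to have rough values
  suffices key : ∃ (n d : ℕ) (U : Finset (Fin s)), (n : ℝ) ≤ γ * (P : ℝ) ^ A ∧ 1 ≤ d ∧
      (d : ℝ) ≤ γ * Real.log P ^ C ∧ U ⊆ G ∧ (G.Nonempty → U.Nonempty) ∧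
      ⌊c * ((G.card : ℝ) / s) * Real.log s⌋₊ ≤ U.card ∧
      ∀ h < ℓ, (∀ i ∈ U, (a i * (n + h * d) + b i).Prime) ∧
        ∀ i, ∀ p : ℕ, p.Prime → p ∣ a i * (n + h * d) + b i → P ^ (B + 1) < p by
    obtain ⟨n, d, U, hn1, hd1, hd2, hU1, hU2, hU3, hh⟩ := key
    refine ⟨n, d, U, hn1, hd1, hd2, hU1, hU2, hU3, fun h hh' => ⟨(hh h hh').1, fun i =>
      ⟨?_, fun p hp hpd => ?_⟩⟩⟩
    · have hai := hab i
      apply cf_bd (P := P) (by omega) hP2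
      · intro p hp hpd
        have h1 := (hh h hh').2 i p hp hpd
        have h2 : P ≤ P ^ (B + 1) := Nat.le_self_pow (by omega) _
        omega
      · have h1 : ((a i * (n + h * d) + b i : ℕ) : ℝ) ≤ (P : ℝ) ^ (1 + A + C + r₀) := by
          have h2 : (a i : ℝ) ≤ P := by exact_mod_cast haP' i
          have h3 : (b i : ℝ) ≤ P := by
            have h4 : b i ≤ P := hai.2.le.trans (haP' i)
            exact_mod_cast h4
          have h4 : (γ * (1 + ℓ) + 1 : ℝ) ≤ (P : ℝ) ^ r₀ := by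
            refine hr₀.trans ?_
            have h5 : r₀ ≤ P ^ r₀ := (Nat.lt_pow_self (by omega)).le
            exact_mod_cast h5
          have hPA : (P : ℝ) ^ A ≤ (P : ℝ) ^ (A + C) := pow_le_pow_right₀ hP1r (by omega)
          have hPC : (P : ℝ) ^ C ≤ (P : ℝ) ^ (A + C) := pow_le_pow_right₀ hP1r (by omega)
          have hPAC : (1 : ℝ) ≤ (P : ℝ) ^ (A + C) := one_le_pow₀ hP1r
          have hd3 : (d : ℝ) ≤ γ * (P : ℝ) ^ C := by
            refine hd2.trans (mul_le_mul_of_nonneg_left ?_ hγ0.le)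
            apply pow_le_pow_left₀ hlogP0
            have := Real.log_le_sub_one_of_pos (show (0 : ℝ) < P by linarith)
            linarith
          have hhl : (h : ℝ) ≤ ℓ := by exact_mod_cast hh'.le
          have h5 : (n : ℝ) + h * d ≤ γ * (1 + ℓ) * (P : ℝ) ^ (A + C) := by
            have h6 : (h : ℝ) * d ≤ ℓ * (γ * (P : ℝ) ^ (A + C)) := by
              apply mul_le_mul hhl _ (Nat.cast_nonneg _) (Nat.cast_nonneg _)
              exact hd3.trans (mul_le_mul_of_nonneg_left hPC hγ0.le)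
            have h7 : (n : ℝ) ≤ γ * (P : ℝ) ^ (A + C) :=
              hn1.trans (mul_le_mul_of_nonneg_left hPA hγ0.le)
            calc (n : ℝ) + h * d ≤ γ * (P : ℝ) ^ (A + C) + ℓ * (γ * (P : ℝ) ^ (A + C)) :=
                  add_le_add h7 h6
              _ = _ := by ring
          push_cast
          calc (a i : ℝ) * (n + h * d) + b i ≤ P * (γ * (1 + ℓ) * (P : ℝ) ^ (A + C)) +
                P * (P : ℝ) ^ (A + C) := by
                apply add_le_add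
                · exact mul_le_mul h2 h5 (by positivity) (by positivity)
                · exact h3.trans (le_mul_of_one_le_right (by linarith) hPAC)
            _ = (P : ℝ) ^ (1 + A + C) * (γ * (1 + ℓ) + 1) := by ring
            _ ≤ (P : ℝ) ^ (1 + A + C) * (P : ℝ) ^ r₀ := mul_le_mul_of_nonneg_left h4 (by positivity)
            _ = _ := by rw [← pow_add]
        exact_mod_cast h1
    · have h1 := (hh h hh').2 i p hp hpd
      have h2 : P ^ B ≤ P ^ (B + 1) := Nat.pow_le_pow_right hP1 (by omega)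
      omega
  rcases G.eq_empty_or_nonempty with hGe | hGne
  · obtain ⟨n, d, hn1, hd1, hd2, hr⟩ := hrough s a b P hab hadm haP' hP2
    have hγs := hγy s hsk
    refine ⟨n, d, ∅, ?_, hd1, ?_, empty_subset _, ?_, ?_, ?_⟩
    · refine hn1.trans ?_
      apply mul_le_mul _ _ (by positivity) hγ0.le
      · refine hγs.trans ?_
        rw [hγ]
        have h1 : 0 ≤ γy * 2 ^ C + (2 ^ D) ^ Cx * 2 ^ C := by positivity
        linarith
      · exact pow_le_pow_right₀ hP1r (by have := hAy s hsk; omega)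
    · refine hd2.trans ?_
      have h1 := logp_mono (P := P) (i := Cr s) (j := C) hP2 (by have := hCy s hsk; omega)
      calc γr s * Real.log P ^ Cr s ≤ γy * (2 ^ C * Real.log P ^ C) :=
            mul_le_mul hγs h1 (by positivity) hγy0.le
        _ = γy * 2 ^ C * Real.log P ^ C := by ring
        _ ≤ γ * Real.log P ^ C := by
            apply mul_le_mul_of_nonneg_right _ (by positivity)
            rw [hγ]
            have h2 : (0 : ℝ) ≤ (2 ^ D) ^ Cx * 2 ^ C := by positivity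
            linarith
    · intro h
      rw [hGe] at h
      exact absurd h not_nonempty_empty
    · rw [hGe]
      simp
    · intro h hh
      exact ⟨fun i hi => absurd hi (notMem_empty _), hr h hh⟩
  have hs0 : 1 ≤ s := by
    obtain ⟨x, _⟩ := hGne
    have := x.2
    omega
  have hG1 : 1 ≤ G.card := card_pos.2 hGne
  obtain ⟨m, hm1, hm2⟩ := choose_dim hC₀ hs0
  have hmk : m ≤ k := by
    have h1 : m < 2 ^ m := Nat.lt_two_pow_self
    have h2 : 2 ^ m ≤ 2 ^ (C₀ * m) :=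
      Nat.pow_le_pow_right (by norm_num) (Nat.le_mul_of_pos_left _ (by omega))
    omega
  obtain ⟨M, hM⟩ : ∃ M : ℕ, M = ⌊c * ((G.card : ℝ) / s) * Real.log (s : ℝ)⌋₊ := ⟨_, rfl⟩
  rw [← hM]
  -- the level
  obtain ⟨Jn, hJn⟩ : ∃ Jn : ℕ, Jn = j + D - e m - 6 := ⟨_, rfl⟩
  have hem := hEx m hmk
  have hJne : Jn + e m + 6 = j + D := by omega
  have hJn5 : j + 5 ≤ Jn := by omega
  have hJnB : j + B + 3 ≤ Jn := by omega
  have hJnJ : J₀ m ≤ Jn := by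
    have := hJx m hmk
    omega
  have hJnD : D₂.factorial ^ 8 + D₂ + 1 ≤ Jn := by omega
  have hP12 : P ^ 12 ≤ 2 ^ 2 ^ Jn := by
    calc P ^ 12 ≤ P ^ 16 := Nat.pow_le_pow_right hP1 (by norm_num)
      _ ≤ (2 ^ 2 ^ (j + 1)) ^ 16 := Nat.pow_le_pow_left hPj'.le 16
      _ = 2 ^ 2 ^ (j + 5) := by
        rw [← pow_mul]
        congr 1
        rw [pow_add 2 j 5, pow_add 2 j 1]
        ring
      _ ≤ _ := pp_mono hJn5
  have hPB : P ^ (B + 1) < 2 ^ 2 ^ Jn := by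
    calc P ^ (B + 1) ≤ (2 ^ 2 ^ (j + 1)) ^ (B + 1) := Nat.pow_le_pow_left hPj'.le _
      _ = 2 ^ (2 ^ (j + 1) * (B + 1)) := by rw [← pow_mul]
      _ < 2 ^ 2 ^ Jn := by
        apply Nat.pow_lt_pow_right (by norm_num)
        calc 2 ^ (j + 1) * (B + 1) < 2 ^ (j + 1) * 2 ^ (B + 1) :=
              Nat.mul_lt_mul_of_pos_left Nat.lt_two_pow_self (by positivity)
          _ = 2 ^ (j + 1 + (B + 1)) := by rw [← pow_add]
          _ ≤ _ := Nat.pow_le_pow_right (by norm_num) (by omega)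
  have hWW0 := WW_pos (D₁ := D₂) hP0
  have hJpp := le_pp Jn
  -- the residues
  have hmany := many_nu (D := D₂) (W := WW D₂ P) (χ₁ (2 ^ 2 ^ (j + D))) (hq2 _).1
    (hq3 _).2 (hq3 _).1 (hq2 _).2.1 a b (prim_of a b hadm) (WW_squarefree hP0) (by omega) (by omega)
    (fun i r hr hri => (prime_dvd_WW hP0 hr).2 (Or.inr (hri.trans (haP i)))) G (by
      intro i hi
      rcases hG i hi with h1 | h1
      · left
        by_contra hcon
        push Not at hcon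
        apply h1
        have h2 := dvd_of_rough (D := D₂) (a := a i) (hq2 (2 ^ 2 ^ (j + D))).2.1
          (hq2 (2 ^ 2 ^ (j + D))).2.2 hcon
        exact h2.trans (Nat.mul_dvd_mul_right ⟨_, hD⟩ _)
      · exact Or.inr h1)
  have hpk : 2 ^ (C₀ * (m + 1)) ≤ p₀ := by
    have h2 : 2 ^ (C₀ * (m + 1)) ≤ 2 ^ (C₀ * (k + 1)) :=
      Nat.pow_le_pow_right (by norm_num) (Nat.mul_le_mul_left _ (by omega))
    exact h2.trans hp₀
  have hkW : 2 ^ (C₀ * (m + 1)) ≤ WW D₂ P := by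
    have h1 : p₀ ∣ WW D₂ P := (prime_dvd_WW hP0 hp₀').2 (Or.inl hD₂3)
    exact hpk.trans (Nat.le_of_dvd hWW0 h1)
  have hfin := heng' m Jn hJnJ D₂ P s a b ((hDx m hmk).trans hD₂1) (hpk.trans hD₂3) hkW (by omega)
    (by omega) hP0 hP12 (by omega) hm2.le hab hinj hadm haP G (max M 1 - 1)
  rw [hJne] at hfin
  obtain ⟨n, d, U, hn, hd1, hd2, hUG, hUc, hh⟩ := hfin (by
    refine hmany.trans (Nat.mul_le_mul_left _ (card_le_card ?_))
    intro ν hν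
    rw [mem_filter] at hν ⊢
    refine ⟨hν.1, ?_⟩
    obtain ⟨H, hH⟩ : ∃ H : ℕ, H = (G.filter (fun i => q₁ (2 ^ 2 ^ (j + D)) ∣ a i * WW D₂ P →
      χ₁ (2 ^ 2 ^ (j + D)) ((a i * ν + b i : ℕ) : ZMod (q₁ (2 ^ 2 ^ (j + D)))) = -1)).card :=
      ⟨_, rfl⟩
    have hνG := hν.2
    rw [← hH] at hνG ⊢
    have hH1 : 1 ≤ H := by omega
    rcases Nat.lt_or_ge M 2 with hM1 | hM1
    · have h1 : max M 1 - 1 = 0 := by omega
      rw [h1, zero_mul, zero_add]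
      exact Nat.mul_pos (by omega) hH1
    · have h1 : max M 1 - 1 + 1 = M := by omega
      have hs0r : (0 : ℝ) < s := by exact_mod_cast hs0
      have hlogs : Real.log (s : ℝ) ≤ C₀ * (m + 1) * Real.log 2 := by
        have h1 : Real.log (s : ℝ) ≤ Real.log ((2 : ℝ) ^ (C₀ * (m + 1))) := by
          apply Real.log_le_log hs0r
          exact_mod_cast hm2.le
        rw [Real.log_pow] at h1
        push_cast at h1
        exact h1
      have hlogs0 : 0 ≤ Real.log (s : ℝ) := Real.log_natCast_nonneg _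
      have h1' : (M : ℝ) ≤ c * ((G.card : ℝ) / s) * (C₀ * (m + 1) * Real.log 2) := by
        have h2 : (M : ℝ) ≤ c * ((G.card : ℝ) / s) * Real.log (s : ℝ) := by
          rw [hM]
          apply Nat.floor_le
          positivity
        exact h2.trans (mul_le_mul_of_nonneg_left hlogs (by positivity))
      have h2 : ((2 : ℝ) ^ (C₀ * m)) ≤ s := by exact_mod_cast hm1
      have h3 : (M : ℝ) * 2 ^ (C₀ * (m + 1)) ≤ (m + 1) * (1 / 5 * G.card) := by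
        have h4 : c * ((G.card : ℝ) / s) * (C₀ * (m + 1) * Real.log 2) * (2 ^ C₀ * s) =
            (m + 1) * (1 / 5 * G.card) := by
          rw [hc]
          field_simp
        rw [← h4]
        have h5 : (2 : ℝ) ^ (C₀ * (m + 1)) ≤ 2 ^ C₀ * s := by
          rw [mul_add, mul_one, pow_add, mul_comm ((2 : ℝ) ^ (C₀ * m))]
          exact mul_le_mul_of_nonneg_left h2 (by positivity)
        exact mul_le_mul h1' h5 (by positivity) (by positivity)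
      have h4 : (1 / 5 * (G.card : ℝ)) ≤ H := by
        have h5 : (G.card : ℝ) ≤ 5 * H := by exact_mod_cast hνG
        linarith
      have h5 : (M : ℝ) * 2 ^ (C₀ * (m + 1)) ≤ (m + 1) * H :=
        h3.trans (mul_le_mul_of_nonneg_left h4 (by positivity))
      have h6 : M * 2 ^ (C₀ * (m + 1)) ≤ (m + 1) * H := by exact_mod_cast h5
      have h7 : (max M 1 - 1) * 2 ^ (C₀ * (m + 1)) + 1 ≤ M * 2 ^ (C₀ * (m + 1)) := by
        calc (max M 1 - 1) * 2 ^ (C₀ * (m + 1)) + 1 ≤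
            (max M 1 - 1) * 2 ^ (C₀ * (m + 1)) + 2 ^ (C₀ * (m + 1)) := by
              have := Nat.one_le_two_pow (n := C₀ * (m + 1))
              omega
          _ = (max M 1 - 1 + 1) * 2 ^ (C₀ * (m + 1)) := by ring
          _ = _ := by rw [h1]
      exact h7.trans h6)
  have hlogZ : Real.log ((2 ^ 2 ^ (j + D) : ℕ) : ℝ) ≤ 2 ^ D * Real.log P := by
    have h1 : ((2 ^ 2 ^ (j + D) : ℕ) : ℝ) ≤ (P : ℝ) ^ (2 ^ D) := by
      have h2 : 2 ^ 2 ^ (j + D) ≤ P ^ (2 ^ D) := by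
        calc 2 ^ 2 ^ (j + D) = (2 ^ 2 ^ j) ^ (2 ^ D) := by rw [← pow_mul, ← pow_add]
          _ ≤ _ := Nat.pow_le_pow_left hPj _
      exact_mod_cast h2
    have h2 := Real.log_le_log (by positivity) h1
    rw [Real.log_pow] at h2
    push_cast at h2 ⊢
    exact h2
  have hlogZ1 : 1 ≤ Real.log ((2 ^ 2 ^ (j + D) : ℕ) : ℝ) := by
    have h1 := log_pp (j + D)
    have h2 : (2 : ℝ) ^ 1 ≤ 2 ^ (j + D) := pow_le_pow_right₀ (by norm_num) (by omega)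
    rw [pow_one] at h2
    linarith
  refine ⟨n, d, U, ?_, hd1, ?_, hUG, fun _ => card_pos.1 (by omega), by omega, ?_⟩
  · have hnz : n ≤ P ^ (2 ^ D * (Kx + 1)) := by
      have hz1 : 1 ≤ 2 ^ 2 ^ (j + D) := Nat.one_le_pow _ _ (by norm_num)
      have hKm := hKx m hmk
      calc n ≤ (2 ^ 2 ^ (j + D)) ^ (K m + 1) := hn
        _ ≤ (2 ^ 2 ^ (j + D)) ^ (Kx + 1) := Nat.pow_le_pow_right hz1 (by omega)
        _ = (2 ^ 2 ^ j) ^ (2 ^ D * (Kx + 1)) := by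
          rw [← pow_mul, ← pow_mul, ← mul_assoc, ← pow_add]
        _ ≤ _ := Nat.pow_le_pow_left hPj _
    have h1 : (n : ℝ) ≤ (P : ℝ) ^ (2 ^ D * (Kx + 1)) := by exact_mod_cast hnz
    calc (n : ℝ) ≤ (P : ℝ) ^ (2 ^ D * (Kx + 1)) := h1
      _ ≤ (P : ℝ) ^ A := pow_le_pow_right₀ hP1r (by omega)
      _ ≤ γ * (P : ℝ) ^ A := le_mul_of_one_le_left (by positivity) hγ1
  · calc (d : ℝ) ≤ Real.log ((2 ^ 2 ^ (j + D) : ℕ) : ℝ) ^ Ce m := hd2
      _ ≤ Real.log ((2 ^ 2 ^ (j + D) : ℕ) : ℝ) ^ Cx := pow_le_pow_right₀ hlogZ1 (hCx m hmk)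
      _ ≤ (2 ^ D * Real.log P) ^ Cx := pow_le_pow_left₀ (by linarith) hlogZ _
      _ = (2 ^ D) ^ Cx * Real.log P ^ Cx := mul_pow _ _ _
      _ ≤ (2 ^ D) ^ Cx * (2 ^ C * Real.log P ^ C) :=
          mul_le_mul_of_nonneg_left (logp_mono hP2 (by omega)) (by positivity)
      _ = (2 ^ D) ^ Cx * 2 ^ C * Real.log P ^ C := by ring
      _ ≤ γ * Real.log P ^ C := by
          apply mul_le_mul_of_nonneg_right _ (by positivity)
          rw [hγ]
          have h2 : (0 : ℝ) ≤ γy * (1 + 2 ^ C) := by positivity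
          linarith
  · intro h hh'
    refine ⟨(hh h hh').1, fun i p hp hpd => ?_⟩
    have h1 := (hh h hh').2 i p hp hpd
    omega

end Run7.h296
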