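import Pool.Agent.Run7.h296.S2

/-!
The quantitative theorem for systems, with the exceptional characters.
-/

set_option autoImplicit false

open Finset

namespace Run7.h296

open Pool.Agent.R498.MT Pool.Agent.H262R3.Lk Pool.Agent.W505.MH
open Pool.Agent.H318R2.Cr (Rgh V V_pos V_le_one cz_bounds)

open Classical in
/-- **the quantitative theorem for systems** -/
theorem engineQ : ∃ (C₀ : ℕ) (q₁ : ℕ → ℕ) (χ₁ : ∀ z : ℕ, DirichletCharacter ℂ (q₁ z)), 1 ≤ C₀ ∧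
    (∀ B : ℕ, ∃ z0 : ℕ, ∀ z : ℕ, z0 ≤ z → (Real.log z) ^ B < (q₁ z : ℝ)) ∧
    (∀ z, 1 < q₁ z ∧ (∀ p : ℕ, p.Prime → p ≠ 2 → ¬ p ^ 2 ∣ q₁ z) ∧ ¬ 16 ∣ q₁ z) ∧
    (∀ z, (χ₁ z) ^ 2 = 1 ∧ (χ₁ z).IsPrimitive) ∧
    ∀ m₀ k : ℕ, C₀ * (m₀ + 1) ≤ k → ∃ (e D₁ K : ℕ) (κ : ℝ), 1 ≤ K ∧ 0 < κ ∧ ∃ J₀ : ℕ,
      ∀ Jn : ℕ, J₀ ≤ Jn → ∀ (W : ℕ) (A B : Fin (2 ^ k) → ℕ), Sys k Jn e W D₁ A B →
      ∀ G : Finset (Fin (2 ^ k)),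
      (∀ i ∈ G, q₁ (2 ^ 2 ^ (Jn + e + 6)) ∣ A i →
        χ₁ (2 ^ 2 ^ (Jn + e + 6)) ((B i : ℕ) : ZMod (q₁ (2 ^ 2 ^ (Jn + e + 6)))) = -1) →
      ∀ m : ℕ, m * 2 ^ k + 1 ≤ (m₀ + 1) * G.card →
      κ * (Real.log ((2 ^ 2 ^ (Jn + e + 6) : ℕ) : ℝ) * ∏ p ∈ PS Jn W, (1 - gg A B p)) ≤
        ∑ l ∈ (Ioc (l0 Jn e) ((2 ^ 2 ^ (Jn + e + 6)) ^ K)).filter (fun l => Good A B Jn W G m l),
          (1 : ℝ) / l := by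
  obtain ⟨c₁, c₂, hc₁, hc₁₂, hczb⟩ := cz_bounds
  have hcz : CZ c₁ c₂ := ⟨hc₁, hc₁₂, hczb⟩
  obtain ⟨Ca, hCa, hajb⟩ := aj_main
  have haj : AJ Ca := ⟨hCa, hajb⟩
  obtain ⟨CN, hCN, hgpb⟩ := gPart
  have hgp : GP CN := ⟨hCN, fun {k Jn e b b' W D₁ C₁ E D A B} => hgpb⟩
  obtain ⟨c4, D0, hc4, hD0, hpage⟩ := page_ch
  obtain ⟨CR, hCR1, hRM⟩ := rho_mass
  have hc₂ : 0 < c₂ := lt_of_lt_of_le hc₁ hc₁₂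
  obtain ⟨s, hsD, hs2, hs1, hP1⟩ := choose_s (D0 := D0) hCa.le hc₂.le hc4 CR
  obtain ⟨q₁, χ₁, hq1, hq2, hq3, hbase⟩ := hpage ((2 : ℝ) ^ s) hsD
  have hd0 : (0 : ℝ) < 2 ^ s := by positivity
  obtain ⟨C₀, hC₀⟩ := exists_nat_ge
    (max 1 (3 * 1474560 * (393216 * c₂ * ((2 : ℝ) ^ s) ^ 4) * 2 / c4))
  refine ⟨C₀, q₁, χ₁, by exact_mod_cast (le_max_left _ _).trans hC₀, hq1, hq2, hq3,
    fun m k hkd => ?_⟩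
  have hk : 3 * ((m : ℝ) + 1) * 1474560 ≤ c4 / (393216 * c₂ * ((2 : ℝ) ^ s) ^ 4) * (1 / 2) * k := by
    have h1 : 3 * 1474560 * (393216 * c₂ * ((2 : ℝ) ^ s) ^ 4) * 2 / c4 ≤ C₀ :=
      (le_max_right _ _).trans hC₀
    rw [div_le_iff₀ hc4] at h1
    have h2 : (3 * 1474560 : ℝ) ≤ c4 / (393216 * c₂ * ((2 : ℝ) ^ s) ^ 4) * (1 / 2) * C₀ := by
      rw [div_mul_eq_mul_div, div_mul_eq_mul_div, le_div_iff₀ (by positivity)]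
      linarith
    have hm0 : (0 : ℝ) ≤ (m : ℝ) + 1 := by positivity
    have h3 := mul_le_mul_of_nonneg_right h2 hm0
    have h4 : (C₀ : ℝ) * (m + 1) ≤ k := by exact_mod_cast hkd
    have h5 : 0 ≤ c4 / (393216 * c₂ * ((2 : ℝ) ^ s) ^ 4) * (1 / 2) := by positivity
    have h6 := mul_le_mul_of_nonneg_left h4 h5
    refine le_trans (le_of_eq ?_) (h3.trans ((le_of_eq ?_).trans h6)) <;> ring
  obtain ⟨DR, hDR, hmass⟩ := hRM (2 ^ k)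
  obtain ⟨D', hD', hmass1⟩ := hRM 1
  obtain ⟨C₁, hC₁⟩ : ∃ C₁ : ℝ, C₁ = max (7 / c₁ * (96 * c₂ * ((2 : ℝ) ^ s) ^ 16 + Ca))
    (64 * (64 * (c₂ / c₁) + 1)) := ⟨_, rfl⟩
  have hC3 : 7 / c₁ * (96 * c₂ * ((2 : ℝ) ^ s) ^ 16 + Ca) ≤ C₁ := by
    rw [hC₁]; exact le_max_left _ _
  have hC5 : 64 * (64 * (c₂ / c₁) + 1) ≤ C₁ := by rw [hC₁]; exact le_max_right _ _
  have hC0 : 0 ≤ C₁ := by
    refine le_trans ?_ hC5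
    positivity
  obtain ⟨M₀, hM₀⟩ : ∃ M₀ : ℝ, M₀ = (14 / c₁ * (96 * c₂ * ((2 : ℝ) ^ s) ^ 16 + Ca) + 1) *
    (4 * 2 ^ k) := ⟨_, rfl⟩
  obtain ⟨e, b, he1, hee, hbb, hbe, hPb⟩ := choose_eb k M₀ (e0 k C₁ (1 / 2))
    (e0_pos k C₁ (1 / 2) hC0 (by norm_num)) (max (5 * s) (CR * (2 ^ k + 1)))
  have hb5 : 5 * s ≤ b := (le_max_left _ _).trans hbb
  have hbR : CR * (2 ^ k + 1) ≤ b := (le_max_right _ _).trans hbb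
  have hP2 : 7 / c₁ * (96 * c₂ * ((2 : ℝ) ^ s) ^ 16 + Ca) *
      Pool.Agent.R498.MT.Ab k ((1 / 2) ^ e) * (2 * (1 / 2) ^ b) +
      (1 / 2) ^ b * Pool.Agent.R498.MT.Ab k ((1 / 2) ^ e) ≤ 1 / 4 * (1 / 2 ^ k) := by
    rw [hM₀] at hPb
    have h2k : (0 : ℝ) < 4 * 2 ^ k := by positivity
    have h1 : 1 / 4 * (1 / (2 : ℝ) ^ k) = 1 / (4 * 2 ^ k) := by field_simp
    rw [h1, le_div_iff₀ h2k]
    refine le_trans (le_of_eq ?_) hPb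
    ring
  obtain ⟨Γ, hΓ⟩ : ∃ Γ : ℝ, Γ = max (2 * DR * (2 * 2 ^ k)) (48 * (2 ^ k : ℝ) ^ 2) := ⟨_, rfl⟩
  have hΓa : 2 * DR * (2 * 2 ^ k) ≤ Γ := by rw [hΓ]; exact le_max_left _ _
  have hΓb : 48 * (2 ^ k : ℝ) ^ 2 ≤ Γ := by rw [hΓ]; exact le_max_right _ _
  have hΓ0 : 0 ≤ Γ := by
    refine le_trans ?_ hΓb
    positivity
  have hAb0 : 0 ≤ Pool.Agent.R498.MT.Ab k ((1 / 2) ^ e) := by
    have := Ab_one k ((1 / 2) ^ e) (by positivity) (pow_le_one₀ (by norm_num) (by norm_num))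
    linarith
  obtain ⟨v, hv⟩ : ∃ v : ℝ, v = 7 / c₁ * (8 * Pool.Agent.R498.MT.Ab k ((1 / 2) ^ e) * Γ *
      (CN * (((2 : ℝ) ^ s) ^ 4) ^ 8)) * (8 * 2 ^ k) := ⟨_, rfl⟩
  obtain ⟨n₁, hn₁⟩ := exists_nat_ge (max Γ v)
  obtain ⟨D₁, hD₁⟩ : ∃ D₁ : ℕ, D₁ = max (max n₁ (CR * (2 ^ k + 1))) (max (2 * 2 ^ k) 3) := ⟨_, rfl⟩
  have hn1D : n₁ ≤ D₁ := by rw [hD₁]; exact (le_max_left _ _).trans (le_max_left _ _)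
  have hD1 : CR * (2 ^ k + 1) ≤ D₁ := by rw [hD₁]; exact (le_max_right _ _).trans (le_max_left _ _)
  have hD2 : 2 * 2 ^ k ≤ D₁ := by rw [hD₁]; exact (le_max_left _ _).trans (le_max_right _ _)
  have hD3 : 3 ≤ D₁ := by rw [hD₁]; exact (le_max_right _ _).trans (le_max_right _ _)
  have hn1D' : (n₁ : ℝ) ≤ D₁ := by exact_mod_cast hn1D
  have hΓD : Γ ≤ D₁ := ((le_max_left _ _).trans hn₁).trans hn1D'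
  have hvD : v ≤ D₁ := ((le_max_right _ _).trans hn₁).trans hn1D'
  have hD10 : (0 : ℝ) < D₁ := by exact_mod_cast (by omega : 0 < D₁)
  have hP4 : 7 / c₁ * (8 * Pool.Agent.R498.MT.Ab k ((1 / 2) ^ e) * (Γ / D₁) *
      (CN * (((2 : ℝ) ^ s) ^ 4) ^ 8)) ≤ 1 / 8 * (1 / 2 ^ k) := by
    have h1 : 7 / c₁ * (8 * Pool.Agent.R498.MT.Ab k ((1 / 2) ^ e) * (Γ / D₁) *
      (CN * (((2 : ℝ) ^ s) ^ 4) ^ 8)) = v / D₁ * (1 / 8 * (1 / 2 ^ k)) := by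
      rw [hv]
      field_simp
    rw [h1]
    apply mul_le_of_le_one_left (by positivity)
    rw [div_le_one hD10]
    exact hvD
  obtain ⟨K, hK1, hK⟩ := choose_K (2 ^ k * 2 ^ (k + 1) * (768 * ((2 : ℝ) ^ s) ^ 16) * 800)
    (2 * ((2 : ℝ) ^ s) ^ 4) (by positivity)
  obtain ⟨κ, hκ, J₀, hJ₀⟩ := engine_fixQ (c₁ := c₁) (c₂ := c₂) (D' := D')
    (Gd := fun z q b => q₁ z ∣ q → χ₁ z ((b : ℕ) : ZMod (q₁ z)) = -1) hcz haj hgp hc4 hCR1 hDR hmass hmass1 m hbase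
    hs2 hs1 hb5 (hP1 b hb5) hk hC3 hC5 hC0 hbR hee hbe hP2 hΓa hΓb hΓD hP4 hD1 hD2 hD3 hK1 hK
  exact ⟨e, D₁, K, κ, hK1, hκ, J₀, hJ₀⟩

end Run7.h296
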