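import Pool.Agent.K3h89.SX.Top
import Pool.Agent.K3h89.SX.MOM

/-!
Arithmetic progressions in sets of integers at which linear forms are free of small primes.
-/

set_option autoImplicit false

open Finset

namespace Run7.h296.SL

open Pool.Agent.TH423.SH (PS)
open Pool.Agent.K3h89.SZ (SysP CF strip)
open Pool.Agent.Y677.RSZ (rt V ev_log)
open Pool.Agent.K3h89.SX (big_primes)

/-- the product of the forms -/
def FF {s : ℕ} (a b : Fin s → ℕ) (x : ℤ) : ℤ := ∏ i, ((a i : ℤ) * x + b i)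

theorem dvd_FF {s : ℕ} {a b : Fin s → ℕ} {p : ℕ} (hp : p.Prime) (x : ℤ) :
    (p : ℤ) ∣ FF a b x ↔ ∃ i, (p : ℤ) ∣ (a i : ℤ) * x + b i := by
  unfold FF
  rw [Prime.dvd_finset_prod_iff (Nat.prime_iff_prime_int.1 hp)]
  simp only [mem_univ, true_and]

/-- admissible sets of forms -/
def Adm {s : ℕ} (a b : Fin s → ℕ) : Prop :=
  ∀ p : ℕ, p.Prime → ∃ n : ℤ, ∀ i, ¬ (p : ℤ) ∣ a i * n + b i

theorem ndvd {s : ℕ} {a b : Fin s → ℕ} (hadm : Adm a b) {p : ℕ} (hp : p.Prime) {x : ℤ} {i : Fin s}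
    (h : (p : ℤ) ∣ a i * x + b i) : ¬ (p : ℤ) ∣ a i := by
  intro h1
  obtain ⟨n, hn⟩ := hadm p hp
  have h2 : (p : ℤ) ∣ b i := (dvd_add_right (h1.mul_right x)).1 h
  exact hn i (dvd_add (h1.mul_right n) h2)

theorem sysP_FF {s g : ℕ} {a b : Fin s → ℕ} (hadm : Adm a b) (hs : s ≤ g) : SysP g (FF a b) where
  per := by
    intro p hp n
    rw [dvd_FF hp, dvd_FF hp]
    apply exists_congr
    intro i
    have e1 : (a i : ℤ) * (n + p) + b i = (a i * n + b i) + p * a i := by ring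
    rw [e1]
    exact ⟨fun h => (dvd_add_left (Dvd.intro _ rfl)).1 h, fun h => dvd_add h (Dvd.intro _ rfl)⟩
  root := by
    intro p hp
    have hp0 : (p : ℤ) ≠ 0 := by exact_mod_cast hp.ne_zero
    constructor
    · refine le_trans ?_ hs
      unfold rt
      rcases Nat.eq_zero_or_pos s with h0 | h0
      · subst h0
        rw [Nat.le_zero, card_eq_zero, filter_eq_empty_iff]
        intro r _ h
        rw [dvd_FF hp] at h
        obtain ⟨i, _⟩ := h
        exact i.elim0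
      haveI : Nonempty (Fin s) := ⟨⟨0, h0⟩⟩
      have h1 : ∀ r ∈ (range p).filter (fun r : ℕ => (p : ℤ) ∣ FF a b r), ∃ i,
          (p : ℤ) ∣ (a i : ℤ) * (r : ℤ) + b i := fun r hr => (dvd_FF hp _).1 (mem_filter.1 hr).2
      choose! f hf using h1
      have h2 : ((range p).filter (fun r : ℕ => (p : ℤ) ∣ FF a b r)).card ≤
          (univ : Finset (Fin s)).card := by
        apply card_le_card_of_injOn f (fun _ _ => mem_coe.2 (mem_univ _))
        intro t ht t' ht' hft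
        have e1 := hf t ht
        have e2 := hf t' ht'
        rw [← hft] at e2
        have e3 := ndvd hadm hp e1
        have e4 : (p : ℤ) ∣ (a (f t) : ℤ) * ((t : ℤ) - t') := by
          have e5 : (a (f t) : ℤ) * ((t : ℤ) - t') =
              (a (f t) * (t : ℤ) + b (f t)) - (a (f t) * (t' : ℤ) + b (f t)) := by ring
          rw [e5]
          exact dvd_sub e1 e2
        have e6 : (p : ℤ) ∣ (t : ℤ) - t' := by
          rcases (Int.Prime.dvd_mul' hp e4) with h | h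
          · exact absurd h e3
          · exact h
        have e7 : (t : ℤ) - t' = 0 := by
          apply Int.eq_zero_of_abs_lt_dvd e6
          have r1 := mem_range.1 (mem_filter.1 (mem_coe.1 ht)).1
          have r2 := mem_range.1 (mem_filter.1 (mem_coe.1 ht')).1
          rw [abs_lt]
          omega
        omega
      rwa [card_univ, Fintype.card_fin] at h2
    · unfold rt
      obtain ⟨n, hn⟩ := hadm p hp
      have h1 : (((n % p).toNat : ℕ) : ℤ) = n % p := Int.toNat_of_nonneg (Int.emod_nonneg n hp0)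
      have h2 : (n % p).toNat < p := by
        have := Int.emod_lt_of_pos n (show (0 : ℤ) < p by exact_mod_cast hp.pos)
        omega
      calc ((range p).filter (fun r : ℕ => (p : ℤ) ∣ FF a b r)).card < (range p).card := by
            apply card_lt_card
            rw [filter_ssubset]
            refine ⟨(n % p).toNat, mem_range.2 h2, ?_⟩
            rw [dvd_FF hp, h1]
            rintro ⟨i, hi⟩
            apply hn i
            have e1 : (a i : ℤ) * n + b i = (a i * (n % p) + b i) + p * (a i * (n / p)) := by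
              have := Int.emod_add_mul_ediv n p
              linear_combination (-(a i : ℤ)) * this
            rw [e1]
            exact dvd_add hi (Dvd.intro _ rfl)
        _ = p := card_range p

/-- the numbers which have the common prime factors of two forms -/
def mm {s : ℕ} (a b : Fin s → ℕ) (x : Fin s × Fin s) (h : ℕ) : ℕ :=
  a x.1 * a x.2 * h + a x.1 * b x.2 - a x.2 * b x.1

theorem mm_cast {s : ℕ} {a b : Fin s → ℕ} (hab : ∀ i, 1 ≤ b i ∧ b i < a i) (x : Fin s × Fin s)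
    {h : ℕ} (hh : 1 ≤ h) : 0 < mm a b x h ∧
    (mm a b x h : ℤ) = ((a x.1 : ℤ) * b x.2 - a x.2 * b x.1) + (a x.1 * a x.2 : ℕ) * h := by
  have h1 : a x.2 * b x.1 < a x.1 * a x.2 * h + a x.1 * b x.2 := by
    calc a x.2 * b x.1 < a x.2 * a x.1 :=
          Nat.mul_lt_mul_of_pos_left (hab x.1).2 (by have := hab x.2; omega)
      _ = a x.1 * a x.2 * 1 := by ring
      _ ≤ a x.1 * a x.2 * h := Nat.mul_le_mul_left _ hh
      _ ≤ _ := Nat.le_add_right _ _
  unfold mm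
  refine ⟨by omega, ?_⟩
  rw [Nat.cast_sub h1.le]
  push_cast
  ring

theorem mm_le {s : ℕ} {a b : Fin s → ℕ} (hab : ∀ i, 1 ≤ b i ∧ b i < a i) (x : Fin s × Fin s)
    {h H : ℕ} (ha : ∀ i, a i ≤ H) (hh : h + 1 ≤ H) : mm a b x h ≤ H ^ 3 := by
  unfold mm
  calc a x.1 * a x.2 * h + a x.1 * b x.2 - a x.2 * b x.1 ≤ a x.1 * a x.2 * h + a x.1 * b x.2 :=
        Nat.sub_le _ _
    _ ≤ a x.1 * a x.2 * h + a x.1 * a x.2 := by
        have := Nat.mul_le_mul_left (a x.1) (hab x.2).2.le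
        omega
    _ = a x.1 * a x.2 * (h + 1) := by ring
    _ ≤ H * H * H := Nat.mul_le_mul (Nat.mul_le_mul (ha _) (ha _)) hh
    _ = H ^ 3 := by ring

theorem cf_FF {s : ℕ} {a b : Fin s → ℕ} (hab : ∀ i, 1 ≤ b i ∧ b i < a i) (hadm : Adm a b) {h p : ℕ}
    (hh : 1 ≤ h) (hp : p.Prime) (hcf : CF (FF a b) h p) :
    ∃ x : Fin s × Fin s, ¬ p ∣ a x.1 * a x.2 ∧ p ∣ mm a b x h := by
  obtain ⟨x, h1, h2⟩ := hcf
  rw [dvd_FF hp] at h1 h2
  obtain ⟨i, hi⟩ := h1
  obtain ⟨j, hj⟩ := h2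
  refine ⟨(i, j), ?_, ?_⟩
  · intro h3
    rcases (Nat.Prime.dvd_mul hp).1 h3 with h4 | h4
    · exact ndvd hadm hp hi (Int.natCast_dvd_natCast.2 h4)
    · exact ndvd hadm hp hj (Int.natCast_dvd_natCast.2 h4)
  · rw [← Int.natCast_dvd_natCast, (mm_cast hab (i, j) hh).2]
    have e1 : ((a i : ℤ) * b j - a j * b i) + (a i * a j : ℕ) * h =
        a i * (a j * (x + h) + b j) - a j * (a i * x + b i) := by
      push_cast
      ring
    simp only
    rw [e1]
    exact dvd_sub (hj.mul_left _) (hi.mul_left _)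

theorem sum_biU {ι : Type} [DecidableEq ι] (T : Finset ι) (f : ι → Finset ℕ) :
    ∑ p ∈ T.biUnion f, (1 : ℝ) / p ≤ ∑ x ∈ T, ∑ p ∈ f x, (1 : ℝ) / p := by
  induction T using Finset.induction_on with
  | empty => simp
  | insert x T hx ih =>
    rw [biUnion_insert, sum_insert hx]
    refine (Pool.Agent.K3h89.SX.sum_un _ _).trans ?_
    linarith

open Classical in
/-- for most `j` the sum of the reciprocals of the common prime factors of the forms at `x` and `x + W j`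
is small -/
theorem bad_FF (s B : ℕ) (ε : ℝ) (hε : 0 < ε) : ∃ H₀ : ℕ, ∀ H : ℕ, H₀ ≤ H →
    ∀ a b : Fin s → ℕ, (∀ i, 1 ≤ b i ∧ b i < a i) → Adm a b → (∀ i, a i ≤ H) →
    ∀ W N : ℕ, 1 ≤ W → (W : ℝ) ≤ Real.log H ^ B → Real.log H ^ 8 ≤ N → (N : ℝ) ≤ Real.log H ^ B →
    (∀ p : ℕ, p.Prime → (p : ℝ) ≤ Real.log N → p ∣ W) →
    (((Icc 1 N).filter (fun j : ℕ =>
      ε < ∑ p ∈ (PS W H).filter (fun p : ℕ => CF (FF a b) (W * j) p), (1 : ℝ) / p)).card : ℝ) ≤
      (N : ℝ) ^ (4 / 5 : ℝ) := by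
  obtain ⟨M, hM⟩ : ∃ M : ℝ, M = (s : ℝ) * s + 1 := ⟨_, rfl⟩
  have hM1 : 1 ≤ M := by
    rw [hM]
    have : (0 : ℝ) ≤ (s : ℝ) * s := by positivity
    linarith
  have hM0 : 0 < M := by linarith
  obtain ⟨ε₁, hε₁⟩ : ∃ ε₁ : ℝ, ε₁ = ε / (4 * M) := ⟨_, rfl⟩
  have hε₁0 : 0 < ε₁ := by rw [hε₁]; positivity
  obtain ⟨N₀, hMOM⟩ := Pool.Agent.K3h89.SX.mom ε₁ hε₁0
  have hlog : Filter.Tendsto (fun H : ℕ => Real.log H) Filter.atTop Filter.atTop :=
    Real.tendsto_log_atTop.comp tendsto_natCast_atTop_atTop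
  obtain ⟨H₀, hH₀⟩ := Filter.eventually_atTop.1 ((((hlog.eventually_ge_atTop (N₀ : ℝ)).and
    ((hlog.eventually_ge_atTop ((2 : ℝ) ^ 20)).and
      ((hlog.eventually_ge_atTop (6 / ε₁)).and (hlog.eventually_ge_atTop (M ^ 20))))).and
    (ev_log (2 * B) 2 1 one_pos)).and (Filter.eventually_ge_atTop (5 : ℕ)))
  refine ⟨H₀, ?_⟩
  intro H hH a b hab hadm haH W N hW hWB hlN hNB hpW
  obtain ⟨⟨⟨e2, e3, e4, e4'⟩, e5⟩, e6⟩ := hH₀ H hH
  obtain ⟨l, hl⟩ : ∃ l : ℝ, l = Real.log H := ⟨_, rfl⟩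
  rw [← hl] at e2 e3 e4 e4' e5 hWB hlN hNB
  have hl20 : (1048576 : ℝ) ≤ l := by norm_num at e3; linarith
  have hl0 : 0 < l := by linarith
  have hl1 : 1 ≤ l := by linarith
  have hN1 : l ≤ N := le_trans (le_self_pow₀ hl1 (by norm_num)) hlN
  have hN0 : (0 : ℝ) < N := by linarith
  have hNN₀ : N₀ ≤ N := by
    have : (N₀ : ℝ) ≤ N := e2.trans hN1
    exact_mod_cast this
  obtain ⟨z, hz⟩ : ∃ z : ℕ, z = Nat.sqrt (Nat.sqrt N) := ⟨_, rfl⟩
  have hz4 : z ^ 4 ≤ N := by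
    have h3 : z * z ≤ Nat.sqrt N := by rw [hz]; exact Nat.sqrt_le _
    have h4 : Nat.sqrt N * Nat.sqrt N ≤ N := Nat.sqrt_le _
    calc z ^ 4 = (z * z) * (z * z) := by ring
      _ ≤ Nat.sqrt N * Nat.sqrt N := Nat.mul_le_mul h3 h3
      _ ≤ N := h4
  have hz4' : N < (z + 1) ^ 4 := by
    have h3 : Nat.sqrt N < (z + 1) * (z + 1) := by rw [hz]; exact Nat.lt_succ_sqrt _
    have h4 : N < (Nat.sqrt N + 1) * (Nat.sqrt N + 1) := Nat.lt_succ_sqrt _
    calc N < (Nat.sqrt N + 1) * (Nat.sqrt N + 1) := h4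
      _ ≤ ((z + 1) * (z + 1)) * ((z + 1) * (z + 1)) := Nat.mul_le_mul h3 h3
      _ = (z + 1) ^ 4 := by ring
  have hzl : l ^ 2 / 2 ≤ z := by
    have h3 : l ^ 8 < ((z : ℝ) + 1) ^ 4 := lt_of_le_of_lt hlN (by exact_mod_cast hz4')
    have h4 : l ^ 2 < (z : ℝ) + 1 := by
      by_contra hcon
      push Not at hcon
      have h5 : ((z : ℝ) + 1) ^ 4 ≤ (l ^ 2) ^ 4 := pow_le_pow_left₀ (by positivity) hcon 4
      have h6 : (l ^ 2) ^ 4 = l ^ 8 := by ring
      linarith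
    nlinarith
  have hz3 : (3 : ℝ) ≤ z := by nlinarith
  have hz0 : (0 : ℝ) < z := by linarith
  have hlogz : 1 ≤ Real.log z := by
    rw [Real.le_log_iff_exp_le hz0]
    linarith [Real.exp_one_lt_d9]
  have hH0 : (0 : ℝ) < H := by exact_mod_cast (show 0 < H by omega)
  rw [Real.rpow_one] at e5
  -- the products
  have hWj : ∀ j : ℕ, j ≤ N → W * j + 1 ≤ H := by
    intro j hj
    have h3 : (j : ℝ) ≤ l ^ B := le_trans (by exact_mod_cast hj) hNB
    have h4 : (W : ℝ) * j ≤ l ^ (2 * B) := by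
      calc (W : ℝ) * j ≤ l ^ B * l ^ B := by gcongr
        _ = l ^ (2 * B) := by rw [← pow_add, two_mul]
    have h6 : (1 : ℝ) ≤ l ^ (2 * B) := one_le_pow₀ hl1
    have h5 : ((W : ℝ) * j + 1) ≤ H := by linarith
    exact_mod_cast h5
  have hlogm : ∀ m : ℕ, m ≤ H ^ 3 → Real.log m ≤ 3 * l := by
    intro m hm
    rcases Nat.eq_zero_or_pos m with rfl | hm0
    · simp
      linarith
    · have h3 : Real.log m ≤ Real.log ((H : ℝ) ^ 3) :=
        Real.log_le_log (by exact_mod_cast hm0) (by exact_mod_cast hm)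
      rw [Real.log_pow, ← hl] at h3
      exact_mod_cast h3
  have hbig : 3 * l / (z * Real.log z) ≤ ε₁ := by
    have h3 : l ^ 2 / 2 ≤ z * Real.log z := by nlinarith
    have h4 : 6 ≤ ε₁ * l := by
      rw [div_le_iff₀ hε₁0] at e4
      linarith
    rw [div_le_iff₀ (by positivity)]
    calc 3 * l ≤ ε₁ * (l ^ 2 / 2) := by nlinarith
      _ ≤ ε₁ * (z * Real.log z) := by gcongr
  obtain ⟨bad, hbad⟩ : ∃ bad : Fin s × Fin s → Finset ℕ, bad = fun x =>
    (Icc 1 N).filter (fun k : ℕ => ε₁ < ∑ p ∈ (Icc 1 z).filter (fun p : ℕ =>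
      p.Prime ∧ Real.log N < p ∧ ¬ p ∣ W * (a x.1 * a x.2) ∧
        (p : ℤ) ∣ ((a x.1 : ℤ) * b x.2 - a x.2 * b x.1) + (W * (a x.1 * a x.2) : ℕ) * k),
      (1 : ℝ) / p) := ⟨_, rfl⟩
  have hcb : ∀ x, ((bad x).card : ℝ) ≤ (N : ℝ) ^ (3 / 4 : ℝ) := by
    intro x
    rw [hbad]
    convert hMOM ((a x.1 : ℤ) * b x.2 - a x.2 * b x.1) (W * (a x.1 * a x.2)) N z hNN₀ hz4
  have hsub : (Icc 1 N).filter (fun j : ℕ =>
      ε < ∑ p ∈ (PS W H).filter (fun p : ℕ => CF (FF a b) (W * j) p), (1 : ℝ) / p) ⊆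
      (univ : Finset (Fin s × Fin s)).biUnion bad := by
    intro j hj
    rw [mem_filter] at hj
    obtain ⟨hjN, hjε⟩ := hj
    by_contra hcon
    rw [mem_biUnion] at hcon
    push Not at hcon
    have hg : ∀ x : Fin s × Fin s, ∑ p ∈ (Icc 1 z).filter (fun p : ℕ =>
      p.Prime ∧ Real.log N < p ∧ ¬ p ∣ W * (a x.1 * a x.2) ∧
        (p : ℤ) ∣ ((a x.1 : ℤ) * b x.2 - a x.2 * b x.1) + (W * (a x.1 * a x.2) : ℕ) * j),
      (1 : ℝ) / p ≤ ε₁ := by
      intro x
      have h1 := hcon x (mem_univ _)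
      rw [hbad] at h1
      simp only [mem_filter, not_and, not_lt] at h1
      exact h1 hjN
    rw [mem_Icc] at hjN
    have hWjH := hWj j hjN.2
    have hWj1 : 1 ≤ W * j := Nat.mul_pos (by omega) (by omega)
    set S0 := (PS W H).filter (fun p : ℕ => CF (FF a b) (W * j) p) with hS0
    have hS0p : ∀ p ∈ S0, p.Prime ∧ ¬ p ∣ W ∧ Real.log N < p := by
      intro p hp
      rw [hS0, mem_filter] at hp
      have hp1 := hp.1
      unfold PS at hp1
      rw [mem_filter] at hp1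
      refine ⟨hp1.2.1, hp1.2.2, ?_⟩
      by_contra h3
      push Not at h3
      exact hp1.2.2 (hpW p hp1.2.1 h3)
    obtain ⟨T, hT⟩ : ∃ T : Fin s × Fin s → Finset ℕ, T = fun x =>
      ((Icc 1 z).filter (fun p : ℕ =>
      p.Prime ∧ Real.log N < p ∧ ¬ p ∣ W * (a x.1 * a x.2) ∧
        (p : ℤ) ∣ ((a x.1 : ℤ) * b x.2 - a x.2 * b x.1) + (W * (a x.1 * a x.2) : ℕ) * j)) ∪
      (S0.filter (fun p => z < p ∧ p ∣ mm a b x (W * j))) := ⟨_, rfl⟩
    have hcov : S0 ⊆ (univ : Finset (Fin s × Fin s)).biUnion T := by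
      intro p hp
      obtain ⟨q1, q2, q3⟩ := hS0p p hp
      have hCF : CF (FF a b) (W * j) p := by
        have hp' := hp
        rw [hS0, mem_filter] at hp'
        exact hp'.2
      obtain ⟨x, hx1, hx2⟩ := cf_FF hab hadm hWj1 q1 hCF
      rw [mem_biUnion]
      refine ⟨x, mem_univ _, ?_⟩
      rw [hT]
      simp only [mem_union, mem_filter, mem_Icc]
      by_cases hpz : p ≤ z
      · left
        refine ⟨⟨q1.one_lt.le, hpz⟩, q1, q3, ?_, ?_⟩
        · intro h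
          rcases (Nat.Prime.dvd_mul q1).1 h with h4 | h4
          · exact q2 h4
          · exact hx1 h4
        · rw [← Int.natCast_dvd_natCast, (mm_cast hab x hWj1).2] at hx2
          refine hx2.trans (dvd_of_eq ?_)
          push_cast
          ring
      · right
        exact ⟨hp, by omega, hx2⟩
    have hTx : ∀ x, ∑ p ∈ T x, (1 : ℝ) / p ≤ 2 * ε₁ := by
      intro x
      rw [hT]
      refine (Pool.Agent.K3h89.SX.sum_un _ _).trans ?_
      have h1 := hg x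
      have h2 : ∑ p ∈ S0.filter (fun p => z < p ∧ p ∣ mm a b x (W * j)), (1 : ℝ) / p ≤ ε₁ := by
        refine (big_primes _ (mm a b x (W * j)) (mm_cast hab x hWj1).1.ne' z (3 * l) (by linarith) ?_
          (hlogm _ (mm_le hab x haH hWjH))).trans hbig
        intro p hp
        rw [mem_filter] at hp
        exact ⟨(hS0p p hp.1).1, hp.2.2, by exact_mod_cast hp.2.1.le⟩
      linarith
    have h6 : ∑ p ∈ S0, (1 : ℝ) / p ≤ ∑ p ∈ (univ : Finset (Fin s × Fin s)).biUnion T, (1 : ℝ) / p :=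
      sum_le_sum_of_subset_of_nonneg hcov fun _ _ _ => by positivity
    have h7 := sum_biU (univ : Finset (Fin s × Fin s)) T
    have h8 : ∑ x : Fin s × Fin s, ∑ p ∈ T x, (1 : ℝ) / p ≤ ∑ _x : Fin s × Fin s, 2 * ε₁ :=
      sum_le_sum fun x _ => hTx x
    rw [sum_const, card_univ, Fintype.card_prod, Fintype.card_fin, nsmul_eq_mul] at h8
    push_cast at h8
    have h9 : (s : ℝ) * s * (2 * ε₁) ≤ ε / 2 := by
      have h10 : (s : ℝ) * s ≤ M := by rw [hM]; linarith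
      calc (s : ℝ) * s * (2 * ε₁) ≤ M * (2 * ε₁) :=
            mul_le_mul_of_nonneg_right h10 (by positivity)
        _ = ε / 2 := by
          rw [hε₁]
          field_simp
          ring
    linarith
  have h3 : (((Icc 1 N).filter (fun j : ℕ =>
      ε < ∑ p ∈ (PS W H).filter (fun p : ℕ => CF (FF a b) (W * j) p), (1 : ℝ) / p)).card : ℝ) ≤
      ∑ x : Fin s × Fin s, ((bad x).card : ℝ) := by
    exact_mod_cast (card_le_card hsub).trans card_biUnion_le
  have h4 : ∑ x : Fin s × Fin s, ((bad x).card : ℝ) ≤ M * (N : ℝ) ^ (3 / 4 : ℝ) := by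
    refine (sum_le_sum fun x _ => hcb x).trans ?_
    rw [sum_const, card_univ, Fintype.card_prod, Fintype.card_fin, nsmul_eq_mul]
    push_cast
    apply mul_le_mul_of_nonneg_right _ (by positivity)
    rw [hM]
    linarith
  have h5 : M * (N : ℝ) ^ (3 / 4 : ℝ) ≤ (N : ℝ) ^ (4 / 5 : ℝ) := by
    have h5 : (N : ℝ) ^ (4 / 5 : ℝ) = (N : ℝ) ^ (1 / 20 : ℝ) * (N : ℝ) ^ (3 / 4 : ℝ) := by
      rw [← Real.rpow_add hN0]
      norm_num
    have h6 : M ≤ (N : ℝ) ^ (1 / 20 : ℝ) := by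
      have h7 : (M ^ 20) ^ (1 / 20 : ℝ) ≤ (N : ℝ) ^ (1 / 20 : ℝ) :=
        Real.rpow_le_rpow (by positivity) (e4'.trans hN1) (by norm_num)
      rw [← Real.rpow_natCast, ← Real.rpow_mul hM0.le] at h7
      norm_num at h7
      linarith
    rw [h5]
    gcongr
  exact h3.trans (h4.trans h5)

end Run7.h296.SL
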