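import Pool.Agent.Run7.h296.S4

/-!
Szemerédi's theorem for sets of integers at which linear forms are free of small primes, uniformly in the
coefficients.
-/

set_option autoImplicit false

open Finset Filter

namespace Run7.h296.SL

open Pool.Agent.TH423.SH (PS)
open Pool.Agent.K3h89.SZ (SysP CF strip)
open Pool.Agent.Y677.RSZ (rt V ev_log)
open Pool.Agent.K3h89.SX (big_primes)

open Classical in
/-- the common prime factors of large size -/
theorem lar_FF (s B : ℕ) (η : ℝ) (hη : 0 < η) : ∃ H₀ : ℕ, ∀ H : ℕ, H₀ ≤ H →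
    ∀ a b : Fin s → ℕ, (∀ i, 1 ≤ b i ∧ b i < a i) → Adm a b → (∀ i, a i ≤ H) →
    ∑ p ∈ (Icc 1 H).filter (fun p : ℕ => p.Prime ∧ Real.exp (√(Real.log H)) ≤ p ∧
      ∃ h : ℕ, 1 ≤ h ∧ (h : ℝ) ≤ Real.log H ^ B ∧ CF (FF a b) h p), (1 : ℝ) / p ≤ η := by
  have hcast : Tendsto (fun H : ℕ => (H : ℝ)) atTop atTop := tendsto_natCast_atTop_atTop
  have hlog : Tendsto (fun H : ℕ => Real.log (H : ℝ)) atTop atTop :=
    Real.tendsto_log_atTop.comp hcast
  have hsq : Tendsto (fun H : ℕ => √(Real.log (H : ℝ))) atTop atTop :=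
    Real.tendsto_sqrt_atTop.comp hlog
  obtain ⟨M, hM⟩ : ∃ M : ℝ, M = (s : ℝ) * s + 1 := ⟨_, rfl⟩
  have hM1 : 1 ≤ M := by
    rw [hM]
    have : (0 : ℝ) ≤ (s : ℝ) * s := by positivity
    linarith
  have hM0 : 0 < M := by linarith
  have e2 : ∀ᶠ H : ℕ in atTop,
      √(Real.log (H : ℝ)) ^ (2 * B + 2) * Real.exp (-√(Real.log (H : ℝ))) < η / (3 * M) := by
    have h1 := (Real.tendsto_pow_mul_exp_neg_atTop_nhds_zero (2 * B + 2)).comp hsq
    exact h1.eventually (gt_mem_nhds (by positivity))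
  obtain ⟨H₀, hH₀⟩ := eventually_atTop.1 (((ev_log B 2 1 one_pos).and (e2.and
    (hlog.eventually_ge_atTop 4))).and (eventually_ge_atTop 20))
  refine ⟨H₀, fun H hH a b hab hadm haH => ?_⟩
  obtain ⟨⟨f1, f2, f3⟩, f4⟩ := hH₀ H hH
  rw [Real.rpow_one] at f1
  obtain ⟨L, hL⟩ : ∃ L : ℝ, L = Real.log (H : ℝ) := ⟨_, rfl⟩
  rw [← hL] at f1 f2 f3 ⊢
  have hL0 : 0 ≤ L := by linarith
  obtain ⟨E, hE⟩ : ∃ E : ℝ, E = Real.exp (√L) := ⟨_, rfl⟩
  rw [← hE]
  have hu2 : 2 ≤ √L := by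
    apply Real.le_sqrt_of_sq_le
    linarith
  have hE1 : 1 < E := by
    rw [hE, Real.one_lt_exp_iff]
    linarith
  have hE0 : 0 < E := by linarith
  have hlogE : Real.log E = √L := by rw [hE, Real.log_exp]
  obtain ⟨T, hT⟩ : ∃ T : ℕ × (Fin s × Fin s) → Finset ℕ, T = fun x =>
    (Icc 1 H).filter (fun p : ℕ => p.Prime ∧ E ≤ p ∧ p ∣ mm a b x.2 x.1) := ⟨_, rfl⟩
  have hhH : ∀ h : ℕ, (h : ℝ) ≤ L ^ B → h + 1 ≤ H := by
    intro h hh
    have h1 : (1 : ℝ) ≤ L ^ B := one_le_pow₀ (by linarith)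
    have h2 : (h : ℝ) + 1 ≤ H := by linarith
    exact_mod_cast h2
  have hsub : ((Icc 1 H).filter (fun p : ℕ => p.Prime ∧ E ≤ p ∧
      ∃ h : ℕ, 1 ≤ h ∧ (h : ℝ) ≤ L ^ B ∧ CF (FF a b) h p)) ⊆
      ((Icc 1 ⌊L ^ B⌋₊) ×ˢ (univ : Finset (Fin s × Fin s))).biUnion T := by
    intro p hp
    obtain ⟨hp1, hp2, hp3, h, hh1, hh2, hh3⟩ := Finset.mem_filter.1 hp
    obtain ⟨x, hx1, hx2⟩ := cf_FF hab hadm hh1 hp2 hh3
    rw [mem_biUnion]
    refine ⟨(h, x), ?_, ?_⟩
    · rw [mem_product, mem_Icc]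
      exact ⟨⟨hh1, Nat.le_floor hh2⟩, mem_univ _⟩
    · rw [hT]
      exact mem_filter.2 ⟨hp1, hp2, hp3, hx2⟩
  have hTx : ∀ x ∈ (Icc 1 ⌊L ^ B⌋₊) ×ˢ (univ : Finset (Fin s × Fin s)),
      ∑ p ∈ T x, (1 : ℝ) / p ≤ 3 * L / (E * √L) := by
    intro x hx
    rw [mem_product, mem_Icc] at hx
    have hxL : (x.1 : ℝ) ≤ L ^ B := (Nat.le_floor_iff (by positivity)).1 hx.1.2
    have h1 := (mm_cast hab x.2 hx.1.1).1
    have h2 := mm_le hab x.2 haH (hhH x.1 hxL)
    have h3 : Real.log (mm a b x.2 x.1) ≤ 3 * L := by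
      have h3 : Real.log (mm a b x.2 x.1) ≤ Real.log ((H : ℝ) ^ 3) :=
        Real.log_le_log (by exact_mod_cast h1) (by exact_mod_cast h2)
      rw [Real.log_pow, ← hL] at h3
      exact_mod_cast h3
    have h4 := big_primes (T x) (mm a b x.2 x.1) h1.ne' E (3 * L) hE1 (by
      intro p hp
      rw [hT] at hp
      obtain ⟨-, q1, q2, q3⟩ := mem_filter.1 hp
      exact ⟨q1, q3, q2⟩) h3
    rwa [hlogE] at h4
  have h6 : ∑ p ∈ (Icc 1 H).filter (fun p : ℕ => p.Prime ∧ E ≤ p ∧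
      ∃ h : ℕ, 1 ≤ h ∧ (h : ℝ) ≤ L ^ B ∧ CF (FF a b) h p), (1 : ℝ) / p ≤
      ∑ p ∈ ((Icc 1 ⌊L ^ B⌋₊) ×ˢ (univ : Finset (Fin s × Fin s))).biUnion T, (1 : ℝ) / p :=
    sum_le_sum_of_subset_of_nonneg hsub fun _ _ _ => by positivity
  have h7 := sum_biU ((Icc 1 ⌊L ^ B⌋₊) ×ˢ (univ : Finset (Fin s × Fin s))) T
  have h8 := sum_le_sum hTx
  rw [sum_const, card_product, card_univ, Fintype.card_prod, Fintype.card_fin, Nat.card_Icc,
    nsmul_eq_mul] at h8
  have h9 : ((((⌊L ^ B⌋₊ + 1 - 1) * (s * s) : ℕ)) : ℝ) ≤ L ^ B * M := by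
    rw [Nat.add_sub_cancel]
    push_cast
    have h10 : ((⌊L ^ B⌋₊ : ℕ) : ℝ) ≤ L ^ B := Nat.floor_le (by positivity)
    have h11 : (s : ℝ) * s ≤ M := by rw [hM]; linarith
    exact mul_le_mul h10 h11 (by positivity) (by positivity)
  have h10 : 0 ≤ 3 * L / (E * √L) := by positivity
  have h11 : L ^ B * M * (3 * L / (E * √L)) ≤ η := by
    have hLs : L = √L ^ 2 := (Real.sq_sqrt hL0).symm
    have hEi : Real.exp (-√L) = 1 / E := by rw [hE, Real.exp_neg, one_div]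
    rw [hEi] at f2
    obtain ⟨u, hu⟩ : ∃ u : ℝ, u = √L := ⟨_, rfl⟩
    rw [← hu] at hLs f2 hu2 ⊢
    rw [hLs, ← pow_mul]
    have hu0 : 0 < u := by linarith
    calc u ^ (2 * B) * M * (3 * u ^ 2 / (E * u)) = 3 * M * (u ^ (2 * B + 1) * (1 / E)) := by
          field_simp
          ring
      _ ≤ 3 * M * (u ^ (2 * B + 2) * (1 / E)) := by
          apply mul_le_mul_of_nonneg_left _ (by positivity)
          apply mul_le_mul_of_nonneg_right _ (by positivity)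
          exact pow_le_pow_right₀ (by linarith) (by omega)
      _ ≤ 3 * M * (η / (3 * M)) := mul_le_mul_of_nonneg_left f2.le (by positivity)
      _ = η := by field_simp
  calc _ ≤ _ := h6
    _ ≤ _ := h7
    _ ≤ _ := h8
    _ ≤ L ^ B * M * (3 * L / (E * √L)) := mul_le_mul_of_nonneg_right h9 h10
    _ ≤ η := h11

open Classical in
/-- **Szemerédi's theorem for sets of integers at which linear forms are free of small primes** -/
theorem lin_ap (s ℓ : ℕ) (δ κ : ℝ) (hδ : 0 < δ) (hκ : 0 < κ) : ∃ B H₀ : ℕ,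
    ∀ (a b : Fin s → ℕ) (Y H : ℕ) (A : Finset ℕ), (∀ i, 1 ≤ b i ∧ b i < a i) → Adm a b →
    (∀ i, a i ≤ H) → Y ≤ H → H₀ ≤ H → A ⊆ Ioc Y (Y + H) →
    (∀ n ∈ A, ∀ i, ∀ p : ℕ, p.Prime → (p : ℝ) ≤ (H : ℝ) ^ δ → ¬ p ∣ a i * n + b i) →
    κ * (H * V (FF a b) 1 H) ≤ A.card →
    ∃ n d : ℕ, 1 ≤ d ∧ (d : ℝ) ≤ Real.log H ^ B ∧ ∀ j < ℓ, n + j * d ∈ A := by
  obtain ⟨ε, hε, B, H₂, hE⟩ := Pool.Agent.K3h89.SX.engX_all (max ℓ 2) (4 * s) δ (κ / 2)
    (le_max_right _ _) hδ (by positivity)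
  obtain ⟨H₃, hX⟩ := bad_FF s B ε hε
  obtain ⟨H₄, hLar⟩ := lar_FF s B (1 / (4 * ((4 * s : ℕ) + 1))) (by positivity)
  have hcast : Tendsto (fun H : ℕ => (H : ℝ)) atTop atTop := tendsto_natCast_atTop_atTop
  have hlog : Tendsto (fun H : ℕ => Real.log (H : ℝ)) atTop atTop :=
    Real.tendsto_log_atTop.comp hcast
  have hsq : Tendsto (fun H : ℕ => √(Real.log (H : ℝ))) atTop atTop :=
    Real.tendsto_sqrt_atTop.comp hlog
  obtain ⟨H₅, hH₅⟩ := eventually_atTop.1 (hsq.eventually_ge_atTop (2 * ((4 * s : ℕ) + 1) : ℝ))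
  refine ⟨B, H₂ + H₃ + H₄ + H₅ + 3, fun a b Y H A hab hadm haH hYH hH hA hArgh hAd => ?_⟩
  have hH3 : 3 ≤ H := by omega
  -- the stripped function
  obtain ⟨bad, hbd⟩ : ∃ bad : ℕ → Prop, bad = fun p : ℕ => Real.exp (√(Real.log H)) ≤ p ∧
    ∃ h : ℕ, 1 ≤ h ∧ (h : ℝ) ≤ Real.log H ^ B ∧ CF (FF a b) h p := ⟨_, rfl⟩
  obtain ⟨F, hF⟩ : ∃ F : ℤ → ℤ, F = strip (FF a b) H bad := ⟨_, rfl⟩
  obtain ⟨s1, s2, s3, s4⟩ := Pool.Agent.K3h89.SZ.stripP (4 * s) (FF a b) H bad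
    (sysP_FF hadm (by omega))
  rw [← hF] at s1 s2 s3 s4
  have hCF : ∀ h p : ℕ, p.Prime → CF F h p → CF (FF a b) h p ∧ ¬ bad p := by
    rintro h p hp ⟨x, hx, hx'⟩
    have g1 := (s2 x p hp).1 hx
    have g2 := (s2 (x + h) p hp).1 hx'
    exact ⟨⟨x, g1.2.2, g2.2.2⟩, g1.2.1⟩
  have hVb : V F 1 H ≤ 2 * V (FF a b) 1 H := by
    apply s4
    · have h1 := hLar H (by omega) a b hab hadm haH
      refine le_trans (le_of_eq ?_) h1
      apply sum_congr _ (fun _ _ => rfl)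
      ext p
      simp only [mem_filter, hbd]
    · intro p hp hbp
      rw [hbd] at hbp
      have h1 := hH₅ H (by omega)
      have h2 := Real.add_one_le_exp (√(Real.log H))
      have h3 : (2 * ((4 * s : ℕ) + 1) : ℝ) ≤ p := by linarith [hbp.1]
      exact_mod_cast h3
  obtain ⟨n, d, hd1, hd2, hAP⟩ := hE F Y H A s1 (by omega)
    (by
      intro x hx
      rw [mem_Ioc] at hx
      have hx1 : 1 ≤ x := by omega
      have hpos : ∀ i, (0 : ℤ) < (a i : ℤ) * x + b i := by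
        intro i
        have h1 := hab i
        have h2 : (0 : ℤ) < b i := by exact_mod_cast h1.1
        positivity
      have hne : FF a b (x : ℤ) ≠ 0 := by
        unfold FF
        exact prod_ne_zero_iff.2 fun i _ => (hpos i).ne'
      obtain ⟨g1, g2⟩ := s3 x hne
      refine ⟨g1, g2.trans ?_⟩
      unfold FF
      rw [abs_prod]
      calc ∏ i, |(a i : ℤ) * x + b i| ≤ ∏ _i : Fin s, (H : ℤ) ^ 4 := by
            apply Finset.prod_le_prod
            · intro i _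
              exact abs_nonneg _
            · intro i _
              rw [abs_of_pos (hpos i)]
              have h1 : a i * x + b i ≤ H ^ 4 := by
                have h2 := (hab i).2.le.trans (haH i)
                calc a i * x + b i ≤ H * (2 * H) + H * H := by
                      apply add_le_add
                      · exact Nat.mul_le_mul (haH i) (by omega)
                      · nlinarith
                  _ = 3 * (H * H) := by ring
                  _ ≤ (H * H) * (H * H) := Nat.mul_le_mul_right _ (by nlinarith)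
                  _ = H ^ 4 := by ring
              exact_mod_cast h1
        _ = (H : ℤ) ^ (4 * s) := by
            rw [prod_const, card_univ, Fintype.card_fin, pow_mul])
    (by
      intro W N hW1 hW2 hN1 hN2 hWp
      refine le_trans ?_ (hX H (by omega) a b hab hadm haH W N hW1 hW2 hN1 hN2 hWp)
      rw [Nat.cast_le]
      apply card_le_card
      intro j hj
      rw [mem_filter] at hj ⊢
      refine ⟨hj.1, lt_of_lt_of_le hj.2 ?_⟩
      apply sum_le_sum_of_subset_of_nonneg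
      · intro p hp
        rw [mem_filter] at hp ⊢
        have hp1 := hp.1
        unfold PS at hp1
        rw [mem_filter] at hp1
        exact ⟨hp.1, (hCF _ p hp1.2.1 hp.2).1⟩
      · intro p _ _
        positivity)
    (by
      intro h hh1 hh2 p hp hpe hcf
      obtain ⟨g1, g2⟩ := hCF h p hp hcf
      apply g2
      rw [hbd]
      exact ⟨hpe, h, hh1, hh2, g1⟩)
    hA
    (by
      intro x hx q hq hqH hqd
      have g1 := ((s2 x q hq).1 hqd).2.2
      rw [dvd_FF hq] at g1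
      obtain ⟨i, hi⟩ := g1
      apply hArgh x hx i q hq hqH
      exact_mod_cast hi)
    (by
      refine le_trans ?_ hAd
      have hH0 : (0 : ℝ) ≤ H := Nat.cast_nonneg H
      calc κ / 2 * (H * V F 1 H) ≤ κ / 2 * (H * (2 * V (FF a b) 1 H)) := by gcongr
        _ = _ := by ring)
  exact ⟨n, d, hd1, hd2, fun j hj => hAP j (lt_of_lt_of_le hj (le_max_left _ _))⟩

end Run7.h296.SL
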