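import Pool.Agent.Run7.h296.S5
import Pool.Agent.Run7.h296.Fi

/-!
The systems of an admissible set of forms, for all residues, and the number of the residues.
-/

set_option autoImplicit false

open Finset

namespace Run7.h296

open Run7.h296.SL (FF Adm dvd_FF sysP_FF)
open Pool.Agent.Y677.RSZ (rt V)

/-- **the systems of an admissible set of forms, with padding** -/
theorem redA {K k D₂ P : ℕ} (a b : Fin K → ℕ) (hab : ∀ i, 1 ≤ b i ∧ b i < a i)
    (hinj : Function.Injective (fun i => (a i, b i))) (hadm : Adm a b)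
    (hP0 : P ≠ 0) (haP : ∀ i, a i ∣ P) (ι : Fin K ↪ Fin (2 ^ k))
    (hkD : 2 ^ k ≤ D₂) (hkW : 2 ^ k ≤ WW D₂ P) (hD2 : 2 ≤ D₂) :
    ∃ α β : Fin (2 ^ k) → ℕ, (∀ i, α (ι i) = a i ∧ β (ι i) = b i) ∧
      (∀ t, 1 ≤ β t ∧ β t < α t) ∧ Adm α β ∧ (∀ t, α t ≤ P * WW D₂ P ^ 2) ∧
      NuS a b (WW D₂ P) = NuS α β (WW D₂ P) ∧
      ∀ Jn e D₁ : ℕ, D₁ ≤ D₂ → D₂.factorial ^ 8 ≤ 2 ^ 2 ^ Jn → P ^ 12 ≤ 2 ^ 2 ^ Jn →
        D₂ < 2 ^ 2 ^ Jn → ∀ ν ∈ NuS α β (WW D₂ P),
        Sys k Jn e (WW D₂ P) D₁ (fun t : Fin (2 ^ k) => α t * WW D₂ P)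
          (fun t : Fin (2 ^ k) => α t * ν + β t) := by
  classical
  have hP1 : 1 ≤ P := Nat.pos_of_ne_zero hP0
  have haP' : ∀ i, a i ≤ P := fun i => Nat.le_of_dvd (Nat.pos_of_ne_zero hP0) (haP i)
  have hWW0 := WW_pos (D₁ := D₂) hP0
  have hWle := WW_le (D₁ := D₂) hP0
  have hW2 : 2 ∣ WW D₂ P := (prime_dvd_WW hP0 Nat.prime_two).2 (Or.inl hD2)
  obtain ⟨W, hW⟩ : ∃ W : ℕ, W = WW D₂ P := ⟨_, rfl⟩
  rw [← hW] at hWW0 hkW hWle hW2
  have hW2' : 2 ≤ W := Nat.le_of_dvd hWW0 hW2
  have hdW : ∀ p : ℕ, p.Prime → p ∣ P → p ∣ W := fun p hp h => by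
    rw [hW]
    exact (prime_dvd_WW hP0 hp).2 (Or.inr h)
  have hprim : ∀ i, (a i).Coprime (b i) := prim_of a b hadm
  have hPPW : P ≤ P * W ^ 2 := Nat.le_mul_of_pos_right _ (by positivity)
  have hWPW : W ≤ P * W ^ 2 := by
    calc W = 1 * W := (one_mul W).symm
      _ ≤ (P * W) * W := Nat.mul_le_mul_right _ (Nat.mul_pos hP1 hWW0)
      _ = _ := by ring
  obtain ⟨α, hα⟩ : ∃ α : Fin (2 ^ k) → ℕ, α = Function.extend ι a (fun _ => P * W ^ 2) := ⟨_, rfl⟩
  obtain ⟨β, hβ⟩ : ∃ β : Fin (2 ^ k) → ℕ, β = Function.extend ι b (fun t => 1 + t * W) := ⟨_, rfl⟩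
  have α1 : ∀ i, α (ι i) = a i := fun i => by
    rw [hα]
    exact ι.injective.extend_apply _ _ _
  have β1 : ∀ i, β (ι i) = b i := fun i => by
    rw [hβ]
    exact ι.injective.extend_apply _ _ _
  have α2 : ∀ t, (¬ ∃ i, ι i = t) → α t = P * W ^ 2 := fun t ht => by
    rw [hα]
    exact Function.extend_apply' _ _ _ ht
  have β2 : ∀ t, (¬ ∃ i, ι i = t) → β t = 1 + t * W := fun t ht => by
    rw [hβ]
    exact Function.extend_apply' _ _ _ ht
  have hαP : ∀ t, α t ≤ P * W ^ 2 := by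
    intro t
    by_cases h : ∃ i, ι i = t
    · obtain ⟨i, rfl⟩ := h
      rw [α1]
      exact (haP' _).trans hPPW
    · rw [α2 t h]
  have hPlt : P < P * W ^ 2 := by
    calc P = P * 1 := (mul_one P).symm
      _ < P * W ^ 2 := Nat.mul_lt_mul_of_pos_left (by nlinarith) (by omega)
  have hβα : ∀ t, 1 ≤ β t ∧ β t < α t := by
    intro t
    by_cases h : ∃ i, ι i = t
    · obtain ⟨i, rfl⟩ := h
      rw [α1, β1]
      exact hab _
    · rw [α2 t h, β2 t h]
      refine ⟨by omega, ?_⟩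
      have h1 : (t : ℕ) + 1 ≤ W := by
        have := t.2
        omega
      calc 1 + t * W < W + t * W := by omega
        _ = (t + 1) * W := by ring
        _ ≤ W * W := Nat.mul_le_mul_right _ h1
        _ = 1 * W ^ 2 := by ring
        _ ≤ P * W ^ 2 := Nat.mul_le_mul_right _ hP1
  have hαprim : ∀ t, (α t).Coprime (β t) := by
    intro t
    by_cases h : ∃ i, ι i = t
    · obtain ⟨i, rfl⟩ := h
      rw [α1, β1]
      exact hprim _
    · rw [α2 t h, β2 t h]
      apply Nat.coprime_of_dvd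
      intro p hp h1 h2
      have h3 : p ∣ W := by
        rcases (Nat.Prime.dvd_mul hp).1 h1 with h4 | h4
        · exact hdW p hp h4
        · exact hp.dvd_of_dvd_pow h4
      have h4 : p ∣ 1 := (Nat.dvd_add_left (h3.mul_left _)).1 h2
      exact hp.one_lt.ne' (Nat.dvd_one.1 h4)
  have hαW : ∀ t, ∀ p : ℕ, p.Prime → p ∣ α t → p ∣ W := by
    intro t p hp hpt
    by_cases h : ∃ i, ι i = t
    · obtain ⟨i, rfl⟩ := h
      rw [α1] at hpt
      exact hdW p hp (hpt.trans (haP _))
    · rw [α2 t h] at hpt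
      rcases (Nat.Prime.dvd_mul hp).1 hpt with h4 | h4
      · exact hdW p hp h4
      · exact hp.dvd_of_dvd_pow h4
  have hνdum : ∀ ν t, (¬ ∃ i, ι i = t) → (α t * ν + β t).Coprime W := by
    intro ν t h
    rw [α2 t h, β2 t h]
    apply Nat.coprime_of_dvd
    intro p hp h1 h2
    have h3 : P * W ^ 2 * ν + (1 + t * W) = W * (P * W * ν + t) + 1 := by ring
    rw [h3] at h1
    have h4 : p ∣ 1 := (Nat.dvd_add_right (h2.mul_right _)).1 h1
    exact hp.one_lt.ne' (Nat.dvd_one.1 h4)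
  have hNu : NuS a b W = NuS α β W := by
    ext ν
    rw [mem_NuS, mem_NuS]
    apply and_congr_right
    intro _
    constructor
    · intro h t
      by_cases ht : ∃ i, ι i = t
      · obtain ⟨i, rfl⟩ := ht
        rw [α1, β1]
        exact h i
      · exact hνdum ν t ht
    · intro h i
      have := h (ι i)
      rwa [α1, β1] at this
  refine ⟨α, β, fun i => ⟨α1 i, β1 i⟩, hβα, ?_, ?_, ?_, ?_⟩
  · -- admissibility
    intro p hp
    by_cases hpW : p ∣ W
    · obtain ⟨n, hn⟩ := hadm p hp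
      refine ⟨n, fun t hd => ?_⟩
      by_cases ht : ∃ i, ι i = t
      · obtain ⟨i, rfl⟩ := ht
        rw [α1, β1] at hd
        exact hn i hd
      · rw [α2 t ht, β2 t ht] at hd
        have hpW' : (p : ℤ) ∣ (W : ℤ) := Int.natCast_dvd_natCast.2 hpW
        have h3 : ((P * W ^ 2 : ℕ) : ℤ) * n + ((1 + t * W : ℕ) : ℤ) = W * (P * W * n + t) + 1 := by
          push_cast
          ring
        rw [h3] at hd
        have h4 : (p : ℤ) ∣ 1 := (dvd_add_right (hpW'.mul_right _)).1 hd
        exact hp.one_lt.ne' (Nat.dvd_one.1 (Int.natCast_dvd_natCast.1 (by exact_mod_cast h4)))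
    · have hpD : 2 ^ k < p := by
        by_contra hcon
        apply hpW
        rw [hW]
        exact (prime_dvd_WW hP0 hp).2 (Or.inl (by omega))
      by_contra hcon
      push Not at hcon
      have h1 : ∀ r ∈ range p, ∃ t, (p : ℤ) ∣ (α t : ℤ) * (r : ℤ) + β t := fun r _ => hcon r
      haveI : Nonempty (Fin (2 ^ k)) := ⟨⟨0, by positivity⟩⟩
      choose! f hf using h1
      have h2 : (range p).card ≤ (univ : Finset (Fin (2 ^ k))).card := by
        apply card_le_card_of_injOn f (fun _ _ => mem_coe.2 (mem_univ _))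
        intro t ht t' ht' hft
        have e1 := hf t (mem_coe.1 ht)
        have e2 := hf t' (mem_coe.1 ht')
        rw [← hft] at e2
        have e3 : ¬ (p : ℤ) ∣ α (f t) := by
          intro h
          exact hpW (hαW _ p hp (Int.natCast_dvd_natCast.1 h))
        have e4 : (p : ℤ) ∣ (α (f t) : ℤ) * ((t : ℤ) - t') := by
          have e5 : (α (f t) : ℤ) * ((t : ℤ) - t') =
              (α (f t) * (t : ℤ) + β (f t)) - (α (f t) * (t' : ℤ) + β (f t)) := by ring
          rw [e5]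
          exact dvd_sub e1 e2
        have e6 : (p : ℤ) ∣ (t : ℤ) - t' := by
          rcases (Int.Prime.dvd_mul' hp e4) with h | h
          · exact absurd h e3
          · exact h
        have e7 : (t : ℤ) - t' = 0 := by
          apply Int.eq_zero_of_abs_lt_dvd e6
          have r1 := mem_range.1 (mem_coe.1 ht)
          have r2 := mem_range.1 (mem_coe.1 ht')
          rw [abs_lt]
          omega
        omega
      rw [card_range, card_univ, Fintype.card_fin] at h2
      omega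
  · rw [← hW]
    exact hαP
  · rw [← hW]
    exact hNu
  · intro Jn e D₁ hDD hT1 hT2 hD ν hν
    rw [← hW] at hν
    obtain ⟨hν1, hνp⟩ := mem_NuS.1 hν
    obtain ⟨X, hX⟩ : ∃ X : ℕ, X = 2 ^ 2 ^ Jn := ⟨_, rfl⟩
    have hbig : (P * W ^ 2) * (P * W ^ 2) ≤ X := by
      have h1 : (P * W ^ 2 * (P * W ^ 2)) ^ 2 ≤ X ^ 2 := by
        calc (P * W ^ 2 * (P * W ^ 2)) ^ 2 = P ^ 4 * W ^ 8 := by ring
          _ ≤ P ^ 4 * (D₂.factorial * P) ^ 8 := Nat.mul_le_mul_left _ (Nat.pow_le_pow_left hWle 8)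
          _ = D₂.factorial ^ 8 * P ^ 12 := by ring
          _ ≤ X * X := by rw [hX]; exact Nat.mul_le_mul hT1 hT2
          _ = _ := by ring
      exact (Nat.pow_le_pow_iff_left (by norm_num)).1 h1
    have hPT : P < 2 ^ 2 ^ Jn := by
      rcases Nat.lt_or_ge P 2 with h | h
      · exact lt_of_lt_of_le h (two_le_pp Jn)
      · calc P < P ^ 12 := by
              have : P ^ 1 < P ^ 12 := Nat.pow_lt_pow_right (by omega) (by norm_num)
              rwa [pow_one] at this
          _ ≤ _ := hT2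
    apply red α β hP0 hPT hβα
    · intro x y h1 h2
      by_cases hx : ∃ i, ι i = x
      · obtain ⟨i, rfl⟩ := hx
        by_cases hy : ∃ i, ι i = y
        · obtain ⟨i', rfl⟩ := hy
          rw [α1, α1] at h1
          rw [β1, β1] at h2
          have h3 : i = i' := hinj (Prod.ext h1 h2)
          rw [h3]
        · exfalso
          rw [α1, α2 y hy] at h1
          have := haP' i
          omega
      · by_cases hy : ∃ i, ι i = y
        · obtain ⟨i', rfl⟩ := hy
          exfalso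
          rw [α1, α2 x hx] at h1
          have := haP' i'
          omega
        · rw [β2 x hx, β2 y hy] at h2
          have h3 : (x : ℕ) * W = y * W := by omega
          exact Fin.ext (Nat.eq_of_mul_eq_mul_right hWW0 h3)
    · exact hαprim
    · intro t p hp hpt
      rw [← hW]
      exact hαW t p hp hpt
    · exact hDD
    · intro x y
      rw [← hX]
      exact (Nat.mul_le_mul (hαP x) (hαP y)).trans hbig
    · intro x
      rw [← hX, ← hW]
      exact (Nat.mul_le_mul (hαP x) hWPW).trans hbig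
    · exact hD
    · rw [← hW]
      exact hν1
    · intro t
      rw [← hW]
      exact hνp t

/-- the number of the residues -/
theorem card_NuS {s W : ℕ} (α β : Fin s → ℕ) (hadm : Adm α β) (hW : Squarefree W) :
    ((NuS α β W).card : ℝ) = W * ∏ p ∈ W.primeFactors, (1 - (rt (FF α β) p : ℝ) / p) := by
  classical
  have hsys := sysP_FF hadm le_rfl
  have h1 := Pool.Agent.K3h89.SZ.pigP (FF α β) hsys.per W hW
  have h2 : (NuS α β W).card = ∏ p ∈ W.primeFactors, (p - rt (FF α β) p) := by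
    rw [← h1]
    unfold NuS
    congr 1
    ext ν
    simp only [mem_filter]
    apply and_congr_right
    intro _
    constructor
    · intro h p hp hd
      rw [Nat.mem_primeFactors] at hp
      rw [dvd_FF hp.1] at hd
      obtain ⟨i, hi⟩ := hd
      have h3 : p ∣ α i * ν + β i := by exact_mod_cast hi
      have h4 := Nat.dvd_gcd h3 hp.2.1
      rw [h i] at h4
      exact hp.1.one_lt.ne' (Nat.dvd_one.1 h4)
    · intro h j
      apply Nat.coprime_of_dvd
      intro p hp h3 h4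
      apply h p (Nat.mem_primeFactors.2 ⟨hp, h4, hW.ne_zero⟩)
      rw [dvd_FF hp]
      exact ⟨j, by exact_mod_cast h3⟩
  rw [h2, Nat.cast_prod]
  have h3 : (W : ℝ) = ∏ p ∈ W.primeFactors, (p : ℝ) := by
    have h4 := Nat.prod_primeFactors_of_squarefree hW
    calc (W : ℝ) = ((∏ p ∈ W.primeFactors, p : ℕ) : ℝ) := by rw [h4]
      _ = _ := by rw [Nat.cast_prod]
  conv_rhs => rw [h3]
  rw [← prod_mul_distrib]
  apply prod_congr rfl
  intro p hp
  have hpp := Nat.prime_of_mem_primeFactors hp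
  have hp0 : (p : ℝ) ≠ 0 := by exact_mod_cast hpp.ne_zero
  have h4 := (hsys.root p hpp).2
  rw [Nat.cast_sub h4.le]
  field_simp

open Classical in
/-- the local densities of the systems -/
theorem gg_eq {k p W ν : ℕ} (α β : Fin (2 ^ k) → ℕ) (hadm : Adm α β) (hp : p.Prime) (hpW : ¬ p ∣ W) :
    gg (fun t : Fin (2 ^ k) => α t * W) (fun t : Fin (2 ^ k) => α t * ν + β t) p =
      (rt (FF α β) p : ℝ) / p := by
  have hsys := sysP_FF hadm le_rfl
  have h1 := Pool.Agent.K3h89.SZ.card_shiftP hp (hsys.per p hp) W ν 0 hpW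
  unfold gg
  congr 1
  rw [← h1]
  unfold bdf
  rw [card_filter, Nat.cast_sum]
  apply sum_congr rfl
  intro r _
  rw [Nat.cast_ite, Nat.cast_one, Nat.cast_zero]
  have hiff : (∃ j, p ∣ (fun t => α t * ν + β t) j + (fun t => α t * W) j * r) ↔
      (p : ℤ) ∣ FF α β ((W * (r + 0) + ν : ℕ) : ℤ) := by
    rw [dvd_FF hp]
    apply exists_congr
    intro i
    rw [← Int.natCast_dvd_natCast]
    have e1 : ((α i * ν + β i + α i * W * r : ℕ) : ℤ) =
        (α i : ℤ) * ((W * (r + 0) + ν : ℕ) : ℤ) + β i := by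
      push_cast
      ring
    simp only
    rw [e1]
  by_cases h : (p : ℤ) ∣ FF α β ((W * (r + 0) + ν : ℕ) : ℤ)
  · rw [if_pos (hiff.2 h), if_pos h]
  · rw [if_neg (fun h' => h (hiff.1 h')), if_neg h]

end Run7.h296
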