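import Pool.Agent.Run7.h296.S6

/-!
Many residues at which a real character is negative at many forms; a dyadic pigeonhole principle.
-/

set_option autoImplicit false

open Finset

namespace Run7.h296

open Pool.Agent.W215.MH

open Classical in
/-- the residues at which the character is negative at one form -/
theorem key_nu {K D q W : ℕ} (χ : DirichletCharacter ℂ q) (hq : 1 < q)
    (hprim : χ.IsPrimitive) (h2 : χ ^ 2 = 1) (hsq : ∀ p : ℕ, p.Prime → p ≠ 2 → ¬ p ^ 2 ∣ q)
    (a b : Fin K → ℕ) (hab : ∀ j, (a j).Coprime (b j)) (hW : Squarefree W) (hD2 : 2 ≤ D)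
    (hDK : 6 * K ≤ D) (hrad : ∀ i, ∀ r : ℕ, r.Prime → r ∣ a i → r ∣ W) (i : Fin K)
    (hG : (∃ p : ℕ, p.Prime ∧ p ∣ q ∧ D < p ∧ ¬ p ∣ a i) ∨
      (q ∣ a i ∧ χ ((b i : ℕ) : ZMod q) = -1)) :
    2 * (NuS a b W).card ≤ 5 * ((NuS a b W).filter (fun ν => q ∣ a i * W →
      χ ((a i * ν + b i : ℕ) : ZMod q) = -1)).card := by
  have hW0 : 0 < W := Nat.pos_of_ne_zero hW.ne_zero
  by_cases hqi : q ∣ a i * W
  · rcases hG with ⟨p, hp, hpq, hDp, hpa⟩ | ⟨h3, h4⟩
    · have hp2 : p ≠ 2 := by omega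
      have hpW : p ∣ W := by
        rcases (Nat.Prime.dvd_mul hp).1 (hpq.trans hqi) with h | h
        · exact absurd h hpa
        · exact h
      obtain ⟨W', rfl⟩ := hpW
      have hpp := hsq p hp hp2
      obtain ⟨d, rfl⟩ := hpq
      have hd0 : 0 < d := Nat.pos_of_ne_zero fun h => by
        rw [h, mul_zero] at hq
        omega
      have hpd : ¬ p ∣ d := by
        intro h
        apply hpp
        rw [sq]
        exact Nat.mul_dvd_mul_left p h
      have hcop : p.Coprime d := (hp.coprime_iff_not_dvd).2 hpd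
      have hpW' : ¬ p ∣ W' := by
        intro h
        have h5 : p * p ∣ p * W' := Nat.mul_dvd_mul_left p h
        have h6 := hW p h5
        exact hp.one_lt.ne' (Nat.isUnit_iff.1 h6)
      have hW'0 : 0 < W' := Nat.pos_of_ne_zero fun h => by
        rw [h, mul_zero] at hW0
        omega
      have hdv : d ∣ a i * W' := by
        have h5 : p * d ∣ p * (a i * W') := by
          refine hqi.trans (dvd_of_eq ?_)
          ring
        exact Nat.dvd_of_mul_dvd_mul_left hp.pos h5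
      have h7 := neg_count hp hd0 hcop χ hprim h2 a b hab hW'0 hpW' (by omega) i hdv hpa (hrad i)
      refine h7.trans (Nat.mul_le_mul_left _ (card_le_card ?_))
      intro ν hν
      rw [mem_filter] at hν ⊢
      exact ⟨hν.1, fun _ => hν.2⟩
    · have h5 : (NuS a b W).filter (fun ν => q ∣ a i * W →
          χ ((a i * ν + b i : ℕ) : ZMod q) = -1) = NuS a b W := by
        apply filter_true_of_mem
        intro ν _ _
        have h6 : ((a i * ν + b i : ℕ) : ZMod q) = ((b i : ℕ) : ZMod q) := by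
          have h7 : ((a i : ℕ) : ZMod q) = 0 := (ZMod.natCast_eq_zero_iff _ _).2 h3
          push_cast
          rw [h7]
          ring
        rw [h6]
        exact h4
      rw [h5]
      omega
  · have h5 : (NuS a b W).filter (fun ν => q ∣ a i * W →
        χ ((a i * ν + b i : ℕ) : ZMod q) = -1) = NuS a b W := by
      apply filter_true_of_mem
      intro ν _ h
      exact absurd h hqi
    rw [h5]
    omega

open Classical in
/-- **many residues at which many forms are negative** -/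
theorem many_nu {K D q W : ℕ} (χ : DirichletCharacter ℂ q) (hq : 1 < q)
    (hprim : χ.IsPrimitive) (h2 : χ ^ 2 = 1) (hsq : ∀ p : ℕ, p.Prime → p ≠ 2 → ¬ p ^ 2 ∣ q)
    (a b : Fin K → ℕ) (hab : ∀ j, (a j).Coprime (b j)) (hW : Squarefree W) (hD2 : 2 ≤ D)
    (hDK : 6 * K ≤ D) (hrad : ∀ i, ∀ r : ℕ, r.Prime → r ∣ a i → r ∣ W) (G : Finset (Fin K))
    (hG : ∀ i ∈ G, (∃ p : ℕ, p.Prime ∧ p ∣ q ∧ D < p ∧ ¬ p ∣ a i) ∨
      (q ∣ a i ∧ χ ((b i : ℕ) : ZMod q) = -1)) :
    (NuS a b W).card ≤ 4 * ((NuS a b W).filter (fun ν => G.card ≤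
      5 * (G.filter (fun i => q ∣ a i * W → χ ((a i * ν + b i : ℕ) : ZMod q) = -1)).card)).card := by
  have hkey := fun i (hi : i ∈ G) =>
    key_nu χ hq hprim h2 hsq a b hab hW hD2 hDK hrad i (hG i hi)
  rcases Nat.eq_zero_or_pos G.card with hG0 | hG0
  · have h5 : (NuS a b W).filter (fun ν => G.card ≤
      5 * (G.filter (fun i => q ∣ a i * W → χ ((a i * ν + b i : ℕ) : ZMod q) = -1)).card) =
        NuS a b W := by
      apply filter_true_of_mem
      intro ν _
      omega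
    rw [h5]
    omega
  obtain ⟨N₁, hN₁⟩ : ∃ N₁ : Finset ℕ, N₁ = (NuS a b W).filter (fun ν => G.card ≤
      5 * (G.filter (fun i => q ∣ a i * W → χ ((a i * ν + b i : ℕ) : ZMod q) = -1)).card) := ⟨_, rfl⟩
  rw [← hN₁]
  have h4 : ∑ ν ∈ NuS a b W, 5 * (G.filter (fun i => q ∣ a i * W →
      χ ((a i * ν + b i : ℕ) : ZMod q) = -1)).card =
      ∑ i ∈ G, 5 * ((NuS a b W).filter (fun ν => q ∣ a i * W →
      χ ((a i * ν + b i : ℕ) : ZMod q) = -1)).card := by
    rw [← mul_sum, ← mul_sum]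
    congr 1
    simp only [card_filter]
    exact Finset.sum_comm
  have h5 : ∑ i ∈ G, 2 * (NuS a b W).card ≤ ∑ i ∈ G, 5 * ((NuS a b W).filter (fun ν => q ∣ a i * W →
      χ ((a i * ν + b i : ℕ) : ZMod q) = -1)).card := Finset.sum_le_sum hkey
  rw [← h4, sum_const, smul_eq_mul] at h5
  have h6 : ∀ ν ∈ NuS a b W, 5 * (G.filter (fun i => q ∣ a i * W →
      χ ((a i * ν + b i : ℕ) : ZMod q) = -1)).card ≤ G.card + (if ν ∈ N₁ then 4 * G.card else 0) := by
    intro ν hν
    have h7 : (G.filter (fun i => q ∣ a i * W →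
      χ ((a i * ν + b i : ℕ) : ZMod q) = -1)).card ≤ G.card := card_le_card (filter_subset _ _)
    split_ifs with h8
    · omega
    · rw [hN₁, mem_filter] at h8
      have h9 : ¬ G.card ≤ 5 * (G.filter (fun i => q ∣ a i * W →
        χ ((a i * ν + b i : ℕ) : ZMod q) = -1)).card := fun h => h8 ⟨hν, h⟩
      omega
  have h7 := h5.trans (Finset.sum_le_sum h6)
  rw [sum_add_distrib, sum_const, smul_eq_mul, ← sum_filter, sum_const, smul_eq_mul] at h7
  have h8 : (NuS a b W).filter (fun ν => ν ∈ N₁) = N₁ := by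
    rw [hN₁]
    ext ν
    simp only [mem_filter]
    tauto
  rw [h8] at h7
  have h9 : G.card * (NuS a b W).card ≤ G.card * (4 * N₁.card) := by nlinarith
  exact Nat.le_of_mul_le_mul_left h9 hG0

theorem dy_split (g : ℕ → ℝ) (a I : ℕ) : ∑ l ∈ Ioc a (2 ^ I * a), g l =
    ∑ i ∈ range I, ∑ l ∈ Ioc (2 ^ i * a) (2 ^ (i + 1) * a), g l := by
  induction I with
  | zero => simp
  | succ I ih =>
    rw [sum_range_succ, ← ih]
    symm
    apply Finset.sum_Ioc_consecutive
    · exact Nat.le_mul_of_pos_left _ (by positivity)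
    · exact Nat.mul_le_mul_right _ (Nat.pow_le_pow_right (by norm_num) (by omega))

/-- a dyadic pigeonhole principle -/
theorem dyadic (f : ℕ → ℝ) (hf : ∀ l, 0 ≤ f l) (a I : ℕ) (ha : 1 ≤ a) (hI : 1 ≤ I) (T : ℝ)
    (h : T ≤ ∑ l ∈ Ioc a (2 ^ I * a), f l / l) : ∃ i < I,
    T / I * ((2 ^ i * a : ℕ) : ℝ) ≤ ∑ l ∈ Ioc (2 ^ i * a) (2 * (2 ^ i * a)), f l := by
  by_contra hcon
  push Not at hcon
  have hI0 : (0 : ℝ) < I := by exact_mod_cast hI
  rw [dy_split] at h
  have h1 : ∑ i ∈ range I, ∑ l ∈ Ioc (2 ^ i * a) (2 ^ (i + 1) * a), f l / l <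
      ∑ _i ∈ range I, T / I := by
    apply Finset.sum_lt_sum_of_nonempty
    · rw [nonempty_range_iff]
      omega
    · intro i hi
      have hi' := mem_range.1 hi
      have h2 := hcon i hi'
      have hX : (0 : ℝ) < ((2 ^ i * a : ℕ) : ℝ) := by
        exact_mod_cast Nat.mul_pos (by positivity) (by omega)
      have e1 : 2 ^ (i + 1) * a = 2 * (2 ^ i * a) := by ring
      rw [e1]
      have h3 : ∑ l ∈ Ioc (2 ^ i * a) (2 * (2 ^ i * a)), f l / l ≤
          ∑ l ∈ Ioc (2 ^ i * a) (2 * (2 ^ i * a)), f l / ((2 ^ i * a : ℕ) : ℝ) := by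
        apply sum_le_sum
        intro l hl
        have h4 : ((2 ^ i * a : ℕ) : ℝ) ≤ l := by exact_mod_cast (mem_Ioc.1 hl).1.le
        exact div_le_div_of_nonneg_left (hf l) hX h4
      refine lt_of_le_of_lt h3 ?_
      rw [← sum_div, div_lt_iff₀ hX]
      exact h2
  rw [sum_const, card_range, nsmul_eq_mul] at h1
  have h2 : (I : ℝ) * (T / I) = T := by field_simp
  linarith

end Run7.h296
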