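import Pool.Agent.Run7.h296.S7
import Pool.Agent.Run7.h296.Fo

/-!
Arithmetic progressions of integers at which many forms are prime and the others are almost primes: the
assembly.
-/

set_option autoImplicit false

open Finset

namespace Run7.h296

open Run7.h296.SL (FF Adm dvd_FF sysP_FF lin_ap)
open Pool.Agent.Y677.RSZ (rt V)

/-- the sieve product over all primes is at most the products over the primes of the modulus and the small
primes -/
theorem V_le' {s W Jn H : ℕ} (α β : Fin s → ℕ) (hadm : Adm α β) (hW0 : W ≠ 0)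
    (hWT : ∀ p : ℕ, p.Prime → p ∣ W → p < 2 ^ 2 ^ Jn) (hH : 2 ^ 2 ^ Jn ≤ H) :
    V (FF α β) 1 H ≤ (∏ p ∈ W.primeFactors, (1 - (rt (FF α β) p : ℝ) / p)) *
      ∏ p ∈ PS Jn W, (1 - (rt (FF α β) p : ℝ) / p) := by
  classical
  have hsys := sysP_FF hadm le_rfl
  have hpos : ∀ p : ℕ, p.Prime → 0 < 1 - (rt (FF α β) p : ℝ) / p := fun p hp =>
    Pool.Agent.K3h89.SZ.fac_posP hsys hp
  have hle1 : ∀ p : ℕ, 1 - (rt (FF α β) p : ℝ) / p ≤ 1 := fun p => by
    have : (0 : ℝ) ≤ (rt (FF α β) p : ℝ) / p := by positivity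
    linarith
  have hdis : Disjoint W.primeFactors (PS Jn W) := by
    rw [disjoint_left]
    intro p hp hp2
    exact (mem_PS.1 hp2).2.2 (Nat.dvd_of_mem_primeFactors hp)
  rw [← prod_union hdis]
  unfold V
  have hsub : W.primeFactors ∪ PS Jn W ⊆ Pool.Agent.TH423.SH.PS 1 H := by
    intro p hp
    unfold Pool.Agent.TH423.SH.PS
    rw [mem_filter, mem_Icc]
    rw [mem_union] at hp
    have h1 : p.Prime ∧ p < 2 ^ 2 ^ Jn := by
      rcases hp with h | h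
      · rw [Nat.mem_primeFactors] at h
        exact ⟨h.1, hWT p h.1 h.2.1⟩
      · rw [mem_PS] at h
        exact ⟨h.1, h.2.1⟩
    refine ⟨⟨h1.1.one_lt.le, by omega⟩, h1.1, ?_⟩
    intro h2
    exact h1.1.one_lt.ne' (Nat.dvd_one.1 h2)
  rw [← prod_sdiff hsub]
  have h1 : ∏ p ∈ Pool.Agent.TH423.SH.PS 1 H \ (W.primeFactors ∪ PS Jn W),
      (1 - (rt (FF α β) p : ℝ) / p) ≤ 1 := by
    apply Finset.prod_le_one
    · intro p hp
      have h2 := (mem_sdiff.1 hp).1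
      unfold Pool.Agent.TH423.SH.PS at h2
      exact (hpos p (mem_filter.1 h2).2.1).le
    · intro p _
      exact hle1 p
  apply mul_le_of_le_one_left _ h1
  apply prod_nonneg
  intro p hp
  have h2 := hsub hp
  unfold Pool.Agent.TH423.SH.PS at h2
  exact (hpos p (mem_filter.1 h2).2.1).le

/-- the integers at which the forms are rough and many of the forms in `G` are prime -/
def Gd2 {s k : ℕ} (a b : Fin s → ℕ) (α β : Fin (2 ^ k) → ℕ) (Jn W : ℕ) (G : Finset (Fin s))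
    (m ν l : ℕ) : Prop :=
  (∀ t, ∀ p ∈ PS Jn W, ¬ p ∣ α t * ν + β t + α t * W * l) ∧
    m < (G.filter (fun i => (a i * (ν + W * l) + b i).Prime)).card

open Classical in
/-- **the assembly** -/
theorem ap_assembly (k ℓ e K : ℕ) (κ : ℝ) (hκ : 0 < κ) (hK : 1 ≤ K) : ∃ C J₀ : ℕ,
    ∀ Jn : ℕ, J₀ ≤ Jn → ∀ (W s : ℕ) (a b : Fin s → ℕ) (α β : Fin (2 ^ k) → ℕ)
    (ι : Fin s ↪ Fin (2 ^ k)), (∀ i, α (ι i) = a i ∧ β (ι i) = b i) →
    (∀ t, 1 ≤ β t ∧ β t < α t) → Adm α β → Squarefree W →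
    (∀ p : ℕ, p.Prime → p ∣ W → p < 2 ^ 2 ^ Jn) → (∀ t, α t * W ≤ 2 ^ 2 ^ Jn) →
    ∀ (G : Finset (Fin s)) (m : ℕ) (N' : Finset ℕ), N' ⊆ NuS α β W → N'.Nonempty →
    (NuS α β W).card ≤ 4 * N'.card →
    (∀ ν ∈ N', κ * (Real.log ((2 ^ 2 ^ (Jn + e + 6) : ℕ) : ℝ) *
      ∏ p ∈ PS Jn W, (1 - (rt (FF α β) p : ℝ) / p)) ≤
      ∑ l ∈ (Ioc (l0 Jn e) ((2 ^ 2 ^ (Jn + e + 6)) ^ K)).filter
        (fun l => Gd2 a b α β Jn W G m ν l), (1 : ℝ) / l) →
    ∃ (n d : ℕ) (U : Finset (Fin s)), n ≤ (2 ^ 2 ^ (Jn + e + 6)) ^ (K + 1) ∧ 1 ≤ d ∧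
      (d : ℝ) ≤ Real.log ((2 ^ 2 ^ (Jn + e + 6) : ℕ) : ℝ) ^ C ∧ U ⊆ G ∧ m < U.card ∧
      ∀ j < ℓ, (∀ i ∈ U, (a i * (n + j * d) + b i).Prime) ∧
        ∀ i, ∀ p : ℕ, p.Prime → p ∣ a i * (n + j * d) + b i → 2 ^ 2 ^ Jn ≤ p := by
  have hK0 : (0 : ℝ) < K := by exact_mod_cast hK
  obtain ⟨δ, hδ⟩ : ∃ δ : ℝ, δ = 1 / (2 * 2 ^ (e + 6) * ((K : ℝ) + 1)) := ⟨_, rfl⟩
  have hδ0 : 0 < δ := by rw [hδ]; positivity
  obtain ⟨κ₂, hκ₂⟩ : ∃ κ₂ : ℝ, κ₂ = κ / (16 * K * 2 ^ 2 ^ k) := ⟨_, rfl⟩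
  have hκ₂0 : 0 < κ₂ := by rw [hκ₂]; positivity
  obtain ⟨B, H₀, hAP⟩ := lin_ap (2 ^ k) (ℓ + 1) δ κ₂ hδ0 hκ₂0
  refine ⟨2 * B, H₀ + 2 * K + 3, ?_⟩
  intro Jn hJn W s a b α β ι hαβ hβα hadm hWsq hWT hαT G m N' hN'sub hN'ne hN'4 hgood
  have hsys := sysP_FF hadm le_rfl
  have hW0 : 0 < W := Nat.pos_of_ne_zero hWsq.ne_zero
  obtain ⟨T, hT⟩ : ∃ T : ℕ, T = 2 ^ 2 ^ Jn := ⟨_, rfl⟩
  obtain ⟨Z, hZ⟩ : ∃ Z : ℕ, Z = 2 ^ 2 ^ (Jn + e + 6) := ⟨_, rfl⟩
  obtain ⟨Y₀, hY₀⟩ : ∃ Y₀ : ℕ, Y₀ = 2 ^ 2 ^ (Jn + e) := ⟨_, rfl⟩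
  have hZY : Z = Y₀ ^ 64 := by rw [hZ, hY₀, Z_eq]
  have hl0Y : l0 Jn e = Y₀ ^ 8 := by rw [hY₀]; rfl
  have hTY₀ : T ≤ Y₀ := by rw [hT, hY₀]; exact TY Jn e
  have hT2 : 2 ≤ T := by rw [hT]; exact two_le_pp Jn
  have hY₀2 : 2 ≤ Y₀ := hT2.trans hTY₀
  have hJnT : Jn ≤ T := by rw [hT]; exact le_of_lt (by have := Jn_T Jn; omega)
  rw [← hT] at hWT hαT ⊢
  rw [← hZ] at hgood ⊢
  have hZT : Z = T ^ (2 ^ (e + 6)) := by
    rw [hZ, hT, ← pow_mul]
    congr 1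
    rw [← pow_add]
    congr 1
  have hZ2 : 2 ≤ Z := by
    rw [hZ]
    exact two_le_pp _
  have hWT' : W ≤ T := by
    have h1 := hαT ⟨0, by positivity⟩
    have h2 := hβα ⟨0, by positivity⟩
    refine le_trans ?_ h1
    exact Nat.le_mul_of_pos_left _ (by omega)
  -- the product
  obtain ⟨Pi, hPi⟩ : ∃ Pi : ℝ, Pi = ∏ p ∈ PS Jn W, (1 - (rt (FF α β) p : ℝ) / p) := ⟨_, rfl⟩
  rw [← hPi] at hgood
  have hPi0 : 0 < Pi := by
    rw [hPi]
    apply prod_pos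
    intro p hp
    exact Pool.Agent.K3h89.SZ.fac_posP hsys (mem_PS.1 hp).1
  obtain ⟨f, hf⟩ : ∃ f : ℕ → ℝ, f = fun l =>
    ((N'.filter (fun ν => Gd2 a b α β Jn W G m ν l)).card : ℝ) := ⟨_, rfl⟩
  have hf0 : ∀ l, 0 ≤ f l := fun l => by
    rw [hf]
    exact Nat.cast_nonneg _
  obtain ⟨I, hI⟩ : ∃ I : ℕ, I = 2 ^ (Jn + e + 6) * K := ⟨_, rfl⟩
  have hI1 : 1 ≤ I := by
    rw [hI]
    exact Nat.mul_pos (by positivity) (by omega)
  have h2I : 2 ^ I = Z ^ K := by rw [hI, hZ, ← pow_mul]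
  have hl01 : 1 ≤ l0 Jn e := by
    rw [hl0Y]
    exact Nat.one_le_pow _ _ (by omega)
  have hsum : (N'.card : ℝ) * (κ * (Real.log (Z : ℝ) * Pi)) ≤
      ∑ l ∈ Ioc (l0 Jn e) (2 ^ I * l0 Jn e), f l / l := by
    have h1 : ∑ ν ∈ N', κ * (Real.log (Z : ℝ) * Pi) ≤ ∑ ν ∈ N',
        ∑ l ∈ (Ioc (l0 Jn e) (Z ^ K)).filter (fun l => Gd2 a b α β Jn W G m ν l), (1 : ℝ) / l :=
      sum_le_sum hgood
    rw [sum_const, nsmul_eq_mul] at h1
    refine h1.trans ?_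
    have h2 : ∑ ν ∈ N', ∑ l ∈ (Ioc (l0 Jn e) (Z ^ K)).filter
        (fun l => Gd2 a b α β Jn W G m ν l), (1 : ℝ) / l =
        ∑ l ∈ Ioc (l0 Jn e) (Z ^ K), f l / l := by
      simp_rw [sum_filter]
      rw [sum_comm]
      apply sum_congr rfl
      intro l _
      rw [← sum_filter, sum_const, nsmul_eq_mul, hf, mul_one_div]
    rw [h2]
    apply sum_le_sum_of_subset_of_nonneg
    · apply Ioc_subset_Ioc_right
      rw [h2I]
      exact Nat.le_mul_of_pos_right _ (by omega)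
    · intro l _ _
      exact div_nonneg (hf0 l) (Nat.cast_nonneg _)
  obtain ⟨i₁, hi₁, hX⟩ := dyadic f hf0 (l0 Jn e) I hl01 hI1 _ hsum
  obtain ⟨X, hXd⟩ : ∃ X : ℕ, X = 2 ^ i₁ * l0 Jn e := ⟨_, rfl⟩
  rw [← hXd] at hX
  have hlX : l0 Jn e ≤ X := by
    rw [hXd]
    exact Nat.le_mul_of_pos_left _ (by positivity)
  have hX1 : 1 ≤ X := hl01.trans hlX
  have hXI : 2 * X ≤ Z ^ K * l0 Jn e := by
    rw [hXd, ← h2I]
    calc 2 * (2 ^ i₁ * l0 Jn e) = 2 ^ (i₁ + 1) * l0 Jn e := by ring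
      _ ≤ 2 ^ I * l0 Jn e := Nat.mul_le_mul_right _ (Nat.pow_le_pow_right (by norm_num) hi₁)
  have hTX : T ≤ X := by
    refine hTY₀.trans (le_trans ?_ hlX)
    rw [hl0Y]
    exact Nat.le_self_pow (by norm_num) _
  obtain ⟨H, hHd⟩ : ∃ H : ℕ, H = 2 * (W * X) := ⟨_, rfl⟩
  obtain ⟨Y, hYd⟩ : ∃ Y : ℕ, Y = W * X := ⟨_, rfl⟩
  have hWX1 : X ≤ W * X := Nat.le_mul_of_pos_left _ hW0
  have hXH : X ≤ H := by rw [hHd]; omega
  have hYH : Y ≤ H := by rw [hYd, hHd]; omega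
  have hTH : T ≤ H := hTX.trans hXH
  -- the upper bound of the range
  have hYHZ : Y + H ≤ Z ^ (K + 1) := by
    have h1 : Y + H = 3 * (W * X) := by rw [hYd, hHd]; ring
    have h2 : 2 * (W * X) ≤ Y₀ * (Z ^ K * Y₀ ^ 8) := by
      calc 2 * (W * X) = W * (2 * X) := by ring
        _ ≤ Y₀ * (Z ^ K * Y₀ ^ 8) := by
          rw [← hl0Y]
          exact Nat.mul_le_mul (hWT'.trans hTY₀) hXI
    have h3 : 2 ≤ Y₀ ^ 1 := by rw [pow_one]; exact hY₀2
    calc Y + H ≤ 2 * (2 * (W * X)) := by rw [h1]; omega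
      _ ≤ Y₀ ^ 1 * (Y₀ * (Z ^ K * Y₀ ^ 8)) := Nat.mul_le_mul h3 h2
      _ = Z ^ K * Y₀ ^ 10 := by ring
      _ ≤ Z ^ K * Y₀ ^ 64 := Nat.mul_le_mul_left _ (Nat.pow_le_pow_right (by omega) (by norm_num))
      _ = Z ^ (K + 1) := by rw [← hZY, pow_succ]
  have hHZ : H ≤ Z ^ (K + 1) := (Nat.le_add_left _ _).trans hYHZ
  -- the set
  obtain ⟨pat, hpat⟩ : ∃ pat : ℕ → Finset (Fin s), pat = fun n =>
    G.filter (fun i => (a i * n + b i).Prime) := ⟨_, rfl⟩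
  obtain ⟨𝒜, h𝒜⟩ : ∃ 𝒜 : Finset ℕ, 𝒜 = (Ioc Y (Y + H)).filter (fun n =>
    (∀ t, ∀ p : ℕ, p.Prime → p < T → ¬ p ∣ α t * n + β t) ∧ m < (pat n).card) := ⟨_, rfl⟩
  have hcard𝒜 : ∑ l ∈ Ioc X (2 * X), f l ≤ (𝒜.card : ℝ) := by
    rw [hf]
    have h1 : ∑ l ∈ Ioc X (2 * X), (N'.filter (fun ν => Gd2 a b α β Jn W G m ν l)).card =
        ((Ioc X (2 * X)).sigma (fun l => N'.filter (fun ν => Gd2 a b α β Jn W G m ν l))).card := by
      rw [card_sigma]
    have h2 : ((Ioc X (2 * X)).sigma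
        (fun l => N'.filter (fun ν => Gd2 a b α β Jn W G m ν l))).card ≤ 𝒜.card := by
      apply card_le_card_of_injOn (fun x : (_ : ℕ) × ℕ => x.2 + W * x.1)
      · rintro ⟨l, ν⟩ hx
        rw [mem_coe, mem_sigma, mem_filter, mem_Ioc] at hx
        obtain ⟨⟨hl1, hl2⟩, hν, hg1, hg2⟩ := hx
        simp only at hl1 hl2 hν hg1 hg2
        obtain ⟨hνW, hνc⟩ := mem_NuS.1 (hN'sub hν)
        rw [mem_coe, h𝒜, mem_filter, mem_Ioc]
        refine ⟨⟨?_, ?_⟩, ?_, ?_⟩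
        · show Y < ν + W * l
          rw [hYd]
          calc W * X < W * l := Nat.mul_lt_mul_of_pos_left hl1 hW0
            _ ≤ ν + W * l := Nat.le_add_left _ _
        · show ν + W * l ≤ Y + H
          rw [hYd, hHd]
          have h3 : W * l ≤ W * (2 * X) := Nat.mul_le_mul_left _ hl2
          have h4 : W * 1 ≤ W * X := Nat.mul_le_mul_left _ hX1
          have h5 : W * (2 * X) = 2 * (W * X) := by ring
          omega
        · intro t p hp hpT hd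
          have e1 : α t * (ν + W * l) + β t = α t * ν + β t + α t * W * l := by ring
          rw [e1] at hd
          by_cases hpW : p ∣ W
          · have h3 : p ∣ α t * ν + β t := by
              have h4 : p ∣ α t * W * l := (hpW.mul_left _).mul_right _
              exact (Nat.dvd_add_left h4).1 hd
            have h4 := Nat.dvd_gcd h3 hpW
            rw [hνc t] at h4
            exact hp.one_lt.ne' (Nat.dvd_one.1 h4)
          · exact hg1 t p (mem_PS.2 ⟨hp, by rw [← hT]; exact hpT, hpW⟩) hd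
        · rw [hpat]
          exact hg2
      · rintro ⟨l, ν⟩ hx ⟨l', ν'⟩ hx' hxx
        rw [mem_coe, mem_sigma, mem_filter] at hx hx'
        have hν := (mem_NuS.1 (hN'sub hx.2.1)).1
        have hν' := (mem_NuS.1 (hN'sub hx'.2.1)).1
        simp only at hν hν' hxx
        have h3 : l = l' := by
          have h4 : (ν + W * l) / W = l := by
            rw [Nat.add_mul_div_left _ _ hW0, Nat.div_eq_of_lt hν, zero_add]
          have h5 : (ν' + W * l') / W = l' := by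
            rw [Nat.add_mul_div_left _ _ hW0, Nat.div_eq_of_lt hν', zero_add]
          rw [← h4, ← h5, hxx]
        subst h3
        have h4 : ν = ν' := by omega
        subst h4
        rfl
    have h3 : ∑ l ∈ Ioc X (2 * X), (N'.filter (fun ν => Gd2 a b α β Jn W G m ν l)).card ≤ 𝒜.card := by
      rw [h1]
      exact h2
    simp only
    exact_mod_cast h3
  -- the pattern
  have hmaps : ∀ n ∈ 𝒜, pat n ∈ G.powerset := by
    intro n _
    rw [mem_powerset, hpat]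
    exact filter_subset _ _
  have hpc : (G.powerset.card : ℝ) ≤ 2 ^ 2 ^ k := by
    rw [card_powerset]
    push_cast
    apply pow_le_pow_right₀ (by norm_num)
    have h1 : G.card ≤ s := by
      have := card_le_univ G
      rwa [Fintype.card_fin] at this
    have h2 : s ≤ 2 ^ k := by
      have := Fintype.card_le_of_embedding ι
      rwa [Fintype.card_fin, Fintype.card_fin] at this
    omega
  obtain ⟨U, hU, hUc⟩ := exists_le_card_fiber_of_nsmul_le_card_of_maps_to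
    (s := 𝒜) (t := G.powerset) (f := pat) (b := (𝒜.card : ℝ) / 2 ^ 2 ^ k) hmaps
    ⟨∅, empty_mem_powerset _⟩ (by
      rw [nsmul_eq_mul]
      calc (G.powerset.card : ℝ) * ((𝒜.card : ℝ) / 2 ^ 2 ^ k) ≤
          2 ^ 2 ^ k * ((𝒜.card : ℝ) / 2 ^ 2 ^ k) :=
            mul_le_mul_of_nonneg_right hpc (by positivity)
        _ = 𝒜.card := by field_simp)
  -- the density
  have hVle := V_le' (Jn := Jn) (H := H) α β hadm hW0.ne' (by rw [← hT]; exact hWT) (by rw [← hT]; exact hTH)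
  have hNuc := card_NuS α β hadm hWsq
  obtain ⟨Pw, hPw⟩ : ∃ Pw : ℝ, Pw = ∏ p ∈ W.primeFactors, (1 - (rt (FF α β) p : ℝ) / p) := ⟨_, rfl⟩
  rw [← hPw, ← hPi] at hVle
  rw [← hPw] at hNuc
  have hPw0 : 0 < Pw := by
    rw [hPw]
    apply prod_pos
    intro p hp
    exact Pool.Agent.K3h89.SZ.fac_posP hsys (Nat.prime_of_mem_primeFactors hp)
  have hWr : (0 : ℝ) < W := by exact_mod_cast hW0
  have hXr : (0 : ℝ) < X := by exact_mod_cast hX1
  have hlogZ : Real.log (Z : ℝ) = 2 ^ (Jn + e + 6) * Real.log 2 := by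
    rw [hZ]
    push_cast
    rw [Real.log_pow]
    push_cast
    ring
  have hdens : κ₂ * (H * V (FF α β) 1 H) ≤ ((𝒜.filter (fun n => pat n = U)).card : ℝ) := by
    refine le_trans ?_ hUc
    have h1 : (W : ℝ) * Pw ≤ 4 * N'.card := by
      rw [← hNuc]
      exact_mod_cast hN'4
    have h2 := hX.trans hcard𝒜
    have h3 : (N'.card : ℝ) * (κ * (Real.log (Z : ℝ) * Pi)) / I * X =
        N'.card * κ * Pi * X * (Real.log 2 / K) := by
      rw [hlogZ, hI]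
      push_cast
      field_simp
    rw [h3] at h2
    have hl2 : (1 : ℝ) / 2 ≤ Real.log 2 := by
      have := Real.log_two_gt_d9
      linarith
    have h4 : (N'.card : ℝ) * κ * Pi * X * (1 / 2 / K) ≤ 𝒜.card := by
      refine le_trans ?_ h2
      apply mul_le_mul_of_nonneg_left _ (by positivity)
      exact div_le_div_of_nonneg_right hl2 hK0.le
    have h5 : (W : ℝ) * Pw / 4 * κ * Pi * X * (1 / 2 / K) ≤ 𝒜.card := by
      refine le_trans ?_ h4
      have h6 : (W : ℝ) * Pw / 4 ≤ N'.card := by linarith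
      gcongr
    have h6 : κ₂ * (H * V (FF α β) 1 H) ≤ κ₂ * (H * (Pw * Pi)) := by gcongr
    refine h6.trans ?_
    have h7 : κ₂ * (H * (Pw * Pi)) = ((W : ℝ) * Pw / 4 * κ * Pi * X * (1 / 2 / K)) / 2 ^ 2 ^ k := by
      rw [hκ₂, hHd]
      push_cast
      field_simp
      norm_num
    rw [h7]
    gcongr
  -- the progression
  obtain ⟨n, d, hd1, hd2, hnd⟩ := hAP α β Y H (𝒜.filter (fun n => pat n = U)) hβα hadm
    (fun t => by
      refine le_trans ?_ ((hαT t).trans hTH)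
      exact Nat.le_mul_of_pos_right _ hW0) hYH
    (by
      have h1 : H₀ ≤ T := by omega
      exact h1.trans hTH)
    (by
      refine (filter_subset _ _).trans ?_
      rw [h𝒜]
      exact filter_subset _ _)
    (by
      intro x hx t p hp hpH
      rw [mem_filter, h𝒜, mem_filter] at hx
      apply hx.1.2.1 t p hp
      have hTr : (1 : ℝ) < T := by exact_mod_cast (by omega : 1 < T)
      have hTr0 : (0 : ℝ) < T := by linarith
      have h1 : (H : ℝ) ≤ (T : ℝ) ^ (((2 ^ (e + 6) * (K + 1) : ℕ)) : ℝ) := by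
        rw [Real.rpow_natCast, pow_mul]
        have h2 : H ≤ (T ^ (2 ^ (e + 6))) ^ (K + 1) := by
          rw [← hZT]
          exact hHZ
        exact_mod_cast h2
      have h2 : (H : ℝ) ^ δ ≤ (T : ℝ) ^ ((1 : ℝ) / 2) := by
        calc (H : ℝ) ^ δ ≤ ((T : ℝ) ^ (((2 ^ (e + 6) * (K + 1) : ℕ)) : ℝ)) ^ δ :=
              Real.rpow_le_rpow (Nat.cast_nonneg _) h1 hδ0.le
          _ = (T : ℝ) ^ ((1 : ℝ) / 2) := by
              rw [← Real.rpow_mul hTr0.le]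
              congr 1
              rw [hδ]
              push_cast
              field_simp
      have h3 : (T : ℝ) ^ ((1 : ℝ) / 2) < T := by
        calc (T : ℝ) ^ ((1 : ℝ) / 2) < (T : ℝ) ^ (1 : ℝ) :=
              Real.rpow_lt_rpow_of_exponent_lt hTr (by norm_num)
          _ = T := Real.rpow_one _
      have h4 : (p : ℝ) < T := by linarith
      exact_mod_cast h4)
    hdens
  have hmem : ∀ j < ℓ + 1, n + j * d ∈ Ioc Y (Y + H) ∧
      (∀ t, ∀ p : ℕ, p.Prime → p < T → ¬ p ∣ α t * (n + j * d) + β t) ∧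
      m < (pat (n + j * d)).card ∧ pat (n + j * d) = U := by
    intro j hj
    have h1 := hnd j hj
    rw [mem_filter, h𝒜, mem_filter] at h1
    exact ⟨h1.1.1, h1.1.2.1, h1.1.2.2, h1.2⟩
  have h0 := hmem 0 (by omega)
  rw [zero_mul, add_zero] at h0
  refine ⟨n, d, U, ?_, hd1, ?_, mem_powerset.1 hU, ?_, ?_⟩
  · exact (mem_Ioc.1 h0.1).2.trans hYHZ
  · refine hd2.trans ?_
    have hH0 : (0 : ℝ) < H := by exact_mod_cast (by omega : 0 < H)
    have h1 : Real.log H ≤ ((K : ℝ) + 1) * Real.log Z := by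
      have h2 : Real.log H ≤ Real.log ((Z : ℝ) ^ (K + 1)) := by
        apply Real.log_le_log hH0
        exact_mod_cast hHZ
      rw [Real.log_pow] at h2
      push_cast at h2
      exact h2
    have h2 : (K : ℝ) + 1 ≤ Real.log Z := by
      have h3 := log_pp (Jn + e + 6)
      rw [← hZ] at h3
      have h4 : (Jn : ℝ) ≤ 2 ^ (Jn + e + 6) := by
        have h5 : Jn ≤ 2 ^ (Jn + e + 6) :=
          (Nat.lt_two_pow_self.le).trans (Nat.pow_le_pow_right (by norm_num) (by omega))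
        exact_mod_cast h5
      have h5 : (2 * K + 3 : ℝ) ≤ Jn := by
        have h6 : 2 * K + 3 ≤ Jn := by omega
        exact_mod_cast h6
      linarith
    have h3 : 0 ≤ Real.log H := Real.log_natCast_nonneg H
    have h4 : 0 ≤ Real.log Z := Real.log_natCast_nonneg Z
    rw [pow_mul]
    apply pow_le_pow_left₀ h3
    calc Real.log H ≤ ((K : ℝ) + 1) * Real.log Z := h1
      _ ≤ Real.log Z * Real.log Z := mul_le_mul_of_nonneg_right h2 h4
      _ = Real.log Z ^ 2 := by ring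
  · rw [← h0.2.2.2]
    exact h0.2.2.1
  · intro j hj
    obtain ⟨h1, h2, h3, h4⟩ := hmem j (by omega)
    constructor
    · intro i hi
      rw [← h4, hpat, mem_filter] at hi
      exact hi.2
    · intro i p hp hpd
      by_contra hcon
      apply h2 (ι i) p hp (by omega)
      rw [(hαβ i).1, (hαβ i).2]
      exact hpd

end Run7.h296
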