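import Pool.Agent.Run7.h296.S8
import Pool.Agent.Run7.h296.S3

/-!
Arithmetic progressions at which linear forms are almost primes; many of them primes.
-/

set_option autoImplicit false

open Finset

namespace Run7.h296

open Run7.h296.SL (FF Adm dvd_FF sysP_FF lin_ap)
open Pool.Agent.Y677.RSZ (rt V)
open Pool.Agent.R498.MT Pool.Agent.H262R3.Lk Pool.Agent.W505.MH

/-- a bound for a power of a logarithm -/
theorem log_pow_bd {x P : ℕ} (B : ℕ) {c : ℝ} (hx : 1 ≤ x) (hP : 2 ≤ P)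
    (h : Real.log x ≤ c * Real.log P) : Real.log x ^ B ≤ c ^ B * Real.log P ^ B := by
  rw [← mul_pow]
  exact pow_le_pow_left₀ (Real.log_natCast_nonneg x) h B

/-- **progressions at which the forms are free of small primes** -/
theorem rough_ap (s B ℓ : ℕ) : ∃ (A C : ℕ) (γ : ℝ), 0 < γ ∧ ∀ (a b : Fin s → ℕ) (P : ℕ),
    (∀ i, 1 ≤ b i ∧ b i < a i) → Adm a b → (∀ i, a i ≤ P) → 2 ≤ P →
    ∃ n d : ℕ, (n : ℝ) ≤ γ * (P : ℝ) ^ A ∧ 1 ≤ d ∧ (d : ℝ) ≤ γ * Real.log P ^ C ∧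
      ∀ h < ℓ, ∀ i, ∀ p : ℕ, p.Prime → p ∣ a i * (n + h * d) + b i → P ^ B < p := by
  obtain ⟨δ, κ, hδ, hκ, H₁, hlow⟩ := Pool.Agent.K3h89.SZ.lowP Pool.Agent.K3h89.SZ.c1P s
  obtain ⟨C, H₂, hap⟩ := lin_ap s (ℓ + 1) δ κ hδ hκ
  obtain ⟨A₀, hA₀⟩ := exists_nat_ge ((B : ℝ) / δ)
  obtain ⟨M, hM⟩ : ∃ M : ℕ, M = H₁ + H₂ + 2 := ⟨_, rfl⟩
  have hM2 : 2 ≤ M := by omega
  have hMr : (1 : ℝ) ≤ M := by exact_mod_cast (by omega : 1 ≤ M)
  have hlog2 : 0 < Real.log 2 := Real.log_pos (by norm_num)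
  obtain ⟨c, hc⟩ : ∃ c : ℝ, c = Real.log M / Real.log 2 + ((A₀ : ℝ) + 1) := ⟨_, rfl⟩
  have hlogM : 0 ≤ Real.log M := Real.log_natCast_nonneg M
  have hc1 : 1 ≤ c := by
    have h1 : 0 ≤ Real.log M / Real.log 2 := by positivity
    have h2 : (0 : ℝ) ≤ A₀ := Nat.cast_nonneg _
    rw [hc]
    linarith
  refine ⟨A₀ + 1, C, M + c ^ C, by positivity, ?_⟩
  intro a b P hab hadm haP hP2
  have hPr : (1 : ℝ) ≤ P := by exact_mod_cast (by omega : 1 ≤ P)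
  have hPr0 : (0 : ℝ) < P := by linarith
  obtain ⟨H, hH⟩ : ∃ H : ℕ, H = M * P ^ (A₀ + 1) := ⟨_, rfl⟩
  have hPA : 1 ≤ P ^ (A₀ + 1) := Nat.one_le_pow _ _ (by omega)
  have hMH : M ≤ H := by
    rw [hH]
    exact Nat.le_mul_of_pos_right _ hPA
  have hPH : P ≤ H := by
    rw [hH]
    calc P ≤ P ^ (A₀ + 1) := Nat.le_self_pow (by omega) _
      _ ≤ M * P ^ (A₀ + 1) := Nat.le_mul_of_pos_left _ (by omega)
  obtain ⟨A', hA', hrgh, hcard⟩ := hlow (FF a b) 0 H (sysP_FF hadm le_rfl) (by omega)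
  obtain ⟨n, d, hd1, hd2, hnd⟩ := hap a b 0 H A' hab hadm (fun i => (haP i).trans hPH)
    (Nat.zero_le _) (by omega) hA' (by
      intro x hx i p hp hpH hpd
      apply hrgh x hx p hp hpH
      rw [dvd_FF hp]
      exact ⟨i, by exact_mod_cast hpd⟩) hcard
  have h0 := hnd 0 (by omega)
  rw [zero_mul, add_zero] at h0
  have hn := (mem_Ioc.1 (hA' h0)).2
  rw [zero_add] at hn
  have hcC : 0 ≤ c ^ C := by positivity
  refine ⟨n, d, ?_, hd1, ?_, ?_⟩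
  · have h1 : (n : ℝ) ≤ (M : ℝ) * (P : ℝ) ^ (A₀ + 1) := by
      have h2 : n ≤ M * P ^ (A₀ + 1) := by rw [← hH]; exact hn
      exact_mod_cast h2
    refine h1.trans ?_
    apply mul_le_mul_of_nonneg_right _ (by positivity)
    linarith
  · refine hd2.trans ?_
    have h1 : Real.log H ≤ c * Real.log P := by
      have hlogP : Real.log 2 ≤ Real.log P := Real.log_le_log (by norm_num) (by exact_mod_cast hP2)
      rw [hH, hc]
      push_cast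
      rw [Real.log_mul (by positivity) (by positivity), Real.log_pow, add_mul]
      apply add_le_add
      · rw [div_mul_eq_mul_div, le_div_iff₀ hlog2]
        exact mul_le_mul_of_nonneg_left hlogP hlogM
      · push_cast
        exact le_rfl
    have h2 := log_pow_bd C (by omega : 1 ≤ H) hP2 h1
    refine h2.trans ?_
    apply mul_le_mul_of_nonneg_right _ (by
      have := Real.log_natCast_nonneg P
      positivity)
    linarith
  · intro h hh i p hp hpd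
    by_contra hcon
    have hmem := hnd h (by omega)
    apply hrgh _ hmem p hp
    · have h1 : (p : ℝ) ≤ (P : ℝ) ^ B := by
        have h2 : p ≤ P ^ B := by omega
        exact_mod_cast h2
      refine h1.trans ?_
      have h2 : (B : ℝ) ≤ δ * A₀ := by
        rw [div_le_iff₀ hδ] at hA₀
        linarith
      calc (P : ℝ) ^ B = (P : ℝ) ^ (B : ℝ) := (Real.rpow_natCast _ _).symm
        _ ≤ (P : ℝ) ^ (δ * A₀) := Real.rpow_le_rpow_of_exponent_le hPr h2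
        _ = ((P : ℝ) ^ A₀) ^ δ := by
            rw [mul_comm, Real.rpow_mul hPr0.le, Real.rpow_natCast]
        _ ≤ (H : ℝ) ^ δ := by
            apply Real.rpow_le_rpow (by positivity) _ hδ.le
            have h3 : P ^ A₀ ≤ H := by
              rw [hH]
              calc P ^ A₀ ≤ P ^ (A₀ + 1) := Nat.pow_le_pow_right (by omega) (by omega)
                _ ≤ _ := Nat.le_mul_of_pos_left _ (by omega)
            exact_mod_cast h3
    · rw [dvd_FF hp]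
      exact ⟨i, by exact_mod_cast hpd⟩

open Classical in
/-- **progressions at which many forms are prime and the others are free of small primes** -/
theorem engAP : ∃ (C₀ : ℕ) (q₁ : ℕ → ℕ) (χ₁ : ∀ z : ℕ, DirichletCharacter ℂ (q₁ z)), 1 ≤ C₀ ∧
    (∀ B : ℕ, ∃ z0 : ℕ, ∀ z : ℕ, z0 ≤ z → (Real.log z) ^ B < (q₁ z : ℝ)) ∧
    (∀ z, 1 < q₁ z ∧ (∀ p : ℕ, p.Prime → p ≠ 2 → ¬ p ^ 2 ∣ q₁ z) ∧ ¬ 16 ∣ q₁ z) ∧
    (∀ z, (χ₁ z) ^ 2 = 1 ∧ (χ₁ z).IsPrimitive) ∧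
    ∀ m₀ k ℓ : ℕ, C₀ * (m₀ + 1) ≤ k → ∃ e D₁ K C J₀ : ℕ, ∀ Jn : ℕ, J₀ ≤ Jn →
      ∀ (D₂ P s : ℕ) (a b : Fin s → ℕ), D₁ ≤ D₂ → 2 ^ k ≤ D₂ → 2 ^ k ≤ WW D₂ P → 2 ≤ D₂ →
      D₂.factorial ^ 8 ≤ 2 ^ 2 ^ Jn → P ≠ 0 → P ^ 12 ≤ 2 ^ 2 ^ Jn → D₂ < 2 ^ 2 ^ Jn → s ≤ 2 ^ k →
      (∀ i, 1 ≤ b i ∧ b i < a i) → Function.Injective (fun i => (a i, b i)) → Adm a b →
      (∀ i, a i ∣ P) → ∀ (G : Finset (Fin s)) (m : ℕ),
      (NuS a b (WW D₂ P)).card ≤ 4 * ((NuS a b (WW D₂ P)).filter (fun ν =>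
        m * 2 ^ k + 1 ≤ (m₀ + 1) * (G.filter (fun i => q₁ (2 ^ 2 ^ (Jn + e + 6)) ∣ a i * WW D₂ P →
          χ₁ (2 ^ 2 ^ (Jn + e + 6)) ((a i * ν + b i : ℕ) :
            ZMod (q₁ (2 ^ 2 ^ (Jn + e + 6)))) = -1)).card)).card →
      ∃ (n d : ℕ) (U : Finset (Fin s)), n ≤ (2 ^ 2 ^ (Jn + e + 6)) ^ (K + 1) ∧ 1 ≤ d ∧
        (d : ℝ) ≤ Real.log ((2 ^ 2 ^ (Jn + e + 6) : ℕ) : ℝ) ^ C ∧ U ⊆ G ∧ m < U.card ∧
        ∀ j < ℓ, (∀ i ∈ U, (a i * (n + j * d) + b i).Prime) ∧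
          ∀ i, ∀ p : ℕ, p.Prime → p ∣ a i * (n + j * d) + b i → 2 ^ 2 ^ Jn ≤ p := by
  obtain ⟨C₀, q₁, χ₁, hC₀, hq1, hq2, hq3, heng⟩ := engineQ
  refine ⟨C₀, q₁, χ₁, hC₀, hq1, hq2, hq3, ?_⟩
  intro m₀ k ℓ hk
  obtain ⟨e, D₁, K, κ, hK, hκ, J₁, hJ₁⟩ := heng m₀ k hk
  obtain ⟨C, J₂, hasm⟩ := ap_assembly k ℓ e K κ hκ hK
  refine ⟨e, D₁, K, C, J₁ + J₂, ?_⟩
  intro Jn hJn D₂ P s a b hDD hkD hkW hD2 hT1 hP0 hT2 hDT hsk hab hinj hadm haP G m hN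
  obtain ⟨ι⟩ : Nonempty (Fin s ↪ Fin (2 ^ k)) := by
    apply Function.Embedding.nonempty_of_card_le
    rw [Fintype.card_fin, Fintype.card_fin]
    exact hsk
  obtain ⟨α, β, hαβ, hβα, hadmα, hαle, hNu, hsys⟩ := redA a b hab hinj hadm hP0 haP ι hkD hkW hD2
  have hsys' := hsys Jn e D₁ hDD hT1 hT2 hDT
  obtain ⟨W, hW⟩ : ∃ W : ℕ, W = WW D₂ P := ⟨_, rfl⟩
  have hWsq : Squarefree W := by
    rw [hW]
    exact WW_squarefree hP0
  have hPT : P < 2 ^ 2 ^ Jn := by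
    rcases Nat.lt_or_ge P 2 with h | h
    · exact lt_of_lt_of_le h (two_le_pp Jn)
    · calc P < P ^ 12 := by
            have : P ^ 1 < P ^ 12 := Nat.pow_lt_pow_right (by omega) (by norm_num)
            rwa [pow_one] at this
        _ ≤ _ := hT2
  have hWT : ∀ p : ℕ, p.Prime → p ∣ W → p < 2 ^ 2 ^ Jn := by
    intro p hp hpW
    rw [hW] at hpW
    rcases (prime_dvd_WW hP0 hp).1 hpW with h | h
    · omega
    · exact lt_of_le_of_lt (Nat.le_of_dvd (Nat.pos_of_ne_zero hP0) h) hPT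
  obtain ⟨ν₀, hν₀⟩ := NuS_nonempty (D₁ := D₂) hP0 a b hadm
  have hν₀' : ν₀ ∈ NuS α β (WW D₂ P) := by rw [← hNu]; exact hν₀
  have hαT : ∀ t, α t * W ≤ 2 ^ 2 ^ Jn := fun t => by
    rw [hW]
    exact (hsys' ν₀ hν₀').AT t
  rw [← hW] at hsys' hNu hN hν₀
  obtain ⟨N', hN'⟩ : ∃ N' : Finset ℕ, N' = (NuS a b W).filter (fun ν =>
        m * 2 ^ k + 1 ≤ (m₀ + 1) * (G.filter (fun i => q₁ (2 ^ 2 ^ (Jn + e + 6)) ∣ a i * W →
          χ₁ (2 ^ 2 ^ (Jn + e + 6)) ((a i * ν + b i : ℕ) :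
            ZMod (q₁ (2 ^ 2 ^ (Jn + e + 6)))) = -1)).card) := ⟨_, rfl⟩
  rw [← hN'] at hN
  have hNpos : 0 < (NuS a b W).card := card_pos.2 ⟨ν₀, hν₀⟩
  apply hasm Jn (by omega) W s a b α β ι hαβ hβα hadmα hWsq hWT hαT G m N'
  · rw [← hNu, hN']
    exact filter_subset _ _
  · rw [← card_pos]
    omega
  · rw [← hNu]
    exact hN
  · intro ν hν
    rw [hN', mem_filter] at hν
    obtain ⟨hν1, hν2⟩ := hν
    obtain ⟨Hν, hHν⟩ : ∃ Hν : Finset (Fin s), Hν =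
      G.filter (fun i => q₁ (2 ^ 2 ^ (Jn + e + 6)) ∣ a i * W →
          χ₁ (2 ^ 2 ^ (Jn + e + 6)) ((a i * ν + b i : ℕ) :
            ZMod (q₁ (2 ^ 2 ^ (Jn + e + 6)))) = -1) := ⟨_, rfl⟩
    rw [← hHν] at hν2
    have h1 := hJ₁ Jn (by omega) W (fun t => α t * W) (fun t => α t * ν + β t)
      (hsys' ν (by rw [← hNu]; exact hν1)) (Hν.map ι) (by
        intro x hx hdiv
        rw [mem_map] at hx
        obtain ⟨i, hi, rfl⟩ := hx
        rw [hHν, mem_filter] at hi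
        simp only [(hαβ i).1] at hdiv
        simp only [(hαβ i).1, (hαβ i).2]
        exact hi.2 hdiv) m (by rw [card_map]; exact hν2)
    have h2 : ∏ p ∈ PS Jn W, (1 - gg (fun t : Fin (2 ^ k) => α t * W)
        (fun t : Fin (2 ^ k) => α t * ν + β t) p) =
        ∏ p ∈ PS Jn W, (1 - (rt (FF α β) p : ℝ) / p) := by
      apply prod_congr rfl
      intro p hp
      rw [gg_eq α β hadmα (mem_PS.1 hp).1 (mem_PS.1 hp).2.2]
    rw [h2] at h1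
    refine h1.trans ?_
    apply sum_le_sum_of_subset_of_nonneg
    · intro l hl
      rw [mem_filter] at hl ⊢
      refine ⟨hl.1, hl.2.2, ?_⟩
      refine lt_of_lt_of_le hl.2.1 ?_
      rw [filter_map, card_map]
      apply card_le_card
      intro i hi
      rw [mem_filter] at hi ⊢
      refine ⟨(mem_filter.1 (hHν ▸ hi.1)).1, ?_⟩
      have h3 := hi.2
      simp only [Function.comp_apply, (hαβ i).1, (hαβ i).2] at h3
      have e1 : a i * (ν + W * l) + b i = a i * ν + b i + a i * W * l := by ring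
      rw [e1]
      exact h3
    · intro l _ _
      positivity

end Run7.h296
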