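import Pool.Agent.Run7.h296.Cx

/-!
The part of the sum coming from the rough integers.
-/

set_option autoImplicit false

open Finset

namespace Run7.h296

open Pool.Agent.R498.MT Pool.Agent.H262R3.Lk Pool.Agent.W505.MH
open Pool.Agent.H318R2.Cr (Rgh V V_pos V_le_one)

/-- the first cut -/
def l0 (Jn e : ℕ) : ℕ := (2 ^ 2 ^ (Jn + e)) ^ 8

/-- the second cut -/
def l1 (Jn e b' : ℕ) : ℕ := (2 ^ 2 ^ (Jn + e + 6)) ^ (4 * b' + 8)

theorem Z_eq (Jn e : ℕ) : 2 ^ 2 ^ (Jn + e + 6) = (2 ^ 2 ^ (Jn + e)) ^ 64 := by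
  rw [← pow_mul]
  congr 1
  rw [pow_add]
  norm_num

theorem l0_ge {Jn e : ℕ} (h : 1 ≤ Jn) : 32 ≤ l0 Jn e := by
  unfold l0
  have h1 : 4 ≤ 2 ^ 2 ^ (Jn + e) := four_le_T (by omega)
  calc 32 ≤ 4 ^ 8 := by norm_num
    _ ≤ _ := Nat.pow_le_pow_left h1 8

theorem l01 (Jn e b' : ℕ) : l0 Jn e ≤ l1 Jn e b' := by
  unfold l0 l1
  rw [Z_eq, ← pow_mul (2 ^ 2 ^ (Jn + e)) 64]
  apply Nat.pow_le_pow_right (by positivity)
  omega

theorem TY (Jn e : ℕ) : 2 ^ 2 ^ Jn ≤ 2 ^ 2 ^ (Jn + e) :=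
  Nat.pow_le_pow_right (by norm_num) (Nat.pow_le_pow_right (by norm_num) (by omega))

section
variable {k Jn e b b' W D₁ : ℕ} {C₁ E D : ℝ} {A B : Fin (2 ^ k) → ℕ}

theorem Ctx.mZ (c : Ctx k Jn e b b' W D₁ C₁ E D A B) (i : Fin (2 ^ k)) :
    B i + A i * l0 Jn e ≤ 2 ^ 2 ^ (Jn + e + 6) := by
  have h1 := c.BA i
  have h2 := (c.AT i).trans (TY Jn e)
  rw [Z_eq]
  unfold l0
  have h4 : 4 ≤ 2 ^ 2 ^ (Jn + e) := four_le_T (by have := c.J1; omega)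
  generalize 2 ^ 2 ^ (Jn + e) = y at *
  have h5 : 1 ≤ y ^ 8 := Nat.one_le_pow _ _ (by omega)
  calc B i + A i * y ^ 8 ≤ y * y ^ 8 + y * y ^ 8 := by
        apply add_le_add
        · nlinarith
        · exact Nat.mul_le_mul_right _ h2
    _ = 2 * y ^ 9 := by ring
    _ ≤ y * y ^ 9 := Nat.mul_le_mul_right _ (by omega)
    _ = y ^ 10 := by ring
    _ ≤ y ^ 64 := Nat.pow_le_pow_right (by omega) (by norm_num)

theorem Ctx.mW (c : Ctx k Jn e b b' W D₁ C₁ E D A B) (i : Fin (2 ^ k)) (l : ℕ) (p : ℕ)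
    (hp : p.Prime) (hpW : p ∣ W) : ¬ p ∣ B i + A i * l := by
  intro h
  have h1 : p ∣ A i := (c.AW i p hp).2 hpW
  have h2 : p ∣ B i := (Nat.dvd_add_left (h1.mul_right l)).1 h
  have h3 := Nat.dvd_gcd h2 h1
  rw [(c.cop i)] at h3
  exact hp.one_lt.ne' (Nat.dvd_one.1 h3)

theorem Ctx.M0 (c : Ctx k Jn e b b' W D₁ C₁ E D A B) (i : Fin (2 ^ k)) : 0 ≤ MM k Jn e i := by
  have hε : (0 : ℝ) < (1 / 2) ^ e := by positivity
  have h1 := Mt_lower k C₁ (1 / 2) c.C0 (by norm_num) _ hε c.ep 1 _ _ _ c.dat i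
  refine le_trans ?_ h1
  have h2 := I2_one c.dat hε (by norm_num) k
  have h3 : 1 ≤ If (fun t : SS Jn e => 1 / (((t : ℕ) : ℝ) - 1))
    (lsz ((2 ^ 2 ^ (Jn + e) : ℕ) : ℝ)) (1 / 2) k := one_le_pow₀ h2
  apply mul_nonneg (div_nonneg (sq_nonneg _) (by linarith)) (by linarith)

theorem LL_bdd (A B : Fin (2 ^ k) → ℕ) (Jn e : ℕ) (i : Option (Fin (2 ^ k))) :
    ∃ C : ℝ, 0 ≤ C ∧ ∀ l, |LL A B Jn e i l| ≤ C := by
  classical
  refine ⟨∑ x : SS Jn e → Option (Fin (2 ^ k)), |Lam i (fun t : SS Jn e => ((t : ℕ) : ℝ))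
    (fun t : SS Jn e => 1 / (((t : ℕ) : ℝ) - 1)) (yS k Jn e) x|,
    sum_nonneg fun x _ => abs_nonneg _, fun l => ?_⟩
  unfold LL
  exact single_le_sum (f := fun x : SS Jn e → Option (Fin (2 ^ k)) =>
    |Lam i (fun t : SS Jn e => ((t : ℕ) : ℝ))
    (fun t : SS Jn e => 1 / (((t : ℕ) : ℝ) - 1)) (yS k Jn e) x|) (fun x _ => abs_nonneg _)
    (mem_univ _)

theorem wq_abs (i : Fin (2 ^ k)) (Q : Finset ℕ) (ρ : Finset ℕ → ℝ) (l : ℕ) :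
    |wq A B i Q ρ l| ≤ ∑ T ∈ Q.powerset, |ρ T| := by
  unfold wq
  refine (abs_sum_le_sum_abs _ _).trans (sum_le_sum fun T _ => ?_)
  rw [abs_mul, abs_prod]
  apply mul_le_of_le_one_right (abs_nonneg _)
  exact prod_le_one (fun _ _ => abs_nonneg _) fun p _ => by
    have := hitf_01 (A := A) (B := B) i p l
    rw [abs_of_nonneg this.1]
    exact this.2

theorem summ_w {ν : ℕ → ℝ} (hν : Summable ν) (P : Finset ℕ) (ρ : Finset ℕ → ℝ) (Jn e : ℕ)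
    (i : Option (Fin (2 ^ k))) :
    Summable (fun l => ν l * (wt A B P ρ l * LL A B Jn e i l ^ 2)) := by
  obtain ⟨C, hC, h⟩ := LL_bdd A B Jn e i
  apply summ_bd hν _ ((∑ T ∈ P.powerset, |ρ T|) * C ^ 2)
  intro l
  rw [abs_mul, abs_pow]
  exact mul_le_mul (wt_abs P ρ l) (pow_le_pow_left₀ (abs_nonneg _) (h l) 2) (by positivity)
    (sum_nonneg fun T _ => abs_nonneg _)

theorem summ_q {ν : ℕ → ℝ} (hν : Summable ν) (P Q : Finset ℕ) (ρ ρa : Finset ℕ → ℝ) (Jn e : ℕ)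
    (j : Fin (2 ^ k)) (i : Option (Fin (2 ^ k))) :
    Summable (fun l => (ν l * wt A B P ρ l) * (wq A B j Q ρa l * LL A B Jn e i l ^ 2)) := by
  obtain ⟨C, hC, h⟩ := LL_bdd A B Jn e i
  have h1 : Summable (fun l => ν l * wt A B P ρ l) := summ_bd hν _ _ (wt_abs P ρ)
  apply summ_bd h1 _ ((∑ T ∈ Q.powerset, |ρa T|) * C ^ 2)
  intro l
  rw [abs_mul, abs_pow]
  exact mul_le_mul (wq_abs j Q ρa l) (pow_le_pow_left₀ (abs_nonneg _) (h l) 2) (by positivity)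
    (sum_nonneg fun T _ => abs_nonneg _)

/-- the trivial weights -/
def del (T : Finset ℕ) : ℝ := if T = ∅ then 1 else 0

theorem del_sum (Q : Finset ℕ) (w : ℕ → ℝ) (f : ℝ → ℝ) (h0 : f 0 = 0) (h1 : f 1 = 1) :
    ∑ T ∈ Q.powerset, f (del T) * ∏ p ∈ T, w p = 1 := by
  rw [sum_eq_single ∅]
  · simp [del, h1]
  · intro T _ hT
    simp [del, hT, h0]
  · intro h
    exact absurd (empty_mem_powerset Q) h

theorem wq_del (i : Fin (2 ^ k)) (Q : Finset ℕ) (l : ℕ) : wq A B i Q del l = 1 :=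
  del_sum Q _ id rfl rfl

theorem inj_form {A B : ℕ} (hA : 1 ≤ A) : Function.Injective (fun l : ℕ => B + A * l) := by
  intro a b hab
  simp only at hab
  have : A * a = A * b := by omega
  exact Nat.eq_of_mul_eq_mul_left hA this

theorem aj_summable {σ : ℝ} (hσ : 0 < σ) (Z : ℕ) {A B : ℕ} (hA : 1 ≤ A) :
    Summable (fun l => aj Z 1 1 3 σ (B + A * l)) :=
  (Pool.Agent.W933.MHSum.sum_ Z 1 1 3 σ hσ).1.comp_injective (inj_form hA)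

theorem RM.aP {b Jn : ℕ} {P : Finset ℕ} {g : ℕ → ℝ} (h : RM b Jn P g) :
    ∑ T ∈ P.powerset, |rhoP b Jn T| * ∏ l ∈ T, g l ≤ ∏ p ∈ P, (1 + g p) := by
  rw [prod_one_add]
  apply sum_le_sum
  intro T hT
  apply mul_le_of_le_one_left _ (rhoP_abs b Jn T)
  exact prod_nonneg fun p hp => h.g0 p (mem_powerset.1 hT hp)

theorem abs_lo {x y z : ℝ} (h : |x - y| ≤ z) : y - z ≤ x := by
  have := (abs_le.1 h).1
  linarith

theorem abs_up {x y z : ℝ} (h : |x - y| ≤ z) : x ≤ y + z := by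
  have := (abs_le.1 h).2
  linarith

theorem aNum {F₀ F₁ M η VP VQ UQ m1 p1 q1 d1 s1 s2 h hb' T1 T2 T3 T4 : ℝ}
    (hF0 : 0 ≤ F₀) (hF1 : 0 ≤ F₁) (hM : 0 ≤ M) (hη : 0 ≤ η) (hVP : 0 ≤ VP) (hVQ : 0 ≤ VQ)
    (hh1 : h ≤ 1) 
    (m1a : (1 - h) * VP ≤ m1) (m1b : m1 ≤ 2 * VP) (p1a : VP ≤ p1) (p1b : p1 ≤ 2 * VP)
    (dpm : p1 - m1 ≤ h * VP) (q1a : VQ ≤ q1) (d1a : 0 ≤ d1) (d1b : d1 ≤ hb' * VQ)
    (s1a : 0 ≤ s1) (s1b : s1 ≤ UQ) (s2a : 0 ≤ s2) (s2b : s2 ≤ UQ)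
    (hT1 : F₁ * m1 * q1 * M - F₁ * m1 * s1 * η ≤ T1)
    (hT2 : T2 ≤ F₁ * p1 * d1 * M + F₁ * p1 * s2 * η)
    (hT3 : T3 ≤ F₀ * p1 * 1 * M + F₀ * p1 * 1 * η)
    (hT4 : F₀ * m1 * 1 * M - F₀ * m1 * 1 * η ≤ T4) :
    F₁ * VP * VQ * (1 - h - 2 * hb') * M - F₀ * h * VP * M - η * (4 * F₁ * VP * UQ + 4 * F₀ * VP) ≤
      T1 - T2 - (T3 - T4) := by
  have m0 : 0 ≤ m1 := le_trans (mul_nonneg (by linarith) hVP) m1a
  have p0 : 0 ≤ p1 := hVP.trans p1a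
  have a1 : F₁ * ((1 - h) * VP) * VQ * M ≤ F₁ * m1 * q1 * M := by gcongr
  have a2 : F₁ * m1 * s1 * η ≤ F₁ * (2 * VP) * UQ * η := by gcongr
  have a3 : F₁ * p1 * d1 * M ≤ F₁ * (2 * VP) * (hb' * VQ) * M := by gcongr
  have a4 : F₁ * p1 * s2 * η ≤ F₁ * (2 * VP) * UQ * η := by gcongr
  have a5 : F₀ * (p1 - m1) * M ≤ F₀ * (h * VP) * M := by gcongr
  have a6 : F₀ * p1 * η ≤ F₀ * (2 * VP) * η := by gcongr
  have a7 : F₀ * m1 * η ≤ F₀ * (2 * VP) * η := by gcongr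
  nlinarith

/-- **the contribution of the rough integers** -/
theorem Ctx.aPart (c : Ctx k Jn e b b' W D₁ C₁ E D A B) (i : Fin (2 ^ k)) {σ : ℝ} (hσ : 0 < σ)
    (hσ1 : σ ≤ 1) :
    (∑' l, cu (fA σ (A i) (B i)) (l1 Jn e b') l) * (∏ p ∈ PS Jn W, (1 - gg A B p)) *
      (∏ p ∈ QS Jn e, (1 - 1 / (p : ℝ))) * (1 - (1 / 2) ^ b - 2 * (1 / 2) ^ b') * MM k Jn e i -
      (∑' l, cu (fA σ (A i) (B i)) (l0 Jn e) l) * (1 / 2) ^ b * (∏ p ∈ PS Jn W, (1 - gg A B p)) *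
        MM k Jn e i -
      eta k e C₁ E * (4 * (∑' l, cu (fA σ (A i) (B i)) (l1 Jn e b') l) *
        (∏ p ∈ PS Jn W, (1 - gg A B p)) * (∏ p ∈ QS Jn e, (1 + 1 / (p : ℝ))) +
        4 * (∑' l, cu (fA σ (A i) (B i)) (l0 Jn e) l) * (∏ p ∈ PS Jn W, (1 - gg A B p))) ≤
    ∑' l, aj (2 ^ 2 ^ (Jn + e + 6)) 1 1 3 σ (B i + A i * l) *
      (wt A B (PS Jn W) (rhoM b Jn) l * LL A B Jn e (some i) l ^ 2) := by
  have hA := c.A1 i
  have hl0 := l0_ge (e := e) c.J1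
  have hl1 : 32 ≤ l1 Jn e b' := hl0.trans (l01 Jn e b')
  have hs := fA_summable hσ (A := A i) (B := B i) hA
  have hn : ∀ l, 0 ≤ fA σ (A i) (B i) l := fun l => fn_nonneg 3 σ _
  have hF0 : 0 ≤ ∑' l, cu (fA σ (A i) (B i)) (l0 Jn e) l := tsum_nonneg fun l => cu_nonneg hn _ l
  have hF1 : 0 ≤ ∑' l, cu (fA σ (A i) (B i)) (l1 Jn e b') l := tsum_nonneg fun l => cu_nonneg hn _ l
  have hZp : ∀ T ⊆ QS Jn e, ∀ p ∈ T, p.Prime ∧ p < 2 ^ 2 ^ (Jn + e + 6) := fun T hT p hp =>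
    ⟨(mem_QS.1 (hT hp)).1, (mem_QS.1 (hT hp)).2.2⟩
  have hone : (1 : ℝ) ≤ (((2 ^ 2 ^ (Jn + e + 6)) ^ (4 * b' + 6) : ℕ) : ℝ) := by
    exact_mod_cast Nat.one_le_pow _ _ (by positivity)
  have hdl : ∀ T ⊆ QS Jn e, del T ≠ 0 → MS T = 1 := by
    intro T _ h
    unfold del at h
    have hT : T = ∅ := by
      by_contra h2
      rw [if_neg h2] at h
      exact h rfl
    subst hT
    simp [MS]
  have S1 := c.sumB i (l1 Jn e b') (fA_anti hσ hA _ hl1) (fun l _ => hn l) hs hF1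
    (fA_block hσ hσ1 hA hl1) (rhoM b Jn) c.adM (rhoP b' (Jn + e + 6))
    (((2 ^ 2 ^ (Jn + e + 6)) ^ (4 * b' + 6) : ℕ) : ℝ) hone
    (fun T hT h => by exact_mod_cast rho_supp b' _ T (hZp T hT) (Or.inl h))
    (fun T hT h => rho_supp b' _ T (hZp T hT) (Or.inl h)) (by
      have := c.lv1
      unfold l1
      exact this)
  have S2 := c.sumB i (l1 Jn e b') (fA_anti hσ hA _ hl1) (fun l _ => hn l) hs hF1
    (fA_block hσ hσ1 hA hl1) (rhoP b Jn) c.adP (rhoD b' (Jn + e + 6))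
    (((2 ^ 2 ^ (Jn + e + 6)) ^ (4 * b' + 6) : ℕ) : ℝ) hone
    (fun T hT h => by exact_mod_cast rho_supp b' _ T (hZp T hT) (Or.inr h))
    (fun T hT h => rho_supp b' _ T (hZp T hT) (Or.inr h)) (by
      have := c.lv1
      unfold l1
      exact this)
  have S3 := c.sumB i (l0 Jn e) (fA_anti hσ hA _ hl0) (fun l _ => hn l) hs hF0
    (fA_block hσ hσ1 hA hl0) (rhoP b Jn) c.adP del 1 le_rfl
    (fun T hT h => by rw [hdl T hT h]; norm_num)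
    (fun T hT h => by rw [hdl T hT h]; exact Nat.one_le_pow _ _ (by positivity)) (by
      have := c.lv0
      unfold l0
      exact this)
  have S4 := c.sumB i (l0 Jn e) (fA_anti hσ hA _ hl0) (fun l _ => hn l) hs hF0
    (fA_block hσ hσ1 hA hl0) (rhoM b Jn) c.adM del 1 le_rfl
    (fun T hT h => by rw [hdl T hT h]; norm_num)
    (fun T hT h => by rw [hdl T hT h]; exact Nat.one_le_pow _ _ (by positivity)) (by
      have := c.lv0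
      unfold l0
      exact this)
  rw [show (∑ T ∈ (QS Jn e).powerset, del T * ∏ p ∈ T, 1 / (p : ℝ)) = 1 from
    del_sum (QS Jn e) _ id rfl rfl] at S3 S4
  rw [show (∑ T ∈ (QS Jn e).powerset, |del T| * ∏ p ∈ T, 1 / (p : ℝ)) = 1 from
    del_sum (QS Jn e) _ abs abs_zero abs_one] at S3 S4
  have hsum : (∑' l, (cu (fA σ (A i) (B i)) (l1 Jn e b') l * wt A B (PS Jn W) (rhoM b Jn) l) *
        (wq A B i (QS Jn e) (rhoP b' (Jn + e + 6)) l * LL A B Jn e (some i) l ^ 2)) -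
      (∑' l, (cu (fA σ (A i) (B i)) (l1 Jn e b') l * wt A B (PS Jn W) (rhoP b Jn) l) *
        (wq A B i (QS Jn e) (rhoD b' (Jn + e + 6)) l * LL A B Jn e (some i) l ^ 2)) -
      ((∑' l, (cu (fA σ (A i) (B i)) (l0 Jn e) l * wt A B (PS Jn W) (rhoP b Jn) l) *
        (wq A B i (QS Jn e) del l * LL A B Jn e (some i) l ^ 2)) -
      (∑' l, (cu (fA σ (A i) (B i)) (l0 Jn e) l * wt A B (PS Jn W) (rhoM b Jn) l) *
        (wq A B i (QS Jn e) del l * LL A B Jn e (some i) l ^ 2))) ≤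
      ∑' l, aj (2 ^ 2 ^ (Jn + e + 6)) 1 1 3 σ (B i + A i * l) *
      (wt A B (PS Jn W) (rhoM b Jn) l * LL A B Jn e (some i) l ^ 2) := by
    have z1 := summ_q (A := A) (B := B) (cu_summable hs (l1 Jn e b')) (PS Jn W) (QS Jn e) (rhoM b Jn)
      (rhoP b' (Jn + e + 6)) Jn e i (some i)
    have z2 := summ_q (A := A) (B := B) (cu_summable hs (l1 Jn e b')) (PS Jn W) (QS Jn e) (rhoP b Jn)
      (rhoD b' (Jn + e + 6)) Jn e i (some i)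
    have z3 := summ_q (A := A) (B := B) (cu_summable hs (l0 Jn e)) (PS Jn W) (QS Jn e) (rhoP b Jn)
      del Jn e i (some i)
    have z4 := summ_q (A := A) (B := B) (cu_summable hs (l0 Jn e)) (PS Jn W) (QS Jn e) (rhoM b Jn)
      del Jn e i (some i)
    rw [← z1.tsum_sub z2, ← z3.tsum_sub z4, ← (z1.sub z2).tsum_sub (z3.sub z4)]
    apply Summable.tsum_le_tsum _ ((z1.sub z2).sub (z3.sub z4))
      (summ_w (aj_summable hσ _ hA) (PS Jn W) (rhoM b Jn) Jn e (some i))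
    intro l
    have h1 := pt_sum i Jn e W b b' (l0 Jn e) (l1 Jn e b') l (σ := σ) (l01 Jn e b') (by omega) hA
      (c.mZ i) (c.mW i l)
    have h2 := mul_le_mul_of_nonneg_right h1 (sq_nonneg (LL A B Jn e (some i) l))
    refine le_trans (le_of_eq ?_) (h2.trans (le_of_eq (by ring)))
    rw [wq_del, wt_M]
    ring
  refine le_trans ?_ hsum
  have hQ := c.rmQ
  have hP := c.rmP
  have hm := rhoM_sum b Jn (PS Jn W) (gg A B)
  have hhb : (0 : ℝ) ≤ (1 / 2) ^ b := by positivity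
  have hhb1 : (1 / 2 : ℝ) ^ b ≤ 1 / 2 := pow_half_le c.b1
  have hhb' : (0 : ℝ) ≤ (1 / 2) ^ b' := by positivity
  have hhb1' : (1 / 2 : ℝ) ^ b' ≤ 1 := pow_le_one₀ (by norm_num) (by norm_num)
  have hη : 0 ≤ eta k e C₁ E := by
    have hε : (0 : ℝ) < (1 / 2) ^ e := by positivity
    have hε1 : (1 / 2 : ℝ) ^ e ≤ 1 := pow_le_one₀ (by norm_num) (by norm_num)
    obtain ⟨o1, -, -, -, -⟩ := om_bd k C₁ ((1 / 2) ^ e) c.C0 hε hε1
    have h1 := Ab_one k ((1 / 2) ^ e) hε hε1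
    have h2 : 1 ≤ Real.exp (6 * ((2 ^ k : ℕ) : ℝ) ^ 2 * om k C₁ ((1 / 2) ^ e)) :=
      Real.one_le_exp (by positivity)
    have h3 := c.E0.le
    unfold eta
    apply mul_nonneg <;> linarith
  have hUQ : 0 ≤ ∏ p ∈ QS Jn e, (1 + 1 / (p : ℝ)) := prod_nonneg fun p _ => by positivity
  refine aNum hF0 hF1 (c.M0 i) hη hP.pos.le hQ.pos.le (by linarith)
    (m1 := ∑ T' ∈ (PS Jn W).powerset, rhoM b Jn T' * ∏ p ∈ T', gg A B p)
    (p1 := ∑ T' ∈ (PS Jn W).powerset, rhoP b Jn T' * ∏ p ∈ T', gg A B p)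
    (q1 := ∑ T ∈ (QS Jn e).powerset, rhoP b' (Jn + e + 6) T * ∏ p ∈ T, (1 / (p : ℝ)))
    (d1 := ∑ T ∈ (QS Jn e).powerset, rhoD b' (Jn + e + 6) T * ∏ p ∈ T, (1 / (p : ℝ)))
    (s1 := ∑ T ∈ (QS Jn e).powerset, |rhoP b' (Jn + e + 6) T| * ∏ p ∈ T, (1 / (p : ℝ)))
    (s2 := ∑ T ∈ (QS Jn e).powerset, |rhoD b' (Jn + e + 6) T| * ∏ p ∈ T, (1 / (p : ℝ)))
    ?_ c.adM.a4 hP.p1 c.adP.a4 ?_ hQ.p1 hQ.d1 hQ.d2 ?_ hQ.aP ?_ ?_ (abs_lo S1) (abs_up S2)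
    (abs_up S3) (abs_lo S4)
  · rw [hm]
    have := hP.p1
    have := hP.d2
    linarith
  · rw [hm]
    have := hP.d2
    linarith
  · exact sum_nonneg fun T _ => mul_nonneg (abs_nonneg _) (prod_nonneg fun p _ => by positivity)
  · exact sum_nonneg fun T _ => mul_nonneg (abs_nonneg _) (prod_nonneg fun p _ => by positivity)
  · refine hQ.d3.trans ?_
    exact mul_le_of_le_one_left hUQ hhb1'

end

end Run7.h296
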