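import Pool.Agent.Run7.h296.Sa

/-!
The part of the sum coming from the primes.
-/

set_option autoImplicit false

open Finset

namespace Run7.h296

open Pool.Agent.R498.MT Pool.Agent.H262R3.Lk Pool.Agent.W505.MH
open Pool.Agent.H318R2.Cr (Rgh V V_pos V_le_one cz_bounds)

theorem abs_quad_le {S J : Type} [Fintype S] [DecidableEq S] [Fintype J] [DecidableEq J]
    (μ : S → ℝ) (y : (S → Option J) → ℝ) (hy : ∀ σ, |y σ| ≤ 1)
    (V : S → Option J → Option J → ℝ) :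
    |∑ σ, ∑ τ, cw μ y σ * cw μ y τ * ∏ t, V t (σ t) (τ t)| ≤
      ∏ t, ∑ a, ∑ b, |cf (μ t) a| * |cf (μ t) b| * |V t a b| := by
  rw [← sum_prod2 (fun t a b => |cf (μ t) a| * |cf (μ t) b| * |V t a b|)]
  refine (abs_sum_le_sum_abs _ _).trans (sum_le_sum fun σ _ => ?_)
  refine (abs_sum_le_sum_abs _ _).trans (sum_le_sum fun τ _ => ?_)
  rw [abs_mul, abs_mul, abs_prod]
  have h1 : |cw μ y σ| ≤ ∏ t, |cf (μ t) (σ t)| := by
    unfold cw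
    rw [abs_mul, abs_prod]
    exact mul_le_of_le_one_right (prod_nonneg fun _ _ => abs_nonneg _) (hy σ)
  have h2 : |cw μ y τ| ≤ ∏ t, |cf (μ t) (τ t)| := by
    unfold cw
    rw [abs_mul, abs_prod]
    exact mul_le_of_le_one_right (prod_nonneg fun _ _ => abs_nonneg _) (hy τ)
  rw [prod_mul_distrib, prod_mul_distrib]
  have h3 : 0 ≤ ∏ t, |V t (σ t) (τ t)| := prod_nonneg fun _ _ => abs_nonneg _
  have h4 : 0 ≤ ∏ t, |cf (μ t) (σ t)| := prod_nonneg fun _ _ => abs_nonneg _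
  gcongr

/-- class sums -/
theorem bj_class {Z A B j : ℕ} {σ : ℝ} (hBA : B < A) :
    ∑' l, bj Z 1 1 j σ (B + A * l) = Bj Z A B j σ := by
  have hA : 1 ≤ A := by omega
  unfold Bj
  have h1 : ∀ l, bj Z 1 1 j σ (B + A * l) = bj Z A B j σ (B + A * l) := by
    intro l
    unfold bj
    have h2 : B + A * l ≡ B [MOD A] := by
      unfold Nat.ModEq
      simp
    by_cases h : Rgh Z (B + A * l)
    · rw [if_pos ⟨h, Nat.modEq_one⟩, if_pos ⟨h, h2⟩]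
    · rw [if_neg (fun h3 => h h3.1), if_neg (fun h3 => h h3.1)]
  rw [tsum_congr h1]
  apply (inj_form hA).tsum_eq
  intro n hn
  rw [Function.mem_support] at hn
  unfold bj at hn
  have h3 : n ≡ B [MOD A] := by
    by_contra h4
    exact hn (if_neg fun h5 => h4 h5.2)
  refine ⟨n / A, ?_⟩
  have h4 : n % A = B := by
    unfold Nat.ModEq at h3
    rw [h3]
    exact Nat.mod_eq_of_lt hBA
  simp only
  have := Nat.mod_add_div n A
  omega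

theorem aj_class {Z A B j : ℕ} {σ : ℝ} (hBA : B < A) :
    ∑' l, aj Z 1 1 j σ (B + A * l) = Aj Z A B j σ := by
  have hA : 1 ≤ A := by omega
  unfold Aj
  have h1 : ∀ l, aj Z 1 1 j σ (B + A * l) = aj Z A B j σ (B + A * l) := by
    intro l
    unfold aj
    have h2 : B + A * l ≡ B [MOD A] := by
      unfold Nat.ModEq
      simp
    by_cases h : Rgh Z (B + A * l) ∧ 1 < B + A * l
    · rw [if_pos ⟨h.1, Nat.modEq_one, h.2⟩, if_pos ⟨h.1, h2, h.2⟩]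
    · rw [if_neg (fun h3 => h ⟨h3.1, h3.2.2⟩), if_neg (fun h3 => h ⟨h3.1, h3.2.2⟩)]
  rw [tsum_congr h1]
  apply (inj_form hA).tsum_eq
  intro n hn
  rw [Function.mem_support] at hn
  unfold aj at hn
  have h3 : n ≡ B [MOD A] := by
    by_contra h4
    exact hn (if_neg fun h5 => h4 h5.2.1)
  refine ⟨n / A, ?_⟩
  have h4 : n % A = B := by
    unfold Nat.ModEq at h3
    rw [h3]
    exact Nat.mod_eq_of_lt hBA
  simp only
  have := Nat.mod_add_div n A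
  omega

theorem bj_summable {σ : ℝ} (hσ : 0 < σ) (Z : ℕ) {A B : ℕ} (hA : 1 ≤ A) :
    Summable (fun l => bj Z 1 1 2 σ (B + A * l)) :=
  (Pool.Agent.W933.MHSum.sum_ Z 1 1 2 σ hσ).2.1.comp_injective (inj_form hA)

theorem gR_class {Z A B : ℕ} {σ : ℝ} (hσ : 0 < σ) (hBA : B < A) :
    ∑' l, gR Z σ (B + A * l) = Bj Z A B 2 σ - Aj Z A B 3 σ := by
  have hA : 1 ≤ A := by omega
  rw [← bj_class hBA, ← aj_class hBA]
  unfold gR
  exact (bj_summable hσ Z hA).tsum_sub (aj_summable hσ Z hA)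

theorem bj_nonneg (Z q b : ℕ) (σ : ℝ) (n : ℕ) : 0 ≤ bj Z q b 2 σ n := by
  unfold bj
  split_ifs
  · have := Real.log_natCast_nonneg n
    have h2 : 0 ≤ ArithmeticFunction.vonMangoldt n := ArithmeticFunction.vonMangoldt_nonneg
    positivity
  · exact le_rfl

theorem aj_nonneg (Z q b : ℕ) (σ : ℝ) (n : ℕ) : 0 ≤ aj Z q b 3 σ n := by
  unfold aj
  split_ifs
  · have := Real.log_natCast_nonneg n
    positivity
  · exact le_rfl

theorem bj_le_aj (Z q b : ℕ) (σ : ℝ) (n : ℕ) : bj Z q b 2 σ n ≤ aj Z q b 3 σ n := by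
  by_cases h1 : 1 < n
  · unfold bj aj
    by_cases h2 : Rgh Z n ∧ n ≡ b [MOD q]
    · rw [if_pos h2, if_pos ⟨h2.1, h2.2, h1⟩]
      have h3 : ArithmeticFunction.vonMangoldt n ≤ Real.log n :=
        ArithmeticFunction.vonMangoldt_le_log
      have h4 := Real.log_natCast_nonneg n
      calc ArithmeticFunction.vonMangoldt n * ((Real.log n) ^ 2 / (n : ℝ) ^ (1 + σ)) ≤
          Real.log n * ((Real.log n) ^ 2 / (n : ℝ) ^ (1 + σ)) :=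
            mul_le_mul_of_nonneg_right h3 (by positivity)
        _ = _ := by ring
    · rw [if_neg h2, if_neg (fun h3 => h2 ⟨h3.1, h3.2.1⟩)]
  · have h2 : bj Z q b 2 σ n = 0 := by
      unfold bj
      have h3 : ArithmeticFunction.vonMangoldt n = 0 := by
        rcases Nat.lt_or_ge n 1 with h | h
        · have : n = 0 := by omega
          rw [this]
          simp
        · have : n = 1 := by omega
          rw [this]
          simp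
      rw [h3]
      simp
    rw [h2]
    exact aj_nonneg Z q b σ n

section
variable {k Jn e b b' W D₁ : ℕ} {C₁ E D : ℝ} {A B : Fin (2 ^ k) → ℕ}

/-- the main term with the exact local factors -/
noncomputable def QQ (k Jn e : ℕ) (i : Fin (2 ^ k)) : ℝ :=
  ∑ σ : SS Jn e → Option (Fin (2 ^ k)), ∑ τ : SS Jn e → Option (Fin (2 ^ k)),
    cw (fun t : SS Jn e => 1 / (((t : ℕ) : ℝ) - 1)) (yS k Jn e) σ *
    cw (fun t : SS Jn e => 1 / (((t : ℕ) : ℝ) - 1)) (yS k Jn e) τ *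
    ∏ t : SS Jn e, mm i ((t : ℕ) : ℝ) (σ t) (τ t)

/-- the small quantity -/
noncomputable def xi (k e : ℕ) (C₁ : ℝ) : ℝ :=
  Real.exp (6 * ((2 ^ k : ℕ) : ℝ) ^ 2 * om k C₁ ((1 / 2) ^ e)) - 1

theorem Ctx.hε1 (_c : Ctx k Jn e b b' W D₁ C₁ E D A B) : (1 / 2 : ℝ) ^ e ≤ 1 :=
  pow_le_one₀ (by norm_num) (by norm_num)

theorem Ctx.xi0 (c : Ctx k Jn e b b' W D₁ C₁ E D A B) : 0 ≤ xi k e C₁ := by
  have hε : (0 : ℝ) < (1 / 2) ^ e := by positivity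
  obtain ⟨o1, -, -, -, -⟩ := om_bd k C₁ ((1 / 2) ^ e) c.C0 hε c.hε1
  unfold xi
  have : 1 ≤ Real.exp (6 * ((2 ^ k : ℕ) : ℝ) ^ 2 * om k C₁ ((1 / 2) ^ e)) :=
    Real.one_le_exp (by positivity)
  linarith

theorem Ctx.xi1 (c : Ctx k Jn e b b' W D₁ C₁ E D A B) :
    (1 + C₁) * Ab k ((1 / 2) ^ e) ^ 2 * xi k e C₁ ≤ 1 / (8 * 2 ^ k) := by
  have hε : (0 : ℝ) < (1 / 2) ^ e := by positivity
  exact (om_bd k C₁ ((1 / 2) ^ e) c.C0 hε c.hε1).2.2.2.2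

theorem Ctx.Ab1 (c : Ctx k Jn e b b' W D₁ C₁ E D A B) : 1 ≤ Ab k ((1 / 2) ^ e) :=
  Ab_one k _ (by positivity) c.hε1

theorem Ctx.xi2 (c : Ctx k Jn e b b' W D₁ C₁ E D A B) : xi k e C₁ ≤ 1 := by
  have h1 := c.xi1
  have h2 := c.Ab1
  have h3 := c.C0
  have h4 := c.xi0
  have h5 : 1 ≤ (1 + C₁) * Ab k ((1 / 2) ^ e) ^ 2 :=
    one_le_mul_of_one_le_of_one_le (by linarith) (one_le_pow₀ h2)
  have h6 : xi k e C₁ ≤ (1 + C₁) * Ab k ((1 / 2) ^ e) ^ 2 * xi k e C₁ :=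
    le_mul_of_one_le_left h4 h5
  refine h6.trans (h1.trans ?_)
  rw [div_le_one (by positivity)]
  have : (1 : ℝ) ≤ 2 ^ k := one_le_pow₀ (by norm_num)
  linarith

theorem Ctx.AA (c : Ctx k Jn e b b' W D₁ C₁ E D A B) :
    AA (Fin (2 ^ k)) (fun t : SS Jn e => 1 / (((t : ℕ) : ℝ) - 1)) ≤ Ab k ((1 / 2) ^ e) :=
  AA_Ab c.dat (by positivity) c.hε1 k

theorem Ctx.alV (c : Ctx k Jn e b b' W D₁ C₁ E D A B) (i : Fin (2 ^ k)) :
    (∀ t : SS Jn e, 1 ≤ ∑ a, ∑ b, |cf (1 / (((t : ℕ) : ℝ) - 1)) a| *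
      |cf (1 / (((t : ℕ) : ℝ) - 1)) b| * |VM (some i) ((t : ℕ) : ℝ) a b|) ∧
    ∏ t : SS Jn e, ∑ a, ∑ b, |cf (1 / (((t : ℕ) : ℝ) - 1)) a| *
      |cf (1 / (((t : ℕ) : ℝ) - 1)) b| * |VM (some i) ((t : ℕ) : ℝ) a b| ≤ Ab k ((1 / 2) ^ e) := by
  haveI := c.i0
  have h1 : ∀ t : SS Jn e, _ := fun t : SS Jn e =>
    alpha_bd (some i) ((t : ℕ) : ℝ) (1 / (((t : ℕ) : ℝ) - 1)) (c.dat.q2 t)
    (c.dat.m0 t) (c.dat.m1 t) (by
      rcases c.dat.mq t with h | h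
      · rw [h]; norm_num
      · exact h.le)
  refine ⟨fun t => (h1 t).1, le_trans ?_ c.AA⟩
  unfold Pool.Agent.R498.MT.AA
  apply prod_le_prod
  · intro t _
    linarith [(h1 t).1]
  · intro t _
    exact (h1 t).2

theorem Ctx.M1 (c : Ctx k Jn e b b' W D₁ C₁ E D A B) (i : Fin (2 ^ k)) :
    MM k Jn e i ≤ Ab k ((1 / 2) ^ e) := by
  refine (le_abs_self _).trans ((abs_quad_le _ _ ?_ _).trans (c.alV i).2)
  exact fun σ => yS_abs k Jn e σ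

theorem Ctx.Qd (c : Ctx k Jn e b b' W D₁ C₁ E D A B) (i : Fin (2 ^ k)) :
    |QQ k Jn e i - MM k Jn e i| ≤ Ab k ((1 / 2) ^ e) * xi k e C₁ := by
  haveI := c.i0
  obtain ⟨h1, h2⟩ := c.alV i
  have h3 := qf_diff (fun t : SS Jn e => 1 / (((t : ℕ) : ℝ) - 1)) (yS k Jn e)
    (fun σ => yS_abs k Jn e σ) (fun t a b => mm i ((t : ℕ) : ℝ) a b)
    (fun t a b => VM (some i) ((t : ℕ) : ℝ) a b)
    (fun t a b => |mm i ((t : ℕ) : ℝ) a b - VM (some i) ((t : ℕ) : ℝ) a b|)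
    (fun t a b => le_rfl) h1
    (fun t => 5 * ((2 ^ k : ℕ) : ℝ) ^ 2 * (1 / (((t : ℕ) : ℝ) - 1)) ^ 2)
    (fun t => by
      have := w_mm (J := Fin (2 ^ k)) i ((t : ℕ) : ℝ) (c.dat.q2 t)
      rw [Fintype.card_fin] at this
      exact this) _ h2
  refine h3.trans ?_
  apply mul_le_mul_of_nonneg_left _ (by linarith [c.Ab1])
  unfold xi
  have h4 : Real.exp (∑ t : SS Jn e, 5 * ((2 ^ k : ℕ) : ℝ) ^ 2 * (1 / (((t : ℕ) : ℝ) - 1)) ^ 2) ≤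
      Real.exp (6 * ((2 ^ k : ℕ) : ℝ) ^ 2 * om k C₁ ((1 / 2) ^ e)) := by
    apply Real.exp_le_exp.2
    rw [← mul_sum]
    have h5 := mul_le_mul_of_nonneg_left c.dat.sq (sq_nonneg ((2 ^ k : ℕ) : ℝ))
    have h6 : 0 ≤ ((2 ^ k : ℕ) : ℝ) ^ 2 * om k C₁ ((1 / 2) ^ e) := by
      obtain ⟨o1, -, -, -, -⟩ := om_bd k C₁ ((1 / 2) ^ e) c.C0 (by positivity) c.hε1
      positivity
    linarith
  linarith

theorem Ctx.alE (c : Ctx k Jn e b b' W D₁ C₁ E D A B) (i : Fin (2 ^ k)) :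
    ∏ t : SS Jn e, ∑ a, ∑ b, |cf (1 / (((t : ℕ) : ℝ) - 1)) a| *
      |cf (1 / (((t : ℕ) : ℝ) - 1)) b| * |mm i ((t : ℕ) : ℝ) a b| ≤ 2 * Ab k ((1 / 2) ^ e) := by
  haveI := c.i0
  have h1 : ∏ t : SS Jn e, ∑ a, ∑ b, |cf (1 / (((t : ℕ) : ℝ) - 1)) a| *
      |cf (1 / (((t : ℕ) : ℝ) - 1)) b| * |mm i ((t : ℕ) : ℝ) a b| ≤
      ∏ t : SS Jn e, ((1 + 8 * ((Fintype.card (Fin (2 ^ k)) : ℕ) : ℝ) ^ 2 *
        (1 / (((t : ℕ) : ℝ) - 1))) *
        (1 + 5 * ((2 ^ k : ℕ) : ℝ) ^ 2 * (1 / (((t : ℕ) : ℝ) - 1)) ^ 2)) := by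
    apply prod_le_prod
    · intro t _
      linarith [(al_mm (J := Fin (2 ^ k)) i ((t : ℕ) : ℝ) (c.dat.q2 t)).1]
    · intro t _
      have := (al_mm (J := Fin (2 ^ k)) i ((t : ℕ) : ℝ) (c.dat.q2 t)).2
      rw [Fintype.card_fin] at this ⊢
      exact this
  refine h1.trans ?_
  rw [prod_mul_distrib]
  have h2 : ∏ t : SS Jn e, (1 + 5 * ((2 ^ k : ℕ) : ℝ) ^ 2 * (1 / (((t : ℕ) : ℝ) - 1)) ^ 2) ≤ 2 := by
    calc _ ≤ Real.exp (∑ t : SS Jn e, 5 * ((2 ^ k : ℕ) : ℝ) ^ 2 * (1 / (((t : ℕ) : ℝ) - 1)) ^ 2) := by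
          rw [Real.exp_sum]
          apply prod_le_prod
          · intro t _
            positivity
          · intro t _
            have := Real.add_one_le_exp (5 * ((2 ^ k : ℕ) : ℝ) ^ 2 * (1 / (((t : ℕ) : ℝ) - 1)) ^ 2)
            linarith
      _ ≤ Real.exp (6 * ((2 ^ k : ℕ) : ℝ) ^ 2 * om k C₁ ((1 / 2) ^ e)) := by
          apply Real.exp_le_exp.2
          rw [← mul_sum]
          have h5 := mul_le_mul_of_nonneg_left c.dat.sq (sq_nonneg ((2 ^ k : ℕ) : ℝ))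
          have h6 : 0 ≤ ((2 ^ k : ℕ) : ℝ) ^ 2 * om k C₁ ((1 / 2) ^ e) := by
            obtain ⟨o1, -, -, -, -⟩ := om_bd k C₁ ((1 / 2) ^ e) c.C0 (by positivity) c.hε1
            positivity
          linarith
      _ ≤ 2 := by
          have := c.xi2
          unfold xi at this
          linarith
  have h3 := c.AA
  have h4 : 0 ≤ ∏ t : SS Jn e, (1 + 5 * ((2 ^ k : ℕ) : ℝ) ^ 2 * (1 / (((t : ℕ) : ℝ) - 1)) ^ 2) :=
    prod_nonneg fun t _ => by positivity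
  have h5 : 0 ≤ Ab k ((1 / 2) ^ e) := by linarith [c.Ab1]
  calc _ ≤ Ab k ((1 / 2) ^ e) * 2 := mul_le_mul h3 h2 h4 h5
    _ = _ := by ring

theorem Ctx.supL (c : Ctx k Jn e b b' W D₁ C₁ E D A B) (σ : SS Jn e → Option (Fin (2 ^ k)))
    (hσ : yS k Jn e σ ≠ 0) : sup (SS Jn e) σ ≤ Nat.sqrt (2 ^ 2 ^ (Jn + e)) := by
  have h1 := (yS_facts k Jn e σ).2.2 hσ
  rw [Nat.le_sqrt]
  have hp : ∀ t : SS Jn e, 0 < (if σ t = none then 1 else (t : ℕ)) := by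
    intro t
    split_ifs
    · exact one_pos
    · exact (mem_SS.1 t.2).1.pos
  have hs0 : 0 < sup (SS Jn e) σ := prod_pos fun t _ => hp t
  have hlY : 0 < Real.log ((2 ^ 2 ^ (Jn + e) : ℕ) : ℝ) := Real.log_pos (Y_one _)
  have h2 : Real.log ((sup (SS Jn e) σ : ℕ) : ℝ) =
      lt (lsz ((2 ^ 2 ^ (Jn + e) : ℕ) : ℝ)) σ * Real.log ((2 ^ 2 ^ (Jn + e) : ℕ) : ℝ) := by
    unfold sup lt lsz
    rw [Nat.cast_prod, Real.log_prod (fun t _ => by exact_mod_cast (hp t).ne'), sum_mul]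
    refine sum_congr rfl fun t _ => ?_
    by_cases h : σ t = none
    · simp [h]
    · rw [if_neg h, if_neg h]
      field_simp
  have h3 : Real.log ((sup (SS Jn e) σ * sup (SS Jn e) σ : ℕ) : ℝ) ≤
      Real.log ((2 ^ 2 ^ (Jn + e) : ℕ) : ℝ) := by
    rw [Nat.cast_mul, Real.log_mul (by exact_mod_cast hs0.ne') (by exact_mod_cast hs0.ne'), h2]
    nlinarith
  have h4 : (0 : ℝ) < ((sup (SS Jn e) σ * sup (SS Jn e) σ : ℕ) : ℝ) := by
    exact_mod_cast Nat.mul_pos hs0 hs0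
  have h5 := (Real.log_le_log_iff h4 (by positivity)).1 h3
  exact_mod_cast h5

end

/-- **the contribution of the primes** -/
theorem gPart : ∃ C : ℝ, 0 < C ∧ ∀ {k Jn e b b' W D₁ : ℕ} {C₁ E D : ℝ} {A B : Fin (2 ^ k) → ℕ}
    (_c : Ctx k Jn e b b' W D₁ C₁ E D A B) (i : Fin (2 ^ k)) (a Γ : ℝ), 1 ≤ a →
    2 * D * (2 * 2 ^ k) ≤ Γ → 48 * (2 ^ k : ℝ) ^ 2 ≤ Γ → Γ ≤ D₁ →
    (2 ^ 2 ^ Jn * ((2 ^ 2 ^ Jn) ^ (4 * b + 6) * 2 ^ 2 ^ (Jn + e))) ^ 4 ≤ 2 ^ 2 ^ (Jn + e + 6) →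
    |∑' l : ℕ, gR (2 ^ 2 ^ (Jn + e + 6)) (1 / (a * Real.log ((2 ^ 2 ^ (Jn + e + 6) : ℕ) : ℝ)))
        (B i + A i * l) * (wt A B (PS Jn W) (rhoM b Jn) l * LL A B Jn e (some i) l ^ 2) -
      (Bj (2 ^ 2 ^ (Jn + e + 6)) (A i) (B i) 2
          (1 / (a * Real.log ((2 ^ 2 ^ (Jn + e + 6) : ℕ) : ℝ))) -
        Aj (2 ^ 2 ^ (Jn + e + 6)) (A i) (B i) 3
          (1 / (a * Real.log ((2 ^ 2 ^ (Jn + e + 6) : ℕ) : ℝ)))) *
        ((∑ T ∈ (PS Jn W).powerset, rhoM b Jn T * ∏ p ∈ T, gq A B p) * QQ k Jn e i)| ≤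
    (4 * ∏ p ∈ PS Jn W, (1 - gq A B p)) * (2 * Ab k ((1 / 2) ^ e)) *
      (Γ / D₁ * (C * a ^ 8 * (Real.log ((2 ^ 2 ^ (Jn + e + 6) : ℕ) : ℝ)) ^ 3 /
        ((A i).totient : ℝ))) := by
  classical
  obtain ⟨C, hC, hNN⟩ := NN_sum
  refine ⟨C, hC, ?_⟩
  intro k Jn e b b' W D₁ C₁ E D A B c i a Γ ha hΓa hΓb hΓD hF
  haveI := c.i0
  have hZ32 : 32 ≤ 2 ^ 2 ^ (Jn + e + 6) := by
    calc 32 = 2 ^ 5 := by norm_num
      _ ≤ 2 ^ 2 ^ (Jn + e + 6) := by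
        apply Nat.pow_le_pow_right (by norm_num)
        calc 5 ≤ 2 ^ 6 := by norm_num
          _ ≤ 2 ^ (Jn + e + 6) := Nat.pow_le_pow_right (by norm_num) (by omega)
  have hlog := log_ge_one hZ32
  have hζ : 0 < 1 / (a * Real.log ((2 ^ 2 ^ (Jn + e + 6) : ℕ) : ℝ)) := by
    apply one_div_pos.2
    apply mul_pos (by linarith)
    linarith
  have hPZ : ∀ p ∈ PS Jn W, p.Prime ∧ ¬ p ∣ A i ∧ p ≤ 2 ^ 2 ^ (Jn + e + 6) := by
    intro p hp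
    refine ⟨(mem_PS.1 hp).1, c.nd p hp i, (mem_PS.1 hp).2.1.le.trans ?_⟩
    exact Nat.pow_le_pow_right (by norm_num) (Nat.pow_le_pow_right (by norm_num) (by omega))
  have hSZ : ∀ p ∈ SS Jn e, OKp A B p ∧ p ≤ 2 ^ 2 ^ (Jn + e + 6) := by
    intro p hp
    refine ⟨c.ok p hp, (mem_SS.1 hp).2.2.le.trans ?_⟩
    exact Nat.pow_le_pow_right (by norm_num) (Nat.pow_le_pow_right (by norm_num) (by omega))
  have hV0 : 0 < ∏ p ∈ PS Jn W, (1 - gq A B p) := c.rmG.pos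
  have hD0 : 0 ≤ D := by linarith [c.D1]
  have key := blx (A := A) (B := B) hζ i (c.cop i) (c.BA i) c.dPS hPZ hSZ (gq A B)
    (fun p hp => ⟨c.rmG.g0 p hp, gq_mean (mem_PS.1 hp).1 (c.nd p hp) i⟩) (2 * 2 ^ k)
    (fun p hp => by
      have := (gq_facts (A := A) (B := B) (mem_PS.1 hp).1 (c.nd p hp) i).2.2.1
      rw [Fintype.card_fin] at this
      push_cast at this
      linarith) (rhoM b Jn) (4 * ∏ p ∈ PS Jn W, (1 - gq A B p)) (2 * D) Γ (by linarith)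
    (by linarith) (by positivity)
    (fun s hs => (c.kapG s hs).trans (le_of_eq (by ring)))
    ((2 ^ 2 ^ Jn) ^ (4 * b + 6)) (Nat.sqrt (2 ^ 2 ^ (Jn + e))) (c.adM.a2) (yS k Jn e)
    (yS_abs k Jn e) c.supL hΓa (by
      rw [Fintype.card_fin]
      push_cast
      exact hΓb) (2 * Ab k ((1 / 2) ^ e)) (c.alE i)
  rw [gR_class hζ (c.BA i)] at key
  refine key.trans ?_
  have hAb : 0 ≤ 2 * Ab k ((1 / 2) ^ e) := by linarith [c.Ab1]
  apply mul_le_mul_of_nonneg_left _ (mul_nonneg (by linarith) hAb)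
  have hΓ1 : 1 ≤ Γ := by
    refine le_trans ?_ hΓb
    have : (1 : ℝ) ≤ (2 ^ k : ℝ) ^ 2 := one_le_pow₀ (one_le_pow₀ (by norm_num))
    linarith
  apply hNN (2 ^ 2 ^ (Jn + e + 6)) (A i)
    (2 ^ 2 ^ Jn * ((2 ^ 2 ^ Jn) ^ (4 * b + 6) * 2 ^ 2 ^ (Jn + e))) a Γ D₁ (PS Jn W ∪ SS Jn e)
    _ hZ32 hF ha (c.A1 i) hΓ1 hΓD
  · intro p hp
    have hDp : D₁ < p := by
      rcases mem_union.1 hp with h | h
      · exact c.PSD p h
      · have h1 := mem_SS.1 h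
        apply c.WD p h1.1
        intro h2
        have := c.Ws p h1.1 h2
        omega
    refine ⟨?_, ?_, ?_⟩
    · rcases mem_union.1 hp with h | h
      · exact (hPZ p h).1
      · exact (hSZ p h).1.pr
    · rcases mem_union.1 hp with h | h
      · exact (hPZ p h).2.1
      · exact (hSZ p h).1.nd i
    · have h1 : (D₁ : ℝ) + 1 ≤ p := by exact_mod_cast hDp
      linarith
  · intro s hs
    rw [mem_filter, mem_powerset] at hs
    refine ⟨hs.1, hs.2.1, ?_⟩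
    apply Nat.mul_le_mul (c.AT i)
    refine hs.2.2.trans ?_
    apply Nat.mul_le_mul_left
    rw [sq]
    exact Nat.sqrt_le _

end Run7.h296
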