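import Pool.Agent.Run7.h296.Ab
import Pool.Agent.Run7.h296.Base

/-!
The sign of the logarithmic derivative at a real character.
-/

set_option autoImplicit false

open Finset

namespace Run7.h296

open Pool.Agent.H262R3.Lk Pool.Agent.W69.MH Pool.Agent.W215.MH
open Pool.Agent.H318R2.Cr (Rgh)

/-- a real character is real -/
theorem fz_real (z : ℕ) {q : ℕ} (χ : DirichletCharacter ℂ q) (h2 : χ ^ 2 = 1) (n : ℕ) :
    ∃ r : ℝ, fz z χ n = (r : ℂ) := by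
  unfold fz
  split_ifs with h
  · by_cases hu : IsUnit (n : ZMod q)
    · rcases sgn χ h2 _ hu with h3 | h3
      · exact ⟨1, by rw [h3]; simp⟩
      · exact ⟨-1, by rw [h3]; simp⟩
    · exact ⟨0, by rw [χ.map_nonunit hu]; simp⟩
  · exact ⟨0, by simp⟩

theorem ts_real (z : ℕ) {q : ℕ} (χ : DirichletCharacter ℂ q) (h2 : χ ^ 2 = 1) (g : ℕ → ℝ) :
    (∑' n : ℕ, fz z χ n * ((g n : ℝ) : ℂ)).im = 0 := by
  choose r hr using fz_real z χ h2
  have h1 : (fun n : ℕ => fz z χ n * ((g n : ℝ) : ℂ)) = fun n => ((r n * g n : ℝ) : ℂ) := by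
    funext n
    rw [hr n]
    push_cast
    ring
  rw [h1, ← Complex.ofReal_tsum, Complex.ofReal_im]

theorem Lj_im (z : ℕ) {q : ℕ} (χ : DirichletCharacter ℂ q) (h2 : χ ^ 2 = 1) (j : ℕ) (σ : ℝ) :
    (Lj z χ j σ).im = 0 := ts_real z χ h2 _

theorem Dj_im (z : ℕ) {q : ℕ} (χ : DirichletCharacter ℂ q) (h2 : χ ^ 2 = 1) (j : ℕ) (σ : ℝ) :
    (Dj z χ j σ).im = 0 := ts_real z χ h2 _

/-- the value at a real character is positive -/
theorem Lj_pos (z : ℕ) {q : ℕ} (χ : DirichletCharacter ℂ q) (h2 : χ ^ 2 = 1) (σ : ℝ) (hσ : 0 < σ) :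
    (Lj z χ 0 σ).re = ‖Lj z χ 0 σ‖ ∧ 0 < (Lj z χ 0 σ).re := by
  have h1 : Lj z χ 0 σ = ∑' n, fh z χ σ hσ n := by
    unfold Lj
    apply tsum_congr
    intro n
    rw [fh_apply, pow_zero]
  have h3 := EulerProduct.exp_tsum_primes_log_eq_tsum (fh_summable z χ σ hσ)
  have h4 : ∀ p : Nat.Primes, -Complex.log (1 - fh z χ σ hσ p) = ((el z χ σ hσ p : ℝ) : ℂ) := by
    intro p
    have hp1 : (1 : ℝ) < (p : ℕ) := by exact_mod_cast p.2.one_lt
    obtain ⟨r, hr⟩ := fz_real z χ h2 p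
    have h5 : fh z χ σ hσ p = ((r * (1 / ((p : ℕ) : ℝ) ^ (1 + σ)) : ℝ) : ℂ) := by
      rw [fh_apply, hr]
      push_cast
      ring
    have h6 : ‖fh z χ σ hσ p‖ < 1 := by
      refine lt_of_le_of_lt (fh_norm z χ σ hσ p) ?_
      rw [div_lt_one (by positivity)]
      exact Real.one_lt_rpow hp1 (by linarith)
    rw [h5, Complex.norm_real, Real.norm_eq_abs, abs_lt] at h6
    obtain ⟨x, hx⟩ : ∃ x : ℝ, x = r * (1 / ((p : ℕ) : ℝ) ^ (1 + σ)) := ⟨_, rfl⟩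
    rw [← hx] at h5 h6
    have h7 : Complex.log (1 - fh z χ σ hσ p) = ((Real.log (1 - x) : ℝ) : ℂ) := by
      rw [h5, Complex.ofReal_log (by linarith)]
      push_cast
      rfl
    unfold el
    rw [h7, ← Complex.ofReal_neg, Complex.ofReal_re]
  have h8 : Lj z χ 0 σ = ((Real.exp (∑' p : Nat.Primes, el z χ σ hσ p) : ℝ) : ℂ) := by
    rw [h1, ← h3]
    have h9 : (∑' p : Nat.Primes, -Complex.log (1 - fh z χ σ hσ p)) =
        ((∑' p : Nat.Primes, el z χ σ hσ p : ℝ) : ℂ) := by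
      rw [Complex.ofReal_tsum]
      exact tsum_congr h4
    rw [h9, Complex.ofReal_exp]
  rw [h8, Complex.ofReal_re, Complex.norm_real, Real.norm_eq_abs, abs_of_pos (Real.exp_pos _)]
  exact ⟨rfl, Real.exp_pos _⟩

/-- the terms of the series -/
noncomputable def Fn (z : ℕ) {q : ℕ} (χ : DirichletCharacter ℂ q) (j n : ℕ) : ℂ :=
  fz z χ n * (((Real.log n) ^ j : ℝ) : ℂ)

theorem Fn_succ (z : ℕ) {q : ℕ} (χ : DirichletCharacter ℂ q) (j : ℕ) :
    LSeries.logMul (Fn z χ j) = Fn z χ (j + 1) := by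
  funext n
  unfold LSeries.logMul Fn
  rw [← Complex.natCast_log]
  push_cast
  ring

theorem Fn_abs (z : ℕ) {q : ℕ} (χ : DirichletCharacter ℂ q) (j : ℕ) :
    LSeries.abscissaOfAbsConv (Fn z χ j) ≤ 1 := by
  induction j with
  | zero =>
    apply LSeries.abscissaOfAbsConv_le_of_le_const
    refine ⟨1, fun n _ => ?_⟩
    unfold Fn
    rw [pow_zero, Complex.ofReal_one, mul_one]
    exact fz_norm z χ n
  | succ j ih =>
    rw [← Fn_succ, LSeries.abscissaOfAbsConv_logMul]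
    exact ih

theorem Lj_eq (z : ℕ) (hz : 2 ≤ z) {q : ℕ} (χ : DirichletCharacter ℂ q) (j : ℕ) (σ : ℝ) :
    Lj z χ j σ = LSeries (Fn z χ j) (1 + (σ : ℂ)) := by
  have h := Alg.T_eq z hz χ σ (fun n => (Real.log n) ^ j)
  have h2 : (1 + (σ : ℂ)) = ((1 + σ : ℝ) : ℂ) := by push_cast; ring
  rw [h2]
  exact h.symm

theorem Lj_deriv (z : ℕ) (hz : 2 ≤ z) {q : ℕ} (χ : DirichletCharacter ℂ q) (j : ℕ) (σ : ℝ)
    (hσ : 0 < σ) : HasDerivAt (fun x : ℝ => (Lj z χ j x).re) (-(Lj z χ (j + 1) σ).re) σ := by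
  have h1 : LSeries.abscissaOfAbsConv (Fn z χ j) < ((1 + (σ : ℂ)).re : EReal) := by
    refine lt_of_le_of_lt (Fn_abs z χ j) ?_
    have : (1 + (σ : ℂ)).re = 1 + σ := by simp
    rw [this]
    have h : (1 : ℝ) < 1 + σ := by linarith
    exact_mod_cast h
  have h2 := LSeries_hasDerivAt h1
  rw [Fn_succ] at h2
  have h3 : HasDerivAt (fun w : ℂ => LSeries (Fn z χ j) (1 + w))
      (-LSeries (Fn z χ (j + 1)) (1 + (σ : ℂ))) (σ : ℂ) := by
    have h5 := h2.comp (σ : ℂ) ((hasDerivAt_id (σ : ℂ)).const_add 1)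
    rw [mul_one] at h5
    exact h5
  have h4 := h3.real_of_complex
  rw [← Lj_eq z hz, Complex.neg_re] at h4
  refine h4.congr_of_eventuallyEq ?_
  filter_upwards with x
  rw [Lj_eq z hz]

/-- the logarithmic derivative at a real character is not large and negative -/
theorem D0_upper (hALG : St_ALG) {z q : ℕ} (hz : 32 ≤ z) (hq : 0 < q) (χ : DirichletCharacter ℂ q) (h2 : χ ^ 2 = 1)
    {C D ℓ s : ℝ} (hC : 1 ≤ C) (hD : 2 ≤ D) (hℓ : 1 ≤ ℓ) (hs : s = 1 / (D ^ 4 * ℓ))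
    (hL2 : ∀ σ : ℝ, 0 < σ → σ ≤ 1 → ‖Lj z χ 2 σ‖ ≤ C * ℓ ^ 2)
    (hlow : 1 / (2 * C * D ^ 4) ≤ ‖Lj z χ 0 s‖) :
    Dj z χ 0 s = (((Dj z χ 0 s).re : ℝ) : ℂ) ∧ (Dj z χ 0 s).re ≤ 3 * C ^ 2 * D ^ 2 * ℓ := by
  have hD0 : (0 : ℝ) < D := by linarith
  have hs0 : 0 < s := by rw [hs]; positivity
  have hDim := Dj_im z χ h2 0 s
  have hDre : Dj z χ 0 s = (((Dj z χ 0 s).re : ℝ) : ℂ) := by
    apply Complex.ext
    · rw [Complex.ofReal_re]
    · rw [Complex.ofReal_im, hDim]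
  refine ⟨hDre, ?_⟩
  obtain ⟨t, ht⟩ : ∃ t : ℝ, t = 1 / (D ^ 2 * ℓ) := ⟨_, rfl⟩
  have ht0 : 0 < t := by rw [ht]; positivity
  have hst : s + t ≤ 1 := by
    have h1 : s ≤ 1 / 2 := by
      rw [hs, div_le_div_iff₀ (by positivity) (by norm_num)]
      have : (2 : ℝ) ^ 4 ≤ D ^ 4 := pow_le_pow_left₀ (by norm_num) hD 4
      nlinarith
    have h3 : t ≤ 1 / 2 := by
      rw [ht, div_le_div_iff₀ (by positivity) (by norm_num)]
      have : (2 : ℝ) ^ 2 ≤ D ^ 2 := pow_le_pow_left₀ (by norm_num) hD 2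
      nlinarith
    linarith
  obtain ⟨f, hf⟩ : ∃ f : ℝ → ℝ, f = fun x => (Lj z χ 0 x).re := ⟨_, rfl⟩
  obtain ⟨g, hg⟩ : ∃ g : ℝ → ℝ, g = fun x => (Lj z χ 1 x).re := ⟨_, rfl⟩
  have hfd : ∀ x : ℝ, 0 < x → HasDerivAt f (-(g x)) x := by
    intro x hx
    rw [hf, hg]
    exact Lj_deriv z (by omega) χ 0 x hx
  have hgd : ∀ x : ℝ, 0 < x → HasDerivAt g (-(Lj z χ 2 x).re) x := by
    intro x hx
    rw [hg]
    exact Lj_deriv z (by omega) χ 1 x hx
  obtain ⟨ξ, hξ, hξe⟩ := exists_hasDerivAt_eq_slope f (fun x => -(g x)) (by linarith : s < s + t)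
    (fun x hx => (hfd x (by linarith [hx.1])).continuousAt.continuousWithinAt)
    (fun x hx => hfd x (by linarith [hx.1]))
  have hξ0 : s < ξ := hξ.1
  obtain ⟨η, hη, hηe⟩ := exists_hasDerivAt_eq_slope g (fun x => -(Lj z χ 2 x).re) hξ0
    (fun x hx => (hgd x (by linarith [hx.1])).continuousAt.continuousWithinAt)
    (fun x hx => hgd x (by linarith [hx.1]))
  have hη1 := hL2 η (by linarith [hη.1]) (by linarith [hη.2, hξ.2])
  have hη2 : |(Lj z χ 2 η).re| ≤ C * ℓ ^ 2 := (Complex.abs_re_le_norm _).trans hη1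
  have hη3 := abs_le.1 hη2
  rw [eq_div_iff (by linarith)] at hξe hηe
  have hξt : ξ - s ≤ t := by linarith [hξ.2]
  have hξs : 0 ≤ ξ - s := by linarith
  -- `g ξ ≥ g s - C ℓ² t`
  have h5 : g s - C * ℓ ^ 2 * t ≤ g ξ := by
    have h6 : (Lj z χ 2 η).re * (ξ - s) ≤ C * ℓ ^ 2 * t :=
      mul_le_mul hη3.2 hξt hξs (by positivity)
    linarith
  have h7 : f (s + t) - f s = -(g ξ) * t := by
    have : s + t - s = t := by ring
    rw [this] at hξe
    linarith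
  have h8 : 0 < f (s + t) := by
    rw [hf]
    exact (Lj_pos z χ h2 (s + t) (by linarith)).2
  have h9 : t * (g s - C * ℓ ^ 2 * t) ≤ f s := by
    have h10 : (g s - C * ℓ ^ 2 * t) * t ≤ g ξ * t := mul_le_mul_of_nonneg_right h5 ht0.le
    linarith
  -- the logarithmic derivative
  have hfs : f s = ‖Lj z χ 0 s‖ := by rw [hf]; exact (Lj_pos z χ h2 s hs0).1
  have hfp : 0 < f s := by rw [hf]; exact (Lj_pos z χ h2 s hs0).2
  have hα : g s = (Dj z χ 0 s).re * f s := by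
    have h11 := (hALG z q χ s hz hs0).2.1
    rw [hg, hf]
    simp only
    rw [h11, Complex.mul_re, hDim, zero_mul, sub_zero]
  obtain ⟨d, hd⟩ : ∃ d : ℝ, d = (Dj z χ 0 s).re := ⟨_, rfl⟩
  rw [← hd] at hα ⊢
  have h12 : g s ≤ f s * (D ^ 2 * ℓ) + C * ℓ / D ^ 2 := by
    have h13 : g s - C * ℓ ^ 2 * t ≤ f s / t := by
      rw [le_div_iff₀ ht0]
      linarith
    have h14 : f s / t = f s * (D ^ 2 * ℓ) := by
      rw [ht]
      field_simp
    have h15 : C * ℓ ^ 2 * t = C * ℓ / D ^ 2 := by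
      rw [ht]
      field_simp
    linarith
  have h16 : C * ℓ / D ^ 2 ≤ 2 * C ^ 2 * D ^ 2 * ℓ * f s := by
    have h17 : 1 / (2 * C * D ^ 4) ≤ f s := by rw [hfs]; exact hlow
    have h18 : C * ℓ / D ^ 2 = 2 * C ^ 2 * D ^ 2 * ℓ * (1 / (2 * C * D ^ 4)) := by
      field_simp
    rw [h18]
    exact mul_le_mul_of_nonneg_left h17 (by positivity)
  have h19 : d * f s ≤ (3 * C ^ 2 * D ^ 2 * ℓ) * f s := by
    rw [← hα]
    have h20 : f s * (D ^ 2 * ℓ) ≤ C ^ 2 * (f s * (D ^ 2 * ℓ)) := by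
      have : (1 : ℝ) ≤ C ^ 2 := one_le_pow₀ hC
      exact le_mul_of_one_le_left (by positivity) this
    nlinarith
  exact le_of_mul_le_mul_right h19 hfp

end Run7.h296
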