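import Pool.Agent.Run7.h296.Su

/-!
The first sum.
-/

set_option autoImplicit false

open Finset

namespace Run7.h296

open Pool.Agent.R498.MT Pool.Agent.H262R3.Lk Pool.Agent.W505.MH
open Pool.Agent.H318R2.Cr (Rgh V V_pos V_le_one cz_bounds)

section
variable {k Jn e b b' W D₁ : ℕ} {C₁ E D : ℝ} {A B : Fin (2 ^ k) → ℕ}

/-- the first sum beyond `lm` -/
noncomputable def S1s (A B : Fin (2 ^ k) → ℕ) (Jn e b W : ℕ) (σ : ℝ) (lm : ℕ) : ℝ :=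
  ∑' l, cu (hh σ) lm l * (wt A B (PS Jn W) (rhoP b Jn) l * LL A B Jn e none l ^ 2)

theorem Ctx.S1_up (c : Ctx k Jn e b b' W D₁ C₁ E D A B) {σ : ℝ} (hσ : 0 < σ) (hσ1 : σ ≤ 1)
    (lm : ℕ) (hlm : l0 Jn e ≤ lm) :
    S1s A B Jn e b W σ lm ≤ 2 * ((∑' l, cu (hh σ) lm l) *
      ∑ T' ∈ (PS Jn W).powerset, rhoP b Jn T' * ∏ p ∈ T', gg A B p) * II k Jn e := by
  classical
  obtain ⟨i⟩ := c.i0
  have hl0 := l0_ge (e := e) c.J1
  have hlm32 : 32 ≤ lm := hl0.trans hlm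
  have hVP := c.VP
  have hV0 : 0 < ∏ p ∈ PS Jn W, (1 - gg A B p) := c.rmP.pos
  have hF : 0 ≤ ∑' l, cu (hh σ) lm l := tsum_nonneg fun l => cu_nonneg (hh_nonneg σ) _ l
  have hbl := hh_block hσ hσ1 hlm32
  have hρ := c.adP
  have hX : 0 ≤ (∑' l, cu (hh σ) lm l) *
      ∑ T' ∈ (PS Jn W).powerset, rhoP b Jn T' * ∏ p ∈ T', gg A B p := by
    apply mul_nonneg hF
    linarith [hρ.a3]
  have key := cntI (A := A) (B := B) (φ := hh σ) lm (hh_anti hσ lm hlm32) (fun l _ => hh_nonneg σ l)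
    (hh_summable hσ) i (P := PS Jn W) (Sset := SS Jn e) (e₂ := ∅) c.dPS (disjoint_empty_right _)
    (disjoint_empty_left _) (fun p hp => (mem_PS.1 hp).1) (fun p hp => absurd hp (notMem_empty p))
    c.ok (rhoP b Jn) _ (c.R1 hρ) E
    (fun T => lt (lsz ((2 ^ 2 ^ (Jn + e) : ℕ) : ℝ)) T ≤ 2 * (1 / 2)) (by
      intro T hT
      rw [prod_empty, one_mul]
      have h2 := rr_lower (Y_one (Jn + e)) (fun p hp => (mem_SS.1 hp).1) T ∅ (by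
        have : lz (lsz ((2 ^ 2 ^ (Jn + e) : ℕ) : ℝ)) (∅ : Finset (SS Jn e)) = 0 := by simp [lz]
        rw [this]
        linarith)
      rw [prod_empty, mul_one] at h2
      have hT0 : (0 : ℝ) < ((2 ^ 2 ^ Jn : ℕ) : ℝ) := by positivity
      have hY0 : (0 : ℝ) < ((2 ^ 2 ^ (Jn + e) : ℕ) : ℝ) := by positivity
      have h3 : 1 / (2 * ((2 ^ 2 ^ Jn : ℕ) : ℝ)) ≤
          ∑ T' ∈ (PS Jn W).powerset, rhoP b Jn T' * ∏ p ∈ T', gg A B p := by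
        refine le_trans ?_ hρ.a3
        have e1 : 1 / (2 * ((2 ^ 2 ^ Jn : ℕ) : ℝ)) = (1 / ((2 ^ 2 ^ Jn : ℕ) : ℝ)) / 2 := by
          field_simp
        rw [e1]
        linarith
      have hφ0 := hh_nonneg σ lm
      have h4 : (lm : ℝ) * hh σ lm / 4 * (1 / (2 * ((2 ^ 2 ^ Jn : ℕ) : ℝ))) ≤
          (∑' l, cu (hh σ) lm l) *
            ∑ T' ∈ (PS Jn W).powerset, rhoP b Jn T' * ∏ p ∈ T', gg A B p := by
        apply mul_le_mul _ h3 (by positivity) hF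
        linarith
      have hlmr : ((l0 Jn e : ℕ) : ℝ) ≤ lm := by exact_mod_cast hlm
      have h5 : 8 * ((2 ^ 2 ^ Jn : ℕ) : ℝ) * (((1 : ℝ) + Jn) *
          (((2 ^ 2 ^ Jn) ^ (4 * b + 6) : ℕ) : ℝ) ^ 2) * (((2 ^ 2 ^ (Jn + e) : ℕ) : ℝ) * 1) ≤
          E * lm := by
        refine c.lv0.trans ?_
        exact mul_le_mul_of_nonneg_left hlmr c.E0.le
      have h6 : E * ((lm : ℝ) * hh σ lm / 4 * (1 / (2 * ((2 ^ 2 ^ Jn : ℕ) : ℝ)))) *
          (1 / ((2 ^ 2 ^ (Jn + e) : ℕ) : ℝ)) ≤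
          E * ((∑' l, cu (hh σ) lm l) *
            ∑ T' ∈ (PS Jn W).powerset, rhoP b Jn T' * ∏ p ∈ T', gg A B p) *
          ∏ t : SS Jn e, rr (fun _ : Fin (2 ^ k) => 1 / ((t : ℕ) : ℝ)) (T t) := by
        apply mul_le_mul (mul_le_mul_of_nonneg_left h4 c.E0.le) h2 (by positivity)
        exact mul_nonneg c.E0.le hX
      refine le_trans ?_ h6
      have h7 : E * ((lm : ℝ) * hh σ lm / 4 * (1 / (2 * ((2 ^ 2 ^ Jn : ℕ) : ℝ)))) *
          (1 / ((2 ^ 2 ^ (Jn + e) : ℕ) : ℝ)) = hh σ lm * (E * lm /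
            (8 * ((2 ^ 2 ^ Jn : ℕ) : ℝ) * ((2 ^ 2 ^ (Jn + e) : ℕ) : ℝ))) := by
        field_simp
        ring
      rw [h7]
      apply mul_le_mul_of_nonneg_left _ hφ0
      rw [le_div_iff₀ (by positivity)]
      refine le_trans (le_of_eq ?_) h5
      ring)
  obtain ⟨N, ν', ξ', h1, h2⟩ := key
  rw [prod_empty, one_mul] at h2
  have h3 := S1_fin k C₁ (1 / 2) c.C0 (by norm_num) _ (by positivity) c.ep 1 _ _ _ c.dat hX c.E0.le
    c.E1 h2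
  refine le_trans (le_of_eq ?_) h3
  rw [h1 (fun x => Lam none (fun t : SS Jn e => ((t : ℕ) : ℝ))
    (fun t : SS Jn e => 1 / (((t : ℕ) : ℝ) - 1)) (yf (lsz ((2 ^ 2 ^ (Jn + e) : ℕ) : ℝ)) (1 / 2) k) x ^ 2)]
  unfold S1s LL yS
  refine tsum_congr fun l => ?_
  rw [prod_empty]
  ring

end

end Run7.h296
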