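import Pool.Agent.Run7.h296.Sg

/-!
The second sum.
-/

set_option autoImplicit false

open Finset

namespace Run7.h296

open Pool.Agent.R498.MT Pool.Agent.H262R3.Lk Pool.Agent.W505.MH
open Pool.Agent.H318R2.Cr (Rgh V V_pos V_le_one cz_bounds)

/-- the bounds of Mertens type -/
def CZ (c₁ c₂ : ℝ) : Prop := 0 < c₁ ∧ c₁ ≤ c₂ ∧ ∀ z : ℕ, 2 ≤ z →
  c₁ ≤ V z * Real.log z ∧ V z * Real.log z ≤ c₂

/-- the main term of the rough integers -/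
def AJ (C : ℝ) : Prop := 0 < C ∧ ∀ (z q b j : ℕ) (σ : ℝ), 32 ≤ z → 1 ≤ q → q ^ 8 ≤ z →
    b.Coprime q → j ≤ 3 → 0 < σ → σ ≤ 1 →
    |Aj z q b j σ - (V z / q.totient) * ∑' n, cu (fn j σ) z n| ≤
      C * (Real.log z) ^ j / q.totient

/-- the contribution of the primes -/
def GP (C : ℝ) : Prop := 0 < C ∧ ∀ {k Jn e b b' W D₁ : ℕ} {C₁ E D : ℝ} {A B : Fin (2 ^ k) → ℕ}
    (_c : Ctx k Jn e b b' W D₁ C₁ E D A B) (i : Fin (2 ^ k)) (a Γ : ℝ), 1 ≤ a →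
    2 * D * (2 * 2 ^ k) ≤ Γ → 48 * (2 ^ k : ℝ) ^ 2 ≤ Γ → Γ ≤ D₁ →
    (2 ^ 2 ^ Jn * ((2 ^ 2 ^ Jn) ^ (4 * b + 6) * 2 ^ 2 ^ (Jn + e))) ^ 4 ≤ 2 ^ 2 ^ (Jn + e + 6) →
    |∑' l : ℕ, gR (2 ^ 2 ^ (Jn + e + 6)) (1 / (a * Real.log ((2 ^ 2 ^ (Jn + e + 6) : ℕ) : ℝ)))
        (B i + A i * l) * (wt A B (PS Jn W) (rhoM b Jn) l * LL A B Jn e (some i) l ^ 2) -
      (Bj (2 ^ 2 ^ (Jn + e + 6)) (A i) (B i) 2
          (1 / (a * Real.log ((2 ^ 2 ^ (Jn + e + 6) : ℕ) : ℝ))) -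
        Aj (2 ^ 2 ^ (Jn + e + 6)) (A i) (B i) 3
          (1 / (a * Real.log ((2 ^ 2 ^ (Jn + e + 6) : ℕ) : ℝ)))) *
        ((∑ T ∈ (PS Jn W).powerset, rhoM b Jn T * ∏ p ∈ T, gq A B p) * QQ k Jn e i)| ≤
    (4 * ∏ p ∈ PS Jn W, (1 - gq A B p)) * (2 * Ab k ((1 / 2) ^ e)) *
      (Γ / D₁ * (C * a ^ 8 * (Real.log ((2 ^ 2 ^ (Jn + e + 6) : ℕ) : ℝ)) ^ 3 /
        ((A i).totient : ℝ)))

/-- numerical inequality for the first part -/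
theorem num_g {G V' q φ mG Q M Ab ξ h eg S Rq ℓ3 CG main : ℝ} (hV : 0 ≤ V')
    (hq : 0 ≤ q) (hφ : 0 < φ) (hRq : Rq = V' * (q / φ)) (hG : G ≤ 0) (hG2 : -(φ * G) ≤ CG * ℓ3)
    (hG3 : main ≤ φ * G) (hm1 : (1 - h) * V' ≤ mG) (hm2 : mG ≤ (1 + h) * V') (hh : 0 ≤ h)
    (hM0 : 0 ≤ M) (hM : M ≤ Ab) (hQ : |Q - M| ≤ Ab * ξ) (hξ0 : 0 ≤ ξ) (hξ1 : ξ ≤ 1)
    (hS : |S - G * (mG * Q)| ≤ eg) :
    Rq * main * M - Rq * (CG * ℓ3) * (Ab * (2 * h + ξ)) - q * eg ≤ q * S := by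
  have hAb : 0 ≤ Ab := hM0.trans hM
  have hRq0 : 0 ≤ Rq := by rw [hRq]; positivity
  have h1 := abs_lo hS
  have h2 : q * (G * (mG * Q)) - q * eg ≤ q * S := by
    have := mul_le_mul_of_nonneg_left h1 hq
    linarith
  refine le_trans ?_ h2
  have h3 : q * (G * (mG * Q)) = (q * G) * (V' * M) + (q * G) * (mG * Q - V' * M) := by ring
  have h4 : |mG * Q - V' * M| ≤ V' * (Ab * (2 * h + ξ)) := by
    have e1 : mG * Q - V' * M = (mG - V') * Q + V' * (Q - M) := by ring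
    rw [e1]
    have e2 : |mG - V'| ≤ h * V' := by
      rw [abs_le]
      constructor <;> linarith
    have e3 : |Q| ≤ 2 * Ab := by
      have e4 : |Q| ≤ |Q - M| + |M| := by
        have := abs_add_le (Q - M) M
        rwa [sub_add_cancel] at this
      rw [abs_of_nonneg hM0] at e4
      nlinarith
    calc |(mG - V') * Q + V' * (Q - M)| ≤ |(mG - V') * Q| + |V' * (Q - M)| := abs_add_le _ _
      _ = |mG - V'| * |Q| + V' * |Q - M| := by rw [abs_mul, abs_mul, abs_of_nonneg hV]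
      _ ≤ (h * V') * (2 * Ab) + V' * (Ab * ξ) := by gcongr
      _ = _ := by ring
  have h5 : |(q * G) * (mG * Q - V' * M)| ≤ Rq * (CG * ℓ3) * (Ab * (2 * h + ξ)) := by
    rw [abs_mul, abs_mul, abs_of_nonneg hq, abs_of_nonpos hG]
    calc q * -G * |mG * Q - V' * M| ≤ q * -G * (V' * (Ab * (2 * h + ξ))) := by
          apply mul_le_mul_of_nonneg_left h4
          apply mul_nonneg hq
          linarith
      _ = Rq * (-(φ * G)) * (Ab * (2 * h + ξ)) := by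
          rw [hRq]
          field_simp
      _ ≤ Rq * (CG * ℓ3) * (Ab * (2 * h + ξ)) := by
          apply mul_le_mul_of_nonneg_right _ (mul_nonneg hAb (by linarith))
          exact mul_le_mul_of_nonneg_left hG2 hRq0
  have h6 : Rq * main * M ≤ (q * G) * (V' * M) := by
    have e1 : (q * G) * (V' * M) = Rq * (φ * G) * M := by
      rw [hRq]
      field_simp
    rw [e1]
    apply mul_le_mul_of_nonneg_right _ hM0
    exact mul_le_mul_of_nonneg_left hG3 hRq0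
  have h7 := (abs_le.1 h5).1
  rw [h3]
  linarith

/-- numerical inequality for the second part -/
theorem num_a {q F₀ F₁ VP VQ UQ VZ M η h hb' H₀ Rq Ab FZ L4 θ S : ℝ} (hq : 0 ≤ q) (hRq : 0 ≤ Rq)
    (hVP : 0 ≤ VP) (hUQ : 0 ≤ UQ) (hVZ : 0 ≤ VZ) (hid : VP * VQ = Rq * VZ)
    (hM0 : 0 ≤ M) (hM : M ≤ Ab) (hη : 0 ≤ η) (hh : 0 ≤ h) (hθ : θ = h + 2 * hb') (hθ0 : 0 ≤ θ)
    (hθ1 : θ ≤ 1) (hFZ : 0 ≤ FZ) (hL4 : 0 ≤ L4)
    (hF1 : FZ - L4 ≤ q * F₁) (hH : q * F₀ ≤ H₀) (hH1 : q * F₁ ≤ H₀) (hH0 : 0 ≤ H₀)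
    (hS : F₁ * VP * VQ * (1 - h - 2 * hb') * M - F₀ * h * VP * M -
      η * (4 * F₁ * VP * UQ + 4 * F₀ * VP) ≤ S) :
    Rq * (VZ * (FZ - θ * FZ - L4)) * M - H₀ * VP * (h * Ab) - η * (4 * (H₀ * VP) * (UQ + 1)) ≤
      q * S := by
  have h1 := mul_le_mul_of_nonneg_left hS hq
  refine le_trans ?_ h1
  have hAb : 0 ≤ Ab := hM0.trans hM
  have e1 : q * (F₁ * VP * VQ * (1 - h - 2 * hb') * M - F₀ * h * VP * M -
      η * (4 * F₁ * VP * UQ + 4 * F₀ * VP)) =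
      Rq * (VZ * ((q * F₁) * (1 - θ))) * M - (q * F₀) * VP * h * M -
        η * (4 * ((q * F₁) * VP * UQ + (q * F₀) * VP)) := by
    rw [hθ]
    linear_combination (q * F₁ * (1 - h - 2 * hb') * M) * hid
  rw [e1]
  have a1 : Rq * (VZ * (FZ - θ * FZ - L4)) * M ≤ Rq * (VZ * ((q * F₁) * (1 - θ))) * M := by
    apply mul_le_mul_of_nonneg_right _ hM0
    apply mul_le_mul_of_nonneg_left _ hRq
    apply mul_le_mul_of_nonneg_left _ hVZ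
    have : (FZ - L4) * (1 - θ) ≤ (q * F₁) * (1 - θ) :=
      mul_le_mul_of_nonneg_right hF1 (by linarith)
    nlinarith
  have a2 : (q * F₀) * VP * h * M ≤ H₀ * VP * (h * Ab) := by
    calc (q * F₀) * VP * h * M ≤ H₀ * VP * h * Ab := by gcongr
      _ = _ := by ring
  have a3 : η * (4 * ((q * F₁) * VP * UQ + (q * F₀) * VP)) ≤ η * (4 * (H₀ * VP) * (UQ + 1)) := by
    apply mul_le_mul_of_nonneg_left _ hη
    have b1 : (q * F₁) * VP * UQ ≤ H₀ * VP * UQ := by gcongr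
    have b2 : (q * F₀) * VP ≤ H₀ * VP := by gcongr
    nlinarith
  linarith

section
variable {k Jn e b b' W D₁ : ℕ} {C₁ E D : ℝ} {A B : Fin (2 ^ k) → ℕ}

/-- the second sum -/
noncomputable def S2s (A B : Fin (2 ^ k) → ℕ) (Jn e b W : ℕ) (σ : ℝ) (i : Fin (2 ^ k)) : ℝ :=
  ∑' l, bj (2 ^ 2 ^ (Jn + e + 6)) 1 1 2 σ (B i + A i * l) *
    (wt A B (PS Jn W) (rhoM b Jn) l * LL A B Jn e (some i) l ^ 2)

theorem Ctx.S2_split (c : Ctx k Jn e b b' W D₁ C₁ E D A B) (i : Fin (2 ^ k)) {σ : ℝ} (hσ : 0 < σ) :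
    (∑' l : ℕ, gR (2 ^ 2 ^ (Jn + e + 6)) σ (B i + A i * l) *
      (wt A B (PS Jn W) (rhoM b Jn) l * LL A B Jn e (some i) l ^ 2)) +
    (∑' l, aj (2 ^ 2 ^ (Jn + e + 6)) 1 1 3 σ (B i + A i * l) *
      (wt A B (PS Jn W) (rhoM b Jn) l * LL A B Jn e (some i) l ^ 2)) ≤
    S2s A B Jn e b W σ i := by
  have hA := c.A1 i
  have z1 := summ_w (A := A) (B := B) (bj_summable hσ (2 ^ 2 ^ (Jn + e + 6)) (B := B i) hA)
    (PS Jn W) (rhoM b Jn) Jn e (some i)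
  have z2 := summ_w (A := A) (B := B) (aj_summable hσ (2 ^ 2 ^ (Jn + e + 6)) (B := B i) hA)
    (PS Jn W) (rhoM b Jn) Jn e (some i)
  have z4 : Summable (fun l : ℕ => gR (2 ^ 2 ^ (Jn + e + 6)) σ (B i + A i * l) *
      (wt A B (PS Jn W) (rhoM b Jn) l * LL A B Jn e (some i) l ^ 2)) := by
    refine (z1.sub z2).congr fun l => ?_
    unfold gR
    ring
  rw [← z4.tsum_add z2]
  unfold S2s
  apply le_of_eq
  refine tsum_congr fun l => ?_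
  unfold gR
  ring

/-- the sizes -/
theorem logZ_eq (Jn e : ℕ) : Real.log ((2 ^ 2 ^ (Jn + e + 6) : ℕ) : ℝ) =
    64 * 2 ^ e * Real.log ((2 ^ 2 ^ Jn : ℕ) : ℝ) := by
  push_cast
  rw [Real.log_pow, Real.log_pow]
  push_cast
  rw [pow_add, pow_add]
  ring

theorem logZ_l0 (Jn e : ℕ) : Real.log ((2 ^ 2 ^ (Jn + e + 6) : ℕ) : ℝ) =
    8 * Real.log ((l0 Jn e : ℕ) : ℝ) := by
  unfold l0
  push_cast
  rw [Real.log_pow, Real.log_pow, Real.log_pow]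
  push_cast
  rw [pow_add 2 (Jn + e) 6]
  ring

theorem Z32 (Jn e : ℕ) : 32 ≤ 2 ^ 2 ^ (Jn + e + 6) := by
  calc 32 = 2 ^ 5 := by norm_num
    _ ≤ 2 ^ 2 ^ (Jn + e + 6) := by
      apply Nat.pow_le_pow_right (by norm_num)
      calc 5 ≤ 2 ^ 6 := by norm_num
        _ ≤ 2 ^ (Jn + e + 6) := Nat.pow_le_pow_right (by norm_num) (by omega)

theorem logZ_4 (Jn e : ℕ) : 4 ≤ Real.log ((2 ^ 2 ^ (Jn + e + 6) : ℕ) : ℝ) := by
  push_cast
  rw [Real.log_pow]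
  push_cast
  have h1 : (64 : ℝ) ≤ 2 ^ (Jn + e + 6) := by
    have : (2 : ℝ) ^ 6 ≤ 2 ^ (Jn + e + 6) := pow_le_pow_right₀ (by norm_num) (by omega)
    linarith
  have h2 := Real.log_two_gt_d9
  nlinarith

theorem cu_le_cu {φ : ℕ → ℝ} (h0 : ∀ n, 0 ≤ φ n) (hs : Summable φ) {a b : ℕ} (hab : a ≤ b) :
    ∑' n, cu φ b n ≤ ∑' n, cu φ a n := by
  apply Summable.tsum_le_tsum _ (cu_summable hs b) (cu_summable hs a)
  intro n
  unfold cu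
  by_cases h1 : b < n
  · rw [if_pos h1, if_pos (by omega)]
  · rw [if_neg h1]
    split_ifs
    · exact h0 n
    · exact le_rfl

theorem Ctx.qF (c : Ctx k Jn e b b' W D₁ C₁ E D A B) (i : Fin (2 ^ k)) {σ : ℝ} (hσ : 0 < σ) :
    (A i : ℝ) * ∑' l, cu (fA σ (A i) (B i)) (l0 Jn e) l ≤ ∑' l, cu (hh σ) (l0 Jn e) l := by
  have hA := c.A1 i
  rw [← tsum_mul_left]
  apply Summable.tsum_le_tsum _ ((cu_summable (fA_summable hσ hA) _).mul_left _)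
    (cu_summable (hh_summable hσ) _)
  intro l
  unfold cu
  by_cases h1 : l0 Jn e < l
  · rw [if_pos h1, if_pos h1]
    apply hh_ge hσ hA (c.BA i)
    have h2 := (c.AT i).trans (TY Jn e)
    have h3 : 2 ^ 2 ^ (Jn + e) ≤ l0 Jn e := Nat.le_self_pow (by norm_num) _
    omega
  · rw [if_neg h1, if_neg h1, mul_zero]

theorem Ctx.A16 (c : Ctx k Jn e b b' W D₁ C₁ E D A B) (i : Fin (2 ^ k)) :
    A i ^ 16 ≤ 2 ^ 2 ^ (Jn + e + 6) := by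
  rw [Z_eq]
  calc A i ^ 16 ≤ (2 ^ 2 ^ (Jn + e)) ^ 16 := Nat.pow_le_pow_left ((c.AT i).trans (TY Jn e)) 16
    _ ≤ _ := Nat.pow_le_pow_right (by positivity) (by norm_num)

theorem Ctx.n1 (c : Ctx k Jn e b b' W D₁ C₁ E D A B) (i : Fin (2 ^ k)) :
    2 ^ 2 ^ (Jn + e + 6) ≤ B i + A i * (l1 Jn e b' + 1) ∧
    B i + A i * (l1 Jn e b' + 1) ≤ (2 ^ 2 ^ (Jn + e + 6)) ^ (4 * b' + 9) := by
  have hA := c.A1 i
  have h1 := c.BA i
  have h2 := (c.AT i).trans (TY Jn e)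
  have h3 : 2 ^ 2 ^ (Jn + e) * 4 ≤ 2 ^ 2 ^ (Jn + e + 6) := by
    rw [Z_eq]
    have h4 : 4 ≤ 2 ^ 2 ^ (Jn + e) := four_le_T (by have := c.J1; omega)
    generalize 2 ^ 2 ^ (Jn + e) = y at *
    calc y * 4 ≤ y * y := Nat.mul_le_mul_left _ h4
      _ = y ^ 2 := by ring
      _ ≤ y ^ 64 := Nat.pow_le_pow_right (by omega) (by norm_num)
  have h5 : 1 ≤ 2 ^ 2 ^ (Jn + e + 6) := Nat.one_le_two_pow
  unfold l1
  generalize 2 ^ 2 ^ (Jn + e) = y at *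
  generalize 2 ^ 2 ^ (Jn + e + 6) = z at *
  have h6 : z ≤ z ^ (4 * b' + 8) := Nat.le_self_pow (by omega) _
  constructor
  · nlinarith
  · have h7 : z ^ (4 * b' + 9) = z * z ^ (4 * b' + 8) := by ring
    rw [h7]
    have h8 : 1 ≤ z ^ (4 * b' + 8) := by omega
    generalize z ^ (4 * b' + 8) = w at *
    calc B i + A i * (w + 1) ≤ y + y * (w + 1) :=
          add_le_add (by omega) (Nat.mul_le_mul_right _ h2)
      _ ≤ y * 4 * w := by nlinarith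
      _ ≤ z * w := Nat.mul_le_mul_right _ h3

end

end Run7.h296
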