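import Pool.Agent.Run7.h296.St

/-!
The lower bound for the second sum.
-/

set_option autoImplicit false

open Finset

namespace Run7.h296

open Pool.Agent.R498.MT Pool.Agent.H262R3.Lk Pool.Agent.W505.MH
open Pool.Agent.H318R2.Cr (Rgh V V_pos V_le_one cz_bounds)

theorem num_fin {qS Rq main M L3 CG Ab h ξ qeg VZ FZ θ L4 H₀ VP η UQ c m4 X₀ T2 : ℝ}
    (hg : Rq * main * M - Rq * (CG * L3) * (Ab * (2 * h + ξ)) - qeg +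
      (Rq * (VZ * (FZ - θ * FZ - L4)) * M - H₀ * VP * (h * Ab) - η * (4 * (H₀ * VP) * (UQ + 1))) ≤ qS)
    (hRq : 0 ≤ Rq) (hM : 0 ≤ M) (hmain : m4 * L3 ≤ main + VZ * (FZ - θ * FZ - L4))
    (hc : 0 ≤ c) (hAb : 0 ≤ Ab) (hh : 0 ≤ h) (hξ : 0 ≤ ξ) (hCG : 0 ≤ CG)
    (hRc : Rq * L3 ≤ c * (H₀ * VP)) (hX0 : H₀ * VP ≤ X₀) (hHV : 0 ≤ H₀ * VP)
    (hqeg : qeg ≤ 1 / 8 * T2 * (H₀ * VP)) (hT2 : 0 ≤ T2)
    (hP2 : c * CG * Ab * (2 * h) + h * Ab ≤ 1 / 4 * T2)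
    (hP3 : c * CG * Ab * ξ ≤ 1 / 8 * T2) (hP5 : η * (4 * (UQ + 1)) ≤ 1 / 8 * T2) :
    Rq * (m4 * L3) * M - T2 * X₀ ≤ qS := by
  have h1 : Rq * (m4 * L3) * M ≤ Rq * (main + VZ * (FZ - θ * FZ - L4)) * M :=
    mul_le_mul_of_nonneg_right (mul_le_mul_of_nonneg_left hmain hRq) hM
  have h2 : Rq * (CG * L3) * (Ab * (2 * h + ξ)) ≤ c * (H₀ * VP) * (CG * (Ab * (2 * h + ξ))) := by
    have : Rq * (CG * L3) * (Ab * (2 * h + ξ)) = (Rq * L3) * (CG * (Ab * (2 * h + ξ))) := by ring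
    rw [this]
    apply mul_le_mul_of_nonneg_right hRc
    positivity
  have h3 : c * (H₀ * VP) * (CG * (Ab * (2 * h + ξ))) + H₀ * VP * (h * Ab) =
      (H₀ * VP) * ((c * CG * Ab * (2 * h) + h * Ab) + c * CG * Ab * ξ) := by ring
  have h4 : (H₀ * VP) * ((c * CG * Ab * (2 * h) + h * Ab) + c * CG * Ab * ξ) ≤
      (H₀ * VP) * (3 / 8 * T2) := mul_le_mul_of_nonneg_left (by linarith) hHV
  have h5 : η * (4 * (H₀ * VP) * (UQ + 1)) ≤ (H₀ * VP) * (1 / 8 * T2) := by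
    have : η * (4 * (H₀ * VP) * (UQ + 1)) = (H₀ * VP) * (η * (4 * (UQ + 1))) := by ring
    rw [this]
    exact mul_le_mul_of_nonneg_left hP5 hHV
  have h6 : T2 * (H₀ * VP) ≤ T2 * X₀ := mul_le_mul_of_nonneg_left hX0 hT2
  have h7 : 0 ≤ T2 * (H₀ * VP) := mul_nonneg hT2 hHV
  linarith

theorem num_all {k e m b' : ℕ} {c₁ c₂ Ca CN c4 d Γ D₁ ℓ t I S2 Sg Sa M Q H₀ F₀ F₁ FZ VPp mG V' VP UQ
    VQ VZ VT Ajv Bjv L4 φ q Abv ξ η I2 H h hb' C₁ : ℝ}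
    (hc4 : 0 < c4) (hd : 1 ≤ d) (hθ0 : 0 ≤ h + 2 * hb') (hθ1 : h + 2 * hb' ≤ 1) (hL40 : 0 ≤ L4)
    (hP1 : Ca + (h + 2 * hb') * (96 * c₂ * d ^ 16) + c₂ * (4 * b' + 9 : ℝ) ^ 4 ≤ c4 / 4 * d ^ 12)
    (hP3 : 7 / c₁ * (96 * c₂ * d ^ 16 + Ca) ≤ C₁)
    (hP5 : 64 * (64 * (c₂ / c₁) + 1) ≤ C₁)
    (hk : 3 * ((m : ℝ) + 1) * 1474560 ≤ c4 / (393216 * c₂ * d ^ 4) * (1 / 2) * k)
    (hc₁ : 0 < c₁) (hc₂ : 0 < c₂) (hCa : 0 < Ca) (hℓ4 : 4 ≤ ℓ) (hlT : ℓ = 64 * 2 ^ e * t)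
    (ht0 : 0 < t) (hh : 0 ≤ h) (hI1 : 1 ≤ I) (hsplit : Sg + Sa ≤ S2) (hM0 : 0 ≤ M)
    (hH0 : 0 ≤ H₀) (hHlow : ℓ ^ 4 / 400 ≤ H₀) (hHup : H₀ ≤ 768 * d ^ 16 * ℓ ^ 4) (hF10 : F₁ ≤ F₀)
    (hF_le : FZ ≤ 96 * d ^ 16 * ℓ ^ 4) (hF0 : 0 ≤ FZ) (hV'0 : 0 < V') (hm1 : (1 - h) * V' ≤ mG)
    (hm2 : mG ≤ (1 + h) * V') (hVP0 : 0 < VP) (hX0a : VP ≤ VPp) (hX0b : VPp ≤ 2 * VP)
    (hUQ0 : 0 ≤ UQ) (hUQ : UQ ≤ c₂ / c₁ * (64 * 2 ^ e)) (hVZ : VZ * ℓ ≤ c₂) (hVZ0 : 0 < VZ)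
    (hVT : c₁ ≤ VT * t ∧ VT * t ≤ c₂) (hVT0 : 0 < VT) (hVZid : VZ = VT * VQ) (hBj0 : 0 ≤ Bjv)
    (hGle : Bjv - Ajv ≤ 0) (hL4 : L4 ≤ ((4 * b' + 9 : ℝ) * ℓ) ^ 4) (hφ0 : 0 < φ)
    (hAj : |Ajv - VZ / φ * FZ| ≤ Ca * ℓ ^ 3 / φ) (hbase : c4 / 2 * d ^ 12 * ℓ ^ 3 / φ ≤ Bjv)
    (hq0 : 0 < q) (hqF : q * F₀ ≤ H₀) (hlow : FZ - L4 ≤ q * F₁) (hRid : V' * (q / φ) * VT = VP)
    (hP2 : 7 / c₁ * (96 * c₂ * d ^ 16 + Ca) * Abv * (2 * h) + h * Abv ≤ 1 / 4 * (1 / 2 ^ k))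
    (hP4 : 7 / c₁ * (8 * Abv * (Γ / D₁) * (CN * (d ^ 4) ^ 8)) ≤ 1 / 8 * (1 / 2 ^ k))
    (hΓ0 : 0 ≤ Γ / D₁) (hCN : 0 < CN)
    (hAb1 : 1 ≤ Abv) (h2eA : 2 ^ e ≤ Abv) (hM1 : M ≤ Abv)
    (hgP : |Sg - (Bjv - Ajv) * (mG * Q)| ≤
      4 * V' * (2 * Abv) * (Γ / D₁ * (CN * (d ^ 4) ^ 8 * ℓ ^ 3 / φ)))
    (hξ0 : 0 ≤ ξ) (hξ1 : ξ ≤ 1) (hξb : (1 + C₁) * Abv ^ 2 * ξ ≤ 1 / (8 * 2 ^ k))
    (hQd : |Q - M| ≤ Abv * ξ) (hη0 : 0 ≤ η)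
    (haPart : F₁ * VP * VQ * (1 - h - 2 * hb') * M - F₀ * h * VP * M -
      η * (4 * F₁ * VP * UQ + 4 * F₀ * VP) ≤ Sa)
    (hη1 : (1 + C₁) * (Abv * η) ≤ 3 / 8 * (1 / 2 ^ k))
    (hI2u : I2 ≤ 12 / 5 * (u0 (1 / 2) k / (1 / 2) ^ e)) (hI21 : 1 ≤ I2)
    (hHl : ((k : ℝ) / 2 + 1) * (u0 (1 / 2) k / (1 / 2) ^ e / 10) ≤ H)
    (hMl : H ^ 2 / (8 * I2) * I ≤ M) :
    2 * ((m : ℝ) + 1) / 2 ^ k * (H₀ * VPp * I) ≤ q * S2 := by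
  have h2e : (1 : ℝ) ≤ 2 ^ e := one_le_pow₀ (by norm_num)
  have hℓ0 : 0 < ℓ := by linarith only [hℓ4]
  have hd0 : 0 < d := by linarith only [hd]
  have hAb0 : 0 ≤ Abv := by linarith only [hAb1]
  have hI0 : 0 ≤ I := by linarith only [hI1]
  have hT2 : (0 : ℝ) < 1 / 2 ^ k := by positivity
  obtain ⟨Rq, hRq⟩ : ∃ Rq : ℝ, Rq = V' * (q / φ) := ⟨_, rfl⟩
  rw [← hRq] at hRid
  have hRq0 : 0 < Rq := by rw [hRq]; positivity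
  have hCG : 0 ≤ 96 * c₂ * d ^ 16 + Ca := by positivity
  -- (A)
  have hA : VZ * FZ ≤ 96 * c₂ * d ^ 16 * ℓ ^ 3 := by
    calc VZ * FZ ≤ VZ * (96 * d ^ 16 * ℓ ^ 4) := mul_le_mul_of_nonneg_left hF_le hVZ0.le
      _ = (VZ * ℓ) * (96 * d ^ 16 * ℓ ^ 3) := by ring
      _ ≤ c₂ * (96 * d ^ 16 * ℓ ^ 3) := mul_le_mul_of_nonneg_right hVZ (by positivity)
      _ = _ := by ring
  have hB : VZ * L4 ≤ c₂ * (4 * b' + 9 : ℝ) ^ 4 * ℓ ^ 3 := by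
    calc VZ * L4 ≤ VZ * (((4 * b' + 9 : ℝ) * ℓ) ^ 4) := mul_le_mul_of_nonneg_left hL4 hVZ0.le
      _ = (VZ * ℓ) * ((4 * b' + 9 : ℝ) ^ 4 * ℓ ^ 3) := by ring
      _ ≤ c₂ * ((4 * b' + 9 : ℝ) ^ 4 * ℓ ^ 3) := mul_le_mul_of_nonneg_right hVZ (by positivity)
      _ = _ := by ring
  have hAj1 : φ * Ajv ≤ VZ * FZ + Ca * ℓ ^ 3 := by
    have h1 := (abs_le.1 hAj).2
    have h2 := mul_le_mul_of_nonneg_left h1 hφ0.le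
    have e1 : φ * (Ajv - VZ / φ * FZ) = φ * Ajv - VZ * FZ := by field_simp
    have e2 : φ * (Ca * ℓ ^ 3 / φ) = Ca * ℓ ^ 3 := by field_simp
    rw [e1, e2] at h2
    linarith only [h2]
  have hBj1 : c4 / 2 * d ^ 12 * ℓ ^ 3 ≤ φ * Bjv := by
    rw [div_le_iff₀ hφ0] at hbase
    linarith only [hbase]
  have hg := num_g (main := c4 / 2 * d ^ 12 * ℓ ^ 3 - VZ * FZ - Ca * ℓ ^ 3)
    (CG := 96 * c₂ * d ^ 16 + Ca) (ℓ3 := ℓ ^ 3) hV'0.le hq0.le hφ0 hRq hGle (by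
      have : 0 ≤ φ * Bjv := mul_nonneg hφ0.le hBj0
      have e1 : -(φ * (Bjv - Ajv)) = φ * Ajv - φ * Bjv := by ring
      rw [e1]
      linarith only [this, hAj1, hA]) (by
      have e1 : φ * (Bjv - Ajv) = φ * Bjv - φ * Ajv := by ring
      rw [e1]
      linarith only [hBj1, hAj1]) hm1 hm2 hh hM0 hM1 hQd hξ0 hξ1 hgP
  have hid : VP * VQ = Rq * VZ := by
    rw [hVZid, ← hRid]
    ring
  have ha := num_a (Rq := Rq) (Ab := Abv) (θ := h + 2 * hb') hq0.le hRq0.le hVP0.le hUQ0 hVZ0.le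
    hid hM0 hM1 hη0 hh rfl hθ0 hθ1 hF0 hL40 hlow hqF
    ((mul_le_mul_of_nonneg_left hF10 hq0.le).trans hqF) hH0 haPart
  -- (G)
  have hHV : 0 ≤ H₀ * VP := mul_nonneg hH0 hVP0.le
  have hRc : Rq * ℓ ^ 3 ≤ 7 / c₁ * (H₀ * VP) := by
    have h1 : Rq * c₁ ≤ VP * t := by
      rw [← hRid, mul_assoc]
      exact mul_le_mul_of_nonneg_left hVT.1 hRq0.le
    have h2 : t * 64 ≤ ℓ := by
      rw [hlT]
      nlinarith only [h2e, ht0]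
    rw [div_mul_eq_mul_div, le_div_iff₀ hc₁]
    have h3 : 0 < ℓ ^ 3 := by positivity
    calc Rq * ℓ ^ 3 * c₁ = (Rq * c₁) * ℓ ^ 3 := by ring
      _ ≤ (VP * t) * ℓ ^ 3 := mul_le_mul_of_nonneg_right h1 h3.le
      _ ≤ VP * (ℓ / 64) * ℓ ^ 3 := by
          apply mul_le_mul_of_nonneg_right _ h3.le
          apply mul_le_mul_of_nonneg_left _ hVP0.le
          linarith only [h2]
      _ = (ℓ ^ 4 / 400) * VP * (400 / 64) := by ring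
      _ ≤ H₀ * VP * (400 / 64) := by
          apply mul_le_mul_of_nonneg_right _ (by norm_num)
          exact mul_le_mul_of_nonneg_right hHlow hVP0.le
      _ ≤ 7 * (H₀ * VP) := by linarith only [hHV]
  -- (H)
  have hqeg : q * (4 * V' * (2 * Abv) * (Γ / D₁ * (CN * (d ^ 4) ^ 8 * ℓ ^ 3 / φ))) ≤
      1 / 8 * (1 / 2 ^ k) * (H₀ * VP) := by
    have e1 : q * (4 * V' * (2 * Abv) * (Γ / D₁ * (CN * (d ^ 4) ^ 8 * ℓ ^ 3 / φ))) =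
        (Rq * ℓ ^ 3) * (8 * Abv * (Γ / D₁) * (CN * (d ^ 4) ^ 8)) := by
      rw [hRq]
      ring
    rw [e1]
    have h1 : 0 ≤ 8 * Abv * (Γ / D₁) * (CN * (d ^ 4) ^ 8) := by positivity
    calc (Rq * ℓ ^ 3) * (8 * Abv * (Γ / D₁) * (CN * (d ^ 4) ^ 8)) ≤
        (7 / c₁ * (H₀ * VP)) * (8 * Abv * (Γ / D₁) * (CN * (d ^ 4) ^ 8)) :=
          mul_le_mul_of_nonneg_right hRc h1
      _ = (H₀ * VP) * (7 / c₁ * (8 * Abv * (Γ / D₁) * (CN * (d ^ 4) ^ 8))) := by ring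
      _ ≤ (H₀ * VP) * (1 / 8 * (1 / 2 ^ k)) := mul_le_mul_of_nonneg_left hP4 hHV
      _ = _ := by ring
  have hC1 : 0 ≤ C₁ := by
    refine le_trans ?_ hP3
    positivity
  -- (I)
  have hI : 7 / c₁ * (96 * c₂ * d ^ 16 + Ca) * Abv * ξ ≤ 1 / 8 * (1 / 2 ^ k) := by
    have h1 : 7 / c₁ * (96 * c₂ * d ^ 16 + Ca) * Abv * ξ ≤ C₁ * Abv * ξ := by gcongr
    have h2 : C₁ * Abv * ξ ≤ (1 + C₁) * Abv ^ 2 * ξ := by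
      apply mul_le_mul_of_nonneg_right _ hξ0
      calc C₁ * Abv ≤ (1 + C₁) * Abv := mul_le_mul_of_nonneg_right (by linarith only []) hAb0
        _ ≤ (1 + C₁) * Abv ^ 2 := by
          apply mul_le_mul_of_nonneg_left _ (by linarith only [hC1])
          exact le_self_pow₀ hAb1 (by norm_num)
    have h3 : (1 : ℝ) / (8 * 2 ^ k) = 1 / 8 * (1 / 2 ^ k) := by field_simp
    rw [← h3]
    linarith only [h1, h2, hξb]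
  -- (J)
  have hJ : η * (4 * (UQ + 1)) ≤ 1 / 8 * (1 / 2 ^ k) := by
    have h1 : UQ + 1 ≤ (64 * (c₂ / c₁) + 1) * Abv := by
      have h2 : UQ + 1 ≤ (64 * (c₂ / c₁) + 1) * 2 ^ e := by
        have : 0 ≤ c₂ / c₁ := by positivity
        linarith only [this, hUQ, h2e]
      refine h2.trans (mul_le_mul_of_nonneg_left h2eA (by positivity))
    have h2 : 4 * (UQ + 1) ≤ C₁ / 16 * Abv := by
      have : (64 * (c₂ / c₁) + 1) * Abv ≤ C₁ / 64 * Abv :=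
        mul_le_mul_of_nonneg_right (by linarith only [hP5]) hAb0
      linarith only [this, h1]
    have h3 : η * (4 * (UQ + 1)) ≤ η * (C₁ / 16 * Abv) := mul_le_mul_of_nonneg_left h2 hη0
    have h4 : 0 ≤ Abv * η := mul_nonneg hAb0 hη0
    have h5 : η * (C₁ / 16 * Abv) = C₁ * (Abv * η) / 16 := by ring
    linarith only [h3, h4, h5, hη1, hT2]
  have hcomb : Rq * (c4 / 2 * d ^ 12 * ℓ ^ 3 - VZ * FZ - Ca * ℓ ^ 3) * M -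
      Rq * ((96 * c₂ * d ^ 16 + Ca) * ℓ ^ 3) * (Abv * (2 * h + ξ)) -
      q * (4 * V' * (2 * Abv) * (Γ / D₁ * (CN * (d ^ 4) ^ 8 * ℓ ^ 3 / φ))) +
      (Rq * (VZ * (FZ - (h + 2 * hb') * FZ - L4)) * M - H₀ * VP * (h * Abv) -
        η * (4 * (H₀ * VP) * (UQ + 1))) ≤ q * S2 := by
    have h1 : q * Sg + q * Sa ≤ q * S2 := by
      rw [← mul_add]
      exact mul_le_mul_of_nonneg_left hsplit hq0.le
    linarith only [h1, hg, ha]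
  have hmain : c4 / 4 * d ^ 12 * ℓ ^ 3 ≤ (c4 / 2 * d ^ 12 * ℓ ^ 3 - VZ * FZ - Ca * ℓ ^ 3) +
      VZ * (FZ - (h + 2 * hb') * FZ - L4) := by
    have h1 : (h + 2 * hb') * (VZ * FZ) ≤ (h + 2 * hb') * (96 * c₂ * d ^ 16 * ℓ ^ 3) :=
      mul_le_mul_of_nonneg_left hA hθ0
    have h2 := mul_le_mul_of_nonneg_right hP1 (show 0 ≤ ℓ ^ 3 by positivity)
    have e1 : (c4 / 2 * d ^ 12 * ℓ ^ 3 - VZ * FZ - Ca * ℓ ^ 3) +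
      VZ * (FZ - (h + 2 * hb') * FZ - L4) = c4 / 2 * d ^ 12 * ℓ ^ 3 - Ca * ℓ ^ 3 -
        (h + 2 * hb') * (VZ * FZ) - VZ * L4 := by ring
    rw [e1]
    have e2 : (Ca + (h + 2 * hb') * (96 * c₂ * d ^ 16) + c₂ * (4 * b' + 9 : ℝ) ^ 4) * ℓ ^ 3 =
        Ca * ℓ ^ 3 + (h + 2 * hb') * (96 * c₂ * d ^ 16 * ℓ ^ 3) +
          c₂ * (4 * b' + 9 : ℝ) ^ 4 * ℓ ^ 3 := by ring
    rw [e2] at h2
    have e3 : c4 / 2 * d ^ 12 * ℓ ^ 3 = c4 / 4 * d ^ 12 * ℓ ^ 3 + c4 / 4 * d ^ 12 * ℓ ^ 3 := by ring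
    linarith only [h1, h2, e3, hB]
  have hX0 : H₀ * VP ≤ H₀ * VPp := mul_le_mul_of_nonneg_left hX0a hH0
  have hfin := num_fin (m4 := c4 / 4 * d ^ 12) (X₀ := H₀ * VPp) (T2 := 1 / 2 ^ k) (c := 7 / c₁)
    hcomb hRq0.le hM0 hmain (by positivity) hAb0 hh hξ0 hCG hRc hX0 hHV hqeg hT2.le hP2
    hI hJ
  -- (L)
  have hXX : c4 / (393216 * c₂ * d ^ 4) * (1 / 2) ^ e * (H₀ * VPp) ≤
      Rq * (c4 / 4 * d ^ 12 * ℓ ^ 3) * 1 := by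
    have h1 : VP * ℓ ≤ Rq * (c₂ * (64 * 2 ^ e)) := by
      calc VP * ℓ = Rq * ((VT * t) * (64 * 2 ^ e)) := by rw [← hRid, hlT]; ring
        _ ≤ Rq * (c₂ * (64 * 2 ^ e)) := by
          apply mul_le_mul_of_nonneg_left _ hRq0.le
          exact mul_le_mul_of_nonneg_right hVT.2 (by positivity)
    have h2 : H₀ * VPp ≤ (768 * d ^ 16 * ℓ ^ 4) * (2 * VP) :=
      mul_le_mul hHup hX0b (by linarith only [hVP0, hX0a]) (by positivity)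
    have h3 : (768 * d ^ 16 * ℓ ^ 4) * (2 * VP) ≤ 1536 * d ^ 16 * ℓ ^ 3 * (Rq * (c₂ * (64 * 2 ^ e))) := by
      calc (768 * d ^ 16 * ℓ ^ 4) * (2 * VP) = 1536 * d ^ 16 * ℓ ^ 3 * (VP * ℓ) := by ring
        _ ≤ _ := mul_le_mul_of_nonneg_left h1 (by positivity)
    calc c4 / (393216 * c₂ * d ^ 4) * (1 / 2) ^ e * (H₀ * VPp) ≤
        c4 / (393216 * c₂ * d ^ 4) * (1 / 2) ^ e *
          (1536 * d ^ 16 * ℓ ^ 3 * (Rq * (c₂ * (64 * 2 ^ e)))) :=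
          mul_le_mul_of_nonneg_left (h2.trans h3) (by positivity)
      _ = Rq * (c4 / 4 * d ^ 12 * ℓ ^ 3) * 1 * (((1 : ℝ) / 2) ^ e * 2 ^ e) := by
          field_simp
          ring
      _ = Rq * (c4 / 4 * d ^ 12 * ℓ ^ 3) * 1 := by
          rw [← mul_pow]
          norm_num
  have hX0' : 0 ≤ H₀ * VPp := hHV.trans hX0
  have hmn := main_num k m (1 / 2) (c4 / (393216 * c₂ * d ^ 4)) ((1 / 2) ^ e)
    (Rq * (c4 / 4 * d ^ 12 * ℓ ^ 3)) (H₀ * VPp) 1 M I H I2 (by norm_num) (by positivity) hk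
    (by positivity) hI1 hI21 hX0' hXX hHl hI2u hMl
  have hfn := fin_num k m (H₀ * VPp * I) (mul_nonneg hX0' hI0)
  have hXI : 1 / 2 ^ k * (H₀ * VPp) ≤ 1 / 2 ^ k * (H₀ * VPp * I) :=
    mul_le_mul_of_nonneg_left (le_mul_of_one_le_right hX0' hI1) hT2.le
  rw [mul_one] at hmn
  linarith only [hmn, hfn, hXI, hfin]

section
variable {k Jn e b b' W D₁ : ℕ} {C₁ E D : ℝ} {A B : Fin (2 ^ k) → ℕ}

theorem pow_Ab (k e : ℕ) : (2 : ℝ) ^ e ≤ Ab k ((1 / 2) ^ e) := by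
  unfold Pool.Agent.R498.MT.Ab
  have h1 : (1 : ℝ) / (1 / 2) ^ e = 2 ^ e := by
    rw [one_div, ← inv_pow]
    norm_num
  rw [h1]
  have h2 : (1 : ℝ) ≤ Real.exp (8 * ((2 ^ k : ℕ) : ℝ) ^ 2) := Real.one_le_exp (by positivity)
  have h3 : (1 : ℝ) ≤ 2 ^ e := one_le_pow₀ (by norm_num)
  have h4 : (2 : ℝ) ^ e ≤ ((2 : ℝ) ^ e) ^ (8 * (2 ^ k) ^ 2) := le_self_pow₀ h3 (by positivity)
  nlinarith

/-- the norm of the majorant -/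
noncomputable def X0 (A B : Fin (2 ^ k) → ℕ) (Jn e b W : ℕ) (σ : ℝ) : ℝ :=
  (∑' l, cu (hh σ) (l0 Jn e) l) * ∑ T' ∈ (PS Jn W).powerset, rhoP b Jn T' * ∏ p ∈ T', gg A B p

theorem Ctx.Rq_id (c : Ctx k Jn e b b' W D₁ C₁ E D A B) (i : Fin (2 ^ k)) :
    (∏ p ∈ PS Jn W, (1 - gq A B p)) * (A i / (A i).totient) * V (2 ^ 2 ^ Jn) =
      ∏ p ∈ PS Jn W, (1 - gg A B p) :=
  VQ_id (e := e) c.J1 c.W0 c.Ws i c.AW (c.A1 i)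

theorem Ctx.eta_bd (c : Ctx k Jn e b b' W D₁ C₁ E D A B) :
    0 ≤ eta k e C₁ E ∧ (1 + C₁) * (Ab k ((1 / 2) ^ e) * eta k e C₁ E) ≤ 3 / 8 * (1 / 2 ^ k) := by
  have h1 := Ab_E k C₁ (1 / 2) ((1 / 2) ^ e) E c.C0 (by positivity) c.ep c.E1
  have h2 := c.xi1
  have h3 := c.xi0
  have h4 := c.Ab1
  have h5 := c.E0
  have e1 : eta k e C₁ E = Ab k ((1 / 2) ^ e) * (E + xi k e C₁) := rfl
  have hk : (0 : ℝ) < 2 ^ k := by positivity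
  constructor
  · rw [e1]
    apply mul_nonneg <;> linarith
  · rw [e1]
    have e2 : (1 + C₁) * (Ab k ((1 / 2) ^ e) * (Ab k ((1 / 2) ^ e) * (E + xi k e C₁))) =
        (1 + C₁) * Ab k ((1 / 2) ^ e) ^ 2 * E + (1 + C₁) * Ab k ((1 / 2) ^ e) ^ 2 * xi k e C₁ := by
      ring
    rw [e2]
    have e3 : 3 / 8 * (1 / (2 : ℝ) ^ k) = 1 / (4 * 2 ^ k) + 1 / (8 * 2 ^ k) := by
      field_simp
      norm_num
    rw [e3]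
    linarith

/-- **the lower bound for the second sum** -/
theorem S2_low {c₁ c₂ Ca CN c4 d Γ : ℝ} (hcz : CZ c₁ c₂) (haj : AJ Ca) (hgp : GP CN)
    (hc4 : 0 < c4) (hd : 1 ≤ d) (m : ℕ) (c : Ctx k Jn e b b' W D₁ C₁ E D A B) (i : Fin (2 ^ k))
    (hΓa : 2 * D * (2 * 2 ^ k) ≤ Γ) (hΓb : 48 * (2 ^ k : ℝ) ^ 2 ≤ Γ) (hΓD : Γ ≤ D₁)
    (hF : (2 ^ 2 ^ Jn * ((2 ^ 2 ^ Jn) ^ (4 * b + 6) * 2 ^ 2 ^ (Jn + e))) ^ 4 ≤
      2 ^ 2 ^ (Jn + e + 6))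
    (hbase : c4 / 2 * d ^ 12 * (Real.log ((2 ^ 2 ^ (Jn + e + 6) : ℕ) : ℝ)) ^ 3 /
      ((A i).totient : ℝ) ≤ Bj (2 ^ 2 ^ (Jn + e + 6)) (A i) (B i) 2
        (1 / (d ^ 4 * Real.log ((2 ^ 2 ^ (Jn + e + 6) : ℕ) : ℝ))))
    (hθ1 : (1 / 2 : ℝ) ^ b + 2 * (1 / 2) ^ b' ≤ 1)
    (hP1 : Ca + ((1 / 2 : ℝ) ^ b + 2 * (1 / 2) ^ b') * (96 * c₂ * d ^ 16) +
      c₂ * (4 * b' + 9 : ℝ) ^ 4 ≤ c4 / 4 * d ^ 12)
    (hP2 : 7 / c₁ * (96 * c₂ * d ^ 16 + Ca) * Ab k ((1 / 2) ^ e) * (2 * (1 / 2) ^ b) +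
      (1 / 2) ^ b * Ab k ((1 / 2) ^ e) ≤ 1 / 4 * (1 / 2 ^ k))
    (hP3 : 7 / c₁ * (96 * c₂ * d ^ 16 + Ca) ≤ C₁)
    (hP4 : 7 / c₁ * (8 * Ab k ((1 / 2) ^ e) * (Γ / D₁) * (CN * (d ^ 4) ^ 8)) ≤ 1 / 8 * (1 / 2 ^ k))
    (hP5 : 64 * (64 * (c₂ / c₁) + 1) ≤ C₁)
    (hk : 3 * ((m : ℝ) + 1) * 1474560 ≤ c4 / (393216 * c₂ * d ^ 4) * (1 / 2) * k) :
    2 * ((m : ℝ) + 1) / 2 ^ k *
      (X0 A B Jn e b W (1 / (d ^ 4 * Real.log ((2 ^ 2 ^ (Jn + e + 6) : ℕ) : ℝ))) * II k Jn e) ≤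
    A i * S2s A B Jn e b W (1 / (d ^ 4 * Real.log ((2 ^ 2 ^ (Jn + e + 6) : ℕ) : ℝ))) i := by
  obtain ⟨hc₁, hc₁₂, hczb⟩ := hcz
  obtain ⟨hCa, hajb⟩ := haj
  obtain ⟨hCN, hgpb⟩ := hgp
  have hc₂ : 0 < c₂ := lt_of_lt_of_le hc₁ hc₁₂
  have hZ32 := Z32 Jn e
  have hℓ4 := logZ_4 Jn e
  have hd4 : 1 ≤ d ^ 4 := one_le_pow₀ hd
  have ha0 : 0 < d ^ 4 := by linarith
  obtain ⟨ℓ, hℓ⟩ : ∃ ℓ : ℝ, ℓ = Real.log ((2 ^ 2 ^ (Jn + e + 6) : ℕ) : ℝ) := ⟨_, rfl⟩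
  obtain ⟨a, ha⟩ : ∃ a : ℝ, a = d ^ 4 := ⟨_, rfl⟩
  have hgP := hgpb c i (d ^ 4) Γ hd4 hΓa hΓb hΓD hF
  rw [← hℓ] at hbase hℓ4 hgP ⊢
  have hℓ0 : 0 < ℓ := by linarith
  obtain ⟨σ, hσd⟩ : ∃ σ : ℝ, σ = 1 / (d ^ 4 * ℓ) := ⟨_, rfl⟩
  rw [← hσd] at hbase hgP ⊢
  have hσ : 0 < σ := by rw [hσd]; positivity
  have hσ1 : σ ≤ 1 := by
    rw [hσd, div_le_one (by positivity)]
    nlinarith
  have hσ4 : ∀ C : ℝ, C / σ ^ 4 = C * d ^ 16 * ℓ ^ 4 := by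
    intro C
    rw [hσd]
    field_simp
  have hA := c.A1 i
  have hΓ0 : 0 ≤ Γ / D₁ := by
    apply div_nonneg _ (Nat.cast_nonneg _)
    refine le_trans ?_ hΓb
    positivity
  have hL40 : 0 ≤ (Real.log ((B i + A i * (l1 Jn e b' + 1) : ℕ) : ℝ)) ^ 4 := by
    have := Real.log_natCast_nonneg (B i + A i * (l1 Jn e b' + 1))
    positivity
  have hq0 : (0 : ℝ) < A i := by exact_mod_cast hA
  have hφ0 : (0 : ℝ) < ((A i).totient : ℝ) := by exact_mod_cast Nat.totient_pos.2 hA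
  -- the Mertens bounds
  have hVT := hczb (2 ^ 2 ^ Jn) (two_le_pp _)
  have hVZ := hczb (2 ^ 2 ^ (Jn + e + 6)) (two_le_pp _)
  have hlT := logZ_eq Jn e
  rw [← hℓ] at hVZ hlT
  obtain ⟨t, ht⟩ : ∃ t : ℝ, t = Real.log ((2 ^ 2 ^ Jn : ℕ) : ℝ) := ⟨_, rfl⟩
  rw [← ht] at hVT hlT
  have h2e : (1 : ℝ) ≤ 2 ^ e := one_le_pow₀ (by norm_num)
  have ht0 : 0 < t := by
    rw [ht]
    exact Real.log_pos (Y_one Jn)
  have hVT0 := V_pos (2 ^ 2 ^ Jn)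
  have hVZ0 := V_pos (2 ^ 2 ^ (Jn + e + 6))
  have hVZid := V_Z (e := e) c.J1
  -- the products
  have hRid := c.Rq_id i
  have hV'0 : 0 < ∏ p ∈ PS Jn W, (1 - gq A B p) := c.rmG.pos
  have hVP0 : 0 < ∏ p ∈ PS Jn W, (1 - gg A B p) := c.rmP.pos
  have hUQ0 : 0 ≤ ∏ p ∈ QS Jn e, (1 + 1 / (p : ℝ)) := prod_nonneg fun p _ => by positivity
  have hUQ := QS_inv (e := e) c.J1 hc₁ hczb
  -- the sums
  have hF_le := F_le hσ (show 1 ≤ 2 ^ 2 ^ (Jn + e + 6) by omega)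
  rw [hσ4] at hF_le
  have hF0 : 0 ≤ ∑' n, cu (fn 3 σ) (2 ^ 2 ^ (Jn + e + 6)) n :=
    tsum_nonneg fun n => cu_nonneg (fn_nonneg 3 σ) _ n
  have hAj := hajb (2 ^ 2 ^ (Jn + e + 6)) (A i) (B i) 3 σ hZ32 hA
    ((Nat.pow_le_pow_right hA (by norm_num)).trans (c.A16 i)) (c.cop i) le_rfl hσ hσ1
  rw [← hℓ] at hAj
  have haPart := c.aPart i hσ hσ1
  have hsplit := c.S2_split i hσ
  have hqF := c.qF i hσ
  have hl0 := l0_ge (e := e) c.J1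
  have hl1 : 32 ≤ l1 Jn e b' := hl0.trans (l01 Jn e b')
  have hF10 : ∑' l, cu (fA σ (A i) (B i)) (l1 Jn e b') l ≤
      ∑' l, cu (fA σ (A i) (B i)) (l0 Jn e) l :=
    cu_le_cu (fun n => fn_nonneg 3 σ _) (fA_summable hσ hA) (l01 Jn e b')
  have hn1 := c.n1 i
  have hlow := fA_lower hσ (A := A i) (B := B i) hA hl1 (show 1 ≤ 2 ^ 2 ^ (Jn + e + 6) by omega)
    hn1.1
  have hL4 : (Real.log ((B i + A i * (l1 Jn e b' + 1) : ℕ) : ℝ)) ^ 4 ≤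
      ((4 * b' + 9 : ℝ) * ℓ) ^ 4 := by
    apply pow_le_pow_left₀ (Real.log_natCast_nonneg _)
    have h1 : ((B i + A i * (l1 Jn e b' + 1) : ℕ) : ℝ) ≤
        (((2 ^ 2 ^ (Jn + e + 6)) ^ (4 * b' + 9) : ℕ) : ℝ) := by exact_mod_cast hn1.2
    have h2 : (0 : ℝ) < ((B i + A i * (l1 Jn e b' + 1) : ℕ) : ℝ) := by
      have h3 : 0 < B i + A i * (l1 Jn e b' + 1) := by
        have := Nat.mul_pos hA (Nat.succ_pos (l1 Jn e b'))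
        have h4 : A i * (l1 Jn e b' + 1) = A i * (l1 Jn e b').succ := rfl
        omega
      exact_mod_cast h3
    refine (Real.log_le_log h2 h1).trans (le_of_eq ?_)
    rw [hℓ, Nat.cast_pow (2 ^ 2 ^ (Jn + e + 6)) (4 * b' + 9), Real.log_pow]
    push_cast
    ring
  have hH0 : 0 ≤ ∑' l, cu (hh σ) (l0 Jn e) l := tsum_nonneg fun l => cu_nonneg (hh_nonneg σ) _ l
  have hHlow := hh_lower (A := d ^ 4) hd4 hZ32 (show 1 ≤ l0 Jn e by omega)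
    ((l01 Jn e 0).trans (by
      unfold l1
      have : l0 Jn e ≤ 2 ^ 2 ^ (Jn + e + 6) := by
        unfold l0
        rw [Z_eq]
        exact Nat.pow_le_pow_right (by positivity) (by norm_num)
      exact le_rfl) |> fun _ => by
        unfold l0
        rw [Z_eq]
        exact Nat.pow_le_pow_right (by positivity) (by norm_num)) (logZ_l0 Jn e) (by
      rw [← hℓ]; exact hℓ4)
  rw [← hℓ, ← hσd] at hHlow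
  have hHup : ∑' l, cu (hh σ) (l0 Jn e) l ≤ 768 * d ^ 16 * ℓ ^ 4 := by
    have h1 := hh_tail hσ (show 1 ≤ l0 Jn e by omega)
    rw [hσ4] at h1
    refine h1.trans ?_
    apply mul_le_of_le_one_right (by positivity)
    apply Real.rpow_le_one_of_one_le_of_nonpos
    · exact_mod_cast (show 1 ≤ l0 Jn e by omega)
    · linarith
  -- further facts
  have hM0 := c.M0 i
  have hM1 := c.M1 i
  have hQd := c.Qd i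
  have hξ0 := c.xi0
  have hξ1 := c.xi2
  obtain ⟨hη0, hη1⟩ := c.eta_bd
  have hξb := c.xi1
  have hAb1 := c.Ab1
  have h2eA := pow_Ab k e
  have hhb : (0 : ℝ) ≤ (1 / 2) ^ b := by positivity
  have hhb' : (0 : ℝ) ≤ (1 / 2) ^ b' := by positivity
  have hG1 := c.rmG
  have hGs := rhoM_sum b Jn (PS Jn W) (gq A B)
  have hm1 : (1 - (1 / 2) ^ b) * ∏ p ∈ PS Jn W, (1 - gq A B p) ≤
      ∑ T ∈ (PS Jn W).powerset, rhoM b Jn T * ∏ p ∈ T, gq A B p := by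
    rw [hGs]
    have := hG1.p1
    have := hG1.d2
    linarith
  have hm2 : ∑ T ∈ (PS Jn W).powerset, rhoM b Jn T * ∏ p ∈ T, gq A B p ≤
      (1 + (1 / 2) ^ b) * ∏ p ∈ PS Jn W, (1 - gq A B p) := by
    rw [hGs]
    have := hG1.p2
    have := hG1.d1
    linarith
  have hX0a : ∏ p ∈ PS Jn W, (1 - gg A B p) ≤
      ∑ T' ∈ (PS Jn W).powerset, rhoP b Jn T' * ∏ p ∈ T', gg A B p := c.rmP.p1
  have hX0b := c.adP.a4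
  have hGle : Bj (2 ^ 2 ^ (Jn + e + 6)) (A i) (B i) 2 σ -
      Aj (2 ^ 2 ^ (Jn + e + 6)) (A i) (B i) 3 σ ≤ 0 := by
    rw [sub_nonpos]
    unfold Bj Aj
    have h1 := Pool.Agent.W933.MHSum.sum_ (2 ^ 2 ^ (Jn + e + 6)) (A i) (B i) 2 σ hσ
    have h2 := Pool.Agent.W933.MHSum.sum_ (2 ^ 2 ^ (Jn + e + 6)) (A i) (B i) 3 σ hσ
    exact h1.2.1.tsum_le_tsum (fun n => bj_le_aj _ _ _ _ n) h2.1
  have hBj0 : 0 ≤ Bj (2 ^ 2 ^ (Jn + e + 6)) (A i) (B i) 2 σ :=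
    tsum_nonneg fun n => bj_nonneg _ _ _ _ n
  -- the sums over one coordinate
  have hε : (0 : ℝ) < (1 / 2) ^ e := by positivity
  obtain ⟨hHl, hI2u, -, -, -⟩ := sums_one k C₁ (1 / 2) c.C0 (by norm_num) _ hε c.ep 1 _ _ _ c.dat
  have hI21 := I2_one c.dat hε (by norm_num) k
  have hMl := Mt_lower k C₁ (1 / 2) c.C0 (by norm_num) _ hε c.ep 1 _ _ _ c.dat i
  have hI1 : 1 ≤ II k Jn e := one_le_pow₀ hI21
  -- generalise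
  unfold X0
  unfold QQ at hQd hgP
  change _ ≤ MM k Jn e i at hMl
  change _ / _ * II k Jn e ≤ _ at hMl
  generalize II k Jn e = I at *
  generalize S2s A B Jn e b W σ i = S2 at *
  generalize (∑' l : ℕ, gR (2 ^ 2 ^ (Jn + e + 6)) σ (B i + A i * l) *
      (wt A B (PS Jn W) (rhoM b Jn) l * LL A B Jn e (some i) l ^ 2)) = Sg at *
  generalize (∑' l, aj (2 ^ 2 ^ (Jn + e + 6)) 1 1 3 σ (B i + A i * l) *
      (wt A B (PS Jn W) (rhoM b Jn) l * LL A B Jn e (some i) l ^ 2)) = Sa at *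
  generalize MM k Jn e i = M at *
  generalize (∑ σ : SS Jn e → Option (Fin (2 ^ k)), ∑ τ : SS Jn e → Option (Fin (2 ^ k)),
    cw (fun t : SS Jn e => 1 / (((t : ℕ) : ℝ) - 1)) (yS k Jn e) σ *
    cw (fun t : SS Jn e => 1 / (((t : ℕ) : ℝ) - 1)) (yS k Jn e) τ *
    ∏ t : SS Jn e, mm i ((t : ℕ) : ℝ) (σ t) (τ t)) = Q at *
  generalize (∑' l, cu (hh σ) (l0 Jn e) l) = H₀ at *
  generalize (∑' l, cu (fA σ (A i) (B i)) (l0 Jn e) l) = F₀ at *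
  generalize (∑' l, cu (fA σ (A i) (B i)) (l1 Jn e b') l) = F₁ at *
  generalize (∑' n, cu (fn 3 σ) (2 ^ 2 ^ (Jn + e + 6)) n) = FZ at *
  generalize (∑ T' ∈ (PS Jn W).powerset, rhoP b Jn T' * ∏ p ∈ T', gg A B p) = VPp at *
  generalize (∑ T ∈ (PS Jn W).powerset, rhoM b Jn T * ∏ p ∈ T, gq A B p) = mG at *
  generalize (∏ p ∈ PS Jn W, (1 - gq A B p)) = V' at *
  generalize (∏ p ∈ PS Jn W, (1 - gg A B p)) = VP at *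
  generalize (∏ p ∈ QS Jn e, (1 + 1 / (p : ℝ))) = UQ at *
  generalize (∏ p ∈ QS Jn e, (1 - 1 / (p : ℝ))) = VQ at *
  generalize V (2 ^ 2 ^ (Jn + e + 6)) = VZ at *
  generalize V (2 ^ 2 ^ Jn) = VT at *
  generalize Aj (2 ^ 2 ^ (Jn + e + 6)) (A i) (B i) 3 σ = Ajv at *
  generalize Bj (2 ^ 2 ^ (Jn + e + 6)) (A i) (B i) 2 σ = Bjv at *
  generalize (Real.log ((B i + A i * (l1 Jn e b' + 1) : ℕ) : ℝ)) ^ 4 = L4 at *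
  generalize ((A i).totient : ℝ) = φ at *
  generalize (A i : ℝ) = q at *
  generalize Ab k ((1 / 2) ^ e) = Abv at *
  generalize xi k e C₁ = ξ at *
  generalize eta k e C₁ E = η at *
  generalize (∑ a, ms (fun t : SS Jn e => 1 / (((t : ℕ) : ℝ) - 1)) a *
    Gf (lsz ((2 ^ 2 ^ (Jn + e) : ℕ) : ℝ)) (1 / 2) k a ^ 2) = I2 at *
  generalize (∑ a, ms (fun t : SS Jn e => 1 / (((t : ℕ) : ℝ) - 1)) a *
    Gf (lsz ((2 ^ 2 ^ (Jn + e) : ℕ) : ℝ)) (1 / 2) k a) = H at *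
  refine num_all (h := (1 / 2) ^ b) (hb' := (1 / 2) ^ b') hc4 hd (by positivity) hθ1 hL40 hP1 hP3
    hP5 hk hc₁ hc₂ hCa hℓ4 hlT ht0 hhb hI1 hsplit hM0 hH0 hHlow hHup hF10 hF_le hF0 hV'0 hm1 hm2
    hVP0 hX0a hX0b hUQ0 hUQ hVZ.2 hVZ0 hVT hVT0 hVZid hBj0 hGle hL4 hφ0 hAj hbase hq0 hqF hlow
    hRid hP2 hP4 hΓ0 hCN hAb1 h2eA hM1 hgP hξ0 hξ1 hξb hQd hη0 haPart hη1 hI2u hI21 hHl hMl

end

end Run7.h296
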