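import Pool.Agent.R498.MT.Param2

/-!
Values of the weights at which two given forms have no prime factors from the sieving primes.
-/

set_option autoImplicit false
set_option linter.unusedSectionVars false

namespace Run7.h296

open Finset hiding ext
open Pool.Agent.R498.MT
open Pool.Agent.H410R2 (fib mem_fib sum_tuple_le sum_tuple_ge)

section pair
variable {S J : Type} [Fintype S] [DecidableEq S] [Fintype J] [DecidableEq J]

/-- erase the colour `i` -/
def rst (i : J) (σ : S → Option J) (t : S) : Option J := if σ t = some i then none else σ t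

/-- the sum over the sets of the colour `i` -/
def Dn (μ : S → ℝ) (i : J) (y : (S → Option J) → ℝ) (s : S → Option J) : ℝ :=
  ∑ a ∈ (univ.filter (fun t => s t = none)).powerset, ms μ a * y (ext s i a)

/-- the mass of the small sets outside of the support -/
noncomputable def Nn (μ l : S → ℝ) (u : ℝ) (s : S → Option J) : ℝ :=
  ∑ a ∈ (univ.filter (fun t => s t = none)).powerset, ms μ a * (if lz l a < u then 1 else 0)

/-- the new weights -/
noncomputable def Phi (μ l : S → ℝ) (u : ℝ) (i : J) (y : (S → Option J) → ℝ)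
    (σ : S → Option J) : ℝ :=
  Dn μ i y (rst i σ) / Nn μ l u (rst i σ) * (if lz l (fib σ i) < u then 1 else 0)

theorem rst_no (i : J) (σ : S → Option J) (t : S) : rst i σ t ≠ some i := by
  unfold rst
  split_ifs with h
  · simp
  · exact h

theorem rst_ext (i : J) (s : S → Option J) (hs : ∀ t, s t ≠ some i) (a : Finset S)
    (ha : a ⊆ univ.filter (fun t => s t = none)) : rst i (ext s i a) = s := by
  funext t
  unfold rst ext
  by_cases h : s t = none
  · by_cases h2 : t ∈ a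
    · simp [h, h2]
    · simp [h, h2]
  · simp only [ne_eq, h, not_false_eq_true, if_true]
    rw [if_neg (hs t)]

theorem ext_rst (i : J) (σ : S → Option J) : ext (rst i σ) i (fib σ i) = σ := by
  funext t
  unfold ext rst
  by_cases h : σ t = some i
  · simp [h]
  · simp only [if_neg h, mem_fib]
    by_cases h2 : σ t = none
    · simp [h2]
    · simp [h2]

theorem fib_sub (i : J) (σ : S → Option J) :
    fib σ i ⊆ univ.filter (fun t => rst i σ t = none) := by
  intro t ht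
  rw [mem_fib] at ht
  rw [mem_filter]
  refine ⟨mem_univ _, ?_⟩
  unfold rst
  rw [if_pos ht]

theorem sum_split (i : J) (F : (S → Option J) → ℝ) :
    ∑ σ, F σ = ∑ s ∈ univ.filter (fun s : S → Option J => ∀ t, s t ≠ some i),
      ∑ a ∈ (univ.filter (fun t => s t = none)).powerset, F (ext s i a) := by
  classical
  rw [← sum_fiberwise_of_maps_to (s := (univ : Finset (S → Option J)))
    (t := univ.filter (fun s : S → Option J => ∀ t, s t ≠ some i)) (g := rst i)
    (fun σ _ => mem_filter.2 ⟨mem_univ _, rst_no i σ⟩)]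
  refine sum_congr rfl fun s hs => ?_
  have hs' := (mem_filter.1 hs).2
  symm
  refine sum_bij' (fun a _ => ext s i a) (fun σ _ => fib σ i) ?_ ?_ ?_ ?_ ?_
  · intro a ha
    rw [mem_powerset] at ha
    rw [mem_filter]
    exact ⟨mem_univ _, rst_ext i s hs' a ha⟩
  · intro σ hσ
    rw [mem_filter] at hσ
    rw [mem_powerset, ← hσ.2]
    exact fib_sub i σ
  · intro a ha
    rw [mem_powerset] at ha
    have := fib_ext s i hs' a ha i
    rw [if_pos rfl] at this
    exact this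
  · intro σ hσ
    rw [mem_filter] at hσ
    have := ext_rst i σ
    rw [hσ.2] at this
    exact this
  · intro a _
    rfl

theorem Lam_split (i : J) (q μ : S → ℝ) (y : (S → Option J) → ℝ) (x : S → Option J)
    (hx : ∀ t, x t ≠ some i) :
    Lam none q μ y x = ∑ s ∈ univ.filter (fun s : S → Option J => ∀ t, s t ≠ some i),
      (∏ t, cf (μ t) (s t) * hv none (q t) (s t) (x t)) * Dn μ i y s := by
  unfold Lam
  rw [sum_split i]
  refine sum_congr rfl fun s hs => ?_
  have hs' := (mem_filter.1 hs).2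
  unfold Dn
  rw [mul_sum]
  refine sum_congr rfl fun a ha => ?_
  rw [mem_powerset] at ha
  have e : (∏ t, cf (μ t) (ext s i a t)) * ∏ t, hv none (q t) (ext s i a t) (x t) =
      (∏ t, cf (μ t) (s t) * hv none (q t) (s t) (x t)) * ms μ a := by
    have e1 : ms μ a = ∏ t, (if t ∈ a then μ t else 1) := by
      unfold ms
      rw [prod_ite_mem]
      simp
    rw [e1, ← prod_mul_distrib, ← prod_mul_distrib]
    refine prod_congr rfl fun t _ => ?_
    by_cases h : s t = none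
    · by_cases h2 : t ∈ a
      · have h3 : ext s i a t = some i := by simp [ext, h, h2]
        rw [h3, h, if_pos h2]
        simp only [cf, hv]
        rw [if_neg (by simp), if_neg (hx t)]
        ring
      · have h3 : ext s i a t = none := by simp [ext, h, h2]
        rw [h3, h, if_neg h2]
        ring
    · have h2 : t ∉ a := fun h' => h (mem_filter.1 (ha h')).2
      have h3 : ext s i a t = s t := by simp [ext, h]
      rw [h3, if_neg h2]
      ring
  unfold cw
  calc (∏ t, cf (μ t) (ext s i a t)) * y (ext s i a) *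
        ∏ t, hv none (q t) (ext s i a t) (x t) =
      ((∏ t, cf (μ t) (ext s i a t)) * ∏ t, hv none (q t) (ext s i a t) (x t)) *
        y (ext s i a) := by ring
    _ = _ := by rw [e]; ring

theorem Dn_Phi (μ l : S → ℝ) (u : ℝ) (i : J) (y : (S → Option J) → ℝ) (s : S → Option J)
    (hs : ∀ t, s t ≠ some i) (hN : Dn μ i y s ≠ 0 → Nn μ l u s ≠ 0) :
    Dn μ i (Phi μ l u i y) s = Dn μ i y s := by
  have e : ∀ a ∈ (univ.filter (fun t => s t = none)).powerset,
      ms μ a * Phi μ l u i y (ext s i a) =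
        Dn μ i y s / Nn μ l u s * (ms μ a * (if lz l a < u then 1 else 0)) := by
    intro a ha
    rw [mem_powerset] at ha
    unfold Phi
    rw [rst_ext i s hs a ha]
    have h1 := fib_ext s i hs a ha i
    rw [if_pos rfl] at h1
    rw [h1]
    ring
  have e2 : Dn μ i (Phi μ l u i y) s = Dn μ i y s / Nn μ l u s * Nn μ l u s := by
    conv_lhs => unfold Dn
    rw [sum_congr rfl e, ← mul_sum]
    rfl
  rw [e2]
  by_cases h : Dn μ i y s = 0
  · rw [h]; ring
  · rw [div_mul_cancel₀ _ (hN h)]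

theorem Lam_Phi (i : J) (q μ l : S → ℝ) (u : ℝ) (y : (S → Option J) → ℝ) (x : S → Option J)
    (hx : ∀ t, x t ≠ some i)
    (hN : ∀ s : S → Option J, (∀ t, s t ≠ some i) → Dn μ i y s ≠ 0 → Nn μ l u s ≠ 0) :
    Lam none q μ (Phi μ l u i y) x = Lam none q μ y x := by
  rw [Lam_split i q μ _ x hx, Lam_split i q μ y x hx]
  refine sum_congr rfl fun s hs => ?_
  have hs' := (mem_filter.1 hs).2
  rw [Dn_Phi μ l u i y s hs' (hN s hs')]

/-- the main form -/
theorem main_prod (q μ : S → ℝ) (hq : ∀ t, 2 ≤ q t) (hμ : ∀ t, 0 ≤ μ t)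
    (hμq : ∀ t, μ t * (q t - 1) ≤ 1) (y : (S → Option J) → ℝ) (g : J → Finset S → ℝ)
    (hy : ∀ σ, |y σ| ≤ ∏ j, g j (fib σ j)) :
    ∑ σ, ∑ τ, cw μ y σ * cw μ y τ * ∏ t, VM none (q t) (σ t) (τ t) ≤
      ∏ j, ∑ a, ms μ a * g j a ^ 2 := by
  rw [main_eq]
  have h1 : ∀ s : S → Option J, ∑ σ, cw μ y σ * ∏ t, kk none (s t) (σ t) = cw μ y s := by
    intro s
    rw [sum_eq_single s]
    · have : ∏ t, kk none (s t) (s t) = 1 := by
        apply prod_eq_one
        intro t _
        rcases s t with _ | k <;> simp [kk]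
      rw [this, mul_one]
    · intro σ _ hne
      have : ∃ t, s t ≠ σ t := by
        by_contra hcon
        push Not at hcon
        exact hne (funext fun t => (hcon t).symm)
      obtain ⟨t, ht⟩ := this
      rw [prod_eq_zero (mem_univ t), mul_zero]
      rcases hs : s t with _ | k
      · rcases hσ : σ t with _ | j
        · rw [hs, hσ] at ht; exact absurd rfl ht
        · simp [kk]
      · rcases hσ : σ t with _ | j
        · simp [kk]
        · rw [hs, hσ] at ht
          have : ¬ j = k := fun h => ht (by rw [h])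
          simp [kk, this]
    · intro h; exact absurd (mem_univ _) h
  simp_rw [h1]
  have h2 : ∀ s : S → Option J, (∏ t, dd (q t) (s t)) * cw μ y s ^ 2 ≤
      ∏ j, (ms μ (fib s j) * g j (fib s j) ^ 2) := by
    intro s
    rw [prod_mul_distrib, ← mt_eq, prod_pow]
    unfold cw
    rw [mul_pow, ← mul_assoc]
    have e1 : (∏ t, dd (q t) (s t)) * (∏ t, cf (μ t) (s t)) ^ 2 ≤ Pool.Agent.R498.MT.mt μ s := by
      rw [← prod_pow, ← prod_mul_distrib]
      unfold Pool.Agent.R498.MT.mt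
      apply prod_le_prod
      · intro t _
        rcases s t with _ | k
        · simp [dd, cf]
        · simp only [dd, cf]
          have := hq t
          apply mul_nonneg (by linarith) (sq_nonneg _)
      · intro t _
        rcases s t with _ | k
        · simp [dd, cf]
        · simp only [dd, cf, reduceCtorEq, if_false]
          have h3 := hμq t
          have h4 := hμ t
          nlinarith
    have e2 : y s ^ 2 ≤ (∏ j, g j (fib s j)) ^ 2 := by
      rw [← sq_abs (y s)]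
      exact pow_le_pow_left₀ (abs_nonneg _) (hy s) 2
    have e3 : 0 ≤ Pool.Agent.R498.MT.mt μ s := by
      unfold Pool.Agent.R498.MT.mt
      apply prod_nonneg
      intro t _
      split_ifs
      · norm_num
      · exact hμ t
    exact mul_le_mul e1 e2 (sq_nonneg _) e3
  calc ∑ s, (∏ t, dd (q t) (s t)) * cw μ y s ^ 2 ≤
      ∑ s : S → Option J, ∏ j, (ms μ (fib s j) * g j (fib s j) ^ 2) :=
        sum_le_sum fun s _ => h2 s
    _ ≤ ∏ j : J, ∑ a : Finset S, ms μ a * g j a ^ 2 :=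
        sum_tuple_le (fun j a => ms μ a * g j a ^ 2) (fun _ a =>
          mul_nonneg (prod_nonneg fun t _ => hμ t) (sq_nonneg _))

/-- the new profile -/
noncomputable def gn (l : S → ℝ) (u c : ℝ) (i : J) (g : J → Finset S → ℝ) (j : J) (a : Finset S) :
    ℝ := if j = i then c * (if lz l a < u then 1 else 0) else g j a

theorem Dn_le (μ : S → ℝ) (hμ : ∀ t, 0 ≤ μ t) (i : J) (y : (S → Option J) → ℝ)
    (g : J → Finset S → ℝ) (hg0 : ∀ j a, 0 ≤ g j a)
    (hy : ∀ σ, |y σ| ≤ ∏ j, g j (fib σ j)) (s : S → Option J) (hs : ∀ t, s t ≠ some i) :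
    |Dn μ i y s| ≤ (∑ a, ms μ a * g i a) * ∏ j ∈ univ.erase i, g j (fib s j) := by
  have hms := ms_nonneg μ hμ
  have hP : 0 ≤ ∏ j ∈ univ.erase i, g j (fib s j) := prod_nonneg fun j _ => hg0 _ _
  calc |Dn μ i y s| ≤ ∑ a ∈ (univ.filter (fun t => s t = none)).powerset,
        |ms μ a * y (ext s i a)| := abs_sum_le_sum_abs _ _
    _ ≤ ∑ a ∈ (univ.filter (fun t => s t = none)).powerset,
        ms μ a * g i a * ∏ j ∈ univ.erase i, g j (fib s j) := by
        apply sum_le_sum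
        intro a ha
        rw [mem_powerset] at ha
        rw [abs_mul, abs_of_nonneg (hms a), mul_assoc]
        apply mul_le_mul_of_nonneg_left _ (hms a)
        refine (hy _).trans (le_of_eq ?_)
        rw [← mul_prod_erase univ (fun j => g j (fib (ext s i a) j)) (mem_univ i)]
        have h1 := fib_ext s i hs a ha i
        rw [if_pos rfl] at h1
        rw [h1]
        congr 1
        refine prod_congr rfl fun j hj => ?_
        rw [fib_ext s i hs a ha j, if_neg (mem_erase.1 hj).1]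
    _ ≤ ∑ a, ms μ a * g i a * ∏ j ∈ univ.erase i, g j (fib s j) := by
        apply sum_le_sum_of_subset_of_nonneg (subset_univ _)
        intro a _ _
        exact mul_nonneg (mul_nonneg (hms a) (hg0 _ _)) hP
    _ = _ := by rw [sum_mul]

theorem fib_rst (i j : J) (hj : j ≠ i) (σ : S → Option J) : fib (rst i σ) j = fib σ j := by
  ext t
  rw [mem_fib, mem_fib]
  unfold rst
  split_ifs with h
  · rw [h]
    constructor
    · intro h'; simp at h'
    · intro h'
      exact absurd (Option.some.inj h').symm hj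
  · rfl

theorem Phi_le (μ l : S → ℝ) (hμ : ∀ t, 0 ≤ μ t) (u Nm : ℝ) (hNm : 0 < Nm) (i : J)
    (y : (S → Option J) → ℝ) (g : J → Finset S → ℝ) (hg0 : ∀ j a, 0 ≤ g j a)
    (hy : ∀ σ, |y σ| ≤ ∏ j, g j (fib σ j))
    (hN : ∀ s : S → Option J, (∀ t, s t ≠ some i) → Dn μ i y s ≠ 0 → Nm ≤ Nn μ l u s)
    (σ : S → Option J) :
    |Phi μ l u i y σ| ≤ ∏ j, gn l u ((∑ a, ms μ a * g i a) / Nm) i g j (fib σ j) := by
  have hms := ms_nonneg μ hμ
  have hI0 : 0 ≤ ∑ a, ms μ a * g i a := sum_nonneg fun a _ => mul_nonneg (hms a) (hg0 _ _)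
  have hP : 0 ≤ ∏ j ∈ univ.erase i, g j (fib σ j) := prod_nonneg fun j _ => hg0 _ _
  rw [← mul_prod_erase univ (fun j => gn l u ((∑ a, ms μ a * g i a) / Nm) i g j (fib σ j))
    (mem_univ i)]
  have e1 : ∏ j ∈ univ.erase i, gn l u ((∑ a, ms μ a * g i a) / Nm) i g j (fib σ j) =
      ∏ j ∈ univ.erase i, g j (fib σ j) := by
    refine prod_congr rfl fun j hj => ?_
    unfold gn
    rw [if_neg (mem_erase.1 hj).1]
  rw [e1]
  have e2 : gn l u ((∑ a, ms μ a * g i a) / Nm) i g i (fib σ i) =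
      (∑ a, ms μ a * g i a) / Nm * (if lz l (fib σ i) < u then 1 else 0) := by
    unfold gn
    rw [if_pos rfl]
  rw [e2]
  unfold Phi
  have hind : (0 : ℝ) ≤ (if lz l (fib σ i) < u then 1 else 0) := by split_ifs <;> norm_num
  rw [abs_mul, abs_of_nonneg hind, abs_div]
  by_cases h : Dn μ i y (rst i σ) = 0
  · rw [h, abs_zero, zero_div, zero_mul]
    exact mul_nonneg (mul_nonneg (div_nonneg hI0 hNm.le) hind) hP
  have h1 := hN (rst i σ) (rst_no i σ) h
  have h2 := Dn_le μ hμ i y g hg0 hy (rst i σ) (rst_no i σ)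
  have e3 : ∏ j ∈ univ.erase i, g j (fib (rst i σ) j) = ∏ j ∈ univ.erase i, g j (fib σ j) := by
    refine prod_congr rfl fun j hj => ?_
    rw [fib_rst i j (mem_erase.1 hj).1]
  rw [e3] at h2
  have h3 : Nm ≤ |Nn μ l u (rst i σ)| := h1.trans (le_abs_self _)
  have h4 : |Dn μ i y (rst i σ)| / |Nn μ l u (rst i σ)| ≤
      ((∑ a, ms μ a * g i a) * ∏ j ∈ univ.erase i, g j (fib σ j)) / Nm :=
    div_le_div₀ (mul_nonneg hI0 hP) h2 hNm h3
  calc |Dn μ i y (rst i σ)| / |Nn μ l u (rst i σ)| * (if lz l (fib σ i) < u then 1 else 0) ≤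
      ((∑ a, ms μ a * g i a) * ∏ j ∈ univ.erase i, g j (fib σ j)) / Nm *
        (if lz l (fib σ i) < u then 1 else 0) := mul_le_mul_of_nonneg_right h4 hind
    _ = _ := by ring

theorem lt_ext (l : S → ℝ) (s : S → Option J) (i : J) (a : Finset S)
    (ha : a ⊆ univ.filter (fun t => s t = none)) : lt l (ext s i a) = lt l s + lz l a := by
  have h1 : lz l a = ∑ t, (if t ∈ a then l t else 0) := by
    unfold lz
    rw [sum_ite_mem]
    simp
  rw [h1]
  unfold lt
  rw [← sum_add_distrib]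
  refine sum_congr rfl fun t _ => ?_
  by_cases h : s t = none
  · by_cases h2 : t ∈ a
    · simp [ext, h, h2]
    · simp [ext, h, h2]
  · have h2 : t ∉ a := fun h' => h (mem_filter.1 (ha h')).2
    simp [ext, h, h2]

theorem lz_nonneg (l : S → ℝ) (hl : ∀ t, 0 ≤ l t) (a : Finset S) : 0 ≤ lz l a :=
  sum_nonneg fun t _ => hl t

theorem Dn_supp (μ l : S → ℝ) (hl : ∀ t, 0 ≤ l t) (i : J) (y : (S → Option J) → ℝ) (R : ℝ)
    (hy : ∀ σ, y σ ≠ 0 → lt l σ ≤ R) (s : S → Option J) (h : Dn μ i y s ≠ 0) : lt l s ≤ R := by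
  by_contra hcon
  apply h
  unfold Dn
  apply sum_eq_zero
  intro a ha
  rw [mem_powerset] at ha
  by_cases h0 : y (ext s i a) = 0
  · rw [h0, mul_zero]
  · exfalso
    have h1 := hy _ h0
    rw [lt_ext l s i a ha] at h1
    have := lz_nonneg l hl a
    linarith

theorem Phi_supp (μ l : S → ℝ) (hl : ∀ t, 0 ≤ l t) (u : ℝ) (i : J) (y : (S → Option J) → ℝ)
    (R : ℝ) (hy : ∀ σ, y σ ≠ 0 → lt l σ ≤ R) (σ : S → Option J) (h : Phi μ l u i y σ ≠ 0) :
    lt l σ ≤ R + u := by
  unfold Phi at h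
  have h1 : Dn μ i y (rst i σ) ≠ 0 := by
    intro h0
    rw [h0, zero_div, zero_mul] at h
    exact h rfl
  have h2 : lz l (fib σ i) < u := by
    by_contra hcon
    rw [if_neg hcon, mul_zero] at h
    exact h rfl
  have h3 := Dn_supp μ l hl i y R hy _ h1
  have h4 := lt_ext l (rst i σ) i (fib σ i) (fib_sub i σ)
  rw [ext_rst] at h4
  linarith

/-- lower bound for the masses outside of the support -/
theorem Nn_lower (μ l : S → ℝ) (hμ : ∀ t, 0 ≤ μ t) (u ω : ℝ) (s : S → Option J)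
    (hω : ∑ t, (if s t = none then 0 else μ t) ≤ ω) :
    mass l μ u - ω * ∏ t, (1 + μ t) ≤ Nn μ l u s := by
  classical
  have hms := ms_nonneg μ hμ
  have hA : 0 ≤ ∏ t, (1 + μ t) := prod_nonneg fun t _ => by linarith [hμ t]
  have c1 : mass l μ u ≤ Nn μ l u s +
      ∑ t, (if s t = none then 0 else
        ∑ a ∈ univ.filter (fun a : Finset S => t ∈ a), ms μ a * (fun _ => (1 : ℝ)) a) := by
    have c2 : ∀ a : Finset S, (if lz l a < u then ms μ a else 0) ≤
        (if a ∈ (univ.filter (fun t => s t = none)).powerset then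
          ms μ a * (if lz l a < u then 1 else 0) else 0) +
        ∑ t, (if s t = none then 0 else (if t ∈ a then ms μ a else 0)) := by
      intro a
      have h0 : 0 ≤ ms μ a := hms a
      have hs0 : ∀ t ∈ (univ : Finset S), 0 ≤
          (if s t = none then 0 else (if t ∈ a then ms μ a else 0)) := by
        intro t _
        split_ifs
        · exact le_rfl
        · exact h0
        · exact le_rfl
      by_cases h : a ∈ (univ.filter (fun t => s t = none)).powerset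
      · rw [if_pos h]
        have := sum_nonneg hs0
        split_ifs <;> linarith
      · rw [if_neg h, zero_add]
        rw [mem_powerset, not_subset] at h
        obtain ⟨t, ht, ht'⟩ := h
        have h5 : s t ≠ none := fun h => ht' (by rw [mem_filter]; exact ⟨mem_univ _, h⟩)
        have h6 := single_le_sum hs0 (mem_univ t)
        rw [if_neg h5, if_pos ht] at h6
        refine le_trans ?_ h6
        split_ifs
        · exact le_rfl
        · exact h0
    unfold mass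
    rw [sum_filter]
    refine (sum_le_sum fun a _ => c2 a).trans (le_of_eq ?_)
    rw [sum_add_distrib, sum_comm]
    congr 1
    · rw [sum_ite_mem]
      simp only [univ_inter]
      rfl
    · refine sum_congr rfl fun t _ => ?_
      split_ifs
      · simp
      · rw [sum_filter]
        refine sum_congr rfl fun a _ => ?_
        simp
  have c3 : ∑ t, (if s t = none then 0 else
        ∑ a ∈ univ.filter (fun a : Finset S => t ∈ a), ms μ a * (fun _ => (1 : ℝ)) a) ≤
        ω * ∏ t, (1 + μ t) := by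
    have c4 : ∀ t, (if s t = none then 0 else
        ∑ a ∈ univ.filter (fun a : Finset S => t ∈ a), ms μ a * (fun _ => (1 : ℝ)) a) ≤
        (if s t = none then 0 else μ t) * ∏ t, (1 + μ t) := by
      intro t
      split_ifs
      · simp
      · refine (sum_mem_le μ hμ (fun _ => (1 : ℝ)) (fun _ => zero_le_one)
          (fun _ _ _ => le_rfl) t).trans ?_
        apply mul_le_mul_of_nonneg_left _ (hμ t)
        rw [← sum_ms]
        simp
    refine (sum_le_sum fun t _ => c4 t).trans ?_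
    rw [← sum_mul]
    exact mul_le_mul_of_nonneg_right hω hA
  linarith

end pair

section num
variable {S : Type} [Fintype S] [DecidableEq S]

theorem sum_Hup (l μ : S → ℝ) (hμ : ∀ t, 0 ≤ μ t) (ε₁ w η : ℝ) (hε : 0 < ε₁)
    (hl : ∀ t, ε₁ ≤ l t) (hη : η ≤ 1 / 20) (hM : MerS l μ ε₁ w η) (k : ℕ) :
    ∀ u : ℝ, ε₁ ≤ u → 2 ^ k * u ≤ w →
      ∑ a, ms μ a * gp k u (lz l a) ≤ 6 / 5 * ((k : ℝ) + 1) * (u / ε₁) := by
  classical
  have hms : ∀ a, 0 ≤ ms μ a := fun a => prod_nonneg fun t _ => hμ t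
  induction k with
  | zero =>
    intro u h1 h2
    rw [pow_zero, one_mul] at h2
    have h3 := mass_upper l μ hμ ε₁ w η hε hl hη hM u h1 h2
    have e : ∑ a, ms μ a * gp 0 u (lz l a) = mass l μ u := by
      unfold mass
      rw [sum_filter]
      refine sum_congr rfl fun a _ => ?_
      simp only [gp]
      split_ifs <;> simp
    rw [e]
    simpa using h3
  | succ k ih =>
    intro u h1 h2
    have hu0 : 0 < u := by linarith
    have hp : (1 : ℝ) ≤ 2 ^ (k + 1) := one_le_pow₀ (by norm_num)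
    have h3 := mass_upper l μ hμ ε₁ w η hε hl hη hM u h1 (by nlinarith)
    have h4 := ih (2 * u) (by linarith) (by rw [pow_succ] at h2; linarith)
    have h5 : ∑ a, ms μ a * gp (k + 1) u (lz l a) ≤
        mass l μ u + 1 / 2 * ∑ a, ms μ a * gp k (2 * u) (lz l a) := by
      unfold mass
      rw [sum_filter, mul_sum, ← sum_add_distrib]
      apply sum_le_sum
      intro a _
      have h6 := gp_bd k (2 * u) (lz l a)
      have h7 := hms a
      have h8 : 0 ≤ ms μ a * gp k (2 * u) (lz l a) := mul_nonneg h7 h6.1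
      simp only [gp]
      split_ifs
      · linarith
      · linarith
    have h8 : 2 * u / ε₁ = 2 * (u / ε₁) := by ring
    rw [h8] at h4
    push_cast
    linarith

/-- the numbers -/
theorem pair_num (k : ℕ) (C₁ : ℝ) (hC : 0 ≤ C₁) (ε₁ : ℝ) (hε : 0 < ε₁)
    (hε1 : ε₁ ≤ e0 k C₁ (1 / 2)) (w : ℝ) (q μ l : S → ℝ)
    (hd : Dat q μ l ε₁ (1 / 2) w (om k C₁ ε₁)) :
    1 ≤ mass l μ (1 / 4) ∧
    (∑ a, ms μ a * Gf l (1 / 2) k a) / (mass l μ (1 / 4) / 2) ≤ 1 ∧
    ((∑ a, ms μ a * Gf l (1 / 2) k a) / (mass l μ (1 / 4) / 2)) ^ 2 * mass l μ (1 / 4) ≤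
      12 * (((k : ℝ) + 1) / 2 ^ k) * ∑ a, ms μ a * Gf l (1 / 2) k a ^ 2 ∧
    (2 : ℝ) ^ k / 30 ≤ ∑ a, ms μ a * Gf l (1 / 2) k a ^ 2 := by
  have hl0 : ∀ t, 0 ≤ l t := fun t => hε.le.trans (hd.l1 t)
  have hε11 : ε₁ ≤ 1 := hε1.trans (e0_le k C₁ (1 / 2)).2
  have hu0 := u0_pos (1 / 2) (by norm_num) k
  have h4u : 4 * ε₁ ≤ u0 (1 / 2) k := by have := (e0_le k C₁ (1 / 2)).1; linarith
  have hp1 : (1 : ℝ) ≤ 2 ^ k := one_le_pow₀ (by norm_num)
  have hk1 : (1 : ℝ) ≤ (k : ℝ) + 1 := by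
    have : (0 : ℝ) ≤ k := Nat.cast_nonneg _
    linarith
  have hUR := u0_le (1 / 2) (by norm_num) k
  have hUw : 2 ^ k * u0 (1 / 2) k ≤ w := by linarith [hd.Rw]
  have hu4 : u0 (1 / 2) k ≤ 1 / 4 := by nlinarith
  obtain ⟨o1, o2, o3, o4, o5⟩ := om_bd k C₁ ε₁ hC hε hε11
  have hml := mass_lower l μ hd.m0 ε₁ w (1 / 20) hε hd.l1 le_rfl hd.mer (hd.sq.trans o2) (1 / 4)
    (by linarith) (by linarith [hd.Rw])
  have hH := sum_Hup l μ hd.m0 ε₁ w (1 / 20) hε hd.l1 le_rfl hd.mer k (u0 (1 / 2) k)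
    (by linarith) hUw
  have hs1 := sums_one k C₁ (1 / 2) hC (by norm_num) ε₁ hε hε1 w q μ l hd
  have hI2l := hs1.2.2.2.1
  have hm1 : 1 ≤ mass l μ (1 / 4) := by
    classical
    have h6 : ms μ ∅ = 1 := by simp [ms]
    have h7 : ms μ ∅ ≤ mass l μ (1 / 4) := by
      unfold mass
      apply single_le_sum (f := fun a => ms μ a) (fun a _ => prod_nonneg fun t _ => hd.m0 t)
      rw [mem_filter]
      refine ⟨mem_univ _, ?_⟩
      simp [lz]
    rw [h6] at h7
    exact h7
  have hueq : u0 (1 / 2) k = 1 / (192 * 2 ^ k * ((k : ℝ) + 1)) := by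
    unfold u0
    have : (0 : ℝ) < 2 ^ k := by positivity
    have : (0 : ℝ) < (k : ℝ) + 1 := by linarith
    field_simp
    norm_num
  have hH' : ∑ a, ms μ a * Gf l (1 / 2) k a ≤ 6 / 5 * ((k : ℝ) + 1) * (u0 (1 / 2) k / ε₁) := hH
  have hH0 : 0 ≤ ∑ a, ms μ a * Gf l (1 / 2) k a := by linarith [hs1.2.2.2.2]
  generalize (∑ a, ms μ a * Gf l (1 / 2) k a) = H at *
  generalize (∑ a, ms μ a * Gf l (1 / 2) k a ^ 2) = I2 at *
  generalize mass l μ (1 / 4) = M at *
  have hM0 : 0 < M := by linarith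
  have hml' : 1 / (40 * ε₁) ≤ M := by
    refine le_trans (le_of_eq ?_) hml
    field_simp
    norm_num
  have hHb : H ≤ 1 / (160 * 2 ^ k * ε₁) := by
    refine hH'.trans (le_of_eq ?_)
    rw [hueq]
    have : (0 : ℝ) < 2 ^ k := by positivity
    have : (0 : ℝ) < (k : ℝ) + 1 := by linarith
    field_simp
    norm_num
  have hHM : H ≤ M / (4 * 2 ^ k) := by
    refine hHb.trans ?_
    rw [le_div_iff₀ (by positivity)]
    refine le_trans (le_of_eq ?_) hml'
    have : (0 : ℝ) < 2 ^ k := by positivity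
    field_simp
    norm_num
  refine ⟨hm1, ?_, ?_, ?_⟩
  · rw [div_le_one (by linarith)]
    refine hHM.trans ?_
    apply div_le_div_of_nonneg_left hM0.le (by norm_num)
    linarith
  · have e1 : (H / (M / 2)) ^ 2 * M = 4 * H * (H / M) := by
      field_simp
      ring
    rw [e1]
    have h5 : H / M ≤ 1 / (4 * 2 ^ k) := by
      rw [div_le_div_iff₀ hM0 (by positivity)]
      rw [le_div_iff₀ (by positivity)] at hHM
      linarith
    have h6 : 4 * H * (H / M) ≤ 4 * (6 / 5 * ((k : ℝ) + 1) * (u0 (1 / 2) k / ε₁)) *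
        (1 / (4 * 2 ^ k)) := by
      apply mul_le_mul _ h5 (div_nonneg hH0 hM0.le) (by positivity)
      linarith
    refine h6.trans ?_
    have h7 : 12 * (((k : ℝ) + 1) / 2 ^ k) * (u0 (1 / 2) k / ε₁ / 10) ≤
        12 * (((k : ℝ) + 1) / 2 ^ k) * I2 := mul_le_mul_of_nonneg_left hI2l (by positivity)
    refine le_trans (le_of_eq ?_) h7
    have : (0 : ℝ) < 2 ^ k := by positivity
    field_simp
    norm_num
  · refine le_trans ?_ hI2l
    have h2 : ε₁ ≤ 1 / (4 * 2 ^ k * (1 + C₁) * Real.exp (16 * ((2 ^ k : ℕ) : ℝ) ^ 2)) :=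
      hε1.trans (min_le_right _ _)
    have h3 : 16 * ((2 : ℝ) ^ k) ^ 2 ≤ Real.exp (16 * ((2 ^ k : ℕ) : ℝ) ^ 2) := by
      have := Real.add_one_le_exp (16 * ((2 ^ k : ℕ) : ℝ) ^ 2)
      push_cast at this ⊢
      linarith
    have h4 : ε₁ ≤ 1 / (64 * ((2 : ℝ) ^ k) ^ 3) := by
      refine h2.trans ?_
      apply one_div_le_one_div_of_le (by positivity)
      calc 64 * ((2 : ℝ) ^ k) ^ 3 = 4 * 2 ^ k * 1 * (16 * ((2 : ℝ) ^ k) ^ 2) := by ring
        _ ≤ 4 * 2 ^ k * (1 + C₁) * Real.exp (16 * ((2 ^ k : ℕ) : ℝ) ^ 2) := by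
            apply mul_le_mul _ h3 (by positivity) (by positivity)
            apply mul_le_mul_of_nonneg_left _ (by positivity)
            linarith
    rw [hueq]
    have hk2 : (k : ℝ) + 1 ≤ 2 ^ k := by
      have : k + 1 ≤ 2 ^ k := Nat.succ_le_of_lt (Nat.lt_two_pow_self)
      exact_mod_cast this
    rw [le_div_iff₀ (by norm_num), le_div_iff₀ hε, le_div_iff₀ (by positivity)]
    rw [le_div_iff₀ (by positivity)] at h4
    have h5 : 192 * (2 : ℝ) ^ k * ((k : ℝ) + 1) ≤ 192 * 2 ^ k * 2 ^ k :=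
      mul_le_mul_of_nonneg_left hk2 (by positivity)
    have h6 : (2 : ℝ) ^ k / 30 * 10 * ε₁ * (192 * 2 ^ k * ((k : ℝ) + 1)) ≤
        (2 : ℝ) ^ k / 30 * 10 * ε₁ * (192 * 2 ^ k * 2 ^ k) :=
      mul_le_mul_of_nonneg_left h5 (by positivity)
    refine h6.trans (le_trans (le_of_eq ?_) h4)
    ring

/-- **the weights at the values at which two forms have no factors, upper bound** -/
theorem pair_fin (k : ℕ) (C₁ : ℝ) (hC : 0 ≤ C₁) (ε₁ : ℝ) (hε : 0 < ε₁)
    (hε1 : ε₁ ≤ e0 k C₁ (1 / 2)) (w : ℝ) (q μ l : S → ℝ)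
    (hd : Dat q μ l ε₁ (1 / 2) w (om k C₁ ε₁)) (i j : Fin (2 ^ k)) (hij : i ≠ j)
    {N : Finset ℕ} {ν : ℕ → ℝ} {ξ : ℕ → S → Option (Fin (2 ^ k))} {X E : ℝ} (hX : 0 ≤ X)
    (hE : 0 ≤ E) (hE1 : E ≤ ε₁ ^ (16 * (2 ^ k) ^ 2 + 1))
    (hC1 : Cnt N ν ξ (fun t _ => 1 / q t) X E (fun T => lt l T ≤ 2)) :
    ∑ n ∈ N, ν n * Lam none q μ (Phi μ l (1 / 4) j (Phi μ l (1 / 4) i (yf l (1 / 2) k)))
        (ξ n) ^ 2 ≤ 160 * (((k : ℝ) + 1) / 2 ^ k) ^ 2 * (X * If μ l (1 / 2) k) ∧
    ∀ x : S → Option (Fin (2 ^ k)), (∀ t, x t ≠ some i) → (∀ t, x t ≠ some j) →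
      Lam none q μ (Phi μ l (1 / 4) j (Phi μ l (1 / 4) i (yf l (1 / 2) k))) x =
        Lam none q μ (yf l (1 / 2) k) x := by
  have hl0 : ∀ t, 0 ≤ l t := fun t => hε.le.trans (hd.l1 t)
  have hε11 : ε₁ ≤ 1 := hε1.trans (e0_le k C₁ (1 / 2)).2
  have hu0 := u0_pos (1 / 2) (by norm_num) k
  have hεw : ε₁ ≤ w := by
    have h1 := (e0_le k C₁ (1 / 2)).1
    have h2 := u0_le (1 / 2) (by norm_num) k
    have h3 : (1 : ℝ) ≤ 2 ^ k := one_le_pow₀ (by norm_num)
    have h4 := hd.Rw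
    nlinarith
  have hmq : ∀ t, μ t * (q t - 1) ≤ 1 := by
    intro t
    rcases hd.mq t with h | h
    · rw [h]; norm_num
    · exact h.le
  haveI : Nonempty (Fin (2 ^ k)) := ⟨⟨0, by positivity⟩⟩
  obtain ⟨g1, g2, g3, g4, g5⟩ := Gf_facts l hl0 (1 / 2) (by norm_num) k
  obtain ⟨o1, o2, o3, o4, o5⟩ := om_bd k C₁ ε₁ hC hε hε11
  obtain ⟨n1, n2, n3, n4⟩ := pair_num k C₁ hC ε₁ hε hε1 w q μ l hd
  have hA1A := A1_bd k C₁ (1 / 2) hC (by norm_num) ε₁ hε hε1 w q μ l hd
  have hωA : om k C₁ ε₁ * ∏ t, (1 + μ t) ≤ 1 / 2 := (mul_le_mul_of_nonneg_left hA1A o1.le).trans o4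
  -- lower bound of the masses
  have hNn : ∀ s : S → Option (Fin (2 ^ k)), lt l s ≤ 1 → mass l μ (1 / 4) / 2 ≤ Nn μ l (1 / 4) s := by
    intro s hs
    have e1 : ∑ t, (if s t = none then 0 else μ t) =
        ∑ t ∈ univ.filter (fun t => s t ≠ none), μ t := by
      rw [sum_filter]
      refine sum_congr rfl fun t _ => ?_
      by_cases h : s t = none <;> simp [h]
    have e2 : lz l (univ.filter (fun t => s t ≠ none)) = lt l s := by
      unfold lz lt
      rw [sum_filter]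
      refine sum_congr rfl fun t _ => ?_
      by_cases h : s t = none <;> simp [h]
    have h1 := Nn_lower μ l hd.m0 (1 / 4) (om k C₁ ε₁) s (by
      rw [e1]
      exact hd.sm _ (by rw [e2]; exact hs))
    linarith
  have hM2 : 0 < mass l μ (1 / 4) / 2 := by linarith
  -- the weights
  obtain ⟨y0, hy0⟩ : ∃ y0 : (S → Option (Fin (2 ^ k))) → ℝ, y0 = yf l (1 / 2) k := ⟨_, rfl⟩
  rw [← hy0]
  have f0 : ∀ σ, |y0 σ| ≤ ∏ m : Fin (2 ^ k), (fun _ => Gf l (1 / 2) k) m (fib σ m) := by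
    intro σ
    rw [hy0, abs_of_nonneg (yf_facts l hl0 (1 / 2) (by norm_num) k σ).1]
    exact yy_le l _ g1 (1 / 2) σ
  have s0 : ∀ σ, y0 σ ≠ 0 → lt l σ ≤ 1 / 2 := by
    intro σ h
    rw [hy0] at h
    exact (yf_facts l hl0 (1 / 2) (by norm_num) k σ).2.2 h
  have N0 : ∀ s : S → Option (Fin (2 ^ k)), (∀ t, s t ≠ some i) → Dn μ i y0 s ≠ 0 →
      mass l μ (1 / 4) / 2 ≤ Nn μ l (1 / 4) s := by
    intro s _ h
    apply hNn s
    have := Dn_supp μ l hl0 i y0 (1 / 2) s0 s h
    linarith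
  obtain ⟨y1, hy1⟩ : ∃ y1 : (S → Option (Fin (2 ^ k))) → ℝ, y1 = Phi μ l (1 / 4) i y0 := ⟨_, rfl⟩
  rw [← hy1]
  have f1 := Phi_le μ l hd.m0 (1 / 4) _ hM2 i y0 (fun _ => Gf l (1 / 2) k) (fun _ a => g1 a) f0 N0
  rw [← hy1] at f1
  have s1 : ∀ σ, y1 σ ≠ 0 → lt l σ ≤ 1 / 2 + 1 / 4 := by
    intro σ h
    rw [hy1] at h
    exact Phi_supp μ l hl0 (1 / 4) i y0 (1 / 2) s0 σ h
  have N1 : ∀ s : S → Option (Fin (2 ^ k)), (∀ t, s t ≠ some j) → Dn μ j y1 s ≠ 0 →
      mass l μ (1 / 4) / 2 ≤ Nn μ l (1 / 4) s := by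
    intro s _ h
    apply hNn s
    have := Dn_supp μ l hl0 j y1 (1 / 2 + 1 / 4) s1 s h
    linarith
  obtain ⟨c, hc⟩ : ∃ c : ℝ, c = (∑ a, ms μ a * Gf l (1 / 2) k a) / (mass l μ (1 / 4) / 2) :=
    ⟨_, rfl⟩
  rw [← hc] at n2 n3
  have hc0 : 0 ≤ c := by
    rw [hc]
    apply div_nonneg _ hM2.le
    exact sum_nonneg fun a _ => mul_nonneg (prod_nonneg fun t _ => hd.m0 t) (g1 a)
  simp only [← hc] at f1
  have hg1 : ∀ m a, 0 ≤ gn l (1 / 4) c i (fun _ => Gf l (1 / 2) k) m a := by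
    intro m a
    unfold gn
    split_ifs
    · linarith
    · linarith
    · exact g1 a
  have f2 := Phi_le μ l hd.m0 (1 / 4) _ hM2 j y1 (gn l (1 / 4) c i (fun _ => Gf l (1 / 2) k)) hg1 f1 N1
  have e1 : (∑ a, ms μ a * gn l (1 / 4) c i (fun _ => Gf l (1 / 2) k) j a) /
      (mass l μ (1 / 4) / 2) = c := by
    rw [hc]
    congr 1
    refine sum_congr rfl fun a _ => ?_
    unfold gn
    rw [if_neg hij.symm]
  rw [e1] at f2
  obtain ⟨y2, hy2⟩ : ∃ y2 : (S → Option (Fin (2 ^ k))) → ℝ, y2 = Phi μ l (1 / 4) j y1 := ⟨_, rfl⟩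
  rw [← hy2] at f2 ⊢
  have s2 : ∀ σ, y2 σ ≠ 0 → lt l σ ≤ 1 := by
    intro σ h
    rw [hy2] at h
    have := Phi_supp μ l hl0 (1 / 4) j y1 (1 / 2 + 1 / 4) s1 σ h
    linarith
  have b2 : ∀ σ, |y2 σ| ≤ 1 := by
    intro σ
    refine (f2 σ).trans (prod_le_one (fun m _ => ?_) (fun m _ => ?_))
    · unfold gn
      split_ifs
      · linarith
      · linarith
      · linarith
      · linarith
      · exact g1 _
    · unfold gn
      split_ifs
      · linarith
      · linarith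
      · linarith
      · linarith
      · exact g2 _
  refine ⟨?_, ?_⟩
  · have h1 := one_target (J := Fin (2 ^ k)) (N := N) (ν := ν) (ξ := ξ) (X := X) (E := E)
      (Good := fun T => lt l T ≤ 2) none q (fun _ => 0) μ hd.q2 (fun _ => le_rfl) hd.m0 hd.m1
      hmq y2 b2 hX hE ∅ (fun t ht => absurd ht (notMem_empty t))
      (by
        intro T hT
        have := hC1 T hT
        have e : ∀ t, rr (rd none (q t) 0) (T t) = rr (fun _ : Fin (2 ^ k) => 1 / q t) (T t) := by
          intro t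
          rcases T t with _ | j <;> simp [rr, rd]
        simp_rw [e]
        exact this)
      (by
        intro σ τ hσ hτ U hU
        have h2 := good_of none q l hl0 ∅ σ τ U hU
        have h3 := s2 σ hσ
        have h4 := s2 τ hτ
        have h5 : lz l ∅ = 0 := by simp [lz]
        show lt l U ≤ 2
        linarith)
    simp only [notMem_empty, false_imp_iff, implies_true, if_true, mul_one, prod_empty, sum_empty,
      mul_zero, add_zero] at h1
    have h2 := main_prod q μ hd.q2 hd.m0 hmq y2 _ f2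
    rw [Fintype.card_fin] at h1
    have hA1 := Ab_one k ε₁ hε hε11
    have hAA := AA_Ab hd hε hεw k
    have hEb := Ab_E k C₁ (1 / 2) ε₁ E hC hε hε1 hE1
    have hK0 : (0 : ℝ) ≤ ((2 ^ k : ℕ) : ℝ) ^ 2 := sq_nonneg _
    have p0 : (1 : ℝ) ≤ 2 ^ k := one_le_pow₀ (by norm_num)
    have herr : AA (Fin (2 ^ k)) μ * (E + (Real.exp (((2 ^ k : ℕ) : ℝ) ^ 2 * ∑ t, μ t ^ 2) - 1)) ≤
        3 / 8 * (1 / 2 ^ k) := by
      have p1 : Real.exp (((2 ^ k : ℕ) : ℝ) ^ 2 * ∑ t, μ t ^ 2) ≤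
          Real.exp (6 * ((2 ^ k : ℕ) : ℝ) ^ 2 * om k C₁ ε₁) := by
        apply Real.exp_le_exp.2
        have := mul_le_mul_of_nonneg_left hd.sq hK0
        nlinarith
      have p2 : 0 ≤ Real.exp (6 * ((2 ^ k : ℕ) : ℝ) ^ 2 * om k C₁ ε₁) - 1 := by
        have := Real.one_le_exp (show 0 ≤ 6 * ((2 ^ k : ℕ) : ℝ) ^ 2 * om k C₁ ε₁ by positivity)
        linarith
      have p3 : Ab k ε₁ ≤ (1 + C₁) * Ab k ε₁ ^ 2 := by nlinarith
      have p4 : (0 : ℝ) ≤ E + (Real.exp (6 * ((2 ^ k : ℕ) : ℝ) ^ 2 * om k C₁ ε₁) - 1) := by linarith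
      calc AA (Fin (2 ^ k)) μ * (E + (Real.exp (((2 ^ k : ℕ) : ℝ) ^ 2 * ∑ t, μ t ^ 2) - 1)) ≤
          Ab k ε₁ * (E + (Real.exp (6 * ((2 ^ k : ℕ) : ℝ) ^ 2 * om k C₁ ε₁) - 1)) := by
            apply mul_le_mul hAA (by linarith) _ (by linarith)
            have : 0 ≤ Real.exp (((2 ^ k : ℕ) : ℝ) ^ 2 * ∑ t, μ t ^ 2) - 1 := by
              have := Real.one_le_exp (show 0 ≤ ((2 ^ k : ℕ) : ℝ) ^ 2 * ∑ t, μ t ^ 2 from
                mul_nonneg hK0 (sum_nonneg fun t _ => sq_nonneg _))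
              linarith
            linarith
        _ ≤ ((1 + C₁) * Ab k ε₁ ^ 2) *
            (E + (Real.exp (6 * ((2 ^ k : ℕ) : ℝ) ^ 2 * om k C₁ ε₁) - 1)) :=
            mul_le_mul_of_nonneg_right p3 p4
        _ ≤ 1 / (4 * 2 ^ k) + 1 / (8 * 2 ^ k) := by rw [mul_add]; linarith
        _ = 3 / 8 * (1 / 2 ^ k) := by
            field_simp
            norm_num
    -- the product
    obtain ⟨I2, hI2⟩ : ∃ I2 : ℝ, I2 = ∑ a, ms μ a * Gf l (1 / 2) k a ^ 2 := ⟨_, rfl⟩
    have hI21 : 1 ≤ I2 := by rw [hI2]; exact I2_one hd hε (by norm_num) k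
    rw [← hI2] at n3 n4
    obtain ⟨α, hα⟩ : ∃ α : ℝ, α = 12 * (((k : ℝ) + 1) / 2 ^ k) := ⟨_, rfl⟩
    have hα0 : 0 ≤ α := by rw [hα]; positivity
    rw [← hα] at n3
    have hmass : ∀ b : ℝ, ∑ a, ms μ a * (b * (if lz l a < 1 / 4 then (1 : ℝ) else 0)) ^ 2 =
        b ^ 2 * mass l μ (1 / 4) := by
      intro b
      classical
      unfold mass
      rw [sum_filter, mul_sum]
      refine sum_congr rfl fun a _ => ?_
      split_ifs <;> ring
    have hprod : ∏ m : Fin (2 ^ k), ∑ a, ms μ a *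
        gn l (1 / 4) c j (gn l (1 / 4) c i (fun _ => Gf l (1 / 2) k)) m a ^ 2 ≤
        α ^ 2 * I2 ^ (2 ^ k) := by
      have hle : ∀ m : Fin (2 ^ k), ∑ a, ms μ a *
          gn l (1 / 4) c j (gn l (1 / 4) c i (fun _ => Gf l (1 / 2) k)) m a ^ 2 ≤
          (if m = j then α else 1) * (if m = i then α else 1) * I2 := by
        intro m
        unfold gn
        by_cases h1 : m = j
        · have h2 : ¬ m = i := fun h => hij (h.symm.trans h1)
          simp only [if_pos h1, if_neg h2]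
          rw [hmass, mul_one]
          exact n3
        · by_cases h2 : m = i
          · simp only [if_neg h1, if_pos h2]
            rw [hmass, one_mul]
            exact n3
          · simp only [if_neg h1, if_neg h2]
            rw [one_mul, one_mul, hI2]
      refine (prod_le_prod (fun m _ => sum_nonneg fun a _ =>
        mul_nonneg (prod_nonneg fun t _ => hd.m0 t) (sq_nonneg _)) (fun m _ => hle m)).trans ?_
      rw [prod_mul_distrib, prod_mul_distrib, prod_ite_eq' univ j, prod_ite_eq' univ i, prod_const,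
        card_univ, Fintype.card_fin]
      simp only [mem_univ, if_true]
      apply le_of_eq
      ring
    have hIf : If μ l (1 / 2) k = I2 ^ (2 ^ k) := by rw [hI2]; rfl
    have hI2p : I2 ≤ I2 ^ (2 ^ k) := le_self_pow₀ hI21 (by positivity)
    rw [abs_le] at h1
    have h5 := h1.2
    have h6 : X * ∑ σ, ∑ τ, cw μ y2 σ * cw μ y2 τ * ∏ t, VM none (q t) (σ t) (τ t) ≤
        X * (α ^ 2 * I2 ^ (2 ^ k)) := mul_le_mul_of_nonneg_left (h2.trans hprod) hX
    have h7 := mul_le_mul_of_nonneg_left herr hX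
    have h8 : 3 / 8 * (1 / (2 : ℝ) ^ k) ≤ 16 * (((k : ℝ) + 1) / 2 ^ k) ^ 2 * I2 ^ (2 ^ k) := by
      have q1 : (1 : ℝ) / 2 ^ k ≤ 30 * ((1 / 2 ^ k) ^ 2 * I2 ^ (2 ^ k)) := by
        have q2 : (2 : ℝ) ^ k / 30 ≤ I2 ^ (2 ^ k) := n4.trans hI2p
        have q3 := mul_le_mul_of_nonneg_left q2 (show (0 : ℝ) ≤ 30 * (1 / 2 ^ k) ^ 2 by positivity)
        refine le_trans (le_of_eq ?_) (q3.trans (le_of_eq (by ring)))
        field_simp
      have q4 : (1 / (2 : ℝ) ^ k) ^ 2 ≤ (((k : ℝ) + 1) / 2 ^ k) ^ 2 := by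
        apply pow_le_pow_left₀ (by positivity)
        apply div_le_div_of_nonneg_right _ (by positivity)
        have : (0 : ℝ) ≤ k := Nat.cast_nonneg _
        linarith
      have q5 : 0 ≤ I2 ^ (2 ^ k) := by positivity
      have q6 := mul_le_mul_of_nonneg_right q4 q5
      nlinarith
    have h9 := mul_le_mul_of_nonneg_left h8 hX
    rw [hIf]
    have hfin : α ^ 2 * I2 ^ (2 ^ k) = 144 * (((k : ℝ) + 1) / 2 ^ k) ^ 2 * I2 ^ (2 ^ k) := by
      rw [hα]
      ring
    rw [hfin] at h6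
    have e3 : X * (16 * (((k : ℝ) + 1) / 2 ^ k) ^ 2 * I2 ^ (2 ^ k)) =
        16 * (((k : ℝ) + 1) / 2 ^ k) ^ 2 * (X * I2 ^ (2 ^ k)) := by ring
    have e4 : X * (144 * (((k : ℝ) + 1) / 2 ^ k) ^ 2 * I2 ^ (2 ^ k)) =
        144 * (((k : ℝ) + 1) / 2 ^ k) ^ 2 * (X * I2 ^ (2 ^ k)) := by ring
    rw [e3] at h9
    rw [e4] at h6
    linarith
  · intro x hxi hxj
    rw [hy2, Lam_Phi j q μ l (1 / 4) y1 x hxj (fun s hs h => by
      have := N1 s hs h
      linarith), hy1, Lam_Phi i q μ l (1 / 4) y0 x hxi (fun s hs h => by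
      have := N0 s hs h
      linarith)]

end num

end Run7.h296
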