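import Pool.Agent.Run7.h296.T9
import Pool.Agent.H602R3.DHJ.Main

/-!
Combinatorial lemmas: zero-sum blocks, greedy choices, lines.
-/

set_option autoImplicit false

open Finset

namespace Run7.h296

/-- zero-sum blocks -/
theorem block {G : Type*} [AddCommGroup G] [Fintype G] (f : ℕ → G) :
    ∃ T : Finset ℕ, T.Nonempty ∧ T ⊆ range (Fintype.card G) ∧ ∑ u ∈ T, f u = 0 := by
  classical
  obtain ⟨x, y, hxy, h⟩ := Fintype.exists_ne_map_eq_of_card_lt
    (fun m : Fin (Fintype.card G + 1) => ∑ u ∈ range (m : ℕ), f u) (by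
      rw [Fintype.card_fin]
      omega)
  have key : ∀ x y : Fin (Fintype.card G + 1), x < y →
      ∑ u ∈ range (x : ℕ), f u = ∑ u ∈ range (y : ℕ), f u →
      ∃ T : Finset ℕ, T.Nonempty ∧ T ⊆ range (Fintype.card G) ∧ ∑ u ∈ T, f u = 0 := by
    intro x y hlt h
    have hlt' : (x : ℕ) < y := hlt
    refine ⟨Ico (x : ℕ) y, nonempty_Ico.2 hlt', ?_, ?_⟩
    · intro u hu
      rw [mem_Ico] at hu
      rw [mem_range]
      have := y.2
      omega
    · rw [sum_Ico_eq_sub _ hlt'.le, h, sub_self]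
  rcases lt_or_gt_of_ne hxy with h1 | h1
  · exact key x y h1 h
  · exact key y x h1 h.symm

/-- zero-sum blocks in `Fin M` for vectors -/
theorem block_vec {k W M : ℕ} (hW : W ≠ 0) (hM : W ^ k ≤ M) (v : Fin M → Fin k → ℕ) :
    ∃ T : Finset (Fin M), T.Nonempty ∧ ∀ i, W ∣ ∑ u ∈ T, v u i := by
  classical
  have : NeZero W := ⟨hW⟩
  obtain ⟨T, hT1, hT2, hT3⟩ := block (G := Fin k → ZMod W)
    (fun u => if h : u < M then (fun i => (v ⟨u, h⟩ i : ZMod W)) else 0)
  have hcard : Fintype.card (Fin k → ZMod W) = W ^ k := by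
    rw [Fintype.card_fun, ZMod.card, Fintype.card_fin]
  rw [hcard] at hT2
  have hTM : ∀ u ∈ T, u < M := fun u hu => by
    have := mem_range.1 (hT2 hu)
    omega
  have hbij : ∀ g : Fin M → ℕ, ∑ u ∈ univ.filter (fun u : Fin M => (u : ℕ) ∈ T), g u =
      ∑ u ∈ T, if h : u < M then g ⟨u, h⟩ else 0 := by
    intro g
    apply sum_nbij (fun u : Fin M => (u : ℕ))
    · intro u hu
      exact (mem_filter.1 hu).2
    · intro u _ u' _ h
      exact Fin.ext h
    · intro u hu
      have hu' := mem_coe.1 hu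
      exact ⟨⟨u, hTM u hu'⟩, by simpa using hu', rfl⟩
    · intro u _
      rw [dif_pos u.2]
  refine ⟨univ.filter (fun u : Fin M => (u : ℕ) ∈ T), ?_, ?_⟩
  · obtain ⟨u, hu⟩ := hT1
    exact ⟨⟨u, hTM u hu⟩, by simpa using hu⟩
  · intro i
    rw [hbij (fun u => v u i), ← ZMod.natCast_eq_zero_iff]
    push_cast
    have h1 := congrFun hT3 i
    rw [Finset.sum_apply] at h1
    rw [Pi.zero_apply] at h1
    rw [← h1]
    apply sum_congr rfl
    intro u hu
    rw [dif_pos (hTM u hu), dif_pos (hTM u hu)]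

/-- a greedy choice -/
theorem greedy (E : Finset ℕ) : ∀ (s : ℕ) (V : Fin s → ℕ), s ≤ E.card →
    ∃ e : Fin s → ℕ, (∀ t, e t ∈ E) ∧ Function.Injective (fun t => V t + e t) := by
  classical
  intro s
  induction s with
  | zero =>
    intro V _
    exact ⟨fun t => t.elim0, fun t => t.elim0, fun t => t.elim0⟩
  | succ s ih =>
    intro V hs
    obtain ⟨e, he, hinj⟩ := ih (fun t => V t.castSucc) (by omega)
    obtain ⟨x, hxE, hx⟩ : ∃ x ∈ E, x ∉ univ.image
        (fun t : Fin s => V t.castSucc + e t - V (Fin.last s)) := by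
      apply exists_mem_notMem_of_card_lt_card
      refine lt_of_le_of_lt card_image_le ?_
      rw [card_univ, Fintype.card_fin]
      omega
    have hx' : ∀ t : Fin s, V (Fin.last s) + x ≠ V t.castSucc + e t := by
      intro t h
      apply hx
      rw [mem_image]
      exact ⟨t, mem_univ _, by omega⟩
    refine ⟨Fin.snoc e x, ?_, ?_⟩
    · intro t
      refine Fin.lastCases ?_ (fun t => ?_) t
      · rw [Fin.snoc_last]
        exact hxE
      · rw [Fin.snoc_castSucc]
        exact he t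
    · intro t t'
      refine Fin.lastCases ?_ (fun t => ?_) t
      · refine Fin.lastCases ?_ (fun t' => ?_) t'
        · intro _
          rfl
        · intro h
          simp only [Fin.snoc_last, Fin.snoc_castSucc] at h
          exact absurd h (hx' t')
      · refine Fin.lastCases ?_ (fun t' => ?_) t'
        · intro h
          simp only [Fin.snoc_last, Fin.snoc_castSucc] at h
          exact absurd h.symm (hx' t)
        · intro h
          simp only [Fin.snoc_castSucc] at h
          rw [hinj h]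

/-- a large class -/
theorem big_class {E : Finset ℕ} {W s : ℕ} (hW : 1 ≤ W) (h : W * s ≤ E.card) :
    ∃ e₀ < W, s ≤ (E.filter (fun e => e % W = e₀)).card := by
  obtain ⟨e₀, he₀, hc⟩ := exists_le_card_fiber_of_mul_le_card_of_maps_to
    (s := E) (t := range W) (f := fun e => e % W) (n := s)
    (fun e _ => mem_range.2 (Nat.mod_lt _ hW)) ⟨0, mem_range.2 hW⟩ (by rwa [card_range])
  exact ⟨e₀, mem_range.1 he₀, hc⟩

open Pool.Agent.H602R3.DHJ in
/-- the density Hales-Jewett theorem -/
theorem dhj_card (k C₁ : ℕ) (hC₁ : 1 ≤ C₁) : ∃ N : ℕ, 1 ≤ N ∧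
    ∀ (R : ℕ) (ω : Fin R ≃ (Fin N → Fin (k + 1))) (U : Finset (Fin R)), R ≤ C₁ * U.card →
    ∃ (S : Finset (Fin N)) (w : Fin N → Fin (k + 1)), S.Nonempty ∧
      ∀ i, ω.symm (fun q => if q ∈ S then i else w q) ∈ U := by
  classical
  obtain ⟨N, hN⟩ := dhj k (1 / C₁) (by positivity)
  have hN' := D_up hN (Fin (N + 1)) (by rw [Fintype.card_fin]; omega)
  refine ⟨N + 1, by omega, ?_⟩
  intro R ω U hU
  have hC₁r : (0 : ℝ) < C₁ := by exact_mod_cast hC₁
  have hR0 : 0 < R := by
    have h1 : Fintype.card (Fin R) = Fintype.card (Fin (N + 1) → Fin (k + 1)) := Fintype.card_congr ω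
    rw [Fintype.card_fin] at h1
    rw [h1]
    exact Fintype.card_pos
  have hRr : (0 : ℝ) < R := by exact_mod_cast hR0
  have hdn : dn {w : Fin (N + 1) → Fin (k + 1) | ω.symm w ∈ U} = (U.card : ℝ) / R := by
    unfold dn
    rw [← av_equiv ω]
    unfold av
    rw [Fintype.card_fin]
    congr 1
    have h1 : ∀ x : Fin R, ({w : Fin (N + 1) → Fin (k + 1) | ω.symm w ∈ U}.indicator
        (fun _ => (1 : ℝ))) (ω x) = if x ∈ U then 1 else 0 := by
      intro x
      rw [Set.indicator_apply]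
      simp only [Set.mem_ofPred_eq, Equiv.symm_apply_apply]
    rw [sum_congr rfl (fun x _ => h1 x), sum_ite_mem, univ_inter, sum_const, nsmul_eq_mul, mul_one]
  have hnot : ¬ LFr {w : Fin (N + 1) → Fin (k + 1) | ω.symm w ∈ U} := by
    intro hcon
    have h1 := hN' _ hcon
    rw [hdn, div_lt_div_iff₀ hRr hC₁r, one_mul] at h1
    have h2 : (R : ℝ) ≤ C₁ * U.card := by exact_mod_cast hU
    linarith
  unfold LFr at hnot
  push Not at hnot
  obtain ⟨V, hV, hline⟩ := hnot
  obtain ⟨q₀, hq₀⟩ := hV ()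
  refine ⟨univ.filter (fun q => V q = Sum.inr ()), fun q => Sum.elim id (fun _ => 0) (V q),
    ⟨q₀, by simpa using hq₀⟩, fun i => ?_⟩
  have h1 := hline i
  have h2 : (fun q => if q ∈ univ.filter (fun q => V q = Sum.inr ()) then i else
      Sum.elim id (fun _ => 0) (V q)) = ap V (fun _ => i) := by
    funext q
    unfold ap
    rcases hVq : V q with x | u
    · simp [hVq]
    · simp [hVq]
  rw [h2]
  exact h1

end Run7.h296
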