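import Pool.Agent.Run7.h296.T10

/-!
The two applications: a positive proportion of arbitrary forms after bounded shifts, and all the forms
of a system after a choice of a partial sum.
-/

set_option autoImplicit false

open Finset

namespace Run7.h296

/-- the statement of `main_gen` -/
def GenP (C₁ : ℕ) (Q : ℕ → ℕ) (χ : ∀ i : ℕ, DirichletCharacter ℂ (Q i)) : Prop :=
    ∀ R B ℓ : ℕ, 1 ≤ R → ∃ S : ℕ, 1 ≤ S ∧ ∀ M₀ : ℕ, 1 ≤ M₀ →
    ∃ (A C D : ℕ) (γ : ℝ), 0 < γ ∧ M₀ ≤ D ∧ (∀ j, D < Q (j + D)) ∧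
    ∀ (a b : Fin R → ℕ) (y : Fin (C₁ * R * S) → ℕ) (L X P : ℕ),
    (∀ i, b i < a i ∧ (a i).Coprime (b i) ∧ a i ∣ L) →
    (∀ t, 1 ≤ y t ∧ y t + 1 ≤ M₀ * X) →
    (∀ p : ℕ, p.Prime → p ≤ C₁ * R * S + 2 → ∀ t, ¬ p ∣ a (fidx t) * y t + b (fidx t)) →
    (∀ t t', a (fidx t) = a (fidx t') → b (fidx t) = b (fidx t') → y t = y t' → t = t') →
    L ≠ 0 → L ≤ P ^ M₀ → 1 ≤ X → X ≤ P → ∀ j : ℕ, 2 ^ 2 ^ j ≤ P → P < 2 ^ 2 ^ (j + 1) →
    ∀ G : Finset (Fin R), G.Nonempty → (∀ i ∈ G, ¬ Q (j + D) ∣ D * a i ∨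
      (Q (j + D) ∣ a i ∧ χ (j + D) ((b i : ℕ) : ZMod (Q (j + D))) = -1)) →
    ∃ (n d : ℕ) (t : Fin R → Fin (C₁ * R * S)) (U : Finset (Fin R)), (∀ i, fidx (t i) = i) ∧
      (n : ℝ) ≤ γ * (P : ℝ) ^ A ∧ 1 ≤ d ∧
      (d : ℝ) ≤ γ * X * Real.log P ^ C ∧ U ⊆ G ∧ G.card ≤ C₁ * U.card ∧
      ∀ h < ℓ, (∀ i ∈ U, (a i * (n + h * d + y (t i)) + b i).Prime) ∧
        ∀ i, ArithmeticFunction.cardFactors (a i * (n + h * d + y (t i)) + b i) ≤ D ∧
          ∀ p : ℕ, p.Prime → p ∣ a i * (n + h * d + y (t i)) + b i → P ^ B < p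

theorem gen : ∃ (C₁ : ℕ) (Q : ℕ → ℕ) (χ : ∀ i : ℕ, DirichletCharacter ℂ (Q i)), 1 ≤ C₁ ∧
    (∀ i, 1 < Q i ∧ (χ i) ^ 2 = 1 ∧ (χ i).IsPrimitive) ∧
    (∀ B : ℕ, ∀ᶠ i in Filter.atTop, 2 ^ (B * i) ≤ Q i) ∧ GenP C₁ Q χ := main_gen

/-- **A positive proportion of arbitrary forms after bounded shifts** -/
theorem part_one {C₁ : ℕ} {Q : ℕ → ℕ} {χ : ∀ i : ℕ, DirichletCharacter ℂ (Q i)} (hC₁ : 1 ≤ C₁)
    (hgen : GenP C₁ Q χ) (R B ℓ : ℕ) (hR : 1 ≤ R) :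
    ∃ (A C D : ℕ) (γ : ℝ), 0 < γ ∧ (∀ j, D < Q (j + D)) ∧
    ∀ (a b v : Fin R → ℕ) (X P : ℕ), (∀ i, b i < a i ∧ (a i).Coprime (b i) ∧ a i ∣ P ∧ v i ≤ X) →
    1 ≤ X → X ≤ P → ∀ j : ℕ, 2 ^ 2 ^ j ≤ P → P < 2 ^ 2 ^ (j + 1) →
    ∀ G : Finset (Fin R), G.Nonempty → (∀ i ∈ G, ¬ Q (j + D) ∣ D * a i ∨
      (Q (j + D) ∣ a i ∧ χ (j + D) ((b i : ℕ) : ZMod (Q (j + D))) = -1)) →
    ∃ (n d : ℕ) (e : Fin R → ℕ) (U : Finset (Fin R)), (n : ℝ) ≤ γ * (P : ℝ) ^ A ∧ 1 ≤ d ∧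
      (d : ℝ) ≤ γ * X * Real.log P ^ C ∧ (∀ i, e i ≤ D) ∧ U ⊆ G ∧ G.card ≤ C₁ * U.card ∧
      ∀ h < ℓ, (∀ i ∈ U, (a i * (n + h * d + v i + e i) + b i).Prime) ∧
        ∀ i, ArithmeticFunction.cardFactors (a i * (n + h * d + v i + e i) + b i) ≤ D ∧
          ∀ p : ℕ, p.Prime → p ∣ a i * (n + h * d + v i + e i) + b i → P ^ B < p := by
  obtain ⟨S, hS1, hg⟩ := hgen R B ℓ hR
  obtain ⟨s, hs⟩ : ∃ s : ℕ, s = C₁ * R * S := ⟨_, rfl⟩
  have hs1 : 1 ≤ s := by rw [hs]; exact Nat.mul_pos (Nat.mul_pos hC₁ hR) hS1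
  obtain ⟨M, hM⟩ : ∃ M : ℕ, M = (s + 2).factorial := ⟨_, rfl⟩
  have hM1 : 1 ≤ M := by rw [hM]; exact Nat.one_le_iff_ne_zero.2 (Nat.factorial_ne_zero _)
  have hMs : 1 ≤ M * s := Nat.mul_pos hM1 hs1
  obtain ⟨A, C, D, γ, hγ, hMD, hDQ, hh⟩ := hg (1 + 2 * (M * s)) (by omega)
  refine ⟨A, C, D, γ, hγ, hDQ, ?_⟩
  intro a b v X P hab hX1 hXP j hPj hPj' G hG hGQ
  have hP2 : 2 ≤ P := (two_le_pp j).trans hPj
  obtain ⟨n, d, t, U, ht, hn, hd1, hd2, hUG, hUc, hfin⟩ := hh a b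
    (fun t => v (fidx t) + esh (b (fidx t)) (v (fidx t)) s M t) P X P
    (fun i => ⟨(hab i).1, (hab i).2.1, (hab i).2.2.1⟩)
    (by
      intro t
      have h1 := esh_lt (b := b (fidx t)) (v := v (fidx t)) (t := t) hM1 hs1
      have h2 := (hab (fidx t)).2.2.2
      have h3 : M * s ≤ esh (b (fidx t)) (v (fidx t)) s M t := Nat.le_add_right _ _
      refine ⟨by omega, ?_⟩
      have h4 : 2 * (M * s) ≤ 2 * (M * s) * X := Nat.le_mul_of_pos_right _ hX1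
      calc v (fidx t) + esh (b (fidx t)) (v (fidx t)) s M t + 1 ≤ X + 2 * (M * s) * X := by omega
        _ = (1 + 2 * (M * s)) * X := by ring)
    (by
      intro p hp hps t
      rw [← hs] at hps
      apply esh_ndvd hp hps _ hM1 hs1 (hab (fidx t)).2.1
      rw [hM]
      exact (hp.dvd_factorial).2 hps)
    (by
      intro t t' ha hb hy
      apply Fin.ext
      refine esh_inj (s := s) (M := M) (H := 1) (a := a (fidx t)) (b := b (fidx t))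
        (v := v (fidx t)) (a' := a (fidx t')) (b' := b (fidx t')) (v' := v (fidx t'))
        hM1 (by rw [hs]; exact t.2) (by rw [hs]; exact t'.2) le_rfl
        (hab (fidx t)).1 (hab (fidx t')).1 ?_
      rw [← hy, ha, hb])
    (by omega) (by
      exact Nat.le_self_pow (by omega) _) hX1 hXP j hPj hPj' G hG hGQ
  refine ⟨n, d, fun i => esh (b i) (v i) s M (t i), U, hn, hd1, hd2, ?_, hUG, hUc, ?_⟩
  · intro i
    have h1 := esh_lt (b := b i) (v := v i) (t := t i) hM1 hs1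
    show esh (b i) (v i) s M (t i) ≤ D
    omega
  · have hval : ∀ i h, a i * (n + h * d + v i + esh (b i) (v i) s M (t i)) + b i =
        a i * (n + h * d + (v (fidx (t i)) +
          esh (b (fidx (t i))) (v (fidx (t i))) s M (t i))) + b i := by
      intro i h
      rw [ht]
      ring
    intro h hh'
    have h1 := hfin h hh'
    refine ⟨fun i hi => ?_, fun i => ?_⟩
    · rw [hval]
      exact h1.1 i hi
    · rw [hval]
      exact h1.2 i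

/-- the vectors of the blocks -/
def bsum {N₁ M k : ℕ} (v : Fin (N₁ * M) → Fin (k + 1) → ℕ) (Bl : Fin N₁ → Finset (Fin M))
    (q : Fin N₁) (i : Fin (k + 1)) : ℕ := ∑ u ∈ Bl q, v (finProdFinEquiv (q, u)) i

/-- the multipliers of the blocks -/
def bprod {N₁ M k : ℕ} (r : Fin (N₁ * M) → Fin (k + 1) → ℕ) (Bl : Fin N₁ → Finset (Fin M))
    (q : Fin N₁) (i : Fin (k + 1)) : ℕ := ∏ u ∈ Bl q, r (finProdFinEquiv (q, u)) i

/-- the union of blocks -/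
def bun {N₁ M : ℕ} (Bl : Fin N₁ → Finset (Fin M)) (S : Finset (Fin N₁)) : Finset (Fin (N₁ * M)) :=
  (S.sigma Bl).map ⟨fun x => finProdFinEquiv (x.1, x.2), by
    intro x y h
    have h1 := finProdFinEquiv.injective h
    rw [Prod.mk.injEq] at h1
    obtain ⟨h2, h3⟩ := h1
    cases x
    cases y
    simp only at h2 h3
    subst h2
    subst h3
    rfl⟩

theorem bsum_bun {N₁ M k : ℕ} (v : Fin (N₁ * M) → Fin (k + 1) → ℕ) (Bl : Fin N₁ → Finset (Fin M))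
    (S : Finset (Fin N₁)) (i : Fin (k + 1)) :
    ∑ u ∈ bun Bl S, v u i = ∑ q ∈ S, bsum v Bl q i := by
  unfold bun bsum
  rw [sum_map, sum_sigma]
  rfl

theorem bprod_bun {N₁ M k : ℕ} (r : Fin (N₁ * M) → Fin (k + 1) → ℕ) (Bl : Fin N₁ → Finset (Fin M))
    (S : Finset (Fin N₁)) (i : Fin (k + 1)) :
    ∏ u ∈ bun Bl S, r u i = ∏ q ∈ S, bprod r Bl q i := by
  unfold bun bprod
  rw [prod_map, prod_sigma]
  rfl

theorem bprod_dvd {N₁ M k : ℕ} (r : Fin (N₁ * M) → Fin (k + 1) → ℕ) (Bl : Fin N₁ → Finset (Fin M))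
    (S : Finset (Fin N₁)) (w : Fin N₁ → Fin (k + 1)) :
    ∏ q ∈ S, bprod r Bl q (w q) ∣ ∏ u, ∏ i, r u i := by
  have h1 : ∏ u, ∏ i, r u i = ∏ q, ∏ u, ∏ i, r (finProdFinEquiv (q, u)) i := by
    rw [← finProdFinEquiv.prod_comp, Fintype.prod_prod_type]
  rw [h1]
  refine dvd_trans ?_ (prod_dvd_prod_of_subset S univ _ (subset_univ _))
  apply prod_dvd_prod_of_dvd
  intro q _
  unfold bprod
  refine dvd_trans ?_ (prod_dvd_prod_of_subset (Bl q) univ _ (subset_univ _))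
  apply prod_dvd_prod_of_dvd
  intro u _
  exact dvd_prod_of_mem (fun i => r (finProdFinEquiv (q, u)) i) (mem_univ _)

theorem bsum_le {N₁ M k X : ℕ} (v : Fin (N₁ * M) → Fin (k + 1) → ℕ) (Bl : Fin N₁ → Finset (Fin M))
    (hv : ∀ u i, v u i ≤ X) (S : Finset (Fin N₁)) (w : Fin N₁ → Fin (k + 1)) :
    ∑ q ∈ S, bsum v Bl q (w q) ≤ N₁ * M * X := by
  calc ∑ q ∈ S, bsum v Bl q (w q) ≤ ∑ q ∈ S, M * X := by
        apply sum_le_sum
        intro q _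
        unfold bsum
        calc ∑ u ∈ Bl q, v (finProdFinEquiv (q, u)) (w q) ≤ ∑ u ∈ Bl q, X :=
              sum_le_sum (fun u _ => hv _ _)
          _ = (Bl q).card * X := by rw [sum_const, smul_eq_mul]
          _ ≤ M * X := by
              apply Nat.mul_le_mul_right
              have := card_le_univ (Bl q)
              rwa [Fintype.card_fin] at this
    _ = S.card * (M * X) := by rw [sum_const, smul_eq_mul]
    _ ≤ N₁ * (M * X) := by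
        apply Nat.mul_le_mul_right
        have := card_le_univ S
        rwa [Fintype.card_fin] at this
    _ = _ := by ring

theorem split_sum {N k : ℕ} (f : Fin N → Fin (k + 1) → ℕ) (S : Finset (Fin N))
    (w : Fin N → Fin (k + 1)) (i : Fin (k + 1)) :
    ∑ q, f q (if q ∈ S then i else w q) = ∑ q ∈ S, f q i + ∑ q ∈ Sᶜ, f q (w q) := by
  rw [← sum_add_sum_compl S]
  congr 1
  · apply sum_congr rfl
    intro q hq
    rw [if_pos hq]
  · apply sum_congr rfl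
    intro q hq
    rw [if_neg (mem_compl.1 hq)]

theorem split_prod {N k : ℕ} (f : Fin N → Fin (k + 1) → ℕ) (S : Finset (Fin N))
    (w : Fin N → Fin (k + 1)) (i : Fin (k + 1)) :
    ∏ q, f q (if q ∈ S then i else w q) = (∏ q ∈ S, f q i) * ∏ q ∈ Sᶜ, f q (w q) := by
  rw [← prod_mul_prod_compl S]
  congr 1
  · apply prod_congr rfl
    intro q hq
    rw [if_pos hq]
  · apply prod_congr rfl
    intro q hq
    rw [if_neg (mem_compl.1 hq)]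

/-- **All the forms of a system, up to a partial sum and shifts from a given set** -/
theorem part_two {C₁ : ℕ} {Q : ℕ → ℕ} {χ : ∀ i : ℕ, DirichletCharacter ℂ (Q i)} (hC₁ : 1 ≤ C₁)
    (hgen : GenP C₁ Q χ) (k ℓ : ℕ) :
    ∃ (N A C D : ℕ) (γ : ℝ), 0 < γ ∧ (∀ j, D < Q (j + D)) ∧
    ∀ (a b : ℕ) (r v : Fin N → Fin (k + 1) → ℕ) (E : Finset ℕ) (X P : ℕ), b < a → a.Coprime b →
    (∀ u i, 1 ≤ r u i ∧ (r u i).Coprime b ∧ v u i ≤ X) → N ≤ E.card → (∀ e ∈ E, e ≤ X) →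
    X ≤ P → a * ∏ u, ∏ i, r u i ≤ P → ∀ j : ℕ, 2 ^ 2 ^ j ≤ P → P < 2 ^ 2 ^ (j + 1) →
    (¬ Q (j + D) ∣ D * (a * ∏ u, ∏ i, r u i) ∨
      (Q (j + D) ∣ a ∧ χ (j + D) ((b : ℕ) : ZMod (Q (j + D))) = -1)) →
    ∃ (n d c : ℕ) (T : Finset (Fin N)) (e : Fin (k + 1) → ℕ), (n : ℝ) ≤ γ * (P : ℝ) ^ A ∧ 1 ≤ d ∧
      (d : ℝ) ≤ γ * X * Real.log P ^ C ∧ T.Nonempty ∧ c ∣ ∏ u, ∏ i, r u i ∧ (∀ i, e i ∈ E) ∧
      ∀ i, ∀ h < ℓ,
        (a * c * (∏ u ∈ T, r u i) * (n + h * d + ∑ u ∈ T, v u i + e i) + b).Prime := by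
  classical
  obtain ⟨N₁, hN₁, hdhj⟩ := dhj_card k C₁ hC₁
  obtain ⟨ω⟩ : Nonempty (Fin (Fintype.card (Fin N₁ → Fin (k + 1))) ≃ (Fin N₁ → Fin (k + 1))) :=
    ⟨(Fintype.equivFin _).symm⟩
  obtain ⟨R, hR⟩ : ∃ R : ℕ, R = Fintype.card (Fin N₁ → Fin (k + 1)) := ⟨_, rfl⟩
  rw [← hR] at ω
  have hR1 : 1 ≤ R := by rw [hR]; exact Fintype.card_pos
  obtain ⟨S, hS1, hg⟩ := hgen R 0 ℓ hR1
  obtain ⟨s, hs⟩ : ∃ s : ℕ, s = C₁ * R * S := ⟨_, rfl⟩
  have hs1 : 1 ≤ s := by rw [hs]; exact Nat.mul_pos (Nat.mul_pos hC₁ hR1) hS1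
  obtain ⟨W, hW⟩ : ∃ W : ℕ, W = (s + 2).factorial := ⟨_, rfl⟩
  have hW1 : 1 ≤ W := by rw [hW]; exact Nat.one_le_iff_ne_zero.2 (Nat.factorial_ne_zero _)
  have hW2 : 2 ≤ W := by
    rw [hW]
    calc 2 ≤ s + 2 := by omega
      _ ≤ _ := Nat.self_le_factorial _
  obtain ⟨M, hM⟩ : ∃ M : ℕ, M = W ^ (k + 1) + W * s := ⟨_, rfl⟩
  obtain ⟨N, hN⟩ : ∃ N : ℕ, N = N₁ * M := ⟨_, rfl⟩
  have hNW : W * s ≤ N := by
    rw [hN, hM]
    calc W * s ≤ W ^ (k + 1) + W * s := Nat.le_add_left _ _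
      _ ≤ _ := Nat.le_mul_of_pos_left _ hN₁
  obtain ⟨A, C, D, γ, hγ, hMD, hDQ, hh⟩ := hg (2 * W + N + 1) (by omega)
  refine ⟨N, A + 1, C, D, γ + 2 * W + N, by positivity, hDQ, ?_⟩
  subst hN
  intro a b r v E X P hba hab hrv hNE hEX hXP haP j hPj hPj' hQ
  have hP2 : 2 ≤ P := (two_le_pp j).trans hPj
  have ha0 : 0 < a := by omega
  have hWs : W * 1 ≤ W * s := Nat.mul_le_mul_left _ hs1
  have hX1 : 1 ≤ X := by
    obtain ⟨x, hx, y, hy, hxy⟩ := one_lt_card.1 (show 1 < E.card by omega)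
    have h1 := hEX x hx
    have h2 := hEX y hy
    omega
  -- the blocks
  have hbl : ∀ q : Fin N₁, ∃ T : Finset (Fin M), T.Nonempty ∧
      ∀ i, W ∣ ∑ u ∈ T, v (finProdFinEquiv (q, u)) i := fun q =>
    block_vec (by omega) (by rw [hM]; exact Nat.le_add_right _ _)
      (fun u i => v (finProdFinEquiv (q, u)) i)
  choose Bl hBl1 hBl2 using hbl
  -- the words
  obtain ⟨V, hV⟩ : ∃ V : (Fin N₁ → Fin (k + 1)) → ℕ, V = fun w => ∑ q, bsum v Bl q (w q) := ⟨_, rfl⟩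
  obtain ⟨ρ, hρ⟩ : ∃ ρ : (Fin N₁ → Fin (k + 1)) → ℕ, ρ = fun w => ∏ q, bprod r Bl q (w q) := ⟨_, rfl⟩
  have hVt : ∀ w, V w = ∑ q, bsum v Bl q (w q) := fun w => by rw [hV]
  have hρt : ∀ w, ρ w = ∏ q, bprod r Bl q (w q) := fun w => by rw [hρ]
  have hVW : ∀ w, W ∣ V w := by
    intro w
    rw [hVt]
    apply dvd_sum
    intro q _
    exact hBl2 q (w q)
  have hVX : ∀ w, V w ≤ N₁ * M * X := by
    intro w
    rw [hVt]
    exact bsum_le v Bl (fun u i => (hrv u i).2.2) univ w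
  have hρd : ∀ w, ρ w ∣ ∏ u, ∏ i, r u i := by
    intro w
    rw [hρt]
    exact bprod_dvd r Bl univ w
  have hr0 : ∏ u, ∏ i, r u i ≠ 0 :=
    prod_ne_zero_iff.2 (fun u _ => prod_ne_zero_iff.2 (fun i _ => by
      have := (hrv u i).1
      omega))
  have hρ0 : ∀ w, 0 < ρ w := fun w => Nat.pos_of_dvd_of_pos (hρd w) (Nat.pos_of_ne_zero hr0)
  have hρb : ∀ w, (ρ w).Coprime b := by
    intro w
    apply Nat.Coprime.coprime_dvd_left (hρd w)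
    apply Nat.Coprime.prod_left
    intro u _
    apply Nat.Coprime.prod_left
    intro i _
    exact (hrv u i).2.1
  -- the shifts
  obtain ⟨e₀, he₀, hE'⟩ := big_class hW1 (hNW.trans hNE)
  obtain ⟨ε, hε1, hε2⟩ := greedy (E.filter (fun e => e % W = e₀)) (C₁ * R * S)
    (fun t => V (ω (fidx t))) (by rw [← hs]; exact hE')
  obtain ⟨x₀, hx₀⟩ : ∃ x₀ : ℕ, x₀ = W + (sig b s + (W - 1) * e₀) % W := ⟨_, rfl⟩
  have hx₀1 : W ≤ x₀ := by rw [hx₀]; exact Nat.le_add_right _ _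
  have hx₀2 : x₀ < 2 * W := by
    have := Nat.mod_lt (sig b s + (W - 1) * e₀) (show 0 < W by omega)
    omega
  have hε : ∀ t, ε t ∈ E ∧ ε t % W = e₀ := fun t => mem_filter.1 (hε1 t)
  have hymod : ∀ t, x₀ + V (ω (fidx t)) + ε t ≡ sig b s [MOD W] := by
    intro t
    have h1 : x₀ ≡ sig b s + (W - 1) * e₀ [MOD W] := by
      rw [hx₀]
      calc W + (sig b s + (W - 1) * e₀) % W ≡ 0 + (sig b s + (W - 1) * e₀) [MOD W] :=
            Nat.ModEq.add (Nat.modEq_zero_iff_dvd.2 dvd_rfl) (Nat.mod_modEq _ _)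
        _ = _ := zero_add _
    have h2 : V (ω (fidx t)) ≡ 0 [MOD W] := Nat.modEq_zero_iff_dvd.2 (hVW _)
    have h3 : ε t ≡ e₀ [MOD W] := by
      have h4 := (hε t).2
      unfold Nat.ModEq
      rw [h4, Nat.mod_eq_of_lt he₀]
    calc x₀ + V (ω (fidx t)) + ε t ≡ sig b s + (W - 1) * e₀ + 0 + e₀ [MOD W] :=
          (h1.add h2).add h3
      _ = sig b s + ((W - 1) + 1) * e₀ := by ring
      _ = sig b s + W * e₀ := by rw [Nat.sub_add_cancel hW1]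
      _ ≡ sig b s + 0 [MOD W] := by
          apply Nat.ModEq.add_left
          exact Nat.modEq_zero_iff_dvd.2 (dvd_mul_right _ _)
      _ = sig b s := add_zero _
  obtain ⟨n, d, t, U, ht, hn, hd1, hd2, -, hUc, hfin⟩ := hh (fun i => a * ρ (ω i)) (fun _ => b)
    (fun t => x₀ + V (ω (fidx t)) + ε t) (a * ∏ u, ∏ i, r u i) X P
    (by
      intro i
      refine ⟨?_, Nat.Coprime.mul_left hab (hρb _), Nat.mul_dvd_mul_left _ (hρd _)⟩
      exact lt_of_lt_of_le hba (Nat.le_mul_of_pos_right _ (hρ0 _)))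
    (by
      intro t
      have h1 := hVX (ω (fidx t))
      have h2 := hEX _ (hε t).1
      have h3 : 2 * W ≤ 2 * W * X := Nat.le_mul_of_pos_right _ hX1
      refine ⟨by omega, ?_⟩
      calc x₀ + V (ω (fidx t)) + ε t + 1 ≤ 2 * W * X + N₁ * M * X + X := by omega
        _ = (2 * W + N₁ * M + 1) * X := by ring)
    (by
      intro p hp hps t hd
      rw [← hs] at hps
      have hpW : p ∣ W := by
        rw [hW]
        exact (hp.dvd_factorial).2 hps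
      apply sig_spec hp hps (Nat.Coprime.mul_left hab (hρb (ω (fidx t))))
      have h1 : a * ρ (ω (fidx t)) * (x₀ + V (ω (fidx t)) + ε t) + b ≡
          a * ρ (ω (fidx t)) * sig b s + b [MOD p] :=
        Nat.ModEq.add_right _ (Nat.ModEq.mul_left _ ((hymod t).of_dvd hpW))
      exact (h1.dvd_iff dvd_rfl).1 hd)
    (by
      intro t t' _ _ hy
      apply hε2
      have h1 : x₀ + V (ω (fidx t)) + ε t = x₀ + V (ω (fidx t')) + ε t' := hy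
      show V (ω (fidx t)) + ε t = V (ω (fidx t')) + ε t'
      omega)
    (Nat.mul_ne_zero ha0.ne' hr0) (haP.trans (Nat.le_self_pow (by omega) _)) hX1 hXP j hPj hPj'
    univ (by
      have : Nonempty (Fin R) := ⟨⟨0, hR1⟩⟩
      exact univ_nonempty) (by
      intro i _
      rcases hQ with h1 | h1
      · left
        intro h2
        exact h1 (h2.trans (Nat.mul_dvd_mul_left _ (Nat.mul_dvd_mul_left _ (hρd _))))
      · exact Or.inr ⟨h1.1.mul_right _, h1.2⟩)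
  rw [card_univ, Fintype.card_fin] at hUc
  obtain ⟨S₁, w, hS₁, hline⟩ := hdhj R ω U hUc
  obtain ⟨h₀, hh₀⟩ : ∃ h₀ : ℕ, h₀ = ∑ q ∈ S₁ᶜ, bsum v Bl q (w q) := ⟨_, rfl⟩
  obtain ⟨c, hc⟩ : ∃ c : ℕ, c = ∏ q ∈ S₁ᶜ, bprod r Bl q (w q) := ⟨_, rfl⟩
  have hh₀X : h₀ ≤ N₁ * M * X := by
    rw [hh₀]
    exact bsum_le v Bl (fun u i => (hrv u i).2.2) _ w
  refine ⟨n + x₀ + h₀, d, c, bun Bl S₁,
    fun i => ε (t (ω.symm (fun q => if q ∈ S₁ then i else w q))), ?_, hd1, ?_, ?_, ?_, ?_, ?_⟩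
  · push_cast
    have hP1r : (1 : ℝ) ≤ P := by exact_mod_cast (by omega : 1 ≤ P)
    have hPA : (P : ℝ) ^ A ≤ (P : ℝ) ^ (A + 1) := pow_le_pow_right₀ hP1r (by omega)
    have hPA1 : (P : ℝ) ≤ (P : ℝ) ^ (A + 1) := le_self_pow₀ hP1r (by omega)
    have h1 : (x₀ : ℝ) ≤ 2 * W * (P : ℝ) ^ (A + 1) := by
      have h2 : (x₀ : ℝ) ≤ 2 * W := by exact_mod_cast hx₀2.le
      refine h2.trans (le_mul_of_one_le_right (by positivity) (one_le_pow₀ hP1r))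
    have h2 : (h₀ : ℝ) ≤ (N₁ * M : ℕ) * (P : ℝ) ^ (A + 1) := by
      have h3 : (h₀ : ℝ) ≤ (N₁ * M : ℕ) * P := by
        exact_mod_cast hh₀X.trans (Nat.mul_le_mul_left _ hXP)
      exact h3.trans (mul_le_mul_of_nonneg_left hPA1 (Nat.cast_nonneg _))
    calc (n : ℝ) + x₀ + h₀ ≤ γ * (P : ℝ) ^ (A + 1) + 2 * W * (P : ℝ) ^ (A + 1) +
          (N₁ * M : ℕ) * (P : ℝ) ^ (A + 1) := by
          apply add_le_add (add_le_add _ h1) h2
          exact hn.trans (mul_le_mul_of_nonneg_left hPA hγ.le)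
      _ = _ := by push_cast; ring
  · refine hd2.trans ?_
    have hlogP0 : 0 ≤ Real.log P := Real.log_natCast_nonneg P
    apply mul_le_mul_of_nonneg_right _ (by positivity)
    apply mul_le_mul_of_nonneg_right _ (by positivity)
    have h1 : (0 : ℝ) ≤ 2 * W + (N₁ * M : ℕ) := by positivity
    linarith
  · obtain ⟨q, hq⟩ := hS₁
    obtain ⟨u, hu⟩ := hBl1 q
    refine ⟨finProdFinEquiv (q, u), ?_⟩
    unfold bun
    rw [mem_map]
    exact ⟨⟨q, u⟩, mem_sigma.2 ⟨hq, hu⟩, rfl⟩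
  · rw [hc]
    exact bprod_dvd r Bl _ w
  · intro i
    exact (hε _).1
  · intro i h hh'
    have h1 := (hfin h hh').1 _ (hline i)
    have h2 := ht (ω.symm (fun q => if q ∈ S₁ then i else w q))
    simp only [h2, Equiv.apply_symm_apply] at h1
    have h3 : ρ (fun q => if q ∈ S₁ then i else w q) = (∏ u ∈ bun Bl S₁, r u i) * c := by
      rw [hρt, hc, bprod_bun]
      exact split_prod _ _ _ _
    have h4 : V (fun q => if q ∈ S₁ then i else w q) = ∑ u ∈ bun Bl S₁, v u i + h₀ := by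
      rw [hVt, hh₀, bsum_bun]
      exact split_sum _ _ _ _
    rw [h3, h4] at h1
    have h5 : a * c * (∏ u ∈ bun Bl S₁, r u i) * (n + x₀ + h₀ + h * d + ∑ u ∈ bun Bl S₁, v u i +
        ε (t (ω.symm (fun q => if q ∈ S₁ then i else w q)))) + b =
        a * ((∏ u ∈ bun Bl S₁, r u i) * c) * (n + h * d + (x₀ + (∑ u ∈ bun Bl S₁, v u i + h₀) +
        ε (t (ω.symm (fun q => if q ∈ S₁ then i else w q))))) + b := by ring
    rw [h5]
    exact h1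

end Run7.h296
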