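import Pool.Agent.Run7.h296.T6

/-!
The two quantitative theorems with the same exceptional characters.
-/

set_option autoImplicit false

open Finset

namespace Run7.h296

open Run7.h296.SL (FF Adm dvd_FF sysP_FF lin_ap)
open Pool.Agent.Y677.RSZ (rt)
open Pool.Agent.R498.MT Pool.Agent.H262R3.Lk Pool.Agent.W505.MH
open Pool.Agent.H318R2.Cr (Rgh V V_pos V_le_one cz_bounds)

open Classical in
/-- the statement of `engineQ` -/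
def EngQ (C₀ : ℕ) (q₁ : ℕ → ℕ) (χ₁ : ∀ z : ℕ, DirichletCharacter ℂ (q₁ z)) : Prop :=
    ∀ m₀ k : ℕ, C₀ * (m₀ + 1) ≤ k → ∃ (e D₁ K : ℕ) (κ : ℝ), 1 ≤ K ∧ 0 < κ ∧ ∃ J₀ : ℕ,
      ∀ Jn : ℕ, J₀ ≤ Jn → ∀ (W : ℕ) (A B : Fin (2 ^ k) → ℕ), Sys k Jn e W D₁ A B →
      ∀ G : Finset (Fin (2 ^ k)),
      (∀ i ∈ G, q₁ (2 ^ 2 ^ (Jn + e + 6)) ∣ A i →
        χ₁ (2 ^ 2 ^ (Jn + e + 6)) ((B i : ℕ) : ZMod (q₁ (2 ^ 2 ^ (Jn + e + 6)))) = -1) →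
      ∀ m : ℕ, m * 2 ^ k + 1 ≤ (m₀ + 1) * G.card →
      κ * (Real.log ((2 ^ 2 ^ (Jn + e + 6) : ℕ) : ℝ) * ∏ p ∈ PS Jn W, (1 - gg A B p)) ≤
        ∑ l ∈ (Ioc (l0 Jn e) ((2 ^ 2 ^ (Jn + e + 6)) ^ K)).filter (fun l => Good A B Jn W G m l),
          (1 : ℝ) / l

open Classical in
/-- the statement of `engineC` -/
def EngC (C₀ : ℕ) (q₁ : ℕ → ℕ) (χ₁ : ∀ z : ℕ, DirichletCharacter ℂ (q₁ z)) : Prop :=
    ∀ m₀ k : ℕ, C₀ * (m₀ + 1) ≤ k → ∃ (e D₁ K : ℕ) (κ : ℝ), 1 ≤ K ∧ 0 < κ ∧ ∃ J₀ : ℕ,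
      ∀ Jn : ℕ, J₀ ≤ Jn → ∀ (W : ℕ) (A B : Fin (2 ^ k) → ℕ), Sys k Jn e W D₁ A B →
      ∀ G : Finset (Fin (2 ^ k)),
      (∀ i ∈ G, q₁ (2 ^ 2 ^ (Jn + e + 6)) ∣ A i →
        χ₁ (2 ^ 2 ^ (Jn + e + 6)) ((B i : ℕ) : ZMod (q₁ (2 ^ 2 ^ (Jn + e + 6)))) = -1) →
      ∀ (cl : Fin (2 ^ k) → ℕ) (sz : ℕ), 1 ≤ sz → (∀ c, (G.filter (fun a => cl a = c)).card ≤ sz) →
      ∀ m : ℕ, (2 * m + 1) * 160 * sz * (k + 1) ^ 2 ≤ (m₀ + 1) ^ 2 * G.card →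
      (m₀ + 1) * 2 ^ k ≤ 160 * sz * (k + 1) ^ 2 →
      κ * (Real.log ((2 ^ 2 ^ (Jn + e + 6) : ℕ) : ℝ) * ∏ p ∈ PS Jn W, (1 - gg A B p)) ≤
        ∑ l ∈ (Ioc (l0 Jn e) ((2 ^ 2 ^ (Jn + e + 6)) ^ K)).filter (fun l => GoodC A B Jn W G cl m l),
          (1 : ℝ) / l

open Classical in
theorem engQC : ∃ (C₀ : ℕ) (q₁ : ℕ → ℕ) (χ₁ : ∀ z : ℕ, DirichletCharacter ℂ (q₁ z)), 1 ≤ C₀ ∧
    (∀ B : ℕ, ∃ z0 : ℕ, ∀ z : ℕ, z0 ≤ z → (Real.log z) ^ B < (q₁ z : ℝ)) ∧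
    (∀ z, 1 < q₁ z ∧ (∀ p : ℕ, p.Prime → p ≠ 2 → ¬ p ^ 2 ∣ q₁ z) ∧ ¬ 16 ∣ q₁ z) ∧
    (∀ z, (χ₁ z) ^ 2 = 1 ∧ (χ₁ z).IsPrimitive) ∧ EngQ C₀ q₁ χ₁ ∧ EngC C₀ q₁ χ₁ := by
  obtain ⟨c₁, c₂, hc₁, hc₁₂, hczb⟩ := cz_bounds
  have hcz : CZ c₁ c₂ := ⟨hc₁, hc₁₂, hczb⟩
  obtain ⟨Ca, hCa, hajb⟩ := aj_main
  have haj : AJ Ca := ⟨hCa, hajb⟩
  obtain ⟨CN, hCN, hgpb⟩ := gPart
  have hgp : GP CN := ⟨hCN, fun {k Jn e b b' W D₁ C₁ E D A B} => hgpb⟩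
  obtain ⟨c4, D0, hc4, hD0, hpage⟩ := page_ch
  obtain ⟨CR, hCR1, hRM⟩ := rho_mass
  have hc₂ : 0 < c₂ := lt_of_lt_of_le hc₁ hc₁₂
  obtain ⟨s, hsD, hs2, hs1, hP1⟩ := choose_s (D0 := D0) hCa.le hc₂.le hc4 CR
  obtain ⟨q₁, χ₁, hq1, hq2, hq3, hbase⟩ := hpage ((2 : ℝ) ^ s) hsD
  have hd0 : (0 : ℝ) < 2 ^ s := by positivity
  obtain ⟨C₀, hC₀⟩ := exists_nat_ge
    (max 1 (3 * 1474560 * (393216 * c₂ * ((2 : ℝ) ^ s) ^ 4) * 2 / c4))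
  have key : ∀ m k : ℕ, C₀ * (m + 1) ≤ k → ∃ (e D₁ K : ℕ), 1 ≤ K ∧
      (∃ κ : ℝ, 0 < κ ∧ ∃ J₀ : ℕ,
      ∀ Jn : ℕ, J₀ ≤ Jn → ∀ (W : ℕ) (A B : Fin (2 ^ k) → ℕ), Sys k Jn e W D₁ A B →
      ∀ G : Finset (Fin (2 ^ k)),
      (∀ i ∈ G, q₁ (2 ^ 2 ^ (Jn + e + 6)) ∣ A i →
        χ₁ (2 ^ 2 ^ (Jn + e + 6)) ((B i : ℕ) : ZMod (q₁ (2 ^ 2 ^ (Jn + e + 6)))) = -1) →
      ∀ m' : ℕ, m' * 2 ^ k + 1 ≤ (m + 1) * G.card →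
      κ * (Real.log ((2 ^ 2 ^ (Jn + e + 6) : ℕ) : ℝ) * ∏ p ∈ PS Jn W, (1 - gg A B p)) ≤
        ∑ l ∈ (Ioc (l0 Jn e) ((2 ^ 2 ^ (Jn + e + 6)) ^ K)).filter (fun l => Good A B Jn W G m' l),
          (1 : ℝ) / l) ∧
      (∃ κ : ℝ, 0 < κ ∧ ∃ J₀ : ℕ,
      ∀ Jn : ℕ, J₀ ≤ Jn → ∀ (W : ℕ) (A B : Fin (2 ^ k) → ℕ), Sys k Jn e W D₁ A B →
      ∀ G : Finset (Fin (2 ^ k)),
      (∀ i ∈ G, q₁ (2 ^ 2 ^ (Jn + e + 6)) ∣ A i →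
        χ₁ (2 ^ 2 ^ (Jn + e + 6)) ((B i : ℕ) : ZMod (q₁ (2 ^ 2 ^ (Jn + e + 6)))) = -1) →
      ∀ (cl : Fin (2 ^ k) → ℕ) (sz : ℕ), 1 ≤ sz → (∀ c, (G.filter (fun a => cl a = c)).card ≤ sz) →
      ∀ m' : ℕ, (2 * m' + 1) * 160 * sz * (k + 1) ^ 2 ≤ (m + 1) ^ 2 * G.card →
      (m + 1) * 2 ^ k ≤ 160 * sz * (k + 1) ^ 2 →
      κ * (Real.log ((2 ^ 2 ^ (Jn + e + 6) : ℕ) : ℝ) * ∏ p ∈ PS Jn W, (1 - gg A B p)) ≤
        ∑ l ∈ (Ioc (l0 Jn e) ((2 ^ 2 ^ (Jn + e + 6)) ^ K)).filter (fun l => GoodC A B Jn W G cl m' l),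
          (1 : ℝ) / l) := by
    intro m k hkd
    have hk : 3 * ((m : ℝ) + 1) * 1474560 ≤ c4 / (393216 * c₂ * ((2 : ℝ) ^ s) ^ 4) * (1 / 2) * k := by
      have h1 : 3 * 1474560 * (393216 * c₂ * ((2 : ℝ) ^ s) ^ 4) * 2 / c4 ≤ C₀ :=
        (le_max_right _ _).trans hC₀
      rw [div_le_iff₀ hc4] at h1
      have h2 : (3 * 1474560 : ℝ) ≤ c4 / (393216 * c₂ * ((2 : ℝ) ^ s) ^ 4) * (1 / 2) * C₀ := by
        rw [div_mul_eq_mul_div, div_mul_eq_mul_div, le_div_iff₀ (by positivity)]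
        linarith
      have hm0 : (0 : ℝ) ≤ (m : ℝ) + 1 := by positivity
      have h3 := mul_le_mul_of_nonneg_right h2 hm0
      have h4 : (C₀ : ℝ) * (m + 1) ≤ k := by exact_mod_cast hkd
      have h5 : 0 ≤ c4 / (393216 * c₂ * ((2 : ℝ) ^ s) ^ 4) * (1 / 2) := by positivity
      have h6 := mul_le_mul_of_nonneg_left h4 h5
      refine le_trans (le_of_eq ?_) (h3.trans ((le_of_eq ?_).trans h6)) <;> ring
    have hk1 : 1 ≤ k := by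
      have h1 : 1 ≤ C₀ := by
        have : (1 : ℝ) ≤ C₀ := (le_max_left _ _).trans hC₀
        exact_mod_cast this
      exact (Nat.mul_pos h1 (Nat.succ_pos m)).trans_le hkd
    obtain ⟨DR, hDR, hmass⟩ := hRM (2 ^ k)
    obtain ⟨D', hD', hmass1⟩ := hRM 1
    obtain ⟨C₁, hC₁⟩ : ∃ C₁ : ℝ, C₁ = max (7 / c₁ * (96 * c₂ * ((2 : ℝ) ^ s) ^ 16 + Ca))
      (64 * (64 * (c₂ / c₁) + 1)) := ⟨_, rfl⟩
    have hC3 : 7 / c₁ * (96 * c₂ * ((2 : ℝ) ^ s) ^ 16 + Ca) ≤ C₁ := by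
      rw [hC₁]; exact le_max_left _ _
    have hC5 : 64 * (64 * (c₂ / c₁) + 1) ≤ C₁ := by rw [hC₁]; exact le_max_right _ _
    have hC0 : 0 ≤ C₁ := by
      refine le_trans ?_ hC5
      positivity
    obtain ⟨M₀, hM₀⟩ : ∃ M₀ : ℝ, M₀ = (14 / c₁ * (96 * c₂ * ((2 : ℝ) ^ s) ^ 16 + Ca) + 1) *
      (4 * 2 ^ k) := ⟨_, rfl⟩
    obtain ⟨e, b, he1, hee, hbb, hbe, hPb⟩ := choose_eb k M₀ (e0 k C₁ (1 / 2))
      (e0_pos k C₁ (1 / 2) hC0 (by norm_num)) (max (5 * s) (CR * (2 ^ k + 1)))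
    have hb5 : 5 * s ≤ b := (le_max_left _ _).trans hbb
    have hbR : CR * (2 ^ k + 1) ≤ b := (le_max_right _ _).trans hbb
    have hP2 : 7 / c₁ * (96 * c₂ * ((2 : ℝ) ^ s) ^ 16 + Ca) *
        Pool.Agent.R498.MT.Ab k ((1 / 2) ^ e) * (2 * (1 / 2) ^ b) +
        (1 / 2) ^ b * Pool.Agent.R498.MT.Ab k ((1 / 2) ^ e) ≤ 1 / 4 * (1 / 2 ^ k) := by
      rw [hM₀] at hPb
      have h2k : (0 : ℝ) < 4 * 2 ^ k := by positivity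
      have h1 : 1 / 4 * (1 / (2 : ℝ) ^ k) = 1 / (4 * 2 ^ k) := by field_simp
      rw [h1, le_div_iff₀ h2k]
      refine le_trans (le_of_eq ?_) hPb
      ring
    obtain ⟨Γ, hΓ⟩ : ∃ Γ : ℝ, Γ = max (2 * DR * (2 * 2 ^ k)) (48 * (2 ^ k : ℝ) ^ 2) := ⟨_, rfl⟩
    have hΓa : 2 * DR * (2 * 2 ^ k) ≤ Γ := by rw [hΓ]; exact le_max_left _ _
    have hΓb : 48 * (2 ^ k : ℝ) ^ 2 ≤ Γ := by rw [hΓ]; exact le_max_right _ _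
    have hΓ0 : 0 ≤ Γ := by
      refine le_trans ?_ hΓb
      positivity
    have hAb0 : 0 ≤ Pool.Agent.R498.MT.Ab k ((1 / 2) ^ e) := by
      have := Ab_one k ((1 / 2) ^ e) (by positivity) (pow_le_one₀ (by norm_num) (by norm_num))
      linarith
    obtain ⟨v, hv⟩ : ∃ v : ℝ, v = 7 / c₁ * (8 * Pool.Agent.R498.MT.Ab k ((1 / 2) ^ e) * Γ *
        (CN * (((2 : ℝ) ^ s) ^ 4) ^ 8)) * (8 * 2 ^ k) := ⟨_, rfl⟩
    obtain ⟨n₁, hn₁⟩ := exists_nat_ge (max Γ v)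
    obtain ⟨D₁, hD₁⟩ : ∃ D₁ : ℕ, D₁ = max (max n₁ (CR * (2 ^ k + 1))) (max (2 * 2 ^ k) 3) := ⟨_, rfl⟩
    have hn1D : n₁ ≤ D₁ := by rw [hD₁]; exact (le_max_left _ _).trans (le_max_left _ _)
    have hD1 : CR * (2 ^ k + 1) ≤ D₁ := by rw [hD₁]; exact (le_max_right _ _).trans (le_max_left _ _)
    have hD2 : 2 * 2 ^ k ≤ D₁ := by rw [hD₁]; exact (le_max_left _ _).trans (le_max_right _ _)
    have hD3 : 3 ≤ D₁ := by rw [hD₁]; exact (le_max_right _ _).trans (le_max_right _ _)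
    have hn1D' : (n₁ : ℝ) ≤ D₁ := by exact_mod_cast hn1D
    have hΓD : Γ ≤ D₁ := ((le_max_left _ _).trans hn₁).trans hn1D'
    have hvD : v ≤ D₁ := ((le_max_right _ _).trans hn₁).trans hn1D'
    have hD10 : (0 : ℝ) < D₁ := by exact_mod_cast (by omega : 0 < D₁)
    have hP4 : 7 / c₁ * (8 * Pool.Agent.R498.MT.Ab k ((1 / 2) ^ e) * (Γ / D₁) *
        (CN * (((2 : ℝ) ^ s) ^ 4) ^ 8)) ≤ 1 / 8 * (1 / 2 ^ k) := by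
      have h1 : 7 / c₁ * (8 * Pool.Agent.R498.MT.Ab k ((1 / 2) ^ e) * (Γ / D₁) *
        (CN * (((2 : ℝ) ^ s) ^ 4) ^ 8)) = v / D₁ * (1 / 8 * (1 / 2 ^ k)) := by
        rw [hv]
        field_simp
      rw [h1]
      apply mul_le_of_le_one_left (by positivity)
      rw [div_le_one hD10]
      exact hvD
    obtain ⟨K, hK1, hK⟩ := choose_K (2 ^ k * 2 ^ (k + 1) * (768 * ((2 : ℝ) ^ s) ^ 16) * 800)
      (2 * ((2 : ℝ) ^ s) ^ 4) (by positivity)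
    obtain ⟨κ₂, hκ₂, J₂, hJ₂⟩ := engine_fixC (c₁ := c₁) (c₂ := c₂) (D' := D')
      (Gd := fun z q b => q₁ z ∣ q → χ₁ z ((b : ℕ) : ZMod (q₁ z)) = -1) hcz haj hgp hc4 hCR1 hDR hmass hmass1 m hk1 hbase
      hs2 hs1 hb5 (hP1 b hb5) hk hC3 hC5 hC0 hbR hee hbe hP2 hΓa hΓb hΓD hP4 hD1 hD2 hD3 hK1 hK
    obtain ⟨κ, hκ, J₀, hJ₀⟩ := engine_fixQ (c₁ := c₁) (c₂ := c₂) (D' := D')
      (Gd := fun z q b => q₁ z ∣ q → χ₁ z ((b : ℕ) : ZMod (q₁ z)) = -1) hcz haj hgp hc4 hCR1 hDR hmass hmass1 m hbase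
      hs2 hs1 hb5 (hP1 b hb5) hk hC3 hC5 hC0 hbR hee hbe hP2 hΓa hΓb hΓD hP4 hD1 hD2 hD3 hK1 hK
    exact ⟨e, D₁, K, hK1, ⟨κ, hκ, J₀, hJ₀⟩, ⟨κ₂, hκ₂, J₂, hJ₂⟩⟩
  refine ⟨C₀, q₁, χ₁, by exact_mod_cast (le_max_left _ _).trans hC₀, hq1, hq2, hq3, ?_, ?_⟩
  · intro m k hkd
    obtain ⟨e, D₁, K, hK, ⟨κ, hκ, J₀, h⟩, -⟩ := key m k hkd
    exact ⟨e, D₁, K, κ, hK, hκ, J₀, h⟩
  · intro m k hkd
    obtain ⟨e, D₁, K, hK, -, ⟨κ, hκ, J₀, h⟩⟩ := key m k hkd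
    exact ⟨e, D₁, K, κ, hK, hκ, J₀, h⟩

open Classical in
theorem apQ_of {C₀ : ℕ} {q₁ : ℕ → ℕ} {χ₁ : ∀ z : ℕ, DirichletCharacter ℂ (q₁ z)}
    (heng : EngQ C₀ q₁ χ₁) :
    ∀ m₀ k ℓ : ℕ, C₀ * (m₀ + 1) ≤ k → ∃ e D₁ K C J₀ : ℕ, ∀ Jn : ℕ, J₀ ≤ Jn →
      ∀ (D₂ P s : ℕ) (a b : Fin s → ℕ), D₁ ≤ D₂ → 2 ^ k ≤ D₂ → 2 ^ k ≤ WW D₂ P → 2 ≤ D₂ →
      D₂.factorial ^ 8 ≤ 2 ^ 2 ^ Jn → P ≠ 0 → P ^ 12 ≤ 2 ^ 2 ^ Jn → D₂ < 2 ^ 2 ^ Jn → s ≤ 2 ^ k →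
      (∀ i, 1 ≤ b i ∧ b i < a i) → Function.Injective (fun i => (a i, b i)) → Adm a b →
      (∀ i, a i ∣ P) → ∀ (G : Finset (Fin s)) (m : ℕ),
      (NuS a b (WW D₂ P)).card ≤ 4 * ((NuS a b (WW D₂ P)).filter (fun ν =>
        m * 2 ^ k + 1 ≤ (m₀ + 1) * (G.filter (fun i => q₁ (2 ^ 2 ^ (Jn + e + 6)) ∣ a i * WW D₂ P →
          χ₁ (2 ^ 2 ^ (Jn + e + 6)) ((a i * ν + b i : ℕ) :
            ZMod (q₁ (2 ^ 2 ^ (Jn + e + 6)))) = -1)).card)).card →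
      ∃ (n d : ℕ) (U : Finset (Fin s)), n ≤ (2 ^ 2 ^ (Jn + e + 6)) ^ (K + 1) ∧ 1 ≤ d ∧
        (d : ℝ) ≤ Real.log ((2 ^ 2 ^ (Jn + e + 6) : ℕ) : ℝ) ^ C ∧ U ⊆ G ∧ m < U.card ∧
        ∀ j < ℓ, (∀ i ∈ U, (a i * (n + j * d) + b i).Prime) ∧
          ∀ i, ∀ p : ℕ, p.Prime → p ∣ a i * (n + j * d) + b i → 2 ^ 2 ^ Jn ≤ p := by
  intro m₀ k ℓ hk
  obtain ⟨e, D₁, K, κ, hK, hκ, J₁, hJ₁⟩ := heng m₀ k hk
  obtain ⟨C, J₂, hasm⟩ := ap_assembly k ℓ e K κ hκ hK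
  refine ⟨e, D₁, K, C, J₁ + J₂, ?_⟩
  intro Jn hJn D₂ P s a b hDD hkD hkW hD2 hT1 hP0 hT2 hDT hsk hab hinj hadm haP G m hN
  obtain ⟨ι⟩ : Nonempty (Fin s ↪ Fin (2 ^ k)) := by
    apply Function.Embedding.nonempty_of_card_le
    rw [Fintype.card_fin, Fintype.card_fin]
    exact hsk
  obtain ⟨α, β, hαβ, hβα, hadmα, hαle, hNu, hsys⟩ := redA a b hab hinj hadm hP0 haP ι hkD hkW hD2
  have hsys' := hsys Jn e D₁ hDD hT1 hT2 hDT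
  obtain ⟨W, hW⟩ : ∃ W : ℕ, W = WW D₂ P := ⟨_, rfl⟩
  have hWsq : Squarefree W := by
    rw [hW]
    exact WW_squarefree hP0
  have hPT : P < 2 ^ 2 ^ Jn := by
    rcases Nat.lt_or_ge P 2 with h | h
    · exact lt_of_lt_of_le h (two_le_pp Jn)
    · calc P < P ^ 12 := by
            have : P ^ 1 < P ^ 12 := Nat.pow_lt_pow_right (by omega) (by norm_num)
            rwa [pow_one] at this
        _ ≤ _ := hT2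
  have hWT : ∀ p : ℕ, p.Prime → p ∣ W → p < 2 ^ 2 ^ Jn := by
    intro p hp hpW
    rw [hW] at hpW
    rcases (prime_dvd_WW hP0 hp).1 hpW with h | h
    · omega
    · exact lt_of_le_of_lt (Nat.le_of_dvd (Nat.pos_of_ne_zero hP0) h) hPT
  obtain ⟨ν₀, hν₀⟩ := NuS_nonempty (D₁ := D₂) hP0 a b hadm
  have hν₀' : ν₀ ∈ NuS α β (WW D₂ P) := by rw [← hNu]; exact hν₀
  have hαT : ∀ t, α t * W ≤ 2 ^ 2 ^ Jn := fun t => by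
    rw [hW]
    exact (hsys' ν₀ hν₀').AT t
  rw [← hW] at hsys' hNu hN hν₀
  obtain ⟨N', hN'⟩ : ∃ N' : Finset ℕ, N' = (NuS a b W).filter (fun ν =>
        m * 2 ^ k + 1 ≤ (m₀ + 1) * (G.filter (fun i => q₁ (2 ^ 2 ^ (Jn + e + 6)) ∣ a i * W →
          χ₁ (2 ^ 2 ^ (Jn + e + 6)) ((a i * ν + b i : ℕ) :
            ZMod (q₁ (2 ^ 2 ^ (Jn + e + 6)))) = -1)).card) := ⟨_, rfl⟩
  rw [← hN'] at hN
  have hNpos : 0 < (NuS a b W).card := card_pos.2 ⟨ν₀, hν₀⟩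
  apply hasm Jn (by omega) W s a b α β ι hαβ hβα hadmα hWsq hWT hαT G m N'
  · rw [← hNu, hN']
    exact filter_subset _ _
  · rw [← card_pos]
    omega
  · rw [← hNu]
    exact hN
  · intro ν hν
    rw [hN', mem_filter] at hν
    obtain ⟨hν1, hν2⟩ := hν
    obtain ⟨Hν, hHν⟩ : ∃ Hν : Finset (Fin s), Hν =
      G.filter (fun i => q₁ (2 ^ 2 ^ (Jn + e + 6)) ∣ a i * W →
          χ₁ (2 ^ 2 ^ (Jn + e + 6)) ((a i * ν + b i : ℕ) :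
            ZMod (q₁ (2 ^ 2 ^ (Jn + e + 6)))) = -1) := ⟨_, rfl⟩
    rw [← hHν] at hν2
    have h1 := hJ₁ Jn (by omega) W (fun t => α t * W) (fun t => α t * ν + β t)
      (hsys' ν (by rw [← hNu]; exact hν1)) (Hν.map ι) (by
        intro x hx hdiv
        rw [mem_map] at hx
        obtain ⟨i, hi, rfl⟩ := hx
        rw [hHν, mem_filter] at hi
        simp only [(hαβ i).1] at hdiv
        simp only [(hαβ i).1, (hαβ i).2]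
        exact hi.2 hdiv) m (by rw [card_map]; exact hν2)
    have h2 : ∏ p ∈ PS Jn W, (1 - gg (fun t : Fin (2 ^ k) => α t * W)
        (fun t : Fin (2 ^ k) => α t * ν + β t) p) =
        ∏ p ∈ PS Jn W, (1 - (rt (FF α β) p : ℝ) / p) := by
      apply prod_congr rfl
      intro p hp
      rw [gg_eq α β hadmα (mem_PS.1 hp).1 (mem_PS.1 hp).2.2]
    rw [h2] at h1
    refine h1.trans ?_
    apply sum_le_sum_of_subset_of_nonneg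
    · intro l hl
      rw [mem_filter] at hl ⊢
      refine ⟨hl.1, hl.2.2, ?_⟩
      refine lt_of_lt_of_le hl.2.1 ?_
      rw [filter_map, card_map]
      apply card_le_card
      intro i hi
      rw [mem_filter] at hi ⊢
      refine ⟨(mem_filter.1 (hHν ▸ hi.1)).1, ?_⟩
      have h3 := hi.2
      simp only [Function.comp_apply, (hαβ i).1, (hαβ i).2] at h3
      have e1 : a i * (ν + W * l) + b i = a i * ν + b i + a i * W * l := by ring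
      rw [e1]
      exact h3
    · intro l _ _
      positivity

open Classical in
theorem apC_of {C₀ : ℕ} {q₁ : ℕ → ℕ} {χ₁ : ∀ z : ℕ, DirichletCharacter ℂ (q₁ z)}
    (heng : EngC C₀ q₁ χ₁) :
    ∀ m₀ k ℓ : ℕ, C₀ * (m₀ + 1) ≤ k → ∃ e D₁ K C J₀ : ℕ, ∀ Jn : ℕ, J₀ ≤ Jn →
      ∀ (D₂ P s : ℕ) (a b : Fin s → ℕ), D₁ ≤ D₂ → 2 ^ k ≤ D₂ → 2 ^ k ≤ WW D₂ P → 2 ≤ D₂ →
      D₂.factorial ^ 8 ≤ 2 ^ 2 ^ Jn → P ≠ 0 → P ^ 12 ≤ 2 ^ 2 ^ Jn → D₂ < 2 ^ 2 ^ Jn → s ≤ 2 ^ k →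
      (∀ i, 1 ≤ b i ∧ b i < a i) → Function.Injective (fun i => (a i, b i)) → Adm a b →
      (∀ i, a i ∣ P) → ∀ (G : Finset (Fin s)) (cl : Fin s → ℕ) (sz : ℕ), 1 ≤ sz →
      (∀ c, (G.filter (fun i => cl i = c)).card ≤ sz) →
      (m₀ + 1) * 2 ^ k ≤ 160 * sz * (k + 1) ^ 2 → ∀ m : ℕ,
      (NuS a b (WW D₂ P)).card ≤ 4 * ((NuS a b (WW D₂ P)).filter (fun ν =>
        (2 * m + 1) * 160 * sz * (k + 1) ^ 2 ≤ (m₀ + 1) ^ 2 * (G.filter (fun i => q₁ (2 ^ 2 ^ (Jn + e + 6)) ∣ a i * WW D₂ P →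
          χ₁ (2 ^ 2 ^ (Jn + e + 6)) ((a i * ν + b i : ℕ) :
            ZMod (q₁ (2 ^ 2 ^ (Jn + e + 6)))) = -1)).card)).card →
      ∃ (n d : ℕ) (U : Finset (Fin s)), n ≤ (2 ^ 2 ^ (Jn + e + 6)) ^ (K + 1) ∧ 1 ≤ d ∧
        (d : ℝ) ≤ Real.log ((2 ^ 2 ^ (Jn + e + 6) : ℕ) : ℝ) ^ C ∧ U ⊆ G ∧ m < (U.image cl).card ∧
        ∀ j < ℓ, (∀ i ∈ U, (a i * (n + j * d) + b i).Prime) ∧
          ∀ i, ∀ p : ℕ, p.Prime → p ∣ a i * (n + j * d) + b i → 2 ^ 2 ^ Jn ≤ p := by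
  intro m₀ k ℓ hk
  obtain ⟨e, D₁, K, κ, hK, hκ, J₁, hJ₁⟩ := heng m₀ k hk
  obtain ⟨C, J₂, hasm⟩ := ap_assemblyC k ℓ e K κ hκ hK
  refine ⟨e, D₁, K, C, J₁ + J₂, ?_⟩
  intro Jn hJn D₂ P s a b hDD hkD hkW hD2 hT1 hP0 hT2 hDT hsk hab hinj hadm haP G cl sz hsz0 hszc hk2 m hN
  obtain ⟨ι⟩ : Nonempty (Fin s ↪ Fin (2 ^ k)) := by
    apply Function.Embedding.nonempty_of_card_le
    rw [Fintype.card_fin, Fintype.card_fin]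
    exact hsk
  obtain ⟨α, β, hαβ, hβα, hadmα, hαle, hNu, hsys⟩ := redA a b hab hinj hadm hP0 haP ι hkD hkW hD2
  have hsys' := hsys Jn e D₁ hDD hT1 hT2 hDT
  obtain ⟨W, hW⟩ : ∃ W : ℕ, W = WW D₂ P := ⟨_, rfl⟩
  have hWsq : Squarefree W := by
    rw [hW]
    exact WW_squarefree hP0
  have hPT : P < 2 ^ 2 ^ Jn := by
    rcases Nat.lt_or_ge P 2 with h | h
    · exact lt_of_lt_of_le h (two_le_pp Jn)
    · calc P < P ^ 12 := by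
            have : P ^ 1 < P ^ 12 := Nat.pow_lt_pow_right (by omega) (by norm_num)
            rwa [pow_one] at this
        _ ≤ _ := hT2
  have hWT : ∀ p : ℕ, p.Prime → p ∣ W → p < 2 ^ 2 ^ Jn := by
    intro p hp hpW
    rw [hW] at hpW
    rcases (prime_dvd_WW hP0 hp).1 hpW with h | h
    · omega
    · exact lt_of_le_of_lt (Nat.le_of_dvd (Nat.pos_of_ne_zero hP0) h) hPT
  obtain ⟨ν₀, hν₀⟩ := NuS_nonempty (D₁ := D₂) hP0 a b hadm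
  have hν₀' : ν₀ ∈ NuS α β (WW D₂ P) := by rw [← hNu]; exact hν₀
  have hαT : ∀ t, α t * W ≤ 2 ^ 2 ^ Jn := fun t => by
    rw [hW]
    exact (hsys' ν₀ hν₀').AT t
  rw [← hW] at hsys' hNu hN hν₀
  obtain ⟨N', hN'⟩ : ∃ N' : Finset ℕ, N' = (NuS a b W).filter (fun ν =>
        (2 * m + 1) * 160 * sz * (k + 1) ^ 2 ≤ (m₀ + 1) ^ 2 * (G.filter (fun i => q₁ (2 ^ 2 ^ (Jn + e + 6)) ∣ a i * W →
          χ₁ (2 ^ 2 ^ (Jn + e + 6)) ((a i * ν + b i : ℕ) :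
            ZMod (q₁ (2 ^ 2 ^ (Jn + e + 6)))) = -1)).card) := ⟨_, rfl⟩
  rw [← hN'] at hN
  have hNpos : 0 < (NuS a b W).card := card_pos.2 ⟨ν₀, hν₀⟩
  apply hasm Jn (by omega) W s a b α β ι hαβ hβα hadmα hWsq hWT hαT G cl m N'
  · rw [← hNu, hN']
    exact filter_subset _ _
  · rw [← card_pos]
    omega
  · rw [← hNu]
    exact hN
  · intro ν hν
    rw [hN', mem_filter] at hν
    obtain ⟨hν1, hν2⟩ := hν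
    obtain ⟨Hν, hHν⟩ : ∃ Hν : Finset (Fin s), Hν =
      G.filter (fun i => q₁ (2 ^ 2 ^ (Jn + e + 6)) ∣ a i * W →
          χ₁ (2 ^ 2 ^ (Jn + e + 6)) ((a i * ν + b i : ℕ) :
            ZMod (q₁ (2 ^ 2 ^ (Jn + e + 6)))) = -1) := ⟨_, rfl⟩
    rw [← hHν] at hν2
    have h1 := hJ₁ Jn (by omega) W (fun t => α t * W) (fun t => α t * ν + β t)
      (hsys' ν (by rw [← hNu]; exact hν1)) (Hν.map ι) (by
        intro x hx hdiv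
        rw [mem_map] at hx
        obtain ⟨i, hi, rfl⟩ := hx
        rw [hHν, mem_filter] at hi
        simp only [(hαβ i).1] at hdiv
        simp only [(hαβ i).1, (hαβ i).2]
        exact hi.2 hdiv) (Function.extend ι cl 0) sz hsz0 (by
          intro c
          refine le_trans ?_ (hszc c)
          rw [filter_map, card_map]
          apply card_le_card
          intro i hi
          rw [mem_filter] at hi ⊢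
          refine ⟨(mem_filter.1 (hHν ▸ hi.1)).1, ?_⟩
          have h3 := hi.2
          rw [Function.comp_apply, ι.injective.extend_apply] at h3
          exact h3) m (by rw [card_map]; exact hν2) hk2
    have h2 : ∏ p ∈ PS Jn W, (1 - gg (fun t : Fin (2 ^ k) => α t * W)
        (fun t : Fin (2 ^ k) => α t * ν + β t) p) =
        ∏ p ∈ PS Jn W, (1 - (rt (FF α β) p : ℝ) / p) := by
      apply prod_congr rfl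
      intro p hp
      rw [gg_eq α β hadmα (mem_PS.1 hp).1 (mem_PS.1 hp).2.2]
    rw [h2] at h1
    refine h1.trans ?_
    apply sum_le_sum_of_subset_of_nonneg
    · intro l hl
      rw [mem_filter] at hl ⊢
      refine ⟨hl.1, hl.2.2, ?_⟩
      refine lt_of_lt_of_le hl.2.1 ?_
      apply card_le_card
      intro c hc
      rw [mem_image] at hc ⊢
      obtain ⟨x, hx, hxc⟩ := hc
      rw [mem_filter, mem_map] at hx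
      obtain ⟨⟨i, hi, hix⟩, hxp⟩ := hx
      refine ⟨i, ?_, ?_⟩
      · rw [mem_filter]
        refine ⟨(mem_filter.1 (hHν ▸ hi)).1, ?_⟩
        rw [← hix] at hxp
        simp only [(hαβ i).1, (hαβ i).2] at hxp
        have e1 : a i * (ν + W * l) + b i = a i * ν + b i + a i * W * l := by ring
        rw [e1]
        exact hxp
      · rw [← hix, ι.injective.extend_apply] at hxc
        exact hxc
    · intro l _ _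
      positivity

end Run7.h296
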