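import Pool.Agent.Run7.h296.T13
import Pool.Agent.Run7.h296.S10

/-!
Arithmetic progressions at which the primes among the values of the linear forms meet many classes, and the
others are almost primes: the theorem.
-/

set_option autoImplicit false

open Finset

namespace Run7.h296

open Run7.h296.SL (FF Adm dvd_FF sysP_FF lin_ap)

open Classical in
/-- **Progressions at which the primes among the values meet many classes of forms, and the others are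
almost primes.** -/
theorem main_famC : ∃ (c : ℝ) (Q : ℕ → ℕ) (χ : ∀ i : ℕ, DirichletCharacter ℂ (Q i)), 0 < c ∧
    (∀ i, 1 < Q i ∧ (χ i) ^ 2 = 1 ∧ (χ i).IsPrimitive) ∧
    (∀ B : ℕ, ∀ᶠ i in Filter.atTop, 2 ^ (B * i) ≤ Q i) ∧
    ∀ k B ℓ : ℕ, ∃ (A C D R : ℕ) (γ : ℝ), 0 < γ ∧ 0 < D ∧ (∀ j, D < Q (j + D)) ∧
    ∀ s ≤ k, ∀ (a b : Fin s → ℕ) (P : ℕ), (∀ i, 1 ≤ b i ∧ b i < a i) →
    Function.Injective (fun i => (a i, b i)) →
    (∀ p : ℕ, p.Prime → ∃ n : ℤ, ∀ i, ¬ (p : ℤ) ∣ a i * n + b i) → (∀ i, a i ∣ P) →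
    ∀ j : ℕ, 2 ^ 2 ^ j ≤ P → P < 2 ^ 2 ^ (j + 1) →
    ∀ G : Finset (Fin s), (∀ i ∈ G, ¬ Q (j + D) ∣ D * a i ∨
      (Q (j + D) ∣ a i ∧ χ (j + D) ((b i : ℕ) : ZMod (Q (j + D))) = -1)) →
    ∀ (cl : Fin s → ℕ) (w : ℕ), 1 ≤ w → (∀ x, (G.filter (fun i => cl i = x)).card ≤ w) →
    ∃ (n d : ℕ) (U : Finset (Fin s)), (n : ℝ) ≤ γ * (P : ℝ) ^ A ∧ 1 ≤ d ∧
      (d : ℝ) ≤ γ * Real.log P ^ C ∧ U ⊆ G ∧ (G.Nonempty → U.Nonempty) ∧
      ⌊c * min ((G.card : ℝ) / w) ((G.card : ℝ) / s * Real.log s)⌋₊ ≤ (U.image cl).card ∧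
      ∀ h < ℓ, (∀ i ∈ U, (a i * (n + h * d) + b i).Prime) ∧
        ∀ i, ArithmeticFunction.cardFactors (a i * (n + h * d) + b i) ≤ R ∧
          ∀ p : ℕ, p.Prime → p ∣ a i * (n + h * d) + b i → P ^ B < p := by
  obtain ⟨C₀, q₁, χ₁, hC₀, hq1, hq2, hq3, hengQ, hengC⟩ := engQC
  have hl2 := Real.log_two_gt_d9
  have hl2' : 0 < Real.log 2 := by linarith
  have hC₀r : (1 : ℝ) ≤ C₀ := by exact_mod_cast hC₀
  obtain ⟨c, hc⟩ : ∃ c : ℝ, c = 1 / (6410 * C₀ ^ 3 * 2 ^ C₀) := ⟨_, rfl⟩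
  have hc0 : 0 < c := by rw [hc]; positivity
  have hgrow : ∀ B : ℕ, ∀ᶠ i in Filter.atTop, 2 ^ (B * i) ≤ q₁ (2 ^ 2 ^ i) := by
    intro B
    obtain ⟨z0, hz0⟩ := hq1 (B + 1)
    filter_upwards [Filter.eventually_ge_atTop (max z0 (B + 1))] with i hi
    have hi1 : z0 ≤ i := (le_max_left _ _).trans hi
    have hi2 : B + 1 ≤ i := (le_max_right _ _).trans hi
    have h1 := hz0 (2 ^ 2 ^ i) (hi1.trans (le_pp i))
    have h2 : ((2 : ℝ) ^ i / 2) ^ (B + 1) < (q₁ (2 ^ 2 ^ i) : ℝ) :=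
      lt_of_le_of_lt (pow_le_pow_left₀ (by positivity) (log_pp i) _) h1
    have h3 : (2 : ℝ) ^ (B * i) ≤ ((2 : ℝ) ^ i / 2) ^ (B + 1) := by
      rw [div_pow, le_div_iff₀ (by positivity), ← pow_mul, ← pow_add]
      apply pow_le_pow_right₀ (by norm_num)
      nlinarith
    have h4 : ((2 ^ (B * i) : ℕ) : ℝ) < (q₁ (2 ^ 2 ^ i) : ℝ) := by
      push_cast
      linarith
    exact_mod_cast h4.le
  obtain ⟨i₀, hi₀⟩ := Filter.eventually_atTop.1 (hgrow 1)
  refine ⟨c, fun i => q₁ (2 ^ 2 ^ i), fun i => χ₁ (2 ^ 2 ^ i), hc0,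
    fun i => ⟨(hq2 _).1, (hq3 _).1, (hq3 _).2⟩, hgrow, ?_⟩
  intro k B ℓ
  have heng' := fun m : ℕ => apQ_of hengQ m (C₀ * (m + 1)) ℓ le_rfl
  have hengc := fun m : ℕ => apC_of hengC m (C₀ * (m + 1)) ℓ le_rfl
  choose e D₁ K Ce J₀ heng' using heng'
  choose e' D₁' K' Ce' J₀' hengc using hengc
  choose Ar Cr γr hγr hrough using fun s : ℕ => rough_ap s (B + 1) ℓ
  have hsup : ∀ f g : ℕ → ℕ, ∃ X : ℕ, ∀ m ≤ k, f m ≤ X ∧ g m ≤ X := fun f g =>
    ⟨(range (k + 1)).sup f + (range (k + 1)).sup g, fun m hm =>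
      ⟨(Finset.le_sup (f := f) (mem_range.2 (by omega))).trans (Nat.le_add_right _ _),
        (Finset.le_sup (f := g) (mem_range.2 (by omega))).trans (Nat.le_add_left _ _)⟩⟩
  obtain ⟨Ex, hEx⟩ := hsup e e'
  obtain ⟨Dx, hDx⟩ := hsup D₁ D₁'
  obtain ⟨Kx, hKx⟩ := hsup K K'
  obtain ⟨Jx, hJx⟩ := hsup J₀ J₀'
  obtain ⟨Cx, hCx⟩ := hsup Ce Ce'
  obtain ⟨Ay, hAy⟩ : ∃ Ay : ℕ, ∀ s ≤ k, Ar s ≤ Ay :=
    ⟨(range (k + 1)).sup Ar, fun m hm => Finset.le_sup (f := Ar) (mem_range.2 (by omega))⟩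
  obtain ⟨Cy, hCy⟩ : ∃ Cy : ℕ, ∀ s ≤ k, Cr s ≤ Cy :=
    ⟨(range (k + 1)).sup Cr, fun m hm => Finset.le_sup (f := Cr) (mem_range.2 (by omega))⟩
  obtain ⟨γy, hγy⟩ : ∃ γy : ℝ, ∀ s ≤ k, γr s ≤ γy :=
    ⟨∑ s ∈ range (k + 1), γr s, fun s hs => Finset.single_le_sum (f := γr)
      (fun i _ => (hγr i).le) (mem_range.2 (by omega))⟩
  have hγy0 : 0 < γy := lt_of_lt_of_le (hγr 0) (hγy 0 (Nat.zero_le _))
  obtain ⟨p₀, hp₀, hp₀'⟩ := Nat.exists_infinite_primes (2 ^ (C₀ * (k + 1)))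
  obtain ⟨D₂, hD₂⟩ : ∃ D₂ : ℕ, D₂ = max Dx (max (6 * k + 2) p₀) := ⟨_, rfl⟩
  have hD₂1 : Dx ≤ D₂ := by rw [hD₂]; exact le_max_left _ _
  have hD₂2 : 6 * k + 2 ≤ D₂ := by rw [hD₂]; exact (le_max_left _ _).trans (le_max_right _ _)
  have hD₂3 : p₀ ≤ D₂ := by rw [hD₂]; exact (le_max_right _ _).trans (le_max_right _ _)
  obtain ⟨D, hD⟩ : ∃ D : ℕ, D = 8 * D₂.factorial *
      (i₀ + Ex + 14 + B + Jx + D₂.factorial ^ 8 + D₂) := ⟨_, rfl⟩
  have hf1 : 1 ≤ D₂.factorial := Nat.one_le_iff_ne_zero.2 (Nat.factorial_ne_zero _)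
  have hDge : i₀ + Ex + 14 + B + Jx + D₂.factorial ^ 8 + D₂ ≤ D := by
    rw [hD]
    apply Nat.le_mul_of_pos_left
    positivity
  obtain ⟨A, hA⟩ : ∃ A : ℕ, A = Ay + 2 ^ D * (Kx + 1) := ⟨_, rfl⟩
  obtain ⟨C, hC⟩ : ∃ C : ℕ, C = Cx + Cy := ⟨_, rfl⟩
  obtain ⟨γ, hγ⟩ : ∃ γ : ℝ, γ = 1 + γy * (1 + 2 ^ C) + (2 ^ D) ^ Cx * 2 ^ C := ⟨_, rfl⟩
  have hγ1 : 1 ≤ γ := by
    rw [hγ]
    have h1 : 0 ≤ γy * (1 + 2 ^ C) + (2 ^ D) ^ Cx * 2 ^ C := by positivity
    linarith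
  have hγ0 : 0 < γ := by linarith
  obtain ⟨r₀, hr₀⟩ := exists_nat_ge (γ * (1 + ℓ) + 1)
  refine ⟨A, C, D, 1 + A + C + r₀, γ, hγ0, by omega, fun j => ?_, ?_⟩
  · have h1 := hi₀ (j + D) (by omega)
    rw [one_mul] at h1
    calc D < 2 ^ D := Nat.lt_two_pow_self
      _ ≤ 2 ^ (j + D) := Nat.pow_le_pow_right (by norm_num) (by omega)
      _ ≤ _ := h1
  intro s hsk a b P hab hinj hadm haP j hPj hPj' G hG cl w hw hcl
  have hP2 : 2 ≤ P := (two_le_pp j).trans hPj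
  have hP0 : P ≠ 0 := by omega
  have hP1 : 1 ≤ P := by omega
  have hP1r : (1 : ℝ) ≤ P := by exact_mod_cast hP1
  have haP' : ∀ i, a i ≤ P := fun i => Nat.le_of_dvd (Nat.pos_of_ne_zero hP0) (haP i)
  have hlogP0 : 0 ≤ Real.log P := Real.log_natCast_nonneg P
  -- it is enough to have rough values
  suffices key : ∃ (n d : ℕ) (U : Finset (Fin s)), (n : ℝ) ≤ γ * (P : ℝ) ^ A ∧ 1 ≤ d ∧
      (d : ℝ) ≤ γ * Real.log P ^ C ∧ U ⊆ G ∧ (G.Nonempty → U.Nonempty) ∧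
      ⌊c * min ((G.card : ℝ) / w) ((G.card : ℝ) / s * Real.log s)⌋₊ ≤ (U.image cl).card ∧
      ∀ h < ℓ, (∀ i ∈ U, (a i * (n + h * d) + b i).Prime) ∧
        ∀ i, ∀ p : ℕ, p.Prime → p ∣ a i * (n + h * d) + b i → P ^ (B + 1) < p by
    obtain ⟨n, d, U, hn1, hd1, hd2, hU1, hU2, hU3, hh⟩ := key
    refine ⟨n, d, U, hn1, hd1, hd2, hU1, hU2, hU3, fun h hh' => ⟨(hh h hh').1, fun i =>
      ⟨?_, fun p hp hpd => ?_⟩⟩⟩
    · have hai := hab i
      apply cf_bd (P := P) (by omega) hP2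
      · intro p hp hpd
        have h1 := (hh h hh').2 i p hp hpd
        have h2 : P ≤ P ^ (B + 1) := Nat.le_self_pow (by omega) _
        omega
      · have h1 : ((a i * (n + h * d) + b i : ℕ) : ℝ) ≤ (P : ℝ) ^ (1 + A + C + r₀) := by
          have h2 : (a i : ℝ) ≤ P := by exact_mod_cast haP' i
          have h3 : (b i : ℝ) ≤ P := by
            have h4 : b i ≤ P := hai.2.le.trans (haP' i)
            exact_mod_cast h4
          have h4 : (γ * (1 + ℓ) + 1 : ℝ) ≤ (P : ℝ) ^ r₀ := by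
            refine hr₀.trans ?_
            have h5 : r₀ ≤ P ^ r₀ := (Nat.lt_pow_self (by omega)).le
            exact_mod_cast h5
          have hPA : (P : ℝ) ^ A ≤ (P : ℝ) ^ (A + C) := pow_le_pow_right₀ hP1r (by omega)
          have hPC : (P : ℝ) ^ C ≤ (P : ℝ) ^ (A + C) := pow_le_pow_right₀ hP1r (by omega)
          have hPAC : (1 : ℝ) ≤ (P : ℝ) ^ (A + C) := one_le_pow₀ hP1r
          have hd3 : (d : ℝ) ≤ γ * (P : ℝ) ^ C := by
            refine hd2.trans (mul_le_mul_of_nonneg_left ?_ hγ0.le)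
            apply pow_le_pow_left₀ hlogP0
            have := Real.log_le_sub_one_of_pos (show (0 : ℝ) < P by linarith)
            linarith
          have hhl : (h : ℝ) ≤ ℓ := by exact_mod_cast hh'.le
          have h5 : (n : ℝ) + h * d ≤ γ * (1 + ℓ) * (P : ℝ) ^ (A + C) := by
            have h6 : (h : ℝ) * d ≤ ℓ * (γ * (P : ℝ) ^ (A + C)) := by
              apply mul_le_mul hhl _ (Nat.cast_nonneg _) (Nat.cast_nonneg _)
              exact hd3.trans (mul_le_mul_of_nonneg_left hPC hγ0.le)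
            have h7 : (n : ℝ) ≤ γ * (P : ℝ) ^ (A + C) :=
              hn1.trans (mul_le_mul_of_nonneg_left hPA hγ0.le)
            calc (n : ℝ) + h * d ≤ γ * (P : ℝ) ^ (A + C) + ℓ * (γ * (P : ℝ) ^ (A + C)) :=
                  add_le_add h7 h6
              _ = _ := by ring
          push_cast
          calc (a i : ℝ) * (n + h * d) + b i ≤ P * (γ * (1 + ℓ) * (P : ℝ) ^ (A + C)) +
                P * (P : ℝ) ^ (A + C) := by
                apply add_le_add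
                · exact mul_le_mul h2 h5 (by positivity) (by positivity)
                · exact h3.trans (le_mul_of_one_le_right (by linarith) hPAC)
            _ = (P : ℝ) ^ (1 + A + C) * (γ * (1 + ℓ) + 1) := by ring
            _ ≤ (P : ℝ) ^ (1 + A + C) * (P : ℝ) ^ r₀ := mul_le_mul_of_nonneg_left h4 (by positivity)
            _ = _ := by rw [← pow_add]
        exact_mod_cast h1
    · have h1 := (hh h hh').2 i p hp hpd
      have h2 : P ^ B ≤ P ^ (B + 1) := Nat.pow_le_pow_right hP1 (by omega)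
      omega
  rcases G.eq_empty_or_nonempty with hGe | hGne
  · obtain ⟨n, d, hn1, hd1, hd2, hr⟩ := hrough s a b P hab hadm haP' hP2
    have hγs := hγy s hsk
    refine ⟨n, d, ∅, ?_, hd1, ?_, empty_subset _, ?_, ?_, ?_⟩
    · refine hn1.trans ?_
      apply mul_le_mul _ _ (by positivity) hγ0.le
      · refine hγs.trans ?_
        rw [hγ]
        have h1 : 0 ≤ γy * 2 ^ C + (2 ^ D) ^ Cx * 2 ^ C := by positivity
        linarith
      · exact pow_le_pow_right₀ hP1r (by have := hAy s hsk; omega)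
    · refine hd2.trans ?_
      have h1 := logp_mono (P := P) (i := Cr s) (j := C) hP2 (by have := hCy s hsk; omega)
      calc γr s * Real.log P ^ Cr s ≤ γy * (2 ^ C * Real.log P ^ C) :=
            mul_le_mul hγs h1 (by positivity) hγy0.le
        _ = γy * 2 ^ C * Real.log P ^ C := by ring
        _ ≤ γ * Real.log P ^ C := by
            apply mul_le_mul_of_nonneg_right _ (by positivity)
            rw [hγ]
            have h2 : (0 : ℝ) ≤ (2 ^ D) ^ Cx * 2 ^ C := by positivity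
            linarith
    · intro h
      rw [hGe] at h
      exact absurd h not_nonempty_empty
    · rw [hGe]
      simp
    · intro h hh
      exact ⟨fun i hi => absurd hi (notMem_empty _), hr h hh⟩
  have hs0 : 1 ≤ s := by
    obtain ⟨x, _⟩ := hGne
    have := x.2
    omega
  have hG1 : 1 ≤ G.card := card_pos.2 hGne
  obtain ⟨m, hm1, hm2⟩ := choose_dim hC₀ hs0
  have hmk : m ≤ k := by
    have h1 : m < 2 ^ m := Nat.lt_two_pow_self
    have h2 : 2 ^ m ≤ 2 ^ (C₀ * m) :=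
      Nat.pow_le_pow_right (by norm_num) (Nat.le_mul_of_pos_left _ (by omega))
    omega
  obtain ⟨M, hM⟩ : ∃ M : ℕ, M = ⌊c * min ((G.card : ℝ) / w) ((G.card : ℝ) / s * Real.log s)⌋₊ :=
    ⟨_, rfl⟩
  rw [← hM]
  have hlogZ : Real.log ((2 ^ 2 ^ (j + D) : ℕ) : ℝ) ≤ 2 ^ D * Real.log P := by
    have h1 : ((2 ^ 2 ^ (j + D) : ℕ) : ℝ) ≤ (P : ℝ) ^ (2 ^ D) := by
      have h2 : 2 ^ 2 ^ (j + D) ≤ P ^ (2 ^ D) := by
        calc 2 ^ 2 ^ (j + D) = (2 ^ 2 ^ j) ^ (2 ^ D) := by rw [← pow_mul, ← pow_add]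
          _ ≤ _ := Nat.pow_le_pow_left hPj _
      exact_mod_cast h2
    have h2 := Real.log_le_log (by positivity) h1
    rw [Real.log_pow] at h2
    push_cast at h2 ⊢
    exact h2
  have hlogZ1 : 1 ≤ Real.log ((2 ^ 2 ^ (j + D) : ℕ) : ℝ) := by
    have h1 := log_pp (j + D)
    have h2 : (2 : ℝ) ^ 1 ≤ 2 ^ (j + D) := pow_le_pow_right₀ (by norm_num) (by omega)
    rw [pow_one] at h2
    linarith
  -- the end of the proof
  have fin : ∀ (n d : ℕ) (U : Finset (Fin s)) (K₁ C₁ : ℕ), K₁ ≤ Kx → C₁ ≤ Cx →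
      n ≤ (2 ^ 2 ^ (j + D)) ^ (K₁ + 1) → 1 ≤ d →
      (d : ℝ) ≤ Real.log ((2 ^ 2 ^ (j + D) : ℕ) : ℝ) ^ C₁ → U ⊆ G → U.Nonempty →
      M ≤ (U.image cl).card →
      (∀ h < ℓ, (∀ i ∈ U, (a i * (n + h * d) + b i).Prime) ∧
        ∀ i, ∀ p : ℕ, p.Prime → p ∣ a i * (n + h * d) + b i → P ^ (B + 1) < p) →
      ∃ (n d : ℕ) (U : Finset (Fin s)), (n : ℝ) ≤ γ * (P : ℝ) ^ A ∧ 1 ≤ d ∧
      (d : ℝ) ≤ γ * Real.log P ^ C ∧ U ⊆ G ∧ (G.Nonempty → U.Nonempty) ∧
      M ≤ (U.image cl).card ∧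
      ∀ h < ℓ, (∀ i ∈ U, (a i * (n + h * d) + b i).Prime) ∧
        ∀ i, ∀ p : ℕ, p.Prime → p ∣ a i * (n + h * d) + b i → P ^ (B + 1) < p := by
    intro n d U K₁ C₁ hK₁ hC₁ hn hd1 hd2 hUG hU0 hUM hh
    refine ⟨n, d, U, ?_, hd1, ?_, hUG, fun _ => hU0, hUM, hh⟩
    · have hnz : n ≤ P ^ (2 ^ D * (Kx + 1)) := by
        have hz1 : 1 ≤ 2 ^ 2 ^ (j + D) := Nat.one_le_pow _ _ (by norm_num)
        calc n ≤ (2 ^ 2 ^ (j + D)) ^ (K₁ + 1) := hn
          _ ≤ (2 ^ 2 ^ (j + D)) ^ (Kx + 1) := Nat.pow_le_pow_right hz1 (by omega)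
          _ = (2 ^ 2 ^ j) ^ (2 ^ D * (Kx + 1)) := by
            rw [← pow_mul, ← pow_mul, ← mul_assoc, ← pow_add]
          _ ≤ _ := Nat.pow_le_pow_left hPj _
      have h1 : (n : ℝ) ≤ (P : ℝ) ^ (2 ^ D * (Kx + 1)) := by exact_mod_cast hnz
      calc (n : ℝ) ≤ (P : ℝ) ^ (2 ^ D * (Kx + 1)) := h1
        _ ≤ (P : ℝ) ^ A := pow_le_pow_right₀ hP1r (by omega)
        _ ≤ γ * (P : ℝ) ^ A := le_mul_of_one_le_left (by positivity) hγ1
    · calc (d : ℝ) ≤ Real.log ((2 ^ 2 ^ (j + D) : ℕ) : ℝ) ^ C₁ := hd2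
        _ ≤ Real.log ((2 ^ 2 ^ (j + D) : ℕ) : ℝ) ^ Cx := pow_le_pow_right₀ hlogZ1 hC₁
        _ ≤ (2 ^ D * Real.log P) ^ Cx := pow_le_pow_left₀ (by linarith) hlogZ _
        _ = (2 ^ D) ^ Cx * Real.log P ^ Cx := mul_pow _ _ _
        _ ≤ (2 ^ D) ^ Cx * (2 ^ C * Real.log P ^ C) :=
            mul_le_mul_of_nonneg_left (logp_mono hP2 (by omega)) (by positivity)
        _ = (2 ^ D) ^ Cx * 2 ^ C * Real.log P ^ C := by ring
        _ ≤ γ * Real.log P ^ C := by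
            apply mul_le_mul_of_nonneg_right _ (by positivity)
            rw [hγ]
            have h2 : (0 : ℝ) ≤ γy * (1 + 2 ^ C) := by positivity
            linarith
  -- the levels
  have hlev : ∀ (e₁ J₁ : ℕ), e₁ ≤ Ex → J₁ ≤ Jx → ∃ Jn : ℕ, Jn + e₁ + 6 = j + D ∧ J₁ ≤ Jn ∧
      D₂.factorial ^ 8 + D₂ + 1 ≤ Jn ∧ P ^ 12 ≤ 2 ^ 2 ^ Jn ∧ P ^ (B + 1) < 2 ^ 2 ^ Jn := by
    intro e₁ J₁ he₁ hJ₁
    refine ⟨j + D - e₁ - 6, by omega, by omega, by omega, ?_, ?_⟩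
    · calc P ^ 12 ≤ P ^ 16 := Nat.pow_le_pow_right hP1 (by norm_num)
        _ ≤ (2 ^ 2 ^ (j + 1)) ^ 16 := Nat.pow_le_pow_left hPj'.le 16
        _ = 2 ^ 2 ^ (j + 5) := by
          rw [← pow_mul]
          congr 1
          rw [pow_add 2 j 5, pow_add 2 j 1]
          ring
        _ ≤ _ := pp_mono (by omega)
    · calc P ^ (B + 1) ≤ (2 ^ 2 ^ (j + 1)) ^ (B + 1) := Nat.pow_le_pow_left hPj'.le _
        _ = 2 ^ (2 ^ (j + 1) * (B + 1)) := by rw [← pow_mul]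
        _ < 2 ^ 2 ^ (j + D - e₁ - 6) := by
          apply Nat.pow_lt_pow_right (by norm_num)
          calc 2 ^ (j + 1) * (B + 1) < 2 ^ (j + 1) * 2 ^ (B + 1) :=
                Nat.mul_lt_mul_of_pos_left Nat.lt_two_pow_self (by positivity)
            _ = 2 ^ (j + 1 + (B + 1)) := by rw [← pow_add]
            _ ≤ _ := Nat.pow_le_pow_right (by norm_num) (by omega)
  have hWW0 := WW_pos (D₁ := D₂) hP0
  -- the residues
  have hmany := many_nu (D := D₂) (W := WW D₂ P) (χ₁ (2 ^ 2 ^ (j + D))) (hq2 _).1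
    (hq3 _).2 (hq3 _).1 (hq2 _).2.1 a b (prim_of a b hadm) (WW_squarefree hP0) (by omega) (by omega)
    (fun i r hr hri => (prime_dvd_WW hP0 hr).2 (Or.inr (hri.trans (haP i)))) G (by
      intro i hi
      rcases hG i hi with h1 | h1
      · left
        by_contra hcon
        push Not at hcon
        apply h1
        have h2 := dvd_of_rough (D := D₂) (a := a i) (hq2 (2 ^ 2 ^ (j + D))).2.1
          (hq2 (2 ^ 2 ^ (j + D))).2.2 hcon
        exact h2.trans (Nat.mul_dvd_mul_right ⟨_, hD⟩ _)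
      · exact Or.inr h1)
  have hpk : 2 ^ (C₀ * (m + 1)) ≤ p₀ := by
    have h2 : 2 ^ (C₀ * (m + 1)) ≤ 2 ^ (C₀ * (k + 1)) :=
      Nat.pow_le_pow_right (by norm_num) (Nat.mul_le_mul_left _ (by omega))
    exact h2.trans hp₀
  have hkW : 2 ^ (C₀ * (m + 1)) ≤ WW D₂ P := by
    have h1 : p₀ ∣ WW D₂ P := (prime_dvd_WW hP0 hp₀').2 (Or.inl hD₂3)
    exact hpk.trans (Nat.le_of_dvd hWW0 h1)
  rcases Nat.eq_zero_or_pos M with hM0 | hM0
  · -- no classes: one prime form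
    obtain ⟨Jn, hJne, hJnJ, hJnD, hP12, hPB⟩ := hlev (e m) (J₀ m) (hEx m hmk).1 (hJx m hmk).1
    have hJpp := le_pp Jn
    have hfin := heng' m Jn hJnJ D₂ P s a b ((hDx m hmk).1.trans hD₂1) (hpk.trans hD₂3) hkW
      (by omega) (by omega) hP0 hP12 (by omega) hm2.le hab hinj hadm haP G 0
    rw [hJne] at hfin
    obtain ⟨n, d, U, hn, hd1, hd2, hUG, hUc, hh⟩ := hfin (by
      refine hmany.trans (Nat.mul_le_mul_left _ (card_le_card ?_))
      intro ν hν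
      rw [mem_filter] at hν ⊢
      refine ⟨hν.1, ?_⟩
      obtain ⟨H, hH⟩ : ∃ H : ℕ, H = (G.filter (fun i => q₁ (2 ^ 2 ^ (j + D)) ∣ a i * WW D₂ P →
        χ₁ (2 ^ 2 ^ (j + D)) ((a i * ν + b i : ℕ) : ZMod (q₁ (2 ^ 2 ^ (j + D)))) = -1)).card :=
        ⟨_, rfl⟩
      have hνG := hν.2
      rw [← hH] at hνG ⊢
      have hH1 : 1 ≤ H := by omega
      rw [zero_mul, zero_add]
      exact Nat.mul_pos (by omega) hH1)
    refine fin n d U (K m) (Ce m) (hKx m hmk).1 (hCx m hmk).1 hn hd1 hd2 hUG (card_pos.1 hUc)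
      (by omega) ?_
    intro h hh'
    refine ⟨(hh h hh').1, fun i p hp hpd => ?_⟩
    have h1 := (hh h hh').2 i p hp hpd
    omega
  · -- many classes
    obtain ⟨Jn, hJne, hJnJ, hJnD, hP12, hPB⟩ := hlev (e' m) (J₀' m) (hEx m hmk).2 (hJx m hmk).2
    have hJpp := le_pp Jn
    obtain ⟨k₁, hk₁⟩ : ∃ k₁ : ℕ, k₁ = C₀ * (m + 1) := ⟨_, rfl⟩
    obtain ⟨Y, hY⟩ : ∃ Y : ℕ, Y = 160 * (k₁ + 1) ^ 2 := ⟨_, rfl⟩
    have hY0 : 0 < Y := by rw [hY]; positivity
    obtain ⟨q, hq⟩ : ∃ q : ℕ, q = (m + 1) * 2 ^ k₁ / Y := ⟨_, rfl⟩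
    obtain ⟨sz, hsz⟩ : ∃ sz : ℕ, sz = max w (q + 1) := ⟨_, rfl⟩
    have hszw : w ≤ sz := by rw [hsz]; exact le_max_left _ _
    have hszq : q + 1 ≤ sz := by rw [hsz]; exact le_max_right _ _
    have hYq : (m + 1) * 2 ^ k₁ ≤ Y * (q + 1) := by
      rw [hq]
      exact (Nat.lt_mul_div_succ _ hY0).le
    have hk2 : (m + 1) * 2 ^ k₁ ≤ 160 * sz * (k₁ + 1) ^ 2 := by
      calc (m + 1) * 2 ^ k₁ ≤ Y * (q + 1) := hYq
        _ ≤ Y * sz := Nat.mul_le_mul_left _ hszq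
        _ = 160 * sz * (k₁ + 1) ^ 2 := by rw [hY]; ring
    have hfin := hengc m Jn hJnJ D₂ P s a b ((hDx m hmk).2.trans hD₂1) (hpk.trans hD₂3) hkW
      (by omega) (by omega) hP0 hP12 (by omega) hm2.le hab hinj hadm haP G cl sz (by omega)
      (fun x => (hcl x).trans hszw) (by rw [← hk₁]; exact hk2) (M - 1)
    rw [hJne, ← hk₁] at hfin
    obtain ⟨n, d, U, hn, hd1, hd2, hUG, hUc, hh⟩ := hfin (by
      refine hmany.trans (Nat.mul_le_mul_left _ (card_le_card ?_))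
      intro ν hν
      rw [mem_filter] at hν ⊢
      refine ⟨hν.1, ?_⟩
      obtain ⟨H, hH⟩ : ∃ H : ℕ, H = (G.filter (fun i => q₁ (2 ^ 2 ^ (j + D)) ∣ a i * WW D₂ P →
        χ₁ (2 ^ 2 ^ (j + D)) ((a i * ν + b i : ℕ) : ZMod (q₁ (2 ^ 2 ^ (j + D)))) = -1)).card :=
        ⟨_, rfl⟩
      have hνG := hν.2
      rw [← hH] at hνG ⊢
      have hνGr : (G.card : ℝ) ≤ 5 * H := by exact_mod_cast hνG
      have hs0r : (0 : ℝ) < s := by exact_mod_cast hs0
      have hwr : (1 : ℝ) ≤ w := by exact_mod_cast hw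
      have hGr : (0 : ℝ) ≤ G.card := Nat.cast_nonneg _
      have hHr : (0 : ℝ) ≤ H := Nat.cast_nonneg _
      have hlogs0 : 0 ≤ Real.log (s : ℝ) := Real.log_natCast_nonneg _
      have hmr : (0 : ℝ) ≤ (m : ℝ) + 1 := by positivity
      have hM1 : (M : ℝ) ≤ c * min ((G.card : ℝ) / w) ((G.card : ℝ) / s * Real.log s) := by
        rw [hM]
        apply Nat.floor_le
        apply mul_nonneg hc0.le
        apply le_min <;> positivity
      have hM2 : (M : ℝ) * w ≤ c * G.card := by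
        have h1 : (M : ℝ) ≤ c * ((G.card : ℝ) / w) :=
          hM1.trans (mul_le_mul_of_nonneg_left (min_le_left _ _) hc0.le)
        calc (M : ℝ) * w ≤ c * ((G.card : ℝ) / w) * w := mul_le_mul_of_nonneg_right h1 (by linarith)
          _ = c * G.card := by field_simp
      have hk1n : (k₁ + 1) ^ 2 ≤ 4 * C₀ ^ 2 * (m + 1) ^ 2 := by
        have h1 : k₁ + 1 ≤ 2 * (C₀ * (m + 1)) := by
          have h2 : 1 ≤ C₀ * (m + 1) := Nat.mul_pos hC₀ (by omega)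
          omega
        calc (k₁ + 1) ^ 2 ≤ (2 * (C₀ * (m + 1))) ^ 2 := Nat.pow_le_pow_left h1 2
          _ = _ := by ring
      have hk1r : ((k₁ : ℝ) + 1) ^ 2 ≤ 4 * C₀ ^ 2 * ((m : ℝ) + 1) ^ 2 := by exact_mod_cast hk1n
      have hc1 : c * (6410 * C₀ ^ 3 * 2 ^ C₀) = 1 := by
        rw [hc]
        field_simp
      have hC₀3 : (C₀ : ℝ) ^ 2 ≤ C₀ ^ 3 * 2 ^ C₀ := by
        have h1 : (1 : ℝ) ≤ 2 ^ C₀ := one_le_pow₀ (by norm_num)
        calc (C₀ : ℝ) ^ 2 ≤ C₀ ^ 3 := pow_le_pow_right₀ hC₀r (by norm_num)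
          _ ≤ C₀ ^ 3 * 2 ^ C₀ := le_mul_of_one_le_right (by positivity) h1
      have hmain : 2 * (M : ℝ) * (160 * sz * ((k₁ : ℝ) + 1) ^ 2) ≤ ((m : ℝ) + 1) ^ 2 * H := by
        rcases le_total w (q + 1) with hwq | hwq
        · have hszq' : sz = q + 1 := by rw [hsz]; exact max_eq_right hwq
          have h1 : (Y : ℝ) * sz ≤ 641 * C₀ ^ 2 * ((m + 1) * 2 ^ k₁) := by
            have h2 : Y * q ≤ (m + 1) * 2 ^ k₁ := by
              rw [hq]
              exact Nat.mul_div_le _ _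
            have h3 : Y ≤ 640 * C₀ ^ 2 * ((m + 1) * 2 ^ k₁) := by
              have h4 : m + 1 ≤ 2 ^ k₁ := by
                have h5 : m + 1 ≤ k₁ := by rw [hk₁]; exact Nat.le_mul_of_pos_left _ hC₀
                exact h5.trans Nat.lt_two_pow_self.le
              calc Y = 160 * (k₁ + 1) ^ 2 := hY
                _ ≤ 160 * (4 * C₀ ^ 2 * (m + 1) ^ 2) := Nat.mul_le_mul_left _ hk1n
                _ = 640 * C₀ ^ 2 * ((m + 1) * (m + 1)) := by ring
                _ ≤ _ := Nat.mul_le_mul_left _ (Nat.mul_le_mul_left _ h4)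
            have h4 : Y * sz ≤ 641 * C₀ ^ 2 * ((m + 1) * 2 ^ k₁) := by
              have h5 : (m + 1) * 2 ^ k₁ ≤ C₀ ^ 2 * ((m + 1) * 2 ^ k₁) :=
                Nat.le_mul_of_pos_left _ (by positivity)
              calc Y * sz = Y * q + Y := by rw [hszq']; ring
                _ ≤ C₀ ^ 2 * ((m + 1) * 2 ^ k₁) + 640 * C₀ ^ 2 * ((m + 1) * 2 ^ k₁) :=
                  add_le_add (h2.trans h5) h3
                _ = _ := by ring
            exact_mod_cast h4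
          have h2 : (M : ℝ) * 2 ^ k₁ ≤ c * (C₀ * 2 ^ C₀) * (m + 1) * G.card := by
            have h3 : (M : ℝ) ≤ c * ((G.card : ℝ) / s * Real.log s) :=
              hM1.trans (mul_le_mul_of_nonneg_left (min_le_right _ _) hc0.le)
            have h4 : Real.log (s : ℝ) ≤ C₀ * (m + 1) := by
              have h5 : Real.log (s : ℝ) ≤ Real.log ((2 : ℝ) ^ (C₀ * (m + 1))) := by
                apply Real.log_le_log hs0r
                exact_mod_cast hm2.le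
              rw [Real.log_pow] at h5
              push_cast at h5
              have h6 : (0 : ℝ) ≤ C₀ * (m + 1) := by positivity
              have h7 : Real.log 2 ≤ 1 := by
                have := Real.log_two_lt_d9
                linarith
              calc Real.log (s : ℝ) ≤ C₀ * (m + 1) * Real.log 2 := h5
                _ ≤ C₀ * (m + 1) * 1 := mul_le_mul_of_nonneg_left h7 h6
                _ = _ := mul_one _
            have h5 : (2 : ℝ) ^ k₁ ≤ s * 2 ^ C₀ := by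
              have h6 : 2 ^ k₁ ≤ s * 2 ^ C₀ := by
                rw [hk₁, mul_add, mul_one, pow_add]
                exact Nat.mul_le_mul_right _ hm1
              exact_mod_cast h6
            calc (M : ℝ) * 2 ^ k₁ ≤ (c * ((G.card : ℝ) / s * (C₀ * (m + 1)))) * (s * 2 ^ C₀) := by
                  apply mul_le_mul _ h5 (by positivity) (by positivity)
                  refine h3.trans (mul_le_mul_of_nonneg_left ?_ hc0.le)
                  exact mul_le_mul_of_nonneg_left h4 (by positivity)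
              _ = c * (C₀ * 2 ^ C₀) * (m + 1) * G.card := by field_simp
          calc 2 * (M : ℝ) * (160 * sz * ((k₁ : ℝ) + 1) ^ 2) = 2 * M * (Y * sz) := by
                rw [hY]
                push_cast
                ring
            _ ≤ 2 * M * (641 * C₀ ^ 2 * ((m + 1) * 2 ^ k₁)) :=
                mul_le_mul_of_nonneg_left h1 (by positivity)
            _ = 1282 * C₀ ^ 2 * (m + 1) * (M * 2 ^ k₁) := by ring
            _ ≤ 1282 * C₀ ^ 2 * (m + 1) * (c * (C₀ * 2 ^ C₀) * (m + 1) * G.card) :=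
                mul_le_mul_of_nonneg_left h2 (by positivity)
            _ ≤ 1282 * C₀ ^ 2 * (m + 1) * (c * (C₀ * 2 ^ C₀) * (m + 1) * (5 * H)) := by
                apply mul_le_mul_of_nonneg_left _ (by positivity)
                exact mul_le_mul_of_nonneg_left hνGr (by positivity)
            _ = c * (6410 * C₀ ^ 3 * 2 ^ C₀) * (((m : ℝ) + 1) ^ 2 * H) := by ring
            _ = _ := by rw [hc1, one_mul]
        · have hszw' : sz = w := by rw [hsz]; exact max_eq_left hwq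
          calc 2 * (M : ℝ) * (160 * sz * ((k₁ : ℝ) + 1) ^ 2) =
                320 * (M * w) * ((k₁ : ℝ) + 1) ^ 2 := by rw [hszw']; ring
            _ ≤ 320 * (c * G.card) * (4 * C₀ ^ 2 * ((m : ℝ) + 1) ^ 2) := by
                apply mul_le_mul _ hk1r (by positivity) (by positivity)
                exact mul_le_mul_of_nonneg_left hM2 (by norm_num)
            _ ≤ 320 * (c * (5 * H)) * (4 * C₀ ^ 2 * ((m : ℝ) + 1) ^ 2) := by
                apply mul_le_mul_of_nonneg_right _ (by positivity)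
                apply mul_le_mul_of_nonneg_left _ (by norm_num)
                exact mul_le_mul_of_nonneg_left hνGr hc0.le
            _ = c * (6400 * C₀ ^ 2) * (((m : ℝ) + 1) ^ 2 * H) := by ring
            _ ≤ 1 * (((m : ℝ) + 1) ^ 2 * H) := by
                apply mul_le_mul_of_nonneg_right _ (by positivity)
                rw [← hc1]
                apply mul_le_mul_of_nonneg_left _ hc0.le
                calc (6400 * C₀ ^ 2 : ℝ) ≤ 6410 * (C₀ ^ 3 * 2 ^ C₀) :=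
                      mul_le_mul (by norm_num) hC₀3 (by positivity) (by norm_num)
                  _ = _ := by ring
            _ = _ := one_mul _
      have hmain' : 2 * M * (160 * sz * (k₁ + 1) ^ 2) ≤ (m + 1) ^ 2 * H := by exact_mod_cast hmain
      refine le_trans ?_ hmain'
      rw [show (2 * (M - 1) + 1) * 160 * sz * (k₁ + 1) ^ 2 =
        (2 * (M - 1) + 1) * (160 * sz * (k₁ + 1) ^ 2) by ring]
      exact Nat.mul_le_mul_right _ (by omega))
    have hUM : M ≤ (U.image cl).card := by omega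
    refine fin n d U (K' m) (Ce' m) (hKx m hmk).2 (hCx m hmk).2 hn hd1 hd2 hUG ?_ hUM ?_
    · rw [← card_pos]
      have h1 := card_image_le (s := U) (f := cl)
      omega
    · intro h hh'
      refine ⟨(hh h hh').1, fun i p hp hpd => ?_⟩
      have h1 := (hh h hh').2 i p hp hpd
      omega

end Run7.h296
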