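import Pool.Agent.Run7.h296.T1
import Pool.Agent.Run7.h296.S1

/-!
The weights at the values at which two forms are prime.
-/

set_option autoImplicit false

open Finset

namespace Run7.h296

open Pool.Agent.R498.MT Pool.Agent.H262R3.Lk Pool.Agent.W505.MH
open Pool.Agent.H318R2.Cr (Rgh V V_pos V_le_one cz_bounds)

theorem rr_lower2 {J : Type} [Fintype J] [DecidableEq J] {Y : ℝ} (hY : 1 < Y) {Sset : Finset ℕ}
    (hS : ∀ p ∈ Sset, p.Prime) (U : Sset → Option J) (h : lt (lsz Y) U ≤ 2) :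
    1 / Y ^ 2 ≤ ∏ t : Sset, rr (fun _ : J => 1 / ((t : ℕ) : ℝ)) (U t) := by
  have hlY : 0 < Real.log Y := Real.log_pos hY
  have hY2 : 1 < Y ^ 2 := one_lt_pow₀ hY (by norm_num)
  have e1 : lt (lsz (Y ^ 2)) U = lt (lsz Y) U / 2 := by
    unfold lt lsz
    rw [sum_div]
    refine sum_congr rfl fun t _ => ?_
    split_ifs
    · simp
    · rw [Real.log_pow]
      push_cast
      field_simp
  have h1 := rr_lower (J := J) hY2 hS U ∅ (by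
    have : lz (lsz (Y ^ 2)) (∅ : Finset Sset) = 0 := by simp [lz]
    rw [this, e1]
    linarith)
  rw [prod_empty, mul_one] at h1
  exact h1

section
variable {k Jn e b b' W D₁ : ℕ} {C₁ E D : ℝ} {A B : Fin (2 ^ k) → ℕ}

/-- the second weights -/
noncomputable def y2S (k Jn e : ℕ) (i j : Fin (2 ^ k)) : (SS Jn e → Option (Fin (2 ^ k))) → ℝ :=
  Phi (fun t : SS Jn e => 1 / (((t : ℕ) : ℝ) - 1)) (lsz ((2 ^ 2 ^ (Jn + e) : ℕ) : ℝ)) (1 / 4) j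
    (Phi (fun t : SS Jn e => 1 / (((t : ℕ) : ℝ) - 1)) (lsz ((2 ^ 2 ^ (Jn + e) : ℕ) : ℝ)) (1 / 4) i
      (yf (lsz ((2 ^ 2 ^ (Jn + e) : ℕ) : ℝ)) (1 / 2) k))

/-- the second linear form -/
noncomputable def L2 (A B : Fin (2 ^ k) → ℕ) (Jn e : ℕ) (i j : Fin (2 ^ k)) (l : ℕ) : ℝ :=
  Lam none (fun t : SS Jn e => ((t : ℕ) : ℝ)) (fun t : SS Jn e => 1 / (((t : ℕ) : ℝ) - 1))
    (y2S k Jn e i j) (fun t : SS Jn e => colr A B t l)

theorem Ctx.pair_all (c : Ctx k Jn e b b' W D₁ C₁ E D A B) {σ : ℝ} (hσ : 0 < σ) (hσ1 : σ ≤ 1)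
    (hlv : 8 * ((2 ^ 2 ^ Jn : ℕ) : ℝ) * (((1 : ℝ) + Jn) *
      (((2 ^ 2 ^ Jn) ^ (4 * b + 6) : ℕ) : ℝ) ^ 2) * ((2 ^ 2 ^ (Jn + e) : ℕ) : ℝ) ^ 2 ≤
        E * (((2 ^ 2 ^ (Jn + e)) ^ 8 : ℕ) : ℝ)) (i j : Fin (2 ^ k)) (hij : i ≠ j) :
    ∑' l, cu (hh σ) (l0 Jn e) l * (wt A B (PS Jn W) (rhoP b Jn) l * L2 A B Jn e i j l ^ 2) ≤
      160 * (((k : ℝ) + 1) / 2 ^ k) ^ 2 * (X0 A B Jn e b W σ * II k Jn e) ∧
    ∀ l, (∀ t : SS Jn e, colr A B t l ≠ some i) → (∀ t : SS Jn e, colr A B t l ≠ some j) →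
      L2 A B Jn e i j l = LL A B Jn e none l := by
  classical
  have hl0 := l0_ge (e := e) c.J1
  have hVP := c.VP
  have hV0 : 0 < ∏ p ∈ PS Jn W, (1 - gg A B p) := c.rmP.pos
  have hF : 0 ≤ ∑' l, cu (hh σ) (l0 Jn e) l := tsum_nonneg fun l => cu_nonneg (hh_nonneg σ) _ l
  have hbl := hh_block hσ hσ1 hl0
  have hρ := c.adP
  have hX : 0 ≤ (∑' l, cu (hh σ) (l0 Jn e) l) *
      ∑ T' ∈ (PS Jn W).powerset, rhoP b Jn T' * ∏ p ∈ T', gg A B p := by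
    apply mul_nonneg hF
    linarith [hρ.a3]
  have key := cntI (A := A) (B := B) (φ := hh σ) (l0 Jn e) (hh_anti hσ (l0 Jn e) hl0)
    (fun l _ => hh_nonneg σ l)
    (hh_summable hσ) i (P := PS Jn W) (Sset := SS Jn e) (e₂ := ∅) c.dPS (disjoint_empty_right _)
    (disjoint_empty_left _) (fun p hp => (mem_PS.1 hp).1) (fun p hp => absurd hp (notMem_empty p))
    c.ok (rhoP b Jn) _ (c.R1 hρ) E
    (fun T => lt (lsz ((2 ^ 2 ^ (Jn + e) : ℕ) : ℝ)) T ≤ 2) (by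
      intro T hT
      rw [prod_empty, one_mul]
      have h2 := rr_lower2 (Y_one (Jn + e)) (fun p hp => (mem_SS.1 hp).1) T hT
      have hT0 : (0 : ℝ) < ((2 ^ 2 ^ Jn : ℕ) : ℝ) := by positivity
      have hY0 : (0 : ℝ) < ((2 ^ 2 ^ (Jn + e) : ℕ) : ℝ) := by positivity
      have h3 : 1 / (2 * ((2 ^ 2 ^ Jn : ℕ) : ℝ)) ≤
          ∑ T' ∈ (PS Jn W).powerset, rhoP b Jn T' * ∏ p ∈ T', gg A B p := by
        refine le_trans ?_ hρ.a3
        have e1 : 1 / (2 * ((2 ^ 2 ^ Jn : ℕ) : ℝ)) = (1 / ((2 ^ 2 ^ Jn : ℕ) : ℝ)) / 2 := by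
          field_simp
        rw [e1]
        linarith
      have hφ0 := hh_nonneg σ (l0 Jn e)
      have h4 : ((l0 Jn e : ℕ) : ℝ) * hh σ (l0 Jn e) / 4 * (1 / (2 * ((2 ^ 2 ^ Jn : ℕ) : ℝ))) ≤
          (∑' l, cu (hh σ) (l0 Jn e) l) *
            ∑ T' ∈ (PS Jn W).powerset, rhoP b Jn T' * ∏ p ∈ T', gg A B p := by
        apply mul_le_mul _ h3 (by positivity) hF
        linarith
      have h6 : E * (((l0 Jn e : ℕ) : ℝ) * hh σ (l0 Jn e) / 4 *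
          (1 / (2 * ((2 ^ 2 ^ Jn : ℕ) : ℝ)))) *
          (1 / ((2 ^ 2 ^ (Jn + e) : ℕ) : ℝ) ^ 2) ≤
          E * ((∑' l, cu (hh σ) (l0 Jn e) l) *
            ∑ T' ∈ (PS Jn W).powerset, rhoP b Jn T' * ∏ p ∈ T', gg A B p) *
          ∏ t : SS Jn e, rr (fun _ : Fin (2 ^ k) => 1 / ((t : ℕ) : ℝ)) (T t) := by
        apply mul_le_mul (mul_le_mul_of_nonneg_left h4 c.E0.le) h2 (by positivity)
        exact mul_nonneg c.E0.le hX
      refine le_trans ?_ h6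
      have h7 : E * (((l0 Jn e : ℕ) : ℝ) * hh σ (l0 Jn e) / 4 *
          (1 / (2 * ((2 ^ 2 ^ Jn : ℕ) : ℝ)))) *
          (1 / ((2 ^ 2 ^ (Jn + e) : ℕ) : ℝ) ^ 2) = hh σ (l0 Jn e) * (E * ((l0 Jn e : ℕ) : ℝ) /
            (8 * ((2 ^ 2 ^ Jn : ℕ) : ℝ) * ((2 ^ 2 ^ (Jn + e) : ℕ) : ℝ) ^ 2)) := by
        field_simp
        ring
      rw [h7]
      apply mul_le_mul_of_nonneg_left _ hφ0
      rw [le_div_iff₀ (by positivity)]
      refine le_trans (le_of_eq ?_) hlv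
      ring)
  obtain ⟨N, ν', ξ', h1, h2⟩ := key
  rw [prod_empty, one_mul] at h2
  obtain ⟨h3, h4⟩ := pair_fin k C₁ c.C0 _ (by positivity) c.ep 1 _ _ _ c.dat i j hij hX c.E0.le
    c.E1 h2
  refine ⟨?_, fun l hi hj => h4 _ hi hj⟩
  have e5 : X0 A B Jn e b W σ * II k Jn e = (∑' l, cu (hh σ) (l0 Jn e) l) *
      (∑ T' ∈ (PS Jn W).powerset, rhoP b Jn T' * ∏ p ∈ T', gg A B p) * II k Jn e := rfl
  rw [e5]
  refine le_trans (le_of_eq ?_) h3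
  have h5 := h1 (fun x => Lam none (fun t : SS Jn e => ((t : ℕ) : ℝ))
    (fun t : SS Jn e => 1 / (((t : ℕ) : ℝ) - 1)) (y2S k Jn e i j) x ^ 2)
  refine Eq.trans ?_ h5.symm
  unfold L2
  refine tsum_congr fun l => ?_
  rw [prod_empty]
  ring

theorem fin_bdd {α : Type} [Fintype α] (G : α → ℝ) : ∃ C : ℝ, 0 ≤ C ∧ ∀ x, |G x| ≤ C :=
  ⟨∑ x, |G x|, sum_nonneg fun _ _ => abs_nonneg _, fun x =>
    single_le_sum (f := fun x => |G x|) (fun _ _ => abs_nonneg _) (mem_univ x)⟩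

open Classical in
/-- **the weights at the values at which two forms are prime** -/
theorem Ctx.pairS (c : Ctx k Jn e b b' W D₁ C₁ E D A B) {σ : ℝ} (hσ : 0 < σ) (hσ1 : σ ≤ 1)
    (hlv : 8 * ((2 ^ 2 ^ Jn : ℕ) : ℝ) * (((1 : ℝ) + Jn) *
      (((2 ^ 2 ^ Jn) ^ (4 * b + 6) : ℕ) : ℝ) ^ 2) * ((2 ^ 2 ^ (Jn + e) : ℕ) : ℝ) ^ 2 ≤
        E * (((2 ^ 2 ^ (Jn + e)) ^ 8 : ℕ) : ℝ)) (i j : Fin (2 ^ k)) (hij : i ≠ j) (lm : ℕ) :
    ∑ l ∈ (Ioc (l0 Jn e) lm).filter (fun l => (B i + A i * l).Prime ∧ (B j + A j * l).Prime),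
      hh σ l * (wt A B (PS Jn W) (rhoP b Jn) l * LL A B Jn e none l ^ 2) ≤
      160 * (((k : ℝ) + 1) / 2 ^ k) ^ 2 * (X0 A B Jn e b W σ * II k Jn e) := by
  obtain ⟨h1, h2⟩ := c.pair_all hσ hσ1 hlv i j hij
  refine le_trans ?_ h1
  have hcol : ∀ l, l0 Jn e < l → ∀ i : Fin (2 ^ k), (B i + A i * l).Prime →
      ∀ t : SS Jn e, colr A B t l ≠ some i := by
    intro l hl i hp t hc
    have h3 : (t : ℕ) ∣ B i + A i * l := by
      unfold colr at hc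
      split_ifs at hc with h
      · have h4 := Option.some.inj hc
        rw [← h4]
        exact h.choose_spec
    have ht := mem_SS.1 t.2
    have h4 := (Nat.prime_dvd_prime_iff_eq ht.1 hp).1 h3
    have h5 : l ≤ A i * l := Nat.le_mul_of_pos_left _ (c.A1 i)
    have h6 : 2 ^ 2 ^ (Jn + e) ≤ l0 Jn e := by
      unfold l0
      exact Nat.le_self_pow (by norm_num) _
    have h7 : (t : ℕ) ≤ 2 ^ 2 ^ (Jn + e) := by
      have := ht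
      omega
    omega
  have hsum : Summable (fun l => cu (hh σ) (l0 Jn e) l *
      (wt A B (PS Jn W) (rhoP b Jn) l * L2 A B Jn e i j l ^ 2)) := by
    obtain ⟨C, hC, h⟩ := fin_bdd (fun x : SS Jn e → Option (Fin (2 ^ k)) =>
      Lam none (fun t : SS Jn e => ((t : ℕ) : ℝ)) (fun t : SS Jn e => 1 / (((t : ℕ) : ℝ) - 1))
        (y2S k Jn e i j) x)
    apply summ_bd (cu_summable (hh_summable hσ) (l0 Jn e)) _
      ((∑ T ∈ (PS Jn W).powerset, |rhoP b Jn T|) * C ^ 2)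
    intro l
    rw [abs_mul, abs_pow]
    exact mul_le_mul (wt_abs (PS Jn W) (rhoP b Jn) l) (pow_le_pow_left₀ (abs_nonneg _) (h _) 2)
      (by positivity) (sum_nonneg fun T _ => abs_nonneg _)
  have hnn : ∀ l, 0 ≤ cu (hh σ) (l0 Jn e) l *
      (wt A B (PS Jn W) (rhoP b Jn) l * L2 A B Jn e i j l ^ 2) := fun l =>
    mul_nonneg (cu_nonneg (hh_nonneg σ) _ l)
      (mul_nonneg (wt_bonf (A := A) (B := B) Jn W b l).2.1 (sq_nonneg _))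
  refine le_trans (le_of_eq ?_) (hsum.sum_le_tsum ((Ioc (l0 Jn e) lm).filter
    (fun l => (B i + A i * l).Prime ∧ (B j + A j * l).Prime)) (fun l _ => hnn l))
  refine sum_congr rfl fun l hl => ?_
  rw [mem_filter, mem_Ioc] at hl
  have hl1 := hl.1.1
  rw [h2 l (hcol l hl1 i hl.2.1) (hcol l hl1 j hl.2.2)]
  unfold cu
  rw [if_pos hl1]

end

end Run7.h296
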