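import Pool.Agent.Run7.h296.T2

/-!
The comparison, with classes of forms.
-/

set_option autoImplicit false

open Finset

namespace Run7.h296

open Pool.Agent.R498.MT Pool.Agent.H262R3.Lk Pool.Agent.W505.MH
open Pool.Agent.H318R2.Cr (Rgh V V_pos V_le_one cz_bounds)

section comb
variable {α : Type} [DecidableEq α]

/-- the pairs of different elements in the same class -/
def Prs (X : Finset α) (cl : α → ℕ) : Finset (α × α) :=
  (X ×ˢ X).filter (fun p => p.1 ≠ p.2 ∧ cl p.1 = cl p.2)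

theorem Prs_card (X : Finset α) (cl : α → ℕ) :
    ((Prs X cl).card : ℝ) = ∑ c ∈ X.image cl,
      (((X.filter (fun a => cl a = c)).card : ℝ) ^ 2 - (X.filter (fun a => cl a = c)).card) := by
  classical
  have h1 : (Prs X cl).card = ∑ c ∈ X.image cl,
      ((Prs X cl).filter (fun p => cl p.1 = c)).card := by
    apply card_eq_sum_card_fiberwise
    intro p hp
    have h2 := (mem_product.1 (mem_filter.1 (mem_coe.1 hp)).1).1
    exact mem_coe.2 (mem_image_of_mem cl h2)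
  rw [h1, Nat.cast_sum]
  refine sum_congr rfl fun c _ => ?_
  have h2 : (Prs X cl).filter (fun p => cl p.1 = c) = (X.filter (fun a => cl a = c)).offDiag := by
    ext p
    unfold Prs
    simp only [mem_filter, mem_product, mem_offDiag]
    constructor
    · rintro ⟨⟨⟨h3, h4⟩, h5, h6⟩, h7⟩
      exact ⟨⟨h3, h7⟩, ⟨h4, h6 ▸ h7⟩, h5⟩
    · rintro ⟨⟨h3, h4⟩, ⟨h5, h6⟩, h7⟩
      exact ⟨⟨⟨h3, h5⟩, h7, h4.trans h6.symm⟩, h4⟩
  rw [h2, offDiag_card]
  have h3 : (X.filter (fun a => cl a = c)).card ≤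
      (X.filter (fun a => cl a = c)).card * (X.filter (fun a => cl a = c)).card :=
    Nat.le_mul_self _
  rw [Nat.cast_sub h3]
  push_cast
  ring

/-- the number of the classes -/
theorem classes_ge (X : Finset α) (cl : α → ℕ) {lam : ℝ} (h0 : 0 ≤ lam) (h1 : lam ≤ 1) :
    lam * (X.card : ℝ) ≤ ((X.image cl).card : ℝ) + lam ^ 2 * ((Prs X cl).card : ℝ) := by
  rw [Prs_card, card_eq_sum_card_image cl X, Nat.cast_sum, mul_sum, mul_sum,
    card_eq_sum_ones (X.image cl), Nat.cast_sum, ← sum_add_distrib]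
  apply sum_le_sum
  intro c _
  obtain ⟨x, hx⟩ : ∃ x : ℝ, x = ((X.filter (fun a => cl a = c)).card : ℝ) := ⟨_, rfl⟩
  rw [← hx]
  have hx0 : 0 ≤ x := by rw [hx]; exact Nat.cast_nonneg _
  have h2 : lam ^ 2 * x ≤ lam * x := by
    apply mul_le_mul_of_nonneg_right _ hx0
    nlinarith
  push_cast
  nlinarith [sq_nonneg (1 - lam * x)]

theorem Prs_le (X : Finset α) (cl : α → ℕ) (s : ℕ)
    (hs : ∀ c, (X.filter (fun a => cl a = c)).card ≤ s) : (Prs X cl).card ≤ X.card * s := by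
  classical
  have h1 : (Prs X cl).card = ∑ a ∈ X, ((Prs X cl).filter (fun p => p.1 = a)).card := by
    apply card_eq_sum_card_fiberwise
    intro p hp
    exact mem_coe.2 (mem_product.1 (mem_filter.1 (mem_coe.1 hp)).1).1
  rw [h1, ← smul_eq_mul, ← sum_const]
  apply sum_le_sum
  intro a _
  refine le_trans ?_ (hs (cl a))
  apply card_le_card_of_injOn (fun p => p.2)
  · intro p hp
    rw [mem_coe, mem_filter] at hp
    have h2 := mem_filter.1 hp.1
    rw [mem_coe, mem_filter]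
    refine ⟨(mem_product.1 h2.1).2, ?_⟩
    rw [← h2.2.2, hp.2]
  · intro p hp q hq h
    rw [mem_coe, mem_filter] at hp hq
    exact Prod.ext (hp.2.trans hq.2.symm) h

end comb

section
variable {k Jn e b b' W D₁ : ℕ} {C₁ E D : ℝ} {A B : Fin (2 ^ k) → ℕ}

/-- the good values, with classes -/
def GoodC (A B : Fin (2 ^ k) → ℕ) (Jn W : ℕ) (G : Finset (Fin (2 ^ k))) (cl : Fin (2 ^ k) → ℕ)
    (m l : ℕ) : Prop :=
  m < ((G.filter (fun i : Fin (2 ^ k) => (B i + A i * l).Prime)).image cl).card ∧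
    ∀ j, ∀ p ∈ PS Jn W, ¬ p ∣ B j + A j * l

open Classical in
/-- the contribution of the good values -/
noncomputable def PPc (A B : Fin (2 ^ k) → ℕ) (Jn e W : ℕ) (G : Finset (Fin (2 ^ k)))
    (cl : Fin (2 ^ k) → ℕ) (m : ℕ) (σ : ℝ) (lm l : ℕ) : ℝ :=
  if l ∈ Ioc (l0 Jn e) lm ∧ GoodC A B Jn W G cl m l then 2 ^ k * hh σ l else 0

/-- the contribution of the pairs -/
noncomputable def PPq (A B : Fin (2 ^ k) → ℕ) (Jn e : ℕ) (G : Finset (Fin (2 ^ k)))
    (cl : Fin (2 ^ k) → ℕ) (σ : ℝ) (lm l : ℕ) : ℝ :=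
  if l ∈ Ioc (l0 Jn e) lm then
    ((Prs (G.filter (fun i : Fin (2 ^ k) => (B i + A i * l).Prime)) cl).card : ℝ) * hh σ l else 0

theorem PPc_nonneg (A B : Fin (2 ^ k) → ℕ) (Jn e W : ℕ) (G : Finset (Fin (2 ^ k)))
    (cl : Fin (2 ^ k) → ℕ) (m : ℕ) (σ : ℝ) (lm l : ℕ) : 0 ≤ PPc A B Jn e W G cl m σ lm l := by
  unfold PPc
  split_ifs
  · exact mul_nonneg (by positivity) (hh_nonneg σ l)
  · exact le_rfl

theorem PPq_nonneg (A B : Fin (2 ^ k) → ℕ) (Jn e : ℕ) (G : Finset (Fin (2 ^ k)))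
    (cl : Fin (2 ^ k) → ℕ) (σ : ℝ) (lm l : ℕ) : 0 ≤ PPq A B Jn e G cl σ lm l := by
  unfold PPq
  split_ifs
  · exact mul_nonneg (Nat.cast_nonneg _) (hh_nonneg σ l)
  · exact le_rfl

theorem Ctx.pt_allC (c : Ctx k Jn e b b' W D₁ C₁ E D A B) {σ : ℝ} (hσ : 0 < σ)
    (G : Finset (Fin (2 ^ k))) (cl : Fin (2 ^ k) → ℕ) (m lm l : ℕ) {lam : ℝ} (hl0 : 0 ≤ lam)
    (hl1 : lam ≤ 1) (hr : ∀ j, ∀ p ∈ PS Jn W, ¬ p ∣ B j + A j * l) :
    lam * ∑ i ∈ G, (A i : ℝ) * bj (2 ^ 2 ^ (Jn + e + 6)) 1 1 2 σ (B i + A i * l) ≤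
      m * cu (hh σ) (l0 Jn e) l + 2 ^ k * cu (hh σ) lm l +
        (PPf A B Jn e σ lm l + PPc A B Jn e W G cl m σ lm l +
          lam ^ 2 * PPq A B Jn e G cl σ lm l) := by
  have hf0 := PPf_nonneg A B Jn e σ lm l
  have hc0 := PPc_nonneg A B Jn e W G cl m σ lm l
  have hq0 := PPq_nonneg A B Jn e G cl σ lm l
  have hcu0 := cu_nonneg (hh_nonneg σ) (l0 Jn e) l
  have hcm0 := cu_nonneg (hh_nonneg σ) lm l
  have hm0 : (0 : ℝ) ≤ m * cu (hh σ) (l0 Jn e) l := mul_nonneg (Nat.cast_nonneg _) hcu0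
  have hk0 : (0 : ℝ) ≤ 2 ^ k * cu (hh σ) lm l := by positivity
  have hlq : 0 ≤ lam ^ 2 * PPq A B Jn e G cl σ lm l := by positivity
  have hlt : ∀ x : ℝ, 0 ≤ x → lam * x ≤ x := fun x hx => by nlinarith
  by_cases hl : l ∈ Ioc (l0 Jn e) lm
  · obtain ⟨X, hX⟩ : ∃ X : Finset (Fin (2 ^ k)), X =
      G.filter (fun i : Fin (2 ^ k) => (B i + A i * l).Prime) := ⟨_, rfl⟩
    have h1 := c.pt_all hσ G X.card lm l (fun _ => by rw [hX])
    have h2 := classes_ge X cl hl0 hl1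
    have h3 : cu (hh σ) (l0 Jn e) l = hh σ l := by
      unfold cu
      rw [if_pos (mem_Ioc.1 hl).1]
    have hh0 := hh_nonneg σ l
    have h4 : PPq A B Jn e G cl σ lm l = ((Prs X cl).card : ℝ) * hh σ l := by
      unfold PPq
      rw [if_pos hl, hX]
    have h5 : ((X.image cl).card : ℝ) * hh σ l ≤ m * hh σ l + PPc A B Jn e W G cl m σ lm l := by
      by_cases hg : m < (X.image cl).card
      · have h6 : PPc A B Jn e W G cl m σ lm l = 2 ^ k * hh σ l := by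
          unfold PPc
          rw [if_pos ⟨hl, by rw [← hX]; exact hg, hr⟩]
        have h7 : ((X.image cl).card : ℝ) ≤ 2 ^ k := by
          have h8 : (X.image cl).card ≤ 2 ^ k := by
            refine card_image_le.trans ((card_le_univ _).trans ?_)
            rw [Fintype.card_fin]
          exact_mod_cast h8
        rw [h6]
        have h8 := mul_le_mul_of_nonneg_right h7 hh0
        have h9 : (0 : ℝ) ≤ m * hh σ l := mul_nonneg (Nat.cast_nonneg _) hh0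
        linarith
      · have h7 : ((X.image cl).card : ℝ) ≤ m := by exact_mod_cast not_lt.1 hg
        have h8 := mul_le_mul_of_nonneg_right h7 hh0
        linarith
    have h6 := mul_le_mul_of_nonneg_right h2 hh0
    have h7 := mul_le_mul_of_nonneg_left h1 hl0
    rw [h3] at h7 ⊢
    rw [h4]
    have h8 := hlt _ hk0
    have h9 := hlt _ hf0
    have e1 : lam * (X.card * hh σ l + 2 ^ k * cu (hh σ) lm l + PPf A B Jn e σ lm l) =
        lam * X.card * hh σ l + lam * (2 ^ k * cu (hh σ) lm l) + lam * PPf A B Jn e σ lm l := by ring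
    rw [e1] at h7
    have e2 : ((X.image cl).card + lam ^ 2 * ((Prs X cl).card : ℝ)) * hh σ l =
        (X.image cl).card * hh σ l + lam ^ 2 * ((Prs X cl).card * hh σ l) := by ring
    rw [e2] at h6
    linarith
  · by_cases h2 : l0 Jn e < l
    · have h3 : ¬ l ≤ lm := fun h => hl (mem_Ioc.2 ⟨h2, h⟩)
      have h1 := c.pt_all hσ G 0 lm l (fun h => absurd h h3)
      have h4 : 0 ≤ ∑ i ∈ G, (A i : ℝ) * bj (2 ^ 2 ^ (Jn + e + 6)) 1 1 2 σ (B i + A i * l) :=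
        sum_nonneg fun i _ => mul_nonneg (Nat.cast_nonneg _) (bj_nonneg _ _ _ _ _)
      have h5 := hlt _ h4
      push_cast at h1
      linarith
    · have h5 : cu (hh σ) (l0 Jn e) l = 0 := if_neg h2
      have h1 := c.pt_all hσ G (2 ^ k) lm l (fun _ => by
        refine (card_le_card (filter_subset _ _)).trans ?_
        refine (card_le_univ _).trans ?_
        rw [Fintype.card_fin])
      have h4 : 0 ≤ ∑ i ∈ G, (A i : ℝ) * bj (2 ^ 2 ^ (Jn + e + 6)) 1 1 2 σ (B i + A i * l) :=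
        sum_nonneg fun i _ => mul_nonneg (Nat.cast_nonneg _) (bj_nonneg _ _ _ _ _)
      have h6 := hlt _ h4
      rw [h5] at h1 ⊢
      linarith

open Classical in
/-- the sum over the pairs -/
theorem Ctx.PPq_bd (c : Ctx k Jn e b b' W D₁ C₁ E D A B) {σ : ℝ} (hσ : 0 < σ) (hσ1 : σ ≤ 1)
    (hlv : 8 * ((2 ^ 2 ^ Jn : ℕ) : ℝ) * (((1 : ℝ) + Jn) *
      (((2 ^ 2 ^ Jn) ^ (4 * b + 6) : ℕ) : ℝ) ^ 2) * ((2 ^ 2 ^ (Jn + e) : ℕ) : ℝ) ^ 2 ≤
        E * (((2 ^ 2 ^ (Jn + e)) ^ 8 : ℕ) : ℝ))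
    (G : Finset (Fin (2 ^ k))) (cl : Fin (2 ^ k) → ℕ) (s : ℕ)
    (hs : ∀ c, (G.filter (fun a => cl a = c)).card ≤ s) (lm : ℕ)
    (hXI : 0 ≤ X0 A B Jn e b W σ * II k Jn e) :
    ∑ l ∈ Ioc (l0 Jn e) lm, PPq A B Jn e G cl σ lm l *
      (wt A B (PS Jn W) (rhoP b Jn) l * LL A B Jn e none l ^ 2) ≤
      (G.card * s : ℕ) * (160 * (((k : ℝ) + 1) / 2 ^ k) ^ 2 * (X0 A B Jn e b W σ * II k Jn e)) := by
  have h1 : ∀ l ∈ Ioc (l0 Jn e) lm, PPq A B Jn e G cl σ lm l *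
      (wt A B (PS Jn W) (rhoP b Jn) l * LL A B Jn e none l ^ 2) =
      ∑ p ∈ Prs G cl, (if (B p.1 + A p.1 * l).Prime ∧ (B p.2 + A p.2 * l).Prime then
        hh σ l * (wt A B (PS Jn W) (rhoP b Jn) l * LL A B Jn e none l ^ 2) else 0) := by
    intro l hl
    unfold PPq
    rw [if_pos hl, ← sum_filter, sum_const, nsmul_eq_mul, mul_assoc]
    congr 2
    congr 1
    unfold Prs
    ext p
    simp only [mem_filter, mem_product]
    tauto
  rw [sum_congr rfl h1, sum_comm]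
  have h2 : ∀ p ∈ Prs G cl, ∑ l ∈ Ioc (l0 Jn e) lm,
      (if (B p.1 + A p.1 * l).Prime ∧ (B p.2 + A p.2 * l).Prime then
        hh σ l * (wt A B (PS Jn W) (rhoP b Jn) l * LL A B Jn e none l ^ 2) else 0) ≤
      160 * (((k : ℝ) + 1) / 2 ^ k) ^ 2 * (X0 A B Jn e b W σ * II k Jn e) := by
    intro p hp
    rw [← sum_filter]
    exact c.pairS hσ hσ1 hlv p.1 p.2 (mem_filter.1 hp).2.1 lm
  refine (sum_le_sum h2).trans ?_
  rw [sum_const, nsmul_eq_mul]
  apply mul_le_mul_of_nonneg_right _ (by positivity)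
  exact_mod_cast Prs_le G cl s hs

end

end Run7.h296
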