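import Pool.Agent.Run7.h296.T3

/-!
The comparison of the sums, with classes of forms.
-/

set_option autoImplicit false

open Finset

namespace Run7.h296

open Pool.Agent.R498.MT Pool.Agent.H262R3.Lk Pool.Agent.W505.MH
open Pool.Agent.H318R2.Cr (Rgh V V_pos V_le_one cz_bounds)

section
variable {k Jn e b b' W D₁ : ℕ} {C₁ E D : ℝ} {A B : Fin (2 ^ k) → ℕ}

open Classical in
/-- **the comparison, with classes** -/
theorem Ctx.coreC (c : Ctx k Jn e b b' W D₁ C₁ E D A B) {σ : ℝ} (hσ : 0 < σ) (hσ1 : σ ≤ 1)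
    (hlv : 8 * ((2 ^ 2 ^ Jn : ℕ) : ℝ) * (((1 : ℝ) + Jn) *
      (((2 ^ 2 ^ Jn) ^ (4 * b + 6) : ℕ) : ℝ) ^ 2) * ((2 ^ 2 ^ (Jn + e) : ℕ) : ℝ) ^ 2 ≤
        E * (((2 ^ 2 ^ (Jn + e)) ^ 8 : ℕ) : ℝ)) (hk1 : 1 ≤ k)
    (G : Finset (Fin (2 ^ k))) (cl : Fin (2 ^ k) → ℕ) (s : ℕ) (hs0 : 1 ≤ s)
    (hs : ∀ c, (G.filter (fun a => cl a = c)).card ≤ s) (r m lm u : ℕ) (hlm : l0 Jn e ≤ lm)
    (hGr : (2 * m + 1) * 160 * s * (k + 1) ^ 2 ≤ r ^ 2 * G.card)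
    (hrl : r * 2 ^ k ≤ 160 * s * (k + 1) ^ 2)
    (hS2 : ∀ i ∈ G, 2 * (r : ℝ) / 2 ^ k * (X0 A B Jn e b W σ * II k Jn e) ≤
      A i * S2s A B Jn e b W σ i)
    (hu : ∀ j, B j + A j * lm ≤ (2 ^ 2 ^ (Jn + e + 6)) ^ u)
    (hX0 : 0 < X0 A B Jn e b W σ)
    (hT1 : 2 ^ k * (2 ^ (k + 1) * (∑' l, cu (hh σ) lm l)) ≤ 1 / 2 * ∑' l, cu (hh σ) (l0 Jn e) l)
    (hT2 : (2 : ℝ) ^ k * (((2 : ℝ) ^ k * ((2 ^ 2 ^ Jn : ℕ) : ℝ) * (2 * (u : ℝ) ^ 4 *
      (Real.log ((2 ^ 2 ^ (Jn + e + 6) : ℕ) : ℝ)) ^ 3 / ((2 ^ 2 ^ (Jn + e + 6) : ℕ) : ℝ))) *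
    ((((2 ^ 2 ^ Jn) ^ (4 * b + 6) : ℕ) : ℝ) ^ 2 *
        (Pool.Agent.R498.MT.Ab k ((1 / 2) ^ e) * 2 ^ (2 ^ k * (2 ^ (e + 6) * u))) ^ 2)) ≤
      1 / 2 * X0 A B Jn e b W σ) :
    X0 A B Jn e b W σ ≤ 2 ^ k * (2 ^ k * (Pool.Agent.R498.MT.Ab k ((1 / 2) ^ e) *
      2 ^ (2 ^ k * (2 ^ (e + 6) * u))) ^ 2) *
        ∑ l ∈ (Ioc (l0 Jn e) lm).filter (fun l => GoodC A B Jn W G cl m l), hh σ l := by
  have hI1 : 1 ≤ II k Jn e := one_le_pow₀ (I2_one c.dat (by positivity) (by norm_num) k)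
  have hG0 : ∀ l, 0 ≤ wt A B (PS Jn W) (rhoP b Jn) l * LL A B Jn e none l ^ 2 := fun l =>
    mul_nonneg (wt_bonf (A := A) (B := B) Jn W b l).2.1 (sq_nonneg _)
  -- the upper bound
  have hs1 := summ_w (A := A) (B := B) (cu_summable (hh_summable hσ) (l0 Jn e)) (PS Jn W)
    (rhoP b Jn) Jn e none
  have hs2 := summ_w (A := A) (B := B) (cu_summable (hh_summable hσ) lm) (PS Jn W)
    (rhoP b Jn) Jn e none
  have hs0r : (0 : ℝ) < s := by exact_mod_cast (by omega : 0 < s)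
  have hk0 : (0 : ℝ) < (k : ℝ) + 1 := by positivity
  obtain ⟨lam, hlam⟩ : ∃ lam : ℝ, lam = (r : ℝ) * 2 ^ k / (160 * s * ((k : ℝ) + 1) ^ 2) := ⟨_, rfl⟩
  have hlam0 : 0 ≤ lam := by rw [hlam]; positivity
  have hlam1 : lam ≤ 1 := by
    rw [hlam, div_le_one (by positivity)]
    exact_mod_cast hrl
  have hsPP : Summable (fun l => PPf A B Jn e σ lm l + PPc A B Jn e W G cl m σ lm l +
      lam ^ 2 * PPq A B Jn e G cl σ lm l) := by
    apply summable_of_finite_support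
    apply (Ioc (l0 Jn e) lm).finite_toSet.subset
    intro n hn
    by_contra h3
    apply hn
    have h3' : n ∉ Ioc (l0 Jn e) lm := fun h => h3 (mem_coe.2 h)
    simp only
    unfold PPf PPc PPq
    rw [if_neg h3', if_neg (fun h => h3' h.1), if_neg h3']
    ring
  have hs3 := summ_w (A := A) (B := B) hsPP (PS Jn W) (rhoP b Jn) Jn e none
  have hsi : ∀ i : Fin (2 ^ k), Summable (fun l =>
      ((A i : ℝ) * bj (2 ^ 2 ^ (Jn + e + 6)) 1 1 2 σ (B i + A i * l)) *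
      (wt A B (PS Jn W) (rhoM b Jn) l * LL A B Jn e none l ^ 2)) := fun i =>
    summ_w ((bj_summable hσ _ (c.A1 i)).mul_left _) (PS Jn W) (rhoM b Jn) Jn e none
  have htot : lam * ∑ i ∈ G, (A i : ℝ) * S2s A B Jn e b W σ i ≤
      m * S1s A B Jn e b W σ (l0 Jn e) + 2 ^ k * S1s A B Jn e b W σ lm +
        ∑ l ∈ Ioc (l0 Jn e) lm, (PPf A B Jn e σ lm l + PPc A B Jn e W G cl m σ lm l +
          lam ^ 2 * PPq A B Jn e G cl σ lm l) *
      (wt A B (PS Jn W) (rhoP b Jn) l * LL A B Jn e none l ^ 2) := by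
    have e1 : ∑ i ∈ G, (A i : ℝ) * S2s A B Jn e b W σ i =
        ∑' l, ∑ i ∈ G, ((A i : ℝ) * bj (2 ^ 2 ^ (Jn + e + 6)) 1 1 2 σ (B i + A i * l)) *
      (wt A B (PS Jn W) (rhoM b Jn) l * LL A B Jn e none l ^ 2) := by
      rw [Summable.tsum_finsetSum fun i _ => hsi i]
      exact sum_congr rfl fun i _ => c.S2_same i σ
    rw [e1, ← tsum_mul_left]
    have e2 : ∑ l ∈ Ioc (l0 Jn e) lm, (PPf A B Jn e σ lm l + PPc A B Jn e W G cl m σ lm l +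
          lam ^ 2 * PPq A B Jn e G cl σ lm l) *
        (wt A B (PS Jn W) (rhoP b Jn) l * LL A B Jn e none l ^ 2) =
        ∑' l, (PPf A B Jn e σ lm l + PPc A B Jn e W G cl m σ lm l +
          lam ^ 2 * PPq A B Jn e G cl σ lm l) *
        (wt A B (PS Jn W) (rhoP b Jn) l * LL A B Jn e none l ^ 2) := by
      symm
      apply tsum_eq_sum
      intro l hl
      unfold PPf PPc PPq
      rw [if_neg hl, if_neg (fun h => hl h.1), if_neg hl]
      ring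
    rw [e2]
    unfold S1s
    rw [← tsum_mul_left, ← tsum_mul_left, ← (hs1.mul_left (m : ℝ)).tsum_add (hs2.mul_left _),
      ← ((hs1.mul_left (m : ℝ)).add (hs2.mul_left _)).tsum_add hs3]
    apply Summable.tsum_le_tsum _ ((summable_sum fun i _ => hsi i).mul_left lam)
      (((hs1.mul_left (m : ℝ)).add (hs2.mul_left _)).add hs3)
    intro l
    rw [← sum_mul]
    have hb0 : 0 ≤ ∑ i ∈ G, (A i : ℝ) * bj (2 ^ 2 ^ (Jn + e + 6)) 1 1 2 σ (B i + A i * l) :=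
      sum_nonneg fun i _ => mul_nonneg (Nat.cast_nonneg _) (bj_nonneg _ _ _ _ _)
    have hR0 : 0 ≤ (m * cu (hh σ) (l0 Jn e) l + 2 ^ k * cu (hh σ) lm l +
        (PPf A B Jn e σ lm l + PPc A B Jn e W G cl m σ lm l +
          lam ^ 2 * PPq A B Jn e G cl σ lm l)) := by
      have r1 := cu_nonneg (hh_nonneg σ) (l0 Jn e) l
      have r2 := cu_nonneg (hh_nonneg σ) lm l
      have r3 := PPf_nonneg A B Jn e σ lm l
      have r4 := PPc_nonneg A B Jn e W G cl m σ lm l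
      have r5 := PPq_nonneg A B Jn e G cl σ lm l
      positivity
    have hsq : 0 ≤ LL A B Jn e none l ^ 2 := sq_nonneg _
    by_cases hw : 0 < wt A B (PS Jn W) (rhoM b Jn) l
    · have hrough := (wt_bonf (A := A) (B := B) Jn W b l).2.2 hw
      have hptl := c.pt_allC hσ G cl m lm l hlam0 hlam1 hrough
      have hMP : wt A B (PS Jn W) (rhoM b Jn) l ≤ wt A B (PS Jn W) (rhoP b Jn) l := by
        rw [wt_M]
        linarith [(wt_bonf (A := A) (B := B) Jn W b l).1]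
      have h1 := mul_le_mul hptl (mul_le_mul_of_nonneg_right hMP hsq)
        (mul_nonneg hw.le hsq) hR0
      refine le_trans (le_of_eq ?_) (h1.trans (le_of_eq ?_))
      · ring
      · ring
    · have h1 : lam * ((∑ i ∈ G, (A i : ℝ) * bj (2 ^ 2 ^ (Jn + e + 6)) 1 1 2 σ (B i + A i * l)) *
          (wt A B (PS Jn W) (rhoM b Jn) l * LL A B Jn e none l ^ 2)) ≤ 0 := by
        apply mul_nonpos_of_nonneg_of_nonpos hlam0
        apply mul_nonpos_of_nonneg_of_nonpos hb0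
        exact mul_nonpos_of_nonpos_of_nonneg (not_lt.1 hw) hsq
      have h2 := mul_nonneg hR0 (hG0 l)
      refine h1.trans (h2.trans (le_of_eq ?_))
      ring
  have h2k : (0 : ℝ) < 2 ^ k := by positivity
  -- the good values
  obtain ⟨M, hM⟩ : ∃ M : ℝ, M = (Pool.Agent.R498.MT.Ab k ((1 / 2) ^ e) *
      2 ^ (2 ^ k * (2 ^ (e + 6) * u))) ^ 2 := ⟨_, rfl⟩
  have hM0 : 0 ≤ M := by rw [hM]; exact sq_nonneg _
  have hl01 : 1 ≤ l0 Jn e := by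
    have := l0_ge (e := e) c.J1
    omega
  have hgood : ∑ l ∈ Ioc (l0 Jn e) lm, PPc A B Jn e W G cl m σ lm l *
      (wt A B (PS Jn W) (rhoP b Jn) l * LL A B Jn e none l ^ 2) ≤
      2 ^ k * M * ∑ l ∈ (Ioc (l0 Jn e) lm).filter (fun l => GoodC A B Jn W G cl m l), hh σ l := by
    rw [sum_filter, mul_sum]
    apply sum_le_sum
    intro l hl
    unfold PPc
    by_cases hg : GoodC A B Jn W G cl m l
    · rw [if_pos ⟨hl, hg⟩, if_pos hg]
      have h1 : wt A B (PS Jn W) (rhoP b Jn) l ≤ 1 := wt_rough hg.2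
      have h2 : LL A B Jn e none l ^ 2 ≤ M := by
        rw [hM]
        apply c.LL_bd l u _ (by
          rw [mem_Ioc] at hl
          omega)
        intro j
        refine le_trans ?_ (hu j)
        have := Nat.mul_le_mul_left (A j) (mem_Ioc.1 hl).2
        omega
      have h3 : wt A B (PS Jn W) (rhoP b Jn) l * LL A B Jn e none l ^ 2 ≤ 1 * M :=
        mul_le_mul h1 h2 (sq_nonneg _) zero_le_one
      have h4 : 0 ≤ 2 ^ k * hh σ l := mul_nonneg h2k.le (hh_nonneg σ l)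
      calc 2 ^ k * hh σ l * (wt A B (PS Jn W) (rhoP b Jn) l * LL A B Jn e none l ^ 2) ≤
          2 ^ k * hh σ l * (1 * M) := mul_le_mul_of_nonneg_left h3 h4
        _ = _ := by ring
    · rw [if_neg (fun h => hg h.2), if_neg hg, zero_mul, mul_zero]
  have hsplit : ∑ l ∈ Ioc (l0 Jn e) lm, (PPf A B Jn e σ lm l + PPc A B Jn e W G cl m σ lm l +
      lam ^ 2 * PPq A B Jn e G cl σ lm l) *
      (wt A B (PS Jn W) (rhoP b Jn) l * LL A B Jn e none l ^ 2) =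
      ∑ l ∈ Ioc (l0 Jn e) lm, PPf A B Jn e σ lm l *
      (wt A B (PS Jn W) (rhoP b Jn) l * LL A B Jn e none l ^ 2) +
      ∑ l ∈ Ioc (l0 Jn e) lm, PPc A B Jn e W G cl m σ lm l *
      (wt A B (PS Jn W) (rhoP b Jn) l * LL A B Jn e none l ^ 2) +
      lam ^ 2 * ∑ l ∈ Ioc (l0 Jn e) lm, PPq A B Jn e G cl σ lm l *
      (wt A B (PS Jn W) (rhoP b Jn) l * LL A B Jn e none l ^ 2) := by
    rw [mul_sum, ← sum_add_distrib, ← sum_add_distrib]
    exact sum_congr rfl fun l _ => by ring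
  rw [hsplit] at htot
  rw [← hM]
  obtain ⟨Sg, hSg⟩ : ∃ Sg : ℝ, Sg = ∑ l ∈ (Ioc (l0 Jn e) lm).filter
    (fun l => GoodC A B Jn W G cl m l), hh σ l := ⟨_, rfl⟩
  rw [← hSg] at hgood ⊢
  have hSg0 : 0 ≤ Sg := by
    rw [hSg]
    exact sum_nonneg fun l _ => hh_nonneg σ l
  have hPP := (mul_le_mul_of_nonneg_left (c.PP_bd hσ lm u hu) h2k.le).trans hT2
  have hU0 := c.S1_up hσ hσ1 (l0 Jn e) le_rfl
  have hUm := c.S1_up hσ hσ1 lm hlm
  have hlow := sum_le_sum (s := G) fun i hi => hS2 i hi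
  rw [sum_const, nsmul_eq_mul] at hlow
  have hVP : 0 ≤ ∑ T' ∈ (PS Jn W).powerset, rhoP b Jn T' * ∏ p ∈ T', gg A B p :=
    c.rmP.pos.le.trans c.rmP.p1
  have hXI0 : 0 ≤ X0 A B Jn e b W σ * II k Jn e := by
    have : 0 ≤ II k Jn e := by linarith
    positivity
  have hQ := c.PPq_bd hσ hσ1 hlv G cl s hs lm hXI0
  have hT1' := mul_le_mul_of_nonneg_right hT1 hVP
  have eX : X0 A B Jn e b W σ = (∑' l, cu (hh σ) (l0 Jn e) l) *
    ∑ T' ∈ (PS Jn W).powerset, rhoP b Jn T' * ∏ p ∈ T', gg A B p := rfl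
  rw [← eX] at hU0
  have e6 : 1 / 2 * (∑' l, cu (hh σ) (l0 Jn e) l) *
      ∑ T' ∈ (PS Jn W).powerset, rhoP b Jn T' * ∏ p ∈ T', gg A B p =
      1 / 2 * X0 A B Jn e b W σ := by rw [eX]; ring
  rw [e6] at hT1'
  have hUm' : 2 ^ k * (2 ^ k * S1s A B Jn e b W σ lm) ≤ 1 / 2 * (X0 A B Jn e b W σ * II k Jn e) := by
    have h1 := mul_le_mul_of_nonneg_left (mul_le_mul_of_nonneg_left hUm h2k.le) h2k.le
    refine h1.trans ?_
    have h2 := mul_le_mul_of_nonneg_right hT1' (show 0 ≤ II k Jn e by linarith)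
    refine le_trans (le_of_eq ?_) (h2.trans (le_of_eq ?_))
    · rw [pow_succ]
      ring
    · ring
  have hXI : X0 A B Jn e b W σ ≤ X0 A B Jn e b W σ * II k Jn e :=
    le_mul_of_one_le_right hX0.le hI1
  obtain ⟨Yy, hYy⟩ : ∃ Yy : ℝ, Yy = X0 A B Jn e b W σ * II k Jn e := ⟨_, rfl⟩
  have hU0' : (m : ℝ) * S1s A B Jn e b W σ (l0 Jn e) ≤ 2 * m * Yy := by
    have h1 := mul_le_mul_of_nonneg_left hU0 (Nat.cast_nonneg m : (0 : ℝ) ≤ m)
    refine h1.trans (le_of_eq ?_)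
    rw [hYy]
    ring
  rw [← hYy] at hlow hQ hUm' hXI hXI0
  have h2k2 : (2 : ℝ) ≤ 2 ^ k := by
    calc (2 : ℝ) = 2 ^ 1 := (pow_one _).symm
      _ ≤ 2 ^ k := pow_le_pow_right₀ (by norm_num) hk1
  have hm2k : ∀ x : ℝ, 2 ^ k * x ≤ 1 / 2 * Yy → x ≤ 1 / 4 * Yy := by
    intro x hx
    by_contra hcon
    push Not at hcon
    have h1 : 0 ≤ 1 / 4 * Yy := by linarith
    have h2 : 2 * x ≤ 2 ^ k * x := mul_le_mul_of_nonneg_right h2k2 (by linarith)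
    linarith
  have hUm2 := hm2k _ hUm'
  have hPP2 := hm2k _ (hPP.trans (by linarith))
  have hlow2 := mul_le_mul_of_nonneg_left hlow hlam0
  have hQ2 := mul_le_mul_of_nonneg_left hQ (sq_nonneg lam)
  have hchain := hlow2.trans htot
  have hΘ : (2 * (m : ℝ) + 1) ≤ (r : ℝ) ^ 2 * G.card / (160 * s * ((k : ℝ) + 1) ^ 2) := by
    rw [le_div_iff₀ (by positivity)]
    have h1 : ((((2 * m + 1) * 160 * s * (k + 1) ^ 2 : ℕ)) : ℝ) ≤ ((r ^ 2 * G.card : ℕ) : ℝ) := by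
      exact_mod_cast hGr
    push_cast at h1
    refine le_trans (le_of_eq ?_) h1
    ring
  have e8 : lam * ((G.card : ℝ) * (2 * (r : ℝ) / 2 ^ k * Yy)) =
      2 * ((r : ℝ) ^ 2 * G.card / (160 * s * ((k : ℝ) + 1) ^ 2)) * Yy := by
    rw [hlam]
    field_simp
  have e9 : lam ^ 2 * (((G.card * s : ℕ) : ℝ) * (160 * (((k : ℝ) + 1) / 2 ^ k) ^ 2 * Yy)) =
      ((r : ℝ) ^ 2 * G.card / (160 * s * ((k : ℝ) + 1) ^ 2)) * Yy := by
    rw [hlam]
    push_cast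
    field_simp
  rw [e8] at hchain
  rw [e9] at hQ2
  have hΘ2 := mul_le_mul_of_nonneg_right hΘ hXI0
  have hfin : Yy ≤ 2 * (2 ^ k * M * Sg) := by linarith
  refine hXI.trans (hfin.trans ?_)
  have h5 : 2 * (2 ^ k * M * Sg) ≤ 2 ^ k * (2 ^ k * M * Sg) :=
    mul_le_mul_of_nonneg_right h2k2 (by positivity)
  refine h5.trans (le_of_eq ?_)
  ring

end

end Run7.h296
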