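import Pool.Agent.Run7.h296.T4
import Pool.Agent.Run7.h296.S3

/-!
The theorem with classes of forms, for systems.
-/

set_option autoImplicit false

open Finset

namespace Run7.h296

open Pool.Agent.R498.MT Pool.Agent.H262R3.Lk Pool.Agent.W505.MH
open Pool.Agent.H318R2.Cr (Rgh V V_pos V_le_one cz_bounds)

theorem lv2_of {E : ℝ} {Jn e b : ℕ} (hE0 : 0 < E) (hE8 : 8 ≤ E * ((2 ^ 2 ^ Jn : ℕ) : ℝ))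
    (hbe : 8 * b + 16 ≤ 2 ^ e) :
    8 * ((2 ^ 2 ^ Jn : ℕ) : ℝ) * (((1 : ℝ) + Jn) *
      (((2 ^ 2 ^ Jn) ^ (4 * b + 6) : ℕ) : ℝ) ^ 2) * ((2 ^ 2 ^ (Jn + e) : ℕ) : ℝ) ^ 2 ≤
        E * (((2 ^ 2 ^ (Jn + e)) ^ 8 : ℕ) : ℝ) := by
  have hTY : ((2 ^ 2 ^ Jn : ℕ) : ℝ) ^ (8 * b + 16) ≤ ((2 ^ 2 ^ (Jn + e) : ℕ) : ℝ) := by
    have h1 : (2 ^ 2 ^ Jn) ^ (8 * b + 16) ≤ 2 ^ 2 ^ (Jn + e) := by
      rw [← T_pow]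
      exact Nat.pow_le_pow_right (by positivity) hbe
    exact_mod_cast h1
  have hJT : (1 : ℝ) + Jn ≤ ((2 ^ 2 ^ Jn : ℕ) : ℝ) := by
    have h1 : 1 + Jn ≤ 2 ^ 2 ^ Jn := by
      have h2 : Jn < 2 ^ Jn := Nat.lt_two_pow_self
      have h3 : 2 ^ Jn < 2 ^ 2 ^ Jn := Nat.lt_two_pow_self
      omega
    exact_mod_cast h1
  have hT1 : (1 : ℝ) ≤ ((2 ^ 2 ^ Jn : ℕ) : ℝ) := by exact_mod_cast Nat.one_le_two_pow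
  have hY1 : (1 : ℝ) ≤ ((2 ^ 2 ^ (Jn + e) : ℕ) : ℝ) := by exact_mod_cast Nat.one_le_two_pow
  push_cast at *
  generalize (2 : ℝ) ^ 2 ^ Jn = T at *
  generalize (2 : ℝ) ^ 2 ^ (Jn + e) = Y at *
  have hT0 : 0 < T := by linarith
  calc 8 * T * ((1 + Jn) * (T ^ (4 * b + 6)) ^ 2) * Y ^ 2 ≤
      (E * T) * T * (T * (T ^ (4 * b + 6)) ^ 2) * Y ^ 2 := by gcongr
    _ = E * T ^ (8 * b + 15) * Y ^ 2 := by ring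
    _ ≤ E * T ^ (8 * b + 16) * Y ^ 2 := by
        apply mul_le_mul_of_nonneg_right _ (by positivity)
        exact mul_le_mul_of_nonneg_left (pow_le_pow_right₀ hT1 (by omega)) hE0.le
    _ ≤ E * Y * Y ^ 2 := by gcongr
    _ = E * Y ^ 3 := by ring
    _ ≤ E * Y ^ 8 :=
        mul_le_mul_of_nonneg_left (pow_le_pow_right₀ hY1 (by norm_num)) hE0.le

open Classical in
/-- **the theorem with classes for systems with fixed parameters** -/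
theorem engine_fixC {c₁ c₂ Ca CN c4 : ℝ} {CR s k b e D₁ K : ℕ} {DR D' Γ C₁ : ℝ} {Gd : ℕ → ℕ → ℕ → Prop}
    (hcz : CZ c₁ c₂) (haj : AJ Ca) (hgp : GP CN) (hc4 : 0 < c4) (hCR1 : 1 ≤ CR) (hDR : 1 ≤ DR)
    (hmass : ∀ (b J z0 : ℕ) (P : Finset ℕ) (g : ℕ → ℝ),
    CR * (2 ^ k + 1) ≤ b → CR * (2 ^ k + 1) ≤ z0 → (∀ p ∈ P, p.Prime ∧ z0 < p ∧ p < 2 ^ 2 ^ J) →
    (∀ p ∈ P, 0 ≤ g p ∧ g p ≤ ((2 ^ k : ℕ) : ℝ) / ((p : ℝ) - 1)) →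
    (∀ p ∈ P, g p ≤ 1 / 2) ∧ 0 < ∏ p ∈ P, (1 - g p) ∧
    ∏ p ∈ P, (1 - g p) ≤ ∑ T ∈ P.powerset, rhoP b J T * ∏ l ∈ T, g l ∧
    ∑ T ∈ P.powerset, rhoP b J T * ∏ l ∈ T, g l ≤ (1 + (1 / 2) ^ b) * ∏ p ∈ P, (1 - g p) ∧
    0 ≤ ∑ T ∈ P.powerset, rhoD b J T * ∏ l ∈ T, g l ∧
    ∑ T ∈ P.powerset, rhoD b J T * ∏ l ∈ T, g l ≤ (1 / 2) ^ b * ∏ p ∈ P, (1 - g p) ∧
    ∑ T ∈ P.powerset, |rhoD b J T| * ∏ l ∈ T, g l ≤ (1 / 2) ^ b * ∏ p ∈ P, (1 + g p) ∧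
    ∀ s ⊆ P, |∑ T ∈ (P \ s).powerset, rhoP b J (s ∪ T) * ∏ l ∈ T, g l| ≤
        2 * DR ^ s.card * ∏ p ∈ P, (1 - g p) ∧
      |∑ T ∈ (P \ s).powerset, rhoD b J (s ∪ T) * ∏ l ∈ T, g l| ≤
        2 * (2 * DR) ^ s.card * ∏ p ∈ P, (1 - g p))
    (hmass1 : ∀ (b J z0 : ℕ) (P : Finset ℕ) (g : ℕ → ℝ),
    CR * (1 + 1) ≤ b → CR * (1 + 1) ≤ z0 → (∀ p ∈ P, p.Prime ∧ z0 < p ∧ p < 2 ^ 2 ^ J) →
    (∀ p ∈ P, 0 ≤ g p ∧ g p ≤ ((1 : ℕ) : ℝ) / ((p : ℝ) - 1)) →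
    (∀ p ∈ P, g p ≤ 1 / 2) ∧ 0 < ∏ p ∈ P, (1 - g p) ∧
    ∏ p ∈ P, (1 - g p) ≤ ∑ T ∈ P.powerset, rhoP b J T * ∏ l ∈ T, g l ∧
    ∑ T ∈ P.powerset, rhoP b J T * ∏ l ∈ T, g l ≤ (1 + (1 / 2) ^ b) * ∏ p ∈ P, (1 - g p) ∧
    0 ≤ ∑ T ∈ P.powerset, rhoD b J T * ∏ l ∈ T, g l ∧
    ∑ T ∈ P.powerset, rhoD b J T * ∏ l ∈ T, g l ≤ (1 / 2) ^ b * ∏ p ∈ P, (1 - g p) ∧
    ∑ T ∈ P.powerset, |rhoD b J T| * ∏ l ∈ T, g l ≤ (1 / 2) ^ b * ∏ p ∈ P, (1 + g p) ∧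
    ∀ s ⊆ P, |∑ T ∈ (P \ s).powerset, rhoP b J (s ∪ T) * ∏ l ∈ T, g l| ≤
        2 * D' ^ s.card * ∏ p ∈ P, (1 - g p) ∧
      |∑ T ∈ (P \ s).powerset, rhoD b J (s ∪ T) * ∏ l ∈ T, g l| ≤
        2 * (2 * D') ^ s.card * ∏ p ∈ P, (1 - g p))
    (m₀ : ℕ) (hk1 : 1 ≤ k)
    (hbase : ∀ z q b : ℕ, 32 ≤ z → 0 < q → q ^ 16 ≤ z → Gd z q b → b.Coprime q →
      c4 / 2 * ((2 : ℝ) ^ s) ^ 12 * (Real.log z) ^ 3 / q.totient ≤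
        Bj z q b 2 (1 / (((2 : ℝ) ^ s) ^ 4 * Real.log z)))
    (hs2 : CR * (1 + 1) ≤ 5 * s) (hs1 : 1 ≤ s) (hb5 : 5 * s ≤ b)
    (hP1 : Ca + ((1 / 2 : ℝ) ^ b + 2 * (1 / 2) ^ (5 * s)) *
        (96 * c₂ * ((2 : ℝ) ^ s) ^ 16) + c₂ * (4 * ((5 * s : ℕ) : ℝ) + 9) ^ 4 ≤
        c4 / 4 * ((2 : ℝ) ^ s) ^ 12)
    (hk : 3 * ((m₀ : ℝ) + 1) * 1474560 ≤ c4 / (393216 * c₂ * ((2 : ℝ) ^ s) ^ 4) * (1 / 2) * k)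
    (hC3 : 7 / c₁ * (96 * c₂ * ((2 : ℝ) ^ s) ^ 16 + Ca) ≤ C₁)
    (hC5 : 64 * (64 * (c₂ / c₁) + 1) ≤ C₁) (hC0 : 0 ≤ C₁)
    (hbR : CR * (2 ^ k + 1) ≤ b) (hee : (1 / 2 : ℝ) ^ e ≤ e0 k C₁ (1 / 2))
    (hbe : 8 * b + 16 ≤ 2 ^ e)
    (hP2 : 7 / c₁ * (96 * c₂ * ((2 : ℝ) ^ s) ^ 16 + Ca) *
      Pool.Agent.R498.MT.Ab k ((1 / 2) ^ e) * (2 * (1 / 2) ^ b) +
      (1 / 2) ^ b * Pool.Agent.R498.MT.Ab k ((1 / 2) ^ e) ≤ 1 / 4 * (1 / 2 ^ k))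
    (hΓa : 2 * DR * (2 * 2 ^ k) ≤ Γ) (hΓb : 48 * (2 ^ k : ℝ) ^ 2 ≤ Γ) (hΓD : Γ ≤ D₁)
    (hP4 : 7 / c₁ * (8 * Pool.Agent.R498.MT.Ab k ((1 / 2) ^ e) * (Γ / D₁) *
      (CN * (((2 : ℝ) ^ s) ^ 4) ^ 8)) ≤ 1 / 8 * (1 / 2 ^ k))
    (hD1 : CR * (2 ^ k + 1) ≤ D₁) (hD2 : 2 * 2 ^ k ≤ D₁) (hD3 : 3 ≤ D₁) (hK1 : 1 ≤ K)
    (hK : (2 ^ k * 2 ^ (k + 1) * (768 * ((2 : ℝ) ^ s) ^ 16) * 800) *
      Real.exp (-(K / (2 * ((2 : ℝ) ^ s) ^ 4))) ≤ 1) :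
    ∃ κ : ℝ, 0 < κ ∧ ∃ J₀ : ℕ, ∀ Jn : ℕ, J₀ ≤ Jn → ∀ (W : ℕ) (A B : Fin (2 ^ k) → ℕ),
      Sys k Jn e W D₁ A B →
      ∀ G : Finset (Fin (2 ^ k)), (∀ i ∈ G, Gd (2 ^ 2 ^ (Jn + e + 6)) (A i) (B i)) →
      ∀ (cl : Fin (2 ^ k) → ℕ) (sz : ℕ), 1 ≤ sz → (∀ c, (G.filter (fun a => cl a = c)).card ≤ sz) →
      ∀ m : ℕ, (2 * m + 1) * 160 * sz * (k + 1) ^ 2 ≤ (m₀ + 1) ^ 2 * G.card →
      (m₀ + 1) * 2 ^ k ≤ 160 * sz * (k + 1) ^ 2 →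
      κ * (Real.log ((2 ^ 2 ^ (Jn + e + 6) : ℕ) : ℝ) * ∏ p ∈ PS Jn W, (1 - gg A B p)) ≤
        ∑ l ∈ (Ioc (l0 Jn e) ((2 ^ 2 ^ (Jn + e + 6)) ^ K)).filter (fun l => GoodC A B Jn W G cl m l),
          (1 : ℝ) / l := by
  classical
  obtain ⟨d, hd⟩ : ∃ d : ℝ, d = (2 : ℝ) ^ s := ⟨_, rfl⟩
  have hd1 : 1 ≤ d := by rw [hd]; exact one_le_pow₀ (by norm_num)
  have hd0 : 0 < d := by linarith
  have hε : (0 : ℝ) < (1 / 2) ^ e := by positivity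
  have hε1 : (1 / 2 : ℝ) ^ e ≤ 1 := pow_le_one₀ (by norm_num) (by norm_num)
  obtain ⟨o1, -, -, -, -⟩ := om_bd k C₁ ((1 / 2) ^ e) hC0 hε hε1
  obtain ⟨E, hE⟩ : ∃ E : ℝ, E = ((1 / 2 : ℝ) ^ e) ^ (16 * (2 ^ k) ^ 2 + 1) := ⟨_, rfl⟩
  have hE0 : 0 < E := by rw [hE]; positivity
  obtain ⟨Cp, hCp⟩ : ∃ Cp : ℝ, Cp = 1600 * 2 ^ k * 2 ^ k * ((K + 1 : ℕ) : ℝ) ^ 4 *
    (Pool.Agent.R498.MT.Ab k ((1 / 2) ^ e) * 2 ^ (2 ^ k * (2 ^ (e + 6) * (K + 1)))) ^ 2 := ⟨_, rfl⟩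
  have ev1 := ev_dat k e C₁ hC0
  have ev2 := ev_VT hcz (2 * 2 ^ k)
  have ev3 := ev_T ((2 : ℝ) ^ (e + 6) * (4 * ((5 * s : ℕ) : ℝ) + 6) * 2 / om k C₁ ((1 / 2) ^ e))
  have ev4 := ev_T (8 / E)
  have ev5 := ev_T ((D₁ : ℝ) + 1)
  have ev6 := ev_T Cp
  obtain ⟨J₀, hJ₀⟩ := Filter.eventually_atTop.1 (((((ev1.and ev2).and ev3).and ev4).and ev5).and ev6)
  obtain ⟨M, hM⟩ : ∃ M : ℝ, M = (Pool.Agent.R498.MT.Ab k ((1 / 2) ^ e) *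
        2 ^ (2 ^ k * (2 ^ (e + 6) * (K + 1)))) ^ 2 := ⟨_, rfl⟩
  have hM0 : 0 ≤ M := by rw [hM]; exact sq_nonneg _
  have hK0 : (0 : ℝ) < K := by exact_mod_cast hK1
  refine ⟨1 / (3200 * (2 ^ k * (2 ^ k * (M + 1))) * (K : ℝ) ^ 3), by positivity,
    max J₀ 1, fun Jn hJn W A B hsys G hq cl sz hsz hcl m hGr hrl => ?_⟩
  obtain ⟨⟨⟨⟨⟨v1, v2⟩, v3⟩, v4⟩, v5⟩, v6⟩ := hJ₀ Jn ((le_max_left _ _).trans hJn)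
  have hJ1 : 1 ≤ Jn := (le_max_right _ _).trans hJn
  have hT0 : (0 : ℝ) < ((2 ^ 2 ^ Jn : ℕ) : ℝ) := by positivity
  have hmu : (2 : ℝ) ^ (e + 6) * (4 * ((5 * s : ℕ) : ℝ) + 6) * (2 / ((2 ^ 2 ^ Jn : ℕ) : ℝ)) ≤
      om k C₁ ((1 / 2) ^ e) := by
    rw [div_le_iff₀ o1] at v3
    rw [mul_div_assoc', div_le_iff₀ hT0]
    linarith
  have hE8 : 8 ≤ E * ((2 ^ 2 ^ Jn : ℕ) : ℝ) := by
    rw [div_le_iff₀ hE0] at v4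
    linarith
  have hDT : D₁ < 2 ^ 2 ^ Jn := by
    have h1 : ((D₁ + 1 : ℕ) : ℝ) ≤ ((2 ^ 2 ^ Jn : ℕ) : ℝ) := by push_cast; push_cast at v5; exact v5
    have h2 : D₁ + 1 ≤ 2 ^ 2 ^ Jn := by exact_mod_cast h1
    omega
  have c := ctx_of (b := b) (b' := 5 * s) (E := E) hCR1 hDR hmass hmass1 hsys hJ1 hC0 hee hE0
    hE.le v1 v2 hmu hD2 hD3 hbe hE8 hbR hs2 hD1 hDT
  have hF := hF_of (Jn := Jn) (e := e) (b := b) hbe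
  have hZ32 := Z32 Jn e
  have hℓ4 := logZ_4 Jn e
  have hθ1 : (1 / 2 : ℝ) ^ b + 2 * (1 / 2) ^ (5 * s) ≤ 1 := by
    have h1 : (1 / 2 : ℝ) ^ (5 * s) ≤ (1 / 2) ^ 5 :=
      pow_le_pow_of_le_one (by norm_num) (by norm_num) (by omega)
    have h2 : (1 / 2 : ℝ) ^ b ≤ (1 / 2) ^ 5 :=
      pow_le_pow_of_le_one (by norm_num) (by norm_num) (by omega)
    norm_num at h1 h2 ⊢
    linarith
  have hS2 : ∀ i ∈ G, 2 * (((m₀ + 1 : ℕ)) : ℝ) / 2 ^ k *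
      (X0 A B Jn e b W (1 / (((2 : ℝ) ^ s) ^ 4 *
        Real.log ((2 ^ 2 ^ (Jn + e + 6) : ℕ) : ℝ))) * II k Jn e) ≤
      A i * S2s A B Jn e b W (1 / (((2 : ℝ) ^ s) ^ 4 *
        Real.log ((2 ^ 2 ^ (Jn + e + 6) : ℕ) : ℝ))) i := by
    intro i hi
    rw [Nat.cast_add m₀ 1, Nat.cast_one]
    exact S2_low hcz haj hgp hc4 (hd ▸ hd1) m₀ c i hΓa hΓb hΓD hF
      (hbase _ _ _ hZ32 (c.A1 i) (c.A16 i) (hq i hi) (hsys.cop i)) hθ1 hP1 hP2 hC3 hP4 hC5 hk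
  rw [← hd] at hS2 hK
  obtain ⟨σ, hσd⟩ : ∃ σ : ℝ, σ = 1 / (d ^ 4 * Real.log ((2 ^ 2 ^ (Jn + e + 6) : ℕ) : ℝ)) :=
    ⟨_, rfl⟩
  rw [← hσd] at hS2
  have hd4 : 1 ≤ d ^ 4 := one_le_pow₀ hd1
  have hℓ0 : 0 < Real.log ((2 ^ 2 ^ (Jn + e + 6) : ℕ) : ℝ) := by linarith
  have hσ : 0 < σ := by rw [hσd]; positivity
  have hσ1 : σ ≤ 1 := by
    rw [hσd, div_le_one (by positivity)]
    nlinarith
  have hl0 := l0_ge (e := e) hJ1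
  have hl0Z : l0 Jn e ≤ 2 ^ 2 ^ (Jn + e + 6) := by
    unfold l0
    rw [Z_eq]
    exact Nat.pow_le_pow_right (by positivity) (by norm_num)
  have hlm : l0 Jn e ≤ (2 ^ 2 ^ (Jn + e + 6)) ^ K :=
    hl0Z.trans (Nat.le_self_pow (by omega) _)
  have hHlow := hh_lower (A := d ^ 4) hd4 hZ32 (show 1 ≤ l0 Jn e by omega) hl0Z (logZ_l0 Jn e) hℓ4
  rw [← hσd] at hHlow
  have hVP := c.VP
  have hV0 := c.rmP.pos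
  have hVp := c.rmP.p1
  have hH0 : 0 < ∑' l, cu (hh σ) (l0 Jn e) l := by
    refine lt_of_lt_of_le ?_ hHlow
    positivity
  have hX0l : (Real.log ((2 ^ 2 ^ (Jn + e + 6) : ℕ) : ℝ)) ^ 4 / 400 *
      (1 / ((2 ^ 2 ^ Jn : ℕ) : ℝ)) ≤ X0 A B Jn e b W σ := by
    unfold X0
    exact mul_le_mul hHlow (hVP.trans hVp) (by positivity) hH0.le
  have hX0 : 0 < X0 A B Jn e b W σ := by
    refine lt_of_lt_of_le ?_ hX0l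
    positivity
  have hlv : 8 * ((2 ^ 2 ^ Jn : ℕ) : ℝ) * (((1 : ℝ) + Jn) *
      (((2 ^ 2 ^ Jn) ^ (4 * b + 6) : ℕ) : ℝ) ^ 2) * ((2 ^ 2 ^ (Jn + e) : ℕ) : ℝ) ^ 2 ≤
        E * (((2 ^ 2 ^ (Jn + e)) ^ 8 : ℕ) : ℝ) := lv2_of hE0 hE8 hbe
  have hcore := c.coreC hσ hσ1 hlv hk1 G cl sz hsz hcl (m₀ + 1) m ((2 ^ 2 ^ (Jn + e + 6)) ^ K)
    (K + 1) hlm hGr hrl hS2 ?_ hX0
    ?_ ?_
  · rw [← hM] at hcore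
    obtain ⟨Sg, hSg⟩ : ∃ Sg : ℝ, Sg = ∑ l ∈ (Ioc (l0 Jn e) ((2 ^ 2 ^ (Jn + e + 6)) ^ K)).filter
      (fun l => GoodC A B Jn W G cl m l), (1 : ℝ) / l := ⟨_, rfl⟩
    rw [← hSg]
    have hSg0 : 0 ≤ Sg := by
      rw [hSg]
      exact sum_nonneg fun _ _ => by positivity
    have hup : ∑ l ∈ (Ioc (l0 Jn e) ((2 ^ 2 ^ (Jn + e + 6)) ^ K)).filter
        (fun l => GoodC A B Jn W G cl m l), hh σ l ≤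
        8 * ((K : ℝ) * Real.log ((2 ^ 2 ^ (Jn + e + 6) : ℕ) : ℝ)) ^ 3 * Sg := by
      rw [hSg, mul_sum]
      apply sum_le_sum
      intro l hl
      have hl2 := mem_Ioc.1 (mem_filter.1 hl).1
      have hl1 : 1 ≤ l := by omega
      have hlr : (0 : ℝ) < l := by exact_mod_cast hl1
      have hlr1 : (1 : ℝ) ≤ l := by exact_mod_cast hl1
      have hlog : Real.log l ≤ K * Real.log ((2 ^ 2 ^ (Jn + e + 6) : ℕ) : ℝ) := by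
        have h1 : Real.log l ≤ Real.log (((2 ^ 2 ^ (Jn + e + 6) : ℕ) : ℝ) ^ K) := by
          apply Real.log_le_log hlr
          exact_mod_cast hl2.2
        rwa [Real.log_pow] at h1
      have hlog0 : 0 ≤ Real.log l := Real.log_natCast_nonneg l
      have h2 : Real.log l ^ 3 ≤ (K * Real.log ((2 ^ 2 ^ (Jn + e + 6) : ℕ) : ℝ)) ^ 3 :=
        pow_le_pow_left₀ hlog0 hlog 3
      have h3 : (l : ℝ) ≤ (l : ℝ) ^ (1 + σ) := by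
        calc (l : ℝ) = (l : ℝ) ^ (1 : ℝ) := (Real.rpow_one _).symm
          _ ≤ _ := Real.rpow_le_rpow_of_exponent_le hlr1 (by linarith)
      unfold hh fn
      calc 8 * (Real.log l ^ 3 / (l : ℝ) ^ (1 + σ)) ≤
          8 * ((K * Real.log ((2 ^ 2 ^ (Jn + e + 6) : ℕ) : ℝ)) ^ 3 / (l : ℝ)) := by
            apply mul_le_mul_of_nonneg_left _ (by norm_num)
            exact div_le_div₀ (by positivity) h2 hlr h3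
        _ = _ := by ring
    have hX0' : (Real.log ((2 ^ 2 ^ (Jn + e + 6) : ℕ) : ℝ)) ^ 4 / 400 *
        ∏ p ∈ PS Jn W, (1 - gg A B p) ≤ X0 A B Jn e b W σ := by
      unfold X0
      exact mul_le_mul hHlow hVp hV0.le hH0.le
    have hMM : 2 ^ k * (2 ^ k * M) ≤ 2 ^ k * (2 ^ k * (M + 1)) := by
      gcongr
      linarith
    have hfin := (hX0'.trans hcore).trans (mul_le_mul hMM hup (sum_nonneg fun l _ => hh_nonneg σ l)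
      (by positivity))
    obtain ⟨Pi, hPi⟩ : ∃ Pi : ℝ, Pi = ∏ p ∈ PS Jn W, (1 - gg A B p) := ⟨_, rfl⟩
    rw [← hPi] at hfin ⊢
    obtain ⟨Cm, hCm⟩ : ∃ Cm : ℝ, Cm = 2 ^ k * (2 ^ k * (M + 1)) := ⟨_, rfl⟩
    have hCm0 : 0 < Cm := by rw [hCm]; positivity
    rw [← hCm] at hfin ⊢
    generalize Real.log ((2 ^ 2 ^ (Jn + e + 6) : ℕ) : ℝ) = ℓ at *
    have hℓ3 : 0 < ℓ ^ 3 := by positivity
    rw [one_div, inv_mul_le_iff₀ (by positivity)]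
    have h5 : ℓ ^ 3 * (ℓ * Pi) ≤ ℓ ^ 3 * (3200 * Cm * (K : ℝ) ^ 3 * Sg) := by
      calc ℓ ^ 3 * (ℓ * Pi) = 400 * (ℓ ^ 4 / 400 * Pi) := by ring
        _ ≤ 400 * (Cm * (8 * (K * ℓ) ^ 3 * Sg)) := by linarith
        _ = _ := by ring
    exact le_of_mul_le_mul_left h5 hℓ3
  · intro j
    have h1 := c.BA j
    have h2 := (c.AT j).trans (TY Jn e)
    have h3 : 2 ^ 2 ^ (Jn + e) * 2 ≤ 2 ^ 2 ^ (Jn + e + 6) := by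
      rw [Z_eq]
      have h4 : 2 ≤ 2 ^ 2 ^ (Jn + e) := two_le_pp _
      generalize 2 ^ 2 ^ (Jn + e) = y at *
      calc y * 2 ≤ y * y := Nat.mul_le_mul_left _ h4
        _ = y ^ 2 := by ring
        _ ≤ y ^ 64 := Nat.pow_le_pow_right (by omega) (by norm_num)
    have h5 : 1 ≤ (2 ^ 2 ^ (Jn + e + 6)) ^ K := Nat.one_le_pow _ _ (by positivity)
    rw [pow_succ (2 ^ 2 ^ (Jn + e + 6)) K]
    generalize (2 ^ 2 ^ (Jn + e + 6)) ^ K = w at *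
    generalize 2 ^ 2 ^ (Jn + e + 6) = z at *
    generalize 2 ^ 2 ^ (Jn + e) = y at *
    calc B j + A j * w ≤ y * w + y * w := by
          apply add_le_add
          · nlinarith
          · exact Nat.mul_le_mul_right _ h2
      _ = w * (y * 2) := by ring
      _ ≤ w * z := Nat.mul_le_mul_left _ h3
  · have h1 := hh_tail hσ (show 1 ≤ (2 ^ 2 ^ (Jn + e + 6)) ^ K by
      exact Nat.one_le_pow _ _ (by positivity))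
    have h2 := lm_rpow (Jn := Jn) (e := e) (K := K) hd0
    rw [← hσd] at h2
    rw [h2] at h1
    have h3 : 768 / σ ^ 4 = 768 * d ^ 16 * (Real.log ((2 ^ 2 ^ (Jn + e + 6) : ℕ) : ℝ)) ^ 4 := by
      rw [hσd]
      field_simp
    rw [h3] at h1
    generalize Real.log ((2 ^ 2 ^ (Jn + e + 6) : ℕ) : ℝ) = ℓ at *
    have h4 : 0 ≤ ℓ ^ 4 := by positivity
    calc 2 ^ k * (2 ^ (k + 1) * (∑' l, cu (hh σ) ((2 ^ 2 ^ (Jn + e + 6)) ^ K) l)) ≤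
        2 ^ k * (2 ^ (k + 1) * (768 * d ^ 16 * ℓ ^ 4 * Real.exp (-(K / (2 * d ^ 4))))) :=
          mul_le_mul_of_nonneg_left (mul_le_mul_of_nonneg_left h1 (by positivity)) (by positivity)
      _ = ((2 ^ k * 2 ^ (k + 1) * (768 * d ^ 16) * 800) * Real.exp (-(K / (2 * d ^ 4)))) *
          (ℓ ^ 4 / 800) := by ring
      _ ≤ 1 * (ℓ ^ 4 / 800) := mul_le_mul_of_nonneg_right hK (by positivity)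
      _ = 1 / 2 * (ℓ ^ 4 / 400) := by ring
      _ ≤ _ := by linarith
  · refine le_trans ?_ (mul_le_mul_of_nonneg_left hX0l (by norm_num : (0 : ℝ) ≤ 1 / 2))
    have hTY : ((2 ^ 2 ^ Jn : ℕ) : ℝ) ^ (8 * b + 16) ≤ ((2 ^ 2 ^ (Jn + e) : ℕ) : ℝ) := by
      have h1 : (2 ^ 2 ^ Jn) ^ (8 * b + 16) ≤ 2 ^ 2 ^ (Jn + e) := by
        rw [← T_pow]
        exact Nat.pow_le_pow_right (by positivity) hbe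
      exact_mod_cast h1
    have hZ : ((2 ^ 2 ^ (Jn + e + 6) : ℕ) : ℝ) = ((2 ^ 2 ^ (Jn + e) : ℕ) : ℝ) ^ 64 := by
      rw [Z_eq]
      push_cast
      rfl
    have hT1 : (1 : ℝ) ≤ ((2 ^ 2 ^ Jn : ℕ) : ℝ) := by exact_mod_cast Nat.one_le_two_pow
    have hY1 : (1 : ℝ) ≤ ((2 ^ 2 ^ (Jn + e) : ℕ) : ℝ) := by exact_mod_cast Nat.one_le_two_pow
    have hZ0 : (0 : ℝ) < ((2 ^ 2 ^ (Jn + e + 6) : ℕ) : ℝ) := by positivity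
    rw [hCp] at v6
    rw [Nat.cast_pow (2 ^ 2 ^ Jn) (4 * b + 6)]
    have hAA : 0 ≤ (Pool.Agent.R498.MT.Ab k ((1 / 2) ^ e) *
        2 ^ (2 ^ k * (2 ^ (e + 6) * (K + 1)))) ^ 2 := sq_nonneg _
    have hbound : 1600 * (2 : ℝ) ^ k * 2 ^ k * ((K + 1 : ℕ) : ℝ) ^ 4 *
        (Pool.Agent.R498.MT.Ab k ((1 / 2) ^ e) * 2 ^ (2 ^ k * (2 ^ (e + 6) * (K + 1)))) ^ 2 *
        ((2 ^ 2 ^ Jn : ℕ) : ℝ) ^ (8 * b + 14) ≤ ((2 ^ 2 ^ (Jn + e + 6) : ℕ) : ℝ) := by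
      rw [hZ]
      calc _ ≤ ((2 ^ 2 ^ Jn : ℕ) : ℝ) * ((2 ^ 2 ^ Jn : ℕ) : ℝ) ^ (8 * b + 14) :=
            mul_le_mul_of_nonneg_right v6 (by positivity)
        _ = ((2 ^ 2 ^ Jn : ℕ) : ℝ) ^ (8 * b + 15) := by ring
        _ ≤ ((2 ^ 2 ^ Jn : ℕ) : ℝ) ^ (8 * b + 16) := pow_le_pow_right₀ hT1 (by omega)
        _ ≤ ((2 ^ 2 ^ (Jn + e) : ℕ) : ℝ) := hTY
        _ ≤ ((2 ^ 2 ^ (Jn + e) : ℕ) : ℝ) ^ 64 := le_self_pow₀ hY1 (by norm_num)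
    have hℓ1 : 1 ≤ Real.log ((2 ^ 2 ^ (Jn + e + 6) : ℕ) : ℝ) := by linarith
    generalize (Pool.Agent.R498.MT.Ab k ((1 / 2) ^ e) *
        2 ^ (2 ^ k * (2 ^ (e + 6) * (K + 1)))) ^ 2 = G₁ at *
    generalize Real.log ((2 ^ 2 ^ (Jn + e + 6) : ℕ) : ℝ) = ℓ at *
    generalize ((2 ^ 2 ^ (Jn + e + 6) : ℕ) : ℝ) = Z at *
    generalize ((2 ^ 2 ^ Jn : ℕ) : ℝ) = T at *
    generalize ((K + 1 : ℕ) : ℝ) = u at *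
    have h1 : 2 ^ k * (2 ^ k * T * (2 * u ^ 4 * ℓ ^ 3 / Z) * ((T ^ (4 * b + 6)) ^ 2 * G₁)) =
        (1600 * 2 ^ k * 2 ^ k * u ^ 4 * G₁ * T ^ (8 * b + 14)) * (ℓ ^ 3 / (800 * Z * T)) := by
      field_simp
      ring
    rw [h1]
    calc (1600 * 2 ^ k * 2 ^ k * u ^ 4 * G₁ * T ^ (8 * b + 14)) * (ℓ ^ 3 / (800 * Z * T)) ≤
        Z * (ℓ ^ 3 / (800 * Z * T)) := mul_le_mul_of_nonneg_right hbound (by positivity)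
      _ = 1 / 2 * (ℓ ^ 3 / 400 * (1 / T)) := by
          field_simp
          norm_num
      _ ≤ 1 / 2 * (ℓ ^ 4 / 400 * (1 / T)) := by
          have h2 : ℓ ^ 3 ≤ ℓ ^ 4 := pow_le_pow_right₀ hℓ1 (by norm_num)
          gcongr


open Classical in
/-- **the theorem with classes for systems** -/
theorem engineC : ∃ (C₀ : ℕ) (q₁ : ℕ → ℕ) (χ₁ : ∀ z : ℕ, DirichletCharacter ℂ (q₁ z)), 1 ≤ C₀ ∧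
    (∀ B : ℕ, ∃ z0 : ℕ, ∀ z : ℕ, z0 ≤ z → (Real.log z) ^ B < (q₁ z : ℝ)) ∧
    (∀ z, 1 < q₁ z ∧ (∀ p : ℕ, p.Prime → p ≠ 2 → ¬ p ^ 2 ∣ q₁ z) ∧ ¬ 16 ∣ q₁ z) ∧
    (∀ z, (χ₁ z) ^ 2 = 1 ∧ (χ₁ z).IsPrimitive) ∧
    ∀ m₀ k : ℕ, C₀ * (m₀ + 1) ≤ k → ∃ (e D₁ K : ℕ) (κ : ℝ), 1 ≤ K ∧ 0 < κ ∧ ∃ J₀ : ℕ,
      ∀ Jn : ℕ, J₀ ≤ Jn → ∀ (W : ℕ) (A B : Fin (2 ^ k) → ℕ), Sys k Jn e W D₁ A B →
      ∀ G : Finset (Fin (2 ^ k)),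
      (∀ i ∈ G, q₁ (2 ^ 2 ^ (Jn + e + 6)) ∣ A i →
        χ₁ (2 ^ 2 ^ (Jn + e + 6)) ((B i : ℕ) : ZMod (q₁ (2 ^ 2 ^ (Jn + e + 6)))) = -1) →
      ∀ (cl : Fin (2 ^ k) → ℕ) (sz : ℕ), 1 ≤ sz → (∀ c, (G.filter (fun a => cl a = c)).card ≤ sz) →
      ∀ m : ℕ, (2 * m + 1) * 160 * sz * (k + 1) ^ 2 ≤ (m₀ + 1) ^ 2 * G.card →
      (m₀ + 1) * 2 ^ k ≤ 160 * sz * (k + 1) ^ 2 →
      κ * (Real.log ((2 ^ 2 ^ (Jn + e + 6) : ℕ) : ℝ) * ∏ p ∈ PS Jn W, (1 - gg A B p)) ≤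
        ∑ l ∈ (Ioc (l0 Jn e) ((2 ^ 2 ^ (Jn + e + 6)) ^ K)).filter (fun l => GoodC A B Jn W G cl m l),
          (1 : ℝ) / l := by
  obtain ⟨c₁, c₂, hc₁, hc₁₂, hczb⟩ := cz_bounds
  have hcz : CZ c₁ c₂ := ⟨hc₁, hc₁₂, hczb⟩
  obtain ⟨Ca, hCa, hajb⟩ := aj_main
  have haj : AJ Ca := ⟨hCa, hajb⟩
  obtain ⟨CN, hCN, hgpb⟩ := gPart
  have hgp : GP CN := ⟨hCN, fun {k Jn e b b' W D₁ C₁ E D A B} => hgpb⟩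
  obtain ⟨c4, D0, hc4, hD0, hpage⟩ := page_ch
  obtain ⟨CR, hCR1, hRM⟩ := rho_mass
  have hc₂ : 0 < c₂ := lt_of_lt_of_le hc₁ hc₁₂
  obtain ⟨s, hsD, hs2, hs1, hP1⟩ := choose_s (D0 := D0) hCa.le hc₂.le hc4 CR
  obtain ⟨q₁, χ₁, hq1, hq2, hq3, hbase⟩ := hpage ((2 : ℝ) ^ s) hsD
  have hd0 : (0 : ℝ) < 2 ^ s := by positivity
  obtain ⟨C₀, hC₀⟩ := exists_nat_ge
    (max 1 (3 * 1474560 * (393216 * c₂ * ((2 : ℝ) ^ s) ^ 4) * 2 / c4))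
  refine ⟨C₀, q₁, χ₁, by exact_mod_cast (le_max_left _ _).trans hC₀, hq1, hq2, hq3,
    fun m k hkd => ?_⟩
  have hk : 3 * ((m : ℝ) + 1) * 1474560 ≤ c4 / (393216 * c₂ * ((2 : ℝ) ^ s) ^ 4) * (1 / 2) * k := by
    have h1 : 3 * 1474560 * (393216 * c₂ * ((2 : ℝ) ^ s) ^ 4) * 2 / c4 ≤ C₀ :=
      (le_max_right _ _).trans hC₀
    rw [div_le_iff₀ hc4] at h1
    have h2 : (3 * 1474560 : ℝ) ≤ c4 / (393216 * c₂ * ((2 : ℝ) ^ s) ^ 4) * (1 / 2) * C₀ := by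
      rw [div_mul_eq_mul_div, div_mul_eq_mul_div, le_div_iff₀ (by positivity)]
      linarith
    have hm0 : (0 : ℝ) ≤ (m : ℝ) + 1 := by positivity
    have h3 := mul_le_mul_of_nonneg_right h2 hm0
    have h4 : (C₀ : ℝ) * (m + 1) ≤ k := by exact_mod_cast hkd
    have h5 : 0 ≤ c4 / (393216 * c₂ * ((2 : ℝ) ^ s) ^ 4) * (1 / 2) := by positivity
    have h6 := mul_le_mul_of_nonneg_left h4 h5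
    refine le_trans (le_of_eq ?_) (h3.trans ((le_of_eq ?_).trans h6)) <;> ring
  have hk1 : 1 ≤ k := by
    have h1 : 1 ≤ C₀ := by
      have : (1 : ℝ) ≤ C₀ := (le_max_left _ _).trans hC₀
      exact_mod_cast this
    exact (Nat.mul_pos h1 (Nat.succ_pos m)).trans_le hkd
  obtain ⟨DR, hDR, hmass⟩ := hRM (2 ^ k)
  obtain ⟨D', hD', hmass1⟩ := hRM 1
  obtain ⟨C₁, hC₁⟩ : ∃ C₁ : ℝ, C₁ = max (7 / c₁ * (96 * c₂ * ((2 : ℝ) ^ s) ^ 16 + Ca))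
    (64 * (64 * (c₂ / c₁) + 1)) := ⟨_, rfl⟩
  have hC3 : 7 / c₁ * (96 * c₂ * ((2 : ℝ) ^ s) ^ 16 + Ca) ≤ C₁ := by
    rw [hC₁]; exact le_max_left _ _
  have hC5 : 64 * (64 * (c₂ / c₁) + 1) ≤ C₁ := by rw [hC₁]; exact le_max_right _ _
  have hC0 : 0 ≤ C₁ := by
    refine le_trans ?_ hC5
    positivity
  obtain ⟨M₀, hM₀⟩ : ∃ M₀ : ℝ, M₀ = (14 / c₁ * (96 * c₂ * ((2 : ℝ) ^ s) ^ 16 + Ca) + 1) *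
    (4 * 2 ^ k) := ⟨_, rfl⟩
  obtain ⟨e, b, he1, hee, hbb, hbe, hPb⟩ := choose_eb k M₀ (e0 k C₁ (1 / 2))
    (e0_pos k C₁ (1 / 2) hC0 (by norm_num)) (max (5 * s) (CR * (2 ^ k + 1)))
  have hb5 : 5 * s ≤ b := (le_max_left _ _).trans hbb
  have hbR : CR * (2 ^ k + 1) ≤ b := (le_max_right _ _).trans hbb
  have hP2 : 7 / c₁ * (96 * c₂ * ((2 : ℝ) ^ s) ^ 16 + Ca) *
      Pool.Agent.R498.MT.Ab k ((1 / 2) ^ e) * (2 * (1 / 2) ^ b) +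
      (1 / 2) ^ b * Pool.Agent.R498.MT.Ab k ((1 / 2) ^ e) ≤ 1 / 4 * (1 / 2 ^ k) := by
    rw [hM₀] at hPb
    have h2k : (0 : ℝ) < 4 * 2 ^ k := by positivity
    have h1 : 1 / 4 * (1 / (2 : ℝ) ^ k) = 1 / (4 * 2 ^ k) := by field_simp
    rw [h1, le_div_iff₀ h2k]
    refine le_trans (le_of_eq ?_) hPb
    ring
  obtain ⟨Γ, hΓ⟩ : ∃ Γ : ℝ, Γ = max (2 * DR * (2 * 2 ^ k)) (48 * (2 ^ k : ℝ) ^ 2) := ⟨_, rfl⟩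
  have hΓa : 2 * DR * (2 * 2 ^ k) ≤ Γ := by rw [hΓ]; exact le_max_left _ _
  have hΓb : 48 * (2 ^ k : ℝ) ^ 2 ≤ Γ := by rw [hΓ]; exact le_max_right _ _
  have hΓ0 : 0 ≤ Γ := by
    refine le_trans ?_ hΓb
    positivity
  have hAb0 : 0 ≤ Pool.Agent.R498.MT.Ab k ((1 / 2) ^ e) := by
    have := Ab_one k ((1 / 2) ^ e) (by positivity) (pow_le_one₀ (by norm_num) (by norm_num))
    linarith
  obtain ⟨v, hv⟩ : ∃ v : ℝ, v = 7 / c₁ * (8 * Pool.Agent.R498.MT.Ab k ((1 / 2) ^ e) * Γ *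
      (CN * (((2 : ℝ) ^ s) ^ 4) ^ 8)) * (8 * 2 ^ k) := ⟨_, rfl⟩
  obtain ⟨n₁, hn₁⟩ := exists_nat_ge (max Γ v)
  obtain ⟨D₁, hD₁⟩ : ∃ D₁ : ℕ, D₁ = max (max n₁ (CR * (2 ^ k + 1))) (max (2 * 2 ^ k) 3) := ⟨_, rfl⟩
  have hn1D : n₁ ≤ D₁ := by rw [hD₁]; exact (le_max_left _ _).trans (le_max_left _ _)
  have hD1 : CR * (2 ^ k + 1) ≤ D₁ := by rw [hD₁]; exact (le_max_right _ _).trans (le_max_left _ _)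
  have hD2 : 2 * 2 ^ k ≤ D₁ := by rw [hD₁]; exact (le_max_left _ _).trans (le_max_right _ _)
  have hD3 : 3 ≤ D₁ := by rw [hD₁]; exact (le_max_right _ _).trans (le_max_right _ _)
  have hn1D' : (n₁ : ℝ) ≤ D₁ := by exact_mod_cast hn1D
  have hΓD : Γ ≤ D₁ := ((le_max_left _ _).trans hn₁).trans hn1D'
  have hvD : v ≤ D₁ := ((le_max_right _ _).trans hn₁).trans hn1D'
  have hD10 : (0 : ℝ) < D₁ := by exact_mod_cast (by omega : 0 < D₁)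
  have hP4 : 7 / c₁ * (8 * Pool.Agent.R498.MT.Ab k ((1 / 2) ^ e) * (Γ / D₁) *
      (CN * (((2 : ℝ) ^ s) ^ 4) ^ 8)) ≤ 1 / 8 * (1 / 2 ^ k) := by
    have h1 : 7 / c₁ * (8 * Pool.Agent.R498.MT.Ab k ((1 / 2) ^ e) * (Γ / D₁) *
      (CN * (((2 : ℝ) ^ s) ^ 4) ^ 8)) = v / D₁ * (1 / 8 * (1 / 2 ^ k)) := by
      rw [hv]
      field_simp
    rw [h1]
    apply mul_le_of_le_one_left (by positivity)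
    rw [div_le_one hD10]
    exact hvD
  obtain ⟨K, hK1, hK⟩ := choose_K (2 ^ k * 2 ^ (k + 1) * (768 * ((2 : ℝ) ^ s) ^ 16) * 800)
    (2 * ((2 : ℝ) ^ s) ^ 4) (by positivity)
  obtain ⟨κ, hκ, J₀, hJ₀⟩ := engine_fixC (c₁ := c₁) (c₂ := c₂) (D' := D')
    (Gd := fun z q b => q₁ z ∣ q → χ₁ z ((b : ℕ) : ZMod (q₁ z)) = -1) hcz haj hgp hc4 hCR1 hDR hmass hmass1 m hk1 hbase
    hs2 hs1 hb5 (hP1 b hb5) hk hC3 hC5 hC0 hbR hee hbe hP2 hΓa hΓb hΓD hP4 hD1 hD2 hD3 hK1 hK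
  exact ⟨e, D₁, K, κ, hK1, hκ, J₀, hJ₀⟩


end Run7.h296
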