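import Pool.Agent.Run7.h296.S9
import Pool.Agent.Run7.h296.T5

/-!
Arithmetic progressions of integers at which the primes among the values of the forms meet many classes.
-/

set_option autoImplicit false

open Finset

namespace Run7.h296

open Run7.h296.SL (FF Adm dvd_FF sysP_FF lin_ap)
open Pool.Agent.Y677.RSZ (rt V)
open Pool.Agent.R498.MT Pool.Agent.H262R3.Lk Pool.Agent.W505.MH

/-- the integers at which the forms are rough and primes in many of the classes -/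
def Gd2C {s k : ℕ} (a b : Fin s → ℕ) (α β : Fin (2 ^ k) → ℕ) (Jn W : ℕ) (G : Finset (Fin s))
    (cl : Fin s → ℕ) (m ν l : ℕ) : Prop :=
  (∀ t, ∀ p ∈ PS Jn W, ¬ p ∣ α t * ν + β t + α t * W * l) ∧
    m < ((G.filter (fun i => (a i * (ν + W * l) + b i).Prime)).image cl).card

open Classical in
/-- **the assembly** -/
theorem ap_assemblyC (k ℓ e K : ℕ) (κ : ℝ) (hκ : 0 < κ) (hK : 1 ≤ K) : ∃ C J₀ : ℕ,
    ∀ Jn : ℕ, J₀ ≤ Jn → ∀ (W s : ℕ) (a b : Fin s → ℕ) (α β : Fin (2 ^ k) → ℕ)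
    (ι : Fin s ↪ Fin (2 ^ k)), (∀ i, α (ι i) = a i ∧ β (ι i) = b i) →
    (∀ t, 1 ≤ β t ∧ β t < α t) → Adm α β → Squarefree W →
    (∀ p : ℕ, p.Prime → p ∣ W → p < 2 ^ 2 ^ Jn) → (∀ t, α t * W ≤ 2 ^ 2 ^ Jn) →
    ∀ (G : Finset (Fin s)) (cl : Fin s → ℕ) (m : ℕ) (N' : Finset ℕ), N' ⊆ NuS α β W → N'.Nonempty →
    (NuS α β W).card ≤ 4 * N'.card →
    (∀ ν ∈ N', κ * (Real.log ((2 ^ 2 ^ (Jn + e + 6) : ℕ) : ℝ) *
      ∏ p ∈ PS Jn W, (1 - (rt (FF α β) p : ℝ) / p)) ≤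
      ∑ l ∈ (Ioc (l0 Jn e) ((2 ^ 2 ^ (Jn + e + 6)) ^ K)).filter
        (fun l => Gd2C a b α β Jn W G cl m ν l), (1 : ℝ) / l) →
    ∃ (n d : ℕ) (U : Finset (Fin s)), n ≤ (2 ^ 2 ^ (Jn + e + 6)) ^ (K + 1) ∧ 1 ≤ d ∧
      (d : ℝ) ≤ Real.log ((2 ^ 2 ^ (Jn + e + 6) : ℕ) : ℝ) ^ C ∧ U ⊆ G ∧ m < (U.image cl).card ∧
      ∀ j < ℓ, (∀ i ∈ U, (a i * (n + j * d) + b i).Prime) ∧
        ∀ i, ∀ p : ℕ, p.Prime → p ∣ a i * (n + j * d) + b i → 2 ^ 2 ^ Jn ≤ p := by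
  have hK0 : (0 : ℝ) < K := by exact_mod_cast hK
  obtain ⟨δ, hδ⟩ : ∃ δ : ℝ, δ = 1 / (2 * 2 ^ (e + 6) * ((K : ℝ) + 1)) := ⟨_, rfl⟩
  have hδ0 : 0 < δ := by rw [hδ]; positivity
  obtain ⟨κ₂, hκ₂⟩ : ∃ κ₂ : ℝ, κ₂ = κ / (16 * K * 2 ^ 2 ^ k) := ⟨_, rfl⟩
  have hκ₂0 : 0 < κ₂ := by rw [hκ₂]; positivity
  obtain ⟨B, H₀, hAP⟩ := lin_ap (2 ^ k) (ℓ + 1) δ κ₂ hδ0 hκ₂0
  refine ⟨2 * B, H₀ + 2 * K + 3, ?_⟩
  intro Jn hJn W s a b α β ι hαβ hβα hadm hWsq hWT hαT G cl m N' hN'sub hN'ne hN'4 hgood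
  have hsys := sysP_FF hadm le_rfl
  have hW0 : 0 < W := Nat.pos_of_ne_zero hWsq.ne_zero
  obtain ⟨T, hT⟩ : ∃ T : ℕ, T = 2 ^ 2 ^ Jn := ⟨_, rfl⟩
  obtain ⟨Z, hZ⟩ : ∃ Z : ℕ, Z = 2 ^ 2 ^ (Jn + e + 6) := ⟨_, rfl⟩
  obtain ⟨Y₀, hY₀⟩ : ∃ Y₀ : ℕ, Y₀ = 2 ^ 2 ^ (Jn + e) := ⟨_, rfl⟩
  have hZY : Z = Y₀ ^ 64 := by rw [hZ, hY₀, Z_eq]
  have hl0Y : l0 Jn e = Y₀ ^ 8 := by rw [hY₀]; rfl
  have hTY₀ : T ≤ Y₀ := by rw [hT, hY₀]; exact TY Jn e
  have hT2 : 2 ≤ T := by rw [hT]; exact two_le_pp Jn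
  have hY₀2 : 2 ≤ Y₀ := hT2.trans hTY₀
  have hJnT : Jn ≤ T := by rw [hT]; exact le_of_lt (by have := Jn_T Jn; omega)
  rw [← hT] at hWT hαT ⊢
  rw [← hZ] at hgood ⊢
  have hZT : Z = T ^ (2 ^ (e + 6)) := by
    rw [hZ, hT, ← pow_mul]
    congr 1
    rw [← pow_add]
    congr 1
  have hZ2 : 2 ≤ Z := by
    rw [hZ]
    exact two_le_pp _
  have hWT' : W ≤ T := by
    have h1 := hαT ⟨0, by positivity⟩
    have h2 := hβα ⟨0, by positivity⟩
    refine le_trans ?_ h1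
    exact Nat.le_mul_of_pos_left _ (by omega)
  -- the product
  obtain ⟨Pi, hPi⟩ : ∃ Pi : ℝ, Pi = ∏ p ∈ PS Jn W, (1 - (rt (FF α β) p : ℝ) / p) := ⟨_, rfl⟩
  rw [← hPi] at hgood
  have hPi0 : 0 < Pi := by
    rw [hPi]
    apply prod_pos
    intro p hp
    exact Pool.Agent.K3h89.SZ.fac_posP hsys (mem_PS.1 hp).1
  obtain ⟨f, hf⟩ : ∃ f : ℕ → ℝ, f = fun l =>
    ((N'.filter (fun ν => Gd2C a b α β Jn W G cl m ν l)).card : ℝ) := ⟨_, rfl⟩
  have hf0 : ∀ l, 0 ≤ f l := fun l => by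
    rw [hf]
    exact Nat.cast_nonneg _
  obtain ⟨I, hI⟩ : ∃ I : ℕ, I = 2 ^ (Jn + e + 6) * K := ⟨_, rfl⟩
  have hI1 : 1 ≤ I := by
    rw [hI]
    exact Nat.mul_pos (by positivity) (by omega)
  have h2I : 2 ^ I = Z ^ K := by rw [hI, hZ, ← pow_mul]
  have hl01 : 1 ≤ l0 Jn e := by
    rw [hl0Y]
    exact Nat.one_le_pow _ _ (by omega)
  have hsum : (N'.card : ℝ) * (κ * (Real.log (Z : ℝ) * Pi)) ≤
      ∑ l ∈ Ioc (l0 Jn e) (2 ^ I * l0 Jn e), f l / l := by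
    have h1 : ∑ ν ∈ N', κ * (Real.log (Z : ℝ) * Pi) ≤ ∑ ν ∈ N',
        ∑ l ∈ (Ioc (l0 Jn e) (Z ^ K)).filter (fun l => Gd2C a b α β Jn W G cl m ν l), (1 : ℝ) / l :=
      sum_le_sum hgood
    rw [sum_const, nsmul_eq_mul] at h1
    refine h1.trans ?_
    have h2 : ∑ ν ∈ N', ∑ l ∈ (Ioc (l0 Jn e) (Z ^ K)).filter
        (fun l => Gd2C a b α β Jn W G cl m ν l), (1 : ℝ) / l =
        ∑ l ∈ Ioc (l0 Jn e) (Z ^ K), f l / l := by
      simp_rw [sum_filter]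
      rw [sum_comm]
      apply sum_congr rfl
      intro l _
      rw [← sum_filter, sum_const, nsmul_eq_mul, hf, mul_one_div]
    rw [h2]
    apply sum_le_sum_of_subset_of_nonneg
    · apply Ioc_subset_Ioc_right
      rw [h2I]
      exact Nat.le_mul_of_pos_right _ (by omega)
    · intro l _ _
      exact div_nonneg (hf0 l) (Nat.cast_nonneg _)
  obtain ⟨i₁, hi₁, hX⟩ := dyadic f hf0 (l0 Jn e) I hl01 hI1 _ hsum
  obtain ⟨X, hXd⟩ : ∃ X : ℕ, X = 2 ^ i₁ * l0 Jn e := ⟨_, rfl⟩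
  rw [← hXd] at hX
  have hlX : l0 Jn e ≤ X := by
    rw [hXd]
    exact Nat.le_mul_of_pos_left _ (by positivity)
  have hX1 : 1 ≤ X := hl01.trans hlX
  have hXI : 2 * X ≤ Z ^ K * l0 Jn e := by
    rw [hXd, ← h2I]
    calc 2 * (2 ^ i₁ * l0 Jn e) = 2 ^ (i₁ + 1) * l0 Jn e := by ring
      _ ≤ 2 ^ I * l0 Jn e := Nat.mul_le_mul_right _ (Nat.pow_le_pow_right (by norm_num) hi₁)
  have hTX : T ≤ X := by
    refine hTY₀.trans (le_trans ?_ hlX)
    rw [hl0Y]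
    exact Nat.le_self_pow (by norm_num) _
  obtain ⟨H, hHd⟩ : ∃ H : ℕ, H = 2 * (W * X) := ⟨_, rfl⟩
  obtain ⟨Y, hYd⟩ : ∃ Y : ℕ, Y = W * X := ⟨_, rfl⟩
  have hWX1 : X ≤ W * X := Nat.le_mul_of_pos_left _ hW0
  have hXH : X ≤ H := by rw [hHd]; omega
  have hYH : Y ≤ H := by rw [hYd, hHd]; omega
  have hTH : T ≤ H := hTX.trans hXH
  -- the upper bound of the range
  have hYHZ : Y + H ≤ Z ^ (K + 1) := by
    have h1 : Y + H = 3 * (W * X) := by rw [hYd, hHd]; ring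
    have h2 : 2 * (W * X) ≤ Y₀ * (Z ^ K * Y₀ ^ 8) := by
      calc 2 * (W * X) = W * (2 * X) := by ring
        _ ≤ Y₀ * (Z ^ K * Y₀ ^ 8) := by
          rw [← hl0Y]
          exact Nat.mul_le_mul (hWT'.trans hTY₀) hXI
    have h3 : 2 ≤ Y₀ ^ 1 := by rw [pow_one]; exact hY₀2
    calc Y + H ≤ 2 * (2 * (W * X)) := by rw [h1]; omega
      _ ≤ Y₀ ^ 1 * (Y₀ * (Z ^ K * Y₀ ^ 8)) := Nat.mul_le_mul h3 h2
      _ = Z ^ K * Y₀ ^ 10 := by ring
      _ ≤ Z ^ K * Y₀ ^ 64 := Nat.mul_le_mul_left _ (Nat.pow_le_pow_right (by omega) (by norm_num))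
      _ = Z ^ (K + 1) := by rw [← hZY, pow_succ]
  have hHZ : H ≤ Z ^ (K + 1) := (Nat.le_add_left _ _).trans hYHZ
  -- the set
  obtain ⟨pat, hpat⟩ : ∃ pat : ℕ → Finset (Fin s), pat = fun n =>
    G.filter (fun i => (a i * n + b i).Prime) := ⟨_, rfl⟩
  obtain ⟨𝒜, h𝒜⟩ : ∃ 𝒜 : Finset ℕ, 𝒜 = (Ioc Y (Y + H)).filter (fun n =>
    (∀ t, ∀ p : ℕ, p.Prime → p < T → ¬ p ∣ α t * n + β t) ∧ m < ((pat n).image cl).card) := ⟨_, rfl⟩
  have hcard𝒜 : ∑ l ∈ Ioc X (2 * X), f l ≤ (𝒜.card : ℝ) := by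
    rw [hf]
    have h1 : ∑ l ∈ Ioc X (2 * X), (N'.filter (fun ν => Gd2C a b α β Jn W G cl m ν l)).card =
        ((Ioc X (2 * X)).sigma (fun l => N'.filter (fun ν => Gd2C a b α β Jn W G cl m ν l))).card := by
      rw [card_sigma]
    have h2 : ((Ioc X (2 * X)).sigma
        (fun l => N'.filter (fun ν => Gd2C a b α β Jn W G cl m ν l))).card ≤ 𝒜.card := by
      apply card_le_card_of_injOn (fun x : (_ : ℕ) × ℕ => x.2 + W * x.1)
      · rintro ⟨l, ν⟩ hx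
        rw [mem_coe, mem_sigma, mem_filter, mem_Ioc] at hx
        obtain ⟨⟨hl1, hl2⟩, hν, hg1, hg2⟩ := hx
        simp only at hl1 hl2 hν hg1 hg2
        obtain ⟨hνW, hνc⟩ := mem_NuS.1 (hN'sub hν)
        rw [mem_coe, h𝒜, mem_filter, mem_Ioc]
        refine ⟨⟨?_, ?_⟩, ?_, ?_⟩
        · show Y < ν + W * l
          rw [hYd]
          calc W * X < W * l := Nat.mul_lt_mul_of_pos_left hl1 hW0
            _ ≤ ν + W * l := Nat.le_add_left _ _
        · show ν + W * l ≤ Y + H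
          rw [hYd, hHd]
          have h3 : W * l ≤ W * (2 * X) := Nat.mul_le_mul_left _ hl2
          have h4 : W * 1 ≤ W * X := Nat.mul_le_mul_left _ hX1
          have h5 : W * (2 * X) = 2 * (W * X) := by ring
          omega
        · intro t p hp hpT hd
          have e1 : α t * (ν + W * l) + β t = α t * ν + β t + α t * W * l := by ring
          rw [e1] at hd
          by_cases hpW : p ∣ W
          · have h3 : p ∣ α t * ν + β t := by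
              have h4 : p ∣ α t * W * l := (hpW.mul_left _).mul_right _
              exact (Nat.dvd_add_left h4).1 hd
            have h4 := Nat.dvd_gcd h3 hpW
            rw [hνc t] at h4
            exact hp.one_lt.ne' (Nat.dvd_one.1 h4)
          · exact hg1 t p (mem_PS.2 ⟨hp, by rw [← hT]; exact hpT, hpW⟩) hd
        · rw [hpat]
          exact hg2
      · rintro ⟨l, ν⟩ hx ⟨l', ν'⟩ hx' hxx
        rw [mem_coe, mem_sigma, mem_filter] at hx hx'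
        have hν := (mem_NuS.1 (hN'sub hx.2.1)).1
        have hν' := (mem_NuS.1 (hN'sub hx'.2.1)).1
        simp only at hν hν' hxx
        have h3 : l = l' := by
          have h4 : (ν + W * l) / W = l := by
            rw [Nat.add_mul_div_left _ _ hW0, Nat.div_eq_of_lt hν, zero_add]
          have h5 : (ν' + W * l') / W = l' := by
            rw [Nat.add_mul_div_left _ _ hW0, Nat.div_eq_of_lt hν', zero_add]
          rw [← h4, ← h5, hxx]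
        subst h3
        have h4 : ν = ν' := by omega
        subst h4
        rfl
    have h3 : ∑ l ∈ Ioc X (2 * X), (N'.filter (fun ν => Gd2C a b α β Jn W G cl m ν l)).card ≤ 𝒜.card := by
      rw [h1]
      exact h2
    simp only
    exact_mod_cast h3
  -- the pattern
  have hmaps : ∀ n ∈ 𝒜, pat n ∈ G.powerset := by
    intro n _
    rw [mem_powerset, hpat]
    exact filter_subset _ _
  have hpc : (G.powerset.card : ℝ) ≤ 2 ^ 2 ^ k := by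
    rw [card_powerset]
    push_cast
    apply pow_le_pow_right₀ (by norm_num)
    have h1 : G.card ≤ s := by
      have := card_le_univ G
      rwa [Fintype.card_fin] at this
    have h2 : s ≤ 2 ^ k := by
      have := Fintype.card_le_of_embedding ι
      rwa [Fintype.card_fin, Fintype.card_fin] at this
    omega
  obtain ⟨U, hU, hUc⟩ := exists_le_card_fiber_of_nsmul_le_card_of_maps_to
    (s := 𝒜) (t := G.powerset) (f := pat) (b := (𝒜.card : ℝ) / 2 ^ 2 ^ k) hmaps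
    ⟨∅, empty_mem_powerset _⟩ (by
      rw [nsmul_eq_mul]
      calc (G.powerset.card : ℝ) * ((𝒜.card : ℝ) / 2 ^ 2 ^ k) ≤
          2 ^ 2 ^ k * ((𝒜.card : ℝ) / 2 ^ 2 ^ k) :=
            mul_le_mul_of_nonneg_right hpc (by positivity)
        _ = 𝒜.card := by field_simp)
  -- the density
  have hVle := V_le' (Jn := Jn) (H := H) α β hadm hW0.ne' (by rw [← hT]; exact hWT) (by rw [← hT]; exact hTH)
  have hNuc := card_NuS α β hadm hWsq
  obtain ⟨Pw, hPw⟩ : ∃ Pw : ℝ, Pw = ∏ p ∈ W.primeFactors, (1 - (rt (FF α β) p : ℝ) / p) := ⟨_, rfl⟩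
  rw [← hPw, ← hPi] at hVle
  rw [← hPw] at hNuc
  have hPw0 : 0 < Pw := by
    rw [hPw]
    apply prod_pos
    intro p hp
    exact Pool.Agent.K3h89.SZ.fac_posP hsys (Nat.prime_of_mem_primeFactors hp)
  have hWr : (0 : ℝ) < W := by exact_mod_cast hW0
  have hXr : (0 : ℝ) < X := by exact_mod_cast hX1
  have hlogZ : Real.log (Z : ℝ) = 2 ^ (Jn + e + 6) * Real.log 2 := by
    rw [hZ]
    push_cast
    rw [Real.log_pow]
    push_cast
    ring
  have hdens : κ₂ * (H * V (FF α β) 1 H) ≤ ((𝒜.filter (fun n => pat n = U)).card : ℝ) := by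
    refine le_trans ?_ hUc
    have h1 : (W : ℝ) * Pw ≤ 4 * N'.card := by
      rw [← hNuc]
      exact_mod_cast hN'4
    have h2 := hX.trans hcard𝒜
    have h3 : (N'.card : ℝ) * (κ * (Real.log (Z : ℝ) * Pi)) / I * X =
        N'.card * κ * Pi * X * (Real.log 2 / K) := by
      rw [hlogZ, hI]
      push_cast
      field_simp
    rw [h3] at h2
    have hl2 : (1 : ℝ) / 2 ≤ Real.log 2 := by
      have := Real.log_two_gt_d9
      linarith
    have h4 : (N'.card : ℝ) * κ * Pi * X * (1 / 2 / K) ≤ 𝒜.card := by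
      refine le_trans ?_ h2
      apply mul_le_mul_of_nonneg_left _ (by positivity)
      exact div_le_div_of_nonneg_right hl2 hK0.le
    have h5 : (W : ℝ) * Pw / 4 * κ * Pi * X * (1 / 2 / K) ≤ 𝒜.card := by
      refine le_trans ?_ h4
      have h6 : (W : ℝ) * Pw / 4 ≤ N'.card := by linarith
      gcongr
    have h6 : κ₂ * (H * V (FF α β) 1 H) ≤ κ₂ * (H * (Pw * Pi)) := by gcongr
    refine h6.trans ?_
    have h7 : κ₂ * (H * (Pw * Pi)) = ((W : ℝ) * Pw / 4 * κ * Pi * X * (1 / 2 / K)) / 2 ^ 2 ^ k := by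
      rw [hκ₂, hHd]
      push_cast
      field_simp
      norm_num
    rw [h7]
    gcongr
  -- the progression
  obtain ⟨n, d, hd1, hd2, hnd⟩ := hAP α β Y H (𝒜.filter (fun n => pat n = U)) hβα hadm
    (fun t => by
      refine le_trans ?_ ((hαT t).trans hTH)
      exact Nat.le_mul_of_pos_right _ hW0) hYH
    (by
      have h1 : H₀ ≤ T := by omega
      exact h1.trans hTH)
    (by
      refine (filter_subset _ _).trans ?_
      rw [h𝒜]
      exact filter_subset _ _)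
    (by
      intro x hx t p hp hpH
      rw [mem_filter, h𝒜, mem_filter] at hx
      apply hx.1.2.1 t p hp
      have hTr : (1 : ℝ) < T := by exact_mod_cast (by omega : 1 < T)
      have hTr0 : (0 : ℝ) < T := by linarith
      have h1 : (H : ℝ) ≤ (T : ℝ) ^ (((2 ^ (e + 6) * (K + 1) : ℕ)) : ℝ) := by
        rw [Real.rpow_natCast, pow_mul]
        have h2 : H ≤ (T ^ (2 ^ (e + 6))) ^ (K + 1) := by
          rw [← hZT]
          exact hHZ
        exact_mod_cast h2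
      have h2 : (H : ℝ) ^ δ ≤ (T : ℝ) ^ ((1 : ℝ) / 2) := by
        calc (H : ℝ) ^ δ ≤ ((T : ℝ) ^ (((2 ^ (e + 6) * (K + 1) : ℕ)) : ℝ)) ^ δ :=
              Real.rpow_le_rpow (Nat.cast_nonneg _) h1 hδ0.le
          _ = (T : ℝ) ^ ((1 : ℝ) / 2) := by
              rw [← Real.rpow_mul hTr0.le]
              congr 1
              rw [hδ]
              push_cast
              field_simp
      have h3 : (T : ℝ) ^ ((1 : ℝ) / 2) < T := by
        calc (T : ℝ) ^ ((1 : ℝ) / 2) < (T : ℝ) ^ (1 : ℝ) :=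
              Real.rpow_lt_rpow_of_exponent_lt hTr (by norm_num)
          _ = T := Real.rpow_one _
      have h4 : (p : ℝ) < T := by linarith
      exact_mod_cast h4)
    hdens
  have hmem : ∀ j < ℓ + 1, n + j * d ∈ Ioc Y (Y + H) ∧
      (∀ t, ∀ p : ℕ, p.Prime → p < T → ¬ p ∣ α t * (n + j * d) + β t) ∧
      m < ((pat (n + j * d)).image cl).card ∧ pat (n + j * d) = U := by
    intro j hj
    have h1 := hnd j hj
    rw [mem_filter, h𝒜, mem_filter] at h1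
    exact ⟨h1.1.1, h1.1.2.1, h1.1.2.2, h1.2⟩
  have h0 := hmem 0 (by omega)
  rw [zero_mul, add_zero] at h0
  refine ⟨n, d, U, ?_, hd1, ?_, mem_powerset.1 hU, ?_, ?_⟩
  · exact (mem_Ioc.1 h0.1).2.trans hYHZ
  · refine hd2.trans ?_
    have hH0 : (0 : ℝ) < H := by exact_mod_cast (by omega : 0 < H)
    have h1 : Real.log H ≤ ((K : ℝ) + 1) * Real.log Z := by
      have h2 : Real.log H ≤ Real.log ((Z : ℝ) ^ (K + 1)) := by
        apply Real.log_le_log hH0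
        exact_mod_cast hHZ
      rw [Real.log_pow] at h2
      push_cast at h2
      exact h2
    have h2 : (K : ℝ) + 1 ≤ Real.log Z := by
      have h3 := log_pp (Jn + e + 6)
      rw [← hZ] at h3
      have h4 : (Jn : ℝ) ≤ 2 ^ (Jn + e + 6) := by
        have h5 : Jn ≤ 2 ^ (Jn + e + 6) :=
          (Nat.lt_two_pow_self.le).trans (Nat.pow_le_pow_right (by norm_num) (by omega))
        exact_mod_cast h5
      have h5 : (2 * K + 3 : ℝ) ≤ Jn := by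
        have h6 : 2 * K + 3 ≤ Jn := by omega
        exact_mod_cast h6
      linarith
    have h3 : 0 ≤ Real.log H := Real.log_natCast_nonneg H
    have h4 : 0 ≤ Real.log Z := Real.log_natCast_nonneg Z
    rw [pow_mul]
    apply pow_le_pow_left₀ h3
    calc Real.log H ≤ ((K : ℝ) + 1) * Real.log Z := h1
      _ ≤ Real.log Z * Real.log Z := mul_le_mul_of_nonneg_right h2 h4
      _ = Real.log Z ^ 2 := by ring
  · rw [← h0.2.2.2]
    exact h0.2.2.1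
  · intro j hj
    obtain ⟨h1, h2, h3, h4⟩ := hmem j (by omega)
    constructor
    · intro i hi
      rw [← h4, hpat, mem_filter] at hi
      exact hi.2
    · intro i p hp hpd
      by_contra hcon
      apply h2 (ι i) p hp (by omega)
      rw [(hαβ i).1, (hαβ i).2]
      exact hpd

open Classical in
/-- **progressions at which many forms are prime and the others are free of small primes** -/
theorem engAPC : ∃ (C₀ : ℕ) (q₁ : ℕ → ℕ) (χ₁ : ∀ z : ℕ, DirichletCharacter ℂ (q₁ z)), 1 ≤ C₀ ∧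
    (∀ B : ℕ, ∃ z0 : ℕ, ∀ z : ℕ, z0 ≤ z → (Real.log z) ^ B < (q₁ z : ℝ)) ∧
    (∀ z, 1 < q₁ z ∧ (∀ p : ℕ, p.Prime → p ≠ 2 → ¬ p ^ 2 ∣ q₁ z) ∧ ¬ 16 ∣ q₁ z) ∧
    (∀ z, (χ₁ z) ^ 2 = 1 ∧ (χ₁ z).IsPrimitive) ∧
    ∀ m₀ k ℓ : ℕ, C₀ * (m₀ + 1) ≤ k → ∃ e D₁ K C J₀ : ℕ, ∀ Jn : ℕ, J₀ ≤ Jn →
      ∀ (D₂ P s : ℕ) (a b : Fin s → ℕ), D₁ ≤ D₂ → 2 ^ k ≤ D₂ → 2 ^ k ≤ WW D₂ P → 2 ≤ D₂ →
      D₂.factorial ^ 8 ≤ 2 ^ 2 ^ Jn → P ≠ 0 → P ^ 12 ≤ 2 ^ 2 ^ Jn → D₂ < 2 ^ 2 ^ Jn → s ≤ 2 ^ k →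
      (∀ i, 1 ≤ b i ∧ b i < a i) → Function.Injective (fun i => (a i, b i)) → Adm a b →
      (∀ i, a i ∣ P) → ∀ (G : Finset (Fin s)) (cl : Fin s → ℕ) (sz : ℕ), 1 ≤ sz →
      (∀ c, (G.filter (fun i => cl i = c)).card ≤ sz) →
      (m₀ + 1) * 2 ^ k ≤ 160 * sz * (k + 1) ^ 2 → ∀ m : ℕ,
      (NuS a b (WW D₂ P)).card ≤ 4 * ((NuS a b (WW D₂ P)).filter (fun ν =>
        (2 * m + 1) * 160 * sz * (k + 1) ^ 2 ≤ (m₀ + 1) ^ 2 * (G.filter (fun i => q₁ (2 ^ 2 ^ (Jn + e + 6)) ∣ a i * WW D₂ P →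
          χ₁ (2 ^ 2 ^ (Jn + e + 6)) ((a i * ν + b i : ℕ) :
            ZMod (q₁ (2 ^ 2 ^ (Jn + e + 6)))) = -1)).card)).card →
      ∃ (n d : ℕ) (U : Finset (Fin s)), n ≤ (2 ^ 2 ^ (Jn + e + 6)) ^ (K + 1) ∧ 1 ≤ d ∧
        (d : ℝ) ≤ Real.log ((2 ^ 2 ^ (Jn + e + 6) : ℕ) : ℝ) ^ C ∧ U ⊆ G ∧ m < (U.image cl).card ∧
        ∀ j < ℓ, (∀ i ∈ U, (a i * (n + j * d) + b i).Prime) ∧
          ∀ i, ∀ p : ℕ, p.Prime → p ∣ a i * (n + j * d) + b i → 2 ^ 2 ^ Jn ≤ p := by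
  obtain ⟨C₀, q₁, χ₁, hC₀, hq1, hq2, hq3, heng⟩ := engineC
  refine ⟨C₀, q₁, χ₁, hC₀, hq1, hq2, hq3, ?_⟩
  intro m₀ k ℓ hk
  obtain ⟨e, D₁, K, κ, hK, hκ, J₁, hJ₁⟩ := heng m₀ k hk
  obtain ⟨C, J₂, hasm⟩ := ap_assemblyC k ℓ e K κ hκ hK
  refine ⟨e, D₁, K, C, J₁ + J₂, ?_⟩
  intro Jn hJn D₂ P s a b hDD hkD hkW hD2 hT1 hP0 hT2 hDT hsk hab hinj hadm haP G cl sz hsz0 hszc hk2 m hN
  obtain ⟨ι⟩ : Nonempty (Fin s ↪ Fin (2 ^ k)) := by
    apply Function.Embedding.nonempty_of_card_le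
    rw [Fintype.card_fin, Fintype.card_fin]
    exact hsk
  obtain ⟨α, β, hαβ, hβα, hadmα, hαle, hNu, hsys⟩ := redA a b hab hinj hadm hP0 haP ι hkD hkW hD2
  have hsys' := hsys Jn e D₁ hDD hT1 hT2 hDT
  obtain ⟨W, hW⟩ : ∃ W : ℕ, W = WW D₂ P := ⟨_, rfl⟩
  have hWsq : Squarefree W := by
    rw [hW]
    exact WW_squarefree hP0
  have hPT : P < 2 ^ 2 ^ Jn := by
    rcases Nat.lt_or_ge P 2 with h | h
    · exact lt_of_lt_of_le h (two_le_pp Jn)
    · calc P < P ^ 12 := by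
            have : P ^ 1 < P ^ 12 := Nat.pow_lt_pow_right (by omega) (by norm_num)
            rwa [pow_one] at this
        _ ≤ _ := hT2
  have hWT : ∀ p : ℕ, p.Prime → p ∣ W → p < 2 ^ 2 ^ Jn := by
    intro p hp hpW
    rw [hW] at hpW
    rcases (prime_dvd_WW hP0 hp).1 hpW with h | h
    · omega
    · exact lt_of_le_of_lt (Nat.le_of_dvd (Nat.pos_of_ne_zero hP0) h) hPT
  obtain ⟨ν₀, hν₀⟩ := NuS_nonempty (D₁ := D₂) hP0 a b hadm
  have hν₀' : ν₀ ∈ NuS α β (WW D₂ P) := by rw [← hNu]; exact hν₀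
  have hαT : ∀ t, α t * W ≤ 2 ^ 2 ^ Jn := fun t => by
    rw [hW]
    exact (hsys' ν₀ hν₀').AT t
  rw [← hW] at hsys' hNu hN hν₀
  obtain ⟨N', hN'⟩ : ∃ N' : Finset ℕ, N' = (NuS a b W).filter (fun ν =>
        (2 * m + 1) * 160 * sz * (k + 1) ^ 2 ≤ (m₀ + 1) ^ 2 * (G.filter (fun i => q₁ (2 ^ 2 ^ (Jn + e + 6)) ∣ a i * W →
          χ₁ (2 ^ 2 ^ (Jn + e + 6)) ((a i * ν + b i : ℕ) :
            ZMod (q₁ (2 ^ 2 ^ (Jn + e + 6)))) = -1)).card) := ⟨_, rfl⟩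
  rw [← hN'] at hN
  have hNpos : 0 < (NuS a b W).card := card_pos.2 ⟨ν₀, hν₀⟩
  apply hasm Jn (by omega) W s a b α β ι hαβ hβα hadmα hWsq hWT hαT G cl m N'
  · rw [← hNu, hN']
    exact filter_subset _ _
  · rw [← card_pos]
    omega
  · rw [← hNu]
    exact hN
  · intro ν hν
    rw [hN', mem_filter] at hν
    obtain ⟨hν1, hν2⟩ := hν
    obtain ⟨Hν, hHν⟩ : ∃ Hν : Finset (Fin s), Hν =
      G.filter (fun i => q₁ (2 ^ 2 ^ (Jn + e + 6)) ∣ a i * W →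
          χ₁ (2 ^ 2 ^ (Jn + e + 6)) ((a i * ν + b i : ℕ) :
            ZMod (q₁ (2 ^ 2 ^ (Jn + e + 6)))) = -1) := ⟨_, rfl⟩
    rw [← hHν] at hν2
    have h1 := hJ₁ Jn (by omega) W (fun t => α t * W) (fun t => α t * ν + β t)
      (hsys' ν (by rw [← hNu]; exact hν1)) (Hν.map ι) (by
        intro x hx hdiv
        rw [mem_map] at hx
        obtain ⟨i, hi, rfl⟩ := hx
        rw [hHν, mem_filter] at hi
        simp only [(hαβ i).1] at hdiv
        simp only [(hαβ i).1, (hαβ i).2]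
        exact hi.2 hdiv) (Function.extend ι cl 0) sz hsz0 (by
          intro c
          refine le_trans ?_ (hszc c)
          rw [filter_map, card_map]
          apply card_le_card
          intro i hi
          rw [mem_filter] at hi ⊢
          refine ⟨(mem_filter.1 (hHν ▸ hi.1)).1, ?_⟩
          have h3 := hi.2
          rw [Function.comp_apply, ι.injective.extend_apply] at h3
          exact h3) m (by rw [card_map]; exact hν2) hk2
    have h2 : ∏ p ∈ PS Jn W, (1 - gg (fun t : Fin (2 ^ k) => α t * W)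
        (fun t : Fin (2 ^ k) => α t * ν + β t) p) =
        ∏ p ∈ PS Jn W, (1 - (rt (FF α β) p : ℝ) / p) := by
      apply prod_congr rfl
      intro p hp
      rw [gg_eq α β hadmα (mem_PS.1 hp).1 (mem_PS.1 hp).2.2]
    rw [h2] at h1
    refine h1.trans ?_
    apply sum_le_sum_of_subset_of_nonneg
    · intro l hl
      rw [mem_filter] at hl ⊢
      refine ⟨hl.1, hl.2.2, ?_⟩
      refine lt_of_lt_of_le hl.2.1 ?_
      apply card_le_card
      intro c hc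
      rw [mem_image] at hc ⊢
      obtain ⟨x, hx, hxc⟩ := hc
      rw [mem_filter, mem_map] at hx
      obtain ⟨⟨i, hi, hix⟩, hxp⟩ := hx
      refine ⟨i, ?_, ?_⟩
      · rw [mem_filter]
        refine ⟨(mem_filter.1 (hHν ▸ hi)).1, ?_⟩
        rw [← hix] at hxp
        simp only [(hαβ i).1, (hαβ i).2] at hxp
        have e1 : a i * (ν + W * l) + b i = a i * ν + b i + a i * W * l := by ring
        rw [e1]
        exact hxp
      · rw [← hix, ι.injective.extend_apply] at hxc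
        exact hxc
    · intro l _ _
      positivity

end Run7.h296
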