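import Pool.Agent.Run7.h296.T6
import Pool.Agent.Run7.h296.S10

/-!
Arithmetic progressions at which primes are found in a positive proportion of the classes of forms.
-/

set_option autoImplicit false

open Finset

namespace Run7.h296

open Run7.h296.SL (FF Adm dvd_FF sysP_FF lin_ap)

theorem cls_half {R k : ℕ} (hR : 1 ≤ R) (hRk : R ≤ 2 ^ k) : 2 ^ k ≤ 2 * (R * (2 ^ k / R)) := by
  have h1 : 1 ≤ 2 ^ k / R := (Nat.one_le_div_iff (by omega)).2 hRk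
  have h2 := Nat.div_add_mod (2 ^ k) R
  have h3 := Nat.mod_lt (2 ^ k) (show 0 < R by omega)
  have h4 : R * 1 ≤ R * (2 ^ k / R) := Nat.mul_le_mul_left _ h1
  omega

open Classical in
/-- **Progressions with primes in a positive proportion of the classes** -/
theorem main_col : ∃ (C₀ C₁ : ℕ) (Q : ℕ → ℕ) (χ : ∀ i : ℕ, DirichletCharacter ℂ (Q i)), 1 ≤ C₀ ∧
    1 ≤ C₁ ∧ (∀ i, 1 < Q i ∧ (∀ p : ℕ, p.Prime → p ≠ 2 → ¬ p ^ 2 ∣ Q i) ∧ ¬ 16 ∣ Q i) ∧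
    (∀ i, (χ i) ^ 2 = 1 ∧ (χ i).IsPrimitive) ∧
    (∀ B : ℕ, ∀ᶠ i in Filter.atTop, 2 ^ (B * i) ≤ Q i) ∧
    ∀ R B ℓ : ℕ, 1 ≤ R → ∃ (A C D D₂ : ℕ) (γ : ℝ), 0 < γ ∧ 0 < D ∧ 8 * D₂.factorial ∣ D ∧ 2 ≤ D₂ ∧
    ∀ (cl : Fin (R * (2 ^ (C₀ * R) / R)) → ℕ) (G : Finset (Fin (R * (2 ^ (C₀ * R) / R)))),
    (∀ c, (G.filter (fun i => cl i = c)).card ≤ 2 ^ (C₀ * R) / R) →
    ∀ (a b : Fin (R * (2 ^ (C₀ * R) / R)) → ℕ) (P : ℕ), (∀ i, 1 ≤ b i ∧ b i < a i) →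
    Function.Injective (fun i => (a i, b i)) →
    (∀ p : ℕ, p.Prime → ∃ n : ℤ, ∀ i, ¬ (p : ℤ) ∣ a i * n + b i) → (∀ i, a i ∣ P) →
    ∀ j : ℕ, 2 ^ 2 ^ j ≤ P → P < 2 ^ 2 ^ (j + 1) →
    (∀ i ∈ G, (∃ p : ℕ, p.Prime ∧ p ∣ Q (j + D) ∧ D₂ < p ∧ ¬ p ∣ a i) ∨
      (Q (j + D) ∣ a i ∧ χ (j + D) ((b i : ℕ) : ZMod (Q (j + D))) = -1)) →
    ∀ m : ℕ, C₁ * (m + 1) * (2 ^ (C₀ * R) / R) ≤ G.card →
    ∃ (n d : ℕ) (U : Finset (Fin (R * (2 ^ (C₀ * R) / R)))), (n : ℝ) ≤ γ * (P : ℝ) ^ A ∧ 1 ≤ d ∧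
      (d : ℝ) ≤ γ * Real.log P ^ C ∧ U ⊆ G ∧ m < (U.image cl).card ∧
      ∀ h < ℓ, (∀ i ∈ U, (a i * (n + h * d) + b i).Prime) ∧
        ∀ i, ∀ p : ℕ, p.Prime → p ∣ a i * (n + h * d) + b i → P ^ B < p := by
  obtain ⟨C₀, q₁, χ₁, hC₀, hq1, hq2, hq3, heng⟩ := engAPC
  have hl2 := Real.log_two_gt_d9
  have hl2' : 0 < Real.log 2 := by linarith
  have hgrow : ∀ B : ℕ, ∀ᶠ i in Filter.atTop, 2 ^ (B * i) ≤ q₁ (2 ^ 2 ^ i) := by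
    intro B
    obtain ⟨z0, hz0⟩ := hq1 (B + 1)
    filter_upwards [Filter.eventually_ge_atTop (max z0 (B + 1))] with i hi
    have hi1 : z0 ≤ i := (le_max_left _ _).trans hi
    have hi2 : B + 1 ≤ i := (le_max_right _ _).trans hi
    have h1 := hz0 (2 ^ 2 ^ i) (hi1.trans (le_pp i))
    have h2 : ((2 : ℝ) ^ i / 2) ^ (B + 1) < (q₁ (2 ^ 2 ^ i) : ℝ) :=
      lt_of_le_of_lt (pow_le_pow_left₀ (by positivity) (log_pp i) _) h1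
    have h3 : (2 : ℝ) ^ (B * i) ≤ ((2 : ℝ) ^ i / 2) ^ (B + 1) := by
      rw [div_pow, le_div_iff₀ (by positivity), ← pow_mul, ← pow_add]
      apply pow_le_pow_right₀ (by norm_num)
      nlinarith
    have h4 : ((2 ^ (B * i) : ℕ) : ℝ) < (q₁ (2 ^ 2 ^ i) : ℝ) := by
      push_cast
      linarith
    exact_mod_cast h4.le
  refine ⟨C₀, 6400 * C₀ ^ 2, fun i => q₁ (2 ^ 2 ^ i), fun i => χ₁ (2 ^ 2 ^ i), hC₀, by nlinarith,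
    fun i => hq2 _, fun i => hq3 _, hgrow, ?_⟩
  intro R B ℓ hR
  obtain ⟨k, hk⟩ : ∃ k : ℕ, k = C₀ * R := ⟨_, rfl⟩
  rw [← hk]
  obtain ⟨m₀, hm₀⟩ : ∃ m₀ : ℕ, m₀ + 1 = R := ⟨R - 1, by omega⟩
  have hRk : R ≤ k := by rw [hk]; exact Nat.le_mul_of_pos_left _ (by omega)
  have hR2 : R ≤ 2 ^ k := hRk.trans Nat.lt_two_pow_self.le
  obtain ⟨S, hS⟩ : ∃ S : ℕ, S = 2 ^ k / R := ⟨_, rfl⟩
  have hS1 : 1 ≤ S := by rw [hS]; exact (Nat.one_le_div_iff (by omega)).2 hR2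
  have hhalf : 2 ^ k ≤ 2 * (R * S) := by rw [hS]; exact cls_half hR hR2
  have hRS : R * S ≤ 2 ^ k := by rw [hS]; exact Nat.mul_div_le _ _
  rw [← hS]
  obtain ⟨e, D₁, K, Ce, J₀, hmain⟩ := heng m₀ k ℓ (by rw [hk, hm₀])
  obtain ⟨p₀, hp₀, hp₀'⟩ := Nat.exists_infinite_primes (2 ^ k)
  obtain ⟨D₂, hD₂⟩ : ∃ D₂ : ℕ, D₂ = max D₁ (max (6 * (R * S) + 2) p₀) := ⟨_, rfl⟩
  have hD₂1 : D₁ ≤ D₂ := by rw [hD₂]; exact le_max_left _ _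
  have hD₂2 : 6 * (R * S) + 2 ≤ D₂ := by rw [hD₂]; exact (le_max_left _ _).trans (le_max_right _ _)
  have hD₂3 : p₀ ≤ D₂ := by rw [hD₂]; exact (le_max_right _ _).trans (le_max_right _ _)
  obtain ⟨D, hD⟩ : ∃ D : ℕ, D = 8 * D₂.factorial *
      (e + 14 + B + J₀ + D₂.factorial ^ 8 + D₂) := ⟨_, rfl⟩
  have hf1 : 1 ≤ D₂.factorial := Nat.one_le_iff_ne_zero.2 (Nat.factorial_ne_zero _)
  have hDge : e + 14 + B + J₀ + D₂.factorial ^ 8 + D₂ ≤ D := by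
    rw [hD]
    apply Nat.le_mul_of_pos_left
    positivity
  obtain ⟨A, hA⟩ : ∃ A : ℕ, A = 2 ^ D * (K + 1) := ⟨_, rfl⟩
  obtain ⟨γ, hγ⟩ : ∃ γ : ℝ, γ = 1 + (2 ^ D) ^ Ce := ⟨_, rfl⟩
  have hγ1 : 1 ≤ γ := by
    rw [hγ]
    have h1 : (0 : ℝ) ≤ (2 ^ D) ^ Ce := by positivity
    linarith
  have hγ0 : 0 < γ := by linarith
  refine ⟨A, Ce, D, D₂, γ, hγ0, by omega, ⟨_, hD⟩, by omega, ?_⟩
  intro cl G hcl a b P hab hinj hadm haP j hPj hPj' hG m hGm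
  have hP2 : 2 ≤ P := (two_le_pp j).trans hPj
  have hP0 : P ≠ 0 := by omega
  have hP1 : 1 ≤ P := by omega
  have hP1r : (1 : ℝ) ≤ P := by exact_mod_cast hP1
  have hlogP0 : 0 ≤ Real.log P := Real.log_natCast_nonneg P
  obtain ⟨Jn, hJn⟩ : ∃ Jn : ℕ, Jn = j + D - e - 6 := ⟨_, rfl⟩
  have hJne : Jn + e + 6 = j + D := by omega
  have hJn5 : j + 5 ≤ Jn := by omega
  have hJnB : j + B + 3 ≤ Jn := by omega
  have hJnJ : J₀ ≤ Jn := by omega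
  have hJnD : D₂.factorial ^ 8 + D₂ + 1 ≤ Jn := by omega
  have hP12 : P ^ 12 ≤ 2 ^ 2 ^ Jn := by
    calc P ^ 12 ≤ P ^ 16 := Nat.pow_le_pow_right hP1 (by norm_num)
      _ ≤ (2 ^ 2 ^ (j + 1)) ^ 16 := Nat.pow_le_pow_left hPj'.le 16
      _ = 2 ^ 2 ^ (j + 5) := by
        rw [← pow_mul]
        congr 1
        rw [pow_add 2 j 5, pow_add 2 j 1]
        ring
      _ ≤ _ := pp_mono hJn5
  have hPB : P ^ B < 2 ^ 2 ^ Jn := by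
    calc P ^ B ≤ (2 ^ 2 ^ (j + 1)) ^ B := Nat.pow_le_pow_left hPj'.le _
      _ = 2 ^ (2 ^ (j + 1) * B) := by rw [← pow_mul]
      _ < 2 ^ 2 ^ Jn := by
        apply Nat.pow_lt_pow_right (by norm_num)
        calc 2 ^ (j + 1) * B < 2 ^ (j + 1) * 2 ^ B :=
              Nat.mul_lt_mul_of_pos_left Nat.lt_two_pow_self (by positivity)
          _ = 2 ^ (j + 1 + B) := by rw [← pow_add]
          _ ≤ _ := Nat.pow_le_pow_right (by norm_num) (by omega)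
  have hWW0 := WW_pos (D₁ := D₂) hP0
  have hJpp := le_pp Jn
  have hmany := many_nu (D := D₂) (W := WW D₂ P) (χ₁ (2 ^ 2 ^ (j + D))) (hq2 _).1
    (hq3 _).2 (hq3 _).1 (hq2 _).2.1 a b (prim_of a b hadm) (WW_squarefree hP0) (by omega) (by omega)
    (fun i r hr hri => (prime_dvd_WW hP0 hr).2 (Or.inr (hri.trans (haP i)))) G hG
  have hkW : 2 ^ k ≤ WW D₂ P := by
    have h1 : p₀ ∣ WW D₂ P := (prime_dvd_WW hP0 hp₀').2 (Or.inl hD₂3)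
    exact hp₀.trans (Nat.le_of_dvd hWW0 h1)
  have hk1 : (k + 1) ^ 2 ≤ 4 * (C₀ ^ 2 * R ^ 2) := by
    have h1 : k + 1 ≤ 2 * (C₀ * R) := by omega
    calc (k + 1) ^ 2 ≤ (2 * (C₀ * R)) ^ 2 := Nat.pow_le_pow_left h1 2
      _ = _ := by ring
  have hk2 : (m₀ + 1) * 2 ^ k ≤ 160 * S * (k + 1) ^ 2 := by
    rw [hm₀]
    have h1 : R * R ≤ (k + 1) ^ 2 := by
      rw [sq]
      exact Nat.mul_le_mul (by omega) (by omega)
    calc R * 2 ^ k ≤ R * (2 * (R * S)) := Nat.mul_le_mul_left _ hhalf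
      _ = 2 * S * (R * R) := by ring
      _ ≤ 160 * S * (k + 1) ^ 2 := Nat.mul_le_mul (Nat.mul_le_mul_right _ (by norm_num)) h1
  have hfin := hmain Jn hJnJ D₂ P (R * S) a b hD₂1 (hp₀.trans hD₂3) hkW (by omega)
    (by omega) hP0 hP12 (by omega) hRS hab hinj hadm haP G cl S hS1 hcl hk2 m
  rw [hJne] at hfin
  obtain ⟨n, d, U, hn, hd1, hd2, hUG, hUc, hh⟩ := hfin (by
    refine hmany.trans (Nat.mul_le_mul_left _ (card_le_card ?_))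
    intro ν hν
    rw [mem_filter] at hν ⊢
    refine ⟨hν.1, ?_⟩
    obtain ⟨H, hH⟩ : ∃ H : ℕ, H = (G.filter (fun i => q₁ (2 ^ 2 ^ (j + D)) ∣ a i * WW D₂ P →
      χ₁ (2 ^ 2 ^ (j + D)) ((a i * ν + b i : ℕ) : ZMod (q₁ (2 ^ 2 ^ (j + D)))) = -1)).card :=
      ⟨_, rfl⟩
    have hνG := hν.2
    rw [← hH] at hνG ⊢
    rw [hm₀]
    have h1 : 5 * ((2 * m + 1) * 160 * S * (k + 1) ^ 2) ≤ 5 * (R ^ 2 * H) := by
      calc 5 * ((2 * m + 1) * 160 * S * (k + 1) ^ 2) ≤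
            5 * ((2 * m + 2) * 160 * S * (4 * (C₀ ^ 2 * R ^ 2))) := by gcongr; omega
        _ = R ^ 2 * (6400 * C₀ ^ 2 * (m + 1) * S) := by ring
        _ ≤ R ^ 2 * G.card := Nat.mul_le_mul_left _ hGm
        _ ≤ R ^ 2 * (5 * H) := Nat.mul_le_mul_left _ hνG
        _ = 5 * (R ^ 2 * H) := by ring
    omega)
  have hlogZ : Real.log ((2 ^ 2 ^ (j + D) : ℕ) : ℝ) ≤ 2 ^ D * Real.log P := by
    have h1 : ((2 ^ 2 ^ (j + D) : ℕ) : ℝ) ≤ (P : ℝ) ^ (2 ^ D) := by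
      have h2 : 2 ^ 2 ^ (j + D) ≤ P ^ (2 ^ D) := by
        calc 2 ^ 2 ^ (j + D) = (2 ^ 2 ^ j) ^ (2 ^ D) := by rw [← pow_mul, ← pow_add]
          _ ≤ _ := Nat.pow_le_pow_left hPj _
      exact_mod_cast h2
    have h2 := Real.log_le_log (by positivity) h1
    rw [Real.log_pow] at h2
    push_cast at h2 ⊢
    exact h2
  have hlogZ1 : 1 ≤ Real.log ((2 ^ 2 ^ (j + D) : ℕ) : ℝ) := by
    have h1 := log_pp (j + D)
    have h2 : (2 : ℝ) ^ 1 ≤ 2 ^ (j + D) := pow_le_pow_right₀ (by norm_num) (by omega)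
    rw [pow_one] at h2
    linarith
  refine ⟨n, d, U, ?_, hd1, ?_, hUG, hUc, ?_⟩
  · have hnz : n ≤ P ^ (2 ^ D * (K + 1)) := by
      calc n ≤ (2 ^ 2 ^ (j + D)) ^ (K + 1) := hn
        _ = (2 ^ 2 ^ j) ^ (2 ^ D * (K + 1)) := by
          rw [← pow_mul, ← pow_mul, ← mul_assoc, ← pow_add]
        _ ≤ _ := Nat.pow_le_pow_left hPj _
    have h1 : (n : ℝ) ≤ (P : ℝ) ^ (2 ^ D * (K + 1)) := by exact_mod_cast hnz
    calc (n : ℝ) ≤ (P : ℝ) ^ (2 ^ D * (K + 1)) := h1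
      _ = (P : ℝ) ^ A := by rw [hA]
      _ ≤ γ * (P : ℝ) ^ A := le_mul_of_one_le_left (by positivity) hγ1
  · calc (d : ℝ) ≤ Real.log ((2 ^ 2 ^ (j + D) : ℕ) : ℝ) ^ Ce := hd2
      _ ≤ (2 ^ D * Real.log P) ^ Ce := pow_le_pow_left₀ (by linarith) hlogZ _
      _ = (2 ^ D) ^ Ce * Real.log P ^ Ce := mul_pow _ _ _
      _ ≤ γ * Real.log P ^ Ce := by
          apply mul_le_mul_of_nonneg_right _ (by positivity)
          rw [hγ]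
          linarith
  · intro h hh'
    refine ⟨(hh h hh').1, fun i p hp hpd => ?_⟩
    have h1 := (hh h hh').2 i p hp hpd
    omega

end Run7.h296
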