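import Pool.Agent.Run7.h296.T7

/-!
Bounded shifts making a system of linear forms admissible.
-/

set_option autoImplicit false

open Finset

namespace Run7.h296

theorem exists_pad {N K : ℕ} (hN : 1 ≤ N) (hNK : N ≤ 2 ^ K) :
    ∃ f : ℕ, 2 ^ K ≤ N * 2 ^ f ∧ N * 2 ^ f < 2 ^ (K + 1) := by
  have h1 : 2 ^ Nat.log 2 N ≤ N := Nat.pow_log_le_self 2 (by omega)
  have h2 : N < 2 ^ (Nat.log 2 N + 1) := Nat.lt_pow_succ_log_self (by norm_num) N
  have h3 : Nat.log 2 N ≤ K := by
    by_contra hcon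
    have h4 : 2 ^ (K + 1) ≤ 2 ^ Nat.log 2 N := Nat.pow_le_pow_right (by norm_num) (by omega)
    have h5 : 2 ^ K < 2 ^ (K + 1) := Nat.pow_lt_pow_right (by norm_num) (by omega)
    omega
  refine ⟨K - Nat.log 2 N, ?_, ?_⟩
  · calc 2 ^ K = 2 ^ Nat.log 2 N * 2 ^ (K - Nat.log 2 N) := by
          rw [← pow_add]
          congr 1
          omega
      _ ≤ N * 2 ^ (K - Nat.log 2 N) := Nat.mul_le_mul_right _ h1
  · calc N * 2 ^ (K - Nat.log 2 N) < 2 ^ (Nat.log 2 N + 1) * 2 ^ (K - Nat.log 2 N) :=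
          Nat.mul_lt_mul_of_pos_right h2 (by positivity)
      _ = 2 ^ (K + 1) := by
          rw [← pow_add]
          congr 1
          omega

theorem exists_pow2 {Y : ℕ} (hY : 1 ≤ Y) : ∃ τ : ℕ, Y ≤ 2 ^ τ ∧ 2 ^ τ ≤ 2 * Y := by
  refine ⟨Nat.log 2 Y + 1, (Nat.lt_pow_succ_log_self (by norm_num) Y).le, ?_⟩
  have h1 : 2 ^ Nat.log 2 Y ≤ Y := Nat.pow_log_le_self 2 (by omega)
  rw [pow_succ]
  omega

theorem adm_large {s p : ℕ} (hp : p.Prime) (hsp : s < p) (A B : Fin s → ℕ)
    (hAB : ∀ t, (A t).Coprime (B t)) : ∃ n : ℤ, ∀ t, ¬ (p : ℤ) ∣ A t * n + B t := by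
  classical
  haveI : Fact p.Prime := ⟨hp⟩
  have h1 : (univ.image (fun t : Fin s => (-(B t : ZMod p)) / (A t : ZMod p))).card <
      Fintype.card (ZMod p) := by
    rw [ZMod.card]
    refine lt_of_le_of_lt card_image_le ?_
    rw [card_univ, Fintype.card_fin]
    exact hsp
  obtain ⟨z, hz⟩ : ∃ z, z ∉ univ.image (fun t : Fin s => (-(B t : ZMod p)) / (A t : ZMod p)) := by
    by_contra hcon
    push Not at hcon
    have h2 : univ.image (fun t : Fin s => (-(B t : ZMod p)) / (A t : ZMod p)) = univ := by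
      ext z
      simp only [mem_univ, iff_true]
      exact hcon z
    rw [h2, card_univ] at h1
    exact lt_irrefl _ h1
  refine ⟨(z.val : ℤ), fun t ht => hz ?_⟩
  rw [mem_image]
  refine ⟨t, mem_univ _, ?_⟩
  have h2 : ((A t * (z.val : ℤ) + B t : ℤ) : ZMod p) = 0 := (ZMod.intCast_zmod_eq_zero_iff_dvd _ p).2 ht
  push_cast at h2
  rw [ZMod.natCast_zmod_val] at h2
  have hA : (A t : ZMod p) ≠ 0 := by
    intro hA
    rw [hA, zero_mul, zero_add] at h2
    have h3 : p ∣ A t := (ZMod.natCast_eq_zero_iff _ _).1 hA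
    have h4 : p ∣ B t := (ZMod.natCast_eq_zero_iff _ _).1 h2
    have h5 := Nat.dvd_gcd h3 h4
    rw [hAB t] at h5
    exact hp.one_lt.ne' (Nat.dvd_one.1 h5)
  rw [div_eq_iff hA]
  linear_combination -h2

open Classical in
/-- the product of the small primes not dividing `b` -/
noncomputable def sig (b s : ℕ) : ℕ := ∏ p ∈ (range (s + 3)).filter (fun p => p.Prime ∧ ¬ p ∣ b), p

theorem sig_spec {a b s p : ℕ} (hp : p.Prime) (hps : p ≤ s + 2) (hab : a.Coprime b) :
    ¬ p ∣ a * sig b s + b := by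
  intro hd
  by_cases hpb : p ∣ b
  · have h1 : p ∣ a * sig b s := (Nat.dvd_add_left hpb).1 hd
    rcases hp.dvd_mul.1 h1 with h2 | h2
    · have h3 := Nat.dvd_gcd h2 hpb
      rw [hab] at h3
      exact hp.one_lt.ne' (Nat.dvd_one.1 h3)
    · unfold sig at h2
      obtain ⟨q, hq, hpq⟩ := (hp.prime.dvd_finset_prod_iff _).1 h2
      rw [mem_filter] at hq
      have h3 := (Nat.prime_dvd_prime_iff_eq hp hq.2.1).1 hpq
      rw [← h3] at hq
      exact hq.2.2 hpb
  · have h1 : p ∣ sig b s := by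
      unfold sig
      apply dvd_prod_of_mem (fun p => p)
      rw [mem_filter, mem_range]
      exact ⟨by omega, hp, hpb⟩
    exact hpb ((Nat.dvd_add_right (h1.mul_left a)).1 hd)

/-- the shifts -/
noncomputable def esh (b v s M t : ℕ) : ℕ :=
  M * s + (sig b s + M * t + (M * s - 1) * v) % (M * s)

theorem esh_lt {b v s M t : ℕ} (hM : 1 ≤ M) (hs : 1 ≤ s) : esh b v s M t < 2 * (M * s) := by
  have h1 : 0 < M * s := Nat.mul_pos hM hs
  have h2 := Nat.mod_lt (sig b s + M * t + (M * s - 1) * v) h1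
  unfold esh
  omega

theorem esh_mod {b v s M t : ℕ} (hM : 1 ≤ M) (hs : 1 ≤ s) :
    v + esh b v s M t ≡ sig b s + M * t [MOD M * s] := by
  unfold esh
  have h1 : (sig b s + M * t + (M * s - 1) * v) % (M * s) ≡
      sig b s + M * t + (M * s - 1) * v [MOD M * s] := Nat.mod_modEq _ _
  have h2 : 1 ≤ M * s := Nat.mul_pos hM hs
  calc v + (M * s + (sig b s + M * t + (M * s - 1) * v) % (M * s)) ≡
        v + (M * s + (sig b s + M * t + (M * s - 1) * v)) [MOD M * s] :=
          (h1.add_left _).add_left _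
    _ ≡ v + (0 + (sig b s + M * t + (M * s - 1) * v)) [MOD M * s] := by
          apply Nat.ModEq.add_left
          apply Nat.ModEq.add_right
          exact (Nat.modEq_zero_iff_dvd.2 dvd_rfl)
    _ = sig b s + M * t + ((M * s - 1) + 1) * v := by ring
    _ = sig b s + M * t + (M * s) * v := by rw [Nat.sub_add_cancel h2]
    _ ≡ sig b s + M * t + 0 [MOD M * s] := by
          apply Nat.ModEq.add_left
          exact Nat.modEq_zero_iff_dvd.2 (dvd_mul_right _ _)
    _ = sig b s + M * t := add_zero _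

/-- small primes do not divide the shifted values -/
theorem esh_ndvd {a b v s M t p : ℕ} (hp : p.Prime) (hps : p ≤ s + 2) (hpM : p ∣ M) (hM : 1 ≤ M)
    (hs : 1 ≤ s) (hab : a.Coprime b) : ¬ p ∣ a * (v + esh b v s M t) + b := by
  intro hd
  apply sig_spec hp hps hab
  have h1 : v + esh b v s M t ≡ sig b s + M * t [MOD p] :=
    (esh_mod hM hs).of_dvd (hpM.mul_right _)
  have h2 : sig b s + M * t ≡ sig b s + 0 [MOD p] := by
    apply Nat.ModEq.add_left
    exact Nat.modEq_zero_iff_dvd.2 (hpM.mul_right _)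
  have h3 : a * (v + esh b v s M t) + b ≡ a * sig b s + b [MOD p] := by
    apply Nat.ModEq.add_right
    apply Nat.ModEq.mul_left
    rw [add_zero] at h2
    exact h1.trans h2
  exact (h3.dvd_iff dvd_rfl).1 hd

/-- the shifted forms are different -/
theorem esh_inj {a b v a' b' v' s M t t' H : ℕ} (hM : 1 ≤ M) (ht : t < s) (ht' : t' < s)
    (hH : 1 ≤ H) (hab : b < a) (hab' : b' < a')
    (h : (a * H, a * (v + esh b v s M t) + b) = (a' * H, a' * (v' + esh b' v' s M t') + b')) :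
    t = t' := by
  have hs : 1 ≤ s := by omega
  rw [Prod.mk.injEq] at h
  obtain ⟨h1, h2⟩ := h
  have ha : a = a' := Nat.eq_of_mul_eq_mul_right hH h1
  subst ha
  have hb : b = b' := by
    have h3 : (a * (v + esh b v s M t) + b) % a = b := by
      rw [Nat.mul_add_mod, Nat.mod_eq_of_lt hab]
    have h4 : (a * (v' + esh b' v' s M t') + b') % a = b' := by
      rw [Nat.mul_add_mod, Nat.mod_eq_of_lt hab']
    rw [← h3, ← h4, h2]
  subst hb
  have hy : v + esh b v s M t = v' + esh b v' s M t' := by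
    have h3 : a * (v + esh b v s M t) = a * (v' + esh b v' s M t') := by omega
    exact Nat.eq_of_mul_eq_mul_left (by omega) h3
  have h3 : sig b s + M * t ≡ sig b s + M * t' [MOD M * s] := by
    have h4 := (esh_mod (b := b) (v := v) (t := t) hM hs).symm
    rw [hy] at h4
    exact h4.trans (esh_mod hM hs)
  have h4 : M * t ≡ M * t' [MOD M * s] := Nat.ModEq.add_left_cancel' _ h3
  have h5 : t ≡ t' [MOD s] := Nat.ModEq.mul_left_cancel' (by omega) h4
  have h6 := h5
  unfold Nat.ModEq at h6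
  rwa [Nat.mod_eq_of_lt ht, Nat.mod_eq_of_lt ht'] at h6

end Run7.h296
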