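import Pool.Agent.Run7.h296.T8

/-!
A positive proportion of arbitrary linear forms, after bounded shifts, are simultaneously prime.
-/

set_option autoImplicit false

open Finset

namespace Run7.h296

/-- the class of an index -/
def clsix {m S : ℕ} (t : Fin (m * S)) : Fin m := (finProdFinEquiv.symm t).1

/-- the form of an index -/
def fidx {c R S : ℕ} (t : Fin (c * R * S)) : Fin R := (finProdFinEquiv.symm (clsix t)).2

theorem cls_card {m S : ℕ} (G : Finset (Fin (m * S))) (c : ℕ) :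
    (G.filter (fun t => ((clsix t : Fin m) : ℕ) = c)).card ≤ S := by
  have h1 : (G.filter (fun t => ((clsix t : Fin m) : ℕ) = c)).card ≤ (univ : Finset (Fin S)).card := by
    apply card_le_card_of_injOn (fun t => (finProdFinEquiv.symm t).2)
    · intro t _
      exact mem_coe.2 (mem_univ _)
    · intro t ht t' ht' h
      rw [mem_coe, mem_filter] at ht ht'
      have h2 : (finProdFinEquiv.symm t).1 = (finProdFinEquiv.symm t').1 := by
        apply Fin.ext
        exact ht.2.trans ht'.2.symm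
      exact finProdFinEquiv.symm.injective (Prod.ext h2 h)
  rwa [card_univ, Fintype.card_fin] at h1

theorem fidx_surj {c R S : ℕ} (hc : 1 ≤ c) (hS : 1 ≤ S) (i : Fin R) :
    ∃ t : Fin (c * R * S), fidx t = i := by
  refine ⟨finProdFinEquiv (finProdFinEquiv (⟨0, hc⟩, i), ⟨0, hS⟩), ?_⟩
  unfold fidx clsix
  rw [Equiv.symm_apply_apply]
  simp

open Classical in
theorem fidx_card {c R S : ℕ} (G : Finset (Fin R)) :
    c * G.card * S ≤ ((univ : Finset (Fin (c * R * S))).filter (fun t => fidx t ∈ G)).card := by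
  have h1 : (((univ : Finset (Fin c)) ×ˢ G) ×ˢ (univ : Finset (Fin S))).card ≤
      ((univ : Finset (Fin (c * R * S))).filter (fun t => fidx t ∈ G)).card := by
    apply card_le_card_of_injOn (fun x => finProdFinEquiv (finProdFinEquiv x.1, x.2))
    · intro x hx
      rw [mem_coe, mem_product, mem_product] at hx
      rw [mem_coe, mem_filter]
      refine ⟨mem_univ _, ?_⟩
      unfold fidx clsix
      rw [Equiv.symm_apply_apply]
      simp only [Equiv.symm_apply_apply]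
      exact hx.1.2
    · intro x _ y _ h
      have h2 := finProdFinEquiv.injective h
      rw [Prod.mk.injEq] at h2
      exact Prod.ext (finProdFinEquiv.injective h2.1) h2.2
  rw [card_product, card_product, card_univ, card_univ, Fintype.card_fin, Fintype.card_fin] at h1
  exact h1

open Classical in
theorem cls_proj {c R S : ℕ} (U : Finset (Fin (c * R * S))) :
    (U.image (fun t => ((clsix t : Fin (c * R)) : ℕ))).card ≤ c * (U.image fidx).card := by
  have h1 : U.image (fun t => ((clsix t : Fin (c * R)) : ℕ)) =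
      (U.image (fun t => clsix t)).image (fun x : Fin (c * R) => (x : ℕ)) := by
    rw [image_image]
    rfl
  rw [h1]
  refine card_image_le.trans ?_
  have h2 : (U.image (fun t => clsix t)).card ≤ ((univ : Finset (Fin c)) ×ˢ (U.image fidx)).card := by
    apply card_le_card_of_injOn (fun x : Fin (c * R) => finProdFinEquiv.symm x)
    · intro x hx
      rw [mem_coe, mem_image] at hx
      obtain ⟨t, ht, rfl⟩ := hx
      rw [mem_coe, mem_product]
      exact ⟨mem_univ _, mem_image.2 ⟨t, ht, rfl⟩⟩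
    · intro x _ y _ h
      exact finProdFinEquiv.symm.injective h
  rwa [card_product, card_univ, Fintype.card_fin] at h2

open Classical in
/-- **A positive proportion of the forms, after shifts, are simultaneously prime.** -/
theorem main_gen : ∃ (C₁ : ℕ) (Q : ℕ → ℕ) (χ : ∀ i : ℕ, DirichletCharacter ℂ (Q i)), 1 ≤ C₁ ∧
    (∀ i, 1 < Q i ∧ (χ i) ^ 2 = 1 ∧ (χ i).IsPrimitive) ∧
    (∀ B : ℕ, ∀ᶠ i in Filter.atTop, 2 ^ (B * i) ≤ Q i) ∧
    ∀ R B ℓ : ℕ, 1 ≤ R → ∃ S : ℕ, 1 ≤ S ∧ ∀ M₀ : ℕ, 1 ≤ M₀ →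
    ∃ (A C D : ℕ) (γ : ℝ), 0 < γ ∧ M₀ ≤ D ∧ (∀ j, D < Q (j + D)) ∧
    ∀ (a b : Fin R → ℕ) (y : Fin (C₁ * R * S) → ℕ) (L X P : ℕ),
    (∀ i, b i < a i ∧ (a i).Coprime (b i) ∧ a i ∣ L) →
    (∀ t, 1 ≤ y t ∧ y t + 1 ≤ M₀ * X) →
    (∀ p : ℕ, p.Prime → p ≤ C₁ * R * S + 2 → ∀ t, ¬ p ∣ a (fidx t) * y t + b (fidx t)) →
    (∀ t t', a (fidx t) = a (fidx t') → b (fidx t) = b (fidx t') → y t = y t' → t = t') →
    L ≠ 0 → L ≤ P ^ M₀ → 1 ≤ X → X ≤ P → ∀ j : ℕ, 2 ^ 2 ^ j ≤ P → P < 2 ^ 2 ^ (j + 1) →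
    ∀ G : Finset (Fin R), G.Nonempty → (∀ i ∈ G, ¬ Q (j + D) ∣ D * a i ∨
      (Q (j + D) ∣ a i ∧ χ (j + D) ((b i : ℕ) : ZMod (Q (j + D))) = -1)) →
    ∃ (n d : ℕ) (t : Fin R → Fin (C₁ * R * S)) (U : Finset (Fin R)), (∀ i, fidx (t i) = i) ∧
      (n : ℝ) ≤ γ * (P : ℝ) ^ A ∧ 1 ≤ d ∧
      (d : ℝ) ≤ γ * X * Real.log P ^ C ∧ U ⊆ G ∧ G.card ≤ C₁ * U.card ∧
      ∀ h < ℓ, (∀ i ∈ U, (a i * (n + h * d + y (t i)) + b i).Prime) ∧
        ∀ i, ArithmeticFunction.cardFactors (a i * (n + h * d + y (t i)) + b i) ≤ D ∧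
          ∀ p : ℕ, p.Prime → p ∣ a i * (n + h * d + y (t i)) + b i → P ^ B < p := by
  obtain ⟨C₀, C₁, Q, χ, hC₀, hC₁, hQ, hχ, hgrow, hmain⟩ := main_col
  obtain ⟨i₀, hi₀⟩ := Filter.eventually_atTop.1 (hgrow 1)
  refine ⟨C₁, Q, χ, hC₁, fun i => ⟨(hQ i).1, hχ i⟩, hgrow, ?_⟩
  intro R B ℓ hR0
  obtain ⟨A, C, D, D₂, γ, hγ, hD0, hDD, hD₂, hm⟩ := hmain (C₁ * R) (B + 1) ℓ (Nat.mul_pos hC₁ hR0)
  have hRk : C₁ * R ≤ 2 ^ (C₀ * (C₁ * R)) :=
    (Nat.le_mul_of_pos_left _ hC₀).trans Nat.lt_two_pow_self.le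
  obtain ⟨S, hS⟩ : ∃ S : ℕ, S = 2 ^ (C₀ * (C₁ * R)) / (C₁ * R) := ⟨_, rfl⟩
  have hS1 : 1 ≤ S := by
    rw [hS]
    exact (Nat.one_le_div_iff (Nat.mul_pos hC₁ hR0)).2 hRk
  rw [← hS] at hm
  refine ⟨S, hS1, ?_⟩
  intro M₀ hM₀
  obtain ⟨r₀, hr₀⟩ : ∃ r₀ : ℕ, 2 * M₀ ≤ 2 ^ r₀ := ⟨2 * M₀, Nat.lt_two_pow_self.le⟩
  obtain ⟨s₀, hs₀⟩ : ∃ s₀ : ℕ, s₀ = M₀ + 1 + r₀ := ⟨_, rfl⟩
  -- the constants of the size
  obtain ⟨g₁, hg₁⟩ := exists_nat_ge (γ * (1 + ℓ) + 1)
  -- the scale
  obtain ⟨E₀, hE₀⟩ : ∃ E₀ : ℕ, E₀ = 2 * s₀ + i₀ + M₀ := ⟨_, rfl⟩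
  obtain ⟨μ, hμ⟩ : ∃ μ : ℕ, μ = D * (E₀ + (1 + A + C + g₁)) := ⟨_, rfl⟩
  have hμ1 : E₀ + (1 + A + C + g₁) ≤ μ := by
    rw [hμ]
    exact Nat.le_mul_of_pos_left _ hD0
  obtain ⟨D', hD'⟩ : ∃ D' : ℕ, D' = μ + D := ⟨_, rfl⟩
  refine ⟨2 ^ (μ + 1) * (A + 1), C, D', γ * (1 + 2 * M₀ * (2 ^ (μ + 1)) ^ C),
    by positivity, by omega, fun j => ?_, ?_⟩
  · have h1 := hi₀ (j + D') (by omega)
    rw [one_mul] at h1
    calc D' < 2 ^ D' := Nat.lt_two_pow_self
      _ ≤ 2 ^ (j + D') := Nat.pow_le_pow_right (by norm_num) (by omega)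
      _ ≤ _ := h1
  intro a b y L X P hab hy hnd hyinj hL0 hLP hX1 hXP j hPj hPj' G hGne hG
  have hP2 : 2 ≤ P := (two_le_pp j).trans hPj
  have hP1 : 1 ≤ P := by omega
  have hP1r : (1 : ℝ) ≤ P := by exact_mod_cast hP1
  have hlogP0 : 0 ≤ Real.log P := Real.log_natCast_nonneg P
  have ha0 : ∀ i, 0 < a i := fun i => lt_of_le_of_lt (Nat.zero_le _) (hab i).1
  have hXr : (1 : ℝ) ≤ X := by exact_mod_cast hX1
  -- the power of two
  obtain ⟨τ, hτ1, hτ2⟩ := exists_pow2 (Y := M₀ * X) (Nat.mul_pos hM₀ hX1)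
  obtain ⟨H, hH⟩ : ∃ H : ℕ, H = 2 ^ τ := ⟨_, rfl⟩
  rw [← hH] at hτ1 hτ2
  have hH1 : 1 ≤ H := by
    have := Nat.mul_pos hM₀ hX1
    omega
  have hHX : H ≤ X * (2 * M₀) := by
    calc H ≤ 2 * (M₀ * X) := hτ2
      _ = _ := by ring
  -- the forms
  obtain ⟨α, hα⟩ : ∃ α : Fin (C₁ * R * S) → ℕ, α = fun t => a (fidx t) * H := ⟨_, rfl⟩
  obtain ⟨β, hβ⟩ : ∃ β : Fin (C₁ * R * S) → ℕ, β = fun t => a (fidx t) * y t + b (fidx t) := ⟨_, rfl⟩
  have hαt : ∀ t, α t = a (fidx t) * H := fun t => by rw [hα]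
  have hβt : ∀ t, β t = a (fidx t) * y t + b (fidx t) := fun t => by rw [hβ]
  have hyH : ∀ t, y t + 1 ≤ H := fun t => (hy t).2.trans hτ1
  have hcop : ∀ t, (a (fidx t)).Coprime (β t) := by
    intro t
    rw [hβt, Nat.coprime_mul_left_add_right]
    exact (hab (fidx t)).2.1
  have hprime2 : ∀ p : ℕ, p.Prime → p ≤ C₁ * R * S + 2 → ∀ t, ¬ p ∣ β t := by
    intro p hp hps t
    rw [hβt]
    exact hnd p hp hps t
  have hadm : ∀ p : ℕ, p.Prime → ∃ n : ℤ, ∀ t, ¬ (p : ℤ) ∣ α t * n + β t := by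
    intro p hp
    rcases Nat.lt_or_ge (C₁ * R * S + 2) p with hps | hps
    · apply adm_large hp (by omega) α β
      intro t
      rw [hαt]
      apply Nat.Coprime.mul_left (hcop t)
      rw [hH]
      apply Nat.Coprime.pow_left
      rw [Nat.Prime.coprime_iff_not_dvd Nat.prime_two]
      exact hprime2 2 Nat.prime_two (by omega) t
    · refine ⟨0, fun t ht => hprime2 p hp hps t ?_⟩
      rw [mul_zero, zero_add] at ht
      exact_mod_cast ht
  have hβα : ∀ t, 1 ≤ β t ∧ β t < α t := by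
    intro t
    have h1 := hyH t
    have h2 := (hy t).1
    have h3 := (hab (fidx t)).1
    constructor
    · rw [hβt]
      have h4 : 1 ≤ a (fidx t) * y t := Nat.mul_pos (ha0 _) h2
      omega
    · rw [hβt, hαt]
      calc a (fidx t) * y t + b (fidx t) < a (fidx t) * y t + a (fidx t) := by omega
        _ = a (fidx t) * (y t + 1) := by ring
        _ ≤ a (fidx t) * H := Nat.mul_le_mul_left _ h1
  have hinj : Function.Injective (fun t => (α t, β t)) := by
    intro t t' h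
    simp only [hαt, hβt, Prod.mk.injEq] at h
    obtain ⟨h1, h2⟩ := h
    have ha : a (fidx t) = a (fidx t') := Nat.eq_of_mul_eq_mul_right hH1 h1
    have hb : b (fidx t) = b (fidx t') := by
      have h3 : (a (fidx t) * y t + b (fidx t)) % a (fidx t) = b (fidx t) := by
        rw [Nat.mul_add_mod, Nat.mod_eq_of_lt (hab _).1]
      have h4 : (a (fidx t) * y t' + b (fidx t')) % a (fidx t) = b (fidx t') := by
        rw [Nat.mul_add_mod, ha, Nat.mod_eq_of_lt (hab _).1]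
      rw [← h3, ← h4, h2, ha]
    have hyy : y t = y t' := by
      have h3 : a (fidx t) * y t = a (fidx t) * y t' := by
        rw [← ha] at h2
        omega
      exact Nat.eq_of_mul_eq_mul_left (ha0 _) h3
    exact hyinj t t' ha hb hyy
  -- the scale
  have hLH : L * H ≤ 2 ^ 2 ^ (j + μ) := by
    have h1 : H ≤ P * P ^ r₀ := by
      calc H ≤ X * (2 * M₀) := hHX
        _ ≤ P * 2 ^ r₀ := Nat.mul_le_mul hXP hr₀
        _ ≤ P * P ^ r₀ := Nat.mul_le_mul_left _ (Nat.pow_le_pow_left hP2 _)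
    calc L * H ≤ P ^ M₀ * (P * P ^ r₀) := Nat.mul_le_mul hLP h1
      _ = P ^ s₀ := by rw [hs₀]; ring
      _ ≤ (2 ^ 2 ^ (j + 1)) ^ s₀ := Nat.pow_le_pow_left hPj'.le _
      _ = 2 ^ (2 ^ (j + 1) * s₀) := by rw [← pow_mul]
      _ ≤ 2 ^ 2 ^ (j + μ) := by
          apply Nat.pow_le_pow_right (by norm_num)
          have h2 : 2 * s₀ ≤ 2 ^ μ := by
            have h3 : μ < 2 ^ μ := Nat.lt_two_pow_self
            omega
          calc 2 ^ (j + 1) * s₀ = 2 ^ j * (2 * s₀) := by ring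
            _ ≤ 2 ^ j * 2 ^ μ := Nat.mul_le_mul_left _ h2
            _ = _ := by rw [← pow_add]
  obtain ⟨f, hf1, hf2⟩ := exists_pad (Nat.mul_pos (Nat.pos_of_ne_zero hL0) hH1) hLH
  obtain ⟨P', hP'⟩ : ∃ P' : ℕ, P' = L * H * 2 ^ f := ⟨_, rfl⟩
  rw [← hP'] at hf1 hf2
  have hP'2 : P' < 2 ^ 2 ^ (j + μ + 1) := by
    refine lt_of_lt_of_le hf2 (Nat.pow_le_pow_right (by norm_num) ?_)
    have h1 : 1 ≤ 2 ^ (j + μ) := Nat.one_le_two_pow
    rw [pow_succ]
    omega
  have hP'P : P' ≤ P ^ (2 ^ (μ + 1)) := by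
    calc P' ≤ 2 ^ 2 ^ (j + μ + 1) := hP'2.le
      _ = (2 ^ 2 ^ j) ^ (2 ^ (μ + 1)) := by
        rw [← pow_mul, ← pow_add, add_assoc]
      _ ≤ _ := Nat.pow_le_pow_left hPj _
  have hPP' : P ≤ P' := by
    refine le_trans ?_ hf1
    refine hPj'.le.trans (pp_mono (by omega))
  have hP'1 : 1 ≤ P' := by omega
  have hP'0 : P' ≠ 0 := by omega
  have hP'1r : (1 : ℝ) ≤ P' := by exact_mod_cast hP'1
  have hdvd : ∀ t, α t ∣ P' := by
    intro t
    rw [hαt, hP']
    exact (Nat.mul_dvd_mul_right (hab (fidx t)).2.2 _).mul_right _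
  obtain ⟨G', hG'⟩ : ∃ G' : Finset (Fin (C₁ * R * S)), G' = univ.filter (fun t => fidx t ∈ G) :=
    ⟨_, rfl⟩
  have hG'c : C₁ * G.card * S ≤ G'.card := by rw [hG']; exact fidx_card G
  have hG1 : 1 ≤ G.card := card_pos.2 hGne
  obtain ⟨n', d', U', hn', hd1, hd2, hU'G, hU'c, hh⟩ := hm (fun t => ((clsix t : Fin (C₁ * R)) : ℕ)) G'
    (fun c => cls_card G' c) α β P' hβα hinj hadm hdvd (j + μ) hf1 hP'2 (by
      intro t ht
      rw [hG', mem_filter] at ht
      have hJ : j + μ + D = j + D' := by omega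
      rw [hJ]
      rcases hG _ ht.2 with h1 | h1
      · left
        by_contra hcon
        push Not at hcon
        apply h1
        have h2 := dvd_of_rough (D := D₂) (a := a (fidx t)) (hQ (j + D')).2.1
          (hQ (j + D')).2.2 (by
            intro p hp hpQ hpD
            have h3 := hcon p hp hpQ hpD
            rw [hαt, hH] at h3
            rcases hp.dvd_mul.1 h3 with h4 | h4
            · exact h4
            · exfalso
              have h5 := hp.dvd_of_dvd_pow h4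
              have h6 := Nat.le_of_dvd (by norm_num) h5
              omega)
        refine h2.trans (Nat.mul_dvd_mul_right ?_ _)
        refine hDD.trans ?_
        rw [hD', hμ]
        exact (Dvd.intro _ rfl).add dvd_rfl
      · right
        refine ⟨by rw [hαt]; exact h1.1.mul_right _, ?_⟩
        rw [← h1.2]
        congr 1
        rw [hβt]
        push_cast
        rw [(ZMod.natCast_eq_zero_iff (a (fidx t)) _).2 h1.1, zero_mul, zero_add]) (G.card - 1) (by
      rw [Nat.sub_add_cancel hG1]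
      exact hG'c)
  have hmemU : ∀ i ∈ U'.image fidx, ∃ t ∈ U', fidx t = i := by
    intro i hi
    rw [mem_image] at hi
    exact hi
  have hch : ∀ i : Fin R, ∃ t : Fin (C₁ * R * S), fidx t = i ∧ (i ∈ U'.image fidx → t ∈ U') := by
    intro i
    by_cases hi : i ∈ U'.image fidx
    · obtain ⟨t, ht, hti⟩ := hmemU i hi
      exact ⟨t, hti, fun _ => ht⟩
    · obtain ⟨t, ht⟩ := fidx_surj hC₁ hS1 i
      exact ⟨t, ht, fun h => absurd h hi⟩
  choose t hti htU using hch
  have hval : ∀ i h, a i * (H * n' + h * (H * d') + y (t i)) + b i =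
      α (t i) * (n' + h * d') + β (t i) := by
    intro i h
    rw [hαt, hβt, hti]
    ring
  have hHr : (H : ℝ) ≤ X * (2 * M₀) := by exact_mod_cast hHX
  have hHP' : H ≤ P' := by
    rw [hP']
    calc H ≤ L * H := Nat.le_mul_of_pos_left _ (Nat.pos_of_ne_zero hL0)
      _ ≤ L * H * 2 ^ f := Nat.le_mul_of_pos_right _ (by positivity)
  have hP'Pr : (P' : ℝ) ≤ (P : ℝ) ^ (2 ^ (μ + 1)) := by exact_mod_cast hP'P
  have hlogP'0 : 0 ≤ Real.log P' := Real.log_natCast_nonneg P'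
  refine ⟨H * n', H * d', t, U'.image fidx, hti, ?_, Nat.mul_pos hH1 hd1, ?_, ?_, ?_, ?_⟩
  · push_cast
    have h1 : (H : ℝ) ≤ P' := by exact_mod_cast hHP'
    have h2 : (0 : ℝ) ≤ P' := Nat.cast_nonneg _
    calc (H : ℝ) * n' ≤ P' * (γ * (P' : ℝ) ^ A) := mul_le_mul h1 hn' (Nat.cast_nonneg _) h2
      _ = γ * (P' : ℝ) ^ (A + 1) := by ring
      _ ≤ γ * ((P : ℝ) ^ (2 ^ (μ + 1))) ^ (A + 1) :=
        mul_le_mul_of_nonneg_left (pow_le_pow_left₀ h2 hP'Pr _) hγ.le
      _ = γ * (P : ℝ) ^ (2 ^ (μ + 1) * (A + 1)) := by rw [← pow_mul]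
      _ ≤ _ := by
        apply mul_le_mul_of_nonneg_right _ (by positivity)
        apply le_mul_of_one_le_right hγ.le
        have h3 : (0 : ℝ) ≤ 2 * M₀ * (2 ^ (μ + 1)) ^ C := by positivity
        linarith
  · push_cast
    have hlog : Real.log P' ≤ 2 ^ (μ + 1) * Real.log P := by
      have h1 := Real.log_le_log (by exact_mod_cast hP'1) hP'Pr
      rw [Real.log_pow] at h1
      push_cast at h1
      exact h1
    calc (H : ℝ) * d' ≤ (X * (2 * M₀)) * (γ * Real.log P' ^ C) :=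
          mul_le_mul hHr hd2 (Nat.cast_nonneg _) (by positivity)
      _ ≤ (X * (2 * M₀)) * (γ * (2 ^ (μ + 1) * Real.log P) ^ C) := by
          apply mul_le_mul_of_nonneg_left _ (by positivity)
          exact mul_le_mul_of_nonneg_left (pow_le_pow_left₀ hlogP'0 hlog _) hγ.le
      _ = γ * (2 * M₀ * (2 ^ (μ + 1)) ^ C) * X * Real.log P ^ C := by
          rw [mul_pow]
          ring
      _ ≤ _ := by
          apply mul_le_mul_of_nonneg_right _ (by positivity)
          apply mul_le_mul_of_nonneg_right _ (by positivity)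
          apply mul_le_mul_of_nonneg_left _ hγ.le
          linarith
  · intro i hi
    obtain ⟨t', ht', hti'⟩ := hmemU i hi
    have h1 := hU'G ht'
    rw [hG', mem_filter, hti'] at h1
    exact h1.2
  · have h1 := cls_proj U'
    omega
  · intro h hh'
    refine ⟨?_, ?_⟩
    · intro i hi
      have h1 := (hh h hh').1 (t i) (htU i hi)
      rw [hval]
      exact h1
    · intro i
      rw [hval]
      have hrgh := (hh h hh').2 (t i)
      refine ⟨?_, ?_⟩
      · have h0 := hβα (t i)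
        refine le_trans (cf_bd (P := P') (t := 1 + A + C + g₁) (by omega) (by omega) ?_ ?_) (by omega)
        · intro p hp hpd
          have h1 := hrgh p hp hpd
          have h2 : P' ≤ P' ^ (B + 1) := Nat.le_self_pow (by omega) _
          omega
        · have h1 : ((α (t i) * (n' + h * d') + β (t i) : ℕ) : ℝ) ≤ (P' : ℝ) ^ (1 + A + C + g₁) := by
            have h2n : α (t i) ≤ P' := Nat.le_of_dvd (Nat.pos_of_ne_zero hP'0) (hdvd _)
            have h2 : (α (t i) : ℝ) ≤ P' := by exact_mod_cast h2n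
            have h3 : (β (t i) : ℝ) ≤ P' := by exact_mod_cast h0.2.le.trans h2n
            have h4 : (γ * (1 + ℓ) + 1 : ℝ) ≤ (P' : ℝ) ^ g₁ := by
              refine hg₁.trans ?_
              have h5 : g₁ ≤ P' ^ g₁ := (Nat.lt_pow_self (by omega)).le
              exact_mod_cast h5
            have hPA : (P' : ℝ) ^ A ≤ (P' : ℝ) ^ (A + C) := pow_le_pow_right₀ hP'1r (by omega)
            have hPC : (P' : ℝ) ^ C ≤ (P' : ℝ) ^ (A + C) := pow_le_pow_right₀ hP'1r (by omega)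
            have hPAC : (1 : ℝ) ≤ (P' : ℝ) ^ (A + C) := one_le_pow₀ hP'1r
            have hd3 : (d' : ℝ) ≤ γ * (P' : ℝ) ^ C := by
              refine hd2.trans (mul_le_mul_of_nonneg_left ?_ hγ.le)
              apply pow_le_pow_left₀ hlogP'0
              have := Real.log_le_sub_one_of_pos (show (0 : ℝ) < P' by linarith)
              linarith
            have hhl : (h : ℝ) ≤ ℓ := by exact_mod_cast hh'.le
            have h5 : (n' : ℝ) + h * d' ≤ γ * (1 + ℓ) * (P' : ℝ) ^ (A + C) := by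
              have h6 : (h : ℝ) * d' ≤ ℓ * (γ * (P' : ℝ) ^ (A + C)) := by
                apply mul_le_mul hhl _ (Nat.cast_nonneg _) (Nat.cast_nonneg _)
                exact hd3.trans (mul_le_mul_of_nonneg_left hPC hγ.le)
              have h7 : (n' : ℝ) ≤ γ * (P' : ℝ) ^ (A + C) :=
                hn'.trans (mul_le_mul_of_nonneg_left hPA hγ.le)
              calc (n' : ℝ) + h * d' ≤ γ * (P' : ℝ) ^ (A + C) + ℓ * (γ * (P' : ℝ) ^ (A + C)) :=
                    add_le_add h7 h6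
                _ = _ := by ring
            push_cast
            calc (α (t i) : ℝ) * (n' + h * d') + β (t i) ≤ P' * (γ * (1 + ℓ) * (P' : ℝ) ^ (A + C)) +
                  P' * (P' : ℝ) ^ (A + C) := by
                  apply add_le_add
                  · exact mul_le_mul h2 h5 (by positivity) (by positivity)
                  · exact h3.trans (le_mul_of_one_le_right (by linarith) hPAC)
              _ = (P' : ℝ) ^ (1 + A + C) * (γ * (1 + ℓ) + 1) := by ring
              _ ≤ (P' : ℝ) ^ (1 + A + C) * (P' : ℝ) ^ g₁ :=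
                mul_le_mul_of_nonneg_left h4 (by positivity)
              _ = _ := by rw [← pow_add]
          exact_mod_cast h1
      · intro p hp hpd
        have h1 := hrgh p hp hpd
        refine lt_of_le_of_lt ?_ h1
        exact (Nat.pow_le_pow_left hPP' _).trans (Nat.pow_le_pow_right hP'1 (by omega))

end Run7.h296
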