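import Pool.Agent.Run7.h296.BLX

/-!
Counts with smooth weights.
-/

set_option autoImplicit false

open Finset

namespace Run7.h296

open Pool.Agent.R498.MT

section
variable {J : Type} [Fintype J] [DecidableEq J] (A B : J → ℕ)

/-- divisibility of the form `i` -/
noncomputable def hitf (i : J) (p l : ℕ) : ℝ := if p ∣ B i + A i * l then 1 else 0

/-- density of the bad classes -/
noncomputable def gg (p : ℕ) : ℝ := (∑ r ∈ range p, bdf A B p r) / p

/-- the weight of the small primes -/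
noncomputable def wt (P : Finset ℕ) (ρ : Finset ℕ → ℝ) (l : ℕ) : ℝ :=
  ∑ T ∈ P.powerset, ρ T * ∏ p ∈ T, bdf A B p l

variable {A B}

theorem hitf_per (i : J) (p : ℕ) : Function.Periodic (hitf A B i p) p := by
  intro l
  unfold hitf
  simp only [lin_perA]

theorem hitf_sum {p : ℕ} (hp : p.Prime) (i : J) (hi : ¬ p ∣ A i) :
    ∑ r ∈ range p, hitf A B i p r = 1 := by
  obtain ⟨r, _, _, hG⟩ := root_sum hp hi (B i)
  exact hG (fun _ => 1)

theorem hitf_01 (i : J) (p l : ℕ) : 0 ≤ hitf A B i p l ∧ hitf A B i p l ≤ 1 := by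
  unfold hitf
  split_ifs <;> norm_num

theorem gg_nonneg (p : ℕ) : 0 ≤ gg A B p := by
  unfold gg
  exact div_nonneg (sum_nonneg fun r _ => (bdf_01 p r).1) (Nat.cast_nonneg _)

/-- the colour condition -/
noncomputable def colf (T : Option J) (p l : ℕ) : ℝ := if T = colr A B p l then 1 else 0

theorem colf_per (T : Option J) (p : ℕ) : Function.Periodic (colf (A := A) (B := B) T p) p := by
  intro l
  unfold colf
  rw [colr_per]

theorem colf_sum {p : ℕ} (h : OKp A B p) (T : Option J) (hT : T ≠ none) :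
    ∑ r ∈ range p, colf (A := A) (B := B) T p r = 1 := by
  obtain ⟨j, rfl⟩ := Option.ne_none_iff_exists'.1 hT
  rw [← hitf_sum h.pr j (h.nd j) (B := B)]
  refine sum_congr rfl fun r _ => ?_
  unfold colf hitf
  by_cases h1 : p ∣ B j + A j * r
  · rw [if_pos h1, if_pos ((colr_some h r j).2 h1).symm]
  · rw [if_neg h1, if_neg (fun h2 => h1 ((colr_some h r j).1 h2.symm))]

theorem sub_prod {Sset : Finset ℕ} (T : Sset → Option J) (l : ℕ) :
    (if Sub T (fun t : Sset => colr A B t l) then (1 : ℝ) else 0) =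
      ∏ t ∈ univ.filter (fun t => T t ≠ none), colf (A := A) (B := B) (T t) t l := by
  unfold colf
  rw [Finset.prod_ite_zero]
  have h : Sub T (fun t : Sset => colr A B t l) ↔
      ∀ t ∈ univ.filter (fun t => T t ≠ none), T t = colr A B t l := by
    unfold Pool.Agent.R498.MT.Sub
    constructor
    · intro h1 t ht
      rw [mem_filter] at ht
      exact (h1 t).resolve_left ht.2
    · intro h1 t
      by_cases h2 : T t = none
      · exact Or.inl h2
      · exact Or.inr (h1 t (mem_filter.2 ⟨mem_univ _, h2⟩))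
  by_cases h2 : Sub T (fun t : Sset => colr A B t l)
  · rw [if_pos h2, if_pos (h.1 h2)]
    simp
  · rw [if_neg h2, if_neg (fun h3 => h2 (h.2 h3))]

theorem rr_prod {Sset : Finset ℕ} (T : Sset → Option J) :
    ∏ t : Sset, rr (fun _ : J => 1 / ((t : ℕ) : ℝ)) (T t) =
      ∏ t ∈ univ.filter (fun t => T t ≠ none), (1 / ((t : ℕ) : ℝ)) := by
  rw [prod_filter]
  refine prod_congr rfl fun t _ => ?_
  rcases h : T t with _ | j
  · simp [rr]
  · simp [rr]

/-- **one product of local functions** -/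
theorem typeI_one {φ : ℕ → ℝ} (l₀ : ℕ) (hφ : ∀ a b, l₀ ≤ a → a ≤ b → φ b ≤ φ a)
    (h0 : ∀ l, l₀ ≤ l → 0 ≤ φ l) (hs : Summable φ) (i : J) {P Sset e₂ : Finset ℕ}
    (hd : Disjoint P Sset) (hd2 : Disjoint P e₂) (hd3 : Disjoint e₂ Sset)
    (hP : ∀ p ∈ P, p.Prime) (he : ∀ p ∈ e₂, p.Prime ∧ ¬ p ∣ A i) (hS : ∀ p ∈ Sset, OKp A B p)
    (T' : Finset ℕ) (hT' : T' ⊆ P) (T : Sset → Option J) :
    |∑' l, cu φ l₀ l * ((∏ p ∈ e₂, hitf A B i p l) * ((∏ p ∈ T', bdf A B p l) *
        (if Sub T (fun t : Sset => colr A B t l) then 1 else 0))) -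
      (∑' l, cu φ l₀ l) * ((∏ p ∈ e₂, (1 / (p : ℝ))) * ((∏ p ∈ T', gg A B p) *
        ∏ t : Sset, rr (fun _ : J => 1 / ((t : ℕ) : ℝ)) (T t)))| ≤
      φ l₀ * ∏ p ∈ T', (gg A B p * p) := by
  classical
  set s₂ : Finset Sset := univ.filter (fun t => T t ≠ none) with hs₂
  set ψ : ℕ → ℕ → ℝ := fun p l => if h : p ∈ Sset then colf (A := A) (B := B) (T ⟨p, h⟩) p l else
    (if p ∈ e₂ then hitf A B i p l else bdf A B p l) with hψ
  set u : Finset ℕ := e₂ ∪ (T' ∪ um s₂) with hu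
  have d1 : Disjoint T' (um s₂) := by
    rw [disjoint_left] at hd ⊢
    intro p hp hp2
    exact hd (hT' hp) (um_mem s₂ hp2)
  have d2 : Disjoint e₂ (T' ∪ um s₂) := by
    rw [disjoint_left] at hd2 hd3 ⊢
    intro p hp hp2
    rcases mem_union.1 hp2 with h | h
    · exact hd2 (hT' h) hp
    · exact hd3 hp (um_mem s₂ h)
  have up : ∀ p ∈ u, p.Prime := by
    intro p hp
    rcases mem_union.1 hp with h | h
    · exact (he p h).1
    · rcases mem_union.1 h with h | h
      · exact hP p (hT' h)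
      · exact (hS p (um_mem s₂ h)).pr
  have uper : ∀ p ∈ u, Function.Periodic (ψ p) p := by
    intro p _ l
    simp only [hψ]
    by_cases h1 : p ∈ Sset
    · simp only [dif_pos h1]
      exact colf_per _ p l
    · simp only [dif_neg h1]
      split_ifs
      · exact hitf_per i p l
      · exact bdf_per p l
  have key : ∀ F : (ℕ → ℝ) → ℕ → ℝ, ∏ p ∈ u, F (ψ p) p = (∏ p ∈ e₂, F (hitf A B i p) p) *
      ((∏ p ∈ T', F (bdf A B p) p) * ∏ t ∈ s₂, F (colf (A := A) (B := B) (T t) t) t) := by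
    intro F
    rw [hu, prod_union d2, prod_union d1]
    congr 1
    · refine prod_congr rfl fun p hp => ?_
      have h1 : p ∉ Sset := fun h => (disjoint_left.1 hd3) hp h
      have h2 : ψ p = hitf A B i p := by
        funext l
        simp only [hψ, dif_neg h1, if_pos hp]
      rw [h2]
    congr 1
    · refine prod_congr rfl fun p hp => ?_
      have h1 : p ∉ Sset := fun h => (disjoint_left.1 hd) (hT' hp) h
      have h3 : p ∉ e₂ := fun h => (disjoint_left.1 hd2) (hT' hp) h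
      have h2 : ψ p = bdf A B p := by
        funext l
        simp only [hψ, dif_neg h1, if_neg h3]
      rw [h2]
    · unfold um
      rw [prod_map]
      refine prod_congr rfl fun t _ => ?_
      have h2 : ψ ((Function.Embedding.subtype fun x => x ∈ Sset) t) =
          colf (A := A) (B := B) (T t) t := by
        funext l
        simp only [hψ]
        rw [dif_pos (show (Function.Embedding.subtype fun x => x ∈ Sset) t ∈ Sset from t.2)]
        rfl
      rw [h2]
      rfl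
  have hmain := per_prod l₀ hφ h0 hs u up ψ uper
  have e1 : ∀ l, ∏ p ∈ u, ψ p l = (∏ p ∈ e₂, hitf A B i p l) * ((∏ p ∈ T', bdf A B p l) *
        (if Sub T (fun t : Sset => colr A B t l) then 1 else 0)) := by
    intro l
    rw [sub_prod, key (fun f _ => f l)]
  have hT1 : ∀ t ∈ s₂, T t ≠ none := fun t ht => (mem_filter.1 ht).2
  have e2 : ∏ p ∈ u, ((∑ r ∈ range p, ψ p r) / (p : ℝ)) = (∏ p ∈ e₂, (1 / (p : ℝ))) *
      ((∏ p ∈ T', gg A B p) * ∏ t : Sset, rr (fun _ : J => 1 / ((t : ℕ) : ℝ)) (T t)) := by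
    rw [rr_prod, key (fun f p => (∑ r ∈ range p, f r) / (p : ℝ))]
    congr 1
    · refine prod_congr rfl fun p hp => ?_
      rw [hitf_sum (he p hp).1 i (he p hp).2]
    congr 1
    refine prod_congr rfl fun t ht => ?_
    rw [colf_sum (hS t t.2) (T t) (hT1 t ht)]
  have e3 : ∏ p ∈ u, ∑ r ∈ range p, |ψ p r| = ∏ p ∈ T', (gg A B p * p) := by
    rw [key (fun f p => ∑ r ∈ range p, |f r|)]
    have f1 : ∏ p ∈ e₂, ∑ r ∈ range p, |hitf A B i p r| = 1 := by
      apply prod_eq_one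
      intro p hp
      rw [← hitf_sum (he p hp).1 i (he p hp).2 (B := B)]
      refine sum_congr rfl fun r _ => ?_
      exact abs_of_nonneg (hitf_01 i p r).1
    have f2 : ∏ t ∈ s₂, ∑ r ∈ range (t : ℕ), |colf (A := A) (B := B) (T t) t r| = 1 := by
      apply prod_eq_one
      intro t ht
      rw [← colf_sum (hS t t.2) (T t) (hT1 t ht)]
      refine sum_congr rfl fun r _ => ?_
      apply abs_of_nonneg
      unfold colf
      split_ifs <;> norm_num
    rw [f1, f2, one_mul, mul_one]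
    refine prod_congr rfl fun p hp => ?_
    have hp0 : (p : ℝ) ≠ 0 := by exact_mod_cast (hP p (hT' hp)).ne_zero
    unfold gg
    rw [div_mul_cancel₀ _ hp0]
    refine sum_congr rfl fun r _ => ?_
    exact abs_of_nonneg (bdf_01 p r).1
  rw [e2, e3] at hmain
  simp only [e1] at hmain
  exact hmain

/-- **the weighted count of a colour condition** -/
theorem typeI_cnt {φ : ℕ → ℝ} (l₀ : ℕ) (hφ : ∀ a b, l₀ ≤ a → a ≤ b → φ b ≤ φ a)
    (h0 : ∀ l, l₀ ≤ l → 0 ≤ φ l) (hs : Summable φ) (i : J) {P Sset e₂ : Finset ℕ}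
    (hd : Disjoint P Sset) (hd2 : Disjoint P e₂) (hd3 : Disjoint e₂ Sset)
    (hP : ∀ p ∈ P, p.Prime) (he : ∀ p ∈ e₂, p.Prime ∧ ¬ p ∣ A i) (hS : ∀ p ∈ Sset, OKp A B p)
    (ρ : Finset ℕ → ℝ) (R₁ : ℝ) (hR₁ : ∑ T' ∈ P.powerset, |ρ T'| * ∏ p ∈ T', (gg A B p * p) ≤ R₁)
    (T : Sset → Option J) :
    |∑' l, (cu φ l₀ l * ((∏ p ∈ e₂, hitf A B i p l) * wt A B P ρ l)) *
        (if Sub T (fun t : Sset => colr A B t l) then 1 else 0) -
      ((∑' l, cu φ l₀ l) * ((∏ p ∈ e₂, (1 / (p : ℝ))) *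
        ∑ T' ∈ P.powerset, ρ T' * ∏ p ∈ T', gg A B p)) *
        ∏ t : Sset, rr (fun _ : J => 1 / ((t : ℕ) : ℝ)) (T t)| ≤ φ l₀ * R₁ := by
  classical
  have hone := fun T' (hT' : T' ∈ P.powerset) => typeI_one l₀ hφ h0 hs i hd hd2 hd3 hP he hS T'
    (mem_powerset.1 hT') T
  have hsT : ∀ T' ∈ P.powerset, Summable (fun l => cu φ l₀ l * ((∏ p ∈ e₂, hitf A B i p l) *
      ((∏ p ∈ T', bdf A B p l) * (if Sub T (fun t : Sset => colr A B t l) then 1 else 0)))) := by
    intro T' _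
    apply Summable.of_norm_bounded (g := fun l => |cu φ l₀ l|) (cu_summable hs l₀).abs
    intro l
    rw [Real.norm_eq_abs, abs_mul]
    apply mul_le_of_le_one_right (abs_nonneg _)
    rw [abs_mul, abs_mul, abs_prod, abs_prod]
    have g1 : ∏ p ∈ e₂, |hitf A B i p l| ≤ 1 := prod_le_one (fun _ _ => abs_nonneg _) fun p _ => by
      rw [abs_of_nonneg (hitf_01 i p l).1]; exact (hitf_01 i p l).2
    have g2 : ∏ p ∈ T', |bdf A B p l| ≤ 1 := prod_le_one (fun _ _ => abs_nonneg _) fun p _ => by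
      rw [abs_of_nonneg (bdf_01 p l).1]; exact (bdf_01 p l).2
    have g3 : |(if Sub T (fun t : Sset => colr A B t l) then (1 : ℝ) else 0)| ≤ 1 := by
      split_ifs <;> simp
    have g4 : 0 ≤ ∏ p ∈ T', |bdf A B p l| := prod_nonneg fun _ _ => abs_nonneg _
    have g5 : 0 ≤ ∏ p ∈ e₂, |hitf A B i p l| := prod_nonneg fun _ _ => abs_nonneg _
    have g6 : (∏ p ∈ T', |bdf A B p l|) *
        |(if Sub T (fun t : Sset => colr A B t l) then (1 : ℝ) else 0)| ≤ 1 := by
      calc _ ≤ 1 * 1 := mul_le_mul g2 g3 (abs_nonneg _) (by norm_num)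
        _ = 1 := one_mul _
    calc _ ≤ 1 * 1 := mul_le_mul g1 g6 (mul_nonneg g4 (abs_nonneg _)) (by norm_num)
      _ = 1 := one_mul _
  have e1 : ∑' l, (cu φ l₀ l * ((∏ p ∈ e₂, hitf A B i p l) * wt A B P ρ l)) *
        (if Sub T (fun t : Sset => colr A B t l) then 1 else 0) =
      ∑ T' ∈ P.powerset, ρ T' * ∑' l, cu φ l₀ l * ((∏ p ∈ e₂, hitf A B i p l) *
      ((∏ p ∈ T', bdf A B p l) * (if Sub T (fun t : Sset => colr A B t l) then 1 else 0))) := by
    simp_rw [← tsum_mul_left]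
    rw [← Summable.tsum_finsetSum (fun T' hT' => (hsT T' hT').mul_left _)]
    refine tsum_congr fun l => ?_
    unfold wt
    rw [mul_sum, mul_sum, sum_mul]
    refine sum_congr rfl fun T' _ => ?_
    ring
  have e2 : ((∑' l, cu φ l₀ l) * ((∏ p ∈ e₂, (1 / (p : ℝ))) *
        ∑ T' ∈ P.powerset, ρ T' * ∏ p ∈ T', gg A B p)) *
        ∏ t : Sset, rr (fun _ : J => 1 / ((t : ℕ) : ℝ)) (T t) =
      ∑ T' ∈ P.powerset, ρ T' * ((∑' l, cu φ l₀ l) * ((∏ p ∈ e₂, (1 / (p : ℝ))) *
        ((∏ p ∈ T', gg A B p) * ∏ t : Sset, rr (fun _ : J => 1 / ((t : ℕ) : ℝ)) (T t)))) := by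
    rw [mul_sum, mul_sum, sum_mul]
    refine sum_congr rfl fun T' _ => ?_
    ring
  rw [e1, e2, ← sum_sub_distrib]
  have hφ0 : 0 ≤ φ l₀ := h0 l₀ le_rfl
  refine le_trans (abs_sum_le_sum_abs _ _) (le_trans ?_ (mul_le_mul_of_nonneg_left hR₁ hφ0))
  rw [mul_sum]
  refine sum_le_sum fun T' hT' => ?_
  rw [← mul_sub, abs_mul]
  refine (mul_le_mul_of_nonneg_left (hone T' hT') (abs_nonneg _)).trans (le_of_eq ?_)
  ring

end

section
variable {S J : Type} [Fintype S] [DecidableEq S] [Fintype J] [DecidableEq J]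

/-- **passage to a finite sum** -/
theorem transfer (ν : ℕ → ℝ) (hs : Summable ν) (ξ : ℕ → S → Option J) :
    ∃ (N : Finset ℕ) (ν' : ℕ → ℝ) (ξ' : ℕ → S → Option J),
      ∀ G : (S → Option J) → ℝ, ∑ n ∈ N, ν' n * G (ξ' n) = ∑' l, ν l * G (ξ l) := by
  classical
  set e := Fintype.equivFin (S → Option J) with he
  set c := Fintype.card (S → Option J) with hc
  set ξ' : ℕ → S → Option J := fun n => if h : n < c then e.symm ⟨n, h⟩ else fun _ => none with hξ'
  refine ⟨range c, fun n => ∑' l, (if ξ l = ξ' n then ν l else 0), ξ', fun G => ?_⟩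
  have hsx : ∀ x : S → Option J, Summable (fun l => if ξ l = x then ν l else 0) := by
    intro x
    apply (hs.indicator {l | ξ l = x}).congr
    intro l
    rw [Set.indicator_apply]
    simp only [Set.mem_ofPred_eq]
  have h1 : ∑ n ∈ range c, (∑' l, (if ξ l = ξ' n then ν l else 0)) * G (ξ' n) =
      ∑ x : S → Option J, (∑' l, (if ξ l = x then ν l else 0)) * G x := by
    rw [← Fin.sum_univ_eq_sum_range (fun n => (∑' l, (if ξ l = ξ' n then ν l else 0)) * G (ξ' n)) c]
    have h2 : ∀ n : Fin c, ξ' n = e.symm n := by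
      intro n
      simp only [hξ', dif_pos n.2]
    simp_rw [h2]
    exact Equiv.sum_comp e.symm (fun x => (∑' l, (if ξ l = x then ν l else 0)) * G x)
  rw [h1]
  simp_rw [← tsum_mul_right]
  rw [← Summable.tsum_finsetSum (fun x _ => (hsx x).mul_right _)]
  refine tsum_congr fun l => ?_
  rw [sum_eq_single (ξ l)]
  · rw [if_pos rfl]
  · intro x _ hx
    rw [if_neg (fun h => hx h.symm), zero_mul]
  · intro h; exact absurd (mem_univ _) h

end

end Run7.h296
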