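import Pool.Agent.Run7.h296.TI
import Pool.Agent.R498.MT.Param2

/-!
Sums of the squares with smooth weights.
-/

set_option autoImplicit false

open Finset

namespace Run7.h296

open Pool.Agent.R498.MT

section
variable {J : Type} [Fintype J] [DecidableEq J] {A B : J → ℕ}

theorem wt_abs (P : Finset ℕ) (ρ : Finset ℕ → ℝ) (l : ℕ) :
    |wt A B P ρ l| ≤ ∑ T ∈ P.powerset, |ρ T| := by
  unfold wt
  refine (abs_sum_le_sum_abs _ _).trans (sum_le_sum fun T _ => ?_)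
  rw [abs_mul, abs_prod]
  apply mul_le_of_le_one_right (abs_nonneg _)
  exact prod_le_one (fun _ _ => abs_nonneg _) fun p _ => by
    rw [abs_of_nonneg (bdf_01 p l).1]; exact (bdf_01 p l).2

theorem nu_summable {φ : ℕ → ℝ} (hs : Summable φ) (l₀ : ℕ) (i : J) (P e₂ : Finset ℕ)
    (ρ : Finset ℕ → ℝ) :
    Summable (fun l => cu φ l₀ l * ((∏ p ∈ e₂, hitf A B i p l) * wt A B P ρ l)) := by
  apply Summable.of_norm_bounded (g := fun l => |cu φ l₀ l| * ∑ T ∈ P.powerset, |ρ T|)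
    ((cu_summable hs l₀).abs.mul_right _)
  intro l
  rw [Real.norm_eq_abs, abs_mul]
  apply mul_le_mul_of_nonneg_left _ (abs_nonneg _)
  rw [abs_mul, abs_prod]
  have g1 : ∏ p ∈ e₂, |hitf A B i p l| ≤ 1 := prod_le_one (fun _ _ => abs_nonneg _) fun p _ => by
    rw [abs_of_nonneg (hitf_01 i p l).1]; exact (hitf_01 i p l).2
  calc _ ≤ 1 * |wt A B P ρ l| := mul_le_mul_of_nonneg_right g1 (abs_nonneg _)
    _ ≤ _ := by rw [one_mul]; exact wt_abs P ρ l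

/-- **the count as a finite sum** -/
theorem cntI {φ : ℕ → ℝ} (l₀ : ℕ) (hφ : ∀ a b, l₀ ≤ a → a ≤ b → φ b ≤ φ a)
    (h0 : ∀ l, l₀ ≤ l → 0 ≤ φ l) (hs : Summable φ) (i : J) {P Sset e₂ : Finset ℕ}
    (hd : Disjoint P Sset) (hd2 : Disjoint P e₂) (hd3 : Disjoint e₂ Sset)
    (hP : ∀ p ∈ P, p.Prime) (he : ∀ p ∈ e₂, p.Prime ∧ ¬ p ∣ A i) (hS : ∀ p ∈ Sset, OKp A B p)
    (ρ : Finset ℕ → ℝ) (R₁ : ℝ) (hR₁ : ∑ T' ∈ P.powerset, |ρ T'| * ∏ p ∈ T', (gg A B p * p) ≤ R₁)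
    (E : ℝ) (Good : (Sset → Option J) → Prop)
    (hE : ∀ T, Good T → φ l₀ * R₁ ≤ E * ((∑' l, cu φ l₀ l) * ((∏ p ∈ e₂, (1 / (p : ℝ))) *
        ∑ T' ∈ P.powerset, ρ T' * ∏ p ∈ T', gg A B p)) *
        ∏ t : Sset, rr (fun _ : J => 1 / ((t : ℕ) : ℝ)) (T t)) :
    ∃ (N : Finset ℕ) (ν' : ℕ → ℝ) (ξ' : ℕ → Sset → Option J),
      (∀ G : (Sset → Option J) → ℝ, ∑ n ∈ N, ν' n * G (ξ' n) =
        ∑' l, (cu φ l₀ l * ((∏ p ∈ e₂, hitf A B i p l) * wt A B P ρ l)) *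
          G (fun t : Sset => colr A B t l)) ∧
      Cnt N ν' ξ' (fun (t : Sset) (_ : J) => 1 / ((t : ℕ) : ℝ))
        ((∑' l, cu φ l₀ l) * ((∏ p ∈ e₂, (1 / (p : ℝ))) *
        ∑ T' ∈ P.powerset, ρ T' * ∏ p ∈ T', gg A B p)) E Good := by
  obtain ⟨N, ν', ξ', h⟩ := transfer (fun l => cu φ l₀ l * ((∏ p ∈ e₂, hitf A B i p l) *
    wt A B P ρ l)) (nu_summable hs l₀ i P e₂ ρ) (fun l => fun t : Sset => colr A B t l)
  refine ⟨N, ν', ξ', h, ?_⟩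
  intro T hT
  rw [h (fun x => if Pool.Agent.R498.MT.Sub T x then 1 else 0)]
  exact (typeI_cnt l₀ hφ h0 hs i hd hd2 hd3 hP he hS ρ R₁ hR₁ T).trans (hE T hT)

/-- **the sum of the squares with a target condition** -/
theorem targetI [Nonempty J] {φ : ℕ → ℝ} (l₀ : ℕ) (hφ : ∀ a b, l₀ ≤ a → a ≤ b → φ b ≤ φ a)
    (h0 : ∀ l, l₀ ≤ l → 0 ≤ φ l) (hs : Summable φ) (i : J) {P Sset e₂ : Finset ℕ}
    (hd : Disjoint P Sset) (hd2 : Disjoint P e₂) (hd3 : Disjoint e₂ Sset)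
    (hP : ∀ p ∈ P, p.Prime) (he : ∀ p ∈ e₂, p.Prime ∧ ¬ p ∣ A i)
    (hS : ∀ p ∈ Sset, OKp A B p ∧ 3 ≤ p)
    (ρ : Finset ℕ → ℝ) (R₁ : ℝ) (hR₁ : ∑ T' ∈ P.powerset, |ρ T'| * ∏ p ∈ T', (gg A B p * p) ≤ R₁)
    (y : (Sset → Option J) → ℝ) (hy : ∀ σ, |y σ| ≤ 1) (l : Sset → ℝ) (hl : ∀ t, 0 ≤ l t) (R : ℝ)
    (hyR : ∀ σ, y σ ≠ 0 → lt l σ ≤ R) (T₀ : Finset Sset) (E : ℝ) (hE0 : 0 ≤ E)
    (hX : 0 ≤ ((∑' l, cu φ l₀ l) * ((∏ p ∈ e₂, (1 / (p : ℝ))) *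
        ∑ T' ∈ P.powerset, ρ T' * ∏ p ∈ T', gg A B p)))
    (hE : ∀ T : Sset → Option J, lt l T ≤ 2 * R + lz l T₀ →
        φ l₀ * R₁ ≤ E * ((∑' l, cu φ l₀ l) * ((∏ p ∈ e₂, (1 / (p : ℝ))) *
        ∑ T' ∈ P.powerset, ρ T' * ∏ p ∈ T', gg A B p)) *
        ∏ t : Sset, rr (fun _ : J => 1 / ((t : ℕ) : ℝ)) (T t)) :
    |∑' n, (cu φ l₀ n * ((∏ p ∈ e₂, hitf A B i p n) * wt A B P ρ n)) *
        (Lam (some i) (fun t : Sset => ((t : ℕ) : ℝ)) (fun t : Sset => 1 / (((t : ℕ) : ℝ) - 1)) y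
          (fun t : Sset => colr A B t n) ^ 2 *
          (if ∀ t ∈ T₀, colr A B (t : ℕ) n = some i then 1 else 0)) -
      ((∑' l, cu φ l₀ l) * ((∏ p ∈ e₂, (1 / (p : ℝ))) *
        ∑ T' ∈ P.powerset, ρ T' * ∏ p ∈ T', gg A B p)) * (∏ t ∈ T₀, 1 / ((t : ℕ) : ℝ)) *
        ∑ σ, ∑ τ, cw (fun t : Sset => 1 / (((t : ℕ) : ℝ) - 1)) y σ *
          cw (fun t : Sset => 1 / (((t : ℕ) : ℝ) - 1)) y τ *
          ∏ t : Sset, VM (some i) ((t : ℕ) : ℝ) (σ t) (τ t)| ≤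
    ((∑' l, cu φ l₀ l) * ((∏ p ∈ e₂, (1 / (p : ℝ))) *
        ∑ T' ∈ P.powerset, ρ T' * ∏ p ∈ T', gg A B p)) * (∏ t ∈ T₀, 1 / ((t : ℕ) : ℝ)) *
      (AA J (fun t : Sset => 1 / (((t : ℕ) : ℝ) - 1)) *
        (E + (Real.exp ((Fintype.card J : ℝ) ^ 2 * ∑ t : Sset, (1 / (((t : ℕ) : ℝ) - 1)) ^ 2 +
      5 * (Fintype.card J : ℝ) ^ 2 * ∑ t ∈ T₀, (1 / (((t : ℕ) : ℝ) - 1))) - 1))) := by
  have hq3 : ∀ t : Sset, (3 : ℝ) ≤ ((t : ℕ) : ℝ) := fun t => by exact_mod_cast (hS t t.2).2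
  obtain ⟨N, ν', ξ', h1, h2⟩ := cntI l₀ hφ h0 hs i hd hd2 hd3 hP he (fun p hp => (hS p hp).1) ρ R₁
    hR₁ E (fun T => lt l T ≤ 2 * R + lz l T₀) hE
  have h3 := one_target (J := J) (N := N) (ν := ν') (ξ := ξ') (E := E)
    (Good := fun T => lt l T ≤ 2 * R + lz l T₀) (some i) (fun t : Sset => ((t : ℕ) : ℝ))
    (fun t : Sset => 1 / ((t : ℕ) : ℝ)) (fun t : Sset => 1 / (((t : ℕ) : ℝ) - 1))
    (fun t => by linarith [hq3 t]) (fun t => by positivity)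
    (fun t => by
      have := hq3 t
      apply div_nonneg (by norm_num) (by linarith))
    (fun t => by
      have := hq3 t
      rw [div_le_one (by linarith)]
      linarith)
    (fun t => by
      have := hq3 t
      rw [one_div, inv_mul_cancel₀ (by linarith)]) y hy hX hE0 T₀ (fun t _ => by simp)
    (by
      intro T hT
      have h4 := h2 T hT
      have e : ∀ t : Sset, rr (rd (some i) ((t : ℕ) : ℝ) (1 / ((t : ℕ) : ℝ))) (T t) =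
          rr (fun _ : J => 1 / ((t : ℕ) : ℝ)) (T t) := by
        intro t
        rcases T t with _ | j
        · rfl
        · simp [rr, rd]
      simp_rw [e]
      exact h4)
    (by
      intro σ τ hσ hτ U hU
      have h2 := good_of (some i) (fun t : Sset => ((t : ℕ) : ℝ)) l hl T₀ σ τ U hU
      have h3 := hyR σ hσ
      have h4 := hyR τ hτ
      show lt l U ≤ 2 * R + lz l T₀
      linarith)
  have h5 := h1 (fun x => Lam (some i) (fun t : Sset => ((t : ℕ) : ℝ))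
    (fun t : Sset => 1 / (((t : ℕ) : ℝ) - 1)) y x ^ 2 * (if ∀ t ∈ T₀, x t = some i then 1 else 0))
  simp only at h5
  rw [h5] at h3
  exact h3

end

end Run7.h296
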