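import Pool.Agent.Run7.h296.TJ

/-!
Sums of the squares against the weights of a second sieve.
-/

set_option autoImplicit false

open Finset

namespace Run7.h296

open Pool.Agent.R498.MT

section
variable {J : Type} [Fintype J] [DecidableEq J] {A B : J → ℕ}

/-- the part in the subtype -/
def tin (Sset T : Finset ℕ) : Finset Sset := univ.filter (fun t : Sset => (t : ℕ) ∈ T)

/-- the part outside -/
def tout (Sset T : Finset ℕ) : Finset ℕ := T.filter (fun p => p ∉ Sset)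

theorem split_T (Sset T : Finset ℕ) : T = tout Sset T ∪ um (tin Sset T) := by
  ext p
  rw [mem_union]
  unfold tout um tin
  rw [mem_filter, mem_map]
  constructor
  · intro hp
    by_cases h : p ∈ Sset
    · right
      exact ⟨⟨p, h⟩, mem_filter.2 ⟨mem_univ _, hp⟩, rfl⟩
    · left
      exact ⟨hp, h⟩
  · rintro (h | ⟨t, ht, rfl⟩)
    · exact h.1
    · exact (mem_filter.1 ht).2

theorem prod_T {M : Type} [CommMonoid M] (Sset T : Finset ℕ) (F : ℕ → M) :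
    ∏ p ∈ T, F p = (∏ p ∈ tout Sset T, F p) * ∏ t ∈ tin Sset T, F t := by
  have hdis : Disjoint (tout Sset T) (um (tin Sset T)) := by
    rw [disjoint_left]
    intro p h1 h2
    exact (mem_filter.1 h1).2 (um_mem _ h2)
  conv_lhs => rw [split_T Sset T]
  rw [prod_union hdis]
  congr 1
  unfold um
  rw [prod_map]
  rfl

theorem hit_in {Sset : Finset ℕ} (hS : ∀ p ∈ Sset, OKp A B p) (i : J) (T : Finset ℕ) (n : ℕ) :
    ∏ t ∈ tin Sset T, hitf A B i t n =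
      (if ∀ t ∈ tin Sset T, colr A B (t : ℕ) n = some i then 1 else 0) := by
  unfold hitf
  rw [Finset.prod_ite_zero]
  have h : (∀ t ∈ tin Sset T, (t : ℕ) ∣ B i + A i * n) ↔
      ∀ t ∈ tin Sset T, colr A B (t : ℕ) n = some i := by
    refine forall_congr' fun t => forall_congr' fun _ => ?_
    exact (colr_some (hS t t.2) n i).symm
  by_cases h2 : ∀ t ∈ tin Sset T, colr A B (t : ℕ) n = some i
  · rw [if_pos h2, if_pos (h.2 h2)]
    simp
  · rw [if_neg h2, if_neg (fun h3 => h2 (h.1 h3))]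

/-- the size of a prime -/
noncomputable def lsz (Y : ℝ) {Sset : Finset ℕ} (t : Sset) : ℝ := Real.log (t : ℕ) / Real.log Y

theorem rr_lower {Y : ℝ} (hY : 1 < Y) {Sset : Finset ℕ} (hS : ∀ p ∈ Sset, p.Prime)
    (U : Sset → Option J) (T₀ : Finset Sset) (h : lt (lsz Y) U ≤ 1 + lz (lsz Y) T₀) :
    1 / (Y * ∏ t ∈ T₀, ((t : ℕ) : ℝ)) ≤ ∏ t : Sset, rr (fun _ : J => 1 / ((t : ℕ) : ℝ)) (U t) := by
  have hlY : 0 < Real.log Y := Real.log_pos hY
  have hpos : ∀ t : Sset, (0 : ℝ) < ((t : ℕ) : ℝ) := fun t => by exact_mod_cast (hS t t.2).pos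
  rw [rr_prod, prod_div_distrib, prod_const_one]
  set s := univ.filter (fun t => U t ≠ none) with hs
  have hs0 : 0 < ∏ t ∈ s, ((t : ℕ) : ℝ) := prod_pos fun t _ => hpos t
  have hT0 : 0 < ∏ t ∈ T₀, ((t : ℕ) : ℝ) := prod_pos fun t _ => hpos t
  apply one_div_le_one_div_of_le hs0
  rw [← Real.log_le_log_iff hs0 (by positivity), Real.log_mul (by positivity) hT0.ne',
    Real.log_prod (fun t _ => (hpos t).ne'), Real.log_prod (fun t _ => (hpos t).ne')]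
  have e1 : lt (lsz Y) U = (∑ t ∈ s, Real.log ((t : ℕ) : ℝ)) / Real.log Y := by
    unfold lt lsz
    rw [hs, sum_div, sum_filter]
    refine sum_congr rfl fun t _ => ?_
    by_cases h : U t = none <;> simp [h]
  have e2 : lz (lsz Y) T₀ = (∑ t ∈ T₀, Real.log ((t : ℕ) : ℝ)) / Real.log Y := by
    unfold lz lsz
    rw [sum_div]
  rw [e1, e2, div_le_iff₀ hlY, add_mul, div_mul_cancel₀ _ hlY.ne', one_mul] at h
  exact h

theorem lin_aux (s : Finset (Finset ℕ)) (X M : ℝ) (a : Finset ℕ → ℝ) :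
    X * (∑ T ∈ s, a T) * M = ∑ T ∈ s, X * a T * M := by rw [mul_sum, sum_mul]

theorem summ_bd {ν : ℕ → ℝ} (hν : Summable ν) (g : ℕ → ℝ) (C : ℝ) (hg : ∀ n, |g n| ≤ C) :
    Summable (fun n => ν n * g n) := by
  refine Summable.of_norm_bounded (hν.abs.mul_right C) fun n => ?_
  rw [Real.norm_eq_abs, abs_mul]
  exact mul_le_mul_of_nonneg_left (hg n) (abs_nonneg _)

/-- **the sums against a second sieve** -/
theorem sumA [Nonempty J] {φ : ℕ → ℝ} (l₀ : ℕ) (hφ : ∀ a b, l₀ ≤ a → a ≤ b → φ b ≤ φ a)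
    (h0 : ∀ l, l₀ ≤ l → 0 ≤ φ l) (hs : Summable φ) (i : J) {P Sset Q : Finset ℕ}
    (hd : Disjoint P Sset) (hd2 : Disjoint P Q)
    (hP : ∀ p ∈ P, p.Prime) (hQ : ∀ p ∈ Q, p.Prime ∧ ¬ p ∣ A i)
    (hS : ∀ p ∈ Sset, OKp A B p ∧ 3 ≤ p)
    (ρ : Finset ℕ → ℝ) (R₁ : ℝ) (hR₁ : ∑ T' ∈ P.powerset, |ρ T'| * ∏ p ∈ T', (gg A B p * p) ≤ R₁)
    (hR₁0 : 0 ≤ R₁)
    (y : (Sset → Option J) → ℝ) (hy : ∀ σ, |y σ| ≤ 1) {Y : ℝ} (hY : 1 < Y)
    (hyR : ∀ σ, y σ ≠ 0 → lt (lsz Y) σ ≤ 1 / 2) (E : ℝ) (hE0 : 0 ≤ E)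
    (hX : 0 ≤ (∑' l, cu φ l₀ l) * ∑ T' ∈ P.powerset, ρ T' * ∏ p ∈ T', gg A B p)
    (ρa : Finset ℕ → ℝ) (La : ℝ) (hLa : ∀ T ⊆ Q, ρa T ≠ 0 → ((MS T : ℕ) : ℝ) ≤ La)
    (hE : φ l₀ * R₁ * (Y * La) ≤
      E * ((∑' l, cu φ l₀ l) * ∑ T' ∈ P.powerset, ρ T' * ∏ p ∈ T', gg A B p))
    (ω₂ : ℝ) (hω₂ : ∀ T ⊆ Q, ρa T ≠ 0 → ∑ t ∈ tin Sset T, (1 / (((t : ℕ) : ℝ) - 1)) ≤ ω₂) :
    |∑' n, (cu φ l₀ n * wt A B P ρ n) * ((∑ T ∈ Q.powerset, ρa T * ∏ p ∈ T, hitf A B i p n) *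
        Lam (some i) (fun t : Sset => ((t : ℕ) : ℝ)) (fun t : Sset => 1 / (((t : ℕ) : ℝ) - 1)) y
          (fun t : Sset => colr A B t n) ^ 2) -
      ((∑' l, cu φ l₀ l) * ∑ T' ∈ P.powerset, ρ T' * ∏ p ∈ T', gg A B p) *
        (∑ T ∈ Q.powerset, ρa T * ∏ p ∈ T, (1 / (p : ℝ))) *
        ∑ σ, ∑ τ, cw (fun t : Sset => 1 / (((t : ℕ) : ℝ) - 1)) y σ *
          cw (fun t : Sset => 1 / (((t : ℕ) : ℝ) - 1)) y τ *
          ∏ t : Sset, VM (some i) ((t : ℕ) : ℝ) (σ t) (τ t)| ≤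
    ((∑' l, cu φ l₀ l) * ∑ T' ∈ P.powerset, ρ T' * ∏ p ∈ T', gg A B p) *
      (∑ T ∈ Q.powerset, |ρa T| * ∏ p ∈ T, (1 / (p : ℝ))) *
      (AA J (fun t : Sset => 1 / (((t : ℕ) : ℝ) - 1)) *
        (E + (Real.exp ((Fintype.card J : ℝ) ^ 2 * ∑ t : Sset, (1 / (((t : ℕ) : ℝ) - 1)) ^ 2 +
      5 * (Fintype.card J : ℝ) ^ 2 * ω₂) - 1))) := by
  classical
  set μ : Sset → ℝ := fun t => 1 / (((t : ℕ) : ℝ) - 1) with hμ
  set X₀ : ℝ := (∑' l, cu φ l₀ l) * ∑ T' ∈ P.powerset, ρ T' * ∏ p ∈ T', gg A B p with hX₀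
  set Mt' : ℝ := ∑ σ, ∑ τ, cw μ y σ * cw μ y τ * ∏ t : Sset, VM (some i) ((t : ℕ) : ℝ) (σ t) (τ t)
    with hMt
  have hSp : ∀ p ∈ Sset, p.Prime := fun p hp => (hS p hp).1.pr
  have hSO : ∀ p ∈ Sset, OKp A B p := fun p hp => (hS p hp).1
  have hl0 : ∀ t : Sset, 0 ≤ lsz Y t := by
    intro t
    unfold lsz
    exact div_nonneg (Real.log_natCast_nonneg _) (Real.log_pos hY).le
  have hμ0 : ∀ t : Sset, 0 ≤ μ t := by
    intro t
    have : (3 : ℝ) ≤ ((t : ℕ) : ℝ) := by exact_mod_cast (hS t t.2).2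
    simp only [hμ]
    apply div_nonneg (by norm_num) (by linarith)
  set F : ℝ → ℝ := fun w => AA J μ * (E + (Real.exp ((Fintype.card J : ℝ) ^ 2 * ∑ t : Sset, μ t ^ 2 +
      5 * (Fintype.card J : ℝ) ^ 2 * w) - 1)) with hF
  have hAA : 0 ≤ AA J μ := by
    unfold AA
    exact prod_nonneg fun t _ => by have := hμ0 t; positivity
  obtain ⟨LL, hLL⟩ : ∃ LL : (Sset → Option J) → ℝ, ∀ x,
      LL x = Lam (some i) (fun t : Sset => ((t : ℕ) : ℝ)) μ y x ^ 2 := ⟨_, fun _ => rfl⟩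
  have hLL0 : ∀ x, 0 ≤ LL x := fun x => by rw [hLL]; exact sq_nonneg _
  simp only [← hLL]
  -- one set
  set ST : Finset ℕ → ℝ := fun T => ∑' n, (cu φ l₀ n * ((∏ p ∈ tout Sset T, hitf A B i p n) *
      wt A B P ρ n)) * (LL (fun t : Sset => colr A B t n) *
          (if ∀ t ∈ tin Sset T, colr A B (t : ℕ) n = some i then 1 else 0)) with hST
  have hone : ∀ T ∈ Q.powerset, |ρa T * ST T - X₀ * (ρa T * ∏ p ∈ T, (1 / (p : ℝ))) * Mt'| ≤
      X₀ * (|ρa T| * ∏ p ∈ T, (1 / (p : ℝ))) * F ω₂ := by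
    intro T hT
    rw [mem_powerset] at hT
    by_cases hρ : ρa T = 0
    · rw [hρ]; simp
    have hdo : Disjoint P (tout Sset T) := by
      rw [disjoint_left] at hd2 ⊢
      intro p h1 h2
      exact hd2 h1 (hT (mem_filter.1 h2).1)
    have hdo2 : Disjoint (tout Sset T) Sset := by
      rw [disjoint_left]
      intro p h1 h2
      exact (mem_filter.1 h1).2 h2
    have hoQ : ∀ p ∈ tout Sset T, p.Prime ∧ ¬ p ∣ A i := fun p hp => hQ p (hT (mem_filter.1 hp).1)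
    have hout : 0 < ∏ p ∈ tout Sset T, (p : ℝ) := prod_pos fun p hp => by
      exact_mod_cast (hoQ p hp).1.pos
    have hin : 0 < ∏ t ∈ tin Sset T, ((t : ℕ) : ℝ) := prod_pos fun t _ => by
      exact_mod_cast (hSp t t.2).pos
    have e0 : (∑' l, cu φ l₀ l) * ((∏ p ∈ tout Sset T, (1 / (p : ℝ))) *
        ∑ T' ∈ P.powerset, ρ T' * ∏ p ∈ T', gg A B p) = X₀ * ∏ p ∈ tout Sset T, (1 / (p : ℝ)) := by
      rw [hX₀]; ring
    have hout' : 0 ≤ ∏ p ∈ tout Sset T, (1 / (p : ℝ)) := prod_nonneg fun p _ => by positivity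
    have h1 := targetI l₀ hφ h0 hs i hd hdo hdo2 hP hoQ hS ρ R₁ hR₁ y hy (lsz Y) hl0 (1 / 2) hyR
      (tin Sset T) E hE0 (by rw [e0]; exact mul_nonneg hX hout')
      (by
        intro U hU
        rw [e0]
        have h2 : lt (lsz Y) U ≤ 1 + lz (lsz Y) (tin Sset T) := by
          have e : 2 * (1 / 2 : ℝ) = 1 := by norm_num
          rw [e] at hU
          exact hU
        have h3 := rr_lower hY hSp U (tin Sset T) h2
        have h4 := hLa T hT hρ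
        have h5 : ((MS T : ℕ) : ℝ) = (∏ p ∈ tout Sset T, (p : ℝ)) *
            ∏ t ∈ tin Sset T, ((t : ℕ) : ℝ) := by
          unfold MS
          rw [Nat.cast_prod, prod_T Sset T (fun p => (p : ℝ))]
        rw [h5] at h4
        have hE' : φ l₀ * R₁ * (Y * La) ≤ E * X₀ := hE
        have h6 : 0 ≤ φ l₀ * R₁ := mul_nonneg (h0 l₀ le_rfl) hR₁0
        have hY0 : 0 < Y := by linarith
        have h7 : φ l₀ * R₁ ≤ E * X₀ / (Y * ((∏ p ∈ tout Sset T, (p : ℝ)) *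
            ∏ t ∈ tin Sset T, ((t : ℕ) : ℝ))) := by
          rw [le_div_iff₀ (by positivity)]
          refine le_trans ?_ hE'
          apply mul_le_mul_of_nonneg_left _ h6
          exact mul_le_mul_of_nonneg_left h4 hY0.le
        refine h7.trans ?_
        have h8 : E * X₀ / (Y * ((∏ p ∈ tout Sset T, (p : ℝ)) *
            ∏ t ∈ tin Sset T, ((t : ℕ) : ℝ))) = E * (X₀ * ∏ p ∈ tout Sset T, (1 / (p : ℝ))) *
            (1 / (Y * ∏ t ∈ tin Sset T, ((t : ℕ) : ℝ))) := by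
          rw [prod_div_distrib, prod_const_one]
          field_simp
        rw [h8]
        apply mul_le_mul_of_nonneg_left h3
        exact mul_nonneg hE0 (mul_nonneg hX hout'))
    rw [e0] at h1
    rw [← hμ] at h1
    simp only [← hLL] at h1
    have e1 : ∏ p ∈ T, (1 / (p : ℝ)) = (∏ p ∈ tout Sset T, (1 / (p : ℝ))) *
        ∏ t ∈ tin Sset T, (1 / ((t : ℕ) : ℝ)) := prod_T Sset T (fun p => 1 / (p : ℝ))
    have h9 : 0 ≤ ∏ t ∈ tin Sset T, (1 / ((t : ℕ) : ℝ)) := prod_nonneg fun t _ => by positivity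
    have h10 : |ST T - X₀ * (∏ p ∈ T, (1 / (p : ℝ))) * Mt'| ≤
        X₀ * (∏ p ∈ T, (1 / (p : ℝ))) * F ω₂ := by
      rw [e1]
      refine le_trans (le_of_eq ?_) (h1.trans ?_)
      · congr 1
        rw [hST, hMt]
        ring
      · have h11 : AA J μ * (E + (Real.exp ((Fintype.card J : ℝ) ^ 2 * ∑ t : Sset, μ t ^ 2 +
            5 * (Fintype.card J : ℝ) ^ 2 * ∑ t ∈ tin Sset T, μ t) - 1)) ≤ F ω₂ := by
          rw [hF]
          apply mul_le_mul_of_nonneg_left _ hAA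
          have h12 := hω₂ T hT hρ
          have h13 : Real.exp ((Fintype.card J : ℝ) ^ 2 * ∑ t : Sset, μ t ^ 2 +
            5 * (Fintype.card J : ℝ) ^ 2 * ∑ t ∈ tin Sset T, μ t) ≤
            Real.exp ((Fintype.card J : ℝ) ^ 2 * ∑ t : Sset, μ t ^ 2 +
            5 * (Fintype.card J : ℝ) ^ 2 * ω₂) := by
            apply Real.exp_le_exp.2
            have := mul_le_mul_of_nonneg_left h12
              (show (0 : ℝ) ≤ 5 * (Fintype.card J : ℝ) ^ 2 by positivity)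
            linarith
          linarith
        have h14 : 0 ≤ X₀ * (∏ p ∈ tout Sset T, (1 / (p : ℝ))) *
            ∏ t ∈ tin Sset T, (1 / ((t : ℕ) : ℝ)) := mul_nonneg (mul_nonneg hX hout') h9
        refine (mul_le_mul_of_nonneg_left h11 h14).trans (le_of_eq ?_)
        ring
    have e2 : ρa T * ST T - X₀ * (ρa T * ∏ p ∈ T, (1 / (p : ℝ))) * Mt' =
        ρa T * (ST T - X₀ * (∏ p ∈ T, (1 / (p : ℝ))) * Mt') := by ring
    rw [e2, abs_mul]
    refine (mul_le_mul_of_nonneg_left h10 (abs_nonneg _)).trans (le_of_eq ?_)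
    ring
  -- the whole sum
  have hsT : ∀ T ∈ Q.powerset, Summable (fun n => (cu φ l₀ n *
      ((∏ p ∈ tout Sset T, hitf A B i p n) * wt A B P ρ n)) *
      (LL (fun t : Sset => colr A B t n) *
          (if ∀ t ∈ tin Sset T, colr A B (t : ℕ) n = some i then 1 else 0))) := by
    intro T _
    apply summ_bd (nu_summable (A := A) (B := B) hs l₀ i P (tout Sset T) ρ) _ (∑ x, LL x)
    intro n
    have h2 : LL (fun t : Sset => colr A B t n) ≤ ∑ x, LL x :=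
      single_le_sum (fun x _ => hLL0 x) (mem_univ _)
    have h3 := hLL0 (fun t : Sset => colr A B t n)
    split_ifs
    · rw [mul_one, abs_of_nonneg h3]
      exact h2
    · rw [mul_zero, abs_zero]
      exact h3.trans h2
  have e3 : ∑' n, (cu φ l₀ n * wt A B P ρ n) *
      ((∑ T ∈ Q.powerset, ρa T * ∏ p ∈ T, hitf A B i p n) *
        LL (fun t : Sset => colr A B t n)) = ∑ T ∈ Q.powerset, ρa T * ST T := by
    simp only [hST]
    simp_rw [← tsum_mul_left]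
    rw [← Summable.tsum_finsetSum (fun T hT => (hsT T hT).mul_left _)]
    refine tsum_congr fun n => ?_
    rw [sum_mul, mul_sum]
    refine sum_congr rfl fun T _ => ?_
    rw [prod_T Sset T (fun p => hitf A B i p n), hit_in hSO i T n]
    ring
  rw [e3]
  have e4 : X₀ * (∑ T ∈ Q.powerset, ρa T * ∏ p ∈ T, (1 / (p : ℝ))) * Mt' =
      ∑ T ∈ Q.powerset, X₀ * (ρa T * ∏ p ∈ T, (1 / (p : ℝ))) * Mt' := lin_aux _ _ _ _
  have e5 : X₀ * (∑ T ∈ Q.powerset, |ρa T| * ∏ p ∈ T, (1 / (p : ℝ))) * F ω₂ =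
      ∑ T ∈ Q.powerset, X₀ * (|ρa T| * ∏ p ∈ T, (1 / (p : ℝ))) * F ω₂ := lin_aux _ _ _ _
  show |_ - X₀ * (∑ T ∈ Q.powerset, ρa T * ∏ p ∈ T, (1 / (p : ℝ))) * Mt'| ≤
    X₀ * (∑ T ∈ Q.powerset, |ρa T| * ∏ p ∈ T, (1 / (p : ℝ))) * F ω₂
  rw [e4, e5, ← sum_sub_distrib]
  exact (abs_sum_le_sum_abs _ _).trans (sum_le_sum hone)

end

end Run7.h296
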