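import Pool.Agent.Run7.h296.Nm
import Pool.Agent.Run7.h296.Dt

/-!
Products over the primes.
-/

set_option autoImplicit false

open Finset

namespace Run7.h296

open Pool.Agent.R498.MT
open Pool.Agent.W23.DC (tt pr mem_pr le_tt_iff tt_lt_iff)
open Pool.Agent.H318R2.Cr (V V_pos V_le_one cz_bounds Pz)

/-- the small sieving primes -/
def PS (Jn W : ℕ) : Finset ℕ := (range (2 ^ 2 ^ Jn)).filter (fun p => p.Prime ∧ ¬ p ∣ W)

/-- the large sieving primes -/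
def QS (Jn e : ℕ) : Finset ℕ := (Icc (2 ^ 2 ^ Jn) (2 ^ 2 ^ (Jn + e + 6))).filter Nat.Prime

/-- the colouring primes -/
noncomputable def SS (Jn e : ℕ) : Finset ℕ := pr (2 ^ 2 ^ (Jn + e)) ((1 / 2 : ℝ) ^ e) 1

theorem mem_PS {Jn W p : ℕ} : p ∈ PS Jn W ↔ p.Prime ∧ p < 2 ^ 2 ^ Jn ∧ ¬ p ∣ W := by
  unfold PS
  rw [mem_filter, mem_range]
  tauto

theorem pow_not_prime {n : ℕ} (hn : 1 ≤ n) : ¬ (2 ^ 2 ^ n).Prime := by
  intro h
  have h1 := h.eq_one_or_self_of_dvd 2 (dvd_pow_self 2 (by positivity))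
  have h2 : 2 ^ 2 ≤ 2 ^ 2 ^ n := Nat.pow_le_pow_right (by norm_num) (by
    calc 2 = 2 ^ 1 := by norm_num
      _ ≤ 2 ^ n := Nat.pow_le_pow_right (by norm_num) hn)
  omega

theorem mem_QS {Jn e p : ℕ} : p ∈ QS Jn e ↔ p.Prime ∧ 2 ^ 2 ^ Jn ≤ p ∧ p < 2 ^ 2 ^ (Jn + e + 6) := by
  unfold QS
  rw [mem_filter, mem_Icc]
  constructor
  · rintro ⟨⟨h1, h2⟩, h3⟩
    refine ⟨h3, h1, lt_of_le_of_ne h2 fun h => ?_⟩
    rw [h] at h3
    exact pow_not_prime (by omega) h3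
  · rintro ⟨h1, h2, h3⟩
    exact ⟨⟨h2, h3.le⟩, h1⟩

theorem rpow_half (Jn e : ℕ) : (((2 ^ 2 ^ (Jn + e) : ℕ)) : ℝ) ^ ((1 / 2 : ℝ) ^ e) = ((2 ^ 2 ^ Jn : ℕ) : ℝ) := by
  push_cast
  rw [← Real.rpow_natCast (2 : ℝ) (2 ^ (Jn + e)), ← Real.rpow_mul (by norm_num),
    ← Real.rpow_natCast (2 : ℝ) (2 ^ Jn)]
  congr 1
  push_cast
  rw [pow_add, mul_assoc, ← mul_pow]
  norm_num

theorem two_le_pp (n : ℕ) : 2 ≤ 2 ^ 2 ^ n := by
  calc 2 = 2 ^ 1 := by norm_num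
    _ ≤ 2 ^ 2 ^ n := Nat.pow_le_pow_right (by norm_num) Nat.one_le_two_pow

theorem mem_SS {Jn e p : ℕ} : p ∈ SS Jn e ↔ p.Prime ∧ 2 ^ 2 ^ Jn ≤ p ∧ p < 2 ^ 2 ^ (Jn + e) := by
  unfold SS
  rw [mem_pr]
  have h2 : 2 ≤ 2 ^ 2 ^ (Jn + e) := two_le_pp _
  constructor
  · rintro ⟨⟨h3, h4⟩, h5, h6, h7⟩
    rw [le_tt_iff h2 h5.pos, rpow_half] at h6
    rw [tt_lt_iff h2 h5.pos, Real.rpow_one] at h7
    exact ⟨h5, by exact_mod_cast h6, by exact_mod_cast h7⟩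
  · rintro ⟨h5, h6, h7⟩
    refine ⟨⟨h5.pos, h7.le⟩, h5, ?_, ?_⟩
    · rw [le_tt_iff h2 h5.pos, rpow_half]
      exact_mod_cast h6
    · rw [tt_lt_iff h2 h5.pos, Real.rpow_one]
      exact_mod_cast h7

/-- the number of the sets -/
theorem R1_bound {P : Finset ℕ} (hP : ∀ p ∈ P, p.Prime) (w : ℕ → ℝ)
    (hw : ∀ p ∈ P, 0 ≤ w p ∧ w p ≤ p) (ρ : Finset ℕ → ℝ) (c : ℝ) (hc0 : 0 ≤ c)
    (hc : ∀ T ⊆ P, |ρ T| ≤ c) (L₁ : ℕ) (hL : ∀ T ⊆ P, ρ T ≠ 0 → MS T ≤ L₁) :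
    ∑ T ∈ P.powerset, |ρ T| * ∏ p ∈ T, w p ≤ c * L₁ ^ 2 := by
  classical
  have h1 : ∑ T ∈ P.powerset, |ρ T| * ∏ p ∈ T, w p =
      ∑ T ∈ P.powerset.filter (fun T => MS T ≤ L₁), |ρ T| * ∏ p ∈ T, w p := by
    symm
    apply sum_subset (filter_subset _ _)
    intro T hT hT'
    have : ρ T = 0 := by
      by_contra h
      exact hT' (mem_filter.2 ⟨hT, hL T (mem_powerset.1 hT) h⟩)
    rw [this]
    simp
  rw [h1]
  have h2 : (P.powerset.filter (fun T => MS T ≤ L₁)).card ≤ L₁ := by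
    have h3 : (P.powerset.filter (fun T => MS T ≤ L₁)).card ≤ (Icc 1 L₁).card := by
      apply card_le_card_of_injOn MS
      · intro T hT
        rw [mem_coe, mem_filter, mem_powerset] at hT
        rw [mem_coe, mem_Icc]
        exact ⟨MS_pos fun p hp => hP p (hT.1 hp), hT.2⟩
      · intro T hT T' hT' h
        rw [mem_coe, mem_filter, mem_powerset] at hT hT'
        have e1 := Nat.primeFactors_prod (s := T) fun p hp => hP p (hT.1 hp)
        have e2 := Nat.primeFactors_prod (s := T') fun p hp => hP p (hT'.1 hp)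
        rw [← e1, ← e2]
        exact congrArg Nat.primeFactors h
    simpa using h3
  calc ∑ T ∈ P.powerset.filter (fun T => MS T ≤ L₁), |ρ T| * ∏ p ∈ T, w p ≤
      ∑ _T ∈ P.powerset.filter (fun T => MS T ≤ L₁), c * L₁ := by
        apply sum_le_sum
        intro T hT
        rw [mem_filter, mem_powerset] at hT
        apply mul_le_mul (hc T hT.1) _ (prod_nonneg fun p hp => (hw p (hT.1 hp)).1) hc0
        calc ∏ p ∈ T, w p ≤ ∏ p ∈ T, (p : ℝ) :=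
              prod_le_prod (fun p hp => (hw p (hT.1 hp)).1) fun p hp => (hw p (hT.1 hp)).2
          _ = ((MS T : ℕ) : ℝ) := by unfold MS; push_cast; rfl
          _ ≤ L₁ := by exact_mod_cast hT.2
    _ = ((P.powerset.filter (fun T => MS T ≤ L₁)).card : ℝ) * (c * L₁) := by
        rw [sum_const, nsmul_eq_mul]
    _ ≤ (L₁ : ℝ) * (c * L₁) := by
        apply mul_le_mul_of_nonneg_right _ (by positivity)
        exact_mod_cast h2
    _ = _ := by ring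

section
variable {J : Type} [Fintype J] [DecidableEq J] {A B : J → ℕ}

/-- the number of the bad classes -/
theorem bad_count {p : ℕ} (hp : p.Prime) (hnd : ∀ j, ¬ p ∣ A j) (i : J) :
    1 ≤ ∑ r ∈ range p, bdf A B p r ∧ ∑ r ∈ range p, bdf A B p r ≤ Fintype.card J := by
  constructor
  · rw [← hitf_sum (B := B) hp i (hnd i)]
    apply sum_le_sum
    intro r _
    unfold hitf bdf
    by_cases h : p ∣ B i + A i * r
    · rw [if_pos h, if_pos ⟨i, h⟩]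
    · rw [if_neg h]
      split_ifs <;> norm_num
  · calc ∑ r ∈ range p, bdf A B p r ≤ ∑ r ∈ range p, ∑ j : J, hitf A B j p r := by
          apply sum_le_sum
          intro r _
          unfold bdf
          split_ifs with h
          · obtain ⟨j, hj⟩ := h
            have h1 : hitf A B j p r = 1 := by unfold hitf; rw [if_pos hj]
            rw [← h1]
            exact single_le_sum (f := fun j => hitf A B j p r) (fun j _ => (hitf_01 j p r).1)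
              (mem_univ j)
          · exact sum_nonneg fun j _ => (hitf_01 j p r).1
      _ = ∑ j : J, ∑ r ∈ range p, hitf A B j p r := sum_comm
      _ = ∑ _j : J, 1 := sum_congr rfl fun j _ => hitf_sum hp j (hnd j)
      _ = Fintype.card J := by simp

theorem gg_mul {p : ℕ} (hp : p.Prime) : gg A B p * p = ∑ r ∈ range p, bdf A B p r := by
  unfold gg
  have : (p : ℝ) ≠ 0 := by exact_mod_cast hp.ne_zero
  field_simp

/-- the density of the bad classes prime to one of the forms -/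
noncomputable def gq (A B : J → ℕ) (p : ℕ) : ℝ := (gg A B p * p - 1) / ((p : ℝ) - 1)

theorem gq_mean {p : ℕ} (hp : p.Prime) (hnd : ∀ j, ¬ p ∣ A j) (i : J) :
    gmean A B i (gq A B) p := by
  unfold gmean gq
  have hp1 : (p : ℝ) - 1 ≠ 0 := by
    have : (1 : ℝ) < p := by exact_mod_cast hp.one_lt
    linarith
  rw [div_mul_cancel₀ _ hp1, gg_mul hp, ← hitf_sum (B := B) hp i (hnd i), ← sum_sub_distrib]
  refine sum_congr rfl fun x _ => ?_
  unfold hitf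
  by_cases h : p ∣ B i + A i * x
  · have : bdf A B p x = 1 := by unfold bdf; rw [if_pos ⟨i, h⟩]
    rw [if_pos h, if_pos h, this]
    ring
  · rw [if_neg h, if_neg h]
    ring

theorem gq_facts {p : ℕ} (hp : p.Prime) (hnd : ∀ j, ¬ p ∣ A j) (i : J) :
    0 ≤ gq A B p ∧ gq A B p ≤ Fintype.card J / ((p : ℝ) - 1) ∧
    gq A B p * ((p : ℝ) - 1) ≤ Fintype.card J ∧
    1 - gg A B p = (1 - gq A B p) * (1 - 1 / (p : ℝ)) ∧
    0 ≤ gg A B p ∧ gg A B p ≤ Fintype.card J / (p : ℝ) ∧ gg A B p * p ≤ Fintype.card J ∧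
    1 ≤ gg A B p * p := by
  have hp1 : (0 : ℝ) < (p : ℝ) - 1 := by
    have : (1 : ℝ) < p := by exact_mod_cast hp.one_lt
    linarith
  have hp0 : (0 : ℝ) < p := by linarith
  obtain ⟨h1, h2⟩ := bad_count (B := B) hp hnd i
  rw [← gg_mul hp] at h1 h2
  refine ⟨div_nonneg (by linarith) hp1.le, ?_, ?_, ?_, gg_nonneg p, ?_, h2, h1⟩
  · unfold gq
    apply div_le_div_of_nonneg_right _ hp1.le
    linarith
  · unfold gq
    rw [div_mul_cancel₀ _ hp1.ne']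
    linarith
  · unfold gq
    field_simp
    ring
  · rw [le_div_iff₀ hp0]
    exact h2

theorem one_sub_pow {x : ℝ} {n : ℕ} (hx : 0 ≤ x) (h : 2 * n * x ≤ 1) :
    (1 - x) ^ (2 * n) ≤ 1 - n * x := by
  rcases Nat.eq_zero_or_pos n with rfl | hn
  · simp
  have hn1 : (1 : ℝ) ≤ n := by exact_mod_cast hn
  have hx1 : x ≤ 1 := by nlinarith
  have h1 : 1 - x ≤ Real.exp (-x) := by
    have := Real.add_one_le_exp (-x)
    linarith
  have h2 : (1 - x) ^ (2 * n) ≤ Real.exp (-x) ^ (2 * n) := pow_le_pow_left₀ (by linarith) h1 _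
  have h3 : Real.exp (-x) ^ (2 * n) = Real.exp (-(2 * n * x)) := by
    rw [← Real.exp_nat_mul]
    congr 1
    push_cast
    ring
  rw [h3] at h2
  refine h2.trans ?_
  set y := 2 * (n : ℝ) * x with hy
  have hy0 : 0 ≤ y := by positivity
  have h4 : Real.exp (-y) * (1 + y) ≤ 1 := by
    have h5 := Real.add_one_le_exp y
    have h6 : Real.exp (-y) * Real.exp y = 1 := by rw [← Real.exp_add]; simp
    have h7 := Real.exp_pos (-y)
    nlinarith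
  have h5 : n * x = y / 2 := by rw [hy]; ring
  rw [h5]
  have h6 : 1 ≤ (1 - y / 2) * (1 + y) := by nlinarith
  have h7 : Real.exp (-y) * (1 + y) ≤ (1 - y / 2) * (1 + y) := h4.trans h6
  exact le_of_mul_le_mul_right h7 (by linarith)

theorem mem_Pz {z p : ℕ} : p ∈ Pz z ↔ p.Prime ∧ p ≤ z := by
  unfold Pz
  rw [mem_filter, mem_Ioc]
  exact ⟨fun h => ⟨h.2, h.1.2⟩, fun h => ⟨⟨h.1.pos, h.2⟩, h.1⟩⟩

theorem one_sub_inv {p : ℕ} (hp : p.Prime) : 0 < 1 - 1 / (p : ℝ) ∧ 1 - 1 / (p : ℝ) ≤ 1 := by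
  have : (2 : ℝ) ≤ p := by exact_mod_cast hp.two_le
  constructor
  · rw [sub_pos, div_lt_one (by linarith)]
    linarith
  · have : 0 ≤ 1 / (p : ℝ) := by positivity
    linarith

/-- lower bound for the density of the small primes -/
theorem VP_ge (K : ℕ) (Jn W : ℕ) (hnd : ∀ p ∈ PS Jn W, ∀ j, ¬ p ∣ A j) (i : J)
    (hK : Fintype.card J = K) (hD : ∀ p ∈ PS Jn W, 2 * K ≤ p) :
    V (2 ^ 2 ^ Jn) ^ (2 * K) ≤ ∏ p ∈ PS Jn W, (1 - gg A B p) := by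
  have h1 : V (2 ^ 2 ^ Jn) ≤ ∏ p ∈ PS Jn W, (1 - 1 / (p : ℝ)) := by
    unfold V
    have hsub : PS Jn W ⊆ Pz (2 ^ 2 ^ Jn) := by
      intro p hp
      rw [mem_PS] at hp
      exact mem_Pz.2 ⟨hp.1, hp.2.1.le⟩
    rw [← prod_sdiff hsub]
    apply mul_le_of_le_one_left
    · exact prod_nonneg fun p hp => (one_sub_inv (mem_PS.1 hp).1).1.le
    · apply prod_le_one
      · intro p hp
        exact (one_sub_inv (mem_Pz.1 (mem_sdiff.1 hp).1).1).1.le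
      · intro p hp
        exact (one_sub_inv (mem_Pz.1 (mem_sdiff.1 hp).1).1).2
  refine (pow_le_pow_left₀ (V_pos _).le h1 _).trans ?_
  rw [← prod_pow]
  apply prod_le_prod
  · intro p hp
    exact pow_nonneg (one_sub_inv (mem_PS.1 hp).1).1.le _
  · intro p hp
    have hpp := (mem_PS.1 hp).1
    have hp0 : (0 : ℝ) < p := by exact_mod_cast hpp.pos
    have h2 : 2 * (K : ℝ) * (1 / (p : ℝ)) ≤ 1 := by
      rw [mul_one_div, div_le_one hp0]
      exact_mod_cast hD p hp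
    have h3 := one_sub_pow (n := K) (show 0 ≤ 1 / (p : ℝ) by positivity) h2
    have h4 := (gq_facts (A := A) (B := B) hpp (hnd p hp) i).2.2.2.2.2.1
    rw [hK] at h4
    have h5 : (K : ℝ) * (1 / (p : ℝ)) = K / p := by ring
    linarith

/-- the product over the divisors of the modulus -/
theorem phi_eq {q W : ℕ} (hq : 0 < q) (hW : W ≠ 0) (h : ∀ p : ℕ, p.Prime → (p ∣ q ↔ p ∣ W)) :
    (q.totient : ℝ) = q * ∏ p ∈ W.primeFactors, (1 - 1 / (p : ℝ)) := by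
  have h1 := Nat.totient_eq_mul_prod_factors q
  have h2 : (q.totient : ℝ) = q * ∏ p ∈ q.primeFactors, (1 - 1 / (p : ℝ)) := by
    have h3 := congrArg (fun x : ℚ => (x : ℝ)) h1
    push_cast at h3
    simp only [one_div]
    exact h3
  rw [h2]
  congr 2
  ext p
  rw [Nat.mem_primeFactors, Nat.mem_primeFactors]
  constructor
  · rintro ⟨a, b, -⟩
    exact ⟨a, (h p a).1 b, hW⟩
  · rintro ⟨a, b, -⟩
    exact ⟨a, (h p a).2 b, by omega⟩

theorem V_T {Jn W : ℕ} (hJ : 1 ≤ Jn) (hW : W ≠ 0) (hWs : ∀ p : ℕ, p.Prime → p ∣ W → p < 2 ^ 2 ^ Jn) :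
    V (2 ^ 2 ^ Jn) = (∏ p ∈ W.primeFactors, (1 - 1 / (p : ℝ))) * ∏ p ∈ PS Jn W, (1 - 1 / (p : ℝ)) := by
  unfold V
  have h1 : Pz (2 ^ 2 ^ Jn) = W.primeFactors ∪ PS Jn W := by
    ext p
    rw [mem_Pz, mem_union, Nat.mem_primeFactors, mem_PS]
    constructor
    · rintro ⟨h1, h2⟩
      by_cases h3 : p ∣ W
      · exact Or.inl ⟨h1, h3, hW⟩
      · refine Or.inr ⟨h1, lt_of_le_of_ne h2 fun h => ?_, h3⟩
        rw [h] at h1
        exact pow_not_prime hJ h1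
    · rintro (⟨h1, h2, -⟩ | ⟨h1, h2, -⟩)
      · exact ⟨h1, (hWs p h1 h2).le⟩
      · exact ⟨h1, h2.le⟩
  rw [h1, prod_union]
  rw [disjoint_left]
  intro p hp hp2
  rw [Nat.mem_primeFactors] at hp
  rw [mem_PS] at hp2
  exact hp2.2.2 hp.2.1

theorem V_Z {Jn e : ℕ} (hJ : 1 ≤ Jn) :
    V (2 ^ 2 ^ (Jn + e + 6)) = V (2 ^ 2 ^ Jn) * ∏ p ∈ QS Jn e, (1 - 1 / (p : ℝ)) := by
  unfold V
  have hle : 2 ^ 2 ^ Jn ≤ 2 ^ 2 ^ (Jn + e + 6) :=
    Nat.pow_le_pow_right (by norm_num) (Nat.pow_le_pow_right (by norm_num) (by omega))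
  have h1 : Pz (2 ^ 2 ^ (Jn + e + 6)) = Pz (2 ^ 2 ^ Jn) ∪ QS Jn e := by
    ext p
    rw [mem_Pz, mem_union, mem_Pz, mem_QS]
    constructor
    · rintro ⟨h1, h2⟩
      by_cases h3 : p ≤ 2 ^ 2 ^ Jn
      · exact Or.inl ⟨h1, h3⟩
      · refine Or.inr ⟨h1, by omega, lt_of_le_of_ne h2 fun h => ?_⟩
        rw [h] at h1
        exact pow_not_prime (by omega) h1
    · rintro (⟨h1, h2⟩ | ⟨h1, h2, h3⟩)
      · exact ⟨h1, h2.trans hle⟩
      · exact ⟨h1, h3.le⟩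
  rw [h1, prod_union]
  rw [disjoint_left]
  intro p hp hp2
  rw [mem_Pz] at hp
  rw [mem_QS] at hp2
  have : p = 2 ^ 2 ^ Jn := by omega
  rw [this] at hp
  exact pow_not_prime hJ hp.1

/-- the identities between the products -/
theorem VQ_id {Jn e W : ℕ} (hJ : 1 ≤ Jn) (hW : W ≠ 0)
    (hWs : ∀ p : ℕ, p.Prime → p ∣ W → p < 2 ^ 2 ^ Jn) (i : J)
    (hAW : ∀ j, ∀ p : ℕ, p.Prime → (p ∣ A j ↔ p ∣ W)) (hA0 : 0 < A i) :
    (∏ p ∈ PS Jn W, (1 - gq A B p)) * (A i / (A i).totient) * V (2 ^ 2 ^ Jn) =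
      ∏ p ∈ PS Jn W, (1 - gg A B p) := by
  have h1 := phi_eq hA0 hW (hAW i)
  have h2 := V_T hJ hW hWs
  have hw0 : 0 < ∏ p ∈ W.primeFactors, (1 - 1 / (p : ℝ)) :=
    prod_pos fun p hp => (one_sub_inv (Nat.mem_primeFactors.1 hp).1).1
  have hA0' : (0 : ℝ) < A i := by exact_mod_cast hA0
  have h3 : ∏ p ∈ PS Jn W, (1 - gg A B p) =
      (∏ p ∈ PS Jn W, (1 - gq A B p)) * ∏ p ∈ PS Jn W, (1 - 1 / (p : ℝ)) := by
    rw [← prod_mul_distrib]
    refine prod_congr rfl fun p hp => ?_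
    have hpp := (mem_PS.1 hp).1
    exact (gq_facts hpp (fun j hj => (mem_PS.1 hp).2.2 ((hAW j p hpp).1 hj)) i).2.2.2.1
  rw [h3, h2, h1]
  have h4 : (A i : ℝ) / (A i * ∏ p ∈ W.primeFactors, (1 - 1 / (p : ℝ))) =
      1 / ∏ p ∈ W.primeFactors, (1 - 1 / (p : ℝ)) := by
    field_simp
  rw [h4]
  field_simp

end

theorem QS_inv {Jn e : ℕ} (hJ : 1 ≤ Jn) {c₁ c₂ : ℝ} (hc₁ : 0 < c₁)
    (hcz : ∀ z : ℕ, 2 ≤ z → c₁ ≤ V z * Real.log z ∧ V z * Real.log z ≤ c₂) :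
    ∏ p ∈ QS Jn e, (1 + 1 / (p : ℝ)) ≤ c₂ / c₁ * (64 * 2 ^ e) := by
  have h1 := V_Z (e := e) hJ
  have hT := hcz (2 ^ 2 ^ Jn) (two_le_pp _)
  have hZ := hcz (2 ^ 2 ^ (Jn + e + 6)) (two_le_pp _)
  have hlogT : Real.log ((2 ^ 2 ^ Jn : ℕ) : ℝ) = 2 ^ Jn * Real.log 2 := by
    push_cast
    rw [Real.log_pow]
    push_cast
    ring
  have hlogZ : Real.log ((2 ^ 2 ^ (Jn + e + 6) : ℕ) : ℝ) = 64 * 2 ^ e * (2 ^ Jn * Real.log 2) := by
    push_cast
    rw [Real.log_pow]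
    push_cast
    rw [pow_add, pow_add]
    ring
  have hl2 : 0 < Real.log 2 := Real.log_pos (by norm_num)
  have hL0 : 0 < 2 ^ Jn * Real.log 2 := by positivity
  rw [hlogT] at hT
  rw [hlogZ] at hZ
  set L := 2 ^ Jn * Real.log 2 with hL
  have hq0 : 0 < ∏ p ∈ QS Jn e, (1 - 1 / (p : ℝ)) :=
    prod_pos fun p hp => (one_sub_inv (mem_QS.1 hp).1).1
  have h2 : (∏ p ∈ QS Jn e, (1 + 1 / (p : ℝ))) * ∏ p ∈ QS Jn e, (1 - 1 / (p : ℝ)) ≤ 1 := by
    rw [← prod_mul_distrib]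
    apply prod_le_one
    · intro p hp
      have := (one_sub_inv (mem_QS.1 hp).1).1
      positivity
    · intro p hp
      have : (1 + 1 / (p : ℝ)) * (1 - 1 / (p : ℝ)) = 1 - (1 / (p : ℝ)) ^ 2 := by ring
      rw [this]
      have := sq_nonneg (1 / (p : ℝ))
      linarith
  have hVT := V_pos (2 ^ 2 ^ Jn)
  rw [h1] at hZ
  generalize (∏ p ∈ QS Jn e, (1 + 1 / (p : ℝ))) = X at *
  generalize (∏ p ∈ QS Jn e, (1 - 1 / (p : ℝ))) = x at *
  generalize V (2 ^ 2 ^ Jn) = v at *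
  have h3 : c₁ ≤ c₂ * x * (64 * 2 ^ e) := by
    calc c₁ ≤ v * x * (64 * 2 ^ e * L) := hZ.1
      _ = (v * L) * (x * (64 * 2 ^ e)) := by ring
      _ ≤ c₂ * (x * (64 * 2 ^ e)) := mul_le_mul_of_nonneg_right hT.2 (by positivity)
      _ = _ := by ring
  have hc2 : 0 < c₂ := by
    have : 0 < v * L := by positivity
    linarith [hT.2]
  by_cases hX : X ≤ 0
  · refine hX.trans ?_
    positivity
  push Not at hX
  rw [div_mul_eq_mul_div, le_div_iff₀ hc₁]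
  calc X * c₁ ≤ X * (c₂ * x * (64 * 2 ^ e)) := mul_le_mul_of_nonneg_left h3 hX.le
    _ = (X * x) * (c₂ * (64 * 2 ^ e)) := by ring
    _ ≤ 1 * (c₂ * (64 * 2 ^ e)) := mul_le_mul_of_nonneg_right h2 (by positivity)
    _ = _ := by ring

end Run7.h296
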