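import Pool.Agent.TH423.SH.FLLP

/-!
Explicit sieve weights (Brun-Hooley) with control of the sums over the multiples of a set.
-/

set_option autoImplicit false

open Finset

namespace Run7.h296

open Pool.Agent.Helper112.LP Pool.Agent.Helper112.LP.Kba Pool.Agent.Helper112.LP.Kbh
open Pool.Agent.H483R2.BHKD Pool.Agent.H20R2.FL

/-- the part of `T` in the `i`-th group -/
def gp {J : ℕ} (T : Finset ℕ) (i : Fin J) : Finset ℕ := T.filter (fun p => p ∈ Gj ((i : ℕ) + 1))

theorem gp_sub {J : ℕ} (T : Finset ℕ) (i : Fin J) : gp T i ⊆ Gj ((i : ℕ) + 1) :=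
  fun _ hp => (mem_filter.1 hp).2

theorem gp_subT {J : ℕ} (T : Finset ℕ) (i : Fin J) : gp T i ⊆ T := filter_subset _ _

theorem bhU_gp {J : ℕ} {T : Finset ℕ} (hT : ∀ p ∈ T, p.Prime ∧ p < 2 ^ 2 ^ J) :
    bhU (fun i : Fin J => gp T i) = T := by
  ext p
  unfold bhU
  rw [mem_biUnion]
  constructor
  · rintro ⟨i, _, hi⟩
    exact gp_subT T i hi
  · intro hp
    obtain ⟨i, hi⟩ := bh_cover (hT p hp).1 (hT p hp).2
    exact ⟨i, mem_univ _, mem_filter.2 ⟨hp, hi⟩⟩

theorem gp_bhU {J : ℕ} (T : Fin J → Finset ℕ) (hT : ∀ i, T i ⊆ Gj ((i : ℕ) + 1)) (i : Fin J) :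
    gp (bhU T) i = T i := by
  ext p
  unfold gp bhU
  rw [mem_filter, mem_biUnion]
  constructor
  · rintro ⟨⟨j, _, hj⟩, hi⟩
    have := bh_Gj_disj (hT j hj) hi
    have hij : j = i := Fin.ext this
    rw [← hij]; exact hj
  · intro hp
    exact ⟨⟨i, mem_univ _, hp⟩, hT i hp⟩

/-- factorisation of a sum over the subsets -/
theorem fac {J : ℕ} (P : Finset ℕ) (hP : ∀ p ∈ P, p.Prime ∧ p < 2 ^ 2 ^ J)
    (F : Fin J → Finset ℕ → ℝ) :
    ∑ T ∈ P.powerset, ∏ i, F i (gp T i) = ∏ i : Fin J, ∑ U ∈ (gp P i).powerset, F i U := by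
  rw [prod_univ_sum]
  apply sum_nbij' (i := fun T i => gp T i) (j := fun T => bhU T)
  · intro T hT
    rw [mem_powerset] at hT
    rw [Fintype.mem_piFinset]
    intro i
    rw [mem_powerset]
    exact filter_subset_filter _ hT
  · intro T hT
    rw [Fintype.mem_piFinset] at hT
    rw [mem_powerset]
    intro p hp
    unfold bhU at hp
    rw [mem_biUnion] at hp
    obtain ⟨i, _, hi⟩ := hp
    exact gp_subT P i ((mem_powerset.1 (hT i)) hi)
  · intro T hT
    rw [mem_powerset] at hT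
    exact bhU_gp (fun p hp => hP p (hT hp))
  · intro T hT
    rw [Fintype.mem_piFinset] at hT
    funext i
    exact gp_bhU T (fun i => (mem_powerset.1 (hT i)).trans (gp_sub P i)) i
  · intro T _
    rfl

/-- local coefficient -/
noncomputable def c1 (b : ℕ) (U : Finset ℕ) : ℝ := if U.card ≤ b then (-1) ^ U.card else 0

/-- local coefficient of the error -/
noncomputable def c2 (b : ℕ) (U : Finset ℕ) : ℝ := if U.card = b + 1 then 1 else 0

/-- the truncation parameters -/
def bb (b J : ℕ) (i : Fin J) : ℕ := 2 * b + 2 * (J - 1 - (i : ℕ))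

theorem bb_even (b J : ℕ) (i : Fin J) : Even (bb b J i) := by
  unfold bb
  exact (even_two_mul _).add (even_two_mul _)

/-- the upper bound weights -/
noncomputable def rhoP (b J : ℕ) (T : Finset ℕ) : ℝ := ∏ i : Fin J, c1 (bb b J i) (gp T i)

/-- the weights of the difference between the upper and the lower bound -/
noncomputable def rhoD (b J : ℕ) (T : Finset ℕ) : ℝ :=
  ∑ k : Fin J, c2 (bb b J k) (gp T k) * ∏ i ∈ univ.erase k, c1 (bb b J i) (gp T i)

theorem prod_ite_erase {J : ℕ} (k : Fin J) (f1 f2 : Fin J → ℝ) :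
    (∏ i, if i = k then f1 i else f2 i) = f1 k * ∏ i ∈ univ.erase k, f2 i := by
  rw [← mul_prod_erase univ _ (mem_univ k), if_pos rfl]
  congr 1
  apply prod_congr rfl
  intro i hi
  rw [if_neg (ne_of_mem_erase hi)]

theorem rhoD_eq (b J : ℕ) (T : Finset ℕ) : rhoD b J T =
    ∑ k : Fin J, ∏ i, (if i = k then c2 (bb b J i) (gp T i) else c1 (bb b J i) (gp T i)) := by
  unfold rhoD
  refine sum_congr rfl fun k _ => ?_
  rw [prod_ite_erase k (fun i => c2 (bb b J i) (gp T i)) (fun i => c1 (bb b J i) (gp T i))]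

theorem c1_abs (b : ℕ) (U : Finset ℕ) : |c1 b U| ≤ 1 := by
  unfold c1
  split_ifs
  · rw [abs_neg_one_pow]
  · simp

theorem c2_abs (b : ℕ) (U : Finset ℕ) : |c2 b U| ≤ 1 := by
  unfold c2
  split_ifs <;> simp

theorem rhoP_abs (b J : ℕ) (T : Finset ℕ) : |rhoP b J T| ≤ 1 := by
  unfold rhoP
  rw [abs_prod]
  exact prod_le_one (fun _ _ => abs_nonneg _) (fun i _ => c1_abs _ _)

theorem rhoD_abs (b J : ℕ) (T : Finset ℕ) : |rhoD b J T| ≤ J := by
  unfold rhoD
  refine (abs_sum_le_sum_abs _ _).trans ?_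
  calc ∑ k : Fin J, |c2 (bb b J k) (gp T k) * ∏ i ∈ univ.erase k, c1 (bb b J i) (gp T i)| ≤
      ∑ _k : Fin J, (1 : ℝ) := by
        apply sum_le_sum
        intro k _
        rw [abs_mul, abs_prod]
        have h1 : ∏ i ∈ univ.erase k, |c1 (bb b J i) (gp T i)| ≤ 1 :=
          prod_le_one (fun _ _ => abs_nonneg _) (fun i _ => c1_abs _ _)
        have h2 : 0 ≤ ∏ i ∈ univ.erase k, |c1 (bb b J i) (gp T i)| :=
          prod_nonneg fun _ _ => abs_nonneg _
        calc _ ≤ 1 * 1 := mul_le_mul (c2_abs _ _) h1 h2 zero_le_one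
          _ = 1 := one_mul _
    _ = J := by simp

/-- the support of the weights -/
theorem rho_supp (b J : ℕ) (T : Finset ℕ) (hT : ∀ p ∈ T, p.Prime ∧ p < 2 ^ 2 ^ J)
    (h : rhoP b J T ≠ 0 ∨ rhoD b J T ≠ 0) :
    ∏ l ∈ T, l ≤ (2 ^ 2 ^ J) ^ (4 * b + 6) := by
  have hc : ∀ i : Fin J, (gp T i).card ≤ 2 * b + 2 * (J - 1 - i) + 1 := by
    rcases h with h | h
    · intro i
      by_contra hcon
      apply h
      unfold rhoP
      apply prod_eq_zero (mem_univ i)
      unfold c1
      rw [if_neg]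
      unfold bb
      omega
    · intro i
      by_contra hcon
      apply h
      unfold rhoD
      apply sum_eq_zero
      intro k _
      by_cases hik : i = k
      · subst hik
        have : c2 (bb b J i) (gp T i) = 0 := by
          unfold c2
          rw [if_neg]
          unfold bb
          omega
        rw [this, zero_mul]
      · have : ∏ i ∈ univ.erase k, c1 (bb b J i) (gp T i) = 0 := by
          apply prod_eq_zero (mem_erase.2 ⟨hik, mem_univ i⟩)
          unfold c1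
          rw [if_neg]
          unfold bb
          omega
        rw [this, mul_zero]
  have h1 := bh_level (J := J) (b0 := 2 * b) (fun i => gp T i) (fun i => gp_sub T i) hc
  rw [bhU_gp hT] at h1
  refine h1.trans (Nat.pow_le_pow_right (by positivity) (by omega))

theorem sum_c1 (g : ℕ → ℝ) (b : ℕ) (H : Finset ℕ) :
    ∑ U ∈ H.powerset, c1 b U * ∏ l ∈ U, g l = bhA g b H := by
  unfold bhA c1
  rw [sum_filter]
  refine sum_congr rfl fun U _ => ?_
  split_ifs <;> simp

theorem sum_c2 (g : ℕ → ℝ) (b : ℕ) (H : Finset ℕ) :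
    ∑ U ∈ H.powerset, c2 b U * ∏ l ∈ U, g l = bhE g (b + 1) H := by
  unfold bhE c2
  rw [powersetCard_eq_filter, sum_filter]
  refine sum_congr rfl fun U _ => ?_
  split_ifs <;> simp

/-- **the weights are bounds for the sieve** -/
theorem rho_bonf (b J : ℕ) (H : Finset ℕ) (hH : ∀ p ∈ H, p.Prime ∧ p < 2 ^ 2 ^ J) :
    (if H = ∅ then (1 : ℝ) else 0) ≤ ∑ T ∈ H.powerset, rhoP b J T ∧
    0 ≤ ∑ T ∈ H.powerset, rhoD b J T ∧
    (∑ T ∈ H.powerset, rhoP b J T) - ∑ T ∈ H.powerset, rhoD b J T ≤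
      (if H = ∅ then (1 : ℝ) else 0) := by
  have e1 : ∑ T ∈ H.powerset, rhoP b J T = ∏ i : Fin J, bhA (fun _ => 1) (bb b J i) (gp H i) := by
    unfold rhoP
    rw [fac H hH (fun i U => c1 (bb b J i) U)]
    refine prod_congr rfl fun i _ => ?_
    rw [← sum_c1]
    simp
  have e2 : ∑ T ∈ H.powerset, rhoD b J T = ∑ k : Fin J, bhE (fun _ => 1) (bb b J k + 1) (gp H k) *
      ∏ i ∈ univ.erase k, bhA (fun _ => 1) (bb b J i) (gp H i) := by
    simp_rw [rhoD_eq]
    rw [sum_comm]
    refine sum_congr rfl fun k _ => ?_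
    rw [fac H hH (fun i U => if i = k then c2 (bb b J i) U else c1 (bb b J i) U),
      ← prod_ite_erase k (fun i => bhE (fun _ => 1) (bb b J i + 1) (gp H i))
        (fun i => bhA (fun _ => 1) (bb b J i) (gp H i))]
    refine prod_congr rfl fun i _ => ?_
    by_cases hik : i = k
    · simp only [if_pos hik]
      rw [← sum_c2]
      simp
    · simp only [if_neg hik]
      rw [← sum_c1]
      simp
  have hloc : ∀ i : Fin J, (0 : ℝ) ≤ (if gp H i = ∅ then (1 : ℝ) else 0) ∧
      (if gp H i = ∅ then (1 : ℝ) else 0) ≤ bhA (fun _ => 1) (bb b J i) (gp H i) ∧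
      bhA (fun _ => 1) (bb b J i) (gp H i) - (if gp H i = ∅ then (1 : ℝ) else 0) ≤
        bhE (fun _ => 1) (bb b J i + 1) (gp H i) := by
    intro i
    have h := bh_bonf (fun _ => (1 : ℝ)) (gp H i) (fun l _ => ⟨by norm_num, le_rfl⟩) (bb b J i)
    have e : ∏ _l ∈ gp H i, ((1 : ℝ) - 1) = if gp H i = ∅ then (1 : ℝ) else 0 := by
      split_ifs with h0
      · rw [h0]; simp
      · rw [prod_const, sub_self, zero_pow (card_ne_zero.2 (nonempty_iff_ne_empty.2 h0))]
    rw [e, (bb_even b J i).neg_one_pow, one_mul] at h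
    refine ⟨by split_ifs <;> norm_num, by linarith [h.1], h.2⟩
  have hprod : ∏ i : Fin J, (if gp H i = ∅ then (1 : ℝ) else 0) = if H = ∅ then (1 : ℝ) else 0 := by
    rw [Fintype.prod_ite_zero]
    congr 1
    · rw [eq_iff_iff]
      constructor
      · intro h
        rw [← bhU_gp hH]
        unfold bhU
        rw [← Finset.not_nonempty_iff_eq_empty]
        rintro ⟨p, hp⟩
        rw [mem_biUnion] at hp
        obtain ⟨i, _, hi⟩ := hp
        rw [h i] at hi
        exact absurd hi (notMem_empty p)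
      · rintro rfl i
        unfold gp
        simp
    · simp
  have hlow : (if H = ∅ then (1 : ℝ) else 0) ≤ ∑ T ∈ H.powerset, rhoP b J T := by
    rw [← hprod, e1]
    exact prod_le_prod (fun i _ => (hloc i).1) (fun i _ => (hloc i).2.1)
  have hy0 : ∀ i : Fin J, 0 ≤ bhA (fun _ => 1) (bb b J i) (gp H i) := fun i =>
    (hloc i).1.trans (hloc i).2.1
  have he0 : ∀ i : Fin J, 0 ≤ bhE (fun _ => 1) (bb b J i + 1) (gp H i) := fun i =>
    bhE_nonneg _ _ _ (fun _ _ => zero_le_one)
  refine ⟨hlow, ?_, ?_⟩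
  · rw [e2]
    exact sum_nonneg fun k _ => mul_nonneg (he0 k) (prod_nonneg fun i _ => hy0 i)
  · have h := bh_prod_sub univ (fun i : Fin J => if gp H i = ∅ then (1 : ℝ) else 0)
      (fun i => bhA (fun _ => 1) (bb b J i) (gp H i))
      (fun i => bhE (fun _ => 1) (bb b J i + 1) (gp H i))
      (fun i => (hloc i).1) (fun i => (hloc i).2.1) (fun i => (hloc i).2.2)
    rw [hprod, ← e1, ← e2] at h
    linarith

end Run7.h296
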