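import Mathlib

/-!
Sums of a real character with local conditions.
-/

set_option autoImplicit false

open Finset

namespace Run7.h296

/-- a real character modulo `q`, as a real function -/
structure RC (q : ℕ) (ψ : ℕ → ℝ) (L c : ℝ) : Prop where
  q1 : 1 ≤ q
  c0 : 0 ≤ c
  one : ψ 1 = 1
  mul : ∀ m n, ψ (m * n) = ψ m * ψ n
  val : ∀ n, ψ n = 0 ∨ ψ n = 1 ∨ ψ n = -1
  cop : ∀ n, ψ n ≠ 0 ↔ n.Coprime q
  per : ∀ m n, m ≡ n [MOD q] → ψ m = ψ n
  ser : ∀ E : ℕ, |∑ u ∈ Icc 1 E, ψ u / u - L| ≤ c / (E + 1)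
  lin : ∀ E : ℕ, |∑ u ∈ Icc 1 E, ψ u * u| ≤ c * E

/-- local factors -/
noncomputable def fS (S : Finset ℕ) (w : ℕ → ℝ) (u : ℕ) : ℝ := ∏ p ∈ S, (if p ∣ u then 1 else w p)

/-- the density -/
noncomputable def gS (S : Finset ℕ) (w ψ : ℕ → ℝ) : ℝ := ∏ p ∈ S, (w p + (1 - w p) * (ψ p / p))

theorem fS_mul {S : Finset ℕ} {w : ℕ → ℝ} {p : ℕ} (hp : p.Prime) (hS : ∀ r ∈ S, r.Prime)
    (hpS : p ∉ S) (u : ℕ) : fS S w (p * u) = fS S w u := by
  unfold fS
  refine prod_congr rfl fun r hr => ?_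
  have h1 : r ∣ p * u ↔ r ∣ u := by
    constructor
    · intro h
      rcases (Nat.Prime.dvd_mul (hS r hr)).1 h with h2 | h2
      · exact absurd ((Nat.prime_dvd_prime_iff_eq (hS r hr) hp).1 h2 ▸ hr) hpS
      · exact h2
    · exact fun h => h.mul_left _
  by_cases h : r ∣ u
  · rw [if_pos h, if_pos (h1.2 h)]
  · rw [if_neg h, if_neg (fun h' => h (h1.1 h'))]

theorem fS_insert {S : Finset ℕ} {w : ℕ → ℝ} {p : ℕ} (hpS : p ∉ S) (u : ℕ) :
    fS (insert p S) w u = w p * fS S w u + (1 - w p) * (if p ∣ u then fS S w u else 0) := by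
  unfold fS
  rw [prod_insert hpS]
  split_ifs <;> ring

/-- the sum over the multiples of `p` -/
theorem sum_dvd {p E : ℕ} (hp : 0 < p) (h : ℕ → ℝ) :
    ∑ u ∈ Icc 1 E, (if p ∣ u then h u else 0) = ∑ v ∈ Icc 1 (E / p), h (p * v) := by
  rw [← sum_filter]
  symm
  apply sum_nbij' (fun v => p * v) (fun u => u / p)
  · intro v hv
    rw [mem_Icc] at hv
    rw [mem_filter, mem_Icc]
    refine ⟨⟨Nat.mul_pos hp hv.1, ?_⟩, dvd_mul_right _ _⟩
    rw [mul_comm]
    exact (Nat.le_div_iff_mul_le hp).1 hv.2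
  · intro u hu
    rw [mem_filter, mem_Icc] at hu
    obtain ⟨⟨h1, h2⟩, v, rfl⟩ := hu
    rw [mem_Icc, Nat.mul_div_cancel_left _ hp]
    refine ⟨Nat.pos_of_mul_pos_left (by omega : 0 < p * v), ?_⟩
    rw [Nat.le_div_iff_mul_le hp, mul_comm]
    exact h2
  · intro v _
    exact Nat.mul_div_cancel_left _ hp
  · intro u hu
    rw [mem_filter] at hu
    exact Nat.mul_div_cancel' hu.2
  · intro v _
    rfl

theorem GS {q : ℕ} {ψ : ℕ → ℝ} {L c : ℝ} (h : RC q ψ L c) {S : Finset ℕ} (w : ℕ → ℝ)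
    (hw : ∀ p ∈ S, 0 ≤ w p ∧ w p ≤ 1) (hS : ∀ p ∈ S, p.Prime) : ∀ E : ℕ,
    |∑ u ∈ Icc 1 E, ψ u * fS S w u / u - L * gS S w ψ| ≤ c / (E + 1) := by
  induction S using Finset.induction_on with
  | empty =>
    intro E
    have h1 := h.ser E
    simpa [fS, gS] using h1
  | insert p S hpS ih =>
    intro E
    have hp := hS p (mem_insert_self p S)
    obtain ⟨hw0, hw1⟩ := hw p (mem_insert_self p S)
    have ih' := ih (fun r hr => hw r (mem_insert_of_mem hr)) (fun r hr => hS r (mem_insert_of_mem hr))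
    have hp0 : (0 : ℝ) < p := by exact_mod_cast hp.pos
    have e1 : ∑ u ∈ Icc 1 E, ψ u * fS (insert p S) w u / u =
        w p * ∑ u ∈ Icc 1 E, ψ u * fS S w u / u +
        (1 - w p) * (ψ p / p * ∑ u ∈ Icc 1 (E / p), ψ u * fS S w u / u) := by
      have e2 : ψ p / p * ∑ u ∈ Icc 1 (E / p), ψ u * fS S w u / u =
          ∑ u ∈ Icc 1 E, (if p ∣ u then ψ u * fS S w u / u else 0) := by
        rw [sum_dvd hp.pos, mul_sum]
        refine sum_congr rfl fun v hv => ?_
        have hv0 : (0 : ℝ) < v := by exact_mod_cast (mem_Icc.1 hv).1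
        rw [fS_mul hp (fun r hr => hS r (mem_insert_of_mem hr)) hpS, h.mul]
        push_cast
        field_simp
      rw [e2, mul_sum, mul_sum, ← sum_add_distrib]
      refine sum_congr rfl fun u _ => ?_
      rw [fS_insert hpS]
      split_ifs <;> ring
    have e3 : gS (insert p S) w ψ = (w p + (1 - w p) * (ψ p / p)) * gS S w ψ := by
      unfold gS
      rw [prod_insert hpS]
    rw [e1, e3]
    have h1 := ih' E
    have h2 := ih' (E / p)
    have h3 : |ψ p| ≤ 1 := by
      rcases h.val p with h4 | h4 | h4 <;> rw [h4] <;> norm_num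
    have h5 : c / (((E / p : ℕ) : ℝ) + 1) ≤ p * (c / (E + 1)) := by
      have h6 : ((E : ℝ) + 1) / p ≤ ((E / p : ℕ) : ℝ) + 1 := by
        rw [div_le_iff₀ hp0]
        have h7 : E + 1 ≤ (E / p + 1) * p := by
          have := Nat.lt_div_mul_add (a := E) hp.pos
          have e4 : (E / p + 1) * p = E / p * p + p := by ring
          omega
        exact_mod_cast h7
      have h8 : 0 < ((E : ℝ) + 1) / p := by positivity
      calc c / (((E / p : ℕ) : ℝ) + 1) ≤ c / (((E : ℝ) + 1) / p) :=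
            div_le_div_of_nonneg_left h.c0 h8 h6
        _ = p * (c / (E + 1)) := by
            field_simp
    have e5 : w p * ∑ u ∈ Icc 1 E, ψ u * fS S w u / u +
        (1 - w p) * (ψ p / p * ∑ u ∈ Icc 1 (E / p), ψ u * fS S w u / u) -
        L * ((w p + (1 - w p) * (ψ p / p)) * gS S w ψ) =
        w p * (∑ u ∈ Icc 1 E, ψ u * fS S w u / u - L * gS S w ψ) +
        (1 - w p) * (ψ p / p * (∑ u ∈ Icc 1 (E / p), ψ u * fS S w u / u - L * gS S w ψ)) := by ring
    rw [e5]
    refine (abs_add_le _ _).trans ?_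
    rw [abs_mul, abs_mul, abs_mul, abs_of_nonneg hw0, abs_of_nonneg (by linarith : 0 ≤ 1 - w p)]
    have h9 : |ψ p / p| ≤ 1 / p := by
      rw [abs_div, abs_of_pos hp0]
      exact div_le_div_of_nonneg_right h3 hp0.le
    calc w p * |∑ u ∈ Icc 1 E, ψ u * fS S w u / u - L * gS S w ψ| +
        (1 - w p) * (|ψ p / p| * |∑ u ∈ Icc 1 (E / p), ψ u * fS S w u / u - L * gS S w ψ|) ≤
        w p * (c / (E + 1)) + (1 - w p) * (1 / p * (p * (c / (E + 1)))) := by
          apply add_le_add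
          · exact mul_le_mul_of_nonneg_left h1 hw0
          · apply mul_le_mul_of_nonneg_left _ (by linarith)
            exact mul_le_mul h9 (h2.trans h5) (abs_nonneg _) (by positivity)
      _ = c / (E + 1) := by
          field_simp
          ring

theorem HS {q : ℕ} {ψ : ℕ → ℝ} {L c : ℝ} (h : RC q ψ L c) {S : Finset ℕ} (w : ℕ → ℝ)
    (hw : ∀ p ∈ S, 0 ≤ w p ∧ w p ≤ 1) (hS : ∀ p ∈ S, p.Prime) : ∀ E : ℕ,
    |∑ u ∈ Icc 1 E, ψ u * fS S w u * u| ≤ c * E := by
  induction S using Finset.induction_on with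
  | empty =>
    intro E
    have h1 := h.lin E
    simpa [fS] using h1
  | insert p S hpS ih =>
    intro E
    have hp := hS p (mem_insert_self p S)
    obtain ⟨hw0, hw1⟩ := hw p (mem_insert_self p S)
    have ih' := ih (fun r hr => hw r (mem_insert_of_mem hr)) (fun r hr => hS r (mem_insert_of_mem hr))
    have hp0 : (0 : ℝ) < p := by exact_mod_cast hp.pos
    have e1 : ∑ u ∈ Icc 1 E, ψ u * fS (insert p S) w u * u =
        w p * ∑ u ∈ Icc 1 E, ψ u * fS S w u * u +
        (1 - w p) * (ψ p * p * ∑ u ∈ Icc 1 (E / p), ψ u * fS S w u * u) := by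
      have e2 : ψ p * p * ∑ u ∈ Icc 1 (E / p), ψ u * fS S w u * u =
          ∑ u ∈ Icc 1 E, (if p ∣ u then ψ u * fS S w u * u else 0) := by
        rw [sum_dvd hp.pos, mul_sum]
        refine sum_congr rfl fun v hv => ?_
        rw [fS_mul hp (fun r hr => hS r (mem_insert_of_mem hr)) hpS, h.mul]
        push_cast
        ring
      rw [e2, mul_sum, mul_sum, ← sum_add_distrib]
      refine sum_congr rfl fun u _ => ?_
      rw [fS_insert hpS]
      split_ifs <;> ring
    rw [e1]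
    have h1 := ih' E
    have h2 := ih' (E / p)
    have h3 : |ψ p| ≤ 1 := by
      rcases h.val p with h4 | h4 | h4 <;> rw [h4] <;> norm_num
    have h5 : (p : ℝ) * (c * ((E / p : ℕ) : ℝ)) ≤ c * E := by
      have h6 : (((E / p : ℕ) : ℝ)) * p ≤ E := by
        have := Nat.div_mul_le_self E p
        exact_mod_cast this
      have h7 := mul_le_mul_of_nonneg_left h6 h.c0
      linarith
    refine (abs_add_le _ _).trans ?_
    rw [abs_mul, abs_mul, abs_mul, abs_mul, abs_of_nonneg hw0,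
      abs_of_nonneg (by linarith : 0 ≤ 1 - w p), abs_of_pos hp0]
    calc w p * |∑ u ∈ Icc 1 E, ψ u * fS S w u * u| +
        (1 - w p) * (|ψ p| * p * |∑ u ∈ Icc 1 (E / p), ψ u * fS S w u * u|) ≤
        w p * (c * E) + (1 - w p) * (c * E) := by
          apply add_le_add
          · exact mul_le_mul_of_nonneg_left h1 hw0
          · apply mul_le_mul_of_nonneg_left _ (by linarith)
            calc |ψ p| * p * |∑ u ∈ Icc 1 (E / p), ψ u * fS S w u * u| ≤
                1 * p * (c * ((E / p : ℕ) : ℝ)) := by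
                  apply mul_le_mul _ h2 (abs_nonneg _) (by positivity)
                  exact mul_le_mul_of_nonneg_right h3 hp0.le
              _ ≤ c * E := by linarith
      _ = c * E := by ring

end Run7.h296
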