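import Pool.Agent.Run7.h296.X9
import Pool.Agent.Run7.h296.X11
import Pool.Agent.Run7.h296.Fo

/-!
One prescribed form prime, the others almost prime, for every admissible set of forms.
-/

set_option autoImplicit false

open Finset

namespace Run7.h296

open Pool.Agent.H262R3.Lk Pool.Agent.W69.MH Pool.Agent.W215.MH

theorem ex_level {P : ℕ} (hP : 2 ≤ P) : ∃ j : ℕ, 2 ^ 2 ^ j ≤ P ∧ P < 2 ^ 2 ^ (j + 1) := by
  obtain ⟨L, hL⟩ : ∃ L : ℕ, L = Nat.log 2 P := ⟨_, rfl⟩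
  have h1 : 2 ^ L ≤ P := by
    rw [hL]
    exact Nat.pow_log_le_self 2 (by omega)
  have h2 : P < 2 ^ (L + 1) := by
    rw [hL]
    exact Nat.lt_pow_succ_log_self (by norm_num) P
  have hL1 : 1 ≤ L := by
    by_contra h
    have h3 : L = 0 := by omega
    rw [h3] at h2
    omega
  refine ⟨Nat.log 2 L, ?_, ?_⟩
  · refine le_trans (Nat.pow_le_pow_right (by norm_num) ?_) h1
    exact Nat.pow_log_le_self 2 (by omega)
  · refine lt_of_lt_of_le h2 (Nat.pow_le_pow_right (by norm_num) ?_)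
    exact Nat.lt_pow_succ_log_self (by norm_num) L

/-- **One prescribed form prime, the others almost prime.** -/
theorem main1 (k B : ℕ) : ∃ (A R : ℕ) (γ : ℝ), 0 < γ ∧
    ∀ a b : Fin k → ℕ, (∀ i, 1 ≤ b i ∧ b i < a i) → Function.Injective (fun i => (a i, b i)) →
    (∀ p : ℕ, p.Prime → ∃ n : ℤ, ∀ i, ¬ (p : ℤ) ∣ a i * n + b i) →
    ∀ i₀ : Fin k, ∃ n : ℕ, (n : ℝ) ≤ γ * ((∏ i, a i : ℕ) : ℝ) ^ A ∧
      (a i₀ * n + b i₀).Prime ∧
      ∀ i, ArithmeticFunction.cardFactors (a i * n + b i) ≤ R ∧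
        ∀ p : ℕ, p.Prime → p ∣ a i * n + b i → (∏ i, a i) ^ B < p := by
  classical
  obtain ⟨C, hC, hCb, heng⟩ := engine1
  obtain ⟨s₀, DE, J₁, hexc⟩ := exc_thm hC k
  obtain ⟨s, kk, e, D₁, K, J₀, hss, hkk, heng⟩ := heng s₀ k
  obtain ⟨p₀, hp₀, hp₀'⟩ := Nat.exists_infinite_primes (2 ^ kk)
  obtain ⟨D₂, hD₂⟩ : ∃ D₂ : ℕ, D₂ = max D₁ (max DE (max p₀ 2)) := ⟨_, rfl⟩
  have hD₂1 : D₁ ≤ D₂ := by rw [hD₂]; exact le_max_left _ _
  have hD₂2 : DE ≤ D₂ := by rw [hD₂]; exact (le_max_left _ _).trans (le_max_right _ _)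
  have hD₂3 : p₀ ≤ D₂ := by
    rw [hD₂]; exact ((le_max_left _ _).trans (le_max_right _ _)).trans (le_max_right _ _)
  have hD₂4 : 2 ≤ D₂ := by
    rw [hD₂]; exact ((le_max_right _ _).trans (le_max_right _ _)).trans (le_max_right _ _)
  obtain ⟨D, hD⟩ : ∃ D : ℕ, D = e + 14 + B + J₀ + J₁ + D₂.factorial ^ 8 + D₂ := ⟨_, rfl⟩
  obtain ⟨Kx, hKx⟩ : ∃ Kx : ℕ, Kx = K + 2 ^ (3 * s) := ⟨_, rfl⟩
  obtain ⟨A, hA⟩ : ∃ A : ℕ, A = 1 + 2 ^ D * Kx := ⟨_, rfl⟩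
  have hf1 : 1 ≤ D₂.factorial := Nat.one_le_iff_ne_zero.2 (Nat.factorial_ne_zero _)
  obtain ⟨γ, hγ⟩ : ∃ γ : ℝ, γ = 2 * (D₂.factorial : ℝ) := ⟨_, rfl⟩
  have hγ0 : 0 < γ := by
    rw [hγ]
    have : (1 : ℝ) ≤ (D₂.factorial : ℝ) := by exact_mod_cast hf1
    linarith
  obtain ⟨r₀, hr₀⟩ := exists_nat_ge (γ + 1)
  refine ⟨A, A + 1 + r₀, γ, hγ0, ?_⟩
  intro a b hab hinj hadm i₀
  obtain ⟨P, hPd⟩ : ∃ P : ℕ, P = ∏ i, a i := ⟨_, rfl⟩
  have hP0 : P ≠ 0 := by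
    rw [hPd]
    exact prod_ne_zero_iff.2 fun i _ => by
      have := hab i
      omega
  have hP1 : 1 ≤ P := Nat.pos_of_ne_zero hP0
  have hP1r : (1 : ℝ) ≤ P := by exact_mod_cast hP1
  have haP : ∀ i, a i ∣ P := fun i => by
    rw [hPd]
    exact dvd_prod_of_mem a (mem_univ i)
  have haP' : ∀ i, a i ≤ P := fun i => Nat.le_of_dvd (Nat.pos_of_ne_zero hP0) (haP i)
  have hP2 : 2 ≤ P := by
    have h1 := haP' i₀
    have h2 := hab i₀
    omega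
  rw [← hPd]
  suffices key : ∃ n : ℕ, (n : ℝ) ≤ γ * (P : ℝ) ^ A ∧ (a i₀ * n + b i₀).Prime ∧
      (∀ i, ∀ p : ℕ, p.Prime → p ∣ a i * n + b i → P ^ (B + 1) < p) by
    obtain ⟨n, hn1, hn3, hn2⟩ := key
    refine ⟨n, hn1, hn3, fun i => ⟨?_, fun p hp hpd => ?_⟩⟩
    · have hai := hab i
      apply cf_bd (P := P) (by omega) hP2
      · intro p hp hpd
        have h1 := hn2 i p hp hpd
        have h2 : P ≤ P ^ (B + 1) := Nat.le_self_pow (by omega) _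
        omega
      · have h1 : ((a i * n + b i : ℕ) : ℝ) ≤ (P : ℝ) ^ (A + 1 + r₀) := by
          have h2 : (a i : ℝ) ≤ P := by exact_mod_cast haP' i
          have h3 : (b i : ℝ) ≤ P := by
            have h4 : b i ≤ P := hai.2.le.trans (haP' i)
            exact_mod_cast h4
          have h4 : (γ + 1 : ℝ) ≤ (P : ℝ) ^ r₀ := by
            refine hr₀.trans ?_
            have h5 : r₀ ≤ P ^ r₀ := (Nat.lt_pow_self (by omega)).le
            exact_mod_cast h5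
          have h5 : (1 : ℝ) ≤ (P : ℝ) ^ A := one_le_pow₀ hP1r
          push_cast
          calc (a i : ℝ) * n + b i ≤ P * (γ * (P : ℝ) ^ A) + P * (P : ℝ) ^ A := by
                apply add_le_add
                · exact mul_le_mul h2 hn1 (by positivity) (by positivity)
                · exact h3.trans (le_mul_of_one_le_right (by linarith) h5)
            _ = (P : ℝ) ^ (A + 1) * (γ + 1) := by ring
            _ ≤ (P : ℝ) ^ (A + 1) * (P : ℝ) ^ r₀ := mul_le_mul_of_nonneg_left h4 (by positivity)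
            _ = _ := by rw [← pow_add]
        exact_mod_cast h1
    · have h1 := hn2 i p hp hpd
      have h2 : P ^ B ≤ P ^ (B + 1) := Nat.pow_le_pow_right hP1 (by omega)
      omega
  obtain ⟨j, hPj, hPj'⟩ := ex_level hP2
  -- the level
  obtain ⟨Jn, hJn⟩ : ∃ Jn : ℕ, Jn = j + D - e - 6 := ⟨_, rfl⟩
  have hJne : Jn + e + 6 = j + D := by omega
  have hJn5 : j + 5 ≤ Jn := by omega
  have hJnB : j + B + 3 ≤ Jn := by omega
  have hJnJ : J₀ ≤ Jn := by omega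
  have hJnD : D₂.factorial ^ 8 + D₂ + 1 ≤ Jn := by omega
  have hP12 : P ^ 12 ≤ 2 ^ 2 ^ Jn := by
    calc P ^ 12 ≤ P ^ 16 := Nat.pow_le_pow_right hP1 (by norm_num)
      _ ≤ (2 ^ 2 ^ (j + 1)) ^ 16 := Nat.pow_le_pow_left hPj'.le 16
      _ = 2 ^ 2 ^ (j + 5) := by
        rw [← pow_mul]
        congr 1
        rw [pow_add 2 j 5, pow_add 2 j 1]
        ring
      _ ≤ _ := pp_mono hJn5
  have hPB : P ^ (B + 1) < 2 ^ 2 ^ Jn := by
    calc P ^ (B + 1) ≤ (2 ^ 2 ^ (j + 1)) ^ (B + 1) := Nat.pow_le_pow_left hPj'.le _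
      _ = 2 ^ (2 ^ (j + 1) * (B + 1)) := by rw [← pow_mul]
      _ < 2 ^ 2 ^ Jn := by
        apply Nat.pow_lt_pow_right (by norm_num)
        calc 2 ^ (j + 1) * (B + 1) < 2 ^ (j + 1) * 2 ^ (B + 1) :=
              Nat.mul_lt_mul_of_pos_left Nat.lt_two_pow_self (by positivity)
          _ = 2 ^ (j + 1 + (B + 1)) := by rw [← pow_add]
          _ ≤ _ := Nat.pow_le_pow_right (by norm_num) (by omega)
  have hWWP := WW_le (D₁ := D₂) hP0
  have hWW0 := WW_pos (D₁ := D₂) hP0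
  have hJpp := le_pp Jn
  obtain ⟨ν, hν⟩ := NuS_nonempty (D₁ := D₂) hP0 a b hadm
  obtain ⟨hνlt, hνp⟩ := mem_NuS.1 hν
  -- the system
  obtain ⟨ι⟩ : Nonempty ((univ : Finset (Fin k)) ↪ Fin (2 ^ kk)) := by
    apply Function.Embedding.nonempty_of_card_le
    rw [Fintype.card_coe, Fintype.card_fin, card_univ, Fintype.card_fin]
    exact hkk.trans Nat.lt_two_pow_self.le
  have hkW : 2 ^ kk ≤ WW D₂ P := by
    have h1 : p₀ ∣ WW D₂ P := (prime_dvd_WW hP0 hp₀').2 (Or.inl hD₂3)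
    exact hp₀.trans (Nat.le_of_dvd hWW0 h1)
  obtain ⟨A', B', hsys, hAB⟩ := redS (Jn := Jn) (e := e) (D₁ := D₁) (D₂ := D₂) a b hab hinj hadm
    univ ι hD₂1 (by rw [← hPd]; exact hkW) hD₂4 (by omega)
    (by rw [← hPd]; exact hP12) (by omega) ν (by rw [← hPd]; exact hν)
  rw [← hPd] at hsys hAB
  obtain ⟨W, hW⟩ : ∃ W : ℕ, W = WW D₂ P := ⟨_, rfl⟩
  have hWD : ∀ p : ℕ, p.Prime → ¬ p ∣ W → D₂ < p := by
    intro p hp hpW
    by_contra h
    rw [hW] at hpW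
    exact hpW ((prime_dvd_WW hP0 hp).2 (Or.inl (by omega)))
  have haW : ∀ i, ∀ p : ℕ, p.Prime → (p ∣ a i * W ↔ p ∣ W) := by
    intro i p hp
    constructor
    · intro h
      rcases (Nat.Prime.dvd_mul hp).1 h with h1 | h1
      · rw [hW]
        exact (prime_dvd_WW hP0 hp).2 (Or.inr (h1.trans (haP i)))
      · exact h1
    · intro h
      exact h.mul_left _
  have hAB' : ∀ i : Fin k, A' (ι ⟨i, mem_univ i⟩) = a i * W ∧
      B' (ι ⟨i, mem_univ i⟩) = a i * ν + b i := fun i => by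
    rw [hW]
    exact hAB ⟨i, mem_univ i⟩
  rw [← hW] at hWW0 hWWP hsys hνlt hνp
  have hcop : ∀ i, (a i * ν + b i).Coprime (a i * W) := by
    intro i
    have h1 := hsys.cop (ι ⟨i, mem_univ i⟩)
    rw [(hAB' i).1, (hAB' i).2] at h1
    exact h1
  have hBA : a i₀ * ν + b i₀ < a i₀ * W := by
    have h1 := hsys.BA (ι ⟨i₀, mem_univ i₀⟩)
    rw [(hAB' i₀).1, (hAB' i₀).2] at h1
    exact h1
  have hAT : a i₀ * W ≤ 2 ^ 2 ^ Jn := by
    have h1 := hsys.AT (ι ⟨i₀, mem_univ i₀⟩)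
    rw [(hAB' i₀).1] at h1
    exact h1
  have hA80 : (a i₀ * W) ^ 8 ≤ 2 ^ 2 ^ (j + D) := by
    calc (a i₀ * W) ^ 8 ≤ (2 ^ 2 ^ Jn) ^ 8 := Nat.pow_le_pow_left hAT 8
      _ = 2 ^ 2 ^ (Jn + 3) := by
        rw [← pow_mul, pow_add, show (2 : ℕ) ^ 3 = 8 by norm_num]
      _ ≤ _ := pp_mono (by omega)
  haveI : NeZero (a i₀ * W) := ⟨by omega⟩
  have hz32 : 32 ≤ 2 ^ 2 ^ (j + D) := by
    calc 32 ≤ 2 ^ 2 ^ 3 := by norm_num
      _ ≤ _ := pp_mono (by omega)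
  suffices key2 : ∃ l ≤ (2 ^ 2 ^ (j + D)) ^ Kx, (a i₀ * ν + b i₀ + a i₀ * W * l).Prime ∧
      ∀ i, ∀ p ∈ PS Jn W, ¬ p ∣ a i * ν + b i + a i * W * l by
    obtain ⟨l, hl, hlp, hrgh⟩ := key2
    refine ⟨ν + W * l, ?_, ?_, ?_⟩
    · have hlz : l ≤ P ^ (2 ^ D * Kx) := by
        calc l ≤ (2 ^ 2 ^ (j + D)) ^ Kx := hl
          _ = (2 ^ 2 ^ j) ^ (2 ^ D * Kx) := by
            rw [← pow_mul, ← pow_mul, ← mul_assoc, ← pow_add]
          _ ≤ _ := Nat.pow_le_pow_left hPj _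
      have hP1' : 1 ≤ P ^ (2 ^ D * Kx) := Nat.one_le_pow _ _ (Nat.pos_of_ne_zero hP0)
      have h2 : ν + W * l ≤ 2 * D₂.factorial * P ^ (1 + 2 ^ D * Kx) := by
        rw [pow_add, pow_one]
        generalize P ^ (2 ^ D * Kx) = z at hlz hP1' ⊢
        calc ν + W * l ≤ W * z + W * z := by
              apply add_le_add
              · exact hνlt.le.trans (Nat.le_mul_of_pos_right _ hP1')
              · exact Nat.mul_le_mul_left _ hlz
          _ = 2 * (W * z) := by ring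
          _ ≤ 2 * (D₂.factorial * P * z) := Nat.mul_le_mul_left _ (Nat.mul_le_mul_right _ hWWP)
          _ = _ := by ring
      have h3 : ((ν + W * l : ℕ) : ℝ) ≤ ((2 * D₂.factorial * P ^ (1 + 2 ^ D * Kx) : ℕ) : ℝ) := by
        exact_mod_cast h2
      refine h3.trans ?_
      push_cast
      rw [hA, hγ]
    · have e1 : a i₀ * (ν + W * l) + b i₀ = a i₀ * ν + b i₀ + a i₀ * W * l := by ring
      rw [e1]
      exact hlp
    · intro i p hp hpd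
      have e1 : a i * (ν + W * l) + b i = a i * ν + b i + a i * W * l := by ring
      rw [e1] at hpd
      by_contra hcon
      have hpT : p < 2 ^ 2 ^ Jn := by omega
      by_cases hpW : p ∣ W
      · have h1 : p ∣ a i * W := hpW.mul_left _
        have h2 : p ∣ a i * ν + b i := (Nat.dvd_add_left (h1.mul_right _)).1 hpd
        have h3 := Nat.dvd_gcd h2 h1
        have h4 := hcop i
        rw [Nat.Coprime] at h4
        rw [h4] at h3
        exact hp.one_lt.ne' (Nat.dvd_one.1 h3)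
      · exact hrgh i p (mem_PS.2 ⟨hp, hpT, hpW⟩) hpd
  have hz1 : 1 ≤ 2 ^ 2 ^ (j + D) := Nat.one_le_pow _ _ (by norm_num)
  by_cases hG : Gd1 C s (2 ^ 2 ^ (j + D)) (a i₀ * W) (a i₀ * ν + b i₀)
  · have h1 := heng Jn hJnJ W A' B' hsys (ι ⟨i₀, mem_univ i₀⟩)
    rw [(hAB' i₀).1, (hAB' i₀).2, hJne] at h1
    obtain ⟨l, hl, hpr, hrgh⟩ := h1 hG
    refine ⟨l, hl.trans (Nat.pow_le_pow_right hz1 (by rw [hKx]; exact Nat.le_add_right _ _)),
      hpr, ?_⟩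
    intro i p hp
    have h2 := hrgh (ι ⟨i, mem_univ i⟩) p hp
    rw [(hAB' i).1, (hAB' i).2] at h2
    exact h2
  · unfold Gd1 at hG
    push Not at hG
    obtain ⟨χ, hχ1, hχ2, hsm, hχb⟩ := hG
    have hu : IsUnit (((a i₀ * ν + b i₀ : ℕ)) : ZMod (a i₀ * W)) :=
      (ZMod.isUnit_iff_coprime _ _).2 (hcop i₀)
    have hχb1 : χ ((a i₀ * ν + b i₀ : ℕ) : ZMod (a i₀ * W)) = 1 := by
      rcases sgn χ hχ2 _ hu with h1 | h1
      · exact h1
      · exact absurd h1 hχb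
    obtain ⟨l, hl1, hl2, hl3⟩ := hexc s hss (j + D) (by omega) W (fun i => a i * W)
      (fun i => a i * ν + b i) i₀ (fun p hp hpW => lt_of_le_of_lt hD₂2 (hWD p hp hpW)) haW hBA hA80
      (fun σ h1 h2 => hCb _ _ σ hz32 hA80 h1 h2) χ hχ1 hχ2 hχb1 hsm
    refine ⟨l, ?_, hl1, ?_⟩
    · have h1 : l ≤ 2 ^ 2 ^ (j + D + 3 * s) := by
        refine le_trans ?_ hl2
        have h2 : 1 * l ≤ a i₀ * W * l := Nat.mul_le_mul_right _ (by omega)
        omega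
      refine h1.trans ?_
      calc 2 ^ 2 ^ (j + D + 3 * s) = (2 ^ 2 ^ (j + D)) ^ (2 ^ (3 * s)) := by
            rw [← pow_mul, ← pow_add]
        _ ≤ _ := Nat.pow_le_pow_right hz1 (by rw [hKx]; exact Nat.le_add_left _ _)
    · intro i p hp
      have h1 := mem_PS.1 hp
      exact hl3 i p (mem_PS.2 ⟨h1.1, lt_of_lt_of_le h1.2.1 (pp_mono (by omega)), h1.2.2⟩)

end Run7.h296
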