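import Pool.Agent.Run7.h296.X1

/-!
Counting with local conditions.
-/

set_option autoImplicit false

open Finset

namespace Run7.h296

/-- local conditions -/
structure LC (C : ℕ → ℕ → Prop) : Prop where
  per : ∀ p m n, m ≡ n [MOD p] → (C p m ↔ C p n)
  zero : ∀ p m, p ∣ m → C p m

open Classical in
/-- the relative size of the local condition -/
noncomputable def wd (C : ℕ → ℕ → Prop) (p : ℕ) : ℝ := (((range p).filter (fun t => C p t)).card : ℝ) / p

theorem wd_01 (C : ℕ → ℕ → Prop) (p : ℕ) : 0 ≤ wd C p ∧ wd C p ≤ 1 := by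
  classical
  unfold wd
  refine ⟨by positivity, ?_⟩
  rcases Nat.eq_zero_or_pos p with h | h
  · subst h
    simp
  · rw [div_le_one (by exact_mod_cast h)]
    have := card_filter_le (range p) (fun t => C p t)
    rw [card_range] at this
    exact_mod_cast this

theorem ct_base {a b M : ℕ} (hab : a ≤ b) (hM : 0 < M) (r : ℕ) :
    |(((Ioc a b).filter (fun v => v ≡ r [MOD M])).card : ℝ) - ((b : ℝ) - a) / M| ≤ 1 := by
  have h := Nat.Ioc_filter_modEq_card a b hM r
  have hab' : (a : ℚ) ≤ b := by exact_mod_cast hab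
  have hM' : (0 : ℚ) < M := by exact_mod_cast hM
  have h1 : ⌊((a : ℚ) - r) / M⌋ ≤ ⌊((b : ℚ) - r) / M⌋ := by
    apply Int.floor_le_floor
    apply div_le_div_of_nonneg_right _ hM'.le
    linarith
  rw [max_eq_left (by omega)] at h
  have h2 := Int.floor_le (((a : ℚ) - r) / M)
  have h3 := Int.lt_floor_add_one (((a : ℚ) - r) / M)
  have h4 := Int.floor_le (((b : ℚ) - r) / M)
  have h5 := Int.lt_floor_add_one (((b : ℚ) - r) / M)
  have h6 : (((Ioc a b).filter (fun v => v ≡ r [MOD M])).card : ℚ) =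
      (⌊((b : ℚ) - r) / M⌋ : ℚ) - (⌊((a : ℚ) - r) / M⌋ : ℚ) := by exact_mod_cast h
  have h7 : ((b : ℚ) - r) / M - ((a : ℚ) - r) / M = ((b : ℚ) - a) / M := by ring
  have h8 : |(((Ioc a b).filter (fun v => v ≡ r [MOD M])).card : ℚ) - ((b : ℚ) - a) / M| ≤ 1 := by
    rw [h6, abs_le]
    constructor <;> linarith
  have h9 := (Rat.cast_le (K := ℝ)).2 h8
  push_cast at h9
  exact h9

open Classical in
theorem ct_local {C : ℕ → ℕ → Prop} (hC : LC C) {p : ℕ} (hp : p.Prime) (u : ℕ) :
    ((((range p).filter (fun t => C p (u * t))).card : ℕ) : ℝ) = p * (if p ∣ u then 1 else wd C p) := by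
  have hp0 : (0 : ℝ) < p := by exact_mod_cast hp.pos
  by_cases h : p ∣ u
  · rw [if_pos h, mul_one, filter_true_of_mem, card_range]
    intro t _
    exact hC.zero p _ (h.mul_right t)
  · rw [if_neg h]
    unfold wd
    rw [mul_div_cancel₀ _ hp0.ne']
    congr 1
    have hco : u.Coprime p := ((Nat.Prime.coprime_iff_not_dvd hp).2 h).symm
    have hinj : Set.InjOn (fun t => u * t % p) (range p : Set ℕ) := by
      intro x hx y hy hxy
      rw [mem_coe, mem_range] at hx hy
      have h1 : u * x ≡ u * y [MOD p] := hxy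
      have h2 : x ≡ y [MOD p] := Nat.ModEq.cancel_left_of_coprime hco.symm h1
      exact Nat.ModEq.eq_of_lt_of_lt h2 hx hy
    have hmaps : ∀ t ∈ range p, u * t % p ∈ range p := fun t _ =>
      mem_range.2 (Nat.mod_lt _ hp.pos)
    have hsurj : Set.SurjOn (fun t => u * t % p) (range p : Set ℕ) (range p : Set ℕ) :=
      surjOn_of_injOn_of_card_le (fun t => u * t % p) hmaps hinj le_rfl
    apply card_nbij (fun t => u * t % p)
    · intro t ht
      rw [mem_coe, mem_filter] at ht ⊢
      refine ⟨hmaps t ht.1, ?_⟩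
      exact (hC.per p _ _ (Nat.mod_modEq (u * t) p)).2 ht.2
    · intro x hx y hy hxy
      rw [mem_coe, mem_filter] at hx hy
      exact hinj (mem_coe.2 hx.1) (mem_coe.2 hy.1) hxy
    · intro s hs
      rw [mem_coe, mem_filter] at hs
      obtain ⟨t, ht, hts⟩ := hsurj (mem_coe.2 hs.1)
      refine ⟨t, ?_, hts⟩
      rw [mem_coe, mem_filter]
      refine ⟨mem_coe.1 ht, ?_⟩
      simp only at hts
      rw [← hts] at hs
      exact (hC.per p _ _ (Nat.mod_modEq (u * t) p)).1 hs.2

open Classical in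
theorem ct {C : ℕ → ℕ → Prop} (hC : LC C) {S : Finset ℕ} (hS : ∀ p ∈ S, p.Prime) {a b : ℕ}
    (hab : a ≤ b) (u : ℕ) : ∀ (M r : ℕ), 0 < M → (∀ p ∈ S, M.Coprime p) →
    |(((Ioc a b).filter (fun v => v ≡ r [MOD M] ∧ ∀ p ∈ S, C p (u * v))).card : ℝ) -
      ((b : ℝ) - a) * fS S (wd C) u / M| ≤ ∏ p ∈ S, (p : ℝ) := by
  induction S using Finset.induction_on with
  | empty =>
    intro M r hM _
    have h := ct_base hab hM r
    simpa [fS] using h
  | insert p S hpS ih =>
    intro M r hM hMS
    have hp := hS p (mem_insert_self p S)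
    have hp0 : (0 : ℝ) < p := by exact_mod_cast hp.pos
    have ih' := ih fun r hr => hS r (mem_insert_of_mem hr)
    have hMp := hMS p (mem_insert_self p S)
    have hMp0 : 0 < M * p := Nat.mul_pos hM hp.pos
    obtain ⟨T, hT⟩ : ∃ T : Finset ℕ, T = (range p).filter (fun t => C p (u * t)) := ⟨_, rfl⟩
    have hTc := ct_local hC hp u
    rw [← hT] at hTc
    have e1 : ((Ioc a b).filter (fun v => v ≡ r [MOD M] ∧ ∀ p' ∈ insert p S, C p' (u * v))).card =
        ∑ t ∈ T, ((Ioc a b).filter (fun v => v ≡ (Nat.chineseRemainder hMp r t : ℕ) [MOD M * p] ∧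
          ∀ p' ∈ S, C p' (u * v))).card := by
      rw [card_eq_sum_card_fiberwise (f := fun v => v % p) (t := T)]
      · refine sum_congr rfl fun t ht => ?_
        rw [hT, mem_filter, mem_range] at ht
        congr 1
        ext v
        simp only [mem_filter, mem_insert, forall_eq_or_imp]
        have hcr := (Nat.chineseRemainder hMp r t).2
        constructor
        · rintro ⟨⟨hv, h1, h2, h3⟩, h4⟩
          refine ⟨hv, ?_, h3⟩
          have h5 : v ≡ t [MOD p] := by
            rw [← h4]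
            exact (Nat.mod_modEq v p).symm
          exact (Nat.modEq_and_modEq_iff_modEq_mul hMp).1
            ⟨h1.trans hcr.1.symm, h5.trans hcr.2.symm⟩
        · rintro ⟨hv, h1, h2⟩
          have h3 := (Nat.modEq_and_modEq_iff_modEq_mul hMp).2 h1
          have h5 : v ≡ t [MOD p] := h3.2.trans hcr.2
          refine ⟨⟨hv, h3.1.trans hcr.1, ?_, h2⟩, ?_⟩
          · exact (hC.per p _ _ (Nat.ModEq.mul_left u h5)).2 ht.2
          · have h6 : v % p = t % p := h5
            rw [h6, Nat.mod_eq_of_lt ht.1]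
      · intro v hv
        simp only [mem_coe, mem_filter, mem_insert, forall_eq_or_imp] at hv ⊢
        rw [hT, mem_filter, mem_range]
        refine ⟨Nat.mod_lt _ hp.pos, ?_⟩
        exact (hC.per p _ _ (Nat.ModEq.mul_left u (Nat.mod_modEq v p))).2 hv.2.2.1
    have e2 : ((b : ℝ) - a) * fS (insert p S) (wd C) u / M =
        ∑ t ∈ T, ((b : ℝ) - a) * fS S (wd C) u / ((M * p : ℕ) : ℝ) := by
      rw [sum_const, nsmul_eq_mul, hTc]
      have hM0 : (0 : ℝ) < M := by exact_mod_cast hM
      unfold fS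
      rw [prod_insert hpS]
      push_cast
      field_simp
    rw [e1, e2]
    push_cast
    rw [← sum_sub_distrib]
    refine (abs_sum_le_sum_abs _ _).trans ?_
    have h1 : ∀ t ∈ T, |(((Ioc a b).filter (fun v => v ≡ (Nat.chineseRemainder hMp r t : ℕ) [MOD M * p] ∧
          ∀ p' ∈ S, C p' (u * v))).card : ℝ) - ((b : ℝ) - a) * fS S (wd C) u / (M * p)| ≤
        ∏ p ∈ S, (p : ℝ) := by
      intro t _
      have h2 := ih' (M * p) (Nat.chineseRemainder hMp r t : ℕ) hMp0 (fun s hs => by
        apply Nat.Coprime.mul_left (hMS s (mem_insert_of_mem hs))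
        rw [Nat.coprime_primes hp (hS s (mem_insert_of_mem hs))]
        intro h
        exact hpS (h ▸ hs))
      push_cast at h2
      exact h2
    refine (sum_le_sum h1).trans ?_
    rw [sum_const, nsmul_eq_mul, prod_insert hpS]
    apply mul_le_mul_of_nonneg_right _ (prod_nonneg fun _ _ => by positivity)
    have h3 : T.card ≤ p := by
      rw [hT]
      have := card_filter_le (range p) (fun t => C p (u * t))
      rwa [card_range] at this
    exact_mod_cast h3

end Run7.h296
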