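import Pool.Agent.Run7.h296.X2

/-!
The sums of `1 * ψ` over a residue class with local conditions.
-/

set_option autoImplicit false

open Finset

namespace Run7.h296

/-- the convolution `1 * ψ` -/
noncomputable def lam (ψ : ℕ → ℝ) (m : ℕ) : ℝ := ∑ d ∈ m.divisors, ψ d

open Classical in
/-- the pairs -/
noncomputable def TT (Y : ℕ) (cond : ℕ → Prop) : Finset (ℕ × ℕ) :=
  ((Icc 1 Y) ×ˢ (Icc 1 Y)).filter (fun x => x.1 * x.2 ≤ Y ∧ cond (x.1 * x.2))

open Classical in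
theorem lam_TT (ψ : ℕ → ℝ) (Y : ℕ) (cond : ℕ → Prop) :
    ∑ m ∈ (Icc 1 Y).filter cond, lam ψ m = ∑ x ∈ TT Y cond, ψ x.1 := by
  rw [← sum_fiberwise_of_maps_to (s := TT Y cond) (t := (Icc 1 Y).filter cond)
    (g := fun x => x.1 * x.2)]
  · refine sum_congr rfl fun m hm => ?_
    rw [mem_filter, mem_Icc] at hm
    unfold lam
    rw [← Nat.sum_divisorsAntidiagonal (n := m) (fun d _ => ψ d)]
    apply sum_congr _ fun _ _ => rfl
    ext ⟨u, v⟩
    simp only [TT, mem_filter, mem_product, mem_Icc, Nat.mem_divisorsAntidiagonal]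
    constructor
    · rintro ⟨h1, h2⟩
      have hm0 : 0 < u * v := by omega
      have hu := Nat.pos_of_mul_pos_right hm0
      have hv := Nat.pos_of_mul_pos_left hm0
      refine ⟨⟨⟨⟨?_, ?_⟩, ?_, ?_⟩, by omega, by rw [h1]; exact hm.2⟩, h1⟩
      · omega
      · have := Nat.le_mul_of_pos_right u (show 0 < v by omega)
        omega
      · omega
      · have := Nat.le_mul_of_pos_left v (show 0 < u by omega)
        omega
    · rintro ⟨h1, h2⟩
      exact ⟨h2, by omega⟩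
  · intro x hx
    simp only [TT, mem_filter, mem_product, mem_Icc] at hx ⊢
    exact ⟨⟨Nat.mul_pos hx.1.1.1 hx.1.2.1, hx.2.1⟩, hx.2.2⟩

open Classical in
theorem TT_split (ψ : ℕ → ℝ) (Y : ℕ) (cond : ℕ → Prop)
    (hψ : ∀ u v, cond (u * v) → ψ u = ψ v) :
    ∑ x ∈ TT Y cond, ψ x.1 = 2 * ∑ x ∈ (TT Y cond).filter (fun x => x.1 < x.2), ψ x.1 +
      ∑ x ∈ (TT Y cond).filter (fun x => x.1 = x.2), ψ x.1 := by
  have h1 := sum_filter_add_sum_filter_not (TT Y cond) (fun x => x.1 < x.2) (fun x => ψ x.1)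
  have h2 := sum_filter_add_sum_filter_not ((TT Y cond).filter (fun x => ¬ x.1 < x.2))
    (fun x => x.1 = x.2) (fun x => ψ x.1)
  have h3 : ((TT Y cond).filter (fun x => ¬ x.1 < x.2)).filter (fun x => x.1 = x.2) =
      (TT Y cond).filter (fun x => x.1 = x.2) := by
    ext x
    simp only [mem_filter]
    constructor
    · rintro ⟨⟨a, -⟩, b⟩
      exact ⟨a, b⟩
    · rintro ⟨a, b⟩
      exact ⟨⟨a, by omega⟩, b⟩
  have h4 : ∑ x ∈ ((TT Y cond).filter (fun x => ¬ x.1 < x.2)).filter (fun x => ¬ x.1 = x.2), ψ x.1 =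
      ∑ x ∈ (TT Y cond).filter (fun x => x.1 < x.2), ψ x.1 := by
    apply sum_nbij' (fun x => (x.2, x.1)) (fun x => (x.2, x.1))
    · intro x hx
      simp only [TT, mem_filter, mem_product, mem_Icc] at hx ⊢
      obtain ⟨⟨⟨⟨a1, a2⟩, a3, a4⟩, a5⟩, a6⟩ := hx
      refine ⟨⟨⟨a2, a1⟩, ?_, ?_⟩, by omega⟩
      · rw [mul_comm]; exact a3
      · rw [mul_comm]; exact a4
    · intro x hx
      simp only [TT, mem_filter, mem_product, mem_Icc] at hx ⊢
      obtain ⟨⟨⟨a1, a2⟩, a3, a4⟩, a5⟩ := hx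
      refine ⟨⟨⟨⟨a2, a1⟩, ?_, ?_⟩, by omega⟩, by omega⟩
      · rw [mul_comm]; exact a3
      · rw [mul_comm]; exact a4
    · intro x _
      rfl
    · intro x _
      rfl
    · intro x hx
      simp only [TT, mem_filter] at hx
      exact hψ _ _ hx.1.1.2.2
  rw [h3, h4] at h2
  linarith

open Classical in
theorem TT_half (ψ : ℕ → ℝ) (Y : ℕ) (cond : ℕ → Prop) :
    ∑ x ∈ (TT Y cond).filter (fun x => x.1 < x.2), ψ x.1 =
      ∑ u ∈ Icc 1 (Nat.sqrt Y), ψ u * (((Ioc u (Y / u)).filter (fun v => cond (u * v))).card : ℝ) := by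
  rw [← sum_fiberwise_of_maps_to (s := (TT Y cond).filter (fun x => x.1 < x.2))
    (t := Icc 1 (Nat.sqrt Y)) (g := fun x => x.1)]
  · refine sum_congr rfl fun u hu => ?_
    rw [mem_Icc] at hu
    have e1 : ∑ x ∈ ((TT Y cond).filter (fun x => x.1 < x.2)).filter (fun x => x.1 = u), ψ x.1 =
        ∑ _x ∈ ((TT Y cond).filter (fun x => x.1 < x.2)).filter (fun x => x.1 = u), ψ u := by
      refine sum_congr rfl fun x hx => ?_
      rw [(mem_filter.1 hx).2]
    rw [e1, sum_const, nsmul_eq_mul, mul_comm]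
    congr 2
    symm
    apply card_nbij (fun v => (u, v))
    · intro v hv
      simp only [TT, coe_filter, mem_filter, mem_product, mem_Icc, mem_Ioc, Set.mem_setOf_eq] at hv ⊢
      obtain ⟨⟨a1, a2⟩, a3⟩ := hv
      rw [Nat.le_div_iff_mul_le hu.1, mul_comm] at a2
      have a4 : u ≤ u * v := Nat.le_mul_of_pos_right u (by omega)
      have a5 : v ≤ u * v := Nat.le_mul_of_pos_left v hu.1
      exact ⟨⟨⟨⟨⟨hu.1, by omega⟩, by omega, by omega⟩, a2, a3⟩, a1⟩, trivial⟩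
    · intro x _ y _ hxy
      exact (Prod.mk.inj hxy).2
    · rintro ⟨x, y⟩ hx
      simp only [TT, coe_filter, mem_filter, mem_product, mem_Icc, Set.mem_setOf_eq] at hx
      obtain ⟨⟨⟨⟨⟨a1, a2⟩, a3, a4⟩, a5, a6⟩, a7⟩, rfl⟩ := hx
      refine ⟨y, ?_, rfl⟩
      simp only [coe_filter, mem_Ioc, Set.mem_setOf_eq]
      refine ⟨⟨a7, ?_⟩, a6⟩
      rw [Nat.le_div_iff_mul_le a1, mul_comm]
      exact a5
  · intro x hx
    simp only [TT, mem_filter, mem_product, mem_Icc] at hx ⊢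
    refine ⟨hx.1.1.1.1, ?_⟩
    rw [Nat.le_sqrt]
    exact (Nat.mul_le_mul_left _ hx.2.le).trans hx.1.2.1

theorem RC.abs_le {q : ℕ} {ψ : ℕ → ℝ} {L c : ℝ} (h : RC q ψ L c) (n : ℕ) : |ψ n| ≤ 1 := by
  rcases h.val n with h4 | h4 | h4 <;> rw [h4] <;> norm_num

theorem fS_01 (S : Finset ℕ) (C : ℕ → ℕ → Prop) (u : ℕ) : 0 ≤ fS S (wd C) u ∧ fS S (wd C) u ≤ 1 := by
  unfold fS
  constructor
  · apply prod_nonneg
    intro p _
    split_ifs
    · norm_num
    · exact (wd_01 C p).1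
  · apply prod_le_one
    · intro p _
      split_ifs
      · norm_num
      · exact (wd_01 C p).1
    · intro p _
      split_ifs
      · exact le_rfl
      · exact (wd_01 C p).2

open Classical in
theorem TT_diag {q : ℕ} {ψ : ℕ → ℝ} {L c : ℝ} (h : RC q ψ L c) (Y : ℕ) (cond : ℕ → Prop) :
    |∑ x ∈ (TT Y cond).filter (fun x => x.1 = x.2), ψ x.1| ≤ Nat.sqrt Y := by
  refine (abs_sum_le_sum_abs _ _).trans ?_
  refine (sum_le_sum fun x _ => h.abs_le x.1).trans ?_
  rw [sum_const, nsmul_eq_mul, mul_one]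
  have h1 : ((TT Y cond).filter (fun x => x.1 = x.2)).card ≤ (Icc 1 (Nat.sqrt Y)).card := by
    apply card_le_card_of_injOn (fun x => x.1)
    · intro x hx
      simp only [TT, coe_filter, mem_filter, mem_product, mem_Icc, Set.mem_setOf_eq, coe_Icc,
        Set.mem_Icc] at hx ⊢
      refine ⟨hx.1.1.1.1, ?_⟩
      rw [Nat.le_sqrt]
      have := hx.1.2.1
      rwa [← hx.2] at this
    · rintro ⟨x, x'⟩ hx ⟨y, y'⟩ hy hxy
      simp only [coe_filter, mem_filter, Set.mem_setOf_eq] at hx hy hxy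
      rw [← hx.2, ← hy.2, hxy]
  rw [Nat.card_Icc, Nat.add_sub_cancel] at h1
  exact_mod_cast h1

open Classical in
/-- **the sum of `1 * ψ` over a class with local conditions** -/
theorem FS {q : ℕ} {ψ : ℕ → ℝ} {L c : ℝ} (h : RC q ψ L c) {C : ℕ → ℕ → Prop} (hC : LC C)
    {S : Finset ℕ} (hS : ∀ p ∈ S, p.Prime ∧ q.Coprime p) {r : ℕ} (hr : ψ r = 1) (Y : ℕ) :
    |∑ m ∈ (Icc 1 Y).filter (fun m => m ≡ r [MOD q] ∧ ∀ p ∈ S, C p m), lam ψ m -
      2 * Y / q * (L * gS S (wd C) ψ)| ≤ (5 + 4 * c / q) * √Y * ∏ p ∈ S, (p : ℝ) := by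
  have hq0 : (0 : ℝ) < q := by exact_mod_cast h.q1
  have hq1 : (1 : ℝ) ≤ q := by exact_mod_cast h.q1
  obtain ⟨cond, hcond⟩ : ∃ cond : ℕ → Prop, cond = fun m => m ≡ r [MOD q] ∧ ∀ p ∈ S, C p m :=
    ⟨_, rfl⟩
  have hcψ : ∀ u v, cond (u * v) → ψ u = ψ v := by
    intro u v huv
    rw [hcond] at huv
    have h1 := h.per _ _ huv.1
    rw [h.mul, hr] at h1
    rcases h.val u with h2 | h2 | h2 <;> rcases h.val v with h3 | h3 | h3 <;> rw [h2, h3] at h1 ⊢ <;>
      norm_num at h1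
  obtain ⟨E, hE⟩ : ∃ E : ℕ, E = Nat.sqrt Y := ⟨_, rfl⟩
  obtain ⟨PP, hPP⟩ : ∃ PP : ℝ, PP = ∏ p ∈ S, (p : ℝ) := ⟨_, rfl⟩
  have hPP1 : 1 ≤ PP := by
    rw [hPP]
    calc (1 : ℝ) = ∏ _p ∈ S, (1 : ℝ) := by simp
      _ ≤ ∏ p ∈ S, (p : ℝ) := prod_le_prod (fun _ _ => zero_le_one) fun p hp => by
        exact_mod_cast (hS p hp).1.one_lt.le
  have hEY : (E : ℝ) ≤ √Y := by
    apply Real.le_sqrt_of_sq_le
    have := Nat.sqrt_le' Y
    rw [← hE] at this
    exact_mod_cast this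
  have hYE : (Y : ℝ) / (E + 1) ≤ √Y := by
    have h1 : √(Y : ℝ) ≤ E + 1 := by
      rw [Real.sqrt_le_left (by positivity)]
      have := (Nat.lt_succ_sqrt' Y).le
      rw [← hE] at this
      have h2 : ((Y : ℕ) : ℝ) ≤ (((E + 1) ^ 2 : ℕ) : ℝ) := by exact_mod_cast this
      push_cast at h2
      exact h2
    rw [div_le_iff₀ (by positivity)]
    have h2 : √(Y : ℝ) * √(Y : ℝ) = Y := Real.mul_self_sqrt (Nat.cast_nonneg _)
    have h3 := Real.sqrt_nonneg (Y : ℝ)
    nlinarith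
  have e1 := lam_TT ψ Y cond
  have e2 := TT_split ψ Y cond hcψ
  have e3 := TT_half ψ Y cond
  have e4 := TT_diag h Y cond
  rw [← hE] at e3 e4
  have e5 : ∑ m ∈ (Icc 1 Y).filter (fun m => m ≡ r [MOD q] ∧ ∀ p ∈ S, C p m), lam ψ m =
      ∑ m ∈ (Icc 1 Y).filter cond, lam ψ m := by
    apply sum_congr _ fun _ _ => rfl
    ext m
    simp only [mem_filter, hcond]
  rw [e5, e1, e2, e3, ← hPP]
  -- the counts
  have hcount : ∀ u ∈ Icc 1 E, |ψ u * (((Ioc u (Y / u)).filter (fun v => cond (u * v))).card : ℝ) -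
      ψ u * ((Y / u - u) * fS S (wd C) u / q)| ≤ 2 * PP := by
    intro u hu
    rw [mem_Icc] at hu
    rw [← mul_sub, abs_mul]
    rcases eq_or_ne (ψ u) 0 with h0 | h0
    · rw [h0, abs_zero, zero_mul]
      linarith
    refine (mul_le_of_le_one_left (abs_nonneg _) (h.abs_le u)).trans ?_
    have hco := (h.cop u).1 h0
    obtain ⟨w, hw⟩ : ∃ w : ℕ, u * w ≡ 1 [MOD q] := by
      rcases Nat.lt_or_ge 1 q with h1 | h1
      · obtain ⟨w, -, hw⟩ := Nat.exists_mul_mod_eq_one_of_coprime hco h1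
        refine ⟨w, ?_⟩
        unfold Nat.ModEq
        rw [hw, Nat.mod_eq_of_lt h1]
      · have h2 : q = 1 := by
          have := h.q1
          omega
        exact ⟨0, by rw [h2]; exact Nat.modEq_one⟩
    have huY : u ≤ Y / u := by
      rw [Nat.le_div_iff_mul_le hu.1]
      have := hu.2
      rw [hE, Nat.le_sqrt] at this
      exact this
    have h1 := ct hC (fun p hp => (hS p hp).1) huY u q (w * r) h.q1 (fun p hp => (hS p hp).2)
    have h2 : (Ioc u (Y / u)).filter (fun v => cond (u * v)) =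
        (Ioc u (Y / u)).filter (fun v => v ≡ w * r [MOD q] ∧ ∀ p ∈ S, C p (u * v)) := by
      apply filter_congr
      intro v _
      rw [hcond]
      simp only
      have h3 : u * v ≡ r [MOD q] ↔ v ≡ w * r [MOD q] := by
        constructor
        · intro h4
          have h5 := Nat.ModEq.mul_left w h4
          have h6 : w * (u * v) ≡ v [MOD q] := by
            have h7 := Nat.ModEq.mul_right v hw
            rw [one_mul] at h7
            have h8 : w * (u * v) = u * w * v := by ring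
            rw [h8]
            exact h7
          exact h6.symm.trans h5
        · intro h4
          have h5 := Nat.ModEq.mul_left u h4
          have h7 := Nat.ModEq.mul_right r hw
          rw [one_mul] at h7
          have h8 : u * (w * r) = u * w * r := by ring
          rw [h8] at h5
          exact h5.trans h7
      rw [h3]
    rw [h2]
    rw [← hPP] at h1
    obtain ⟨hf0, hf1⟩ := fS_01 S C u
    have hu0 : (0 : ℝ) < u := by exact_mod_cast hu.1
    have h4 : |(((Y / u : ℕ) : ℝ) - Y / u)| ≤ 1 := by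
      have h5 : ((Y / u : ℕ) : ℝ) ≤ Y / u := Nat.cast_div_le
      have h6 : (Y : ℝ) / u < ((Y / u : ℕ) : ℝ) + 1 := by
        rw [div_lt_iff₀ hu0]
        have := Nat.lt_div_mul_add (a := Y) hu.1
        have h7 : Y < (Y / u + 1) * u := by
          have e4 : (Y / u + 1) * u = Y / u * u + u := by ring
          omega
        exact_mod_cast h7
      rw [abs_le]
      constructor <;> linarith
    have h5 : |(((Y / u : ℕ) : ℝ) - u) * fS S (wd C) u / q - (Y / u - u) * fS S (wd C) u / q| ≤ 1 := by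
      have e6 : (((Y / u : ℕ) : ℝ) - u) * fS S (wd C) u / q - (Y / u - u) * fS S (wd C) u / q =
          (((Y / u : ℕ) : ℝ) - Y / u) * (fS S (wd C) u / q) := by ring
      rw [e6, abs_mul, abs_of_nonneg (div_nonneg hf0 hq0.le)]
      have h7 : fS S (wd C) u / q ≤ 1 := by
        rw [div_le_one hq0]
        linarith
      calc _ ≤ (1 : ℝ) * 1 := mul_le_mul h4 h7 (div_nonneg hf0 hq0.le) zero_le_one
        _ = 1 := by norm_num
    have h6 := abs_add_le ((((Ioc u (Y / u)).filter (fun v => v ≡ w * r [MOD q] ∧ ∀ p ∈ S,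
      C p (u * v))).card : ℝ) - (((Y / u : ℕ) : ℝ) - u) * fS S (wd C) u / q)
      ((((Y / u : ℕ) : ℝ) - u) * fS S (wd C) u / q - (Y / u - u) * fS S (wd C) u / q)
    rw [sub_add_sub_cancel] at h6
    linarith
  have hsum : |∑ u ∈ Icc 1 E, ψ u * (((Ioc u (Y / u)).filter (fun v => cond (u * v))).card : ℝ) -
      ∑ u ∈ Icc 1 E, ψ u * ((Y / u - u) * fS S (wd C) u / q)| ≤ 2 * PP * E := by
    rw [← sum_sub_distrib]
    refine (abs_sum_le_sum_abs _ _).trans ((sum_le_sum hcount).trans ?_)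
    rw [sum_const, Nat.card_Icc, Nat.add_sub_cancel, nsmul_eq_mul]
    linarith
  have hG := GS h (wd C) (fun p _ => wd_01 C p) (fun p hp => (hS p hp).1) E
  have hH := HS h (wd C) (fun p _ => wd_01 C p) (fun p hp => (hS p hp).1) E
  have e7 : ∑ u ∈ Icc 1 E, ψ u * ((Y / u - u) * fS S (wd C) u / q) =
      Y / q * ∑ u ∈ Icc 1 E, ψ u * fS S (wd C) u / u -
        1 / q * ∑ u ∈ Icc 1 E, ψ u * fS S (wd C) u * u := by
    rw [mul_sum, mul_sum, ← sum_sub_distrib]
    refine sum_congr rfl fun u _ => ?_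
    ring
  rw [e7] at hsum
  generalize ∑ u ∈ Icc 1 E, ψ u * (((Ioc u (Y / u)).filter (fun v => cond (u * v))).card : ℝ) = N at *
  generalize ∑ x ∈ (TT Y cond).filter (fun x => x.1 = x.2), ψ x.1 = dg at *
  generalize ∑ u ∈ Icc 1 E, ψ u * fS S (wd C) u / u = G at *
  generalize ∑ u ∈ Icc 1 E, ψ u * fS S (wd C) u * u = H at *
  generalize gS S (wd C) ψ = g at *
  have hc0 := h.c0
  have hY0 : (0 : ℝ) ≤ Y := Nat.cast_nonneg _
  have hs0 := Real.sqrt_nonneg (Y : ℝ)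
  have e8 : 2 * N + dg - 2 * Y / q * (L * g) =
      2 * (N - (Y / q * G - 1 / q * H)) + 2 * Y / q * (G - L * g) - 2 / q * H + dg := by ring
  rw [e8]
  have b1 : |2 * (N - (Y / q * G - 1 / q * H))| ≤ 4 * PP * √Y := by
    rw [abs_mul, abs_of_pos (by norm_num : (0 : ℝ) < 2)]
    have : 2 * PP * E ≤ 2 * PP * √Y := mul_le_mul_of_nonneg_left hEY (by positivity)
    linarith
  have b2 : |2 * Y / q * (G - L * g)| ≤ 2 * c / q * √Y := by
    rw [abs_mul, abs_of_nonneg (by positivity : (0 : ℝ) ≤ 2 * Y / q)]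
    calc 2 * (Y : ℝ) / q * |G - L * g| ≤ 2 * Y / q * (c / (E + 1)) :=
          mul_le_mul_of_nonneg_left hG (by positivity)
      _ = 2 * c / q * (Y / (E + 1)) := by ring
      _ ≤ 2 * c / q * √Y := mul_le_mul_of_nonneg_left hYE (by positivity)
  have b3 : |2 / q * H| ≤ 2 * c / q * √Y := by
    rw [abs_mul, abs_of_nonneg (by positivity : (0 : ℝ) ≤ 2 / q)]
    calc 2 / (q : ℝ) * |H| ≤ 2 / q * (c * E) := mul_le_mul_of_nonneg_left hH (by positivity)
      _ = 2 * c / q * E := by ring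
      _ ≤ _ := mul_le_mul_of_nonneg_left hEY (by positivity)
  have b4 : |dg| ≤ √Y := e4.trans hEY
  have b5 := abs_add_le (2 * (N - (Y / q * G - 1 / q * H)) + 2 * Y / q * (G - L * g) - 2 / q * H) dg
  have b6 := abs_sub (2 * (N - (Y / q * G - 1 / q * H)) + 2 * Y / q * (G - L * g)) (2 / q * H)
  have b7 := abs_add_le (2 * (N - (Y / q * G - 1 / q * H))) (2 * Y / q * (G - L * g))
  have b8 : 4 * PP * √Y + 2 * c / q * √Y + 2 * c / q * √Y + √Y ≤ (5 + 4 * c / q) * √Y * PP := by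
    have h1 : 2 * c / q * √Y ≤ 2 * c / q * √Y * PP := le_mul_of_one_le_right (by positivity) hPP1
    have h2 : √Y ≤ √Y * PP := le_mul_of_one_le_right hs0 hPP1
    have h3 : (5 + 4 * c / q) * √Y * PP = 4 * PP * √Y + 2 * c / q * √Y * PP + 2 * c / q * √Y * PP + √Y * PP := by
      ring
    rw [h3]
    linarith
  linarith

end Run7.h296
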