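import Pool.Agent.Run7.h296.X3
import Pool.Agent.Run7.h296.Cx

/-!
The sieve for `1 * ψ`.
-/

set_option autoImplicit false

open Finset

namespace Run7.h296

/-- the character as an arithmetic function -/
noncomputable def psiA (ψ : ℕ → ℝ) : ArithmeticFunction ℝ := ⟨fun n => if n = 0 then 0 else ψ n, by simp⟩

theorem psiA_apply (ψ : ℕ → ℝ) {n : ℕ} (hn : n ≠ 0) : psiA ψ n = ψ n := by
  unfold psiA
  rw [ArithmeticFunction.coe_mk, if_neg hn]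

theorem psiA_mult {q : ℕ} {ψ : ℕ → ℝ} {L c : ℝ} (h : RC q ψ L c) : (psiA ψ).IsMultiplicative := by
  rw [ArithmeticFunction.IsMultiplicative.iff_ne_zero]
  refine ⟨?_, ?_⟩
  · rw [psiA_apply ψ one_ne_zero, h.one]
  · intro m n hm hn _
    rw [psiA_apply ψ (Nat.mul_ne_zero hm hn), psiA_apply ψ hm, psiA_apply ψ hn, h.mul]

theorem lam_eq (ψ : ℕ → ℝ) (m : ℕ) :
    ((ArithmeticFunction.zeta : ArithmeticFunction ℝ) * psiA ψ) m = lam ψ m := by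
  rw [ArithmeticFunction.coe_zeta_mul_apply]
  unfold lam
  refine sum_congr rfl fun d hd => ?_
  exact psiA_apply ψ (Nat.ne_zero_of_mem_divisors hd |> fun h0 => by
    have := Nat.pos_of_mem_divisors hd
    omega)

theorem lam_mul {q : ℕ} {ψ : ℕ → ℝ} {L c : ℝ} (h : RC q ψ L c) {m n : ℕ} (hc : m.Coprime n) :
    lam ψ (m * n) = lam ψ m * lam ψ n := by
  rw [← lam_eq, ← lam_eq, ← lam_eq]
  have h1 : ((ArithmeticFunction.zeta : ArithmeticFunction ℝ) * psiA ψ).IsMultiplicative :=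
    (ArithmeticFunction.isMultiplicative_zeta.natCast).mul (psiA_mult h)
  exact h1.map_mul_of_coprime hc

theorem psi_pow {q : ℕ} {ψ : ℕ → ℝ} {L c : ℝ} (h : RC q ψ L c) (p j : ℕ) : ψ (p ^ j) = ψ p ^ j := by
  induction j with
  | zero => rw [pow_zero, pow_zero, h.one]
  | succ j ih => rw [pow_succ, h.mul, ih, pow_succ]

theorem lam_pp {q : ℕ} {ψ : ℕ → ℝ} {L c : ℝ} (h : RC q ψ L c) {p : ℕ} (hp : p.Prime) (k : ℕ) :
    lam ψ (p ^ k) = ∑ j ∈ range (k + 1), ψ p ^ j := by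
  unfold lam
  rw [Nat.sum_divisors_prime_pow hp]
  exact sum_congr rfl fun j _ => psi_pow h p j

theorem lam_nonneg {q : ℕ} {ψ : ℕ → ℝ} {L c : ℝ} (h : RC q ψ L c) (m : ℕ) : 0 ≤ lam ψ m := by
  induction m using Nat.recOnPosPrimePosCoprime with
  | prime_pow p n hp _ =>
    rw [lam_pp h hp]
    rcases h.val p with h1 | h1 | h1
    · rw [h1]
      exact sum_nonneg fun j _ => pow_nonneg le_rfl j
    · rw [h1]
      exact sum_nonneg fun j _ => by rw [one_pow]; norm_num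
    · rw [h1, neg_one_geom_sum]
      split_ifs <;> norm_num
  | zero => simp [lam]
  | one => simp [lam, h.one]
  | coprime a b _ _ hab ha hb =>
    rw [lam_mul h hab]
    exact mul_nonneg ha hb

theorem lam_one {q : ℕ} {ψ : ℕ → ℝ} {L c : ℝ} (h : RC q ψ L c) : lam ψ 1 = 1 := by
  simp [lam, h.one]

theorem lam_p1 {q : ℕ} {ψ : ℕ → ℝ} {L c : ℝ} (h : RC q ψ L c) {p m : ℕ} (hp : p.Prime) (hm : m ≠ 0)
    (h1 : ψ p = 1) : lam ψ (p * m) ≤ 2 * lam ψ m := by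
  obtain ⟨a, m', hm', rfl⟩ := Nat.exists_eq_pow_mul_and_not_dvd hm p hp.ne_one
  have hco : ∀ k : ℕ, (p ^ k).Coprime m' := fun k =>
    Nat.Coprime.pow_left k ((Nat.Prime.coprime_iff_not_dvd hp).2 hm')
  have e1 : p * (p ^ a * m') = p ^ (a + 1) * m' := by ring
  have h3 := lam_nonneg h m'
  rw [e1, lam_mul h (hco _), lam_mul h (hco _), lam_pp h hp, lam_pp h hp, h1]
  simp only [one_pow, sum_const, card_range, nsmul_eq_mul, mul_one]
  push_cast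
  have h4 : (0 : ℝ) ≤ a := Nat.cast_nonneg a
  nlinarith [mul_nonneg h4 h3]

theorem lam_m1 {q : ℕ} {ψ : ℕ → ℝ} {L c : ℝ} (h : RC q ψ L c) {p m : ℕ} (hp : p.Prime)
    (h1 : ψ p = -1) : (¬ p ∣ m → lam ψ (p * m) = 0) ∧ (m ≠ 0 → lam ψ (p * (p * m)) = lam ψ m) := by
  constructor
  · intro hm
    have hco : p.Coprime m := (Nat.Prime.coprime_iff_not_dvd hp).2 hm
    rw [lam_mul h hco]
    have h2 := lam_pp h hp 1
    rw [pow_one] at h2
    rw [h2, h1, neg_one_geom_sum]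
    simp
  · intro hm
    obtain ⟨a, m', hm', rfl⟩ := Nat.exists_eq_pow_mul_and_not_dvd hm p hp.ne_one
    have hco : ∀ k : ℕ, (p ^ k).Coprime m' := fun k =>
      Nat.Coprime.pow_left k ((Nat.Prime.coprime_iff_not_dvd hp).2 hm')
    have e1 : p * (p * (p ^ a * m')) = p ^ (a + 2) * m' := by ring
    rw [e1, lam_mul h (hco _), lam_mul h (hco _), lam_pp h hp, lam_pp h hp, h1, neg_one_geom_sum,
      neg_one_geom_sum]
    congr 1
    have : Even (a + 2 + 1) ↔ Even (a + 1) := by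
      rw [Nat.even_iff, Nat.even_iff]
      omega
    simp only [this]

open Classical in
/-- the sifted sum -/
noncomputable def SV (ψ : ℕ → ℝ) (C : ℕ → ℕ → Prop) (P : Finset ℕ) (q r Y : ℕ) : ℝ :=
  ∑ m ∈ (Icc 1 Y).filter (fun m => m ≡ r [MOD q] ∧ ∀ p ∈ P, ¬ C p m), lam ψ m

/-- the density at `p` -/
noncomputable def gd (C : ℕ → ℕ → Prop) (ψ : ℕ → ℝ) (p : ℕ) : ℝ := wd C p + (1 - wd C p) * (ψ p / p)

open Classical in
theorem swap_sum (ψ : ℕ → ℝ) (C : ℕ → ℕ → Prop) (P : Finset ℕ) (q r Y : ℕ) (ρ : Finset ℕ → ℝ) :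
    ∑ m ∈ (Icc 1 Y).filter (fun m => m ≡ r [MOD q]), lam ψ m *
      ∑ T ∈ (P.filter (fun p => C p m)).powerset, ρ T =
    ∑ T ∈ P.powerset, ρ T *
      ∑ m ∈ (Icc 1 Y).filter (fun m => m ≡ r [MOD q] ∧ ∀ p ∈ T, C p m), lam ψ m := by
  have e1 : ∀ m, lam ψ m * ∑ T ∈ (P.filter (fun p => C p m)).powerset, ρ T =
      ∑ T ∈ P.powerset, (if ∀ p ∈ T, C p m then ρ T * lam ψ m else 0) := by
    intro m
    rw [← sum_filter, mul_sum]
    apply sum_congr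
    · ext T
      simp only [mem_powerset, mem_filter]
      constructor
      · intro h
        exact ⟨h.trans (filter_subset _ _), fun p hp => (mem_filter.1 (h hp)).2⟩
      · rintro ⟨h1, h2⟩ p hp
        exact mem_filter.2 ⟨h1 hp, h2 p hp⟩
    · intro T _
      ring
  simp_rw [e1]
  rw [sum_comm]
  refine sum_congr rfl fun T _ => ?_
  rw [mul_sum, ← sum_filter, filter_filter]

open Classical in
theorem sieve_gen {q : ℕ} {ψ : ℕ → ℝ} {L c : ℝ} (h : RC q ψ L c) {C : ℕ → ℕ → Prop} (hC : LC C)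
    {P : Finset ℕ} (hP : ∀ p ∈ P, p.Prime ∧ q.Coprime p) {r : ℕ} (hr : ψ r = 1) (Y : ℕ)
    (ρ : Finset ℕ → ℝ) (cρ : ℝ) (hc0 : 0 ≤ cρ) (hc : ∀ T ⊆ P, |ρ T| ≤ cρ) (L₁ : ℕ)
    (hL : ∀ T ⊆ P, ρ T ≠ 0 → MS T ≤ L₁) :
    |∑ m ∈ (Icc 1 Y).filter (fun m => m ≡ r [MOD q]), lam ψ m *
      ∑ T ∈ (P.filter (fun p => C p m)).powerset, ρ T -
      2 * Y / q * L * ∑ T ∈ P.powerset, ρ T * ∏ p ∈ T, gd C ψ p| ≤
      (5 + 4 * c / q) * √Y * (cρ * L₁ ^ 2) := by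
  rw [swap_sum, mul_sum, ← sum_sub_distrib]
  refine (abs_sum_le_sum_abs _ _).trans ?_
  have hq0 : (0 : ℝ) < q := by exact_mod_cast h.q1
  have hc00 := h.c0
  have h1 : ∀ T ∈ P.powerset, |ρ T * ∑ m ∈ (Icc 1 Y).filter (fun m => m ≡ r [MOD q] ∧
      ∀ p ∈ T, C p m), lam ψ m - 2 * Y / q * L * (ρ T * ∏ p ∈ T, gd C ψ p)| ≤
      (5 + 4 * c / q) * √Y * (|ρ T| * ∏ p ∈ T, (p : ℝ)) := by
    intro T hT
    rw [mem_powerset] at hT
    have h2 := FS h hC (fun p hp => hP p (hT hp)) hr Y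
    have e1 : ρ T * ∑ m ∈ (Icc 1 Y).filter (fun m => m ≡ r [MOD q] ∧
        ∀ p ∈ T, C p m), lam ψ m - 2 * Y / q * L * (ρ T * ∏ p ∈ T, gd C ψ p) =
        ρ T * (∑ m ∈ (Icc 1 Y).filter (fun m => m ≡ r [MOD q] ∧ ∀ p ∈ T, C p m), lam ψ m -
          2 * Y / q * (L * gS T (wd C) ψ)) := by
      unfold gS gd
      ring
    rw [e1, abs_mul]
    calc |ρ T| * _ ≤ |ρ T| * ((5 + 4 * c / q) * √Y * ∏ p ∈ T, (p : ℝ)) :=
          mul_le_mul_of_nonneg_left h2 (abs_nonneg _)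
      _ = _ := by ring
  refine (sum_le_sum h1).trans ?_
  rw [← mul_sum]
  apply mul_le_mul_of_nonneg_left _ (by positivity)
  exact R1_bound (fun p hp => (hP p hp).1) (fun p => (p : ℝ)) (fun p _ => ⟨by positivity, le_rfl⟩)
    ρ cρ hc0 hc L₁ hL

open Classical in
/-- **the upper and the lower bound** -/
theorem sieve_bd {q b J : ℕ} {ψ : ℕ → ℝ} {L c : ℝ} (h : RC q ψ L c) (hL0 : 0 ≤ L)
    {C : ℕ → ℕ → Prop} (hC : LC C)
    {P : Finset ℕ} (hP : ∀ p ∈ P, p.Prime ∧ q.Coprime p) (hPJ : ∀ p ∈ P, p < 2 ^ 2 ^ J) {r : ℕ}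
    (hr : ψ r = 1) (Y : ℕ) {V : ℝ}
    (p1 : V ≤ ∑ T ∈ P.powerset, rhoP b J T * ∏ p ∈ T, gd C ψ p)
    (p2 : ∑ T ∈ P.powerset, rhoP b J T * ∏ p ∈ T, gd C ψ p ≤ (1 + (1 / 2) ^ b) * V)
    (d2 : ∑ T ∈ P.powerset, rhoD b J T * ∏ p ∈ T, gd C ψ p ≤ (1 / 2) ^ b * V) :
    SV ψ C P q r Y ≤ 2 * Y / q * L * ((1 + (1 / 2) ^ b) * V) +
      (5 + 4 * c / q) * √Y * (1 * (((2 ^ 2 ^ J) ^ (4 * b + 6) : ℕ) : ℝ) ^ 2) ∧
    2 * Y / q * L * ((1 - (1 / 2) ^ b) * V) -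
      (5 + 4 * c / q) * √Y * ((1 + J) * (((2 ^ 2 ^ J) ^ (4 * b + 6) : ℕ) : ℝ) ^ 2) ≤
      SV ψ C P q r Y := by
  have hq0 : (0 : ℝ) < q := by exact_mod_cast h.q1
  have hPP : ∀ p ∈ P, p.Prime ∧ p < 2 ^ 2 ^ J := fun p hp => ⟨(hP p hp).1, hPJ p hp⟩
  have hMn : (0 : ℝ) ≤ 2 * Y / q * L := by positivity
  have g1 := sieve_gen h hC hP hr Y (rhoP b J) 1 zero_le_one (fun T _ => rhoP_abs b J T)
    ((2 ^ 2 ^ J) ^ (4 * b + 6)) (fun T hT hne => rho_level hPP T hT (Or.inl hne))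
  have g2 := sieve_gen h hC hP hr Y (rhoM b J) (1 + J) (by positivity) (fun T _ => rhoM_abs b J T)
    ((2 ^ 2 ^ J) ^ (4 * b + 6)) (fun T hT hne => rhoM_level hPP T hT hne)
  have hbonf : ∀ m, (if ∀ p ∈ P, ¬ C p m then (1 : ℝ) else 0) ≤
      ∑ T ∈ (P.filter (fun p => C p m)).powerset, rhoP b J T ∧
      ∑ T ∈ (P.filter (fun p => C p m)).powerset, rhoM b J T ≤
        (if ∀ p ∈ P, ¬ C p m then (1 : ℝ) else 0) := by
    intro m
    have h1 := rho_bonf b J (P.filter (fun p => C p m)) (fun p hp => hPP p (mem_filter.1 hp).1)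
    have h2 : P.filter (fun p => C p m) = ∅ ↔ ∀ p ∈ P, ¬ C p m := by
      rw [filter_eq_empty_iff]
    simp only [h2] at h1
    refine ⟨h1.1, ?_⟩
    unfold rhoM
    rw [sum_sub_distrib]
    exact h1.2.2
  have e1 : SV ψ C P q r Y = ∑ m ∈ (Icc 1 Y).filter (fun m => m ≡ r [MOD q]), lam ψ m *
      (if ∀ p ∈ P, ¬ C p m then (1 : ℝ) else 0) := by
    unfold SV
    rw [← filter_filter, sum_filter]
    refine sum_congr rfl fun m _ => ?_
    split_ifs <;> ring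
  constructor
  · have h1 : SV ψ C P q r Y ≤ ∑ m ∈ (Icc 1 Y).filter (fun m => m ≡ r [MOD q]), lam ψ m *
        ∑ T ∈ (P.filter (fun p => C p m)).powerset, rhoP b J T := by
      rw [e1]
      exact sum_le_sum fun m _ => mul_le_mul_of_nonneg_left (hbonf m).1 (lam_nonneg h m)
    have h2 := (abs_le.1 g1).2
    have h3 := mul_le_mul_of_nonneg_left p2 hMn
    linarith
  · have h1 : ∑ m ∈ (Icc 1 Y).filter (fun m => m ≡ r [MOD q]), lam ψ m *
        ∑ T ∈ (P.filter (fun p => C p m)).powerset, rhoM b J T ≤ SV ψ C P q r Y := by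
      rw [e1]
      exact sum_le_sum fun m _ => mul_le_mul_of_nonneg_left (hbonf m).2 (lam_nonneg h m)
    have h2 := (abs_le.1 g2).1
    have h3 : (1 - (1 / 2) ^ b) * V ≤ ∑ T ∈ P.powerset, rhoM b J T * ∏ p ∈ T, gd C ψ p := by
      rw [rhoM_sum]
      linarith
    have h4 := mul_le_mul_of_nonneg_left h3 hMn
    linarith

end Run7.h296
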