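import Pool.Agent.Run7.h296.X4

/-!
Primes in a class at which the exceptional character is `1`.
-/

set_option autoImplicit false

open Finset

namespace Run7.h296

/-- the conditions on a multiple -/
def tw (C : ℕ → ℕ → Prop) (u : ℕ) : ℕ → ℕ → Prop := fun p m => C p (u * m)

theorem tw_LC {C : ℕ → ℕ → Prop} (hC : LC C) (u : ℕ) : LC (tw C u) where
  per := fun p _ _ h => hC.per p _ _ (Nat.ModEq.mul_left u h)
  zero := fun p _ h => hC.zero p _ (h.mul_left u)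

theorem wd_tw {C : ℕ → ℕ → Prop} (hC : LC C) {p : ℕ} (hp : p.Prime) {u : ℕ} (hu : ¬ p ∣ u) :
    wd (tw C u) p = wd C p := by
  classical
  have h := ct_local hC hp u
  rw [if_neg hu] at h
  have hp0 : (0 : ℝ) < p := by exact_mod_cast hp.pos
  have e1 : wd (tw C u) p = (((range p).filter (fun t => C p (u * t))).card : ℝ) / p := by
    unfold wd tw
    congr!
  rw [e1, h]
  field_simp

theorem gd_tw {C : ℕ → ℕ → Prop} (hC : LC C) (ψ : ℕ → ℝ) {p : ℕ} (hp : p.Prime) {u : ℕ}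
    (hu : ¬ p ∣ u) : gd (tw C u) ψ p = gd C ψ p := by
  unfold gd
  rw [wd_tw hC hp hu]

/-- inverses -/
theorem inv_mod {u q : ℕ} (hq : 1 ≤ q) (h : u.Coprime q) : ∃ w : ℕ, u * w ≡ 1 [MOD q] := by
  rcases Nat.lt_or_ge 1 q with h1 | h1
  · obtain ⟨w, -, hw⟩ := Nat.exists_mul_mod_eq_one_of_coprime h h1
    refine ⟨w, ?_⟩
    unfold Nat.ModEq
    rw [hw, Nat.mod_eq_of_lt h1]
  · have h2 : q = 1 := by omega
    exact ⟨0, by rw [h2]; exact Nat.modEq_one⟩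

theorem mul_modEq_iff {u w q : ℕ} (hw : u * w ≡ 1 [MOD q]) (r v : ℕ) :
    u * v ≡ r [MOD q] ↔ v ≡ w * r [MOD q] := by
  constructor
  · intro h4
    have h5 := Nat.ModEq.mul_left w h4
    have h7 := Nat.ModEq.mul_right v hw
    rw [one_mul] at h7
    have h8 : w * (u * v) = u * w * v := by ring
    rw [h8] at h5
    exact h7.symm.trans h5
  · intro h4
    have h5 := Nat.ModEq.mul_left u h4
    have h7 := Nat.ModEq.mul_right r hw
    rw [one_mul] at h7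
    have h8 : u * (w * r) = u * w * r := by ring
    rw [h8] at h5
    exact h5.trans h7

open Classical in
/-- the sum over the multiples of `u` -/
theorem SV_mult {q : ℕ} {ψ : ℕ → ℝ} {L c : ℝ} (h : RC q ψ L c) (C : ℕ → ℕ → Prop) (P P' : Finset ℕ)
    (hPP : P' ⊆ P) (r X u w : ℕ) (hu : 0 < u) (hw : u * w ≡ 1 [MOD q]) :
    ∑ n ∈ ((Icc 1 X).filter (fun m => m ≡ r [MOD q] ∧ ∀ p ∈ P, ¬ C p m)).filter (fun n => u ∣ n),
      lam ψ (n / u) ≤ SV ψ (tw C u) P' q (w * r) (X / u) := by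
  have hinj : Set.InjOn (fun n => n / u) ((((Icc 1 X).filter (fun m => m ≡ r [MOD q] ∧
      ∀ p ∈ P, ¬ C p m)).filter (fun n => u ∣ n) : Finset ℕ) : Set ℕ) := by
    intro x hx y hy hxy
    rw [mem_coe, mem_filter] at hx hy
    simp only at hxy
    rw [← Nat.mul_div_cancel' hx.2, ← Nat.mul_div_cancel' hy.2, hxy]
  rw [← sum_image (f := fun n => lam ψ n) hinj]
  unfold SV
  apply sum_le_sum_of_subset_of_nonneg
  · intro m hm
    rw [mem_image] at hm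
    obtain ⟨n, hn, rfl⟩ := hm
    rw [mem_filter, mem_filter, mem_Icc] at hn
    obtain ⟨⟨⟨h1, h2⟩, h3, h4⟩, v, rfl⟩ := hn
    rw [Nat.mul_div_cancel_left _ hu, mem_filter, mem_Icc]
    refine ⟨⟨Nat.pos_of_mul_pos_left (by omega : 0 < u * v), ?_⟩, (mul_modEq_iff hw r v).1 h3,
      fun p hp => h4 p (hPP hp)⟩
    rw [Nat.le_div_iff_mul_le hu, mul_comm]
    exact h2
  · intro m _ _
    exact lam_nonneg h m

open Classical in
theorem SV_empty {q : ℕ} {ψ : ℕ → ℝ} {L c : ℝ} (h : RC q ψ L c) {C : ℕ → ℕ → Prop} (hC : LC C)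
    {r : ℕ} (hr : ψ r = 1) (Y : ℕ) :
    SV ψ C ∅ q r Y ≤ 2 * Y / q * L + (5 + 4 * c / q) * √Y := by
  have h1 := FS h hC (S := ∅) (by simp) hr Y
  have h2 := (abs_le.1 h1).2
  unfold SV
  simp only [gS, prod_empty, mul_one, notMem_empty, IsEmpty.forall_iff, implies_true, and_true] at h2 ⊢
  linarith

/-- the bound at a single composite number -/
theorem comp_bd {q T : ℕ} {ψ : ℕ → ℝ} {L c : ℝ} (h : RC q ψ L c) {n : ℕ} (hn1 : 1 < n)
    (hnq : n.Coprime q) (hnp : ¬ n.Prime) (hT : ∀ p : ℕ, p.Prime → p < T → ¬ p ∣ q → ¬ p ∣ n) :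
    ∃ p : ℕ, p.Prime ∧ T ≤ p ∧ p * p ≤ n ∧ ((ψ p = 1 ∧ p ∣ n ∧ lam ψ n ≤ 2 * lam ψ (n / p)) ∨
      (ψ p = -1 ∧ (lam ψ n = 0 ∨ (p * p ∣ n ∧ lam ψ n = lam ψ (n / (p * p)))))) := by
  have hp := Nat.minFac_prime (n := n) (by omega)
  have hpn := Nat.minFac_dvd n
  obtain ⟨p, hpd⟩ : ∃ p : ℕ, p = n.minFac := ⟨_, rfl⟩
  have hsq := Nat.minFac_sq_le_self (by omega) hnp
  rw [← hpd] at hp hpn hsq
  have hpq : p.Coprime q := Nat.Coprime.coprime_dvd_left hpn hnq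
  have hpq' : ¬ p ∣ q := (Nat.Prime.coprime_iff_not_dvd hp).1 hpq
  have hψ : ψ p ≠ 0 := (h.cop p).2 hpq
  refine ⟨p, hp, ?_, ?_, ?_⟩
  · by_contra hcon
    exact hT p hp (by omega) hpq' hpn
  · rw [← sq]
    exact hsq
  · obtain ⟨m, rfl⟩ := hpn
    have hm0 : m ≠ 0 := fun h0 => by
      rw [h0, mul_zero] at hn1
      omega
    rcases h.val p with h1 | h1 | h1
    · exact absurd h1 hψ
    · left
      rw [Nat.mul_div_cancel_left _ hp.pos]
      exact ⟨h1, dvd_mul_right _ _, lam_p1 h hp hm0 h1⟩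
    · right
      refine ⟨h1, ?_⟩
      by_cases hpm : p ∣ m
      · right
        obtain ⟨m', rfl⟩ := hpm
        have hm' : m' ≠ 0 := fun h0 => hm0 (by rw [h0, mul_zero])
        refine ⟨⟨m', by ring⟩, ?_⟩
        have e1 : p * (p * m') / (p * p) = m' := by
          rw [← mul_assoc]
          exact Nat.mul_div_cancel_left _ (Nat.mul_pos hp.pos hp.pos)
        rw [e1]
        exact (lam_m1 h hp h1).2 hm'
      · left
        exact (lam_m1 h hp h1).1 hpm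

theorem sum_inv_sqrt (R : ℕ) : ∑ n ∈ Icc 1 R, 1 / √(n : ℝ) ≤ 2 * √(R : ℝ) := by
  induction R with
  | zero => simp
  | succ R ih =>
    rw [sum_Icc_succ_top (by omega)]
    have h0 : (0 : ℝ) < ((R + 1 : ℕ) : ℝ) := by positivity
    have h1 : 0 < √((R + 1 : ℕ) : ℝ) := Real.sqrt_pos.2 h0
    have h2 : √((R + 1 : ℕ) : ℝ) * √((R + 1 : ℕ) : ℝ) = ((R + 1 : ℕ) : ℝ) :=
      Real.mul_self_sqrt h0.le
    have h3 : √(R : ℝ) * √(R : ℝ) = R := Real.mul_self_sqrt (Nat.cast_nonneg _)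
    have h4 := Real.sqrt_nonneg (R : ℝ)
    have h5 : 1 / √((R + 1 : ℕ) : ℝ) ≤ 2 * √((R + 1 : ℕ) : ℝ) - 2 * √(R : ℝ) := by
      rw [div_le_iff₀ h1]
      push_cast at h2 ⊢
      nlinarith [sq_nonneg (√((R : ℝ) + 1) - √(R : ℝ))]
    linarith

theorem sum_inv_sq {T R : ℕ} (hT : 1 ≤ T) :
    ∑ n ∈ (Icc 1 R).filter (fun n => T ≤ n), 1 / (n : ℝ) ^ 2 ≤ 2 / (T : ℝ) := by
  have h1 := sum_Ioo_inv_sq_le (α := ℝ) (T - 1) (R + 1)
  have h2 : (Icc 1 R).filter (fun n => T ≤ n) = Ioo (T - 1) (R + 1) := by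
    ext n
    rw [mem_filter, mem_Icc, mem_Ioo]
    omega
  rw [h2]
  have h3 : (((T - 1 : ℕ) : ℝ) + 1) = T := by
    have : T - 1 + 1 = T := by omega
    exact_mod_cast this
  rw [h3] at h1
  refine le_trans (le_of_eq ?_) h1
  refine sum_congr rfl fun n _ => ?_
  rw [one_div]

end Run7.h296
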