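import Pool.Agent.Run7.h296.X5

/-!
Primes in a class at which the exceptional character is `1`.
-/

set_option autoImplicit false

open Finset

namespace Run7.h296

open Classical in
/-- **a prime in a class at which an exceptional character is `1`, with local conditions** -/
theorem ex_prime {q b J Z : ℕ} {ψ : ℕ → ℝ} {L c : ℝ} (h : RC q ψ L c) (hL0 : 0 ≤ L)
    {C : ℕ → ℕ → Prop} (hC : LC C)
    {P : Finset ℕ} (hP : ∀ p ∈ P, p.Prime ∧ q.Coprime p) (hPJ : ∀ p ∈ P, p < 2 ^ 2 ^ J)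
    (hPall : ∀ p : ℕ, p.Prime → p < 2 ^ 2 ^ J → ¬ p ∣ q → p ∈ P) {r : ℕ}
    (hr : ψ r = 1) {V : ℝ} (hV : 0 < V) (hb : (1 / 2 : ℝ) ^ b ≤ 1 / 8)
    (p1 : V ≤ ∑ T ∈ P.powerset, rhoP b J T * ∏ p ∈ T, gd C ψ p)
    (p2 : ∑ T ∈ P.powerset, rhoP b J T * ∏ p ∈ T, gd C ψ p ≤ (1 + (1 / 2) ^ b) * V)
    (d2 : ∑ T ∈ P.powerset, rhoD b J T * ∏ p ∈ T, gd C ψ p ≤ (1 / 2) ^ b * V)
    (hmass : ∑ p ∈ (Icc 1 (Z ^ 2)).filter (fun p => p.Prime ∧ 2 ^ 2 ^ J ≤ p), (1 + ψ p) / p ≤ 1 / 4)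
    (hTV : 16 ≤ ((2 ^ 2 ^ J : ℕ) : ℝ) * V) (hZ1 : 1 ≤ Z)
    (hZ : 4 * (5 + 4 * c / q) * (((2 ^ 2 ^ J) ^ (4 * b + 6) : ℕ) : ℝ) ^ 2 * (8 + J) * q ≤
      2 * Z * L * V) :
    ∃ n ≤ Z ^ 4, n ≡ r [MOD q] ∧ n.Prime ∧ ∀ p ∈ P, ¬ C p n := by
  by_contra hcon
  push Not at hcon
  have hcon' : ∀ n ≤ Z ^ 4, n ≡ r [MOD q] → (∀ p ∈ P, ¬ C p n) → ¬ n.Prime := by
    intro n h1 h2 h3 h4
    obtain ⟨p, hp, hpC⟩ := hcon n h1 h2 h4
    exact h3 p hp hpC
  have hq0 : (0 : ℝ) < q := by exact_mod_cast h.q1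
  have hc0 := h.c0
  have hrq : r.Coprime q := (h.cop r).1 (by rw [hr]; norm_num)
  have hZr : (1 : ℝ) ≤ Z := by exact_mod_cast hZ1
  obtain ⟨T, hT⟩ : ∃ T : ℕ, T = 2 ^ 2 ^ J := ⟨_, rfl⟩
  have hT2 : 2 ≤ T := by
    rw [hT]
    exact two_le_pp J
  obtain ⟨D1, hD1⟩ : ∃ D1 : ℝ, D1 = (((2 ^ 2 ^ J) ^ (4 * b + 6) : ℕ) : ℝ) := ⟨_, rfl⟩
  have hD11 : 1 ≤ D1 := by
    rw [hD1]
    exact_mod_cast Nat.one_le_pow _ _ (by positivity)
  obtain ⟨κ, hκ⟩ : ∃ κ : ℝ, κ = 5 + 4 * c / q := ⟨_, rfl⟩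
  have hκ5 : 5 ≤ κ := by
    rw [hκ]
    have : 0 ≤ 4 * c / q := by positivity
    linarith
  -- the set of primes
  obtain ⟨Q, hQ⟩ : ∃ Q : Finset ℕ, Q = (Icc 1 (Z ^ 2)).filter (fun p => p.Prime ∧ 2 ^ 2 ^ J ≤ p) :=
    ⟨_, rfl⟩
  rw [← hQ] at hmass
  obtain ⟨Sn, hSn⟩ : ∃ Sn : Finset ℕ, Sn = (Icc 1 (Z ^ 4)).filter (fun m => m ≡ r [MOD q] ∧
    ∀ p ∈ P, ¬ C p m) := ⟨_, rfl⟩
  have hSV : SV ψ C P q r (Z ^ 4) = ∑ n ∈ Sn, lam ψ n := by
    unfold SV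
    rw [hSn]
  -- pointwise
  have hpt : ∀ n ∈ Sn, lam ψ n ≤ (if n = 1 then 1 else 0) +
      ∑ p ∈ Q, ((if ψ p = 1 then (if p ∣ n then 2 * lam ψ (n / p) else 0) else 0) +
        (if ψ p = -1 then (if p * p ∣ n then lam ψ (n / (p * p)) else 0) else 0)) := by
    intro n hn
    rw [hSn, mem_filter, mem_Icc] at hn
    obtain ⟨⟨hn1, hn2⟩, hn3, hn4⟩ := hn
    have hnn : ∀ p ∈ Q, 0 ≤ ((if ψ p = 1 then (if p ∣ n then 2 * lam ψ (n / p) else 0) else 0) +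
        (if ψ p = -1 then (if p * p ∣ n then lam ψ (n / (p * p)) else 0) else 0)) := by
      intro p _
      have h1 := lam_nonneg h (n / p)
      have h2 := lam_nonneg h (n / (p * p))
      apply add_nonneg
      · split_ifs <;> linarith
      · split_ifs <;> linarith
    rcases Nat.lt_or_ge 1 n with h1 | h1
    · rw [if_neg (by omega), zero_add]
      have hnq : n.Coprime q := by
        rw [← h.cop, h.per _ _ hn3, hr]
        norm_num
      obtain ⟨p, hp, hTp, hpp, hcase⟩ := comp_bd h (T := 2 ^ 2 ^ J) h1 hnq (hcon' n hn2 hn3 hn4)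
        (fun p hp hpT hpq hpn => hn4 p (hPall p hp hpT hpq) (hC.zero p n hpn))
      have hpQ : p ∈ Q := by
        rw [hQ, mem_filter, mem_Icc]
        refine ⟨⟨hp.pos, ?_⟩, hp, hTp⟩
        have h5 : p ^ 2 ≤ (Z ^ 2) ^ 2 := by
          rw [sq, ← pow_mul]
          exact hpp.trans hn2
        exact (Nat.pow_le_pow_iff_left (by norm_num)).1 h5
      refine le_trans ?_ (single_le_sum hnn hpQ)
      rcases hcase with ⟨a1, a2, a3⟩ | ⟨a1, a2⟩
      · rw [if_pos a1, if_pos a2, if_neg (by rw [a1]; norm_num), add_zero]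
        exact a3
      · rw [if_neg (by rw [a1]; norm_num), zero_add, if_pos a1]
        rcases a2 with a2 | ⟨a2, a3⟩
        · rw [a2]
          split_ifs
          · exact lam_nonneg h _
          · exact le_rfl
        · rw [if_pos a2, a3]
    · have h2 : n = 1 := by omega
      rw [h2, lam_one h, if_pos rfl]
      rw [h2] at hnn
      linarith [sum_nonneg hnn]
  -- summation
  have hsum : ∑ n ∈ Sn, lam ψ n ≤ 1 + ∑ p ∈ Q,
      ((if ψ p = 1 then 2 * ∑ n ∈ Sn.filter (fun n => p ∣ n), lam ψ (n / p) else 0) +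
        (if ψ p = -1 then ∑ n ∈ Sn.filter (fun n => p * p ∣ n), lam ψ (n / (p * p)) else 0)) := by
    refine (sum_le_sum hpt).trans ?_
    rw [sum_add_distrib, sum_comm]
    apply add_le_add
    · rw [sum_ite_eq']
      split_ifs <;> norm_num
    · apply le_of_eq
      refine sum_congr rfl fun p _ => ?_
      rw [sum_add_distrib]
      congr 1
      · split_ifs
        · rw [mul_sum, sum_filter]
        · simp
      · split_ifs
        · rw [sum_filter]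
        · simp
  -- the bounds
  obtain ⟨X, hX⟩ : ∃ X : ℝ, X = (Z : ℝ) ^ 4 := ⟨_, rfl⟩
  have hX0 : 0 < X := by rw [hX]; positivity
  have hsX : √X = (Z : ℝ) ^ 2 := by
    rw [hX, show (Z : ℝ) ^ 4 = ((Z : ℝ) ^ 2) ^ 2 by ring]
    exact Real.sqrt_sq (by positivity)
  have hV0 := hV.le
  have hterm : ∀ p ∈ Q,
      ((if ψ p = 1 then 2 * ∑ n ∈ Sn.filter (fun n => p ∣ n), lam ψ (n / p) else 0) +
        (if ψ p = -1 then ∑ n ∈ Sn.filter (fun n => p * p ∣ n), lam ψ (n / (p * p)) else 0)) ≤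
      (9 / 8 * (2 * X / q * L * V)) * ((1 + ψ p) / p) + 2 * X / q * L * (1 / (p : ℝ) ^ 2) +
        2 * κ * D1 ^ 2 * √X * (1 / √(p : ℝ)) := by
    intro p hp
    rw [hQ, mem_filter, mem_Icc] at hp
    obtain ⟨⟨hp1, hp2⟩, hpp, hTp⟩ := hp
    have hp0 : (0 : ℝ) < p := by exact_mod_cast hp1
    have hsp : 1 ≤ √(p : ℝ) := by
      rw [Real.one_le_sqrt]
      exact_mod_cast hp1
    have hsp2 : √(p : ℝ) * √(p : ℝ) = p := Real.mul_self_sqrt hp0.le
    have hMn : 0 ≤ 2 * X / q * L := by positivity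
    have hb0 : (0 : ℝ) ≤ (1 / 2) ^ b := by positivity
    rcases h.val p with h1 | h1 | h1
    · rw [if_neg (by rw [h1]; norm_num), if_neg (by rw [h1]; norm_num), h1]
      simp only [add_zero]
      positivity
    · rw [if_pos h1, if_neg (by rw [h1]; norm_num), h1, add_zero]
      have hpq : p.Coprime q := (h.cop p).1 (by rw [h1]; norm_num)
      obtain ⟨w, hw⟩ := inv_mod h.q1 hpq
      have hwr : ψ (w * r) = 1 := by
        have h3 := h.per _ _ ((mul_modEq_iff hw r (w * r)).2 rfl)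
        rw [h.mul, h1, one_mul, hr] at h3
        exact h3
      have h3 := SV_mult h C P P (Subset.refl _) r (Z ^ 4) p w hp1 hw
      rw [← hSn] at h3
      have hgd : ∀ T' ∈ P.powerset, ∏ p' ∈ T', gd (tw C p) ψ p' = ∏ p' ∈ T', gd C ψ p' := by
        intro T' hT'
        refine prod_congr rfl fun p' hp' => ?_
        have hp'P := (mem_powerset.1 hT') hp'
        apply gd_tw hC ψ (hP p' hp'P).1
        intro h5
        have h6 := (Nat.prime_dvd_prime_iff_eq (hP p' hp'P).1 hpp).1 h5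
        have h7 := hPJ p' hp'P
        omega
      have hgs : ∀ ρ : Finset ℕ → ℝ, ∑ T' ∈ P.powerset, ρ T' * ∏ p' ∈ T', gd (tw C p) ψ p' =
          ∑ T' ∈ P.powerset, ρ T' * ∏ p' ∈ T', gd C ψ p' := fun ρ =>
        sum_congr rfl fun T' hT' => by rw [hgd T' hT']
      have h4 := (sieve_bd h hL0 (tw_LC hC p) hP hPJ hwr (Z ^ 4 / p) (V := V)
        (by rw [hgs]; exact p1) (by rw [hgs]; exact p2) (by rw [hgs]; exact d2)).1
      rw [← hD1, ← hκ] at h4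
      have h5 : ((Z ^ 4 / p : ℕ) : ℝ) ≤ X / p := by
        rw [hX]
        have := Nat.cast_div_le (α := ℝ) (m := Z ^ 4) (n := p)
        push_cast at this
        exact this
      have h6 : √((Z ^ 4 / p : ℕ) : ℝ) ≤ √X * (1 / √(p : ℝ)) := by
        rw [mul_one_div, ← Real.sqrt_div hX0.le]
        exact Real.sqrt_le_sqrt h5
      have h7 : 2 * ((Z ^ 4 / p : ℕ) : ℝ) / q * L * ((1 + (1 / 2) ^ b) * V) ≤
          9 / 8 * (2 * X / q * L * V) * (1 / p) := by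
        calc 2 * ((Z ^ 4 / p : ℕ) : ℝ) / q * L * ((1 + (1 / 2) ^ b) * V) ≤
            2 * (X / p) / q * L * ((9 / 8) * V) := by
              apply mul_le_mul
              · apply mul_le_mul_of_nonneg_right _ hL0
                apply div_le_div_of_nonneg_right _ hq0.le
                linarith
              · apply mul_le_mul_of_nonneg_right _ hV0
                linarith
              · positivity
              · positivity
          _ = _ := by ring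
      have h8 : κ * √((Z ^ 4 / p : ℕ) : ℝ) * (1 * D1 ^ 2) ≤ κ * D1 ^ 2 * √X * (1 / √(p : ℝ)) := by
        calc κ * √((Z ^ 4 / p : ℕ) : ℝ) * (1 * D1 ^ 2) ≤ κ * (√X * (1 / √(p : ℝ))) * (1 * D1 ^ 2) := by
              apply mul_le_mul_of_nonneg_right _ (by positivity)
              exact mul_le_mul_of_nonneg_left h6 (by linarith)
          _ = _ := by ring
      have h9 : 0 ≤ 2 * X / q * L * (1 / (p : ℝ) ^ 2) := by positivity
      have h10 : 9 / 8 * (2 * X / q * L * V) * ((1 + 1) / p) =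
          2 * (9 / 8 * (2 * X / q * L * V) * (1 / p)) := by ring
      rw [h10]
      linarith
    · rw [if_neg (by rw [h1]; norm_num), if_pos h1, h1, zero_add]
      have hpq : (p * p).Coprime q := (h.cop (p * p)).1 (by rw [h.mul, h1]; norm_num)
      obtain ⟨w, hw⟩ := inv_mod h.q1 hpq
      have hwr : ψ (w * r) = 1 := by
        have h3 := h.per _ _ ((mul_modEq_iff hw r (w * r)).2 rfl)
        rw [h.mul, h.mul, h1, hr] at h3
        linarith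
      have h3 := SV_mult h C P ∅ (empty_subset _) r (Z ^ 4) (p * p) w (Nat.mul_pos hp1 hp1) hw
      rw [← hSn] at h3
      have h4 := SV_empty h (tw_LC hC (p * p)) hwr (Z ^ 4 / (p * p))
      rw [← hκ] at h4
      have h5 : ((Z ^ 4 / (p * p) : ℕ) : ℝ) ≤ X * (1 / (p : ℝ) ^ 2) := by
        rw [hX]
        have := Nat.cast_div_le (α := ℝ) (m := Z ^ 4) (n := p * p)
        push_cast at this
        refine this.trans (le_of_eq ?_)
        ring
      have h6 : √((Z ^ 4 / (p * p) : ℕ) : ℝ) ≤ √X * (1 / √(p : ℝ)) := by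
        have e1 : √(X * (1 / (p : ℝ) ^ 2)) = √X * (1 / p) := by
          rw [Real.sqrt_mul hX0.le]
          congr 1
          rw [show (1 : ℝ) / (p : ℝ) ^ 2 = (1 / p) ^ 2 by rw [one_div_pow]]
          exact Real.sqrt_sq (by positivity)
        refine (Real.sqrt_le_sqrt h5).trans ?_
        rw [e1]
        apply mul_le_mul_of_nonneg_left _ (Real.sqrt_nonneg _)
        apply one_div_le_one_div_of_le (by linarith)
        nlinarith
      have h7 : 2 * ((Z ^ 4 / (p * p) : ℕ) : ℝ) / q * L ≤ 2 * X / q * L * (1 / (p : ℝ) ^ 2) := by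
        calc 2 * ((Z ^ 4 / (p * p) : ℕ) : ℝ) / q * L ≤ 2 * (X * (1 / (p : ℝ) ^ 2)) / q * L := by
              apply mul_le_mul_of_nonneg_right _ hL0
              apply div_le_div_of_nonneg_right _ hq0.le
              linarith
          _ = _ := by ring
      have h8 : κ * √((Z ^ 4 / (p * p) : ℕ) : ℝ) ≤ 2 * κ * D1 ^ 2 * √X * (1 / √(p : ℝ)) := by
        have hD2 : 1 ≤ 2 * D1 ^ 2 := by nlinarith
        calc κ * √((Z ^ 4 / (p * p) : ℕ) : ℝ) ≤ κ * (√X * (1 / √(p : ℝ))) :=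
              mul_le_mul_of_nonneg_left h6 (by linarith)
          _ ≤ (2 * D1 ^ 2) * (κ * (√X * (1 / √(p : ℝ)))) :=
              le_mul_of_one_le_left (by positivity) hD2
          _ = _ := by ring
      have h9 : 9 / 8 * (2 * X / q * L * V) * ((1 + -1) / p) = 0 := by ring
      rw [h9, zero_add]
      linarith
  -- the total
  obtain ⟨Mn, hMn⟩ : ∃ Mn : ℝ, Mn = 2 * X / q * L * V := ⟨_, rfl⟩
  have hMn0 : 0 ≤ Mn := by rw [hMn]; positivity
  rw [← hMn] at hterm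
  have hQ1 : ∑ p ∈ Q, 1 / (p : ℝ) ^ 2 ≤ 2 / (T : ℝ) := by
    refine le_trans ?_ (sum_inv_sq (T := T) (R := Z ^ 2) (by omega))
    apply sum_le_sum_of_subset_of_nonneg
    · intro p hp
      rw [hQ, mem_filter] at hp
      rw [mem_filter, hT]
      exact ⟨hp.1, hp.2.2⟩
    · intro p _ _
      positivity
  have hQ2 : ∑ p ∈ Q, 1 / √(p : ℝ) ≤ 2 * Z := by
    have h1 : ∑ p ∈ Q, 1 / √(p : ℝ) ≤ ∑ p ∈ Icc 1 (Z ^ 2), 1 / √(p : ℝ) := by
      apply sum_le_sum_of_subset_of_nonneg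
      · rw [hQ]
        exact filter_subset _ _
      · intro p _ _
        positivity
    refine h1.trans ((sum_inv_sqrt (Z ^ 2)).trans ?_)
    push_cast
    rw [Real.sqrt_sq (by positivity)]
  have htot : ∑ n ∈ Sn, lam ψ n ≤ 1 + (9 / 8 * Mn * (1 / 4) + 2 * X / q * L * (2 / T) +
      2 * κ * D1 ^ 2 * √X * (2 * Z)) := by
    refine hsum.trans ?_
    have h1 := sum_le_sum hterm
    have e1 : ∑ p ∈ Q, (9 / 8 * Mn * ((1 + ψ p) / p) + 2 * X / q * L * (1 / (p : ℝ) ^ 2) +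
        2 * κ * D1 ^ 2 * √X * (1 / √(p : ℝ))) = 9 / 8 * Mn * ∑ p ∈ Q, (1 + ψ p) / p +
        2 * X / q * L * ∑ p ∈ Q, 1 / (p : ℝ) ^ 2 + 2 * κ * D1 ^ 2 * √X * ∑ p ∈ Q, 1 / √(p : ℝ) := by
      rw [sum_add_distrib, sum_add_distrib, ← mul_sum, ← mul_sum, ← mul_sum]
    rw [e1] at h1
    have h2 : 9 / 8 * Mn * ∑ p ∈ Q, (1 + ψ p) / p ≤ 9 / 8 * Mn * (1 / 4) :=
      mul_le_mul_of_nonneg_left hmass (by positivity)
    have h3 : 2 * X / q * L * ∑ p ∈ Q, 1 / (p : ℝ) ^ 2 ≤ 2 * X / q * L * (2 / T) :=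
      mul_le_mul_of_nonneg_left hQ1 (by positivity)
    have h4 : 2 * κ * D1 ^ 2 * √X * ∑ p ∈ Q, 1 / √(p : ℝ) ≤ 2 * κ * D1 ^ 2 * √X * (2 * Z) :=
      mul_le_mul_of_nonneg_left hQ2 (by positivity)
    linarith
  have hlow := (sieve_bd h hL0 hC hP hPJ hr (Z ^ 4) p1 p2 d2).2
  rw [hSV, ← hD1, ← hκ] at hlow
  have hcast : ((Z ^ 4 : ℕ) : ℝ) = X := by
    rw [hX]
    push_cast
    rfl
  rw [hcast, hsX] at hlow
  rw [hsX] at htot
  have hT0 : (0 : ℝ) < T := by exact_mod_cast (by omega : 0 < T)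
  rw [← hT] at hTV
  have h1 : 2 * X / q * L * (2 / T) ≤ Mn / 8 := by
    rw [hMn]
    have h2 : 2 / (T : ℝ) ≤ V / 8 := by
      rw [div_le_div_iff₀ hT0 (by norm_num)]
      linarith
    calc 2 * X / q * L * (2 / T) ≤ 2 * X / q * L * (V / 8) :=
          mul_le_mul_of_nonneg_left h2 (by positivity)
      _ = _ := by ring
  have h2 : 7 / 8 * Mn ≤ 2 * X / q * L * ((1 - (1 / 2) ^ b) * V) := by
    rw [hMn]
    calc 7 / 8 * (2 * X / q * L * V) = 2 * X / q * L * (7 / 8 * V) := by ring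
      _ ≤ _ := by
        apply mul_le_mul_of_nonneg_left _ (by positivity)
        apply mul_le_mul_of_nonneg_right _ hV0
        linarith
  -- errors
  rw [← hκ, ← hD1] at hZ
  have h3 : 4 * (κ * (Z : ℝ) ^ 3 * D1 ^ 2 * (8 + J)) ≤ Mn := by
    rw [hMn, hX]
    have h4 : 2 * (Z : ℝ) ^ 4 / q * L * V = (2 * Z * L * V) * ((Z : ℝ) ^ 3 / q) := by
      field_simp
    rw [h4]
    calc 4 * (κ * (Z : ℝ) ^ 3 * D1 ^ 2 * (8 + J)) =
        (4 * κ * D1 ^ 2 * (8 + J) * q) * ((Z : ℝ) ^ 3 / q) := by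
          field_simp
      _ ≤ _ := mul_le_mul_of_nonneg_right hZ (by positivity)
  have hJ0 : (0 : ℝ) ≤ J := Nat.cast_nonneg _
  have h5 : κ * (Z : ℝ) ^ 2 * ((1 + J) * D1 ^ 2) ≤ κ * (Z : ℝ) ^ 3 * D1 ^ 2 * (1 + J) := by
    have h6 : (Z : ℝ) ^ 2 ≤ (Z : ℝ) ^ 3 := pow_le_pow_right₀ hZr (by norm_num)
    calc κ * (Z : ℝ) ^ 2 * ((1 + J) * D1 ^ 2) = (κ * (1 + J) * D1 ^ 2) * (Z : ℝ) ^ 2 := by ring
      _ ≤ (κ * (1 + J) * D1 ^ 2) * (Z : ℝ) ^ 3 := mul_le_mul_of_nonneg_left h6 (by positivity)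
      _ = _ := by ring
  have h6 : 1 ≤ κ * (Z : ℝ) ^ 3 * D1 ^ 2 := by
    have a1 : (1 : ℝ) ≤ (Z : ℝ) ^ 3 := one_le_pow₀ hZr
    have a2 : (1 : ℝ) ≤ D1 ^ 2 := one_le_pow₀ hD11
    exact one_le_mul_of_one_le_of_one_le (one_le_mul_of_one_le_of_one_le (by linarith) a1) a2
  have h7 : 2 * κ * D1 ^ 2 * (Z : ℝ) ^ 2 * (2 * Z) = 4 * (κ * (Z : ℝ) ^ 3 * D1 ^ 2) := by ring
  rw [h7] at htot
  have h8 : κ * (Z : ℝ) ^ 3 * D1 ^ 2 * (8 + J) = 8 * (κ * (Z : ℝ) ^ 3 * D1 ^ 2) +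
      κ * (Z : ℝ) ^ 3 * D1 ^ 2 * J := by ring
  have h9 : κ * (Z : ℝ) ^ 3 * D1 ^ 2 * (1 + J) = κ * (Z : ℝ) ^ 3 * D1 ^ 2 +
      κ * (Z : ℝ) ^ 3 * D1 ^ 2 * J := by ring
  have h10 : 0 ≤ κ * (Z : ℝ) ^ 3 * D1 ^ 2 * J := by positivity
  rw [h8] at h3
  rw [h9] at h5
  linarith

end Run7.h296
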