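import Pool.Agent.Run7.h296.X6
import Pool.Agent.Run7.h296.Ab
import Pool.Agent.Run7.h296.Base
import Pool.Agent.H843R2.KZ.T_LSER
import Pool.Agent.H843R2.KZ.T_PV
import Pool.Agent.H843R2.KZ.T_POS
import Pool.Agent.H705R2.MLogB

/-!
Real characters as real functions, and the densities.
-/

set_option autoImplicit false

open Finset

namespace Run7.h296

open Pool.Agent.W215.MH
open Pool.Agent.H843R2.KZ (LSER_ok PV_ok POS_ok)
open Pool.Agent.H318R2.Cr (Rgh V Pz V_pos V_le_one cz_bounds)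

theorem chi_re {q : ℕ} (χ : DirichletCharacter ℂ q) (h2 : χ ^ 2 = 1) (n : ZMod q) :
    χ n = (((χ n).re : ℝ) : ℂ) ∧ ((χ n).re = 0 ∨ (χ n).re = 1 ∨ (χ n).re = -1) := by
  by_cases hu : IsUnit n
  · rcases sgn χ h2 _ hu with h3 | h3
    · rw [h3]; simp
    · rw [h3]; simp
  · rw [χ.map_nonunit hu]; simp

theorem RC_of {q : ℕ} [NeZero q] (χ : DirichletCharacter ℂ q) (h2 : χ ^ 2 = 1) (h1 : χ ≠ 1) :
    RC q (fun n => (χ (n : ZMod q)).re) ‖χ.LFunction 1‖ (200 * q) := by
  have hq1 : 1 ≤ q := NeZero.one_le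
  have hq2 : 2 ≤ q := by
    by_contra hcon
    have h3 : q = 1 := by omega
    subst h3
    apply h1
    exact Subsingleton.elim _ _
  have hqr : (2 : ℝ) ≤ q := by exact_mod_cast hq2
  have hre := chi_re χ h2
  -- the Polya-Vinogradov constant
  obtain ⟨M, hM⟩ : ∃ M : ℝ, M = 8 * √q * (1 + Real.log q) := ⟨_, rfl⟩
  have hM0 : 0 ≤ M := by
    rw [hM]
    have := Real.log_nonneg (by linarith : (1 : ℝ) ≤ q)
    positivity
  have hMq : M ≤ 16 * q := by
    have hs := Real.mul_self_sqrt (by linarith : (0 : ℝ) ≤ q)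
    have hs0 : 0 < √(q : ℝ) := Real.sqrt_pos.2 (by linarith)
    have h3 : 1 + Real.log q ≤ 2 * √q := by
      have h4 := Real.add_one_le_exp (Real.log (√(q : ℝ)))
      rw [Real.exp_log hs0, Real.log_sqrt (by linarith)] at h4
      have h5 : (1 : ℝ) ≤ √q := by rw [Real.one_le_sqrt]; linarith
      linarith
    rw [hM]
    calc 8 * √(q : ℝ) * (1 + Real.log q) ≤ 8 * √(q : ℝ) * (2 * √q) :=
          mul_le_mul_of_nonneg_left h3 (by positivity)
      _ = 16 * (√(q : ℝ) * √q) := by ring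
      _ = 16 * q := by rw [hs]
  have hser : ∀ E : ℕ, 1 ≤ E → |∑ u ∈ Icc 1 E, (χ (u : ZMod q)).re / u - ‖χ.LFunction 1‖| ≤
      4 * M / E := by
    intro E hE
    have h3 := LSER_ok PV_ok q χ hq2 h1 E hE
    have h4 : ‖χ.LFunction 1‖ = (χ.LFunction 1).re := by
      rw [POS_ok q χ h2 h1, Complex.norm_real, Complex.ofReal_re, Real.norm_of_nonneg (norm_nonneg _)]
    have h5 : (∑ u ∈ Icc 1 E, (χ (u : ZMod q)).re / u) =
        (∑ e ∈ Icc 1 E, χ (e : ZMod q) / (e : ℂ)).re := by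
      rw [Complex.re_sum]
      refine sum_congr rfl fun e _ => ?_
      rw [← Complex.ofReal_natCast, Complex.div_ofReal_re]
    rw [h5, h4, ← Complex.sub_re, ← abs_neg, ← Complex.neg_re, neg_sub]
    refine (Complex.abs_re_le_norm _).trans (h3.trans (le_of_eq ?_))
    rw [hM]
    ring
  have hpart : ∀ a b : ℕ, |∑ u ∈ Ioc a b, (χ (u : ZMod q)).re| ≤ M := by
    intro a b
    have h3 := PV_ok q χ hq2 h1 a b
    rw [← Complex.re_sum]
    exact (Complex.abs_re_le_norm _).trans (h3.trans (le_of_eq hM.symm))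
  have hL1 : ‖χ.LFunction 1‖ ≤ 1 + 4 * M := by
    have h3 := hser 1 le_rfl
    simp only [Icc_self, sum_singleton, Nat.cast_one, div_one, map_one, Complex.one_re] at h3
    have h4 := (abs_le.1 h3).1
    linarith
  refine ⟨hq1, by positivity, by simp, ?_, ?_, ?_, ?_, ?_, ?_⟩
  · intro m n
    rw [Nat.cast_mul, map_mul, (hre (m : ZMod q)).1, (hre (n : ZMod q)).1, ← Complex.ofReal_mul,
      Complex.ofReal_re, Complex.ofReal_re, Complex.ofReal_re]
  · intro n
    exact (hre (n : ZMod q)).2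
  · intro n
    constructor
    · intro h3
      by_contra hcon
      apply h3
      rw [χ.map_nonunit (by rwa [ZMod.isUnit_iff_coprime])]
      simp
    · intro h3
      have hu : IsUnit (n : ZMod q) := (ZMod.isUnit_iff_coprime n q).2 h3
      rcases sgn χ h2 _ hu with h4 | h4
      · rw [h4]; simp
      · rw [h4]; simp
  · intro m n hmn
    rw [(ZMod.natCast_eq_natCast_iff m n q).2 hmn]
  · intro E
    rcases Nat.eq_zero_or_pos E with h0 | h0
    · subst h0
      simp only [Icc_eq_empty_of_lt zero_lt_one, sum_empty, zero_sub, abs_neg, abs_norm,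
        Nat.cast_zero, zero_add, div_one]
      linarith
    · refine (hser E h0).trans ?_
      have hE0 : (1 : ℝ) ≤ E := by exact_mod_cast h0
      rw [div_le_div_iff₀ (by linarith) (by linarith)]
      have h3 : 4 * M * (E + 1) ≤ 4 * (16 * q) * (2 * E) := by
        apply mul_le_mul _ (by linarith) (by positivity) (by positivity)
        linarith
      nlinarith
  · intro E
    obtain ⟨s, hs⟩ : ∃ s : ℕ → ℝ, s = fun j : ℕ => ∑ u ∈ Ioc (0 : ℕ) j, (χ (u : ZMod q)).re := ⟨_, rfl⟩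
    have hsM : ∀ j, |s j| ≤ M := fun j => by rw [hs]; exact hpart 0 j
    have habel : ∀ E : ℕ, ∑ u ∈ Icc 1 E, (χ (u : ZMod q)).re * u = E * s E - ∑ j ∈ range E, s j := by
      intro E
      induction E with
      | zero => simp
      | succ E ih =>
        rw [sum_Icc_succ_top (by omega), ih, sum_range_succ]
        have h3 : s (E + 1) = s E + (χ ((E + 1 : ℕ) : ZMod q)).re := by
          rw [hs]
          simp only
          rw [sum_Ioc_succ_top (by omega)]
        rw [h3]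
        push_cast
        ring
    rw [habel E]
    refine (abs_sub _ _).trans ?_
    rw [abs_mul, abs_of_nonneg (Nat.cast_nonneg E : (0 : ℝ) ≤ E)]
    have h3 : |∑ j ∈ range E, s j| ≤ E * M := by
      refine (abs_sum_le_sum_abs _ _).trans ((sum_le_sum fun j _ => hsM j).trans ?_)
      rw [sum_const, card_range, nsmul_eq_mul]
    have hE0 : (0 : ℝ) ≤ E := Nat.cast_nonneg E
    have h4 : (E : ℝ) * |s E| ≤ E * M := mul_le_mul_of_nonneg_left (hsM E) hE0
    have h5 : (E : ℝ) * M ≤ E * (16 * q) := mul_le_mul_of_nonneg_left hMq hE0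
    nlinarith

/-- lower bound for a product over small primes -/
theorem VP_gen (K J : ℕ) (P : Finset ℕ) (g : ℕ → ℝ) (hP : ∀ p ∈ P, p.Prime ∧ p < 2 ^ 2 ^ J)
    (hK : ∀ p ∈ P, 2 * K ≤ p) (hg : ∀ p ∈ P, g p ≤ K / p) :
    V (2 ^ 2 ^ J) ^ (2 * K) ≤ ∏ p ∈ P, (1 - g p) := by
  have h1 : V (2 ^ 2 ^ J) ≤ ∏ p ∈ P, (1 - 1 / (p : ℝ)) := by
    unfold V
    have hsub : P ⊆ Pz (2 ^ 2 ^ J) := by
      intro p hp
      exact mem_Pz.2 ⟨(hP p hp).1, (hP p hp).2.le⟩
    rw [← prod_sdiff hsub]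
    apply mul_le_of_le_one_left
    · exact prod_nonneg fun p hp => (one_sub_inv (hP p hp).1).1.le
    · apply prod_le_one
      · intro p hp
        exact (one_sub_inv (mem_Pz.1 (mem_sdiff.1 hp).1).1).1.le
      · intro p hp
        exact (one_sub_inv (mem_Pz.1 (mem_sdiff.1 hp).1).1).2
  refine (pow_le_pow_left₀ (V_pos _).le h1 _).trans ?_
  rw [← prod_pow]
  apply prod_le_prod
  · intro p hp
    exact pow_nonneg (one_sub_inv (hP p hp).1).1.le _
  · intro p hp
    have hp0 : (0 : ℝ) < p := by exact_mod_cast (hP p hp).1.pos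
    have h2 : 2 * (K : ℝ) * (1 / (p : ℝ)) ≤ 1 := by
      rw [mul_one_div, div_le_one hp0]
      exact_mod_cast hK p hp
    have h3 := one_sub_pow (n := K) (show 0 ≤ 1 / (p : ℝ) by positivity) h2
    have h4 := hg p hp
    have h5 : (K : ℝ) * (1 / (p : ℝ)) = K / p := by ring
    linarith

/-- bounds for the densities -/
theorem gd_bd {q : ℕ} {ψ : ℕ → ℝ} {L c : ℝ} (h : RC q ψ L c) {C : ℕ → ℕ → Prop} (hC : LC C)
    {p k : ℕ} (hp : p.Prime) (hw : wd C p ≤ k / p) : 0 ≤ gd C ψ p ∧ gd C ψ p ≤ (k + 1 : ℕ) / p := by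
  classical
  have hp0 : (0 : ℝ) < p := by exact_mod_cast hp.pos
  have hp1 : (1 : ℝ) ≤ p := by exact_mod_cast hp.one_lt.le
  obtain ⟨w0, w1⟩ := wd_01 C p
  have hw1 : 1 / (p : ℝ) ≤ wd C p := by
    unfold wd
    apply div_le_div_of_nonneg_right _ hp0.le
    have h1 : 0 < ((range p).filter (fun t => C p t)).card := by
      apply card_pos.2
      exact ⟨0, mem_filter.2 ⟨mem_range.2 hp.pos, hC.zero p 0 (dvd_zero _)⟩⟩
    exact_mod_cast h1
  have h1 : |ψ p| ≤ 1 := h.abs_le p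
  obtain ⟨h2, h3⟩ := abs_le.1 h1
  have h4 : -(1 / (p : ℝ)) ≤ ψ p / p := by
    rw [neg_div', div_le_div_iff_of_pos_right hp0]
    exact h2
  have h5 : ψ p / p ≤ 1 / (p : ℝ) := div_le_div_of_nonneg_right h3 hp0.le
  have h6 : (0 : ℝ) < 1 / p := by positivity
  unfold gd
  push_cast
  rw [add_div]
  constructor
  · have h7 : -(1 / (p : ℝ)) * 1 ≤ (1 - wd C p) * (ψ p / p) := by
      nlinarith
    linarith
  · have h8 : (1 - wd C p) * (ψ p / p) ≤ 1 / p := by
      nlinarith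
    linarith

end Run7.h296
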