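import Pool.Agent.Run7.h296.Base3
import Pool.Agent.Run7.h296.VV

/-!
An exceptional character is `-1` at most primes: the mass.
-/

set_option autoImplicit false

open Finset

namespace Run7.h296

open Pool.Agent.H262R3.Lk Pool.Agent.W69.MH Pool.Agent.W215.MH

/-- the local inequality -/
theorem el_low {z q : ℕ} (hq : 0 < q) (hqz : q ≤ z) (χ : DirichletCharacter ℂ q) (h2 : χ ^ 2 = 1)
    {σ : ℝ} (hσ : 0 < σ) (p : Nat.Primes) :
    0 ≤ el z (1 : DirichletCharacter ℂ q) σ hσ p + el z χ σ hσ p ∧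
    (z < p → (1 + (χ ((p : ℕ) : ZMod q)).re) * (1 / ((p : ℕ) : ℝ) ^ (1 + σ)) ≤
      el z (1 : DirichletCharacter ℂ q) σ hσ p + el z χ σ hσ p) := by
  rw [el_eq, el_eq, fh_prime, fh_prime]
  by_cases h : z < p
  · obtain ⟨h1, h3, h4⟩ := prime_data z q hq hqz σ hσ p h
    rw [if_pos h, if_pos h, MulChar.one_apply h4, mul_one]
    obtain ⟨a, ha⟩ : ∃ a : ℝ, a = 1 / ((p : ℕ) : ℝ) ^ (1 + σ) := ⟨_, rfl⟩
    rw [← ha] at h1 h3 ⊢
    have e1 : ‖(1 : ℂ) - (a : ℂ)‖ = 1 - a := by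
      rw [← Complex.ofReal_one, ← Complex.ofReal_sub, Complex.norm_real, Real.norm_of_nonneg (by linarith)]
    have l1 : a ≤ -Real.log (1 - a) := by
      have := Real.log_le_sub_one_of_pos (show 0 < 1 - a by linarith)
      linarith
    rcases sgn χ h2 _ h4 with h5 | h5
    · rw [h5, mul_one, e1, Complex.one_re]
      constructor
      · linarith
      · intro _
        linarith
    · have e2 : ‖(1 : ℂ) - (a : ℂ) * -1‖ = 1 + a := by
        rw [mul_neg, mul_one, sub_neg_eq_add, ← Complex.ofReal_one, ← Complex.ofReal_add,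
          Complex.norm_real, Real.norm_of_nonneg (by linarith)]
      rw [h5, e1, e2]
      have l2 : Real.log (1 + a) ≤ a := by
        have := Real.log_le_sub_one_of_pos (show 0 < 1 + a by linarith)
        linarith
      constructor
      · linarith
      · intro _
        rw [Complex.neg_re, Complex.one_re]
        linarith
  · rw [if_neg h, if_neg h, sub_zero, norm_one, Real.log_one, neg_zero, add_zero]
    exact ⟨le_rfl, fun h' => absurd h' h⟩

/-- **the mass of the primes at which an exceptional character is not `-1`** -/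
theorem mass_bd {C D : ℝ} (hC : 1 ≤ C) (hD : 1 < D) {z q : ℕ} [NeZero q] (hz : 32 ≤ z)
    (hqz : q ^ 8 ≤ z)
    (hf : ∀ σ : ℝ, 0 < σ → σ ≤ 1 →
      (∀ χ : DirichletCharacter ℂ q, χ ≠ 1 → ‖Lj z χ 1 σ‖ ≤ C * Real.log z) ∧
      (σ * Real.log z ≤ 1 →
        ‖Lj z (1 : DirichletCharacter ℂ q) 0 σ‖ ≤ 2 * C / (σ * Real.log z)))
    (χ : DirichletCharacter ℂ q) (h1 : χ ≠ 1) (h2 : χ ^ 2 = 1)
    (hsm : ‖Lj z χ 0 (1 / (D ^ 4 * Real.log z))‖ < 1 / (2 * C * D ^ 3)) {N : ℕ}
    (hN : Real.log N ≤ D ^ 3 * Real.log z) :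
    ∑ p ∈ (Ioc z N).filter Nat.Prime, (1 + (χ (p : ZMod q)).re) / p ≤ 3 * Real.log (4 * C ^ 2) := by
  have hq : 0 < q := Nat.pos_of_ne_zero (NeZero.ne q)
  have hqz' : q ≤ z := by
    calc q = q ^ 1 := (pow_one q).symm
      _ ≤ q ^ 8 := Nat.pow_le_pow_right hq (by norm_num)
      _ ≤ z := hqz
  have hzR : (32 : ℝ) ≤ z := by exact_mod_cast hz
  obtain ⟨ℓ, hℓ⟩ : ∃ ℓ : ℝ, ℓ = Real.log z := ⟨_, rfl⟩
  have hℓ1 : 1 ≤ ℓ := by
    rw [hℓ, Real.le_log_iff_exp_le (by linarith)]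
    have := Real.exp_one_lt_d9
    linarith
  rw [← hℓ] at hf hsm hN
  have hD0 : 0 < D := by linarith
  have hD3 : 1 ≤ D ^ 3 := one_le_pow₀ hD.le
  obtain ⟨s, hs⟩ : ∃ s : ℝ, s = 1 / (D ^ 4 * ℓ) := ⟨_, rfl⟩
  obtain ⟨t, ht⟩ : ∃ t : ℝ, t = 1 / (D ^ 3 * ℓ) := ⟨_, rfl⟩
  rw [← hs] at hsm
  have hs0 : 0 < s := by rw [hs]; positivity
  have ht0 : 0 < t := by rw [ht]; positivity
  have hst : s < t := by
    rw [hs, ht]
    apply one_div_lt_one_div_of_lt (by positivity)
    apply mul_lt_mul_of_pos_right _ (by linarith)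
    exact pow_lt_pow_right₀ hD (by norm_num)
  have htl : t * ℓ = 1 / D ^ 3 := by
    rw [ht]
    field_simp
  have htl1 : t * ℓ ≤ 1 := by
    rw [htl, div_le_one (by positivity)]
    exact hD3
  have ht1 : t ≤ 1 := by
    rw [ht, div_le_one (by positivity)]
    nlinarith
  -- the value at `t`
  obtain ⟨f, hfd⟩ : ∃ f : ℝ → ℝ, f = fun x => (Lj z χ 0 x).re := ⟨_, rfl⟩
  have hder : ∀ x : ℝ, 0 < x → HasDerivAt f (-(Lj z χ 1 x).re) x := by
    intro x hx
    rw [hfd]
    exact Lj_deriv z (by omega) χ 0 x hx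
  obtain ⟨ξ, hξ, hξe⟩ := exists_hasDerivAt_eq_slope f (fun x => -(Lj z χ 1 x).re) hst
    (fun x hx => (hder x (by linarith [hx.1])).continuousAt.continuousWithinAt)
    (fun x hx => hder x (by linarith [hx.1]))
  have hξ1 := (hf ξ (by linarith [hξ.1]) (by linarith [hξ.2])).1 χ h1
  have hξ2 : |(Lj z χ 1 ξ).re| ≤ C * ℓ := (Complex.abs_re_le_norm _).trans hξ1
  have hξ3 := (abs_le.1 hξ2).1
  rw [eq_div_iff (by linarith)] at hξe
  have hfs : f s = ‖Lj z χ 0 s‖ := by rw [hfd]; exact (Lj_pos z χ h2 s hs0).1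
  have hft : f t = ‖Lj z χ 0 t‖ := by rw [hfd]; exact (Lj_pos z χ h2 t ht0).1
  have hft2 : f t ≤ 2 * C / D ^ 3 := by
    have h3 : -(Lj z χ 1 ξ).re * (t - s) ≤ C * ℓ * t := by
      have h4 : -(Lj z χ 1 ξ).re ≤ C * ℓ := by linarith
      calc -(Lj z χ 1 ξ).re * (t - s) ≤ C * ℓ * (t - s) :=
            mul_le_mul_of_nonneg_right h4 (by linarith)
        _ ≤ C * ℓ * t := mul_le_mul_of_nonneg_left (by linarith) (by positivity)
    have h5 : C * ℓ * t = C / D ^ 3 := by
      rw [ht]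
      field_simp
    have h6 : 1 / (2 * C * D ^ 3) ≤ C / D ^ 3 := by
      rw [div_le_div_iff₀ (by positivity) (by positivity)]
      have : 1 * D ^ 3 ≤ (2 * C * C) * D ^ 3 := mul_le_mul_of_nonneg_right (by nlinarith) (by positivity)
      linarith
    have h7 : 2 * C / D ^ 3 = C / D ^ 3 + C / D ^ 3 := by ring
    linarith
  have h1t := (hf t ht0 ht1).2 htl1
  have h1t' : ‖Lj z (1 : DirichletCharacter ℂ q) 0 t‖ ≤ 2 * C * D ^ 3 := by
    refine h1t.trans (le_of_eq ?_)
    rw [htl]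
    field_simp
  have hprod : ‖Lj z (1 : DirichletCharacter ℂ q) 0 t‖ * ‖Lj z χ 0 t‖ ≤ 4 * C ^ 2 := by
    rw [← hft]
    have h3 : 0 ≤ f t := by rw [hft]; exact norm_nonneg _
    calc ‖Lj z (1 : DirichletCharacter ℂ q) 0 t‖ * f t ≤ (2 * C * D ^ 3) * (2 * C / D ^ 3) :=
          mul_le_mul h1t' hft2 h3 (by positivity)
      _ = 4 * C ^ 2 := by
        field_simp
        ring
  rw [norm_L z _ t ht0, norm_L z _ t ht0, ← Real.exp_add] at hprod
  have S1 := el_summable z (1 : DirichletCharacter ℂ q) t ht0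
  have Sχ := el_summable z χ t ht0
  rw [← S1.tsum_add Sχ] at hprod
  have hlog : ∑' p : Nat.Primes, (el z (1 : DirichletCharacter ℂ q) t ht0 p + el z χ t ht0 p) ≤
      Real.log (4 * C ^ 2) := by
    rw [Real.le_log_iff_exp_le (by positivity)]
    exact hprod
  -- the finite sum
  have hfin : ∑ p ∈ (Ioc z N).filter Nat.Prime, (1 + (χ (p : ZMod q)).re) *
      (1 / (p : ℝ) ^ (1 + t)) ≤ Real.log (4 * C ^ 2) := by
    refine le_trans ?_ hlog
    obtain ⟨s', hs'⟩ : ∃ s' : Finset Nat.Primes, s' = (Ioc z N).subtype Nat.Prime := ⟨_, rfl⟩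
    have h3 : ∑ p ∈ s', (el z (1 : DirichletCharacter ℂ q) t ht0 p + el z χ t ht0 p) ≤
        ∑' p : Nat.Primes, (el z (1 : DirichletCharacter ℂ q) t ht0 p + el z χ t ht0 p) :=
      (S1.add Sχ).sum_le_tsum s' (fun p _ => (el_low hq hqz' χ h2 ht0 p).1)
    refine le_trans ?_ h3
    rw [hs']
    rw [← sum_subtype_eq_sum_filter]
    apply sum_le_sum
    intro p hp
    rw [mem_subtype, mem_Ioc] at hp
    exact (el_low hq hqz' χ h2 ht0 p).2 hp.1
  have hlogC : 0 ≤ Real.log (4 * C ^ 2) := by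
    apply Real.log_nonneg
    have : 1 ≤ C ^ 2 := one_le_pow₀ hC
    linarith
  -- comparison
  calc ∑ p ∈ (Ioc z N).filter Nat.Prime, (1 + (χ (p : ZMod q)).re) / p ≤
      ∑ p ∈ (Ioc z N).filter Nat.Prime, 3 * ((1 + (χ (p : ZMod q)).re) *
        (1 / (p : ℝ) ^ (1 + t))) := by
        apply sum_le_sum
        intro p hp
        rw [mem_filter, mem_Ioc] at hp
        have hp0 : (0 : ℝ) < p := by exact_mod_cast hp.2.pos
        have hp1 : (1 : ℝ) ≤ p := by exact_mod_cast hp.2.one_lt.le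
        have hχ : 0 ≤ 1 + (χ (p : ZMod q)).re := by
          have h3 : |(χ (p : ZMod q)).re| ≤ 1 :=
            (Complex.abs_re_le_norm _).trans (DirichletCharacter.norm_le_one _ _)
          linarith [(abs_le.1 h3).1]
        have hpt : (p : ℝ) ^ t ≤ 3 := by
          have h3 : t * Real.log p ≤ 1 := by
            have h4 : Real.log p ≤ D ^ 3 * ℓ := by
              refine le_trans (Real.log_le_log hp0 ?_) hN
              exact_mod_cast hp.1.2
            calc t * Real.log p ≤ t * (D ^ 3 * ℓ) := mul_le_mul_of_nonneg_left h4 ht0.le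
              _ = D ^ 3 * (t * ℓ) := by ring
              _ = 1 := by
                rw [htl]
                field_simp
          rw [Real.rpow_def_of_pos hp0]
          calc Real.exp (Real.log p * t) ≤ Real.exp 1 := by
                apply Real.exp_le_exp.2
                linarith
            _ ≤ 3 := by
                have := Real.exp_one_lt_d9
                linarith
        have h5 : (p : ℝ) ^ (1 + t) = p * (p : ℝ) ^ t := by
          rw [Real.rpow_add hp0, Real.rpow_one]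
        have hpt0 : 0 < (p : ℝ) ^ t := by positivity
        rw [h5]
        have h6 : 1 / (p : ℝ) ≤ 3 * (1 / (p * (p : ℝ) ^ t)) := by
          rw [mul_one_div, div_le_div_iff₀ hp0 (by positivity)]
          nlinarith
        calc (1 + (χ (p : ZMod q)).re) / p = (1 + (χ (p : ZMod q)).re) * (1 / p) := by ring
          _ ≤ (1 + (χ (p : ZMod q)).re) * (3 * (1 / (p * (p : ℝ) ^ t))) :=
            mul_le_mul_of_nonneg_left h6 hχ
          _ = _ := by ring
    _ = 3 * ∑ p ∈ (Ioc z N).filter Nat.Prime, (1 + (χ (p : ZMod q)).re) *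
        (1 / (p : ℝ) ^ (1 + t)) := by rw [mul_sum]
    _ ≤ _ := mul_le_mul_of_nonneg_left hfin (by norm_num)

/-- **a light block** -/
theorem light_block {f : ℕ → ℝ} (hf : ∀ p, 0 ≤ f p) {M : ℝ} {J0 h n E : ℕ} (hJ : 1 ≤ J0)
    (hM : ∑ p ∈ (Ioc (2 ^ 2 ^ J0) (2 ^ 2 ^ (J0 + E))).filter Nat.Prime, f p ≤ M)
    (hn : 1 ≤ n) (hn4 : 4 * M ≤ n) (hE : n * h ≤ E) :
    ∃ i < n, ∑ p ∈ (Ico (2 ^ 2 ^ (J0 + i * h)) (2 ^ 2 ^ (J0 + (i + 1) * h))).filter Nat.Prime,
      f p ≤ 1 / 4 := by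
  classical
  by_contra hcon
  push Not at hcon
  have h1 : ∀ m ≤ n, ∑ i ∈ range m, ∑ p ∈ (Ico (2 ^ 2 ^ (J0 + i * h))
      (2 ^ 2 ^ (J0 + (i + 1) * h))).filter Nat.Prime, f p =
      ∑ p ∈ (Ico (2 ^ 2 ^ J0) (2 ^ 2 ^ (J0 + m * h))).filter Nat.Prime, f p := by
    intro m
    induction m with
    | zero => simp
    | succ m ih =>
      intro hm
      rw [sum_range_succ, ih (by omega), sum_filter, sum_filter, sum_filter]
      apply sum_Ico_consecutive
      · exact Nat.pow_le_pow_right (by norm_num) (Nat.pow_le_pow_right (by norm_num) (by omega))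
      · apply Nat.pow_le_pow_right (by norm_num)
        apply Nat.pow_le_pow_right (by norm_num)
        have : m * h ≤ (m + 1) * h := Nat.mul_le_mul_right _ (by omega)
        omega
  have h2 : ∑ p ∈ (Ico (2 ^ 2 ^ J0) (2 ^ 2 ^ (J0 + n * h))).filter Nat.Prime, f p ≤ M := by
    refine le_trans ?_ hM
    apply sum_le_sum_of_subset_of_nonneg
    · intro p hp
      rw [mem_filter, mem_Ico] at hp
      rw [mem_filter, mem_Ioc]
      refine ⟨⟨?_, ?_⟩, hp.2⟩
      · rcases Nat.lt_or_ge (2 ^ 2 ^ J0) p with h3 | h3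
        · exact h3
        · exfalso
          have h4 : p = 2 ^ 2 ^ J0 := by omega
          apply pow_not_prime hJ
          rw [← h4]
          exact hp.2
      · have h3 : 2 ^ 2 ^ (J0 + n * h) ≤ 2 ^ 2 ^ (J0 + E) :=
          Nat.pow_le_pow_right (by norm_num) (Nat.pow_le_pow_right (by norm_num) (by omega))
        omega
    · intro p _ _
      exact hf p
  rw [← h1 n le_rfl] at h2
  have h3 : (n : ℝ) * (1 / 4) < ∑ i ∈ range n, ∑ p ∈ (Ico (2 ^ 2 ^ (J0 + i * h))
      (2 ^ 2 ^ (J0 + (i + 1) * h))).filter Nat.Prime, f p := by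
    calc (n : ℝ) * (1 / 4) = ∑ _i ∈ range n, (1 / 4 : ℝ) := by simp
      _ < _ := by
        apply sum_lt_sum_of_nonempty
        · exact nonempty_range_iff.2 (by omega)
        · intro i hi
          exact hcon i (mem_range.1 hi)
  linarith

end Run7.h296
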