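import Pool.Agent.Run7.h296.X7
import Pool.Agent.Run7.h296.X8
import Pool.Agent.Run7.h296.Ev

/-!
The exceptional case: a prime value with the other values free of small primes.
-/

set_option autoImplicit false

open Finset

namespace Run7.h296

open Pool.Agent.H262R3.Lk Pool.Agent.W69.MH Pool.Agent.W215.MH
open Pool.Agent.H318R2.Cr (Rgh V Pz V_pos V_le_one cz_bounds)

/-- the local conditions of a system -/
def CS {k : ℕ} (A B : Fin k → ℕ) (i₀ : Fin k) (p m : ℕ) : Prop :=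
  p ∣ m ∨ ∃ j, A j * m + A i₀ * B j ≡ A j * B i₀ [MOD p]

theorem CS_LC {k : ℕ} (A B : Fin k → ℕ) (i₀ : Fin k) : LC (CS A B i₀) where
  per p m n h := by
    unfold CS
    have h1 : ∀ j, (A j * m + A i₀ * B j ≡ A j * n + A i₀ * B j [MOD p]) := fun j =>
      (h.mul_left (A j)).add_right _
    constructor
    · rintro (h2 | ⟨j, h2⟩)
      · exact Or.inl ((h.dvd_iff dvd_rfl).1 h2)
      · exact Or.inr ⟨j, (h1 j).symm.trans h2⟩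
    · rintro (h2 | ⟨j, h2⟩)
      · exact Or.inl ((h.dvd_iff dvd_rfl).2 h2)
      · exact Or.inr ⟨j, (h1 j).trans h2⟩
  zero p m h := Or.inl h

theorem CS_wd {k : ℕ} (A B : Fin k → ℕ) (i₀ : Fin k) {p : ℕ} (hp : p.Prime)
    (hnd : ∀ j, ¬ p ∣ A j) : wd (CS A B i₀) p ≤ ((k + 1 : ℕ) : ℝ) / p := by
  classical
  unfold wd
  apply div_le_div_of_nonneg_right _ (Nat.cast_nonneg p)
  obtain ⟨F, hF⟩ : ∃ F : Option (Fin k) → Finset ℕ, F = fun o => match o with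
    | none => (range p).filter (fun t => p ∣ t)
    | some j => (range p).filter (fun t => A j * t + A i₀ * B j ≡ A j * B i₀ [MOD p]) := ⟨_, rfl⟩
  have h1 : (range p).filter (fun t => CS A B i₀ p t) ⊆ univ.biUnion F := by
    intro t ht
    rw [mem_filter] at ht
    rw [mem_biUnion]
    rcases ht.2 with h | ⟨j, h⟩
    · refine ⟨none, mem_univ _, ?_⟩
      rw [hF]
      exact mem_filter.2 ⟨ht.1, h⟩
    · refine ⟨some j, mem_univ _, ?_⟩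
      rw [hF]
      exact mem_filter.2 ⟨ht.1, h⟩
  have h2 : ∀ o ∈ (univ : Finset (Option (Fin k))), (F o).card ≤ 1 := by
    intro o _
    rw [hF]
    rcases o with _ | j
    · simp only
      rw [card_le_one]
      intro x hx y hy
      rw [mem_filter, mem_range] at hx hy
      have e1 := Nat.eq_zero_of_dvd_of_lt hx.2 hx.1
      have e2 := Nat.eq_zero_of_dvd_of_lt hy.2 hy.1
      omega
    · simp only
      rw [card_le_one]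
      intro x hx y hy
      rw [mem_filter, mem_range] at hx hy
      have e1 : A j * x ≡ A j * y [MOD p] := Nat.ModEq.add_right_cancel' _ (hx.2.trans hy.2.symm)
      have e2 : x ≡ y [MOD p] :=
        Nat.ModEq.cancel_left_of_coprime ((Nat.Prime.coprime_iff_not_dvd hp).2 (hnd j)) e1
      rw [Nat.ModEq, Nat.mod_eq_of_lt hx.1, Nat.mod_eq_of_lt hy.1] at e2
      exact e2
  have h3 : ((range p).filter (fun t => CS A B i₀ p t)).card ≤ k + 1 := by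
    calc _ ≤ (univ.biUnion F).card := card_le_card h1
      _ ≤ ∑ o : Option (Fin k), (F o).card := card_biUnion_le
      _ ≤ ∑ _o : Option (Fin k), 1 := sum_le_sum h2
      _ = k + 1 := by simp
  exact_mod_cast h3

/-- the size condition -/
theorem hZ_of {b J q h : ℕ} {L V c₁ : ℝ} (hc₁ : 0 < c₁) (hq : 0 < q) (hqT : q ≤ 2 ^ 2 ^ J)
    (hL : c₁ / q ≤ L) (hTV : 16 ≤ ((2 ^ 2 ^ J : ℕ) : ℝ) * V) (hh : 8 * b + 17 ≤ 2 ^ h)
    (hT : 805 / c₁ ≤ ((2 ^ 2 ^ J : ℕ) : ℝ)) :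
    4 * (5 + 4 * (200 * (q : ℝ)) / q) * (((2 ^ 2 ^ J) ^ (4 * b + 6) : ℕ) : ℝ) ^ 2 * (8 + J) * q ≤
      2 * ((2 ^ 2 ^ (J + h) : ℕ) : ℝ) * L * V := by
  have hq0 : (0 : ℝ) < q := by exact_mod_cast hq
  have hTZ : ((2 ^ 2 ^ J : ℕ) : ℝ) ^ (8 * b + 17) ≤ ((2 ^ 2 ^ (J + h) : ℕ) : ℝ) := by
    have h1 : (2 ^ 2 ^ J) ^ (8 * b + 17) ≤ 2 ^ 2 ^ (J + h) := by
      rw [← T_pow]
      exact Nat.pow_le_pow_right (by positivity) hh
    exact_mod_cast h1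
  have hJ : (1 : ℝ) + J ≤ ((2 ^ 2 ^ J : ℕ) : ℝ) := by exact_mod_cast Jn_T J
  have hqT' : (q : ℝ) ≤ ((2 ^ 2 ^ J : ℕ) : ℝ) := by exact_mod_cast hqT
  have hT1 : (1 : ℝ) ≤ ((2 ^ 2 ^ J : ℕ) : ℝ) := by exact_mod_cast Nat.one_le_two_pow
  rw [Nat.cast_pow (2 ^ 2 ^ J) (4 * b + 6)]
  generalize ((2 ^ 2 ^ (J + h) : ℕ) : ℝ) = Z at *
  generalize ((2 ^ 2 ^ J : ℕ) : ℝ) = T at *
  have hT0 : 0 < T := by linarith
  have hJ0 : (0 : ℝ) ≤ J := Nat.cast_nonneg J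
  have hL0 : 0 < L := lt_of_lt_of_le (by positivity) hL
  have hV : 16 / T ≤ V := by
    rw [div_le_iff₀ hT0]
    linarith
  have e1 : 5 + 4 * (200 * (q : ℝ)) / q = 805 := by
    field_simp
    norm_num
  rw [e1]
  rw [div_le_iff₀ hc₁] at hT
  have h1 : 4 * 805 * (T ^ (4 * b + 6)) ^ 2 * (8 + J) * q ≤ 25760 * T ^ (8 * b + 13) * q := by
    apply mul_le_mul_of_nonneg_right _ hq0.le
    calc 4 * 805 * (T ^ (4 * b + 6)) ^ 2 * (8 + J) ≤ 4 * 805 * (T ^ (4 * b + 6)) ^ 2 * (8 * T) := by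
          apply mul_le_mul_of_nonneg_left _ (by positivity)
          linarith
      _ = _ := by ring
  refine h1.trans ?_
  have hZ0 : 0 ≤ Z := le_trans (by positivity) hTZ
  have h2 : 2 * T ^ (8 * b + 17) * (c₁ / q) * (16 / T) ≤ 2 * Z * L * V := by
    gcongr
  refine le_trans ?_ h2
  have h3 : 2 * T ^ (8 * b + 17) * (c₁ / q) * (16 / T) = 32 * c₁ * T ^ (8 * b + 16) / q := by
    have h4 : T ^ (8 * b + 17) = T ^ (8 * b + 16) * T := pow_succ _ _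
    rw [h4]
    field_simp
    norm_num
  rw [h3, le_div_iff₀ hq0]
  calc 25760 * T ^ (8 * b + 13) * q * q = 25760 * T ^ (8 * b + 13) * (q * q) := by ring
    _ ≤ 25760 * T ^ (8 * b + 13) * (T * T) := by gcongr
    _ = 32 * 805 * T ^ (8 * b + 15) := by ring
    _ ≤ 32 * (T * c₁) * T ^ (8 * b + 15) := by gcongr
    _ = _ := by ring

/-- **the exceptional case** -/
theorem exc_thm {C : ℝ} (hC : 1 ≤ C) (k : ℕ) : ∃ s₀ DE J₁ : ℕ, ∀ s : ℕ, s₀ ≤ s →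
    ∀ J0 : ℕ, J₁ ≤ J0 → ∀ (W : ℕ) (A B : Fin k → ℕ) (i₀ : Fin k) [NeZero (A i₀)],
    (∀ p : ℕ, p.Prime → ¬ p ∣ W → DE < p) → (∀ j, ∀ p : ℕ, p.Prime → (p ∣ A j ↔ p ∣ W)) →
    B i₀ < A i₀ → A i₀ ^ 8 ≤ 2 ^ 2 ^ J0 →
    (∀ σ : ℝ, 0 < σ → σ ≤ 1 →
      (∀ χ : DirichletCharacter ℂ (A i₀), χ ≠ 1 →
        ‖Lj (2 ^ 2 ^ J0) χ 1 σ‖ ≤ C * Real.log ((2 ^ 2 ^ J0 : ℕ) : ℝ)) ∧
      (σ * Real.log ((2 ^ 2 ^ J0 : ℕ) : ℝ) ≤ 1 →
        ‖Lj (2 ^ 2 ^ J0) (1 : DirichletCharacter ℂ (A i₀)) 0 σ‖ ≤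
          2 * C / (σ * Real.log ((2 ^ 2 ^ J0 : ℕ) : ℝ)))) →
    ∀ χ : DirichletCharacter ℂ (A i₀), χ ≠ 1 → χ ^ 2 = 1 → χ ((B i₀ : ℕ) : ZMod (A i₀)) = 1 →
    ‖Lj (2 ^ 2 ^ J0) χ 0 (1 / (((2 : ℝ) ^ s) ^ 4 * Real.log ((2 ^ 2 ^ J0 : ℕ) : ℝ)))‖ <
      1 / (2 * C * ((2 : ℝ) ^ s) ^ 3) →
    ∃ l : ℕ, (B i₀ + A i₀ * l).Prime ∧ B i₀ + A i₀ * l ≤ 2 ^ 2 ^ (J0 + 3 * s) ∧
      ∀ j, ∀ p ∈ PS J0 W, ¬ p ∣ B j + A j * l := by
  classical
  obtain ⟨cz₁, cz₂, hcz₁, hcz₁₂, hczb⟩ := cz_bounds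
  have hcz : CZ cz₁ cz₂ := ⟨hcz₁, hcz₁₂, hczb⟩
  obtain ⟨CR, hCR1, hRM⟩ := rho_mass
  obtain ⟨κ, hκ⟩ : ∃ κ : ℕ, κ = k + 2 := ⟨_, rfl⟩
  obtain ⟨DR, hDR, hmass⟩ := hRM κ
  obtain ⟨c₁, hc₁, hsie⟩ := Pool.Agent.H705R2.MSW.siegel_all (one_pos)
  obtain ⟨b, hb⟩ : ∃ b : ℕ, b = CR * (κ + 1) + 3 := ⟨_, rfl⟩
  obtain ⟨h, hh⟩ : ∃ h : ℕ, h = b + 8 := ⟨_, rfl⟩
  have h2h : 8 * b + 17 ≤ 2 ^ h := by
    rw [hh, pow_add]
    have h1 : b + 1 ≤ 2 ^ b := Nat.lt_two_pow_self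
    omega
  obtain ⟨n, hn⟩ := exists_nat_ge (max 1 (4 * (3 * Real.log (4 * C ^ 2))))
  have hn1 : 1 ≤ n := by
    have : (1 : ℝ) ≤ n := (le_max_left _ _).trans hn
    exact_mod_cast this
  have hn4 : 4 * (3 * Real.log (4 * C ^ 2)) ≤ n := (le_max_right _ _).trans hn
  have ev1 := ev_VT hcz (2 * κ * 2)
  have ev2 := ev_T (max 256 (805 / c₁))
  obtain ⟨J₀, hJ₀⟩ := Filter.eventually_atTop.1 (ev1.and ev2)
  refine ⟨n * (h + 2) + 1, CR * (κ + 1) + 2 * κ, max J₀ 3, ?_⟩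
  intro s hs J0 hJ0 W A B i₀ _ hWD hAW hBA hA8 hf χ hχ1 hχ2 hχB hsm
  have hJ3 : 3 ≤ J0 := (le_max_right _ _).trans hJ0
  have hs1 : 1 ≤ s := by omega
  have hA0 : 0 < A i₀ := Nat.pos_of_ne_zero (NeZero.ne _)
  have hz32 : 32 ≤ 2 ^ 2 ^ J0 := by
    calc 32 ≤ 2 ^ 2 ^ 3 := by norm_num
      _ ≤ _ := Nat.pow_le_pow_right (by norm_num) (Nat.pow_le_pow_right (by norm_num) hJ3)
  have hD1 : (1 : ℝ) < 2 ^ s := one_lt_pow₀ (by norm_num) (by omega)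
  have hm := mass_bd hC hD1 hz32 hA8 hf χ hχ1 hχ2 hsm (N := 2 ^ 2 ^ (J0 + 3 * s)) (by
    apply le_of_eq
    push_cast
    rw [Real.log_pow, Real.log_pow]
    push_cast
    rw [pow_add (2 : ℝ) J0 (3 * s), mul_comm 3 s, pow_mul (2 : ℝ) s 3]
    ring)
  have hfp : ∀ p : ℕ, 0 ≤ (1 + (χ (p : ZMod (A i₀))).re) / p := by
    intro p
    apply div_nonneg _ (Nat.cast_nonneg p)
    have h3 : |(χ (p : ZMod (A i₀))).re| ≤ 1 :=
      (Complex.abs_re_le_norm _).trans (DirichletCharacter.norm_le_one _ _)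
    linarith [(abs_le.1 h3).1]
  obtain ⟨i, hi, hblock⟩ := light_block hfp (by omega) hm hn1 hn4 (h := h + 2) (by omega)
  obtain ⟨J, hJ⟩ : ∃ J : ℕ, J = J0 + i * (h + 2) := ⟨_, rfl⟩
  have hJJ0 : J0 ≤ J := by omega
  have hJh : J + (h + 2) ≤ J0 + 3 * s := by
    have h1 : (i + 1) * (h + 2) ≤ n * (h + 2) := Nat.mul_le_mul_right _ hi
    have h2 : (i + 1) * (h + 2) = i * (h + 2) + (h + 2) := by ring
    omega
  obtain ⟨v1, v2⟩ := hJ₀ J (by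
    have := (le_max_left J₀ 3).trans hJ0
    omega)
  have hT256 : (256 : ℝ) ≤ ((2 ^ 2 ^ J : ℕ) : ℝ) := (le_max_left _ _).trans v2
  have hT805 : 805 / c₁ ≤ ((2 ^ 2 ^ J : ℕ) : ℝ) := (le_max_right _ _).trans v2
  have hqT : A i₀ ≤ 2 ^ 2 ^ J := by
    calc A i₀ ≤ A i₀ ^ 8 := Nat.le_self_pow (by norm_num) _
      _ ≤ 2 ^ 2 ^ J0 := hA8
      _ ≤ _ := Nat.pow_le_pow_right (by norm_num) (Nat.pow_le_pow_right (by norm_num) hJJ0)
  have hRC := RC_of χ hχ2 hχ1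
  obtain ⟨ψ, hψ⟩ : ∃ ψ : ℕ → ℝ, ψ = fun n : ℕ => (χ (n : ZMod (A i₀))).re := ⟨_, rfl⟩
  rw [← hψ] at hRC
  have hL : c₁ / (A i₀ : ℝ) ≤ ‖χ.LFunction 1‖ := by
    have h1 := hsie (A i₀) χ hχ2 hχ1
    rw [Real.rpow_neg_one] at h1
    exact h1
  have hLC := CS_LC A B i₀
  have hPS : ∀ p ∈ PS J W, p.Prime ∧ ¬ p ∣ W ∧ p < 2 ^ 2 ^ J := fun p hp => by
    have h1 := mem_PS.1 hp
    exact ⟨h1.1, h1.2.2, h1.2.1⟩
  have hnd : ∀ p ∈ PS J W, ∀ j, ¬ p ∣ A j := fun p hp j hj =>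
    (hPS p hp).2.1 ((hAW j p (hPS p hp).1).1 hj)
  have hgd : ∀ p ∈ PS J W, 0 ≤ gd (CS A B i₀) ψ p ∧ gd (CS A B i₀) ψ p ≤ (κ : ℕ) / (p : ℝ) := by
    intro p hp
    have h1 := gd_bd hRC hLC (hPS p hp).1 (CS_wd A B i₀ (hPS p hp).1 (hnd p hp))
    rw [hκ]
    exact h1
  have hDE : ∀ p ∈ PS J W, CR * (κ + 1) + 2 * κ < p := fun p hp =>
    hWD p (hPS p hp).1 (hPS p hp).2.1
  have mP := hmass b J (CR * (κ + 1)) (PS J W) (gd (CS A B i₀) ψ) (by omega) le_rfl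
    (fun p hp => ⟨(hPS p hp).1, by have := hDE p hp; omega, (hPS p hp).2.2⟩)
    (fun p hp => by
      refine ⟨(hgd p hp).1, (hgd p hp).2.trans ?_⟩
      have h2 : (2 : ℝ) ≤ p := by exact_mod_cast (hPS p hp).1.two_le
      apply div_le_div_of_nonneg_left (Nat.cast_nonneg _) (by linarith) (by linarith))
  have hVP := VP_gen κ J (PS J W) (gd (CS A B i₀) ψ) (fun p hp => ⟨(hPS p hp).1, (hPS p hp).2.2⟩)
    (fun p hp => by have := hDE p hp; omega) (fun p hp => (hgd p hp).2)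
  obtain ⟨V', hV'⟩ : ∃ V' : ℝ, V' = ∏ p ∈ PS J W, (1 - gd (CS A B i₀) ψ p) := ⟨_, rfl⟩
  rw [← hV'] at mP hVP
  have hTV : 16 ≤ ((2 ^ 2 ^ J : ℕ) : ℝ) * V' := by
    have hx0 : 0 < V (2 ^ 2 ^ J) ^ (2 * κ) := pow_pos (V_pos _) _
    rw [pow_mul] at v1
    have hT0 : (0 : ℝ) < ((2 ^ 2 ^ J : ℕ) : ℝ) := by linarith
    generalize V (2 ^ 2 ^ J) ^ (2 * κ) = x at *
    generalize ((2 ^ 2 ^ J : ℕ) : ℝ) = T at *
    have h1 : 16 ≤ T * x := by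
      by_contra hcon
      push Not at hcon
      have h2 : 1 ≤ T * x ^ 2 := by
        rw [div_le_iff₀ hT0] at v1
        linarith
      have h3 : (T * x) ^ 2 < 16 ^ 2 := pow_lt_pow_left₀ hcon (by positivity) (by norm_num)
      have h4 : T * 1 ≤ T * (T * x ^ 2) := mul_le_mul_of_nonneg_left h2 hT0.le
      have h5 : T * (T * x ^ 2) = (T * x) ^ 2 := by ring
      linarith
    exact h1.trans (mul_le_mul_of_nonneg_left hVP hT0.le)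
  have hb8 : (1 / 2 : ℝ) ^ b ≤ 1 / 8 := by
    have h1 : (1 / 2 : ℝ) ^ b ≤ (1 / 2) ^ 3 :=
      pow_le_pow_of_le_one (by norm_num) (by norm_num) (by omega)
    norm_num at h1 ⊢
    linarith
  obtain ⟨m, hm1, hm2, hm3, hm4⟩ := ex_prime hRC (norm_nonneg _) hLC (P := PS J W) (r := B i₀)
    (Z := 2 ^ 2 ^ (J + h)) (V := V') (b := b) (J := J)
    (fun p hp => ⟨(hPS p hp).1, ((Nat.Prime.coprime_iff_not_dvd (hPS p hp).1).2 (hnd p hp i₀)).symm⟩)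
    (fun p hp => (hPS p hp).2.2)
    (fun p hp hpT hpq => mem_PS.2 ⟨hp, hpT, fun hpW => hpq ((hAW i₀ p hp).2 hpW)⟩)
    (by rw [hψ]; simp only; rw [hχB, Complex.one_re]) mP.2.1 hb8 mP.2.2.1 mP.2.2.2.1
    mP.2.2.2.2.2.1 (by
      refine le_trans ?_ hblock
      have e1 : (2 ^ 2 ^ (J + h)) ^ 2 = 2 ^ 2 ^ (J + h + 1) := by
        rw [← pow_mul, ← pow_succ]
      rw [e1, hψ]
      apply sum_le_sum_of_subset_of_nonneg
      · intro p hp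
        rw [mem_filter, mem_Icc] at hp
        rw [mem_filter, mem_Ico]
        have e2 : J0 + (i + 1) * (h + 2) = J + (h + 2) := by
          rw [hJ]
          ring
        rw [e2, ← hJ]
        have e3 : 2 ^ 2 ^ (J + h + 1) < 2 ^ 2 ^ (J + (h + 2)) :=
          Nat.pow_lt_pow_right (by norm_num) (Nat.pow_lt_pow_right (by norm_num) (by omega))
        exact ⟨⟨hp.2.2, by omega⟩, hp.2.1⟩
      · intro p _ _
        exact hfp p) hTV Nat.one_le_two_pow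
    (hZ_of hc₁ hA0 hqT hL hTV h2h hT805)
  have hmod : m % A i₀ = B i₀ := by
    have h1 := hm2
    rw [Nat.ModEq, Nat.mod_eq_of_lt hBA] at h1
    exact h1
  have hml : B i₀ + A i₀ * (m / A i₀) = m := by
    rw [← hmod]
    exact Nat.mod_add_div m (A i₀)
  refine ⟨m / A i₀, ?_, ?_, ?_⟩
  · rw [hml]
    exact hm3
  · rw [hml]
    refine hm1.trans ?_
    have e1 : (2 ^ 2 ^ (J + h)) ^ 4 = 2 ^ 2 ^ (J + (h + 2)) := by
      rw [← pow_mul]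
      congr 1
      rw [← add_assoc, pow_succ, pow_succ]
      ring
    rw [e1]
    exact Nat.pow_le_pow_right (by norm_num) (Nat.pow_le_pow_right (by norm_num) hJh)
  · intro j p hp hpd
    have h1 := mem_PS.1 hp
    have h2 : p ∈ PS J W := mem_PS.2 ⟨h1.1, lt_of_lt_of_le h1.2.1
      (Nat.pow_le_pow_right (by norm_num) (Nat.pow_le_pow_right (by norm_num) hJJ0)), h1.2.2⟩
    apply hm4 p h2
    right
    refine ⟨j, ?_⟩
    have h3 : A j * m + A i₀ * B j = A j * B i₀ + A i₀ * (B j + A j * (m / A i₀)) := by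
      calc A j * m + A i₀ * B j = A j * (B i₀ + A i₀ * (m / A i₀)) + A i₀ * B j := by rw [hml]
        _ = _ := by ring
    rw [h3]
    have h4 : A i₀ * (B j + A j * (m / A i₀)) ≡ 0 [MOD p] :=
      (Nat.modEq_zero_iff_dvd).2 (hpd.mul_left _)
    calc A j * B i₀ + A i₀ * (B j + A j * (m / A i₀)) ≡ A j * B i₀ + 0 [MOD p] := h4.add_left _
      _ = A j * B i₀ := add_zero _

end Run7.h296
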